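import Pool.Agent.H573.AHB.GenA

/-!
The configurations for the equation `A₀ c² x^{2s} + B₀ d² y^{2s} = z^p`.
-/

namespace Pool.Agent.H573.AHB

open Polynomial Filter

/-- the configurations -/
def BdGen (δ : ℤ) (A B m c d : ℕ) (q n : ℕ) : Prop :=
  ∃ i ∈ c.divisors ×ˢ d.divisors,
    ((¬ (2 * m + 1) ∣ c ∧ ¬ (2 * m + 1) ∣ d) ∧
      BadG δ m (A * i.1) 1 i.2 1 (A ^ m * (c / i.1)) (A ^ m * (d / i.2)) q n) ∨
    ((2 ≤ B * d ∧ Nat.Coprime i.1 (c / i.1)) ∧
      BadG δ m (A * i.1) (2 * m + 1) i.2 1 (A ^ m * ((2 * m + 1) * (c / i.1)))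
        (A ^ m * (d / i.2)) q n) ∨
    ((2 ≤ A * c ∧ Nat.Coprime i.2 (d / i.2)) ∧
      BadG δ m (A * i.1) 1 i.2 (2 * m + 1) (A ^ m * (c / i.1))
        (A ^ m * ((2 * m + 1) * (d / i.2))) q n)

/-- the admissible parameters -/
def OKG (A B m c d : ℕ) : Prop :=
  1 ≤ m ∧ (2 * m + 1).Prime ∧ 1 ≤ A ∧ 1 ≤ B ∧ 1 ≤ c ∧ 1 ≤ d ∧ Nat.Coprime (A * c) (B * d) ∧
    ¬ (2 * m + 1) ∣ A * B ∧ A * c ^ 2 + B * d ^ 2 < (A + B) ^ (2 * m + 1)

lemma n_aux1 (A B m c' c'' d' d'' : ℕ) : 1 ^ (4 * m) * ((A ^ m * c'') ^ 2 *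
    (1 ^ 2 * (A * c') ^ 2) + A * B * d' ^ 2 * (A ^ m * d'') ^ 2) =
    A ^ (2 * m + 1) * (A * (c' * c'') ^ 2 + B * (d' * d'') ^ 2) := by ring

lemma n_aux2 (P A B m c' c'' d' d'' : ℕ) : 1 ^ (4 * m) * ((P ^ (2 * m) * (A ^ m * (P * c''))) ^ 2 *
    (1 ^ 2 * (A * c') ^ 2) + A * B * (d' * P) ^ 2 * (P ^ (2 * m) * (A ^ m * d'')) ^ 2) =
    (P ^ 2 * A) ^ (2 * m + 1) * (A * (c' * c'') ^ 2 + B * (d' * d'') ^ 2) := by ring

lemma n_aux3 (P A B m c' c'' d' d'' : ℕ) : P ^ (4 * m) * ((A ^ m * c'') ^ 2 *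
    (P ^ 2 * (A * c') ^ 2) + A * B * d' ^ 2 * (A ^ m * (P * d'')) ^ 2) =
    (P ^ 2 * A) ^ (2 * m + 1) * (A * (c' * c'') ^ 2 + B * (d' * d'') ^ 2) := by ring

theorem gen_sparse' (δ : ℤ) (A B m c d : ℕ) (hδ : δ.natAbs = A * B) (h : OKG A B m c d) :
    Sparse (BdGen δ A B m c d) := by
  classical
  obtain ⟨hm, hp, hA, hB, hc, hd, hcd, hpAB, hsz⟩ := h
  have hδ0 : δ ≠ 0 := by
    rintro rfl
    rw [Int.natAbs_zero] at hδ
    have := Nat.mul_pos hA hB
    omega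
  have hpδ : ¬ ((2 * m + 1 : ℕ) : ℤ) ∣ δ := by
    intro h
    have h3 := Int.natAbs_dvd_natAbs.mpr h
    rw [Int.natAbs_natCast, hδ] at h3
    exact hpAB h3
  have hpA : ¬ (2 * m + 1) ∣ A := fun h => hpAB (h.mul_right _)
  have hpB : ¬ (2 * m + 1) ∣ B := fun h => hpAB (h.mul_left _)
  apply Sparse.exists_mem
  rintro ⟨c', d'⟩ hi
  rw [Finset.mem_product] at hi
  obtain ⟨h1, h2⟩ := hi
  simp only at h1 h2
  have hc1 := Nat.dvd_of_mem_divisors h1
  have hd1 := Nat.dvd_of_mem_divisors h2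
  have hc' : 1 ≤ c' := Nat.pos_of_dvd_of_pos hc1 hc
  have hd' : 1 ≤ d' := Nat.pos_of_dvd_of_pos hd1 hd
  simp only
  obtain ⟨c'', ec⟩ := hc1
  obtain ⟨d'', ed⟩ := hd1
  have ec' : c / c' = c'' := by rw [ec, Nat.mul_div_cancel_left _ hc']
  have ed' : d / d' = d'' := by rw [ed, Nat.mul_div_cancel_left _ hd']
  rw [ec', ed']
  have hc'' : 1 ≤ c'' := by
    rcases Nat.eq_zero_or_pos c'' with h | h
    · rw [h] at ec; omega
    · exact h
  have hd'' : 1 ≤ d'' := by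
    rcases Nat.eq_zero_or_pos d'' with h | h
    · rw [h] at ed; omega
    · exact h
  have hccd : Nat.Coprime c'' d'' := by
    have h3 : Nat.Coprime c d := (Nat.Coprime.coprime_mul_left hcd).coprime_mul_left_right
    apply Nat.Coprime.coprime_dvd_left (Dvd.intro_left c' ec.symm)
    exact Nat.Coprime.coprime_dvd_right (Dvd.intro_left d' ed.symm) h3
  have hpow : ∀ r t : ℕ, 1 ≤ r → 1 ≤ t →
      A * c ^ 2 + B * d ^ 2 < (A * r ^ 2 + B * t ^ 2) ^ (2 * m + 1) := by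
    intro r t hr ht
    refine lt_of_lt_of_le hsz (Nat.pow_le_pow_left ?_ _)
    have h3 : A * 1 ≤ A * r ^ 2 := Nat.mul_le_mul_left _ (Nat.one_le_pow _ _ hr)
    have h4 : B * 1 ≤ B * t ^ 2 := Nat.mul_le_mul_left _ (Nat.one_le_pow _ _ ht)
    omega
  have hP1 : 1 ≤ 2 * m + 1 := by omega
  have hAm : 1 ≤ A ^ m := Nat.one_le_pow _ _ hA
  have hAc' : 1 ≤ A * c' := Nat.mul_pos hA hc'
  have hAc'' : 1 ≤ A ^ m * c'' := Nat.mul_pos hAm hc''
  have hAd'' : 1 ≤ A ^ m * d'' := Nat.mul_pos hAm hd''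
  refine Sparse.or ?_ (Sparse.or ?_ ?_)
  · -- first case
    refine Sparse.and_left ?_
    rintro ⟨hpc, hpd⟩
    refine sparse_badG δ m (A * c') 1 d' 1 (A ^ m * c'') (A ^ m * d'') hδ0 hm hAc' le_rfl hd'
      le_rfl hAc'' hAd'' hp hpδ ?_ ?_ ?_
    · rw [mul_one, one_pow, one_mul, one_mul]
      refine ph_HT_size δ m (A * c') d' 1 _ _ hAc' le_rfl ?_
      rw [hδ, n_aux1, ← ec, ← ed]
      have e1 : 1 ^ 2 * (A * c') ^ 2 + A * B * d' ^ 2 = A * (A * c' ^ 2 + B * d' ^ 2) := by ring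
      rw [e1, mul_pow]
      exact Nat.mul_lt_mul_of_pos_left (hpow _ _ hc' hd') (by positivity)
    · left
      rw [one_pow, one_mul, hδ]
      intro h
      apply hpc
      rw [ec]
      have h3 : A ^ m * c'' = A ^ m * ((2 * m + 1) * (B ^ m * d' ^ (2 * m))) := by
        rw [h, mul_pow]
        ring
      rw [Nat.eq_of_mul_eq_mul_left hAm h3]
      exact Dvd.dvd.mul_left (dvd_mul_right _ _) _
    · right
      rw [one_pow, one_mul]
      intro h
      apply hpd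
      rw [ed]
      have h3 : A ^ m * d'' = A ^ m * ((2 * m + 1) * (A ^ m * c' ^ (2 * m))) := by
        rw [h, mul_pow]
        ring
      rw [Nat.eq_of_mul_eq_mul_left hAm h3]
      exact Dvd.dvd.mul_left (dvd_mul_right _ _) _
  · -- `p ∣ u`
    refine Sparse.and_left ?_
    rintro ⟨hd2, hco⟩
    refine sparse_badG δ m (A * c') (2 * m + 1) d' 1 (A ^ m * ((2 * m + 1) * c'')) (A ^ m * d'')
      hδ0 hm hAc' hP1 hd' le_rfl
      (Nat.mul_pos hAm (Nat.mul_pos hP1 hc'')) hAd'' hp hpδ ?_ ?_ ?_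
    · by_cases hpc' : (2 * m + 1) ∣ c'
      · obtain ⟨r, hr⟩ := hpc'
        have hr1 : 1 ≤ r := by
          rcases Nat.eq_zero_or_pos r with h | h
          · rw [h] at hr; omega
          · exact h
        refine ph_HT_size δ m (A * c') _ 1 _ _ hAc' le_rfl ?_
        rw [hδ, n_aux2, ← ec, ← ed]
        have e2 : 1 ^ 2 * (A * c') ^ 2 + A * B * (d' * (2 * m + 1)) ^ 2 =
            ((2 * m + 1) ^ 2 * A) * (A * r ^ 2 + B * d' ^ 2) := by
          rw [hr]
          ring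
        rw [e2, mul_pow (_ * A)]
        exact Nat.mul_lt_mul_of_pos_left (hpow _ _ hr1 hd') (pow_pos (Nat.mul_pos (pow_pos hP1 2) hA) _)
      · refine ph_HT_a m hm (2 * m + 1) hp δ (A * c') _ 1 _ _ ?_ ?_ (dvd_mul_left _ _) ?_ ?_
        · intro h
          rcases hp.dvd_mul.mp h with h3 | h3
          · exact hpA h3
          · exact hpc' h3
        · intro h
          have := Nat.le_of_dvd one_pos h
          omega
        · exact Nat.mul_ne_zero (by omega) (by omega)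
        · exact Dvd.dvd.mul_left (Dvd.dvd.mul_left (dvd_mul_right _ _) _) _
    · rw [one_pow, one_mul, one_mul, hδ]
      by_contra hcon
      push Not at hcon
      obtain ⟨g1, g2⟩ := hcon
      have g3 : c'' = B ^ m * d' ^ (2 * m) := by
        have h3 : (A ^ m * (2 * m + 1)) * c'' = (A ^ m * (2 * m + 1)) * (B ^ m * d' ^ (2 * m)) := by
          calc _ = A ^ m * ((2 * m + 1) * c'') := by ring
            _ = _ := by rw [g1, mul_pow]; ring
        exact Nat.eq_of_mul_eq_mul_left (Nat.mul_pos hAm hP1) h3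
      have g4 : d'' = B ^ m * d' ^ (2 * m) := by
        have h3 : A ^ m * d'' = A ^ m * (B ^ m * d' ^ (2 * m)) := by
          rw [g2, mul_pow]
          ring
        exact Nat.eq_of_mul_eq_mul_left hAm h3
      rw [g3, ← g4] at hccd
      have g5 : d'' = 1 := (Nat.coprime_self _).mp hccd
      rw [g5] at g4
      have g6 : B ^ m = 1 ∧ d' ^ (2 * m) = 1 := mul_eq_one.mp g4.symm
      have g7 : B = 1 := (Nat.pow_eq_one.mp g6.1).resolve_right (by omega)
      have g8 : d' = 1 := (Nat.pow_eq_one.mp g6.2).resolve_right (by omega)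
      rw [ed, g7, g8, g5] at hd2
      omega
    · left
      intro h
      have h3 : A ^ m * ((2 * m + 1) ^ (2 * m) * ((2 * m + 1) * c'')) =
          A ^ m * (A ^ m * c' ^ (2 * m)) := by
        calc _ = (2 * m + 1) ^ (2 * m) * (A ^ m * ((2 * m + 1) * c'')) := by ring
          _ = _ := by rw [h]; ring
      exact no_val' m hm hp A c' c'' hpA hco (Nat.eq_of_mul_eq_mul_left hAm h3)
  · -- `p ∣ v`
    refine Sparse.and_left ?_
    rintro ⟨hc2, hco⟩
    refine sparse_badG δ m (A * c') 1 d' (2 * m + 1) (A ^ m * c'') (A ^ m * ((2 * m + 1) * d''))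
      hδ0 hm hAc' le_rfl hd' hP1
      hAc'' (Nat.mul_pos hAm (Nat.mul_pos hP1 hd'')) hp hpδ ?_ ?_ ?_
    · rw [mul_one, one_pow, one_mul, one_mul]
      by_cases hpd' : (2 * m + 1) ∣ d'
      · obtain ⟨r, hr⟩ := hpd'
        have hr1 : 1 ≤ r := by
          rcases Nat.eq_zero_or_pos r with h | h
          · rw [h] at hr; omega
          · exact h
        refine ph_HT_size δ m (A * c') _ _ _ _ hAc' hP1 ?_
        rw [hδ, n_aux3, ← ec, ← ed]
        have e2 : (2 * m + 1) ^ 2 * (A * c') ^ 2 + A * B * d' ^ 2 =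
            ((2 * m + 1) ^ 2 * A) * (A * c' ^ 2 + B * r ^ 2) := by
          rw [hr]
          ring
        rw [e2, mul_pow (_ * A)]
        exact Nat.mul_lt_mul_of_pos_left (hpow _ _ hc' hr1) (pow_pos (Nat.mul_pos (pow_pos hP1 2) hA) _)
      · exact ph_HT_b m hm (2 * m + 1) hp δ hpδ (A * c') _ _ _ _ hpd' dvd_rfl
    · right
      rw [hδ]
      intro h
      have h3 : A ^ m * ((2 * m + 1) ^ (2 * m) * ((2 * m + 1) * d'')) =
          A ^ m * (B ^ m * d' ^ (2 * m)) := by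
        calc _ = (2 * m + 1) ^ (2 * m) * (A ^ m * ((2 * m + 1) * d'')) := by ring
          _ = _ := by rw [h, mul_pow]; ring
      exact no_val' m hm hp B d' d'' hpB hco (Nat.eq_of_mul_eq_mul_left hAm h3)
    · rw [one_pow, one_mul, one_mul]
      by_contra hcon
      push Not at hcon
      obtain ⟨g1, g2⟩ := hcon
      have g3 : d'' = A ^ m * c' ^ (2 * m) := by
        have h3 : (A ^ m * (2 * m + 1)) * d'' = (A ^ m * (2 * m + 1)) * (A ^ m * c' ^ (2 * m)) := by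
          calc _ = A ^ m * ((2 * m + 1) * d'') := by ring
            _ = _ := by rw [g2, mul_pow]; ring
        exact Nat.eq_of_mul_eq_mul_left (Nat.mul_pos hAm hP1) h3
      have g4 : c'' = A ^ m * c' ^ (2 * m) := by
        have h3 : A ^ m * c'' = A ^ m * (A ^ m * c' ^ (2 * m)) := by
          rw [g1, mul_pow]
          ring
        exact Nat.eq_of_mul_eq_mul_left hAm h3
      rw [g3, ← g4] at hccd
      have g5 : c'' = 1 := (Nat.coprime_self _).mp hccd
      rw [g5] at g4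
      have g6 : A ^ m = 1 ∧ c' ^ (2 * m) = 1 := mul_eq_one.mp g4.symm
      have g7 : A = 1 := (Nat.pow_eq_one.mp g6.1).resolve_right (by omega)
      have g8 : c' = 1 := (Nat.pow_eq_one.mp g6.2).resolve_right (by omega)
      rw [ec, g7, g8, g5] at hc2
      omega

end Pool.Agent.H573.AHB
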