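import Pool.Agent.H573.AHB.TuB
import Pool.Agent.H573.AHB.GenB

/-!
The configurations for the equation `A₀ c² x^{2s} + B₀ d² y^{2s} = z^p`, with explicit constants.
-/

set_option autoImplicit false

namespace Pool.Agent.H573.AHB

open Polynomial

lemma UCount.zero {Bd : ℕ → ℕ → Prop} (h : ∀ q n, ¬ Bd q n) (q0 : ℕ) : UCount Bd 0 q0 :=
  (ucount_false q0).mono (fun q n _ _ _ hb => h q n hb)

lemma UCount.exists_mem {ι : Type*} (F : Finset ι) (Bd : ι → ℕ → ℕ → Prop) (C : ℝ) (q0 : ℕ)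
    (h : ∀ i ∈ F, UCount (Bd i) C q0) :
    UCount (fun q n => ∃ i ∈ F, Bd i q n) (F.card * C) q0 := by
  classical
  induction F using Finset.induction_on with
  | empty =>
    refine (UCount.zero (fun q n => ?_) q0).weak ?_ le_rfl
    · rintro ⟨i, hi, _⟩
      exact absurd hi (Finset.notMem_empty i)
    · simp
  | insert a F ha ih =>
    have h1 := h a (Finset.mem_insert_self a F)
    have h2 := ih (fun i hi => h i (Finset.mem_insert_of_mem hi))
    refine ((h1.or h2).mono ?_).weak ?_ le_rfl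
    · rintro q n _ _ _ ⟨i, hi, hb⟩
      rcases Finset.mem_insert.mp hi with rfl | hi
      · exact Or.inl hb
      · exact Or.inr ⟨i, hi, hb⟩
    · rw [Finset.card_insert_of_notMem ha]
      push_cast
      apply le_of_eq
      ring

lemma UCount.and_left {P : Prop} {Bd : ℕ → ℕ → Prop} {C : ℝ} {q0 : ℕ} (hC : 0 ≤ C)
    (h : P → UCount Bd C q0) : UCount (fun q n => P ∧ Bd q n) C q0 := by
  by_cases hP : P
  · exact (h hP).mono (fun q n _ _ _ hb => hb.2)
  · exact (UCount.zero (fun q n hb => hP hb.1) q0).weak hC le_rfl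

/-- the configurations, the second case included for all coefficients -/
def BdGF (δ : ℤ) (A B m c d : ℕ) (q n : ℕ) : Prop :=
  ∃ i ∈ c.divisors ×ˢ d.divisors,
    ((¬ (2 * m + 1) ∣ c ∧ ¬ (2 * m + 1) ∣ d) ∧
      BadF δ m (A * i.1) 1 i.2 1 (A ^ m * (c / i.1)) (A ^ m * (d / i.2)) False False 1 q n) ∨
    (Nat.Coprime i.1 (c / i.1) ∧
      BadF δ m (A * i.1) (2 * m + 1) i.2 1 (A ^ m * ((2 * m + 1) * (c / i.1)))
        (A ^ m * (d / i.2)) (B * d = 1) False 1 q n) ∨
    (Nat.Coprime i.2 (d / i.2) ∧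
      BadF δ m (A * i.1) 1 i.2 (2 * m + 1) (A ^ m * (c / i.1))
        (A ^ m * ((2 * m + 1) * (d / i.2))) False (A * c = 1) 1 q n)

lemma natCast_zmod_ne {q : ℕ} {N x : ℕ} (hN : ¬ q ∣ N) (hx : x ∣ N) :
    ((x : ℕ) : ZMod q) ≠ 0 := by
  intro h
  rw [ZMod.natCast_eq_zero_iff] at h
  exact hN (h.trans hx)

theorem ucount_gen (δ : ℤ) (A B m c d T : ℕ) (L : ℝ) (hδ : δ.natAbs = A * B)
    (h : OKG A B m c d) (hT : A ^ (m + 1) * ((2 * m + 1) * (c * (d * B))) ≤ T)
    (hL : Real.log T ≤ L) (q0 : ℕ) (qm : 2 * m + 1 ≤ q0)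
    (hnz : ∀ q : ℕ, q.Prime → q0 < q → ¬ q ∣ A * B * (c * d)) :
    UCount (BdGF δ A B m c d)
      (((c.divisors ×ˢ d.divisors).card : ℕ) * (3 * (3000000 * ((m + 1) * (L + 2)) ^ 2))) q0 := by
  classical
  obtain ⟨hm, hp, hA, hB, hc, hd, hcd, hpAB, hsz⟩ := h
  have hδ0 : δ ≠ 0 := by
    rintro rfl
    rw [Int.natAbs_zero] at hδ
    have := Nat.mul_pos hA hB
    omega
  have hpδ : ¬ ((2 * m + 1 : ℕ) : ℤ) ∣ δ := by
    intro h
    have h3 := Int.natAbs_dvd_natAbs.mpr h
    rw [Int.natAbs_natCast, hδ] at h3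
    exact hpAB h3
  have hpA : ¬ (2 * m + 1) ∣ A := fun h => hpAB (h.mul_right _)
  have hpB : ¬ (2 * m + 1) ∣ B := fun h => hpAB (h.mul_left _)
  have hK0 : (0 : ℝ) ≤ 3000000 * ((m + 1) * (L + 2)) ^ 2 := by positivity
  apply UCount.exists_mem
  rintro ⟨c', d'⟩ hi
  rw [Finset.mem_product] at hi
  obtain ⟨h1, h2⟩ := hi
  simp only at h1 h2
  have hc1 := Nat.dvd_of_mem_divisors h1
  have hd1 := Nat.dvd_of_mem_divisors h2
  have hc' : 1 ≤ c' := Nat.pos_of_dvd_of_pos hc1 hc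
  have hd' : 1 ≤ d' := Nat.pos_of_dvd_of_pos hd1 hd
  simp only
  obtain ⟨c'', ec⟩ := hc1
  obtain ⟨d'', ed⟩ := hd1
  have ec' : c / c' = c'' := by rw [ec, Nat.mul_div_cancel_left _ hc']
  have ed' : d / d' = d'' := by rw [ed, Nat.mul_div_cancel_left _ hd']
  rw [ec', ed']
  have hc'' : 1 ≤ c'' := by
    rcases Nat.eq_zero_or_pos c'' with h | h
    · rw [h] at ec; omega
    · exact h
  have hd'' : 1 ≤ d'' := by
    rcases Nat.eq_zero_or_pos d'' with h | h
    · rw [h] at ed; omega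
    · exact h
  have hccd : Nat.Coprime c'' d'' := by
    have h3 : Nat.Coprime c d := (Nat.Coprime.coprime_mul_left hcd).coprime_mul_left_right
    apply Nat.Coprime.coprime_dvd_left (Dvd.intro_left c' ec.symm)
    exact Nat.Coprime.coprime_dvd_right (Dvd.intro_left d' ed.symm) h3
  have hpow : ∀ r t : ℕ, 1 ≤ r → 1 ≤ t →
      A * c ^ 2 + B * d ^ 2 < (A * r ^ 2 + B * t ^ 2) ^ (2 * m + 1) := by
    intro r t hr ht
    refine lt_of_lt_of_le hsz (Nat.pow_le_pow_left ?_ _)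
    have h3 : A * 1 ≤ A * r ^ 2 := Nat.mul_le_mul_left _ (Nat.one_le_pow _ _ hr)
    have h4 : B * 1 ≤ B * t ^ 2 := Nat.mul_le_mul_left _ (Nat.one_le_pow _ _ ht)
    omega
  have hP1 : 1 ≤ 2 * m + 1 := by omega
  have hAm : 1 ≤ A ^ m := Nat.one_le_pow _ _ hA
  have hAc' : 1 ≤ A * c' := Nat.mul_pos hA hc'
  have hAc'' : 1 ≤ A ^ m * c'' := Nat.mul_pos hAm hc''
  have hAd'' : 1 ≤ A ^ m * d'' := Nat.mul_pos hAm hd''
  -- all parameters divide the following number
  obtain ⟨W, hW⟩ : ∃ W, W = A ^ (m + 1) * ((2 * m + 1) * (c * (d * B))) := ⟨_, rfl⟩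
  have hW0 : 0 < W := by rw [hW]; positivity
  have hWq : ∀ q : ℕ, q.Prime → q0 < q → ¬ q ∣ W := by
    intro q hq hlt hd
    have h3 := hnz q hq hlt
    rw [hW] at hd
    rcases (hq.dvd_mul).mp hd with g | g
    · exact h3 (((hq.dvd_of_dvd_pow g).mul_right _).mul_right _)
    rcases (hq.dvd_mul).mp g with g | g
    · have := Nat.le_of_dvd (by omega) g
      omega
    rcases (hq.dvd_mul).mp g with g | g
    · exact h3 ((g.mul_right _).mul_left _)
    rcases (hq.dvd_mul).mp g with g | g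
    · exact h3 ((g.mul_left _).mul_left _)
    · exact h3 ((g.mul_left _).mul_right _)
  have k1 : A * c' ∣ W := by
    rw [hW, ec]
    exact ⟨A ^ m * ((2 * m + 1) * (c'' * (d * B))), by ring⟩
  have k2 : (1 : ℕ) ∣ W := one_dvd _
  have k3 : d' ∣ W := by
    rw [hW, ed]
    exact ⟨A ^ (m + 1) * ((2 * m + 1) * (c * (d'' * B))), by ring⟩
  have k4 : 2 * m + 1 ∣ W := by
    rw [hW]
    exact ⟨A ^ (m + 1) * (c * (d * B)), by ring⟩
  have k5 : A ^ m * c'' ∣ W := by
    rw [hW, ec]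
    exact ⟨A * ((2 * m + 1) * (c' * (d * B))), by ring⟩
  have k6 : A ^ m * d'' ∣ W := by
    rw [hW, ed]
    exact ⟨A * ((2 * m + 1) * (c * (d' * B))), by ring⟩
  have k7 : A ^ m * ((2 * m + 1) * c'') ∣ W := by
    rw [hW, ec]
    exact ⟨A * (c' * (d * B)), by ring⟩
  have k8 : A ^ m * ((2 * m + 1) * d'') ∣ W := by
    rw [hW, ed]
    exact ⟨A * (c * (d' * B)), by ring⟩
  have k9 : A * B ∣ W := by
    rw [hW]
    exact ⟨A ^ m * ((2 * m + 1) * (c * d)), by ring⟩
  have tle : ∀ x, x ∣ W → x ≤ T := fun x hx => (Nat.le_of_dvd hW0 hx).trans (hW ▸ hT)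
  have tne : ∀ q : ℕ, q.Prime → q0 < q → ∀ x, x ∣ W → ((x : ℕ) : ZMod q) ≠ 0 :=
    fun q hq hlt x hx => natCast_zmod_ne (hWq q hq hlt) hx
  have tδ : δ.natAbs ≤ T := by rw [hδ]; exact tle _ k9
  have tδq : ∀ q : ℕ, q.Prime → q0 < q → ((δ : ℤ) : ZMod q) ≠ 0 := by
    intro q hq hlt h
    rw [ZMod.intCast_zmod_eq_zero_iff_dvd] at h
    have h3 := Int.natAbs_dvd_natAbs.mpr h
    rw [Int.natAbs_natCast, hδ] at h3
    exact hWq q hq hlt (h3.trans k9)
  have hsum : (3 * (3000000 * ((m + 1) * (L + 2)) ^ 2) : ℝ) = 3000000 * ((m + 1) * (L + 2)) ^ 2 +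
      (3000000 * ((m + 1) * (L + 2)) ^ 2 + 3000000 * ((m + 1) * (L + 2)) ^ 2) := by ring
  rw [hsum]
  refine UCount.or ?_ (UCount.or ?_ ?_)
  · -- first case
    refine UCount.and_left hK0 ?_
    rintro ⟨hpc, hpd⟩
    refine ucount_badF' δ hδ0 m (A * c') 1 d' 1 (A ^ m * c'') (A ^ m * d'') T L False False 1 hm
      hAc' le_rfl hd' le_rfl hAc'' hAd'' (tle _ k1) (tle _ k2) (tle _ k3) (tle _ k2) (tle _ k5) (tle _ k6) tδ hL
      hp hpδ q0 qm (fun q hq hlt => ⟨tne q hq hlt _ k1, tne q hq hlt _ k2, tne q hq hlt _ k3,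
        tne q hq hlt _ k2, tne q hq hlt _ k5, tne q hq hlt _ k6, tδq q hq hlt⟩) ?_ ?_ ?_
    · intro z hz
      clear hz
      revert z
      rw [mul_one, one_pow, one_mul, one_mul]
      refine ph_HT_size δ m (A * c') d' 1 _ _ hAc' le_rfl ?_
      rw [hδ, n_aux1, ← ec, ← ed]
      have e1 : 1 ^ 2 * (A * c') ^ 2 + A * B * d' ^ 2 = A * (A * c' ^ 2 + B * d' ^ 2) := by ring
      rw [e1, mul_pow]
      exact Nat.mul_lt_mul_of_pos_left (hpow _ _ hc' hd') (by positivity)
    · right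
      left
      rw [one_pow, one_mul, hδ]
      intro h
      apply hpc
      rw [ec]
      have h3 : A ^ m * c'' = A ^ m * ((2 * m + 1) * (B ^ m * d' ^ (2 * m))) := by
        rw [h, mul_pow]
        ring
      rw [Nat.eq_of_mul_eq_mul_left hAm h3]
      exact Dvd.dvd.mul_left (dvd_mul_right _ _) _
    · right
      right
      rw [one_pow, one_mul]
      intro h
      apply hpd
      rw [ed]
      have h3 : A ^ m * d'' = A ^ m * ((2 * m + 1) * (A ^ m * c' ^ (2 * m))) := by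
        rw [h, mul_pow]
        ring
      rw [Nat.eq_of_mul_eq_mul_left hAm h3]
      exact Dvd.dvd.mul_left (dvd_mul_right _ _) _
  · -- `p ∣ u`
    refine UCount.and_left hK0 ?_
    intro hco
    refine ucount_badF' δ hδ0 m (A * c') (2 * m + 1) d' 1 (A ^ m * ((2 * m + 1) * c''))
      (A ^ m * d'') T L (B * d = 1) False 1 hm hAc' hP1 hd' le_rfl
      (Nat.mul_pos hAm (Nat.mul_pos hP1 hc'')) hAd'' (tle _ k1) (tle _ k4) (tle _ k3) (tle _ k2)
      (tle _ k7) (tle _ k6) tδ hL hp hpδ q0 qm (fun q hq hlt => ⟨tne q hq hlt _ k1,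
        tne q hq hlt _ k4, tne q hq hlt _ k3, tne q hq hlt _ k2, tne q hq hlt _ k7,
        tne q hq hlt _ k6, tδq q hq hlt⟩) ?_ ?_ ?_
    · intro z hz
      clear hz
      revert z
      by_cases hpc' : (2 * m + 1) ∣ c'
      · obtain ⟨r, hr⟩ := hpc'
        have hr1 : 1 ≤ r := by
          rcases Nat.eq_zero_or_pos r with h | h
          · rw [h] at hr; omega
          · exact h
        refine ph_HT_size δ m (A * c') _ 1 _ _ hAc' le_rfl ?_
        rw [hδ, n_aux2, ← ec, ← ed]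
        have e2 : 1 ^ 2 * (A * c') ^ 2 + A * B * (d' * (2 * m + 1)) ^ 2 =
            ((2 * m + 1) ^ 2 * A) * (A * r ^ 2 + B * d' ^ 2) := by
          rw [hr]
          ring
        rw [e2, mul_pow (_ * A)]
        exact Nat.mul_lt_mul_of_pos_left (hpow _ _ hr1 hd') (pow_pos (Nat.mul_pos (pow_pos hP1 2) hA) _)
      · refine ph_HT_a m hm (2 * m + 1) hp δ (A * c') _ 1 _ _ ?_ ?_ (dvd_mul_left _ _) ?_ ?_
        · intro h
          rcases hp.dvd_mul.mp h with h3 | h3
          · exact hpA h3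
          · exact hpc' h3
        · intro h
          have := Nat.le_of_dvd one_pos h
          omega
        · exact Nat.mul_ne_zero (by omega) (by omega)
        · exact Dvd.dvd.mul_left (Dvd.dvd.mul_left (dvd_mul_right _ _) _) _
    · by_cases hBd : B * d = 1
      · exact Or.inl hBd
      right
      have hd2 : 2 ≤ B * d := by
        have := Nat.mul_pos hB hd
        omega
      rw [one_pow, one_mul, one_mul, hδ]
      by_contra hcon
      push Not at hcon
      obtain ⟨g1, g2⟩ := hcon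
      have g3 : c'' = B ^ m * d' ^ (2 * m) := by
        have h3 : (A ^ m * (2 * m + 1)) * c'' = (A ^ m * (2 * m + 1)) * (B ^ m * d' ^ (2 * m)) := by
          calc _ = A ^ m * ((2 * m + 1) * c'') := by ring
            _ = _ := by rw [g1, mul_pow]; ring
        exact Nat.eq_of_mul_eq_mul_left (Nat.mul_pos hAm hP1) h3
      have g4 : d'' = B ^ m * d' ^ (2 * m) := by
        have h3 : A ^ m * d'' = A ^ m * (B ^ m * d' ^ (2 * m)) := by
          rw [g2, mul_pow]
          ring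
        exact Nat.eq_of_mul_eq_mul_left hAm h3
      rw [g3, ← g4] at hccd
      have g5 : d'' = 1 := (Nat.coprime_self _).mp hccd
      rw [g5] at g4
      have g6 : B ^ m = 1 ∧ d' ^ (2 * m) = 1 := mul_eq_one.mp g4.symm
      have g7 : B = 1 := (Nat.pow_eq_one.mp g6.1).resolve_right (by omega)
      have g8 : d' = 1 := (Nat.pow_eq_one.mp g6.2).resolve_right (by omega)
      rw [ed, g7, g8, g5] at hd2
      omega
    · right
      left
      intro h
      have h3 : A ^ m * ((2 * m + 1) ^ (2 * m) * ((2 * m + 1) * c'')) =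
          A ^ m * (A ^ m * c' ^ (2 * m)) := by
        calc _ = (2 * m + 1) ^ (2 * m) * (A ^ m * ((2 * m + 1) * c'')) := by ring
          _ = _ := by rw [h]; ring
      exact no_val' m hm hp A c' c'' hpA hco (Nat.eq_of_mul_eq_mul_left hAm h3)
  · -- `p ∣ v`
    refine UCount.and_left hK0 ?_
    intro hco
    refine ucount_badF' δ hδ0 m (A * c') 1 d' (2 * m + 1) (A ^ m * c'')
      (A ^ m * ((2 * m + 1) * d'')) T L False (A * c = 1) 1 hm hAc' le_rfl hd' hP1
      hAc'' (Nat.mul_pos hAm (Nat.mul_pos hP1 hd'')) (tle _ k1) (tle _ k2) (tle _ k3) (tle _ k4)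
      (tle _ k5) (tle _ k8) tδ hL hp hpδ q0 qm (fun q hq hlt => ⟨tne q hq hlt _ k1,
        tne q hq hlt _ k2, tne q hq hlt _ k3, tne q hq hlt _ k4, tne q hq hlt _ k5,
        tne q hq hlt _ k8, tδq q hq hlt⟩) ?_ ?_ ?_
    · intro z hz
      clear hz
      revert z
      rw [mul_one, one_pow, one_mul, one_mul]
      by_cases hpd' : (2 * m + 1) ∣ d'
      · obtain ⟨r, hr⟩ := hpd'
        have hr1 : 1 ≤ r := by
          rcases Nat.eq_zero_or_pos r with h | h
          · rw [h] at hr; omega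
          · exact h
        refine ph_HT_size δ m (A * c') _ _ _ _ hAc' hP1 ?_
        rw [hδ, n_aux3, ← ec, ← ed]
        have e2 : (2 * m + 1) ^ 2 * (A * c') ^ 2 + A * B * d' ^ 2 =
            ((2 * m + 1) ^ 2 * A) * (A * c' ^ 2 + B * r ^ 2) := by
          rw [hr]
          ring
        rw [e2, mul_pow (_ * A)]
        exact Nat.mul_lt_mul_of_pos_left (hpow _ _ hc' hr1) (pow_pos (Nat.mul_pos (pow_pos hP1 2) hA) _)
      · exact ph_HT_b m hm (2 * m + 1) hp δ hpδ (A * c') _ _ _ _ hpd' dvd_rfl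
    · right
      right
      rw [hδ]
      intro h
      have h3 : A ^ m * ((2 * m + 1) ^ (2 * m) * ((2 * m + 1) * d'')) =
          A ^ m * (B ^ m * d' ^ (2 * m)) := by
        calc _ = (2 * m + 1) ^ (2 * m) * (A ^ m * ((2 * m + 1) * d'')) := by ring
          _ = _ := by rw [h, mul_pow]; ring
      exact no_val' m hm hp B d' d'' hpB hco (Nat.eq_of_mul_eq_mul_left hAm h3)
    · by_cases hAc1 : A * c = 1
      · exact Or.inl hAc1
      right
      have hc2 : 2 ≤ A * c := by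
        have := Nat.mul_pos hA hc
        omega
      rw [one_pow, one_mul, one_mul]
      by_contra hcon
      push Not at hcon
      obtain ⟨g1, g2⟩ := hcon
      have g3 : d'' = A ^ m * c' ^ (2 * m) := by
        have h3 : (A ^ m * (2 * m + 1)) * d'' = (A ^ m * (2 * m + 1)) * (A ^ m * c' ^ (2 * m)) := by
          calc _ = A ^ m * ((2 * m + 1) * d'') := by ring
            _ = _ := by rw [g2, mul_pow]; ring
        exact Nat.eq_of_mul_eq_mul_left (Nat.mul_pos hAm hP1) h3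
      have g4 : c'' = A ^ m * c' ^ (2 * m) := by
        have h3 : A ^ m * c'' = A ^ m * (A ^ m * c' ^ (2 * m)) := by
          rw [g1, mul_pow]
          ring
        exact Nat.eq_of_mul_eq_mul_left hAm h3
      rw [g3, ← g4] at hccd
      have g5 : c'' = 1 := (Nat.coprime_self _).mp hccd
      rw [g5] at g4
      have g6 : A ^ m = 1 ∧ c' ^ (2 * m) = 1 := mul_eq_one.mp g4.symm
      have g7 : A = 1 := (Nat.pow_eq_one.mp g6.1).resolve_right (by omega)
      have g8 : c' = 1 := (Nat.pow_eq_one.mp g6.2).resolve_right (by omega)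
      rw [ec, g7, g8, g5] at hc2
      omega

end Pool.Agent.H573.AHB
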