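import Pool.Agent.H573.AHB.PsiD

/-!
The equation `a^s = c^{pr} - b^{pr}` with `p ∣ a`, `r ∤ a`.
-/

namespace Pool.Agent.H573.AHB

open Polynomial Filter

/-- coprimality of the four factors, with powers of two removed -/
lemma psi_splitK (δ : ℤ) (hδ1 : δ.natAbs = 1) (m l : ℕ) (hm : 1 ≤ m)
    (hp : (2 * m + 1).Prime) (hr : (2 * l + 1).Prime)
    (ψ : ℤ[X]) (hψ : IsPsi δ m l ψ) (u v k1 k2 F' F'' G' G'' Ψ' : ℤ)
    (hk1 : ¬ ((2 * m + 1 : ℕ) : ℤ) ∣ k1) (hk12 : k1 ^ (2 * l) = k2 ^ (2 * m)) (hk10 : k1 ≠ 0)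
    (hk20 : k2 ≠ 0)
    (f1 : Fh δ u v m = k1 * F') (f2 : Fh δ u v l = k2 * F'') (g1 : Gh δ u v m = k1 * G')
    (g2 : Gh δ u v l = k2 * G'') (hΨ : hmg ψ (4 * (m * l)) u v = k1 ^ (2 * l) * Ψ')
    (c1 : IsCoprime (u * F') (v * G')) (c2 : IsCoprime (u * F'') (v * G''))
    (hpX : ((2 * m + 1 : ℕ) : ℤ) ∣ u * F' * (F'' * Ψ'))
    (hrX : ¬ ((2 * l + 1 : ℕ) : ℤ) ∣ u * F' * (F'' * Ψ')) :
    (∃ P2 : ℤ, F' = ((2 * m + 1 : ℕ) : ℤ) * P2 ∧
      IsCoprime (((2 * m + 1 : ℕ) : ℤ) * u) P2 ∧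
      IsCoprime (((2 * m + 1 : ℕ) : ℤ) * u) F'' ∧
      IsCoprime (((2 * m + 1 : ℕ) : ℤ) * u) Ψ' ∧
      IsCoprime P2 F'' ∧ IsCoprime P2 Ψ' ∧ IsCoprime F'' Ψ') ∨
    (∃ P4 : ℤ, Ψ' = ((2 * m + 1 : ℕ) : ℤ) * P4 ∧
      IsCoprime u F' ∧
      IsCoprime u (((2 * m + 1 : ℕ) : ℤ) * F'') ∧ IsCoprime u P4 ∧
      IsCoprime F' (((2 * m + 1 : ℕ) : ℤ) * F'') ∧
      IsCoprime F' P4 ∧ IsCoprime (((2 * m + 1 : ℕ) : ℤ) * F'') P4) := by
  have hδu : IsUnit δ := Int.isUnit_iff_natAbs_eq.mpr hδ1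
  have hpδ : ∀ k : ℕ, k.Prime → ¬ (k : ℤ) ∣ δ := by
    intro k hk h
    have h3 := Int.natAbs_dvd_natAbs.mpr h
    rw [Int.natAbs_natCast, hδ1] at h3
    have := Nat.le_of_dvd one_pos h3
    have := hk.two_le
    omega
  have hcδ : ∀ w : ℤ, IsCoprime w δ := fun w => ⟨0, δ, by rw [Int.isUnit_mul_self hδu]; ring⟩
  have hpp : Prime ((2 * m + 1 : ℕ) : ℤ) := Nat.prime_iff_prime_int.mp hp
  have hrr : Prime ((2 * l + 1 : ℕ) : ℤ) := Nat.prime_iff_prime_int.mp hr
  have hpk : IsCoprime ((2 * m + 1 : ℕ) : ℤ) k1 := (hpp.coprime_iff_not_dvd).mpr hk1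
  have p1 : Fh δ (u * F') (v * G') l = k2 * F'' * Ψ' := by
    have h1 := psi_hom δ m l ψ hψ u v
    rw [f1, g1, f2, hΨ] at h1
    have e1 : u * (k1 * F') = k1 * (u * F') := by ring
    have e2 : v * (k1 * G') = k1 * (v * G') := by ring
    rw [e1, e2, (hom_FG δ _ _ k1 l).1] at h1
    apply mul_left_cancel₀ (pow_ne_zero (2 * l) hk10)
    rw [h1]
    ring
  have p2 : Fh δ (u * F'') (v * G'') m = k1 * F' * Ψ' := by
    have h1 := psi_hom δ l m ψ hψ.symm u v
    rw [mul_comm l m, f2, g2, f1, hΨ] at h1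
    have e1 : u * (k2 * F'') = k2 * (u * F'') := by ring
    have e2 : v * (k2 * G'') = k2 * (v * G'') := by ring
    rw [e1, e2, (hom_FG δ _ _ k2 m).1, hk12] at h1
    apply mul_left_cancel₀ (pow_ne_zero (2 * m) hk20)
    rw [h1]
    ring
  have huv : IsCoprime u v := c1.of_mul_left_left.of_mul_right_left
  have hrXp : ¬ ((2 * l + 1 : ℕ) : ℤ) ∣ u * F' := by
    intro h
    exact hrX (h.mul_right _)
  have q0 : IsCoprime (u * F') (k2 * F'' * Ψ') := by
    rw [← p1]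
    exact cop_F l hr δ _ _ c1 (hcδ _) hrXp
  have q1 : IsCoprime (u * F') (F'' * Ψ') := by
    rw [mul_assoc] at q0
    exact q0.of_mul_right_right
  have hpXr : ((2 * m + 1 : ℕ) : ℤ) ∣ u * F'' := by
    have h0 : u * F' * (F'' * Ψ') = (u * F'') * (F' * Ψ') := by ring
    rw [h0] at hpX
    rcases hpp.dvd_or_dvd hpX with h | h
    · exact h
    · apply (FG_dvd_p m hm hp δ (u * F'') (v * G'') (hpδ _ hp)).1
      rw [p2, mul_assoc]
      exact h.mul_left _
  obtain ⟨F1, hF1, hF1c⟩ := second_F m δ (u * F'') (v * G'') c2 (hcδ _) hpXr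
  rw [p2] at hF1
  by_cases hpu : ((2 * m + 1 : ℕ) : ℤ) ∣ u
  · left
    obtain ⟨P, hP, hPc⟩ := second_F m δ u v huv (hcδ _) hpu
    rw [f1] at hP
    have hpF' : ((2 * m + 1 : ℕ) : ℤ) ∣ F' := by
      apply hpk.dvd_of_dvd_mul_left
      rw [hP]
      exact dvd_mul_right _ _
    obtain ⟨P2, hP2⟩ := hpF'
    have hP' : P = k1 * P2 := by
      apply mul_left_cancel₀ hpp.ne_zero
      rw [← hP, hP2]
      ring
    have hF1' : F1 = k1 * P2 * Ψ' := by
      apply mul_left_cancel₀ hpp.ne_zero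
      rw [← hF1, hP2]
      ring
    rw [hP'] at hPc
    rw [hF1'] at hF1c
    have e1 : IsCoprime (((2 * m + 1 : ℕ) : ℤ) * u * F'') (k1 * P2 * Ψ') := by
      rw [mul_assoc]
      exact hF1c
    rw [hP2] at q1
    have q2 : IsCoprime u F'' := q1.of_mul_left_left.of_mul_right_left
    have q3 : IsCoprime ((2 * m + 1 : ℕ) : ℤ) F'' :=
      q1.of_mul_left_right.of_mul_left_left.of_mul_right_left
    refine ⟨P2, hP2, hPc.of_mul_right_right, q3.mul_left q2,
      e1.of_mul_left_left.of_mul_right_right, ?_, ?_, ?_⟩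
    · exact q1.of_mul_left_right.of_mul_left_right.of_mul_right_left
    · exact q1.of_mul_left_right.of_mul_left_right.of_mul_right_right
    · exact e1.of_mul_left_right.of_mul_right_right
  · right
    have hpF : ((2 * m + 1 : ℕ) : ℤ) ∣ F'' := by
      rcases hpp.dvd_or_dvd hpXr with h | h
      · exact absurd h hpu
      · exact h
    have hpXp : IsCoprime ((2 * m + 1 : ℕ) : ℤ) (u * F') := by
      obtain ⟨w, hw⟩ := hpF
      rw [hw] at q1
      exact q1.of_mul_right_left.of_mul_right_left.symm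
    have hpFm : IsCoprime ((2 * m + 1 : ℕ) : ℤ) F' := hpXp.of_mul_right_right
    have hpu' : IsCoprime ((2 * m + 1 : ℕ) : ℤ) u := hpXp.of_mul_right_left
    have hpΨ : ((2 * m + 1 : ℕ) : ℤ) ∣ Ψ' := by
      apply (hpk.mul_right hpFm).dvd_of_dvd_mul_left
      rw [hF1]
      exact dvd_mul_right _ _
    obtain ⟨P4, hP4⟩ := hpΨ
    have hF1' : F1 = k1 * F' * P4 := by
      apply mul_left_cancel₀ hpp.ne_zero
      rw [← hF1, hP4]
      ring
    rw [hF1'] at hF1c
    have e1 : IsCoprime (((2 * m + 1 : ℕ) : ℤ) * F'' * u) (F' * P4) := by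
      have : ((2 * m + 1 : ℕ) : ℤ) * F'' * u = ((2 * m + 1 : ℕ) : ℤ) * (u * F'') := by ring
      rw [this]
      rw [mul_assoc] at hF1c
      exact hF1c.of_mul_right_right
    rw [hP4] at q1
    refine ⟨P4, hP4, e1.of_mul_left_right.of_mul_right_left, ?_,
      e1.of_mul_left_right.of_mul_right_right, ?_, ?_, e1.of_mul_left_left.of_mul_right_right⟩
    · exact hpu'.symm.mul_right q1.of_mul_left_left.of_mul_right_left
    · exact hpFm.symm.mul_right q1.of_mul_left_right.of_mul_right_left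
    · exact q1.of_mul_left_right.of_mul_right_right.of_mul_right_right

/-- parity of the forms -/
lemma FG_odd (δ u v : ℤ) (h : Odd (u ^ 2 + δ * v ^ 2)) (m : ℕ) :
    Odd (Fh δ u v m) ∧ Odd (Gh δ u v m) := by
  induction m with
  | zero => simp
  | succ m ih =>
    constructor
    · rw [Fh_succ]
      apply (ih.1.mul h).add_even
      exact ⟨δ * v ^ 2 * Gh δ u v m, by ring⟩
    · rw [Gh_succ]
      apply (ih.2.mul h).add_even
      exact ⟨u ^ 2 * Fh δ u v m, by ring⟩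

/-- the bad pairs -/
def BadQQ (m l : ℕ) (ψ : ℤ[X]) (q n : ℕ) : Prop :=
  (BadP 1 m l ψ (2 * (2 * m + 1)) (2 * m + 1) 1 1 1 q n ∨
    BadP 1 m l ψ 2 1 1 (2 * m + 1) (2 * m + 1) q n) ∨
  (BadP 1 m l ψ (2 * m + 1) ((2 * m + 1) * 4 ^ m) (4 ^ l) 1 (4 ^ (2 * (m * l))) q n ∨
    BadP 1 m l ψ 1 (4 ^ m) (4 ^ l) (2 * m + 1) ((2 * m + 1) * 4 ^ (2 * (m * l))) q n)

lemma not_dvd_four_pow (m k : ℕ) (hm : 1 ≤ m) (hp : (2 * m + 1).Prime) :
    ¬ (2 * m + 1) ∣ 4 ^ k := by
  intro h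
  have h1 := hp.dvd_of_dvd_pow h
  have h2 : (2 * m + 1) ∣ 2 ^ 2 := by norm_num; exact h1
  have h3 := hp.dvd_of_dvd_pow h2
  have := Nat.le_of_dvd (by norm_num) h3
  omega

theorem sparse_badQQ (m l : ℕ) (hm : 1 ≤ m) (hl : 1 ≤ l)
    (hp : (2 * m + 1).Prime) (hr : (2 * l + 1).Prime) (hne : m ≠ l)
    (ψ : ℤ[X]) (hψ : IsPsi 1 m l ψ) : Sparse (BadQQ m l ψ) := by
  have hp1 : ¬ (2 * m + 1) ∣ 1 := by
    intro h
    have := Nat.le_of_dvd one_pos h
    omega
  have hp2 : ¬ (2 * m + 1) ∣ 2 := by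
    intro h
    have := Nat.le_of_dvd two_pos h
    omega
  have e2 : (1 : ℤ).natAbs = 1 := rfl
  have r1 : 1 < (2 * l + 1) ^ (2 * m) := Nat.one_lt_pow (by omega) (by omega)
  have r2 : 1 ≤ (2 * m + 1) ^ (2 * l) := Nat.one_le_pow _ _ (by omega)
  have r3 : ∀ k, 1 ≤ 4 ^ k := fun k => Nat.one_le_pow _ _ (by norm_num)
  refine Sparse.or (Sparse.or ?_ ?_) (Sparse.or ?_ ?_)
  · refine sparse_one 1 e2 m l hm hl hp hr hne ψ hψ _ _ _ _ _ (by omega) (by omega) le_rfl le_rfl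
      le_rfl dvd_rfl hp1 ?_
    right
    rw [one_mul, mul_one, one_pow]
    omega
  · refine sparse_two 1 e2 m l hm hl hp hr hne ψ hψ _ _ _ _ _ (by norm_num) le_rfl le_rfl
      (by omega) (by omega) dvd_rfl hp1 hp2 ?_
    left
    rw [one_pow]
    intro h
    have h2 : (2 * m + 1) ^ (2 * l) * (2 * m + 1) ≥ 1 * 3 := Nat.mul_le_mul r2 (by omega)
    omega
  · refine sparse_one 1 e2 m l hm hl hp hr hne ψ hψ _ _ _ _ _ (by omega)
      (Nat.mul_pos (by omega) (r3 _)) (r3 _) le_rfl (r3 _) (dvd_mul_right _ _) hp1 ?_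
    right
    rw [one_mul]
    have h1 : (4 ^ l) ^ (2 * m) = 4 ^ (2 * (m * l)) := by
      rw [← pow_mul]
      congr 1
      ring
    rw [h1]
    intro h
    have h2 : (2 * l + 1) ^ (2 * m) * 4 ^ (2 * (m * l)) > 1 * 4 ^ (2 * (m * l)) :=
      Nat.mul_lt_mul_of_pos_right r1 (r3 _)
    omega
  · refine sparse_two 1 e2 m l hm hl hp hr hne ψ hψ _ _ _ _ _ le_rfl (r3 _) (r3 _)
      (by omega) (Nat.mul_pos (by omega) (r3 _)) dvd_rfl (not_dvd_four_pow m l hm hp) hp1 ?_
    left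
    have h1 : (4 ^ m) ^ (2 * l) = 4 ^ (2 * (m * l)) := by
      rw [← pow_mul]
      congr 1
      ring
    rw [h1]
    intro h
    have h2 : (2 * m + 1) ^ (2 * l) * ((2 * m + 1) * 4 ^ (2 * (m * l))) ≥
        1 * (3 * 4 ^ (2 * (m * l))) :=
      Nat.mul_le_mul r2 (Nat.mul_le_mul (by omega) le_rfl)
    have := r3 (2 * (m * l))
    omega

lemma cop_diff_sum {C B : ℤ} (h : IsCoprime C B) (ho : Odd (C - B)) : IsCoprime (C - B) (C + B) := by
  have h1 : IsCoprime (C - B) (2 * B) := by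
    apply IsCoprime.mul_right
    · obtain ⟨k, hk⟩ := ho
      exact ⟨1, -k, by rw [hk]; ring⟩
    · have : C - B = C + B * (-1) := by ring
      rw [this]
      exact h.add_mul_left_left (-1)
  have h2 : C + B = 2 * B + (C - B) * 1 := by ring
  rw [h2]
  exact h1.add_mul_left_right 1

lemma half_FG (c b : ℤ) (hU : c - b ≠ 0) (hV : c + b ≠ 0) (k : ℕ) :
    ∃ D E : ℤ, c ^ (2 * k + 1) - b ^ (2 * k + 1) = (c - b) * D ∧
      c ^ (2 * k + 1) + b ^ (2 * k + 1) = (c + b) * E ∧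
      Fh 1 (c - b) (c + b) k = 4 ^ k * D ∧ Gh 1 (c - b) (c + b) k = 4 ^ k * E := by
  obtain ⟨D, hD⟩ := sub_dvd_pow_sub_pow c b (2 * k + 1)
  obtain ⟨E, hE⟩ := Odd.add_dvd_pow_add_pow c b (n := 2 * k + 1) ⟨k, rfl⟩
  obtain ⟨h1, h2⟩ := four_pow_mul k b c
  have e4 : (2 : ℤ) ^ (2 * k) = 4 ^ k := by rw [pow_mul]; norm_num
  rw [e4] at h1 h2
  refine ⟨D, E, hD, hE, ?_, ?_⟩
  · apply mul_left_cancel₀ hU
    rw [← h1, hD]
    ring
  · apply mul_left_cancel₀ hV
    rw [← h2, hE]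
    ring

/-- no solution of `a^s = c^{pr} - b^{pr}` with `p ∣ a`, `r ∤ a` -/
theorem diff_powers (m l : ℕ) (hm : 1 ≤ m)
    (hp : (2 * m + 1).Prime) (hr : (2 * l + 1).Prime)
    (ψ : ℤ[X]) (hψ : IsPsi 1 m l ψ) (s q : ℕ)
    (hsp : s.Prime) (hs2 : 2 < s) (hq : q.Prime) (hqm : 2 * m + 1 < q) (hsq : s ∣ q - 1)
    (hnb : ¬ BadQQ m l ψ q ((q - 1) / s)) (a b c : ℤ) (hco : IsCoprime c b)
    (ha0 : a ≠ 0)
    (hpx : ((2 * m + 1 : ℕ) : ℤ) ∣ a) (hrx : ¬ ((2 * l + 1 : ℕ) : ℤ) ∣ a) :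
    a ^ s + b ^ ((2 * m + 1) * (2 * l + 1)) ≠ c ^ ((2 * m + 1) * (2 * l + 1)) := by
  intro heq
  apply hnb
  have hF1 : Fact q.Prime := ⟨hq⟩
  have hsodd : Odd s := hsp.odd_of_ne_two (by omega)
  have hs0 : s ≠ 0 := by omega
  have hrr : Prime ((2 * l + 1 : ℕ) : ℤ) := Nat.prime_iff_prime_int.mp hr
  have hpp : Prime ((2 * m + 1 : ℕ) : ℤ) := Nat.prime_iff_prime_int.mp hp
  have hsn : s * ((q - 1) / s) = q - 1 := Nat.mul_div_cancel' hsq
  have h1q : ((1 : ℕ) : ZMod q) ≠ 0 := by rw [Nat.cast_one]; exact one_ne_zero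
  have hpq : ((2 * m + 1 : ℕ) : ZMod q) ≠ 0 := natCast_ne_zero_of_lt (by omega) hqm (ZMod q)
  have h2q : ((2 : ℕ) : ZMod q) ≠ 0 := natCast_ne_zero_of_lt (by omega) (by omega) (ZMod q)
  have hras : ¬ ((2 * l + 1 : ℕ) : ℤ) ∣ a ^ s := fun h => hrx (hrr.dvd_of_dvd_pow h)
  have hpas : ((2 * m + 1 : ℕ) : ℤ) ∣ a ^ s := dvd_pow hpx hs0
  have he : (2 * m + 1) * (2 * l + 1) = 2 * (2 * (m * l) + m + l) + 1 := by ring
  set K := 2 * (m * l) + m + l with hK
  have has : a ^ s = c ^ (2 * K + 1) - b ^ (2 * K + 1) := by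
    rw [← he]
    linarith
  rcases Int.even_or_odd a with hae | hao
  · -- `a` even: `b, c` odd
    left
    have hbc : Even (c ^ (2 * K + 1) - b ^ (2 * K + 1)) := by
      rw [← has]
      exact hae.pow_of_ne_zero hs0
    have hbo : Odd b := by
      by_contra hcon
      rw [Int.not_odd_iff_even] at hcon
      have h1 : Even (b ^ (2 * K + 1)) := hcon.pow_of_ne_zero (by omega)
      have h2 : Even (c ^ (2 * K + 1)) := by
        have := hbc.add h1
        rwa [sub_add_cancel] at this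
      have h3 : Even c := by
        by_contra hc
        rw [Int.not_even_iff_odd] at hc
        exact (Int.not_even_iff_odd.mpr hc.pow) h2
      have := hco.isUnit_of_dvd' h3.two_dvd hcon.two_dvd
      rw [Int.isUnit_iff] at this
      omega
    have hcoo : Odd c := by
      by_contra hcon
      rw [Int.not_odd_iff_even] at hcon
      have h1 : Even (c ^ (2 * K + 1)) := hcon.pow_of_ne_zero (by omega)
      have h2 : Odd (c ^ (2 * K + 1) - b ^ (2 * K + 1)) := h1.sub_odd hbo.pow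
      exact (Int.not_even_iff_odd.mpr h2) hbc
    obtain ⟨u, hu⟩ := hcoo.sub_odd hbo
    obtain ⟨v, hv⟩ := hcoo.add_odd hbo
    have hc : c = u + v := by linarith
    have hb : b = v - u := by linarith
    have e1 := pow_FG (δ := (1 : ℤ)) (ω := 1) (by norm_num) u v K
    have e2 := pow_FG' (δ := (1 : ℤ)) (ω := 1) (by norm_num) u v K
    have e3 : (u - 1 * v) ^ (2 * K + 1) = - b ^ (2 * K + 1) := by
      have : u - 1 * v = -b := by rw [hb]; ring
      rw [this, Odd.neg_pow ⟨K, rfl⟩]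
    rw [e3] at e2
    have e4 : u + 1 * v = c := by rw [hc]; ring
    rw [e4] at e1
    have hX : a ^ s = 2 * (u * Fh 1 u v K) := by rw [has]; linarith
    have hY : c ^ (2 * K + 1) + b ^ (2 * K + 1) = 2 * (v * Gh 1 u v K) := by linarith
    -- coprimality
    have hcoP : IsCoprime (c ^ (2 * K + 1)) (b ^ (2 * K + 1)) := IsCoprime.pow hco
    have hXY : IsCoprime (u * Fh 1 u v K) (v * Gh 1 u v K) := by
      obtain ⟨A, B, hAB⟩ := hcoP
      refine ⟨A - B, A + B, ?_⟩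
      have f1 : c ^ (2 * K + 1) = u * Fh 1 u v K + v * Gh 1 u v K := by linarith
      have f2 : b ^ (2 * K + 1) = v * Gh 1 u v K - u * Fh 1 u v K := by linarith
      rw [f1, f2] at hAB
      linarith
    have h2r : ¬ ((2 * l + 1 : ℕ) : ℤ) ∣ u * Fh 1 u v K := by
      intro h
      apply hras
      rw [hX]
      exact h.mul_left 2
    have h2p : ((2 * m + 1 : ℕ) : ℤ) ∣ u * Fh 1 u v K := by
      rw [hX] at hpas
      rcases hpp.dvd_or_dvd hpas with h | h
      · exfalso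
        have h3 : ((2 * m + 1 : ℕ) : ℤ) ∣ ((2 : ℕ) : ℤ) := h
        have := Nat.le_of_dvd two_pos (Int.natCast_dvd_natCast.mp h3)
        omega
      · exact h
    have huv : IsCoprime u v := hXY.of_mul_left_left.of_mul_right_left
    have hpar : Odd (u ^ 2 + 1 * v ^ 2) := by
      have h1 : u ^ 2 + 1 * v ^ 2 = (u + v) ^ 2 - 2 * (u * v) := by ring
      rw [h1, ← hc]
      exact hcoo.pow.sub_even (even_two_mul _)
    have o1 := (FG_odd 1 u v hpar m).1
    have o2 := (FG_odd 1 u v hpar l).1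
    have o3 : Odd (hmg ψ (4 * (m * l)) u v) := by
      have h1 := psi_hom 1 m l ψ hψ u v
      have h2 : Odd ((u * Fh 1 u v m) ^ 2 + 1 * (v * Gh 1 u v m) ^ 2) := by
        have g1 := (FG_odd 1 u v hpar m).2
        have g2 : Odd (u + v) := by rw [← hc]; exact hcoo
        rcases Int.even_or_odd u with h | h
        · have hv' : Odd v := by
            by_contra hcon
            rw [Int.not_odd_iff_even] at hcon
            exact (Int.not_even_iff_odd.mpr g2) (h.add hcon)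
          apply Even.add_odd
          · exact (h.mul_right _).pow_of_ne_zero two_ne_zero
          · rw [one_mul]; exact (hv'.mul g1).pow
        · have hv' : Even v := by
            by_contra hcon
            rw [Int.not_even_iff_odd] at hcon
            exact (Int.not_even_iff_odd.mpr g2) (h.add_odd hcon)
          apply Odd.add_even
          · exact (h.mul o1).pow
          · rw [one_mul]; exact (hv'.mul_right _).pow_of_ne_zero two_ne_zero
      have h3 := (FG_odd 1 _ _ h2 l).1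
      rw [h1] at h3
      exact (Int.odd_mul.mp h3).2
    have hodd2 : ∀ w : ℤ, Odd w → IsCoprime (2 : ℤ) w := by
      rintro w ⟨k, hk⟩
      exact ⟨-k, 1, by rw [hk]; ring⟩
    have hprod := psi_prod 1 m l ψ hψ u v
    rw [← hK] at hprod
    rcases psi_split 1 rfl m l hm hp hr ψ hψ u v hXY h2p h2r with
      ⟨P2, a1, a2, a3, a4, a5, a6, a7⟩ | ⟨P4, a1, a2, a3, a4, a5, a6, a7⟩
    · left
      have oP2 : Odd P2 := by
        rw [a1, Int.odd_mul] at o1
        exact o1.2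
      obtain ⟨w1, w2, w3, w4, b1, b2, b3, b4⟩ := four_factors (x := a)
        (a := 2 * (((2 * m + 1 : ℕ) : ℤ) * u)) hsodd ((hodd2 _ oP2).mul_left a2)
        ((hodd2 _ o2).mul_left a3) ((hodd2 _ o3).mul_left a4) a5 a6 a7 (by
        rw [hX, hprod, a1]
        ring)
      refine badP_of 1 m l ψ (2 * (2 * m + 1)) (2 * m + 1) 1 1 1 q s ((q - 1) / s) hq hsn ?_ h1q
        u v w1 w2 w3 w4 huv ?_ (by rw [a1, b2]) (by rw [Nat.cast_one, one_mul, one_mul]; exact b3)
        (by rw [Nat.cast_one, one_mul]; exact b4)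
      · rw [Nat.cast_mul]
        exact mul_ne_zero h2q hpq
      · rw [← b1]
        push_cast
        ring
    · right
      have oP4 : Odd P4 := by
        rw [a1, Int.odd_mul] at o3
        exact o3.2
      have opF : Odd (((2 * m + 1 : ℕ) : ℤ) * Fh 1 u v l) := by
        apply Odd.mul _ o2
        exact_mod_cast (⟨m, rfl⟩ : Odd (2 * m + 1))
      obtain ⟨w1, w2, w3, w4, b1, b2, b3, b4⟩ := four_factors (x := a)
        (a := 2 * u) hsodd ((hodd2 _ o1).mul_left a2)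
        ((hodd2 _ opF).mul_left a3) ((hodd2 _ oP4).mul_left a4) a5 a6 a7 (by
        rw [hX, hprod, a1]
        ring)
      refine badP_of 1 m l ψ 2 1 1 (2 * m + 1) (2 * m + 1) q s ((q - 1) / s) hq hsn h2q hpq
        u v w1 w2 w3 w4 huv (by push_cast; exact b1)
        (by rw [Nat.cast_one, one_mul]; exact b2)
        (by rw [Nat.cast_one, one_mul]; exact b3) (by rw [a1, b4])
  · -- `a` odd
    right
    have haso : Odd (c ^ (2 * K + 1) - b ^ (2 * K + 1)) := by
      rw [← has]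
      exact hao.pow
    have hUo : Odd (c - b) := by
      obtain ⟨D, hD⟩ := sub_dvd_pow_sub_pow c b (2 * K + 1)
      rw [hD, Int.odd_mul] at haso
      exact haso.1
    have hVo : Odd (c + b) := by
      have : c + b = (c - b) + 2 * b := by ring
      rw [this]
      exact hUo.add_even (even_two_mul _)
    have hU0 : c - b ≠ 0 := by
      intro h
      rw [h] at hUo
      exact (by decide : ¬ Odd (0 : ℤ)) hUo
    have hV0 : c + b ≠ 0 := by
      intro h
      rw [h] at hVo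
      exact (by decide : ¬ Odd (0 : ℤ)) hVo
    obtain ⟨F', G', d1, d2, d3, d4⟩ := half_FG c b hU0 hV0 m
    obtain ⟨F'', G'', d5, d6, d7, d8⟩ := half_FG c b hU0 hV0 l
    obtain ⟨DK, EK, d9, d10, d11, d12⟩ := half_FG c b hU0 hV0 K
    have hpo : ∀ k : ℕ, Odd (c ^ (2 * k + 1) - b ^ (2 * k + 1)) := by
      intro k
      rcases Int.even_or_odd c with h | h
      · have hb : Odd b := by
          by_contra hcon
          rw [Int.not_odd_iff_even] at hcon
          exact (Int.not_even_iff_odd.mpr hUo) (h.sub hcon)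
        exact (h.pow_of_ne_zero (by omega)).sub_odd hb.pow
      · have hb : Even b := by
          by_contra hcon
          rw [Int.not_even_iff_odd] at hcon
          exact (Int.not_even_iff_odd.mpr hUo) (h.sub_odd hcon)
        exact h.pow.sub_even (hb.pow_of_ne_zero (by omega))
    have oF' : Odd F' := by
      have := hpo m
      rw [d1, Int.odd_mul] at this
      exact this.2
    have oF'' : Odd F'' := by
      have := hpo l
      rw [d5, Int.odd_mul] at this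
      exact this.2
    have hprod := psi_prod 1 m l ψ hψ (c - b) (c + b)
    rw [← hK, d11, d3, d7] at hprod
    have h40 : (4 : ℤ) ^ (m + l) ≠ 0 := pow_ne_zero _ (by norm_num)
    have hprod2 : (4 : ℤ) ^ (2 * (m * l)) * DK = F' * F'' * hmg ψ (4 * (m * l)) (c - b) (c + b) := by
      apply mul_left_cancel₀ h40
      apply mul_left_cancel₀ hU0
      have e1 : (4 : ℤ) ^ K = 4 ^ (m + l) * 4 ^ (2 * (m * l)) := by
        rw [← pow_add]
        congr 1
        rw [hK]
        ring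
      rw [e1] at hprod
      rw [pow_add] at hprod ⊢
      linear_combination hprod
    have h4c : ∀ w : ℤ, Odd w → IsCoprime ((4 : ℤ) ^ (2 * (m * l))) w := by
      rintro w ⟨k, hk⟩
      apply IsCoprime.pow_left
      have h2 : IsCoprime (2 : ℤ) w := ⟨-k, 1, by rw [hk]; ring⟩
      have : (4 : ℤ) = 2 * 2 := by norm_num
      rw [this]
      exact h2.mul_left h2
    have hdv : (4 : ℤ) ^ (2 * (m * l)) ∣ hmg ψ (4 * (m * l)) (c - b) (c + b) := by
      apply (h4c (F' * F'') (oF'.mul oF'')).dvd_of_dvd_mul_left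
      rw [← hprod2]
      exact dvd_mul_right _ _
    obtain ⟨Ψ', hΨ'⟩ := hdv
    have hDK : DK = F' * F'' * Ψ' := by
      apply mul_left_cancel₀ (pow_ne_zero (2 * (m * l)) (by norm_num : (4 : ℤ) ≠ 0))
      rw [hprod2, hΨ']
      ring
    have hall : a ^ s = (c - b) * F' * (F'' * Ψ') := by
      rw [has, d9, hDK]
      ring
    have e44 : ((4 : ℤ) ^ m) ^ (2 * l) = 4 ^ (2 * (m * l)) := by
      rw [← pow_mul]
      congr 1
      ring
    have e44' : ((4 : ℤ) ^ l) ^ (2 * m) = 4 ^ (2 * (m * l)) := by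
      rw [← pow_mul]
      congr 1
      ring
    have hpk : ¬ ((2 * m + 1 : ℕ) : ℤ) ∣ (4 : ℤ) ^ m := by
      intro h
      apply not_dvd_four_pow m m hm hp
      have : ((2 * m + 1 : ℕ) : ℤ) ∣ ((4 ^ m : ℕ) : ℤ) := by
        push_cast
        push_cast at h
        exact h
      exact Int.natCast_dvd_natCast.mp this
    have hcc : ∀ k : ℕ, IsCoprime (c ^ (2 * k + 1) - b ^ (2 * k + 1))
        (c ^ (2 * k + 1) + b ^ (2 * k + 1)) := fun k =>
      cop_diff_sum (IsCoprime.pow hco) (hpo k)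
    have c1 : IsCoprime ((c - b) * F') ((c + b) * G') := by
      rw [← d1, ← d2]
      exact hcc m
    have c2 : IsCoprime ((c - b) * F'') ((c + b) * G'') := by
      rw [← d5, ← d6]
      exact hcc l
    have huv : IsCoprime (c - b) (c + b) := c1.of_mul_left_left.of_mul_right_left
    rcases psi_splitK 1 rfl m l hm hp hr ψ hψ (c - b) (c + b) (4 ^ m) (4 ^ l) F' F'' G' G'' Ψ'
      hpk (by rw [e44, e44']) (pow_ne_zero _ (by norm_num)) (pow_ne_zero _ (by norm_num))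
      d3 d7 d4 d8 (by rw [e44]; exact hΨ') c1 c2 (by rw [← hall]; exact hpas)
      (by rw [← hall]; exact hras) with
      ⟨P2, a1, a2, a3, a4, a5, a6, a7⟩ | ⟨P4, a1, a2, a3, a4, a5, a6, a7⟩
    · left
      obtain ⟨w1, w2, w3, w4, b1, b2, b3, b4⟩ := four_factors (x := a) hsodd a2 a3 a4 a5 a6 a7 (by
        rw [hall, a1]
        ring)
      refine badP_of 1 m l ψ (2 * m + 1) ((2 * m + 1) * 4 ^ m) (4 ^ l) 1 (4 ^ (2 * (m * l)))
        q s ((q - 1) / s) hq hsn hpq h1q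
        (c - b) (c + b) w1 w2 w3 w4 huv b1 ?_ ?_ ?_
      · rw [d3, a1, b2]
        push_cast
        ring
      · rw [d7, b3]
        push_cast
        ring
      · rw [hΨ', b4]
        push_cast
        ring
    · right
      obtain ⟨w1, w2, w3, w4, b1, b2, b3, b4⟩ := four_factors (x := a) hsodd a2 a3 a4 a5 a6 a7 (by
        rw [hall, a1]
        ring)
      refine badP_of 1 m l ψ 1 (4 ^ m) (4 ^ l) (2 * m + 1) ((2 * m + 1) * 4 ^ (2 * (m * l)))
        q s ((q - 1) / s) hq hsn h1q hpq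
        (c - b) (c + b) w1 w2 w3 w4 huv (by rw [Nat.cast_one, one_mul]; exact b1) ?_ ?_ ?_
      · rw [d3, b2]
        push_cast
        ring
      · rw [d7, ← b3]
        push_cast
        ring
      · rw [hΨ', a1, b4]
        push_cast
        ring

end Pool.Agent.H573.AHB
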