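import Pool.Graph.R_pool_sql_team_seeded_f0cf7b00.H262R4.FR.AllB

/-!
The upper bound sieve on average over the moduli (library, FR project) with an arbitrary power of
the logarithm in the error term. The proof is that of the library module `FR.BT1`.
-/

set_option autoImplicit false

namespace Pool.Agent.H573.AHB.BTp

open Finset
open Pool.Agent.H262R4.FR

theorem logbA (A : ℕ) (ρ0 : ℝ) (hρ0 : 0 < ρ0) : ∃ C : ℝ, 0 < C ∧ ∀ X : ℝ, 3 ≤ X →
    X ^ (-ρ0) * (X ^ (ρ0 / 4) * (1 + Real.log X)) ≤ C / Real.log X ^ A := by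
  set ε : ℝ := ρ0 / (2 * (A + 1)) with hε
  have hε0 : 0 < ε := by positivity
  refine ⟨(1 + 1 / ε) * (1 / ε) ^ A, by positivity, ?_⟩
  intro X hX
  have hX0 : 0 < X := by linarith
  have hl : 0 < Real.log X := Real.log_pos (by linarith)
  have h1 : Real.log X ≤ X ^ ε * (1 / ε) := by
    have := Real.log_le_rpow_div hX0.le hε0
    rw [mul_one_div]; exact this
  have h2 : 1 ≤ X ^ ε := Real.one_le_rpow (by linarith) hε0.le
  rw [le_div_iff₀ (by positivity)]
  have e1 : X ^ (-ρ0) * X ^ (ρ0 / 4) * (X ^ ε) ^ (A + 1) = X ^ (-(ρ0 / 4)) := by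
    rw [← Real.rpow_natCast (X ^ ε) (A + 1), ← Real.rpow_mul hX0.le, ← Real.rpow_add hX0,
      ← Real.rpow_add hX0]
    congr 1
    rw [hε]; push_cast; field_simp; ring
  have e2 : X ^ (-(ρ0 / 4)) ≤ 1 := Real.rpow_le_one_of_one_le_of_nonpos (by linarith) (by linarith)
  calc X ^ (-ρ0) * (X ^ (ρ0 / 4) * (1 + Real.log X)) * Real.log X ^ A
      ≤ X ^ (-ρ0) * (X ^ (ρ0 / 4) * (X ^ ε + X ^ ε * (1 / ε))) * (X ^ ε * (1 / ε)) ^ A := by
        gcongr
    _ = (X ^ (-ρ0) * X ^ (ρ0 / 4) * (X ^ ε) ^ (A + 1)) * ((1 + 1 / ε) * (1 / ε) ^ A) := by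
        rw [mul_pow, pow_succ]; ring
    _ ≤ 1 * ((1 + 1 / ε) * (1 / ε) ^ A) := by rw [e1]; gcongr
    _ = _ := one_mul _

theorem bt1A (A : ℕ) (h : P_DISP1) (δ : ℝ) (hδ : 0 < δ) : ∃ ρ : ℝ, 0 < ρ ∧ ρ ≤ 1 / 100 ∧
  ∀ a : ℤ, a ≠ 0 → ∀ ρ0 : ℝ, 0 < ρ0 → ∃ C : ℝ, 0 < C ∧
  ∀ (M P P' Z Q s : ℕ) (lam : ℕ → ℝ) (E : Finset ℕ), 3 ≤ M → 3 ≤ P →
    ((M : ℝ) * P) ^ ρ0 ≤ P → (P : ℝ) ≤ ((M : ℝ) * P) ^ ρ → P ≤ P' → P' ≤ 2 * P →
    (Z : ℝ) ^ 2 ≤ ((M : ℝ) * P) ^ (8 / 15 - δ) → Sel Z s lam → 1 ≤ Q →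
    (Q : ℝ) ≤ (M : ℝ) * ((M : ℝ) * P) ^ (-ρ0) →
    (∀ q ∈ E, Q < q ∧ q ≤ 2 * Q ∧ Int.gcd a q = 1) →
    (∑ q ∈ E, ∑ b ∈ (Icc 1 (M / q)).filter (fun b : ℕ => Int.gcd a b = 1), ∑ p ∈ Pr P P',
      ∑ d ∈ Icc 1 (Z ^ 2), if (d : ℤ) ∣ a + q * b * p then lam d else 0) ≤
      ((Pr P P').card : ℝ) * M * (∑ q ∈ E,
        ((Nat.totient a.natAbs : ℝ) / (a.natAbs : ℝ)) / (q : ℝ) *
        ∑ d ∈ (Icc 1 (Z ^ 2)).filter (fun d => Nat.Coprime d (q * a.natAbs)), lam d / d) +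
      C * ((M : ℝ) * P) / Real.log ((M : ℝ) * P) ^ A := by
  obtain ⟨ρ, hρ, hρ1, h⟩ := h δ hδ A
  refine ⟨ρ, hρ, hρ1, ?_⟩
  intro a ha ρ0 hρ0
  obtain ⟨C1, hC1, h1⟩ := h (-a) (neg_ne_zero.2 ha) ρ0 hρ0
  obtain ⟨C2, hC2, h2⟩ := TBT1.err ρ0 hρ0
  obtain ⟨C3, hC3, h3⟩ := logbA A ρ0 hρ0
  have ha1 : 1 ≤ a.natAbs := Int.natAbs_pos.2 ha
  have har : (1 : ℝ) ≤ (a.natAbs : ℝ) := by exact_mod_cast ha1
  set X0 : ℝ := (a.natAbs : ℝ) ^ (1 / ρ0) with hX0
  have hX00 : 0 < X0 := by positivity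
  refine ⟨C1 + 2 * (a.natAbs.divisors.card : ℝ) * C2 * C3 + 2 * X0 ^ (5 + A), by positivity, ?_⟩
  intro M P P' Z Q s lam E hM hP hP0 hPρ hPP hPP2 hZ hSel hQ hQM hE
  have hMr : (3 : ℝ) ≤ M := by exact_mod_cast hM
  have hPr : (3 : ℝ) ≤ P := by exact_mod_cast hP
  set X : ℝ := (M : ℝ) * P with hX
  have hX9 : 9 ≤ X := by rw [hX]; nlinarith
  have hXpos : 0 < X := by linarith
  have hMX : (M : ℝ) ≤ X := by rw [hX]; nlinarith
  have hPX : (P : ℝ) ≤ X := by rw [hX]; nlinarith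
  have hlog : 0 < Real.log X := Real.log_pos (by linarith)
  have hlogX : Real.log X ≤ X := by linarith [Real.log_le_sub_one_of_pos hXpos]
  have hZX : ((Z ^ 2 : ℕ) : ℝ) ≤ X := by
    push_cast
    refine hZ.trans ?_
    calc X ^ (8 / 15 - δ) ≤ X ^ (1 : ℝ) :=
          Real.rpow_le_rpow_of_exponent_le (by linarith) (by linarith)
      _ = X := Real.rpow_one X
  have hEq1 : ∀ q ∈ E, 1 ≤ q := fun q hq => by have := (hE q hq).1; omega
  have hn : ((Pr P P').card : ℝ) ≤ P := by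
    have h4 : (Pr P P').card ≤ (Ioc P P').card := card_le_card (filter_subset _ _)
    rw [Nat.card_Ioc] at h4
    exact_mod_cast (by omega : (Pr P P').card ≤ P)
  have hEc : (E.card : ℝ) ≤ M * X ^ (-ρ0) := by
    have h4 : E ⊆ Ioc Q (2 * Q) := fun q hq => mem_Ioc.2 ⟨(hE q hq).1, (hE q hq).2.1⟩
    have h5 := card_le_card h4
    rw [Nat.card_Ioc] at h5
    have h6 : (E.card : ℝ) ≤ Q := by exact_mod_cast (by omega : E.card ≤ Q)
    exact h6.trans hQM
  set n : ℕ := (Pr P P').card with hn'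
  set MT : ℝ := (n : ℝ) * M * (∑ q ∈ E,
        ((Nat.totient a.natAbs : ℝ) / (a.natAbs : ℝ)) / (q : ℝ) *
        ∑ d ∈ (Icc 1 (Z ^ 2)).filter (fun d => Nat.Coprime d (q * a.natAbs)), lam d / d) with hMT
  by_cases hPa : a.natAbs < P
  · -- main case
    set α : ℕ → ℝ := fun m => if 1 ≤ m then
      ((E.filter (fun q => q ∣ m ∧ Int.gcd a ((m / q : ℕ) : ℤ) = 1)).card : ℝ) else 0 with hα
    have hαb : ∀ m, |α m| ≤ (m.divisors.card : ℝ) := by
      intro m
      simp only [hα]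
      split_ifs with hm
      · rw [abs_of_nonneg (by positivity)]
        have : E.filter (fun q => q ∣ m ∧ Int.gcd a ((m / q : ℕ) : ℤ) = 1) ⊆ m.divisors := by
          intro q hq
          rw [mem_filter] at hq
          rw [Nat.mem_divisors]
          exact ⟨hq.2.1, by omega⟩
        exact_mod_cast card_le_card this
      · simp
    have h4 := h1 M P P' Z lam α hM hP hP0 hPρ hPP hPP2 hZ hSel.bd
      (fun d hd => ⟨(hSel.supp d hd).2.1, (hSel.supp d hd).2.2.2.2⟩) hαb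
    rw [← hX] at h4
    simp only [Int.neg_gcd] at h4
    have h5 : ∑ m ∈ Icc 1 M, α m *
        Dl (-a) lam ((Icc 1 (Z ^ 2)).filter (fun d : ℕ => Int.gcd a d = 1)) (Pr P P') m =
        ∑ q ∈ E, ∑ b ∈ (Icc 1 (M / q)).filter (fun b : ℕ => Int.gcd a b = 1),
          Dl (-a) lam ((Icc 1 (Z ^ 2)).filter (fun d : ℕ => Int.gcd a d = 1)) (Pr P P')
            ((q * b : ℕ) : ℤ) := by
      rw [← TBT1.comb a E M hEq1 (fun m => Dl (-a) lam
        ((Icc 1 (Z ^ 2)).filter (fun d : ℕ => Int.gcd a d = 1)) (Pr P P') ((m : ℕ) : ℤ))]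
      apply sum_congr rfl
      intro m hm
      rw [mem_Icc] at hm
      simp only [hα]
      rw [if_pos hm.1]
    rw [h5] at h4
    have h6 : (∑ q ∈ E, ∑ b ∈ (Icc 1 (M / q)).filter (fun b : ℕ => Int.gcd a b = 1),
        ∑ p ∈ Pr P P', ∑ d ∈ Icc 1 (Z ^ 2), if (d : ℤ) ∣ a + q * b * p then lam d else 0) =
        (∑ q ∈ E, ∑ b ∈ (Icc 1 (M / q)).filter (fun b : ℕ => Int.gcd a b = 1),
          Dl (-a) lam ((Icc 1 (Z ^ 2)).filter (fun d : ℕ => Int.gcd a d = 1)) (Pr P P')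
            ((q * b : ℕ) : ℤ)) +
        ∑ q ∈ E, ∑ b ∈ (Icc 1 (M / q)).filter (fun b : ℕ => Int.gcd a b = 1),
          ∑ d ∈ (Icc 1 (Z ^ 2)).filter (fun d : ℕ => Int.gcd a d = 1),
            lam d * (Cc d ((q * b : ℕ) : ℤ) * (n : ℝ) / (Nat.totient d : ℝ)) := by
      rw [← sum_add_distrib]
      apply sum_congr rfl
      intro q hq
      rw [← sum_add_distrib]
      apply sum_congr rfl
      intro b hb
      rw [mem_filter] at hb
      rw [TBT1.pull a ha lam Z q b (Pr P P') ?_ (hE q hq).2.2 hb.2]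
      · unfold Dl
        rw [← sum_add_distrib]
        apply sum_congr rfl
        intro d _
        ring
      · intro p hp
        unfold Pr at hp
        rw [mem_filter, mem_Ioc] at hp
        exact ⟨hp.2, by omega⟩
    have h7 := TBT1.main_term a ha lam hSel.bd M Z n E hEq1
    rw [← hMT] at h7
    have h8 := h2 X (Z ^ 2) (by linarith) hZX
    have h9 := h3 X (by linarith)
    have h10 : (E.card : ℝ) * ((n : ℝ) * (2 * (a.natAbs.divisors.card : ℝ) *
        ∑ d ∈ Icc 1 (Z ^ 2), (3 : ℝ) ^ om d * d.divisors.card / Nat.totient d)) ≤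
        2 * (a.natAbs.divisors.card : ℝ) * C2 * C3 * (X / Real.log X ^ A) := by
      refine TBT1.arith _ _ P M (X ^ (-ρ0)) _ _ C2 (X ^ (ρ0 / 4) * (1 + Real.log X)) C3
        (Real.log X ^ A) (Nat.cast_nonneg _) hEc (Nat.cast_nonneg _) hn (Nat.cast_nonneg _) h8
        (Finset.sum_nonneg fun d _ => by positivity) h9 hC2.le (by linarith) (by linarith)
        (mul_nonneg (Real.rpow_nonneg hXpos.le _) (by linarith)) (Real.rpow_nonneg hXpos.le _)
    have h11 := (le_abs_self _).trans h4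
    have h12 : 0 ≤ 2 * X0 ^ (5 + A) * (X / Real.log X ^ A) := by positivity
    have h13 : (C1 + 2 * (a.natAbs.divisors.card : ℝ) * C2 * C3 + 2 * X0 ^ (5 + A)) * X /
        Real.log X ^ A = C1 * X / Real.log X ^ A +
        2 * (a.natAbs.divisors.card : ℝ) * C2 * C3 * (X / Real.log X ^ A) +
        2 * X0 ^ (5 + A) * (X / Real.log X ^ A) := by ring
    rw [h6, h13]
    linarith
  · -- bounded case
    have hXX0 : X ≤ X0 := by
      have h4 : X ^ ρ0 ≤ (a.natAbs : ℝ) := hP0.trans (by exact_mod_cast not_lt.1 hPa)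
      calc X = (X ^ ρ0) ^ (1 / ρ0) := by
            rw [← Real.rpow_mul hXpos.le, mul_one_div_cancel hρ0.ne', Real.rpow_one]
        _ ≤ X0 := by rw [hX0]; gcongr
    have hEX : (E.card : ℝ) ≤ X := by
      refine hEc.trans (le_trans ?_ hMX)
      have : X ^ (-ρ0) ≤ 1 := Real.rpow_le_one_of_one_le_of_nonpos (by linarith) (by linarith)
      nlinarith
    have hlam : ∀ d ∈ Icc 1 (Z ^ 2), |lam d| ≤ X ^ 2 := by
      intro d hd
      rw [mem_Icc] at hd
      refine (hSel.bd d).trans ((TBT1.three_pow_om' d hd.1).trans ?_)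
      have : (d : ℝ) ≤ X := le_trans (by exact_mod_cast hd.2) hZX
      gcongr
    have hL : (∑ q ∈ E, ∑ b ∈ (Icc 1 (M / q)).filter (fun b : ℕ => Int.gcd a b = 1),
        ∑ p ∈ Pr P P', ∑ d ∈ Icc 1 (Z ^ 2), if (d : ℤ) ∣ a + q * b * p then lam d else 0) ≤
        X ^ 6 := by
      have k1 : ∀ q b p : ℕ,
          ∑ d ∈ Icc 1 (Z ^ 2), (if (d : ℤ) ∣ a + q * b * p then lam d else 0) ≤ X ^ 3 := by
        intro q b p
        calc ∑ d ∈ Icc 1 (Z ^ 2), (if (d : ℤ) ∣ a + q * b * p then lam d else 0)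
            ≤ ∑ d ∈ Icc 1 (Z ^ 2), X ^ 2 := by
              apply sum_le_sum
              intro d hd
              split_ifs
              · exact (le_abs_self _).trans (hlam d hd)
              · positivity
          _ = ((Z ^ 2 : ℕ) : ℝ) * X ^ 2 := by
              rw [sum_const, Nat.card_Icc, nsmul_eq_mul, Nat.add_sub_cancel]
          _ ≤ X * X ^ 2 := by gcongr
          _ = X ^ 3 := by ring
      have k2 : ∀ q b : ℕ, ∑ p ∈ Pr P P',
          ∑ d ∈ Icc 1 (Z ^ 2), (if (d : ℤ) ∣ a + q * b * p then lam d else 0) ≤ X ^ 4 := by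
        intro q b
        calc _ ≤ ∑ p ∈ Pr P P', X ^ 3 := sum_le_sum fun p _ => k1 q b p
          _ = (n : ℝ) * X ^ 3 := by rw [sum_const, nsmul_eq_mul]
          _ ≤ X * X ^ 3 := by gcongr; exact hn.trans hPX
          _ = X ^ 4 := by ring
      have k3 : ∀ q ∈ E, ∑ b ∈ (Icc 1 (M / q)).filter (fun b : ℕ => Int.gcd a b = 1),
          ∑ p ∈ Pr P P', ∑ d ∈ Icc 1 (Z ^ 2),
            (if (d : ℤ) ∣ a + q * b * p then lam d else 0) ≤ X ^ 5 := by
        intro q hq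
        have hc : (((Icc 1 (M / q)).filter (fun b : ℕ => Int.gcd a b = 1)).card : ℝ) ≤ X := by
          have h4 : ((Icc 1 (M / q)).filter (fun b : ℕ => Int.gcd a b = 1)).card ≤ M := by
            refine (card_le_card (filter_subset _ _)).trans ?_
            rw [Nat.card_Icc, Nat.add_sub_cancel]
            exact Nat.div_le_self _ _
          exact le_trans (by exact_mod_cast h4) hMX
        calc _ ≤ ∑ b ∈ (Icc 1 (M / q)).filter (fun b : ℕ => Int.gcd a b = 1), X ^ 4 :=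
              sum_le_sum fun b _ => k2 q b
          _ = (((Icc 1 (M / q)).filter (fun b : ℕ => Int.gcd a b = 1)).card : ℝ) * X ^ 4 := by
              rw [sum_const, nsmul_eq_mul]
          _ ≤ X * X ^ 4 := by gcongr
          _ = X ^ 5 := by ring
      calc _ ≤ ∑ q ∈ E, X ^ 5 := sum_le_sum k3
        _ = (E.card : ℝ) * X ^ 5 := by rw [sum_const, nsmul_eq_mul]
        _ ≤ X * X ^ 5 := by gcongr
        _ = X ^ 6 := by ring
    have hR : |MT| ≤ X ^ 6 := by
      have k1 : ∀ q ∈ E, |((Nat.totient a.natAbs : ℝ) / (a.natAbs : ℝ)) / (q : ℝ) *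
          ∑ d ∈ (Icc 1 (Z ^ 2)).filter (fun d => Nat.Coprime d (q * a.natAbs)), lam d / d| ≤
          X ^ 3 := by
        intro q hq
        have hq1 : (1 : ℝ) ≤ q := by exact_mod_cast hEq1 q hq
        have k2 : ((Nat.totient a.natAbs : ℝ) / (a.natAbs : ℝ)) / (q : ℝ) ≤ 1 := by
          rw [div_div, div_le_one (by positivity)]
          have : (Nat.totient a.natAbs : ℝ) ≤ (a.natAbs : ℝ) := by
            exact_mod_cast Nat.totient_le _
          nlinarith
        have k3 : |∑ d ∈ (Icc 1 (Z ^ 2)).filter (fun d => Nat.Coprime d (q * a.natAbs)),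
            lam d / d| ≤ X ^ 3 := by
          calc _ ≤ ∑ d ∈ (Icc 1 (Z ^ 2)).filter (fun d => Nat.Coprime d (q * a.natAbs)),
                |lam d / d| := abs_sum_le_sum_abs _ _
            _ ≤ ∑ d ∈ Icc 1 (Z ^ 2), |lam d / d| :=
                sum_le_sum_of_subset_of_nonneg (filter_subset _ _) (fun _ _ _ => abs_nonneg _)
            _ ≤ ∑ d ∈ Icc 1 (Z ^ 2), X ^ 2 := by
                apply sum_le_sum
                intro d hd
                have k4 := hlam d hd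
                rw [mem_Icc] at hd
                have k5 : (1 : ℝ) ≤ d := by exact_mod_cast hd.1
                rw [abs_div, abs_of_nonneg (by linarith : (0 : ℝ) ≤ d), div_le_iff₀ (by linarith)]
                nlinarith [sq_nonneg X]
            _ = ((Z ^ 2 : ℕ) : ℝ) * X ^ 2 := by
                rw [sum_const, Nat.card_Icc, nsmul_eq_mul, Nat.add_sub_cancel]
            _ ≤ X * X ^ 2 := by gcongr
            _ = X ^ 3 := by ring
        rw [abs_mul, abs_of_nonneg (by positivity :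
          0 ≤ ((Nat.totient a.natAbs : ℝ) / (a.natAbs : ℝ)) / (q : ℝ))]
        calc _ ≤ 1 * X ^ 3 := by gcongr
          _ = _ := one_mul _
      rw [hMT, abs_mul]
      have k6 : |(n : ℝ) * M| ≤ X := by
        rw [abs_of_nonneg (by positivity), hX, mul_comm]
        gcongr
      have k8 : |∑ q ∈ E, ((Nat.totient a.natAbs : ℝ) / (a.natAbs : ℝ)) / (q : ℝ) *
          ∑ d ∈ (Icc 1 (Z ^ 2)).filter (fun d => Nat.Coprime d (q * a.natAbs)), lam d / d| ≤
          X ^ 4 := by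
        refine (abs_sum_le_sum_abs _ _).trans ((sum_le_sum k1).trans ?_)
        rw [sum_const, nsmul_eq_mul]
        calc (E.card : ℝ) * X ^ 3 ≤ X * X ^ 3 :=
              mul_le_mul_of_nonneg_right hEX (by positivity)
          _ = X ^ 4 := by ring
      refine (mul_le_mul k6 k8 (abs_nonneg _) hXpos.le).trans ?_
      have k7 : X * X ^ 4 = X ^ 5 := by ring
      rw [k7]
      exact pow_le_pow_right₀ (by linarith) (by norm_num)
    have hfin : 2 * X ^ 6 ≤ 2 * X0 ^ (5 + A) * (X / Real.log X ^ A) := by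
      have k1 : X / X ^ A ≤ X / Real.log X ^ A := by gcongr
      calc 2 * X ^ 6 = 2 * X ^ (5 + A) * (X / X ^ A) := by
            rw [pow_add]
            field_simp
        _ ≤ 2 * X0 ^ (5 + A) * (X / Real.log X ^ A) := by gcongr
    have h13 : (C1 + 2 * (a.natAbs.divisors.card : ℝ) * C2 * C3 + 2 * X0 ^ (5 + A)) * X /
        Real.log X ^ A = (C1 + 2 * (a.natAbs.divisors.card : ℝ) * C2 * C3) *
          (X / Real.log X ^ A) + 2 * X0 ^ (5 + A) * (X / Real.log X ^ A) := by ring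
    have h14 : 0 ≤ (C1 + 2 * (a.natAbs.divisors.card : ℝ) * C2 * C3) *
          (X / Real.log X ^ A) := by positivity
    have h15 := neg_abs_le MT
    rw [h13]
    linarith


end Pool.Agent.H573.AHB.BTp
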