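import Pool.Agent.H573.AHB.BTpA
import Pool.Graph.R_seed8.Helper112.PairSieve

/-!
Prime moduli `q` with `1 + q r` prime: a two dimensional sieve bound, on average over `r` against
the weights `|ω_W(r) - L|`.
-/

set_option autoImplicit false

namespace Pool.Agent.H573.AHB.BTp

open Finset
open Pool.Agent.H262R4.FR

/-- `w4 p` with `1 + w4 p = (p / (p - 1))⁴` -/
noncomputable def w4 (p : ℕ) : ℝ := (1 + TPHIS.w p) ^ 2 - 1

theorem w4_nonneg (p : ℕ) : 0 ≤ w4 p := by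
  unfold w4
  have := TPHIS.w_nonneg p
  nlinarith

theorem w4_le (p : ℕ) (hp : 2 ≤ p) : w4 p / p ≤ 15 * (1 / ((p : ℝ) * ((p : ℝ) - 1))) := by
  have h0 := TPHIS.w_nonneg p
  have h1 := TPHIS.w_le p hp
  have h2 : (2 : ℝ) ≤ p := by exact_mod_cast hp
  have h3 : (0 : ℝ) < p := by linarith
  have h4 : TPHIS.w p ≤ 3 := by
    rw [div_le_iff₀ h3] at h1
    have h5 : 3 * (1 / ((p : ℝ) * ((p : ℝ) - 1))) * p = 3 / ((p : ℝ) - 1) := by
      have : (p : ℝ) - 1 ≠ 0 := by linarith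
      field_simp
    rw [h5] at h1
    refine h1.trans ?_
    rw [div_le_iff₀ (by linarith)]
    linarith
  have h5 : w4 p ≤ 5 * TPHIS.w p := by
    unfold w4
    nlinarith
  calc w4 p / p ≤ (5 * TPHIS.w p) / p := div_le_div_of_nonneg_right h5 h3.le
    _ = 5 * (TPHIS.w p / p) := by ring
    _ ≤ 5 * (3 * (1 / ((p : ℝ) * ((p : ℝ) - 1)))) := by linarith
    _ = _ := by ring

theorem part4 (R : ℕ) :
    ∑ r ∈ Icc 1 R, (((r : ℝ) / Nat.totient r) ^ 2) ^ 2 ≤ Real.exp 15 * R := by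
  have h1 : ∑ r ∈ Icc 1 R, (((r : ℝ) / Nat.totient r) ^ 2) ^ 2 =
      ∑ r ∈ Icc 1 R, ∏ p ∈ r.primeFactors, (1 + w4 p) := by
    refine Finset.sum_congr rfl fun r hr => ?_
    rw [TPHIS.ratio_eq r (Finset.mem_Icc.mp hr).1, ← Finset.prod_pow]
    refine Finset.prod_congr rfl fun p _ => ?_
    unfold w4
    ring
  rw [h1]
  refine (TPHIS.sum_prod_le w4 w4_nonneg R).trans ?_
  rw [mul_comm]
  refine mul_le_mul_of_nonneg_right ?_ (Nat.cast_nonneg _)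
  have h2 : ∏ p ∈ (Icc 1 R).filter Nat.Prime, (1 + w4 p / p) ≤
      ∏ p ∈ (Icc 1 R).filter Nat.Prime, Real.exp (w4 p / p) := by
    refine Finset.prod_le_prod (fun p _ => ?_) fun p _ => ?_
    · have := w4_nonneg p
      positivity
    · rw [add_comm]; exact Real.add_one_le_exp _
  refine h2.trans ?_
  rw [← Real.exp_sum]
  apply Real.exp_le_exp.mpr
  have h3 : ∑ p ∈ (Icc 1 R).filter Nat.Prime, w4 p / p ≤
      ∑ p ∈ (Icc 1 R).filter Nat.Prime, 15 * (1 / ((p : ℝ) * ((p : ℝ) - 1))) :=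
    Finset.sum_le_sum fun p hp => w4_le p (Finset.mem_filter.mp hp).2.two_le
  refine h3.trans ?_
  rw [← Finset.mul_sum]
  have h4 : ∑ p ∈ (Icc 1 R).filter Nat.Prime, 1 / ((p : ℝ) * ((p : ℝ) - 1)) ≤
      ∑ n ∈ Ioc 1 R, 1 / ((n : ℝ) * ((n : ℝ) - 1)) := by
    refine Finset.sum_le_sum_of_subset_of_nonneg ?_ ?_
    · intro p hp
      rw [Finset.mem_filter, Finset.mem_Icc] at hp
      rw [Finset.mem_Ioc]
      exact ⟨hp.2.one_lt, hp.1.2⟩
    · intro n hn _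
      rw [Finset.mem_Ioc] at hn
      have : (1 : ℝ) < n := by exact_mod_cast hn.1
      have h5 : (0 : ℝ) < (n : ℝ) - 1 := by linarith
      positivity
  have h5 := TPHIS.tel_le 1 R le_rfl
  norm_num at h5
  norm_num at h4
  norm_num
  linarith

/-- prime `q` with `1 + q r` prime -/
theorem btsp : ∃ C : ℝ, 0 < C ∧ ∀ (Q r : ℕ), 3 ≤ Q → 1 ≤ r →
    (((Ioc Q (2 * Q)).filter (fun q : ℕ => q.Prime ∧ 0 < 1 + (q : ℤ) * r ∧
      (1 + (q : ℤ) * r).toNat.Prime)).card : ℝ) ≤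
      C * ((Q : ℝ) / Real.log Q ^ 2) * ((r : ℝ) / Nat.totient r) ^ 2 := by
  obtain ⟨C, hC, h⟩ := Pool.Agent.Helper112.E456.sieve_two
  refine ⟨2 * C, by positivity, ?_⟩
  intro Q r hQ hr
  have h1 := h 1 0 r 1 (2 * Q) one_pos (by omega) (by simp) (by simp) (by omega) (by omega)
  have hQr : (3 : ℝ) ≤ Q := by exact_mod_cast hQ
  have hlog : 0 < Real.log Q := Real.log_pos (by linarith)
  have hlog2 : Real.log Q ≤ Real.log ((2 * Q : ℕ) : ℝ) := by
    apply Real.log_le_log (by linarith)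
    push_cast
    linarith
  have hcard : (((Ioc Q (2 * Q)).filter (fun q : ℕ => q.Prime ∧ 0 < 1 + (q : ℤ) * r ∧
      (1 + (q : ℤ) * r).toNat.Prime)).card : ℝ) ≤
      (((Finset.Icc 1 (2 * Q)).filter (fun n => (1 * n + 0).Prime ∧ (r * n + 1).Prime)).card : ℝ) := by
    apply Nat.cast_le.mpr
    apply card_le_card
    intro q hq
    rw [mem_filter, mem_Ioc] at hq
    obtain ⟨⟨hq1, hq2⟩, hqp, -, hq3⟩ := hq
    rw [mem_filter, mem_Icc]
    refine ⟨⟨by omega, hq2⟩, by simpa using hqp, ?_⟩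
    have e : (1 + (q : ℤ) * r).toNat = r * q + 1 := by
      have : (1 + (q : ℤ) * r) = ((r * q + 1 : ℕ) : ℤ) := by push_cast; ring
      rw [this]
      exact Int.toNat_natCast _
    rwa [e] at hq3
  refine hcard.trans (h1.trans ?_)
  have e1 : 1 * r * (((1 * 1 : ℕ) : ℤ) - ((r * 0 : ℕ) : ℤ)).natAbs = r := by simp
  rw [e1]
  have e2 : (((2 * Q : ℕ) : ℝ)) / Real.log ((2 * Q : ℕ) : ℝ) ^ 2 ≤ 2 * ((Q : ℝ) / Real.log Q ^ 2) := by
    rw [← mul_div_assoc]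
    apply div_le_div₀ (by positivity) (by push_cast; linarith) (by positivity)
    exact pow_le_pow_left₀ hlog.le hlog2 2
  calc C * ((r : ℝ) / (Nat.totient r : ℝ)) ^ 2 * ((2 * Q : ℕ) : ℝ) / Real.log ((2 * Q : ℕ) : ℝ) ^ 2
      = C * ((r : ℝ) / (Nat.totient r : ℝ)) ^ 2 *
        ((((2 * Q : ℕ) : ℝ)) / Real.log ((2 * Q : ℕ) : ℝ) ^ 2) := by ring
    _ ≤ C * ((r : ℝ) / (Nat.totient r : ℝ)) ^ 2 * (2 * ((Q : ℝ) / Real.log Q ^ 2)) :=
        mul_le_mul_of_nonneg_left e2 (by positivity)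
    _ = _ := by ring

/-- the weights `|ω_W(r) - L|` against primes `q` with `1 + q r` prime -/
theorem bt2p (δ : ℝ) (hδ : 0 < δ) : ∃ C : ℝ, 0 < C ∧
  ∀ (x Q R P P' : ℕ), 3 ≤ x → 3 ≤ Q → (x : ℝ) ^ δ ≤ Q → R * Q ≤ 3 * x →
    1 ≤ P → P' ≤ R →
    ∑ r ∈ Icc 1 R, |omW (Pr P P') r - mass (Pr P P')| *
      (((Ioc Q (2 * Q)).filter (fun q : ℕ => q.Prime ∧ 0 < 1 + (q : ℤ) * r ∧
        (1 + (q : ℤ) * r).toNat.Prime)).card : ℝ) ≤
      C * ((x : ℝ) / Real.log x ^ 2) * Real.sqrt (mass (Pr P P') + 1) := by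
  obtain ⟨C1, hC1, h1⟩ := btsp
  have h2 := t_TK.1
  set C3 : ℝ := Real.exp 15 with hC3
  have hC3p : 0 < C3 := Real.exp_pos _
  refine ⟨6 * C1 * Real.sqrt C3 / δ ^ 2, by positivity, ?_⟩
  intro x Q R P P' hx hQ hxQ hRQ hP hP'
  set L := mass (Pr P P') with hL
  have hL0 : 0 ≤ L := by
    rw [hL]
    exact Finset.sum_nonneg fun p _ => by positivity
  have hQr : (3 : ℝ) ≤ Q := by exact_mod_cast hQ
  have hxr : (3 : ℝ) ≤ x := by exact_mod_cast hx
  have hlogQ : 0 < Real.log Q := Real.log_pos (by linarith)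
  have hlogx : 0 < Real.log x := Real.log_pos (by linarith)
  have hlog : δ * Real.log x ≤ Real.log Q := by
    have := Real.log_le_log (Real.rpow_pos_of_pos (by linarith) δ) hxQ
    rwa [Real.log_rpow (by linarith)] at this
  have s1 : ∑ r ∈ Icc 1 R, |omW (Pr P P') r - L| *
      (((Ioc Q (2 * Q)).filter (fun q : ℕ => q.Prime ∧ 0 < 1 + (q : ℤ) * r ∧
        (1 + (q : ℤ) * r).toNat.Prime)).card : ℝ) ≤
      C1 * ((Q : ℝ) / Real.log Q ^ 2) * ∑ r ∈ Icc 1 R, |omW (Pr P P') r - L| *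
        ((r : ℝ) / Nat.totient r) ^ 2 := by
    rw [Finset.mul_sum]
    refine Finset.sum_le_sum fun r hr => ?_
    rw [Finset.mem_Icc] at hr
    have := h1 Q r hQ hr.1
    calc |omW (Pr P P') r - L| * (((Ioc Q (2 * Q)).filter (fun q : ℕ => q.Prime ∧
        0 < 1 + (q : ℤ) * r ∧ (1 + (q : ℤ) * r).toNat.Prime)).card : ℝ)
        ≤ |omW (Pr P P') r - L| * (C1 * ((Q : ℝ) / Real.log Q ^ 2) *
          ((r : ℝ) / Nat.totient r) ^ 2) :=
          mul_le_mul_of_nonneg_left this (abs_nonneg _)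
      _ = _ := by ring
  have s2 : ∑ r ∈ Icc 1 R, |omW (Pr P P') r - L| * ((r : ℝ) / Nat.totient r) ^ 2 ≤
      Real.sqrt (4 * R * (L + 1)) * Real.sqrt (C3 * R) := by
    refine (Real.sum_mul_le_sqrt_mul_sqrt _ _ _).trans ?_
    refine mul_le_mul ?_ ?_ (Real.sqrt_nonneg _) (Real.sqrt_nonneg _)
    · refine Real.sqrt_le_sqrt ?_
      simp only [sq_abs]
      exact h2 R P P' hP hP'
    · exact Real.sqrt_le_sqrt (part4 R)
  have s3 : Real.sqrt (4 * R * (L + 1)) * Real.sqrt (C3 * R) =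
      2 * Real.sqrt C3 * R * Real.sqrt (L + 1) := by
    rw [← Real.sqrt_mul (by positivity)]
    have : 4 * (R : ℝ) * (L + 1) * (C3 * R) = (2 * R) ^ 2 * (C3 * (L + 1)) := by ring
    rw [this, Real.sqrt_mul (by positivity), Real.sqrt_sq (by positivity),
      Real.sqrt_mul hC3p.le]
    ring
  have s4 : (R : ℝ) * Q ≤ 3 * x := by exact_mod_cast hRQ
  have s5 : (Q : ℝ) / Real.log Q ^ 2 * R ≤ 3 * x / (δ * Real.log x) ^ 2 := by
    rw [div_mul_eq_mul_div]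
    refine div_le_div₀ (by positivity) (by linarith) (by positivity) ?_
    exact pow_le_pow_left₀ (by positivity) hlog 2
  calc _ ≤ C1 * ((Q : ℝ) / Real.log Q ^ 2) * ∑ r ∈ Icc 1 R, |omW (Pr P P') r - L| *
        ((r : ℝ) / Nat.totient r) ^ 2 := s1
    _ ≤ C1 * ((Q : ℝ) / Real.log Q ^ 2) * (2 * Real.sqrt C3 * R * Real.sqrt (L + 1)) := by
        rw [← s3]
        exact mul_le_mul_of_nonneg_left s2 (by positivity)
    _ = (2 * C1 * Real.sqrt C3 * Real.sqrt (L + 1)) * ((Q : ℝ) / Real.log Q ^ 2 * R) := by ring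
    _ ≤ (2 * C1 * Real.sqrt C3 * Real.sqrt (L + 1)) * (3 * x / (δ * Real.log x) ^ 2) :=
        mul_le_mul_of_nonneg_left s5 (by positivity)
    _ = 6 * C1 * Real.sqrt C3 / δ ^ 2 * ((x : ℝ) / Real.log x ^ 2) * Real.sqrt (L + 1) := by
        field_simp
        ring

end Pool.Agent.H573.AHB.BTp
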