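import Pool.Agent.H573.AHB.Sz

/-!
# Counting primes `q` with `φ_0(t), …, φ_{r-1}(t)` all in a small multiplicative group mod `q`
-/

namespace Pool.Agent.H573.AHB

open Polynomial

variable {r : ℕ}

/-- The polynomial `∏ φ_i^{v_i⁺} c_i^{v_i⁻} - ∏ φ_i^{v_i⁻} c_i^{v_i⁺}`. -/
noncomputable def PV (φ : Fin r → ℤ[X]) (c : Fin r → ℤ) (v : Fin r → ℤ) : ℤ[X] :=
  ∏ i, (φ i ^ (v i).toNat * C (c i) ^ (-(v i)).toNat) -
    ∏ i, (φ i ^ (-(v i)).toNat * C (c i) ^ (v i).toNat)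

/-- The sup norm. -/
def nv (v : Fin r → ℤ) : ℕ := Finset.univ.sup fun i => (v i).natAbs

lemma le_nv (v : Fin r → ℤ) (i : Fin r) : (v i).natAbs ≤ nv v :=
  Finset.le_sup (f := fun i => (v i).natAbs) (Finset.mem_univ i)

lemma nv_le {v : Fin r → ℤ} {N : ℕ} (h : ∀ i, (v i).natAbs ≤ N) : nv v ≤ N :=
  Finset.sup_le fun i _ => h i

lemma nv_pos {v : Fin r → ℤ} (h : v ≠ 0) : 1 ≤ nv v := by
  by_contra h0
  apply h
  funext i
  have := le_nv v i
  have h1 : (v i).natAbs = 0 := by omega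
  simpa using h1

lemma PV_eval {F : Type*} [Field F] (φ : Fin r → ℤ[X]) (c : Fin r → ℤ) (v : Fin r → ℤ) (t : F)
    (h : ∀ i, aeval t (φ i) ≠ 0) (hc : ∀ i, ((c i : ℤ) : F) ≠ 0) :
    aeval t (PV φ c v) = 0 ↔ ∏ i, (aeval t (φ i) / (c i : F)) ^ (v i) = 1 := by
  unfold PV
  rw [map_sub, map_prod, map_prod, sub_eq_zero]
  simp only [map_mul, map_pow, aeval_C, algebraMap_int_eq, Int.coe_castRingHom]
  have h1 : ∏ i, ((aeval t (φ i)) ^ (-(v i)).toNat * (c i : F) ^ (v i).toNat) ≠ 0 :=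
    Finset.prod_ne_zero_iff.mpr fun i _ => mul_ne_zero (pow_ne_zero _ (h i)) (pow_ne_zero _ (hc i))
  have h2 : (∏ i, (aeval t (φ i) / (c i : F)) ^ (v i)) *
      ∏ i, ((aeval t (φ i)) ^ (-(v i)).toNat * (c i : F) ^ (v i).toNat)
      = ∏ i, ((aeval t (φ i)) ^ (v i).toNat * (c i : F) ^ (-(v i)).toNat) := by
    rw [← Finset.prod_mul_distrib]
    apply Finset.prod_congr rfl
    intro i _
    have hi := h i
    have hci := hc i
    have e1 : (v i) = ((v i).toNat : ℤ) - ((-(v i)).toNat : ℤ) := by omega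
    rw [div_zpow]
    conv_lhs => rw [e1]
    rw [zpow_sub₀ hi, zpow_sub₀ hci, zpow_natCast, zpow_natCast, zpow_natCast, zpow_natCast]
    have e2 : (-(((v i).toNat : ℤ) - ((-(v i)).toNat : ℤ))).toNat = (-(v i)).toNat := by omega
    have e3 : ((((v i).toNat : ℤ) - ((-(v i)).toNat : ℤ))).toNat = (v i).toNat := by omega
    rw [e2, e3]
    field_simp
  constructor
  · intro h3
    rw [← h2] at h3
    exact mul_right_cancel₀ h1 (by rw [h3, one_mul])
  · intro h3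
    rw [← h2, h3, one_mul]

lemma toNat_le_nv (v : Fin r → ℤ) (i : Fin r) : (v i).toNat ≤ nv v := by
  have := le_nv v i
  omega

lemma toNat_neg_le_nv (v : Fin r → ℤ) (i : Fin r) : (-(v i)).toNat ≤ nv v := by
  have := le_nv v i
  omega

/-- the constants of the family -/
noncomputable def Bc (φ : Fin r → ℤ[X]) (c : Fin r → ℤ) : ℝ :=
  ∏ i, (max 1 (L1 (φ i)) * max 1 (L1 (C (c i))))

noncomputable def Ac (φ : Fin r → ℤ[X]) (c : Fin r → ℤ) : ℝ :=
  Real.log (2 * Bc φ c) + ((∑ i, (φ i).natDegree : ℕ) : ℝ)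

lemma one_le_Bc (φ : Fin r → ℤ[X]) (c : Fin r → ℤ) : 1 ≤ Bc φ c := by
  unfold Bc
  calc (1 : ℝ) = ∏ _i : Fin r, (1 : ℝ) := by simp
    _ ≤ _ := Finset.prod_le_prod (fun _ _ => zero_le_one) (fun i _ => by
        have h1 : (1 : ℝ) ≤ max 1 (L1 (φ i)) := le_max_left _ _
        have h2 : (1 : ℝ) ≤ max 1 (L1 (C (c i))) := le_max_left _ _
        nlinarith)

lemma prod_natDegree_le (φ : Fin r → ℤ[X]) (c : Fin r → ℤ) (e f : Fin r → ℕ) {N : ℕ}
    (h : ∀ i, e i ≤ N) :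
    (∏ i, (φ i ^ e i * C (c i) ^ f i)).natDegree ≤ N * ∑ i, (φ i).natDegree := by
  refine (natDegree_prod_le _ _).trans ?_
  rw [Finset.mul_sum]
  apply Finset.sum_le_sum
  intro i _
  rw [← C_pow]
  refine (natDegree_mul_C_le _ _).trans ?_
  exact natDegree_pow_le.trans (Nat.mul_le_mul_right _ (h i))

lemma L1_pow_le (f : ℤ[X]) {e N : ℕ} (h : e ≤ N) : L1 (f ^ e) ≤ (max 1 (L1 f)) ^ N := by
  calc L1 (f ^ e) ≤ L1 f ^ e := L1_pow _ _
    _ ≤ (max 1 (L1 f)) ^ e := pow_le_pow_left₀ (L1_nonneg _) (le_max_right _ _) _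
    _ ≤ (max 1 (L1 f)) ^ N := pow_le_pow_right₀ (le_max_left _ _) h

lemma prod_L1_le (φ : Fin r → ℤ[X]) (c : Fin r → ℤ) (e f : Fin r → ℕ) {N : ℕ}
    (h : ∀ i, e i ≤ N) (h' : ∀ i, f i ≤ N) :
    L1 (∏ i, (φ i ^ e i * C (c i) ^ f i)) ≤ Bc φ c ^ N := by
  refine (L1_prod _ _).trans ?_
  unfold Bc
  rw [← Finset.prod_pow]
  apply Finset.prod_le_prod (fun i _ => L1_nonneg _)
  intro i _
  rw [mul_pow]
  refine (L1_mul _ _).trans ?_
  exact mul_le_mul (L1_pow_le _ (h i)) (L1_pow_le _ (h' i)) (L1_nonneg _) (by positivity)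

lemma PV_natDegree (φ : Fin r → ℤ[X]) (c : Fin r → ℤ) (v : Fin r → ℤ) :
    (PV φ c v).natDegree ≤ nv v * ∑ i, (φ i).natDegree := by
  unfold PV
  refine (natDegree_sub_le _ _).trans (max_le ?_ ?_)
  · exact prod_natDegree_le φ c _ _ fun i => toNat_le_nv v i
  · exact prod_natDegree_le φ c _ _ fun i => toNat_neg_le_nv v i

lemma PV_L1 (φ : Fin r → ℤ[X]) (c : Fin r → ℤ) (v : Fin r → ℤ) :
    L1 (PV φ c v) ≤ 2 * Bc φ c ^ nv v := by
  unfold PV
  refine (L1_sub _ _).trans ?_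
  have h1 := prod_L1_le φ c _ _ (fun i => toNat_le_nv v i) (fun i => toNat_neg_le_nv v i)
  have h2 := prod_L1_le φ c _ _ (fun i => toNat_neg_le_nv v i) (fun i => toNat_le_nv v i)
  linarith

lemma log_two_mul_pow_le {B : ℝ} (hB : 1 ≤ B) {N : ℕ} (hN : 1 ≤ N) :
    Real.log (2 * B ^ N) ≤ N * Real.log (2 * B) := by
  have h1 : (1 : ℝ) ≤ N := by exact_mod_cast hN
  have h2 := Real.log_nonneg hB
  have h3 := Real.log_nonneg (show (1 : ℝ) ≤ 2 by norm_num)
  rw [Real.log_mul (by norm_num) (by positivity), Real.log_mul (by norm_num) (by positivity),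
    Real.log_pow]
  nlinarith

lemma Ac_nonneg (φ : Fin r → ℤ[X]) (c : Fin r → ℤ) : 0 ≤ Ac φ c := by
  unfold Ac
  have h1 : 0 ≤ Real.log (2 * Bc φ c) := Real.log_nonneg (by linarith [one_le_Bc φ c])
  positivity

lemma sz_PV {φ : Fin r → ℤ[X]} {c v : Fin r → ℤ} (hv : v ≠ 0) (hP : PV φ c v ≠ 0) :
    sz (PV φ c v) ≤ Ac φ c * nv v := by
  have h1 := PV_natDegree φ c v
  have h2 := PV_L1 φ c v
  have h3 := Mm_le_L1 (PV φ c v)
  have h4 := one_le_Mm hP
  have h5 := log_two_mul_pow_le (one_le_Bc φ c) (nv_pos hv)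
  have h6 : Real.log (Mm (PV φ c v)) ≤ Real.log (2 * Bc φ c ^ nv v) :=
    Real.log_le_log (by linarith) (h3.trans h2)
  have h7 : ((PV φ c v).natDegree : ℝ) ≤ nv v * ((∑ i, (φ i).natDegree : ℕ) : ℝ) := by
    exact_mod_cast h1
  unfold sz Ac
  nlinarith

/-- The primes dividing the resultant of `D` and `PV φ c u`. -/
lemma card_res {φ : Fin r → ℤ[X]} {c : Fin r → ℤ} {D : ℤ[X]} (hD : Irreducible D) (hd : D.natDegree ≠ 0)
    {u : Fin r → ℤ} (hu : u ≠ 0) (hnd : ¬ D ∣ PV φ c u) {M : ℕ} (hM : nv u ≤ M)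
    (Q : Finset ℕ) (hQ : ∀ q ∈ Q, q.Prime)
    (hQ2 : ∀ q ∈ Q, ∃ t : ZMod q, aeval t D = 0 ∧ aeval t (PV φ c u) = 0) :
    (Q.card : ℝ) * Real.log 2 ≤ M * Ac φ c * sz D := by
  obtain ⟨R, hR0, hRle, hRd⟩ := res_bound hD hd hnd (PV_natDegree φ c u) (PV_L1 φ c u)
  have h1 := card_primes_dvd Q hQ hR0 (fun q hq => by
    obtain ⟨t, h1, h2⟩ := hQ2 q hq
    exact hRd q t h1 h2)
  refine h1.trans ?_
  have hB := one_le_Bc φ c
  have hMm := one_le_Mm hD.ne_zero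
  have hlogM := Real.log_nonneg hMm
  have h2 : Real.log |(R : ℝ)| ≤ Real.log ((2 * Bc φ c ^ nv u) ^ D.natDegree
      * Mm D ^ (nv u * ∑ i, (φ i).natDegree)) := by
    apply Real.log_le_log _ hRle
    rw [abs_pos]
    exact_mod_cast hR0
  rw [Real.log_mul (by positivity) (by positivity), Real.log_pow, Real.log_pow] at h2
  have h3 := log_two_mul_pow_le hB (nv_pos hu)
  have h4 : (nv u : ℝ) ≤ M := by exact_mod_cast hM
  have h5 : 0 ≤ Real.log (2 * Bc φ c) := Real.log_nonneg (by linarith)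
  have h6 : (D.natDegree : ℝ) * Real.log (2 * Bc φ c ^ nv u)
      ≤ D.natDegree * (nv u * Real.log (2 * Bc φ c)) := mul_le_mul_of_nonneg_left h3 (by positivity)
  have h7 := sz_nonneg hD.ne_zero
  have h8 := Ac_nonneg φ c
  calc Real.log |(R : ℝ)| ≤ (D.natDegree : ℝ) * (nv u * Real.log (2 * Bc φ c))
        + ((nv u * ∑ i, (φ i).natDegree : ℕ) : ℝ) * Real.log (Mm D) := by linarith
    _ ≤ nv u * (Ac φ c * sz D) := by
        unfold Ac sz
        push_cast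
        have h9 : (0 : ℝ) ≤ ∑ i, ((φ i).natDegree : ℝ) := by positivity
        have h10 : (0 : ℝ) ≤ (nv u : ℝ) := by positivity
        have h11 : (0 : ℝ) ≤ (D.natDegree : ℝ) := by positivity
        nlinarith [mul_nonneg h10 (mul_nonneg h5 hlogM), mul_nonneg h10 (mul_nonneg h9 h11)]
    _ ≤ M * (Ac φ c * sz D) := mul_le_mul_of_nonneg_right h4 (by positivity)
    _ = _ := by ring

/-- Pigeonhole in a box. -/
lemma box_pigeon {F : Type*} [Field F] (x : Fin r → F) {n K : ℕ} (hn : 1 ≤ n) (hnK : n ≤ K)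
    (hx : ∀ i, x i ^ n = 1) (w : Fin r → ℕ) (hw : K < ∏ i, w i) :
    ∃ u : Fin r → ℤ, u ≠ 0 ∧ (∀ i, (u i).natAbs < w i) ∧ ∏ i, x i ^ (u i) = 1 := by
  classical
  have hx0 : ∀ i, x i ≠ 0 := by
    intro i h0
    have := hx i
    rw [h0, zero_pow (by omega)] at this
    exact zero_ne_one this
  set S := Fintype.piFinset fun i => Finset.range (w i) with hS
  set T := (nthRoots n (1 : F)).toFinset with hT
  have hcT : T.card ≤ K := by
    refine (Multiset.toFinset_card_le _).trans ?_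
    exact (card_nthRoots n (1 : F)).trans hnK
  have hcS : S.card = ∏ i, w i := by
    rw [hS, Fintype.card_piFinset]
    simp
  have hmaps : ∀ b ∈ S, (∏ i, x i ^ (b i)) ∈ T := by
    intro b _
    rw [hT, Multiset.mem_toFinset, mem_nthRoots (by omega), ← Finset.prod_pow]
    apply Finset.prod_eq_one
    intro i _
    rw [← pow_mul, mul_comm, pow_mul, hx i, one_pow]
  obtain ⟨b, hb, b', hb', hne, heq⟩ :=
    Finset.exists_ne_map_eq_of_card_lt_of_maps_to (by rw [hcS]; exact lt_of_le_of_lt hcT hw) hmaps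
  refine ⟨fun i => (b i : ℤ) - b' i, ?_, ?_, ?_⟩
  · intro h0
    apply hne
    funext i
    have := congrFun h0 i
    simp only [Pi.zero_apply] at this
    omega
  · intro i
    rw [hS, Fintype.mem_piFinset] at hb hb'
    have h1 := Finset.mem_range.mp (hb i)
    have h2 := Finset.mem_range.mp (hb' i)
    show ((b i : ℤ) - b' i).natAbs < w i
    omega
  · have h1 : ∏ i, x i ^ ((b i : ℤ) - b' i) = (∏ i, x i ^ (b i)) / ∏ i, x i ^ (b' i) := by
      rw [← Finset.prod_div_distrib]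
      apply Finset.prod_congr rfl
      intro i _
      rw [zpow_sub₀ (hx0 i), zpow_natCast, zpow_natCast]
    rw [h1, heq]
    exact div_self (Finset.prod_ne_zero_iff.mpr fun i _ => pow_ne_zero _ (hx0 i))

end Pool.Agent.H573.AHB
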