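import Pool.Agent.H573.AHB.NoRoot

/-!
Counting the primes `q` modulo which there are `(U, V) ≠ (0, 0)` such that each of
`U, V, F_m(U,V), G_m(U,V)` is zero or in a fixed multiple of `μ_n`, `n ≤ K`.
-/

namespace Pool.Agent.H573.AHB

open Polynomial

/-- the three polynomials -/
noncomputable def ph (δ : ℤ) (m a b2 : ℕ) : Fin 3 → ℤ[X] :=
  ![C ((b2 * a : ℕ) : ℤ) * X, C ((a ^ (2 * m) : ℕ) : ℤ) * fp δ m, C ((a ^ (2 * m) : ℕ) : ℤ) * gp δ m]

/-- the three constants -/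
def cc (b1 e h : ℕ) : Fin 3 → ℤ := ![(b1 : ℤ), (e : ℤ), (h : ℤ)]

section
variable {A : Type*} [CommRing A]

lemma ph_zero (t : A) (δ : ℤ) (m a b2 : ℕ) :
    aeval t (ph δ m a b2 0) = ((b2 : A) * a) * t := by
  unfold ph
  rw [Matrix.cons_val_zero, map_mul, aeval_C, aeval_X]
  simp

lemma ph_one (t : A) (δ : ℤ) (m a b2 : ℕ) :
    aeval t (ph δ m a b2 1) = (a : A) ^ (2 * m) * Fh (δ : A) 1 t m := by
  unfold ph
  rw [Matrix.cons_val_one, Matrix.cons_val_zero, map_mul, aeval_C, aeval_fp]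
  simp

lemma ph_two (t : A) (δ : ℤ) (m a b2 : ℕ) :
    aeval t (ph δ m a b2 2) = (a : A) ^ (2 * m) * Gh (δ : A) 1 t m := by
  unfold ph
  rw [Matrix.cons_val_two, Matrix.tail_cons, Matrix.head_cons, map_mul, aeval_C, aeval_gp]
  simp

end

lemma ph_H2 (δ : ℤ) (m a b1 b2 e h : ℕ) (ha : 1 ≤ a) (hb2 : 1 ≤ b2)
    (H2 : b2 ^ (4 * m) * (e ^ 2 * (b2 ^ 2 * a ^ 2) + δ.natAbs * b1 ^ 2 * h ^ 2) <
      (b2 ^ 2 * a ^ 2 + δ.natAbs * b1 ^ 2) ^ (2 * m + 1)) (z : ℂ) :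
    ∃ i, ‖aeval z (ph δ m a b2 i)‖ ≠ |(cc b1 e h i : ℝ)| := by
  by_contra hcon
  push Not at hcon
  have h0 := hcon 0
  have h1 := hcon 1
  have h2 := hcon 2
  rw [ph_zero] at h0
  rw [ph_one] at h1
  rw [ph_two] at h2
  simp only [cc, Matrix.cons_val_zero, Matrix.cons_val_one, Matrix.cons_val_two, Matrix.tail_cons,
    Matrix.head_cons, Int.cast_natCast, Nat.abs_cast, norm_mul, norm_pow,
    Complex.norm_natCast] at h0 h1 h2
  have hpm := power_mean δ z m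
  set F := ‖Fh (δ : ℂ) 1 z m‖ with hF
  set G := ‖Gh (δ : ℂ) 1 z m‖ with hG
  have hδ : (δ.natAbs : ℝ) = |(δ : ℝ)| := by rw [Nat.cast_natAbs]; push_cast; rfl
  have hb2r : (0 : ℝ) < b2 := by exact_mod_cast hb2
  have har : (0 : ℝ) < a := by exact_mod_cast ha
  have H2' : ((b2 : ℝ) ^ (4 * m) * (e ^ 2 * (b2 ^ 2 * a ^ 2) + |(δ : ℝ)| * b1 ^ 2 * h ^ 2)) <
      ((b2 : ℝ) ^ 2 * a ^ 2 + |(δ : ℝ)| * b1 ^ 2) ^ (2 * m + 1) := by
    rw [← hδ]
    exact_mod_cast H2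
  have e1 : ((b2 : ℝ) ^ 2 * a ^ 2 + |(δ : ℝ)| * b1 ^ 2) ^ (2 * m + 1) =
      ((b2 : ℝ) * a) ^ (2 * (2 * m + 1)) * (1 + |(δ : ℝ)| * ‖z‖ ^ 2) ^ (2 * m + 1) := by
    have e0 : ((b2 : ℝ) * a) ^ (2 * (2 * m + 1)) = (((b2 : ℝ) * a) ^ 2) ^ (2 * m + 1) :=
      pow_mul _ _ _
    have e00 : (b2 : ℝ) ^ 2 * a ^ 2 + |(δ : ℝ)| * b1 ^ 2 =
        ((b2 : ℝ) * a) ^ 2 * (1 + |(δ : ℝ)| * ‖z‖ ^ 2) := by
      rw [← h0]
      ring
    rw [e00, e0, mul_pow]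
  have e2 : ((b2 : ℝ) * a) ^ (2 * (2 * m + 1)) * (F ^ 2 + |(δ : ℝ)| * ‖z‖ ^ 2 * G ^ 2) =
      (b2 : ℝ) ^ (4 * m) * (e ^ 2 * (b2 ^ 2 * a ^ 2) + |(δ : ℝ)| * b1 ^ 2 * h ^ 2) := by
    rw [← h0, ← h1, ← h2]
    ring
  have e3 := mul_le_mul_of_nonneg_left hpm
    (show (0 : ℝ) ≤ ((b2 : ℝ) * a) ^ (2 * (2 * m + 1)) by positivity)
  rw [e2, ← e1] at e3
  linarith

lemma natCast_ne_zero_of_lt {q : ℕ} {k : ℕ} (hk : 1 ≤ k) (hkq : k < q)
    (K : Type*) [Field K] [CharP K q] : (k : K) ≠ 0 := by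
  intro h
  rw [CharP.cast_eq_zero_iff K q] at h
  have := Nat.le_of_dvd (by omega) h
  omega

lemma ph_Hq (K : Type) [Field K] [IsAlgClosed K] (δ : ℤ) (m a b2 : ℕ) (hm : 1 ≤ m) (ha : 1 ≤ a)
    (hb2 : 1 ≤ b2) (hδ : δ ≠ 0) (q : ℕ) [CharP K q]
    (hqa : a < q) (hqb : b2 < q) (hqm : 2 * m + 1 < q) (hqδ : δ.natAbs < q)
    (i : Fin 3) : ∃ z : K, aeval z (ph δ m a b2 i) = 0 ∧
      ∀ j, j ≠ i → aeval z (ph δ m a b2 j) ≠ 0 := by
  have h2 : (2 : K) ≠ 0 := by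
    have := natCast_ne_zero_of_lt (q := q) (k := 2) (by omega) (by omega) K
    push_cast at this
    exact this
  have ha0 : (a : K) ≠ 0 := natCast_ne_zero_of_lt ha hqa K
  have hb0 : (b2 : K) ≠ 0 := natCast_ne_zero_of_lt hb2 hqb K
  have hp0 : (2 * (m : K) + 1) ≠ 0 := by
    have := natCast_ne_zero_of_lt (k := 2 * m + 1) (by omega) hqm K
    push_cast at this
    exact this
  have hδ0 : (δ : K) ≠ 0 := by
    intro h0
    rw [CharP.intCast_eq_zero_iff K q] at h0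
    have h1 := Int.natAbs_dvd_natAbs.mpr h0
    rw [Int.natAbs_natCast] at h1
    have := Nat.le_of_dvd (Int.natAbs_pos.mpr hδ) h1
    omega
  have hf0 : Fh (δ : K) 1 0 m = 1 := by rw [(FG_v0 (δ : K) 1 m).1, one_pow]
  have hg0 : Gh (δ : K) 1 0 m = 2 * m + 1 := by rw [(FG_v0 (δ : K) 1 m).2, one_pow, mul_one]
  have hapow : (a : K) ^ (2 * m) ≠ 0 := pow_ne_zero _ ha0
  -- a root of a polynomial with nonzero coefficient in degree 2m
  have hroot : ∀ P : ℤ[X], P.natDegree ≤ 2 * m → ((P.coeff (2 * m) : ℤ) : K) ≠ 0 →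
      ∃ z : K, aeval z P = 0 := by
    intro P _ hc
    have h1 : (P.map (algebraMap ℤ K)).degree ≠ 0 := by
      intro h0
      have h3 : (P.map (algebraMap ℤ K)).natDegree = 0 := natDegree_eq_of_degree_eq_some h0
      have h4 : (P.map (algebraMap ℤ K)).coeff (2 * m) = 0 :=
        coeff_eq_zero_of_natDegree_lt (by omega)
      rw [coeff_map] at h4
      apply hc
      rw [← h4]
      exact (eq_intCast (algebraMap ℤ K) _).symm
    obtain ⟨z, hz⟩ := IsAlgClosed.exists_root _ h1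
    refine ⟨z, ?_⟩
    rw [IsRoot.def, eval_map_algebraMap] at hz
    exact hz
  obtain ⟨d1, d2, d3, d4⟩ := fgp_deg δ m
  have h3cases : i = 0 ∨ i = 1 ∨ i = 2 := by
    fin_cases i <;> simp
  rcases h3cases with rfl | rfl | rfl
  · refine ⟨0, by rw [ph_zero, mul_zero], ?_⟩
    intro j hj
    have hj' : j = 1 ∨ j = 2 := by
      fin_cases j
      · exact absurd rfl hj
      · left; rfl
      · right; rfl
    rcases hj' with rfl | rfl
    · rw [ph_one, hf0, mul_one]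
      exact hapow
    · rw [ph_two, hg0]
      exact mul_ne_zero hapow hp0
  · obtain ⟨z, hz⟩ := hroot (fp δ m) d1 (by
      rw [d3]
      push_cast
      exact mul_ne_zero hp0 (pow_ne_zero _ hδ0))
    rw [aeval_fp] at hz
    refine ⟨z, by rw [ph_one, hz, mul_zero], ?_⟩
    have hz0 : z ≠ 0 := by
      intro h0
      rw [h0, hf0] at hz
      exact one_ne_zero hz
    intro j hj
    have hj' : j = 0 ∨ j = 2 := by
      fin_cases j
      · left; rfl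
      · exact absurd rfl hj
      · right; rfl
    rcases hj' with rfl | rfl
    · rw [ph_zero]
      exact mul_ne_zero (mul_ne_zero hb0 ha0) hz0
    · rw [ph_two]
      exact mul_ne_zero hapow (no_common h2 _ _ _ hz)
  · obtain ⟨z, hz⟩ := hroot (gp δ m) d2 (by
      rw [d4]
      push_cast
      exact pow_ne_zero _ hδ0)
    rw [aeval_gp] at hz
    refine ⟨z, by rw [ph_two, hz, mul_zero], ?_⟩
    have hz0 : z ≠ 0 := by
      intro h0
      rw [h0, hg0] at hz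
      exact hp0 hz
    intro j hj
    have hj' : j = 0 ∨ j = 1 := by
      fin_cases j
      · left; rfl
      · right; rfl
      · exact absurd rfl hj
    rcases hj' with rfl | rfl
    · rw [ph_zero]
      exact mul_ne_zero (mul_ne_zero hb0 ha0) hz0
    · rw [ph_one]
      refine mul_ne_zero hapow ?_
      intro h0
      exact no_common h2 _ _ _ h0 hz

/-- `q` is bad at `(U, V)` for the exponent `n` -/
def BadUV (δ : ℤ) (m a b1 b2 e h q n : ℕ) : Prop :=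
  ∃ U V : ZMod q, (U ≠ 0 ∨ V ≠ 0) ∧ (U = 0 ∨ U ^ n = (a : ZMod q) ^ n) ∧
    (V = 0 ∨ ((b2 : ZMod q) * V) ^ n = (b1 : ZMod q) ^ n) ∧
    (Fh (δ : ZMod q) U V m = 0 ∨ Fh (δ : ZMod q) U V m ^ n = (e : ZMod q) ^ n) ∧
    (Gh (δ : ZMod q) U V m = 0 ∨ Gh (δ : ZMod q) U V m ^ n = (h : ZMod q) ^ n)

/-- the possibilities for a bad prime -/
lemma bad_cases (δ : ℤ) (m a b1 b2 e h q n : ℕ) (hm : 1 ≤ m) (ha : 1 ≤ a) (hb2 : 1 ≤ b2)
    (hδ : δ ≠ 0) (hqp : q.Prime) (hqa : a < q) (hqb : b2 < q) (hqm : 2 * m + 1 < q)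
    (hqδ : δ.natAbs < q) (hn : Even n) (hbad : BadUV δ m a b1 b2 e h q n) :
    (((b2 ^ (2 * m) * e : ℕ) : ZMod q) ^ n = (((2 * m + 1) * δ.natAbs ^ m * b1 ^ (2 * m) : ℕ) :
      ZMod q) ^ n) ∨
    (((h : ℕ) : ZMod q) ^ n = (((2 * m + 1) * a ^ (2 * m) : ℕ) : ZMod q) ^ n) ∨
    (∃ t : ZMod q, aeval t (fp δ m) = 0 ∧
      (((b2 * a : ℕ) : ZMod q) * t) ^ n = ((b1 : ℕ) : ZMod q) ^ n) ∨
    (∃ t : ZMod q, aeval t (gp δ m) = 0 ∧
      (((b2 * a : ℕ) : ZMod q) * t) ^ n = ((b1 : ℕ) : ZMod q) ^ n) ∨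
    (∃ t : ZMod q, ∀ i, (aeval t (ph δ m a b2 i)) ^ n = ((cc b1 e h i : ℤ) : ZMod q) ^ n) := by
  have hF : Fact q.Prime := ⟨hqp⟩
  obtain ⟨U, V, hUV, hU, hV, hFF, hGG⟩ := hbad
  have ha0 : (a : ZMod q) ≠ 0 := natCast_ne_zero_of_lt ha hqa (ZMod q)
  have hb0 : (b2 : ZMod q) ≠ 0 := natCast_ne_zero_of_lt hb2 hqb (ZMod q)
  have hp0 : (2 * (m : ZMod q) + 1) ≠ 0 := by
    have := natCast_ne_zero_of_lt (k := 2 * m + 1) (by omega) hqm (ZMod q)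
    push_cast at this
    exact this
  have hδ0 : (δ : ZMod q) ≠ 0 := by
    intro h0
    rw [ZMod.intCast_zmod_eq_zero_iff_dvd] at h0
    have h1 := Int.natAbs_dvd_natAbs.mpr h0
    rw [Int.natAbs_natCast] at h1
    have := Nat.le_of_dvd (Int.natAbs_pos.mpr hδ) h1
    omega
  have hδn : (δ : ZMod q) ^ n = ((δ.natAbs : ℕ) : ZMod q) ^ n := by
    rcases Int.natAbs_eq δ with h1 | h1
    · conv_lhs => rw [h1]
      rw [Int.cast_natCast]
    · conv_lhs => rw [h1]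
      rw [Int.cast_neg, Int.cast_natCast, hn.neg_pow]
  by_cases hU0 : U = 0
  · left
    have hV0 : V ≠ 0 := by
      rcases hUV with h1 | h1
      · exact absurd hU0 h1
      · exact h1
    have hV' := hV.resolve_left hV0
    rw [hU0] at hFF
    rw [(FG_u0 (δ : ZMod q) V m).1] at hFF
    have hne : (2 * (m : ZMod q) + 1) * ((δ : ZMod q) * V ^ 2) ^ m ≠ 0 :=
      mul_ne_zero hp0 (pow_ne_zero _ (mul_ne_zero hδ0 (pow_ne_zero _ hV0)))
    have hF' := hFF.resolve_left hne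
    push_cast
    obtain ⟨P, hP⟩ : ∃ P : ZMod q, P = 2 * (m : ZMod q) + 1 := ⟨_, rfl⟩
    rw [← hP] at hF' ⊢
    calc ((b2 : ZMod q) ^ (2 * m) * (e : ZMod q)) ^ n
        = ((b2 : ZMod q) ^ (2 * m)) ^ n * (e : ZMod q) ^ n := by rw [mul_pow]
      _ = ((b2 : ZMod q) ^ (2 * m)) ^ n * (P * ((δ : ZMod q) * V ^ 2) ^ m) ^ n := by
          rw [hF']
      _ = P ^ n * ((δ : ZMod q) ^ n) ^ m * (((b2 : ZMod q) * V) ^ n) ^ (2 * m) := by
          ring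
      _ = P ^ n * (((δ.natAbs : ℕ) : ZMod q) ^ n) ^ m *
          ((b1 : ZMod q) ^ n) ^ (2 * m) := by rw [hδn, hV']
      _ = _ := by ring
  by_cases hV0 : V = 0
  · right; left
    have hU' := hU.resolve_left hU0
    rw [hV0] at hGG
    rw [(FG_v0 (δ : ZMod q) U m).2] at hGG
    have hne : (2 * (m : ZMod q) + 1) * U ^ (2 * m) ≠ 0 := mul_ne_zero hp0 (pow_ne_zero _ hU0)
    have hG' := hGG.resolve_left hne
    rw [← hG']
    push_cast
    obtain ⟨P, hP⟩ : ∃ P : ZMod q, P = 2 * (m : ZMod q) + 1 := ⟨_, rfl⟩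
    rw [← hP]
    calc (P * U ^ (2 * m)) ^ n
        = P ^ n * (U ^ n) ^ (2 * m) := by ring
      _ = P ^ n * ((a : ZMod q) ^ n) ^ (2 * m) := by rw [hU']
      _ = _ := by ring
  right; right
  have hU' := hU.resolve_left hU0
  have hV' := hV.resolve_left hV0
  obtain ⟨t, ht⟩ : ∃ t, t = V / U := ⟨_, rfl⟩
  have hVt : V = U * t := by rw [ht]; field_simp
  have hFt : Fh (δ : ZMod q) U V m = U ^ (2 * m) * Fh (δ : ZMod q) 1 t m := by
    have := (hom_FG (δ : ZMod q) 1 t U m).1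
    rw [mul_one, ← hVt] at this
    exact this
  have hGt : Gh (δ : ZMod q) U V m = U ^ (2 * m) * Gh (δ : ZMod q) 1 t m := by
    have := (hom_FG (δ : ZMod q) 1 t U m).2
    rw [mul_one, ← hVt] at this
    exact this
  have hUp : U ^ (2 * m) ≠ 0 := pow_ne_zero _ hU0
  have htn : (((b2 * a : ℕ) : ZMod q) * t) ^ n = ((b1 : ℕ) : ZMod q) ^ n := by
    have hUn : U ^ n ≠ 0 := pow_ne_zero _ hU0
    apply mul_left_cancel₀ hUn
    push_cast
    calc U ^ n * ((b2 : ZMod q) * a * t) ^ n = (a : ZMod q) ^ n * ((b2 : ZMod q) * (U * t)) ^ n := by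
          ring
      _ = U ^ n * (b1 : ZMod q) ^ n := by rw [← hVt, hV', hU']
  by_cases hf0 : Fh (δ : ZMod q) U V m = 0
  · left
    refine ⟨t, ?_, htn⟩
    rw [aeval_fp]
    rw [hFt] at hf0
    exact (mul_eq_zero.mp hf0).resolve_left hUp
  right
  by_cases hg0 : Gh (δ : ZMod q) U V m = 0
  · left
    refine ⟨t, ?_, htn⟩
    rw [aeval_gp]
    rw [hGt] at hg0
    exact (mul_eq_zero.mp hg0).resolve_left hUp
  right
  have hF' := hFF.resolve_left hf0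
  have hG' := hGG.resolve_left hg0
  refine ⟨t, ?_⟩
  intro i
  have h3cases : i = 0 ∨ i = 1 ∨ i = 2 := by
    fin_cases i <;> simp
  have hUn2 : (U ^ n) ^ (2 * m) = ((a : ZMod q) ^ n) ^ (2 * m) := by rw [hU']
  rcases h3cases with rfl | rfl | rfl
  · rw [ph_zero]
    simp only [cc, Matrix.cons_val_zero, Int.cast_natCast]
    rw [← htn]
    push_cast
    rfl
  · rw [ph_one]
    simp only [cc, Matrix.cons_val_zero, Matrix.cons_val_one, Int.cast_natCast]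
    rw [← hF', hFt]
    calc ((a : ZMod q) ^ (2 * m) * Fh (δ : ZMod q) 1 t m) ^ n
        = ((a : ZMod q) ^ n) ^ (2 * m) * Fh (δ : ZMod q) 1 t m ^ n := by ring
      _ = (U ^ n) ^ (2 * m) * Fh (δ : ZMod q) 1 t m ^ n := by rw [hUn2]
      _ = _ := by ring
  · rw [ph_two]
    simp only [cc, Matrix.cons_val_two, Matrix.tail_cons, Matrix.head_cons, Int.cast_natCast]
    rw [← hG', hGt]
    calc ((a : ZMod q) ^ (2 * m) * Gh (δ : ZMod q) 1 t m) ^ n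
        = ((a : ZMod q) ^ n) ^ (2 * m) * Gh (δ : ZMod q) 1 t m ^ n := by ring
      _ = (U ^ n) ^ (2 * m) * Gh (δ : ZMod q) 1 t m ^ n := by rw [hUn2]
      _ = _ := by ring

/-- **Core count.** -/
theorem core_count (δ : ℤ) (m a b1 b2 e h : ℕ) (hδ : δ ≠ 0) (hm : 1 ≤ m) (ha : 1 ≤ a)
    (hb1 : 1 ≤ b1) (hb2 : 1 ≤ b2) (he : 1 ≤ e) (hh : 1 ≤ h)
    (hp : (2 * m + 1).Prime) (hpd : ¬ ((2 * m + 1 : ℕ) : ℤ) ∣ δ)
    (H2 : b2 ^ (4 * m) * (e ^ 2 * (b2 ^ 2 * a ^ 2) + δ.natAbs * b1 ^ 2 * h ^ 2) <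
      (b2 ^ 2 * a ^ 2 + δ.natAbs * b1 ^ 2) ^ (2 * m + 1))
    (N1 : b2 ^ (2 * m) * e ≠ (2 * m + 1) * δ.natAbs ^ m * b1 ^ (2 * m))
    (N2 : h ≠ (2 * m + 1) * a ^ (2 * m)) :
    ∃ C : ℝ, 0 ≤ C ∧ ∃ q0 : ℕ, ∀ K R : ℕ, 1 ≤ R → R ^ 3 ≤ K → K < (R + 1) ^ 3 → ∀ Q : Finset ℕ,
      (∀ q ∈ Q, q.Prime ∧ q0 < q ∧ ∃ n, 1 ≤ n ∧ n ≤ K ∧ Even n ∧ BadUV δ m a b1 b2 e h q n) →
      (Q.card : ℝ) ≤ C * K ^ 2 * R ^ 2 := by
  classical
  obtain ⟨C1, hC1, h1⟩ := cntA (b2 ^ (2 * m) * e) ((2 * m + 1) * δ.natAbs ^ m * b1 ^ (2 * m))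
    (Nat.mul_pos (by positivity) (by omega))
    (Nat.mul_pos (Nat.mul_pos (by omega) (pow_pos (Int.natAbs_pos.mpr hδ) _)) (by positivity)) N1
  obtain ⟨C2, hC2, h2⟩ := cntA h ((2 * m + 1) * a ^ (2 * m)) hh
    (Nat.mul_pos (by omega) (by positivity)) N2
  have hf1 : (fp δ m).coeff 0 = 1 := by
    have h3 := aeval_fp (0 : ℤ) δ m
    rw [Int.cast_id, (FG_v0 δ 1 m).1, one_pow] at h3
    rw [coeff_zero_eq_aeval_zero]
    exact h3
  have hfne : fp δ m ≠ 0 := by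
    intro h0
    rw [h0] at hf1
    simp at hf1
  have hfq : ∀ q : ℕ, q.Prime → ¬ C (q : ℤ) ∣ fp δ m := by
    intro q hq hd
    have h3 := (C_dvd_iff_dvd_coeff _ _).mp hd 0
    rw [hf1] at h3
    have h4 : (q : ℤ) ∣ ((1 : ℕ) : ℤ) := by simpa using h3
    have h5 := Int.natCast_dvd_natCast.mp h4
    have := hq.one_lt
    have := Nat.le_of_dvd one_pos h5
    omega
  obtain ⟨C3, hC3, h3⟩ := cntB (fp δ m) hfne hfq (b2 * a) b1 (Nat.mul_pos hb2 ha) hb1 (by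
    intro n hn z hz
    rw [aeval_fp] at hz
    exact no_root m hm hp δ hpd (b2 * a) b1 (Nat.mul_pos hb2 ha) hb1 n hn z (Or.inl hz))
  have hgm : (gp δ m).coeff (2 * m) = δ ^ m := (fgp_deg δ m).2.2.2
  have hg0 : (gp δ m).coeff 0 = 2 * m + 1 := by
    have h3 := aeval_gp (0 : ℤ) δ m
    rw [Int.cast_id, (FG_v0 δ 1 m).2, one_pow, mul_one] at h3
    rw [coeff_zero_eq_aeval_zero]
    exact h3
  have hgne : gp δ m ≠ 0 := by
    intro h0
    rw [h0] at hg0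
    simp at hg0
    omega
  have hgq : ∀ q : ℕ, q.Prime → ¬ C (q : ℤ) ∣ gp δ m := by
    intro q hq hd
    have h3 := (C_dvd_iff_dvd_coeff _ _).mp hd 0
    have h4 := (C_dvd_iff_dvd_coeff _ _).mp hd (2 * m)
    rw [hg0] at h3
    rw [hgm] at h4
    have h5 : ((q : ℕ) : ℤ) ∣ ((2 * m + 1 : ℕ) : ℤ) := by
      push_cast
      exact h3
    have h6 := Int.natCast_dvd_natCast.mp h5
    have h7 := (Nat.prime_dvd_prime_iff_eq hq hp).mp h6
    have h8 := (Nat.prime_iff_prime_int.mp hq).dvd_of_dvd_pow h4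
    rw [h7] at h8
    exact hpd h8
  obtain ⟨C4, hC4, h4⟩ := cntB (gp δ m) hgne hgq (b2 * a) b1 (Nat.mul_pos hb2 ha) hb1 (by
    intro n hn z hz
    rw [aeval_gp] at hz
    exact no_root m hm hp δ hpd (b2 * a) b1 (Nat.mul_pos hb2 ha) hb1 n hn z (Or.inr hz))
  set q0 : ℕ := 2 * m + 1 + a + b1 + b2 + e + h + δ.natAbs with hq0
  obtain ⟨C5, hC5, h5⟩ := count_primes (r := 3) (by norm_num) (ph δ m a b2) (cc b1 e h) (by
      intro i
      have h3cases : i = 0 ∨ i = 1 ∨ i = 2 := by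
        fin_cases i <;> simp
      rcases h3cases with rfl | rfl | rfl
      · simp only [cc, Matrix.cons_val_zero]
        omega
      · simp only [cc, Matrix.cons_val_zero, Matrix.cons_val_one]
        omega
      · simp only [cc, Matrix.cons_val_two, Matrix.tail_cons, Matrix.head_cons]
        omega) q0 (by
      intro q hq hlt i
      have hF : Fact q.Prime := ⟨hq⟩
      have h3cases : i = 0 ∨ i = 1 ∨ i = 2 := by
        fin_cases i <;> simp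
      rcases h3cases with rfl | rfl | rfl
      · simp only [cc, Matrix.cons_val_zero, Int.cast_natCast]
        exact natCast_ne_zero_of_lt hb1 (by omega) (ZMod q)
      · simp only [cc, Matrix.cons_val_zero, Matrix.cons_val_one, Int.cast_natCast]
        exact natCast_ne_zero_of_lt he (by omega) (ZMod q)
      · simp only [cc, Matrix.cons_val_two, Matrix.tail_cons, Matrix.head_cons, Int.cast_natCast]
        exact natCast_ne_zero_of_lt hh (by omega) (ZMod q)) (by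
      intro q hq hlt i
      have hchar : CharP (AlgebraicClosure (ZMod q)) q :=
        charP_of_injective_algebraMap (algebraMap (ZMod q) _).injective q
      obtain ⟨z, hz1, hz2⟩ := ph_Hq (AlgebraicClosure (ZMod q)) δ m a b2 hm ha hb2 hδ q
        (by omega) (by omega) (by omega) (by omega) i
      exact ⟨AlgebraicClosure (ZMod q), inferInstance, hchar, z, hz1, hz2⟩)
    (ph_H2 δ m a b1 b2 e h ha hb2 H2)
  refine ⟨C1 + C2 + C3 + C4 + C5, by positivity, q0, ?_⟩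
  intro K R hR hRK hKR Q hQ
  set Q1 := Q.filter (fun q => ∃ n, 1 ≤ n ∧ n ≤ K ∧ (((b2 ^ (2 * m) * e : ℕ) : ZMod q) ^ n =
    (((2 * m + 1) * δ.natAbs ^ m * b1 ^ (2 * m) : ℕ) : ZMod q) ^ n)) with hQ1
  set Q2 := Q.filter (fun q => ∃ n, 1 ≤ n ∧ n ≤ K ∧ (((h : ℕ) : ZMod q) ^ n =
    (((2 * m + 1) * a ^ (2 * m) : ℕ) : ZMod q) ^ n)) with hQ2
  set Q3 := Q.filter (fun q => ∃ n, 1 ≤ n ∧ n ≤ K ∧ ∃ t : ZMod q, aeval t (fp δ m) = 0 ∧
      (((b2 * a : ℕ) : ZMod q) * t) ^ n = ((b1 : ℕ) : ZMod q) ^ n) with hQ3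
  set Q4 := Q.filter (fun q => ∃ n, 1 ≤ n ∧ n ≤ K ∧ ∃ t : ZMod q, aeval t (gp δ m) = 0 ∧
      (((b2 * a : ℕ) : ZMod q) * t) ^ n = ((b1 : ℕ) : ZMod q) ^ n) with hQ4
  set Q5 := Q.filter (fun q => ∃ t : ZMod q, ∃ n, 1 ≤ n ∧ n ≤ K ∧
      ∀ i, (aeval t (ph δ m a b2 i)) ^ n = ((cc b1 e h i : ℤ) : ZMod q) ^ n) with hQ5
  have hsub : Q ⊆ (Q1 ∪ Q2) ∪ ((Q3 ∪ Q4) ∪ Q5) := by
    intro q hq
    obtain ⟨hqp, hlt, n, hn1, hnK, hne, hbad⟩ := hQ q hq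
    have := bad_cases δ m a b1 b2 e h q n hm ha hb2 hδ hqp (by omega) (by omega) (by omega)
      (by omega) hne hbad
    simp only [Finset.mem_union]
    rcases this with h6 | h6 | h6 | h6 | h6
    · left; left
      exact Finset.mem_filter.mpr ⟨hq, n, hn1, hnK, h6⟩
    · left; right
      exact Finset.mem_filter.mpr ⟨hq, n, hn1, hnK, h6⟩
    · right; left; left
      exact Finset.mem_filter.mpr ⟨hq, n, hn1, hnK, h6⟩
    · right; left; right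
      exact Finset.mem_filter.mpr ⟨hq, n, hn1, hnK, h6⟩
    · right; right
      obtain ⟨t, ht⟩ := h6
      exact Finset.mem_filter.mpr ⟨hq, t, n, hn1, hnK, ht⟩
  have hcard : Q.card ≤ (Q1.card + Q2.card) + ((Q3.card + Q4.card) + Q5.card) := by
    refine (Finset.card_le_card hsub).trans ?_
    refine (Finset.card_union_le _ _).trans (Nat.add_le_add (Finset.card_union_le _ _) ?_)
    refine (Finset.card_union_le _ _).trans (Nat.add_le_add (Finset.card_union_le _ _) le_rfl)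
  have g1 := h1 K Q1 (by
    intro q hq
    obtain ⟨hq1, hq2⟩ := Finset.mem_filter.mp hq
    exact ⟨(hQ q hq1).1, hq2⟩)
  have g2 := h2 K Q2 (by
    intro q hq
    obtain ⟨hq1, hq2⟩ := Finset.mem_filter.mp hq
    exact ⟨(hQ q hq1).1, hq2⟩)
  have g3 := h3 K Q3 (by
    intro q hq
    obtain ⟨hq1, hq2⟩ := Finset.mem_filter.mp hq
    exact ⟨(hQ q hq1).1, hq2⟩)
  have g4 := h4 K Q4 (by
    intro q hq
    obtain ⟨hq1, hq2⟩ := Finset.mem_filter.mp hq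
    exact ⟨(hQ q hq1).1, hq2⟩)
  have g5 := h5 K R hR hRK hKR Q5 (by
    intro q hq
    obtain ⟨hq1, hq2⟩ := Finset.mem_filter.mp hq
    exact ⟨(hQ q hq1).1, (hQ q hq1).2.1, hq2⟩)
  have hR1 : (1 : ℝ) ≤ (R : ℝ) ^ 2 := by
    have : (1 : ℝ) ≤ R := by exact_mod_cast hR
    nlinarith
  have hcr : (Q.card : ℝ) ≤ (Q1.card + Q2.card) + ((Q3.card + Q4.card) + Q5.card) := by
    exact_mod_cast hcard
  have hup : ∀ c : ℝ, 0 ≤ c → c * (K : ℝ) ^ 2 ≤ c * (K : ℝ) ^ 2 * (R : ℝ) ^ 2 := by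
    intro c hc
    exact le_mul_of_one_le_right (by positivity) hR1
  have u1 := hup C1 hC1
  have u2 := hup C2 hC2
  have u3 := hup C3 hC3
  have u4 := hup C4 hC4
  have : (C1 + C2 + C3 + C4 + C5) * (K : ℝ) ^ 2 * (R : ℝ) ^ 2 =
    C1 * (K : ℝ) ^ 2 * (R : ℝ) ^ 2 + C2 * (K : ℝ) ^ 2 * (R : ℝ) ^ 2 +
    C3 * (K : ℝ) ^ 2 * (R : ℝ) ^ 2 + C4 * (K : ℝ) ^ 2 * (R : ℝ) ^ 2 +
    C5 * (K : ℝ) ^ 2 * (R : ℝ) ^ 2 := by ring
  rw [this]
  linarith

end Pool.Agent.H573.AHB
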