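import Pool.Agent.H573.AHB.GoldB

/-!
A positive proportion of the primes `q` have a prime factor of `q - 1` exceeding `q^{63/100}`.
-/

set_option autoImplicit false

namespace Pool.Agent.H573.AHB.Gold

open Finset Filter
open ArithmeticFunction (vonMangoldt)
open Pool.Agent.Y889.PN (PS bvmax)
open Pool.Agent.H262R4.FR (Pr piq)
open Pool.Agent.H262R4.FR.TBT (evA evB evC)

/-- Chebyshev's method with the Bombieri-Vinogradov theorem and the Brun-Titchmarsh theorem on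
average over prime moduli. -/
theorem gold : ∀ᶠ x : ℕ in atTop,
    (1 / 1000 : ℝ) * (x / Real.log x) ≤ ((Gd x ⌊(x : ℝ) ^ (63 / 100 : ℝ)⌋₊).card : ℝ) := by
  obtain ⟨ε, hε⟩ : ∃ ε : ℝ, ε = 1 / 10000 := ⟨_, rfl⟩
  obtain ⟨a, ha⟩ : ∃ a : ℝ, a = 499 / 1000 := ⟨_, rfl⟩
  obtain ⟨θ, hθ⟩ : ∃ θ : ℝ, θ = 63 / 100 := ⟨_, rfl⟩
  rw [← hθ]
  have hε0 : 0 < ε := by rw [hε]; norm_num
  obtain ⟨C, hC0, hC⟩ := Pool.Agent.K3h65.RL.phi_sum
  obtain ⟨D0, hD0⟩ := Pool.Agent.K3h65.RL.np_tail ε hε0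
  have e1 := mid a θ ε (by rw [ha]; norm_num) (by rw [ha, hθ]; norm_num) (by rw [hθ]; norm_num) hε0
    (by rw [hε]; norm_num)
  have e2 := bv a (by rw [ha]; norm_num) (by rw [ha]; norm_num)
  have e3 := pnt ε hε0
  have e4 := evC ((C + 2) / ε)
  have e5 := evA (D0 : ℝ) 0 a (by rw [ha]; norm_num)
  have e6 := evA (2 / ε) (1 - ε) 1 (by linarith)
  filter_upwards [e1, e2, e3, e4, e5, e6, eventually_ge_atTop 3] with x h1 h2 h3 h4 h5 h6 hx3
  obtain ⟨M, hM0, hM1, hM2⟩ := h2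
  have hx0 : (0 : ℝ) < x := by
    have : 0 < x := by omega
    exact_mod_cast this
  have hx1 : (1 : ℝ) ≤ x := by
    have : 1 ≤ x := by omega
    exact_mod_cast this
  have hlx : 0 < Real.log x := Real.log_pos (by exact_mod_cast (by omega : 1 < x))
  rw [Real.rpow_zero, mul_one] at h5
  rw [Real.rpow_one] at h6
  rw [div_le_iff₀ hε0] at h4
  obtain ⟨D, hD⟩ : ∃ D, D = ⌊(x : ℝ) ^ a⌋₊ := ⟨_, rfl⟩
  obtain ⟨Z, hZ⟩ : ∃ Z, Z = ⌊(x : ℝ) ^ θ⌋₊ := ⟨_, rfl⟩
  obtain ⟨y, hy⟩ : ∃ y, y = ⌊(x : ℝ) ^ (1 - ε)⌋₊ := ⟨_, rfl⟩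
  rw [← hD, ← hZ] at h1
  rw [← hD] at hM2
  rw [← hZ]
  have hD1 : (D : ℝ) ≤ (x : ℝ) ^ a := by rw [hD]; exact Nat.floor_le (by positivity)
  have hDn : 1 ≤ D := by
    rw [hD, Nat.one_le_floor_iff]
    exact Real.one_le_rpow hx1 (by rw [ha]; norm_num)
  have hDZ : D ≤ Z := by
    rw [hD, hZ]
    exact Nat.floor_mono (Real.rpow_le_rpow_of_exponent_le hx1 (by rw [ha, hθ]; norm_num))
  have hZx : Z ≤ x := by
    rw [hZ]
    apply Nat.floor_le_of_le
    calc (x : ℝ) ^ θ ≤ (x : ℝ) ^ (1 : ℝ) :=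
          Real.rpow_le_rpow_of_exponent_le hx1 (by rw [hθ]; norm_num)
      _ = x := Real.rpow_one _
  have hD0D : D0 ≤ D := by
    rw [hD]
    exact Nat.le_floor h5
  have hup := upper x D Z hDZ hZx hDn M hM0 (fun d hd => by
    have := (abs_le.mp (hM1 d hd)).2
    linarith)
  have hlD : Real.log D ≤ a * Real.log x := by
    rw [← Real.log_rpow hx0]
    exact Real.log_le_log (by exact_mod_cast hDn) hD1
  have t1 : x * ∑ d ∈ Ioc 0 D, vonMangoldt d / (Nat.totient d : ℝ) ≤ x * Real.log x * (a + ε) := by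
    have e := hC D hDn
    calc x * ∑ d ∈ Ioc 0 D, vonMangoldt d / (Nat.totient d : ℝ)
        ≤ x * ((a + ε) * Real.log x) := by
          apply mul_le_mul_of_nonneg_left _ hx0.le
          nlinarith
      _ = _ := by ring
  have t2 : Real.log D * ∑ d ∈ Icc 1 D, M d ≤ x * Real.log x * ε := by
    have hlDx : Real.log D ≤ Real.log x := by
      refine hlD.trans ?_
      have : a * Real.log x ≤ 1 * Real.log x :=
        mul_le_mul_of_nonneg_right (by rw [ha]; norm_num) hlx.le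
      linarith
    calc Real.log D * ∑ d ∈ Icc 1 D, M d ≤ Real.log x * (x / Real.log x) :=
          mul_le_mul hlDx hM2 (sum_nonneg fun _ _ => hM0 _) hlx.le
      _ = x * 1 := by field_simp
      _ ≤ x * (Real.log x * ε) := by
          apply mul_le_mul_of_nonneg_left _ hx0.le
          nlinarith
      _ = _ := by ring
  have t3 := mul_le_mul_of_nonneg_left h1 hlx.le
  have t4 : x * Real.log x * ∑ d ∈ Ioc D x, (if d.Prime then 0 else vonMangoldt d / d) ≤
      x * Real.log x * ε := mul_le_mul_of_nonneg_left (hD0 D hD0D x) (by positivity)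
  -- lower bound
  have hy1 : (y : ℝ) ≤ (x : ℝ) ^ (1 - ε) := by rw [hy]; exact Nat.floor_le (by positivity)
  have hxe1 : 1 ≤ (x : ℝ) ^ (1 - ε) := Real.one_le_rpow hx1 (by rw [hε]; norm_num)
  have hyn : 1 ≤ y := by
    rw [hy, Nat.one_le_floor_iff]
    exact hxe1
  have hynr : (1 : ℝ) ≤ y := by exact_mod_cast hyn
  have hy2 : (x : ℝ) ^ (1 - ε) < y + 1 := by rw [hy]; exact Nat.lt_floor_add_one _
  have h6' : 2 * (x : ℝ) ^ (1 - ε) ≤ ε * x := by
    rw [div_mul_eq_mul_div, div_le_iff₀ hε0] at h6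
    linarith
  have hyx : y ≤ x := by
    have h7 : (x : ℝ) ^ (1 - ε) ≤ x := by
      calc (x : ℝ) ^ (1 - ε) ≤ (x : ℝ) ^ (1 : ℝ) :=
            Real.rpow_le_rpow_of_exponent_le hx1 (by linarith)
        _ = x := Real.rpow_one _
    have : (y : ℝ) ≤ x := hy1.trans h7
    exact_mod_cast this
  have hlow := lower x y hyn hyx
  rw [switch] at hlow
  have hθy := theta_upper y
  have hly : (1 - 2 * ε) * Real.log x ≤ Real.log y := by
    have h7 : (x : ℝ) ^ (1 - ε) / 2 ≤ y := by linarith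
    have h8 := Real.log_le_log (by positivity) h7
    rw [Real.log_div (by positivity) (by norm_num), Real.log_rpow hx0] at h8
    have h9 := Real.log_two_lt_d9
    nlinarith
  have hdiff : (1 - 2 * ε) * x ≤ ∑ q ∈ PX x, Real.log q - ∑ q ∈ PX y, Real.log q := by
    linarith
  have hlow2 : ((1 - 2 * ε) * Real.log x) * ((1 - 2 * ε) * x) ≤
      Real.log y * (∑ q ∈ PX x, Real.log q - ∑ q ∈ PX y, Real.log q) := by
    apply mul_le_mul hly hdiff _ (Real.log_natCast_nonneg y)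
    have : 0 ≤ 1 - 2 * ε := by rw [hε]; norm_num
    positivity
  have hXL : 0 < (x : ℝ) * Real.log x := by positivity
  have hfin : x * Real.log x * (1 / 1000) ≤ (Gd x Z).card * Real.log x ^ 2 := by
    have h7 : (1 - 2 * ε) * Real.log x * ((1 - 2 * ε) * x) =
        x * Real.log x * ((1 - 2 * ε) * (1 - 2 * ε)) := by ring
    have h8 : Real.log x * (x * ((15 / 4 + ε) * (1 + ε) * (θ - a + ε) + 2 * ε)) =
        x * Real.log x * ((15 / 4 + ε) * (1 + ε) * (θ - a + ε) + 2 * ε) := by ring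
    rw [h7] at hlow2
    rw [h8] at t3
    have h9 : x * Real.log x * ((1 - 2 * ε) * (1 - 2 * ε)) ≤
        x * Real.log x * ((a + ε) + ε + ((15 / 4 + ε) * (1 + ε) * (θ - a + ε) + 2 * ε) + ε) +
        (Gd x Z).card * Real.log x ^ 2 := by
      have h10 : x * Real.log x * ((a + ε) + ε + ((15 / 4 + ε) * (1 + ε) * (θ - a + ε) + 2 * ε) + ε) =
        x * Real.log x * (a + ε) + x * Real.log x * ε +
        x * Real.log x * ((15 / 4 + ε) * (1 + ε) * (θ - a + ε) + 2 * ε) + x * Real.log x * ε := by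
        ring
      rw [h10]
      linarith
    have h11 : x * Real.log x * (1 / 1000) ≤ x * Real.log x * ((1 - 2 * ε) * (1 - 2 * ε) -
        ((a + ε) + ε + ((15 / 4 + ε) * (1 + ε) * (θ - a + ε) + 2 * ε) + ε)) := by
      apply mul_le_mul_of_nonneg_left _ hXL.le
      rw [hε, ha, hθ]
      norm_num
    have h12 : x * Real.log x * ((1 - 2 * ε) * (1 - 2 * ε) -
        ((a + ε) + ε + ((15 / 4 + ε) * (1 + ε) * (θ - a + ε) + 2 * ε) + ε)) =
        x * Real.log x * ((1 - 2 * ε) * (1 - 2 * ε)) -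
        x * Real.log x * ((a + ε) + ε + ((15 / 4 + ε) * (1 + ε) * (θ - a + ε) + 2 * ε) + ε) := by
      ring
    linarith
  rw [← mul_div_assoc, div_le_iff₀ hlx]
  have h13 : (x * Real.log x * (1 / 1000)) / Real.log x ≤
      ((Gd x Z).card * Real.log x ^ 2) / Real.log x := div_le_div_of_nonneg_right hfin hlx.le
  have h14 : (x * Real.log x * (1 / 1000)) / Real.log x = 1 / 1000 * x := by field_simp
  have h15 : ((Gd x Z).card * Real.log x ^ 2) / Real.log x = (Gd x Z).card * Real.log x := by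
    field_simp
  rw [h14, h15] at h13
  exact h13

end Pool.Agent.H573.AHB.Gold
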