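import Pool.Agent.H573.AHB.Core
import Pool.Agent.H573.AHB.Gold

/-!
Many prime exponents `s` admit a prime `q ≡ 1 (mod s)` which is not bad.
-/

namespace Pool.Agent.H573.AHB

open Filter

/-- A property of pairs (prime, exponent) which is sparse in the sense of `core_count`. -/
def Sparse (Bd : ℕ → ℕ → Prop) : Prop :=
  ∃ C : ℝ, 0 ≤ C ∧ ∃ q0 : ℕ, ∀ K R : ℕ, 1 ≤ R → R ^ 3 ≤ K → K < (R + 1) ^ 3 → ∀ Q : Finset ℕ,
      (∀ q ∈ Q, q.Prime ∧ q0 < q ∧ ∃ n, 1 ≤ n ∧ n ≤ K ∧ Even n ∧ Bd q n) →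
      (Q.card : ℝ) ≤ C * K ^ 2 * R ^ 2

lemma Sparse.or {A B : ℕ → ℕ → Prop} (hA : Sparse A) (hB : Sparse B) :
    Sparse (fun q n => A q n ∨ B q n) := by
  classical
  obtain ⟨C1, hC1, q1, h1⟩ := hA
  obtain ⟨C2, hC2, q2, h2⟩ := hB
  refine ⟨C1 + C2, by positivity, max q1 q2, ?_⟩
  intro K R hR hRK hKR Q hQ
  set Q1 := Q.filter (fun q => ∃ n, 1 ≤ n ∧ n ≤ K ∧ Even n ∧ A q n) with hQ1
  set Q2 := Q.filter (fun q => ∃ n, 1 ≤ n ∧ n ≤ K ∧ Even n ∧ B q n) with hQ2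
  have hsub : Q ⊆ Q1 ∪ Q2 := by
    intro q hq
    obtain ⟨_, _, n, hn1, hnK, hne, hbad⟩ := hQ q hq
    rw [Finset.mem_union]
    rcases hbad with h | h
    · left
      exact Finset.mem_filter.mpr ⟨hq, n, hn1, hnK, hne, h⟩
    · right
      exact Finset.mem_filter.mpr ⟨hq, n, hn1, hnK, hne, h⟩
  have hcard : Q.card ≤ Q1.card + Q2.card :=
    (Finset.card_le_card hsub).trans (Finset.card_union_le _ _)
  have g1 := h1 K R hR hRK hKR Q1 (by
    intro q hq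
    obtain ⟨hq1, hq2⟩ := Finset.mem_filter.mp hq
    exact ⟨(hQ q hq1).1, lt_of_le_of_lt (le_max_left _ _) (hQ q hq1).2.1, hq2⟩)
  have g2 := h2 K R hR hRK hKR Q2 (by
    intro q hq
    obtain ⟨hq1, hq2⟩ := Finset.mem_filter.mp hq
    exact ⟨(hQ q hq1).1, lt_of_le_of_lt (le_max_right _ _) (hQ q hq1).2.1, hq2⟩)
  have hcr : (Q.card : ℝ) ≤ Q1.card + Q2.card := by exact_mod_cast hcard
  have : (C1 + C2) * (K : ℝ) ^ 2 * (R : ℝ) ^ 2 =
    C1 * (K : ℝ) ^ 2 * (R : ℝ) ^ 2 + C2 * (K : ℝ) ^ 2 * (R : ℝ) ^ 2 := by ring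
  rw [this]
  linarith

lemma Sparse.false : Sparse (fun _ _ => False) := by
  refine ⟨0, le_rfl, 0, ?_⟩
  intro K R _ _ _ Q hQ
  have : Q = ∅ := by
    rw [Finset.eq_empty_iff_forall_notMem]
    intro q hq
    obtain ⟨_, _, n, _, _, _, h⟩ := hQ q hq
    exact h
  rw [this]
  simp

lemma Sparse.mono {A B : ℕ → ℕ → Prop} (hA : Sparse A) (h : ∀ q n, B q n → A q n) : Sparse B := by
  obtain ⟨C1, hC1, q1, h1⟩ := hA
  refine ⟨C1, hC1, q1, ?_⟩
  intro K R hR hRK hKR Q hQ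
  apply h1 K R hR hRK hKR Q
  intro q hq
  obtain ⟨a1, a2, n, a3, a4, a5, a6⟩ := hQ q hq
  exact ⟨a1, a2, n, a3, a4, a5, h q n a6⟩

lemma Sparse.exists_mem {ι : Type*} (L : Finset ι) (A : ι → ℕ → ℕ → Prop)
    (h : ∀ i ∈ L, Sparse (A i)) : Sparse (fun q n => ∃ i ∈ L, A i q n) := by
  classical
  induction L using Finset.induction_on with
  | empty =>
    refine Sparse.false.mono ?_
    rintro q n ⟨i, hi, _⟩
    simp at hi
  | insert i L hi ih =>
    have h1 := h i (Finset.mem_insert_self _ _)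
    have h2 := ih (fun j hj => h j (Finset.mem_insert_of_mem hj))
    refine (h1.or h2).mono ?_
    rintro q n ⟨j, hj, hjj⟩
    rcases Finset.mem_insert.mp hj with rfl | hj'
    · left; exact hjj
    · right; exact ⟨j, hj', hjj⟩

lemma cube_root (K : ℕ) (hK : 1 ≤ K) : ∃ R : ℕ, 1 ≤ R ∧ R ^ 3 ≤ K ∧ K < (R + 1) ^ 3 := by
  induction K, hK using Nat.le_induction with
  | base => exact ⟨1, by norm_num, by norm_num, by norm_num⟩
  | succ K hK ih =>
    obtain ⟨R, h1, h2, h3⟩ := ih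
    by_cases h : K + 1 < (R + 1) ^ 3
    · exact ⟨R, h1, by omega, h⟩
    · refine ⟨R + 1, by omega, by omega, ?_⟩
      have h4 : (R + 1) ^ 3 < (R + 1 + 1) ^ 3 := Nat.pow_lt_pow_left (by omega) (by norm_num)
      omega

/-- **The density theorem.** -/
theorem dens (Bd : ℕ → ℕ → Prop) (hB : Sparse Bd) (s0 : ℕ) : ∀ᶠ X : ℕ in atTop,
    ∃ T : Finset ℕ, (X : ℝ) ^ (31 / 50 : ℝ) ≤ (T.card : ℝ) ∧ ∀ s ∈ T, s.Prime ∧ s0 < s ∧ s ≤ X ∧
      ∃ q, q.Prime ∧ s ∣ q - 1 ∧ ¬ Bd q ((q - 1) / s) := by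
  classical
  obtain ⟨C, hC, q0, hcount⟩ := hB
  filter_upwards [Gold.gold, Pool.Agent.H262R4.FR.TBT.evB 3000 (99 / 100) (by norm_num) (by norm_num),
    Pool.Agent.H262R4.FR.TBT.evA ((q0 : ℝ) + 1) 0 (99 / 100) (by norm_num),
    Pool.Agent.H262R4.FR.TBT.evA C (74 / 75) (99 / 100) (by norm_num),
    Pool.Agent.H262R4.FR.TBT.evA ((s0 : ℝ) + 3) 0 (63 / 100) (by norm_num),
    eventually_ge_atTop 1] with X hgold hb1 hb2 hb3 hb4 hX1
  have hX0 : (0 : ℝ) < X := by exact_mod_cast hX1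
  have hX1r : (1 : ℝ) ≤ X := by exact_mod_cast hX1
  rw [Real.rpow_zero, mul_one] at hb2 hb4
  set Z := ⌊(X : ℝ) ^ (63 / 100 : ℝ)⌋₊ with hZ
  set K := ⌊(X : ℝ) ^ (37 / 100 : ℝ)⌋₊ with hK
  have hK1 : 1 ≤ K := by
    apply Nat.le_floor
    rw [Nat.cast_one]
    exact Real.one_le_rpow hX1r (by norm_num)
  have hKX : (K : ℝ) ≤ (X : ℝ) ^ (37 / 100 : ℝ) := Nat.floor_le (Real.rpow_nonneg hX0.le _)
  have hK0 : (0 : ℝ) < K := by exact_mod_cast hK1
  obtain ⟨R, hR1, hRK, hKR⟩ := cube_root K hK1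
  have hsel : ∀ q : ℕ, ∃ s : ℕ, q ∈ Gold.Gd X Z → s.Prime ∧ s ∣ q - 1 ∧ Z < s := by
    intro q
    by_cases hq : q ∈ Gold.Gd X Z
    · obtain ⟨s, hs⟩ := (Gold.mem_Gd.mp hq).2
      exact ⟨s, fun _ => hs⟩
    · exact ⟨0, fun h => absurd h hq⟩
  choose σ hσ using hsel
  -- basic facts
  have hfact : ∀ q ∈ Gold.Gd X Z, q.Prime ∧ q ≤ X ∧ (σ q).Prime ∧ σ q ∣ q - 1 ∧ s0 < σ q ∧
      2 < σ q ∧ 1 ≤ (q - 1) / σ q ∧ (q - 1) / σ q ≤ K ∧ Even ((q - 1) / σ q) ∧ σ q ≤ X := by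
    intro q hq
    obtain ⟨hs1, hs2, hs3⟩ := hσ q hq
    obtain ⟨hqX, hqp⟩ := Gold.mem_PX.mp (Gold.mem_Gd.mp hq).1
    have hsX : (X : ℝ) ^ (63 / 100 : ℝ) < σ q := (Nat.floor_lt (Real.rpow_nonneg hX0.le _)).mp hs3
    have hs0 : (s0 : ℝ) + 3 < σ q := lt_of_le_of_lt hb4 hsX
    have hs0' : s0 + 3 < σ q := by exact_mod_cast hs0
    obtain ⟨n, hn⟩ := hs2
    have hspos : 0 < σ q := hs1.pos
    have hqn : (q - 1) / σ q = n := by rw [hn, Nat.mul_div_cancel_left _ hspos]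
    have hq2 := hqp.two_le
    have hn1 : 1 ≤ n := by
      rcases Nat.eq_zero_or_pos n with h0 | h0
      · rw [h0, mul_zero] at hn
        omega
      · exact h0
    have hnK : n ≤ K := by
      apply Nat.le_floor
      have h1 : (σ q : ℝ) * n ≤ X := by
        have : σ q * n ≤ X := by omega
        exact_mod_cast this
      have h2 : (X : ℝ) ^ (63 / 100 : ℝ) * n ≤ X := by
        refine le_trans ?_ h1
        exact mul_le_mul_of_nonneg_right hsX.le (by positivity)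
      have h3 : (X : ℝ) = (X : ℝ) ^ (63 / 100 : ℝ) * (X : ℝ) ^ (37 / 100 : ℝ) := by
        rw [← Real.rpow_add hX0]
        norm_num
      rw [mul_comm] at h2
      have h4 : (n : ℝ) * (X : ℝ) ^ (63 / 100 : ℝ) ≤ (X : ℝ) ^ (37 / 100 : ℝ) *
          (X : ℝ) ^ (63 / 100 : ℝ) := by
        rw [mul_comm ((X : ℝ) ^ (37 / 100 : ℝ)), ← h3]
        exact h2
      exact le_of_mul_le_mul_right h4 (Real.rpow_pos_of_pos hX0 _)
    have hsle : σ q ≤ σ q * n := Nat.le_mul_of_pos_right _ hn1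
    have heven : Even n := by
      have hqodd : Even (q - 1) := by
        have : q ≠ 2 := by omega
        have := hqp.eq_two_or_odd'.resolve_left this
        exact Nat.Odd.sub_odd this odd_one
      rw [hn, Nat.even_mul] at hqodd
      rcases hqodd with h | h
      · have := (Nat.Prime.even_iff hs1).mp h
        omega
      · exact h
    refine ⟨hqp, hqX, hs1, ⟨n, hn⟩, by omega, by omega, ?_, ?_, ?_, by omega⟩
    · rw [hqn]; exact hn1
    · rw [hqn]; exact hnK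
    · rw [hqn]; exact heven
  set B1 := (Gold.Gd X Z).filter (fun q => q ≤ q0) with hB1
  set B2 := (Gold.Gd X Z).filter (fun q => q0 < q ∧ Bd q ((q - 1) / σ q)) with hB2
  set W := (Gold.Gd X Z).filter (fun q => ¬ Bd q ((q - 1) / σ q)) with hW
  have hsub : Gold.Gd X Z ⊆ (B1 ∪ B2) ∪ W := by
    intro q hq
    simp only [Finset.mem_union]
    by_cases h1 : Bd q ((q - 1) / σ q)
    · left
      by_cases h2 : q ≤ q0
      · left; exact Finset.mem_filter.mpr ⟨hq, h2⟩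
      · right; exact Finset.mem_filter.mpr ⟨hq, by omega, h1⟩
    · right; exact Finset.mem_filter.mpr ⟨hq, h1⟩
  have hcard : (Gold.Gd X Z).card ≤ (B1.card + B2.card) + W.card := by
    refine (Finset.card_le_card hsub).trans ?_
    exact (Finset.card_union_le _ _).trans (Nat.add_le_add (Finset.card_union_le _ _) le_rfl)
  have hcB1 : B1.card ≤ q0 + 1 := by
    have : B1 ⊆ Finset.range (q0 + 1) := by
      intro q hq
      have := (Finset.mem_filter.mp hq).2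
      exact Finset.mem_range.mpr (by omega)
    have := Finset.card_le_card this
    rwa [Finset.card_range] at this
  have hcB2 : (B2.card : ℝ) ≤ C * (X : ℝ) ^ (74 / 75 : ℝ) := by
    have g := hcount K R hR1 hRK hKR B2 (by
      intro q hq
      obtain ⟨hq1, hq2, hq3⟩ := Finset.mem_filter.mp hq
      obtain ⟨f1, _, _, _, _, _, f7, f8, f9, _⟩ := hfact q hq1
      exact ⟨f1, hq2, _, f7, f8, f9, hq3⟩)
    refine g.trans ?_
    have hR0 : (0 : ℝ) ≤ R := Nat.cast_nonneg _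
    have hR3 : (R : ℝ) ≤ (X : ℝ) ^ (37 / 300 : ℝ) := by
      have h1 : ((R : ℝ) ^ 3) ≤ (X : ℝ) ^ (37 / 100 : ℝ) := by
        refine le_trans ?_ hKX
        exact_mod_cast hRK
      have h2 : (X : ℝ) ^ (37 / 100 : ℝ) = ((X : ℝ) ^ (37 / 300 : ℝ)) ^ 3 := by
        rw [← Real.rpow_natCast, ← Real.rpow_mul hX0.le]
        norm_num
      rw [h2] at h1
      exact (pow_le_pow_iff_left₀ hR0 (Real.rpow_nonneg hX0.le _) (by norm_num)).mp h1
    have h1 : (K : ℝ) ^ 2 ≤ ((X : ℝ) ^ (37 / 100 : ℝ)) ^ 2 := pow_le_pow_left₀ hK0.le hKX 2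
    have h2 : (R : ℝ) ^ 2 ≤ ((X : ℝ) ^ (37 / 300 : ℝ)) ^ 2 := pow_le_pow_left₀ hR0 hR3 2
    have h3 : ((X : ℝ) ^ (37 / 100 : ℝ)) ^ 2 * ((X : ℝ) ^ (37 / 300 : ℝ)) ^ 2 =
        (X : ℝ) ^ (74 / 75 : ℝ) := by
      rw [← Real.rpow_natCast, ← Real.rpow_mul hX0.le, ← Real.rpow_natCast, ← Real.rpow_mul hX0.le,
        ← Real.rpow_add hX0]
      norm_num
    rw [mul_assoc, ← h3]
    exact mul_le_mul_of_nonneg_left (mul_le_mul h1 h2 (by positivity) (by positivity)) hC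
  have hfib : W.card ≤ K * (W.image σ).card := by
    apply Finset.card_le_mul_card_image
    intro s _
    have h1 : (W.filter (fun q => σ q = s)).card ≤ (Finset.Icc 1 K).card := by
      apply Finset.card_le_card_of_injOn (fun q => (q - 1) / s)
      · intro q hq
        obtain ⟨hq1, hq2⟩ := Finset.mem_filter.mp hq
        obtain ⟨f1, _, _, _, _, _, f7, f8, _⟩ := hfact q (Finset.mem_filter.mp hq1).1
        rw [hq2] at f7 f8
        exact Finset.mem_coe.mpr (Finset.mem_Icc.mpr ⟨f7, f8⟩)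
      · intro q hq q' hq' heq
        obtain ⟨hq1, hq2⟩ := Finset.mem_filter.mp hq
        obtain ⟨hq1', hq2'⟩ := Finset.mem_filter.mp hq'
        obtain ⟨f1, _, _, f4, _⟩ := hfact q (Finset.mem_filter.mp hq1).1
        obtain ⟨f1', _, _, f4', _⟩ := hfact q' (Finset.mem_filter.mp hq1').1
        rw [hq2] at f4
        rw [hq2'] at f4'
        have e1 := Nat.mul_div_cancel' f4
        have e2 := Nat.mul_div_cancel' f4'
        simp only at heq
        rw [heq] at e1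
        have := f1.two_le
        have := f1'.two_le
        omega
    rw [Nat.card_Icc] at h1
    omega
  refine ⟨W.image σ, ?_, ?_⟩
  · have hr1 : ((Gold.Gd X Z).card : ℝ) ≤ (B1.card + B2.card) + W.card := by exact_mod_cast hcard
    have hr2 : (B1.card : ℝ) ≤ q0 + 1 := by exact_mod_cast hcB1
    have hr3 : (W.card : ℝ) ≤ K * (W.image σ).card := by exact_mod_cast hfib
    have hr4 : (X : ℝ) ^ (99 / 100 : ℝ) ≤ W.card := by linarith
    have hr5 : (X : ℝ) ^ (99 / 100 : ℝ) = (X : ℝ) ^ (37 / 100 : ℝ) * (X : ℝ) ^ (31 / 50 : ℝ) := by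
      rw [← Real.rpow_add hX0]
      norm_num
    have hr6 : (X : ℝ) ^ (37 / 100 : ℝ) * (X : ℝ) ^ (31 / 50 : ℝ) ≤
        (X : ℝ) ^ (37 / 100 : ℝ) * (W.image σ).card := by
      rw [← hr5]
      refine hr4.trans (hr3.trans ?_)
      exact mul_le_mul_of_nonneg_right hKX (by positivity)
    exact le_of_mul_le_mul_left hr6 (Real.rpow_pos_of_pos hX0 _)
  · intro s hs
    obtain ⟨q, hq, rfl⟩ := Finset.mem_image.mp hs
    obtain ⟨hq1, hq2⟩ := Finset.mem_filter.mp hq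
    obtain ⟨f1, f2, f3, f4, f5, f6, f7, f8, f9, f10⟩ := hfact q hq1
    exact ⟨f3, f5, f10, q, f1, f4, hq2⟩

end Pool.Agent.H573.AHB
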