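import Pool.Agent.H573.AHB.Red
import Pool.Agent.H573.AHB.Dens

/-!
Counting the primes `q` modulo which there are `(U, V) ≠ (0, 0)` such that each of
`U, V, F_m(U,V), G_m(U,V)` is zero or in a fixed rational multiple of `μ_n`, `n ≤ K`:
a version without size conditions.
-/

namespace Pool.Agent.H573.AHB

open Polynomial

/-- `q` is bad at `(U, V)` for the exponent `n` (general multiples) -/
def BadG (δ : ℤ) (m a1 a2 b1 b2 e h q n : ℕ) : Prop :=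
  ∃ U V : ZMod q, (U ≠ 0 ∨ V ≠ 0) ∧ (U = 0 ∨ ((a2 : ZMod q) * U) ^ n = (a1 : ZMod q) ^ n) ∧
    (V = 0 ∨ ((b2 : ZMod q) * V) ^ n = (b1 : ZMod q) ^ n) ∧
    (Fh (δ : ZMod q) U V m = 0 ∨ Fh (δ : ZMod q) U V m ^ n = (e : ZMod q) ^ n) ∧
    (Gh (δ : ZMod q) U V m = 0 ∨ Gh (δ : ZMod q) U V m ^ n = (h : ZMod q) ^ n)

/-- the possibilities for a bad prime -/
lemma badG_cases (δ : ℤ) (m a1 a2 b1 b2 e h q n : ℕ) (ha1 : 1 ≤ a1)
    (ha2 : 1 ≤ a2) (hb2 : 1 ≤ b2)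
    (hδ : δ ≠ 0) (hqp : q.Prime) (hqa : a1 < q) (hqa2 : a2 < q) (hqb : b2 < q)
    (hqm : 2 * m + 1 < q)
    (hqδ : δ.natAbs < q) (hn : Even n) (hbad : BadG δ m a1 a2 b1 b2 e h q n) :
    ((((b2 ^ (2 * m) * e : ℕ) : ZMod q) ^ n = (((2 * m + 1) * δ.natAbs ^ m * b1 ^ (2 * m) : ℕ) :
      ZMod q) ^ n) ∧ (((b2 ^ (2 * m) * h : ℕ) : ZMod q) ^ n = ((δ.natAbs ^ m * b1 ^ (2 * m) : ℕ) :
      ZMod q) ^ n)) ∨
    ((((a2 ^ (2 * m) * e : ℕ) : ZMod q) ^ n = ((a1 ^ (2 * m) : ℕ) : ZMod q) ^ n) ∧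
      (((a2 ^ (2 * m) * h : ℕ) : ZMod q) ^ n = (((2 * m + 1) * a1 ^ (2 * m) : ℕ) :
      ZMod q) ^ n)) ∨
    (∃ t : ZMod q, aeval t (fp δ m) = 0 ∧
      (((b2 * a1 : ℕ) : ZMod q) * t) ^ n = ((b1 * a2 : ℕ) : ZMod q) ^ n) ∨
    (∃ t : ZMod q, aeval t (gp δ m) = 0 ∧
      (((b2 * a1 : ℕ) : ZMod q) * t) ^ n = ((b1 * a2 : ℕ) : ZMod q) ^ n) ∨
    (∃ t : ZMod q, ∀ i, (aeval t (ph δ m a1 b2 i)) ^ n =
      ((cc (b1 * a2) (a2 ^ (2 * m) * e) (a2 ^ (2 * m) * h) i : ℤ) : ZMod q) ^ n) := by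
  have hF : Fact q.Prime := ⟨hqp⟩
  obtain ⟨U, V, hUV, hU, hV, hFF, hGG⟩ := hbad
  have ha0 : (a1 : ZMod q) ≠ 0 := natCast_ne_zero_of_lt ha1 hqa (ZMod q)
  have ha20 : (a2 : ZMod q) ≠ 0 := natCast_ne_zero_of_lt ha2 hqa2 (ZMod q)
  have hb0 : (b2 : ZMod q) ≠ 0 := natCast_ne_zero_of_lt hb2 hqb (ZMod q)
  have hp0 : (2 * (m : ZMod q) + 1) ≠ 0 := by
    have := natCast_ne_zero_of_lt (k := 2 * m + 1) (by omega) hqm (ZMod q)
    push_cast at this
    exact this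
  have hδ0 : (δ : ZMod q) ≠ 0 := by
    intro h0
    rw [ZMod.intCast_zmod_eq_zero_iff_dvd] at h0
    have h1 := Int.natAbs_dvd_natAbs.mpr h0
    rw [Int.natAbs_natCast] at h1
    have := Nat.le_of_dvd (Int.natAbs_pos.mpr hδ) h1
    omega
  have hδn : (δ : ZMod q) ^ n = ((δ.natAbs : ℕ) : ZMod q) ^ n := by
    rcases Int.natAbs_eq δ with h1 | h1
    · conv_lhs => rw [h1]
      rw [Int.cast_natCast]
    · conv_lhs => rw [h1]
      rw [Int.cast_neg, Int.cast_natCast, hn.neg_pow]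
  obtain ⟨P, hP⟩ : ∃ P : ZMod q, P = 2 * (m : ZMod q) + 1 := ⟨_, rfl⟩
  by_cases hU0 : U = 0
  · left
    have hV0 : V ≠ 0 := by
      rcases hUV with h1 | h1
      · exact absurd hU0 h1
      · exact h1
    have hV' := hV.resolve_left hV0
    rw [hU0] at hFF hGG
    rw [(FG_u0 (δ : ZMod q) V m).1] at hFF
    rw [(FG_u0 (δ : ZMod q) V m).2] at hGG
    have hne0 : ((δ : ZMod q) * V ^ 2) ^ m ≠ 0 :=
      pow_ne_zero _ (mul_ne_zero hδ0 (pow_ne_zero _ hV0))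
    have hne : (2 * (m : ZMod q) + 1) * ((δ : ZMod q) * V ^ 2) ^ m ≠ 0 :=
      mul_ne_zero hp0 hne0
    have hF' := hFF.resolve_left hne
    have hG' := hGG.resolve_left hne0
    rw [← hP] at hF'
    constructor
    · push_cast
      rw [← hP]
      calc ((b2 : ZMod q) ^ (2 * m) * (e : ZMod q)) ^ n
          = ((b2 : ZMod q) ^ (2 * m)) ^ n * (e : ZMod q) ^ n := by rw [mul_pow]
        _ = ((b2 : ZMod q) ^ (2 * m)) ^ n * (P * ((δ : ZMod q) * V ^ 2) ^ m) ^ n := by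
            rw [hF']
        _ = P ^ n * ((δ : ZMod q) ^ n) ^ m * (((b2 : ZMod q) * V) ^ n) ^ (2 * m) := by
            ring
        _ = P ^ n * (((δ.natAbs : ℕ) : ZMod q) ^ n) ^ m *
            ((b1 : ZMod q) ^ n) ^ (2 * m) := by rw [hδn, hV']
        _ = _ := by ring
    · push_cast
      calc ((b2 : ZMod q) ^ (2 * m) * (h : ZMod q)) ^ n
          = ((b2 : ZMod q) ^ (2 * m)) ^ n * (h : ZMod q) ^ n := by rw [mul_pow]
        _ = ((b2 : ZMod q) ^ (2 * m)) ^ n * (((δ : ZMod q) * V ^ 2) ^ m) ^ n := by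
            rw [hG']
        _ = ((δ : ZMod q) ^ n) ^ m * (((b2 : ZMod q) * V) ^ n) ^ (2 * m) := by
            ring
        _ = (((δ.natAbs : ℕ) : ZMod q) ^ n) ^ m *
            ((b1 : ZMod q) ^ n) ^ (2 * m) := by rw [hδn, hV']
        _ = _ := by ring
  have hU' := hU.resolve_left hU0
  by_cases hV0 : V = 0
  · right; left
    rw [hV0] at hFF hGG
    rw [(FG_v0 (δ : ZMod q) U m).1] at hFF
    rw [(FG_v0 (δ : ZMod q) U m).2] at hGG
    have hne0 : U ^ (2 * m) ≠ 0 := pow_ne_zero _ hU0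
    have hne : (2 * (m : ZMod q) + 1) * U ^ (2 * m) ≠ 0 := mul_ne_zero hp0 hne0
    have hG' := hGG.resolve_left hne
    have hF' := hFF.resolve_left hne0
    rw [← hP] at hG'
    constructor
    · push_cast
      calc ((a2 : ZMod q) ^ (2 * m) * (e : ZMod q)) ^ n
          = ((a2 : ZMod q) ^ (2 * m)) ^ n * (e : ZMod q) ^ n := by rw [mul_pow]
        _ = ((a2 : ZMod q) ^ (2 * m)) ^ n * (U ^ (2 * m)) ^ n := by rw [hF']
        _ = (((a2 : ZMod q) * U) ^ n) ^ (2 * m) := by ring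
        _ = _ := by rw [hU']; ring
    · push_cast
      rw [← hP]
      calc ((a2 : ZMod q) ^ (2 * m) * (h : ZMod q)) ^ n
          = ((a2 : ZMod q) ^ (2 * m)) ^ n * (h : ZMod q) ^ n := by rw [mul_pow]
        _ = ((a2 : ZMod q) ^ (2 * m)) ^ n * (P * U ^ (2 * m)) ^ n := by rw [hG']
        _ = P ^ n * (((a2 : ZMod q) * U) ^ n) ^ (2 * m) := by ring
        _ = _ := by rw [hU']; ring
  right; right
  have hV' := hV.resolve_left hV0
  obtain ⟨t, ht⟩ : ∃ t, t = V / U := ⟨_, rfl⟩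
  have hVt : V = U * t := by rw [ht]; field_simp
  have hFt : Fh (δ : ZMod q) U V m = U ^ (2 * m) * Fh (δ : ZMod q) 1 t m := by
    have := (hom_FG (δ : ZMod q) 1 t U m).1
    rw [mul_one, ← hVt] at this
    exact this
  have hGt : Gh (δ : ZMod q) U V m = U ^ (2 * m) * Gh (δ : ZMod q) 1 t m := by
    have := (hom_FG (δ : ZMod q) 1 t U m).2
    rw [mul_one, ← hVt] at this
    exact this
  have hUp : U ^ (2 * m) ≠ 0 := pow_ne_zero _ hU0
  have htn : (((b2 * a1 : ℕ) : ZMod q) * t) ^ n = ((b1 * a2 : ℕ) : ZMod q) ^ n := by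
    push_cast
    calc ((b2 : ZMod q) * a1 * t) ^ n = (a1 : ZMod q) ^ n * ((b2 : ZMod q) * t) ^ n := by ring
      _ = ((a2 : ZMod q) * U) ^ n * ((b2 : ZMod q) * t) ^ n := by rw [hU']
      _ = (a2 : ZMod q) ^ n * ((b2 : ZMod q) * (U * t)) ^ n := by ring
      _ = ((b1 : ZMod q) * a2) ^ n := by rw [← hVt, hV']; ring
  by_cases hf0 : Fh (δ : ZMod q) U V m = 0
  · left
    refine ⟨t, ?_, htn⟩
    rw [aeval_fp]
    rw [hFt] at hf0
    exact (mul_eq_zero.mp hf0).resolve_left hUp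
  right
  by_cases hg0 : Gh (δ : ZMod q) U V m = 0
  · left
    refine ⟨t, ?_, htn⟩
    rw [aeval_gp]
    rw [hGt] at hg0
    exact (mul_eq_zero.mp hg0).resolve_left hUp
  right
  have hF' := hFF.resolve_left hf0
  have hG' := hGG.resolve_left hg0
  refine ⟨t, ?_⟩
  intro i
  have h3cases : i = 0 ∨ i = 1 ∨ i = 2 := by
    fin_cases i <;> simp
  rcases h3cases with rfl | rfl | rfl
  · rw [ph_zero]
    simp only [cc, Matrix.cons_val_zero, Int.cast_natCast]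
    rw [← htn]
    push_cast
    rfl
  · rw [ph_one]
    simp only [cc, Matrix.cons_val_zero, Matrix.cons_val_one, Int.cast_natCast]
    push_cast
    calc ((a1 : ZMod q) ^ (2 * m) * Fh (δ : ZMod q) 1 t m) ^ n
        = ((a1 : ZMod q) ^ n) ^ (2 * m) * Fh (δ : ZMod q) 1 t m ^ n := by ring
      _ = (((a2 : ZMod q) * U) ^ n) ^ (2 * m) * Fh (δ : ZMod q) 1 t m ^ n := by rw [hU']
      _ = ((a2 : ZMod q) ^ (2 * m)) ^ n * (U ^ (2 * m) * Fh (δ : ZMod q) 1 t m) ^ n := by ring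
      _ = _ := by rw [← hFt, hF']; ring
  · rw [ph_two]
    simp only [cc, Matrix.cons_val_two, Matrix.tail_cons, Matrix.head_cons, Int.cast_natCast]
    push_cast
    calc ((a1 : ZMod q) ^ (2 * m) * Gh (δ : ZMod q) 1 t m) ^ n
        = ((a1 : ZMod q) ^ n) ^ (2 * m) * Gh (δ : ZMod q) 1 t m ^ n := by ring
      _ = (((a2 : ZMod q) * U) ^ n) ^ (2 * m) * Gh (δ : ZMod q) 1 t m ^ n := by rw [hU']
      _ = ((a2 : ZMod q) ^ (2 * m)) ^ n * (U ^ (2 * m) * Gh (δ : ZMod q) 1 t m) ^ n := by ring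
      _ = _ := by rw [← hGt, hG']; ring

/-- a numeric condition is sparse -/
lemma sparse_num (A B A' B' : ℕ) (hA : 1 ≤ A) (hB : 1 ≤ B) (hA' : 1 ≤ A') (hB' : 1 ≤ B')
    (hne : A ≠ B ∨ A' ≠ B') :
    Sparse (fun q n => ((A : ZMod q) ^ n = (B : ZMod q) ^ n) ∧
      ((A' : ZMod q) ^ n = (B' : ZMod q) ^ n)) := by
  have key : ∀ A B : ℕ, 1 ≤ A → 1 ≤ B → A ≠ B →
      Sparse (fun q n => ((A : ZMod q) ^ n = (B : ZMod q) ^ n)) := by
    intro A B hA hB hne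
    obtain ⟨C, hC, h1⟩ := cntA A B hA hB hne
    refine ⟨C, hC, 0, ?_⟩
    intro K R hR _ _ Q hQ
    have h2 := h1 K Q (by
      intro q hq
      obtain ⟨g1, _, n, g2, g3, _, g4⟩ := hQ q hq
      exact ⟨g1, n, g2, g3, g4⟩)
    refine h2.trans ?_
    have hR1 : (1 : ℝ) ≤ (R : ℝ) ^ 2 := by
      have : (1 : ℝ) ≤ R := by exact_mod_cast hR
      nlinarith
    exact le_mul_of_one_le_right (by positivity) hR1
  rcases hne with h | h
  · exact (key A B hA hB h).mono (fun q n h => h.1)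
  · exact (key A' B' hA' hB' h).mono (fun q n h => h.2)

/-- the roots of a polynomial against one linear function -/
lemma sparse_root (f : ℤ[X]) (hf : f ≠ 0) (hf1 : ∀ q : ℕ, q.Prime → ¬ C (q : ℤ) ∣ f) (α β : ℕ)
    (hα : 1 ≤ α) (hβ : 1 ≤ β)
    (hN : ∀ n : ℕ, 1 ≤ n → ∀ z : ℂ, aeval z f = 0 → ((α : ℂ) * z) ^ n ≠ (β : ℂ) ^ n) :
    Sparse (fun q n => ∃ t : ZMod q, aeval t f = 0 ∧
      ((α : ZMod q) * t) ^ n = (β : ZMod q) ^ n) := by
  obtain ⟨C, hC, h1⟩ := cntB f hf hf1 α β hα hβ hN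
  refine ⟨C, hC, 0, ?_⟩
  intro K R hR _ _ Q hQ
  have h2 := h1 K Q (by
    intro q hq
    obtain ⟨g1, _, n, g2, g3, _, g4⟩ := hQ q hq
    exact ⟨g1, n, g2, g3, g4⟩)
  refine h2.trans ?_
  have hR1 : (1 : ℝ) ≤ (R : ℝ) ^ 2 := by
    have : (1 : ℝ) ≤ R := by exact_mod_cast hR
    nlinarith
  exact le_mul_of_one_le_right (by positivity) hR1

/-- **Core theorem.** -/
theorem sparse_badG (δ : ℤ) (m a1 a2 b1 b2 e h : ℕ) (hδ : δ ≠ 0) (hm : 1 ≤ m) (ha1 : 1 ≤ a1)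
    (ha2 : 1 ≤ a2)
    (hb1 : 1 ≤ b1) (hb2 : 1 ≤ b2) (he : 1 ≤ e) (hh : 1 ≤ h)
    (hp : (2 * m + 1).Prime) (hpd : ¬ ((2 * m + 1 : ℕ) : ℤ) ∣ δ)
    (HT : ∀ z : ℂ, ∃ i, ∀ N : ℕ, 1 ≤ N → (aeval z (ph δ m a1 b2 i)) ^ N ≠
      ((cc (b1 * a2) (a2 ^ (2 * m) * e) (a2 ^ (2 * m) * h) i : ℤ) : ℂ) ^ N)
    (N1 : b2 ^ (2 * m) * e ≠ (2 * m + 1) * δ.natAbs ^ m * b1 ^ (2 * m) ∨
      b2 ^ (2 * m) * h ≠ δ.natAbs ^ m * b1 ^ (2 * m))
    (N2 : a2 ^ (2 * m) * e ≠ a1 ^ (2 * m) ∨ a2 ^ (2 * m) * h ≠ (2 * m + 1) * a1 ^ (2 * m)) :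
    Sparse (BadG δ m a1 a2 b1 b2 e h) := by
  classical
  have hδn : 1 ≤ δ.natAbs := Int.natAbs_pos.mpr hδ
  have s1 := sparse_num (b2 ^ (2 * m) * e) ((2 * m + 1) * δ.natAbs ^ m * b1 ^ (2 * m))
    (b2 ^ (2 * m) * h) (δ.natAbs ^ m * b1 ^ (2 * m))
    (Nat.mul_pos (by positivity) (by omega))
    (Nat.mul_pos (Nat.mul_pos (by omega) (pow_pos hδn _)) (by positivity))
    (Nat.mul_pos (by positivity) (by omega))
    (Nat.mul_pos (pow_pos hδn _) (by positivity)) N1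
  have s2 := sparse_num (a2 ^ (2 * m) * e) (a1 ^ (2 * m)) (a2 ^ (2 * m) * h)
    ((2 * m + 1) * a1 ^ (2 * m)) (Nat.mul_pos (by positivity) (by omega)) (by
      exact Nat.one_le_pow _ _ ha1)
    (Nat.mul_pos (by positivity) (by omega))
    (Nat.mul_pos (by omega) (by positivity)) N2
  have hf1 : (fp δ m).coeff 0 = 1 := by
    have h3 := aeval_fp (0 : ℤ) δ m
    rw [Int.cast_id, (FG_v0 δ 1 m).1, one_pow] at h3
    rw [coeff_zero_eq_aeval_zero]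
    exact h3
  have hfne : fp δ m ≠ 0 := by
    intro h0
    rw [h0] at hf1
    simp at hf1
  have hfq : ∀ q : ℕ, q.Prime → ¬ C (q : ℤ) ∣ fp δ m := by
    intro q hq hd
    have h3 := (C_dvd_iff_dvd_coeff _ _).mp hd 0
    rw [hf1] at h3
    have h4 : (q : ℤ) ∣ ((1 : ℕ) : ℤ) := by simpa using h3
    have h5 := Int.natCast_dvd_natCast.mp h4
    have := hq.one_lt
    have := Nat.le_of_dvd one_pos h5
    omega
  have s3 := sparse_root (fp δ m) hfne hfq (b2 * a1) (b1 * a2) (Nat.mul_pos hb2 ha1)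
    (Nat.mul_pos hb1 ha2) (by
    intro n hn z hz
    rw [aeval_fp] at hz
    exact no_root m hm hp δ hpd (b2 * a1) (b1 * a2) (Nat.mul_pos hb2 ha1) (Nat.mul_pos hb1 ha2)
      n hn z (Or.inl hz))
  have hgm : (gp δ m).coeff (2 * m) = δ ^ m := (fgp_deg δ m).2.2.2
  have hg0 : (gp δ m).coeff 0 = 2 * m + 1 := by
    have h3 := aeval_gp (0 : ℤ) δ m
    rw [Int.cast_id, (FG_v0 δ 1 m).2, one_pow, mul_one] at h3
    rw [coeff_zero_eq_aeval_zero]
    exact h3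
  have hgne : gp δ m ≠ 0 := by
    intro h0
    rw [h0] at hg0
    simp at hg0
    omega
  have hgq : ∀ q : ℕ, q.Prime → ¬ C (q : ℤ) ∣ gp δ m := by
    intro q hq hd
    have h3 := (C_dvd_iff_dvd_coeff _ _).mp hd 0
    have h4 := (C_dvd_iff_dvd_coeff _ _).mp hd (2 * m)
    rw [hg0] at h3
    rw [hgm] at h4
    have h5 : ((q : ℕ) : ℤ) ∣ ((2 * m + 1 : ℕ) : ℤ) := by
      push_cast
      exact h3
    have h6 := Int.natCast_dvd_natCast.mp h5
    have h7 := (Nat.prime_dvd_prime_iff_eq hq hp).mp h6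
    have h8 := (Nat.prime_iff_prime_int.mp hq).dvd_of_dvd_pow h4
    rw [h7] at h8
    exact hpd h8
  have s4 := sparse_root (gp δ m) hgne hgq (b2 * a1) (b1 * a2) (Nat.mul_pos hb2 ha1)
    (Nat.mul_pos hb1 ha2) (by
    intro n hn z hz
    rw [aeval_gp] at hz
    exact no_root m hm hp δ hpd (b2 * a1) (b1 * a2) (Nat.mul_pos hb2 ha1) (Nat.mul_pos hb1 ha2)
      n hn z (Or.inr hz))
  set q0 : ℕ := 2 * m + 1 + a1 + a2 + b1 + b2 + e + h + δ.natAbs with hq0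
  have hnz : ∀ q : ℕ, q.Prime → q0 < q → (((b1 * a2 : ℕ) : ZMod q) ≠ 0) ∧
      (((a2 ^ (2 * m) * e : ℕ) : ZMod q) ≠ 0) ∧ (((a2 ^ (2 * m) * h : ℕ) : ZMod q) ≠ 0) := by
    intro q hq hlt
    have hF : Fact q.Prime := ⟨hq⟩
    have g1 : (a2 : ZMod q) ≠ 0 := natCast_ne_zero_of_lt ha2 (by omega) (ZMod q)
    have g2 : (b1 : ZMod q) ≠ 0 := natCast_ne_zero_of_lt hb1 (by omega) (ZMod q)
    have g3 : (e : ZMod q) ≠ 0 := natCast_ne_zero_of_lt he (by omega) (ZMod q)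
    have g4 : (h : ZMod q) ≠ 0 := natCast_ne_zero_of_lt hh (by omega) (ZMod q)
    refine ⟨?_, ?_, ?_⟩
    · push_cast
      exact mul_ne_zero g2 g1
    · push_cast
      exact mul_ne_zero (pow_ne_zero _ g1) g3
    · push_cast
      exact mul_ne_zero (pow_ne_zero _ g1) g4
  obtain ⟨C5, hC5, h5⟩ := count_primes' (r := 3) (by norm_num) (ph δ m a1 b2)
    (cc (b1 * a2) (a2 ^ (2 * m) * e) (a2 ^ (2 * m) * h)) (by
      intro i
      have e1 : 1 ≤ b1 * a2 := Nat.mul_pos hb1 ha2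
      have e2 : 1 ≤ a2 ^ (2 * m) * e := Nat.mul_pos (by positivity) he
      have e3 : 1 ≤ a2 ^ (2 * m) * h := Nat.mul_pos (by positivity) hh
      have h3cases : i = 0 ∨ i = 1 ∨ i = 2 := by
        fin_cases i <;> simp
      rcases h3cases with rfl | rfl | rfl
      · simp only [cc, Matrix.cons_val_zero]
        exact_mod_cast (by omega : b1 * a2 ≠ 0)
      · simp only [cc, Matrix.cons_val_zero, Matrix.cons_val_one]
        exact_mod_cast (by omega : a2 ^ (2 * m) * e ≠ 0)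
      · simp only [cc, Matrix.cons_val_two, Matrix.tail_cons, Matrix.head_cons]
        exact_mod_cast (by omega : a2 ^ (2 * m) * h ≠ 0)) q0 (by
      intro q hq hlt i
      obtain ⟨g1, g2, g3⟩ := hnz q hq hlt
      have h3cases : i = 0 ∨ i = 1 ∨ i = 2 := by
        fin_cases i <;> simp
      rcases h3cases with rfl | rfl | rfl
      · simp only [cc, Matrix.cons_val_zero, Int.cast_natCast]
        exact g1
      · simp only [cc, Matrix.cons_val_zero, Matrix.cons_val_one, Int.cast_natCast]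
        exact g2
      · simp only [cc, Matrix.cons_val_two, Matrix.tail_cons, Matrix.head_cons, Int.cast_natCast]
        exact g3) (by
      intro q hq hlt i
      have hchar : CharP (AlgebraicClosure (ZMod q)) q :=
        charP_of_injective_algebraMap (algebraMap (ZMod q) _).injective q
      obtain ⟨z, hz1, hz2⟩ := ph_Hq (AlgebraicClosure (ZMod q)) δ m a1 b2 hm ha1 hb2 hδ q
        (by omega) (by omega) (by omega) (by omega) i
      exact ⟨AlgebraicClosure (ZMod q), inferInstance, hchar, z, hz1, hz2⟩) HT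
  have s5 : Sparse (fun q n => ∃ t : ZMod q, ∀ i, (aeval t (ph δ m a1 b2 i)) ^ n =
      ((cc (b1 * a2) (a2 ^ (2 * m) * e) (a2 ^ (2 * m) * h) i : ℤ) : ZMod q) ^ n) := by
    refine ⟨C5, hC5, q0, ?_⟩
    intro K R hR hRK hKR Q hQ
    exact h5 K R hR hRK hKR Q (by
      intro q hq
      obtain ⟨g1, g2, n, g3, g4, _, t, ht⟩ := hQ q hq
      exact ⟨g1, g2, t, n, g3, g4, ht⟩)
  -- all together
  have hall := s1.or (s2.or (s3.or (s4.or s5)))
  obtain ⟨C', hC', q', h'⟩ := hall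
  refine ⟨C', hC', max q0 q', ?_⟩
  intro K R hR hRK hKR Q hQ
  apply h' K R hR hRK hKR Q
  intro q hq
  obtain ⟨g1, g2, n, g3, g4, g5, g6⟩ := hQ q hq
  have g2' : q0 < q := lt_of_le_of_lt (le_max_left _ _) g2
  refine ⟨g1, lt_of_le_of_lt (le_max_right _ _) g2, n, g3, g4, g5, ?_⟩
  exact badG_cases δ m a1 a2 b1 b2 e h q n ha1 ha2 hb2 hδ g1 (by omega) (by omega) (by omega)
    (by omega) (by omega) g5 g6

end Pool.Agent.H573.AHB
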