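import Pool.Agent.H573.AHB.Grp

/-!
# The counting theorem
-/

namespace Pool.Agent.H573.AHB

open Polynomial

variable {r : ℕ}

lemma PV_ne_closure (φ : Fin r → ℤ[X]) (c : Fin r → ℤ) {q : ℕ} [Fact q.Prime]
    (hcq : ∀ i, ((c i : ℤ) : ZMod q) ≠ 0)
    (Hq : ∀ i, ∃ (F : Type) (_ : Field F) (_ : CharP F q) (z : F), aeval z (φ i) = 0 ∧
      ∀ j, j ≠ i → aeval z (φ j) ≠ 0) {v : Fin r → ℤ} (hv : v ≠ 0) :
    ∃ (F : Type) (_ : Field F) (_ : CharP F q) (z : F), aeval z (PV φ c v) ≠ 0 := by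
  classical
  have : ∃ i, v i ≠ 0 := by
    by_contra h
    push Not at h
    exact hv (funext h)
  obtain ⟨i, hi⟩ := this
  obtain ⟨F, iF, iC, z, hz, hzj⟩ := Hq i
  have hca : ∀ j, ((c j : ℤ) : F) ≠ 0 := by
    intro j h0
    apply hcq j
    rw [ZMod.intCast_zmod_eq_zero_iff_dvd]
    exact (CharP.intCast_eq_zero_iff F q _).mp h0
  refine ⟨F, iF, iC, z, ?_⟩
  unfold PV
  rw [map_sub, map_prod, map_prod]
  have hal : ∀ j, algebraMap ℤ F (c j) = ((c j : ℤ) : F) := fun j => eq_intCast _ _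
  simp only [map_mul, map_pow, aeval_C, hal]
  rcases lt_or_gt_of_ne hi with h | h
  · have h1 : ∏ j, ((aeval z (φ j)) ^ (-(v j)).toNat *
        ((c j : ℤ) : F) ^ (v j).toNat) = 0 := by
      apply Finset.prod_eq_zero (Finset.mem_univ i)
      rw [hz, zero_pow (by omega), zero_mul]
    rw [h1, sub_zero]
    apply Finset.prod_ne_zero_iff.mpr
    intro j _
    apply mul_ne_zero _ (pow_ne_zero _ (hca j))
    by_cases hj : j = i
    · rw [hj, show (v i).toNat = 0 by omega, pow_zero]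
      exact one_ne_zero
    · exact pow_ne_zero _ (hzj j hj)
  · have h1 : ∏ j, ((aeval z (φ j)) ^ (v j).toNat *
        ((c j : ℤ) : F) ^ (-(v j)).toNat) = 0 := by
      apply Finset.prod_eq_zero (Finset.mem_univ i)
      rw [hz, zero_pow (by omega), zero_mul]
    rw [h1, zero_sub, neg_ne_zero]
    apply Finset.prod_ne_zero_iff.mpr
    intro j _
    apply mul_ne_zero _ (pow_ne_zero _ (hca j))
    by_cases hj : j = i
    · rw [hj, show (-(v i)).toNat = 0 by omega, pow_zero]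
      exact one_ne_zero
    · exact pow_ne_zero _ (hzj j hj)

lemma exists_factor (φ : Fin r → ℤ[X]) (c : Fin r → ℤ) {q : ℕ} [Fact q.Prime]
    (hcq : ∀ i, ((c i : ℤ) : ZMod q) ≠ 0)
    (Hq : ∀ i, ∃ (F : Type) (_ : Field F) (_ : CharP F q) (z : F), aeval z (φ i) = 0 ∧
      ∀ j, j ≠ i → aeval z (φ j) ≠ 0) {v : Fin r → ℤ} (hv : v ≠ 0)
    {t : ZMod q} (ht : aeval t (PV φ c v) = 0) :
    PV φ c v ≠ 0 ∧ ∃ D : ℤ[X], Irreducible D ∧ D.natDegree ≠ 0 ∧ D ∣ PV φ c v ∧ aeval t D = 0 := by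
  obtain ⟨F, iF, iC, z, hz⟩ := PV_ne_closure φ c hcq Hq hv
  have h0 : PV φ c v ≠ 0 := by
    intro h
    rw [h, map_zero] at hz
    exact hz rfl
  refine ⟨h0, ?_⟩
  obtain ⟨w, hw⟩ := UniqueFactorizationMonoid.factors_prod h0
  have h1 : aeval t (UniqueFactorizationMonoid.factors (PV φ c v)).prod = 0 := by
    have h2 := congrArg (aeval t) hw
    rw [map_mul, ht, mul_eq_zero] at h2
    rcases h2 with h2 | h2
    · exact h2
    · exfalso
      have h3 : IsUnit (aeval t (w : ℤ[X])) := w.isUnit.map (aeval t)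
      rw [h2] at h3
      exact not_isUnit_zero h3
  rw [map_multiset_prod, Multiset.prod_eq_zero_iff, Multiset.mem_map] at h1
  obtain ⟨D, hD, hDt⟩ := h1
  have hirr := UniqueFactorizationMonoid.irreducible_of_factor D hD
  have hdvd := UniqueFactorizationMonoid.dvd_of_mem_factors hD
  refine ⟨D, hirr, ?_, hdvd, hDt⟩
  intro hdeg
  rw [natDegree_eq_zero] at hdeg
  obtain ⟨b, hc⟩ := hdeg
  rw [← hc, aeval_C] at hDt
  have hqc : (q : ℤ) ∣ b := by
    rw [← ZMod.intCast_zmod_eq_zero_iff_dvd]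
    simpa using hDt
  obtain ⟨c', hc'⟩ := hqc
  obtain ⟨E, hE⟩ := hdvd
  apply hz
  rw [hE, map_mul, ← hc, aeval_C, hc', map_mul]
  have h4 : (algebraMap ℤ F) (q : ℤ) = 0 := by
    rw [eq_intCast, Int.cast_natCast]
    exact CharP.cast_eq_zero F q
  rw [h4, zero_mul, zero_mul]

lemma pick (φ : Fin r → ℤ[X]) (c : Fin r → ℤ) {q K R : ℕ} [Fact q.Prime]
    (hcq : ∀ i, ((c i : ℤ) : ZMod q) ≠ 0)
    (Hq : ∀ i, ∃ (F : Type) (_ : Field F) (_ : CharP F q) (z : F), aeval z (φ i) = 0 ∧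
      ∀ j, j ≠ i → aeval z (φ j) ≠ 0) (hKR : K < (R + 1) ^ r)
    {t : ZMod q} {n : ℕ} (hn : 1 ≤ n) (hnK : n ≤ K) (hall : ∀ i, (aeval t (φ i)) ^ n = ((c i : ℤ) : ZMod q) ^ n) :
    ∃ v : Fin r → ℤ, v ≠ 0 ∧ nv v ≤ R ∧ PV φ c v ≠ 0 ∧
      ∃ D ∈ (UniqueFactorizationMonoid.factors (PV φ c v)).toFinset, D.natDegree ≠ 0 ∧
        (∀ u : Fin r → ℤ, u ≠ 0 → D ∣ PV φ c u → nv v ≤ nv u) ∧ Good φ c K q D := by
  classical
  obtain ⟨v1, hv10, hv1R, hv1⟩ := box_pigeon (fun j => aeval t (φ j) / ((c j : ℤ) : ZMod q))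
    hn hnK (fun j => by rw [div_pow, hall j]; exact div_self (pow_ne_zero n (hcq j)))
    (fun _ => R + 1) (by simpa using hKR)
  have hne : ∀ j, aeval t (φ j) ≠ 0 := by
    intro j h0
    have := hall j
    rw [h0, zero_pow (by omega)] at this
    exact pow_ne_zero n (hcq j) this.symm
  have hPt := (PV_eval φ c v1 t hne hcq).mpr hv1
  obtain ⟨-, D, hDirr, hDdeg, hDdvd, hDt⟩ := exists_factor φ c hcq Hq hv10 hPt
  -- minimal vector
  have hex : ∃ N, ∃ v : Fin r → ℤ, v ≠ 0 ∧ D ∣ PV φ c v ∧ nv v = N := ⟨_, v1, hv10, hDdvd, rfl⟩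
  obtain ⟨v, hv0, hDv, hvN⟩ := Nat.find_spec hex
  have hmin : ∀ u : Fin r → ℤ, u ≠ 0 → D ∣ PV φ c u → nv v ≤ nv u := by
    intro u hu hDu
    rw [hvN]
    exact Nat.find_min' hex ⟨u, hu, hDu, rfl⟩
  obtain ⟨F, iF, iC, z, hz⟩ := PV_ne_closure φ c hcq Hq hv0
  have h0 : PV φ c v ≠ 0 := by
    intro h
    rw [h, map_zero] at hz
    exact hz rfl
  obtain ⟨D', hD', hass⟩ := UniqueFactorizationMonoid.exists_mem_factors_of_dvd h0 hDirr hDv
  refine ⟨v, hv0, (hmin v1 hv10 hDdvd).trans (nv_le fun i => ?_), h0, D',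
    Multiset.mem_toFinset.mpr hD', ?_, ?_, ?_⟩
  · have := hv1R i
    omega
  · have hdeg := natDegree_eq_of_degree_eq (degree_eq_degree_of_associated hass)
    rw [← hdeg]
    exact hDdeg
  · intro u hu hD'u
    exact hmin u hu (hass.dvd.trans hD'u)
  · refine ⟨hcq, t, n, hn, hnK, hall, ?_⟩
    obtain ⟨E, hE⟩ := hass.dvd
    rw [hE, map_mul, hDt, zero_mul]

/-- number of vectors of given norm -/
lemma card_nv_eq (l : ℕ) (hl : 1 ≤ l) (S : Finset (Fin r → ℤ)) (hS : ∀ v ∈ S, nv v = l) :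
    S.card ≤ 2 * r * 3 ^ (r - 1) * l ^ (r - 1) := by
  classical
  set B : Fin r → Finset (Fin r → ℤ) := fun i =>
    Fintype.piFinset fun j => if j = i then ({(l : ℤ), -(l : ℤ)} : Finset ℤ)
      else Finset.Icc (-(l : ℤ)) l with hB
  have hcov : S ⊆ Finset.univ.biUnion B := by
    intro v hv
    have h1 := hS v hv
    have hne : (Finset.univ : Finset (Fin r)).Nonempty := by
      by_contra he
      rw [Finset.not_nonempty_iff_eq_empty] at he
      unfold nv at h1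
      rw [he, Finset.sup_empty] at h1
      simp at h1
      omega
    obtain ⟨i, -, hi⟩ := Finset.exists_mem_eq_sup Finset.univ hne (fun i => (v i).natAbs)
    rw [Finset.mem_biUnion]
    refine ⟨i, Finset.mem_univ i, ?_⟩
    rw [hB, Fintype.mem_piFinset]
    intro j
    by_cases hj : j = i
    · rw [if_pos hj, Finset.mem_insert, Finset.mem_singleton, hj]
      have h2 : (v i).natAbs = l := by
        rw [← h1]
        exact hi.symm
      omega
    · rw [if_neg hj, Finset.mem_Icc]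
      have := le_nv v j
      omega
  have hBc : ∀ i, (B i).card ≤ 2 * (3 ^ (r - 1) * l ^ (r - 1)) := by
    intro i
    rw [hB, Fintype.card_piFinset, ← Finset.mul_prod_erase Finset.univ _ (Finset.mem_univ i)]
    apply Nat.mul_le_mul
    · rw [if_pos rfl]
      exact (Finset.card_insert_le _ _).trans (by simp)
    · calc ∏ x ∈ Finset.univ.erase i, (if x = i then ({(l : ℤ), -(l : ℤ)} : Finset ℤ)
            else Finset.Icc (-(l : ℤ)) l).card ≤ ∏ x ∈ Finset.univ.erase i, (3 * l) := by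
            apply Finset.prod_le_prod (fun _ _ => Nat.zero_le _)
            intro j hj
            rw [if_neg (Finset.ne_of_mem_erase hj), Int.card_Icc]
            omega
        _ = 3 ^ (r - 1) * l ^ (r - 1) := by
            rw [Finset.prod_const, Finset.card_erase_of_mem (Finset.mem_univ i), Finset.card_univ,
              Fintype.card_fin, mul_pow]
  calc S.card ≤ (Finset.univ.biUnion B).card := Finset.card_le_card hcov
    _ ≤ ∑ i, (B i).card := Finset.card_biUnion_le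
    _ ≤ ∑ _i : Fin r, 2 * (3 ^ (r - 1) * l ^ (r - 1)) := Finset.sum_le_sum fun i _ => hBc i
    _ = _ := by
      rw [Finset.sum_const, Finset.card_univ, Fintype.card_fin, smul_eq_mul]
      ring

/-- **Counting theorem.** Suppose that the integer polynomials `φ_0,…,φ_{r-1}` (`r ≥ 2`)
(i) for every prime `q > q0` and every `i` have a root `z` of `φ_i` in a field of characteristic
`q` which is not a root of the other `φ_j`, and (ii) have no complex number `z` with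
`|φ_i(z)| = |c_i|` for all `i`. Then there are at most `C K² R²` primes `q > q0`, where
`R = ⌊K^{1/r}⌋`, for which there are `t` mod `q` and `1 ≤ n ≤ K` with
`φ_i(t)^n = c_i^n` mod `q` for all `i`. -/
theorem count_primes (hr : 2 ≤ r) (φ : Fin r → ℤ[X]) (c : Fin r → ℤ) (hc0 : ∀ i, c i ≠ 0) (q0 : ℕ)
    (hcq : ∀ q : ℕ, q.Prime → q0 < q → ∀ i, ((c i : ℤ) : ZMod q) ≠ 0)
    (Hq : ∀ q : ℕ, ∀ _ : Fact q.Prime, q0 < q → ∀ i, ∃ (F : Type) (_ : Field F) (_ : CharP F q)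
      (z : F), aeval z (φ i) = 0 ∧ ∀ j, j ≠ i → aeval z (φ j) ≠ 0)
    (H2 : ∀ z : ℂ, ∃ i, ‖aeval z (φ i)‖ ≠ |(c i : ℝ)|) :
    ∃ C : ℝ, 0 ≤ C ∧ ∀ K R : ℕ, 1 ≤ R → R ^ r ≤ K → K < (R + 1) ^ r → ∀ Q : Finset ℕ,
      (∀ q ∈ Q, q.Prime ∧ q0 < q ∧ ∃ (t : ZMod q) (n : ℕ), 1 ≤ n ∧ n ≤ K ∧
        ∀ i, (aeval t (φ i)) ^ n = ((c i : ℤ) : ZMod q) ^ n) → (Q.card : ℝ) ≤ C * K ^ 2 * R ^ 2 := by
  classical
  have hlog2 : 0 < Real.log 2 := Real.log_pos (by norm_num)
  have hAc := Ac_nonneg φ c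
  set C1 : ℝ := 2 ^ (r + 1) * Ac φ c * ((r : ℝ) ^ (r - 1)) / Real.log 2 with hC1
  have hC1n : 0 ≤ C1 := by positivity
  refine ⟨C1 * Ac φ c * (2 * r * 3 ^ (r - 1)), by positivity, ?_⟩
  intro K R hR1 hRK hKR Q hQ
  -- the cover
  set Box : Finset (Fin r → ℤ) :=
    (Fintype.piFinset fun _ => Finset.Icc (-(R : ℤ)) (R : ℤ)).filter
      (fun v => v ≠ 0 ∧ PV φ c v ≠ 0 ∧ nv v ≤ R) with hBox
  set QV : (Fin r → ℤ) → ℤ[X] → Finset ℕ := fun v D => Q.filter fun q =>
    D.natDegree ≠ 0 ∧ (∀ u : Fin r → ℤ, u ≠ 0 → D ∣ PV φ c u → nv v ≤ nv u) ∧ Good φ c K q D with hQV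
  have hcover : Q ⊆ Box.biUnion fun v =>
      (UniqueFactorizationMonoid.factors (PV φ c v)).toFinset.biUnion fun D => QV v D := by
    intro q hq
    obtain ⟨hqp, hq0, t, n, hn, hnK, hall⟩ := hQ q hq
    have hF : Fact q.Prime := ⟨hqp⟩
    obtain ⟨v, hv0, hvR, hP0, D, hDmem, hDdeg, hmin, hgood⟩ :=
      pick φ c (hcq q hqp hq0) (Hq q hF hq0) hKR hn hnK hall
    rw [Finset.mem_biUnion]
    refine ⟨v, ?_, ?_⟩
    · rw [hBox, Finset.mem_filter, Fintype.mem_piFinset]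
      refine ⟨fun i => ?_, hv0, hP0, hvR⟩
      have := le_nv v i
      rw [Finset.mem_Icc]
      omega
    · rw [Finset.mem_biUnion]
      exact ⟨D, hDmem, Finset.mem_filter.mpr ⟨hq, hDdeg, hmin, hgood⟩⟩
  have hgrp : ∀ v ∈ Box, ∀ D ∈ (UniqueFactorizationMonoid.factors (PV φ c v)).toFinset,
      ((QV v D).card : ℝ) ≤ C1 * K ^ 2 / (nv v) ^ (r - 1) * sz D := by
    intro v hv D hD
    rw [hBox, Finset.mem_filter] at hv
    obtain ⟨-, hv0, hP0, hvR⟩ := hv
    rw [Multiset.mem_toFinset] at hD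
    have hirr := UniqueFactorizationMonoid.irreducible_of_factor D hD
    have hsz := sz_nonneg hirr.ne_zero
    rcases (QV v D).eq_empty_or_nonempty with he | ⟨q1, hq1⟩
    · rw [he]
      simp only [Finset.card_empty, Nat.cast_zero]
      positivity
    · obtain ⟨-, hDdeg, hmin, -⟩ := Finset.mem_filter.mp hq1
      have h1 := group_bound hr φ c hc0 H2 hirr hDdeg hR1 hRK (nv_pos hv0) hvR hmin (QV v D) (by
        intro q hq
        obtain ⟨hqQ, -, -, hg⟩ := Finset.mem_filter.mp hq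
        exact ⟨(hQ q hqQ).1, hg⟩)
      rw [← le_div_iff₀ hlog2] at h1
      refine h1.trans (le_of_eq ?_)
      rw [hC1]
      ring
  have hv' : ∀ v ∈ Box, ((((UniqueFactorizationMonoid.factors (PV φ c v)).toFinset.biUnion
      fun D => QV v D).card : ℕ) : ℝ) ≤ C1 * Ac φ c * K ^ 2 * (nv v / (nv v) ^ (r - 1)) := by
    intro v hv
    have h0 := hgrp v hv
    rw [hBox, Finset.mem_filter] at hv
    obtain ⟨-, hv0, hP0, hvR⟩ := hv
    have h1 : ((((UniqueFactorizationMonoid.factors (PV φ c v)).toFinset.biUnion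
      fun D => QV v D).card : ℕ) : ℝ) ≤
        ∑ D ∈ (UniqueFactorizationMonoid.factors (PV φ c v)).toFinset, ((QV v D).card : ℝ) := by
      exact_mod_cast Finset.card_biUnion_le
    refine h1.trans ((Finset.sum_le_sum h0).trans ?_)
    rw [← Finset.mul_sum]
    have h2 := (sum_sz_factors_le hP0).trans (sz_PV hv0 hP0)
    have h3 : (0 : ℝ) ≤ C1 * K ^ 2 / (nv v) ^ (r - 1) := by positivity
    refine (mul_le_mul_of_nonneg_left h2 h3).trans (le_of_eq ?_)
    ring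
  have hmain : (Q.card : ℝ) ≤ C1 * Ac φ c * K ^ 2 * ∑ v ∈ Box, ((nv v : ℝ) / (nv v) ^ (r - 1)) := by
    rw [Finset.mul_sum]
    have h1 : (Q.card : ℝ) ≤ ∑ v ∈ Box, ((((UniqueFactorizationMonoid.factors
        (PV φ c v)).toFinset.biUnion fun D => QV v D).card : ℕ) : ℝ) := by
      have := (Finset.card_le_card hcover).trans Finset.card_biUnion_le
      exact_mod_cast this
    exact h1.trans (Finset.sum_le_sum hv')
  have hsum : ∑ v ∈ Box, ((nv v : ℝ) / (nv v) ^ (r - 1)) ≤ (2 * r * 3 ^ (r - 1)) * R ^ 2 := by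
    have h1 : ∀ v ∈ Box, nv v ∈ Finset.Icc 1 R := by
      intro v hv
      rw [hBox, Finset.mem_filter] at hv
      rw [Finset.mem_Icc]
      exact ⟨nv_pos hv.2.1, hv.2.2.2⟩
    rw [← Finset.sum_fiberwise_of_maps_to h1]
    have h2 : ∀ l ∈ Finset.Icc 1 R, ∑ v ∈ Box with nv v = l, ((nv v : ℝ) / (nv v) ^ (r - 1))
        ≤ (2 * r * 3 ^ (r - 1)) * R := by
      intro l hl
      rw [Finset.mem_Icc] at hl
      have hl0 : (0 : ℝ) < (l : ℝ) := by exact_mod_cast hl.1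
      have h3 : ∑ v ∈ Box with nv v = l, ((nv v : ℝ) / (nv v) ^ (r - 1))
          = ((Box.filter fun v => nv v = l).card : ℝ) * ((l : ℝ) / l ^ (r - 1)) := by
        rw [Finset.sum_congr rfl (g := fun _ => (l : ℝ) / l ^ (r - 1)) (by
          intro v hv
          rw [Finset.mem_filter] at hv
          rw [hv.2])]
        rw [Finset.sum_const, nsmul_eq_mul]
      rw [h3]
      have h4 := card_nv_eq l hl.1 (Box.filter fun v => nv v = l) (by
        intro v hv
        exact (Finset.mem_filter.mp hv).2)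
      have h5 : ((Box.filter fun v => nv v = l).card : ℝ) ≤ 2 * r * 3 ^ (r - 1) * l ^ (r - 1) := by
        exact_mod_cast h4
      calc ((Box.filter fun v => nv v = l).card : ℝ) * ((l : ℝ) / l ^ (r - 1))
          ≤ (2 * r * 3 ^ (r - 1) * l ^ (r - 1)) * ((l : ℝ) / l ^ (r - 1)) :=
            mul_le_mul_of_nonneg_right h5 (by positivity)
        _ = (2 * r * 3 ^ (r - 1)) * l := by field_simp
        _ ≤ (2 * r * 3 ^ (r - 1)) * R := by
            apply mul_le_mul_of_nonneg_left _ (by positivity)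
            exact_mod_cast hl.2
    refine (Finset.sum_le_sum h2).trans ?_
    rw [Finset.sum_const, Nat.card_Icc, nsmul_eq_mul, Nat.add_sub_cancel]
    apply le_of_eq
    ring
  calc (Q.card : ℝ) ≤ C1 * Ac φ c * K ^ 2 * ∑ v ∈ Box, ((nv v : ℝ) / (nv v) ^ (r - 1)) := hmain
    _ ≤ C1 * Ac φ c * K ^ 2 * ((2 * r * 3 ^ (r - 1)) * R ^ 2) :=
        mul_le_mul_of_nonneg_left hsum (by positivity)
    _ = _ := by ring

end Pool.Agent.H573.AHB
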