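import Pool.Agent.H573.AHB.Dens

/-!
Descent: from `X² + Y² = z^{2m+1}` to `X = u F_m(u,v)`, `Y = v G_m(u,v)`, and reduction mod `q`.
-/

namespace Pool.Agent.H573.AHB

open Filter

/-- a power `w^s` is zero or in `μ_n` modulo `q`, if `s n = q - 1` -/
lemma pow_mod (q s n : ℕ) (hq : q.Prime) (hsn : s * n = q - 1) (c : ℕ) (w : ℤ) (V : ZMod q)
    (b2 : ZMod q) (hb2 : b2 ≠ 0) (hV : b2 * V = (c : ZMod q) * (w : ZMod q) ^ s) :
    V = 0 ∨ (b2 * V) ^ n = (c : ZMod q) ^ n := by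
  have hF : Fact q.Prime := ⟨hq⟩
  by_cases hw : (w : ZMod q) = 0
  · left
    rw [hw] at hV
    by_cases hs : s = 0
    · rw [hs, zero_mul] at hsn
      have := hq.two_le
      omega
    · rw [zero_pow hs, mul_zero] at hV
      exact (mul_eq_zero.mp hV).resolve_left hb2
  · right
    rw [hV, mul_pow, ← pow_mul, hsn, ZMod.pow_card_sub_one_eq_one hw, mul_one]

/-- from global data to a bad prime -/
lemma bad_of (δ : ℤ) (m a b1 b2 e h q s n : ℕ) (hq : q.Prime) (hsn : s * n = q - 1)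
    (hb2 : (b2 : ZMod q) ≠ 0) (u v w1 w2 w3 w4 : ℤ) (huv : IsCoprime u v)
    (h1 : u = a * w1 ^ s) (h2 : b2 * v = b1 * w2 ^ s) (h3 : Fh δ u v m = e * w3 ^ s)
    (h4 : Gh δ u v m = h * w4 ^ s) : BadUV δ m a b1 b2 e h q n := by
  have hF : Fact q.Prime := ⟨hq⟩
  have hmap := map_FGh (Int.castRingHom (ZMod q)) δ u v m
  simp only [eq_intCast] at hmap
  refine ⟨(u : ZMod q), (v : ZMod q), ?_, ?_, ?_, ?_, ?_⟩
  · by_contra hcon
    push Not at hcon
    obtain ⟨g1, g2⟩ := hcon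
    rw [ZMod.intCast_zmod_eq_zero_iff_dvd] at g1 g2
    have := huv.isUnit_of_dvd' g1 g2
    rw [Int.isUnit_iff_natAbs_eq, Int.natAbs_natCast] at this
    have := hq.two_le
    omega
  · have := pow_mod q s n hq hsn a w1 (u : ZMod q) 1 one_ne_zero (by
      rw [h1]
      push_cast
      ring)
    rw [one_mul] at this
    exact this
  · exact pow_mod q s n hq hsn b1 w2 (v : ZMod q) b2 hb2 (by
      have := congrArg (Int.cast : ℤ → ZMod q) h2
      push_cast at this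
      exact this)
  · have := pow_mod q s n hq hsn e w3 ((Fh δ u v m : ℤ) : ZMod q) 1 one_ne_zero (by
      rw [h3]
      push_cast
      ring)
    rw [one_mul, hmap.1] at this
    exact this
  · have := pow_mod q s n hq hsn h w4 ((Gh δ u v m : ℤ) : ZMod q) 1 one_ne_zero (by
      rw [h4]
      push_cast
      ring)
    rw [one_mul, hmap.2] at this
    exact this

/-- splitting a coefficient -/
lemma split_pow (c : ℕ) (hc : 1 ≤ c) (s : ℕ) (hs : Odd s) (x u F : ℤ) (hx : x ≠ 0)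
    (huF : IsCoprime u F) (h : u * F = c * x ^ s) :
    ∃ c' c'' : ℕ, c' * c'' = c ∧ ∃ w w' : ℤ, u = c' * w ^ s ∧ F = c'' * w' ^ s := by
  have hc0 : (c : ℤ) ≠ 0 := by exact_mod_cast (by omega : c ≠ 0)
  have h0 : u * F ≠ 0 := by
    rw [h]
    exact mul_ne_zero hc0 (pow_ne_zero _ hx)
  have hco : Nat.Coprime u.natAbs F.natAbs := Int.isCoprime_iff_gcd_eq_one.mp huF
  have hgm := Nat.Coprime.gcd_mul c hco
  have hdvd : c ∣ u.natAbs * F.natAbs := by
    rw [← Int.natAbs_mul, h, Int.natAbs_mul, Int.natAbs_natCast]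
    exact dvd_mul_right _ _
  rw [Nat.gcd_eq_left hdvd] at hgm
  obtain ⟨u1, hu1⟩ : ((Nat.gcd c u.natAbs : ℕ) : ℤ) ∣ u :=
    Int.natCast_dvd.mpr (Nat.gcd_dvd_right _ _)
  obtain ⟨F1, hF1⟩ : ((Nat.gcd c F.natAbs : ℕ) : ℤ) ∣ F :=
    Int.natCast_dvd.mpr (Nat.gcd_dvd_right _ _)
  set c' := Nat.gcd c u.natAbs with hc'
  set c'' := Nat.gcd c F.natAbs with hc''
  have hcc : (c : ℤ) = (c' : ℤ) * (c'' : ℤ) := by exact_mod_cast hgm
  have h1 : u1 * F1 = x ^ s := by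
    apply mul_left_cancel₀ hc0
    calc (c : ℤ) * (u1 * F1) = (c' * u1) * (c'' * F1) := by rw [hcc]; ring
      _ = u * F := by rw [← hu1, ← hF1]
      _ = _ := h
  have hco1 : IsCoprime u1 F1 := by
    have h2 : IsCoprime ((c' : ℤ) * u1) ((c'' : ℤ) * F1) := by rw [← hu1, ← hF1]; exact huF
    exact h2.of_mul_left_right.of_mul_right_right
  obtain ⟨⟨w, hw⟩, w', hw'⟩ := Int.eq_pow_of_mul_eq_pow_odd hco1 hs h1
  exact ⟨c', c'', hgm.symm, w, w', by rw [← hw]; exact hu1, by rw [← hw']; exact hF1⟩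

/-- `u` and `F_m(u,v)` are coprime unless `p ∣ u` -/
lemma cop_F (m : ℕ) (hp : (2 * m + 1).Prime) (δ u v : ℤ) (huv : IsCoprime u v)
    (hud : IsCoprime u δ) (hu : ¬ ((2 * m + 1 : ℕ) : ℤ) ∣ u) : IsCoprime u (Fh δ u v m) := by
  have hpp : Prime ((2 * m + 1 : ℕ) : ℤ) := Nat.prime_iff_prime_int.mp hp
  obtain ⟨k, hk⟩ := FG_mod_u δ u v m
  have h1 : Fh δ u v m = (2 * m + 1) * (δ * v ^ 2) ^ m + u * k := by linarith
  rw [h1]
  refine IsCoprime.add_mul_left_right ?_ _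
  have h2 : IsCoprime u ((2 * m + 1 : ℕ) : ℤ) :=
    ((hpp.coprime_iff_not_dvd).mpr hu).symm
  push_cast at h2
  exact h2.mul_right (IsCoprime.pow_right (hud.mul_right huv.pow_right))

lemma cop_G (m : ℕ) (hp : (2 * m + 1).Prime) (δ u v : ℤ) (huv : IsCoprime u v)
    (hv : ¬ ((2 * m + 1 : ℕ) : ℤ) ∣ v) : IsCoprime v (Gh δ u v m) := by
  have hpp : Prime ((2 * m + 1 : ℕ) : ℤ) := Nat.prime_iff_prime_int.mp hp
  obtain ⟨k, hk⟩ := FG_mod_v δ u v m
  have h1 : Gh δ u v m = (2 * m + 1) * u ^ (2 * m) + v * k := by linarith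
  rw [h1]
  refine IsCoprime.add_mul_left_right ?_ _
  have h2 : IsCoprime v ((2 * m + 1 : ℕ) : ℤ) :=
    ((hpp.coprime_iff_not_dvd).mpr hv).symm
  push_cast at h2
  exact h2.mul_right huv.symm.pow_right

lemma z_odd (X Y z : ℤ) (m : ℕ) (hm : 1 ≤ m) (hco : IsCoprime X Y)
    (h : X ^ 2 + Y ^ 2 = z ^ (2 * m + 1)) : Odd z := by
  rw [← Int.not_even_iff_odd]
  intro hz
  obtain ⟨k, hk⟩ := hz
  have h4 : (4 : ℤ) ∣ z ^ (2 * m + 1) := by
    have h1 : (4 : ℤ) ∣ z ^ 2 := ⟨k ^ 2, by rw [hk]; ring⟩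
    exact h1.trans (pow_dvd_pow z (by omega))
  rw [← h] at h4
  have hX : Even X ∧ Even Y := by
    rcases Int.even_or_odd X with ⟨a, ha⟩ | ⟨a, ha⟩ <;> rcases Int.even_or_odd Y with ⟨b, hb⟩ | ⟨b, hb⟩
    · exact ⟨⟨a, ha⟩, ⟨b, hb⟩⟩
    · exfalso
      obtain ⟨c, hc⟩ := h4
      have : X ^ 2 + Y ^ 2 = 4 * (a ^ 2 + b ^ 2 + b) + 1 := by rw [ha, hb]; ring
      omega
    · exfalso
      obtain ⟨c, hc⟩ := h4
      have : X ^ 2 + Y ^ 2 = 4 * (a ^ 2 + a + b ^ 2) + 1 := by rw [ha, hb]; ring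
      omega
    · exfalso
      obtain ⟨c, hc⟩ := h4
      have : X ^ 2 + Y ^ 2 = 4 * (a ^ 2 + a + b ^ 2 + b) + 2 := by rw [ha, hb]; ring
      omega
  have := hco.isUnit_of_dvd' hX.1.two_dvd hX.2.two_dvd
  rw [Int.isUnit_iff] at this
  omega

lemma gi_unit (ε : GaussianInt) (hε : IsUnit ε) : ε ^ 4 = 1 := by
  have h1 : ε.norm = 1 := (Zsqrtd.norm_eq_one_iff' (by norm_num) ε).mpr hε
  obtain ⟨a, b⟩ := ε
  rw [Zsqrtd.norm_def] at h1
  simp only at h1
  have h2 : a * a + b * b = 1 := by linarith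
  have ha : -1 ≤ a ∧ a ≤ 1 := by constructor <;> nlinarith
  have hb : -1 ≤ b ∧ b ≤ 1 := by constructor <;> nlinarith
  obtain ⟨ha1, ha2⟩ := ha
  obtain ⟨hb1, hb2⟩ := hb
  interval_cases a <;> interval_cases b <;> first | omega | decide

lemma gi_eta (u v : ℤ) : (⟨u, v⟩ : GaussianInt) = (u : GaussianInt) + ⟨0, 1⟩ * (v : GaussianInt) := by
  apply Zsqrtd.ext
  · simp
  · simp

/-- descent in the Gaussian integers -/
lemma gauss (X Y z : ℤ) (m : ℕ) (hm : 1 ≤ m) (hco : IsCoprime X Y)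
    (h : X ^ 2 + Y ^ 2 = z ^ (2 * m + 1)) :
    ∃ u v : ℤ, X = u * Fh (-1) u v m ∧ Y = v * Gh (-1) u v m := by
  have hz := z_odd X Y z m hm hco h
  set A : GaussianInt := ⟨X, Y⟩ with hA
  set B : GaussianInt := ⟨X, -Y⟩ with hB
  have hAB : A * B = (z : GaussianInt) ^ (2 * m + 1) := by
    have h1 : A * B = ((X ^ 2 + Y ^ 2 : ℤ) : GaussianInt) := by
      apply Zsqrtd.ext
      · rw [Zsqrtd.re_intCast, Zsqrtd.re_mul, hA, hB]
        ring
      · rw [Zsqrtd.im_intCast, Zsqrtd.im_mul, hA, hB]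
        ring
    rw [h1, h]
    push_cast
    rfl
  have hcop : IsCoprime A B := by
    obtain ⟨r, s, hrs⟩ := hco
    have hz2 : IsCoprime (2 : ℤ) (z ^ (2 * m + 1)) := by
      apply IsCoprime.pow_right
      obtain ⟨k, hk⟩ := hz
      exact ⟨-k, 1, by rw [hk]; ring⟩
    obtain ⟨a, b, hab⟩ := hz2
    refine ⟨(a : GaussianInt) * (r - s * ⟨0, 1⟩) + b * B, (a : GaussianInt) * (r + s * ⟨0, 1⟩), ?_⟩
    have e1 : ((r : GaussianInt) - s * ⟨0, 1⟩) * A + (r + s * ⟨0, 1⟩) * B = 2 := by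
      have e3 : ((2 * (r * X + s * Y) : ℤ) : GaussianInt) = 2 := by rw [hrs]; simp
      rw [← e3]
      apply Zsqrtd.ext
      · simp [hA, hB]; ring
      · simp [hA, hB]; ring
    have e2 : (a : GaussianInt) * 2 + b * (z : GaussianInt) ^ (2 * m + 1) = 1 := by
      have := congrArg (Int.cast : ℤ → GaussianInt) hab
      push_cast at this
      exact this
    calc _ = (a : GaussianInt) * (((r : GaussianInt) - s * ⟨0, 1⟩) * A + (r + s * ⟨0, 1⟩) * B) +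
          b * (A * B) := by ring
      _ = 1 := by rw [e1, hAB, e2]
  obtain ⟨d, hd⟩ := exists_associated_pow_of_mul_eq_pow' hcop hAB
  obtain ⟨ε, hε⟩ := hd
  have hε4 := gi_unit (ε : GaussianInt) ε.isUnit
  have hεp : ((ε : GaussianInt) ^ (2 * m + 1)) ^ (2 * m + 1) = ε := by
    rw [← pow_mul]
    have : (2 * m + 1) * (2 * m + 1) = 4 * (m * m + m) + 1 := by ring
    rw [this, pow_succ, pow_mul, hε4, one_pow, one_mul]
  have hAp : A = (d * (ε : GaussianInt) ^ (2 * m + 1)) ^ (2 * m + 1) := by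
    rw [mul_pow, hεp, hε]
  rcases hw : d * (ε : GaussianInt) ^ (2 * m + 1) with ⟨u, v⟩
  rw [hw, gi_eta, pow_FG (δ := (-1 : GaussianInt)) (by
    apply Zsqrtd.ext
    · simp [pow_two]
    · simp [pow_two])] at hAp
  have hmap := map_FGh (Int.castRingHom GaussianInt) (-1) u v m
  simp only [eq_intCast, Int.cast_neg, Int.cast_one] at hmap
  rw [← hmap.1, ← hmap.2] at hAp
  refine ⟨u, v, ?_, ?_⟩
  · have := congrArg Zsqrtd.re hAp
    simpa [hA] using this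
  · have := congrArg Zsqrtd.im hAp
    simpa [hA] using this

end Pool.Agent.H573.AHB
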