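import Pool.Agent.H573.AHB.Wrap

/-!
`c² x^{2s} - d² y^{2s} = z^p`, `z` odd.
-/

namespace Pool.Agent.H573.AHB

open Filter

/-- the local part for `δ = ±1` -/
theorem gen_main (δ : ℤ) (hδ : δ.natAbs = 1) (p : ℕ) (hp : p.Prime) (hp2 : p ≠ 2) (c d : ℕ)
    (hc : 1 ≤ c) (hd : 1 ≤ d)
    (hpc : ¬ p ∣ c) (hpd : ¬ p ∣ d) (hsz : c ^ 2 + d ^ 2 < 2 ^ p) :
    ∀ᶠ X : ℕ in atTop, ∃ T : Finset ℕ, (X : ℝ) ^ (31 / 50 : ℝ) ≤ (T.card : ℝ) ∧
      ∀ s ∈ T, s.Prime ∧ s ≤ X ∧ ∀ m : ℕ, p = 2 * m + 1 → ∀ x y u v : ℤ, ¬ (p : ℤ) ∣ x →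
        ¬ (p : ℤ) ∣ y → IsCoprime ((c : ℤ) * x) ((d : ℤ) * y) →
        (c : ℤ) * x ^ s = u * Fh δ u v m → (d : ℤ) * y ^ s = v * Gh δ u v m → False := by
  classical
  obtain ⟨m, rfl⟩ : ∃ m, p = 2 * m + 1 := hp.odd_of_ne_two hp2
  have hm : 1 ≤ m := by
    have := hp.two_le
    omega
  have hδ0 : δ ≠ 0 := by
    rintro rfl
    simp at hδ
  have hδu : IsUnit δ := Int.isUnit_iff_natAbs_eq.mpr hδ
  set Bd : ℕ → ℕ → Prop := fun q n => ∃ i ∈ c.divisors ×ˢ d.divisors,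
    BadUV δ m i.1 i.2 1 (c / i.1) (d / i.2) q n with hBd
  have hSp : Sparse Bd := by
    apply Sparse.exists_mem
    rintro ⟨c', d'⟩ hi
    rw [Finset.mem_product] at hi
    obtain ⟨h1, h2⟩ := hi
    simp only at h1 h2
    have hc1 := Nat.dvd_of_mem_divisors h1
    have hd1 := Nat.dvd_of_mem_divisors h2
    have hc' : 1 ≤ c' := Nat.pos_of_dvd_of_pos hc1 hc
    have hd' : 1 ≤ d' := Nat.pos_of_dvd_of_pos hd1 hd
    have ec : c / c' * c' = c := Nat.div_mul_cancel hc1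
    have ed : d / d' * d' = d := Nat.div_mul_cancel hd1
    have hc'' : 1 ≤ c / c' := by
      rcases Nat.eq_zero_or_pos (c / c') with h | h
      · rw [h] at ec; omega
      · exact h
    have hd'' : 1 ≤ d / d' := by
      rcases Nat.eq_zero_or_pos (d / d') with h | h
      · rw [h] at ed; omega
      · exact h
    refine core_count δ m c' d' 1 (c / c') (d / d') hδ0 hm hc' hd' le_rfl hc'' hd'' hp
      ?_ ?_ ?_ ?_
    · intro h
      have h3 := Int.natAbs_dvd_natAbs.mpr h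
      rw [Int.natAbs_natCast, hδ] at h3
      have := Nat.le_of_dvd one_pos h3
      omega
    · have e1 : 1 ^ (4 * m) * ((c / c') ^ 2 * (1 ^ 2 * c' ^ 2) + δ.natAbs * d' ^ 2 * (d / d') ^ 2) =
          c ^ 2 + d ^ 2 := by
        rw [hδ]
        calc _ = (c / c' * c') ^ 2 + (d / d' * d') ^ 2 := by ring
          _ = _ := by rw [ec, ed]
      have e2 : 2 ^ (2 * m + 1) ≤ (1 ^ 2 * c' ^ 2 + δ.natAbs * d' ^ 2) ^ (2 * m + 1) := by
        rw [hδ]
        apply Nat.pow_le_pow_left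
        have : 1 ≤ c' ^ 2 := Nat.one_le_pow _ _ hc'
        have : 1 ≤ d' ^ 2 := Nat.one_le_pow _ _ hd'
        omega
      rw [e1]
      exact lt_of_lt_of_le hsz e2
    · intro h
      apply hpc
      have h3 : (2 * m + 1) ∣ c / c' := by
        rw [one_pow, one_mul] at h
        rw [h, mul_assoc]
        exact dvd_mul_right _ _
      rw [← ec]
      exact h3.mul_right _
    · intro h
      apply hpd
      have h3 : (2 * m + 1) ∣ d / d' := by
        rw [h]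
        exact dvd_mul_right _ _
      rw [← ed]
      exact h3.mul_right _
  filter_upwards [dens Bd hSp 2] with X hX
  obtain ⟨T, hT1, hT2⟩ := hX
  refine ⟨T, hT1, ?_⟩
  intro s hs
  obtain ⟨hsp, hs2, hsX, q, hq, hsq, hnb⟩ := hT2 s hs
  refine ⟨hsp, hsX, ?_⟩
  intro m' hm' x y u v hx hy hco hu hv
  obtain rfl : m = m' := by omega
  apply hnb
  have hsodd : Odd s := hsp.odd_of_ne_two (by omega)
  have hx0 : x ≠ 0 := by
    rintro rfl
    exact hx (dvd_zero _)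
  have hy0 : y ≠ 0 := by
    rintro rfl
    exact hy (dvd_zero _)
  have hco2 : IsCoprime ((c : ℤ) * x ^ s) ((d : ℤ) * y ^ s) := by
    have h1 : IsCoprime ((c : ℤ) * x ^ s) ((d : ℤ) * y) := by
      have e1 : IsCoprime (c : ℤ) ((d : ℤ) * y) := hco.of_mul_left_left
      have e2 : IsCoprime x ((d : ℤ) * y) := hco.of_mul_left_right
      exact e1.mul_left e2.pow_left
    exact h1.of_mul_right_left.mul_right h1.of_mul_right_right.pow_right
  have hpp : Prime ((2 * m + 1 : ℕ) : ℤ) := Nat.prime_iff_prime_int.mp hp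
  have huv : IsCoprime u v := by
    rw [hu, hv] at hco2
    exact hco2.of_mul_left_left.of_mul_right_left
  have hpu : ¬ ((2 * m + 1 : ℕ) : ℤ) ∣ u := by
    intro h
    have h1 : ((2 * m + 1 : ℕ) : ℤ) ∣ (c : ℤ) * x ^ s := by rw [hu]; exact h.mul_right _
    rcases hpp.dvd_or_dvd h1 with h2 | h2
    · exact hpc (Int.natCast_dvd_natCast.mp h2)
    · exact hx (hpp.dvd_of_dvd_pow h2)
  have hpv : ¬ ((2 * m + 1 : ℕ) : ℤ) ∣ v := by
    intro h
    have h1 : ((2 * m + 1 : ℕ) : ℤ) ∣ (d : ℤ) * y ^ s := by rw [hv]; exact h.mul_right _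
    rcases hpp.dvd_or_dvd h1 with h2 | h2
    · exact hpd (Int.natCast_dvd_natCast.mp h2)
    · exact hy (hpp.dvd_of_dvd_pow h2)
  have hF := cop_F m hp δ u v huv ⟨0, δ, by rw [Int.isUnit_mul_self hδu]; ring⟩ hpu
  have hG := cop_G m hp δ u v huv hpv
  obtain ⟨c', c'', hcc, w1, w3, e1, e3⟩ := split_pow c hc s hsodd x u _ hx0 hF hu.symm
  obtain ⟨d', d'', hdd, w2, w4, e2, e4⟩ := split_pow d hd s hsodd y v _ hy0 hG hv.symm
  have hc'0 : 0 < c' := by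
    rcases Nat.eq_zero_or_pos c' with h | h
    · rw [h, zero_mul] at hcc; omega
    · exact h
  have hd'0 : 0 < d' := by
    rcases Nat.eq_zero_or_pos d' with h | h
    · rw [h, zero_mul] at hdd; omega
    · exact h
  refine ⟨(c', d'), ?_, ?_⟩
  · rw [Finset.mem_product, Nat.mem_divisors, Nat.mem_divisors]
    exact ⟨⟨⟨c'', hcc.symm⟩, by omega⟩, ⟨⟨d'', hdd.symm⟩, by omega⟩⟩
  · have f1 : c / c' = c'' := by rw [← hcc, Nat.mul_div_cancel_left _ hc'0]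
    have f2 : d / d' = d'' := by rw [← hdd, Nat.mul_div_cancel_left _ hd'0]
    simp only
    rw [f1, f2]
    have hF1 : Fact q.Prime := ⟨hq⟩
    exact bad_of δ m c' d' 1 c'' d'' q s ((q - 1) / s) hq (Nat.mul_div_cancel' hsq)
      (by rw [Nat.cast_one]; exact one_ne_zero) u v w1 w2 w3 w4 huv e1
      (by rw [Nat.cast_one, one_mul]; exact e2) e3 e4

/-- descent for `X² - Y² = z^p`, `z` odd -/
lemma split_desc (X Y z : ℤ) (m : ℕ) (hco : IsCoprime X Y) (hz : Odd z)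
    (h : X ^ 2 - Y ^ 2 = z ^ (2 * m + 1)) :
    ∃ u v : ℤ, X = u * Fh 1 u v m ∧ Y = v * Gh 1 u v m := by
  have hprod : (X - Y) * (X + Y) = z ^ (2 * m + 1) := by rw [← h]; ring
  have hoz : Odd (z ^ (2 * m + 1)) := hz.pow
  rw [← hprod, Int.odd_mul] at hoz
  obtain ⟨ho1, ho2⟩ := hoz
  have hcop : IsCoprime (X - Y) (X + Y) := by
    have h2 : IsCoprime (X - Y) 2 := by
      obtain ⟨k, hk⟩ := ho1
      exact ⟨1, -k, by rw [hk]; ring⟩
    have h3 : IsCoprime (X - Y) X := by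
      obtain ⟨a, b, hab⟩ := hco
      exact ⟨-b, a + b, by rw [← hab]; ring⟩
    have h4 : IsCoprime (X - Y) (2 * X) := h2.mul_right h3
    obtain ⟨a, b, hab⟩ := h4
    exact ⟨a + b, b, by rw [← hab]; ring⟩
  obtain ⟨⟨A, hA⟩, B, hB⟩ := Int.eq_pow_of_mul_eq_pow_odd hcop ⟨m, rfl⟩ hprod
  have hAo : Odd A := by
    rw [hA] at ho1
    by_contra hcon
    rw [Int.not_odd_iff_even] at hcon
    have : Even (A ^ (2 * m + 1)) := hcon.pow_of_ne_zero (by omega)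
    exact (Int.not_even_iff_odd.mpr ho1) this
  have hBo : Odd B := by
    rw [hB] at ho2
    by_contra hcon
    rw [Int.not_odd_iff_even] at hcon
    have : Even (B ^ (2 * m + 1)) := hcon.pow_of_ne_zero (by omega)
    exact (Int.not_even_iff_odd.mpr ho2) this
  obtain ⟨u, hu⟩ := hAo.add_odd hBo
  obtain ⟨v, hv⟩ := hBo.sub_odd hAo
  have hB' : B = u + 1 * v := by linarith
  have hA' : A = u - 1 * v := by linarith
  have e1 := pow_FG (δ := (1 : ℤ)) (ω := 1) (by norm_num) u v m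
  have e2 := pow_FG' (δ := (1 : ℤ)) (ω := 1) (by norm_num) u v m
  rw [← hB', ← hB] at e1
  rw [← hA', ← hA] at e2
  refine ⟨u, v, ?_, ?_⟩ <;> linarith

theorem diff_main (p : ℕ) (hp : p.Prime) (hp2 : p ≠ 2) (c d : ℕ) (hc : 1 ≤ c) (hd : 1 ≤ d)
    (hpc : ¬ p ∣ c) (hpd : ¬ p ∣ d) (hsz : c ^ 2 + d ^ 2 < 2 ^ p) :
    ∀ᶠ X : ℕ in atTop, ∃ T : Finset ℕ, (X : ℝ) ^ (31 / 50 : ℝ) ≤ (T.card : ℝ) ∧
      ∀ s ∈ T, s.Prime ∧ s ≤ X ∧ ∀ x y z : ℤ, Odd z → ¬ (p : ℤ) ∣ x → ¬ (p : ℤ) ∣ y →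
        IsCoprime ((c : ℤ) * x) ((d : ℤ) * y) →
        (c : ℤ) ^ 2 * x ^ (2 * s) - (d : ℤ) ^ 2 * y ^ (2 * s) ≠ z ^ p := by
  filter_upwards [gen_main 1 rfl p hp hp2 c d hc hd hpc hpd hsz] with X hX
  obtain ⟨T, hT1, hT2⟩ := hX
  refine ⟨T, hT1, ?_⟩
  intro s hs
  obtain ⟨hsp, hsX, hno⟩ := hT2 s hs
  refine ⟨hsp, hsX, ?_⟩
  intro x y z hz hx hy hco heq
  obtain ⟨m, rfl⟩ : ∃ m, p = 2 * m + 1 := hp.odd_of_ne_two hp2
  have hco2 : IsCoprime ((c : ℤ) * x ^ s) ((d : ℤ) * y ^ s) := by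
    have h1 : IsCoprime ((c : ℤ) * x ^ s) ((d : ℤ) * y) := by
      have e1 : IsCoprime (c : ℤ) ((d : ℤ) * y) := hco.of_mul_left_left
      have e2 : IsCoprime x ((d : ℤ) * y) := hco.of_mul_left_right
      exact e1.mul_left e2.pow_left
    exact h1.of_mul_right_left.mul_right h1.of_mul_right_right.pow_right
  obtain ⟨u, v, hu, hv⟩ := split_desc ((c : ℤ) * x ^ s) ((d : ℤ) * y ^ s) z m hco2 hz (by
    rw [← heq]
    ring)
  exact hno m rfl x y u v hx hy hco hu hv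

end Pool.Agent.H573.AHB
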