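import Pool.Agent.H573.AHB.UnF

/-!
Almost all integers have a large prime factor in a set of primes of positive logarithmic
proportion.
-/

set_option autoImplicit false

namespace Pool.Agent.H573.AHB

open Finset Filter

/-- the second moment of the number of prime factors in `P` -/
lemma second_moment (P : Finset ℕ) (hP : ∀ s ∈ P, s.Prime) (X : ℕ) (hcard : P.card ≤ X) (E : ℝ)
    (hE : E = ∑ s ∈ P, (1 : ℝ) / s) :
    (((Ioc 0 X).filter (fun N => ∀ s ∈ P, ¬ s ∣ N)).card : ℝ) * E ^ 2 ≤ 3 * X * E := by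
  classical
  have hE0 : 0 ≤ E := by rw [hE]; exact sum_nonneg (fun s _ => by positivity)
  have hX0 : (0 : ℝ) ≤ X := Nat.cast_nonneg X
  have hcard' : (P.card : ℝ) ≤ X := by exact_mod_cast hcard
  obtain ⟨f, hf⟩ : ∃ f : ℕ → ℕ → ℝ, f = fun s N => if s ∣ N then 1 else 0 := ⟨_, rfl⟩
  obtain ⟨w, hw⟩ : ∃ w : ℕ → ℝ, w = fun N => ∑ s ∈ P, f s N := ⟨_, rfl⟩
  have hcnt : ∀ d : ℕ, ∑ N ∈ Ioc 0 X, f d N = ((X / d : ℕ) : ℝ) := by
    intro d
    rw [hf]
    simp only
    rw [← Finset.sum_filter, Finset.sum_const, nsmul_eq_mul, mul_one, Nat.Ioc_filter_dvd_card_eq_div]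
  have hdiv : ∀ d : ℕ, ((X / d : ℕ) : ℝ) ≤ (X : ℝ) / d := fun d => Nat.cast_div_le
  -- first moment
  have h1 : X * E - P.card ≤ ∑ N ∈ Ioc 0 X, w N := by
    rw [hw]
    simp only
    rw [Finset.sum_comm]
    have e1 : ∀ s ∈ P, (X : ℝ) / s - 1 ≤ ∑ N ∈ Ioc 0 X, f s N := by
      intro s hs
      rw [hcnt]
      have := Nat.lt_floor_add_one ((X : ℝ) / s)
      rw [Nat.floor_div_natCast, Nat.floor_natCast] at this
      linarith
    calc X * E - P.card = ∑ s ∈ P, ((X : ℝ) / s - 1) := by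
          rw [Finset.sum_sub_distrib, Finset.sum_const, nsmul_eq_mul, mul_one, hE, Finset.mul_sum]
          congr 1
          apply Finset.sum_congr rfl
          intro s _
          ring
      _ ≤ _ := Finset.sum_le_sum e1
  -- second moment
  have h2 : ∑ N ∈ Ioc 0 X, (w N) ^ 2 ≤ X * E ^ 2 + X * E := by
    have e1 : ∀ N, (w N) ^ 2 = ∑ s ∈ P, ∑ t ∈ P, f s N * f t N := by
      intro N
      rw [hw, pow_two]
      simp only
      rw [Finset.sum_mul_sum]
    have e2 : ∑ N ∈ Ioc 0 X, (w N) ^ 2 = ∑ s ∈ P, ∑ t ∈ P, ∑ N ∈ Ioc 0 X, f s N * f t N := by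
      rw [Finset.sum_congr rfl (fun N _ => e1 N), Finset.sum_comm]
      apply Finset.sum_congr rfl
      intro s _
      rw [Finset.sum_comm]
    have e3 : ∀ s ∈ P, ∀ t ∈ P, ∑ N ∈ Ioc 0 X, f s N * f t N ≤
        X * ((1 : ℝ) / s * (1 / t)) + (if s = t then (X : ℝ) / s else 0) := by
      intro s hs t ht
      have hs0 : (0 : ℝ) < s := by exact_mod_cast (hP s hs).pos
      have ht0 : (0 : ℝ) < t := by exact_mod_cast (hP t ht).pos
      by_cases hst : s = t
      · subst hst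
        rw [if_pos rfl]
        have e4 : ∀ N, f s N * f s N = f s N := by
          intro N
          rw [hf]
          simp only
          split_ifs <;> norm_num
        rw [Finset.sum_congr rfl (fun N _ => e4 N), hcnt]
        have := hdiv s
        have : 0 ≤ X * ((1 : ℝ) / s * (1 / s)) := by positivity
        linarith
      · rw [if_neg hst, add_zero]
        have hco : Nat.Coprime s t := (Nat.coprime_primes (hP s hs) (hP t ht)).mpr hst
        have e4 : ∀ N, f s N * f t N = f (s * t) N := by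
          intro N
          rw [hf]
          simp only
          have : s * t ∣ N ↔ s ∣ N ∧ t ∣ N :=
            ⟨fun h => ⟨(dvd_mul_right s t).trans h, (dvd_mul_left t s).trans h⟩,
              fun h => hco.mul_dvd_of_dvd_of_dvd h.1 h.2⟩
          by_cases h1 : s ∣ N <;> by_cases h2 : t ∣ N <;> simp [h1, h2, this]
        rw [Finset.sum_congr rfl (fun N _ => e4 N), hcnt]
        refine (hdiv _).trans (le_of_eq ?_)
        push_cast
        field_simp
    calc ∑ N ∈ Ioc 0 X, (w N) ^ 2 = ∑ s ∈ P, ∑ t ∈ P, ∑ N ∈ Ioc 0 X, f s N * f t N := e2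
      _ ≤ ∑ s ∈ P, ∑ t ∈ P, (X * ((1 : ℝ) / s * (1 / t)) + (if s = t then (X : ℝ) / s else 0)) :=
          Finset.sum_le_sum (fun s hs => Finset.sum_le_sum (fun t ht => e3 s hs t ht))
      _ = X * E ^ 2 + X * E := by
          have g1 : ∀ s ∈ P, ∑ t ∈ P, (X * ((1 : ℝ) / s * (1 / t)) +
              (if s = t then (X : ℝ) / s else 0)) = X * (1 / s * E) + (X : ℝ) / s := by
            intro s hs
            rw [Finset.sum_add_distrib, Finset.sum_ite_eq, if_pos hs, ← Finset.mul_sum,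
              ← Finset.mul_sum, ← hE]
          rw [Finset.sum_congr rfl g1, Finset.sum_add_distrib, ← Finset.mul_sum, ← Finset.sum_mul,
            ← hE]
          congr 1
          · ring
          · rw [hE, Finset.mul_sum]
            apply Finset.sum_congr rfl
            intro s _
            ring
  -- the variance
  have h3 : ∑ N ∈ Ioc 0 X, (w N - E) ^ 2 ≤ 3 * X * E := by
    have e1 : ∑ N ∈ Ioc 0 X, (w N - E) ^ 2 =
        ∑ N ∈ Ioc 0 X, (w N) ^ 2 - 2 * E * ∑ N ∈ Ioc 0 X, w N + X * E ^ 2 := by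
      have g1 : ∀ N ∈ Ioc 0 X, (w N - E) ^ 2 = (w N) ^ 2 - 2 * E * w N + E ^ 2 := by
        intro N _
        ring
      rw [Finset.sum_congr rfl g1, Finset.sum_add_distrib, Finset.sum_sub_distrib,
        Finset.sum_const, Nat.card_Ioc, nsmul_eq_mul, ← Finset.mul_sum, Nat.sub_zero]
    rw [e1]
    have g2 : 2 * E * (X * E - P.card) ≤ 2 * E * ∑ N ∈ Ioc 0 X, w N :=
      mul_le_mul_of_nonneg_left h1 (by positivity)
    have g3 : 2 * E * P.card ≤ 2 * E * X := mul_le_mul_of_nonneg_left hcard' (by positivity)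
    nlinarith
  refine le_trans ?_ h3
  calc (((Ioc 0 X).filter (fun N => ∀ s ∈ P, ¬ s ∣ N)).card : ℝ) * E ^ 2
      = ∑ N ∈ (Ioc 0 X).filter (fun N => ∀ s ∈ P, ¬ s ∣ N), (w N - E) ^ 2 := by
        have g1 : ∀ N ∈ (Ioc 0 X).filter (fun N => ∀ s ∈ P, ¬ s ∣ N), (w N - E) ^ 2 = E ^ 2 := by
          intro N hN
          rw [mem_filter] at hN
          have : w N = 0 := by
            rw [hw]
            apply Finset.sum_eq_zero
            intro s hs
            rw [hf]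
            simp only
            rw [if_neg (hN.2 s hs)]
          rw [this]
          ring
        rw [Finset.sum_congr rfl g1, Finset.sum_const, nsmul_eq_mul]
    _ ≤ _ := Finset.sum_le_sum_of_subset_of_nonneg (filter_subset _ _) (fun _ _ _ => sq_nonneg _)

/-- Almost all integers have a large prime factor in `S`. -/
theorem almost_factor (S : Set ℕ) (hS : ∀ s ∈ S, s.Prime) (c : ℝ) (hc : 0 < c) (X₀ : ℕ)
    (h : ∀ X : ℕ, X₀ ≤ X → c ≤ invSum S X) (η : ℝ) (hη : 0 < η) :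
    ∃ κ : ℝ, 0 < κ ∧ κ ≤ 1 ∧ ∃ X₁ : ℕ, ∀ X : ℕ, X₁ ≤ X →
      (Set.ncard {N : ℕ | N ≤ X ∧ ¬ ∃ s ∈ S, s ∣ N ∧ (N : ℝ) ^ κ ≤ s} : ℝ) ≤ η * X := by
  classical
  obtain ⟨K, hK⟩ : ∃ K : ℕ, 6 / (c * η) < K := exists_nat_gt _
  have hK0 : (0 : ℝ) < K := lt_trans (by positivity) hK
  obtain ⟨r, hr⟩ : ∃ r : ℕ → ℝ, r = fun k => (1 / 2 : ℝ) ^ (k + 1) := ⟨_, rfl⟩
  have hr0 : ∀ k, 0 < r k := by intro k; rw [hr]; positivity
  have hr1 : ∀ k, r k ≤ 1 / 2 := by
    intro k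
    rw [hr]
    simp only
    rw [pow_succ]
    have : (1 / 2 : ℝ) ^ k ≤ 1 := pow_le_one₀ (by norm_num) (by norm_num)
    linarith
  have hrs : ∀ k, r (k + 1) = r k / 2 := by
    intro k
    rw [hr]
    simp only
    rw [pow_succ]
    ring
  have hranti : ∀ i j, i ≤ j → r j ≤ r i := by
    intro i j hij
    rw [hr]
    exact pow_le_pow_of_le_one (by norm_num) (by norm_num) (by omega)
  obtain ⟨Y, hY⟩ : ∃ Y : ℕ → ℕ → ℕ, Y = fun (X : ℕ) k => ⌊(X : ℝ) ^ (r k)⌋₊ := ⟨_, rfl⟩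
  -- the conditions for one window
  have hev : ∀ k : ℕ, ∀ᶠ X : ℕ in atTop, X₀ ≤ Y X k ∧
      (X : ℝ) ^ (9 / 16 * r k) ≤ (Y X k : ℝ) ^ (5 / 8 : ℝ) := by
    intro k
    have t1 : Tendsto (fun X : ℕ => (X : ℝ) ^ (r k)) atTop atTop :=
      (tendsto_rpow_atTop (hr0 k)).comp tendsto_natCast_atTop_atTop
    have t2 : Tendsto (fun X : ℕ => (X : ℝ) ^ (r k / 16)) atTop atTop :=
      (tendsto_rpow_atTop (by have := hr0 k; positivity)).comp tendsto_natCast_atTop_atTop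
    filter_upwards [t1.eventually_ge_atTop ((X₀ : ℝ) + 2), t2.eventually_ge_atTop 2,
      eventually_ge_atTop 1] with X g1 g2 g3
    have hX1 : (1 : ℝ) ≤ X := by exact_mod_cast g3
    have hX0 : (0 : ℝ) ≤ X := by linarith
    have hYe : Y X k = ⌊(X : ℝ) ^ (r k)⌋₊ := by rw [hY]
    constructor
    · rw [hYe]
      apply Nat.le_floor
      linarith
    · have h1 : (X : ℝ) ^ (r k) / 2 ≤ Y X k := by
        have := Nat.lt_floor_add_one ((X : ℝ) ^ (r k))
        rw [← hYe] at this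
        have h0 : (0 : ℝ) ≤ X₀ := Nat.cast_nonneg _
        linarith
      have h2 : (X : ℝ) ^ (15 / 16 * r k) ≤ Y X k := by
        refine le_trans ?_ h1
        have e1 : (X : ℝ) ^ (r k) = (X : ℝ) ^ (15 / 16 * r k) * (X : ℝ) ^ (r k / 16) := by
          rw [← Real.rpow_add (by linarith)]
          congr 1
          ring
        rw [e1]
        have e2 : 0 ≤ (X : ℝ) ^ (15 / 16 * r k) := Real.rpow_nonneg hX0 _
        nlinarith
      calc (X : ℝ) ^ (9 / 16 * r k) ≤ (X : ℝ) ^ (15 / 16 * r k * (5 / 8)) := by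
            apply Real.rpow_le_rpow_of_exponent_le hX1
            have := hr0 k
            linarith
        _ = ((X : ℝ) ^ (15 / 16 * r k)) ^ (5 / 8 : ℝ) := by rw [Real.rpow_mul hX0]
        _ ≤ (Y X k : ℝ) ^ (5 / 8 : ℝ) :=
            Real.rpow_le_rpow (Real.rpow_nonneg hX0 _) h2 (by norm_num)
  obtain ⟨κ, hκ⟩ : ∃ κ : ℝ, κ = 9 / 16 * r K := ⟨_, rfl⟩
  have hκ0 : 0 < κ := by rw [hκ]; have := hr0 K; positivity
  have hall : ∀ᶠ X : ℕ in atTop, ∀ k ∈ range K, X₀ ≤ Y X k ∧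
      (X : ℝ) ^ (9 / 16 * r k) ≤ (Y X k : ℝ) ^ (5 / 8 : ℝ) := by
    rw [Filter.eventually_all_finset]
    intro k _
    exact hev k
  have hlast : ∀ᶠ X : ℕ in atTop, 2 / η ≤ (X : ℝ) :=
    tendsto_natCast_atTop_atTop.eventually_ge_atTop _
  obtain ⟨X₁, hX₁⟩ := eventually_atTop.mp (hall.and (hlast.and (eventually_ge_atTop 2)))
  refine ⟨κ, hκ0, by rw [hκ]; have := hr1 K; linarith, X₁, ?_⟩
  intro X hX
  obtain ⟨hw, hXη, hX2⟩ := hX₁ X hX
  have hX1 : (1 : ℝ) < X := by exact_mod_cast (by omega : 1 < X)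
  have hX0 : (0 : ℝ) ≤ X := by linarith
  obtain ⟨W, hW⟩ : ∃ W : ℕ → Finset ℕ, W = fun k => (Finset.range (Y X k + 1)).filter
      (fun s => s ∈ S ∧ (Y X k : ℝ) ^ (5 / 8 : ℝ) ≤ s) := ⟨_, rfl⟩
  have hWmem : ∀ k s, s ∈ W k ↔ s ≤ Y X k ∧ s ∈ S ∧ (Y X k : ℝ) ^ (5 / 8 : ℝ) ≤ s := by
    intro k s
    rw [hW, mem_filter, mem_range, Nat.lt_succ_iff]
  have hYle : ∀ k, (Y X k : ℝ) ≤ (X : ℝ) ^ (r k) := by
    intro k
    rw [hY]
    exact Nat.floor_le (Real.rpow_nonneg hX0 _)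
  have hWsum : ∀ k ∈ range K, c ≤ ∑ s ∈ W k, (1 : ℝ) / s := by
    intro k hk
    refine (h (Y X k) (hw k hk).1).trans (le_of_eq ?_)
    unfold invSum
    have e1 : {s : ℕ | s ∈ S ∧ (Y X k : ℝ) ^ (5 / 8 : ℝ) ≤ s ∧ s ≤ Y X k} = ↑(W k) := by
      ext s
      rw [Finset.mem_coe, hWmem, Set.mem_ofPred_eq]
      tauto
    rw [e1, finsum_mem_coe_finset]
  have hdisj : (↑(range K) : Set ℕ).PairwiseDisjoint W := by
    have key : ∀ i j, i ∈ range K → i < j → Disjoint (W i) (W j) := by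
      intro i j hi hij
      rw [Finset.disjoint_left]
      intro s hs1 hs2
      rw [hWmem] at hs1 hs2
      have h1 : (s : ℝ) ≤ (X : ℝ) ^ (r i / 2) := by
        have e1 : (s : ℝ) ≤ Y X j := by exact_mod_cast hs2.1
        refine e1.trans ((hYle j).trans ?_)
        apply Real.rpow_le_rpow_of_exponent_le hX1.le
        rw [← hrs]
        exact hranti _ _ hij
      have h2 : (X : ℝ) ^ (9 / 16 * r i) ≤ s := (hw i hi).2.trans hs1.2.2
      have h3 : (X : ℝ) ^ (r i / 2) < (X : ℝ) ^ (9 / 16 * r i) := by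
        apply Real.rpow_lt_rpow_of_exponent_lt hX1
        have := hr0 i
        linarith
      linarith
    intro i hi j hj hij
    rcases Nat.lt_or_gt_of_ne hij with h1 | h1
    · exact key i j (Finset.mem_coe.mp hi) h1
    · exact (key j i (Finset.mem_coe.mp hj) h1).symm
  obtain ⟨P, hP⟩ : ∃ P : Finset ℕ, P = (range K).biUnion W := ⟨_, rfl⟩
  have hPmem : ∀ s ∈ P, s ∈ S ∧ (X : ℝ) ^ κ ≤ s ∧ s ≤ X := by
    intro s hs
    rw [hP, mem_biUnion] at hs
    obtain ⟨k, hk, hs⟩ := hs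
    rw [hWmem] at hs
    refine ⟨hs.2.1, ?_, ?_⟩
    · refine le_trans ?_ ((hw k hk).2.trans hs.2.2)
      rw [hκ]
      apply Real.rpow_le_rpow_of_exponent_le hX1.le
      have := hranti k K (mem_range.mp hk).le
      linarith
    · have e1 : (s : ℝ) ≤ X := by
        have e2 : (s : ℝ) ≤ Y X k := by exact_mod_cast hs.1
        refine e2.trans ((hYle k).trans ?_)
        calc (X : ℝ) ^ (r k) ≤ (X : ℝ) ^ (1 : ℝ) := by
              apply Real.rpow_le_rpow_of_exponent_le hX1.le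
              have := hr1 k
              linarith
          _ = X := Real.rpow_one _
      exact_mod_cast e1
  obtain ⟨E, hE⟩ : ∃ E : ℝ, E = ∑ s ∈ P, (1 : ℝ) / s := ⟨_, rfl⟩
  have hEK : c * K ≤ E := by
    rw [hE, hP, Finset.sum_biUnion hdisj]
    calc c * K = ∑ _k ∈ range K, c := by rw [Finset.sum_const, card_range, nsmul_eq_mul, mul_comm]
      _ ≤ _ := Finset.sum_le_sum hWsum
  have hE0 : 0 < E := lt_of_lt_of_le (by positivity) hEK
  have hcard : P.card ≤ X := by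
    have : P ⊆ Icc 1 X := by
      intro s hs
      obtain ⟨g1, -, g3⟩ := hPmem s hs
      rw [mem_Icc]
      exact ⟨(hS s g1).pos, g3⟩
    calc P.card ≤ (Icc 1 X).card := card_le_card this
      _ = X := by rw [Nat.card_Icc]; omega
  have hmain := second_moment P (fun s hs => hS s (hPmem s hs).1) X hcard E hE
  have hsub : {N : ℕ | N ≤ X ∧ ¬ ∃ s ∈ S, s ∣ N ∧ (N : ℝ) ^ κ ≤ s} ⊆
      ↑(insert 0 ((Ioc 0 X).filter (fun N => ∀ s ∈ P, ¬ s ∣ N))) := by
    rintro N ⟨hN, hno⟩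
    rw [Finset.mem_coe, mem_insert]
    rcases Nat.eq_zero_or_pos N with h0 | h0
    · exact Or.inl h0
    · right
      rw [mem_filter, mem_Ioc]
      refine ⟨⟨h0, hN⟩, ?_⟩
      intro s hs hsN
      apply hno
      obtain ⟨g1, g2, -⟩ := hPmem s hs
      refine ⟨s, g1, hsN, le_trans ?_ g2⟩
      exact Real.rpow_le_rpow (Nat.cast_nonneg _) (by exact_mod_cast hN) hκ0.le
  have hcount : (Set.ncard {N : ℕ | N ≤ X ∧ ¬ ∃ s ∈ S, s ∣ N ∧ (N : ℝ) ^ κ ≤ s} : ℝ) ≤
      1 + (((Ioc 0 X).filter (fun N => ∀ s ∈ P, ¬ s ∣ N)).card : ℝ) := by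
    have h1 := Set.ncard_le_ncard hsub (Finset.finite_toSet _)
    rw [Set.ncard_coe_finset] at h1
    have h2 := Finset.card_insert_le 0 ((Ioc 0 X).filter (fun N => ∀ s ∈ P, ¬ s ∣ N))
    have h3 : (Set.ncard {N : ℕ | N ≤ X ∧ ¬ ∃ s ∈ S, s ∣ N ∧ (N : ℝ) ^ κ ≤ s}) ≤
      1 + ((Ioc 0 X).filter (fun N => ∀ s ∈ P, ¬ s ∣ N)).card := by omega
    exact_mod_cast h3
  refine hcount.trans ?_
  have h4 : (((Ioc 0 X).filter (fun N => ∀ s ∈ P, ¬ s ∣ N)).card : ℝ) ≤ 3 * X / E := by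
    rw [le_div_iff₀ hE0]
    have h5 : (((Ioc 0 X).filter (fun N => ∀ s ∈ P, ¬ s ∣ N)).card : ℝ) * E * E ≤ 3 * X * E := by
      rw [mul_assoc, ← pow_two]
      exact hmain
    exact le_of_mul_le_mul_right h5 hE0
  have h6 : 3 * X / E ≤ η / 2 * X := by
    rw [div_le_iff₀ hE0]
    have h7 : 6 < c * η * K := by
      rw [div_lt_iff₀ (by positivity)] at hK
      linarith
    have h8 : 6 ≤ η * E := by nlinarith
    nlinarith
  have h9 : 1 ≤ η / 2 * X := by
    rw [div_le_iff₀ hη] at hXη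
    linarith
  linarith

end Pool.Agent.H573.AHB
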