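import Pool.Agent.H573.AHB.DnA

/-!
From a set of primes `s` of positive logarithmic proportion to almost all integers `N`.
-/

set_option autoImplicit false

namespace Pool.Agent.H573.AHB

open Finset Filter

/-- removing small elements does not change `invSum` -/
lemma invSum_large (S : Set ℕ) (s₀ X : ℕ) (hX : (s₀ : ℝ) ≤ (X : ℝ) ^ (5 / 8 : ℝ)) :
    invSum S X = invSum {s | s ∈ S ∧ s₀ ≤ s} X := by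
  unfold invSum
  congr 1
  ext s
  have : (s ∈ {s : ℕ | s ∈ S ∧ (X : ℝ) ^ (5 / 8 : ℝ) ≤ s ∧ s ≤ X}) ↔
      (s ∈ {s : ℕ | s ∈ {s | s ∈ S ∧ s₀ ≤ s} ∧ (X : ℝ) ^ (5 / 8 : ℝ) ≤ s ∧ s ≤ X}) := by
    simp only [Set.mem_ofPred_eq]
    constructor
    · rintro ⟨h1, h2, h3⟩
      refine ⟨⟨h1, ?_⟩, h2, h3⟩
      exact_mod_cast hX.trans h2
    · rintro ⟨⟨h1, -⟩, h2, h3⟩
      exact ⟨h1, h2, h3⟩
  rw [this]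

/-- **Transfer to almost all integers.** -/
theorem almost_all_of (S : Set ℕ) (hS : ∀ s ∈ S, s.Prime)
    (hdens : ∃ c : ℝ, 0 < c ∧ ∃ X₀ : ℕ, ∀ X : ℕ, X₀ ≤ X → c ≤ invSum S X)
    (Q : ℝ → ℕ → Prop) (δ : ℝ) (hδ : 0 < δ) (s₀ : ℕ)
    (hQ : ∀ s ∈ S, s₀ ≤ s → ∀ N, s ∣ N → Q ((s : ℝ) ^ δ) N)
    (hmono : ∀ z z' N, z ≤ z' → Q z' N → Q z N) :
    ∀ η : ℝ, 0 < η → ∃ κ : ℝ, 0 < κ ∧ ∃ X₁ : ℕ, ∀ X : ℕ, X₁ ≤ X →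
      (Set.ncard {N : ℕ | N ≤ X ∧ ¬ Q ((N : ℝ) ^ κ) N} : ℝ) ≤ η * X := by
  intro η hη
  obtain ⟨c, hc, X₀, hX₀⟩ := hdens
  have hev : ∀ᶠ X : ℕ in atTop, (s₀ : ℝ) ≤ (X : ℝ) ^ (5 / 8 : ℝ) :=
    ((tendsto_rpow_atTop (by norm_num : (0 : ℝ) < 5 / 8)).comp
      tendsto_natCast_atTop_atTop).eventually_ge_atTop _
  obtain ⟨X₂, hX₂⟩ := eventually_atTop.mp hev
  obtain ⟨κ, hκ0, hκ1, X₁, hX₁⟩ := almost_factor {s | s ∈ S ∧ s₀ ≤ s} (fun s hs => hS s hs.1) c hc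
    (max X₀ X₂) (fun X hX => by
      rw [← invSum_large S s₀ X (hX₂ X ((le_max_right _ _).trans hX))]
      exact hX₀ X ((le_max_left _ _).trans hX)) η hη
  refine ⟨κ * δ, mul_pos hκ0 hδ, X₁, ?_⟩
  intro X hX
  refine le_trans ?_ (hX₁ X hX)
  have hfin : {N : ℕ | N ≤ X ∧ ¬ ∃ s ∈ {s | s ∈ S ∧ s₀ ≤ s}, s ∣ N ∧ (N : ℝ) ^ κ ≤ s}.Finite :=
    (Set.finite_Iic X).subset (fun N hN => hN.1)
  have hsub : {N : ℕ | N ≤ X ∧ ¬ Q ((N : ℝ) ^ (κ * δ)) N} ⊆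
      {N : ℕ | N ≤ X ∧ ¬ ∃ s ∈ {s | s ∈ S ∧ s₀ ≤ s}, s ∣ N ∧ (N : ℝ) ^ κ ≤ s} := by
    rintro N ⟨hN, hno⟩
    refine ⟨hN, ?_⟩
    rintro ⟨s, ⟨hsS, hs0⟩, hsN, hle⟩
    apply hno
    refine hmono _ ((s : ℝ) ^ δ) N ?_ (hQ s hsS hs0 N hsN)
    rw [Real.rpow_mul (Nat.cast_nonneg N)]
    exact Real.rpow_le_rpow (Real.rpow_nonneg (Nat.cast_nonneg N) _) hle hδ.le
  exact_mod_cast Set.ncard_le_ncard hsub hfin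

end Pool.Agent.H573.AHB
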