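import Pool.Agent.H573.AHB.Odd2

/-!
One set of primes `s` for all pairs `(p, r)`; assembling the local theorems.
-/

namespace Pool.Agent.H573.AHB

open Polynomial Filter

/-- the admissible pairs -/
def PR (m l : ℕ) : Prop := 1 ≤ m ∧ 1 ≤ l ∧ (2 * m + 1).Prime ∧ (2 * l + 1).Prime ∧ m ≠ l

open Classical in
/-- a choice of `Ψ` -/
noncomputable def psiOf (δ : ℤ) (m l : ℕ) : ℤ[X] :=
  if h : ∃ ψ, IsPsi δ m l ψ then h.choose else 0

lemma psiOf_spec (δ : ℤ) (hδ : δ ≠ 0) (m l : ℕ) (h : PR m l) : IsPsi δ m l (psiOf δ m l) := by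
  have hex : ∃ ψ, IsPsi δ m l ψ := exists_psi δ hδ m l
    ((Nat.coprime_primes h.2.2.1 h.2.2.2.1).mpr (by have := h.2.2.2.2; omega))
  unfold psiOf
  rw [dif_pos hex]
  exact hex.choose_spec

/-- one set of primes for a family indexed by pairs -/
theorem pairs_family (V : ℕ → ℕ → Prop) (W : ℕ → ℕ → ℕ → ℕ → Prop)
    (hW : ∀ m l, V m l → Sparse (W m l)) :
    ∃ S : Set ℕ, (∀ s ∈ S, s.Prime ∧ 2 < s) ∧
      (∃ X₀ : ℕ, ∀ X : ℕ, X₀ ≤ X → (X : ℝ) ^ (31 / 50 : ℝ) ≤ ((S ∩ Set.Iic X).ncard : ℝ)) ∧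
      ∀ m l, V m l → ∀ᶠ s in atTop, s ∈ S → ∃ q, q.Prime ∧ 2 * m + 1 < q ∧ s ∣ q - 1 ∧
        ¬ W m l q ((q - 1) / s) := by
  classical
  obtain ⟨S, hS1, hS2, hS3⟩ := diag
    (fun i q n => V i.unpair.1 i.unpair.2 ∧ W i.unpair.1 i.unpair.2 q n) (by
    intro i
    by_cases h : V i.unpair.1 i.unpair.2
    · exact (hW _ _ h).mono (fun q n hqn => hqn.2)
    · exact Sparse.false.mono (fun q n hqn => h hqn.1)) 2
  refine ⟨S, hS1, hS2, ?_⟩
  intro m l hV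
  have h1 := hS3 (Nat.pair m l)
  filter_upwards [h1, eventually_gt_atTop (2 * m + 1)] with s hs hsm hsS
  obtain ⟨q, hq, hsq, hnb⟩ := hs hsS
  simp only [Nat.unpair_pair] at hnb
  refine ⟨q, hq, ?_, hsq, fun h => hnb ⟨hV, h⟩⟩
  have := hq.two_le
  have := Nat.le_of_dvd (by omega) hsq
  omega

/-- from pairs of primes to all `k` -/
lemma eventually_pairs (V : ℕ → ℕ → Prop) (k : ℕ) (P : ℕ → ℕ → ℕ → Prop) (S : Set ℕ)
    (h : ∀ m l, V m l → ∀ᶠ s in atTop, s ∈ S → P m l s) :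
    ∀ᶠ s in atTop, s ∈ S → ∀ m l, V m l → m ≤ k → l ≤ k → P m l s := by
  classical
  have h1 : ∀ᶠ s in atTop, ∀ i ∈ (Finset.range (k + 1) ×ˢ Finset.range (k + 1)),
      s ∈ S → V i.1 i.2 → P i.1 i.2 s := by
    rw [Filter.eventually_all_finset]
    rintro ⟨m, l⟩ _
    by_cases hPR : V m l
    · filter_upwards [h m l hPR] with s hs hsS _
      exact hs hsS
    · filter_upwards with s _ h2
      exact absurd h2 hPR
  filter_upwards [h1] with s hs hsS m l hPR hm hl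
  exact hs (m, l) (Finset.mem_product.mpr ⟨Finset.mem_range.mpr (by omega),
    Finset.mem_range.mpr (by omega)⟩) hsS hPR

/-- the reduction from odd `k` to pairs of primes -/
lemma all_or_none (k : ℕ) (hk : Odd k) (x : ℕ)
    (h : ∀ m l, PR m l → (2 * m + 1) * (2 * l + 1) ∣ k → 2 * m + 1 ∣ x → ¬ 2 * l + 1 ∣ x → False) :
    Nat.Coprime x k ∨ ∀ p, p.Prime → p ∣ k → p ∣ x := by
  by_contra hcon
  push Not at hcon
  obtain ⟨h1, r, hr, hrk, hrx⟩ := hcon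
  obtain ⟨p, hp, hpx, hpk⟩ := Nat.Prime.not_coprime_iff_dvd.mp h1
  have hp2 : p ≠ 2 := by
    rintro rfl
    have := hk
    rw [← Nat.not_even_iff_odd] at this
    exact this (even_iff_two_dvd.mpr hpk)
  have hr2 : r ≠ 2 := by
    rintro rfl
    have := hk
    rw [← Nat.not_even_iff_odd] at this
    exact this (even_iff_two_dvd.mpr hrk)
  obtain ⟨m, rfl⟩ : ∃ m, p = 2 * m + 1 := hp.odd_of_ne_two hp2
  obtain ⟨l, rfl⟩ : ∃ l, r = 2 * l + 1 := hr.odd_of_ne_two hr2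
  have hml : m ≠ l := by
    rintro rfl
    exact hrx hpx
  have hm := hp.two_le
  have hl := hr.two_le
  have hPR : PR m l := ⟨by omega, by omega, hp, hr, hml⟩
  have hco : Nat.Coprime (2 * m + 1) (2 * l + 1) := (Nat.coprime_primes hp hr).mpr (by omega)
  exact h m l hPR (hco.mul_dvd_of_dvd_of_dvd hpk hrk) hpx hrx

/-- the reduction from arbitrary `k` to pairs of primes -/
lemma all_or_none' (k x : ℕ)
    (h : ∀ m l, PR m l → (2 * m + 1) * (2 * l + 1) ∣ k → 2 * m + 1 ∣ x → ¬ 2 * l + 1 ∣ x → False)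
    (h2 : ∀ m, 1 ≤ m → (2 * m + 1).Prime → 2 * (2 * m + 1) ∣ k → (2 ∣ x ↔ 2 * m + 1 ∣ x)) :
    Nat.Coprime x k ∨ ∀ p, p.Prime → p ∣ k → p ∣ x := by
  by_contra hcon
  push Not at hcon
  obtain ⟨h1, r, hr, hrk, hrx⟩ := hcon
  obtain ⟨p, hp, hpx, hpk⟩ := Nat.Prime.not_coprime_iff_dvd.mp h1
  have hpr : p ≠ r := by
    rintro rfl
    exact hrx hpx
  have hco : Nat.Coprime p r := (Nat.coprime_primes hp hr).mpr hpr
  have hprk : p * r ∣ k := hco.mul_dvd_of_dvd_of_dvd hpk hrk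
  by_cases hp2 : p = 2
  · subst hp2
    obtain ⟨l, rfl⟩ : ∃ l, r = 2 * l + 1 := hr.odd_of_ne_two (Ne.symm hpr)
    have := hr.two_le
    exact hrx ((h2 l (by omega) hr hprk).mp hpx)
  by_cases hr2 : r = 2
  · subst hr2
    obtain ⟨m, rfl⟩ : ∃ m, p = 2 * m + 1 := hp.odd_of_ne_two hp2
    have := hp.two_le
    exact hrx ((h2 m (by omega) hp (by rwa [mul_comm])).mpr hpx)
  obtain ⟨m, rfl⟩ : ∃ m, p = 2 * m + 1 := hp.odd_of_ne_two hp2
  obtain ⟨l, rfl⟩ : ∃ l, r = 2 * l + 1 := hr.odd_of_ne_two hr2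
  have hm := hp.two_le
  have hl := hr.two_le
  exact h m l ⟨by omega, by omega, hp, hr, by omega⟩ hprk hpx hrx

end Pool.Agent.H573.AHB
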