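import Pool.Agent.H573.AHB.TowD

/-!
The tower of powers with arbitrary odd exponents `2 μ_i + 1`.
-/

namespace Pool.Agent.H573.AHB

open Polynomial

/-- the tower -/
def HS {R : Type*} [CommRing R] (μ : ℕ → ℕ) (δ u v : R) : ℕ → R × R
  | 0 => (u, v)
  | i + 1 => ((HS μ δ u v i).1 * Fh δ (HS μ δ u v i).1 (HS μ δ u v i).2 (μ i),
      (HS μ δ u v i).2 * Gh δ (HS μ δ u v i).1 (HS μ δ u v i).2 (μ i))

/-- the total exponent -/
def HK (μ : ℕ → ℕ) (i : ℕ) : ℕ := ∏ l ∈ Finset.range i, (2 * μ l + 1)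

lemma HK_zero (μ : ℕ → ℕ) : HK μ 0 = 1 := rfl
lemma HK_succ (μ : ℕ → ℕ) (i : ℕ) : HK μ (i + 1) = HK μ i * (2 * μ i + 1) :=
  Finset.prod_range_succ _ _
lemma HK_odd (μ : ℕ → ℕ) (i : ℕ) : Odd (HK μ i) := by
  induction i with
  | zero => exact odd_one
  | succ i ih => rw [HK_succ]; exact ih.mul ⟨μ i, rfl⟩
lemma HK_pos (μ : ℕ → ℕ) (i : ℕ) : 1 ≤ HK μ i := (HK_odd μ i).pos

section
variable {R S : Type*} [CommRing R] [CommRing S]

def HU (μ : ℕ → ℕ) (δ u v : R) (i : ℕ) : R := (HS μ δ u v i).1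
def HV (μ : ℕ → ℕ) (δ u v : R) (i : ℕ) : R := (HS μ δ u v i).2
/-- the factors -/
def HF (μ : ℕ → ℕ) (δ u v : R) (i : ℕ) : R := Fh δ (HU μ δ u v i) (HV μ δ u v i) (μ i)
def HG (μ : ℕ → ℕ) (δ u v : R) (i : ℕ) : R := Gh δ (HU μ δ u v i) (HV μ δ u v i) (μ i)

@[simp] lemma HU_zero (μ : ℕ → ℕ) (δ u v : R) : HU μ δ u v 0 = u := rfl
@[simp] lemma HV_zero (μ : ℕ → ℕ) (δ u v : R) : HV μ δ u v 0 = v := rfl
lemma HU_succ (μ : ℕ → ℕ) (δ u v : R) (i : ℕ) : HU μ δ u v (i + 1) = HU μ δ u v i * HF μ δ u v i :=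
  rfl
lemma HV_succ (μ : ℕ → ℕ) (δ u v : R) (i : ℕ) : HV μ δ u v (i + 1) = HV μ δ u v i * HG μ δ u v i :=
  rfl

lemma map_H (μ : ℕ → ℕ) (ψ : R →+* S) (δ u v : R) (i : ℕ) :
    ψ (HU μ δ u v i) = HU μ (ψ δ) (ψ u) (ψ v) i ∧ ψ (HV μ δ u v i) = HV μ (ψ δ) (ψ u) (ψ v) i := by
  induction i with
  | zero => simp
  | succ i ih =>
    rw [HU_succ, HV_succ, HU_succ, HV_succ, HF, HG, HF, HG, map_mul, map_mul,
      (map_FGh ψ _ _ _ _).1, (map_FGh ψ _ _ _ _).2, ih.1, ih.2]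
    exact ⟨rfl, rfl⟩

lemma map_HF (μ : ℕ → ℕ) (ψ : R →+* S) (δ u v : R) (i : ℕ) :
    ψ (HF μ δ u v i) = HF μ (ψ δ) (ψ u) (ψ v) i ∧ ψ (HG μ δ u v i) = HG μ (ψ δ) (ψ u) (ψ v) i := by
  rw [HF, HG, HF, HG, (map_FGh ψ _ _ _ _).1, (map_FGh ψ _ _ _ _).2, (map_H μ ψ δ u v i).1,
    (map_H μ ψ δ u v i).2]
  exact ⟨rfl, rfl⟩

lemma hom_H (μ : ℕ → ℕ) (δ w u v : R) (i : ℕ) :
    HU μ δ (w * u) (w * v) i = w ^ (HK μ i) * HU μ δ u v i ∧
    HV μ δ (w * u) (w * v) i = w ^ (HK μ i) * HV μ δ u v i := by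
  induction i with
  | zero => simp [HK_zero]
  | succ i ih =>
    rw [HU_succ, HV_succ, HU_succ, HV_succ, HF, HG, HF, HG, ih.1, ih.2, (hom_FG _ _ _ _ _).1,
      (hom_FG _ _ _ _ _).2, HK_succ, pow_mul]
    constructor <;> ring

lemma hom_HF (μ : ℕ → ℕ) (δ w u v : R) (i : ℕ) :
    HF μ δ (w * u) (w * v) i = w ^ (HK μ i * (2 * μ i)) * HF μ δ u v i ∧
    HG μ δ (w * u) (w * v) i = w ^ (HK μ i * (2 * μ i)) * HG μ δ u v i := by
  rw [HF, HG, HF, HG, (hom_H μ δ w u v i).1, (hom_H μ δ w u v i).2, (hom_FG _ _ _ _ _).1,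
    (hom_FG _ _ _ _ _).2, ← pow_mul]
  exact ⟨rfl, rfl⟩

/-- the norm -/
lemma FG_nrm (δ u v : R) (m : ℕ) :
    (u * Fh δ u v m) ^ 2 - δ * (v * Gh δ u v m) ^ 2 = (u ^ 2 - δ * v ^ 2) ^ (2 * m + 1) := by
  induction m with
  | zero => simp
  | succ m ih =>
    have e : 2 * (m + 1) + 1 = (2 * m + 1) + 2 := by ring
    rw [e, pow_add, ← ih, Fh_succ, Gh_succ]
    ring

lemma norm_H (μ : ℕ → ℕ) (δ u v : R) (i : ℕ) :
    HU μ δ u v i ^ 2 - δ * HV μ δ u v i ^ 2 = (u ^ 2 - δ * v ^ 2) ^ (HK μ i) := by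
  induction i with
  | zero => simp [HK_zero]
  | succ i ih =>
    rw [HU_succ, HV_succ, HF, HG, FG_nrm, ih, HK_succ, pow_mul]

lemma H_v0 (μ : ℕ → ℕ) (δ u : R) (i : ℕ) : HU μ δ u 0 i = u ^ (HK μ i) ∧ HV μ δ u 0 i = 0 := by
  induction i with
  | zero => simp [HK_zero]
  | succ i ih =>
    rw [HU_succ, HV_succ, HF, HG, ih.1, ih.2, (FG_v0 _ _ _).1, HK_succ, pow_mul]
    constructor
    · ring
    · ring

lemma H_u0 (μ : ℕ → ℕ) (δ : R) (hδ : δ ^ 2 = 1) (i : ℕ) :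
    HU μ δ 0 1 i = 0 ∧ HV μ δ 0 1 i ^ 2 = 1 := by
  induction i with
  | zero => simp
  | succ i ih =>
    rw [HU_succ, HV_succ, HF, HG, ih.1]
    refine ⟨by ring, ?_⟩
    rw [(FG_u0 _ _ _).2, ih.2, mul_pow, ih.2, mul_one, one_mul, ← pow_mul, mul_comm, pow_mul, hδ,
      one_pow]

lemma HF_u0 (μ : ℕ → ℕ) (δ : R) (hδ : δ ^ 2 = 1) (i : ℕ) :
    HF μ δ 0 1 i = (2 * (μ i : R) + 1) * δ ^ μ i ∧ HG μ δ 0 1 i = δ ^ μ i := by
  rw [HF, HG, (H_u0 μ δ hδ i).1, (FG_u0 _ _ _).1, (FG_u0 _ _ _).2, (H_u0 μ δ hδ i).2, mul_one]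
  exact ⟨rfl, rfl⟩

lemma HV_dvd (μ : ℕ → ℕ) (δ u v : R) (i j : ℕ) (h : i ≤ j) : HV μ δ u v i ∣ HV μ δ u v j := by
  induction j with
  | zero =>
    have : i = 0 := by omega
    rw [this]
  | succ j ih =>
    rcases Nat.lt_or_ge i (j + 1) with h1 | h1
    · exact (ih (by omega)).trans ⟨_, HV_succ μ δ u v j⟩
    · have : i = j + 1 := by omega
      rw [this]

lemma HU_dvd (μ : ℕ → ℕ) (δ u v : R) (i j : ℕ) (h : i ≤ j) : HU μ δ u v i ∣ HU μ δ u v j := by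
  induction j with
  | zero =>
    have : i = 0 := by omega
    rw [this]
  | succ j ih =>
    rcases Nat.lt_or_ge i (j + 1) with h1 | h1
    · exact (ih (by omega)).trans ⟨_, HU_succ μ δ u v j⟩
    · have : i = j + 1 := by omega
      rw [this]

/-- at `u² = δ v²` -/
lemma FG_diag (δ u v : R) (h : u ^ 2 = δ * v ^ 2) (m : ℕ) :
    Fh δ u v m = (4 * (δ * v ^ 2)) ^ m ∧ Gh δ u v m = (4 * (δ * v ^ 2)) ^ m := by
  induction m with
  | zero => simp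
  | succ m ih =>
    rw [Fh_succ, Gh_succ, ih.1, ih.2, h]
    constructor <;> ring

end

/-- degrees of the forms -/
lemma FG_deg (δ : ℤ) (U V : ℤ[X]) (d : ℕ) (hU : U.Monic) (hUd : U.natDegree = d)
    (hV : V.degree < (d : ℕ)) (m : ℕ) :
    (Fh (C δ : ℤ[X]) U V m).Monic ∧ (Fh (C δ : ℤ[X]) U V m).natDegree = 2 * m * d ∧
    (Gh (C δ : ℤ[X]) U V m).degree ≤ ((2 * m * d : ℕ) : WithBot ℕ) := by
  have hUdeg : U.degree = (d : ℕ) := by rw [degree_eq_natDegree hU.ne_zero, hUd]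
  have hV2 : (V ^ 2).degree < ((d + d : ℕ) : WithBot ℕ) := by
    rw [pow_two, Polynomial.degree_mul]
    push_cast
    rcases eq_or_ne V 0 with h | h
    · rw [h, degree_zero, WithBot.bot_add]
      exact_mod_cast bot_lt_nat (d + d)
    · rw [degree_eq_natDegree h] at hV ⊢
      norm_cast at hV ⊢
      omega
  have hcoef : ∀ c : ℤ, ((C c : ℤ[X]) * V ^ 2).degree < ((d + d : ℕ) : WithBot ℕ) := fun c =>
    lt_of_le_of_lt (deg_C_mul c _) hV2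
  have hU2m : (U ^ 2).Monic := hU.pow 2
  have hU2d : (U ^ 2).natDegree = d + d := by
    rw [hU.natDegree_pow, hUd]
    ring
  have hU2dd : (U ^ 2).degree = ((d + d : ℕ) : WithBot ℕ) := by
    rw [degree_eq_natDegree hU2m.ne_zero, hU2d]
  have hS : (U ^ 2 + C δ * V ^ 2).Monic := hU2m.add_of_left (by rw [hU2dd]; exact hcoef δ)
  have hSd : (U ^ 2 + C δ * V ^ 2).natDegree = d + d := by
    rw [natDegree_add_eq_left_of_degree_lt (by rw [hU2dd]; exact hcoef δ), hU2d]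
  induction m with
  | zero =>
    refine ⟨monic_one, by simp, ?_⟩
    rw [Gh_zero, degree_one]
    simp
  | succ m ih =>
    obtain ⟨h1, h2, h3⟩ := ih
    have e1 : (Fh (C δ : ℤ[X]) U V m * (U ^ 2 + C δ * V ^ 2)).Monic := h1.mul hS
    have e2 : (Fh (C δ : ℤ[X]) U V m * (U ^ 2 + C δ * V ^ 2)).natDegree = 2 * (m + 1) * d := by
      rw [h1.natDegree_mul hS, h2, hSd]
      ring
    have e2' : (Fh (C δ : ℤ[X]) U V m * (U ^ 2 + C δ * V ^ 2)).degree =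
        ((2 * (m + 1) * d : ℕ) : WithBot ℕ) := by
      rw [degree_eq_natDegree e1.ne_zero, e2]
    have e3 : (2 * (C δ * V ^ 2) * Gh (C δ : ℤ[X]) U V m).degree <
        ((2 * (m + 1) * d : ℕ) : WithBot ℕ) := by
      have e4 : (2 : ℤ[X]) * (C δ * V ^ 2) = C (2 * δ) * V ^ 2 := by
        rw [C_mul]
        norm_num
        ring
      rw [e4, Polynomial.degree_mul]
      have e5 := hcoef (2 * δ)
      rcases eq_or_ne (C (2 * δ) * V ^ 2 : ℤ[X]) 0 with h | h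
      · rw [h, degree_zero, WithBot.bot_add]
        exact bot_lt_nat _
      · rcases eq_or_ne (Gh (C δ : ℤ[X]) U V m) 0 with h' | h'
        · rw [h', degree_zero, WithBot.add_bot]
          exact bot_lt_nat _
        · rw [degree_eq_natDegree h] at e5 ⊢
          rw [degree_eq_natDegree h'] at h3 ⊢
          norm_cast at e5 h3 ⊢
          have : 2 * (m + 1) * d = 2 * m * d + (d + d) := by ring
          omega
    rw [Fh_succ, Gh_succ]
    refine ⟨e1.add_of_left (by rw [e2']; exact e3), ?_, ?_⟩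
    · rw [natDegree_add_eq_left_of_degree_lt (by rw [e2']; exact e3), e2]
    · refine (degree_add_le _ _).trans (max_le ?_ ?_)
      · rw [Polynomial.degree_mul, degree_eq_natDegree hS.ne_zero, hSd]
        calc (Gh (C δ : ℤ[X]) U V m).degree + ((d + d : ℕ) : WithBot ℕ) ≤
            ((2 * m * d : ℕ) : WithBot ℕ) + ((d + d : ℕ) : WithBot ℕ) := by gcongr
          _ = ((2 * (m + 1) * d : ℕ) : WithBot ℕ) := by
              norm_cast
              ring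
      · have e6 : (2 : ℤ[X]) * U ^ 2 * Fh (C δ : ℤ[X]) U V m =
            C 2 * (U ^ 2 * Fh (C δ : ℤ[X]) U V m) := by
          norm_num
          ring
        rw [e6]
        refine (deg_C_mul 2 _).trans ?_
        rw [degree_eq_natDegree (hU2m.mul h1).ne_zero, hU2m.natDegree_mul h1, hU2d, h2]
        norm_cast
        apply le_of_eq
        ring

lemma H_deg (μ : ℕ → ℕ) (δ : ℤ) (i : ℕ) : (HU μ (C δ : ℤ[X]) X 1 i).Monic ∧
    (HU μ (C δ : ℤ[X]) X 1 i).natDegree = HK μ i ∧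
    (HV μ (C δ : ℤ[X]) X 1 i).degree < ((HK μ i : ℕ) : WithBot ℕ) := by
  induction i with
  | zero =>
    refine ⟨monic_X, by simp [HK_zero], ?_⟩
    rw [HV_zero, degree_one, HK_zero]
    norm_num
  | succ i ih =>
    obtain ⟨h1, h2, h3⟩ := ih
    obtain ⟨g1, g2, g3⟩ := FG_deg δ _ _ _ h1 h2 h3 (μ i)
    refine ⟨h1.mul g1, ?_, ?_⟩
    · rw [HU_succ, HF, h1.natDegree_mul g1, h2, g2, HK_succ]
      ring
    · rw [HV_succ, HG, Polynomial.degree_mul, HK_succ]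
      have e2 : ((HK μ i * (2 * μ i + 1) : ℕ) : WithBot ℕ) =
          ((HK μ i : ℕ) : WithBot ℕ) + ((2 * μ i * HK μ i : ℕ) : WithBot ℕ) := by
        norm_cast
        ring
      rw [e2]
      rcases eq_or_ne (Gh (C δ : ℤ[X]) (HU μ (C δ : ℤ[X]) X 1 i) (HV μ (C δ : ℤ[X]) X 1 i) (μ i)) 0
        with h | h
      · rw [h, degree_zero, WithBot.add_bot]
        exact_mod_cast bot_lt_nat (HK μ i + 2 * μ i * HK μ i)
      · rcases eq_or_ne (HV μ (C δ : ℤ[X]) X 1 i) 0 with h' | h'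
        · rw [h', degree_zero, WithBot.bot_add]
          exact_mod_cast bot_lt_nat (HK μ i + 2 * μ i * HK μ i)
        · rw [degree_eq_natDegree h] at g3 ⊢
          rw [degree_eq_natDegree h'] at h3 ⊢
          norm_cast at h3 g3 ⊢
          omega

lemma HF_monic (μ : ℕ → ℕ) (δ : ℤ) (i : ℕ) : (HF μ (C δ : ℤ[X]) X 1 i).Monic ∧
    (HF μ (C δ : ℤ[X]) X 1 i).natDegree = 2 * μ i * HK μ i := by
  obtain ⟨h1, h2, h3⟩ := H_deg μ δ i
  obtain ⟨g1, g2, -⟩ := FG_deg δ _ _ _ h1 h2 h3 (μ i)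
  exact ⟨g1, g2⟩

end Pool.Agent.H573.AHB
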