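import Pool.Agent.H573.AHB.GTa

/-!
The forms for `δ = -1` as polynomials in `x = (u/v)²`.
-/

namespace Pool.Agent.H573.AHB

open Polynomial

/-- the forms for `δ = -1` in the variable `x = (u/v)²` -/
noncomputable def fgx : ℕ → ℤ[X] × ℤ[X]
  | 0 => (1, 1)
  | m + 1 => ((fgx m).1 * (X - 1) - 2 * (fgx m).2, (fgx m).2 * (X - 1) + 2 * X * (fgx m).1)

noncomputable def fx (m : ℕ) : ℤ[X] := (fgx m).1
noncomputable def gx (m : ℕ) : ℤ[X] := (fgx m).2

@[simp] lemma fx_zero : fx 0 = 1 := rfl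
@[simp] lemma gx_zero : gx 0 = 1 := rfl
lemma fx_succ (m : ℕ) : fx (m + 1) = fx m * (X - 1) - 2 * gx m := rfl
lemma gx_succ (m : ℕ) : gx (m + 1) = gx m * (X - 1) + 2 * X * fx m := rfl

lemma aeval_fx {A : Type*} [CommRing A] (t : A) (m : ℕ) :
    aeval (t ^ 2) (fx m) = Fh (-1) t 1 m ∧ aeval (t ^ 2) (gx m) = Gh (-1) t 1 m := by
  induction m with
  | zero => simp
  | succ m ih =>
    have h2 : aeval (t ^ 2) (2 : ℤ[X]) = (2 : A) := by
      have : (2 : ℤ[X]) = C 2 := by norm_num
      rw [this, aeval_C]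
      norm_num
    rw [fx_succ, gx_succ, Fh_succ, Gh_succ, map_sub, map_add, map_mul, map_mul, map_mul, map_mul,
      map_mul, map_sub, map_one, aeval_X, h2, ih.1, ih.2]
    constructor <;> ring

lemma fgx_deg (m : ℕ) : (fx m).natDegree ≤ m ∧ (gx m).natDegree ≤ m ∧ (fx m).coeff m = 1 ∧
    (gx m).coeff m = 2 * m + 1 := by
  induction m with
  | zero => simp
  | succ m ih =>
    obtain ⟨h1, h2, h3, h4⟩ := ih
    have z1 : (fx m).coeff (m + 1) = 0 := coeff_eq_zero_of_natDegree_lt (by omega)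
    have z2 : (gx m).coeff (m + 1) = 0 := coeff_eq_zero_of_natDegree_lt (by omega)
    have e1 : (2 : ℤ[X]) = C 2 := by norm_num
    have hX : (X - 1 : ℤ[X]).natDegree ≤ 1 := by
      rw [show (X - 1 : ℤ[X]) = X - C 1 by norm_num]
      exact natDegree_X_sub_C_le 1
    refine ⟨?_, ?_, ?_, ?_⟩
    · rw [fx_succ]
      refine (natDegree_sub_le _ _).trans (max_le ?_ ?_)
      · exact (natDegree_mul_le).trans (by omega)
      · rw [e1]
        exact (natDegree_C_mul_le _ _).trans (by omega)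
    · rw [gx_succ]
      refine (natDegree_add_le _ _).trans (max_le ?_ ?_)
      · exact (natDegree_mul_le).trans (by omega)
      · rw [e1, mul_assoc]
        refine (natDegree_C_mul_le _ _).trans ((natDegree_mul_le).trans ?_)
        rw [natDegree_X]
        omega
    · rw [fx_succ, coeff_sub, mul_sub, coeff_sub, coeff_mul_X, mul_one, e1, coeff_C_mul, h3, z1, z2]
      norm_num
    · rw [gx_succ, coeff_add, mul_sub, coeff_sub, coeff_mul_X, mul_one, e1, mul_assoc, coeff_C_mul,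
        coeff_X_mul, h3, h4, z2]
      push_cast
      ring

lemma fx_monic (m : ℕ) : (fx m).Monic ∧ (fx m).natDegree = m := by
  obtain ⟨h1, -, h3, -⟩ := fgx_deg m
  have hd : (fx m).natDegree = m := by
    refine le_antisymm h1 (le_natDegree_of_ne_zero ?_)
    rw [h3]
    exact one_ne_zero
  exact ⟨by rw [Monic, leadingCoeff, hd, h3], hd⟩

lemma fgx_nrm (m : ℕ) : X * fx m ^ 2 + gx m ^ 2 = (X + 1) ^ (2 * m + 1) := by
  induction m with
  | zero => simp
  | succ m ih =>
    have e : 2 * (m + 1) + 1 = (2 * m + 1) + 2 := by ring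
    rw [e, pow_add, ← ih, fx_succ, gx_succ]
    ring

lemma gx_neg_one (m : ℕ) : (fx m).eval (-1) = (-4) ^ m ∧ (gx m).eval (-1) = (-4) ^ m := by
  induction m with
  | zero => simp
  | succ m ih =>
    rw [fx_succ, gx_succ]
    simp only [eval_add, eval_sub, eval_mul, eval_X, eval_one, eval_ofNat, ih.1, ih.2]
    constructor <;> ring

lemma gx_at_zero (m : ℕ) : (gx m).eval 0 = (-1) ^ m := by
  induction m with
  | zero => simp
  | succ m ih =>
    rw [gx_succ]
    simp only [eval_add, eval_sub, eval_mul, eval_X, eval_one, eval_ofNat, ih]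
    ring

/-- the reduced polynomial -/
structure IsPx (m : ℕ) (P : ℤ[X]) : Prop where
  eq : gx m = C ((-1) ^ m) + C ((2 * m + 1 : ℕ) : ℤ) * P
  monic : P.Monic
  deg : P.natDegree = m

lemma gx_char (K : Type*) [Field K] [IsAlgClosed K] (m : ℕ) (hm : 1 ≤ m)
    [Fact (2 * m + 1).Prime] [CharP K (2 * m + 1)] (i : ℕ) :
    ((2 * m + 1 : ℕ) : ℤ) ∣ (gx m - C ((-1) ^ m)).coeff i := by
  have hval : ∀ z : K, aeval z (gx m - C ((-1) ^ m)) = 0 := by
    intro z
    obtain ⟨y, hy⟩ := IsAlgClosed.exists_pow_nat_eq z (n := 2) (by norm_num)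
    obtain ⟨ω, hω⟩ := IsAlgClosed.exists_pow_nat_eq (-1 : K) (n := 2) (by norm_num)
    have h2 : (2 : K) ≠ 0 := by
      intro h
      have h3 : ((2 : ℕ) : K) = 0 := by exact_mod_cast h
      rw [CharP.cast_eq_zero_iff _ (2 * m + 1)] at h3
      have := Nat.le_of_dvd (by omega) h3
      omega
    have hω0 : ω ≠ 0 := by
      rintro rfl
      rw [zero_pow (by norm_num)] at hω
      have : (1 : K) = 0 := by linear_combination hω
      exact one_ne_zero this
    have h3 := pow_FG hω y 1 m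
    have h4 := pow_FG' hω y 1 m
    rw [add_pow_char] at h3
    rw [sub_pow_char] at h4
    have h5 : (2 * ω) * Gh (-1) y 1 m = (2 * ω) * (-1) ^ m := by
      have h6 : (ω * 1) ^ (2 * m + 1) = ω * (-1) ^ m := by
        rw [mul_one, pow_succ, pow_mul, hω]
        ring
      rw [h6] at h3 h4
      linear_combination h4 - h3
    have h7 := mul_left_cancel₀ (mul_ne_zero h2 hω0) h5
    rw [map_sub, ← hy, (aeval_fx y m).2, h7, aeval_C]
    simp
  have h1 : (gx m - C ((-1) ^ m)).map (algebraMap ℤ K) = 0 := by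
    apply Polynomial.funext
    intro z
    rw [eval_map, ← aeval_def, hval z, eval_zero]
  have h2 := congrArg (fun f => f.coeff i) h1
  simp only [coeff_map, coeff_zero, eq_intCast] at h2
  rwa [CharP.intCast_eq_zero_iff _ (2 * m + 1)] at h2

lemma exists_px (m : ℕ) (hm : 1 ≤ m) (hp : (2 * m + 1).Prime) : ∃ P, IsPx m P := by
  have hF : Fact (2 * m + 1).Prime := ⟨hp⟩
  have hchar : CharP (AlgebraicClosure (ZMod (2 * m + 1))) (2 * m + 1) :=
    charP_of_injective_algebraMap (algebraMap (ZMod (2 * m + 1)) _).injective (2 * m + 1)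
  have hcoef := gx_char (AlgebraicClosure (ZMod (2 * m + 1))) m hm
  obtain ⟨P, hP⟩ := (C_dvd_iff_dvd_coeff _ _).mpr hcoef
  have hP' : gx m = C ((-1) ^ m) + C ((2 * m + 1 : ℕ) : ℤ) * P := by rw [← hP]; ring
  obtain ⟨-, h2, -, h4⟩ := fgx_deg m
  have hp0 : ((2 * m + 1 : ℕ) : ℤ) ≠ 0 := by positivity
  have hPd : P.natDegree ≤ m := by
    have h5 : (C ((2 * m + 1 : ℕ) : ℤ) * P).natDegree = P.natDegree := natDegree_C_mul hp0
    rw [← h5, ← hP]
    refine (natDegree_sub_le _ _).trans (max_le h2 ?_)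
    rw [natDegree_C]
    omega
  have hPc : P.coeff m = 1 := by
    have h6 := congrArg (fun f => f.coeff m) hP'
    simp only [coeff_add, coeff_C_mul, h4] at h6
    rw [coeff_C_of_ne_zero (by omega), zero_add] at h6
    push_cast at h6
    have h7 : (2 * (m : ℤ) + 1) * (P.coeff m - 1) = 0 := by linear_combination -h6
    have h8 : (2 * (m : ℤ) + 1) ≠ 0 := by positivity
    linarith [(mul_eq_zero.mp h7).resolve_left h8]
  have hd : P.natDegree = m := by
    refine le_antisymm hPd (le_natDegree_of_ne_zero ?_)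
    rw [hPc]
    exact one_ne_zero
  exact ⟨P, hP', by rw [Monic, leadingCoeff, hd, hPc], hd⟩

lemma IsPx.zero {m : ℕ} {P : ℤ[X]} (h : IsPx m P) : P.eval 0 = 0 := by
  have h1 := congrArg (fun f => f.eval 0) h.eq
  simp only [eval_add, eval_mul, eval_C, gx_at_zero] at h1
  have h2 : ((2 * m + 1 : ℕ) : ℤ) * P.eval 0 = 0 := by linear_combination -h1
  exact (mul_eq_zero.mp h2).resolve_left (by positivity)

lemma IsPx.neg_one {m : ℕ} {P : ℤ[X]} (h : IsPx m P) :
    ((2 * m + 1 : ℕ) : ℤ) * P.eval (-1) = (-1) ^ m * (4 ^ m - 1) := by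
  have h1 := congrArg (fun f => f.eval (-1)) h.eq
  simp only [eval_add, eval_mul, eval_C, (gx_neg_one m).2] at h1
  have h2 : (-4 : ℤ) ^ m = (-1) ^ m * 4 ^ m := by
    rw [← mul_pow]
    norm_num
  rw [h2] at h1
  linear_combination -h1

lemma IsPx.aeval_gx {m : ℕ} {P : ℤ[X]} (h : IsPx m P) {A : Type*} [CommRing A] (x : A) :
    aeval x (gx m) = (-1) ^ m + ((2 * m + 1 : ℕ) : A) * aeval x P := by
  rw [h.eq, map_add, map_mul, aeval_C, aeval_C]
  simp

end Pool.Agent.H573.AHB
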