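import Pool.Agent.H573.AHB.GTb

/-!
Torsion points of the tower, part 1: valuations.
-/

namespace Pool.Agent.H573.AHB

open Polynomial

section
variable {p : ℕ} {B : ValuationSubring ℂ}

/-- `1 - ζ` for a root of unity `ζ ≠ 1` -/
lemma val_ru (hp : p.Prime) (hB : B.valuation (p : ℂ) < 1) (ζ : ℂ) (N : ℕ) (hN : 1 ≤ N)
    (h : ζ ^ N = 1) (hne : ζ ≠ 1) :
    B.valuation (p : ℂ) ≤ B.valuation (1 - ζ) ^ (p - 1) := by
  have hfin : IsOfFinOrder ζ := isOfFinOrder_iff_pow_eq_one.mpr ⟨N, by omega, h⟩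
  have hprim : IsPrimitiveRoot ζ (orderOf ζ) := IsPrimitiveRoot.orderOf ζ
  have hpos : 0 < orderOf ζ := hfin.orderOf_pos
  have hne1 : orderOf ζ ≠ 1 := fun h1 => hne (orderOf_eq_one_iff.mp h1)
  obtain ⟨ℓ, hℓ, hdvd⟩ := Nat.exists_prime_and_dvd hne1
  obtain ⟨k, hk⟩ := hdvd
  have hη : IsPrimitiveRoot (ζ ^ k) ℓ := hprim.pow hpos (by rw [hk]; ring)
  have hv1 : B.valuation ζ = 1 := by
    have := val_pow_inj (B := B) (x := ζ) (y := 1) hN (by rw [h, one_pow])
    rwa [map_one] at this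
  have hstep : ∀ j : ℕ, B.valuation (1 - ζ ^ j) ≤ B.valuation (1 - ζ) := by
    intro j
    have h1 : 1 - ζ ^ j = (∑ i ∈ Finset.range j, ζ ^ i) * (1 - ζ) := by
      have := geom_sum_mul ζ j
      linear_combination this
    rw [h1, map_mul]
    have h2 : B.valuation (∑ i ∈ Finset.range j, ζ ^ i) ≤ 1 := by
      apply Valuation.map_sum_le
      intro i _
      rw [map_pow, hv1, one_pow]
    calc B.valuation (∑ i ∈ Finset.range j, ζ ^ i) * B.valuation (1 - ζ) ≤
        1 * B.valuation (1 - ζ) := mul_le_mul_left h2 _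
      _ = _ := one_mul _
  obtain ⟨n, hn⟩ : ∃ n, ℓ = n + 1 := ⟨ℓ - 1, by have := hℓ.two_le; omega⟩
  have hprod : ∏ j ∈ Finset.range n, (1 - (ζ ^ k) ^ (j + 1)) = (ℓ : ℂ) := by
    rw [hn] at hη
    rw [hη.prod_one_sub_pow_eq_order, hn]
    push_cast
    rfl
  have hle : B.valuation (ℓ : ℂ) ≤ B.valuation (1 - ζ) ^ n := by
    rw [← hprod, map_prod]
    calc ∏ j ∈ Finset.range n, B.valuation (1 - (ζ ^ k) ^ (j + 1)) ≤
        ∏ j ∈ Finset.range n, B.valuation (1 - ζ) := by
          apply Finset.prod_le_prod'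
          intro j _
          rw [← pow_mul]
          exact hstep _
      _ = _ := by rw [Finset.prod_const, Finset.card_range]
  by_cases hpl : p = ℓ
  · subst hpl
    have : p - 1 = n := by omega
    rw [this]
    exact hle
  · have h1 : B.valuation (ℓ : ℂ) = 1 := val_nat_eq hp hB (by
      intro hd
      exact hpl ((Nat.prime_dvd_prime_iff_eq hp hℓ).mp hd))
    rw [h1] at hle
    have h2 : 1 ≤ B.valuation (1 - ζ) := by
      by_contra hcon
      push Not at hcon
      have hn0 : n ≠ 0 := by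
        have := hℓ.two_le
        omega
      have := pow_lt_one' hcon hn0
      exact absurd hle (not_le.mpr this)
    exact hB.le.trans (one_le_pow₀ h2)

lemma val_sign (m : ℕ) : B.valuation ((-1 : ℂ) ^ m) = 1 := by
  rw [map_pow, Valuation.map_neg, map_one, one_pow]

/-- the deviation of a root of unity `g_m(x)` from `±1` -/
lemma px_dev (m : ℕ) (hm : 1 ≤ m) (hp : (2 * m + 1).Prime)
    (hB : B.valuation ((2 * m + 1 : ℕ) : ℂ) < 1) (P : ℤ[X]) (hP : IsPx m P) (x : ℂ)
    (N : ℕ) (hN : 1 ≤ N) (h : (aeval x (gx m)) ^ N = 1) (hne : aeval x P ≠ 0) :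
    B.valuation ((2 * m + 1 : ℕ) : ℂ) ≤
      (B.valuation ((2 * m + 1 : ℕ) : ℂ) * B.valuation (aeval x P)) ^ (2 * m) := by
  have hg := hP.aeval_gx x
  have hp0 : ((2 * m + 1 : ℕ) : ℂ) ≠ 0 := by
    exact_mod_cast (by omega : 2 * m + 1 ≠ 0)
  have hs : ((-1 : ℂ) ^ m) * (-1) ^ m = 1 := by
    rw [← mul_pow]
    norm_num
  have h1 := val_ru hp hB ((-1) ^ m * aeval x (gx m)) (2 * N) (by omega) (by
    rw [mul_pow, ← pow_mul, ← mul_assoc, mul_comm m 2, mul_assoc, pow_mul, mul_comm 2 N,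
      pow_mul (aeval x (gx m)) N 2, h]
    norm_num) (by
    intro h2
    have h3 : aeval x (gx m) = (-1) ^ m := by
      calc aeval x (gx m) = ((-1) ^ m * (-1) ^ m) * aeval x (gx m) := by rw [hs, one_mul]
        _ = (-1) ^ m * ((-1) ^ m * aeval x (gx m)) := by ring
        _ = _ := by rw [h2, mul_one]
    rw [h3] at hg
    have h4 : ((2 * m + 1 : ℕ) : ℂ) * aeval x P = 0 := by linear_combination -hg
    exact hne ((mul_eq_zero.mp h4).resolve_left hp0))
  have h5 : 1 - (-1) ^ m * aeval x (gx m) =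
      -((-1) ^ m * (((2 * m + 1 : ℕ) : ℂ) * aeval x P)) := by
    rw [hg]
    linear_combination -hs
  rw [h5, Valuation.map_neg, map_mul, val_sign, one_mul, map_mul] at h1
  simpa using h1

lemma px_small (m : ℕ) (hm : 1 ≤ m) (hp : (2 * m + 1).Prime)
    (hB : B.valuation ((2 * m + 1 : ℕ) : ℂ) < 1) (P : ℤ[X]) (hP : IsPx m P) (x : ℂ)
    (hx : B.valuation x ≤ 1) (N : ℕ) (hN : 1 ≤ N) (h : (aeval x (gx m)) ^ N = 1) :
    aeval x P = 0 := by
  by_contra hne
  have h1 := px_dev m hm hp hB P hP x N hN h hne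
  have hp0 : ((2 * m + 1 : ℕ) : ℂ) ≠ 0 := by
    exact_mod_cast (by omega : 2 * m + 1 ≠ 0)
  have hv0 : B.valuation ((2 * m + 1 : ℕ) : ℂ) ≠ 0 := (Valuation.ne_zero_iff _).mpr hp0
  have h2 : B.valuation (aeval x P) ≤ 1 := val_small P hx
  set a := B.valuation ((2 * m + 1 : ℕ) : ℂ)
  have h3 : a * B.valuation (aeval x P) ≤ a := by
    calc a * B.valuation (aeval x P) ≤ a * 1 := mul_le_mul_right h2 a
      _ = a := mul_one a
  have h4 : (a * B.valuation (aeval x P)) ^ (2 * m) ≤ a ^ (2 * m) := pow_le_pow_left' h3 _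
  have h5 : a ^ (2 * m) < a ^ 1 := pow_lt_pow_right_of_lt_one₀ (zero_lt_iff.mpr hv0) hB (by omega)
  rw [pow_one] at h5
  exact absurd (h1.trans h4) (not_le.mpr h5)

end

/-- the two conditions force `P_m(x) = 0` and `P_l(x₁) = 0` -/
theorem px_tors (m l : ℕ) (hm : 1 ≤ m) (hl : 1 ≤ l) (hp : (2 * m + 1).Prime)
    (hr : (2 * l + 1).Prime) (P Q : ℤ[X]) (hP : IsPx m P) (hQ : IsPx l Q) (x x1 : ℂ)
    (N M : ℕ) (hN : 1 ≤ N) (hM : 1 ≤ M) (h1 : (aeval x (gx m)) ^ N = 1)
    (hx1 : x1 * (aeval x (gx m)) ^ 2 = x * (aeval x (fx m)) ^ 2)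
    (h2 : (aeval x1 (gx l)) ^ M = 1) : aeval x P = 0 ∧ aeval x1 Q = 0 := by
  have hfm := fx_monic m
  -- step 1
  have hx : aeval x P = 0 := by
    obtain ⟨B, hB⟩ := exists_val (2 * m + 1) hp
    by_contra hne
    have hvx : 1 < B.valuation x := by
      by_contra hcon
      push Not at hcon
      exact hne (px_small m hm hp hB P hP x hcon N hN h1)
    have hvP : B.valuation (aeval x P) = B.valuation x ^ m :=
      val_big P m (le_of_eq hP.deg) (by
        have : P.coeff m = 1 := by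
          have := hP.monic.coeff_natDegree
          rwa [hP.deg] at this
        rw [this]
        simp) hvx
    have hvf : B.valuation (aeval x (fx m)) = B.valuation x ^ m :=
      val_big (fx m) m (le_of_eq hfm.2) (by
        have : (fx m).coeff m = 1 := by
          have := hfm.1.coeff_natDegree
          rwa [hfm.2] at this
        rw [this]
        simp) hvx
    have hvg : B.valuation (aeval x (gx m)) = 1 := by
      have := val_pow_inj (B := B) (x := aeval x (gx m)) (y := 1) hN (by rw [h1, one_pow])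
      rwa [map_one] at this
    have hvx1 : B.valuation x1 = B.valuation x ^ (2 * m + 1) := by
      have := congrArg B.valuation hx1
      rw [map_mul, map_mul, map_pow, map_pow, hvg, hvf, one_pow, mul_one] at this
      rw [this, ← pow_mul, ← pow_succ', mul_comm m 2]
    have hvx1' : 1 < B.valuation x1 := by
      rw [hvx1]
      exact one_lt_pow₀ hvx (by omega)
    have hvQ : B.valuation (aeval x1 Q) = B.valuation x1 ^ l :=
      val_big Q l (le_of_eq hQ.deg) (by
        have : Q.coeff l = 1 := by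
          have := hQ.monic.coeff_natDegree
          rwa [hQ.deg] at this
        rw [this]
        simp) hvx1'
    have hvb : B.valuation (aeval x1 (gx l)) = 1 := by
      have := val_pow_inj (B := B) (x := aeval x1 (gx l)) (y := 1) hM (by rw [h2, one_pow])
      rwa [map_one] at this
    have hle : B.valuation ((2 * l + 1 : ℕ) : ℂ) * B.valuation x1 ^ l ≤ 1 := by
      have h3 : ((2 * l + 1 : ℕ) : ℂ) * aeval x1 Q = aeval x1 (gx l) - (-1) ^ l := by
        rw [hQ.aeval_gx x1]
        ring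
      rw [← hvQ, ← map_mul, h3]
      refine (Valuation.map_sub _ _ _).trans (max_le (le_of_eq hvb) (le_of_eq (val_sign l)))
    by_cases hml : m = l
    · subst hml
      have h4 := px_dev m hm hp hB P hP x N hN h1 hne
      rw [hvP] at h4
      rw [hvx1] at hle
      have hp0 : ((2 * m + 1 : ℕ) : ℂ) ≠ 0 := by
        exact_mod_cast (by omega : 2 * m + 1 ≠ 0)
      have hv0 : B.valuation ((2 * m + 1 : ℕ) : ℂ) ≠ 0 := (Valuation.ne_zero_iff _).mpr hp0
      have hpos := zero_lt_iff.mpr hv0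
      set a := B.valuation ((2 * m + 1 : ℕ) : ℂ)
      obtain ⟨b, hb⟩ : ∃ b, b = B.valuation x ^ m := ⟨_, rfl⟩
      have hle' : a * b ^ (2 * m + 1) ≤ 1 := by
        rw [hb]
        calc a * (B.valuation x ^ m) ^ (2 * m + 1) = a * (B.valuation x ^ (2 * m + 1)) ^ m := by
              rw [← pow_mul, ← pow_mul, mul_comm m]
          _ ≤ 1 := hle
      rw [← hb] at h4
      -- `a ≤ a^{2m} b^{2m}`, `a b^{2m+1} ≤ 1`
      have h5 : a ^ (2 * m + 1) ≤ ((a * b) ^ (2 * m)) ^ (2 * m + 1) := pow_le_pow_left' h4 _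
      have h6 : ((a * b) ^ (2 * m)) ^ (2 * m + 1) =
          a ^ (4 * m * m) * (a * b ^ (2 * m + 1)) ^ (2 * m) := by
        rw [mul_pow, mul_pow, mul_pow, ← pow_mul, ← pow_mul, ← pow_mul, ← mul_assoc, ← pow_add]
        congr 2
        · ring
        · ring
      have h7 : a ^ (4 * m * m) * (a * b ^ (2 * m + 1)) ^ (2 * m) ≤ a ^ (4 * m * m) * 1 :=
        mul_le_mul_right (pow_le_one' hle' _) _
      rw [mul_one] at h7
      have h8 : a ^ (4 * m * m) < a ^ (2 * m + 1) := by
        apply pow_lt_pow_right_of_lt_one₀ hpos hB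
        nlinarith
      exact absurd (h5.trans (by rw [h6]; exact h7)) (not_le.mpr h8)
    · have hvr : B.valuation ((2 * l + 1 : ℕ) : ℂ) = 1 := val_nat_eq hp hB (by
        intro hd
        have := (Nat.prime_dvd_prime_iff_eq hp hr).mp hd
        omega)
      rw [hvr, one_mul] at hle
      exact absurd hle (not_le.mpr (one_lt_pow₀ hvx1' (by omega)))
  refine ⟨hx, ?_⟩
  -- step 2
  obtain ⟨B, hB⟩ := exists_val (2 * l + 1) hr
  have hvx : B.valuation x ≤ 1 := by
    by_contra hcon
    push Not at hcon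
    have hvP : B.valuation (aeval x P) = B.valuation x ^ m :=
      val_big P m (le_of_eq hP.deg) (by
        have : P.coeff m = 1 := by
          have := hP.monic.coeff_natDegree
          rwa [hP.deg] at this
        rw [this]
        simp) hcon
    rw [hx, map_zero] at hvP
    exact (pow_ne_zero m (ne_of_gt (lt_trans zero_lt_one hcon))) hvP.symm
  have hvg : B.valuation (aeval x (gx m)) = 1 := by
    have := val_pow_inj (B := B) (x := aeval x (gx m)) (y := 1) hN (by rw [h1, one_pow])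
    rwa [map_one] at this
  have hvx1 : B.valuation x1 ≤ 1 := by
    have := congrArg B.valuation hx1
    rw [map_mul, map_mul, map_pow, map_pow, hvg, one_pow, mul_one] at this
    rw [this]
    exact mul_le_one' hvx (pow_le_one' (val_small (fx m) hvx) _)
  exact px_small l hl hr hB Q hQ x1 hvx1 M hM h2

end Pool.Agent.H573.AHB
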