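import Pool.Agent.H573.AHB.GTc

/-!
Torsion points of the tower, part 2: real roots and norms.
-/

namespace Pool.Agent.H573.AHB

open Polynomial Real

lemma trig_FG (θ : ℝ) (m : ℕ) :
    cos θ * Fh (-1) (cos θ) (sin θ) m = cos ((2 * m + 1) * θ) ∧
    sin θ * Gh (-1) (cos θ) (sin θ) m = sin ((2 * m + 1) * θ) := by
  induction m with
  | zero => simp
  | succ m ih =>
    have e : (2 * ((m + 1 : ℕ) : ℝ) + 1) * θ = (2 * (m : ℝ) + 1) * θ + 2 * θ := by
      push_cast
      ring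
    have h2 : cos (2 * θ) = cos θ ^ 2 - sin θ ^ 2 := by
      rw [cos_two_mul, ← sin_sq_add_cos_sq θ]
      ring
    rw [e, cos_add, sin_add, h2, sin_two_mul, ← ih.1, ← ih.2, Fh_succ, Gh_succ]
    constructor <;> ring

lemma gx_cot (θ : ℝ) (hs : sin θ ≠ 0) (m : ℕ) :
    sin θ ^ (2 * m + 1) * aeval ((cos θ / sin θ) ^ 2) (gx m) = sin ((2 * m + 1) * θ) := by
  rw [(aeval_fx (cos θ / sin θ) m).2, ← (trig_FG θ m).2]
  have h1 := (hom_FG (-1 : ℝ) (cos θ / sin θ) 1 (sin θ) m).2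
  rw [mul_one, mul_div_cancel₀ _ hs] at h1
  rw [h1]
  ring

/-- the nodes -/
lemma sin_node (m k : ℕ) :
    sin ((2 * m + 1) * ((2 * k + 1) * π / (2 * (2 * m + 1)))) = (-1) ^ k := by
  have e : (2 * (m : ℝ) + 1) * ((2 * k + 1) * π / (2 * (2 * m + 1))) = π / 2 + k * π := by
    field_simp
    ring
  rw [e, sin_add_nat_mul_pi, sin_pi_div_two, mul_one]

/-- the nonzero roots of `P_m` are real and positive -/
theorem px_real (m : ℕ) (hm : 1 ≤ m) (P : ℤ[X]) (hP : IsPx m P) :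
    ∃ R : Finset ℝ, R.card = m - 1 ∧ ∀ ρ ∈ R, 0 < ρ ∧ aeval ρ P = 0 := by
  classical
  obtain ⟨nd, hnd⟩ : ∃ nd : ℕ → ℝ, nd = fun k : ℕ =>
    (2 * (k : ℝ) + 1) * π / (2 * (2 * m + 1)) := ⟨_, rfl⟩
  have hmpos : (0 : ℝ) < 2 * m + 1 := by positivity
  have hnd0 : ∀ k, 0 < nd k := by
    intro k
    rw [hnd]
    positivity
  have hndm : ∀ k, k < m → nd k < π / 2 := by
    intro k hk
    rw [hnd]
    simp only
    rw [div_lt_div_iff₀ (by positivity) (by norm_num)]
    have hk' : (k : ℝ) + 1 ≤ m := by exact_mod_cast hk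
    nlinarith [pi_pos]
  have hndlt : ∀ k, nd k < nd (k + 1) := by
    intro k
    rw [hnd]
    simp only
    push_cast
    gcongr
    linarith
  have hndmono : StrictMono nd := strictMono_nat_of_lt_succ hndlt
  have hsin : ∀ θ, 0 < θ → θ < π / 2 → 0 < sin θ ∧ sin θ < 1 := by
    intro θ h0 h1
    refine ⟨sin_pos_of_pos_of_lt_pi h0 (by linarith [pi_pos]), ?_⟩
    rw [← sin_pi_div_two]
    exact sin_lt_sin_of_lt_of_le_pi_div_two (by linarith [pi_pos]) le_rfl h1
  -- the roots in terms of the angle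
  have hroot : ∀ k, k < m - 1 → ∃ θ, nd k < θ ∧ θ < nd (k + 1) ∧
      sin ((2 * m + 1) * θ) = (-1) ^ m * sin θ ^ (2 * m + 1) := by
    intro k hk
    obtain ⟨φ, hφ⟩ : ∃ φ : ℝ → ℝ, φ = fun θ => (-1) ^ k *
        (sin ((2 * m + 1) * θ) - (-1) ^ m * sin θ ^ (2 * m + 1)) := ⟨_, rfl⟩
    have hcont : Continuous φ := by
      rw [hφ]
      fun_prop
    have hend : ∀ j, j < m → |(-1 : ℝ) ^ m * sin (nd j) ^ (2 * m + 1)| < 1 := by
      intro j hj
      obtain ⟨h1, h2⟩ := hsin (nd j) (hnd0 j) (hndm j hj)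
      rw [abs_mul, abs_pow, abs_neg, abs_one, one_pow, one_mul, abs_pow, abs_of_pos h1]
      exact pow_lt_one₀ h1.le h2 (by omega)
    have hval : ∀ j, φ (nd j) = (-1) ^ k * ((-1) ^ j - (-1) ^ m * sin (nd j) ^ (2 * m + 1)) := by
      intro j
      rw [hφ]
      simp only
      rw [hnd]
      simp only
      rw [sin_node]
    have hsq : ((-1 : ℝ) ^ k) * (-1) ^ k = 1 := by
      rw [← mul_pow]
      norm_num
    have habs : |(-1 : ℝ) ^ k| = 1 := by
      rw [abs_pow, abs_neg, abs_one, one_pow]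
    have hp1 : 0 < φ (nd k) := by
      rw [hval, mul_sub, hsq]
      have h3 := hend k (by omega)
      have h4 : |(-1 : ℝ) ^ k * ((-1) ^ m * sin (nd k) ^ (2 * m + 1))| < 1 := by
        rw [abs_mul, habs, one_mul]
        exact h3
      linarith [(abs_lt.mp h4).2]
    have hp2 : φ (nd (k + 1)) < 0 := by
      rw [hval, mul_sub, pow_succ, ← mul_assoc, hsq]
      have h3 := hend (k + 1) (by omega)
      have h4 : |(-1 : ℝ) ^ k * ((-1) ^ m * sin (nd (k + 1)) ^ (2 * m + 1))| < 1 := by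
        rw [abs_mul, habs, one_mul]
        exact h3
      linarith [(abs_lt.mp h4).1]
    obtain ⟨θ, hθ1, hθ2⟩ := intermediate_value_Icc' (hndlt k).le hcont.continuousOn
      ⟨hp2.le, hp1.le⟩
    refine ⟨θ, ?_, ?_, ?_⟩
    · refine lt_of_le_of_ne hθ1.1 ?_
      rintro rfl
      rw [hθ2] at hp1
      exact lt_irrefl _ hp1
    · refine lt_of_le_of_ne hθ1.2 ?_
      rintro rfl
      rw [hθ2] at hp2
      exact lt_irrefl _ hp2
    · rw [hφ] at hθ2
      simp only at hθ2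
      have h5 : ((-1 : ℝ) ^ k) ≠ 0 := pow_ne_zero _ (by norm_num)
      have h6 := (mul_eq_zero.mp hθ2).resolve_left h5
      linarith
  choose! f hf1 hf2 hf3 using hroot
  have hf0 : ∀ k, k < m - 1 → 0 < f k ∧ f k < π / 2 := by
    intro k hk
    exact ⟨(hnd0 k).trans (hf1 k hk), (hf2 k hk).trans (hndm (k + 1) (by omega))⟩
  have hfinj : ∀ a b, a < b → b < m - 1 → f a < f b := by
    intro a b hab hb
    calc f a < nd (a + 1) := hf2 a (by omega)
      _ ≤ nd b := hndmono.monotone hab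
      _ < f b := hf1 b hb
  obtain ⟨g, hg⟩ : ∃ g : ℕ → ℝ, g = fun k => (cos (f k) / sin (f k)) ^ 2 := ⟨_, rfl⟩
  have hginj : Set.InjOn g (Finset.range (m - 1)) := by
    have key : ∀ a b, a < b → b < m - 1 → g a ≠ g b := by
      intro a b hab hb h
      have h1 := hfinj a b hab hb
      obtain ⟨ha0, ha1⟩ := hf0 a (by omega)
      obtain ⟨hb0, hb1⟩ := hf0 b hb
      have sa := (hsin _ ha0 ha1).1
      have sb := (hsin _ hb0 hb1).1
      have hlt : sin (f a) < sin (f b) :=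
        sin_lt_sin_of_lt_of_le_pi_div_two (by linarith [pi_pos]) hb1.le h1
      rw [hg] at h
      simp only at h
      rw [div_pow, div_pow, div_eq_div_iff (by positivity) (by positivity)] at h
      have c1 := sin_sq_add_cos_sq (f a)
      have c2 := sin_sq_add_cos_sq (f b)
      have h2 : sin (f a) ^ 2 = sin (f b) ^ 2 := by nlinarith
      nlinarith
    intro a ha b hb h
    rw [Finset.coe_range, Set.mem_Iio] at ha hb
    rcases lt_trichotomy a b with h1 | h1 | h1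
    · exact absurd h (key a b h1 hb)
    · exact h1
    · exact absurd h.symm (key b a h1 ha)
  refine ⟨(Finset.range (m - 1)).image g, ?_, ?_⟩
  · rw [Finset.card_image_of_injOn hginj, Finset.card_range]
  · intro ρ hρ
    obtain ⟨k, hk, rfl⟩ := Finset.mem_image.mp hρ
    rw [Finset.mem_range] at hk
    obtain ⟨h0, h1⟩ := hf0 k hk
    have sk := (hsin _ h0 h1).1
    have ck : 0 < cos (f k) := cos_pos_of_mem_Ioo ⟨by linarith [pi_pos], h1⟩
    rw [hg]
    refine ⟨by positivity, ?_⟩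
    have h2 := gx_cot (f k) sk.ne' m
    rw [hf3 k hk, hP.aeval_gx] at h2
    have h3 : (sin (f k) ^ (2 * m + 1)) ≠ 0 := pow_ne_zero _ sk.ne'
    have h4 : sin (f k) ^ (2 * m + 1) * (((2 * m + 1 : ℕ) : ℝ) *
        aeval ((cos (f k) / sin (f k)) ^ 2) P) = 0 := by
      linear_combination h2
    have h5 := (mul_eq_zero.mp h4).resolve_left h3
    exact (mul_eq_zero.mp h5).resolve_left (by positivity)

/-- the factorisation of `P_m` over the reals -/
theorem px_factor (m : ℕ) (hm : 1 ≤ m) (P : ℤ[X]) (hP : IsPx m P) :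
    ∃ R : Finset ℝ, (∀ ρ ∈ R, 0 < ρ) ∧ R.card = m - 1 ∧
      P.map (algebraMap ℤ ℝ) = X * ∏ ρ ∈ R, (X - C ρ) := by
  classical
  obtain ⟨R, hR1, hR2⟩ := px_real m hm P hP
  refine ⟨R, fun ρ hρ => (hR2 ρ hρ).1, hR1, ?_⟩
  have h0 : (0 : ℝ) ∉ R := fun h => lt_irrefl _ (hR2 0 h).1
  have hPm : (P.map (algebraMap ℤ ℝ)).Monic := hP.monic.map _
  have hPd : (P.map (algebraMap ℤ ℝ)).natDegree = m := by
    rw [hP.monic.natDegree_map, hP.deg]
  have hprod : X * ∏ ρ ∈ R, (X - C ρ) = ∏ ρ ∈ insert (0 : ℝ) R, (X - C ρ) := by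
    rw [Finset.prod_insert h0, C_0, sub_zero]
  rw [hprod]
  have hmon : (∏ ρ ∈ insert (0 : ℝ) R, (X - C ρ)).Monic := monic_prod_of_monic _ _
    (fun ρ _ => monic_X_sub_C ρ)
  apply eq_of_monic_of_dvd_of_natDegree_le hmon hPm
  · have h1 : (∏ ρ ∈ insert (0 : ℝ) R, (X - C ρ)) =
        ((insert (0 : ℝ) R).val.map (fun a => X - C a)).prod := rfl
    rw [h1, Multiset.prod_X_sub_C_dvd_iff_le_roots hPm.ne_zero,
      Multiset.le_iff_subset (Finset.nodup _)]
    intro a ha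
    rw [mem_roots hPm.ne_zero, IsRoot, eval_map, ← aeval_def]
    rw [Finset.mem_val, Finset.mem_insert] at ha
    rcases ha with rfl | ha
    · have h2 := hP.zero
      rw [aeval_def, ← eval_map, ← coeff_zero_eq_eval_zero, coeff_map, coeff_zero_eq_eval_zero, h2,
        map_zero]
    · exact (hR2 a ha).2
  · rw [hPd, natDegree_prod_of_monic _ _ (fun ρ _ => monic_X_sub_C ρ)]
    simp only [natDegree_X_sub_C, Finset.sum_const, smul_eq_mul, mul_one]
    rw [Finset.card_insert_of_notMem h0, hR1]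
    omega

lemma prod_one_add (l : ℕ) (hl : 1 ≤ l) (Q : ℤ[X]) (hQ : IsPx l Q) (R : Finset ℝ)
    (hR : R.card = l - 1) (h : Q.map (algebraMap ℤ ℝ) = X * ∏ ρ ∈ R, (X - C ρ)) :
    (2 * l + 1 : ℝ) * ∏ ρ ∈ R, (1 + ρ) = 4 ^ l - 1 := by
  have h1 := hQ.neg_one
  have h2 : ((Q.eval (-1) : ℤ) : ℝ) = (-1) ^ l * ∏ ρ ∈ R, (1 + ρ) := by
    have h3 := congrArg (fun f => f.eval (-1)) h
    simp only [eval_mul, eval_X, eval_prod, eval_sub, eval_C] at h3
    have h4 : (Q.map (algebraMap ℤ ℝ)).eval (-1) = ((Q.eval (-1) : ℤ) : ℝ) := by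
      have h5 := eval_intCast_map (algebraMap ℤ ℝ) Q (-1)
      simpa using h5
    rw [h4] at h3
    rw [h3]
    have h6 : ∏ ρ ∈ R, (-1 - ρ) = (-1) ^ (l - 1) * ∏ ρ ∈ R, (1 + ρ) := by
      rw [← hR, ← Finset.prod_const, ← Finset.prod_mul_distrib]
      apply Finset.prod_congr rfl
      intro ρ _
      ring
    rw [h6]
    have h7 : (-1 : ℝ) ^ l = (-1) * (-1) ^ (l - 1) := by
      rw [← pow_succ']
      congr 1
      omega
    rw [h7]
    ring
  have h8 := congrArg (Int.cast : ℤ → ℝ) h1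
  push_cast at h8
  rw [h2] at h8
  have h9 : ((-1 : ℝ) ^ l) * (-1) ^ l = 1 := by
    rw [← mul_pow]
    norm_num
  calc (2 * l + 1 : ℝ) * ∏ ρ ∈ R, (1 + ρ) =
      (2 * l + 1) * (((-1 : ℝ) ^ l * (-1) ^ l) * ∏ ρ ∈ R, (1 + ρ)) := by rw [h9, one_mul]
    _ = (-1) ^ l * ((2 * l + 1) * ((-1) ^ l * ∏ ρ ∈ R, (1 + ρ))) := by ring
    _ = (-1) ^ l * ((-1) ^ l * (4 ^ l - 1)) := by rw [h8]
    _ = ((-1 : ℝ) ^ l * (-1) ^ l) * (4 ^ l - 1) := by ring
    _ = _ := by rw [h9, one_mul]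

/-- no `x ≠ 0` satisfies both equations -/
theorem px_final (m l : ℕ) (hm : 1 ≤ m) (hl : 1 ≤ l) (hlm : l ≤ m) (P Q : ℤ[X]) (hP : IsPx m P)
    (hQ : IsPx l Q) (x : ℂ) (hx : aeval x P = 0) (x1 : ℂ)
    (hx1 : x1 = x * (aeval x (fx m)) ^ 2) (hQ1 : aeval x1 Q = 0) : x = 0 := by
  classical
  by_contra hx0
  obtain ⟨R, hR0, hR1, hR2⟩ := px_factor m hm P hP
  obtain ⟨R', hR0', hR1', hR2'⟩ := px_factor l hl Q hQ
  have hxi : IsIntegral ℤ x := ⟨P, hP.monic, by rw [← aeval_def]; exact hx⟩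
  obtain ⟨M, hM⟩ : ∃ M, M = minpoly ℤ x := ⟨_, rfl⟩
  have hMm : M.Monic := by rw [hM]; exact minpoly.monic hxi
  have hMP : M ∣ P := by rw [hM]; exact minpoly.isIntegrallyClosed_dvd hxi hx
  have hMQ : M ∣ Q.comp (X * fx m ^ 2) := by
    rw [hM]
    apply minpoly.isIntegrallyClosed_dvd hxi
    rw [aeval_comp, map_mul, aeval_X, map_pow, ← hx1, hQ1]
  have hM0 : M.coeff 0 ≠ 0 := by
    intro h
    obtain ⟨T, hT⟩ := X_dvd_iff.mpr h
    have h1 : aeval x M = 0 := by rw [hM]; exact minpoly.aeval ℤ x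
    rw [hT, map_mul, aeval_X] at h1
    have h2 := (mul_eq_zero.mp h1).resolve_left hx0
    have h3 : M ∣ T := by rw [hM]; exact minpoly.isIntegrallyClosed_dvd hxi h2
    have hT0 : T ≠ 0 := by
      rintro rfl
      rw [mul_zero] at hT
      exact hMm.ne_zero hT
    have h4 := natDegree_le_of_dvd h3 hT0
    rw [hT, natDegree_mul X_ne_zero hT0, natDegree_X] at h4
    omega
  have hMdeg : 0 < M.natDegree := by rw [hM]; exact minpoly.natDegree_pos hxi
  have hPm : (P.map (algebraMap ℤ ℝ)).Monic := hP.monic.map _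
  have hMmR : (M.map (algebraMap ℤ ℝ)).Monic := hMm.map _
  have hdvd : M.map (algebraMap ℤ ℝ) ∣ P.map (algebraMap ℤ ℝ) := Polynomial.map_dvd _ hMP
  have hnz : (0 : ℝ) ∉ R := fun h => lt_irrefl _ (hR0 0 h)
  have hroots : (P.map (algebraMap ℤ ℝ)).roots = (insert (0 : ℝ) R).val := by
    rw [hR2]
    have : X * ∏ ρ ∈ R, (X - C ρ) = ((insert (0 : ℝ) R).val.map (fun a => X - C a)).prod := by
      change X * ∏ ρ ∈ R, (X - C ρ) = ∏ ρ ∈ insert (0 : ℝ) R, (X - C ρ)
      rw [Finset.prod_insert hnz, C_0, sub_zero]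
    rw [this, roots_multiset_prod_X_sub_C]
  have hsplit : (P.map (algebraMap ℤ ℝ)).Splits := by
    rw [hR2]
    exact Splits.X.mul (Splits.prod fun ρ _ => Splits.X_sub_C ρ)
  have hMs : (M.map (algebraMap ℤ ℝ)).Splits := hsplit.of_dvd hPm.ne_zero hdvd
  have hle : (M.map (algebraMap ℤ ℝ)).roots ≤ (insert (0 : ℝ) R).val := by
    rw [← hroots]
    exact roots.le_of_dvd hPm.ne_zero hdvd
  have hnodup : (M.map (algebraMap ℤ ℝ)).roots.Nodup := Multiset.nodup_of_le hle (Finset.nodup _)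
  obtain ⟨A, hA⟩ : ∃ A : Finset ℝ, A.val = (M.map (algebraMap ℤ ℝ)).roots :=
    ⟨⟨_, hnodup⟩, rfl⟩
  have hAroot : ∀ a ∈ A, aeval a M = 0 := by
    intro a ha
    rw [← Finset.mem_val, hA, mem_roots hMmR.ne_zero, IsRoot, eval_map, ← aeval_def] at ha
    exact ha
  have hA0 : ∀ a ∈ A, a ≠ 0 := by
    rintro a ha rfl
    have h1 := hAroot 0 ha
    rw [aeval_def, ← eval_map, ← coeff_zero_eq_eval_zero, coeff_map] at h1
    simp only [algebraMap_int_eq, eq_intCast, Int.cast_eq_zero] at h1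
    exact hM0 h1
  have hAR : ∀ a ∈ A, a ∈ R := by
    intro a ha
    have h1 : a ∈ (insert (0 : ℝ) R).val := by
      apply Multiset.subset_of_le hle
      rw [← hA]
      exact ha
    rw [Finset.mem_val, Finset.mem_insert] at h1
    exact h1.resolve_left (hA0 a ha)
  have hAne : A.Nonempty := by
    rw [← Finset.card_pos, Finset.card_def, hA, ← hMs.natDegree_eq_card_roots, hMm.natDegree_map]
    exact hMdeg
  -- the product over `A`
  have heval : (M.map (algebraMap ℤ ℝ)).eval (-1) = ∏ a ∈ A, (-1 - a) := by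
    rw [hMs.eval_eq_prod_roots_of_monic hMmR, ← hA]
    rfl
  have hprodA : ∏ a ∈ A, (1 + a) = |((M.eval (-1) : ℤ) : ℝ)| := by
    have h4 : (M.map (algebraMap ℤ ℝ)).eval (-1) = ((M.eval (-1) : ℤ) : ℝ) := by
      have h5 := eval_intCast_map (algebraMap ℤ ℝ) M (-1)
      simpa using h5
    rw [← h4, heval, Finset.abs_prod]
    apply Finset.prod_congr rfl
    intro a ha
    have := hR0 a (hAR a ha)
    rw [abs_of_neg (by linarith)]
    ring
  have hgt : 1 < ∏ a ∈ A, (1 + a) := by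
    obtain ⟨a0, ha0⟩ := hAne
    rw [← Finset.mul_prod_erase A _ ha0]
    have h1 : 1 ≤ ∏ a ∈ A.erase a0, (1 + a) := Finset.one_le_prod (fun a ha => by
      have := hR0 a (hAR a (Finset.mem_of_mem_erase ha))
      linarith)
    have h2 := hR0 a0 (hAR a0 ha0)
    nlinarith
  have htwo : 2 ≤ ∏ a ∈ A, (1 + a) := by
    rw [hprodA] at hgt ⊢
    have h1 : (1 : ℤ) < |M.eval (-1)| := by exact_mod_cast hgt
    have h2 : (2 : ℤ) ≤ |M.eval (-1)| := h1
    exact_mod_cast h2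
  -- the image
  obtain ⟨w, hw⟩ : ∃ w : ℝ → ℝ, w = fun a => a * (aeval a (fx m)) ^ 2 := ⟨_, rfl⟩
  have hwadd : ∀ a ∈ A, 1 + w a = (1 + a) ^ (2 * m + 1) := by
    intro a ha
    have h1 := congrArg (fun f => aeval a f) (fgx_nrm m)
    simp only [map_add, map_mul, map_pow, aeval_X, map_one] at h1
    have h2 : aeval a P = 0 := by
      obtain ⟨T, hT⟩ := hMP
      rw [hT, map_mul, hAroot a ha, zero_mul]
    have h3 : (aeval a (gx m)) ^ 2 = 1 := by
      rw [hP.aeval_gx, h2, mul_zero, add_zero, ← pow_mul, mul_comm, pow_mul]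
      norm_num
    rw [h3] at h1
    rw [hw, add_comm 1 a, ← h1]
    ring
  have hwR : ∀ a ∈ A, w a ∈ R' := by
    intro a ha
    have hapos := hR0 a (hAR a ha)
    have hwpos : 0 < w a := by
      have h1 := hwadd a ha
      have h2 : 1 < (1 + a) ^ (2 * m + 1) := one_lt_pow₀ (by linarith) (by omega)
      linarith
    have h1 : aeval (w a) Q = 0 := by
      obtain ⟨T, hT⟩ := hMQ
      have h2 := congrArg (fun f => aeval a f) hT
      simp only [aeval_comp, map_mul, aeval_X, map_pow, hAroot a ha, zero_mul] at h2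
      rw [hw]
      exact h2
    have h2 : (Q.map (algebraMap ℤ ℝ)).eval (w a) = 0 := by
      rw [eval_map, ← aeval_def]
      exact h1
    rw [hR2', eval_mul, eval_X, eval_prod] at h2
    have h3 := (mul_eq_zero.mp h2).resolve_left hwpos.ne'
    obtain ⟨ρ, hρ, h4⟩ := Finset.prod_eq_zero_iff.mp h3
    rw [eval_sub, eval_X, eval_C, sub_eq_zero] at h4
    rw [h4]
    exact hρ
  have hwinj : Set.InjOn w A := by
    intro a ha b hb hab
    have h1 := hwadd a ha
    have h2 := hwadd b hb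
    rw [hab, h2] at h1
    have ha' := hR0 a (hAR a ha)
    have hb' := hR0 b (hAR b hb)
    have h3 := (pow_left_inj₀ (by linarith) (by linarith) (by omega)).mp h1
    linarith
  have hbound : (∏ a ∈ A, (1 + a)) ^ (2 * m + 1) ≤ ∏ ρ ∈ R', (1 + ρ) := by
    calc (∏ a ∈ A, (1 + a)) ^ (2 * m + 1) = ∏ a ∈ A, (1 + w a) := by
          rw [← Finset.prod_pow]
          exact Finset.prod_congr rfl (fun a ha => (hwadd a ha).symm)
      _ = ∏ b ∈ A.image w, (1 + b) := (Finset.prod_image (f := fun b => 1 + b) hwinj).symm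
      _ ≤ _ := by
          apply Finset.prod_le_prod_of_subset_of_one_le
          · intro b hb
            obtain ⟨a, ha, rfl⟩ := Finset.mem_image.mp hb
            exact hwR a ha
          · intro b hb
            obtain ⟨a, ha, rfl⟩ := Finset.mem_image.mp hb
            have := hR0' _ (hwR a ha)
            linarith
          · intro b hb _
            have := hR0' _ hb
            linarith
  have hQprod := prod_one_add l hl Q hQ R' hR1' hR2'
  have h1 : (2 : ℝ) ^ (2 * m + 1) ≤ ∏ ρ ∈ R', (1 + ρ) :=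
    (pow_le_pow_left₀ (by norm_num) htwo _).trans hbound
  have h2 : (4 : ℝ) ^ l ≤ 2 ^ (2 * m + 1) := by
    have : (4 : ℝ) = 2 ^ 2 := by norm_num
    rw [this, ← pow_mul]
    exact pow_le_pow_right₀ (by norm_num) (by omega)
  have h3 : (1 : ℝ) ≤ 2 * l + 1 := by
    have : (0 : ℝ) ≤ l := Nat.cast_nonneg l
    linarith
  have h4 : (4 : ℝ) ^ l ≤ (2 * l + 1) * ∏ ρ ∈ R', (1 + ρ) := by
    have h5 : (4 : ℝ) ^ l ≤ ∏ ρ ∈ R', (1 + ρ) := h2.trans h1
    have h6 : (0 : ℝ) < 4 ^ l := by positivity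
    nlinarith
  rw [hQprod] at h4
  linarith

end Pool.Agent.H573.AHB
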