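import Pool.Agent.H573.AHB.GTd

/-!
Torsion points of the tower: conclusion, and 2-adic arguments.
-/

namespace Pool.Agent.H573.AHB

open Polynomial

/-- the case `δ = -1` -/
lemma H_tors_neg (μ : ℕ → ℕ) (h0 : 1 ≤ μ 0) (h1 : 1 ≤ μ 1) (hle : μ 1 ≤ μ 0)
    (hp0 : (2 * μ 0 + 1).Prime) (hp1 : (2 * μ 1 + 1).Prime) (z : ℂ) (N M : ℕ) (hN : 1 ≤ N)
    (hM : 1 ≤ M) (e0 : (HG μ (-1 : ℂ) z 1 0) ^ N = 1) (e1 : (HG μ (-1 : ℂ) z 1 1) ^ M = 1) :
    z = 0 := by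
  obtain ⟨P, hP⟩ := exists_px (μ 0) h0 hp0
  obtain ⟨Q, hQ⟩ := exists_px (μ 1) h1 hp1
  have a0 : HG μ (-1 : ℂ) z 1 0 = aeval (z ^ 2) (gx (μ 0)) := by
    rw [HG, HU_zero, HV_zero, (aeval_fx z (μ 0)).2]
  have af : HF μ (-1 : ℂ) z 1 0 = aeval (z ^ 2) (fx (μ 0)) := by
    rw [HF, HU_zero, HV_zero, (aeval_fx z (μ 0)).1]
  obtain ⟨α, hα⟩ : ∃ α, α = aeval (z ^ 2) (gx (μ 0)) := ⟨_, rfl⟩
  obtain ⟨f, hf⟩ : ∃ f, f = aeval (z ^ 2) (fx (μ 0)) := ⟨_, rfl⟩
  rw [a0, ← hα] at e0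
  have hα0 : α ≠ 0 := by
    rintro h
    rw [h, zero_pow (by omega)] at e0
    exact zero_ne_one e0
  have b1 : HG μ (-1 : ℂ) z 1 1 = α ^ (2 * μ 1) * aeval ((z * f / α) ^ 2) (gx (μ 1)) := by
    rw [HG, HU_succ, HV_succ, HU_zero, HV_zero, af, a0, ← hα, ← hf, (aeval_fx _ (μ 1)).2,
      ← (hom_FG (-1 : ℂ) (z * f / α) 1 α (μ 1)).2, mul_one, mul_div_cancel₀ _ hα0, one_mul]
  obtain ⟨x1, hx1⟩ : ∃ x1, x1 = (z * f / α) ^ 2 := ⟨_, rfl⟩
  rw [b1, ← hx1] at e1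
  have e2 : (aeval x1 (gx (μ 1))) ^ (M * N) = 1 := by
    have h2 : (α ^ (2 * μ 1) * aeval x1 (gx (μ 1))) ^ (M * N) = 1 := by
      rw [pow_mul, e1, one_pow]
    rw [mul_pow] at h2
    have h3 : (α ^ (2 * μ 1)) ^ (M * N) = 1 := by
      calc (α ^ (2 * μ 1)) ^ (M * N) = (α ^ N) ^ (2 * μ 1 * M) := by ring
        _ = 1 := by rw [e0, one_pow]
    rw [h3, one_mul] at h2
    exact h2
  have hrel : x1 * (aeval (z ^ 2) (gx (μ 0))) ^ 2 = z ^ 2 * (aeval (z ^ 2) (fx (μ 0))) ^ 2 := by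
    rw [← hα, ← hf, hx1]
    field_simp
  obtain ⟨g1, g2⟩ := px_tors (μ 0) (μ 1) h0 h1 hp0 hp1 P Q hP hQ (z ^ 2) x1 N (M * N) hN
    (Nat.mul_pos hM hN) (by rw [← hα]; exact e0) hrel e2
  have hα2 : α ^ 2 = 1 := by
    rw [hα, hP.aeval_gx, g1, mul_zero, add_zero, ← pow_mul, mul_comm, pow_mul]
    norm_num
  have hz := px_final (μ 0) (μ 1) h0 h1 hle P Q hP hQ (z ^ 2) g1 x1 (by
    rw [← hα, hα2, mul_one] at hrel
    exact hrel) g2
  exact pow_eq_zero_iff (by norm_num) |>.mp hz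

lemma FG_twist (u v : ℂ) (m : ℕ) :
    Fh (1 : ℂ) u v m = (-1) ^ m * Fh (-1 : ℂ) (-Complex.I * u) v m ∧
    Gh (1 : ℂ) u v m = (-1) ^ m * Gh (-1 : ℂ) (-Complex.I * u) v m := by
  have h1 := FG_congr (1 : ℂ) (-1) u v (Complex.I * v) (by
    rw [mul_pow, Complex.I_sq]
    ring) m
  have h2 := hom_FG (-1 : ℂ) (-Complex.I * u) v Complex.I m
  have h3 : Complex.I * (-Complex.I * u) = u := by
    have := Complex.I_mul_I
    linear_combination (-u) * this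
  rw [h3, pow_mul, Complex.I_sq] at h2
  rw [h1.1, h1.2, h2.1, h2.2]
  exact ⟨rfl, rfl⟩

/-- the only torsion point on the first two levels of the `V`-side is `t = 0` -/
theorem H_tors (μ : ℕ → ℕ) (h0 : 1 ≤ μ 0) (h1 : 1 ≤ μ 1) (hle : μ 1 ≤ μ 0)
    (hp0 : (2 * μ 0 + 1).Prime) (hp1 : (2 * μ 1 + 1).Prime) (δ : ℤ) (hδ : δ = 1 ∨ δ = -1) (z : ℂ)
    (N M : ℕ) (hN : 1 ≤ N) (hM : 1 ≤ M) (e0 : (HG μ (δ : ℂ) z 1 0) ^ N = 1)
    (e1 : (HG μ (δ : ℂ) z 1 1) ^ M = 1) : z = 0 := by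
  rcases hδ with rfl | rfl
  · have t0 : HG μ (1 : ℂ) z 1 0 = (-1) ^ μ 0 * HG μ (-1 : ℂ) (-Complex.I * z) 1 0 := by
      rw [HG, HG, HU_zero, HV_zero, HU_zero, HV_zero, (FG_twist z 1 (μ 0)).2]
    have f0 : HF μ (1 : ℂ) z 1 0 = (-1) ^ μ 0 * HF μ (-1 : ℂ) (-Complex.I * z) 1 0 := by
      rw [HF, HF, HU_zero, HV_zero, HU_zero, HV_zero, (FG_twist z 1 (μ 0)).1]
    have t1 : HG μ (1 : ℂ) z 1 1 = (-1) ^ μ 1 * HG μ (-1 : ℂ) (-Complex.I * z) 1 1 := by
      rw [HG, HG, HU_succ, HV_succ, HU_succ, HV_succ, HU_zero, HV_zero, HU_zero, HV_zero,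
        (FG_twist _ _ (μ 1)).2, t0, f0]
      have e : -Complex.I * (z * ((-1) ^ μ 0 * HF μ (-1 : ℂ) (-Complex.I * z) 1 0)) =
          (-1) ^ μ 0 * (-Complex.I * z * HF μ (-1 : ℂ) (-Complex.I * z) 1 0) := by ring
      have e' : (1 : ℂ) * ((-1) ^ μ 0 * HG μ (-1 : ℂ) (-Complex.I * z) 1 0) =
          (-1) ^ μ 0 * (1 * HG μ (-1 : ℂ) (-Complex.I * z) 1 0) := by ring
      rw [e, e', (hom_FG (-1 : ℂ) _ _ _ _).2, ← pow_mul, mul_comm (μ 0), mul_assoc 2, pow_mul]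
      norm_num
    have hs : ∀ k : ℕ, (((-1 : ℂ)) ^ k) ^ 2 = 1 := by
      intro k
      rw [← pow_mul, mul_comm, pow_mul]
      norm_num
    have g0 : (HG μ (-1 : ℂ) (-Complex.I * z) 1 0) ^ (2 * N) = 1 := by
      push_cast at e0
      rw [t0] at e0
      have h2 : ((-1) ^ μ 0 * HG μ (-1 : ℂ) (-Complex.I * z) 1 0) ^ (2 * N) = 1 := by
        rw [mul_comm 2 N, pow_mul, e0, one_pow]
      rw [mul_pow, pow_mul ((-1 : ℂ) ^ μ 0), hs, one_pow, one_mul] at h2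
      exact h2
    have g1 : (HG μ (-1 : ℂ) (-Complex.I * z) 1 1) ^ (2 * M) = 1 := by
      push_cast at e1
      rw [t1] at e1
      have h2 : ((-1) ^ μ 1 * HG μ (-1 : ℂ) (-Complex.I * z) 1 1) ^ (2 * M) = 1 := by
        rw [mul_comm 2 M, pow_mul, e1, one_pow]
      rw [mul_pow, pow_mul ((-1 : ℂ) ^ μ 1), hs, one_pow, one_mul] at h2
      exact h2
    have hz := H_tors_neg μ h0 h1 hle hp0 hp1 _ (2 * N) (2 * M) (by omega) (by omega) g0 g1
    exact (mul_eq_zero.mp hz).resolve_left (neg_ne_zero.mpr Complex.I_ne_zero)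
  · push_cast at e0 e1
    exact H_tors_neg μ h0 h1 hle hp0 hp1 z N M hN hM e0 e1

section
variable {B : ValuationSubring ℂ}

lemma val_delta (δ : ℤ) (hδ : δ = 1 ∨ δ = -1) : B.valuation (δ : ℂ) = 1 := by
  rcases hδ with rfl | rfl
  · simp
  · push_cast
    rw [Valuation.map_neg, map_one]

/-- 2-adic sizes of the forms -/
lemma val_two (hB : B.valuation (2 : ℂ) < 1) (δ : ℤ) (hδ : δ = 1 ∨ δ = -1) (U V : ℂ)
    (hV : B.valuation V = 1) (m : ℕ) :
    (1 ≤ B.valuation (U ^ 2 - δ * V ^ 2) →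
      B.valuation (Fh (δ : ℂ) U V m) = B.valuation (U ^ 2 - δ * V ^ 2) ^ m ∧
      B.valuation (Gh (δ : ℂ) U V m) = B.valuation (U ^ 2 - δ * V ^ 2) ^ m) ∧
    (B.valuation (U ^ 2 - δ * V ^ 2) < 1 →
      B.valuation (Fh (δ : ℂ) U V m) ≤ 1 ∧ B.valuation (Gh (δ : ℂ) U V m) ≤ 1 ∧
      (1 ≤ m → B.valuation (Gh (δ : ℂ) U V m) < 1)) := by
  have hdv : B.valuation ((δ : ℂ) * V ^ 2) = 1 := by
    rw [map_mul, val_delta δ hδ, map_pow, hV, one_pow, one_mul]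
  have h2dv : B.valuation (2 * ((δ : ℂ) * V ^ 2)) < 1 := by
    rw [map_mul, hdv, mul_one]
    exact hB
  obtain ⟨Y, hY⟩ : ∃ Y, Y = U ^ 2 - δ * V ^ 2 := ⟨_, rfl⟩
  have hS : U ^ 2 + δ * V ^ 2 = 2 * (δ * V ^ 2) + Y := by rw [hY]; ring
  have hU2 : U ^ 2 = δ * V ^ 2 + Y := by rw [hY]; ring
  rw [← hY]
  constructor
  · intro ha
    have hSv : B.valuation (U ^ 2 + δ * V ^ 2) = B.valuation Y := by
      rw [hS]
      exact Valuation.map_add_eq_of_lt_right _ (lt_of_lt_of_le h2dv ha)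
    have hUv : B.valuation (U ^ 2) ≤ B.valuation Y := by
      rw [hU2]
      refine (Valuation.map_add _ _ _).trans (max_le ?_ le_rfl)
      rw [hdv]
      exact ha
    have hYpos : ∀ k : ℕ, 0 < B.valuation Y ^ k := fun k =>
      zero_lt_iff.mpr (pow_ne_zero _ (ne_of_gt (lt_of_lt_of_le zero_lt_one ha)))
    induction m with
    | zero => simp
    | succ m ih =>
      obtain ⟨i1, i2⟩ := ih
      have hlt : ∀ w : ℂ, B.valuation w ≤ B.valuation Y ^ (m + 1) →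
          B.valuation (2 * w) < B.valuation Y ^ (m + 1) := by
        intro w hw
        rw [map_mul]
        rcases eq_or_lt_of_le hw with h | h
        · rw [h]
          calc B.valuation 2 * B.valuation Y ^ (m + 1) < 1 * B.valuation Y ^ (m + 1) :=
                mul_lt_mul_of_pos_right hB (hYpos _)
            _ = _ := one_mul _
        · calc B.valuation 2 * B.valuation w ≤ 1 * B.valuation w := mul_le_mul_left hB.le _
            _ = B.valuation w := one_mul _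
            _ < _ := h
      constructor
      · rw [Fh_succ]
        have h1 : B.valuation (Fh (δ : ℂ) U V m * (U ^ 2 + δ * V ^ 2)) =
            B.valuation Y ^ (m + 1) := by
          rw [map_mul, hSv, i1, pow_succ]
        have h2 : B.valuation (2 * (δ * V ^ 2) * Gh (δ : ℂ) U V m) < B.valuation Y ^ (m + 1) := by
          rw [mul_assoc]
          apply hlt
          rw [map_mul, hdv, one_mul, i2]
          exact pow_le_pow_right₀ ha (Nat.le_succ m)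
        rw [Valuation.map_add_eq_of_lt_left _ (by rw [h1]; exact h2), h1]
      · rw [Gh_succ]
        have h1 : B.valuation (Gh (δ : ℂ) U V m * (U ^ 2 + δ * V ^ 2)) =
            B.valuation Y ^ (m + 1) := by
          rw [map_mul, hSv, i2, pow_succ]
        have h2 : B.valuation (2 * U ^ 2 * Fh (δ : ℂ) U V m) < B.valuation Y ^ (m + 1) := by
          rw [mul_assoc]
          apply hlt
          rw [map_mul, i1, pow_succ' (B.valuation Y) m]
          exact mul_le_mul_left hUv _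
        rw [Valuation.map_add_eq_of_lt_left _ (by rw [h1]; exact h2), h1]
  · intro ha
    have hSv : B.valuation (U ^ 2 + δ * V ^ 2) < 1 := by
      rw [hS]
      exact Valuation.map_add_lt _ h2dv ha
    have hUv : B.valuation (U ^ 2) ≤ 1 := by
      rw [hU2]
      refine (Valuation.map_add _ _ _).trans (max_le (le_of_eq hdv) ha.le)
    induction m with
    | zero => simp
    | succ m ih =>
      obtain ⟨i1, i2, -⟩ := ih
      have h1 : B.valuation (Fh (δ : ℂ) U V (m + 1)) < 1 := by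
        rw [Fh_succ]
        apply Valuation.map_add_lt
        · rw [map_mul, mul_comm]
          exact vmul_lt hSv i1
        · rw [map_mul]
          exact vmul_lt h2dv i2
      have h2 : B.valuation (Gh (δ : ℂ) U V (m + 1)) < 1 := by
        rw [Gh_succ]
        apply Valuation.map_add_lt
        · rw [map_mul, mul_comm]
          exact vmul_lt hSv i2
        · rw [mul_assoc, map_mul]
          apply vmul_lt hB
          rw [map_mul]
          exact mul_le_one' hUv i1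
      exact ⟨h1.le, h2.le, fun _ => h2⟩

end

lemma exists_val_two : ∃ B : ValuationSubring ℂ, B.valuation (2 : ℂ) < 1 := by
  obtain ⟨B, hB⟩ := exists_val 2 Nat.prime_two
  exact ⟨B, by exact_mod_cast hB⟩

/-- at a zero of the first factor the second one is not a root of unity -/
lemma H_root0 (μ : ℕ → ℕ) (h1 : 1 ≤ μ 1) (δ : ℤ) (hδ : δ = 1 ∨ δ = -1) (z : ℂ)
    (hz : HG μ (δ : ℂ) z 1 0 = 0) (n : ℕ) (hn : 1 ≤ n) : (HG μ (δ : ℂ) z 1 1) ^ n ≠ 1 := by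
  intro h
  obtain ⟨B, hB⟩ := exists_val_two
  have hv := val_two hB δ hδ z 1 (map_one _) (μ 0)
  have hY : B.valuation (z ^ 2 - δ * 1 ^ 2) < 1 := by
    by_contra hcon
    push Not at hcon
    have h2 := (hv.1 hcon).2
    rw [HG, HU_zero, HV_zero] at hz
    rw [hz, map_zero] at h2
    exact (pow_ne_zero _ (ne_of_gt (lt_of_lt_of_le zero_lt_one hcon))) h2.symm
  have hV1 : HV μ (δ : ℂ) z 1 1 = 0 := by rw [HV_succ, hz, mul_zero]
  have hU1 : HU μ (δ : ℂ) z 1 1 ^ 2 = (z ^ 2 - δ * 1 ^ 2) ^ (HK μ 1) := by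
    rw [← norm_H, hV1]
    ring
  have hG1 : HG μ (δ : ℂ) z 1 1 = (2 * (μ 1 : ℂ) + 1) * (HU μ (δ : ℂ) z 1 1 ^ 2) ^ μ 1 := by
    rw [HG, hV1, (FG_v0 _ _ _).2, ← pow_mul]
  have hv1 : B.valuation (HG μ (δ : ℂ) z 1 1) < 1 := by
    rw [hG1, hU1, map_mul, mul_comm]
    apply vmul_lt
    · rw [map_pow, map_pow, ← pow_mul]
      apply pow_lt_one' hY
      have := HK_pos μ 1
      positivity
    · have := val_nat_le (B := B) (2 * μ 1 + 1)
      push_cast at this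
      exact this
  have h3 := val_pow_inj (B := B) (x := HG μ (δ : ℂ) z 1 1) (y := 1) hn (by rw [h, one_pow])
  rw [map_one] at h3
  rw [h3] at hv1
  exact lt_irrefl _ hv1

/-- at a zero of the second factor the first one is not a root of unity -/
lemma H_root1 (μ : ℕ → ℕ) (h0 : 1 ≤ μ 0) (δ : ℤ) (hδ : δ = 1 ∨ δ = -1) (z : ℂ)
    (hz : HG μ (δ : ℂ) z 1 1 = 0) (n : ℕ) (hn : 1 ≤ n) : (HG μ (δ : ℂ) z 1 0) ^ n ≠ 1 := by
  intro h
  obtain ⟨B, hB⟩ := exists_val_two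
  have hv := val_two hB δ hδ z 1 (map_one _) (μ 0)
  have h3 := val_pow_inj (B := B) (x := HG μ (δ : ℂ) z 1 0) (y := 1) hn (by rw [h, one_pow])
  rw [map_one, HG, HU_zero, HV_zero] at h3
  have hY : B.valuation (z ^ 2 - δ * 1 ^ 2) = 1 := by
    rcases lt_trichotomy (B.valuation (z ^ 2 - δ * 1 ^ 2)) 1 with h4 | h4 | h4
    · have h5 := (hv.2 h4).2.2 h0
      rw [h3] at h5
      exact absurd h5 (lt_irrefl _)
    · exact h4
    · have h5 := (hv.1 h4.le).2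
      rw [h3] at h5
      exact absurd h5.symm (ne_of_gt (one_lt_pow₀ h4 (by omega)))
  have hV1 : B.valuation (HV μ (δ : ℂ) z 1 1) = 1 := by
    rw [HV_succ, HV_zero, one_mul, HG, HU_zero, HV_zero]
    exact h3
  have hn1 := norm_H μ (δ : ℂ) z 1 1
  have hv1 := (val_two hB δ hδ (HU μ (δ : ℂ) z 1 1) (HV μ (δ : ℂ) z 1 1) hV1 (μ 1)).1 (by
    rw [hn1, map_pow, hY, one_pow])
  have h6 := hv1.2
  rw [HG] at hz
  rw [hz, map_zero, hn1, map_pow, hY, one_pow, one_pow] at h6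
  exact zero_ne_one h6

end Pool.Agent.H573.AHB
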