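import Pool.Agent.H573.AHB.GTe

/-!
The general tower: the counting theorem.
-/

namespace Pool.Agent.H573.AHB

open Polynomial

lemma aeval_HF {A : Type*} [CommRing A] (μ : ℕ → ℕ) (t : A) (δ : ℤ) (i : ℕ) :
    aeval t (HF μ (C δ : ℤ[X]) X 1 i) = HF μ (δ : A) t 1 i ∧
    aeval t (HG μ (C δ : ℤ[X]) X 1 i) = HG μ (δ : A) t 1 i := by
  have h := map_HF μ (aeval t : ℤ[X] →ₐ[ℤ] A).toRingHom (C δ) X 1 i
  simp only [AlgHom.toRingHom_eq_coe, RingHom.coe_coe, aeval_X, aeval_C, map_one] at h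
  exact h

/-- bad primes for the tower -/
def BadH (μ : ℕ → ℕ) (δ : ℤ) (i q n : ℕ) : Prop :=
  ∃ U V : ZMod q, (U ≠ 0 ∨ V ≠ 0) ∧ (V = 0 ∨ V ^ n = 1) ∧
    (HG μ (δ : ZMod q) U V 0 = 0 ∨ HG μ (δ : ZMod q) U V 0 ^ n = 1) ∧
    (HG μ (δ : ZMod q) U V 1 = 0 ∨ HG μ (δ : ZMod q) U V 1 ^ n = 1) ∧
    (HF μ (δ : ZMod q) U V i = 0 ∨ HF μ (δ : ZMod q) U V i ^ n = 1)

section field
variable {F : Type*} [Field F]

lemma H_norm_zero (μ : ℕ → ℕ) {δ z : F} {j : ℕ} (hU : HU μ δ z 1 j = 0) (hV : HV μ δ z 1 j = 0) :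
    z ^ 2 = δ := by
  have h := norm_H μ δ z 1 j
  rw [hU, hV] at h
  have h1 : (z ^ 2 - δ * 1 ^ 2) ^ (HK μ j) = 0 := by rw [← h]; ring
  have h2 := pow_eq_zero_iff (by have := HK_pos μ j; omega) |>.mp h1
  linear_combination h2

/-- at `z² = δ` nothing vanishes -/
lemma H_diag (μ : ℕ → ℕ) {δ z : F} (hδ : δ ^ 2 = 1) (h2 : (2 : F) ≠ 0) (hz : z ^ 2 = δ) (j : ℕ) :
    HU μ δ z 1 j ^ 2 = δ * HV μ δ z 1 j ^ 2 ∧ HV μ δ z 1 j ≠ 0 ∧ HF μ δ z 1 j ≠ 0 ∧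
      HG μ δ z 1 j ≠ 0 := by
  have hδ0 : δ ≠ 0 := by
    rintro rfl
    rw [zero_pow (by norm_num)] at hδ
    exact zero_ne_one hδ
  have h4 : (4 : F) ≠ 0 := by
    have : (4 : F) = 2 * 2 := by norm_num
    rw [this]
    exact mul_ne_zero h2 h2
  have hrel : ∀ j, HU μ δ z 1 j ^ 2 = δ * HV μ δ z 1 j ^ 2 := by
    intro j
    have h := norm_H μ δ z 1 j
    rw [hz] at h
    have h1 : (δ - δ * 1 ^ 2) ^ (HK μ j) = 0 := by
      rw [one_pow, mul_one, sub_self, zero_pow (by have := HK_pos μ j; omega)]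
    rw [h1] at h
    linear_combination h
  have hFG : ∀ j, HV μ δ z 1 j ≠ 0 → HF μ δ z 1 j ≠ 0 ∧ HG μ δ z 1 j ≠ 0 := by
    intro j hV
    rw [HF, HG, (FG_diag δ _ _ (hrel j) (μ j)).1, (FG_diag δ _ _ (hrel j) (μ j)).2]
    have : (4 * (δ * HV μ δ z 1 j ^ 2)) ^ μ j ≠ 0 :=
      pow_ne_zero _ (mul_ne_zero h4 (mul_ne_zero hδ0 (pow_ne_zero _ hV)))
    exact ⟨this, this⟩
  have hV : ∀ j, HV μ δ z 1 j ≠ 0 := by
    intro j
    induction j with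
    | zero => rw [HV_zero]; exact one_ne_zero
    | succ j ih =>
      rw [HV_succ]
      exact mul_ne_zero ih (hFG j ih).2
  exact ⟨hrel j, hV j, hFG j (hV j)⟩

/-- the three polynomials have no common zeros in pairs -/
lemma H_common (μ : ℕ → ℕ) (h1 : 1 ≤ μ 1) {δ z : F} (hδ : δ ^ 2 = 1) (h2 : (2 : F) ≠ 0)
    (hr : (2 * (μ 1 : F) + 1) ≠ 0) (i : ℕ) :
    (HG μ δ z 1 0 = 0 → HG μ δ z 1 1 ≠ 0 ∧ HF μ δ z 1 i ≠ 0) ∧
    (HG μ δ z 1 1 = 0 → HG μ δ z 1 0 ≠ 0 ∧ HF μ δ z 1 i ≠ 0) ∧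
    (HF μ δ z 1 i = 0 → HG μ δ z 1 0 ≠ 0 ∧ HG μ δ z 1 1 ≠ 0) := by
  have hδ0 : δ ≠ 0 := by
    rintro rfl
    rw [zero_pow (by norm_num)] at hδ
    exact zero_ne_one hδ
  have v1 : HG μ δ z 1 0 = 0 → HV μ δ z 1 1 = 0 := by
    intro h
    rw [HV_succ, h, mul_zero]
  have v2 : HG μ δ z 1 1 = 0 → HV μ δ z 1 2 = 0 := by
    intro h
    rw [HV_succ, h, mul_zero]
  have hdvd : ∀ a b : ℕ, a ≤ b → HV μ δ z 1 a = 0 → HV μ δ z 1 b = 0 := by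
    intro a b hab h
    obtain ⟨k, hk⟩ := HV_dvd μ δ z 1 a b hab
    rw [hk, h, zero_mul]
  have p01 : HG μ δ z 1 0 = 0 → HG μ δ z 1 1 = 0 → False := by
    intro h h'
    have hV := v1 h
    have hU : HU μ δ z 1 1 = 0 := by
      rw [HG, hV, (FG_v0 _ _ _).2] at h'
      exact pow_eq_zero_iff (by omega) |>.mp ((mul_eq_zero.mp h').resolve_left hr)
    exact (H_diag μ hδ h2 (H_norm_zero μ hU hV) 0).2.2.2 h
  have p0F : HG μ δ z 1 0 = 0 → HF μ δ z 1 i = 0 → False := by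
    intro h h'
    have hU : HU μ δ z 1 (i + 1) = 0 := by rw [HU_succ, h', mul_zero]
    exact (H_diag μ hδ h2 (H_norm_zero μ hU (hdvd 1 (i + 1) (by omega) (v1 h))) 0).2.2.2 h
  have p1F : HG μ δ z 1 1 = 0 → HF μ δ z 1 i = 0 → False := by
    intro h h'
    rcases Nat.eq_zero_or_pos i with hi | hi
    · subst hi
      have hU : HU μ δ z 1 1 = 0 := by rw [HU_succ, h', mul_zero]
      have hV : HV μ δ z 1 1 = 0 := by
        rw [HG, hU, (FG_u0 _ _ _).2] at h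
        have h5 := pow_eq_zero_iff (by omega) |>.mp h
        exact pow_eq_zero_iff (by norm_num) |>.mp ((mul_eq_zero.mp h5).resolve_left hδ0)
      exact (H_diag μ hδ h2 (H_norm_zero μ hU hV) 0).2.2.1 h'
    · have hU : HU μ δ z 1 (i + 1) = 0 := by rw [HU_succ, h', mul_zero]
      exact (H_diag μ hδ h2 (H_norm_zero μ hU (hdvd 2 (i + 1) (by omega) (v2 h))) 1).2.2.2 h
  exact ⟨fun h => ⟨fun h' => p01 h h', fun h' => p0F h h'⟩,
    fun h => ⟨fun h' => p01 h' h, fun h' => p1F h h'⟩,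
    fun h => ⟨fun h' => p0F h' h, fun h' => p1F h' h⟩⟩

end field

lemma root_of_ne' {F : Type*} [Field F] [IsAlgClosed F] (P : F[X]) (a b : F)
    (h : P.eval a ≠ P.eval b) : ∃ z, P.eval z = 0 := by
  by_contra hcon
  push Not at hcon
  have hdeg : P.degree = 0 := by
    by_contra hd
    obtain ⟨z, hz⟩ := IsAlgClosed.exists_root P hd
    exact hcon z hz
  rw [eq_C_of_degree_eq_zero hdeg] at h
  simp at h

/-- the three polynomials -/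
noncomputable def pH (μ : ℕ → ℕ) (δ : ℤ) (i : ℕ) : Fin 3 → ℤ[X] :=
  ![HG μ (C δ : ℤ[X]) X 1 0, HG μ (C δ : ℤ[X]) X 1 1, HF μ (C δ : ℤ[X]) X 1 i]

/-- the bound for the primes -/
def qH (μ : ℕ → ℕ) : ℕ := (4 * 16 ^ μ 0) ^ μ 1 + 4 ^ μ 0 + 2 * μ 1 + 7

lemma nat_ne_one (F : Type*) [Field F] (q : ℕ) [CharP F q] (k : ℕ) (hk : 1 < k) (hkq : k < q) :
    (k : F) ≠ 1 := by
  intro h
  have h1 : ((k - 1 : ℕ) : F) = 0 := by
    rw [Nat.cast_sub hk.le, h, Nat.cast_one, sub_self]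
  rw [CharP.cast_eq_zero_iff F q] at h1
  have := Nat.le_of_dvd (by omega) h1
  omega

lemma pH_Hq (μ : ℕ → ℕ) (h0 : 1 ≤ μ 0) (h1 : 1 ≤ μ 1) (F : Type) [Field F] [IsAlgClosed F] (q : ℕ)
    [CharP F q] (hq7 : qH μ < q) (δ : ℤ) (hδ : δ = 1 ∨ δ = -1) (i : ℕ)
    (hi : 1 ≤ μ i) (k : Fin 3) :
    ∃ z : F, aeval z (pH μ δ i k) = 0 ∧ ∀ j, j ≠ k → aeval z (pH μ δ i j) ≠ 0 := by
  have hb1 : 1 < (4 * 16 ^ μ 0) ^ μ 1 := by
    apply Nat.one_lt_pow (by omega)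
    have : 1 ≤ 16 ^ μ 0 := Nat.one_le_pow _ _ (by norm_num)
    omega
  have hb0 : 1 < 4 ^ μ 0 := Nat.one_lt_pow (by omega) (by norm_num)
  unfold qH at hq7
  have hnz : ∀ a : ℕ, 0 < a → a < q → (a : F) ≠ 0 := by
    intro a ha haq h
    rw [CharP.cast_eq_zero_iff F q] at h
    have := Nat.le_of_dvd ha h
    omega
  have h2 : (2 : F) ≠ 0 := by exact_mod_cast hnz 2 (by norm_num) (by omega)
  have hr : (2 * (μ 1 : F) + 1) ≠ 0 := by exact_mod_cast hnz (2 * μ 1 + 1) (by omega) (by omega)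
  have hδF : (δ : F) ^ 2 = 1 := by
    rcases hδ with rfl | rfl <;> norm_num
  have hδ0 : (δ : F) ≠ 0 := by
    intro h
    rw [h, zero_pow (by norm_num)] at hδF
    exact zero_ne_one hδF
  have hT := fun z : F => H_common (z := z) μ h1 hδF h2 hr i
  have e0 : ∀ z : F, aeval z (pH μ δ i 0) = HG μ (δ : F) z 1 0 := fun z => (aeval_HF μ z δ 0).2
  have e1 : ∀ z : F, aeval z (pH μ δ i 1) = HG μ (δ : F) z 1 1 := fun z => (aeval_HF μ z δ 1).2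
  have e2 : ∀ z : F, aeval z (pH μ δ i 2) = HF μ (δ : F) z 1 i := fun z => (aeval_HF μ z δ i).1
  obtain ⟨ω, hω⟩ := IsAlgClosed.exists_pow_nat_eq (δ : F) (n := 2) (by norm_num)
  have hω' : ω ^ 2 = (δ : F) * 1 ^ 2 := by rw [hω]; ring
  rcases fin3 k with rfl | rfl | rfl
  · obtain ⟨z, hz⟩ := root_of_ne' ((pH μ δ i 0).map (algebraMap ℤ F)) 0 ω (by
      rw [eval_map, ← aeval_def, eval_map, ← aeval_def, e0, e0, (HF_u0 μ _ hδF 0).2, HG, HU_zero,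
        HV_zero, (FG_diag _ _ _ hω' _).2]
      intro h
      have h3 : ((4 ^ μ 0 : ℕ) : F) = 1 := by
        push_cast
        rw [one_pow, mul_one, mul_pow] at h
        have h4 : (δ : F) ^ μ 0 ≠ 0 := pow_ne_zero _ hδ0
        apply mul_right_cancel₀ h4
        rw [one_mul, ← h]
      exact nat_ne_one F q _ hb0 (by omega) h3)
    rw [eval_map, ← aeval_def] at hz
    have hz0 : HG μ (δ : F) z 1 0 = 0 := by rw [← e0, hz]
    refine ⟨z, hz, ?_⟩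
    intro j hj
    rcases fin3 j with rfl | rfl | rfl
    · exact absurd rfl hj
    · rw [e1]; exact ((hT z).1 hz0).1
    · rw [e2]; exact ((hT z).1 hz0).2
  · obtain ⟨z, hz⟩ := root_of_ne' ((pH μ δ i 1).map (algebraMap ℤ F)) 0 ω (by
      rw [eval_map, ← aeval_def, eval_map, ← aeval_def, e1, e1, (HF_u0 μ _ hδF 1).2, HG,
        (FG_diag _ _ _ (H_diag μ hδF h2 hω 1).1 _).2, HV_succ, HV_zero, HG, HU_zero,
        HV_zero, (FG_diag _ _ _ hω' _).2]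
      intro h
      have h3 : (((4 * 16 ^ μ 0) ^ μ 1 : ℕ) : F) = 1 := by
        push_cast
        have hsq : (1 * (4 * ((δ : F) * 1 ^ 2)) ^ μ 0) ^ 2 = 16 ^ μ 0 := by
          rw [one_mul, one_pow, mul_one, ← pow_mul, mul_comm (μ 0) 2, pow_mul, mul_pow, hδF]
          norm_num
        rw [hsq] at h
        have h4 : (δ : F) ^ μ 1 ≠ 0 := pow_ne_zero _ hδ0
        apply mul_right_cancel₀ h4
        rw [one_mul]
        conv_rhs => rw [h]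
        rw [← mul_pow]
        congr 1
        ring
      exact nat_ne_one F q _ hb1 (by omega) h3)
    rw [eval_map, ← aeval_def] at hz
    have hz0 : HG μ (δ : F) z 1 1 = 0 := by rw [← e1, hz]
    refine ⟨z, hz, ?_⟩
    intro j hj
    rcases fin3 j with rfl | rfl | rfl
    · rw [e0]; exact ((hT z).2.1 hz0).1
    · exact absurd rfl hj
    · rw [e2]; exact ((hT z).2.1 hz0).2
  · obtain ⟨hm, hd⟩ := HF_monic μ δ i
    have hm' : ((HF μ (C δ : ℤ[X]) X 1 i).map (algebraMap ℤ F)).Monic := hm.map _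
    have hd' : ((HF μ (C δ : ℤ[X]) X 1 i).map (algebraMap ℤ F)).degree ≠ 0 := by
      rw [degree_eq_natDegree hm'.ne_zero, hm.natDegree_map, hd]
      have := HK_pos μ i
      have : 0 < 2 * μ i * HK μ i := by positivity
      intro h
      have h' : (2 * μ i * HK μ i : ℕ) = 0 := by exact_mod_cast h
      omega
    obtain ⟨z, hz⟩ := IsAlgClosed.exists_root _ hd'
    have hz0 : HF μ (δ : F) z 1 i = 0 := by
      rw [← (aeval_HF μ z δ i).1, aeval_def, ← eval_map]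
      exact hz
    refine ⟨z, by rw [e2, hz0], ?_⟩
    intro j hj
    rcases fin3 j with rfl | rfl | rfl
    · rw [e0]; exact ((hT z).2.2 hz0).1
    · rw [e1]; exact ((hT z).2.2 hz0).2
    · exact absurd rfl hj

/-- the admissible towers -/
structure OKH (μ : ℕ → ℕ) : Prop where
  pos : ∀ i, 1 ≤ μ i
  le : μ 1 ≤ μ 0
  p0 : (2 * μ 0 + 1).Prime
  p1 : (2 * μ 1 + 1).Prime

lemma HF_at_zero (μ : ℕ → ℕ) (hμ : OKH μ) (δ : ℤ) (hδ : δ = 1 ∨ δ = -1) (i : ℕ) :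
    1 < ‖HF μ (δ : ℂ) 0 1 i‖ := by
  have hδC : (δ : ℂ) ^ 2 = 1 := by rcases hδ with rfl | rfl <;> norm_num
  rw [(HF_u0 μ _ hδC i).1, norm_mul, norm_pow]
  have h1 : ‖(δ : ℂ)‖ = 1 := by rcases hδ with rfl | rfl <;> norm_num
  have h2 : ‖2 * (μ i : ℂ) + 1‖ = 2 * (μ i : ℝ) + 1 := by
    have : (2 * (μ i : ℂ) + 1) = ((2 * μ i + 1 : ℕ) : ℂ) := by push_cast; ring
    rw [this, Complex.norm_natCast]
    push_cast
    ring
  rw [h1, h2, one_pow, mul_one]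
  have h3 : (1 : ℝ) ≤ μ i := by exact_mod_cast hμ.pos i
  linarith

lemma pH_H2 (μ : ℕ → ℕ) (hμ : OKH μ) (δ : ℤ) (hδ : δ = 1 ∨ δ = -1) (i : ℕ) (z : ℂ) :
    ∃ k, ∀ N : ℕ, 1 ≤ N → (aeval z (pH μ δ i k)) ^ N ≠ (((1 : ℤ)) : ℂ) ^ N := by
  by_contra hcon
  push Not at hcon
  have e0 : aeval z (pH μ δ i 0) = HG μ (δ : ℂ) z 1 0 := (aeval_HF μ z δ 0).2
  have e1 : aeval z (pH μ δ i 1) = HG μ (δ : ℂ) z 1 1 := (aeval_HF μ z δ 1).2
  have e2 : aeval z (pH μ δ i 2) = HF μ (δ : ℂ) z 1 i := (aeval_HF μ z δ i).1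
  obtain ⟨N0, hN0, h0⟩ := hcon 0
  obtain ⟨N1, hN1, h1⟩ := hcon 1
  obtain ⟨N2, hN2, h2⟩ := hcon 2
  rw [Int.cast_one, one_pow] at h0 h1 h2
  rw [e0] at h0
  rw [e1] at h1
  rw [e2] at h2
  have hz := H_tors μ (hμ.pos 0) (hμ.pos 1) hμ.le hμ.p0 hμ.p1 δ hδ z N0 N1 hN0 hN1 h0 h1
  rw [hz] at h2
  have h4 := congrArg norm h2
  rw [norm_pow, norm_one] at h4
  have h5 : 1 < ‖HF μ (δ : ℂ) 0 1 i‖ ^ N2 := one_lt_pow₀ (HF_at_zero μ hμ δ hδ i) (by omega)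
  linarith

lemma key_pow {F : Type*} [Field F] (P R U : F) (a b n : ℕ) (hU : U ≠ 0)
    (g0 : (P * U ^ a) ^ n = 1) (g1 : (R * U ^ b) ^ n = 1) : (P ^ b) ^ n = (R ^ a) ^ n := by
  have hUn : U ^ (a * b * n) ≠ 0 := pow_ne_zero _ hU
  apply mul_right_cancel₀ hUn
  have e1 : (P ^ b) ^ n * U ^ (a * b * n) = ((P * U ^ a) ^ n) ^ b := by
    rw [mul_pow, mul_pow, ← pow_mul, ← pow_mul, ← pow_mul, ← pow_mul]
    congr 2 <;> ring
  have e2 : (R ^ a) ^ n * U ^ (a * b * n) = ((R * U ^ b) ^ n) ^ a := by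
    rw [mul_pow, mul_pow, ← pow_mul, ← pow_mul, ← pow_mul, ← pow_mul]
    congr 2 <;> ring
  rw [e1, e2, g0, g1, one_pow, one_pow]

/-- the cases for a bad prime -/
lemma badH_cases (μ : ℕ → ℕ) (hμ : OKH μ) (δ : ℤ) (hδ : δ = 1 ∨ δ = -1) (i q n : ℕ) (hq : q.Prime)
    (hq7 : qH μ < q) (h : BadH μ δ i q n) :
    ((((2 * μ 0 + 1) ^ ((2 * μ 0 + 1) * (2 * μ 1)) : ℕ) : ZMod q) ^ n =
        (((2 * μ 1 + 1) ^ (2 * μ 0) : ℕ) : ZMod q) ^ n ∧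
      (((2 * μ 0 + 1) ^ ((2 * μ 0 + 1) * (2 * μ 1)) : ℕ) : ZMod q) ^ n =
        (((2 * μ 1 + 1) ^ (2 * μ 0) : ℕ) : ZMod q) ^ n) ∨
    (∃ t : ZMod q, aeval t (pH μ δ i 0) = 0 ∧ (aeval t (pH μ δ i 1)) ^ n = ((1 : ℕ) : ZMod q) ^ n) ∨
    (∃ t : ZMod q, aeval t (pH μ δ i 1) = 0 ∧ (aeval t (pH μ δ i 0)) ^ n = ((1 : ℕ) : ZMod q) ^ n) ∨
    (∃ t : ZMod q, aeval t (pH μ δ i 2) = 0 ∧ (aeval t (pH μ δ i 0)) ^ n = 1 ∧
      (aeval t (pH μ δ i 1)) ^ n = 1) ∨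
    (∃ t : ZMod q, ∀ k, (aeval t (pH μ δ i k)) ^ n = (((1 : ℤ)) : ZMod q) ^ n) := by
  have hF : Fact q.Prime := ⟨hq⟩
  obtain ⟨U, V, hUV, hV, hG0, hG1, hFi⟩ := h
  have hδF : (δ : ZMod q) ^ 2 = 1 := by rcases hδ with rfl | rfl <;> norm_num
  unfold qH at hq7
  have hb1 : 1 ≤ (4 * 16 ^ μ 0) ^ μ 1 := Nat.one_le_pow _ _ (by positivity)
  have hb0 : 2 * μ 0 + 1 ≤ 4 ^ μ 0 := by
    have : ∀ k : ℕ, 2 * k + 1 ≤ 4 ^ k := by
      intro k
      induction k with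
      | zero => norm_num
      | succ k ih => rw [pow_succ]; omega
    exact this _
  have hp : (((2 * μ 0 + 1 : ℕ)) : ZMod q) ≠ 0 :=
    natCast_ne_zero_of_lt (by omega) (by omega) (ZMod q)
  have hr' : (((2 * μ 1 + 1 : ℕ)) : ZMod q) ≠ 0 :=
    natCast_ne_zero_of_lt (by omega) (by omega) (ZMod q)
  have hr : (2 * (μ 1 : ZMod q) + 1) ≠ 0 := by exact_mod_cast hr'
  have h2 : (2 : ZMod q) ≠ 0 := by
    have := natCast_ne_zero_of_lt (k := 2) (by norm_num) (by omega) (ZMod q)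
    exact_mod_cast this
  by_cases hV0 : V = 0
  · left
    have hU0 : U ≠ 0 := by
      rcases hUV with h | h
      · exact h
      · exact absurd hV0 h
    rw [hV0, HG, HU_zero, HV_zero, (FG_v0 _ _ _).2] at hG0
    rw [hV0, HG, (H_v0 μ _ U 1).1, (H_v0 μ _ U 1).2, (FG_v0 _ _ _).2, HK_succ, HK_zero, one_mul,
      ← pow_mul] at hG1
    have hp' : (2 * (μ 0 : ZMod q) + 1) ≠ 0 := by exact_mod_cast hp
    have g0 := hG0.resolve_left (mul_ne_zero hp' (pow_ne_zero _ hU0))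
    have g1 := hG1.resolve_left (mul_ne_zero hr (pow_ne_zero _ hU0))
    have key := key_pow _ _ U _ _ n hU0 g0 g1
    have key' : (((2 * μ 0 + 1) ^ ((2 * μ 0 + 1) * (2 * μ 1)) : ℕ) : ZMod q) ^ n =
        (((2 * μ 1 + 1) ^ (2 * μ 0) : ℕ) : ZMod q) ^ n := by
      push_cast
      exact key
    exact ⟨key', key'⟩
  right
  have hV' := hV.resolve_left hV0
  obtain ⟨t, ht⟩ : ∃ t, t = U / V := ⟨_, rfl⟩
  have hU : U = V * t := by rw [ht]; field_simp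
  have c0 : ∀ j, HG μ (δ : ZMod q) U V j = V ^ (HK μ j * (2 * μ j)) * HG μ (δ : ZMod q) t 1 j := by
    intro j
    rw [← (hom_HF μ (δ : ZMod q) V t 1 j).2, mul_one, ← hU]
  have c2 : HF μ (δ : ZMod q) U V i = V ^ (HK μ i * (2 * μ i)) * HF μ (δ : ZMod q) t 1 i := by
    rw [← (hom_HF μ (δ : ZMod q) V t 1 i).1, mul_one, ← hU]
  have hVn : ∀ k : ℕ, (V ^ k) ^ n = 1 := by
    intro k
    rw [← pow_mul, mul_comm, pow_mul, hV', one_pow]
  have red : ∀ (k : ℕ) (y x : ZMod q), y = V ^ k * x → (y = 0 ∨ y ^ n = 1) → (x = 0 ∨ x ^ n = 1) := by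
    intro k y x hy h
    rcases h with h | h
    · left
      rw [hy] at h
      exact (mul_eq_zero.mp h).resolve_left (pow_ne_zero _ hV0)
    · right
      rw [hy, mul_pow, hVn, one_mul] at h
      exact h
  have g0 := red _ _ _ (c0 0) hG0
  have g1 := red _ _ _ (c0 1) hG1
  have g2 := red _ _ _ c2 hFi
  have e0 : aeval t (pH μ δ i 0) = HG μ (δ : ZMod q) t 1 0 := (aeval_HF μ t δ 0).2
  have e1 : aeval t (pH μ δ i 1) = HG μ (δ : ZMod q) t 1 1 := (aeval_HF μ t δ 1).2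
  have e2 : aeval t (pH μ δ i 2) = HF μ (δ : ZMod q) t 1 i := (aeval_HF μ t δ i).1
  have hT := H_common (z := t) μ (hμ.pos 1) hδF h2 hr i
  by_cases z0 : HG μ (δ : ZMod q) t 1 0 = 0
  · left
    have g1' := g1.resolve_left (hT.1 z0).1
    exact ⟨t, by rw [e0, z0], by rw [e1, g1', Nat.cast_one, one_pow]⟩
  have g0' := g0.resolve_left z0
  right
  by_cases z1 : HG μ (δ : ZMod q) t 1 1 = 0
  · left
    exact ⟨t, by rw [e1, z1], by rw [e0, g0', Nat.cast_one, one_pow]⟩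
  have g1' := g1.resolve_left z1
  right
  by_cases z2 : HF μ (δ : ZMod q) t 1 i = 0
  · left
    exact ⟨t, by rw [e2, z2], by rw [e0, g0'], by rw [e1, g1']⟩
  have g2' := g2.resolve_left z2
  right
  refine ⟨t, ?_⟩
  intro k
  rw [Int.cast_one, one_pow]
  rcases fin3 k with rfl | rfl | rfl
  · rw [e0, g0']
  · rw [e1, g1']
  · rw [e2, g2']

lemma pH_const (μ : ℕ → ℕ) (δ : ℤ) (hδ : δ = 1 ∨ δ = -1) (j : ℕ) :
    HG μ (C δ : ℤ[X]) X 1 j ≠ 0 ∧ ∀ q : ℕ, q.Prime → ¬ C (q : ℤ) ∣ HG μ (C δ : ℤ[X]) X 1 j := by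
  have hδ2 : δ ^ 2 = 1 := by rcases hδ with rfl | rfl <;> norm_num
  have c1 : (HG μ (C δ : ℤ[X]) X 1 j).coeff 0 = δ ^ μ j := by
    have h1 := (aeval_HF μ (0 : ℤ) δ j).2
    rw [Int.cast_id, (HF_u0 μ δ hδ2 j).2] at h1
    rw [coeff_zero_eq_aeval_zero]
    exact h1
  have hsq : (δ ^ μ j) ^ 2 = 1 := by rw [← pow_mul, mul_comm, pow_mul, hδ2, one_pow]
  constructor
  · intro h
    rw [h, coeff_zero] at c1
    rw [← c1] at hsq
    norm_num at hsq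
  · intro q hq hd
    have h1 := (C_dvd_iff_dvd_coeff _ _).mp hd 0
    rw [c1] at h1
    have h2 : (q : ℤ) ∣ 1 := by
      rw [← hsq]
      exact h1.trans (dvd_pow_self _ (by norm_num))
    have h3 : (q : ℤ) ∣ ((1 : ℕ) : ℤ) := by simpa using h2
    have := Nat.le_of_dvd one_pos (Int.natCast_dvd_natCast.mp h3)
    have := hq.two_le
    omega

theorem sparse_badH (μ : ℕ → ℕ) (hμ : OKH μ) (δ : ℤ) (hδ : δ = 1 ∨ δ = -1) (i : ℕ) :
    Sparse (BadH μ δ i) := by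
  classical
  have h0 := hμ.pos 0
  have h1 := hμ.pos 1
  have hne : (2 * μ 0 + 1) ^ ((2 * μ 0 + 1) * (2 * μ 1)) ≠ (2 * μ 1 + 1) ^ (2 * μ 0) := by
    apply Nat.ne_of_gt
    calc (2 * μ 1 + 1) ^ (2 * μ 0) ≤ (2 * μ 0 + 1) ^ (2 * μ 0) :=
          Nat.pow_le_pow_left (by have := hμ.le; omega) _
      _ < (2 * μ 0 + 1) ^ ((2 * μ 0 + 1) * (2 * μ 1)) := by
          apply Nat.pow_lt_pow_right (by omega)
          nlinarith
  have s1 := sparse_num ((2 * μ 0 + 1) ^ ((2 * μ 0 + 1) * (2 * μ 1))) ((2 * μ 1 + 1) ^ (2 * μ 0))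
    ((2 * μ 0 + 1) ^ ((2 * μ 0 + 1) * (2 * μ 1))) ((2 * μ 1 + 1) ^ (2 * μ 0))
    (Nat.one_le_pow _ _ (by omega)) (Nat.one_le_pow _ _ (by omega))
    (Nat.one_le_pow _ _ (by omega)) (Nat.one_le_pow _ _ (by omega)) (Or.inl hne)
  have s2 := sparse_rootG (pH μ δ i 0) (pH_const μ δ hδ 0).1 (pH_const μ δ hδ 0).2 (pH μ δ i 1) 1
    le_rfl (by
    intro n hn z hz
    rw [Nat.cast_one, one_pow]
    have e0 : aeval z (pH μ δ i 0) = HG μ (δ : ℂ) z 1 0 := (aeval_HF μ z δ 0).2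
    have e1 : aeval z (pH μ δ i 1) = HG μ (δ : ℂ) z 1 1 := (aeval_HF μ z δ 1).2
    rw [e0] at hz
    rw [e1]
    exact H_root0 μ h1 δ hδ z hz n hn)
  have s3 := sparse_rootG (pH μ δ i 1) (pH_const μ δ hδ 1).1 (pH_const μ δ hδ 1).2 (pH μ δ i 0) 1
    le_rfl (by
    intro n hn z hz
    rw [Nat.cast_one, one_pow]
    have e0 : aeval z (pH μ δ i 0) = HG μ (δ : ℂ) z 1 0 := (aeval_HF μ z δ 0).2
    have e1 : aeval z (pH μ δ i 1) = HG μ (δ : ℂ) z 1 1 := (aeval_HF μ z δ 1).2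
    rw [e1] at hz
    rw [e0]
    exact H_root1 μ h0 δ hδ z hz n hn)
  have hm2 : (pH μ δ i 2).Monic := (HF_monic μ δ i).1
  have hq2 : ∀ q : ℕ, q.Prime → ¬ C (q : ℤ) ∣ pH μ δ i 2 := by
    intro q hq hd
    have h1 := (C_dvd_iff_dvd_coeff _ _).mp hd (pH μ δ i 2).natDegree
    rw [hm2.coeff_natDegree] at h1
    have h3 : (q : ℤ) ∣ ((1 : ℕ) : ℤ) := by simpa using h1
    have := Nat.le_of_dvd one_pos (Int.natCast_dvd_natCast.mp h3)
    have := hq.two_le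
    omega
  have s4 := sparse_root2 (pH μ δ i 2) hm2.ne_zero hq2 (pH μ δ i 0) (pH μ δ i 1) (by
    intro z hz n m hn hm h0' h1'
    have e0 : aeval z (pH μ δ i 0) = HG μ (δ : ℂ) z 1 0 := (aeval_HF μ z δ 0).2
    have e1 : aeval z (pH μ δ i 1) = HG μ (δ : ℂ) z 1 1 := (aeval_HF μ z δ 1).2
    have e2 : aeval z (pH μ δ i 2) = HF μ (δ : ℂ) z 1 i := (aeval_HF μ z δ i).1
    rw [e0] at h0'
    rw [e1] at h1'
    rw [e2] at hz
    have hz0 := H_tors μ h0 h1 hμ.le hμ.p0 hμ.p1 δ hδ z n m hn hm h0' h1'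
    have h3 := HF_at_zero μ hμ δ hδ i
    rw [hz0] at hz
    rw [hz, _root_.norm_zero] at h3
    linarith)
  obtain ⟨C5, hC5, h5⟩ := count_primes' (r := 3) (by norm_num) (pH μ δ i) (fun _ => 1)
    (fun _ => one_ne_zero) (qH μ) (by
      intro q hq hlt k
      have hF : Fact q.Prime := ⟨hq⟩
      rw [Int.cast_one]
      exact one_ne_zero) (by
      intro q hq hlt k
      have hchar : CharP (AlgebraicClosure (ZMod q)) q :=
        charP_of_injective_algebraMap (algebraMap (ZMod q) _).injective q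
      obtain ⟨z, hz1, hz2⟩ := pH_Hq μ h0 h1 (AlgebraicClosure (ZMod q)) q hlt δ hδ i (hμ.pos i) k
      exact ⟨AlgebraicClosure (ZMod q), inferInstance, hchar, z, hz1, hz2⟩) (pH_H2 μ hμ δ hδ i)
  have s5 : Sparse (fun q n => ∃ t : ZMod q, ∀ k, (aeval t (pH μ δ i k)) ^ n =
      (((1 : ℤ)) : ZMod q) ^ n) := by
    refine ⟨C5, hC5, qH μ, ?_⟩
    intro K R hR hRK hKR Q hQ
    exact h5 K R hR hRK hKR Q (by
      intro q hq
      obtain ⟨g1, g2, n, g3, g4, _, t, ht⟩ := hQ q hq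
      exact ⟨g1, g2, t, n, g3, g4, ht⟩)
  have hall := s1.or (s2.or (s3.or (s4.or s5)))
  obtain ⟨C', hC', q', h'⟩ := hall
  refine ⟨C', hC', max (qH μ) q', ?_⟩
  intro K R hR hRK hKR Q hQ
  apply h' K R hR hRK hKR Q
  intro q hq
  obtain ⟨g1, g2, n, g3, g4, g5, g6⟩ := hQ q hq
  have g2' : qH μ < q := lt_of_le_of_lt (le_max_left _ _) g2
  refine ⟨g1, lt_of_le_of_lt (le_max_right _ _) g2, n, g3, g4, g5, ?_⟩
  exact badH_cases μ hμ δ hδ i q n g1 g2' g6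

end Pool.Agent.H573.AHB
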