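import Pool.Agent.H573.AHB.GTf

/-!
The general tower: descent and the local theorem.
-/

namespace Pool.Agent.H573.AHB

open Filter

/-- descent through the tower -/
lemma H_desc (μ : ℕ → ℕ) (hμ : ∀ i, 1 ≤ μ i) (δ : ℤ) (hδ : δ = 1 ∨ δ = -1) (j : ℕ) :
    ∀ X Y z : ℤ, IsCoprime X Y → (δ = 1 → Odd z) → X ^ 2 - δ * Y ^ 2 = z ^ (HK μ j) →
    ∃ u v : ℤ, X = HU μ δ u v j ∧ Y = HV μ δ u v j := by
  induction j with
  | zero =>
    intro X Y z _ _ _
    exact ⟨X, Y, rfl, rfl⟩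
  | succ j ih =>
    intro X Y z hco hz h
    have h1 : X ^ 2 - δ * Y ^ 2 = (z ^ (HK μ j)) ^ (2 * μ j + 1) := by
      rw [h, ← pow_mul, HK_succ]
    have hstep : ∃ a b : ℤ, X = a * Fh δ a b (μ j) ∧ Y = b * Gh δ a b (μ j) := by
      rcases hδ with rfl | rfl
      · exact split_desc X Y (z ^ (HK μ j)) (μ j) hco (hz rfl).pow (by rw [← h1]; ring)
      · exact gauss X Y (z ^ (HK μ j)) (μ j) (hμ j) hco (by rw [← h1]; ring)
    obtain ⟨a, b, ha, hb⟩ := hstep
    have hpw : (a ^ 2 - δ * b ^ 2) ^ (2 * μ j + 1) = (z ^ (HK μ j)) ^ (2 * μ j + 1) := by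
      rw [← FG_nrm, ← ha, ← hb, h1]
    have hn : a ^ 2 - δ * b ^ 2 = z ^ (HK μ j) := by
      have hodd : Odd (2 * μ j + 1) := ⟨μ j, rfl⟩
      exact hodd.strictMono_pow.injective hpw
    have hab : IsCoprime a b := by
      rw [ha, hb] at hco
      exact hco.of_mul_left_left.of_mul_right_left
    obtain ⟨u, v, hu, hv⟩ := ih a b z hab hz hn
    refine ⟨u, v, ?_, ?_⟩
    · rw [HU_succ, HF, ← hu, ← hv, ha]
    · rw [HV_succ, HG, ← hu, ← hv, hb]

/-- bad primes for the whole tower -/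
def BadHJ (μ : ℕ → ℕ) (δ : ℤ) (j q n : ℕ) : Prop := ∃ i ∈ Finset.range j, BadH μ δ i q n

theorem sparse_badHJ (μ : ℕ → ℕ) (hμ : OKH μ) (δ : ℤ) (hδ : δ = 1 ∨ δ = -1) (j : ℕ) :
    Sparse (BadHJ μ δ j) :=
  Sparse.exists_mem _ _ (fun i _ => sparse_badH μ hμ δ hδ i)

/-- the local theorem for the tower -/
theorem H_local (μ : ℕ → ℕ) (hμ : OKH μ) (hpr : ∀ i, (2 * μ i + 1).Prime) (δ : ℤ)
    (hδ : δ = 1 ∨ δ = -1) (j s q : ℕ) (hj : 2 ≤ j) (hs : Odd s)
    (hq : q.Prime) (hsq : s ∣ q - 1) (hnb : ¬ BadHJ μ δ j q ((q - 1) / s))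
    (c : ℕ) (hc : 1 ≤ c) (hcj : c.primeFactors.card < j) (x y z : ℤ)
    (hco : IsCoprime ((c : ℤ) * x) y) (hz : δ = 1 → Odd z)
    (hpX : ∀ i < j, ¬ ((2 * μ i + 1 : ℕ) : ℤ) ∣ (c : ℤ) * x)
    (hpY : ∀ i < j, ¬ ((2 * μ i + 1 : ℕ) : ℤ) ∣ y)
    (heq : (c : ℤ) ^ 2 * x ^ (2 * s) - δ * y ^ (2 * s) = z ^ (HK μ j)) : False := by
  have hF' : Fact q.Prime := ⟨hq⟩
  have hc0 : (c : ℤ) ≠ 0 := by exact_mod_cast (by omega : c ≠ 0)
  have hcoXY : IsCoprime ((c : ℤ) * x ^ s) (y ^ s) := by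
    have e1 := hco.of_mul_left_left
    have e2 := hco.of_mul_left_right
    exact (e1.mul_left e2.pow_left).pow_right
  obtain ⟨u, v, hu, hv⟩ := H_desc μ hμ.pos δ hδ j ((c : ℤ) * x ^ s) (y ^ s) z hcoXY hz (by
    rw [← heq]
    ring)
  have hpp : ∀ i, Prime ((2 * μ i + 1 : ℕ) : ℤ) := fun i => Nat.prime_iff_prime_int.mp (hpr i)
  -- divisibility
  have hUd : ∀ i ≤ j, HU μ δ u v i ∣ (c : ℤ) * x ^ s := fun i hi => by
    rw [hu]; exact HU_dvd μ δ u v i j hi
  have hVd : ∀ i ≤ j, HV μ δ u v i ∣ y ^ s := fun i hi => by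
    rw [hv]; exact HV_dvd μ δ u v i j hi
  have hcop : ∀ i ≤ j, IsCoprime (HU μ δ u v i) (HV μ δ u v i) := by
    intro i hi
    exact (hcoXY.of_isCoprime_of_dvd_left (hUd i hi)).of_isCoprime_of_dvd_right (hVd i hi)
  have h3U : ∀ i < j, ¬ ((2 * μ i + 1 : ℕ) : ℤ) ∣ HU μ δ u v i := by
    intro i hi h
    have h1 := h.trans (hUd i hi.le)
    rcases (hpp i).dvd_or_dvd h1 with h2 | h2
    · exact hpX i hi (h2.mul_right x)
    · exact hpX i hi (((hpp i).dvd_of_dvd_pow h2).mul_left _)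
  have h3V : ∀ i < j, ¬ ((2 * μ i + 1 : ℕ) : ℤ) ∣ HV μ δ u v i := by
    intro i hi h
    exact hpY i hi ((hpp i).dvd_of_dvd_pow (h.trans (hVd i hi.le)))
  have hδu : ∀ w : ℤ, IsCoprime w δ := by
    intro w
    rcases hδ with h | h
    · rw [h]; exact isCoprime_one_right
    · rw [h]; exact isCoprime_one_right.neg_right
  have hUF : ∀ i < j, IsCoprime (HU μ δ u v i) (HF μ δ u v i) := fun i hi =>
    cop_F (μ i) (hpr i) δ _ _ (hcop i hi.le) (hδu _) (h3U i hi)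
  have hVG : ∀ i < j, IsCoprime (HV μ δ u v i) (HG μ δ u v i) := fun i hi =>
    cop_G (μ i) (hpr i) δ _ _ (hcop i hi.le) (h3V i hi)
  obtain ⟨hA1, -⟩ := seq_cop (HU μ δ u v) (HF μ δ u v) j (HU_succ μ δ u v) hUF
  obtain ⟨hB1, M0, hB2, hB3⟩ := seq_cop (HV μ δ u v) (HG μ δ u v) j (HV_succ μ δ u v) hVG
  obtain ⟨i0, hi0, hci0⟩ := factor_free c hc (HF μ δ u v) j hcj
    (seq_pair (HU μ δ u v) (HF μ δ u v) j (HU_succ μ δ u v) hUF)
  obtain ⟨M1, hM1, hM1c⟩ := hA1 i0 hi0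
  obtain ⟨w3, hw3⟩ := factor_pow c s hs x (HF μ δ u v i0) M1 (by rw [← hM1, ← hu]) hc0 hM1c hci0
  obtain ⟨N0, hN0, hN0c⟩ := hB1 0 (by omega)
  obtain ⟨N1, hN1, hN1c⟩ := hB1 1 (by omega)
  obtain ⟨w1, hw1⟩ := factor_pow 1 s hs y (HG μ δ u v 0) N0 (by rw [← hN0, ← hv, one_mul])
    one_ne_zero hN0c isCoprime_one_right
  obtain ⟨w2, hw2⟩ := factor_pow 1 s hs y (HG μ δ u v 1) N1 (by rw [← hN1, ← hv, one_mul])
    one_ne_zero hN1c isCoprime_one_right
  obtain ⟨w0, hw0⟩ := factor_pow 1 s hs y (HV μ δ u v 0) M0 (by rw [← hB2, ← hv, one_mul])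
    one_ne_zero hB3 isCoprime_one_right
  apply hnb
  have hsn : s * ((q - 1) / s) = q - 1 := Nat.mul_div_cancel' hsq
  have hpm : ∀ f w : ℤ, f = w ^ s → ((f : ZMod q) = 0 ∨ (f : ZMod q) ^ ((q - 1) / s) = 1) := by
    intro f w hf
    have := pow_mod q s _ hq hsn 1 w (f : ZMod q) 1 one_ne_zero (by
      rw [hf]
      push_cast
      ring)
    rw [one_mul, Nat.cast_one, one_pow] at this
    exact this
  have mF := fun i => map_HF μ (Int.castRingHom (ZMod q)) δ u v i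
  simp only [eq_intCast] at mF
  refine ⟨i0, Finset.mem_range.mpr hi0, (u : ZMod q), (v : ZMod q), ?_, ?_, ?_, ?_, ?_⟩
  · by_contra hcon
    push Not at hcon
    obtain ⟨g1, g2⟩ := hcon
    rw [ZMod.intCast_zmod_eq_zero_iff_dvd] at g1 g2
    have h0 := hcop 0 (by omega)
    rw [HU_zero, HV_zero] at h0
    have := h0.isUnit_of_dvd' g1 g2
    rw [Int.isUnit_iff_natAbs_eq, Int.natAbs_natCast] at this
    have := hq.two_le
    omega
  · exact hpm v w0 hw0
  · rw [← (mF 0).2]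
    exact hpm _ w1 hw1
  · rw [← (mF 1).2]
    exact hpm _ w2 hw2
  · rw [← (mF i0).1]
    exact hpm _ w3 hw3

/-- the tower of an odd number: its prime factors in descending order -/
def muOf (k : ℕ) (i : ℕ) : ℕ := (k.primeFactorsList.reverse.getD i 3 - 1) / 2

lemma prod_getD (d : ℕ) (l : List ℕ) : ∏ i ∈ Finset.range l.length, l.getD i d = l.prod := by
  induction l with
  | nil => simp
  | cons a l ih =>
    rw [List.length_cons, Finset.prod_range_succ', List.prod_cons, ← ih]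
    simp [mul_comm]

lemma getD_mem (l : List ℕ) (i d : ℕ) : l.getD i d = d ∨ l.getD i d ∈ l := by
  by_cases h : i < l.length
  · right
    rw [List.getD_eq_getElem _ _ h]
    exact List.getElem_mem h
  · left
    exact List.getD_eq_default _ _ (by omega)

lemma muOf_spec (k : ℕ) (hk : Odd k) (i : ℕ) :
    2 * muOf k i + 1 = k.primeFactorsList.reverse.getD i 3 ∧
    (k.primeFactorsList.reverse.getD i 3).Prime := by
  have h1 : (k.primeFactorsList.reverse.getD i 3).Prime ∧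
      Odd (k.primeFactorsList.reverse.getD i 3) := by
    rcases getD_mem k.primeFactorsList.reverse i 3 with h | h
    · rw [h]
      exact ⟨Nat.prime_three, by decide⟩
    · rw [List.mem_reverse] at h
      exact ⟨Nat.prime_of_mem_primeFactorsList h,
        hk.of_dvd_nat (Nat.dvd_of_mem_primeFactorsList h)⟩
  refine ⟨?_, h1.1⟩
  unfold muOf
  obtain ⟨m, hm⟩ := h1.2
  omega

lemma muOf_HK (k : ℕ) (hk : Odd k) : HK (muOf k) k.primeFactorsList.length = k := by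
  unfold HK
  have h1 : ∏ l ∈ Finset.range k.primeFactorsList.length, (2 * muOf k l + 1) =
      ∏ l ∈ Finset.range k.primeFactorsList.reverse.length,
        k.primeFactorsList.reverse.getD l 3 := by
    rw [List.length_reverse]
    exact Finset.prod_congr rfl (fun i _ => (muOf_spec k hk i).1)
  rw [h1, prod_getD, List.prod_reverse, Nat.prod_primeFactorsList (by
    rintro rfl
    exact (by decide : ¬ Odd 0) hk)]

lemma muOf_dvd (k : ℕ) (hk : Odd k) (i : ℕ) (hi : i < k.primeFactorsList.length) :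
    2 * muOf k i + 1 ∣ k := by
  rw [(muOf_spec k hk i).1, List.getD_eq_getElem _ _ (by rwa [List.length_reverse])]
  apply Nat.dvd_of_mem_primeFactorsList
  rw [← List.mem_reverse]
  exact List.getElem_mem _

lemma muOf_le (k : ℕ) (hk : Odd k) : muOf k 1 ≤ muOf k 0 := by
  have h0 := muOf_spec k hk 0
  have h1 := muOf_spec k hk 1
  have hle : k.primeFactorsList.reverse.getD 1 3 ≤ k.primeFactorsList.reverse.getD 0 3 := by
    have hs : k.primeFactorsList.reverse.Pairwise (fun a b => b ≤ a) := by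
      rw [List.pairwise_reverse]
      exact (Nat.primeFactorsList_sorted k).pairwise
    have hodd := h0.1
    have hp0 := h0.2.two_le
    rcases h : k.primeFactorsList.reverse with _ | ⟨a, _ | ⟨b, t⟩⟩
    · simp
    · rw [h] at hodd hp0
      simp at hodd hp0 ⊢
      omega
    · rw [h] at hs
      simp only [List.pairwise_cons] at hs
      simpa using hs.1 b (by simp)
  omega

lemma muOf_OKH (k : ℕ) (hk : Odd k) : OKH (muOf k) := by
  have hp : ∀ i, (2 * muOf k i + 1).Prime := by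
    intro i
    rw [(muOf_spec k hk i).1]
    exact (muOf_spec k hk i).2
  refine ⟨?_, muOf_le k hk, hp 0, hp 1⟩
  intro i
  have := (hp i).two_le
  omega

end Pool.Agent.H573.AHB
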