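import Pool.Agent.H573.AHB.GTg

/-!
Prime divisors of the factors of the tower, and the refined local theorem.
-/

namespace Pool.Agent.H573.AHB

open Filter

lemma H_pow {R : Type*} [CommRing R] (μ : ℕ → ℕ) {δ ω : R} (hω : ω ^ 2 = δ) (u v : R) (i : ℕ) :
    (u + ω * v) ^ (HK μ i) = HU μ δ u v i + ω * HV μ δ u v i ∧
    (u - ω * v) ^ (HK μ i) = HU μ δ u v i - ω * HV μ δ u v i := by
  induction i with
  | zero => simp [HK_zero]
  | succ i ih =>
    rw [HK_succ, pow_mul, pow_mul, ih.1, ih.2, pow_FG hω, pow_FG' hω, HU_succ, HV_succ, HF, HG]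
    constructor <;> ring

/-- `N ∣ K p`, `N ∤ K` -/
lemma order_dvd (N K p : ℕ) (hp : p.Prime) (hK : K ≠ 0) (h1 : N ∣ K * p) (h2 : ¬ N ∣ K) :
    p ^ (K.factorization p + 1) ∣ N := by
  have hN : N ≠ 0 := by
    rintro rfl
    rw [zero_dvd_iff] at h1
    have := hp.pos
    rcases Nat.mul_eq_zero.mp h1 with h | h <;> omega
  rw [hp.pow_dvd_iff_le_factorization hN]
  by_contra hcon
  push Not at hcon
  apply h2
  rw [← Nat.factorization_le_iff_dvd hN hK]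
  intro r
  by_cases hr : r = p
  · subst hr
    omega
  · have h3 := (Nat.factorization_le_iff_dvd hN (Nat.mul_ne_zero hK hp.ne_zero)).mpr h1 r
    rw [Nat.factorization_mul hK hp.ne_zero, Finsupp.add_apply, hp.factorization,
      Finsupp.single_apply, if_neg (Ne.symm hr), add_zero] at h3
    exact h3

/-- a prime divisor of a factor of the tower -/
lemma HF_prime (μ : ℕ → ℕ) (hpr : ∀ i, (2 * μ i + 1).Prime) (δ : ℤ) (hδ : δ = 1 ∨ δ = -1)
    (u v : ℤ) (huv : IsCoprime u v) (i ℓ : ℕ) (hℓ : ℓ.Prime) (hℓ2 : ℓ ≠ 2)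
    (hF : (ℓ : ℤ) ∣ HF μ δ u v i) (hU : ¬ (ℓ : ℤ) ∣ HU μ δ u v i) :
    (2 * μ i + 1) ^ ((HK μ i).factorization (2 * μ i + 1) + 1) ∣ ℓ - 1 ∨
    (2 * μ i + 1) ^ ((HK μ i).factorization (2 * μ i + 1) + 1) ∣ ℓ + 1 := by
  have hfact : Fact ℓ.Prime := ⟨hℓ⟩
  obtain ⟨K, hK1, hK2, hK3⟩ : ∃ (K : Type) (_ : Field K) (_ : CharP K ℓ), IsAlgClosed K := by
    have : CharP (AlgebraicClosure (ZMod ℓ)) ℓ :=
      charP_of_injective_algebraMap (algebraMap (ZMod ℓ) _).injective ℓ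
    exact ⟨AlgebraicClosure (ZMod ℓ), inferInstance, this, inferInstance⟩
  obtain ⟨ω, hω⟩ := IsAlgClosed.exists_pow_nat_eq (δ : K) (n := 2) (by norm_num)
  have hℓodd : Odd ℓ := hℓ.odd_of_ne_two hℓ2
  have h2 : (2 : K) ≠ 0 := by
    intro h
    have h3 : ((2 : ℕ) : K) = 0 := by exact_mod_cast h
    rw [CharP.cast_eq_zero_iff K ℓ] at h3
    have := Nat.le_of_dvd (by norm_num) h3
    have := hℓ.two_le
    omega
  have hδK : (δ : K) ^ 2 = 1 := by rcases hδ with rfl | rfl <;> norm_num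
  have hω0 : ω ≠ 0 := by
    rintro rfl
    rw [zero_pow (by norm_num)] at hω
    rw [← hω, zero_pow (by norm_num)] at hδK
    exact zero_ne_one hδK
  obtain ⟨w, hw⟩ : ∃ w : K, w = u + ω * v := ⟨_, rfl⟩
  obtain ⟨w', hw'⟩ : ∃ w' : K, w' = u - ω * v := ⟨_, rfl⟩
  have hpow := fun i => H_pow μ hω (u : K) (v : K) i
  rw [← hw, ← hw'] at hpow
  have mU := fun i => map_H μ (Int.castRingHom K) δ u v i
  have mF := fun i => map_HF μ (Int.castRingHom K) δ u v i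
  simp only [eq_intCast] at mU mF
  have hUK : HU μ (δ : K) u v i ≠ 0 := by
    rw [← (mU i).1]
    intro h
    rw [CharP.intCast_eq_zero_iff K ℓ] at h
    exact hU h
  have hFK : HF μ (δ : K) u v i = 0 := by
    rw [← (mF i).1, CharP.intCast_eq_zero_iff K ℓ]
    exact hF
  have hU1 : HU μ (δ : K) u v (i + 1) = 0 := by rw [HU_succ, hFK, mul_zero]
  have hsum : w ^ (HK μ (i + 1)) = -(w' ^ (HK μ (i + 1))) := by
    rw [(hpow (i + 1)).1, (hpow (i + 1)).2, hU1]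
    ring
  have hKpos := HK_pos μ (i + 1)
  have hw'0 : w' ≠ 0 := by
    intro h
    rw [h, zero_pow (by omega), neg_zero] at hsum
    have h3 := pow_eq_zero_iff (by omega) |>.mp hsum
    have hu0 : (u : K) = 0 := by
      have : 2 * (u : K) = 0 := by
        calc 2 * (u : K) = w + w' := by rw [hw, hw']; ring
          _ = 0 := by rw [h, h3, add_zero]
      exact (mul_eq_zero.mp this).resolve_left h2
    have hv0 : (v : K) = 0 := by
      have h4 : ω * (v : K) = 0 := by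
        calc ω * (v : K) = w - u := by rw [hw]; ring
          _ = 0 := by rw [h3, hu0, sub_zero]
      exact (mul_eq_zero.mp h4).resolve_left hω0
    rw [CharP.intCast_eq_zero_iff K ℓ] at hu0 hv0
    have h5 := huv.isUnit_of_dvd' hu0 hv0
    rw [Int.isUnit_iff_natAbs_eq, Int.natAbs_natCast] at h5
    exact hℓ.one_lt.ne' h5
  have hw0 : w ≠ 0 := by
    intro h
    rw [h, zero_pow (by omega)] at hsum
    exact pow_ne_zero _ hw'0 (neg_eq_zero.mp hsum.symm)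
  obtain ⟨ζ, hζ⟩ : ∃ ζ : K, ζ = -(w / w') := ⟨_, rfl⟩
  have hζpow : ∀ n : ℕ, Odd n → ζ ^ n = -(w ^ n / w' ^ n) := by
    intro n hn
    rw [hζ, hn.neg_pow, div_pow]
  have hz1 : ζ ^ (HK μ (i + 1)) = 1 := by
    rw [hζpow _ (HK_odd μ _), hsum]
    field_simp
  have hz2 : ζ ^ (HK μ i) ≠ 1 := by
    intro h
    rw [hζpow _ (HK_odd μ _)] at h
    have h3 : w ^ HK μ i = -(w' ^ HK μ i) := by
      have h4 : w' ^ HK μ i ≠ 0 := pow_ne_zero _ hw'0
      field_simp at h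
      linear_combination -h
    rw [(hpow i).1, (hpow i).2] at h3
    have h5 : 2 * HU μ (δ : K) u v i = 0 := by linear_combination h3
    exact hUK ((mul_eq_zero.mp h5).resolve_left h2)
  -- Frobenius
  have hfrobu : ∀ a : ℤ, ((a : K)) ^ ℓ = a := by
    intro a
    have h3 : (ℓ : ℤ) ∣ a ^ ℓ - a := by
      rw [← ZMod.intCast_zmod_eq_zero_iff_dvd]
      push_cast
      rw [ZMod.pow_card, sub_self]
    have h4 : ((a ^ ℓ - a : ℤ) : K) = 0 := (CharP.intCast_eq_zero_iff K ℓ _).mpr h3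
    push_cast at h4
    linear_combination h4
  have hωℓ : ω ^ ℓ = ω ∨ ω ^ ℓ = -ω := by
    apply sq_eq_sq_iff_eq_or_eq_neg.mp
    rw [← pow_mul, mul_comm, pow_mul, hω, hfrobu]
  have hwℓ : w ^ (ℓ * ℓ) = w ∧ w' ^ (ℓ * ℓ) = w' := by
    have e1 : w ^ ℓ = u + ω ^ ℓ * v := by
      rw [hw, add_pow_char, mul_pow, hfrobu, hfrobu]
    have e2 : w' ^ ℓ = u - ω ^ ℓ * v := by
      rw [hw', sub_pow_char, mul_pow, hfrobu, hfrobu]
    have e3 : (ω ^ ℓ) ^ ℓ = ω := by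
      rcases hωℓ with h | h
      · rw [h, h]
      · rw [h, hℓodd.neg_pow, h, neg_neg]
    rw [pow_mul, pow_mul, e1, e2, add_pow_char, sub_pow_char, mul_pow, hfrobu, hfrobu, e3, hw, hw']
    exact ⟨rfl, rfl⟩
  have hζ0 : ζ ≠ 0 := by
    rw [hζ]
    exact neg_ne_zero.mpr (div_ne_zero hw0 hw'0)
  have hz3 : ζ ^ (ℓ * ℓ - 1) = 1 := by
    have h3 : ζ ^ (ℓ * ℓ) = ζ := by
      rw [hζpow _ (hℓodd.mul hℓodd), hwℓ.1, hwℓ.2, hζ]
    have h4 : ζ ^ (ℓ * ℓ) = ζ ^ (ℓ * ℓ - 1) * ζ := by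
      rw [← pow_succ]
      congr 1
      have : 1 ≤ ℓ * ℓ := Nat.mul_pos hℓ.pos hℓ.pos
      omega
    rw [h4] at h3
    have h5 : ζ ^ (ℓ * ℓ - 1) * ζ = 1 * ζ := by rw [h3, one_mul]
    exact mul_right_cancel₀ hζ0 h5
  -- the order
  have ho1 : orderOf ζ ∣ HK μ i * (2 * μ i + 1) := by
    rw [← HK_succ]
    exact orderOf_dvd_of_pow_eq_one hz1
  have ho2 : ¬ orderOf ζ ∣ HK μ i := fun h => hz2 (orderOf_dvd_iff_pow_eq_one.mp h)
  have ho3 : orderOf ζ ∣ ℓ * ℓ - 1 := orderOf_dvd_of_pow_eq_one hz3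
  have hKi := HK_pos μ i
  have hdvd := (order_dvd (orderOf ζ) (HK μ i) (2 * μ i + 1) (hpr i) (by omega) ho1 ho2).trans ho3
  have hfac : ℓ * ℓ - 1 = (ℓ - 1) * (ℓ + 1) := by
    obtain ⟨k, hk⟩ : ∃ k, ℓ = k + 1 := ⟨ℓ - 1, by have := hℓ.pos; omega⟩
    rw [hk, Nat.add_sub_cancel]
    have : (k + 1) * (k + 1) = k * (k + 1 + 1) + 1 := by ring
    omega
  rw [hfac] at hdvd
  have hp := hpr i
  by_cases hd : (2 * μ i + 1) ∣ ℓ - 1
  · left
    have hnd : ¬ (2 * μ i + 1) ∣ ℓ + 1 := by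
      intro h
      have h3 := Nat.dvd_sub h hd
      have h4 : ℓ + 1 - (ℓ - 1) = 2 := by have := hℓ.pos; omega
      rw [h4] at h3
      have h5 := (Nat.prime_dvd_prime_iff_eq hp Nat.prime_two).mp h3
      omega
    have hcop : Nat.Coprime ((2 * μ i + 1) ^ ((HK μ i).factorization (2 * μ i + 1) + 1)) (ℓ + 1) :=
      Nat.Coprime.pow_left _ ((Nat.Prime.coprime_iff_not_dvd hp).mpr hnd)
    exact hcop.dvd_of_dvd_mul_right hdvd
  · right
    have hcop : Nat.Coprime ((2 * μ i + 1) ^ ((HK μ i).factorization (2 * μ i + 1) + 1)) (ℓ - 1) :=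
      Nat.Coprime.pow_left _ ((Nat.Prime.coprime_iff_not_dvd hp).mpr hd)
    exact hcop.dvd_of_dvd_mul_left hdvd

/-- every factor meets `c`: an injective choice of primes -/
lemma factor_choice (c : ℕ) (Q : ℕ → ℤ) (j : ℕ)
    (hQ : ∀ a b, a < b → b < j → IsCoprime (Q a) (Q b)) (h : ∀ i < j, ¬ IsCoprime (Q i) (c : ℤ)) :
    ∃ f : ℕ → ℕ, (∀ i < j, (f i).Prime ∧ f i ∣ c ∧ (f i : ℤ) ∣ Q i) ∧
      ∀ a < j, ∀ b < j, f a = f b → a = b := by
  have h1 : ∀ i, i < j → ∃ ℓ : ℕ, ℓ.Prime ∧ ℓ ∣ c ∧ (ℓ : ℤ) ∣ Q i := by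
    intro i hi
    have h2 := h i hi
    rw [Int.isCoprime_iff_gcd_eq_one] at h2
    obtain ⟨ℓ, hℓ, h3, h4⟩ := Nat.Prime.not_coprime_iff_dvd.mp h2
    rw [Int.natAbs_natCast] at h4
    exact ⟨ℓ, hℓ, h4, Int.natCast_dvd.mpr h3⟩
  choose! f hf1 hf2 hf3 using h1
  refine ⟨f, fun i hi => ⟨hf1 i hi, hf2 i hi, hf3 i hi⟩, ?_⟩
  have key : ∀ a b, a < b → b < j → f a ≠ f b := by
    intro a b hab hb heq
    have h5 := hQ a b hab hb
    have h6 := h5.isUnit_of_dvd' (hf3 a (by omega)) (by rw [heq]; exact hf3 b hb)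
    rw [Int.isUnit_iff_natAbs_eq, Int.natAbs_natCast] at h6
    exact (hf1 a (by omega)).one_lt.ne' h6
  intro a ha b hb heq
  rcases lt_trichotomy a b with h1 | h1 | h1
  · exact absurd heq (key a b h1 hb)
  · exact h1
  · exact absurd heq.symm (key b a h1 ha)

/-- the prime power of a level -/
def qOf (μ : ℕ → ℕ) (i : ℕ) : ℕ := (2 * μ i + 1) ^ ((HK μ i).factorization (2 * μ i + 1) + 1)

/-- every prime power dividing the total exponent belongs to a level -/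
lemma level_of (μ : ℕ → ℕ) (hpr : ∀ i, (2 * μ i + 1).Prime) (j q : ℕ) (hq : IsPrimePow q)
    (hd : q ∣ HK μ j) : ∃ i < j, qOf μ i = q := by
  classical
  obtain ⟨p, e, hp, he, rfl⟩ := (isPrimePow_nat_iff q).mp hq
  have hex : ∃ n, p ^ e ∣ HK μ n := ⟨j, hd⟩
  have hmin := Nat.find_spec hex
  have hle : Nat.find hex ≤ j := Nat.find_min' hex hd
  obtain ⟨i, hi⟩ : ∃ i, Nat.find hex = i + 1 := by
    rcases Nat.eq_zero_or_pos (Nat.find hex) with h | h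
    · exfalso
      rw [h, HK_zero, Nat.dvd_one] at hmin
      have := Nat.one_lt_pow he.ne' hp.one_lt
      omega
    · exact ⟨Nat.find hex - 1, by omega⟩
  have hnot : ¬ p ^ e ∣ HK μ i := Nat.find_min hex (by omega)
  rw [hi, HK_succ] at hmin
  have hKi := HK_pos μ i
  have hpi : 2 * μ i + 1 = p := by
    by_contra hne
    apply hnot
    have hcop : Nat.Coprime (p ^ e) (2 * μ i + 1) :=
      Nat.Coprime.pow_left _ ((Nat.coprime_primes hp (hpr i)).mpr (Ne.symm hne))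
    exact hcop.dvd_of_dvd_mul_right hmin
  refine ⟨i, by omega, ?_⟩
  unfold qOf
  rw [hpi] at hmin ⊢
  congr 1
  rw [hp.pow_dvd_iff_le_factorization (by omega)] at hnot
  rw [hp.pow_dvd_iff_le_factorization (Nat.mul_ne_zero (by omega) hp.ne_zero),
    Nat.factorization_mul (by omega) hp.ne_zero, Finsupp.add_apply, hp.factorization,
    Finsupp.single_apply, if_pos rfl] at hmin
  omega

/-- distinct odd primes `ℓ_q ≡ ±1 (mod q)` dividing `c`, for all prime powers `q ∣ k` -/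
def Matched (k c : ℕ) : Prop :=
  ∃ ℓ : ℕ → ℕ, (∀ q, IsPrimePow q → q ∣ k →
      (ℓ q).Prime ∧ ℓ q ≠ 2 ∧ ℓ q ∣ c ∧ (q ∣ ℓ q - 1 ∨ q ∣ ℓ q + 1)) ∧
    ∀ q q', IsPrimePow q → IsPrimePow q' → q ∣ k → q' ∣ k → ℓ q = ℓ q' → q = q'

lemma matched_of (μ : ℕ → ℕ) (hpr : ∀ i, (2 * μ i + 1).Prime) (j c : ℕ) (f : ℕ → ℕ)
    (hf : ∀ i < j, (f i).Prime ∧ f i ≠ 2 ∧ f i ∣ c ∧ (qOf μ i ∣ f i - 1 ∨ qOf μ i ∣ f i + 1))
    (hinj : ∀ a < j, ∀ b < j, f a = f b → a = b) : Matched (HK μ j) c := by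
  classical
  have hlev : ∀ q, ∃ i, IsPrimePow q → q ∣ HK μ j → (i < j ∧ qOf μ i = q) := by
    intro q
    by_cases h : IsPrimePow q ∧ q ∣ HK μ j
    · obtain ⟨i, hi⟩ := level_of μ hpr j q h.1 h.2
      exact ⟨i, fun _ _ => hi⟩
    · exact ⟨0, fun h1 h2 => absurd ⟨h1, h2⟩ h⟩
  choose lev hlev using hlev
  refine ⟨fun q => f (lev q), ?_, ?_⟩
  · intro q hq hd
    obtain ⟨h1, h2⟩ := hlev q hq hd
    obtain ⟨g1, g2, g3, g4⟩ := hf (lev q) h1
    rw [h2] at g4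
    exact ⟨g1, g2, g3, g4⟩
  · intro q q' hq hq' hd hd' heq
    obtain ⟨h1, h2⟩ := hlev q hq hd
    obtain ⟨h1', h2'⟩ := hlev q' hq' hd'
    have := hinj _ h1 _ h1' heq
    rw [← h2, ← h2', this]

/-- the refined local theorem for the tower -/
theorem H_local' (μ : ℕ → ℕ) (hμ : OKH μ) (hpr : ∀ i, (2 * μ i + 1).Prime) (δ : ℤ)
    (hδ : δ = 1 ∨ δ = -1) (j s q : ℕ) (hj : 2 ≤ j) (hs : Odd s)
    (hq : q.Prime) (hsq : s ∣ q - 1) (hnb : ¬ BadHJ μ δ j q ((q - 1) / s))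
    (c : ℕ) (hc : 1 ≤ c) (hcj : ¬ Matched (HK μ j) c) (x y z : ℤ)
    (hco : IsCoprime ((c : ℤ) * x) y) (hz : δ = 1 → Odd z)
    (hpX : ∀ i < j, ¬ ((2 * μ i + 1 : ℕ) : ℤ) ∣ (c : ℤ) * x)
    (hpY : ∀ i < j, ¬ ((2 * μ i + 1 : ℕ) : ℤ) ∣ y)
    (heq : (c : ℤ) ^ 2 * x ^ (2 * s) - δ * y ^ (2 * s) = z ^ (HK μ j)) : False := by
  have hF' : Fact q.Prime := ⟨hq⟩
  have hc0 : (c : ℤ) ≠ 0 := by exact_mod_cast (by omega : c ≠ 0)
  have hcoXY : IsCoprime ((c : ℤ) * x ^ s) (y ^ s) := by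
    have e1 := hco.of_mul_left_left
    have e2 := hco.of_mul_left_right
    exact (e1.mul_left e2.pow_left).pow_right
  have heq' : ((c : ℤ) * x ^ s) ^ 2 - δ * (y ^ s) ^ 2 = z ^ (HK μ j) := by
    rw [← heq]
    ring
  obtain ⟨u, v, hu, hv⟩ := H_desc μ hμ.pos δ hδ j ((c : ℤ) * x ^ s) (y ^ s) z hcoXY hz heq'
  have hpp : ∀ i, Prime ((2 * μ i + 1 : ℕ) : ℤ) := fun i => Nat.prime_iff_prime_int.mp (hpr i)
  have hzo : Odd z := by
    rcases hδ with h | h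
    · exact hz h
    · obtain ⟨m, hm⟩ := HK_odd μ j
      have hm1 : 1 ≤ m := by
        have h3 : HK μ j = HK μ (j - 1) * (2 * μ (j - 1) + 1) := by
          rw [← HK_succ]
          congr 1
          omega
        have h4 := HK_pos μ (j - 1)
        have h5 := (hpr (j - 1)).two_le
        have h6 : 2 ≤ HK μ j := by
          rw [h3]
          nlinarith
        omega
      apply z_odd _ _ z m hm1 hcoXY
      rw [← hm, ← heq', h]
      ring
  have hnorm : u ^ 2 - δ * v ^ 2 = z := by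
    have h3 := norm_H μ δ u v j
    rw [← hu, ← hv, heq'] at h3
    exact ((HK_odd μ j).strictMono_pow.injective h3).symm
  -- divisibility
  have hUd : ∀ i ≤ j, HU μ δ u v i ∣ (c : ℤ) * x ^ s := fun i hi => by
    rw [hu]; exact HU_dvd μ δ u v i j hi
  have hVd : ∀ i ≤ j, HV μ δ u v i ∣ y ^ s := fun i hi => by
    rw [hv]; exact HV_dvd μ δ u v i j hi
  have hcop : ∀ i ≤ j, IsCoprime (HU μ δ u v i) (HV μ δ u v i) := by
    intro i hi
    exact (hcoXY.of_isCoprime_of_dvd_left (hUd i hi)).of_isCoprime_of_dvd_right (hVd i hi)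
  have h3U : ∀ i < j, ¬ ((2 * μ i + 1 : ℕ) : ℤ) ∣ HU μ δ u v i := by
    intro i hi h
    have h1 := h.trans (hUd i hi.le)
    rcases (hpp i).dvd_or_dvd h1 with h2 | h2
    · exact hpX i hi (h2.mul_right x)
    · exact hpX i hi (((hpp i).dvd_of_dvd_pow h2).mul_left _)
  have h3V : ∀ i < j, ¬ ((2 * μ i + 1 : ℕ) : ℤ) ∣ HV μ δ u v i := by
    intro i hi h
    exact hpY i hi ((hpp i).dvd_of_dvd_pow (h.trans (hVd i hi.le)))
  have hδu : ∀ w : ℤ, IsCoprime w δ := by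
    intro w
    rcases hδ with h | h
    · rw [h]; exact isCoprime_one_right
    · rw [h]; exact isCoprime_one_right.neg_right
  have hUF : ∀ i < j, IsCoprime (HU μ δ u v i) (HF μ δ u v i) := fun i hi =>
    cop_F (μ i) (hpr i) δ _ _ (hcop i hi.le) (hδu _) (h3U i hi)
  have hVG : ∀ i < j, IsCoprime (HV μ δ u v i) (HG μ δ u v i) := fun i hi =>
    cop_G (μ i) (hpr i) δ _ _ (hcop i hi.le) (h3V i hi)
  have huv : IsCoprime u v := hcop 0 (by omega)
  have hodd : ∀ i, Odd (HF μ δ u v i) := by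
    intro i
    have h3 := (FG_par δ (HU μ δ u v i) (HV μ δ u v i) (μ i)).1
    have h4 : Odd (HU μ δ u v i ^ 2 + δ * HV μ δ u v i ^ 2) := by
      have h5 : HU μ δ u v i ^ 2 + δ * HV μ δ u v i ^ 2 =
          z ^ (HK μ i) + 2 * (δ * HV μ δ u v i ^ 2) := by
        rw [← hnorm, ← norm_H]
        ring
      rw [h5]
      exact hzo.pow.add_even (even_two_mul _)
    have h5 := h4.pow (n := μ i)
    have h6 := h3.add_odd h5
    rw [sub_add_cancel] at h6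
    exact h6
  obtain ⟨hA1, -⟩ := seq_cop (HU μ δ u v) (HF μ δ u v) j (HU_succ μ δ u v) hUF
  obtain ⟨hB1, M0, hB2, hB3⟩ := seq_cop (HV μ δ u v) (HG μ δ u v) j (HV_succ μ δ u v) hVG
  obtain ⟨i0, hi0, hci0⟩ : ∃ i < j, IsCoprime (HF μ δ u v i) (c : ℤ) := by
    by_contra hcon
    push Not at hcon
    obtain ⟨f, hf1, hf2⟩ := factor_choice c (HF μ δ u v) j
      (seq_pair (HU μ δ u v) (HF μ δ u v) j (HU_succ μ δ u v) hUF) hcon
    apply hcj
    apply matched_of μ hpr j c f _ hf2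
    intro i hi
    obtain ⟨g1, g2, g3⟩ := hf1 i hi
    have hne2 : f i ≠ 2 := by
      intro h
      rw [h] at g3
      have h5 := hodd i
      rw [← Int.not_even_iff_odd] at h5
      exact h5 (even_iff_two_dvd.mpr g3)
    have hnU : ¬ ((f i : ℕ) : ℤ) ∣ HU μ δ u v i := by
      intro h
      have h6 := (hUF i hi).isUnit_of_dvd' h g3
      rw [Int.isUnit_iff_natAbs_eq, Int.natAbs_natCast] at h6
      exact g1.one_lt.ne' h6
    exact ⟨g1, hne2, g2, HF_prime μ hpr δ hδ u v huv i (f i) g1 hne2 g3 hnU⟩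
  obtain ⟨M1, hM1, hM1c⟩ := hA1 i0 hi0
  obtain ⟨w3, hw3⟩ := factor_pow c s hs x (HF μ δ u v i0) M1 (by rw [← hM1, ← hu]) hc0 hM1c hci0
  obtain ⟨N0, hN0, hN0c⟩ := hB1 0 (by omega)
  obtain ⟨N1, hN1, hN1c⟩ := hB1 1 (by omega)
  obtain ⟨w1, hw1⟩ := factor_pow 1 s hs y (HG μ δ u v 0) N0 (by rw [← hN0, ← hv, one_mul])
    one_ne_zero hN0c isCoprime_one_right
  obtain ⟨w2, hw2⟩ := factor_pow 1 s hs y (HG μ δ u v 1) N1 (by rw [← hN1, ← hv, one_mul])
    one_ne_zero hN1c isCoprime_one_right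
  obtain ⟨w0, hw0⟩ := factor_pow 1 s hs y (HV μ δ u v 0) M0 (by rw [← hB2, ← hv, one_mul])
    one_ne_zero hB3 isCoprime_one_right
  apply hnb
  have hsn : s * ((q - 1) / s) = q - 1 := Nat.mul_div_cancel' hsq
  have hpm : ∀ f w : ℤ, f = w ^ s → ((f : ZMod q) = 0 ∨ (f : ZMod q) ^ ((q - 1) / s) = 1) := by
    intro f w hf
    have := pow_mod q s _ hq hsn 1 w (f : ZMod q) 1 one_ne_zero (by
      rw [hf]
      push_cast
      ring)
    rw [one_mul, Nat.cast_one, one_pow] at this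
    exact this
  have mF := fun i => map_HF μ (Int.castRingHom (ZMod q)) δ u v i
  simp only [eq_intCast] at mF
  refine ⟨i0, Finset.mem_range.mpr hi0, (u : ZMod q), (v : ZMod q), ?_, ?_, ?_, ?_, ?_⟩
  · by_contra hcon
    push Not at hcon
    obtain ⟨g1, g2⟩ := hcon
    rw [ZMod.intCast_zmod_eq_zero_iff_dvd] at g1 g2
    have := huv.isUnit_of_dvd' g1 g2
    rw [Int.isUnit_iff_natAbs_eq, Int.natAbs_natCast] at this
    have := hq.two_le
    omega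
  · exact hpm v w0 hw0
  · rw [← (mF 0).2]
    exact hpm _ w1 hw1
  · rw [← (mF 1).2]
    exact hpm _ w2 hw2
  · rw [← (mF i0).1]
    exact hpm _ w3 hw3

end Pool.Agent.H573.AHB
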