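import Pool.Agent.H573.AHB.Second

/-!
The forms in the variables `X = u²`, `Y = δ v²`, and the configurations for the equation
`A₀ c² x^{2s} + B₀ d² y^{2s} = z^p`.
-/

namespace Pool.Agent.H573.AHB

open Polynomial Filter

/-- the pair of forms in `X`, `Y` -/
def PFG {R : Type*} [CommRing R] (X Y : R) : ℕ → R × R
  | 0 => (1, 1)
  | m + 1 => ((PFG X Y m).1 * (X + Y) + 2 * Y * (PFG X Y m).2,
      (PFG X Y m).2 * (X + Y) + 2 * X * (PFG X Y m).1)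

/-- the form `F` in `X = u²`, `Y = δ v²` -/
def PF {R : Type*} [CommRing R] (X Y : R) (m : ℕ) : R := (PFG X Y m).1

/-- the form `G` in `X = u²`, `Y = δ v²` -/
def PG {R : Type*} [CommRing R] (X Y : R) (m : ℕ) : R := (PFG X Y m).2

section
variable {R S : Type*} [CommRing R] [CommRing S]

@[simp] lemma PF_zero (X Y : R) : PF X Y 0 = 1 := rfl
@[simp] lemma PG_zero (X Y : R) : PG X Y 0 = 1 := rfl
lemma PF_succ (X Y : R) (m : ℕ) : PF X Y (m + 1) = PF X Y m * (X + Y) + 2 * Y * PG X Y m := rfl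
lemma PG_succ (X Y : R) (m : ℕ) : PG X Y (m + 1) = PG X Y m * (X + Y) + 2 * X * PF X Y m := rfl

lemma Fh_eq_PF (δ u v : R) (m : ℕ) :
    Fh δ u v m = PF (u ^ 2) (δ * v ^ 2) m ∧ Gh δ u v m = PG (u ^ 2) (δ * v ^ 2) m := by
  induction m with
  | zero => simp
  | succ m ih =>
    rw [Fh_succ, Gh_succ, PF_succ, PG_succ, ih.1, ih.2]
    exact ⟨rfl, rfl⟩

lemma PF_scale (a X Y : R) (m : ℕ) :
    PF (a * X) (a * Y) m = a ^ m * PF X Y m ∧ PG (a * X) (a * Y) m = a ^ m * PG X Y m := by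
  induction m with
  | zero => simp
  | succ m ih =>
    rw [PF_succ, PG_succ, PF_succ, PG_succ, ih.1, ih.2]
    constructor <;> ring

lemma Fh_scale (a b u v : R) (m : ℕ) :
    Fh (a * b) (a * u) v m = a ^ m * PF (a * u ^ 2) (b * v ^ 2) m ∧
    Gh (a * b) (a * u) v m = a ^ m * PG (a * u ^ 2) (b * v ^ 2) m := by
  rw [(Fh_eq_PF _ _ _ _).1, (Fh_eq_PF _ _ _ _).2, ← (PF_scale _ _ _ _).1, ← (PF_scale _ _ _ _).2]
  have e1 : (a * u) ^ 2 = a * (a * u ^ 2) := by ring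
  have e2 : a * b * v ^ 2 = a * (b * v ^ 2) := by ring
  rw [e1, e2]
  exact ⟨rfl, rfl⟩

lemma map_PF (ψ : R →+* S) (X Y : R) (m : ℕ) :
    ψ (PF X Y m) = PF (ψ X) (ψ Y) m ∧ ψ (PG X Y m) = PG (ψ X) (ψ Y) m := by
  induction m with
  | zero => simp
  | succ m ih =>
    rw [PF_succ, PG_succ, PF_succ, PG_succ]
    simp only [map_add, map_mul, ih.1, ih.2, map_ofNat, and_self]

lemma PF_mod_X (X Y : R) (m : ℕ) :
    X ∣ PF X Y m - (2 * m + 1) * Y ^ m ∧ X ∣ PG X Y m - Y ^ m := by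
  induction m with
  | zero => simp
  | succ m ih =>
    obtain ⟨⟨k, hk⟩, l, hl⟩ := ih
    have e1 := sub_eq_iff_eq_add.mp hk
    have e2 := sub_eq_iff_eq_add.mp hl
    refine ⟨⟨k * (X + Y) + ((2 * m + 1) * Y ^ m) + 2 * Y * l, ?_⟩,
      ⟨l * (X + Y) + Y ^ m + 2 * PF X Y m, ?_⟩⟩
    · rw [PF_succ, e1, e2]
      push_cast
      ring
    · rw [PG_succ, e2]
      ring

lemma PF_mod_Y (X Y : R) (m : ℕ) :
    Y ∣ PG X Y m - (2 * m + 1) * X ^ m ∧ Y ∣ PF X Y m - X ^ m := by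
  induction m with
  | zero => simp
  | succ m ih =>
    obtain ⟨⟨k, hk⟩, l, hl⟩ := ih
    have e1 := sub_eq_iff_eq_add.mp hk
    have e2 := sub_eq_iff_eq_add.mp hl
    refine ⟨⟨k * (X + Y) + ((2 * m + 1) * X ^ m) + 2 * X * l, ?_⟩,
      ⟨l * (X + Y) + X ^ m + 2 * PG X Y m, ?_⟩⟩
    · rw [PG_succ, e1, e2]
      push_cast
      ring
    · rw [PF_succ, e2]
      ring

end

lemma PF_dvd_p (m : ℕ) (hm : 1 ≤ m) (hp : (2 * m + 1).Prime) (X Y : ℤ) :
    (((2 * m + 1 : ℕ) : ℤ) ∣ PF X Y m → ((2 * m + 1 : ℕ) : ℤ) ∣ X) ∧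
    (((2 * m + 1 : ℕ) : ℤ) ∣ PG X Y m → ((2 * m + 1 : ℕ) : ℤ) ∣ Y) := by
  have : Fact (2 * m + 1).Prime := ⟨hp⟩
  have : CharP (AlgebraicClosure (ZMod (2 * m + 1))) (2 * m + 1) :=
    charP_of_injective_algebraMap (algebraMap (ZMod (2 * m + 1)) _).injective (2 * m + 1)
  obtain ⟨x, hx⟩ := IsAlgClosed.exists_pow_nat_eq
    (X : AlgebraicClosure (ZMod (2 * m + 1))) (n := 2) (by norm_num)
  obtain ⟨y, hy⟩ := IsAlgClosed.exists_pow_nat_eq
    (Y : AlgebraicClosure (ZMod (2 * m + 1))) (n := 2) (by norm_num)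
  have key := FG_char (K := AlgebraicClosure (ZMod (2 * m + 1))) m hm 1 x y one_ne_zero
  have hmap := map_PF (Int.castRingHom (AlgebraicClosure (ZMod (2 * m + 1)))) X Y m
  simp only [eq_intCast] at hmap
  rw [(Fh_eq_PF _ _ _ _).1, (Fh_eq_PF _ _ _ _).2, one_mul, hx, hy, ← hmap.1, ← hmap.2] at key
  constructor
  · intro h
    have h1 : ((PF X Y m : ℤ) : AlgebraicClosure (ZMod (2 * m + 1))) = 0 := by
      rw [CharP.intCast_eq_zero_iff _ (2 * m + 1)]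
      exact h
    have h2 := key.1 h1
    rw [h2, zero_pow (by norm_num)] at hx
    exact (CharP.intCast_eq_zero_iff _ (2 * m + 1) X).mp hx.symm
  · intro h
    have h1 : ((PG X Y m : ℤ) : AlgebraicClosure (ZMod (2 * m + 1))) = 0 := by
      rw [CharP.intCast_eq_zero_iff _ (2 * m + 1)]
      exact h
    have h2 := key.2 h1
    rw [h2, zero_pow (by norm_num)] at hy
    exact (CharP.intCast_eq_zero_iff _ (2 * m + 1) Y).mp hy.symm

/-- coprimality of `u` and `F` in the first case -/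
lemma cop_PF (m : ℕ) (hp : (2 * m + 1).Prime) (u a Y : ℤ) (huY : IsCoprime u Y)
    (hu : ¬ ((2 * m + 1 : ℕ) : ℤ) ∣ u) : IsCoprime u (PF (a * u ^ 2) Y m) := by
  have hpp : Prime ((2 * m + 1 : ℕ) : ℤ) := Nat.prime_iff_prime_int.mp hp
  obtain ⟨k, hk⟩ := (PF_mod_X (a * u ^ 2) Y m).1
  have h1 : PF (a * u ^ 2) Y m = (2 * m + 1) * Y ^ m + u * (a * u * k) := by
    have : a * u ^ 2 * k = u * (a * u * k) := by ring
    rw [← this, ← hk]
    ring
  rw [h1]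
  refine IsCoprime.add_mul_left_right ?_ _
  have h2 : IsCoprime u ((2 * m + 1 : ℕ) : ℤ) :=
    ((hpp.coprime_iff_not_dvd).mpr hu).symm
  push_cast at h2
  exact h2.mul_right huY.pow_right

/-- coprimality of `v` and `G` in the first case -/
lemma cop_PG (m : ℕ) (hp : (2 * m + 1).Prime) (v b X : ℤ) (hvX : IsCoprime v X)
    (hv : ¬ ((2 * m + 1 : ℕ) : ℤ) ∣ v) : IsCoprime v (PG X (b * v ^ 2) m) := by
  have hpp : Prime ((2 * m + 1 : ℕ) : ℤ) := Nat.prime_iff_prime_int.mp hp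
  obtain ⟨k, hk⟩ := (PF_mod_Y X (b * v ^ 2) m).1
  have h1 : PG X (b * v ^ 2) m = (2 * m + 1) * X ^ m + v * (b * v * k) := by
    have : b * v ^ 2 * k = v * (b * v * k) := by ring
    rw [← this, ← hk]
    ring
  rw [h1]
  refine IsCoprime.add_mul_left_right ?_ _
  have h2 : IsCoprime v ((2 * m + 1 : ℕ) : ℤ) :=
    ((hpp.coprime_iff_not_dvd).mpr hv).symm
  push_cast at h2
  exact h2.mul_right hvX.pow_right

/-- the second case for `u` -/
lemma second_PF (m : ℕ) (u a Y : ℤ) (huY : IsCoprime u Y)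
    (hu : ((2 * m + 1 : ℕ) : ℤ) ∣ u) :
    ∃ F1 : ℤ, PF (a * u ^ 2) Y m = ((2 * m + 1 : ℕ) : ℤ) * F1 ∧
      IsCoprime (((2 * m + 1 : ℕ) : ℤ) * u) F1 := by
  obtain ⟨k, hk⟩ := (PF_mod_X (a * u ^ 2) Y m).1
  obtain ⟨r, hr⟩ := hu
  refine ⟨Y ^ m + u * (a * r * k), ?_, ?_⟩
  · have h1 : PF (a * u ^ 2) Y m = (2 * m + 1) * Y ^ m + u ^ 2 * (a * k) := by
      have : a * u ^ 2 * k = u ^ 2 * (a * k) := by ring
      rw [← this, ← hk]
      ring
    have h2 : u ^ 2 = ((2 * m + 1 : ℕ) : ℤ) * (u * r) := by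
      rw [pow_two]
      nth_rewrite 2 [hr]
      ring
    rw [h1, h2]
    push_cast
    ring
  · have h1 : IsCoprime u (Y ^ m + u * (a * r * k)) := by
      refine IsCoprime.add_mul_left_right ?_ _
      exact huY.pow_right
    refine IsCoprime.mul_left ?_ h1
    exact h1.of_isCoprime_of_dvd_left ⟨r, hr⟩

/-- the second case for `v` -/
lemma second_PG (m : ℕ) (v b X : ℤ) (hvX : IsCoprime v X)
    (hv : ((2 * m + 1 : ℕ) : ℤ) ∣ v) :
    ∃ G1 : ℤ, PG X (b * v ^ 2) m = ((2 * m + 1 : ℕ) : ℤ) * G1 ∧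
      IsCoprime (((2 * m + 1 : ℕ) : ℤ) * v) G1 := by
  obtain ⟨k, hk⟩ := (PF_mod_Y X (b * v ^ 2) m).1
  obtain ⟨r, hr⟩ := hv
  refine ⟨X ^ m + v * (b * r * k), ?_, ?_⟩
  · have h1 : PG X (b * v ^ 2) m = (2 * m + 1) * X ^ m + v ^ 2 * (b * k) := by
      have : b * v ^ 2 * k = v ^ 2 * (b * k) := by ring
      rw [← this, ← hk]
      ring
    have h2 : v ^ 2 = ((2 * m + 1 : ℕ) : ℤ) * (v * r) := by
      rw [pow_two]
      nth_rewrite 2 [hr]
      ring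
    rw [h1, h2]
    push_cast
    ring
  · have h1 : IsCoprime v (X ^ m + v * (b * r * k)) := by
      refine IsCoprime.add_mul_left_right ?_ _
      exact hvX.pow_right
    refine IsCoprime.mul_left ?_ h1
    exact h1.of_isCoprime_of_dvd_left ⟨r, hr⟩

/-- `p^{2m+1} c'' = B^m c'^{2m}` is impossible for coprime `c'`, `c''` and `p ∤ B` -/
lemma no_val' (m : ℕ) (hm : 1 ≤ m) (hp : (2 * m + 1).Prime) (B c' c'' : ℕ)
    (hB : ¬ (2 * m + 1) ∣ B)
    (hco : Nat.Coprime c' c'') :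
    (2 * m + 1) ^ (2 * m) * ((2 * m + 1) * c'') ≠ B ^ m * c' ^ (2 * m) := by
  intro h
  obtain ⟨P, hP⟩ : ∃ P, P = 2 * m + 1 := ⟨_, rfl⟩
  rw [← hP] at h hB hp
  have hP0 : 0 < P := hp.pos
  have h4 : P ∣ c' := by
    have h5 : P ∣ B ^ m * c' ^ (2 * m) := by
      rw [← h]
      exact Dvd.dvd.mul_left (dvd_mul_right _ _) _
    rcases hp.dvd_mul.mp h5 with h6 | h6
    · exact absurd (hp.dvd_of_dvd_pow h6) hB
    · exact hp.dvd_of_dvd_pow h6
  have h7 : ¬ P ∣ c'' := by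
    intro h8
    have := Nat.dvd_gcd h4 h8
    rw [hco] at this
    exact hp.one_lt.ne' (Nat.dvd_one.mp this)
  obtain ⟨k, hk⟩ := h4
  rw [hk, mul_pow] at h
  have h9 : P * c'' = B ^ m * k ^ (2 * m) := by
    apply Nat.eq_of_mul_eq_mul_left (pow_pos hP0 (2 * m))
    rw [h]
    ring
  have h10 : P ∣ k := by
    have h5 : P ∣ B ^ m * k ^ (2 * m) := ⟨c'', h9.symm⟩
    rcases hp.dvd_mul.mp h5 with h6 | h6
    · exact absurd (hp.dvd_of_dvd_pow h6) hB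
    · exact hp.dvd_of_dvd_pow h6
  obtain ⟨l, hl⟩ := h10
  apply h7
  have h11 : P * c'' = P * (P * (P ^ (2 * m - 2) * (B ^ m * l ^ (2 * m)))) := by
    rw [h9, hl, mul_pow]
    have : P ^ (2 * m) = P * (P * P ^ (2 * m - 2)) := by
      rw [← pow_succ', ← pow_succ']
      congr 1
      omega
    rw [this]
    ring
  have h12 := Nat.eq_of_mul_eq_mul_left hP0 h11
  exact ⟨_, h12⟩

end Pool.Agent.H573.AHB
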