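import Pool.Agent.H573.AHB.BTpC

/-!
Prime moduli `q` with `1 + f q r` prime, `f` fixed.
-/

set_option autoImplicit false

namespace Pool.Agent.H573.AHB.BTp

open Finset Filter
open Pool.Agent.H262R4.FR Pool.Agent.H262R4.FR.TBT

lemma ratio_mul (f r : ℕ) (hf : 1 ≤ f) (hr : 1 ≤ r) :
    ((f * r : ℕ) : ℝ) / (Nat.totient (f * r) : ℝ) ≤
      ((f : ℝ) / Nat.totient f) * ((r : ℝ) / Nat.totient r) := by
  have h1 := Nat.totient_super_multiplicative f r
  have h2 : 0 < Nat.totient f := Nat.totient_pos.mpr hf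
  have h3 : 0 < Nat.totient r := Nat.totient_pos.mpr hr
  have h4 : (0 : ℝ) < (Nat.totient f : ℝ) * Nat.totient r := by
    have : 0 < Nat.totient f * Nat.totient r := Nat.mul_pos h2 h3
    exact_mod_cast this
  rw [div_mul_div_comm]
  push_cast
  apply div_le_div_of_nonneg_left (by positivity) h4
  exact_mod_cast h1

/-- the weights `|ω_W(r) - L|` against primes `q` with `1 + f q r` prime -/
theorem bt2f (f : ℕ) (hf : 1 ≤ f) (δ : ℝ) (hδ : 0 < δ) : ∃ C : ℝ, 0 < C ∧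
  ∀ (x Q R P P' : ℕ), 3 ≤ x → 3 ≤ Q → (x : ℝ) ^ δ ≤ Q → R * Q ≤ 3 * x →
    1 ≤ P → P' ≤ R →
    ∑ r ∈ Icc 1 R, |omW (Pr P P') r - mass (Pr P P')| *
      (((Ioc Q (2 * Q)).filter (fun q : ℕ => q.Prime ∧ 0 < 1 + ((f * q : ℕ) : ℤ) * r ∧
        (1 + ((f * q : ℕ) : ℤ) * r).toNat.Prime)).card : ℝ) ≤
      C * ((x : ℝ) / Real.log x ^ 2) * Real.sqrt (mass (Pr P P') + 1) := by
  obtain ⟨C1, hC1, h1⟩ := btsp
  have h2 := t_TK.1
  set C3 : ℝ := Real.exp 15 with hC3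
  have hC3p : 0 < C3 := Real.exp_pos _
  set F : ℝ := ((f : ℝ) / Nat.totient f) ^ 2 with hF
  have hfr : (0 : ℝ) < f := by exact_mod_cast hf
  have hφf : (0 : ℝ) < Nat.totient f := by exact_mod_cast Nat.totient_pos.mpr hf
  have hF0 : 0 < F := by rw [hF]; positivity
  refine ⟨6 * C1 * F * Real.sqrt C3 / δ ^ 2, by positivity, ?_⟩
  intro x Q R P P' hx hQ hxQ hRQ hP hP'
  set L := mass (Pr P P') with hL
  have hL0 : 0 ≤ L := by
    rw [hL]
    exact Finset.sum_nonneg fun p _ => by positivity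
  have hQr : (3 : ℝ) ≤ Q := by exact_mod_cast hQ
  have hxr : (3 : ℝ) ≤ x := by exact_mod_cast hx
  have hlogQ : 0 < Real.log Q := Real.log_pos (by linarith)
  have hlogx : 0 < Real.log x := Real.log_pos (by linarith)
  have hlog : δ * Real.log x ≤ Real.log Q := by
    have := Real.log_le_log (Real.rpow_pos_of_pos (by linarith) δ) hxQ
    rwa [Real.log_rpow (by linarith)] at this
  have s1 : ∑ r ∈ Icc 1 R, |omW (Pr P P') r - L| *
      (((Ioc Q (2 * Q)).filter (fun q : ℕ => q.Prime ∧ 0 < 1 + ((f * q : ℕ) : ℤ) * r ∧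
        (1 + ((f * q : ℕ) : ℤ) * r).toNat.Prime)).card : ℝ) ≤
      C1 * ((Q : ℝ) / Real.log Q ^ 2) * F * ∑ r ∈ Icc 1 R, |omW (Pr P P') r - L| *
        ((r : ℝ) / Nat.totient r) ^ 2 := by
    rw [Finset.mul_sum]
    refine Finset.sum_le_sum fun r hr => ?_
    rw [Finset.mem_Icc] at hr
    have := h1 Q (f * r) hQ (Nat.mul_pos hf hr.1)
    have e : ∀ q : ℕ, (q : ℤ) * ((f * r : ℕ) : ℤ) = ((f * q : ℕ) : ℤ) * (r : ℤ) := by
      intro q
      push_cast
      ring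
    simp only [e] at this
    have h5 := ratio_mul f r hf hr.1
    have h6 : (((f * r : ℕ) : ℝ) / (Nat.totient (f * r) : ℝ)) ^ 2 ≤
        F * ((r : ℝ) / Nat.totient r) ^ 2 := by
      rw [hF, ← mul_pow]
      exact pow_le_pow_left₀ (by positivity) h5 2
    calc |omW (Pr P P') r - L| * (((Ioc Q (2 * Q)).filter (fun q : ℕ => q.Prime ∧
        0 < 1 + ((f * q : ℕ) : ℤ) * r ∧ (1 + ((f * q : ℕ) : ℤ) * r).toNat.Prime)).card : ℝ)
        ≤ |omW (Pr P P') r - L| * (C1 * ((Q : ℝ) / Real.log Q ^ 2) *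
          (((f * r : ℕ) : ℝ) / (Nat.totient (f * r) : ℝ)) ^ 2) :=
          mul_le_mul_of_nonneg_left this (abs_nonneg _)
      _ ≤ |omW (Pr P P') r - L| * (C1 * ((Q : ℝ) / Real.log Q ^ 2) *
          (F * ((r : ℝ) / Nat.totient r) ^ 2)) := by
          apply mul_le_mul_of_nonneg_left _ (abs_nonneg _)
          exact mul_le_mul_of_nonneg_left h6 (by positivity)
      _ = _ := by ring
  have s2 : ∑ r ∈ Icc 1 R, |omW (Pr P P') r - L| * ((r : ℝ) / Nat.totient r) ^ 2 ≤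
      Real.sqrt (4 * R * (L + 1)) * Real.sqrt (C3 * R) := by
    refine (Real.sum_mul_le_sqrt_mul_sqrt _ _ _).trans ?_
    refine mul_le_mul ?_ ?_ (Real.sqrt_nonneg _) (Real.sqrt_nonneg _)
    · refine Real.sqrt_le_sqrt ?_
      simp only [sq_abs]
      exact h2 R P P' hP hP'
    · exact Real.sqrt_le_sqrt (part4 R)
  have s3 : Real.sqrt (4 * R * (L + 1)) * Real.sqrt (C3 * R) =
      2 * Real.sqrt C3 * R * Real.sqrt (L + 1) := by
    rw [← Real.sqrt_mul (by positivity)]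
    have : 4 * (R : ℝ) * (L + 1) * (C3 * R) = (2 * R) ^ 2 * (C3 * (L + 1)) := by ring
    rw [this, Real.sqrt_mul (by positivity), Real.sqrt_sq (by positivity),
      Real.sqrt_mul hC3p.le]
    ring
  have s4 : (R : ℝ) * Q ≤ 3 * x := by exact_mod_cast hRQ
  have s5 : (Q : ℝ) / Real.log Q ^ 2 * R ≤ 3 * x / (δ * Real.log x) ^ 2 := by
    rw [div_mul_eq_mul_div]
    refine div_le_div₀ (by positivity) (by linarith) (by positivity) ?_
    exact pow_le_pow_left₀ (by positivity) hlog 2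
  calc _ ≤ C1 * ((Q : ℝ) / Real.log Q ^ 2) * F * ∑ r ∈ Icc 1 R, |omW (Pr P P') r - L| *
        ((r : ℝ) / Nat.totient r) ^ 2 := s1
    _ ≤ C1 * ((Q : ℝ) / Real.log Q ^ 2) * F * (2 * Real.sqrt C3 * R * Real.sqrt (L + 1)) := by
        rw [← s3]
        exact mul_le_mul_of_nonneg_left s2 (by positivity)
    _ = (2 * C1 * F * Real.sqrt C3 * Real.sqrt (L + 1)) * ((Q : ℝ) / Real.log Q ^ 2 * R) := by ring
    _ ≤ (2 * C1 * F * Real.sqrt C3 * Real.sqrt (L + 1)) * (3 * x / (δ * Real.log x) ^ 2) :=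
        mul_le_mul_of_nonneg_left s5 (by positivity)
    _ = 6 * C1 * F * Real.sqrt C3 / δ ^ 2 * ((x : ℝ) / Real.log x ^ 2) * Real.sqrt (L + 1) := by
        field_simp
        ring

theorem py_fprime {f q : ℕ} (hf : 1 ≤ f) (hq : q.Prime) (hy : f < q) {e : ℝ} (he : 0 < e)
    (h : 3 / e ≤ (q : ℝ) - 1) : py f (f * q) ≤ 1 + e := by
  have h0 := py_prime hq hy he h
  have e1 : py f (f * q) = py f q := by
    unfold py
    apply prod_congr _ (fun _ _ => rfl)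
    ext p
    rw [mem_filter, mem_filter, Nat.mem_primeFactors, Nat.mem_primeFactors]
    constructor
    · rintro ⟨⟨hp, hd, hne⟩, hfp⟩
      refine ⟨⟨hp, ?_, hq.ne_zero⟩, hfp⟩
      rcases hp.dvd_mul.mp hd with h1 | h1
      · have := Nat.le_of_dvd hf h1
        omega
      · exact h1
    · rintro ⟨⟨hp, hd, hne⟩, hfp⟩
      exact ⟨⟨hp, hd.mul_left _, Nat.mul_ne_zero (by omega) hq.ne_zero⟩, hfp⟩
  rw [e1]
  exact h0

end Pool.Agent.H573.AHB.BTp
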