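import Pool.Agent.H573.AHB.GfB
import Pool.Agent.H573.AHB.GoldB

/-!
Large prime factors of `q - 1` for primes `q = 1 mod f`: the finite part of Chebyshev's method.
-/

set_option autoImplicit false

namespace Pool.Agent.H573.AHB.Gold

open Finset Filter
open ArithmeticFunction (vonMangoldt)
open Pool.Agent.Y889.PN (PS bvmax)
open Pool.Agent.H262R4.FR (Pr piq)

/-- `∑ log q` over the primes `q ≤ x` with `f ∣ q - 1` and `d ∣ q - 1` -/
noncomputable def Thf (f x d : ℕ) : ℝ :=
  ∑ q ∈ (PX x).filter (fun q => f ∣ q - 1 ∧ d ∣ q - 1), Real.log q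

/-- `∑ log q` over the primes `q ≤ x` with `f ∣ q - 1` -/
noncomputable def Tf (f x : ℕ) : ℝ := ∑ q ∈ (PX x).filter (fun q => f ∣ q - 1), Real.log q

lemma Thf_nonneg (f x d : ℕ) : 0 ≤ Thf f x d := sum_nonneg fun _ _ => Real.log_natCast_nonneg _

lemma Thf_le_Th (f x d : ℕ) : Thf f x d ≤ Th x d := by
  unfold Thf Th
  apply sum_le_sum_of_subset_of_nonneg
  · intro q hq
    rw [mem_filter] at hq ⊢
    exact ⟨hq.1, hq.2.2⟩
  · intro q _ _
    exact Real.log_natCast_nonneg _

lemma Thf_eq (f x d : ℕ) : Thf f x d = Th x (Nat.lcm f d) := by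
  unfold Thf Th
  apply sum_congr _ (fun _ _ => rfl)
  ext q
  rw [mem_filter, mem_filter, Nat.lcm_dvd_iff]

lemma switchf (f x : ℕ) :
    ∑ q ∈ (PX x).filter (fun q => f ∣ q - 1), Real.log q * Real.log ((q - 1 : ℕ) : ℝ) =
    ∑ d ∈ Icc 1 x, vonMangoldt d * Thf f x d := by
  have h1 : ∀ q ∈ (PX x).filter (fun q => f ∣ q - 1), Real.log q * Real.log ((q - 1 : ℕ) : ℝ) =
      ∑ d ∈ Icc 1 x, if d ∣ q - 1 then vonMangoldt d * Real.log q else 0 := by
    intro q hq
    rw [mem_filter, mem_PX] at hq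
    have h2 := hq.1.2.two_le
    rw [log_pred (q - 1) x (by omega) (by omega), mul_sum]
    apply sum_congr rfl
    intro d _
    split_ifs
    · ring
    · ring
  rw [sum_congr rfl h1, sum_comm]
  apply sum_congr rfl
  intro d _
  unfold Thf
  rw [mul_sum, ← sum_filter, filter_filter]

lemma Mlcm (f D : ℕ) (hf : 1 ≤ f) (M : ℕ → ℝ) (hM0 : ∀ d, 0 ≤ M d) :
    ∑ d ∈ Icc 1 D, M (Nat.lcm f d) ≤ f * ∑ e ∈ Icc 1 (f * D), M e := by
  have h1 : ∀ d ∈ Icc 1 D, M (Nat.lcm f d) ≤ ∑ g ∈ Icc 1 f, M (g * d) := by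
    intro d hd
    rw [mem_Icc] at hd
    have hg : 0 < Nat.gcd f d := Nat.gcd_pos_of_pos_left _ hf
    have e1 : Nat.lcm f d = f / Nat.gcd f d * d := by
      unfold Nat.lcm
      rw [Nat.mul_div_right_comm (Nat.gcd_dvd_left f d)]
    rw [e1]
    apply single_le_sum (f := fun g => M (g * d)) (fun _ _ => hM0 _)
    rw [mem_Icc]
    exact ⟨Nat.div_pos (Nat.le_of_dvd hf (Nat.gcd_dvd_left f d)) hg, Nat.div_le_self _ _⟩
  refine (sum_le_sum h1).trans ?_
  rw [sum_comm]
  have h2 : ∀ g ∈ Icc 1 f, ∑ d ∈ Icc 1 D, M (g * d) ≤ ∑ e ∈ Icc 1 (f * D), M e := by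
    intro g hg
    rw [mem_Icc] at hg
    have hinj : Set.InjOn (fun d : ℕ => g * d) ((Icc 1 D : Finset ℕ) : Set ℕ) := by
      intro a _ b _ h
      exact Nat.eq_of_mul_eq_mul_left hg.1 h
    rw [← sum_image (f := fun e : ℕ => M e) hinj]
    apply sum_le_sum_of_subset_of_nonneg
    · intro e he
      rw [mem_image] at he
      obtain ⟨d, hd, rfl⟩ := he
      rw [mem_Icc] at hd ⊢
      exact ⟨Nat.mul_pos hg.1 hd.1, Nat.mul_le_mul hg.2 hd.2⟩
    · intro e _ _
      exact hM0 e
  refine (sum_le_sum h2).trans ?_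
  rw [sum_const, Nat.card_Icc, nsmul_eq_mul, Nat.add_sub_cancel]

/-- the main term: `∑ Λ(d) / φ(lcm(f, d))` -/
lemma philcm (f : ℕ) (hf : 1 ≤ f) (ε : ℝ) (hε : 0 < ε) : ∃ C : ℝ, 0 ≤ C ∧ ∀ D : ℕ, f ≤ D →
    ∑ d ∈ Ioc 0 D, vonMangoldt d / (Nat.totient (Nat.lcm f d) : ℝ) ≤
      (1 / (Nat.totient f : ℝ)) * ∑ d ∈ Ioc 0 D, vonMangoldt d / (Nat.totient d : ℝ) + C := by
  obtain ⟨D0, hD0⟩ := Pool.Agent.K3h65.RL.np_tail ε hε
  obtain ⟨D1, hD1⟩ : ∃ D1, D1 = max D0 f := ⟨_, rfl⟩
  have hv : ∀ n, 0 ≤ vonMangoldt n := fun n => ArithmeticFunction.vonMangoldt_nonneg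
  refine ⟨∑ d ∈ Ioc 0 D1, vonMangoldt d + 2 * ε, by
    have := sum_nonneg (s := Ioc 0 D1) (fun d _ => hv d)
    linarith, ?_⟩
  intro D hfD
  have key : ∀ d ∈ Ioc 0 D, vonMangoldt d / (Nat.totient (Nat.lcm f d) : ℝ) ≤
      (1 / (Nat.totient f : ℝ)) * (vonMangoldt d / (Nat.totient d : ℝ)) +
        ((if d ≤ D1 then vonMangoldt d else 0) +
          (if D1 < d then 2 * (if d.Prime then 0 else vonMangoldt d / d) else 0)) := by
    intro d hd
    rw [mem_Ioc] at hd
    have hφd : (0 : ℝ) < Nat.totient d := by exact_mod_cast Nat.totient_pos.mpr hd.1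
    have hφf : (0 : ℝ) < Nat.totient f := by exact_mod_cast Nat.totient_pos.mpr hf
    have hmain0 : 0 ≤ (1 / (Nat.totient f : ℝ)) * (vonMangoldt d / (Nat.totient d : ℝ)) := by
      have := hv d
      positivity
    by_cases hco : Nat.Coprime f d
    · have e1 : vonMangoldt d / (Nat.totient (Nat.lcm f d) : ℝ) =
          (1 / (Nat.totient f : ℝ)) * (vonMangoldt d / (Nat.totient d : ℝ)) := by
        rw [Nat.Coprime.lcm_eq_mul hco, Nat.totient_mul hco]
        push_cast
        rw [one_div, ← div_eq_inv_mul, div_div, mul_comm (Nat.totient d : ℝ)]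
      rw [e1]
      have : 0 ≤ ((if d ≤ D1 then vonMangoldt d else 0) +
          (if D1 < d then 2 * (if d.Prime then 0 else vonMangoldt d / d) else 0) : ℝ) := by
        apply add_nonneg
        · split_ifs
          · exact hv d
          · exact le_rfl
        · split_ifs
          · simp
          · have := hv d
            positivity
          · exact le_rfl
      linarith
    · have hle : Nat.totient d ≤ Nat.totient (Nat.lcm f d) :=
        Nat.le_of_dvd (Nat.totient_pos.mpr (Nat.lcm_pos hf hd.1))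
          (Nat.totient_dvd_of_dvd (Nat.dvd_lcm_right f d))
      have hle' : (Nat.totient d : ℝ) ≤ Nat.totient (Nat.lcm f d) := by exact_mod_cast hle
      have h1 : vonMangoldt d / (Nat.totient (Nat.lcm f d) : ℝ) ≤
          vonMangoldt d / (Nat.totient d : ℝ) :=
        div_le_div_of_nonneg_left (hv d) hφd hle'
      by_cases hdD : d ≤ D1
      · rw [if_pos hdD, if_neg (by omega), add_zero]
        have h2 : vonMangoldt d / (Nat.totient d : ℝ) ≤ vonMangoldt d := by
          apply div_le_self (hv d)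
          exact_mod_cast Nat.totient_pos.mpr hd.1
        linarith
      · rw [if_neg hdD, if_pos (by omega), zero_add]
        by_cases hpp : IsPrimePow d
        · have hnp : ¬ d.Prime := by
            intro hp
            apply hco
            rw [Nat.coprime_comm]
            exact (Nat.Prime.coprime_iff_not_dvd hp).mpr (fun h => by
              have := Nat.le_of_dvd hf h
              have := le_max_right D0 f
              omega)
          rw [if_neg hnp]
          have h3 : (d : ℝ) / 2 ≤ Nat.totient d := by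
            obtain ⟨p, k, hp, hk, rfl⟩ := (isPrimePow_nat_iff d).mp hpp
            rw [Nat.totient_prime_pow hp hk]
            have hp2 := hp.two_le
            have e2 : p ^ k = p ^ (k - 1) * p := by
              rw [← pow_succ]
              congr 1
              omega
            have h4 : p ^ k ≤ 2 * (p ^ (k - 1) * (p - 1)) := by
              calc p ^ k = p ^ (k - 1) * p := e2
                _ ≤ p ^ (k - 1) * (2 * (p - 1)) := Nat.mul_le_mul_left _ (by omega)
                _ = _ := by ring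
            have h5 : ((p ^ k : ℕ) : ℝ) ≤ 2 * ((p ^ (k - 1) * (p - 1) : ℕ) : ℝ) := by
              exact_mod_cast h4
            linarith
          have hd0 : (0 : ℝ) < d := by exact_mod_cast hd.1
          have h4 : vonMangoldt d / (Nat.totient d : ℝ) ≤ 2 * (vonMangoldt d / d) := by
            rw [← mul_div_assoc, div_le_div_iff₀ hφd hd0]
            have := hv d
            nlinarith
          linarith
        · have h0 : vonMangoldt d = 0 := by
            rw [ArithmeticFunction.vonMangoldt_eq_zero_iff]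
            exact hpp
          rw [h0]
          simp
  refine (sum_le_sum key).trans ?_
  rw [sum_add_distrib, ← mul_sum, sum_add_distrib]
  have t1 : ∑ d ∈ Ioc 0 D, (if d ≤ D1 then vonMangoldt d else 0) ≤ ∑ d ∈ Ioc 0 D1, vonMangoldt d := by
    rw [← sum_filter]
    apply sum_le_sum_of_subset_of_nonneg
    · intro d hd
      rw [mem_filter, mem_Ioc] at hd
      rw [mem_Ioc]
      omega
    · intro d _ _
      exact hv d
  have t2 : ∑ d ∈ Ioc 0 D, (if D1 < d then 2 * (if d.Prime then 0 else vonMangoldt d / d) else 0) ≤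
      2 * ε := by
    rw [← sum_filter, ← mul_sum]
    have h1 := hD0 D1 (by rw [hD1]; exact le_max_left _ _) D
    have e : (Ioc 0 D).filter (fun d => D1 < d) = Ioc D1 D := by
      ext d
      rw [mem_filter, mem_Ioc, mem_Ioc]
      omega
    rw [e]
    linarith
  linarith

/-- the upper bound for the whole sum -/
lemma upperf (f x D Z : ℕ) (hf : 1 ≤ f) (hfD : f ≤ D) (hDZ : D ≤ Z) (hZx : Z ≤ x) (hD1 : 1 ≤ D)
    (M : ℕ → ℝ)
    (hM0 : ∀ d, 0 ≤ M d) (hM : ∀ d, 1 ≤ d → PS x d 1 ≤ x / (Nat.totient d : ℝ) + M d) :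
    ∑ d ∈ Icc 1 x, vonMangoldt d * Thf f x d ≤
      x * ∑ d ∈ Ioc 0 D, vonMangoldt d / (Nat.totient (Nat.lcm f d) : ℝ) +
      Real.log D * ∑ d ∈ Icc 1 D, M (Nat.lcm f d) +
      Real.log x * ∑ ℓ ∈ Pr D Z, Real.log ℓ * piq x (f * ℓ) 1 +
      x * Real.log x * ∑ d ∈ Ioc D x, (if d.Prime then 0 else vonMangoldt d / d) +
      ∑ ℓ ∈ Pr Z x, Real.log ℓ * Thf f x ℓ := by
  classical
  have hsplit : ∑ d ∈ Icc 1 x, vonMangoldt d * Thf f x d =
      ∑ d ∈ Ioc 0 D, vonMangoldt d * Thf f x d + (∑ d ∈ Ioc D x, vonMangoldt d * Thf f x d) := by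
    rw [sum_Ioc_consecutive _ (Nat.zero_le D) (hDZ.trans hZx)]
    rfl
  have hsplit2 : ∑ d ∈ Ioc D x, vonMangoldt d * Thf f x d =
      ∑ d ∈ Ioc D x, (if d.Prime then Real.log d * Thf f x d else 0) +
      ∑ d ∈ Ioc D x, (if d.Prime then 0 else vonMangoldt d * Thf f x d) := by
    rw [← sum_add_distrib]
    apply sum_congr rfl
    intro d _
    split_ifs with hp
    · rw [ArithmeticFunction.vonMangoldt_apply_prime hp, add_zero]
    · rw [zero_add]
  have hsplit3 : ∑ d ∈ Ioc D x, (if d.Prime then Real.log d * Thf f x d else 0) =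
      ∑ d ∈ Ioc D Z, (if d.Prime then Real.log d * Thf f x d else 0) +
      ∑ d ∈ Ioc Z x, (if d.Prime then Real.log d * Thf f x d else 0) :=
    (sum_Ioc_consecutive _ hDZ hZx).symm
  have hlx := Real.log_natCast_nonneg x
  have b1 : ∑ d ∈ Ioc 0 D, vonMangoldt d * Thf f x d ≤
      x * ∑ d ∈ Ioc 0 D, vonMangoldt d / (Nat.totient (Nat.lcm f d) : ℝ) +
        Real.log D * ∑ d ∈ Icc 1 D, M (Nat.lcm f d) := by
    have e : (Icc 1 D : Finset ℕ) = Ioc 0 D := rfl
    rw [e, mul_sum, mul_sum, ← sum_add_distrib]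
    apply sum_le_sum
    intro d hd
    rw [mem_Ioc] at hd
    have e1 := (Th_le_PS x (Nat.lcm f d)).trans (hM (Nat.lcm f d) (Nat.lcm_pos hf hd.1))
    rw [← Thf_eq] at e1
    have e2 : vonMangoldt d ≤ Real.log D := by
      refine ArithmeticFunction.vonMangoldt_le_log.trans ?_
      apply Real.log_le_log
      · exact_mod_cast hd.1
      · exact_mod_cast hd.2
    have e3 : 0 ≤ vonMangoldt d := ArithmeticFunction.vonMangoldt_nonneg
    calc vonMangoldt d * Thf f x d ≤
          vonMangoldt d * (x / (Nat.totient (Nat.lcm f d) : ℝ) + M (Nat.lcm f d)) :=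
          mul_le_mul_of_nonneg_left e1 e3
      _ = x * (vonMangoldt d / (Nat.totient (Nat.lcm f d) : ℝ)) +
          vonMangoldt d * M (Nat.lcm f d) := by ring
      _ ≤ x * (vonMangoldt d / (Nat.totient (Nat.lcm f d) : ℝ)) +
          Real.log D * M (Nat.lcm f d) := by
          have := mul_le_mul_of_nonneg_right e2 (hM0 (Nat.lcm f d))
          linarith
  have b2 : ∑ d ∈ Ioc D Z, (if d.Prime then Real.log d * Thf f x d else 0) ≤
      Real.log x * ∑ ℓ ∈ Pr D Z, Real.log ℓ * piq x (f * ℓ) 1 := by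
    unfold Pool.Agent.H262R4.FR.Pr
    rw [← sum_filter, mul_sum]
    apply sum_le_sum
    intro ℓ hℓ
    rw [mem_filter, mem_Ioc] at hℓ
    have hco : Nat.Coprime f ℓ := by
      rw [Nat.coprime_comm]
      exact (Nat.Prime.coprime_iff_not_dvd hℓ.2).mpr (fun h => by
        have := Nat.le_of_dvd hf h
        omega)
    have e0 : Thf f x ℓ = Th x (f * ℓ) := by rw [Thf_eq, Nat.Coprime.lcm_eq_mul hco]
    rw [e0]
    have e1 := mul_le_mul_of_nonneg_left (Th_le_piq x (f * ℓ)) (Real.log_natCast_nonneg ℓ)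
    linarith
  have b3 : ∑ d ∈ Ioc D x, (if d.Prime then 0 else vonMangoldt d * Thf f x d) ≤
      x * Real.log x * ∑ d ∈ Ioc D x, (if d.Prime then 0 else vonMangoldt d / d) := by
    rw [mul_sum]
    apply sum_le_sum
    intro d hd
    rw [mem_Ioc] at hd
    split_ifs
    · simp
    · have e1 := (Thf_le_Th f x d).trans (Th_le_triv x d (by omega))
      calc vonMangoldt d * Thf f x d ≤ vonMangoldt d * (Real.log x * ((x : ℝ) / d)) :=
            mul_le_mul_of_nonneg_left e1 ArithmeticFunction.vonMangoldt_nonneg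
        _ = _ := by ring
  have b4 : ∑ ℓ ∈ Ioc Z x, (if ℓ.Prime then Real.log ℓ * Thf f x ℓ else 0) =
      ∑ ℓ ∈ Pr Z x, Real.log ℓ * Thf f x ℓ := by
    unfold Pool.Agent.H262R4.FR.Pr
    rw [← sum_filter]
  rw [hsplit, hsplit2, hsplit3]
  linarith

/-- the lower bound -/
lemma lowerf (f x y : ℕ) (hy : 1 ≤ y) (hyx : y ≤ x) :
    Real.log y * (Tf f x - ∑ q ∈ PX y, Real.log q) ≤
      ∑ q ∈ (PX x).filter (fun q => f ∣ q - 1), Real.log q * Real.log ((q - 1 : ℕ) : ℝ) := by
  classical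
  have h1 : ∀ q ∈ (PX x).filter (fun q => f ∣ q - 1), Real.log y * Real.log q ≤
      Real.log q * Real.log ((q - 1 : ℕ) : ℝ) + (if q ∈ PX y then Real.log y * Real.log q else 0) := by
    intro q hq
    rw [mem_filter, mem_PX] at hq
    have hq0 : 0 ≤ Real.log q * Real.log ((q - 1 : ℕ) : ℝ) :=
      mul_nonneg (Real.log_natCast_nonneg _) (Real.log_natCast_nonneg _)
    by_cases hqy : q ∈ PX y
    · rw [if_pos hqy]
      linarith
    · rw [if_neg hqy, add_zero, mul_comm]
      have h3 : y < q := by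
        by_contra h
        exact hqy (mem_PX.mpr ⟨by omega, hq.1.2⟩)
      apply mul_le_mul_of_nonneg_left _ (Real.log_natCast_nonneg q)
      apply Real.log_le_log
      · exact_mod_cast hy
      · exact_mod_cast (by omega : y ≤ q - 1)
  have h2 := sum_le_sum h1
  rw [← mul_sum, sum_add_distrib] at h2
  have h3 : ∑ q ∈ (PX x).filter (fun q => f ∣ q - 1), (if q ∈ PX y then Real.log y * Real.log q else 0) ≤
      Real.log y * ∑ q ∈ PX y, Real.log q := by
    rw [← sum_filter, mul_sum]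
    apply sum_le_sum_of_subset_of_nonneg
    · intro q hq
      exact (mem_filter.mp hq).2
    · intro q _ _
      exact mul_nonneg (Real.log_natCast_nonneg _) (Real.log_natCast_nonneg _)
  unfold Tf
  rw [mul_sub]
  linarith

end Pool.Agent.H573.AHB.Gold
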