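import Pool.Agent.H573.AHB.GfC

/-!
Large prime factors of `q - 1` for primes `q = 1 mod f`: asymptotic estimates.
-/

set_option autoImplicit false

namespace Pool.Agent.H573.AHB.Gold

open Finset Filter
open ArithmeticFunction (vonMangoldt)
open Pool.Agent.Y889.PN (PS bvmax)
open Pool.Agent.H262R4.FR (Pr piq)
open Pool.Agent.H262R4.FR.TBT (evA evB evC)

/-- the prime number theorem in a progression (lower bound) -/
lemma pntf (f : ℕ) (hf : 1 ≤ f) (ε : ℝ) (hε : 0 < ε) : ∀ᶠ x : ℕ in atTop,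
    (1 / (Nat.totient f : ℝ) - ε) * x ≤ Tf f x := by
  obtain ⟨D0, hD0⟩ := Pool.Agent.K3h65.RL.np_tail (ε / 4) (by positivity)
  have e1 := evA (4 / ε * (∑ n ∈ Icc 1 D0, vonMangoldt n)) 0 1 one_pos
  have e0 := evA (f : ℝ) 0 (1 / 4) (by norm_num)
  filter_upwards [bv (1 / 4) (by norm_num) (by norm_num), evC (4 / ε), eventually_ge_atTop 3, e1,
    eventually_ge_atTop D0, e0] with x h1 h2 h3 h4 h5 h0
  obtain ⟨M, hM0, hM1, hM2⟩ := h1
  have hx0 : (0 : ℝ) < x := by
    have : 0 < x := by omega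
    exact_mod_cast this
  have hlx : 0 < Real.log x := Real.log_pos (by exact_mod_cast (by omega : 1 < x))
  have h6 := (abs_le.mp (hM1 f hf)).1
  have h7 : M f ≤ x / Real.log x := by
    refine le_trans ?_ hM2
    refine single_le_sum (f := M) (fun _ _ => hM0 _) ?_
    rw [mem_Icc]
    refine ⟨hf, Nat.le_floor ?_⟩
    rw [Real.rpow_zero, mul_one] at h0
    exact h0
  have h8 : (x : ℝ) / Real.log x ≤ ε / 4 * x := by
    rw [div_le_iff₀ hlx]
    rw [div_le_iff₀ hε] at h2
    nlinarith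
  have h10 : PS x f 1 ≤ Tf f x +
      (∑ n ∈ Icc 1 D0, vonMangoldt n + x * ∑ n ∈ Ioc D0 x, (if n.Prime then 0 else vonMangoldt n / n)) := by
    have e2 : PS x f 1 ≤ Tf f x +
        ∑ n ∈ Icc 1 x, (if n.Prime then 0 else vonMangoldt n) := by
      unfold Pool.Agent.Y889.PN.PS Tf PX
      rw [filter_filter, sum_filter, sum_filter, ← sum_add_distrib]
      apply sum_le_sum
      intro n hn
      rw [mem_Icc] at hn
      have hv : 0 ≤ vonMangoldt n := ArithmeticFunction.vonMangoldt_nonneg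
      by_cases hp : n.Prime
      · rw [if_pos hp, add_zero]
        by_cases hm : n ≡ 1 [MOD f]
        · have hd : f ∣ n - 1 := (Nat.modEq_iff_dvd' hn.1).mp hm.symm
          rw [if_pos hm, if_pos ⟨hp, hd⟩, ArithmeticFunction.vonMangoldt_apply_prime hp]
        · rw [if_neg hm]
          split_ifs
          · exact Real.log_natCast_nonneg n
          · exact le_rfl
      · have hnp : ¬ (n.Prime ∧ f ∣ n - 1) := fun h => hp h.1
        rw [if_neg hp, if_neg hnp, zero_add]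
        split_ifs
        · exact le_rfl
        · exact hv
    have e3 : ∑ n ∈ Icc 1 x, (if n.Prime then 0 else vonMangoldt n) =
        ∑ n ∈ Ioc 0 D0, (if n.Prime then 0 else vonMangoldt n) +
        ∑ n ∈ Ioc D0 x, (if n.Prime then 0 else vonMangoldt n) :=
      (sum_Ioc_consecutive _ (Nat.zero_le D0) h5).symm
    have e4 : ∑ n ∈ Ioc 0 D0, (if n.Prime then 0 else vonMangoldt n) ≤
        ∑ n ∈ Icc 1 D0, vonMangoldt n := by
      have : (Icc 1 D0 : Finset ℕ) = Ioc 0 D0 := rfl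
      rw [this]
      apply sum_le_sum
      intro n _
      split_ifs
      · exact ArithmeticFunction.vonMangoldt_nonneg
      · exact le_rfl
    have e5 : ∑ n ∈ Ioc D0 x, (if n.Prime then 0 else vonMangoldt n) ≤
        x * ∑ n ∈ Ioc D0 x, (if n.Prime then 0 else vonMangoldt n / n) := by
      rw [mul_sum]
      apply sum_le_sum
      intro n hn
      rw [mem_Ioc] at hn
      split_ifs
      · simp
      · have hn0 : (0 : ℝ) < n := by exact_mod_cast (by omega : 0 < n)
        have hnx : (n : ℝ) ≤ x := by exact_mod_cast hn.2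
        rw [← mul_div_assoc, le_div_iff₀ hn0, mul_comm]
        exact mul_le_mul_of_nonneg_right hnx ArithmeticFunction.vonMangoldt_nonneg
    linarith
  have h11 := hD0 D0 le_rfl x
  have h12 : (x : ℝ) * ∑ n ∈ Ioc D0 x, (if n.Prime then 0 else vonMangoldt n / n) ≤ x * (ε / 4) :=
    mul_le_mul_of_nonneg_left h11 hx0.le
  rw [Real.rpow_zero, mul_one, Real.rpow_one, div_mul_eq_mul_div, div_le_iff₀ hε] at h4
  have h13 := mul_pos hε hx0
  have h14 : (1 / (Nat.totient f : ℝ) - ε) * x = x / (Nat.totient f : ℝ) - ε * x := by ring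
  rw [h14]
  linarith

/-- the primes of `(D, Z]` -/
lemma midf (f : ℕ) (hf : 1 ≤ f) (a θ ε ε' : ℝ) (ha : 1 / 4 ≤ a) (haθ : a < θ) (hθ : θ ≤ 3 / 4)
    (hε : 0 < ε) (hε1 : ε ≤ 1) (hε' : 0 < ε') (hε'' : ε' ≤ ε) :
    ∀ᶠ x : ℕ in atTop,
      ∑ ℓ ∈ Pr ⌊(x : ℝ) ^ a⌋₊ ⌊(x : ℝ) ^ θ⌋₊, Real.log ℓ * piq x (f * ℓ) 1 ≤
        x * ((15 / 4 + ε) * (1 + ε) * (θ - a + ε) * (1 / (Nat.totient f : ℝ)) + 2 * ε') := by
  have hφf : (0 : ℝ) < Nat.totient f := by exact_mod_cast Nat.totient_pos.mpr hf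
  obtain ⟨C, hC0, hC⟩ := Pool.Agent.K3h65.RL.prime_sum
  obtain ⟨x0, hx0⟩ := BTp.btpf_main f hf ε' hε' (by linarith) (1 / 5) (by norm_num) (by norm_num)
  have e1 := evC ((C + 2) / ε)
  have e2 := evC (24 * Real.log 2 / ε)
  have e3 := evA (2 * (3 / ε + 1)) 0 a (by linarith)
  have e4 := evA 2 (1 / 5) a (by linarith)
  have e5 := evA 2 θ 1 (by linarith)
  have e6 := evC 3
  have e7 := evA (f : ℝ) θ (4 / 5) (by linarith)
  have e8 := evA (f : ℝ) 0 a (by linarith)
  filter_upwards [e1, e2, e3, e4, e5, e6, e7, e8, eventually_ge_atTop x0, eventually_ge_atTop 3] with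
    x h1 h2 h3 h4 h5 h6 h7x h8x hx hx3
  have hx0' : (0 : ℝ) < x := by
    have : 0 < x := by omega
    exact_mod_cast this
  have hx1 : (1 : ℝ) ≤ x := by
    have : 1 ≤ x := by omega
    exact_mod_cast this
  have hlx : 0 < Real.log x := by linarith
  rw [Real.rpow_zero, mul_one] at h3 h8x
  rw [Real.rpow_one] at h5
  obtain ⟨D, hD⟩ : ∃ D, D = ⌊(x : ℝ) ^ a⌋₊ := ⟨_, rfl⟩
  obtain ⟨Z, hZ⟩ : ∃ Z, Z = ⌊(x : ℝ) ^ θ⌋₊ := ⟨_, rfl⟩
  rw [← hD, ← hZ]
  have hxa1 : 1 ≤ (x : ℝ) ^ a := Real.one_le_rpow hx1 (by linarith)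
  have hD1 : (D : ℝ) ≤ (x : ℝ) ^ a := by rw [hD]; exact Nat.floor_le (by positivity)
  have hD2 : (x : ℝ) ^ a < D + 1 := by rw [hD]; exact Nat.lt_floor_add_one _
  have hDn : 1 ≤ D := by
    rw [hD, Nat.one_le_floor_iff]
    exact hxa1
  have hDnr : (1 : ℝ) ≤ D := by exact_mod_cast hDn
  have hD3 : (x : ℝ) ^ a / 2 ≤ D := by linarith
  have hZ1 : (Z : ℝ) ≤ (x : ℝ) ^ θ := by rw [hZ]; exact Nat.floor_le (by positivity)
  have hDZ : D ≤ Z := by
    rw [hD, hZ]
    exact Nat.floor_mono (Real.rpow_le_rpow_of_exponent_le hx1 haθ.le)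
  obtain ⟨J, hJ⟩ : ∃ J, J = Nat.log 2 (Z / D) := ⟨_, rfl⟩
  have hZD : Z / D ≠ 0 := by
    have := Nat.div_pos hDZ (by omega)
    omega
  have hJ1 : 2 ^ J ≤ Z / D := by rw [hJ]; exact Nat.pow_log_le_self 2 hZD
  have hJ2 : Z / D < 2 ^ (J + 1) := by rw [hJ]; exact Nat.lt_pow_succ_log_self (by norm_num) _
  have hB1 : D * 2 ^ J ≤ Z := by
    calc D * 2 ^ J ≤ D * (Z / D) := Nat.mul_le_mul_left _ hJ1
      _ ≤ Z := Nat.mul_div_le Z D
  have hB2 : Z ≤ D * 2 ^ (J + 1) := by
    have h7 : Z < D * (Z / D + 1) := Nat.lt_mul_div_succ Z (by omega)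
    have h8 : D * (Z / D + 1) ≤ D * 2 ^ (J + 1) := Nat.mul_le_mul_left _ hJ2
    omega
  obtain ⟨B, hB⟩ : ∃ B : ℕ → ℕ, B = fun j => D * 2 ^ j := ⟨_, rfl⟩
  have hBj : ∀ j, B j = D * 2 ^ j := fun j => by rw [hB]
  have hBmono : Monotone B := by
    intro i j hij
    rw [hBj, hBj]
    exact Nat.mul_le_mul_left _ (Nat.pow_le_pow_right (by norm_num) hij)
  have hBs : ∀ j, B (j + 1) = 2 * B j := by
    intro j
    rw [hBj, hBj, pow_succ]
    ring
  have hcov : ∑ ℓ ∈ Pr D Z, Real.log ℓ * piq x (f * ℓ) 1 ≤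
      ∑ j ∈ range (J + 1), ∑ ℓ ∈ Pr (B j) (B (j + 1)), Real.log ℓ * piq x (f * ℓ) 1 := by
    rw [Pool.Agent.H262R4.FR.TBT.sum_blocks B hBmono]
    apply sum_le_sum_of_subset_of_nonneg
    · unfold Pool.Agent.H262R4.FR.Pr
      apply filter_subset_filter
      apply Ioc_subset_Ioc
      · rw [hBj]; simp
      · rw [hBj]; exact hB2
    · intro ℓ _ _
      apply mul_nonneg (Real.log_natCast_nonneg ℓ)
      unfold Pool.Agent.H262R4.FR.piq
      positivity
  refine hcov.trans ?_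
  have hlogD : 3 * Real.log 2 / ε ≤ Real.log D := by
    have e : Real.log ((x : ℝ) ^ a / 2) ≤ Real.log D := Real.log_le_log (by positivity) hD3
    rw [Real.log_div (by positivity) (by norm_num), Real.log_rpow hx0'] at e
    have hl2 : 0 < Real.log 2 := Real.log_pos (by norm_num)
    have e7 : Real.log 2 ≤ Real.log 2 / ε := by
      rw [le_div_iff₀ hε]; nlinarith
    have e8 : 24 * Real.log 2 / ε = 24 * (Real.log 2 / ε) := by ring
    have e9 : 3 * Real.log 2 / ε = 3 * (Real.log 2 / ε) := by ring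
    rw [e8] at h2
    rw [e9]
    have e10 : 1 / 4 * Real.log x ≤ a * Real.log x := mul_le_mul_of_nonneg_right ha hlx.le
    linarith
  have hblk : ∀ j ∈ range (J + 1), ∑ ℓ ∈ Pr (B j) (B (j + 1)), Real.log ℓ * piq x (f * ℓ) 1 ≤
      (15 / 4 + ε) * (x / Real.log x) * ((1 + ε) * (1 / (Nat.totient f : ℝ)) *
        ∑ ℓ ∈ Pr (B j) (B (j + 1)), Real.log ℓ / ℓ) + ε' * (x / Real.log x) := by
    intro j hj
    rw [mem_range] at hj
    have hQ1 : D ≤ B j := by
      rw [hBj]
      exact Nat.le_mul_of_pos_right _ (by positivity)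
    have hQ2 : B j ≤ Z := by
      rw [hBj]
      refine le_trans ?_ hB1
      exact Nat.mul_le_mul_left _ (Nat.pow_le_pow_right (by norm_num) (by omega))
    have hQ1r : (D : ℝ) ≤ B j := by exact_mod_cast hQ1
    have hQ2r : (B j : ℝ) ≤ Z := by exact_mod_cast hQ2
    have hQpos : (0 : ℝ) < B j := by
      have : (1 : ℝ) ≤ D := by exact_mod_cast hDn
      linarith
    have hbt := hx0 x hx (B j) (by linarith) (by
      push_cast
      have e9 : (f : ℝ) * (B j : ℝ) ≤ f * (x : ℝ) ^ θ :=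
        mul_le_mul_of_nonneg_left (hQ2r.trans hZ1) (Nat.cast_nonneg _)
      refine e9.trans (h7x.trans ?_)
      exact Real.rpow_le_rpow_of_exponent_le hx1 (by norm_num))
    rw [hBs j]
    have hlog2Q : Real.log ((2 * B j : ℕ) : ℝ) ≤ Real.log x := by
      apply Real.log_le_log
      · push_cast; positivity
      · push_cast
        linarith
    have hlog2Q0 : 0 ≤ Real.log ((2 * B j : ℕ) : ℝ) := Real.log_natCast_nonneg _
    have s1 : ∑ ℓ ∈ Pr (B j) (2 * B j), Real.log ℓ * piq x (f * ℓ) 1 ≤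
        Real.log ((2 * B j : ℕ) : ℝ) * ∑ ℓ ∈ Pr (B j) (2 * B j), piq x (f * ℓ) 1 := by
      rw [mul_sum]
      apply sum_le_sum
      intro ℓ hℓ
      unfold Pool.Agent.H262R4.FR.Pr at hℓ
      rw [mem_filter, mem_Ioc] at hℓ
      apply mul_le_mul_of_nonneg_right
      · apply Real.log_le_log
        · exact_mod_cast hℓ.2.pos
        · exact_mod_cast hℓ.1.2
      · unfold Pool.Agent.H262R4.FR.piq
        positivity
    refine s1.trans ((mul_le_mul_of_nonneg_left hbt hlog2Q0).trans ?_)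
    have s2 : Real.log ((2 * B j : ℕ) : ℝ) * ∑ q ∈ Pr (B j) (2 * B j),
        1 / (Nat.totient (f * q) : ℝ) ≤
        (1 + ε) * (1 / (Nat.totient f : ℝ)) * ∑ ℓ ∈ Pr (B j) (2 * B j), Real.log ℓ / ℓ := by
      rw [mul_sum, mul_sum]
      apply sum_le_sum
      intro ℓ hℓ
      unfold Pool.Agent.H262R4.FR.Pr at hℓ
      rw [mem_filter, mem_Ioc] at hℓ
      have w1 := wt hε hε1 (by omega : 1 ≤ B j) hℓ.1.1 hℓ.2 (by
        refine hlogD.trans ?_
        apply Real.log_le_log
        · exact_mod_cast (by omega : 0 < D)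
        · exact hQ1r) (by linarith)
      have hfD : f ≤ D := by
        rw [hD]
        exact Nat.le_floor h8x
      have hco : Nat.Coprime f ℓ := by
        rw [Nat.coprime_comm]
        exact (Nat.Prime.coprime_iff_not_dvd hℓ.2).mpr (fun h => by
          have := Nat.le_of_dvd hf h
          omega)
      rw [Nat.totient_mul hco]
      push_cast
      calc Real.log (2 * (B j : ℝ)) * (1 / ((Nat.totient f : ℝ) * (Nat.totient ℓ : ℝ)))
          = (1 / (Nat.totient f : ℝ)) * (Real.log (2 * (B j : ℝ)) * (1 / (Nat.totient ℓ : ℝ))) := by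
            rw [one_div, one_div, one_div, mul_inv]
            ring
        _ ≤ (1 / (Nat.totient f : ℝ)) * ((1 + ε) * (Real.log ℓ / ℓ)) := by
            apply mul_le_mul_of_nonneg_left _ (by positivity)
            push_cast at w1
            exact w1
        _ = _ := by ring
    have s3 : Real.log ((2 * B j : ℕ) : ℝ) * (ε' * ((x : ℝ) / Real.log x ^ 2)) ≤
        ε' * (x / Real.log x) := by
      calc Real.log ((2 * B j : ℕ) : ℝ) * (ε' * ((x : ℝ) / Real.log x ^ 2))
          ≤ Real.log x * (ε' * ((x : ℝ) / Real.log x ^ 2)) :=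
            mul_le_mul_of_nonneg_right hlog2Q (by positivity)
        _ = ε' * (x / Real.log x) := by field_simp
    have s4 : 0 ≤ (15 / 4 + ε) * ((x : ℝ) / Real.log x) := by positivity
    have s5 := mul_le_mul_of_nonneg_left s2 s4
    have s6 : Real.log ((2 * B j : ℕ) : ℝ) * ((15 / 4 + ε') * ((x : ℝ) / Real.log x *
        ∑ q ∈ Pr (B j) (2 * B j), 1 / (Nat.totient (f * q) : ℝ))) ≤
        (15 / 4 + ε) * ((x : ℝ) / Real.log x) * (Real.log ((2 * B j : ℕ) : ℝ) *
        ∑ q ∈ Pr (B j) (2 * B j), 1 / (Nat.totient (f * q) : ℝ)) := by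
      have s7 : 0 ≤ Real.log ((2 * B j : ℕ) : ℝ) * ((x : ℝ) / Real.log x *
        ∑ q ∈ Pr (B j) (2 * B j), 1 / (Nat.totient (f * q) : ℝ)) :=
        mul_nonneg hlog2Q0 (mul_nonneg (by positivity) (sum_nonneg fun _ _ => by positivity))
      nlinarith
    rw [mul_add]
    exact add_le_add (s6.trans s5) s3
  refine (sum_le_sum hblk).trans ?_
  rw [sum_add_distrib, ← mul_sum, ← mul_sum, Pool.Agent.H262R4.FR.TBT.sum_blocks B hBmono,
    sum_const, card_range, nsmul_eq_mul]
  have hJlog : (J : ℝ) * Real.log 2 ≤ Real.log Z - Real.log D := by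
    have e : ((D * 2 ^ J : ℕ) : ℝ) ≤ Z := by exact_mod_cast hB1
    push_cast at e
    have hD0 : (0 : ℝ) < D := by exact_mod_cast (by omega : 0 < D)
    have e' := Real.log_le_log (by positivity) e
    rw [Real.log_mul (by positivity) (by positivity), Real.log_pow] at e'
    linarith
  have hlZ : Real.log Z ≤ θ * Real.log x := by
    rw [← Real.log_rpow hx0']
    apply Real.log_le_log _ hZ1
    exact_mod_cast (by omega : 0 < Z)
  have hlD : a * Real.log x - Real.log 2 ≤ Real.log D := by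
    have e : Real.log ((x : ℝ) ^ a / 2) ≤ Real.log D := Real.log_le_log (by positivity) hD3
    rw [Real.log_div (by positivity) (by norm_num), Real.log_rpow hx0'] at e
    exact e
  have hl2 : Real.log 2 ≤ 1 := by have := Real.log_two_lt_d9; linarith
  have hl2' : 1 / 2 ≤ Real.log 2 := by have := Real.log_two_gt_d9; linarith
  have hmert : ∑ p ∈ Pr (B 0) (B (J + 1)), Real.log p / p ≤ (θ - a + ε) * Real.log x := by
    have hB0 : B 0 = D := by rw [hBj]; simp
    have e := hC (B 0) (B (J + 1)) (by rw [hB0]; exact hDn) (hBmono (Nat.zero_le _))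
    unfold Pool.Agent.H262R4.FR.Pr
    rw [sum_filter]
    refine e.trans ?_
    have e7 : Real.log ((B (J + 1) : ℕ) : ℝ) = Real.log D + (J + 1) * Real.log 2 := by
      rw [hBj]
      push_cast
      have hD0 : (0 : ℝ) < D := by exact_mod_cast (by omega : 0 < D)
      rw [Real.log_mul (by positivity) (by positivity), Real.log_pow]
      push_cast
      ring
    rw [e7, hB0]
    rw [div_le_iff₀ hε] at h1
    nlinarith
  have hJx : ((J + 1 : ℕ) : ℝ) ≤ 2 * Real.log x := by
    push_cast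
    have hθa : (θ - a) * Real.log x ≤ 1 / 2 * Real.log x :=
      mul_le_mul_of_nonneg_right (by linarith) hlx.le
    have e8 : (J : ℝ) * (1 / 2) ≤ J * Real.log 2 :=
      mul_le_mul_of_nonneg_left hl2' (Nat.cast_nonneg J)
    nlinarith
  have t1 : (15 / 4 + ε) * (x / Real.log x) * ((1 + ε) * (1 / (Nat.totient f : ℝ)) *
      ∑ p ∈ Pr (B 0) (B (J + 1)), Real.log p / p)
      ≤ x * ((15 / 4 + ε) * (1 + ε) * (θ - a + ε) * (1 / (Nat.totient f : ℝ))) := by
    calc (15 / 4 + ε) * (x / Real.log x) * ((1 + ε) * (1 / (Nat.totient f : ℝ)) *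
        ∑ p ∈ Pr (B 0) (B (J + 1)), Real.log p / p)
        ≤ (15 / 4 + ε) * (x / Real.log x) * ((1 + ε) * (1 / (Nat.totient f : ℝ)) *
          ((θ - a + ε) * Real.log x)) := by
          apply mul_le_mul_of_nonneg_left _ (by positivity)
          exact mul_le_mul_of_nonneg_left hmert (by positivity)
      _ = _ := by field_simp
  have t2 : ((J + 1 : ℕ) : ℝ) * (ε' * (x / Real.log x)) ≤ x * (2 * ε') := by
    calc ((J + 1 : ℕ) : ℝ) * (ε' * (x / Real.log x)) ≤ (2 * Real.log x) * (ε' * (x / Real.log x)) :=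
          mul_le_mul_of_nonneg_right hJx (by positivity)
      _ = _ := by field_simp
  rw [mul_add]
  exact add_le_add t1 t2

end Pool.Agent.H573.AHB.Gold
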