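import Pool.Agent.H573.AHB.GfD

/-!
The mass of the prime factors of `q - 1` exceeding `x^{63/100}`, for primes `q = 1 mod f`.
-/

set_option autoImplicit false

namespace Pool.Agent.H573.AHB.Gold

open Finset Filter
open ArithmeticFunction (vonMangoldt)
open Pool.Agent.Y889.PN (PS bvmax)
open Pool.Agent.H262R4.FR (Pr piq)
open Pool.Agent.H262R4.FR.TBT (evA evB evC)

/-- Chebyshev's method with the Bombieri-Vinogradov theorem and the Brun-Titchmarsh theorem on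
average over the moduli `f ℓ`. -/
theorem goldf (f : ℕ) (hf : 1 ≤ f) : ∀ᶠ x : ℕ in atTop,
    (1 / 200 : ℝ) * (1 / (Nat.totient f : ℝ)) * (x * Real.log x) ≤
      ∑ ℓ ∈ Pr ⌊(x : ℝ) ^ (63 / 100 : ℝ)⌋₊ x, Real.log ℓ * Thf f x ℓ := by
  obtain ⟨ε, hε⟩ : ∃ ε : ℝ, ε = 1 / 10000 := ⟨_, rfl⟩
  obtain ⟨a, ha⟩ : ∃ a : ℝ, a = 499 / 1000 := ⟨_, rfl⟩
  obtain ⟨θ, hθ⟩ : ∃ θ : ℝ, θ = 63 / 100 := ⟨_, rfl⟩
  obtain ⟨κ, hκ⟩ : ∃ κ : ℝ, κ = 1 / (Nat.totient f : ℝ) := ⟨_, rfl⟩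
  obtain ⟨ε', hε'⟩ : ∃ ε' : ℝ, ε' = κ * ε := ⟨_, rfl⟩
  rw [← hθ, ← hκ]
  have hφ1 : 1 ≤ Nat.totient f := Nat.totient_pos.mpr hf
  have hφ1r : (1 : ℝ) ≤ Nat.totient f := by exact_mod_cast hφ1
  have hκ0 : 0 < κ := by rw [hκ]; positivity
  have hκ1 : κ ≤ 1 := by
    rw [hκ, div_le_one (by linarith)]
    exact hφ1r
  have hε0 : 0 < ε := by rw [hε]; norm_num
  have hε'0 : 0 < ε' := by rw [hε']; positivity
  have hε'1 : ε' ≤ ε := by
    rw [hε']
    nlinarith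
  obtain ⟨C, hC0, hC⟩ := Pool.Agent.K3h65.RL.phi_sum
  obtain ⟨D0, hD0⟩ := Pool.Agent.K3h65.RL.np_tail ε' hε'0
  obtain ⟨C1, hC10, hC1⟩ := philcm f hf 1 one_pos
  have e1 := midf f hf a θ ε ε' (by rw [ha]; norm_num) (by rw [ha, hθ]; norm_num)
    (by rw [hθ]; norm_num) hε0 (by rw [hε]; norm_num) hε'0 hε'1
  have e2 := bv (4995 / 10000) (by norm_num) (by norm_num)
  have e3 := pntf f hf ε' hε'0
  have e4 := evC ((C + 2) / ε)
  have e4' := evC ((C1 + f) / ε')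
  have e5 := evA ((D0 : ℝ) + f) 0 a (by rw [ha]; norm_num)
  have e6 := evA (2 / ε') (1 - ε) 1 (by linarith)
  have e7 := evA (f : ℝ) a (4995 / 10000) (by rw [ha]; norm_num)
  have e8 := evC 1
  have e9 := evA 1 a θ (by rw [ha, hθ]; norm_num)
  filter_upwards [e1, e2, e3, e4, e4', e5, e6, e7, e8, e9, eventually_ge_atTop 3] with
    x h1 h2 h3 h4 h4' h5 h6 h7x h8x h9x hx3
  obtain ⟨M, hM0, hM1, hM2⟩ := h2
  have hx0 : (0 : ℝ) < x := by
    have : 0 < x := by omega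
    exact_mod_cast this
  have hx1 : (1 : ℝ) ≤ x := by
    have : 1 ≤ x := by omega
    exact_mod_cast this
  have hlx : 0 < Real.log x := Real.log_pos (by exact_mod_cast (by omega : 1 < x))
  rw [Real.rpow_zero, mul_one] at h5
  rw [Real.rpow_one] at h6
  rw [div_le_iff₀ hε0] at h4
  rw [div_le_iff₀ hε'0] at h4'
  obtain ⟨D, hD⟩ : ∃ D, D = ⌊(x : ℝ) ^ a⌋₊ := ⟨_, rfl⟩
  obtain ⟨Z, hZ⟩ : ∃ Z, Z = ⌊(x : ℝ) ^ θ⌋₊ := ⟨_, rfl⟩
  obtain ⟨y, hy⟩ : ∃ y, y = ⌊(x : ℝ) ^ (1 - ε)⌋₊ := ⟨_, rfl⟩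
  rw [← hD, ← hZ] at h1
  rw [← hZ]
  have hD1 : (D : ℝ) ≤ (x : ℝ) ^ a := by rw [hD]; exact Nat.floor_le (by positivity)
  have hDn : 1 ≤ D := by
    rw [hD, Nat.one_le_floor_iff]
    exact Real.one_le_rpow hx1 (by rw [ha]; norm_num)
  have hDZ : D ≤ Z := by
    rw [hD, hZ]
    exact Nat.floor_mono (Real.rpow_le_rpow_of_exponent_le hx1 (by rw [ha, hθ]; norm_num))
  have hZx : Z ≤ x := by
    rw [hZ]
    apply Nat.floor_le_of_le
    calc (x : ℝ) ^ θ ≤ (x : ℝ) ^ (1 : ℝ) :=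
          Real.rpow_le_rpow_of_exponent_le hx1 (by rw [hθ]; norm_num)
      _ = x := Real.rpow_one _
  have hD0f : D0 + f ≤ D := by
    rw [hD]
    apply Nat.le_floor
    push_cast
    exact h5
  have hD0D : D0 ≤ D := by omega
  have hfD : f ≤ D := by omega
  have hup := upperf f x D Z hf hfD hDZ hZx hDn M hM0 (fun d hd => by
    have := (abs_le.mp (hM1 d hd)).2
    linarith)
  have hlD : Real.log D ≤ a * Real.log x := by
    rw [← Real.log_rpow hx0]
    exact Real.log_le_log (by exact_mod_cast hDn) hD1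
  have hfn : (0 : ℝ) ≤ f := Nat.cast_nonneg _
  have t1 : x * ∑ d ∈ Ioc 0 D, vonMangoldt d / (Nat.totient (Nat.lcm f d) : ℝ) ≤
      x * Real.log x * (κ * (a + ε)) + C1 * x := by
    have e := hC D hDn
    have e' := hC1 D hfD
    have e'' : ∑ d ∈ Ioc 0 D, vonMangoldt d / (Nat.totient d : ℝ) ≤ (a + ε) * Real.log x := by
      nlinarith
    calc x * ∑ d ∈ Ioc 0 D, vonMangoldt d / (Nat.totient (Nat.lcm f d) : ℝ)
        ≤ x * (κ * ((a + ε) * Real.log x) + C1) := by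
          apply mul_le_mul_of_nonneg_left _ hx0.le
          refine e'.trans ?_
          rw [← hκ]
          have := mul_le_mul_of_nonneg_left e'' hκ0.le
          linarith
      _ = _ := by ring
  have t2 : Real.log D * ∑ d ∈ Icc 1 D, M (Nat.lcm f d) ≤ f * x := by
    have hlDx : Real.log D ≤ Real.log x := by
      refine hlD.trans ?_
      have : a * Real.log x ≤ 1 * Real.log x :=
        mul_le_mul_of_nonneg_right (by rw [ha]; norm_num) hlx.le
      linarith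
    have hMl := Mlcm f D hf M hM0
    have hsub : ∑ e ∈ Icc 1 (f * D), M e ≤ x / Real.log x := by
      refine le_trans ?_ hM2
      apply sum_le_sum_of_subset_of_nonneg
      · apply Icc_subset_Icc le_rfl
        apply Nat.le_floor
        push_cast
        exact (mul_le_mul_of_nonneg_left hD1 hfn).trans h7x
      · intro e _ _
        exact hM0 e
    calc Real.log D * ∑ d ∈ Icc 1 D, M (Nat.lcm f d) ≤ Real.log x * (f * (x / Real.log x)) := by
          apply mul_le_mul hlDx _ (sum_nonneg fun _ _ => hM0 _) hlx.le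
          exact hMl.trans (mul_le_mul_of_nonneg_left hsub hfn)
      _ = f * x := by field_simp
  have t3 := mul_le_mul_of_nonneg_left h1 hlx.le
  rw [← hκ] at t3
  have t4 : x * Real.log x * ∑ d ∈ Ioc D x, (if d.Prime then 0 else vonMangoldt d / d) ≤
      x * Real.log x * ε' := mul_le_mul_of_nonneg_left (hD0 D hD0D x) (by positivity)
  have t5 : C1 * x + f * x ≤ x * Real.log x * ε' := by nlinarith
  -- lower bound
  have hy1 : (y : ℝ) ≤ (x : ℝ) ^ (1 - ε) := by rw [hy]; exact Nat.floor_le (by positivity)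
  have hxe1 : 1 ≤ (x : ℝ) ^ (1 - ε) := Real.one_le_rpow hx1 (by rw [hε]; norm_num)
  have hyn : 1 ≤ y := by
    rw [hy, Nat.one_le_floor_iff]
    exact hxe1
  have hynr : (1 : ℝ) ≤ y := by exact_mod_cast hyn
  have hy2 : (x : ℝ) ^ (1 - ε) < y + 1 := by rw [hy]; exact Nat.lt_floor_add_one _
  have h6' : 2 * (x : ℝ) ^ (1 - ε) ≤ ε' * x := by
    rw [div_mul_eq_mul_div, div_le_iff₀ hε'0] at h6
    linarith
  have hyx : y ≤ x := by
    have h7 : (x : ℝ) ^ (1 - ε) ≤ x := by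
      calc (x : ℝ) ^ (1 - ε) ≤ (x : ℝ) ^ (1 : ℝ) :=
            Real.rpow_le_rpow_of_exponent_le hx1 (by linarith)
        _ = x := Real.rpow_one _
    have : (y : ℝ) ≤ x := hy1.trans h7
    exact_mod_cast this
  have hlow := lowerf f x y hyn hyx
  rw [switchf] at hlow
  have hθy := theta_upper y
  have hly : (1 - 2 * ε) * Real.log x ≤ Real.log y := by
    have h7 : (x : ℝ) ^ (1 - ε) / 2 ≤ y := by linarith
    have h8 := Real.log_le_log (by positivity) h7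
    rw [Real.log_div (by positivity) (by norm_num), Real.log_rpow hx0] at h8
    have h9 := Real.log_two_lt_d9
    nlinarith
  rw [← hκ] at h3
  have hdiff : (κ - 2 * ε') * x ≤ Tf f x - ∑ q ∈ PX y, Real.log q := by
    have : (κ - 2 * ε') * x = (κ - ε') * x - ε' * x := by ring
    rw [this]
    linarith
  have hκε : κ - 2 * ε' = κ * (1 - 2 * ε) := by rw [hε']; ring
  have hlow2 : ((1 - 2 * ε) * Real.log x) * ((κ - 2 * ε') * x) ≤
      Real.log y * (Tf f x - ∑ q ∈ PX y, Real.log q) := by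
    apply mul_le_mul hly hdiff _ (Real.log_natCast_nonneg y)
    rw [hκε]
    have : 0 ≤ 1 - 2 * ε := by rw [hε]; norm_num
    positivity
  have hXL : 0 < (x : ℝ) * Real.log x := by positivity
  have h7 : (1 - 2 * ε) * Real.log x * ((κ - 2 * ε') * x) =
      x * Real.log x * (κ * ((1 - 2 * ε) * (1 - 2 * ε))) := by rw [hκε]; ring
  have h8 : Real.log x * (x * ((15 / 4 + ε) * (1 + ε) * (θ - a + ε) * κ + 2 * ε')) =
      x * Real.log x * (κ * ((15 / 4 + ε) * (1 + ε) * (θ - a + ε) + 2 * ε)) := by rw [hε']; ring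
  rw [h7] at hlow2
  rw [h8] at t3
  have h9 : x * Real.log x * (κ * ((1 - 2 * ε) * (1 - 2 * ε))) ≤
      x * Real.log x * (κ * ((a + ε) + ((15 / 4 + ε) * (1 + ε) * (θ - a + ε) + 2 * ε) + 2 * ε)) +
      ∑ ℓ ∈ Pr Z x, Real.log ℓ * Thf f x ℓ := by
    have h10 : x * Real.log x * (κ * ((a + ε) + ((15 / 4 + ε) * (1 + ε) * (θ - a + ε) + 2 * ε) + 2 * ε)) =
      x * Real.log x * (κ * (a + ε)) +
      x * Real.log x * (κ * ((15 / 4 + ε) * (1 + ε) * (θ - a + ε) + 2 * ε)) +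
      x * Real.log x * ε' + x * Real.log x * ε' := by
      rw [hε']
      ring
    rw [h10]
    linarith
  have h11 : x * Real.log x * (κ * (1 / 200)) ≤ x * Real.log x * (κ * ((1 - 2 * ε) * (1 - 2 * ε) -
      ((a + ε) + ((15 / 4 + ε) * (1 + ε) * (θ - a + ε) + 2 * ε) + 2 * ε))) := by
    apply mul_le_mul_of_nonneg_left _ hXL.le
    apply mul_le_mul_of_nonneg_left _ hκ0.le
    rw [hε, ha, hθ]
    norm_num
  have h12 : x * Real.log x * (κ * ((1 - 2 * ε) * (1 - 2 * ε) -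
      ((a + ε) + ((15 / 4 + ε) * (1 + ε) * (θ - a + ε) + 2 * ε) + 2 * ε))) =
      x * Real.log x * (κ * ((1 - 2 * ε) * (1 - 2 * ε))) -
      x * Real.log x * (κ * ((a + ε) + ((15 / 4 + ε) * (1 + ε) * (θ - a + ε) + 2 * ε) + 2 * ε)) := by
    ring
  have h13 : 1 / 200 * κ * (x * Real.log x) = x * Real.log x * (κ * (1 / 200)) := by ring
  rw [h13]
  linarith

end Pool.Agent.H573.AHB.Gold
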