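import Pool.Agent.H573.AHB.GfE
import Pool.Graph.R_seed8.H617R3.BT.Sieve

/-!
The part of the very large prime factors of `q - 1`, and the bound for a single one.
-/

set_option autoImplicit false

namespace Pool.Agent.H573.AHB.Gold

open Finset Filter
open ArithmeticFunction (vonMangoldt)
open Pool.Agent.H262R4.FR (Pr piq)
open Pool.Agent.H262R4.FR.TBT (evA evB evC)

lemma abel_id (W : ℕ → ℝ) (M : ℕ) : ∑ m ∈ Icc 1 M, W m / m =
    (∑ m ∈ Icc 1 M, W m) / (M + 1) +
      ∑ k ∈ Icc 1 M, (∑ m ∈ Icc 1 k, W m) / ((k : ℝ) * (k + 1)) := by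
  induction M with
  | zero => simp
  | succ M ih =>
    have h1 : (0 : ℝ) < (M : ℝ) + 1 := by positivity
    have h2 : (0 : ℝ) < (M : ℝ) + 2 := by positivity
    rw [sum_Icc_succ_top (by omega), sum_Icc_succ_top (by omega : 1 ≤ M + 1), ih,
      sum_Icc_succ_top (by omega : 1 ≤ M + 1) (f := fun k : ℕ => (∑ m ∈ Icc 1 k, W m) / ((k : ℝ) * (k + 1))),
      sum_Icc_succ_top (by omega : 1 ≤ M + 1)]
    push_cast
    have h3 : (M : ℝ) + 1 + 1 = M + 2 := by ring
    rw [h3]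
    field_simp
    ring

lemma sum_inv_succ (M : ℕ) : ∑ k ∈ Icc 1 M, 1 / ((k : ℝ) + 1) ≤ 1 + Real.log (M + 1) := by
  have h1 := harmonic_le_one_add_log (M + 1)
  rw [harmonic_eq_sum_Icc] at h1
  push_cast at h1
  have h2 : ∑ k ∈ Icc 1 M, 1 / ((k : ℝ) + 1) ≤ ∑ i ∈ Icc 1 (M + 1), (i : ℝ)⁻¹ := by
    have hinj : Set.InjOn (fun k : ℕ => k + 1) ((Icc 1 M : Finset ℕ) : Set ℕ) := by
      intro a _ b _ h
      simpa using h
    have h3 : ∑ k ∈ Icc 1 M, 1 / ((k : ℝ) + 1) = ∑ i ∈ (Icc 1 M).image (fun k : ℕ => k + 1),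
        ((i : ℕ) : ℝ)⁻¹ := by
      rw [sum_image (f := fun i : ℕ => (i : ℝ)⁻¹) hinj]
      apply sum_congr rfl
      intro k _
      push_cast
      rw [one_div]
    rw [h3]
    apply sum_le_sum_of_subset_of_nonneg
    · intro i hi
      rw [mem_image] at hi
      obtain ⟨k, hk, rfl⟩ := hi
      rw [mem_Icc] at hk ⊢
      omega
    · intro i _ _
      positivity
  linarith

lemma phi_sq_sum : ∃ C : ℝ, 0 < C ∧ ∀ M : ℕ,
    ∑ m ∈ Icc 1 M, ((m : ℝ) / Nat.totient m) ^ 2 / m ≤ C * (2 + Real.log (M + 1)) := by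
  obtain ⟨C, hC, h⟩ := Pool.Agent.H262R4.FR.t_PHIS.1
  refine ⟨C, hC, ?_⟩
  intro M
  have h0 := abel_id (fun m => ((m : ℝ) / Nat.totient m) ^ 2) M
  rw [h0]
  have hM : (0 : ℝ) < (M : ℝ) + 1 := by positivity
  have t1 : (∑ m ∈ Icc 1 M, ((m : ℝ) / Nat.totient m) ^ 2) / (M + 1) ≤ C := by
    rw [div_le_iff₀ hM]
    have := h M
    nlinarith
  have t2 : ∑ k ∈ Icc 1 M, (∑ m ∈ Icc 1 k, ((m : ℝ) / Nat.totient m) ^ 2) / ((k : ℝ) * (k + 1)) ≤
      C * ∑ k ∈ Icc 1 M, 1 / ((k : ℝ) + 1) := by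
    rw [mul_sum]
    apply sum_le_sum
    intro k hk
    rw [mem_Icc] at hk
    have hk0 : (0 : ℝ) < k := by exact_mod_cast (by omega : 0 < k)
    rw [div_le_iff₀ (by positivity)]
    have := h k
    calc ∑ m ∈ Icc 1 k, ((m : ℝ) / Nat.totient m) ^ 2 ≤ C * k := this
      _ = C * (1 / ((k : ℝ) + 1)) * (k * (k + 1)) := by field_simp
  have t3 := mul_le_mul_of_nonneg_left (sum_inv_succ M) hC.le
  linarith

/-- the number of primes `q ≤ x` with `f s ∣ q - 1` -/
noncomputable def Nf (f x s : ℕ) : ℕ := ((PX x).filter (fun q => f ∣ q - 1 ∧ s ∣ q - 1)).card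

lemma Thf_le_Nf (f x s : ℕ) : Thf f x s ≤ Real.log x * (Nf f x s : ℝ) := by
  unfold Thf Nf
  refine (sum_le_card_nsmul _ _ (Real.log x) ?_).trans ?_
  · intro q hq
    rw [mem_filter, mem_PX] at hq
    apply Real.log_le_log
    · exact_mod_cast hq.1.2.pos
    · exact_mod_cast hq.1.1
  · rw [nsmul_eq_mul, mul_comm]

/-- the very large primes -/
lemma largef (f : ℕ) (hf : 1 ≤ f) (c0 : ℝ) (hc0 : 0 < c0) : ∃ η : ℝ, 0 < η ∧ η ≤ 1 / 4 ∧
    ∀ᶠ x : ℕ in atTop,
    ∑ ℓ ∈ Pr ⌊(x : ℝ) ^ (1 - η)⌋₊ x, Real.log ℓ * Thf f x ℓ ≤ c0 * (x * Real.log x) := by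
  obtain ⟨C1, hC1, hs2⟩ := Pool.Agent.Helper112.E456.sieve_two
  obtain ⟨C2, hC2, hphi⟩ := phi_sq_sum
  obtain ⟨F, hF⟩ : ∃ F : ℝ, F = ((f : ℝ) / Nat.totient f) ^ 2 := ⟨_, rfl⟩
  have hfr : (0 : ℝ) < f := by exact_mod_cast hf
  have hf1r : (1 : ℝ) ≤ f := by exact_mod_cast hf
  have hφf : (0 : ℝ) < Nat.totient f := by exact_mod_cast Nat.totient_pos.mpr hf
  have hF0 : 0 < F := by rw [hF]; positivity
  obtain ⟨A, hA⟩ : ∃ A : ℝ, A = 16 * C1 * F * C2 := ⟨_, rfl⟩
  have hA0 : 0 < A := by rw [hA]; positivity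
  obtain ⟨η, hη0, hη1, hη2⟩ : ∃ η : ℝ, 0 < η ∧ η ≤ 1 / 4 ∧ A * η ≤ c0 / 2 :=
    ⟨min (1 / 4) (c0 / (2 * A)), lt_min (by norm_num) (by positivity), min_le_left _ _, by
      calc A * min (1 / 4) (c0 / (2 * A)) ≤ A * (c0 / (2 * A)) :=
            mul_le_mul_of_nonneg_left (min_le_right _ _) hA0.le
        _ = c0 / 2 := by field_simp⟩
  refine ⟨η, hη0, hη1, ?_⟩
  have e1 := evC (8 * A / c0)
  have e2 := evA (2 * f) 0 (1 / 2) (by norm_num)
  have e3 := evA 2 (1 / 2) (3 / 4) (by norm_num)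
  have e4 := evA 4 0 (1 / 4) (by norm_num)
  have e5 := evA 2 (1 - η) 1 (by linarith)
  filter_upwards [e1, e2, e3, e4, e5, eventually_ge_atTop 16, evC 2] with x h1 h2 h3 h4 h5 hx3 hlx2
  have hx0 : (0 : ℝ) < x := by
    have : 0 < x := by omega
    exact_mod_cast this
  have hx1 : (1 : ℝ) ≤ x := by
    have : 1 ≤ x := by omega
    exact_mod_cast this
  have hlx : 0 < Real.log x := by linarith
  rw [Real.rpow_zero, mul_one] at h2 h4
  rw [Real.rpow_one] at h5
  obtain ⟨Z1, hZ1⟩ : ∃ Z1, Z1 = ⌊(x : ℝ) ^ (1 - η)⌋₊ := ⟨_, rfl⟩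
  obtain ⟨M, hM⟩ : ∃ M, M = ⌊(x : ℝ) ^ η / f⌋₊ := ⟨_, rfl⟩
  rw [← hZ1]
  have hxη : (x : ℝ) ^ (1 - η) * (x : ℝ) ^ η = x := by
    rw [← Real.rpow_add hx0]
    have : 1 - η + η = 1 := by ring
    rw [this, Real.rpow_one]
  have hxη0 : 0 < (x : ℝ) ^ η := Real.rpow_pos_of_pos hx0 _
  have hxη' : 0 < (x : ℝ) ^ (1 - η) := Real.rpow_pos_of_pos hx0 _
  have h34 : (x : ℝ) ^ (3 / 4 : ℝ) ≤ (x : ℝ) ^ (1 - η) :=
    Real.rpow_le_rpow_of_exponent_le hx1 (by linarith)
  have h12 : (x : ℝ) ^ (1 / 2 : ℝ) ≤ (x : ℝ) ^ (3 / 4 : ℝ) :=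
    Real.rpow_le_rpow_of_exponent_le hx1 (by norm_num)
  have hMr : (M : ℝ) ≤ (x : ℝ) ^ η / f := by rw [hM]; exact Nat.floor_le (by positivity)
  -- members of the range
  have hmem : ∀ s ∈ Pr Z1 x, s.Prime ∧ (x : ℝ) ^ (1 - η) < s ∧ s ≤ x := by
    intro s hs
    unfold Pool.Agent.H262R4.FR.Pr at hs
    rw [mem_filter, mem_Ioc] at hs
    refine ⟨hs.2, ?_, hs.1.2⟩
    rw [hZ1] at hs
    exact (Nat.floor_lt hxη'.le).mp hs.1.1
  -- the number of pairs; here the cofactor bound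
  have hpairs : ∑ s ∈ Pr Z1 x, Nf f x s ≤ ∑ m ∈ Icc 1 M,
      ((Icc 1 (x / (f * m))).filter (fun s => s.Prime ∧ (f * m * s + 1).Prime)).card := by
    classical
    -- first with a crude cofactor bound, then restrict
    have hA1 : ∀ s ∈ Pr Z1 x, s.Prime ∧ f < s ∧ x ≤ x * (f * s) := by
      intro s hs
      obtain ⟨g1, g2, g3⟩ := hmem s hs
      refine ⟨g1, ?_, ?_⟩
      · have : (f : ℝ) < s := by
          have : (f : ℝ) ≤ (x : ℝ) ^ (1 / 2 : ℝ) := by linarith
          linarith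
        exact_mod_cast this
      · exact Nat.le_mul_of_pos_right _ (Nat.mul_pos hf g1.pos)
    -- repeat the argument of `pairs` on the sum over `m`
    have h6 : ∀ s ∈ Pr Z1 x, Nf f x s ≤ ∑ m ∈ Icc 1 M,
        (if s ≤ x / (f * m) ∧ (f * m * s + 1).Prime then 1 else 0) := by
      intro s hs
      obtain ⟨hsp, hfs, -⟩ := hA1 s hs
      obtain ⟨-, hsx, -⟩ := hmem s hs
      have hs0 : 0 < s := hsp.pos
      have hfs0 : 0 < f * s := Nat.mul_pos hf hs0
      have hco : Nat.Coprime f s := by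
        rw [Nat.coprime_comm]
        exact (Nat.Prime.coprime_iff_not_dvd hsp).mpr (fun h => by
          have := Nat.le_of_dvd hf h
          omega)
      rw [← card_filter]
      unfold Nf
      apply card_le_card_of_injOn (fun q => (q - 1) / (f * s))
      · intro q hq
        have hq' := mem_filter.mp hq
        rw [mem_PX] at hq'
        obtain ⟨⟨hqx, hqp⟩, hd1, hd2⟩ := hq'
        obtain ⟨m, hm⟩ := Nat.Coprime.mul_dvd_of_dvd_of_dvd hco hd1 hd2
        have hq2 := hqp.two_le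
        have e1 : (q - 1) / (f * s) = m := by rw [hm, Nat.mul_div_cancel_left _ hfs0]
        have hm1 : 1 ≤ m := by
          rcases Nat.eq_zero_or_pos m with h | h
          · rw [h, mul_zero] at hm; omega
          · exact h
        have hfm0 : 0 < f * m := Nat.mul_pos hf hm1
        have hle : f * s * m ≤ x := by omega
        refine mem_filter.mpr ⟨mem_Icc.mpr ⟨?_, ?_⟩, ?_, ?_⟩
        · show 1 ≤ (q - 1) / (f * s)
          rw [e1]; exact hm1
        · show (q - 1) / (f * s) ≤ M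
          rw [e1, hM]
          apply Nat.le_floor
          rw [le_div_iff₀ hfr]
          have h7 : ((f * s * m : ℕ) : ℝ) ≤ x := by exact_mod_cast hle
          push_cast at h7
          by_contra h
          push Not at h
          have h8 : (x : ℝ) ^ (1 - η) * (x : ℝ) ^ η < (s : ℝ) * ((m : ℝ) * f) :=
            mul_lt_mul'' hsx h hxη'.le hxη0.le
          rw [hxη] at h8
          nlinarith
        · show s ≤ x / (f * ((q - 1) / (f * s)))
          rw [e1, Nat.le_div_iff_mul_le hfm0]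
          have h7 : s * (f * m) = q - 1 := by rw [hm]; ring
          omega
        · show (f * ((q - 1) / (f * s)) * s + 1).Prime
          rw [e1]
          have h7 : f * m * s + 1 = q := by
            have : f * m * s = q - 1 := by rw [hm]; ring
            omega
          rw [h7]
          exact hqp
      · intro q hq q' hq' h
        have hq1 := mem_filter.mp hq
        have hq1' := mem_filter.mp hq'
        rw [mem_PX] at hq1 hq1'
        have hd := Nat.Coprime.mul_dvd_of_dvd_of_dvd hco hq1.2.1 hq1.2.2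
        have hd' := Nat.Coprime.mul_dvd_of_dvd_of_dvd hco hq1'.2.1 hq1'.2.2
        have e1 := Nat.mul_div_cancel' hd
        have e2 := Nat.mul_div_cancel' hd'
        simp only at h
        rw [h] at e1
        have := hq1.1.2.two_le
        have := hq1'.1.2.two_le
        omega
    refine (sum_le_sum h6).trans ?_
    rw [sum_comm]
    apply sum_le_sum
    intro m _
    rw [← card_filter]
    apply card_le_card
    intro s hs
    rw [mem_filter] at hs
    rw [mem_filter, mem_Icc]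
    exact ⟨⟨(hA1 s hs.1).1.one_lt.le, hs.2.1⟩, (hA1 s hs.1).1, hs.2.2⟩
  -- each cofactor
  have hm : ∀ m ∈ Icc 1 M,
      (((Icc 1 (x / (f * m))).filter (fun s => s.Prime ∧ (f * m * s + 1).Prime)).card : ℝ) ≤
      (4 * C1 * F * (x / Real.log x ^ 2)) * (((m : ℝ) / Nat.totient m) ^ 2 / m) := by
    intro m hm
    rw [mem_Icc] at hm
    have hm0 : (0 : ℝ) < m := by exact_mod_cast (by omega : 0 < m)
    have hfm0 : 0 < f * m := Nat.mul_pos hf hm.1
    have hfmr : ((f * m : ℕ) : ℝ) ≤ (x : ℝ) ^ η := by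
      push_cast
      have h7 : (m : ℝ) ≤ (x : ℝ) ^ η / f := le_trans (by exact_mod_cast hm.2) hMr
      rw [le_div_iff₀ hfr] at h7
      linarith
    have hfmr0 : (0 : ℝ) < ((f * m : ℕ) : ℝ) := by exact_mod_cast hfm0
    obtain ⟨N, hN⟩ : ∃ N, N = x / (f * m) := ⟨_, rfl⟩
    rw [← hN]
    have hN1 : (x : ℝ) ^ (1 - η) ≤ (x : ℝ) / ((f * m : ℕ) : ℝ) := by
      rw [le_div_iff₀ hfmr0]
      calc (x : ℝ) ^ (1 - η) * ((f * m : ℕ) : ℝ) ≤ (x : ℝ) ^ (1 - η) * (x : ℝ) ^ η :=
            mul_le_mul_of_nonneg_left hfmr hxη'.le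
        _ = x := hxη
    have hN2 : (x : ℝ) / ((f * m : ℕ) : ℝ) < N + 1 := by
      rw [div_lt_iff₀ hfmr0, hN]
      have h8 : x < (x / (f * m) + 1) * (f * m) := by
        rw [mul_comm]
        exact Nat.lt_mul_div_succ x hfm0
      exact_mod_cast h8
    have hN3 : (N : ℝ) ≤ (x : ℝ) / ((f * m : ℕ) : ℝ) := by
      rw [hN]
      exact Nat.cast_div_le
    have hxs : 4 ≤ (x : ℝ) ^ (3 / 4 : ℝ) := by
      refine h4.trans ?_
      exact Real.rpow_le_rpow_of_exponent_le hx1 (by norm_num)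
    have hN4 : (x : ℝ) ^ (1 / 2 : ℝ) ≤ N := by linarith
    have hN5 : 2 ≤ N := by
      have : (2 : ℝ) ≤ N := by
        have h8 : 4 ≤ (x : ℝ) ^ (1 / 2 : ℝ) := by
          refine h4.trans ?_
          exact Real.rpow_le_rpow_of_exponent_le hx1 (by norm_num)
        linarith
      exact_mod_cast this
    have hlN : Real.log x / 2 ≤ Real.log N := by
      have := Real.log_le_log (Real.rpow_pos_of_pos hx0 _) hN4
      rw [Real.log_rpow hx0] at this
      linarith
    have hs := hs2 1 0 (f * m) 1 N one_pos hfm0 (by simp) (by simp) (by omega) hN5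
    have e0 : 1 * (f * m) * (((1 * 1 : ℕ) : ℤ) - (((f * m) * 0 : ℕ) : ℤ)).natAbs = f * m := by simp
    rw [e0] at hs
    have e1 : (Icc 1 N).filter (fun n => (1 * n + 0).Prime ∧ (f * m * n + 1).Prime) =
        (Icc 1 N).filter (fun s => s.Prime ∧ (f * m * s + 1).Prime) := by
      apply filter_congr
      intro n _
      rw [one_mul, add_zero]
    rw [e1] at hs
    refine hs.trans ?_
    have hr := BTp.ratio_mul f m hf hm.1
    have hr2 : (((f * m : ℕ) : ℝ) / (Nat.totient (f * m) : ℝ)) ^ 2 ≤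
        F * ((m : ℝ) / Nat.totient m) ^ 2 := by
      rw [hF, ← mul_pow]
      exact pow_le_pow_left₀ (by positivity) hr 2
    have hN6 : (N : ℝ) / Real.log N ^ 2 ≤ 4 * (x / Real.log x ^ 2) * (1 / m) := by
      have h8 : (N : ℝ) ≤ x / m := by
        refine hN3.trans ?_
        apply div_le_div_of_nonneg_left hx0.le hm0
        push_cast
        nlinarith
      have h9 : (Real.log x / 2) ^ 2 ≤ Real.log N ^ 2 :=
        pow_le_pow_left₀ (by linarith) hlN 2
      calc (N : ℝ) / Real.log N ^ 2 ≤ (x / m) / (Real.log x / 2) ^ 2 :=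
            div_le_div₀ (by positivity) h8 (by positivity) h9
        _ = 4 * (x / Real.log x ^ 2) * (1 / m) := by field_simp; ring
    calc C1 * (((f * m : ℕ) : ℝ) / (Nat.totient (f * m) : ℝ)) ^ 2 * N / Real.log N ^ 2
        = C1 * (((f * m : ℕ) : ℝ) / (Nat.totient (f * m) : ℝ)) ^ 2 * (N / Real.log N ^ 2) := by ring
      _ ≤ C1 * (F * ((m : ℝ) / Nat.totient m) ^ 2) * (4 * (x / Real.log x ^ 2) * (1 / m)) := by
          apply mul_le_mul _ hN6 (by positivity) (by positivity)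
          exact mul_le_mul_of_nonneg_left hr2 hC1.le
      _ = _ := by ring
  -- total
  have hlogM : Real.log (M + 1) ≤ η * Real.log x + 1 := by
    have h7 : (M : ℝ) + 1 ≤ 2 * (x : ℝ) ^ η := by
      have h8 : (x : ℝ) ^ η / f ≤ (x : ℝ) ^ η := div_le_self hxη0.le hf1r
      have h9 : 1 ≤ (x : ℝ) ^ η := Real.one_le_rpow hx1 hη0.le
      linarith
    have h8 := Real.log_le_log (by positivity) h7
    rw [Real.log_mul (by norm_num) hxη0.ne', Real.log_rpow hx0] at h8
    have := Real.log_two_lt_d9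
    linarith
  have hsum : (∑ s ∈ Pr Z1 x, (Nf f x s : ℝ)) ≤
      (4 * C1 * F * (x / Real.log x ^ 2)) * (C2 * (3 + η * Real.log x)) := by
    have h7 : (∑ s ∈ Pr Z1 x, (Nf f x s : ℝ)) ≤ ∑ m ∈ Icc 1 M,
      (((Icc 1 (x / (f * m))).filter (fun s => s.Prime ∧ (f * m * s + 1).Prime)).card : ℝ) := by
      exact_mod_cast hpairs
    refine h7.trans ((sum_le_sum hm).trans ?_)
    rw [← mul_sum]
    apply mul_le_mul_of_nonneg_left _ (by positivity)
    refine (hphi M).trans ?_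
    apply mul_le_mul_of_nonneg_left _ hC2.le
    linarith
  have hfin : ∑ ℓ ∈ Pr Z1 x, Real.log ℓ * Thf f x ℓ ≤ Real.log x ^ 2 * ∑ s ∈ Pr Z1 x, (Nf f x s : ℝ) := by
    rw [mul_sum]
    apply sum_le_sum
    intro s hs
    obtain ⟨g1, g2, g3⟩ := hmem s hs
    have k1 : Real.log s ≤ Real.log x := by
      apply Real.log_le_log
      · exact_mod_cast g1.pos
      · exact_mod_cast g3
    calc Real.log s * Thf f x s ≤ Real.log x * (Real.log x * (Nf f x s : ℝ)) :=
          mul_le_mul k1 (Thf_le_Nf f x s) (Thf_nonneg _ _ _) hlx.le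
      _ = _ := by ring
  refine hfin.trans ?_
  calc Real.log x ^ 2 * ∑ s ∈ Pr Z1 x, (Nf f x s : ℝ)
      ≤ Real.log x ^ 2 * ((4 * C1 * F * (x / Real.log x ^ 2)) * (C2 * (3 + η * Real.log x))) :=
        mul_le_mul_of_nonneg_left hsum (by positivity)
    _ = (A / 4) * (3 + η * Real.log x) * x := by
        rw [hA]
        field_simp
        ring
    _ ≤ c0 * (x * Real.log x) := by
        have k2 : A * 8 ≤ c0 * Real.log x := by
          rw [div_le_iff₀ hc0] at h1
          linarith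
        have k3 : (A / 4) * (3 + η * Real.log x) ≤ c0 * Real.log x := by
          have k4 : A * η * Real.log x ≤ c0 / 2 * Real.log x :=
            mul_le_mul_of_nonneg_right hη2 hlx.le
          nlinarith
        calc (A / 4) * (3 + η * Real.log x) * x ≤ (c0 * Real.log x) * x :=
              mul_le_mul_of_nonneg_right k3 hx0.le
          _ = _ := by ring

end Pool.Agent.H573.AHB.Gold
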