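import Pool.Agent.H573.AHB.Leg

/-!
One set of primes `s` for countably many sparse properties.
-/

namespace Pool.Agent.H573.AHB

open Filter

/-- the diagonal form of the density theorem -/
theorem diag (Bd : ℕ → ℕ → ℕ → Prop) (hB : ∀ i, Sparse (Bd i)) (s0 : ℕ) :
    ∃ S : Set ℕ, (∀ s ∈ S, s.Prime ∧ s0 < s) ∧
      (∃ X₀ : ℕ, ∀ X : ℕ, X₀ ≤ X → (X : ℝ) ^ (31 / 50 : ℝ) ≤ ((S ∩ Set.Iic X).ncard : ℝ)) ∧
      ∀ i, ∀ᶠ s in atTop, s ∈ S → ∃ q, q.Prime ∧ s ∣ q - 1 ∧ ¬ Bd i q ((q - 1) / s) := by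
  classical
  -- thresholds
  have hlev : ∀ P : ℕ, ∃ N : ℕ, ∀ X : ℕ, N ≤ X →
      ∃ T : Finset ℕ, (X : ℝ) ^ (31 / 50 : ℝ) ≤ (T.card : ℝ) ∧ ∀ s ∈ T, s.Prime ∧ s0 < s ∧ s ≤ X ∧
      ∃ q, q.Prime ∧ s ∣ q - 1 ∧ ¬ (∃ i ∈ Finset.range (P + 1), Bd i q ((q - 1) / s)) := by
    intro P
    have h1 := dens (fun q n => ∃ i ∈ Finset.range (P + 1), Bd i q n)
      (Sparse.exists_mem _ _ (fun i _ => hB i)) s0
    exact eventually_atTop.mp h1
  choose N hN using hlev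
  obtain ⟨N', hN'⟩ : ∃ N' : ℕ → ℕ, N' = fun P => (Finset.range (P + 1)).sup N := ⟨_, rfl⟩
  have hNN : ∀ P, N P ≤ N' P := by
    intro P
    rw [hN']
    exact Finset.le_sup (f := N) (Finset.mem_range.mpr (Nat.lt_succ_self P))
  obtain ⟨h, hh⟩ : ∃ h : ℕ → ℕ, h = fun x => Nat.findGreatest (fun P => N' P ≤ x) x := ⟨_, rfl⟩
  have hmono : ∀ s X, s ≤ X → h s ≤ h X := by
    intro s X hsX
    rw [hh]
    exact Nat.findGreatest_mono (fun P hP => le_trans hP hsX) hsX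
  have hbig : ∀ P, ∀ᶠ s in atTop, P ≤ h s := by
    intro P
    filter_upwards [eventually_ge_atTop (max P (N' P))] with s hs
    rw [hh]
    exact Nat.le_findGreatest (le_of_max_le_left hs) (le_of_max_le_right hs)
  have hspec : ∀ X, N' 0 ≤ X → N' (h X) ≤ X := by
    intro X hX
    rw [hh]
    exact Nat.findGreatest_spec (P := fun P => N' P ≤ X) (Nat.zero_le X) hX
  refine ⟨{s | s.Prime ∧ s0 < s ∧ ∃ q, q.Prime ∧ s ∣ q - 1 ∧ ∀ i ≤ h s, ¬ Bd i q ((q - 1) / s)},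
    fun s hs => ⟨hs.1, hs.2.1⟩, ⟨N' 0, ?_⟩, ?_⟩
  · intro X hX
    obtain ⟨T, hT1, hT2⟩ := hN (h X) X ((hNN _).trans (hspec X hX))
    refine hT1.trans ?_
    have hsub : (T : Set ℕ) ⊆ {s | s.Prime ∧ s0 < s ∧ ∃ q, q.Prime ∧ s ∣ q - 1 ∧
        ∀ i ≤ h s, ¬ Bd i q ((q - 1) / s)} ∩ Set.Iic X := by
      intro s hs
      obtain ⟨h1, h2, h3, q, h4, h5, h6⟩ := hT2 s hs
      refine ⟨⟨h1, h2, q, h4, h5, ?_⟩, h3⟩
      intro i hi hbad
      exact h6 ⟨i, Finset.mem_range.mpr (Nat.lt_succ_of_le (hi.trans (hmono s X h3))), hbad⟩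
    have h4 := Set.ncard_le_ncard hsub ((Set.finite_Iic X).inter_of_right _)
    rw [Set.ncard_coe_finset] at h4
    exact_mod_cast h4
  · intro i
    filter_upwards [hbig i] with s hs hsS
    obtain ⟨_, _, q, h1, h2, h3⟩ := hsS
    exact ⟨q, h1, h2, h3 i hs⟩

/-- the bad pairs for `δ = ±1`, coefficients `c, d` -/
def BdCD (δ : ℤ) (m c d : ℕ) (q n : ℕ) : Prop :=
  ∃ i ∈ c.divisors ×ˢ d.divisors, BadUV δ m i.1 i.2 1 (c / i.1) (d / i.2) q n

/-- the admissible parameters -/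
def OKcd (m c d : ℕ) : Prop :=
  1 ≤ m ∧ (2 * m + 1).Prime ∧ 1 ≤ c ∧ 1 ≤ d ∧ ¬ (2 * m + 1) ∣ c ∧ ¬ (2 * m + 1) ∣ d ∧
    c ^ 2 + d ^ 2 < 2 ^ (2 * m + 1)

theorem gen_sparse (δ : ℤ) (hδ : δ.natAbs = 1) (m c d : ℕ) (h : OKcd m c d) :
    Sparse (BdCD δ m c d) := by
  classical
  obtain ⟨hm, hp, hc, hd, hpc, hpd, hsz⟩ := h
  have hδ0 : δ ≠ 0 := by
    rintro rfl
    simp at hδ
  apply Sparse.exists_mem
  rintro ⟨c', d'⟩ hi
  rw [Finset.mem_product] at hi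
  obtain ⟨h1, h2⟩ := hi
  simp only at h1 h2
  have hc1 := Nat.dvd_of_mem_divisors h1
  have hd1 := Nat.dvd_of_mem_divisors h2
  have hc' : 1 ≤ c' := Nat.pos_of_dvd_of_pos hc1 hc
  have hd' : 1 ≤ d' := Nat.pos_of_dvd_of_pos hd1 hd
  have ec : c / c' * c' = c := Nat.div_mul_cancel hc1
  have ed : d / d' * d' = d := Nat.div_mul_cancel hd1
  have hc'' : 1 ≤ c / c' := by
    rcases Nat.eq_zero_or_pos (c / c') with h | h
    · rw [h] at ec; omega
    · exact h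
  have hd'' : 1 ≤ d / d' := by
    rcases Nat.eq_zero_or_pos (d / d') with h | h
    · rw [h] at ed; omega
    · exact h
  refine core_count δ m c' d' 1 (c / c') (d / d') hδ0 hm hc' hd' le_rfl hc'' hd'' hp
    ?_ ?_ ?_ ?_
  · intro h
    have h3 := Int.natAbs_dvd_natAbs.mpr h
    rw [Int.natAbs_natCast, hδ] at h3
    have := Nat.le_of_dvd one_pos h3
    omega
  · have e1 : 1 ^ (4 * m) * ((c / c') ^ 2 * (1 ^ 2 * c' ^ 2) + δ.natAbs * d' ^ 2 * (d / d') ^ 2) =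
        c ^ 2 + d ^ 2 := by
      rw [hδ]
      calc _ = (c / c' * c') ^ 2 + (d / d' * d') ^ 2 := by ring
        _ = _ := by rw [ec, ed]
    have e2 : 2 ^ (2 * m + 1) ≤ (1 ^ 2 * c' ^ 2 + δ.natAbs * d' ^ 2) ^ (2 * m + 1) := by
      rw [hδ]
      apply Nat.pow_le_pow_left
      have : 1 ≤ c' ^ 2 := Nat.one_le_pow _ _ hc'
      have : 1 ≤ d' ^ 2 := Nat.one_le_pow _ _ hd'
      omega
    rw [e1]
    exact lt_of_lt_of_le hsz e2
  · intro h
    apply hpc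
    have h3 : (2 * m + 1) ∣ c / c' := by
      rw [one_pow, one_mul] at h
      rw [h, mul_assoc]
      exact dvd_mul_right _ _
    rw [← ec]
    exact h3.mul_right _
  · intro h
    apply hpd
    have h3 : (2 * m + 1) ∣ d / d' := by
      rw [h]
      exact dvd_mul_right _ _
    rw [← ed]
    exact h3.mul_right _

theorem gen_local (δ : ℤ) (hδ : δ.natAbs = 1) (m c d : ℕ) (hOK : OKcd m c d) (s q : ℕ)
    (hsp : s.Prime) (hs2 : 2 < s) (hq : q.Prime) (hsq : s ∣ q - 1)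
    (hnb : ¬ BdCD δ m c d q ((q - 1) / s)) (x y u v : ℤ) (hx : ¬ ((2 * m + 1 : ℕ) : ℤ) ∣ x)
    (hy : ¬ ((2 * m + 1 : ℕ) : ℤ) ∣ y) (hco2 : IsCoprime ((c : ℤ) * x ^ s) ((d : ℤ) * y ^ s))
    (hu : (c : ℤ) * x ^ s = u * Fh δ u v m) (hv : (d : ℤ) * y ^ s = v * Gh δ u v m) : False := by
  obtain ⟨hm, hp, hc, hd, hpc, hpd, hsz⟩ := hOK
  have hδu : IsUnit δ := Int.isUnit_iff_natAbs_eq.mpr hδ
  apply hnb
  have hsodd : Odd s := hsp.odd_of_ne_two (by omega)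
  have hx0 : x ≠ 0 := by
    rintro rfl
    exact hx (dvd_zero _)
  have hy0 : y ≠ 0 := by
    rintro rfl
    exact hy (dvd_zero _)
  have hpp : Prime ((2 * m + 1 : ℕ) : ℤ) := Nat.prime_iff_prime_int.mp hp
  have huv : IsCoprime u v := by
    rw [hu, hv] at hco2
    exact hco2.of_mul_left_left.of_mul_right_left
  have hpu : ¬ ((2 * m + 1 : ℕ) : ℤ) ∣ u := by
    intro h
    have h1 : ((2 * m + 1 : ℕ) : ℤ) ∣ (c : ℤ) * x ^ s := by rw [hu]; exact h.mul_right _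
    rcases hpp.dvd_or_dvd h1 with h2 | h2
    · exact hpc (Int.natCast_dvd_natCast.mp h2)
    · exact hx (hpp.dvd_of_dvd_pow h2)
  have hpv : ¬ ((2 * m + 1 : ℕ) : ℤ) ∣ v := by
    intro h
    have h1 : ((2 * m + 1 : ℕ) : ℤ) ∣ (d : ℤ) * y ^ s := by rw [hv]; exact h.mul_right _
    rcases hpp.dvd_or_dvd h1 with h2 | h2
    · exact hpd (Int.natCast_dvd_natCast.mp h2)
    · exact hy (hpp.dvd_of_dvd_pow h2)
  have hF := cop_F m hp δ u v huv ⟨0, δ, by rw [Int.isUnit_mul_self hδu]; ring⟩ hpu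
  have hG := cop_G m hp δ u v huv hpv
  obtain ⟨c', c'', hcc, w1, w3, e1, e3⟩ := split_pow c hc s hsodd x u _ hx0 hF hu.symm
  obtain ⟨d', d'', hdd, w2, w4, e2, e4⟩ := split_pow d hd s hsodd y v _ hy0 hG hv.symm
  have hc'0 : 0 < c' := by
    rcases Nat.eq_zero_or_pos c' with h | h
    · rw [h, zero_mul] at hcc; omega
    · exact h
  have hd'0 : 0 < d' := by
    rcases Nat.eq_zero_or_pos d' with h | h
    · rw [h, zero_mul] at hdd; omega
    · exact h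
  refine ⟨(c', d'), ?_, ?_⟩
  · rw [Finset.mem_product, Nat.mem_divisors, Nat.mem_divisors]
    exact ⟨⟨⟨c'', hcc.symm⟩, by omega⟩, ⟨⟨d'', hdd.symm⟩, by omega⟩⟩
  · have f1 : c / c' = c'' := by rw [← hcc, Nat.mul_div_cancel_left _ hc'0]
    have f2 : d / d' = d'' := by rw [← hdd, Nat.mul_div_cancel_left _ hd'0]
    simp only
    rw [f1, f2]
    have hF1 : Fact q.Prime := ⟨hq⟩
    exact bad_of δ m c' d' 1 c'' d'' q s ((q - 1) / s) hq (Nat.mul_div_cancel' hsq)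
      (by rw [Nat.cast_one]; exact one_ne_zero) u v w1 w2 w3 w4 huv e1
      (by rw [Nat.cast_one, one_mul]; exact e2) e3 e4

lemma cop_pow {c d x y : ℤ} (s : ℕ) (hco : IsCoprime (c * x) (d * y)) :
    IsCoprime (c * x ^ s) (d * y ^ s) := by
  have h1 : IsCoprime (c * x ^ s) (d * y) := by
    have e1 : IsCoprime c (d * y) := hco.of_mul_left_left
    have e2 : IsCoprime x (d * y) := hco.of_mul_left_right
    exact e1.mul_left e2.pow_left
  exact h1.of_mul_right_left.mul_right h1.of_mul_right_right.pow_right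

/-- no solution of `c² x^{2s} + d² y^{2s} = z^p` -/
theorem sum_local (m c d : ℕ) (hOK : OKcd m c d) (s q : ℕ)
    (hsp : s.Prime) (hs2 : 2 < s) (hq : q.Prime) (hsq : s ∣ q - 1)
    (hnb : ¬ BdCD (-1) m c d q ((q - 1) / s)) (x y z : ℤ) (hx : ¬ ((2 * m + 1 : ℕ) : ℤ) ∣ x)
    (hy : ¬ ((2 * m + 1 : ℕ) : ℤ) ∣ y) (hco : IsCoprime ((c : ℤ) * x) ((d : ℤ) * y)) :
    (c : ℤ) ^ 2 * x ^ (2 * s) + (d : ℤ) ^ 2 * y ^ (2 * s) ≠ z ^ (2 * m + 1) := by
  intro heq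
  have hco2 := cop_pow s hco
  obtain ⟨u, v, hu, hv⟩ := gauss ((c : ℤ) * x ^ s) ((d : ℤ) * y ^ s) z m hOK.1 hco2 (by
    rw [← heq]
    ring)
  exact gen_local (-1) rfl m c d hOK s q hsp hs2 hq hsq hnb x y u v hx hy hco2 hu hv

/-- no solution of `c² x^{2s} - d² y^{2s} = z^p` with `z` odd -/
theorem diff_local (m c d : ℕ) (hOK : OKcd m c d) (s q : ℕ)
    (hsp : s.Prime) (hs2 : 2 < s) (hq : q.Prime) (hsq : s ∣ q - 1)
    (hnb : ¬ BdCD 1 m c d q ((q - 1) / s)) (x y z : ℤ) (hz : Odd z)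
    (hx : ¬ ((2 * m + 1 : ℕ) : ℤ) ∣ x)
    (hy : ¬ ((2 * m + 1 : ℕ) : ℤ) ∣ y) (hco : IsCoprime ((c : ℤ) * x) ((d : ℤ) * y)) :
    (c : ℤ) ^ 2 * x ^ (2 * s) - (d : ℤ) ^ 2 * y ^ (2 * s) ≠ z ^ (2 * m + 1) := by
  intro heq
  have hco2 := cop_pow s hco
  obtain ⟨u, v, hu, hv⟩ := split_desc ((c : ℤ) * x ^ s) ((d : ℤ) * y ^ s) z m hco2 hz (by
    rw [← heq]
    ring)
  exact gen_local 1 rfl m c d hOK s q hsp hs2 hq hsq hnb x y u v hx hy hco2 hu hv

/-- no solution of `x^{2s} + y^{2p} = z²` with `x` even -/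
theorem leg_full (m : ℕ) (hm : 1 ≤ m) (hp : (2 * m + 1).Prime) (s q : ℕ) (hsp : s.Prime)
    (hs2 : 2 < s) (hq : q.Prime) (hsq : s ∣ q - 1)
    (hnb : ¬ BadUV 1 m 1 1 2 1 1 q ((q - 1) / s)) (x y z : ℤ) (hx : Even x)
    (hpx : ¬ ((2 * m + 1 : ℕ) : ℤ) ∣ x) (hco : IsCoprime x y) :
    x ^ (2 * s) + y ^ (2 * (2 * m + 1)) ≠ z ^ 2 := by
  intro heq
  have hpp : Prime ((2 * m + 1 : ℕ) : ℤ) := Nat.prime_iff_prime_int.mp hp
  have hx0 : x ≠ 0 := by
    rintro rfl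
    exact hpx (dvd_zero _)
  have hyo : Odd y := by
    by_contra hcon
    rw [Int.not_odd_iff_even] at hcon
    have := hco.isUnit_of_dvd' hx.two_dvd hcon.two_dvd
    rw [Int.isUnit_iff] at this
    omega
  obtain ⟨z', hz', hzz⟩ : ∃ z' : ℤ, 0 ≤ z' ∧ z' ^ 2 = x ^ (2 * s) + y ^ (2 * (2 * m + 1)) :=
    ⟨|z|, abs_nonneg z, by rw [sq_abs, heq]⟩
  have hxe : Even (x ^ (2 * s)) := hx.pow_of_ne_zero (by omega)
  have hzo : Odd z' := by
    have h1 : Odd (z' ^ 2) := by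
      rw [hzz]
      exact hxe.add_odd hyo.pow
    by_contra hcon
    rw [Int.not_odd_iff_even] at hcon
    have : Even (z' ^ 2) := hcon.pow_of_ne_zero (by omega)
    exact (Int.not_even_iff_odd.mpr h1) this
  have hyp : Odd (y ^ (2 * m + 1)) := hyo.pow
  obtain ⟨P, hP⟩ := hzo.sub_odd hyp
  obtain ⟨Q, hQ⟩ := hzo.add_odd hyp
  have hzPQ : z' = P + Q := by linarith
  have hyPQ : y ^ (2 * m + 1) = Q - P := by linarith
  have hPQ : 4 * (P * Q) = x ^ (2 * s) := by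
    have h1 : (z' - y ^ (2 * m + 1)) * (z' + y ^ (2 * m + 1)) = x ^ (2 * s) := by
      have h2 : (y ^ (2 * m + 1)) ^ 2 = y ^ (2 * (2 * m + 1)) := by ring
      calc _ = z' ^ 2 - (y ^ (2 * m + 1)) ^ 2 := by ring
        _ = _ := by rw [h2, hzz]; ring
    rw [hP, hQ] at h1
    rw [← h1]
    ring
  have hxpos : 0 < x ^ (2 * s) := by
    rw [pow_mul]
    exact pow_pos (by positivity) _
  have hPQpos : 0 < P * Q := by linarith
  have hP0 : 0 < P := by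
    by_contra hcon
    push Not at hcon
    have hQ0 : 0 ≤ Q := by linarith
    nlinarith
  have hQ0 : 0 < Q := by
    by_contra hcon
    push Not at hcon
    nlinarith
  have hcoPQ : IsCoprime P Q := by
    rw [Int.isCoprime_iff_gcd_eq_one]
    by_contra hcon
    obtain ⟨l, hl, hld⟩ := Nat.exists_prime_and_dvd hcon
    have hlP : (l : ℤ) ∣ P := (Int.natCast_dvd_natCast.mpr hld).trans (Int.gcd_dvd_left P Q)
    have hlQ : (l : ℤ) ∣ Q := (Int.natCast_dvd_natCast.mpr hld).trans (Int.gcd_dvd_right P Q)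
    have hlp := Nat.prime_iff_prime_int.mp hl
    have h1 : (l : ℤ) ∣ y := by
      apply hlp.dvd_of_dvd_pow (n := 2 * m + 1)
      rw [hyPQ]
      exact dvd_sub hlQ hlP
    have h2 : (l : ℤ) ∣ x := by
      apply hlp.dvd_of_dvd_pow (n := 2 * s)
      rw [← hPQ]
      exact (hlP.mul_right Q).mul_left 4
    exact hlp.not_isUnit (hco.isUnit_of_dvd' h2 h1)
  have fin : ∀ A B w : ℤ, 0 < A → 0 < B → Even A → Odd w → IsCoprime A B →
      4 * (A * B) = x ^ (2 * s) → B - A = w ^ (2 * m + 1) → False := by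
    intro A B w hA hB hAe hw hAB hprod hdiff
    have hBo : Odd B := by
      by_contra hcon
      rw [Int.not_odd_iff_even] at hcon
      have := hAB.isUnit_of_dvd' hAe.two_dvd hcon.two_dvd
      rw [Int.isUnit_iff] at this
      omega
    have h4 : IsCoprime (4 * A) B := by
      refine IsCoprime.mul_left ?_ hAB
      have h2 : IsCoprime (2 : ℤ) B := by
        obtain ⟨k, hk⟩ := hBo
        exact ⟨-k, 1, by rw [hk]; ring⟩
      have h5 : (4 : ℤ) = 2 * 2 := by norm_num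
      rw [h5]
      exact h2.mul_left h2
    obtain ⟨⟨r, hr⟩, t, ht⟩ := pow_of_mul (by linarith : 0 ≤ 4 * A) hB.le h4 (by
      rw [mul_assoc]; exact hprod)
    have hre : Even r := by
      by_contra hcon
      rw [Int.not_even_iff_odd] at hcon
      have h5 : Odd (r ^ (2 * s)) := hcon.pow
      rw [← hr] at h5
      obtain ⟨k, hk⟩ := h5
      omega
    obtain ⟨Y, hY⟩ := (hre.pow_of_ne_zero (by omega : s ≠ 0)).two_dvd
    have hYA : Y ^ 2 = A := by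
      have h5 : (r ^ s) ^ 2 = r ^ (2 * s) := by ring
      rw [hY, ← hr] at h5
      nlinarith
    have hXB : (t ^ s) ^ 2 = B := by
      rw [ht]
      ring
    have hpr : ¬ ((2 * m + 1 : ℕ) : ℤ) ∣ A * B := by
      intro h5
      apply hpx
      apply hpp.dvd_of_dvd_pow (n := 2 * s)
      rw [← hprod]
      exact h5.mul_left 4
    refine leg_local m hm hp s q hsp hs2 hq hsq hnb (t ^ s) Y w t r ?_ hw ?_ rfl hY.symm hre ?_ ?_
    · rw [← hYA, ← hXB] at hAB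
      have h6 : IsCoprime Y (t ^ s) := (IsCoprime.pow_iff (by norm_num) (by norm_num)).mp hAB
      exact h6.symm
    · rw [hYA, hXB]
      exact hdiff
    · intro h5
      apply hpr
      rw [← hXB]
      exact (dvd_pow h5 (by norm_num)).mul_left A
    · intro h5
      apply hpr
      rw [← hYA]
      exact (dvd_pow h5 (by norm_num)).mul_right B
  rcases Int.even_or_odd P with hPe | hPo
  · exact fin P Q y hP0 hQ0 hPe hyo hcoPQ hPQ hyPQ.symm
  · have hQe : Even Q := by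
      by_contra hcon
      rw [Int.not_even_iff_odd] at hcon
      have h5 : Even z' := by
        rw [hzPQ]
        exact hPo.add_odd hcon
      exact (Int.not_even_iff_odd.mpr hzo) h5
    refine fin Q P (-y) hQ0 hP0 hQe hyo.neg hcoPQ.symm (by rw [mul_comm Q P]; exact hPQ) ?_
    rw [Odd.neg_pow ⟨m, rfl⟩, hyPQ]
    ring

end Pool.Agent.H573.AHB
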