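import Pool.Agent.H573.AHB.GfF
import Pool.Agent.H573.AHB.Uni

/-!
A positive proportion of the primes `s` up to suitable `Y` admit a prime `q ≡ 1 (mod f s)` which
is not bad.
-/

set_option autoImplicit false

namespace Pool.Agent.H573.AHB

open Finset Filter
open Pool.Agent.H262R4.FR (Pr piq)
open Pool.Agent.H262R4.FR.TBT (evA evB evC)
open Gold

/-- the bound for a single prime factor -/
lemma single (f : ℕ) (hf : 1 ≤ f) (η : ℝ) (hη : 0 < η) (hη1 : η ≤ 1 / 4) :
    ∀ᶠ x : ℕ in atTop, ∀ s ∈ Pr ⌊(x : ℝ) ^ (63 / 100 : ℝ)⌋₊ ⌊(x : ℝ) ^ (1 - η)⌋₊,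
      Real.log s * Thf f x s ≤ (24 / η) * (1 / (Nat.totient f : ℝ)) * x * (Real.log s / s) := by
  obtain ⟨N0, hN03, hbt⟩ := Pool.Agent.H617R3.BT.bt2 1 one_pos
  have hfr : (0 : ℝ) < f := by exact_mod_cast hf
  have hφf : (0 : ℝ) < Nat.totient f := by exact_mod_cast Nat.totient_pos.mpr hf
  have e1 := evA ((f : ℝ) * N0) 0 η hη
  have e2 := evA (f : ℝ) 0 (63 / 100) (by norm_num)
  have e3 := evA (f : ℝ) 0 (η / 2) (by linarith)
  filter_upwards [e1, e2, e3, evC 1, eventually_ge_atTop 3] with x h1 h2 h3 hlx1 hx3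
  intro s hs
  have hx0 : (0 : ℝ) < x := by
    have : 0 < x := by omega
    exact_mod_cast this
  have hx1 : (1 : ℝ) ≤ x := by
    have : 1 ≤ x := by omega
    exact_mod_cast this
  have hlx : 0 < Real.log x := by linarith
  rw [Real.rpow_zero, mul_one] at h1 h2 h3
  unfold Pool.Agent.H262R4.FR.Pr at hs
  rw [mem_filter, mem_Ioc] at hs
  obtain ⟨⟨hs1, hs2⟩, hsp⟩ := hs
  have hs1' : (x : ℝ) ^ (63 / 100 : ℝ) < s := (Nat.floor_lt (Real.rpow_nonneg hx0.le _)).mp hs1
  have hs2' : (s : ℝ) ≤ (x : ℝ) ^ (1 - η) :=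
    le_trans (by exact_mod_cast hs2) (Nat.floor_le (Real.rpow_nonneg hx0.le _))
  have hs0 : 0 < s := hsp.pos
  have hs0r : (0 : ℝ) < s := by exact_mod_cast hs0
  have hfs : f < s := by
    have : (f : ℝ) < s := by linarith
    exact_mod_cast this
  have hfs0 : 0 < f * s := Nat.mul_pos hf hs0
  have hco : Nat.Coprime f s := by
    rw [Nat.coprime_comm]
    exact (Nat.Prime.coprime_iff_not_dvd hsp).mpr (fun h => by
      have := Nat.le_of_dvd hf h
      omega)
  obtain ⟨N, hN⟩ : ∃ N, N = x / (f * s) + 1 := ⟨_, rfl⟩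
  have hxη : (x : ℝ) ^ (1 - η) * (x : ℝ) ^ η = x := by
    rw [← Real.rpow_add hx0]
    have : 1 - η + η = 1 := by ring
    rw [this, Real.rpow_one]
  have hxη0 : 0 < (x : ℝ) ^ η := Real.rpow_pos_of_pos hx0 _
  have hfsr : (0 : ℝ) < ((f * s : ℕ) : ℝ) := by exact_mod_cast hfs0
  have hN1 : (x : ℝ) ^ η / f ≤ (x : ℝ) / ((f * s : ℕ) : ℝ) := by
    rw [div_le_div_iff₀ hfr hfsr]
    push_cast
    calc (x : ℝ) ^ η * (f * s) = f * ((s : ℝ) * (x : ℝ) ^ η) := by ring
      _ ≤ f * ((x : ℝ) ^ (1 - η) * (x : ℝ) ^ η) := by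
          apply mul_le_mul_of_nonneg_left _ hfr.le
          exact mul_le_mul_of_nonneg_right hs2' hxη0.le
      _ = x * f := by rw [hxη]; ring
  have hN2 : (x : ℝ) / ((f * s : ℕ) : ℝ) < N := by
    rw [div_lt_iff₀ hfsr, hN]
    have h8 : x < (x / (f * s) + 1) * (f * s) := by
      rw [mul_comm]
      exact Nat.lt_mul_div_succ x hfs0
    exact_mod_cast h8
  have hN0N : N0 ≤ N := by
    have h4 : (N0 : ℝ) ≤ (x : ℝ) ^ η / f := by
      rw [le_div_iff₀ hfr]
      linarith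
    have : (N0 : ℝ) < N := by linarith
    exact_mod_cast this.le
  have hx2 : 1 ≤ (x : ℝ) / ((f * s : ℕ) : ℝ) := by
    have h4 : (N0 : ℝ) ≤ (x : ℝ) ^ η / f := by
      rw [le_div_iff₀ hfr]
      linarith
    have h5 : (3 : ℝ) ≤ N0 := by exact_mod_cast hN03
    linarith
  have hN3 : (N : ℝ) ≤ 2 * ((x : ℝ) / ((f * s : ℕ) : ℝ)) := by
    have h4 : ((x / (f * s) : ℕ) : ℝ) ≤ (x : ℝ) / ((f * s : ℕ) : ℝ) := Nat.cast_div_le
    rw [hN]
    push_cast at h4 hx2 ⊢
    linarith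
  have hlN : η / 2 * Real.log x ≤ Real.log N := by
    have h4 : (x : ℝ) ^ (η / 2) ≤ N := by
      have h5 : (x : ℝ) ^ (η / 2) * f ≤ (x : ℝ) ^ η := by
        calc (x : ℝ) ^ (η / 2) * f ≤ (x : ℝ) ^ (η / 2) * (x : ℝ) ^ (η / 2) :=
              mul_le_mul_of_nonneg_left h3 (Real.rpow_nonneg hx0.le _)
          _ = (x : ℝ) ^ η := by
              rw [← Real.rpow_add hx0]
              congr 1
              ring
      have h6 : (x : ℝ) ^ (η / 2) ≤ (x : ℝ) ^ η / f := by
        rw [le_div_iff₀ hfr]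
        exact h5
      linarith
    have := Real.log_le_log (Real.rpow_pos_of_pos hx0 _) h4
    rwa [Real.log_rpow hx0] at this
  have hlN0 : 0 < Real.log N := by
    have : 0 < η / 2 * Real.log x := by positivity
    linarith
  have hb := hbt 1 (f * s) N (by omega) hN0N
  have hcard : Nf f x s ≤ ((range N).filter (fun t => (1 + t * (f * s)).Prime)).card := by
    unfold Nf
    apply card_le_card_of_injOn (fun q => (q - 1) / (f * s))
    · intro q hq
      have hq' := mem_filter.mp hq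
      rw [mem_PX] at hq'
      obtain ⟨⟨hqx, hqp⟩, hd1, hd2⟩ := hq'
      obtain ⟨m, hm⟩ := Nat.Coprime.mul_dvd_of_dvd_of_dvd hco hd1 hd2
      have hq2 := hqp.two_le
      have e1 : (q - 1) / (f * s) = m := by rw [hm, Nat.mul_div_cancel_left _ hfs0]
      refine mem_filter.mpr ⟨mem_range.mpr ?_, ?_⟩
      · show (q - 1) / (f * s) < N
        rw [hN]
        have : (q - 1) / (f * s) ≤ x / (f * s) := Nat.div_le_div_right (by omega)
        omega
      · show (1 + (q - 1) / (f * s) * (f * s)).Prime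
        rw [e1]
        have h7 : 1 + m * (f * s) = q := by
          have : m * (f * s) = q - 1 := by rw [hm]; ring
          omega
        rw [h7]
        exact hqp
    · intro q hq q' hq' h
      have hq1 := mem_filter.mp hq
      have hq1' := mem_filter.mp hq'
      rw [mem_PX] at hq1 hq1'
      have hd := Nat.Coprime.mul_dvd_of_dvd_of_dvd hco hq1.2.1 hq1.2.2
      have hd' := Nat.Coprime.mul_dvd_of_dvd_of_dvd hco hq1'.2.1 hq1'.2.2
      have e1 := Nat.mul_div_cancel' hd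
      have e2 := Nat.mul_div_cancel' hd'
      simp only at h
      rw [h] at e1
      have := hq1.1.2.two_le
      have := hq1'.1.2.two_le
      omega
  have hφ : ((f * s : ℕ) : ℝ) / (Nat.totient (f * s) : ℝ) ≤ 2 * ((f : ℝ) / Nat.totient f) := by
    have h4 := BTp.ratio_mul f s hf hs0
    have h5 : (s : ℝ) / Nat.totient s ≤ 2 := by
      rw [Nat.totient_prime hsp]
      have h6 := hsp.two_le
      have h7 : (0 : ℝ) < ((s - 1 : ℕ) : ℝ) := by exact_mod_cast (by omega : 0 < s - 1)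
      rw [div_le_iff₀ h7]
      exact_mod_cast (by omega : s ≤ 2 * (s - 1))
    calc ((f * s : ℕ) : ℝ) / (Nat.totient (f * s) : ℝ) ≤
          ((f : ℝ) / Nat.totient f) * ((s : ℝ) / Nat.totient s) := h4
      _ ≤ ((f : ℝ) / Nat.totient f) * 2 := mul_le_mul_of_nonneg_left h5 (by positivity)
      _ = _ := by ring
  have hNf : (Nf f x s : ℝ) ≤ (24 / η) * (1 / (Nat.totient f : ℝ)) * (x / (s * Real.log x)) := by
    have h4 : (Nf f x s : ℝ) ≤ (2 + 1) * (((f * s : ℕ) : ℝ) / (Nat.totient (f * s) : ℝ)) * N /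
        Real.log N := le_trans (by exact_mod_cast hcard) hb
    refine h4.trans ?_
    have h5 : (N : ℝ) / Real.log N ≤ 2 * ((x : ℝ) / ((f * s : ℕ) : ℝ)) / (η / 2 * Real.log x) :=
      div_le_div₀ (by positivity) hN3 (by positivity) hlN
    calc (2 + 1) * (((f * s : ℕ) : ℝ) / (Nat.totient (f * s) : ℝ)) * N / Real.log N
        = (2 + 1) * (((f * s : ℕ) : ℝ) / (Nat.totient (f * s) : ℝ)) * (N / Real.log N) := by ring
      _ ≤ (2 + 1) * (2 * ((f : ℝ) / Nat.totient f)) *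
          (2 * ((x : ℝ) / ((f * s : ℕ) : ℝ)) / (η / 2 * Real.log x)) := by
          apply mul_le_mul _ h5 (by positivity) (by positivity)
          exact mul_le_mul_of_nonneg_left hφ (by norm_num)
      _ = _ := by
          push_cast
          field_simp
          ring
  have hls : 0 ≤ Real.log s := Real.log_natCast_nonneg s
  calc Real.log s * Thf f x s ≤ Real.log s * (Real.log x * (Nf f x s : ℝ)) :=
        mul_le_mul_of_nonneg_left (Thf_le_Nf f x s) hls
    _ ≤ Real.log s * (Real.log x * ((24 / η) * (1 / (Nat.totient f : ℝ)) *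
          (x / (s * Real.log x)))) := by
        apply mul_le_mul_of_nonneg_left _ hls
        exact mul_le_mul_of_nonneg_left hNf hlx.le
    _ = _ := by field_simp

/-- a dyadic block with many elements -/
lemma block (x : ℕ) (hx : 3 ≤ x) (T : Finset ℕ) (hT : ∀ s ∈ T, 2 ≤ s ∧ s ≤ x) (c : ℝ) (hc : 0 < c)
    (hsum : 8 * c * Real.log x ≤ ∑ s ∈ T, Real.log s / s) :
    ∃ j : ℕ, 1 ≤ j ∧ c * (((2 ^ (j + 1) : ℕ) : ℝ) / Real.log ((2 ^ (j + 1) : ℕ) : ℝ)) ≤
      ((T.filter (fun s => Nat.log 2 s = j)).card : ℝ) := by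
  classical
  by_contra hcon
  push Not at hcon
  have hxr : (3 : ℝ) ≤ x := by exact_mod_cast hx
  have hlx1 : 1 ≤ Real.log x := by
    rw [Real.le_log_iff_exp_le (by linarith)]
    have := Real.exp_one_lt_d9
    linarith
  have hl2 : 0 < Real.log 2 := Real.log_pos (by norm_num)
  have hl2' : 1 / 2 ≤ Real.log 2 := by have := Real.log_two_gt_d9; linarith
  obtain ⟨J, hJ⟩ : ∃ J, J = Nat.log 2 x + 1 := ⟨_, rfl⟩
  have hmaps : ∀ s ∈ T, Nat.log 2 s ∈ Ico 1 J := by
    intro s hs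
    obtain ⟨h1, h2⟩ := hT s hs
    rw [mem_Ico]
    refine ⟨Nat.log_pos (by norm_num) h1, ?_⟩
    have := Nat.log_mono_right (b := 2) h2
    omega
  have h1 : ∑ s ∈ T, Real.log s / s = ∑ j ∈ Ico 1 J, ∑ s ∈ T.filter (fun s => Nat.log 2 s = j),
      Real.log s / s := (sum_fiberwise_of_maps_to hmaps _).symm
  have h2 : ∀ j ∈ Ico 1 J, ∑ s ∈ T.filter (fun s => Nat.log 2 s = j), Real.log s / s ≤ 2 * c := by
    intro j hj
    rw [mem_Ico] at hj
    have h3 := hcon j hj.1
    have hlj : 0 < Real.log ((2 ^ (j + 1) : ℕ) : ℝ) := by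
      apply Real.log_pos
      exact_mod_cast Nat.one_lt_two_pow (by omega)
    have hpj : (0 : ℝ) < ((2 ^ j : ℕ) : ℝ) := by positivity
    have h4 : ∀ s ∈ T.filter (fun s => Nat.log 2 s = j),
        Real.log s / s ≤ Real.log ((2 ^ (j + 1) : ℕ) : ℝ) / ((2 ^ j : ℕ) : ℝ) := by
      intro s hs
      obtain ⟨hs1, hs2⟩ := mem_filter.mp hs
      obtain ⟨g1, g2⟩ := hT s hs1
      have g3 : 2 ^ j ≤ s := by rw [← hs2]; exact Nat.pow_log_le_self 2 (by omega)
      have g4 : s < 2 ^ (j + 1) := by rw [← hs2]; exact Nat.lt_pow_succ_log_self (by norm_num) s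
      apply div_le_div₀ hlj.le _ hpj (by exact_mod_cast g3)
      apply Real.log_le_log
      · exact_mod_cast (by omega : 0 < s)
      · exact_mod_cast g4.le
    refine (sum_le_card_nsmul _ _ _ h4).trans ?_
    rw [nsmul_eq_mul]
    calc ((T.filter (fun s => Nat.log 2 s = j)).card : ℝ) *
          (Real.log ((2 ^ (j + 1) : ℕ) : ℝ) / ((2 ^ j : ℕ) : ℝ))
        ≤ (c * (((2 ^ (j + 1) : ℕ) : ℝ) / Real.log ((2 ^ (j + 1) : ℕ) : ℝ))) *
          (Real.log ((2 ^ (j + 1) : ℕ) : ℝ) / ((2 ^ j : ℕ) : ℝ)) :=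
          mul_le_mul_of_nonneg_right h3.le (by positivity)
      _ = 2 * c := by
          have e : ((2 ^ (j + 1) : ℕ) : ℝ) = 2 * ((2 ^ j : ℕ) : ℝ) := by
            push_cast
            ring
          have hlj' := hlj.ne'
          rw [e] at hlj' ⊢
          field_simp
  have h5 : ∑ s ∈ T, Real.log s / s ≤ 2 * c * (J - 1) := by
    rw [h1]
    refine (sum_le_card_nsmul _ _ _ h2).trans ?_
    rw [nsmul_eq_mul, Nat.card_Ico, hJ]
    push_cast
    apply le_of_eq
    ring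
  have h6 : (J : ℝ) - 1 ≤ 2 * Real.log x := by
    have h7 : 2 ^ (Nat.log 2 x) ≤ x := Nat.pow_log_le_self 2 (by omega)
    have h8 : ((2 : ℝ)) ^ (Nat.log 2 x) ≤ x := by exact_mod_cast h7
    have h9 := Real.log_le_log (by positivity) h8
    rw [Real.log_pow] at h9
    rw [hJ]
    push_cast
    nlinarith [Nat.cast_nonneg (α := ℝ) (Nat.log 2 x)]
  have h7 : 2 * c * ((J : ℝ) - 1) ≤ 2 * c * (2 * Real.log x) :=
    mul_le_mul_of_nonneg_left h6 (by positivity)
  nlinarith

end Pool.Agent.H573.AHB
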