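import Pool.Agent.H573.AHB.GfG

/-!
The density theorem: positive upper density.
-/

set_option autoImplicit false

namespace Pool.Agent.H573.AHB

open Finset Filter
open Pool.Agent.H262R4.FR (Pr piq)
open Pool.Agent.H262R4.FR.TBT (evA evB evC)
open Gold

/-- **The density theorem**, positive proportion form. -/
theorem densU (f : ℕ) (hf : 1 ≤ f) : ∃ c : ℝ, 0 < c ∧ ∀ Bd : ℕ → ℕ → Prop, Sparse Bd → ∀ s0 : ℕ,
    ∀ᶠ X : ℕ in atTop, ∃ Y : ℕ, (X : ℝ) ^ (63 / 100 : ℝ) ≤ Y ∧ Y ≤ X ∧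
      ∃ T : Finset ℕ, c * (Y / Real.log Y) ≤ (T.card : ℝ) ∧
      ∀ s ∈ T, s.Prime ∧ s0 < s ∧ s ≤ Y ∧
        ∃ q, q.Prime ∧ f ∣ q - 1 ∧ s ∣ q - 1 ∧ ¬ Bd q ((q - 1) / s) := by
  classical
  obtain ⟨κ, hκ⟩ : ∃ κ : ℝ, κ = 1 / (Nat.totient f : ℝ) := ⟨_, rfl⟩
  have hφf : (0 : ℝ) < Nat.totient f := by exact_mod_cast Nat.totient_pos.mpr hf
  have hκ0 : 0 < κ := by rw [hκ]; positivity
  obtain ⟨η, hη0, hη1, hlarge⟩ := largef f hf (κ / 400) (by positivity)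
  refine ⟨η / 96000, by positivity, ?_⟩
  intro Bd hB s0
  obtain ⟨C, hC, q0, hcount⟩ := hB
  have hgold := goldf f hf
  have hsing := single f hf η hη0 hη1
  filter_upwards [hgold, hsing, hlarge, evB (8000 / κ) (99 / 100) (by positivity) (by norm_num),
    evA ((q0 : ℝ) + 1) 0 (99 / 100) (by norm_num),
    evA C (74 / 75) (99 / 100) (by norm_num),
    evA ((s0 : ℝ) + 3) 0 (63 / 100) (by norm_num),
    evA 4 (1 - η) 1 (by linarith), evA 1 (63 / 100) (1 - η) (by linarith),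
    eventually_ge_atTop 3] with X hg hsi hla hb1 hb2 hb3 hb4 hb5 hb6 hX3
  have hX0 : (0 : ℝ) < X := by
    have : 0 < X := by omega
    exact_mod_cast this
  have hX1r : (1 : ℝ) ≤ X := by
    have : 1 ≤ X := by omega
    exact_mod_cast this
  have hlX : 0 < Real.log X := Real.log_pos (by exact_mod_cast (by omega : 1 < X))
  rw [Real.rpow_zero, mul_one] at hb2 hb4
  rw [Real.rpow_one] at hb5
  rw [one_mul] at hb6
  rw [← hκ] at hg hsi
  obtain ⟨Z, hZ⟩ : ∃ Z, Z = ⌊(X : ℝ) ^ (63 / 100 : ℝ)⌋₊ := ⟨_, rfl⟩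
  obtain ⟨Z1, hZ1⟩ : ∃ Z1, Z1 = ⌊(X : ℝ) ^ (1 - η)⌋₊ := ⟨_, rfl⟩
  obtain ⟨K, hK⟩ : ∃ K, K = ⌊(X : ℝ) ^ (37 / 100 : ℝ)⌋₊ := ⟨_, rfl⟩
  rw [← hZ] at hg
  rw [← hZ, ← hZ1] at hsi
  rw [← hZ1] at hla
  have hK1 : 1 ≤ K := by
    rw [hK]
    apply Nat.le_floor
    rw [Nat.cast_one]
    exact Real.one_le_rpow hX1r (by norm_num)
  have hKX : (K : ℝ) ≤ (X : ℝ) ^ (37 / 100 : ℝ) := by
    rw [hK]
    exact Nat.floor_le (Real.rpow_nonneg hX0.le _)
  have hK0 : (0 : ℝ) < K := by exact_mod_cast hK1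
  obtain ⟨R, hR1, hRK, hKR⟩ := cube_root K hK1
  have hZZ1 : Z ≤ Z1 := by
    rw [hZ, hZ1]
    exact Nat.floor_mono hb6
  have hZ1X : Z1 ≤ X := by
    rw [hZ1]
    apply Nat.floor_le_of_le
    calc (X : ℝ) ^ (1 - η) ≤ (X : ℝ) ^ (1 : ℝ) :=
          Real.rpow_le_rpow_of_exponent_le hX1r (by linarith)
      _ = X := Real.rpow_one _
  -- the good primes
  obtain ⟨T, hT⟩ : ∃ T : Finset ℕ, T = (Pr Z Z1).filter
    (fun s => ∃ q, q.Prime ∧ q ≤ X ∧ f ∣ q - 1 ∧ s ∣ q - 1 ∧ ¬ Bd q ((q - 1) / s)) := ⟨_, rfl⟩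
  have hPrmem : ∀ s ∈ Pr Z Z1, s.Prime ∧ (X : ℝ) ^ (63 / 100 : ℝ) < s ∧ s ≤ Z1 ∧ s0 < s ∧ 2 < s := by
    intro s hs
    unfold Pool.Agent.H262R4.FR.Pr at hs
    rw [mem_filter, mem_Ioc] at hs
    have h1 : (X : ℝ) ^ (63 / 100 : ℝ) < s := by
      rw [hZ] at hs
      exact (Nat.floor_lt (Real.rpow_nonneg hX0.le _)).mp hs.1.1
    have h2 : (s0 : ℝ) + 3 < s := lt_of_le_of_lt hb4 h1
    have h3 : s0 + 3 < s := by exact_mod_cast h2
    exact ⟨hs.2, h1, hs.1.2, by omega, by omega⟩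
  -- the bad ones contribute little
  obtain ⟨BQ, hBQ⟩ : ∃ BQ : Finset ℕ, BQ = (PX X).filter
    (fun q => ∃ n, 1 ≤ n ∧ n ≤ K ∧ Even n ∧ Bd q n) := ⟨_, rfl⟩
  have hcBQ : (BQ.card : ℝ) ≤ 2 * (X : ℝ) ^ (99 / 100 : ℝ) := by
    have hsub : BQ ⊆ range (q0 + 1) ∪ BQ.filter (fun q => q0 < q) := by
      intro q hq
      rw [mem_union, mem_range, mem_filter]
      by_cases h : q0 < q
      · exact Or.inr ⟨hq, h⟩
      · exact Or.inl (by omega)
    have h1 : BQ.card ≤ (q0 + 1) + (BQ.filter (fun q => q0 < q)).card := by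
      have := (card_le_card hsub).trans (card_union_le _ _)
      rwa [card_range] at this
    have g := hcount K R hR1 hRK hKR (BQ.filter (fun q => q0 < q)) (by
      intro q hq
      obtain ⟨hq1, hq2⟩ := mem_filter.mp hq
      rw [hBQ, mem_filter, mem_PX] at hq1
      exact ⟨hq1.1.2, hq2, hq1.2⟩)
    have hR0 : (0 : ℝ) ≤ R := Nat.cast_nonneg _
    have hR3 : (R : ℝ) ≤ (X : ℝ) ^ (37 / 300 : ℝ) := by
      have h1 : ((R : ℝ) ^ 3) ≤ (X : ℝ) ^ (37 / 100 : ℝ) := by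
        refine le_trans ?_ hKX
        exact_mod_cast hRK
      have h2 : (X : ℝ) ^ (37 / 100 : ℝ) = ((X : ℝ) ^ (37 / 300 : ℝ)) ^ 3 := by
        rw [← Real.rpow_natCast, ← Real.rpow_mul hX0.le]
        norm_num
      rw [h2] at h1
      exact (pow_le_pow_iff_left₀ hR0 (Real.rpow_nonneg hX0.le _) (by norm_num)).mp h1
    have h2 : (K : ℝ) ^ 2 ≤ ((X : ℝ) ^ (37 / 100 : ℝ)) ^ 2 := pow_le_pow_left₀ hK0.le hKX 2
    have h3 : (R : ℝ) ^ 2 ≤ ((X : ℝ) ^ (37 / 300 : ℝ)) ^ 2 := pow_le_pow_left₀ hR0 hR3 2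
    have h4 : ((X : ℝ) ^ (37 / 100 : ℝ)) ^ 2 * ((X : ℝ) ^ (37 / 300 : ℝ)) ^ 2 =
        (X : ℝ) ^ (74 / 75 : ℝ) := by
      rw [← Real.rpow_natCast, ← Real.rpow_mul hX0.le, ← Real.rpow_natCast, ← Real.rpow_mul hX0.le,
        ← Real.rpow_add hX0]
      norm_num
    have h5 : C * (K : ℝ) ^ 2 * (R : ℝ) ^ 2 ≤ C * (X : ℝ) ^ (74 / 75 : ℝ) := by
      rw [mul_assoc, ← h4]
      exact mul_le_mul_of_nonneg_left (mul_le_mul h2 h3 (by positivity) (by positivity)) hC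
    have h6 : (BQ.card : ℝ) ≤ ((q0 : ℝ) + 1) + ((BQ.filter (fun q => q0 < q)).card : ℝ) := by
      exact_mod_cast h1
    linarith
  have hbad : ∑ s ∈ (Pr Z Z1).filter (fun s => ¬ ∃ q, q.Prime ∧ q ≤ X ∧ f ∣ q - 1 ∧ s ∣ q - 1 ∧
      ¬ Bd q ((q - 1) / s)), Real.log s * Thf f X s ≤ Real.log X ^ 2 * (BQ.card : ℝ) := by
    obtain ⟨V, hV⟩ : ∃ V : Finset ℕ, V = (Pr Z Z1).filter (fun s => ¬ ∃ q, q.Prime ∧ q ≤ X ∧
      f ∣ q - 1 ∧ s ∣ q - 1 ∧ ¬ Bd q ((q - 1) / s)) := ⟨_, rfl⟩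
    rw [← hV]
    have h1 : ∀ s ∈ V, Real.log s * Thf f X s ≤ Real.log X ^ 2 *
        ((BQ.filter (fun q => s ∣ q - 1)).card : ℝ) := by
      intro s hs
      rw [hV, mem_filter] at hs
      obtain ⟨hs1, hs2⟩ := hs
      obtain ⟨g1, g2, g3, g4, g5⟩ := hPrmem s hs1
      push Not at hs2
      have hs0 : 0 < s := g1.pos
      have h2 : Nf f X s ≤ (BQ.filter (fun q => s ∣ q - 1)).card := by
        unfold Nf
        apply card_le_card
        intro q hq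
        rw [mem_filter, mem_PX] at hq
        obtain ⟨⟨hq1, hq2⟩, hq3, hq4⟩ := hq
        have hb := hs2 q hq2 hq1 hq3 hq4
        rw [mem_filter, hBQ, mem_filter, mem_PX]
        refine ⟨⟨⟨hq1, hq2⟩, (q - 1) / s, ?_, ?_, ?_, hb⟩, hq4⟩
        · have := hq2.two_le
          exact Nat.div_pos (Nat.le_of_dvd (by omega) hq4) hs0
        · rw [hK]
          apply Nat.le_floor
          have h3 : ((q - 1) / s) * s ≤ X := by
            have := Nat.div_mul_le_self (q - 1) s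
            omega
          have h4 : (((q - 1) / s : ℕ) : ℝ) * s ≤ X := by exact_mod_cast h3
          have h5 : (X : ℝ) = (X : ℝ) ^ (37 / 100 : ℝ) * (X : ℝ) ^ (63 / 100 : ℝ) := by
            rw [← Real.rpow_add hX0]
            norm_num
          by_contra hcon
          push Not at hcon
          have h6 : (X : ℝ) ^ (37 / 100 : ℝ) * (X : ℝ) ^ (63 / 100 : ℝ) <
              (((q - 1) / s : ℕ) : ℝ) * s :=
            mul_lt_mul'' hcon g2 (Real.rpow_nonneg hX0.le _) (Real.rpow_nonneg hX0.le _)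
          rw [← h5] at h6
          linarith
        · have hq5 : Even (q - 1) := by
            have h3 : s ≤ q - 1 := Nat.le_of_dvd (by have := hq2.two_le; omega) hq4
            have : q ≠ 2 := by omega
            have := hq2.eq_two_or_odd'.resolve_left this
            exact Nat.Odd.sub_odd this odd_one
          rw [← Nat.mul_div_cancel' hq4, Nat.even_mul] at hq5
          rcases hq5 with h | h
          · have := (Nat.Prime.even_iff g1).mp h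
            omega
          · exact h
      have h3 : Real.log s ≤ Real.log X := by
        apply Real.log_le_log
        · exact_mod_cast hs0
        · exact_mod_cast (by omega : s ≤ X)
      have h4 : (Nf f X s : ℝ) ≤ ((BQ.filter (fun q => s ∣ q - 1)).card : ℝ) := by exact_mod_cast h2
      calc Real.log s * Thf f X s ≤ Real.log X * (Real.log X * (Nf f X s : ℝ)) :=
            mul_le_mul h3 (Thf_le_Nf f X s) (Thf_nonneg _ _ _) hlX.le
        _ ≤ Real.log X * (Real.log X * ((BQ.filter (fun q => s ∣ q - 1)).card : ℝ)) := by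
            apply mul_le_mul_of_nonneg_left _ hlX.le
            exact mul_le_mul_of_nonneg_left h4 hlX.le
        _ = _ := by ring
    refine (sum_le_sum h1).trans ?_
    rw [← mul_sum]
    apply mul_le_mul_of_nonneg_left _ (by positivity)
    have h2 : ∑ s ∈ V, (BQ.filter (fun q => s ∣ q - 1)).card ≤ BQ.card := by
      have h3 : ∑ s ∈ V, (BQ.filter (fun q => s ∣ q - 1)).card =
          ∑ q ∈ BQ, (V.filter (fun s => s ∣ q - 1)).card := by
        simp only [card_filter]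
        rw [sum_comm]
      rw [h3]
      have h4 : ∀ q ∈ BQ, (V.filter (fun s => s ∣ q - 1)).card ≤ 1 := by
        intro q hq
        rw [hBQ, mem_filter, mem_PX] at hq
        rw [card_le_one]
        intro s hs s' hs'
        rw [mem_filter, hV, mem_filter] at hs hs'
        obtain ⟨g1, g2, -⟩ := hPrmem s hs.1.1
        obtain ⟨g1', g2', -⟩ := hPrmem s' hs'.1.1
        by_contra hne
        have hco : Nat.Coprime s s' := (Nat.coprime_primes g1 g1').mpr hne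
        have hd := Nat.Coprime.mul_dvd_of_dvd_of_dvd hco hs.2 hs'.2
        have hq2 := hq.1.2.two_le
        have hle : s * s' ≤ X := (Nat.le_of_dvd (by omega) hd).trans (by omega)
        have hle' : (s : ℝ) * s' ≤ X := by exact_mod_cast hle
        have h5 : (X : ℝ) ^ (63 / 100 : ℝ) * (X : ℝ) ^ (63 / 100 : ℝ) < (s : ℝ) * s' :=
          mul_lt_mul'' g2 g2' (Real.rpow_nonneg hX0.le _) (Real.rpow_nonneg hX0.le _)
        rw [← Real.rpow_add hX0] at h5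
        have h6 : (X : ℝ) ≤ (X : ℝ) ^ (63 / 100 + 63 / 100 : ℝ) := by
          calc (X : ℝ) = (X : ℝ) ^ (1 : ℝ) := (Real.rpow_one _).symm
            _ ≤ _ := Real.rpow_le_rpow_of_exponent_le hX1r (by norm_num)
        linarith
      calc ∑ q ∈ BQ, (V.filter (fun s => s ∣ q - 1)).card ≤ ∑ q ∈ BQ, 1 := sum_le_sum h4
        _ = BQ.card := by simp
    exact_mod_cast h2
  -- the good ones have much mass
  have hsplit : ∑ ℓ ∈ Pr Z X, Real.log ℓ * Thf f X ℓ = ∑ ℓ ∈ Pr Z Z1, Real.log ℓ * Thf f X ℓ +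
      ∑ ℓ ∈ Pr Z1 X, Real.log ℓ * Thf f X ℓ := by
    unfold Pool.Agent.H262R4.FR.Pr
    rw [sum_filter, sum_filter, sum_filter]
    exact (sum_Ioc_consecutive _ hZZ1 hZ1X).symm
  have hsplit2 : ∑ ℓ ∈ Pr Z Z1, Real.log ℓ * Thf f X ℓ = ∑ ℓ ∈ T, Real.log ℓ * Thf f X ℓ +
      ∑ s ∈ (Pr Z Z1).filter (fun s => ¬ ∃ q, q.Prime ∧ q ≤ X ∧ f ∣ q - 1 ∧ s ∣ q - 1 ∧
      ¬ Bd q ((q - 1) / s)), Real.log s * Thf f X s := by
    rw [hT]
    exact (sum_filter_add_sum_filter_not _ _ _).symm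
  have hlogbad : Real.log X ^ 2 * (BQ.card : ℝ) ≤ (κ / 4000) * (X * Real.log X) := by
    have h2 : (X : ℝ) ^ (99 / 100 : ℝ) ≤ κ / 8000 * (X / Real.log X) := by
      have h3 : (X : ℝ) ^ (99 / 100 : ℝ) = κ / 8000 * (8000 / κ * (X : ℝ) ^ (99 / 100 : ℝ)) := by
        field_simp
      rw [h3]
      exact mul_le_mul_of_nonneg_left hb1 (by positivity)
    calc Real.log X ^ 2 * (BQ.card : ℝ) ≤ Real.log X ^ 2 * (2 * (κ / 8000 * (X / Real.log X))) := by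
          apply mul_le_mul_of_nonneg_left _ (by positivity)
          linarith
      _ = (κ / 4000) * (X * Real.log X) := by
          field_simp
          ring
  have hgood : (κ / 500) * (X * Real.log X) ≤ ∑ ℓ ∈ T, Real.log ℓ * Thf f X ℓ := by
    have h1 : 1 / 200 * κ * (X * Real.log X) = (κ / 200) * (X * Real.log X) := by ring
    rw [h1] at hg
    have h2 : 0 ≤ κ * (X * Real.log X) := by positivity
    nlinarith
  have hgood2 : ∑ ℓ ∈ T, Real.log ℓ * Thf f X ℓ ≤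
      (24 / η) * κ * X * ∑ s ∈ T, Real.log s / s := by
    rw [mul_sum]
    apply sum_le_sum
    intro s hs
    rw [hT, mem_filter] at hs
    exact hsi s hs.1
  have hmass : 8 * (η / 96000) * Real.log X ≤ ∑ s ∈ T, Real.log s / s := by
    have h1 := hgood.trans hgood2
    have h2 : (κ / 500) * (X * Real.log X) = (24 / η) * κ * X * (8 * (η / 96000) * Real.log X) := by
      field_simp
      ring
    rw [h2] at h1
    exact le_of_mul_le_mul_left h1 (by positivity)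
  obtain ⟨j, hj1, hj⟩ := block X hX3 T (by
    intro s hs
    rw [hT, mem_filter] at hs
    obtain ⟨g1, g2, g3, g4, g5⟩ := hPrmem s hs.1
    omega) (η / 96000) (by positivity) hmass
  have hne : (T.filter (fun s => Nat.log 2 s = j)).Nonempty := by
    rw [← card_pos]
    have h1 : 0 < Real.log ((2 ^ (j + 1) : ℕ) : ℝ) := by
      apply Real.log_pos
      exact_mod_cast Nat.one_lt_two_pow (by omega)
    have h2 : 0 < η / 96000 * (((2 ^ (j + 1) : ℕ) : ℝ) / Real.log ((2 ^ (j + 1) : ℕ) : ℝ)) := by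
      positivity
    exact_mod_cast lt_of_lt_of_le h2 hj
  obtain ⟨s1, hs1⟩ := hne
  obtain ⟨hs1T, hs1j⟩ := mem_filter.mp hs1
  rw [hT, mem_filter] at hs1T
  obtain ⟨g1, g2, g3, g4, g5⟩ := hPrmem s1 hs1T.1
  have hs1a : 2 ^ j ≤ s1 := by rw [← hs1j]; exact Nat.pow_log_le_self 2 (by omega)
  have hs1b : s1 < 2 ^ (j + 1) := by rw [← hs1j]; exact Nat.lt_pow_succ_log_self (by norm_num) s1
  refine ⟨2 ^ (j + 1), ?_, ?_, T.filter (fun s => Nat.log 2 s = j), hj, ?_⟩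
  · have : (s1 : ℝ) < ((2 ^ (j + 1) : ℕ) : ℝ) := by exact_mod_cast hs1b
    linarith
  · have h1 : (s1 : ℝ) ≤ (X : ℝ) ^ (1 - η) := by
      have h2 : (Z1 : ℝ) ≤ (X : ℝ) ^ (1 - η) := by
        rw [hZ1]
        exact Nat.floor_le (Real.rpow_nonneg hX0.le _)
      have h3 : (s1 : ℝ) ≤ Z1 := by exact_mod_cast g3
      linarith
    have h2 : ((2 ^ (j + 1) : ℕ) : ℝ) ≤ X := by
      have h3 : ((2 ^ (j + 1) : ℕ) : ℝ) ≤ 2 * s1 := by
        have : 2 ^ (j + 1) ≤ 2 * s1 := by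
          rw [pow_succ]
          omega
        exact_mod_cast this
      have h4 : (0 : ℝ) ≤ (X : ℝ) ^ (1 - η) := Real.rpow_nonneg hX0.le _
      linarith
    exact_mod_cast h2
  · intro s hs
    obtain ⟨hsT, hsj⟩ := mem_filter.mp hs
    rw [hT, mem_filter] at hsT
    obtain ⟨k1, k2, k3, k4, k5⟩ := hPrmem s hsT.1
    obtain ⟨q, hq1, hq2, hq3, hq4, hq5⟩ := hsT.2
    refine ⟨k1, k4, ?_, q, hq1, hq3, hq4, hq5⟩
    have : s < 2 ^ (j + 1) := by rw [← hsj]; exact Nat.lt_pow_succ_log_self (by norm_num) s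
    omega

/-- `S` has positive upper density among the primes; more precisely, every interval
`[X^{5/8}, X]` with `X` large contains some `Y` such that at least `c Y / log Y` elements of `S`
are at most `Y`. -/
def PosDens (S : Set ℕ) : Prop :=
  ∃ c : ℝ, 0 < c ∧ ∃ X₀ : ℕ, ∀ X : ℕ, X₀ ≤ X → ∃ Y : ℕ, (X : ℝ) ^ (5 / 8 : ℝ) ≤ Y ∧ Y ≤ X ∧
    c * (Y / Real.log Y) ≤ ((S ∩ Set.Iic Y).ncard : ℝ)

/-- the diagonal form of the density theorem -/
theorem diagU (f : ℕ) (hf : 1 ≤ f) (Bd : ℕ → ℕ → ℕ → Prop) (hB : ∀ i, Sparse (Bd i)) (s0 : ℕ) :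
    ∃ S : Set ℕ, (∀ s ∈ S, s.Prime ∧ s0 < s) ∧ PosDens S ∧
      ∀ i, ∀ᶠ s in atTop, s ∈ S →
        ∃ q, q.Prime ∧ f ∣ q - 1 ∧ s ∣ q - 1 ∧ ¬ Bd i q ((q - 1) / s) := by
  classical
  obtain ⟨c, hc, hdens⟩ := densU f hf
  -- thresholds
  have hlev : ∀ P : ℕ, ∃ N : ℕ, ∀ X : ℕ, N ≤ X →
      ∃ Y : ℕ, (X : ℝ) ^ (63 / 100 : ℝ) ≤ Y ∧ Y ≤ X ∧
      ∃ T : Finset ℕ, c * (Y / Real.log Y) ≤ (T.card : ℝ) ∧ ∀ s ∈ T, s.Prime ∧ s0 < s ∧ s ≤ Y ∧
      ∃ q, q.Prime ∧ f ∣ q - 1 ∧ s ∣ q - 1 ∧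
        ¬ (∃ i ∈ Finset.range (P + 1), Bd i q ((q - 1) / s)) := by
    intro P
    have h1 := hdens (fun q n => ∃ i ∈ Finset.range (P + 1), Bd i q n)
      (Sparse.exists_mem _ _ (fun i _ => hB i)) s0
    exact eventually_atTop.mp h1
  choose N hN using hlev
  obtain ⟨N', hN'⟩ : ∃ N' : ℕ → ℕ, N' = fun P => (Finset.range (P + 1)).sup N := ⟨_, rfl⟩
  have hNN : ∀ P, N P ≤ N' P := by
    intro P
    rw [hN']
    exact Finset.le_sup (f := N) (Finset.mem_range.mpr (Nat.lt_succ_self P))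
  obtain ⟨h, hh⟩ : ∃ h : ℕ → ℕ, h = fun x => Nat.findGreatest (fun P => N' P ≤ x) x := ⟨_, rfl⟩
  have hmono : ∀ s X, s ≤ X → h s ≤ h X := by
    intro s X hsX
    rw [hh]
    exact Nat.findGreatest_mono (fun P hP => le_trans hP hsX) hsX
  have hbig : ∀ P, ∀ᶠ s in atTop, P ≤ h s := by
    intro P
    filter_upwards [eventually_ge_atTop (max P (N' P))] with s hs
    rw [hh]
    exact Nat.le_findGreatest (le_of_max_le_left hs) (le_of_max_le_right hs)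
  have hspec : ∀ X, N' 0 ≤ X → N' (h X) ≤ X := by
    intro X hX
    rw [hh]
    exact Nat.findGreatest_spec (P := fun P => N' P ≤ X) (Nat.zero_le X) hX
  refine ⟨{s | s.Prime ∧ s0 < s ∧ ∃ q, q.Prime ∧ f ∣ q - 1 ∧ s ∣ q - 1 ∧
    ∀ i ≤ h s, ¬ Bd i q ((q - 1) / s)},
    fun s hs => ⟨hs.1, hs.2.1⟩, ⟨c, hc, max 1 (N' 0), ?_⟩, ?_⟩
  · intro X hX
    have hX1 : 1 ≤ X := le_of_max_le_left hX
    obtain ⟨Y, hY1, hY2, T, hT1, hT2⟩ := hN (h X) X ((hNN _).trans (hspec X (le_of_max_le_right hX)))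
    refine ⟨Y, ?_, hY2, hT1.trans ?_⟩
    · refine le_trans ?_ hY1
      exact Real.rpow_le_rpow_of_exponent_le (by exact_mod_cast hX1) (by norm_num)
    have hsub : (T : Set ℕ) ⊆ {s | s.Prime ∧ s0 < s ∧ ∃ q, q.Prime ∧ f ∣ q - 1 ∧ s ∣ q - 1 ∧
        ∀ i ≤ h s, ¬ Bd i q ((q - 1) / s)} ∩ Set.Iic Y := by
      intro s hs
      obtain ⟨h1, h2, h3, q, h4, h4', h5, h6⟩ := hT2 s hs
      refine ⟨⟨h1, h2, q, h4, h4', h5, ?_⟩, h3⟩
      intro i hi hbad
      exact h6 ⟨i, Finset.mem_range.mpr (Nat.lt_succ_of_le (hi.trans (hmono s X (h3.trans hY2)))), hbad⟩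
    have h4 := Set.ncard_le_ncard hsub ((Set.finite_Iic Y).inter_of_right _)
    rw [Set.ncard_coe_finset] at h4
    exact_mod_cast h4
  · intro i
    filter_upwards [hbig i] with s hs hsS
    obtain ⟨_, _, q, h1, h1', h2, h3⟩ := hsS
    exact ⟨q, h1, h1', h2, h3 i hs⟩

/-- positive density implies many elements up to every large `X` -/
lemma PosDens.many {S : Set ℕ} (h : PosDens S) :
    ∃ X₀ : ℕ, ∀ X : ℕ, X₀ ≤ X → (X : ℝ) ^ (31 / 50 : ℝ) ≤ ((S ∩ Set.Iic X).ncard : ℝ) := by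
  obtain ⟨c, hc, X0, h1⟩ := h
  have e1 := evB (1 / c) (124 / 125) (by positivity) (by norm_num)
  have e2 : ∀ᶠ X : ℕ in atTop, (1 : ℝ) ≤ X := by
    filter_upwards [eventually_ge_atTop 1] with X hX
    exact_mod_cast hX
  obtain ⟨X1, hX1⟩ := eventually_atTop.mp (e1.and (eventually_ge_atTop 3))
  obtain ⟨X2, hX2⟩ := eventually_atTop.mp (evA (X1 + 3) 0 (5 / 8) (by norm_num))
  refine ⟨max X0 (max X2 3), ?_⟩
  intro X hX
  obtain ⟨Y, hY1, hY2, hY3⟩ := h1 X (le_of_max_le_left hX)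
  have hX2' := hX2 X (le_of_max_le_left (le_of_max_le_right hX))
  have hX3 : 3 ≤ X := le_of_max_le_right (le_of_max_le_right hX)
  have hX0 : (0 : ℝ) < X := by exact_mod_cast (by omega : 0 < X)
  rw [Real.rpow_zero, mul_one] at hX2'
  have hYX1 : ((X1 + 3 : ℕ) : ℝ) ≤ Y := by
    push_cast
    linarith
  have hYX1' : X1 + 3 ≤ Y := by exact_mod_cast hYX1
  obtain ⟨h2, h3⟩ := hX1 Y (by omega)
  have hY0 : (0 : ℝ) < Y := by exact_mod_cast (by omega : 0 < Y)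
  have h4 : (X : ℝ) ^ (31 / 50 : ℝ) ≤ (Y : ℝ) ^ (124 / 125 : ℝ) := by
    have h5 : (X : ℝ) ^ (31 / 50 : ℝ) = ((X : ℝ) ^ (5 / 8 : ℝ)) ^ (124 / 125 : ℝ) := by
      rw [← Real.rpow_mul hX0.le]
      norm_num
    rw [h5]
    exact Real.rpow_le_rpow (Real.rpow_nonneg hX0.le _) hY1 (by norm_num)
  have h6 : (Y : ℝ) ^ (124 / 125 : ℝ) ≤ c * (Y / Real.log Y) := by
    have h7 : (Y : ℝ) ^ (124 / 125 : ℝ) = c * (1 / c * (Y : ℝ) ^ (124 / 125 : ℝ)) := by
      field_simp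
    rw [h7]
    exact mul_le_mul_of_nonneg_left h2 hc.le
  refine h4.trans (h6.trans (hY3.trans ?_))
  have h8 : (S ∩ Set.Iic Y) ⊆ (S ∩ Set.Iic X) := by
    intro s hs
    exact ⟨hs.1, le_trans hs.2 hY2⟩
  exact_mod_cast Set.ncard_le_ncard h8 ((Set.finite_Iic X).inter_of_right _)

end Pool.Agent.H573.AHB
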