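import Pool.Agent.H573.AHB.BTpC
import Pool.Graph.R_seed8.Y889.PN.BVMax
import Pool.Graph.R_pool_sql_team_seeded_5cf16337.K3h65.RL.Sums

/-!
Large prime factors of `q - 1`: the finite part of Chebyshev's method.
-/

set_option autoImplicit false

namespace Pool.Agent.H573.AHB.Gold

open Finset Filter
open ArithmeticFunction (vonMangoldt)
open Pool.Agent.Y889.PN (PS bvmax)
open Pool.Agent.H262R4.FR (Pr piq)

/-- the primes up to `x` -/
def PX (x : ℕ) : Finset ℕ := (Icc 1 x).filter Nat.Prime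

lemma mem_PX {x q : ℕ} : q ∈ PX x ↔ q ≤ x ∧ q.Prime := by
  unfold PX
  rw [mem_filter, mem_Icc]
  constructor
  · rintro ⟨⟨_, h⟩, hp⟩
    exact ⟨h, hp⟩
  · rintro ⟨h, hp⟩
    exact ⟨⟨hp.one_lt.le, h⟩, hp⟩

/-- `∑ log q` over the primes `q ≤ x` with `d ∣ q - 1` -/
noncomputable def Th (x d : ℕ) : ℝ := ∑ q ∈ (PX x).filter (fun q => d ∣ q - 1), Real.log q

lemma Th_nonneg (x d : ℕ) : 0 ≤ Th x d := sum_nonneg fun _ _ => Real.log_natCast_nonneg _

/-- the primes `q ≤ x` such that `q - 1` has a prime factor exceeding `Z` -/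
noncomputable def Gd (x Z : ℕ) : Finset ℕ := by
  classical
  exact (PX x).filter (fun q => ∃ s : ℕ, s.Prime ∧ s ∣ q - 1 ∧ Z < s)

lemma mem_Gd {x Z q : ℕ} : q ∈ Gd x Z ↔ q ∈ PX x ∧ ∃ s : ℕ, s.Prime ∧ s ∣ q - 1 ∧ Z < s := by
  classical
  unfold Gd
  rw [mem_filter]

lemma log_pred (m x : ℕ) (hm : 1 ≤ m) (hmx : m ≤ x) :
    Real.log m = ∑ d ∈ Icc 1 x, if d ∣ m then vonMangoldt d else 0 := by
  rw [← sum_filter, ← ArithmeticFunction.vonMangoldt_sum]
  apply sum_congr _ (fun _ _ => rfl)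
  ext d
  rw [Nat.mem_divisors, mem_filter, mem_Icc]
  constructor
  · rintro ⟨h1, h2⟩
    exact ⟨⟨Nat.pos_of_dvd_of_pos h1 hm, (Nat.le_of_dvd hm h1).trans hmx⟩, h1⟩
  · rintro ⟨_, h⟩
    exact ⟨h, by omega⟩

lemma switch (x : ℕ) : ∑ q ∈ PX x, Real.log q * Real.log ((q - 1 : ℕ) : ℝ) =
    ∑ d ∈ Icc 1 x, vonMangoldt d * Th x d := by
  have h1 : ∀ q ∈ PX x, Real.log q * Real.log ((q - 1 : ℕ) : ℝ) =
      ∑ d ∈ Icc 1 x, if d ∣ q - 1 then vonMangoldt d * Real.log q else 0 := by
    intro q hq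
    rw [mem_PX] at hq
    have h2 := hq.2.two_le
    rw [log_pred (q - 1) x (by omega) (by omega), mul_sum]
    apply sum_congr rfl
    intro d _
    split_ifs
    · ring
    · ring
  rw [sum_congr rfl h1, sum_comm]
  apply sum_congr rfl
  intro d _
  unfold Th
  rw [mul_sum, ← sum_filter]

lemma Th_le_PS (x d : ℕ) : Th x d ≤ PS x d 1 := by
  unfold Th Pool.Agent.Y889.PN.PS
  have h1 : ∑ q ∈ (PX x).filter (fun q => d ∣ q - 1), Real.log q =
      ∑ q ∈ (PX x).filter (fun q => d ∣ q - 1), vonMangoldt q := by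
    apply sum_congr rfl
    intro q hq
    rw [mem_filter, mem_PX] at hq
    rw [ArithmeticFunction.vonMangoldt_apply_prime hq.1.2]
  rw [h1]
  apply sum_le_sum_of_subset_of_nonneg
  · intro q hq
    rw [mem_filter, mem_PX] at hq
    rw [mem_filter, mem_Icc]
    refine ⟨⟨hq.1.2.one_lt.le, hq.1.1⟩, ?_⟩
    exact ((Nat.modEq_iff_dvd' hq.1.2.one_lt.le).mpr hq.2).symm
  · intro q _ _
    exact ArithmeticFunction.vonMangoldt_nonneg

lemma Th_le_card (x d : ℕ) :
    Th x d ≤ Real.log x * (((PX x).filter (fun q => d ∣ q - 1)).card : ℝ) := by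
  unfold Th
  refine (sum_le_card_nsmul _ _ (Real.log x) ?_).trans ?_
  · intro q hq
    rw [mem_filter, mem_PX] at hq
    apply Real.log_le_log
    · exact_mod_cast hq.1.2.pos
    · exact_mod_cast hq.1.1
  · rw [nsmul_eq_mul, mul_comm]

lemma Th_le_piq (x d : ℕ) : Th x d ≤ Real.log x * piq x d 1 := by
  refine (Th_le_card x d).trans (mul_le_mul_of_nonneg_left ?_ (Real.log_natCast_nonneg x))
  unfold Pool.Agent.H262R4.FR.piq
  apply Nat.cast_le.mpr
  apply card_le_card
  intro q hq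
  rw [mem_filter, mem_PX] at hq
  rw [mem_filter, mem_Icc]
  refine ⟨⟨hq.1.2.one_lt.le, hq.1.1⟩, hq.1.2, ?_⟩
  have h1 := hq.1.2.one_lt.le
  have h2 : ((q - 1 : ℕ) : ℤ) = (q : ℤ) - 1 := by push_cast [Nat.cast_sub h1]; ring
  rw [← h2]
  exact_mod_cast hq.2

lemma Th_le_triv (x d : ℕ) (hd : 1 ≤ d) : Th x d ≤ Real.log x * ((x : ℝ) / d) := by
  refine (Th_le_card x d).trans (mul_le_mul_of_nonneg_left ?_ (Real.log_natCast_nonneg x))
  have h1 : ((PX x).filter (fun q => d ∣ q - 1)).card ≤ ((Icc 1 x).filter (fun m => d ∣ m)).card := by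
    apply card_le_card_of_injOn (fun q => q - 1)
    · intro q hq
      have hq' := mem_filter.mp hq
      rw [mem_PX] at hq'
      have := hq'.1.2.two_le
      refine mem_filter.mpr ⟨mem_Icc.mpr ⟨?_, ?_⟩, hq'.2⟩
      · show 1 ≤ q - 1
        omega
      · show q - 1 ≤ x
        omega
    · intro q hq q' hq' he
      have h1 := mem_filter.mp hq
      have h2 := mem_filter.mp hq'
      rw [mem_PX] at h1 h2
      have h3 := h1.1.2.two_le
      have h4 := h2.1.2.two_le
      have h5 : q - 1 = q' - 1 := he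
      omega
  have h2 := Pool.Agent.H262R4.FR.TPHIS.card_dvd x d
  have h3 : (((PX x).filter (fun q => d ∣ q - 1)).card : ℝ) ≤
    (((Icc 1 x).filter (fun m => d ∣ m)).card : ℝ) := by exact_mod_cast h1
  exact h3.trans h2

/-- the part of the large primes -/
lemma large (x Z : ℕ) : ∑ ℓ ∈ Ioc Z x, (if ℓ.Prime then Real.log ℓ * Th x ℓ else 0) ≤
    (Gd x Z).card * Real.log x ^ 2 := by
  classical
  have h1 : ∑ ℓ ∈ Ioc Z x, (if ℓ.Prime then Real.log ℓ * Th x ℓ else 0) =
      ∑ q ∈ PX x, Real.log q * ∑ ℓ ∈ Ioc Z x, if ℓ.Prime ∧ ℓ ∣ q - 1 then Real.log ℓ else 0 := by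
    have h2 : ∀ ℓ ∈ Ioc Z x, (if ℓ.Prime then Real.log ℓ * Th x ℓ else 0) =
        ∑ q ∈ PX x, Real.log q * (if ℓ.Prime ∧ ℓ ∣ q - 1 then Real.log ℓ else 0) := by
      intro ℓ _
      unfold Th
      split_ifs with hp
      · rw [sum_filter, mul_sum]
        apply sum_congr rfl
        intro q _
        by_cases h : ℓ ∣ q - 1
        · rw [if_pos h, if_pos ⟨hp, h⟩]; ring
        · rw [if_neg h, if_neg (fun hh => h hh.2)]; ring
      · symm
        apply sum_eq_zero
        intro q _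
        rw [if_neg (fun hh => hp hh.1), mul_zero]
    rw [sum_congr rfl h2, sum_comm]
    apply sum_congr rfl
    intro q _
    rw [mul_sum]
  rw [h1]
  have hlx := Real.log_natCast_nonneg x
  have h3 : ∀ q ∈ PX x, Real.log q * ∑ ℓ ∈ Ioc Z x, (if ℓ.Prime ∧ ℓ ∣ q - 1 then Real.log ℓ else 0) ≤
      if q ∈ Gd x Z then Real.log x ^ 2 else 0 := by
    intro q hq
    have hq' := mem_PX.mp hq
    split_ifs with hG
    · have e1 : Real.log q ≤ Real.log x := by
        apply Real.log_le_log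
        · exact_mod_cast hq'.2.pos
        · exact_mod_cast hq'.1
      have e2 : ∑ ℓ ∈ Ioc Z x, (if ℓ.Prime ∧ ℓ ∣ q - 1 then Real.log ℓ else 0) ≤ Real.log x := by
        have h2 := hq'.2.two_le
        have e3 : ∑ ℓ ∈ Ioc Z x, (if ℓ.Prime ∧ ℓ ∣ q - 1 then Real.log ℓ else 0) ≤
            Real.log ((q - 1 : ℕ) : ℝ) := by
          rw [log_pred (q - 1) x (by omega) (by omega)]
          have e4 : ∑ ℓ ∈ Ioc Z x, (if ℓ.Prime ∧ ℓ ∣ q - 1 then Real.log ℓ else 0) ≤
              ∑ d ∈ Ioc Z x, if d ∣ q - 1 then vonMangoldt d else 0 := by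
            apply sum_le_sum
            intro ℓ _
            by_cases hp : ℓ.Prime
            · by_cases hd : ℓ ∣ q - 1
              · rw [if_pos ⟨hp, hd⟩, if_pos hd, ArithmeticFunction.vonMangoldt_apply_prime hp]
              · rw [if_neg (fun hh => hd hh.2), if_neg hd]
            · rw [if_neg (fun hh => hp hh.1)]
              split_ifs
              · exact ArithmeticFunction.vonMangoldt_nonneg
              · exact le_rfl
          refine e4.trans ?_
          apply sum_le_sum_of_subset_of_nonneg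
          · intro d hd
            rw [mem_Ioc] at hd
            rw [mem_Icc]
            omega
          · intro d _ _
            split_ifs
            · exact ArithmeticFunction.vonMangoldt_nonneg
            · exact le_rfl
        refine e3.trans ?_
        apply Real.log_le_log
        · exact_mod_cast (by omega : 0 < q - 1)
        · exact_mod_cast (by omega : q - 1 ≤ x)
      rw [sq]
      apply mul_le_mul e1 e2 _ hlx
      apply sum_nonneg
      intro ℓ _
      split_ifs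
      · exact Real.log_natCast_nonneg ℓ
      · exact le_rfl
    · apply le_of_eq
      rw [mul_eq_zero]
      right
      apply sum_eq_zero
      intro ℓ hℓ
      rw [mem_Ioc] at hℓ
      rw [if_neg]
      rintro ⟨hp, hd⟩
      exact hG (mem_Gd.mpr ⟨hq, ℓ, hp, hd, hℓ.1⟩)
  refine (sum_le_sum h3).trans ?_
  rw [← sum_filter, sum_const, nsmul_eq_mul]
  apply mul_le_mul_of_nonneg_right _ (by positivity)
  apply Nat.cast_le.mpr
  apply card_le_card
  intro q hq
  exact (mem_filter.mp hq).2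

/-- the upper bound for the whole sum -/
lemma upper (x D Z : ℕ) (hDZ : D ≤ Z) (hZx : Z ≤ x) (hD1 : 1 ≤ D) (M : ℕ → ℝ)
    (hM0 : ∀ d, 0 ≤ M d) (hM : ∀ d, 1 ≤ d → PS x d 1 ≤ x / (Nat.totient d : ℝ) + M d) :
    ∑ d ∈ Icc 1 x, vonMangoldt d * Th x d ≤
      x * ∑ d ∈ Ioc 0 D, vonMangoldt d / (Nat.totient d : ℝ) + Real.log D * ∑ d ∈ Icc 1 D, M d +
      Real.log x * ∑ ℓ ∈ Pr D Z, Real.log ℓ * piq x ℓ 1 +
      x * Real.log x * ∑ d ∈ Ioc D x, (if d.Prime then 0 else vonMangoldt d / d) +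
      (Gd x Z).card * Real.log x ^ 2 := by
  classical
  have hsplit : ∑ d ∈ Icc 1 x, vonMangoldt d * Th x d =
      ∑ d ∈ Ioc 0 D, vonMangoldt d * Th x d + (∑ d ∈ Ioc D x, vonMangoldt d * Th x d) := by
    rw [sum_Ioc_consecutive _ (Nat.zero_le D) (hDZ.trans hZx)]
    rfl
  have hsplit2 : ∑ d ∈ Ioc D x, vonMangoldt d * Th x d =
      ∑ d ∈ Ioc D x, (if d.Prime then Real.log d * Th x d else 0) +
      ∑ d ∈ Ioc D x, (if d.Prime then 0 else vonMangoldt d * Th x d) := by
    rw [← sum_add_distrib]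
    apply sum_congr rfl
    intro d _
    split_ifs with hp
    · rw [ArithmeticFunction.vonMangoldt_apply_prime hp, add_zero]
    · rw [zero_add]
  have hsplit3 : ∑ d ∈ Ioc D x, (if d.Prime then Real.log d * Th x d else 0) =
      ∑ d ∈ Ioc D Z, (if d.Prime then Real.log d * Th x d else 0) +
      ∑ d ∈ Ioc Z x, (if d.Prime then Real.log d * Th x d else 0) :=
    (sum_Ioc_consecutive _ hDZ hZx).symm
  have hlx := Real.log_natCast_nonneg x
  have b1 : ∑ d ∈ Ioc 0 D, vonMangoldt d * Th x d ≤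
      x * ∑ d ∈ Ioc 0 D, vonMangoldt d / (Nat.totient d : ℝ) + Real.log D * ∑ d ∈ Icc 1 D, M d := by
    have e : (Icc 1 D : Finset ℕ) = Ioc 0 D := rfl
    rw [e, mul_sum, mul_sum, ← sum_add_distrib]
    apply sum_le_sum
    intro d hd
    rw [mem_Ioc] at hd
    have e1 := (Th_le_PS x d).trans (hM d hd.1)
    have e2 : vonMangoldt d ≤ Real.log D := by
      refine ArithmeticFunction.vonMangoldt_le_log.trans ?_
      apply Real.log_le_log
      · exact_mod_cast hd.1
      · exact_mod_cast hd.2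
    have e3 : 0 ≤ vonMangoldt d := ArithmeticFunction.vonMangoldt_nonneg
    calc vonMangoldt d * Th x d ≤ vonMangoldt d * (x / (Nat.totient d : ℝ) + M d) :=
          mul_le_mul_of_nonneg_left e1 e3
      _ = x * (vonMangoldt d / (Nat.totient d : ℝ)) + vonMangoldt d * M d := by ring
      _ ≤ x * (vonMangoldt d / (Nat.totient d : ℝ)) + Real.log D * M d := by
          have := mul_le_mul_of_nonneg_right e2 (hM0 d)
          linarith
  have b2 : ∑ d ∈ Ioc D Z, (if d.Prime then Real.log d * Th x d else 0) ≤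
      Real.log x * ∑ ℓ ∈ Pr D Z, Real.log ℓ * piq x ℓ 1 := by
    unfold Pool.Agent.H262R4.FR.Pr
    rw [← sum_filter, mul_sum]
    apply sum_le_sum
    intro ℓ _
    have e1 := mul_le_mul_of_nonneg_left (Th_le_piq x ℓ) (Real.log_natCast_nonneg ℓ)
    linarith
  have b3 : ∑ d ∈ Ioc D x, (if d.Prime then 0 else vonMangoldt d * Th x d) ≤
      x * Real.log x * ∑ d ∈ Ioc D x, (if d.Prime then 0 else vonMangoldt d / d) := by
    rw [mul_sum]
    apply sum_le_sum
    intro d hd
    rw [mem_Ioc] at hd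
    split_ifs
    · simp
    · have e1 := Th_le_triv x d (by omega)
      calc vonMangoldt d * Th x d ≤ vonMangoldt d * (Real.log x * ((x : ℝ) / d)) :=
            mul_le_mul_of_nonneg_left e1 ArithmeticFunction.vonMangoldt_nonneg
        _ = _ := by ring
  have b4 := large x Z
  rw [hsplit, hsplit2, hsplit3]
  linarith

/-- the lower bound -/
lemma lower (x y : ℕ) (hy : 1 ≤ y) (hyx : y ≤ x) :
    Real.log y * (∑ q ∈ PX x, Real.log q - ∑ q ∈ PX y, Real.log q) ≤
      ∑ q ∈ PX x, Real.log q * Real.log ((q - 1 : ℕ) : ℝ) := by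
  classical
  have h1 : PX y ⊆ PX x := by
    intro q hq
    rw [mem_PX] at hq ⊢
    exact ⟨hq.1.trans hyx, hq.2⟩
  rw [← sum_sdiff h1, add_sub_cancel_right, mul_sum]
  have h2 : ∑ q ∈ PX x \ PX y, Real.log y * Real.log q ≤
      ∑ q ∈ PX x \ PX y, Real.log q * Real.log ((q - 1 : ℕ) : ℝ) := by
    apply sum_le_sum
    intro q hq
    rw [Finset.mem_sdiff, mem_PX, mem_PX] at hq
    have h3 : y < q := by
      by_contra h
      exact hq.2 ⟨by omega, hq.1.2⟩
    rw [mul_comm]
    apply mul_le_mul_of_nonneg_left _ (Real.log_natCast_nonneg q)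
    apply Real.log_le_log
    · exact_mod_cast hy
    · exact_mod_cast (by omega : y ≤ q - 1)
  refine h2.trans ?_
  have h4 : 0 ≤ ∑ q ∈ PX y, Real.log q * Real.log ((q - 1 : ℕ) : ℝ) :=
    sum_nonneg fun q _ => mul_nonneg (Real.log_natCast_nonneg _) (Real.log_natCast_nonneg _)
  have h5 := sum_sdiff h1 (f := fun q : ℕ => Real.log q * Real.log ((q - 1 : ℕ) : ℝ))
  linarith

end Pool.Agent.H573.AHB.Gold
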