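import Pool.Agent.H573.AHB.Cnt

/-!
# The primes attached to one irreducible polynomial
-/

namespace Pool.Agent.H573.AHB

open Polynomial

variable {r : ℕ}

/-- a relation between nonzero complex numbers, not all of absolute value one, has its largest
coordinate at the index of the largest `|log|‖x‖||` bounded by the others -/
lemma normal_vec (x : Fin r → ℂ) (hx : ∀ i, x i ≠ 0) (h1 : ∃ i, ‖x i‖ ≠ 1) :
    ∃ i : Fin r, ∀ u : Fin r → ℤ, ∏ j, x j ^ (u j) = 1 → ∀ m : ℕ,
      (∀ j, j ≠ i → (u j).natAbs ≤ m) → (u i).natAbs ≤ (r - 1) * m := by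
  classical
  have hne : (Finset.univ : Finset (Fin r)).Nonempty := by
    obtain ⟨i, _⟩ := h1
    exact ⟨i, Finset.mem_univ i⟩
  obtain ⟨i, -, hi⟩ := Finset.exists_max_image Finset.univ (fun j => |Real.log ‖x j‖|) hne
  refine ⟨i, ?_⟩
  intro u hu m hm
  have hai : 0 < |Real.log ‖x i‖| := by
    obtain ⟨k, hk⟩ := h1
    have h2 : Real.log ‖x k‖ ≠ 0 := by
      apply Real.log_ne_zero_of_pos_of_ne_one (norm_pos_iff.mpr (hx k)) hk
    exact lt_of_lt_of_le (abs_pos.mpr h2) (hi k (Finset.mem_univ k))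
  have hsum : ∑ j, (u j : ℝ) * Real.log ‖x j‖ = 0 := by
    have h3 := congrArg (fun z : ℂ => Real.log ‖z‖) hu
    simp only [norm_one, Real.log_one, norm_prod, norm_zpow] at h3
    rw [Real.log_prod (fun j _ => zpow_ne_zero _ (norm_ne_zero_iff.mpr (hx j)))] at h3
    simp only [Real.log_zpow] at h3
    exact h3
  have h4 : (u i : ℝ) * Real.log ‖x i‖ = -∑ j ∈ Finset.univ.erase i, (u j : ℝ) * Real.log ‖x j‖ := by
    have := Finset.add_sum_erase Finset.univ (fun j => (u j : ℝ) * Real.log ‖x j‖) (Finset.mem_univ i)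
    linarith
  have h5 : |(u i : ℝ)| * |Real.log ‖x i‖| ≤ ((r - 1 : ℕ) * m : ℝ) * |Real.log ‖x i‖| := by
    rw [← abs_mul, h4, abs_neg]
    refine (Finset.abs_sum_le_sum_abs _ _).trans ?_
    have h6 : ∀ j ∈ Finset.univ.erase i, |(u j : ℝ) * Real.log ‖x j‖| ≤ m * |Real.log ‖x i‖| := by
      intro j hj
      rw [abs_mul]
      have h7 := hm j (Finset.ne_of_mem_erase hj)
      have h8 : |(u j : ℝ)| ≤ m := by
        have : ((u j).natAbs : ℝ) ≤ m := by exact_mod_cast h7
        rw [Nat.cast_natAbs] at this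
        push_cast at this
        exact this
      exact mul_le_mul h8 (hi j (Finset.mem_univ j)) (abs_nonneg _) (by positivity)
    refine (Finset.sum_le_card_nsmul _ _ _ h6).trans ?_
    rw [Finset.card_erase_of_mem (Finset.mem_univ i), Finset.card_univ, Fintype.card_fin,
      nsmul_eq_mul]
    apply le_of_eq
    ring
  have h9 := le_of_mul_le_mul_right h5 hai
  have h10 : ((u i).natAbs : ℝ) ≤ (((r - 1) * m : ℕ) : ℝ) := by
    rw [Nat.cast_natAbs]
    push_cast
    exact h9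
  exact_mod_cast h10

/-- `q` is a prime modulo which some `t` with `D(t)=0` has all `φ_i(t)` in `c_i μ_n`, `n ≤ K`. -/
def Good (φ : Fin r → ℤ[X]) (c : Fin r → ℤ) (K q : ℕ) (D : ℤ[X]) : Prop :=
  (∀ i, ((c i : ℤ) : ZMod q) ≠ 0) ∧
  ∃ (t : ZMod q) (n : ℕ), 1 ≤ n ∧ n ≤ K ∧ (∀ i, (aeval t (φ i)) ^ n = ((c i : ℤ) : ZMod q) ^ n) ∧
    aeval t D = 0

lemma group_bound (hr : 2 ≤ r) (φ : Fin r → ℤ[X]) (c : Fin r → ℤ) (hc0 : ∀ i, c i ≠ 0)
    (H2 : ∀ z : ℂ, ∃ i, ‖aeval z (φ i)‖ ≠ |(c i : ℝ)|)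
    {D : ℤ[X]} (hD : Irreducible D) (hd : D.natDegree ≠ 0) {K R lam : ℕ}
    (hR1 : 1 ≤ R) (hRK : R ^ r ≤ K) (hlam1 : 1 ≤ lam) (hlamR : lam ≤ R)
    (hlam : ∀ u : Fin r → ℤ, u ≠ 0 → D ∣ PV φ c u → lam ≤ nv u)
    (Q : Finset ℕ) (hQ : ∀ q ∈ Q, q.Prime ∧ Good φ c K q D) :
    (Q.card : ℝ) * Real.log 2 ≤
      2 ^ (r + 1) * Ac φ c * ((r : ℝ) ^ (r - 1)) * K ^ 2 / lam ^ (r - 1) * sz D := by
  classical
  have hsz := sz_nonneg hD.ne_zero
  have hAc := Ac_nonneg φ c
  rcases Q.eq_empty_or_nonempty with hQe | ⟨q0, hq0⟩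
  · rw [hQe]
    simp only [Finset.card_empty, Nat.cast_zero, zero_mul]
    positivity
  -- D does not divide any φ_i
  have hndi : ∀ i, ¬ D ∣ φ i := by
    intro i hi
    obtain ⟨hqp, hcq, t, n, hn1, hnK, hall, hDt⟩ := hQ q0 hq0
    have : Fact q0.Prime := ⟨hqp⟩
    obtain ⟨E, hE⟩ := hi
    have h1 := hall i
    rw [hE, map_mul, hDt, zero_mul, zero_pow (by omega)] at h1
    exact pow_ne_zero n (hcq i) h1.symm
  -- a complex root
  obtain ⟨z, hz⟩ : ∃ z : ℂ, aeval z D = 0 := by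
    have h1 : (D.map (Int.castRingHom ℂ)).degree ≠ 0 := by
      rw [degree_map_eq_of_injective (RingHom.injective_int _)]
      intro h0
      exact hd (natDegree_eq_of_degree_eq_some h0)
    obtain ⟨z, hz⟩ := IsAlgClosed.exists_root _ h1
    refine ⟨z, ?_⟩
    rw [IsRoot.def, eval_map] at hz
    exact hz
  have hφz : ∀ i, aeval z (φ i) ≠ 0 := fun i h0 => hndi i (dvd_of_common_root hD hd hz h0)
  have hcz : ∀ j, ((c j : ℤ) : ℂ) ≠ 0 := fun j => Int.cast_ne_zero.mpr (hc0 j)
  obtain ⟨i, hi⟩ := normal_vec (fun j => aeval z (φ j) / ((c j : ℤ) : ℂ))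
    (fun j => div_ne_zero (hφz j) (hcz j)) (by
      obtain ⟨i, hi⟩ := H2 z
      refine ⟨i, ?_⟩
      rw [norm_div, Complex.norm_intCast]
      intro h
      rw [div_eq_one_iff_eq (by
        rw [abs_ne_zero]
        exact_mod_cast hc0 i)] at h
      exact hi h)
  -- the box
  set m : ℕ := (lam - 1) / (r - 1) + 1 with hm
  set M : ℕ := K / m ^ (r - 1) with hM
  have hm1 : 1 ≤ m := Nat.le_add_left 1 _
  have hmm : (r - 1) * (m - 1) ≤ lam - 1 := by
    have : m - 1 = (lam - 1) / (r - 1) := by omega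
    rw [this]
    exact Nat.mul_div_le _ _
  have hmlam : lam ≤ (r - 1) * m := by
    have h1 : lam - 1 < (r - 1) * ((lam - 1) / (r - 1) + 1) :=
      Nat.lt_mul_div_succ _ (by omega)
    rw [← hm] at h1
    omega
  have hmR : m ≤ R := by
    have : (lam - 1) / (r - 1) ≤ lam - 1 := Nat.div_le_self _ _
    omega
  have hmpow : 0 < m ^ (r - 1) := by positivity
  have hMR : R ≤ M := by
    rw [hM, Nat.le_div_iff_mul_le hmpow]
    calc R * m ^ (r - 1) ≤ R * R ^ (r - 1) := Nat.mul_le_mul_left _ (Nat.pow_le_pow_left hmR _)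
      _ = R ^ r := by rw [← pow_succ']; congr 1; omega
      _ ≤ K := hRK
  have hMK : M * m ^ (r - 1) ≤ K := Nat.div_mul_le_self _ _
  have hKM : K < (M + 1) * m ^ (r - 1) := by
    have := Nat.lt_mul_div_succ K hmpow
    rw [← hM] at this
    rw [mul_comm]
    exact this
  set w : Fin r → ℕ := fun j => if j = i then M + 1 else m with hw
  have hprod : ∏ j, w j = (M + 1) * m ^ (r - 1) := by
    rw [← Finset.mul_prod_erase Finset.univ w (Finset.mem_univ i)]
    have h1 : w i = M + 1 := by simp [hw]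
    rw [h1]
    congr 1
    rw [Finset.prod_congr rfl (fun j hj => (by simp [hw, Finset.ne_of_mem_erase hj] : w j = m)),
      Finset.prod_const, Finset.card_erase_of_mem (Finset.mem_univ i), Finset.card_univ,
      Fintype.card_fin]
  set Box : Finset (Fin r → ℤ) :=
    Fintype.piFinset fun j => Finset.Icc (-((w j : ℤ) - 1)) ((w j : ℤ) - 1) with hBox
  have hBoxcard : (Box.card : ℝ) ≤ 2 ^ (r + 1) * K := by
    have h1 : Box.card ≤ ∏ j, (2 * w j) := by
      rw [hBox, Fintype.card_piFinset]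
      apply Finset.prod_le_prod (fun _ _ => Nat.zero_le _)
      intro j _
      rw [Int.card_Icc]
      omega
    rw [Finset.prod_mul_distrib, Finset.prod_const, Finset.card_univ, Fintype.card_fin, hprod] at h1
    have h2 : (M + 1) * m ^ (r - 1) ≤ 2 * K := by
      have : m ^ (r - 1) ≤ M * m ^ (r - 1) := Nat.le_mul_of_pos_left _ (by omega)
      rw [add_mul, one_mul]
      omega
    have h3 : Box.card ≤ 2 ^ (r + 1) * K := by
      refine h1.trans ?_
      calc 2 ^ r * ((M + 1) * m ^ (r - 1)) ≤ 2 ^ r * (2 * K) := Nat.mul_le_mul_left _ h2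
        _ = 2 ^ (r + 1) * K := by rw [pow_succ]; ring
    exact_mod_cast h3
  -- for each q a vector
  have key : ∀ q ∈ Q, ∃ u ∈ Box, u ≠ 0 ∧ nv u ≤ M ∧ ¬ D ∣ PV φ c u ∧
      ∃ t : ZMod q, aeval t D = 0 ∧ aeval t (PV φ c u) = 0 := by
    intro q hq
    obtain ⟨hqp, hcq, t, n, hn1, hnK, hall, hDt⟩ := hQ q hq
    have : Fact q.Prime := ⟨hqp⟩
    obtain ⟨u, hu0, hub, hup⟩ := box_pigeon (fun j => aeval t (φ j) / ((c j : ℤ) : ZMod q))
      hn1 hnK (fun j => by rw [div_pow, hall j]; exact div_self (pow_ne_zero n (hcq j))) w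
      (by rw [hprod]; exact hKM)
    have hne : ∀ j, aeval t (φ j) ≠ 0 := by
      intro j h0
      have := hall j
      rw [h0, zero_pow (by omega)] at this
      exact pow_ne_zero n (hcq j) this.symm
    have hnvM : nv u ≤ M := by
      apply nv_le
      intro j
      have h1 := hub j
      by_cases hj : j = i
      · simp only [hw, if_pos hj] at h1
        omega
      · simp only [hw, if_neg hj] at h1
        omega
    refine ⟨u, ?_, hu0, hnvM, ?_, t, hDt, ?_⟩
    · rw [hBox, Fintype.mem_piFinset]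
      intro j
      have h1 := hub j
      rw [Finset.mem_Icc]
      constructor <;> omega
    · intro hdvd
      have h1 := hlam u hu0 hdvd
      obtain ⟨E, hE⟩ := hdvd
      have h2 : aeval z (PV φ c u) = 0 := by rw [hE, map_mul, hz, zero_mul]
      have h3 := (PV_eval φ c u z hφz hcz).mp h2
      have h4 := hi u h3 (m - 1) (by
        intro j hj
        have h5 := hub j
        simp only [hw, if_neg hj] at h5
        omega)
      have h6 : nv u ≤ lam - 1 := by
        apply nv_le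
        intro j
        by_cases hj : j = i
        · rw [hj]; omega
        · have h5 := hub j
          simp only [hw, if_neg hj] at h5
          have h7 : m - 1 ≤ (r - 1) * (m - 1) := Nat.le_mul_of_pos_left _ (by omega)
          omega
      omega
    · exact (PV_eval φ c u t hne hcq).mpr hup
  -- union bound
  set QU : (Fin r → ℤ) → Finset ℕ := fun u => Q.filter fun q =>
    u ≠ 0 ∧ nv u ≤ M ∧ ¬ D ∣ PV φ c u ∧ ∃ t : ZMod q, aeval t D = 0 ∧ aeval t (PV φ c u) = 0 with hQU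
  have hcover : Q ⊆ Box.biUnion QU := by
    intro q hq
    obtain ⟨u, huB, hu⟩ := key q hq
    rw [Finset.mem_biUnion]
    exact ⟨u, huB, Finset.mem_filter.mpr ⟨hq, hu⟩⟩
  have hlog2 : 0 < Real.log 2 := Real.log_pos (by norm_num)
  have heach : ∀ u ∈ Box, ((QU u).card : ℝ) * Real.log 2 ≤ M * Ac φ c * sz D := by
    intro u _
    rcases (QU u).eq_empty_or_nonempty with he | ⟨q1, hq1⟩
    · rw [he]
      simp only [Finset.card_empty, Nat.cast_zero, zero_mul]
      positivity
    · obtain ⟨-, hu0, hnu, hnd, -⟩ := Finset.mem_filter.mp hq1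
      apply card_res hD hd hu0 hnd hnu (QU u)
      · intro q hq
        exact (hQ q (Finset.mem_filter.mp hq).1).1
      · intro q hq
        exact (Finset.mem_filter.mp hq).2.2.2.2
  have hsum : (Q.card : ℝ) * Real.log 2 ≤ Box.card * (M * Ac φ c * sz D) := by
    have h1 : (Q.card : ℝ) ≤ ∑ u ∈ Box, ((QU u).card : ℝ) := by
      have h2 := (Finset.card_le_card hcover).trans Finset.card_biUnion_le
      exact_mod_cast h2
    calc (Q.card : ℝ) * Real.log 2 ≤ (∑ u ∈ Box, ((QU u).card : ℝ)) * Real.log 2 :=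
          mul_le_mul_of_nonneg_right h1 hlog2.le
      _ = ∑ u ∈ Box, ((QU u).card : ℝ) * Real.log 2 := by rw [Finset.sum_mul]
      _ ≤ ∑ u ∈ Box, (M * Ac φ c * sz D) := Finset.sum_le_sum heach
      _ = _ := by rw [Finset.sum_const, nsmul_eq_mul]
  -- final comparison
  have hlamR' : (0 : ℝ) < (lam : ℝ) ^ (r - 1) := by
    have : (1 : ℝ) ≤ lam := by exact_mod_cast hlam1
    positivity
  have hMle : (M : ℝ) ≤ K * (r : ℝ) ^ (r - 1) / lam ^ (r - 1) := by
    rw [le_div_iff₀ hlamR']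
    have h1 : lam ^ (r - 1) ≤ r ^ (r - 1) * m ^ (r - 1) := by
      rw [← mul_pow]
      apply Nat.pow_le_pow_left
      exact hmlam.trans (Nat.mul_le_mul_right _ (by omega))
    have h2 : M * lam ^ (r - 1) ≤ K * r ^ (r - 1) := by
      calc M * lam ^ (r - 1) ≤ M * (r ^ (r - 1) * m ^ (r - 1)) := Nat.mul_le_mul_left _ h1
        _ = (M * m ^ (r - 1)) * r ^ (r - 1) := by ring
        _ ≤ K * r ^ (r - 1) := Nat.mul_le_mul_right _ hMK
    exact_mod_cast h2
  calc (Q.card : ℝ) * Real.log 2 ≤ Box.card * (M * Ac φ c * sz D) := hsum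
    _ ≤ (2 ^ (r + 1) * K) * (M * Ac φ c * sz D) :=
        mul_le_mul_of_nonneg_right hBoxcard (by positivity)
    _ ≤ (2 ^ (r + 1) * K) * ((K * (r : ℝ) ^ (r - 1) / lam ^ (r - 1)) * Ac φ c * sz D) := by
        apply mul_le_mul_of_nonneg_left _ (by positivity)
        apply mul_le_mul_of_nonneg_right _ hsz
        exact mul_le_mul_of_nonneg_right hMle hAc
    _ = _ := by ring

end Pool.Agent.H573.AHB
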