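import Pool.Agent.H573.AHB.Diff

/-!
`x^{2s} + y^{2p} = z²`, `x` even, `p ∤ x`.
-/

namespace Pool.Agent.H573.AHB

open Filter

lemma sparse_leg (m : ℕ) (hm : 1 ≤ m) (hp : (2 * m + 1).Prime) :
    Sparse (fun q n => BadUV 1 m 1 1 2 1 1 q n) := by
  refine core_count 1 m 1 1 2 1 1 (by norm_num) hm le_rfl le_rfl (by norm_num) le_rfl le_rfl hp
    ?_ ?_ ?_ ?_
  · intro h
    have h3 : ((2 * m + 1 : ℕ) : ℤ) ∣ ((1 : ℕ) : ℤ) := by simpa using h
    have h4 := Int.natCast_dvd_natCast.mp h3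
    have := Nat.le_of_dvd one_pos h4
    omega
  · have e1 : 2 ^ (4 * m) = 16 ^ m := by rw [pow_mul]; norm_num
    have e2 : (2 ^ 2 * 1 ^ 2 + (1 : ℤ).natAbs * 1 ^ 2) ^ (2 * m + 1) = 25 ^ m * 5 := by
      have : (1 : ℤ).natAbs = 1 := rfl
      rw [this]
      norm_num
      rw [pow_succ, pow_mul]
      norm_num
    have e3 : (1 ^ 2 * (2 ^ 2 * 1 ^ 2) + (1 : ℤ).natAbs * 1 ^ 2 * 1 ^ 2) = 5 := by
      have : (1 : ℤ).natAbs = 1 := rfl
      rw [this]
      norm_num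
    rw [e1, e2, e3]
    exact Nat.mul_lt_mul_of_pos_right (Nat.pow_lt_pow_left (by norm_num) (by omega)) (by norm_num)
  · have e3 : (1 : ℤ).natAbs = 1 := rfl
    rw [e3, one_pow, one_pow, mul_one, mul_one, mul_one]
    intro h
    have h1 : 2 ∣ 2 ^ (2 * m) := dvd_pow_self 2 (by omega)
    rw [h] at h1
    omega
  · rw [one_pow, mul_one]
    omega

lemma one_of_mul_eq_one {a b : ℕ} (h : a * b = 1) : a = 1 ∧ b = 1 :=
  ⟨Nat.eq_one_of_mul_eq_one_right h, Nat.eq_one_of_mul_eq_one_left h⟩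

/-- the local contradiction -/
lemma leg_local (m : ℕ) (hm : 1 ≤ m) (hp : (2 * m + 1).Prime) (s q : ℕ) (hs : s.Prime)
    (hs2 : 2 < s) (hq : q.Prime) (hsq : s ∣ q - 1)
    (hnb : ¬ BadUV 1 m 1 1 2 1 1 q ((q - 1) / s)) (X Y w t r : ℤ) (hco : IsCoprime X Y)
    (hw : Odd w) (h : X ^ 2 - Y ^ 2 = w ^ (2 * m + 1)) (hX : X = t ^ s) (hY : 2 * Y = r ^ s)
    (hr : Even r)
    (hpX : ¬ ((2 * m + 1 : ℕ) : ℤ) ∣ X) (hpY : ¬ ((2 * m + 1 : ℕ) : ℤ) ∣ Y) : False := by
  have hsodd : Odd s := hs.odd_of_ne_two (by omega)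
  obtain ⟨u, v, hu, hv⟩ := split_desc X Y w m hco hw h
  have huv : IsCoprime u v := by
    rw [hu, hv] at hco
    exact hco.of_mul_left_left.of_mul_right_left
  have hpu : ¬ ((2 * m + 1 : ℕ) : ℤ) ∣ u := by
    intro h1
    apply hpX
    rw [hu]
    exact h1.mul_right _
  have hpv : ¬ ((2 * m + 1 : ℕ) : ℤ) ∣ v := by
    intro h1
    apply hpY
    rw [hv]
    exact h1.mul_right _
  have hF := cop_F m hp 1 u v huv isCoprime_one_right hpu
  have hG := cop_G m hp 1 u v huv hpv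
  have hX0 : X ≠ 0 := by
    intro h1
    apply hpX
    rw [h1]
    exact dvd_zero _
  have hY0 : Y ≠ 0 := by
    intro h1
    apply hpY
    rw [h1]
    exact dvd_zero _
  have ht0 : t ≠ 0 := by
    rintro rfl
    rw [zero_pow (by omega)] at hX
    exact hX0 hX
  have hr0 : r ≠ 0 := by
    rintro rfl
    rw [zero_pow (by omega)] at hY
    omega
  -- parity
  have hYe : Even Y := by
    have h4 : (4 : ℤ) ∣ r ^ s := by
      have h1 : (4 : ℤ) ∣ r ^ 2 := by
        obtain ⟨k, hk⟩ := hr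
        exact ⟨k ^ 2, by rw [hk]; ring⟩
      exact h1.trans (pow_dvd_pow r (by omega))
    rw [← hY] at h4
    obtain ⟨k, hk⟩ := h4
    exact ⟨k, by omega⟩
  have hXo : Odd X := by
    by_contra hcon
    rw [Int.not_odd_iff_even] at hcon
    have := hco.isUnit_of_dvd' hcon.two_dvd hYe.two_dvd
    rw [Int.isUnit_iff] at this
    omega
  have huo : Odd u := by
    rw [hu, Int.odd_mul] at hXo
    exact hXo.1
  have huvo : Odd (u + v) := by
    have e1 := pow_FG (δ := (1 : ℤ)) (ω := 1) (by norm_num) u v m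
    rw [one_mul, ← hu, ← hv] at e1
    have h2 : Odd ((u + v) ^ (2 * m + 1)) := by
      rw [e1]
      exact hXo.add_even hYe
    by_contra hcon
    rw [Int.not_odd_iff_even] at hcon
    have : Even ((u + v) ^ (2 * m + 1)) := hcon.pow_of_ne_zero (by omega)
    exact (Int.not_even_iff_odd.mpr h2) this
  have hve : Even v := by
    by_contra hcon
    rw [Int.not_even_iff_odd] at hcon
    exact (Int.not_even_iff_odd.mpr huvo) (huo.add_odd hcon)
  have hGo : Odd (Gh 1 u v m) := by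
    obtain ⟨k, hk⟩ := FG_mod_v 1 u v m
    have h1 : Gh 1 u v m = (2 * m + 1) * u ^ (2 * m) + v * k := by linarith
    rw [h1]
    refine Odd.add_even ?_ (hve.mul_right k)
    exact Odd.mul ⟨m, rfl⟩ huo.pow
  have hG2 : IsCoprime (2 * v) (Gh 1 u v m) := by
    refine IsCoprime.mul_left ?_ hG
    obtain ⟨k, hk⟩ := hGo
    exact ⟨-k, 1, by rw [hk]; ring⟩
  obtain ⟨c', c'', hcc, w1, w3, e1, e3⟩ := split_pow 1 le_rfl s hsodd t u _ ht0 hF (by
    rw [← hu, hX]; push_cast; ring)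
  obtain ⟨d', d'', hdd, w2, w4, e2, e4⟩ := split_pow 1 le_rfl s hsodd r (2 * v) _ hr0 hG2 (by
    rw [mul_assoc, ← hv, hY]; push_cast; ring)
  obtain ⟨rfl, rfl⟩ := one_of_mul_eq_one hcc
  obtain ⟨rfl, rfl⟩ := one_of_mul_eq_one hdd
  apply hnb
  have hq2 : 2 < q := by
    have h1 := hq.two_le
    have h2 := Nat.le_of_dvd (by omega) hsq
    omega
  have h20 : ((2 : ℕ) : ZMod q) ≠ 0 := by
    intro h1
    rw [ZMod.natCast_eq_zero_iff] at h1
    have := Nat.le_of_dvd (by norm_num) h1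
    omega
  exact bad_of 1 m 1 1 2 1 1 q s ((q - 1) / s) hq (Nat.mul_div_cancel' hsq) h20 u v w1 w2 w3 w4
    huv e1 (by push_cast at e2 ⊢; exact e2) e3 e4

lemma pow_of_mul {a b x : ℤ} {k : ℕ} (ha : 0 ≤ a) (hb : 0 ≤ b) (hab : IsCoprime a b)
    (h : a * b = x ^ k) : (∃ r : ℤ, a = r ^ k) ∧ ∃ t : ℤ, b = t ^ k := by
  have h1 : a.natAbs * b.natAbs = x.natAbs ^ k := by
    rw [← Int.natAbs_mul, h, Int.natAbs_pow]
  have hco : Nat.Coprime a.natAbs b.natAbs := Int.isCoprime_iff_gcd_eq_one.mp hab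
  have h2 : IsUnit (gcd a.natAbs b.natAbs) := by
    have : gcd a.natAbs b.natAbs = 1 := hco
    rw [this]
    exact isUnit_one
  have h3 : IsUnit (gcd b.natAbs a.natAbs) := by
    have : gcd b.natAbs a.natAbs = 1 := hco.symm
    rw [this]
    exact isUnit_one
  obtain ⟨r, hr⟩ := exists_eq_pow_of_mul_eq_pow h2 h1
  obtain ⟨t, ht⟩ := exists_eq_pow_of_mul_eq_pow h3 (by rw [mul_comm]; exact h1)
  refine ⟨⟨r, ?_⟩, ⟨t, ?_⟩⟩
  · have : (a.natAbs : ℤ) = (r : ℤ) ^ k := by exact_mod_cast hr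
    rwa [Int.natAbs_of_nonneg ha] at this
  · have : (b.natAbs : ℤ) = (t : ℤ) ^ k := by exact_mod_cast ht
    rwa [Int.natAbs_of_nonneg hb] at this

theorem leg_main (p : ℕ) (hp : p.Prime) (hp2 : p ≠ 2) :
    ∀ᶠ X : ℕ in atTop, ∃ T : Finset ℕ, (X : ℝ) ^ (31 / 50 : ℝ) ≤ (T.card : ℝ) ∧
      ∀ s ∈ T, s.Prime ∧ s ≤ X ∧ ∀ x y z : ℤ, Even x → ¬ (p : ℤ) ∣ x →
        IsCoprime x y → x ^ (2 * s) + y ^ (2 * p) ≠ z ^ 2 := by
  obtain ⟨m, rfl⟩ : ∃ m, p = 2 * m + 1 := hp.odd_of_ne_two hp2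
  have hm : 1 ≤ m := by
    have := hp.two_le
    omega
  filter_upwards [dens _ (sparse_leg m hm hp) 2] with N hN
  obtain ⟨T, hT1, hT2⟩ := hN
  refine ⟨T, hT1, ?_⟩
  intro s hs
  obtain ⟨hsp, hs2, hsX, q, hq, hsq, hnb⟩ := hT2 s hs
  refine ⟨hsp, hsX, ?_⟩
  intro x y z hx hpx hco heq
  have hpp : Prime ((2 * m + 1 : ℕ) : ℤ) := Nat.prime_iff_prime_int.mp hp
  have hx0 : x ≠ 0 := by
    rintro rfl
    exact hpx (dvd_zero _)
  have hyo : Odd y := by
    by_contra hcon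
    rw [Int.not_odd_iff_even] at hcon
    have := hco.isUnit_of_dvd' hx.two_dvd hcon.two_dvd
    rw [Int.isUnit_iff] at this
    omega
  -- choose the sign of z
  obtain ⟨z', hz', hzz⟩ : ∃ z' : ℤ, 0 ≤ z' ∧ z' ^ 2 = x ^ (2 * s) + y ^ (2 * (2 * m + 1)) :=
    ⟨|z|, abs_nonneg z, by rw [sq_abs, heq]⟩
  have hxe : Even (x ^ (2 * s)) := hx.pow_of_ne_zero (by omega)
  have hzo : Odd z' := by
    have h1 : Odd (z' ^ 2) := by
      rw [hzz]
      exact hxe.add_odd hyo.pow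
    by_contra hcon
    rw [Int.not_odd_iff_even] at hcon
    have : Even (z' ^ 2) := hcon.pow_of_ne_zero (by omega)
    exact (Int.not_even_iff_odd.mpr h1) this
  have hyp : Odd (y ^ (2 * m + 1)) := hyo.pow
  obtain ⟨P, hP⟩ := hzo.sub_odd hyp
  obtain ⟨Q, hQ⟩ := hzo.add_odd hyp
  have hzPQ : z' = P + Q := by linarith
  have hyPQ : y ^ (2 * m + 1) = Q - P := by linarith
  have hPQ : 4 * (P * Q) = x ^ (2 * s) := by
    have h1 : (z' - y ^ (2 * m + 1)) * (z' + y ^ (2 * m + 1)) = x ^ (2 * s) := by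
      have h2 : (y ^ (2 * m + 1)) ^ 2 = y ^ (2 * (2 * m + 1)) := by ring
      calc _ = z' ^ 2 - (y ^ (2 * m + 1)) ^ 2 := by ring
        _ = _ := by rw [h2, hzz]; ring
    rw [hP, hQ] at h1
    rw [← h1]
    ring
  have hxpos : 0 < x ^ (2 * s) := by
    rw [pow_mul]
    exact pow_pos (by positivity) _
  have hPQpos : 0 < P * Q := by linarith
  have hP0 : 0 < P := by
    by_contra hcon
    push Not at hcon
    have hQ0 : 0 ≤ Q := by linarith
    nlinarith
  have hQ0 : 0 < Q := by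
    by_contra hcon
    push Not at hcon
    nlinarith
  have hcoPQ : IsCoprime P Q := by
    rw [Int.isCoprime_iff_gcd_eq_one]
    by_contra hcon
    obtain ⟨l, hl, hld⟩ := Nat.exists_prime_and_dvd hcon
    have hlP : (l : ℤ) ∣ P := (Int.natCast_dvd_natCast.mpr hld).trans (Int.gcd_dvd_left P Q)
    have hlQ : (l : ℤ) ∣ Q := (Int.natCast_dvd_natCast.mpr hld).trans (Int.gcd_dvd_right P Q)
    have hlp := Nat.prime_iff_prime_int.mp hl
    have h1 : (l : ℤ) ∣ y := by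
      apply hlp.dvd_of_dvd_pow (n := 2 * m + 1)
      rw [hyPQ]
      exact dvd_sub hlQ hlP
    have h2 : (l : ℤ) ∣ x := by
      apply hlp.dvd_of_dvd_pow (n := 2 * s)
      rw [← hPQ]
      exact (hlP.mul_right Q).mul_left 4
    exact hlp.not_isUnit (hco.isUnit_of_dvd' h2 h1)
  -- the symmetric final step
  have fin : ∀ A B w : ℤ, 0 < A → 0 < B → Even A → Odd w → IsCoprime A B →
      4 * (A * B) = x ^ (2 * s) → B - A = w ^ (2 * m + 1) → False := by
    intro A B w hA hB hAe hw hAB hprod hdiff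
    have hBo : Odd B := by
      by_contra hcon
      rw [Int.not_odd_iff_even] at hcon
      have := hAB.isUnit_of_dvd' hAe.two_dvd hcon.two_dvd
      rw [Int.isUnit_iff] at this
      omega
    have h4 : IsCoprime (4 * A) B := by
      refine IsCoprime.mul_left ?_ hAB
      have h2 : IsCoprime (2 : ℤ) B := by
        obtain ⟨k, hk⟩ := hBo
        exact ⟨-k, 1, by rw [hk]; ring⟩
      have h5 : (4 : ℤ) = 2 * 2 := by norm_num
      rw [h5]
      exact h2.mul_left h2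
    obtain ⟨⟨r, hr⟩, t, ht⟩ := pow_of_mul (by linarith : 0 ≤ 4 * A) hB.le h4 (by
      rw [mul_assoc]; exact hprod)
    have hre : Even r := by
      by_contra hcon
      rw [Int.not_even_iff_odd] at hcon
      have h5 : Odd (r ^ (2 * s)) := hcon.pow
      rw [← hr] at h5
      obtain ⟨k, hk⟩ := h5
      omega
    obtain ⟨Y, hY⟩ := (hre.pow_of_ne_zero (by omega : s ≠ 0)).two_dvd
    have hYA : Y ^ 2 = A := by
      have h5 : (r ^ s) ^ 2 = r ^ (2 * s) := by ring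
      rw [hY, ← hr] at h5
      nlinarith
    have hXB : (t ^ s) ^ 2 = B := by
      rw [ht]
      ring
    have hpr : ¬ ((2 * m + 1 : ℕ) : ℤ) ∣ A * B := by
      intro h5
      apply hpx
      apply hpp.dvd_of_dvd_pow (n := 2 * s)
      rw [← hprod]
      exact h5.mul_left 4
    refine leg_local m hm hp s q hsp hs2 hq hsq hnb (t ^ s) Y w t r ?_ hw ?_ rfl hY.symm hre ?_ ?_
    · rw [← hYA, ← hXB] at hAB
      have h6 : IsCoprime Y (t ^ s) := (IsCoprime.pow_iff (by norm_num) (by norm_num)).mp hAB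
      exact h6.symm
    · rw [hYA, hXB]
      exact hdiff
    · intro h5
      apply hpr
      rw [← hXB]
      exact (dvd_pow h5 (by norm_num)).mul_left A
    · intro h5
      apply hpr
      rw [← hYA]
      exact (dvd_pow h5 (by norm_num)).mul_right B
  rcases Int.even_or_odd P with hPe | hPo
  · exact fin P Q y hP0 hQ0 hPe hyo hcoPQ hPQ hyPQ.symm
  · have hQe : Even Q := by
      by_contra hcon
      rw [Int.not_even_iff_odd] at hcon
      have h5 : Even z' := by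
        rw [hzPQ]
        exact hPo.add_odd hcon
      exact (Int.not_even_iff_odd.mpr hzo) h5
    refine fin Q P (-y) hQ0 hP0 hQe hyo.neg hcoPQ.symm (by rw [mul_comm Q P]; exact hPQ) ?_
    rw [Odd.neg_pow ⟨m, rfl⟩, hyPQ]
    ring

end Pool.Agent.H573.AHB
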