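import Pool.Agent.H573.AHB.Sz

/-!
Signed sums of few `k`-th powers modulo a prime `q` with `q - 1 ∣ ℓ k`, `ℓ` a prime: they vanish only
trivially, unless `q` is one of few bad primes.
-/

set_option autoImplicit false

namespace Pool.Agent.H573.AHB.LP

open Polynomial Finset

variable {T : ℕ}

/-- a signed sum of `T` powers of `X` -/
noncomputable def PP {ℓ : ℕ} (σ : Fin T → SignType) (e : Fin T → Fin ℓ) : ℤ[X] :=
  ∑ i, monomial (e i : ℕ) ((σ i : SignType) : ℤ)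

/-- the primes modulo which a nontrivial signed sum of `T` powers of a primitive `ℓ`-th root of unity
vanishes -/
def Bad (T q ℓ : ℕ) : Prop :=
  ∃ g : ZMod q, aeval g (cyclotomic ℓ ℤ) = 0 ∧ ∃ (σ : Fin T → SignType) (e : Fin T → Fin ℓ),
    PP σ e ≠ 0 ∧ aeval g (PP σ e) = 0

lemma coeff_PP {ℓ : ℕ} (σ : Fin T → SignType) (e : Fin T → Fin ℓ) (j : ℕ) :
    (PP σ e).coeff j = ∑ i, if (e i : ℕ) = j then ((σ i : SignType) : ℤ) else 0 := by
  unfold PP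
  rw [finsetSum_coeff]
  exact sum_congr rfl fun i _ => coeff_monomial

lemma natDegree_PP {ℓ : ℕ} (hℓ : 1 ≤ ℓ) (σ : Fin T → SignType) (e : Fin T → Fin ℓ) :
    (PP σ e).natDegree ≤ ℓ - 1 := by
  unfold PP
  refine natDegree_sum_le_of_forall_le _ _ fun i _ => ?_
  refine (natDegree_monomial_le _).trans ?_
  have := (e i).isLt
  omega

/-- A short signed sum of powers is not divisible by the cyclotomic polynomial. -/
lemma not_dvd {ℓ : ℕ} (hℓ : ℓ.Prime) (hT : T < ℓ) (σ : Fin T → SignType) (e : Fin T → Fin ℓ)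
    (hP : PP σ e ≠ 0) : ¬ cyclotomic ℓ ℤ ∣ PP σ e := by
  have : Fact ℓ.Prime := ⟨hℓ⟩
  rintro ⟨h, hh⟩
  have hh0 : h ≠ 0 := by
    rintro rfl
    rw [mul_zero] at hh
    exact hP hh
  have hc0 : cyclotomic ℓ ℤ ≠ 0 := cyclotomic_ne_zero ℓ ℤ
  have hd := natDegree_PP hℓ.one_lt.le σ e
  rw [hh, natDegree_mul hc0 hh0, natDegree_cyclotomic, Nat.totient_prime hℓ] at hd
  have hd0 : h.natDegree = 0 := by omega
  obtain ⟨c, rfl⟩ : ∃ c, h = C c := ⟨h.coeff 0, eq_C_of_natDegree_eq_zero hd0⟩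
  -- an exponent which does not occur
  obtain ⟨j, hj⟩ : ∃ j : Fin ℓ, ∀ i, e i ≠ j := by
    by_contra hcon
    push Not at hcon
    have h1 : Function.Surjective e := hcon
    have h2 := Fintype.card_le_of_surjective e h1
    rw [Fintype.card_fin, Fintype.card_fin] at h2
    omega
  have h3 := coeff_PP σ e (j : ℕ)
  rw [hh, coeff_mul_C, cyclotomic_prime, finsetSum_coeff] at h3
  have h4 : ∑ b ∈ range ℓ, ((X : ℤ[X]) ^ b).coeff (j : ℕ) = 1 := by
    rw [Finset.sum_eq_single (j : ℕ)]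
    · rw [coeff_X_pow, if_pos rfl]
    · intro b _ hb
      rw [coeff_X_pow, if_neg (Ne.symm hb)]
    · intro h
      exact absurd (mem_range.mpr j.isLt) h
  have h5 : ∑ i, (if (e i : ℕ) = (j : ℕ) then ((σ i : SignType) : ℤ) else 0) = 0 := by
    refine sum_eq_zero fun i _ => if_neg fun h => hj i (Fin.ext h)
  rw [h4, h5, one_mul] at h3
  rw [h3, C_0] at hh0
  exact hh0 rfl

lemma L1_PP {ℓ : ℕ} (σ : Fin T → SignType) (e : Fin T → Fin ℓ) : L1 (PP σ e) ≤ T := by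
  unfold PP
  refine (L1_sum _ _).trans ?_
  calc ∑ i, L1 (monomial (e i : ℕ) ((σ i : SignType) : ℤ)) ≤ ∑ _i : Fin T, (1 : ℝ) := by
        refine sum_le_sum fun i _ => ?_
        rw [L1_monomial]
        rcases σ i with _ | _ | _ <;> simp [SignType.cast]
    _ = T := by simp

lemma L1_cyc {ℓ : ℕ} (hℓ : ℓ.Prime) : L1 (cyclotomic ℓ ℤ) ≤ ℓ := by
  have : Fact ℓ.Prime := ⟨hℓ⟩
  rw [cyclotomic_prime]
  refine (L1_sum _ _).trans ?_
  calc ∑ i ∈ range ℓ, L1 ((X : ℤ[X]) ^ i) ≤ ∑ _i ∈ range ℓ, (1 : ℝ) := by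
        refine sum_le_sum fun i _ => ?_
        rw [← monomial_one_right_eq_X_pow, L1_monomial]
        simp
    _ = ℓ := by simp

/-- the bad primes of one polynomial -/
lemma card_one {ℓ : ℕ} (hℓ : ℓ.Prime) (hT : T < ℓ) (σ : Fin T → SignType) (e : Fin T → Fin ℓ)
    (hP : PP σ e ≠ 0) (Q : Finset ℕ) (hQ : ∀ q ∈ Q, q.Prime)
    (h : ∀ q ∈ Q, ∃ g : ZMod q, aeval g (cyclotomic ℓ ℤ) = 0 ∧ aeval g (PP σ e) = 0) :
    Q.card ≤ 2 * ℓ ^ 2 := by
  have hirr : Irreducible (cyclotomic ℓ ℤ) := cyclotomic.irreducible hℓ.pos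
  have hdeg : (cyclotomic ℓ ℤ).natDegree = ℓ - 1 := by
    rw [natDegree_cyclotomic, Nat.totient_prime hℓ]
  have hd0 : (cyclotomic ℓ ℤ).natDegree ≠ 0 := by
    rw [hdeg]
    have := hℓ.two_le
    omega
  obtain ⟨r, hr0, hr1, hr2⟩ := res_bound hirr hd0 (not_dvd hℓ hT σ e hP)
    (N := ℓ - 1) (natDegree_PP hℓ.one_lt.le σ e) (B := ℓ)
    ((L1_PP σ e).trans (by exact_mod_cast hT.le))
  have hcard := card_primes_dvd Q hQ hr0 (fun q hq => by
    obtain ⟨g, g1, g2⟩ := h q hq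
    exact hr2 q g g1 g2)
  have hM : Mm (cyclotomic ℓ ℤ) ≤ ℓ := (Mm_le_L1 _).trans (L1_cyc hℓ)
  have hM0 : 0 ≤ Mm (cyclotomic ℓ ℤ) := zero_le_one.trans (one_le_Mm hirr.ne_zero)
  have hℓ1 : (1 : ℝ) ≤ ℓ := by exact_mod_cast hℓ.one_lt.le
  have h1 : |(r : ℝ)| ≤ (ℓ : ℝ) ^ (2 * ℓ) := by
    refine hr1.trans ?_
    rw [hdeg]
    calc (ℓ : ℝ) ^ (ℓ - 1) * Mm (cyclotomic ℓ ℤ) ^ (ℓ - 1) ≤
        (ℓ : ℝ) ^ (ℓ - 1) * (ℓ : ℝ) ^ (ℓ - 1) :=
          mul_le_mul_of_nonneg_left (pow_le_pow_left₀ hM0 hM _) (by positivity)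
      _ = (ℓ : ℝ) ^ ((ℓ - 1) + (ℓ - 1)) := (pow_add _ _ _).symm
      _ ≤ (ℓ : ℝ) ^ (2 * ℓ) := pow_le_pow_right₀ hℓ1 (by omega)
  have h2 : |(r : ℝ)| ≤ (2 : ℝ) ^ (2 * ℓ ^ 2) := by
    refine h1.trans ?_
    have h3 : (ℓ : ℝ) ≤ 2 ^ ℓ := by exact_mod_cast (Nat.lt_two_pow_self (n := ℓ)).le
    calc (ℓ : ℝ) ^ (2 * ℓ) ≤ ((2 : ℝ) ^ ℓ) ^ (2 * ℓ) := pow_le_pow_left₀ (by positivity) h3 _
      _ = (2 : ℝ) ^ (2 * ℓ ^ 2) := by rw [← pow_mul]; congr 1; ring
  have h3 : 0 < |(r : ℝ)| := abs_pos.mpr (by exact_mod_cast hr0)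
  have h4 := hcard.trans (Real.log_le_log h3 h2)
  rw [Real.log_pow] at h4
  have h5 := le_of_mul_le_mul_right h4 (Real.log_pos (by norm_num))
  exact_mod_cast h5

/-- **Few bad primes.** -/
theorem card_bad {ℓ : ℕ} (hℓ : ℓ.Prime) (hT : T < ℓ) (Q : Finset ℕ)
    (hQ : ∀ q ∈ Q, q.Prime ∧ Bad T q ℓ) : Q.card ≤ 2 * 3 ^ T * ℓ ^ (T + 2) := by
  classical
  have hcov : Q ⊆ (univ : Finset ((Fin T → SignType) × (Fin T → Fin ℓ))).biUnion fun c =>
      Q.filter fun q => PP c.1 c.2 ≠ 0 ∧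
        ∃ g : ZMod q, aeval g (cyclotomic ℓ ℤ) = 0 ∧ aeval g (PP c.1 c.2) = 0 := by
    intro q hq
    obtain ⟨-, g, h1, σ, e, h2, h3⟩ := hQ q hq
    rw [mem_biUnion]
    exact ⟨(σ, e), mem_univ _, mem_filter.mpr ⟨hq, h2, g, h1, h3⟩⟩
  refine (card_le_card hcov).trans (card_biUnion_le.trans ?_)
  calc ∑ c : (Fin T → SignType) × (Fin T → Fin ℓ), (Q.filter fun q => PP c.1 c.2 ≠ 0 ∧
        ∃ g : ZMod q, aeval g (cyclotomic ℓ ℤ) = 0 ∧ aeval g (PP c.1 c.2) = 0).card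
      ≤ ∑ _c : (Fin T → SignType) × (Fin T → Fin ℓ), 2 * ℓ ^ 2 := by
        refine sum_le_sum fun c _ => ?_
        by_cases hP : PP c.1 c.2 = 0
        · rw [filter_eq_empty_iff.mpr (fun q _ h => h.1 hP), card_empty]
          exact Nat.zero_le _
        · refine card_one hℓ hT c.1 c.2 hP _ (fun q hq => (hQ q (mem_filter.mp hq).1).1) ?_
          intro q hq
          exact (mem_filter.mp hq).2.2
    _ = 2 * 3 ^ T * ℓ ^ (T + 2) := by
        have h3 : Fintype.card SignType = 3 := rfl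
        rw [sum_const, card_univ, Fintype.card_prod, Fintype.card_fun, Fintype.card_fun, h3,
          Fintype.card_fin, Fintype.card_fin, smul_eq_mul]
        ring

/-- **The local theorem.** -/
theorem loc {q ℓ k : ℕ} (hq : q.Prime) (hℓ : ℓ.Prime) (hℓq : ℓ ∣ q - 1) (hk : q - 1 ∣ ℓ * k)
    (hB : ¬ Bad T q ℓ) (σ : Fin T → SignType) (x : Fin T → ZMod q)
    (h : ∑ i, (((σ i : SignType) : ℤ) : ZMod q) * x i ^ k = 0) (hk0 : k ≠ 0) (z : ZMod q)
    (hz : z ≠ 0) : ∑ i, (if x i ^ k = z then ((σ i : SignType) : ℤ) else 0) = 0 := by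
  classical
  have : Fact q.Prime := ⟨hq⟩
  have : Fact ℓ.Prime := ⟨hℓ⟩
  have : NeZero ℓ := ⟨hℓ.ne_zero⟩
  -- a primitive `ℓ`-th root of unity
  obtain ⟨g, hg⟩ : ∃ g : ZMod q, IsPrimitiveRoot g ℓ := by
    obtain ⟨u, hu⟩ := IsCyclic.exists_generator (α := (ZMod q)ˣ)
    have h1 : orderOf u = q - 1 := by
      rw [orderOf_eq_card_of_forall_mem_zpowers hu, Nat.card_eq_fintype_card, ZMod.card_units]
    have h2 : IsPrimitiveRoot u (q - 1) := by
      rw [← h1]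
      exact IsPrimitiveRoot.orderOf u
    obtain ⟨w, hw⟩ := hℓq
    have hq1 : 0 < q - 1 := by
      have := hq.two_le
      omega
    have h3 : IsPrimitiveRoot (u ^ w) ℓ := h2.pow hq1 (by rw [hw]; ring)
    exact ⟨((u ^ w : (ZMod q)ˣ) : ZMod q), IsPrimitiveRoot.coe_units_iff.mpr h3⟩
  have hqℓ : ((ℓ : ℕ) : ZMod q) ≠ 0 := by
    intro h0
    rw [ZMod.natCast_eq_zero_iff] at h0
    have h1 := (Nat.prime_dvd_prime_iff_eq hq hℓ).mp h0
    have h2 := Nat.le_of_dvd (by have := hq.two_le; omega) hℓq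
    have := hq.two_le
    omega
  have : NeZero ((ℓ : ℕ) : ZMod q) := ⟨hqℓ⟩
  have hroot : aeval g (cyclotomic ℓ ℤ) = 0 := by
    have h1 := hg.isRoot_cyclotomic hℓ.pos
    rw [IsRoot.def, ← map_cyclotomic_int ℓ (ZMod q)] at h1
    rw [aeval_def, ← eval_map]
    simpa using h1
  -- the nonzero `k`-th powers are powers of `g`
  have hpow : ∀ i, x i ≠ 0 → ∃ e : Fin ℓ, g ^ (e : ℕ) = x i ^ k := by
    intro i hi
    have h1 : (x i ^ k) ^ ℓ = 1 := by
      obtain ⟨w, hw⟩ := hk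
      rw [← pow_mul, mul_comm k ℓ, hw, pow_mul, ZMod.pow_card_sub_one_eq_one hi, one_pow]
    obtain ⟨j, hj, hj2⟩ := hg.eq_pow_of_pow_eq_one h1
    exact ⟨⟨j, hj⟩, hj2⟩
  choose! e he using hpow
  obtain ⟨τ, hτ⟩ : ∃ τ : Fin T → SignType, τ = fun i => if x i = 0 then 0 else σ i := ⟨_, rfl⟩
  have hval : aeval g (PP τ e) = 0 := by
    unfold PP
    rw [map_sum, ← h]
    refine sum_congr rfl fun i _ => ?_
    rw [aeval_monomial, hτ]
    by_cases hi : x i = 0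
    · simp only [hi, if_true]
      rw [zero_pow hk0]
      simp
    · simp only [hi, if_false]
      rw [he i hi]
      simp
  have hP : PP τ e = 0 := by
    by_contra hP
    exact hB ⟨g, hroot, τ, e, hP, hval⟩
  by_cases hex : ∃ j, x j ^ k = z
  · obtain ⟨j, hj⟩ := hex
    have hj0 : x j ≠ 0 := by
      intro h0
      rw [h0, zero_pow hk0] at hj
      exact hz hj.symm
    have h1 := coeff_PP τ e (e j : ℕ)
    rw [hP, coeff_zero] at h1
    refine Eq.trans (sum_congr rfl fun i _ => ?_) h1.symm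
    by_cases hi : x i = 0
    · have h2 : x i ^ k ≠ z := by
        rw [hi, zero_pow hk0]
        exact hz.symm
      rw [if_neg h2, hτ]
      simp [hi]
    · have h2 : x i ^ k = z ↔ (e i : ℕ) = (e j : ℕ) := by
        rw [← hj, ← he i hi, ← he j hj0]
        constructor
        · intro h3
          exact hg.pow_inj (e i).isLt (e j).isLt h3
        · intro h3
          rw [h3]
      rw [hτ]
      simp only [hi, if_false]
      by_cases h3 : x i ^ k = z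
      · rw [if_pos h3, if_pos (h2.mp h3)]
      · rw [if_neg h3, if_neg (fun h4 => h3 (h2.mpr h4))]
  · push Not at hex
    exact sum_eq_zero fun i _ => if_neg (hex i)

end Pool.Agent.H573.AHB.LP
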