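import Pool.Agent.H573.AHB.LpA
import Pool.Agent.H573.AHB.GoldB

/-!
Many primes `q` with `q - 1 = ℓ k`, `ℓ` a prime of size a small power of `q`.
-/

set_option autoImplicit false

namespace Pool.Agent.H573.AHB.LP

open Finset Filter
open ArithmeticFunction (vonMangoldt)
open Pool.Agent.Y889.PN (PS)
open Pool.Agent.H573.AHB.Gold (PX mem_PX Th bv Th_nonneg Th_le_card)
open Pool.Agent.H262R4.FR.TBT (evA evB evC)

/-- the primes in `(L, C L]` -/
def Blk (C L : ℕ) : Finset ℕ := (Ioc L (C * L)).filter Nat.Prime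

lemma mem_Blk {C L ℓ : ℕ} : ℓ ∈ Blk C L ↔ (L < ℓ ∧ ℓ ≤ C * L) ∧ ℓ.Prime := by
  unfold Blk
  rw [mem_filter, mem_Ioc]

/-- Mertens' theorem in a block -/
lemma block : ∃ C : ℕ, 2 ≤ C ∧ ∀ L : ℕ, 1 ≤ L → 1 ≤ ∑ ℓ ∈ Blk C L, Real.log ℓ / ℓ := by
  obtain ⟨B, hB⟩ := Pool.Agent.Erdos456.Mert.mertens_log
  obtain ⟨C, hC⟩ := exists_nat_ge (Real.exp (2 * B + 1))
  refine ⟨max C 2, le_max_right _ _, ?_⟩
  intro L hL
  have hC2 : Real.exp (2 * B + 1) ≤ ((max C 2 : ℕ) : ℝ) :=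
    hC.trans (by exact_mod_cast le_max_left C 2)
  obtain ⟨D, hD⟩ : ∃ D, D = max C 2 := ⟨_, rfl⟩
  rw [← hD] at hC2 ⊢
  have hD2 : 2 ≤ D := by rw [hD]; exact le_max_right _ _
  have hDL : L ≤ D * L := Nat.le_mul_of_pos_left L (by omega)
  have h1 := (abs_le.1 (hB L hL)).2
  have h2 := (abs_le.1 (hB (D * L) (hL.trans hDL))).1
  have h3 : ∑ p ∈ (Icc 1 (D * L)).filter Nat.Prime, Real.log p / p =
      ∑ p ∈ (Icc 1 L).filter Nat.Prime, Real.log p / p + ∑ p ∈ Blk D L, Real.log p / p := by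
    unfold Blk
    rw [← sum_union]
    · congr 1
      ext p
      simp only [mem_filter, mem_union, mem_Icc, mem_Ioc]
      constructor
      · rintro ⟨⟨h4, h5⟩, h6⟩
        by_cases h7 : p ≤ L
        · exact Or.inl ⟨⟨h4, h7⟩, h6⟩
        · exact Or.inr ⟨⟨by omega, h5⟩, h6⟩
      · rintro (⟨⟨h4, h5⟩, h6⟩ | ⟨⟨h4, h5⟩, h6⟩)
        · exact ⟨⟨h4, h5.trans hDL⟩, h6⟩
        · exact ⟨⟨by omega, h5⟩, h6⟩
    · rw [disjoint_left]
      intro p h4 h5
      rw [mem_filter, mem_Icc] at h4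
      rw [mem_filter, mem_Ioc] at h5
      omega
  have hL0 : (0 : ℝ) < L := by exact_mod_cast hL
  have hD0 : (0 : ℝ) < D := by
    have : 0 < D := by omega
    exact_mod_cast this
  have h4 : Real.log ((D * L : ℕ) : ℝ) = Real.log D + Real.log L := by
    push_cast
    exact Real.log_mul hD0.ne' hL0.ne'
  have h5 : 2 * B + 1 ≤ Real.log D := by
    rw [← Real.log_exp (2 * B + 1)]
    exact Real.log_le_log (Real.exp_pos _) hC2
  rw [h3, h4] at h2
  linarith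

/-- prime powers -/
lemma PS_le (x ℓ : ℕ) (hx : 1 ≤ x) :
    PS x ℓ 1 ≤ Th x ℓ + 2 * Real.sqrt x * Real.log x := by
  have hx1 : (1 : ℝ) ≤ x := by exact_mod_cast hx
  have h1 := Chebyshev.abs_psi_sub_theta_le_sqrt_mul_log hx1
  have h2 := (le_abs_self _).trans h1
  unfold Chebyshev.psi Chebyshev.theta at h2
  rw [Nat.floor_natCast] at h2
  have h3 : ∑ p ∈ (Ioc 0 x).filter Nat.Prime, Real.log p =
      ∑ p ∈ (Ioc 0 x).filter Nat.Prime, vonMangoldt p := by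
    refine sum_congr rfl fun p hp => ?_
    rw [ArithmeticFunction.vonMangoldt_apply_prime (mem_filter.mp hp).2]
  rw [h3] at h2
  have h4 := sum_filter_add_sum_filter_not (Ioc 0 x) Nat.Prime (fun n => vonMangoldt n)
  have h5 : ∑ n ∈ (Ioc 0 x).filter (fun n => ¬ n.Prime), vonMangoldt n ≤
      2 * Real.sqrt x * Real.log x := by
    linarith
  refine le_trans ?_ (add_le_add_right h5 _)
  unfold Pool.Agent.Y889.PN.PS Pool.Agent.H573.AHB.Gold.Th
  have h6 := sum_filter_add_sum_filter_not ((Icc 1 x).filter (fun n => n ≡ 1 [MOD ℓ])) Nat.Prime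
    (fun n => vonMangoldt n)
  rw [← h6]
  apply add_le_add
  · have h7 : ∑ q ∈ (PX x).filter (fun q => ℓ ∣ q - 1), Real.log q =
        ∑ q ∈ (PX x).filter (fun q => ℓ ∣ q - 1), vonMangoldt q := by
      refine sum_congr rfl fun q hq => ?_
      rw [mem_filter, mem_PX] at hq
      rw [ArithmeticFunction.vonMangoldt_apply_prime hq.1.2]
    rw [h7]
    apply sum_le_sum_of_subset_of_nonneg
    · intro q hq
      rw [mem_filter, mem_filter, mem_Icc] at hq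
      rw [mem_filter, mem_PX]
      exact ⟨⟨hq.1.1.2, hq.2⟩, (Nat.modEq_iff_dvd' hq.1.1.1).mp hq.1.2.symm⟩
    · intro q _ _
      exact ArithmeticFunction.vonMangoldt_nonneg
  · apply sum_le_sum_of_subset_of_nonneg
    · intro n hn
      rw [mem_filter, mem_filter, mem_Icc] at hn
      rw [mem_filter, mem_Ioc]
      exact ⟨⟨by omega, hn.1.1.2⟩, hn.2⟩
    · intro n _ _
      exact ArithmeticFunction.vonMangoldt_nonneg

/-- many pairs -/
lemma many {a : ℝ} (ha0 : 0 < a) (ha : a ≤ 1 / 8) (C : ℕ) (hC : 2 ≤ C)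
    (hblk : ∀ L : ℕ, 1 ≤ L → 1 ≤ ∑ ℓ ∈ Blk C L, Real.log ℓ / ℓ) :
    ∀ᶠ x : ℕ in atTop, (x : ℝ) / Real.log x ≤ ∑ ℓ ∈ Blk C ⌊(x : ℝ) ^ a⌋₊, Th x ℓ := by
  have e1 := bv (1 / 3) (by norm_num) (by norm_num)
  have e2 := evA C a (1 / 3) (by linarith)
  have e3 : ∀ᶠ x : ℕ in atTop, Real.log (x : ℝ) ≤ 1 * (x : ℝ) ^ ((1 : ℝ) / 100) := by
    have h1 := (isLittleO_log_rpow_atTop (r := 1 / 100) (by norm_num)).bound one_pos
    have h2 := tendsto_natCast_atTop_atTop (R := ℝ) |>.eventually h1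
    filter_upwards [h2, eventually_ge_atTop 1] with x h3 h4
    rw [Real.norm_of_nonneg (Real.log_natCast_nonneg x),
      Real.norm_of_nonneg (by positivity)] at h3
    exact h3
  have e4 := evB 2 (1 / 3 + 1 / 2 + 1 / 100) (by norm_num) (by norm_num)
  filter_upwards [e1, e2, e3, e4, evC 1, eventually_ge_atTop 3] with x h1 h2 h3 h4 h5 h6
  obtain ⟨M, hM0, hM1, hM2⟩ := h1
  have hx0 : (0 : ℝ) < x := by
    have : 0 < x := by omega
    exact_mod_cast this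
  have hx1 : (1 : ℝ) ≤ x := by
    have : 1 ≤ x := by omega
    exact_mod_cast this
  obtain ⟨L, hL⟩ : ∃ L, L = ⌊(x : ℝ) ^ a⌋₊ := ⟨_, rfl⟩
  rw [← hL]
  have hLx : (L : ℝ) ≤ (x : ℝ) ^ a := by
    rw [hL]
    exact Nat.floor_le (by positivity)
  have hL1 : 1 ≤ L := by
    rw [hL]
    apply Nat.le_floor
    rw [Nat.cast_one]
    exact Real.one_le_rpow hx1 ha0.le
  have hCL : ((C * L : ℕ) : ℝ) ≤ (x : ℝ) ^ ((1 : ℝ) / 3) := by
    push_cast
    exact (mul_le_mul_of_nonneg_left hLx (by positivity)).trans h2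
  have hlog0 : 0 < Real.log x := by linarith
  -- the sum of `1/ℓ`
  have hinv : 3 / Real.log x ≤ ∑ ℓ ∈ Blk C L, (1 : ℝ) / ℓ := by
    have g1 := hblk L hL1
    have g2 : ∑ ℓ ∈ Blk C L, Real.log ℓ / ℓ ≤
        ∑ ℓ ∈ Blk C L, (Real.log x / 3) * ((1 : ℝ) / ℓ) := by
      refine sum_le_sum fun ℓ hℓ => ?_
      rw [mem_Blk] at hℓ
      have hℓ0 : (0 : ℝ) < ℓ := by exact_mod_cast hℓ.2.pos
      have g3 : (ℓ : ℝ) ≤ (x : ℝ) ^ ((1 : ℝ) / 3) := le_trans (by exact_mod_cast hℓ.1.2) hCL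
      have g4 := Real.log_le_log hℓ0 g3
      rw [Real.log_rpow hx0] at g4
      rw [div_eq_mul_one_div]
      exact mul_le_mul_of_nonneg_right (by linarith) (by positivity)
    rw [← mul_sum] at g2
    rw [div_le_iff₀ hlog0]
    nlinarith
  -- the von Mangoldt sums
  have hPS : 2 * ((x : ℝ) / Real.log x) ≤ ∑ ℓ ∈ Blk C L, PS x ℓ 1 := by
    have g1 : ∀ ℓ ∈ Blk C L, (x : ℝ) * ((1 : ℝ) / ℓ) - M ℓ ≤ PS x ℓ 1 := by
      intro ℓ hℓ
      rw [mem_Blk] at hℓ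
      have g2 := (abs_le.1 (hM1 ℓ hℓ.2.one_lt.le)).1
      have g3 : (x : ℝ) * ((1 : ℝ) / ℓ) ≤ (x : ℝ) / (Nat.totient ℓ : ℝ) := by
        rw [mul_one_div]
        apply div_le_div_of_nonneg_left hx0.le
        · exact_mod_cast Nat.totient_pos.mpr hℓ.2.pos
        · exact_mod_cast Nat.totient_le ℓ
      linarith
    have g4 := sum_le_sum g1
    rw [sum_sub_distrib, ← mul_sum] at g4
    have g5 : ∑ ℓ ∈ Blk C L, M ℓ ≤ x / Real.log x := by
      refine le_trans (sum_le_sum_of_subset_of_nonneg ?_ fun d _ _ => hM0 d) hM2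
      intro ℓ hℓ
      rw [mem_Blk] at hℓ
      rw [mem_Icc]
      refine ⟨hℓ.2.one_lt.le, Nat.le_floor (le_trans ?_ hCL)⟩
      exact_mod_cast hℓ.1.2
    have g6 := mul_le_mul_of_nonneg_left hinv hx0.le
    have g7 : (x : ℝ) * (3 / Real.log x) = 3 * ((x : ℝ) / Real.log x) := by ring
    linarith
  -- the prime powers
  have hpp : ∑ ℓ ∈ Blk C L, PS x ℓ 1 ≤ ∑ ℓ ∈ Blk C L, Th x ℓ + x / Real.log x := by
    have g1 := sum_le_sum fun ℓ (_ : ℓ ∈ Blk C L) => PS_le x ℓ (by omega)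
    rw [sum_add_distrib, sum_const, nsmul_eq_mul] at g1
    have g2 : ((Blk C L).card : ℝ) ≤ (x : ℝ) ^ ((1 : ℝ) / 3) := by
      refine le_trans ?_ hCL
      have g3 : (Blk C L).card ≤ C * L := by
        unfold Blk
        refine (card_filter_le _ _).trans ?_
        rw [Nat.card_Ioc]
        omega
      exact_mod_cast g3
    have g3 : ((Blk C L).card : ℝ) * (2 * Real.sqrt x * Real.log x) ≤ x / Real.log x := by
      refine le_trans ?_ h4
      rw [Real.sqrt_eq_rpow, Real.rpow_add hx0, Real.rpow_add hx0]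
      have k1 : 0 < (x : ℝ) ^ ((1 : ℝ) / 2) := by positivity
      calc ((Blk C L).card : ℝ) * (2 * (x : ℝ) ^ ((1 : ℝ) / 2) * Real.log x) ≤
          (x : ℝ) ^ ((1 : ℝ) / 3) * (2 * (x : ℝ) ^ ((1 : ℝ) / 2) * (x : ℝ) ^ ((1 : ℝ) / 100)) := by
            apply mul_le_mul g2 _ (by positivity) (by positivity)
            apply mul_le_mul_of_nonneg_left _ (by positivity)
            rw [one_mul] at h3
            exact h3
        _ = 2 * ((x : ℝ) ^ ((1 : ℝ) / 3) * (x : ℝ) ^ ((1 : ℝ) / 2) * (x : ℝ) ^ ((1 : ℝ) / 100)) := by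
            ring
    linarith
  linarith

end Pool.Agent.H573.AHB.LP
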