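import Pool.Agent.H573.AHB.LpB

/-!
Many exponents `k` with many good primes `q = ℓ k + 1`.
-/

set_option autoImplicit false

namespace Pool.Agent.H573.AHB.LP

open Finset Filter
open Pool.Agent.H573.AHB.Gold (PX mem_PX Th bv Th_nonneg Th_le_card)
open Pool.Agent.H262R4.FR.TBT (evA evB evC)

/-- `k` has at least `z` good primes -/
def GS (T k : ℕ) (z : ℝ) : Prop :=
  ∃ G : Finset ℕ, z ≤ G.card ∧ ∀ q ∈ G, q.Prime ∧ ∃ ℓ : ℕ, ℓ.Prime ∧ T < ℓ ∧ q - 1 = ℓ * k ∧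
    ¬ Bad T q ℓ

open Classical in
/-- the good pairs -/
noncomputable def Prs (T C L x : ℕ) : Finset (ℕ × ℕ) :=
  (Blk C L ×ˢ PX x).filter fun c => c.1 ∣ c.2 - 1 ∧ ¬ Bad T c.2 c.1

lemma mem_Prs {T C L x : ℕ} {c : ℕ × ℕ} : c ∈ Prs T C L x ↔
    (c.1 ∈ Blk C L ∧ c.2 ∈ PX x) ∧ c.1 ∣ c.2 - 1 ∧ ¬ Bad T c.2 c.1 := by
  classical
  unfold Prs
  simp only [mem_filter, mem_product]

lemma ev_log : ∀ᶠ x : ℕ in atTop, Real.log (x : ℝ) ≤ (x : ℝ) ^ ((1 : ℝ) / 100) := by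
  have h1 := (isLittleO_log_rpow_atTop (r := 1 / 100) (by norm_num)).bound one_pos
  have h2 := tendsto_natCast_atTop_atTop (R := ℝ) |>.eventually h1
  filter_upwards [h2, eventually_ge_atTop 1] with x h3 h4
  rw [Real.norm_of_nonneg (Real.log_natCast_nonneg x),
    Real.norm_of_nonneg (by positivity), one_mul] at h3
  exact h3

lemma card_Blk (C L : ℕ) : (Blk C L).card ≤ C * L := by
  unfold Blk
  refine (card_filter_le _ _).trans ?_
  rw [Nat.card_Ioc]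
  omega

/-- many good pairs -/
lemma many_good (T : ℕ) {a : ℝ} (ha0 : 0 < a) (ha : a ≤ 1 / 8) (haT : a * (T + 3) ≤ 1 / 2)
    (C : ℕ) (hC : 2 ≤ C)
    (hblk : ∀ L : ℕ, 1 ≤ L → 1 ≤ ∑ ℓ ∈ Blk C L, Real.log ℓ / ℓ) :
    ∀ᶠ x : ℕ in atTop, (x : ℝ) / (2 * Real.log x ^ 2) ≤
      ((Prs T C ⌊(x : ℝ) ^ a⌋₊ x).card : ℝ) := by
  classical
  have e1 := many ha0 ha C hC hblk
  have e2 := evA (2 * (2 * 3 ^ T * (C : ℝ) ^ (T + 3))) (1 / 2) (98 / 100) (by norm_num)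
  have e3 := evA T 0 a ha0
  filter_upwards [e1, e2, e3, ev_log, evC 1, eventually_ge_atTop 3] with x h1 h2 h3 h4 h5 h6
  have hx0 : (0 : ℝ) < x := by
    have : 0 < x := by omega
    exact_mod_cast this
  have hx1 : (1 : ℝ) ≤ x := by
    have : 1 ≤ x := by omega
    exact_mod_cast this
  have hlog0 : 0 < Real.log x := by linarith
  obtain ⟨L, hL⟩ : ∃ L, L = ⌊(x : ℝ) ^ a⌋₊ := ⟨_, rfl⟩
  rw [← hL] at h1 ⊢
  have hLx : (L : ℝ) ≤ (x : ℝ) ^ a := by
    rw [hL]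
    exact Nat.floor_le (by positivity)
  have hTL : T ≤ L := by
    rw [hL]
    apply Nat.le_floor
    rw [Real.rpow_zero, mul_one] at h3
    exact h3
  -- all pairs
  have hall : (x : ℝ) / Real.log x ^ 2 ≤
      ∑ ℓ ∈ Blk C L, (((PX x).filter (fun q => ℓ ∣ q - 1)).card : ℝ) := by
    have g1 := h1.trans (sum_le_sum fun ℓ _ => Th_le_card x ℓ)
    rw [← mul_sum, div_le_iff₀ hlog0] at g1
    rw [div_le_iff₀ (by positivity)]
    calc (x : ℝ) ≤ _ := g1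
      _ = _ := by ring
  -- the bad pairs
  have hbad : ∑ ℓ ∈ Blk C L, (((PX x).filter (fun q => Bad T q ℓ)).card : ℝ) ≤
      x / (2 * Real.log x ^ 2) := by
    have g1 : ∀ ℓ ∈ Blk C L, (((PX x).filter (fun q => Bad T q ℓ)).card : ℝ) ≤
        2 * 3 ^ T * ((C * L : ℕ) : ℝ) ^ (T + 2) := by
      intro ℓ hℓ
      rw [mem_Blk] at hℓ
      have g2 := card_bad hℓ.2 (T := T) (by omega) ((PX x).filter (fun q => Bad T q ℓ))
        (fun q hq => by
          rw [mem_filter, mem_PX] at hq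
          exact ⟨hq.1.2, hq.2⟩)
      have g3 : 2 * 3 ^ T * ℓ ^ (T + 2) ≤ 2 * 3 ^ T * (C * L) ^ (T + 2) :=
        Nat.mul_le_mul_left _ (Nat.pow_le_pow_left hℓ.1.2 _)
      exact_mod_cast g2.trans g3
    refine (sum_le_sum g1).trans ?_
    rw [sum_const, nsmul_eq_mul]
    have g2 : ((Blk C L).card : ℝ) ≤ ((C * L : ℕ) : ℝ) := by exact_mod_cast card_Blk C L
    have g3 : ((C * L : ℕ) : ℝ) ≤ C * (x : ℝ) ^ a := by
      push_cast
      exact mul_le_mul_of_nonneg_left hLx (by positivity)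
    calc ((Blk C L).card : ℝ) * (2 * 3 ^ T * ((C * L : ℕ) : ℝ) ^ (T + 2)) ≤
        ((C * L : ℕ) : ℝ) * (2 * 3 ^ T * ((C * L : ℕ) : ℝ) ^ (T + 2)) :=
          mul_le_mul_of_nonneg_right g2 (by positivity)
      _ = 2 * 3 ^ T * ((C * L : ℕ) : ℝ) ^ (T + 3) := by ring
      _ ≤ 2 * 3 ^ T * ((C : ℝ) * (x : ℝ) ^ a) ^ (T + 3) := by
          apply mul_le_mul_of_nonneg_left _ (by positivity)
          exact pow_le_pow_left₀ (by positivity) g3 _
      _ = 2 * 3 ^ T * (C : ℝ) ^ (T + 3) * (x : ℝ) ^ (a * (T + 3)) := by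
          rw [mul_pow, ← Real.rpow_natCast ((x : ℝ) ^ a) (T + 3), ← Real.rpow_mul hx0.le]
          push_cast
          ring
      _ ≤ 2 * 3 ^ T * (C : ℝ) ^ (T + 3) * (x : ℝ) ^ ((1 : ℝ) / 2) := by
          apply mul_le_mul_of_nonneg_left _ (by positivity)
          exact Real.rpow_le_rpow_of_exponent_le hx1 haT
      _ ≤ (x : ℝ) ^ ((98 : ℝ) / 100) / 2 := by linarith
      _ ≤ x / (2 * Real.log x ^ 2) := by
          rw [div_le_div_iff₀ (by norm_num) (by positivity)]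
          have k1 : Real.log x ^ 2 ≤ ((x : ℝ) ^ ((1 : ℝ) / 100)) ^ 2 :=
            pow_le_pow_left₀ hlog0.le h4 2
          have k2 : (x : ℝ) ^ ((98 : ℝ) / 100) * ((x : ℝ) ^ ((1 : ℝ) / 100)) ^ 2 = x := by
            rw [← Real.rpow_natCast ((x : ℝ) ^ ((1 : ℝ) / 100)) 2, ← Real.rpow_mul hx0.le,
              ← Real.rpow_add hx0]
            norm_num
          have k3 : 0 < (x : ℝ) ^ ((98 : ℝ) / 100) := by positivity
          nlinarith [mul_le_mul_of_nonneg_left k1 k3.le]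
  -- the difference
  have hcard : ((Prs T C L x).card : ℝ) =
      ∑ ℓ ∈ Blk C L, (((PX x).filter (fun q => ℓ ∣ q - 1 ∧ ¬ Bad T q ℓ)).card : ℝ) := by
    have g1 : (Prs T C L x).card =
        ∑ ℓ ∈ Blk C L, ((PX x).filter (fun q => ℓ ∣ q - 1 ∧ ¬ Bad T q ℓ)).card := by
      unfold Prs
      rw [card_filter, sum_product]
      refine sum_congr rfl fun ℓ _ => ?_
      rw [card_filter]
    rw [g1]
    push_cast
    rfl
  have hsub : ∀ ℓ ∈ Blk C L, (((PX x).filter (fun q => ℓ ∣ q - 1)).card : ℝ) ≤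
      (((PX x).filter (fun q => ℓ ∣ q - 1 ∧ ¬ Bad T q ℓ)).card : ℝ) +
        (((PX x).filter (fun q => Bad T q ℓ)).card : ℝ) := by
    intro ℓ _
    have g1 : (PX x).filter (fun q => ℓ ∣ q - 1) ⊆
        (PX x).filter (fun q => ℓ ∣ q - 1 ∧ ¬ Bad T q ℓ) ∪ (PX x).filter (fun q => Bad T q ℓ) := by
      intro q hq
      rw [mem_filter] at hq
      rw [mem_union, mem_filter, mem_filter]
      by_cases hb : Bad T q ℓ
      · exact Or.inr ⟨hq.1, hb⟩
      · exact Or.inl ⟨hq.1, hq.2, hb⟩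
    have g2 := (card_le_card g1).trans (card_union_le _ _)
    exact_mod_cast g2
  have htot := hall.trans (sum_le_sum hsub)
  rw [sum_add_distrib, ← hcard] at htot
  have hhalf : (x : ℝ) / Real.log x ^ 2 = x / (2 * Real.log x ^ 2) + x / (2 * Real.log x ^ 2) := by
    field_simp
    ring
  linarith

end Pool.Agent.H573.AHB.LP
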