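import Pool.Agent.H573.AHB.LpC

/-!
A positive proportion of the exponents `k` has many good primes `q = ℓ k + 1`.
-/

set_option autoImplicit false

namespace Pool.Agent.H573.AHB.LP

open Finset Filter
open Pool.Agent.H573.AHB.Gold (PX mem_PX Th bv Th_nonneg Th_le_card)
open Pool.Agent.H262R4.FR.TBT (evA evB evC)

/-- the upper bound sieve for `ℓ`, `r ℓ + 1` prime -/
lemma fib : ∃ C : ℝ, 0 < C ∧ ∀ Z r : ℕ, 3 ≤ Z → 1 ≤ r →
    (((Icc 1 Z).filter (fun n : ℕ => n.Prime ∧ (r * n + 1).Prime)).card : ℝ) ≤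
      C * ((Z : ℝ) / Real.log Z ^ 2) * ((r : ℝ) / Nat.totient r) ^ 2 := by
  obtain ⟨C, hC, h⟩ := Pool.Agent.Helper112.E456.sieve_two
  refine ⟨C, hC, ?_⟩
  intro Z r hZ hr
  have h1 := h 1 0 r 1 Z one_pos (by omega) (by simp) (by simp) (by omega) (by omega)
  have e1 : 1 * r * (((1 * 1 : ℕ) : ℤ) - ((r * 0 : ℕ) : ℤ)).natAbs = r := by simp
  rw [e1] at h1
  have e2 : (Icc 1 Z).filter (fun n : ℕ => n.Prime ∧ (r * n + 1).Prime) =
      (Icc 1 Z).filter (fun n => (1 * n + 0).Prime ∧ (r * n + 1).Prime) := by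
    refine filter_congr fun n _ => ?_
    rw [one_mul, add_zero]
  rw [e2]
  refine h1.trans (le_of_eq ?_)
  ring

open Classical in
/-- **Many exponents, in terms of `x`.** -/
lemma many_exp (T : ℕ) {a : ℝ} (ha0 : 0 < a) (ha : a ≤ 1 / 8) (haT : a * (T + 3) ≤ 1 / 2)
    (C : ℕ) (hC : 2 ≤ C)
    (hblk : ∀ L : ℕ, 1 ≤ L → 1 ≤ ∑ ℓ ∈ Blk C L, Real.log ℓ / ℓ) :
    ∃ c : ℝ, 0 < c ∧ ∀ᶠ x : ℕ in atTop, c * (x : ℝ) ^ (1 - a) ≤
      (((Icc 1 ⌊(x : ℝ) ^ (1 - a)⌋₊).filter (fun k : ℕ => GS T k (2 * (k : ℝ) ^ (a / 2)))).card : ℝ) := by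
  obtain ⟨C1, hC1, hsv⟩ := fib
  have hC0 : (0 : ℝ) < C := by
    have : 0 < C := by omega
    exact_mod_cast this
  obtain ⟨c1, hc1⟩ : ∃ c1 : ℝ, c1 = a ^ 2 / (4 * C1 * C) := ⟨_, rfl⟩
  have hc10 : 0 < c1 := by rw [hc1]; positivity
  refine ⟨c1 ^ 2 * Real.exp (-15), by positivity, ?_⟩
  have e1 := many_good T ha0 ha haT C hC hblk
  have e2 : ∀ᶠ x : ℕ in atTop, 2 * (x : ℝ) ^ (a / 2) ≤ (x : ℝ) ^ a / (4 * Real.log x ^ 2) := by
    have h1 := (isLittleO_log_rpow_atTop (r := a / 8) (by linarith)).bound one_pos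
    have h2 := tendsto_natCast_atTop_atTop (R := ℝ) |>.eventually h1
    filter_upwards [h2, eventually_ge_atTop 1, evA 8 (3 * a / 4) a (by linarith), evC 1] with
      x h3 h4 h5 h6
    rw [Real.norm_of_nonneg (Real.log_natCast_nonneg x),
      Real.norm_of_nonneg (by positivity), one_mul] at h3
    have hx0 : (0 : ℝ) < x := by exact_mod_cast h4
    have hlog0 : 0 < Real.log x := by linarith
    rw [le_div_iff₀ (by positivity)]
    have k1 : Real.log x ^ 2 ≤ ((x : ℝ) ^ (a / 8)) ^ 2 := pow_le_pow_left₀ hlog0.le h3 2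
    have k2 : (x : ℝ) ^ (a / 2) * ((x : ℝ) ^ (a / 8)) ^ 2 = (x : ℝ) ^ (3 * a / 4) := by
      rw [← Real.rpow_natCast ((x : ℝ) ^ (a / 8)) 2, ← Real.rpow_mul hx0.le,
        ← Real.rpow_add hx0]
      congr 1
      push_cast
      ring
    have k3 : 0 < (x : ℝ) ^ (a / 2) := by positivity
    calc 2 * (x : ℝ) ^ (a / 2) * (4 * Real.log x ^ 2) =
        8 * ((x : ℝ) ^ (a / 2) * Real.log x ^ 2) := by ring
      _ ≤ 8 * ((x : ℝ) ^ (a / 2) * ((x : ℝ) ^ (a / 8)) ^ 2) := by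
          apply mul_le_mul_of_nonneg_left _ (by norm_num)
          exact mul_le_mul_of_nonneg_left k1 k3.le
      _ = 8 * (x : ℝ) ^ (3 * a / 4) := by rw [k2]
      _ ≤ _ := h5
  have e3 := evA T 0 a ha0
  have e4 := evA 3 0 a ha0
  filter_upwards [e1, e2, e3, e4, evC 1, eventually_ge_atTop 3] with x h1 h2 h3 h3' h5 h6
  rw [Real.rpow_zero, mul_one] at h3'
  have hx0 : (0 : ℝ) < x := by
    have : 0 < x := by omega
    exact_mod_cast this
  have hx1 : (1 : ℝ) ≤ x := by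
    have : 1 ≤ x := by omega
    exact_mod_cast this
  have hlog0 : 0 < Real.log x := by linarith
  obtain ⟨L, hL⟩ : ∃ L, L = ⌊(x : ℝ) ^ a⌋₊ := ⟨_, rfl⟩
  obtain ⟨D, hD⟩ : ∃ D, D = ⌊(x : ℝ) ^ (1 - a)⌋₊ := ⟨_, rfl⟩
  obtain ⟨m0, hm0⟩ : ∃ m0, m0 = (x : ℝ) ^ a / (4 * Real.log x ^ 2) := ⟨_, rfl⟩
  rw [← hL] at h1
  rw [← hD]
  rw [← hm0] at h2
  have hLx : (L : ℝ) ≤ (x : ℝ) ^ a := by
    rw [hL]
    exact Nat.floor_le (by positivity)
  have hLx' : (x : ℝ) ^ a < L + 1 := by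
    rw [hL]
    exact Nat.lt_floor_add_one _
  have hTL : T ≤ L := by
    rw [hL]
    apply Nat.le_floor
    rw [Real.rpow_zero, mul_one] at h3
    exact h3
  have hxa : 0 < (x : ℝ) ^ a := by positivity
  have hCLx : (x : ℝ) ^ a ≤ ((C * L : ℕ) : ℝ) := by
    have k1 : (2 * L : ℕ) ≤ C * L := Nat.mul_le_mul_right _ hC
    have k2 : ((2 * L : ℕ) : ℝ) ≤ ((C * L : ℕ) : ℝ) := by exact_mod_cast k1
    push_cast at k2 ⊢
    linarith
  have hCL3 : 3 ≤ C * L := by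
    have k1 : ((3 : ℕ) : ℝ) ≤ ((C * L : ℕ) : ℝ) := by
      push_cast at hCLx ⊢
      linarith
    exact_mod_cast k1
  have hsplit : (x : ℝ) ^ (1 - a) * (x : ℝ) ^ a = x := by
    rw [← Real.rpow_add hx0]
    simp
  -- facts on pairs
  have hpair : ∀ c ∈ Prs T C L x, c.1 * ((c.2 - 1) / c.1) = c.2 - 1 ∧ 1 ≤ (c.2 - 1) / c.1 ∧
      (c.2 - 1) / c.1 ≤ D := by
    intro c hc
    rw [mem_Prs, mem_Blk, mem_PX] at hc
    obtain ⟨⟨⟨⟨g1, g2⟩, g3⟩, g4, g5⟩, g6, g7⟩ := hc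
    have g8 := Nat.mul_div_cancel' g6
    have hq := g5.two_le
    have g9 : 1 ≤ (c.2 - 1) / c.1 := by
      rw [Nat.one_le_div_iff g3.pos]
      exact Nat.le_of_dvd (by omega) g6
    refine ⟨g8, g9, ?_⟩
    rw [hD]
    apply Nat.le_floor
    have g10 : (((c.2 - 1) / c.1 : ℕ) : ℝ) * (x : ℝ) ^ a ≤ x := by
      have k1 : (x : ℝ) ^ a ≤ (c.1 : ℝ) := by
        have : ((L + 1 : ℕ) : ℝ) ≤ (c.1 : ℝ) := by exact_mod_cast g1
        push_cast at this
        linarith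
      calc (((c.2 - 1) / c.1 : ℕ) : ℝ) * (x : ℝ) ^ a ≤ (((c.2 - 1) / c.1 : ℕ) : ℝ) * c.1 :=
            mul_le_mul_of_nonneg_left k1 (Nat.cast_nonneg _)
        _ = ((c.1 * ((c.2 - 1) / c.1) : ℕ) : ℝ) := by push_cast; ring
        _ = ((c.2 - 1 : ℕ) : ℝ) := by rw [g8]
        _ ≤ x := by
          have : c.2 - 1 ≤ x := by omega
          exact_mod_cast this
    have g11 : (((c.2 - 1) / c.1 : ℕ) : ℝ) * (x : ℝ) ^ a ≤ (x : ℝ) ^ (1 - a) * (x : ℝ) ^ a := by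
      rw [hsplit]
      exact g10
    exact le_of_mul_le_mul_right g11 hxa
  obtain ⟨F, hF⟩ : ∃ F : ℕ → Finset (ℕ × ℕ), F = fun d =>
    (Prs T C L x).filter (fun c => (c.2 - 1) / c.1 = d) := ⟨_, rfl⟩
  have hsum : (Prs T C L x).card = ∑ d ∈ Icc 1 D, (F d).card := by
    rw [hF]
    exact card_eq_sum_card_fiberwise (fun c hc => by
      obtain ⟨-, k1, k2⟩ := hpair c hc
      exact mem_coe.mpr (mem_Icc.mpr ⟨k1, k2⟩))
  -- the fibres
  have hFcard : ∀ d ∈ Icc 1 D, ((F d).card : ℝ) ≤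
      C1 * (((C * L : ℕ) : ℝ) / Real.log ((C * L : ℕ) : ℝ) ^ 2) * ((d : ℝ) / Nat.totient d) ^ 2 := by
    intro d hd
    rw [mem_Icc] at hd
    refine le_trans ?_ (hsv (C * L) d hCL3 hd.1)
    apply Nat.cast_le.mpr
    rw [hF]
    apply card_le_card_of_injOn (fun c => c.1)
    · intro c hc
      have hc1' := mem_filter.mp (mem_coe.mp hc)
      have k1 := (hpair c hc1'.1).1
      rw [hc1'.2] at k1
      have hc2 := mem_Prs.mp hc1'.1
      rw [mem_Blk, mem_PX] at hc2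
      have k2 := hc2.1.2.2.two_le
      have k3 : d * c.1 + 1 = c.2 := by
        rw [mul_comm, k1]
        omega
      refine mem_coe.mpr (mem_filter.mpr ⟨mem_Icc.mpr ⟨hc2.1.1.2.one_lt.le, hc2.1.1.1.2⟩,
        hc2.1.1.2, ?_⟩)
      rw [k3]
      exact hc2.1.2.2
    · intro c hc c' hc' h
      have hc1 := mem_filter.mp (mem_coe.mp hc)
      have hc1' := mem_filter.mp (mem_coe.mp hc')
      have k1 := (hpair c hc1.1).1
      have k1' := (hpair c' hc1'.1).1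
      rw [hc1.2] at k1
      rw [hc1'.2] at k1'
      have h' : c.1 = c'.1 := h
      have k2 := (mem_PX.mp (mem_Prs.mp hc1.1).1.2).2.two_le
      have k2' := (mem_PX.mp (mem_Prs.mp hc1'.1).1.2).2.two_le
      apply Prod.ext h'
      rw [h'] at k1
      omega
  have hgood : ∀ d ∈ Icc 1 D, m0 ≤ ((F d).card : ℝ) → GS T d (2 * (d : ℝ) ^ (a / 2)) := by
    intro d hd hm
    rw [mem_Icc] at hd
    refine ⟨(F d).image (fun c => c.2), ?_, ?_⟩
    · rw [card_image_of_injOn]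
      · refine le_trans ?_ (h2.trans hm)
        apply mul_le_mul_of_nonneg_left _ (by norm_num)
        apply Real.rpow_le_rpow (by positivity) _ (by linarith)
        have k1 : (D : ℝ) ≤ (x : ℝ) ^ (1 - a) := by
          rw [hD]
          exact Nat.floor_le (by positivity)
        have k2 : (x : ℝ) ^ (1 - a) ≤ (x : ℝ) ^ (1 : ℝ) :=
          Real.rpow_le_rpow_of_exponent_le hx1 (by linarith)
        rw [Real.rpow_one] at k2
        have k3 : (d : ℝ) ≤ D := by exact_mod_cast hd.2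
        linarith
      · intro c hc c' hc' h
        rw [hF] at hc hc'
        have hc1 := mem_filter.mp (mem_coe.mp hc)
        have hc1' := mem_filter.mp (mem_coe.mp hc')
        have k1 := (hpair c hc1.1).1
        have k1' := (hpair c' hc1'.1).1
        rw [hc1.2] at k1
        rw [hc1'.2] at k1'
        have h' : c.2 = c'.2 := h
        refine Prod.ext ?_ h'
        rw [h'] at k1
        exact Nat.eq_of_mul_eq_mul_right (by omega) (k1.trans k1'.symm)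
    · intro q hq
      rw [mem_image] at hq
      obtain ⟨c, hc, rfl⟩ := hq
      rw [hF] at hc
      have hc1 := mem_filter.mp hc
      have k1 := (hpair c hc1.1).1
      rw [hc1.2] at k1
      have hc2 := mem_Prs.mp hc1.1
      rw [mem_Blk, mem_PX] at hc2
      exact ⟨hc2.1.2.2, c.1, hc2.1.1.2, by omega, k1.symm, hc2.2.2⟩
  -- counting
  obtain ⟨K, hK⟩ : ∃ K, K = (Icc 1 D).filter (fun k : ℕ => GS T k (2 * (k : ℝ) ^ (a / 2))) :=
    ⟨_, rfl⟩
  rw [← hK]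
  obtain ⟨w, hw⟩ : ∃ w : ℕ → ℝ, w = fun d : ℕ => ((d : ℝ) / Nat.totient d) ^ 2 := ⟨_, rfl⟩
  have hw0 : ∀ d, 0 ≤ w d := fun d => by rw [hw]; positivity
  have hm0' : 0 ≤ m0 := by rw [hm0]; positivity
  obtain ⟨R, hR⟩ : ∃ R, R = C1 * (((C * L : ℕ) : ℝ) / Real.log ((C * L : ℕ) : ℝ) ^ 2) := ⟨_, rfl⟩
  have hR0 : 0 ≤ R := by rw [hR]; positivity
  have hKsub : K ⊆ Icc 1 D := by
    rw [hK]
    exact filter_subset _ _
  have hle : ∀ d ∈ Icc 1 D, ((F d).card : ℝ) ≤ m0 + (if d ∈ K then R * w d else 0) := by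
    intro d hd
    by_cases hdK : d ∈ K
    · rw [if_pos hdK]
      have := hFcard d hd
      rw [← hR] at this
      have h7 : w d = ((d : ℝ) / Nat.totient d) ^ 2 := by rw [hw]
      rw [h7]
      linarith
    · rw [if_neg hdK, add_zero]
      by_contra hcon
      push Not at hcon
      apply hdK
      rw [hK, mem_filter]
      exact ⟨hd, hgood d hd hcon.le⟩
  have htot := sum_le_sum hle
  rw [sum_add_distrib, sum_const, Nat.card_Icc, nsmul_eq_mul, ← sum_filter, ← mul_sum] at htot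
  have hKs : (Icc 1 D).filter (fun d => d ∈ K) = K := by
    ext d
    rw [mem_filter]
    exact ⟨fun h => h.2, fun h => ⟨hKsub h, h⟩⟩
  rw [hKs] at htot
  obtain ⟨S, hS⟩ : ∃ S, S = ∑ d ∈ K, w d := ⟨_, rfl⟩
  rw [← hS] at htot
  have hS0 : 0 ≤ S := by rw [hS]; exact sum_nonneg fun d _ => hw0 d
  have h1' : (x : ℝ) / (2 * Real.log x ^ 2) ≤ ((∑ d ∈ Icc 1 D, (F d).card : ℕ) : ℝ) := by
    rw [← hsum]
    exact h1
  push_cast at h1' htot
  have hD1 : ((D + 1 - 1 : ℕ) : ℝ) = D := by simp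
  have hDx : (D : ℝ) ≤ (x : ℝ) ^ (1 - a) := by
    rw [hD]
    exact Nat.floor_le (by positivity)
  have hDm : (D : ℝ) * m0 ≤ x / (4 * Real.log x ^ 2) := by
    calc (D : ℝ) * m0 ≤ (x : ℝ) ^ (1 - a) * m0 := mul_le_mul_of_nonneg_right hDx hm0'
      _ = ((x : ℝ) ^ (1 - a) * (x : ℝ) ^ a) / (4 * Real.log x ^ 2) := by rw [hm0]; ring
      _ = x / (4 * Real.log x ^ 2) := by rw [hsplit]
  have hhalf : (x : ℝ) / (2 * Real.log x ^ 2) = x / (4 * Real.log x ^ 2) + x / (4 * Real.log x ^ 2) := by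
    field_simp
    ring
  have hRS : (x : ℝ) / (4 * Real.log x ^ 2) ≤ R * S := by
    have k2 : ((D + 1 - 1 : ℕ) : ℝ) * m0 ≤ x / (4 * Real.log x ^ 2) := by rw [hD1]; exact hDm
    linarith
  have hRx : R ≤ C1 * (C * (x : ℝ) ^ a / (a ^ 2 * Real.log x ^ 2)) := by
    rw [hR]
    apply mul_le_mul_of_nonneg_left _ hC1.le
    have k1 : a * Real.log x ≤ Real.log ((C * L : ℕ) : ℝ) := by
      rw [← Real.log_rpow hx0]
      exact Real.log_le_log hxa hCLx
    have k2 : 0 < a * Real.log x := by positivity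
    apply div_le_div₀ (by positivity)
    · push_cast
      exact mul_le_mul_of_nonneg_left hLx hC0.le
    · positivity
    · rw [← mul_pow]
      exact pow_le_pow_left₀ k2.le k1 2
  have hSx : c1 * (x : ℝ) ^ (1 - a) ≤ S := by
    have k1 := hRS.trans (mul_le_mul_of_nonneg_right hRx hS0)
    rw [hc1]
    have k2 : (x : ℝ) / (4 * Real.log x ^ 2) =
        (x : ℝ) ^ (1 - a) * ((x : ℝ) ^ a / (4 * Real.log x ^ 2)) := by
      rw [← mul_div_assoc, hsplit]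
    have k3 : C1 * (C * (x : ℝ) ^ a / (a ^ 2 * Real.log x ^ 2)) * S =
        (4 * C1 * C / a ^ 2 * S) * ((x : ℝ) ^ a / (4 * Real.log x ^ 2)) := by
      field_simp
    rw [k2, k3] at k1
    have k4 := le_of_mul_le_mul_right k1 (by positivity)
    rw [div_mul_eq_mul_div, div_le_iff₀ (by positivity)]
    rw [div_mul_eq_mul_div, le_div_iff₀ (by positivity)] at k4
    linarith
  -- Cauchy's inequality
  have hCS : S ^ 2 ≤ (K.card : ℝ) * (Real.exp 15 * D) := by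
    have k1 := sq_sum_le_card_mul_sum_sq (s := K) (f := w)
    rw [← hS] at k1
    refine k1.trans (mul_le_mul_of_nonneg_left ?_ (Nat.cast_nonneg _))
    have k2 := BTp.part4 D
    refine le_trans ?_ k2
    rw [hw]
    exact sum_le_sum_of_subset_of_nonneg hKsub fun d _ _ => by positivity
  have hxp : 0 < (x : ℝ) ^ (1 - a) := by positivity
  have hS2 : (c1 * (x : ℝ) ^ (1 - a)) ^ 2 ≤ (K.card : ℝ) * (Real.exp 15 * (x : ℝ) ^ (1 - a)) := by
    have k1 := pow_le_pow_left₀ (by positivity) hSx 2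
    refine k1.trans (hCS.trans ?_)
    apply mul_le_mul_of_nonneg_left _ (Nat.cast_nonneg _)
    exact mul_le_mul_of_nonneg_left hDx (Real.exp_pos _).le
  have hfin : (c1 ^ 2 * (x : ℝ) ^ (1 - a)) * (x : ℝ) ^ (1 - a) ≤
      ((K.card : ℝ) * Real.exp 15) * (x : ℝ) ^ (1 - a) := by
    calc (c1 ^ 2 * (x : ℝ) ^ (1 - a)) * (x : ℝ) ^ (1 - a) = (c1 * (x : ℝ) ^ (1 - a)) ^ 2 := by ring
      _ ≤ _ := hS2
      _ = _ := by ring
  have hfin2 := le_of_mul_le_mul_right hfin hxp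
  have hexp : Real.exp (-15) * Real.exp 15 = 1 := by
    rw [← Real.exp_add]
    norm_num
  calc c1 ^ 2 * Real.exp (-15) * (x : ℝ) ^ (1 - a) =
      Real.exp (-15) * (c1 ^ 2 * (x : ℝ) ^ (1 - a)) := by ring
    _ ≤ Real.exp (-15) * ((K.card : ℝ) * Real.exp 15) :=
        mul_le_mul_of_nonneg_left hfin2 (Real.exp_pos _).le
    _ = (K.card : ℝ) * (Real.exp (-15) * Real.exp 15) := by ring
    _ = K.card := by rw [hexp, mul_one]

end Pool.Agent.H573.AHB.LP
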