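import Pool.Agent.H573.AHB.UnI

/-!
The final form of the engine.
-/

set_option autoImplicit false

namespace Pool.Agent.H573.AHB

open Filter

/-- the engine -/
theorem engine (f : ℕ) (hf : 1 ≤ f) (Bd : ℕ → ℕ → ℕ → Prop) (hB : USparse Bd) :
    ∃ δ : ℝ, 0 < δ ∧ ∃ S : Set ℕ,
      (∀ s ∈ S, s.Prime ∧ 2 < s ∧ ∃ G : Finset ℕ, (s : ℝ) ^ δ ≤ (G.card : ℝ) ∧
        ∀ q ∈ G, q.Prime ∧ 2 * s < q ∧ f ∣ q - 1 ∧ s ∣ q - 1 ∧
          ∀ m : ℕ, ((2 * m + 1 : ℕ) : ℝ) ≤ (s : ℝ) ^ δ →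
            2 * (2 * m + 1) < q ∧ ¬ Bd m q ((q - 1) / s)) ∧
      ∃ c : ℝ, 0 < c ∧ ∃ X₀ : ℕ, ∀ X : ℕ, X₀ ≤ X → c ≤ invSum S X := by
  obtain ⟨δ, hδ0, hδ1, S, hS, hdens⟩ := diagV f hf Bd hB 2
  refine ⟨δ, hδ0, S, ?_, hdens⟩
  intro s hs
  obtain ⟨hsp, hs2, G, hG1, hG2⟩ := hS s hs
  refine ⟨hsp, hs2, G, hG1, ?_⟩
  intro q hq
  obtain ⟨k1, k2, k3, k4⟩ := hG2 q hq
  have hqs : 2 * s < q := by
    obtain ⟨t, ht⟩ := k3
    have h2 := k1.two_le
    have ht0 : t ≠ 0 := by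
      rintro rfl
      rw [mul_zero] at ht
      omega
    rcases Nat.lt_or_ge 1 t with h | h
    · have : s * 2 ≤ s * t := Nat.mul_le_mul_left _ h
      omega
    · exfalso
      have ht1 : t = 1 := by omega
      rw [ht1, mul_one] at ht
      have hso : Odd s := hsp.odd_of_ne_two (by omega)
      have hqe : Even q := by
        have : q = s + 1 := by omega
        rw [this]
        exact hso.add_odd odd_one
      have := (Nat.Prime.even_iff k1).mp hqe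
      omega
  refine ⟨k1, hqs, k2, k3, ?_⟩
  intro m hm
  have hs1 : (1 : ℝ) ≤ s := by exact_mod_cast (by omega : 1 ≤ s)
  have h1 : (s : ℝ) ^ δ ≤ s := by
    calc (s : ℝ) ^ δ ≤ (s : ℝ) ^ (1 : ℝ) := Real.rpow_le_rpow_of_exponent_le hs1 (by linarith)
      _ = s := Real.rpow_one _
  have h2 : 2 * m + 1 ≤ s := by
    have : ((2 * m + 1 : ℕ) : ℝ) ≤ s := hm.trans h1
    exact_mod_cast this
  refine ⟨by omega, k4 m ?_⟩
  refine le_trans ?_ hm
  push_cast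
  have : (0 : ℝ) ≤ m := Nat.cast_nonneg m
  linarith

/-- all the small primes and all the auxiliary primes are on the same side -/
lemma side (a b : ℕ) (hco : Nat.Coprime a b) (P G : ℕ → Prop) (hP : ∀ p, P p → p.Prime)
    (hG : ∀ q, G q → q.Prime) (hP0 : ∃ p, P p) (hG0 : ∃ q, G q)
    (h : ∀ p, P p → ∀ q, G q → (p ∣ a ∧ q ∣ a) ∨ (p ∣ b ∧ q ∣ b)) :
    (∀ r, G r ∨ P r → r ∣ a) ∨ (∀ r, G r ∨ P r → r ∣ b) := by
  obtain ⟨p0, hp0⟩ := hP0
  obtain ⟨q0, hq0⟩ := hG0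
  have hno : ∀ r : ℕ, r.Prime → r ∣ a → r ∣ b → False := by
    intro r hr ha hb
    have := Nat.dvd_gcd ha hb
    rw [hco] at this
    exact hr.one_lt.ne' (Nat.dvd_one.mp this)
  rcases h p0 hp0 q0 hq0 with ⟨h1, h2⟩ | ⟨h1, h2⟩
  · left
    rintro r (hr | hr)
    · rcases h p0 hp0 r hr with h3 | h3
      · exact h3.2
      · exact (hno p0 (hP p0 hp0) h1 h3.1).elim
    · rcases h r hr q0 hq0 with h3 | h3
      · exact h3.1
      · exact (hno q0 (hG q0 hq0) h2 h3.2).elim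
  · right
    rintro r (hr | hr)
    · rcases h p0 hp0 r hr with h3 | h3
      · exact (hno p0 (hP p0 hp0) h3.1 h1).elim
      · exact h3.2
    · rcases h r hr q0 hq0 with h3 | h3
      · exact (hno q0 (hG q0 hq0) h3.2 h2).elim
      · exact h3.1

/-- a nonzero number divisible by many primes is large -/
lemma big_of_dvd (G : Finset ℕ) (a : ℕ) (ha : a ≠ 0) (h : ∀ q ∈ G, q.Prime ∧ 3 ≤ q ∧ q ∣ a) :
    Real.exp (G.card : ℝ) ≤ a := by
  have h1 : ∏ q ∈ G, q ∣ a := Finset.prod_primes_dvd a (fun q hq => (h q hq).1.prime)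
    (fun q hq => (h q hq).2.2)
  have h2 := Nat.le_of_dvd (by omega) h1
  have h3 : 3 ^ G.card ≤ ∏ q ∈ G, q := by
    rw [← Finset.prod_const]
    exact Finset.prod_le_prod (fun _ _ => by norm_num) (fun q hq => (h q hq).2.1)
  have h4 : ((3 ^ G.card : ℕ) : ℝ) ≤ a := by exact_mod_cast h3.trans h2
  refine le_trans ?_ h4
  rw [← Real.exp_one_pow G.card]
  push_cast
  apply pow_le_pow_left₀ (Real.exp_pos _).le
  have := Real.exp_one_lt_d9
  linarith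

end Pool.Agent.H573.AHB
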