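import Pool.Agent.H573.AHB.LpD
import Pool.Agent.H573.AHB.UnJ

/-!
Equal sums of like powers are trivial modulo many primes, for a positive proportion of the exponents.
-/

set_option autoImplicit false

namespace Pool.Agent.H573.AHB.LP

open Polynomial Finset Filter

/-- fewer terms -/
lemma Bad.mono {T q ℓ : ℕ} (hℓ : 0 < ℓ) (r : ℕ) (h : Bad T q ℓ) : Bad (T + r) q ℓ := by
  obtain ⟨g, h1, σ, e, h2, h3⟩ := h
  have key : PP (Fin.append σ (fun _ : Fin r => 0)) (Fin.append e (fun _ : Fin r => ⟨0, hℓ⟩)) =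
      PP σ e := by
    unfold PP
    rw [Fin.sum_univ_add]
    simp
  exact ⟨g, h1, _, _, by rw [key]; exact h2, by rw [key]; exact h3⟩

/-- **Equal sums of few `K`-th powers are trivial modulo a good prime.** -/
theorem trivial_mod {M n m q ℓ k K : ℕ} (hnm : n + m ≤ M) (hq : q.Prime) (hℓ : ℓ.Prime)
    (hqk : q - 1 = ℓ * k) (hkK : k ∣ K) (hK : K ≠ 0) (hB : ¬ Bad M q ℓ)
    (a : Fin n → ℤ) (b : Fin m → ℤ) (h : ∑ i, a i ^ K = ∑ j, b j ^ K) (r : ℤ)
    (hr : ¬ (q : ℤ) ∣ r) :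
    (univ.filter (fun i => a i ^ K ≡ r [ZMOD q])).card =
      (univ.filter (fun j => b j ^ K ≡ r [ZMOD q])).card := by
  classical
  have hB' : ¬ Bad (n + m) q ℓ := by
    intro h'
    apply hB
    have := h'.mono hℓ.pos (M - (n + m))
    rwa [show n + m + (M - (n + m)) = M by omega] at this
  have hz : ((r : ℤ) : ZMod q) ≠ 0 := by
    rw [Ne, ZMod.intCast_zmod_eq_zero_iff_dvd]
    exact hr
  have h1 := loc hq hℓ ⟨k, hqk⟩ (by rw [hqk]; exact Nat.mul_dvd_mul_left ℓ hkK) hB'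
    (Fin.append (fun _ : Fin n => 1) (fun _ : Fin m => -1))
    (Fin.append (fun i => ((a i : ℤ) : ZMod q)) (fun j => ((b j : ℤ) : ZMod q)))
    (by
      rw [Fin.sum_univ_add]
      simp only [Fin.append_left, Fin.append_right]
      have h2 := congrArg (Int.cast : ℤ → ZMod q) h
      push_cast at h2
      simp [h2]) hK ((r : ℤ) : ZMod q) hz
  rw [Fin.sum_univ_add] at h1
  simp only [Fin.append_left, Fin.append_right] at h1
  have e1 : ∀ c : ℤ, ((c : ZMod q) ^ K = ((r : ℤ) : ZMod q)) ↔ c ^ K ≡ r [ZMOD q] := by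
    intro c
    rw [← ZMod.intCast_eq_intCast_iff]
    push_cast
    rfl
  have h2 : ∑ i : Fin n, (if (((a i : ℤ) : ZMod q) ^ K = ((r : ℤ) : ZMod q)) then
      (((1 : SignType) : SignType) : ℤ) else 0) =
      ((univ.filter (fun i => a i ^ K ≡ r [ZMOD q])).card : ℤ) := by
    rw [card_filter]
    push_cast
    refine sum_congr rfl fun i _ => ?_
    by_cases hi : a i ^ K ≡ r [ZMOD q]
    · rw [if_pos hi, if_pos ((e1 _).mpr hi)]
      simp
    · rw [if_neg hi, if_neg (fun h' => hi ((e1 _).mp h'))]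
  have h3 : ∑ j : Fin m, (if (((b j : ℤ) : ZMod q) ^ K = ((r : ℤ) : ZMod q)) then
      (((-1 : SignType) : SignType) : ℤ) else 0) =
      -((univ.filter (fun j => b j ^ K ≡ r [ZMOD q])).card : ℤ) := by
    rw [card_filter]
    push_cast
    rw [← sum_neg_distrib]
    refine sum_congr rfl fun j _ => ?_
    by_cases hj : b j ^ K ≡ r [ZMOD q]
    · rw [if_pos hj, if_pos ((e1 _).mpr hj)]
      simp
    · rw [if_neg hj, if_neg (fun h' => hj ((e1 _).mp h'))]
      simp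
  rw [h2, h3] at h1
  have h4 : ((univ.filter (fun i => a i ^ K ≡ r [ZMOD q])).card : ℤ) =
      ((univ.filter (fun j => b j ^ K ≡ r [ZMOD q])).card : ℤ) := by linarith
  exact_mod_cast h4

open Classical in
/-- **A positive proportion of the exponents.** -/
theorem dens (T : ℕ) : ∃ δ : ℝ, 0 < δ ∧ ∃ c : ℝ, 0 < c ∧ ∀ᶠ Y : ℕ in atTop,
    c * Y ≤ (((Icc 1 Y).filter (fun k : ℕ => GS T k (2 * (k : ℝ) ^ δ))).card : ℝ) := by
  obtain ⟨C, hC, hblk⟩ := block
  obtain ⟨a, ha⟩ : ∃ a : ℝ, a = 1 / (2 * ((T : ℝ) + 4)) := ⟨_, rfl⟩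
  have hT0 : (0 : ℝ) ≤ T := Nat.cast_nonneg T
  have ha0 : 0 < a := by rw [ha]; positivity
  have ha8 : a ≤ 1 / 8 := by
    rw [ha]
    apply one_div_le_one_div_of_le (by norm_num)
    linarith
  have haT : a * (T + 3) ≤ 1 / 2 := by
    rw [ha, div_mul_eq_mul_div, div_le_div_iff₀ (by positivity) (by norm_num)]
    linarith
  obtain ⟨c, hc0, hc⟩ := many_exp T ha0 ha8 haT C hC hblk
  refine ⟨a / 2, by positivity, c / 2, by positivity, ?_⟩
  have ha1 : 0 < 1 - a := by linarith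
  have ht : Tendsto (fun Y : ℕ => ⌊(Y : ℝ) ^ (1 / (1 - a))⌋₊) atTop atTop :=
    tendsto_nat_floor_atTop.comp ((tendsto_rpow_atTop (by positivity)).comp
      tendsto_natCast_atTop_atTop)
  filter_upwards [ht.eventually hc, ht.eventually (eventually_ge_atTop 1),
    eventually_ge_atTop 1] with Y h1 h2 h3
  obtain ⟨x, hx⟩ : ∃ x, x = ⌊(Y : ℝ) ^ (1 / (1 - a))⌋₊ := ⟨_, rfl⟩
  rw [← hx] at h1 h2
  obtain ⟨u, hu⟩ : ∃ u, u = (Y : ℝ) ^ (1 / (1 - a)) := ⟨_, rfl⟩
  rw [← hu] at hx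
  have hY0 : (0 : ℝ) < Y := by exact_mod_cast h3
  have hu0 : 0 < u := by rw [hu]; positivity
  have hua : u ^ (1 - a) = Y := by
    rw [hu, ← Real.rpow_mul hY0.le, one_div_mul_cancel ha1.ne', Real.rpow_one]
  have hxu : (x : ℝ) ≤ u := by
    rw [hx]
    exact Nat.floor_le hu0.le
  have hxu' : u < x + 1 := by
    rw [hx]
    exact Nat.lt_floor_add_one _
  have hx1 : (1 : ℝ) ≤ x := by exact_mod_cast h2
  have hxY : (x : ℝ) ^ (1 - a) ≤ Y := by
    rw [← hua]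
    exact Real.rpow_le_rpow (by linarith) hxu ha1.le
  have hYx : (Y : ℝ) / 2 ≤ (x : ℝ) ^ (1 - a) := by
    have k1 : u / 2 ≤ x := by linarith
    have k2 : (u / 2) ^ (1 - a) ≤ (x : ℝ) ^ (1 - a) :=
      Real.rpow_le_rpow (by positivity) k1 ha1.le
    refine le_trans ?_ k2
    rw [Real.div_rpow hu0.le (by norm_num), hua]
    apply div_le_div_of_nonneg_left hY0.le (by positivity)
    calc (2 : ℝ) ^ (1 - a) ≤ 2 ^ (1 : ℝ) :=
          Real.rpow_le_rpow_of_exponent_le (by norm_num) (by linarith)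
      _ = 2 := Real.rpow_one 2
  have hsub : (Icc 1 ⌊(x : ℝ) ^ (1 - a)⌋₊).filter (fun k : ℕ => GS T k (2 * (k : ℝ) ^ (a / 2))) ⊆
      (Icc 1 Y).filter (fun k : ℕ => GS T k (2 * (k : ℝ) ^ (a / 2))) := by
    apply filter_subset_filter
    apply Icc_subset_Icc_right
    have : ⌊(x : ℝ) ^ (1 - a)⌋₊ ≤ ⌊(Y : ℝ)⌋₊ := Nat.floor_le_floor hxY
    rwa [Nat.floor_natCast] at this
  calc c / 2 * (Y : ℝ) = c * ((Y : ℝ) / 2) := by ring
    _ ≤ c * (x : ℝ) ^ (1 - a) := mul_le_mul_of_nonneg_left hYx hc0.le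
    _ ≤ _ := h1
    _ ≤ _ := by exact_mod_cast card_le_card hsub

end Pool.Agent.H573.AHB.LP
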