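import Pool.Agent.H573.AHB.Small

/-!
The forms `F_m, G_m` (`2m+1` prime) have no nontrivial integral zeros, and their complex zeros
`z` with `‖z‖` rational do not exist.
-/

namespace Pool.Agent.H573.AHB

open Polynomial

lemma FG_congr {R : Type*} [CommRing R] (δ δ' u v v' : R) (h : δ * v ^ 2 = δ' * v' ^ 2) (m : ℕ) :
    Fh δ u v m = Fh δ' u v' m ∧ Gh δ u v m = Gh δ' u v' m := by
  induction m with
  | zero => simp
  | succ m ih =>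
    rw [Fh_succ, Gh_succ, Fh_succ, Gh_succ, ih.1, ih.2, h]
    exact ⟨rfl, rfl⟩

lemma FG_mod_u2 {R : Type*} [CommRing R] (δ u v : R) (m : ℕ) :
    u ^ 2 ∣ Fh δ u v m - (2 * m + 1) * (δ * v ^ 2) ^ m ∧ u ^ 2 ∣ Gh δ u v m - (δ * v ^ 2) ^ m := by
  induction m with
  | zero => simp
  | succ m ih =>
    obtain ⟨⟨k, hk⟩, l, hl⟩ := ih
    have e1 := sub_eq_iff_eq_add.mp hk
    have e2 := sub_eq_iff_eq_add.mp hl
    refine ⟨⟨k * (u ^ 2 + δ * v ^ 2) + ((2 * m + 1) * (δ * v ^ 2) ^ m) + 2 * (δ * v ^ 2) * l, ?_⟩,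
      ⟨l * (u ^ 2 + δ * v ^ 2) + (δ * v ^ 2) ^ m + 2 * Fh δ u v m, ?_⟩⟩
    · rw [Fh_succ, e1, e2]
      push_cast
      ring
    · rw [Gh_succ, e2]
      ring

lemma FG_mod_v2 {R : Type*} [CommRing R] (δ u v : R) (m : ℕ) :
    v ^ 2 ∣ Gh δ u v m - (2 * m + 1) * u ^ (2 * m) ∧ v ^ 2 ∣ Fh δ u v m - u ^ (2 * m) := by
  induction m with
  | zero => simp
  | succ m ih =>
    obtain ⟨⟨k, hk⟩, l, hl⟩ := ih
    have e1 := sub_eq_iff_eq_add.mp hk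
    have e2 := sub_eq_iff_eq_add.mp hl
    refine ⟨⟨k * (u ^ 2 + δ * v ^ 2) + δ * ((2 * m + 1) * u ^ (2 * m)) + 2 * u ^ 2 * l, ?_⟩,
      ⟨l * (u ^ 2 + δ * v ^ 2) + δ * u ^ (2 * m) + 2 * δ * Gh δ u v m, ?_⟩⟩
    · rw [Gh_succ, e1, e2]
      push_cast
      ring
    · rw [Fh_succ, e2]
      ring

/-- reduction modulo `p = 2m+1` -/
lemma FG_char {K : Type*} [Field K] [IsAlgClosed K] (m : ℕ) (hm : 1 ≤ m) [Fact (2 * m + 1).Prime]
    [CharP K (2 * m + 1)] (δ x y : K) (hδ : δ ≠ 0) :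
    (Fh δ x y m = 0 → x = 0) ∧ (Gh δ x y m = 0 → y = 0) := by
  have h2 : (2 : K) ≠ 0 := by
    intro h
    have h3 : ((2 : ℕ) : K) = 0 := by exact_mod_cast h
    rw [CharP.cast_eq_zero_iff K (2 * m + 1)] at h3
    have := Nat.le_of_dvd (by omega) h3
    omega
  obtain ⟨ω, hω⟩ := IsAlgClosed.exists_pow_nat_eq δ (n := 2) (by norm_num)
  have hω0 : ω ≠ 0 := by
    intro h
    rw [h] at hω
    apply hδ
    rw [← hω]
    norm_num
  have h3 := pow_FG hω x y m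
  have h4 := pow_FG' hω x y m
  rw [add_pow_char] at h3
  rw [sub_pow_char] at h4
  constructor
  · intro hF
    rw [hF] at h3 h4
    have h5 : 2 * x ^ (2 * m + 1) = 0 := by linear_combination h3 + h4
    have h6 := (mul_eq_zero.mp h5).resolve_left h2
    exact pow_eq_zero_iff (by omega) |>.mp h6
  · intro hG
    rw [hG] at h3 h4
    have h5 : 2 * (ω * y) ^ (2 * m + 1) = 0 := by linear_combination h3 - h4
    have h6 := (mul_eq_zero.mp h5).resolve_left h2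
    have h7 := pow_eq_zero_iff (by omega) |>.mp h6
    exact (mul_eq_zero.mp h7).resolve_left hω0

lemma FG_dvd_p (m : ℕ) (hm : 1 ≤ m) (hp : (2 * m + 1).Prime) (d x y : ℤ)
    (hd : ¬ ((2 * m + 1 : ℕ) : ℤ) ∣ d) :
    (((2 * m + 1 : ℕ) : ℤ) ∣ Fh d x y m → ((2 * m + 1 : ℕ) : ℤ) ∣ x) ∧
    (((2 * m + 1 : ℕ) : ℤ) ∣ Gh d x y m → ((2 * m + 1 : ℕ) : ℤ) ∣ y) := by
  have : Fact (2 * m + 1).Prime := ⟨hp⟩
  have : CharP (AlgebraicClosure (ZMod (2 * m + 1))) (2 * m + 1) :=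
    charP_of_injective_algebraMap (algebraMap (ZMod (2 * m + 1)) _).injective (2 * m + 1)
  have hd' : (d : AlgebraicClosure (ZMod (2 * m + 1))) ≠ 0 := by
    intro h
    rw [CharP.intCast_eq_zero_iff _ (2 * m + 1)] at h
    exact hd h
  have key := FG_char (K := AlgebraicClosure (ZMod (2 * m + 1))) m hm d x y hd'
  have hmap := map_FGh (Int.castRingHom (AlgebraicClosure (ZMod (2 * m + 1)))) d x y m
  simp only [eq_intCast] at hmap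
  rw [← hmap.1, ← hmap.2] at key
  simp only [CharP.intCast_eq_zero_iff _ (2 * m + 1)] at key
  exact key

lemma no_int_root (m : ℕ) (hm : 1 ≤ m) (hp : (2 * m + 1).Prime) (d x y : ℤ)
    (hd : ¬ ((2 * m + 1 : ℕ) : ℤ) ∣ d) (hx : x ≠ 0) (hy : y ≠ 0) :
    Fh d x y m ≠ 0 ∧ Gh d x y m ≠ 0 := by
  have hpp : Prime ((2 * m + 1 : ℕ) : ℤ) := Nat.prime_iff_prime_int.mp hp
  obtain ⟨g, x', y', hg, hx', hy', hco⟩ : ∃ g x' y' : ℤ, g ≠ 0 ∧ x = g * x' ∧ y = g * y' ∧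
      IsCoprime x' y' := by
    have hg0 : ((Int.gcd x y : ℕ) : ℤ) ≠ 0 := by
      intro h
      have : Int.gcd x y = 0 := by exact_mod_cast h
      rw [Int.gcd_eq_zero_iff] at this
      exact hx this.1
    obtain ⟨x', hx'⟩ := Int.gcd_dvd_left x y
    obtain ⟨y', hy'⟩ := Int.gcd_dvd_right x y
    refine ⟨Int.gcd x y, x', y', hg0, hx', hy', ?_⟩
    rw [Int.isCoprime_iff_gcd_eq_one]
    have hgg : Int.gcd (Int.gcd x y * x') (Int.gcd x y * y') = Int.gcd x y := by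
      rw [← hx', ← hy']
    rw [Int.gcd_mul_left] at hgg
    have hpos : 0 < Int.gcd x y := by
      rcases Nat.eq_zero_or_pos (Int.gcd x y) with h | h
      · rw [h] at hg0; simp at hg0
      · exact h
    simp only [Int.natAbs_natCast] at hgg
    exact Nat.eq_of_mul_eq_mul_left hpos (by rw [hgg, mul_one])
  have hnot : ¬ (((2 * m + 1 : ℕ) : ℤ) ∣ x' ∧ ((2 * m + 1 : ℕ) : ℤ) ∣ y') := by
    rintro ⟨h1, h2⟩
    exact hpp.not_isUnit (hco.isUnit_of_dvd' h1 h2)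
  have hsplit : ((2 * m + 1 : ℕ) : ℤ) = 2 * (m : ℤ) + 1 := by push_cast; ring
  rw [hx', hy']
  rw [(hom_FG d x' y' g m).1, (hom_FG d x' y' g m).2]
  refine ⟨mul_ne_zero (pow_ne_zero _ hg) ?_, mul_ne_zero (pow_ne_zero _ hg) ?_⟩
  · intro hF
    have h1 := (FG_dvd_p m hm hp d x' y' hd).1 (by rw [hF]; exact dvd_zero _)
    have h2 := (FG_mod_u2 d x' y' m).1
    rw [hF, zero_sub, dvd_neg] at h2
    have h3 : ((2 * m + 1 : ℕ) : ℤ) ^ 2 ∣ ((2 * m + 1 : ℕ) : ℤ) * (d * y' ^ 2) ^ m := by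
      rw [← hsplit] at h2
      exact (pow_dvd_pow_of_dvd h1 2).trans h2
    rw [pow_two] at h3
    have h4 := (mul_dvd_mul_iff_left hpp.ne_zero).mp h3
    have h5 := hpp.dvd_of_dvd_pow h4
    rcases hpp.dvd_or_dvd h5 with h6 | h6
    · exact hd h6
    · exact hnot ⟨h1, hpp.dvd_of_dvd_pow h6⟩
  · intro hG
    have h1 := (FG_dvd_p m hm hp d x' y' hd).2 (by rw [hG]; exact dvd_zero _)
    have h2 := (FG_mod_v2 d x' y' m).1
    rw [hG, zero_sub, dvd_neg] at h2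
    have h3 : ((2 * m + 1 : ℕ) : ℤ) ^ 2 ∣ ((2 * m + 1 : ℕ) : ℤ) * x' ^ (2 * m) := by
      rw [← hsplit] at h2
      exact (pow_dvd_pow_of_dvd h1 2).trans h2
    rw [pow_two] at h3
    have h4 := (mul_dvd_mul_iff_left hpp.ne_zero).mp h3
    exact hnot ⟨hpp.dvd_of_dvd_pow h4, h1⟩

/-- a zero `z` of `f_m` or `g_m` satisfies `δ z² = -|δ| ‖z‖²` -/
lemma root_imag (δ : ℤ) (z : ℂ) (m : ℕ) (hz : Fh (δ : ℂ) 1 z m = 0 ∨ Gh (δ : ℂ) 1 z m = 0) :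
    (δ : ℂ) * z ^ 2 = ((-(|(δ : ℝ)| * ‖z‖ ^ 2) : ℝ) : ℂ) := by
  obtain ⟨ω, hω⟩ := IsAlgClosed.exists_pow_nat_eq (δ : ℂ) (n := 2) (by norm_num)
  have hωn : ‖ω‖ ^ 2 = |(δ : ℝ)| := by
    rw [← norm_pow, hω, Complex.norm_intCast]
  have h3 := pow_FG hω 1 z m
  have h4 := pow_FG' hω 1 z m
  have h5 : ‖1 + ω * z‖ ^ (2 * m + 1) = ‖1 - ω * z‖ ^ (2 * m + 1) := by
    rw [← norm_pow, ← norm_pow, h3, h4]
    rcases hz with h | h
    · rw [h, mul_zero, zero_add, zero_sub, norm_neg]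
    · rw [h, mul_zero, add_zero, sub_zero]
  have h6 : ‖1 + ω * z‖ = ‖1 - ω * z‖ :=
    (pow_left_inj₀ (norm_nonneg _) (norm_nonneg _) (by omega)).mp h5
  set w := ω * z with hw
  have h7 : w.re = 0 := by
    have h8 : ‖1 + w‖ ^ 2 = ‖1 - w‖ ^ 2 := by rw [h6]
    rw [← Complex.normSq_eq_norm_sq, ← Complex.normSq_eq_norm_sq, Complex.normSq_apply,
      Complex.normSq_apply] at h8
    simp only [Complex.add_re, Complex.one_re, Complex.add_im, Complex.one_im, Complex.sub_re,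
      Complex.sub_im] at h8
    nlinarith
  have h8 : w ^ 2 = ((-(‖w‖ ^ 2) : ℝ) : ℂ) := by
    rw [← Complex.normSq_eq_norm_sq, Complex.normSq_apply, h7]
    apply Complex.ext
    · simp [pow_two, h7]
    · simp [pow_two, h7]
  have h9 : (δ : ℂ) * z ^ 2 = w ^ 2 := by rw [hw, mul_pow, hω]
  rw [h9, h8, hw, norm_mul, mul_pow, hωn]

/-- no zero of `f_m` or `g_m` is a rational times a root of unity -/
lemma no_root (m : ℕ) (hm : 1 ≤ m) (hp : (2 * m + 1).Prime) (δ : ℤ)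
    (hd : ¬ ((2 * m + 1 : ℕ) : ℤ) ∣ δ) (α β : ℕ) (hα : 1 ≤ α) (hβ : 1 ≤ β) (n : ℕ) (hn : 1 ≤ n)
    (z : ℂ) (hz : Fh (δ : ℂ) 1 z m = 0 ∨ Gh (δ : ℂ) 1 z m = 0) :
    ((α : ℂ) * z) ^ n ≠ (β : ℂ) ^ n := by
  intro h
  have h1 : ‖(α : ℂ) * z‖ ^ n = ‖(β : ℂ)‖ ^ n := by rw [← norm_pow, ← norm_pow, h]
  have h2 : ‖(α : ℂ) * z‖ = ‖(β : ℂ)‖ :=
    (pow_left_inj₀ (norm_nonneg _) (norm_nonneg _) (by omega)).mp h1
  rw [norm_mul, Complex.norm_natCast, Complex.norm_natCast] at h2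
  have hα0 : (α : ℂ) ≠ 0 := by exact_mod_cast (by omega : α ≠ 0)
  have h3 := root_imag δ z m hz
  have h4 : (δ : ℂ) * ((α : ℂ) * z) ^ 2 = (((-|δ| : ℤ)) : ℂ) * (β : ℂ) ^ 2 := by
    have h5 : (δ : ℂ) * ((α : ℂ) * z) ^ 2 = (α : ℂ) ^ 2 * ((δ : ℂ) * z ^ 2) := by ring
    rw [h5, h3]
    have h6 : (β : ℂ) ^ 2 = (((α : ℝ) * ‖z‖ : ℝ) : ℂ) ^ 2 := by
      rw [h2]
      push_cast
      rfl
    have h10 : ((|(δ : ℝ)| : ℝ) : ℂ) = ((|δ| : ℤ) : ℂ) := by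
      rw [← Int.cast_abs]
      norm_cast
    rw [h6, Complex.ofReal_neg, Complex.ofReal_mul, h10, Int.cast_neg]
    push_cast
    ring
  have h7 := FG_congr (δ : ℂ) (((-|δ| : ℤ)) : ℂ) (α : ℂ) ((α : ℂ) * z) (β : ℂ) h4 m
  have h8 := hom_FG (δ : ℂ) 1 z (α : ℂ) m
  rw [mul_one] at h8
  rw [h8.1, h8.2] at h7
  have hmap := map_FGh (Int.castRingHom ℂ) (-|δ|) (α : ℤ) (β : ℤ) m
  simp only [eq_intCast, Int.cast_natCast] at hmap
  rw [← hmap.1, ← hmap.2] at h7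
  have hdd : ¬ ((2 * m + 1 : ℕ) : ℤ) ∣ (-|δ|) := by
    rw [dvd_neg, dvd_abs]
    exact hd
  have hnr := no_int_root m hm hp (-|δ|) (α : ℤ) (β : ℤ) hdd (by omega) (by omega)
  rcases hz with hz | hz
  · rw [hz, mul_zero] at h7
    exact hnr.1 (by exact_mod_cast h7.1.symm)
  · rw [hz, mul_zero] at h7
    exact hnr.2 (by exact_mod_cast h7.2.symm)

end Pool.Agent.H573.AHB
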