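import Pool.Agent.H573.AHB.PsiE

/-!
The pairs `(2, p)`: `x` odd and `p ∣ x` in `x^{2s} + y² = z^{2p}` and `x^s + y^{2p} = z^{2p}`.
-/

namespace Pool.Agent.H573.AHB

open Polynomial Filter

/-- the bad pairs -/
def BadK (δ : ℤ) (m κ q n : ℕ) : Prop :=
  BadG δ m 1 (2 * m + 1) 1 1 ((2 * m + 1) * κ) κ q n ∨
    BadG δ m 1 1 1 (2 * m + 1) κ ((2 * m + 1) * κ) q n

theorem sparse_badK (δ : ℤ) (hδ1 : δ.natAbs = 1) (m κ : ℕ) (hm : 1 ≤ m)
    (hp : (2 * m + 1).Prime) (hκ : 2 ≤ κ) : Sparse (BadK δ m κ) := by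
  have hp1 : ¬ (2 * m + 1) ∣ 1 := by
    intro h
    have := Nat.le_of_dvd one_pos h
    omega
  have hδ0 : δ ≠ 0 := by
    rintro rfl
    simp at hδ1
  have hpδ : ¬ ((2 * m + 1 : ℕ) : ℤ) ∣ δ := by
    intro h
    have h3 := Int.natAbs_dvd_natAbs.mpr h
    rw [Int.natAbs_natCast, hδ1] at h3
    exact hp1 h3
  have hP1 : 1 ≤ 2 * m + 1 := by omega
  have hpm : 1 ≤ (2 * m + 1) ^ (2 * m) := Nat.one_le_pow _ _ hP1
  have hpm2 : 2 * m + 1 ≤ (2 * m + 1) ^ (2 * m) := by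
    calc 2 * m + 1 = (2 * m + 1) ^ 1 := (pow_one _).symm
      _ ≤ (2 * m + 1) ^ (2 * m) := Nat.pow_le_pow_right hP1 (by omega)
  apply Sparse.or
  · refine sparse_badG δ m 1 (2 * m + 1) 1 1 ((2 * m + 1) * κ) κ hδ0 hm le_rfl hP1 le_rfl le_rfl
      (Nat.mul_pos hP1 (by omega)) (by omega) hp hpδ ?_ ?_ ?_
    · refine ph_HT_a m hm (2 * m + 1) hp δ 1 _ 1 _ _ hp1 hp1 (dvd_mul_left _ _) (by omega) ?_
      exact Dvd.dvd.mul_left (dvd_mul_right _ _) _
    · left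
      rw [one_pow, one_mul, hδ1, one_pow, mul_one, mul_one]
      intro h
      have : (2 * m + 1) * κ ≥ (2 * m + 1) * 2 := Nat.mul_le_mul_left _ hκ
      omega
    · left
      rw [one_pow]
      intro h
      have : (2 * m + 1) ^ (2 * m) * ((2 * m + 1) * κ) ≥ 1 * (3 * 2) :=
        Nat.mul_le_mul hpm (Nat.mul_le_mul (by omega) hκ)
      omega
  · refine sparse_badG δ m 1 1 1 (2 * m + 1) κ ((2 * m + 1) * κ) hδ0 hm le_rfl le_rfl le_rfl hP1
      (by omega) (Nat.mul_pos hP1 (by omega)) hp hpδ ?_ ?_ ?_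
    · exact ph_HT_b m hm (2 * m + 1) hp δ hpδ 1 _ _ _ _ hp1 dvd_rfl
    · left
      rw [hδ1, one_pow, one_pow, mul_one, mul_one]
      intro h
      have : (2 * m + 1) ^ (2 * m) * κ ≥ (2 * m + 1) * 2 := Nat.mul_le_mul hpm2 hκ
      omega
    · left
      rw [one_pow, one_mul]
      omega

/-- the local configuration -/
lemma odd_local (δ : ℤ) (hδ1 : δ.natAbs = 1) (m κ : ℕ) (hm : 1 ≤ m)
    (hp : (2 * m + 1).Prime) (hκ0 : κ ≠ 0) (hpκ : ¬ (2 * m + 1) ∣ κ) (s q : ℕ) (hsp : s.Prime)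
    (hs2 : 2 < s)
    (hq : q.Prime) (hqm : 2 * m + 1 < q) (hsq : s ∣ q - 1) (U V F' G' α β : ℤ)
    (huv : IsCoprime U V) (hF : Fh δ U V m = κ * F') (hG : Gh δ U V m = κ * G')
    (hα : U * F' = α ^ s) (hβ : V * G' = β ^ s)
    (hpab : ((2 * m + 1 : ℕ) : ℤ) ∣ α ∨ ((2 * m + 1 : ℕ) : ℤ) ∣ β) :
    BadK δ m κ q ((q - 1) / s) := by
  have hF1 : Fact q.Prime := ⟨hq⟩
  have hsodd : Odd s := hsp.odd_of_ne_two (by omega)
  have hs0 : s ≠ 0 := by omega
  have hpp : Prime ((2 * m + 1 : ℕ) : ℤ) := Nat.prime_iff_prime_int.mp hp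
  have hsn : s * ((q - 1) / s) = q - 1 := Nat.mul_div_cancel' hsq
  have h1q : ((1 : ℕ) : ZMod q) ≠ 0 := by rw [Nat.cast_one]; exact one_ne_zero
  have hpq : ((2 * m + 1 : ℕ) : ZMod q) ≠ 0 := natCast_ne_zero_of_lt (by omega) hqm (ZMod q)
  have hδu : IsUnit δ := Int.isUnit_iff_natAbs_eq.mpr hδ1
  have hpδ : ¬ ((2 * m + 1 : ℕ) : ℤ) ∣ δ := by
    intro h
    have h3 := Int.natAbs_dvd_natAbs.mpr h
    rw [Int.natAbs_natCast, hδ1] at h3
    have := Nat.le_of_dvd one_pos h3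
    omega
  have hud : IsCoprime U δ := ⟨0, δ, by rw [Int.isUnit_mul_self hδu]; ring⟩
  have hpk : IsCoprime ((2 * m + 1 : ℕ) : ℤ) (κ : ℤ) :=
    (hpp.coprime_iff_not_dvd).mpr (fun h => hpκ (Int.natCast_dvd_natCast.mp h))
  have hκz : (κ : ℤ) ≠ 0 := by exact_mod_cast hκ0
  rcases hpab with h | h
  · left
    have hpU : ((2 * m + 1 : ℕ) : ℤ) ∣ U := by
      have h1 : ((2 * m + 1 : ℕ) : ℤ) ∣ U * F' := by rw [hα]; exact dvd_pow h hs0
      rcases hpp.dvd_or_dvd h1 with h2 | h2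
      · exact h2
      · apply (FG_dvd_p m hm hp δ U V hpδ).1
        rw [hF]
        exact h2.mul_left _
    have hpV : ¬ ((2 * m + 1 : ℕ) : ℤ) ∣ V := fun h2 =>
      hpp.not_isUnit (huv.isUnit_of_dvd' hpU h2)
    obtain ⟨F1, h1, h2⟩ := second_F m δ U V huv hud hpU
    rw [hF] at h1
    have hpF' : ((2 * m + 1 : ℕ) : ℤ) ∣ F' := by
      apply hpk.dvd_of_dvd_mul_left
      rw [h1]
      exact dvd_mul_right _ _
    obtain ⟨P, hP⟩ := hpF'
    have hF1' : F1 = κ * P := by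
      apply mul_left_cancel₀ hpp.ne_zero
      rw [← h1, hP]
      ring
    rw [hF1'] at h2
    obtain ⟨⟨w1, e1⟩, w3, e3⟩ := Int.eq_pow_of_mul_eq_pow_odd h2.of_mul_right_right hsodd (by
      rw [← hα, hP]
      ring : ((2 * m + 1 : ℕ) : ℤ) * U * P = α ^ s)
    have hGc := cop_G m hp δ U V huv hpV
    rw [hG] at hGc
    obtain ⟨⟨w2, e2⟩, w4, e4⟩ := Int.eq_pow_of_mul_eq_pow_odd hGc.of_mul_right_right hsodd hβ
    refine badG_of δ m 1 (2 * m + 1) 1 1 ((2 * m + 1) * κ) κ q s _ hq hsn hpq h1q U V w1 w2 w3 w4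
      huv ?_ ?_ ?_ ?_
    · rw [Nat.cast_one, one_mul]; exact e1
    · rw [Nat.cast_one, one_mul, one_mul]; exact e2
    · rw [hF, hP, e3]
      push_cast
      ring
    · rw [hG, e4]
  · right
    have hpV : ((2 * m + 1 : ℕ) : ℤ) ∣ V := by
      have h1 : ((2 * m + 1 : ℕ) : ℤ) ∣ V * G' := by rw [hβ]; exact dvd_pow h hs0
      rcases hpp.dvd_or_dvd h1 with h2 | h2
      · exact h2
      · apply (FG_dvd_p m hm hp δ U V hpδ).2
        rw [hG]
        exact h2.mul_left _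
    have hpU : ¬ ((2 * m + 1 : ℕ) : ℤ) ∣ U := fun h2 =>
      hpp.not_isUnit (huv.isUnit_of_dvd' h2 hpV)
    obtain ⟨G1, h1, h2⟩ := second_G m δ U V huv hpV
    rw [hG] at h1
    have hpG' : ((2 * m + 1 : ℕ) : ℤ) ∣ G' := by
      apply hpk.dvd_of_dvd_mul_left
      rw [h1]
      exact dvd_mul_right _ _
    obtain ⟨P, hP⟩ := hpG'
    have hG1' : G1 = κ * P := by
      apply mul_left_cancel₀ hpp.ne_zero
      rw [← h1, hP]
      ring
    rw [hG1'] at h2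
    obtain ⟨⟨w2, e2⟩, w4, e4⟩ := Int.eq_pow_of_mul_eq_pow_odd h2.of_mul_right_right hsodd (by
      rw [← hβ, hP]
      ring : ((2 * m + 1 : ℕ) : ℤ) * V * P = β ^ s)
    have hFc := cop_F m hp δ U V huv hud hpU
    rw [hF] at hFc
    obtain ⟨⟨w1, e1⟩, w3, e3⟩ := Int.eq_pow_of_mul_eq_pow_odd hFc.of_mul_right_right hsodd hα
    refine badG_of δ m 1 1 1 (2 * m + 1) κ ((2 * m + 1) * κ) q s _ hq hsn h1q hpq U V w1 w2 w3 w4
      huv ?_ ?_ ?_ ?_
    · rw [Nat.cast_one, one_mul, one_mul]; exact e1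
    · rw [Nat.cast_one, one_mul]; exact e2
    · rw [hF, e3]
    · rw [hG, hP, e4]
      push_cast
      ring

/-- no solution of `x^s + y^{2p} = z^{2p}` with `x` odd, `p ∣ x` -/
theorem four_odd (m : ℕ) (hm : 1 ≤ m) (hp : (2 * m + 1).Prime) (s q : ℕ) (hsp : s.Prime)
    (hs2 : 2 < s) (hq : q.Prime) (hqm : 2 * m + 1 < q) (hsq : s ∣ q - 1)
    (hnb : ¬ BadK 1 m (4 ^ m) q ((q - 1) / s)) (x y z : ℤ) (hx : Odd x)
    (hpx : ((2 * m + 1 : ℕ) : ℤ) ∣ x) (hco : IsCoprime z y) :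
    x ^ s + y ^ (2 * (2 * m + 1)) ≠ z ^ (2 * (2 * m + 1)) := by
  intro heq
  apply hnb
  have hs0 : s ≠ 0 := by omega
  have hsodd : Odd s := hsp.odd_of_ne_two (by omega)
  have hpp : Prime ((2 * m + 1 : ℕ) : ℤ) := Nat.prime_iff_prime_int.mp hp
  have hxs : x ^ s = (z ^ (2 * m + 1) - y ^ (2 * m + 1)) * (z ^ (2 * m + 1) + y ^ (2 * m + 1)) := by
    have : (z ^ (2 * m + 1) - y ^ (2 * m + 1)) * (z ^ (2 * m + 1) + y ^ (2 * m + 1)) =
        z ^ (2 * (2 * m + 1)) - y ^ (2 * (2 * m + 1)) := by ring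
    rw [this]
    linarith
  have hodd := hx.pow (n := s)
  rw [hxs, Int.odd_mul] at hodd
  obtain ⟨o1, o2⟩ := hodd
  have hUo : Odd (z - y) := by
    obtain ⟨D, hD⟩ := sub_dvd_pow_sub_pow z y (2 * m + 1)
    rw [hD, Int.odd_mul] at o1
    exact o1.1
  have hVo : Odd (z + y) := by
    have : z + y = (z - y) + 2 * y := by ring
    rw [this]
    exact hUo.add_even (even_two_mul _)
  have hU0 : z - y ≠ 0 := by
    intro h
    rw [h] at hUo
    exact (by decide : ¬ Odd (0 : ℤ)) hUo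
  have hV0 : z + y ≠ 0 := by
    intro h
    rw [h] at hVo
    exact (by decide : ¬ Odd (0 : ℤ)) hVo
  obtain ⟨F', G', d1, d2, d3, d4⟩ := half_FG z y hU0 hV0 m
  have hcc : IsCoprime (z ^ (2 * m + 1) - y ^ (2 * m + 1)) (z ^ (2 * m + 1) + y ^ (2 * m + 1)) :=
    cop_diff_sum (IsCoprime.pow hco) o1
  obtain ⟨⟨α, hα⟩, β, hβ⟩ := Int.eq_pow_of_mul_eq_pow_odd hcc hsodd hxs.symm
  have huv : IsCoprime (z - y) (z + y) := by
    rw [d1, d2] at hcc
    exact hcc.of_mul_left_left.of_mul_right_left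
  have hpab : ((2 * m + 1 : ℕ) : ℤ) ∣ α ∨ ((2 * m + 1 : ℕ) : ℤ) ∣ β := by
    have h1 : ((2 * m + 1 : ℕ) : ℤ) ∣ α ^ s * β ^ s := by
      rw [← hα, ← hβ, ← hxs]
      exact dvd_pow hpx hs0
    rcases hpp.dvd_or_dvd h1 with h | h
    · left; exact hpp.dvd_of_dvd_pow h
    · right; exact hpp.dvd_of_dvd_pow h
  exact odd_local 1 rfl m (4 ^ m) hm hp (pow_ne_zero _ (by norm_num)) (not_dvd_four_pow m m hm hp)
    s q hsp hs2 hq hqm hsq (z - y) (z + y) F' G' α β huv (by push_cast; exact d3)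
    (by push_cast; exact d4) (by rw [← d1]; exact hα) (by rw [← d2]; exact hβ) hpab

lemma FG_par (δ u v : ℤ) (m : ℕ) : Even (Fh δ u v m - (u ^ 2 + δ * v ^ 2) ^ m) ∧
    Even (Gh δ u v m - (u ^ 2 + δ * v ^ 2) ^ m) := by
  induction m with
  | zero => simp
  | succ m ih =>
    obtain ⟨⟨a, ha⟩, b, hb⟩ := ih
    constructor
    · refine ⟨a * (u ^ 2 + δ * v ^ 2) + δ * v ^ 2 * Gh δ u v m, ?_⟩
      rw [Fh_succ, pow_succ]
      linear_combination (u ^ 2 + δ * v ^ 2) * ha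
    · refine ⟨b * (u ^ 2 + δ * v ^ 2) + u ^ 2 * Fh δ u v m, ?_⟩
      rw [Gh_succ, pow_succ]
      linear_combination (u ^ 2 + δ * v ^ 2) * hb

/-- the `(1+i)`-twist -/
lemma twist (u v A B : ℤ) (m : ℕ) (hA : u * Fh (-1) u v m - v * Gh (-1) u v m = A)
    (hB : u * Fh (-1) u v m + v * Gh (-1) u v m = B) :
    ((u - v) * Fh (-1) (u - v) (u + v) m = 2 ^ m * A ∧
      (u + v) * Gh (-1) (u - v) (u + v) m = 2 ^ m * B) ∨
    ((u - v) * Fh (-1) (u - v) (u + v) m = -(2 ^ m * A) ∧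
      (u + v) * Gh (-1) (u - v) (u + v) m = -(2 ^ m * B)) ∨
    ((u - v) * Fh (-1) (u - v) (u + v) m = -(2 ^ m * B) ∧
      (u + v) * Gh (-1) (u - v) (u + v) m = 2 ^ m * A) ∨
    ((u - v) * Fh (-1) (u - v) (u + v) m = 2 ^ m * B ∧
      (u + v) * Gh (-1) (u - v) (u + v) m = -(2 ^ m * A)) := by
  obtain ⟨ω, hω⟩ : ∃ ω : GaussianInt, ω = ⟨0, 1⟩ := ⟨_, rfl⟩
  have hω2 : ω ^ 2 = ((-1 : ℤ) : GaussianInt) := by
    rw [hω]
    apply Zsqrtd.ext
    · simp [pow_two]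
    · simp [pow_two]
  have hmap : ∀ a b : ℤ, ((Fh (-1) a b m : ℤ) : GaussianInt) = Fh ((-1 : ℤ) : GaussianInt) a b m ∧
      ((Gh (-1) a b m : ℤ) : GaussianInt) = Gh ((-1 : ℤ) : GaussianInt) a b m := fun a b =>
    map_FGh (Int.castRingHom GaussianInt) (-1) a b m
  have h1 := pow_FG hω2 (u : GaussianInt) v m
  have h2 := pow_FG hω2 ((u - v : ℤ) : GaussianInt) ((u + v : ℤ) : GaussianInt) m
  rw [← (hmap _ _).1, ← (hmap _ _).2] at h1 h2
  have hω2' : ω ^ 2 = -1 := by rw [hω2]; simp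
  have e1 : ((u - v : ℤ) : GaussianInt) + ω * ((u + v : ℤ) : GaussianInt) =
      (1 + ω) * (u + ω * v) := by
    push_cast
    linear_combination (-(v : GaussianInt)) * hω2'
  have e2 : (1 + ω) ^ (2 * m + 1) = 2 ^ m * ω ^ m * (1 + ω) := by
    have : (1 + ω) ^ 2 = 2 * ω := by linear_combination hω2'
    rw [pow_succ, pow_mul, this, mul_pow]
  rw [e1, mul_pow, e2, h1] at h2
  have e3 : (1 + ω) * ((u : GaussianInt) * ((Fh (-1) u v m : ℤ) : GaussianInt) +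
      ω * v * ((Gh (-1) u v m : ℤ) : GaussianInt)) = (A : GaussianInt) + ω * B := by
    rw [← hA, ← hB]
    push_cast
    linear_combination ((v : GaussianInt) * ((Gh (-1) u v m : ℤ) : GaussianInt)) * hω2'
  have h3 : 2 ^ m * ω ^ m * ((A : GaussianInt) + ω * B) =
      (((u - v) * Fh (-1) (u - v) (u + v) m : ℤ) : GaussianInt) +
        ω * (((u + v) * Gh (-1) (u - v) (u + v) m : ℤ) : GaussianInt) := by
    rw [← e3]
    push_cast at h2 ⊢
    linear_combination h2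
  set X := (u - v) * Fh (-1) (u - v) (u + v) m with hX
  set Y := (u + v) * Gh (-1) (u - v) (u + v) m with hY
  have hread : ∀ a b c d : ℤ, (a : GaussianInt) + ω * b = (c : GaussianInt) + ω * d →
      a = c ∧ b = d := by
    intro a b c d h
    rw [hω] at h
    have r1 := congrArg Zsqrtd.re h
    have r2 := congrArg Zsqrtd.im h
    simp at r1 r2
    exact ⟨r1, r2⟩
  rcases Nat.even_or_odd m with ⟨j, hj⟩ | ⟨j, hj⟩
  · have hωm : ω ^ m = ((-1 : ℤ) ^ j : ℤ) := by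
      rw [hj, ← two_mul, pow_mul, hω2']
      simp
    rcases neg_one_pow_eq_or ℤ j with hs | hs
    · left
      rw [hωm, hs] at h3
      have h4 : ((2 ^ m * A : ℤ) : GaussianInt) + ω * ((2 ^ m * B : ℤ) : GaussianInt) =
          (X : GaussianInt) + ω * Y := by
        rw [← h3]
        push_cast
        ring
      obtain ⟨g1, g2⟩ := hread _ _ _ _ h4
      exact ⟨g1.symm, g2.symm⟩
    · right; left
      rw [hωm, hs] at h3
      have h4 : ((-(2 ^ m * A) : ℤ) : GaussianInt) + ω * ((-(2 ^ m * B) : ℤ) : GaussianInt) =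
          (X : GaussianInt) + ω * Y := by
        rw [← h3]
        push_cast
        ring
      obtain ⟨g1, g2⟩ := hread _ _ _ _ h4
      exact ⟨g1.symm, g2.symm⟩
  · have hωm : ω ^ m = ((-1 : ℤ) ^ j : ℤ) * ω := by
      rw [hj, pow_succ, pow_mul, hω2']
      simp
    rcases neg_one_pow_eq_or ℤ j with hs | hs
    · right; right; left
      rw [hωm, hs] at h3
      have h4 : ((-(2 ^ m * B) : ℤ) : GaussianInt) + ω * ((2 ^ m * A : ℤ) : GaussianInt) =
          (X : GaussianInt) + ω * Y := by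
        rw [← h3]
        push_cast
        linear_combination (-(2 ^ m * (B : GaussianInt))) * hω2'
      obtain ⟨g1, g2⟩ := hread _ _ _ _ h4
      exact ⟨g1.symm, g2.symm⟩
    · right; right; right
      rw [hωm, hs] at h3
      have h4 : ((2 ^ m * B : ℤ) : GaussianInt) + ω * ((-(2 ^ m * A) : ℤ) : GaussianInt) =
          (X : GaussianInt) + ω * Y := by
        rw [← h3]
        push_cast
        linear_combination (2 ^ m * (B : GaussianInt)) * hω2'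
      obtain ⟨g1, g2⟩ := hread _ _ _ _ h4
      exact ⟨g1.symm, g2.symm⟩

lemma not_dvd_two_pow (m k : ℕ) (hm : 1 ≤ m) (hp : (2 * m + 1).Prime) :
    ¬ (2 * m + 1) ∣ 2 ^ k := by
  intro h
  have h3 := hp.dvd_of_dvd_pow h
  have := Nat.le_of_dvd (by norm_num) h3
  omega

/-- no solution of `x^{2s} + y² = z^{2p}` with `x` odd, `p ∣ x` -/
theorem mid_odd (m : ℕ) (hm : 1 ≤ m) (hp : (2 * m + 1).Prime) (s q : ℕ) (hsp : s.Prime)
    (hs2 : 2 < s) (hq : q.Prime) (hqm : 2 * m + 1 < q) (hsq : s ∣ q - 1)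
    (hnb : ¬ BadK (-1) m (2 ^ m) q ((q - 1) / s)) (x y z : ℤ) (hx : Odd x)
    (hpx : ((2 * m + 1 : ℕ) : ℤ) ∣ x) (hco : IsCoprime x y) :
    x ^ (2 * s) + y ^ 2 ≠ z ^ (2 * (2 * m + 1)) := by
  intro heq
  apply hnb
  have hs0 : s ≠ 0 := by omega
  have hsodd : Odd s := hsp.odd_of_ne_two (by omega)
  have hpp : Prime ((2 * m + 1 : ℕ) : ℤ) := Nat.prime_iff_prime_int.mp hp
  have hx0 : x ≠ 0 := by
    rintro rfl
    exact (by decide : ¬ Odd (0 : ℤ)) hx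
  obtain ⟨z', hz', hzz⟩ : ∃ z' : ℤ, 0 ≤ z' ∧ z' ^ (2 * (2 * m + 1)) = x ^ (2 * s) + y ^ 2 :=
    ⟨|z|, abs_nonneg z, by rw [pow_mul, sq_abs, ← pow_mul, heq]⟩
  obtain ⟨Z, hZ⟩ : ∃ Z : ℤ, Z = z' ^ (2 * m + 1) := ⟨_, rfl⟩
  have hZ0 : 0 ≤ Z := by rw [hZ]; positivity
  have hZZ : Z ^ 2 = (x ^ s) ^ 2 + y ^ 2 := by
    have e1 : Z ^ 2 = z' ^ (2 * (2 * m + 1)) := by rw [hZ]; ring
    have e2 : (x ^ s) ^ 2 = x ^ (2 * s) := by ring
    rw [e1, e2, hzz]
  -- `y` is even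
  have hye : Even y := by
    by_contra hcon
    rw [Int.not_even_iff_odd] at hcon
    obtain ⟨a, ha⟩ := hx.pow (n := s)
    obtain ⟨b, hb⟩ := hcon
    have h1 : Z ^ 2 = 4 * (a ^ 2 + a + b ^ 2 + b) + 2 := by rw [hZZ, ha, hb]; ring
    rcases Int.even_or_odd Z with ⟨c, hc⟩ | ⟨c, hc⟩
    · have h2 : Z ^ 2 = 4 * c ^ 2 := by rw [hc]; ring
      omega
    · have h2 : Z ^ 2 = 4 * (c ^ 2 + c) + 1 := by rw [hc]; ring
      omega
  have hZo : Odd Z := by
    have h1 : Odd (Z ^ 2) := by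
      rw [hZZ]
      exact (hx.pow.pow).add_even (hye.pow_of_ne_zero two_ne_zero)
    by_contra hcon
    rw [Int.not_odd_iff_even] at hcon
    exact (Int.not_even_iff_odd.mpr h1) (hcon.pow_of_ne_zero (by omega))
  have hprod : (Z - y) * (Z + y) = x ^ (2 * s) := by
    have : (x ^ s) ^ 2 = x ^ (2 * s) := by ring
    rw [← this]
    linear_combination hZZ
  have hpos : 0 < x ^ (2 * s) := by
    rw [pow_mul]
    positivity
  have hA0 : 0 < Z - y := by
    by_contra hcon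
    push Not at hcon
    have : 0 ≤ Z + y := by linarith
    nlinarith
  have hB0 : 0 < Z + y := by
    by_contra hcon
    push Not at hcon
    nlinarith
  have hZy : IsCoprime Z y := by
    have h1 : IsCoprime (Z ^ 2) y := by
      rw [hZZ]
      have : (x ^ s) ^ 2 + y ^ 2 = (x ^ s) ^ 2 + y * y := by ring
      rw [this]
      exact (IsCoprime.pow_left hco.pow_left).add_mul_left_left y
    exact (IsCoprime.pow_left_iff two_pos).mp h1
  have hcc := cop_diff_sum hZy (hZo.sub_even hye)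
  obtain ⟨⟨r, hr⟩, t, ht⟩ := pow_of_mul hA0.le hB0.le hcc hprod
  have hA : Z - y = (r ^ s) ^ 2 := by rw [hr]; ring
  have hB : Z + y = (t ^ s) ^ 2 := by rw [ht]; ring
  have hro : Odd (r ^ s) := by
    have h1 : Odd (Z - y) := hZo.sub_even hye
    rw [hA] at h1
    by_contra hcon
    rw [Int.not_odd_iff_even] at hcon
    exact (Int.not_even_iff_odd.mpr h1) (hcon.pow_of_ne_zero (by omega))
  have hto : Odd (t ^ s) := by
    have h1 : Odd (Z + y) := hZo.add_even hye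
    rw [hB] at h1
    by_contra hcon
    rw [Int.not_odd_iff_even] at hcon
    exact (Int.not_even_iff_odd.mpr h1) (hcon.pow_of_ne_zero (by omega))
  obtain ⟨C, hC⟩ := hro.add_odd hto
  obtain ⟨D, hD⟩ := hto.sub_odd hro
  have hCA : r ^ s = C - D := by linarith
  have hCB : t ^ s = C + D := by linarith
  have hCDz : C ^ 2 + D ^ 2 = z' ^ (2 * m + 1) := by
    have h1 : (r ^ s) ^ 2 + (t ^ s) ^ 2 = 2 * Z := by linarith
    rw [hCA, hCB] at h1
    rw [← hZ]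
    linarith
  have hrt : IsCoprime (r ^ s) (t ^ s) := by
    rw [hA, hB] at hcc
    exact (IsCoprime.pow_iff (by norm_num) (by norm_num)).mp hcc
  have hCD : IsCoprime C D := by
    rw [hCA, hCB] at hrt
    obtain ⟨a, b, hab⟩ := hrt
    exact ⟨a + b, b - a, by linarith⟩
  obtain ⟨u, v, hu, hv⟩ := gauss C D z' m hm hCD hCDz
  have hpar : Odd (u - v) := by
    by_contra hcon
    rw [Int.not_odd_iff_even] at hcon
    have h1 : Even (u ^ 2 + (-1) * v ^ 2) := by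
      have : u ^ 2 + (-1) * v ^ 2 = (u - v) * (u + v) := by ring
      rw [this]
      exact hcon.mul_right _
    have h2 : Even ((u ^ 2 + (-1) * v ^ 2) ^ m) := h1.pow_of_ne_zero (by omega)
    obtain ⟨h3, h4⟩ := FG_par (-1) u v m
    have h5 : Even (Fh (-1) u v m) := by
      have := h3.add h2
      rwa [sub_add_cancel] at this
    have h6 : Even (Gh (-1) u v m) := by
      have := h4.add h2
      rwa [sub_add_cancel] at this
    have h7 : Even C := by rw [hu]; exact h5.mul_left _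
    have h8 : Even D := by rw [hv]; exact h6.mul_left _
    have h9 : Even (t ^ s) := by rw [hCB]; exact h7.add h8
    exact (Int.not_even_iff_odd.mpr hto) h9
  have hpar2 : Odd (u + v) := by
    have : u + v = (u - v) + 2 * v := by ring
    rw [this]
    exact hpar.add_even (even_two_mul _)
  have huv0 : IsCoprime u v := by
    rw [hu, hv] at hCD
    exact hCD.of_mul_left_left.of_mul_right_left
  have huv : IsCoprime (u - v) (u + v) := cop_diff_sum huv0 hpar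
  have hodd2 : ∀ w : ℤ, Odd w → IsCoprime ((2 : ℤ) ^ m) w := by
    rintro w ⟨k, hk⟩
    apply IsCoprime.pow_left
    exact ⟨-k, 1, by rw [hk]; ring⟩
  have h2m : ((2 : ℤ) ^ m) ≠ 0 := pow_ne_zero _ two_ne_zero
  have hprt : ((2 * m + 1 : ℕ) : ℤ) ∣ r ∨ ((2 * m + 1 : ℕ) : ℤ) ∣ t := by
    have h1 : ((2 * m + 1 : ℕ) : ℤ) ∣ r ^ (2 * s) * t ^ (2 * s) := by
      rw [← hr, ← ht, hprod]
      exact dvd_pow hpx (by omega)
    rcases hpp.dvd_or_dvd h1 with h | h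
    · left; exact hpp.dvd_of_dvd_pow h
    · right; exact hpp.dvd_of_dvd_pow h
  -- finish from `U F = ±2^m α^s`, `V G = ±2^m β^s`
  have fin : ∀ α β : ℤ, (u - v) * Fh (-1) (u - v) (u + v) m = 2 ^ m * α ^ s →
      (u + v) * Gh (-1) (u - v) (u + v) m = 2 ^ m * β ^ s →
      (((2 * m + 1 : ℕ) : ℤ) ∣ α ∨ ((2 * m + 1 : ℕ) : ℤ) ∣ β) →
      BadK (-1) m (2 ^ m) q ((q - 1) / s) := by
    intro α β h1 h2 h3
    obtain ⟨F', hF'⟩ : (2 : ℤ) ^ m ∣ Fh (-1) (u - v) (u + v) m := by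
      apply (hodd2 _ hpar).dvd_of_dvd_mul_left
      rw [h1]
      exact dvd_mul_right _ _
    obtain ⟨G', hG'⟩ : (2 : ℤ) ^ m ∣ Gh (-1) (u - v) (u + v) m := by
      apply (hodd2 _ hpar2).dvd_of_dvd_mul_left
      rw [h2]
      exact dvd_mul_right _ _
    refine odd_local (-1) rfl m (2 ^ m) hm hp (pow_ne_zero _ two_ne_zero)
      (not_dvd_two_pow m m hm hp) s q hsp hs2 hq hqm hsq (u - v) (u + v) F' G' α β huv
      (by push_cast; exact hF') (by push_cast; exact hG') ?_ ?_ h3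
    · apply mul_left_cancel₀ h2m
      rw [← h1, hF']
      ring
    · apply mul_left_cancel₀ h2m
      rw [← h2, hG']
      ring
  have hneg : ∀ w : ℤ, -(2 ^ m * w ^ s) = 2 ^ m * (-w) ^ s := by
    intro w
    rw [hsodd.neg_pow]
    ring
  rcases twist u v (r ^ s) (t ^ s) m (by rw [← hu, ← hv]; exact hCA.symm)
    (by rw [← hu, ← hv]; exact hCB.symm) with ⟨g1, g2⟩ | ⟨g1, g2⟩ | ⟨g1, g2⟩ | ⟨g1, g2⟩
  · exact fin r t g1 g2 hprt
  · rw [hneg] at g1 g2
    exact fin (-r) (-t) g1 g2 (by rw [dvd_neg, dvd_neg]; exact hprt)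
  · rw [hneg] at g1
    exact fin (-t) r g1 g2 (by rw [dvd_neg]; exact hprt.symm)
  · rw [hneg] at g2
    exact fin t (-r) g1 g2 (by rw [dvd_neg]; exact hprt.symm)

end Pool.Agent.H573.AHB
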