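import Pool.Agent.H573.AHB.Count

/-!
The forms `F_m, G_m` with `(u + ω v)^{2m+1} = u F_m(u,v) + ω v G_m(u,v)`, `ω² = δ`.
-/

namespace Pool.Agent.H573.AHB

open Polynomial

/-- The pair `(F_m, G_m)`. -/
def FG {R : Type*} [CommRing R] (δ u v : R) : ℕ → R × R
  | 0 => (1, 1)
  | m + 1 => ((FG δ u v m).1 * (u ^ 2 + δ * v ^ 2) + 2 * (δ * v ^ 2) * (FG δ u v m).2,
      (FG δ u v m).2 * (u ^ 2 + δ * v ^ 2) + 2 * u ^ 2 * (FG δ u v m).1)

/-- The form `F_m`. -/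
def Fh {R : Type*} [CommRing R] (δ u v : R) (m : ℕ) : R := (FG δ u v m).1

/-- The form `G_m`. -/
def Gh {R : Type*} [CommRing R] (δ u v : R) (m : ℕ) : R := (FG δ u v m).2

section
variable {R S : Type*} [CommRing R] [CommRing S]

@[simp] lemma Fh_zero (δ u v : R) : Fh δ u v 0 = 1 := rfl
@[simp] lemma Gh_zero (δ u v : R) : Gh δ u v 0 = 1 := rfl
lemma Fh_succ (δ u v : R) (m : ℕ) : Fh δ u v (m + 1) =
    Fh δ u v m * (u ^ 2 + δ * v ^ 2) + 2 * (δ * v ^ 2) * Gh δ u v m := rfl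
lemma Gh_succ (δ u v : R) (m : ℕ) : Gh δ u v (m + 1) =
    Gh δ u v m * (u ^ 2 + δ * v ^ 2) + 2 * u ^ 2 * Fh δ u v m := rfl

lemma map_FGh (ψ : R →+* S) (δ u v : R) (m : ℕ) :
    ψ (Fh δ u v m) = Fh (ψ δ) (ψ u) (ψ v) m ∧ ψ (Gh δ u v m) = Gh (ψ δ) (ψ u) (ψ v) m := by
  induction m with
  | zero => simp
  | succ m ih =>
    rw [Fh_succ, Gh_succ, Fh_succ, Gh_succ]
    simp only [map_add, map_mul, map_pow, ih.1, ih.2, map_ofNat, and_self]

lemma hom_FG (δ u v w : R) (m : ℕ) :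
    Fh δ (w * u) (w * v) m = w ^ (2 * m) * Fh δ u v m ∧
    Gh δ (w * u) (w * v) m = w ^ (2 * m) * Gh δ u v m := by
  induction m with
  | zero => simp
  | succ m ih =>
    rw [Fh_succ, Gh_succ, Fh_succ, Gh_succ, ih.1, ih.2]
    constructor <;> ring

lemma pow_FG {δ ω : R} (hω : ω ^ 2 = δ) (u v : R) (m : ℕ) :
    (u + ω * v) ^ (2 * m + 1) = u * Fh δ u v m + ω * v * Gh δ u v m := by
  subst hω
  induction m with
  | zero => simp
  | succ m ih =>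
    have h : (u + ω * v) ^ (2 * (m + 1) + 1) = (u + ω * v) ^ (2 * m + 1) * (u + ω * v) ^ 2 := by ring
    rw [h, ih, Fh_succ, Gh_succ]
    ring

lemma FG_neg (δ u v : R) (m : ℕ) : Fh δ u (-v) m = Fh δ u v m ∧ Gh δ u (-v) m = Gh δ u v m := by
  induction m with
  | zero => simp
  | succ m ih =>
    rw [Fh_succ, Gh_succ, Fh_succ, Gh_succ, ih.1, ih.2]
    constructor <;> ring

lemma pow_FG' {δ ω : R} (hω : ω ^ 2 = δ) (u v : R) (m : ℕ) :
    (u - ω * v) ^ (2 * m + 1) = u * Fh δ u v m - ω * v * Gh δ u v m := by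
  have h := pow_FG hω u (-v) m
  rw [(FG_neg δ u v m).1, (FG_neg δ u v m).2] at h
  rw [← sub_eq_zero] at h ⊢
  rw [← h]
  ring

lemma FG_u0 (δ v : R) (m : ℕ) : Fh δ 0 v m = (2 * m + 1) * (δ * v ^ 2) ^ m ∧
    Gh δ 0 v m = (δ * v ^ 2) ^ m := by
  induction m with
  | zero => simp
  | succ m ih =>
    rw [Fh_succ, Gh_succ, ih.1, ih.2]
    push_cast
    constructor <;> ring

lemma FG_v0 (δ u : R) (m : ℕ) : Fh δ u 0 m = u ^ (2 * m) ∧
    Gh δ u 0 m = (2 * m + 1) * u ^ (2 * m) := by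
  induction m with
  | zero => simp
  | succ m ih =>
    rw [Fh_succ, Gh_succ, ih.1, ih.2]
    push_cast
    constructor <;> ring

/-- congruences of the forms -/
lemma FG_mod_u (δ u v : R) (m : ℕ) : u ∣ Fh δ u v m - (2 * m + 1) * (δ * v ^ 2) ^ m := by
  induction m with
  | zero => simp
  | succ m ih =>
    have ih2 : u ∣ Gh δ u v m - (δ * v ^ 2) ^ m := by
      clear ih
      induction m with
      | zero => simp
      | succ m ih' =>
        obtain ⟨k, hk⟩ := ih'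
        refine ⟨k * (u ^ 2 + δ * v ^ 2) + u * (δ * v ^ 2) ^ m + 2 * u * Fh δ u v m, ?_⟩
        rw [Gh_succ, sub_eq_iff_eq_add.mp hk]
        ring
    obtain ⟨k, hk⟩ := ih
    obtain ⟨l, hl⟩ := ih2
    refine ⟨k * (u ^ 2 + δ * v ^ 2) + u * ((2 * m + 1) * (δ * v ^ 2) ^ m) + 2 * (δ * v ^ 2) * l, ?_⟩
    rw [Fh_succ, sub_eq_iff_eq_add.mp hk, sub_eq_iff_eq_add.mp hl]
    push_cast
    ring

lemma FG_mod_v (δ u v : R) (m : ℕ) : v ∣ Gh δ u v m - (2 * m + 1) * u ^ (2 * m) := by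
  induction m with
  | zero => simp
  | succ m ih =>
    have ih2 : v ∣ Fh δ u v m - u ^ (2 * m) := by
      clear ih
      induction m with
      | zero => simp
      | succ m ih' =>
        obtain ⟨k, hk⟩ := ih'
        refine ⟨k * (u ^ 2 + δ * v ^ 2) + δ * v * u ^ (2 * m) + 2 * (δ * v) * Gh δ u v m, ?_⟩
        rw [Fh_succ, sub_eq_iff_eq_add.mp hk]
        ring
    obtain ⟨k, hk⟩ := ih
    obtain ⟨l, hl⟩ := ih2
    refine ⟨k * (u ^ 2 + δ * v ^ 2) + δ * v * ((2 * m + 1) * u ^ (2 * m)) + 2 * u ^ 2 * l, ?_⟩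
    rw [Gh_succ, sub_eq_iff_eq_add.mp hk, sub_eq_iff_eq_add.mp hl]
    push_cast
    ring

end

/-- The polynomial `f_m = F_m(1, X)`. -/
noncomputable def fp (δ : ℤ) (m : ℕ) : ℤ[X] := Fh (C δ) 1 X m

/-- The polynomial `g_m = G_m(1, X)`. -/
noncomputable def gp (δ : ℤ) (m : ℕ) : ℤ[X] := Gh (C δ) 1 X m

lemma aeval_fp {A : Type*} [CommRing A] (t : A) (δ : ℤ) (m : ℕ) :
    aeval t (fp δ m) = Fh (δ : A) 1 t m := by
  unfold fp
  have h := (map_FGh (aeval t : ℤ[X] →ₐ[ℤ] A).toRingHom (C δ) 1 X m).1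
  simp only [AlgHom.toRingHom_eq_coe, RingHom.coe_coe, aeval_X, map_one, aeval_C] at h
  rw [h]
  congr 1

lemma aeval_gp {A : Type*} [CommRing A] (t : A) (δ : ℤ) (m : ℕ) :
    aeval t (gp δ m) = Gh (δ : A) 1 t m := by
  unfold gp
  have h := (map_FGh (aeval t : ℤ[X] →ₐ[ℤ] A).toRingHom (C δ) 1 X m).2
  simp only [AlgHom.toRingHom_eq_coe, RingHom.coe_coe, aeval_X, map_one, aeval_C] at h
  rw [h]
  congr 1

lemma fgp_deg (δ : ℤ) (m : ℕ) : (fp δ m).natDegree ≤ 2 * m ∧ (gp δ m).natDegree ≤ 2 * m ∧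
    (fp δ m).coeff (2 * m) = (2 * m + 1) * δ ^ m ∧ (gp δ m).coeff (2 * m) = δ ^ m := by
  induction m with
  | zero => simp [fp, gp]
  | succ m ih =>
    obtain ⟨h1, h2, h3, h4⟩ := ih
    have e1 : fp δ (m + 1) = fp δ m + C δ * (fp δ m * X ^ 2) + C (2 * δ) * (gp δ m * X ^ 2) := by
      unfold fp gp
      rw [Fh_succ, C_mul]
      have : (C (2 : ℤ) : ℤ[X]) = 2 := rfl
      rw [this]
      ring
    have e2 : gp δ (m + 1) = gp δ m + C δ * (gp δ m * X ^ 2) + C 2 * fp δ m := by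
      unfold fp gp
      rw [Gh_succ]
      have : (C (2 : ℤ) : ℤ[X]) = 2 := rfl
      rw [this]
      ring
    have d1 : (fp δ m * X ^ 2).natDegree ≤ 2 * (m + 1) := by
      refine (natDegree_mul_le).trans ?_
      rw [natDegree_X_pow]
      omega
    have d2 : (gp δ m * X ^ 2).natDegree ≤ 2 * (m + 1) := by
      refine (natDegree_mul_le).trans ?_
      rw [natDegree_X_pow]
      omega
    have c1 : (fp δ m * X ^ 2).coeff (2 * (m + 1)) = (2 * m + 1) * δ ^ m := by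
      have : 2 * (m + 1) = 2 * m + 2 := by ring
      rw [this, coeff_mul_X_pow, h3]
    have c2 : (gp δ m * X ^ 2).coeff (2 * (m + 1)) = δ ^ m := by
      have : 2 * (m + 1) = 2 * m + 2 := by ring
      rw [this, coeff_mul_X_pow, h4]
    have z1 : (fp δ m).coeff (2 * (m + 1)) = 0 := coeff_eq_zero_of_natDegree_lt (by omega)
    have z2 : (gp δ m).coeff (2 * (m + 1)) = 0 := coeff_eq_zero_of_natDegree_lt (by omega)
    refine ⟨?_, ?_, ?_, ?_⟩
    · rw [e1]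
      refine (natDegree_add_le _ _).trans (max_le ((natDegree_add_le _ _).trans (max_le ?_ ?_)) ?_)
      · omega
      · exact (natDegree_C_mul_le _ _).trans d1
      · exact (natDegree_C_mul_le _ _).trans d2
    · rw [e2]
      refine (natDegree_add_le _ _).trans (max_le ((natDegree_add_le _ _).trans (max_le ?_ ?_)) ?_)
      · omega
      · exact (natDegree_C_mul_le _ _).trans d2
      · refine (natDegree_C_mul_le _ _).trans ?_
        omega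
    · rw [e1, coeff_add, coeff_add, coeff_C_mul, coeff_C_mul, c1, c2, z1]
      push_cast
      ring
    · rw [e2, coeff_add, coeff_add, coeff_C_mul, coeff_C_mul, c2, z1, z2]
      push_cast
      ring

/-- `f_m` and `g_m` have no common root in a field of characteristic not two. -/
lemma no_common {K : Type*} [Field K] [IsAlgClosed K] (h2 : (2 : K) ≠ 0) (δ z : K) (m : ℕ)
    (hf : Fh δ 1 z m = 0) : Gh δ 1 z m ≠ 0 := by
  intro hg
  obtain ⟨ω, hω⟩ := IsAlgClosed.exists_pow_nat_eq δ (n := 2) (by norm_num)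
  have h3 := pow_FG hω 1 z m
  have h4 := pow_FG' hω 1 z m
  rw [hf, hg] at h3 h4
  simp only [mul_zero, add_zero, sub_zero] at h3 h4
  have h5 := pow_eq_zero_iff (by omega) |>.mp h3
  have h6 := pow_eq_zero_iff (by omega) |>.mp h4
  apply h2
  linear_combination h5 + h6

/-- The power mean inequality for the forms. -/
lemma power_mean (δ : ℤ) (z : ℂ) (m : ℕ) :
    (1 + |(δ : ℝ)| * ‖z‖ ^ 2) ^ (2 * m + 1) ≤
      ‖Fh (δ : ℂ) 1 z m‖ ^ 2 + |(δ : ℝ)| * ‖z‖ ^ 2 * ‖Gh (δ : ℂ) 1 z m‖ ^ 2 := by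
  obtain ⟨ω, hω⟩ := IsAlgClosed.exists_pow_nat_eq (δ : ℂ) (n := 2) (by norm_num)
  have hωn : ‖ω‖ ^ 2 = |(δ : ℝ)| := by
    rw [← norm_pow, hω, Complex.norm_intCast]
  have h3 := pow_FG hω 1 z m
  have h4 := pow_FG' hω 1 z m
  rw [one_mul] at h3 h4
  have par : ∀ a b : ℂ, ‖a + b‖ ^ 2 + ‖a - b‖ ^ 2 = 2 * (‖a‖ ^ 2 + ‖b‖ ^ 2) := by
    intro a b
    have := parallelogram_law_with_norm ℝ a b
    nlinarith
  have hAB := par 1 (ω * z)
  have hFG := par (Fh (δ : ℂ) 1 z m) (ω * z * Gh (δ : ℂ) 1 z m)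
  rw [← h3, ← h4, norm_pow, norm_pow] at hFG
  rw [norm_mul, norm_mul, mul_pow, mul_pow, hωn] at hFG
  rw [norm_mul, mul_pow, hωn, norm_one, one_pow] at hAB
  have key := add_pow_le (a := ‖1 + ω * z‖ ^ 2) (b := ‖1 - ω * z‖ ^ 2) (by positivity) (by positivity)
    (2 * m + 1)
  rw [hAB, ← pow_mul, ← pow_mul, mul_comm 2 (2 * m + 1), pow_mul, pow_mul, hFG, mul_pow,
    Nat.add_sub_cancel] at key
  have h5 : (2 : ℝ) ^ (2 * m + 1) = 2 ^ (2 * m) * 2 := pow_succ _ _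
  rw [h5] at key
  have h6 : (0 : ℝ) < 2 ^ (2 * m) * 2 := by positivity
  have h7 : 2 ^ (2 * m) * 2 * (1 + |(δ : ℝ)| * ‖z‖ ^ 2) ^ (2 * m + 1) ≤
      2 ^ (2 * m) * 2 * (‖Fh (δ : ℂ) 1 z m‖ ^ 2 + |(δ : ℝ)| * ‖z‖ ^ 2 * ‖Gh (δ : ℂ) 1 z m‖ ^ 2) := by
    linarith
  exact le_of_mul_le_mul_left h7 h6

end Pool.Agent.H573.AHB
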