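import Pool.Agent.H573.AHB.Core2

/-!
Roots of one polynomial against powers of another one; a valuation of `ℂ` over a prime `p`.
-/

namespace Pool.Agent.H573.AHB

open Polynomial

lemma L1_G (g : ℤ[X]) (β : ℕ) (n : ℕ) :
    L1 (g ^ n - C (β : ℤ) ^ n) ≤ 2 * (L1 g + β) ^ n := by
  refine (L1_sub _ _).trans ?_
  have e1 : L1 (g ^ n) ≤ (L1 g) ^ n := L1_pow g n
  have e2 : L1 (C (β : ℤ) ^ n) ≤ (β : ℝ) ^ n := by
    have h := L1_pow (C (β : ℤ)) n
    have e3 : L1 (C (β : ℤ)) = β := by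
      rw [← monomial_zero_left, L1_monomial]
      simp
    rwa [e3] at h
  have hg := L1_nonneg g
  have e3 : (L1 g) ^ n ≤ (L1 g + β) ^ n :=
    pow_le_pow_left₀ hg (by linarith [Nat.cast_nonneg (α := ℝ) β]) n
  have e4 : (β : ℝ) ^ n ≤ (L1 g + β) ^ n :=
    pow_le_pow_left₀ (Nat.cast_nonneg _) (by linarith) n
  linarith

lemma cntG (f : ℤ[X]) (hf : f ≠ 0) (hf1 : ∀ q : ℕ, q.Prime → ¬ C (q : ℤ) ∣ f) (g : ℤ[X]) (β : ℕ)
    (hβ : 1 ≤ β)
    (hN : ∀ n : ℕ, 1 ≤ n → ∀ z : ℂ, aeval z f = 0 → (aeval z g) ^ n ≠ (β : ℂ) ^ n) :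
    ∃ C' : ℝ, 0 ≤ C' ∧ ∀ K : ℕ, ∀ Q : Finset ℕ, (∀ q ∈ Q, q.Prime ∧ ∃ n, 1 ≤ n ∧ n ≤ K ∧
      ∃ t : ZMod q, aeval t f = 0 ∧ (aeval t g) ^ n = (β : ZMod q) ^ n) →
    (Q.card : ℝ) ≤ C' * K ^ 2 := by
  classical
  have hl2 : 0 < Real.log 2 := Real.log_pos (by norm_num)
  have hg0 := L1_nonneg g
  obtain ⟨α, hα⟩ : ∃ α : ℝ, α = L1 g := ⟨_, rfl⟩
  rw [← hα] at hg0
  have hα0 : 0 ≤ α := hg0
  obtain ⟨dg, hdg⟩ : ∃ dg : ℕ, dg = g.natDegree + 1 := ⟨_, rfl⟩
  have hβr : (1 : ℝ) ≤ β := by exact_mod_cast hβ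
  set W : ℝ := Real.log (2 * (α + β)) + dg with hW
  have hlW : 0 ≤ Real.log (2 * ((α : ℝ) + β)) := Real.log_nonneg (by linarith)
  have hdg1 : (1 : ℝ) ≤ dg := by
    rw [hdg]
    push_cast
    linarith [Nat.cast_nonneg (α := ℝ) g.natDegree]
  have hW1 : 0 ≤ W := by linarith
  set Fs := (UniqueFactorizationMonoid.factors f).toFinset with hFs
  have hszs : 0 ≤ sz f := sz_nonneg hf
  refine ⟨W * sz f / Real.log 2, by positivity, ?_⟩
  intro K Q hQ
  set P : ℕ → ℤ[X] := fun n => g ^ n - C (β : ℤ) ^ n with hP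
  have hPt : ∀ n q : ℕ, ∀ t : ZMod q, aeval t (P n) = (aeval t g) ^ n - (β : ZMod q) ^ n := by
    intro n q t
    simp [hP]
  set QN : ℕ → ℤ[X] → Finset ℕ := fun n D => Q.filter fun q =>
    D.natDegree ≠ 0 ∧ ∃ t : ZMod q, aeval t D = 0 ∧ aeval t (P n) = 0 with hQN
  have hcov : Q ⊆ (Finset.Icc 1 K).biUnion fun n => Fs.biUnion fun D => QN n D := by
    intro q hq
    obtain ⟨hqp, n, h1, h2, t, h3, h4⟩ := hQ q hq
    have hF : Fact q.Prime := ⟨hqp⟩
    rw [Finset.mem_biUnion]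
    refine ⟨n, Finset.mem_Icc.mpr ⟨h1, h2⟩, ?_⟩
    obtain ⟨w, hw⟩ := UniqueFactorizationMonoid.factors_prod hf
    have h5 : aeval t (UniqueFactorizationMonoid.factors f).prod = 0 := by
      have h6 := congrArg (aeval t) hw
      rw [map_mul, h3, mul_eq_zero] at h6
      rcases h6 with h6 | h6
      · exact h6
      · exfalso
        have h7 : IsUnit (aeval t (w : ℤ[X])) := w.isUnit.map (aeval t)
        rw [h6] at h7
        exact not_isUnit_zero h7
    rw [map_multiset_prod, Multiset.prod_eq_zero_iff, Multiset.mem_map] at h5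
    obtain ⟨D, hD, hDt⟩ := h5
    rw [Finset.mem_biUnion]
    refine ⟨D, Multiset.mem_toFinset.mpr hD, Finset.mem_filter.mpr ⟨hq, ?_, t, hDt, ?_⟩⟩
    · intro hdeg
      rw [natDegree_eq_zero] at hdeg
      obtain ⟨b, hc⟩ := hdeg
      rw [← hc, aeval_C] at hDt
      have hqc : (q : ℤ) ∣ b := by
        rw [← ZMod.intCast_zmod_eq_zero_iff_dvd]
        simpa using hDt
      apply hf1 q hqp
      have hdvd := UniqueFactorizationMonoid.dvd_of_mem_factors hD
      refine dvd_trans ?_ hdvd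
      rw [← hc]
      exact map_dvd (C : ℤ →+* ℤ[X]) hqc
    · rw [hPt, h4, sub_self]
  have hone : ∀ n ∈ Finset.Icc 1 K, ∀ D ∈ Fs,
      ((QN n D).card : ℝ) ≤ W * K / Real.log 2 * sz D := by
    intro n hn D hD
    rw [Finset.mem_Icc] at hn
    rw [hFs, Multiset.mem_toFinset] at hD
    have hirr := UniqueFactorizationMonoid.irreducible_of_factor D hD
    have hsz := sz_nonneg hirr.ne_zero
    rcases (QN n D).eq_empty_or_nonempty with he | ⟨q1, hq1⟩
    · rw [he]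
      simp only [Finset.card_empty, Nat.cast_zero]
      positivity
    obtain ⟨-, hDdeg, -⟩ := Finset.mem_filter.mp hq1
    have hnd : ¬ D ∣ P n := by
      rintro ⟨E, hE⟩
      obtain ⟨z, hz⟩ := exists_complex_root hDdeg
      have h1 : aeval z f = 0 := by
        obtain ⟨E', hE'⟩ := UniqueFactorizationMonoid.dvd_of_mem_factors hD
        rw [hE', map_mul, hz, zero_mul]
      have h2 : aeval z (P n) = 0 := by rw [hE, map_mul, hz, zero_mul]
      apply hN n hn.1 z h1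
      have h3 : aeval z (P n) = (aeval z g) ^ n - (β : ℂ) ^ n := by simp [hP]
      rw [h3, sub_eq_zero] at h2
      exact h2
    have hdegP : (P n).natDegree ≤ n * dg := by
      refine (natDegree_sub_le _ _).trans (max_le ?_ ?_)
      · refine natDegree_pow_le.trans ?_
        rw [hdg]
        exact Nat.mul_le_mul_left _ (by omega)
      · rw [← C_pow, natDegree_C]
        exact Nat.zero_le _
    obtain ⟨r, hr0, hrle, hrd⟩ := res_bound hirr hDdeg hnd hdegP (L1_G g β n)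
    have h1 := card_primes_dvd (QN n D) (fun q hq => (hQ q (Finset.mem_filter.mp hq).1).1) hr0 (by
      intro q hq
      obtain ⟨-, -, t, ht1, ht2⟩ := Finset.mem_filter.mp hq
      exact hrd q t ht1 ht2)
    have hMm := one_le_Mm hirr.ne_zero
    have hlogM := Real.log_nonneg hMm
    rw [← hα] at hrle
    have h2 : Real.log |(r : ℝ)| ≤ Real.log ((2 * ((α : ℝ) + β) ^ n) ^ D.natDegree * Mm D ^ (n * dg)) := by
      apply Real.log_le_log _ hrle
      rw [abs_pos]
      exact_mod_cast hr0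
    rw [Real.log_mul (by positivity) (by positivity), Real.log_pow, Real.log_pow] at h2
    have h3 := log_two_mul_pow_le (show (1 : ℝ) ≤ (α : ℝ) + β by linarith) hn.1
    have hnK : (n : ℝ) ≤ K := by exact_mod_cast hn.2
    have hn0 : (0 : ℝ) ≤ n := Nat.cast_nonneg n
    have hdd : (0 : ℝ) ≤ (D.natDegree : ℝ) := Nat.cast_nonneg _
    have h4 : (D.natDegree : ℝ) * Real.log (2 * ((α : ℝ) + β) ^ n) ≤
        D.natDegree * (n * Real.log (2 * ((α : ℝ) + β))) := mul_le_mul_of_nonneg_left h3 hdd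
    have h5 : (D.natDegree : ℝ) * (n * Real.log (2 * ((α : ℝ) + β))) + (n * dg : ℕ) *
        Real.log (Mm D) ≤ n * (W * sz D) := by
      unfold sz
      rw [hW]
      push_cast
      nlinarith [mul_nonneg hn0 (mul_nonneg hlW hlogM), mul_nonneg hn0 (mul_nonneg
        (by linarith : (0 : ℝ) ≤ dg) hdd)]
    have h6 : (n : ℝ) * (W * sz D) ≤ K * (W * sz D) :=
      mul_le_mul_of_nonneg_right hnK (by positivity)
    rw [div_mul_eq_mul_div, le_div_iff₀ hl2]
    linarith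
  have h1 : (Q.card : ℝ) ≤ ∑ n ∈ Finset.Icc 1 K, ∑ D ∈ Fs, ((QN n D).card : ℝ) := by
    have h2 := (Finset.card_le_card hcov).trans Finset.card_biUnion_le
    have h3 : ∑ n ∈ Finset.Icc 1 K, (Fs.biUnion fun D => QN n D).card ≤
        ∑ n ∈ Finset.Icc 1 K, ∑ D ∈ Fs, (QN n D).card :=
      Finset.sum_le_sum fun n _ => Finset.card_biUnion_le
    have h4 := h2.trans h3
    exact_mod_cast h4
  have h2 : ∀ n ∈ Finset.Icc 1 K, ∑ D ∈ Fs, ((QN n D).card : ℝ) ≤ W * K / Real.log 2 * sz f := by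
    intro n hn
    refine (Finset.sum_le_sum (hone n hn)).trans ?_
    rw [← Finset.mul_sum]
    exact mul_le_mul_of_nonneg_left (sum_sz_factors_le hf) (by positivity)
  refine h1.trans ((Finset.sum_le_sum h2).trans ?_)
  rw [Finset.sum_const, Nat.card_Icc, Nat.add_sub_cancel, nsmul_eq_mul]
  apply le_of_eq
  ring


/-- the roots of a polynomial against another polynomial -/
lemma sparse_rootG (f : ℤ[X]) (hf : f ≠ 0) (hf1 : ∀ q : ℕ, q.Prime → ¬ C (q : ℤ) ∣ f) (g : ℤ[X])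
    (β : ℕ) (hβ : 1 ≤ β)
    (hN : ∀ n : ℕ, 1 ≤ n → ∀ z : ℂ, aeval z f = 0 → (aeval z g) ^ n ≠ (β : ℂ) ^ n) :
    Sparse (fun q n => ∃ t : ZMod q, aeval t f = 0 ∧
      (aeval t g) ^ n = (β : ZMod q) ^ n) := by
  obtain ⟨C, hC, h1⟩ := cntG f hf hf1 g β hβ hN
  refine ⟨C, hC, 0, ?_⟩
  intro K R hR _ _ Q hQ
  have h2 := h1 K Q (by
    intro q hq
    obtain ⟨g1, _, n, g2, g3, _, g4⟩ := hQ q hq
    exact ⟨g1, n, g2, g3, g4⟩)
  refine h2.trans ?_
  have hR1 : (1 : ℝ) ≤ (R : ℝ) ^ 2 := by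
    have : (1 : ℝ) ≤ R := by exact_mod_cast hR
    nlinarith
  exact le_mul_of_one_le_right (by positivity) hR1

/-- a valuation of `ℂ` over `p` -/
lemma exists_val (p : ℕ) (hp : p.Prime) : ∃ B : ValuationSubring ℂ, B.valuation (p : ℂ) < 1 := by
  obtain ⟨B, -, hB⟩ := Ideal.image_subset_nonunits_valuationSubring
    (A := (Int.castRingHom ℂ).range)
    (Ideal.span {((Int.castRingHom ℂ).rangeRestrict (p : ℤ))}) (by
    rw [Ne, Ideal.span_singleton_eq_top]
    intro h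
    obtain ⟨⟨b, k, hk⟩, hb⟩ := h.exists_right_inv
    have h1 := congrArg (Subtype.val) hb
    simp only [MulMemClass.coe_mul, OneMemClass.coe_one, eq_intCast] at h1
    rw [← hk] at h1
    simp only [eq_intCast, Int.cast_natCast] at h1
    have h2 : (p : ℤ) * k = 1 := by exact_mod_cast h1
    have h3 := Int.natAbs_dvd_natAbs.mpr (Dvd.intro _ h2)
    rw [Int.natAbs_natCast, Int.natAbs_one] at h3
    have := Nat.le_of_dvd one_pos h3
    have := hp.two_le
    omega)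
  refine ⟨B, ?_⟩
  rw [← ValuationSubring.mem_nonunits_iff]
  apply hB
  refine ⟨((Int.castRingHom ℂ).rangeRestrict (p : ℤ)), Ideal.subset_span rfl, ?_⟩
  simp

section
variable {p : ℕ} {B : ValuationSubring ℂ}

lemma val_int_le (k : ℤ) : B.valuation (k : ℂ) ≤ 1 := by
  rw [ValuationSubring.valuation_le_one_iff]
  exact intCast_mem B k

lemma val_nat_le (k : ℕ) : B.valuation (k : ℂ) ≤ 1 := by
  have := val_int_le (B := B) (k : ℤ)
  rwa [Int.cast_natCast] at this

lemma vmul_lt {Γ : Type*} [LinearOrderedCommGroupWithZero Γ] {a b : Γ} (ha : a < 1) (hb : b ≤ 1) :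
    a * b < 1 := by
  calc a * b ≤ a * 1 := mul_le_mul_right hb a
    _ = a := mul_one a
    _ < 1 := ha

lemma val_lt_of_dvd (hB : B.valuation (p : ℂ) < 1) {k : ℕ} (h : p ∣ k) :
    B.valuation (k : ℂ) < 1 := by
  obtain ⟨r, rfl⟩ := h
  push_cast
  rw [map_mul]
  exact vmul_lt hB (val_nat_le r)

lemma val_int_eq (hp : p.Prime) (hB : B.valuation (p : ℂ) < 1) {k : ℤ} (h : ¬ (p : ℤ) ∣ k) :
    B.valuation (k : ℂ) = 1 := by
  have hpp : Prime (p : ℤ) := Nat.prime_iff_prime_int.mp hp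
  obtain ⟨a, b, hab⟩ := (hpp.coprime_iff_not_dvd).mpr h
  by_contra hne
  have hlt : B.valuation (k : ℂ) < 1 := lt_of_le_of_ne (val_int_le k) hne
  have h1 : ((a : ℂ) * p + b * k) = 1 := by exact_mod_cast hab
  have h2 : B.valuation ((a : ℂ) * p + b * k) < 1 := by
    apply Valuation.map_add_lt
    · rw [map_mul, mul_comm]
      exact vmul_lt hB (val_int_le a)
    · rw [map_mul, mul_comm]
      exact vmul_lt hlt (val_int_le b)
  rw [h1, map_one] at h2
  exact lt_irrefl _ h2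

lemma val_nat_eq (hp : p.Prime) (hB : B.valuation (p : ℂ) < 1) {k : ℕ} (h : ¬ p ∣ k) :
    B.valuation (k : ℂ) = 1 := by
  have := val_int_eq hp hB (k := (k : ℤ)) (fun h1 => h (Int.natCast_dvd_natCast.mp h1))
  simpa using this

lemma val_pow_inj {x y : ℂ} {N : ℕ} (hN : 1 ≤ N) (h : x ^ N = y ^ N) :
    B.valuation x = B.valuation y := by
  have h1 : (B.valuation x) ^ N = (B.valuation y) ^ N := by rw [← map_pow, ← map_pow, h]
  exact (pow_left_inj₀ zero_le zero_le (by omega)).mp h1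

/-- large arguments -/
lemma val_big (P : ℤ[X]) (D : ℕ) (hD : P.natDegree ≤ D) (hc : B.valuation ((P.coeff D : ℤ) : ℂ) = 1)
    {t : ℂ} (ht : 1 < B.valuation t) : B.valuation (aeval t P) = B.valuation t ^ D := by
  rw [aeval_eq_sum_range' (show P.natDegree < D + 1 by omega), Finset.sum_range_succ]
  have h1 : B.valuation ((P.coeff D) • t ^ D) = B.valuation t ^ D := by
    rw [zsmul_eq_mul, map_mul, hc, one_mul, map_pow]
  rw [← h1]
  apply Valuation.map_add_eq_of_lt_right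
  rw [h1]
  apply Valuation.map_sum_lt
  · exact pow_ne_zero _ (ne_of_gt (lt_trans zero_lt_one ht))
  · intro i hi
    rw [Finset.mem_range] at hi
    rw [zsmul_eq_mul, map_mul, map_pow]
    calc B.valuation ((P.coeff i : ℤ) : ℂ) * B.valuation t ^ i ≤ 1 * B.valuation t ^ i :=
          mul_le_mul_left (val_int_le _) _
      _ = B.valuation t ^ i := one_mul _
      _ < B.valuation t ^ D := pow_lt_pow_right₀ ht hi

lemma val_small (P : ℤ[X]) {t : ℂ} (ht : B.valuation t ≤ 1) : B.valuation (aeval t P) ≤ 1 := by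
  rw [aeval_eq_sum_range]
  apply Valuation.map_sum_le
  intro i _
  rw [zsmul_eq_mul, map_mul, map_pow]
  exact mul_le_one' (val_int_le _) (pow_le_one' ht _)

/-- `f_m` is a unit at integral arguments over `p = 2m+1` -/
lemma val_F (m : ℕ) (hm : 1 ≤ m) (hp : (2 * m + 1).Prime)
    (hB : B.valuation ((2 * m + 1 : ℕ) : ℂ) < 1) (δ : ℤ) {t : ℂ} (ht : B.valuation t ≤ 1) :
    B.valuation (Fh (δ : ℂ) 1 t m) = 1 := by
  obtain ⟨ω, hω⟩ := IsAlgClosed.exists_pow_nat_eq (δ : ℂ) (n := 2) (by norm_num)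
  have hω1 : B.valuation ω ≤ 1 := by
    have h1 : (B.valuation ω) ^ 2 ≤ 1 := by
      rw [← map_pow, hω]
      exact val_int_le δ
    by_contra hcon
    push Not at hcon
    have := one_lt_pow₀ hcon (two_ne_zero)
    exact absurd h1 (not_le.mpr this)
  have hy : B.valuation (ω * t) ≤ 1 := by
    rw [map_mul]
    exact mul_le_one' hω1 ht
  obtain ⟨y, hyB⟩ : ∃ y : B, (y : ℂ) = ω * t :=
    ⟨⟨ω * t, (ValuationSubring.valuation_le_one_iff _ _).mp hy⟩, rfl⟩
  obtain ⟨r1, hr1⟩ := exists_add_pow_prime_eq hp (1 : B) y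
  obtain ⟨r2, hr2⟩ := exists_add_pow_prime_eq hp (1 : B) (-y)
  have hodd : Odd (2 * m + 1) := ⟨m, rfl⟩
  have h3 := pow_FG hω 1 t m
  have h4 := pow_FG' hω 1 t m
  obtain ⟨P, hP⟩ : ∃ P : ℕ, P = 2 * m + 1 := ⟨_, rfl⟩
  rw [← hP] at hr1 hr2 hodd h3 h4 hB hp
  have e1 : (1 + ω * t) ^ P = 1 + (ω * t) ^ P + (P : ℂ) * (ω * t * r1) := by
    have := congrArg (Subtype.val) hr1
    simp only [mul_one, one_pow, MulMemClass.coe_mul, AddMemClass.coe_add, OneMemClass.coe_one,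
      SubmonoidClass.coe_pow, hyB] at this
    rw [this]
    have h0 : (((P : ℕ) : B) : ℂ) = (P : ℂ) := by norm_cast
    rw [h0]
    ring
  have e2 : (1 - ω * t) ^ P = 1 - (ω * t) ^ P - (P : ℂ) * (ω * t * r2) := by
    have := congrArg (Subtype.val) hr2
    simp only [mul_one, one_pow, MulMemClass.coe_mul, AddMemClass.coe_add, OneMemClass.coe_one,
      SubmonoidClass.coe_pow, NegMemClass.coe_neg, hyB, hodd.neg_pow] at this
    rw [sub_eq_add_neg, this]
    have h0 : (((P : ℕ) : B) : ℂ) = (P : ℂ) := by norm_cast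
    rw [h0]
    ring
  have h5 : 2 * Fh (δ : ℂ) 1 t m = 2 + (P : ℂ) * (ω * t * (r1 - r2)) := by
    have h6 : 2 * Fh (δ : ℂ) 1 t m = (1 + ω * t) ^ P + (1 - ω * t) ^ P := by
      rw [h3, h4]
      ring
    rw [h6, e1, e2]
    ring
  have h2 : B.valuation (2 : ℂ) = 1 := by
    have := val_nat_eq hp hB (k := 2) (by
      intro h
      have := Nat.le_of_dvd (by norm_num) h
      omega)
    rwa [Nat.cast_ofNat] at this
  have h8 : B.valuation (2 * Fh (δ : ℂ) 1 t m) = 1 := by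
    rw [h5]
    have h9 : B.valuation ((P : ℂ) * (ω * t * (r1 - r2))) < B.valuation (2 : ℂ) := by
      rw [h2, map_mul]
      refine vmul_lt hB ?_
      rw [map_mul]
      exact mul_le_one' hy ((ValuationSubring.valuation_le_one_iff _ _).mpr (r1 - r2).2)
    rw [Valuation.map_add_eq_of_lt_left _ h9, h2]
  rw [map_mul, h2, one_mul] at h8
  exact h8

end

end Pool.Agent.H573.AHB
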