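import Pool.Agent.H573.AHB.PsiA

/-!
The factorisation of the forms of degree `p r`: `X_{pr} = u F_p(u,v) F_r(u,v) Ψ(u,v)`.
Here `p = 2m+1`, `r = 2l+1`.
-/

namespace Pool.Agent.H573.AHB

open Polynomial

/-- the composite form `F_r(X_p, Y_p)` at `(1, t)` -/
noncomputable def pA (δ : ℤ) (m l : ℕ) : ℤ[X] := Fh (C δ : ℤ[X]) (fp δ m) (X * gp δ m) l

lemma aeval_pA {A : Type*} [CommRing A] (t : A) (δ : ℤ) (m l : ℕ) :
    aeval t (pA δ m l) = Fh (δ : A) (Fh (δ : A) 1 t m) (t * Gh (δ : A) 1 t m) l := by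
  unfold pA
  have h := (map_FGh (aeval t : ℤ[X] →ₐ[ℤ] A).toRingHom (C δ) (fp δ m) (X * gp δ m) l).1
  simp only [AlgHom.toRingHom_eq_coe, RingHom.coe_coe, aeval_X, map_mul, aeval_C, aeval_fp,
    aeval_gp] at h
  rw [h]
  congr 1

/-- the real and imaginary parts of a `p r`-th power, computed in two steps -/
lemma comp_FG {δ ω : ℂ} (hω : ω ^ 2 = δ) (u v : ℂ) (m l : ℕ) :
    (u + ω * v) ^ ((2 * m + 1) * (2 * l + 1)) =
      (u * Fh δ u v m) * Fh δ (u * Fh δ u v m) (v * Gh δ u v m) l +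
      ω * ((v * Gh δ u v m) * Gh δ (u * Fh δ u v m) (v * Gh δ u v m) l) ∧
    (u - ω * v) ^ ((2 * m + 1) * (2 * l + 1)) =
      (u * Fh δ u v m) * Fh δ (u * Fh δ u v m) (v * Gh δ u v m) l -
      ω * ((v * Gh δ u v m) * Gh δ (u * Fh δ u v m) (v * Gh δ u v m) l) := by
  have h1 := pow_FG hω u v m
  have h2 := pow_FG' hω u v m
  have h3 := pow_FG hω (u * Fh δ u v m) (v * Gh δ u v m) l
  have h4 := pow_FG' hω (u * Fh δ u v m) (v * Gh δ u v m) l
  constructor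
  · rw [pow_mul, h1, mul_assoc ω v, h3]
    ring
  · rw [pow_mul, h2, mul_assoc ω v, h4]
    ring

lemma comp_comm (δ u v : ℂ) (m l : ℕ) :
    (u * Fh δ u v m) * Fh δ (u * Fh δ u v m) (v * Gh δ u v m) l =
      (u * Fh δ u v l) * Fh δ (u * Fh δ u v l) (v * Gh δ u v l) m := by
  obtain ⟨ω, hω⟩ := IsAlgClosed.exists_pow_nat_eq δ (n := 2) (by norm_num)
  obtain ⟨h1, h2⟩ := comp_FG hω u v m l
  obtain ⟨h3, h4⟩ := comp_FG hω u v l m
  rw [mul_comm (2 * l + 1)] at h3 h4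
  rw [h1] at h3
  rw [h2] at h4
  have h5 : (2 : ℂ) ≠ 0 := by norm_num
  apply mul_left_cancel₀ h5
  linear_combination h3 + h4

lemma comp_pr {R : Type*} [CommRing R] (δ u v : ℤ) (m l : ℕ) :
    u * Fh δ u v (2 * (m * l) + m + l) =
      (u * Fh δ u v m) * Fh δ (u * Fh δ u v m) (v * Gh δ u v m) l := by
  obtain ⟨ω, hω⟩ := IsAlgClosed.exists_pow_nat_eq (δ : ℂ) (n := 2) (by norm_num)
  obtain ⟨h1, h2⟩ := comp_FG hω (u : ℂ) (v : ℂ) m l
  have h3 := pow_FG hω (u : ℂ) (v : ℂ) (2 * (m * l) + m + l)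
  have h4 := pow_FG' hω (u : ℂ) (v : ℂ) (2 * (m * l) + m + l)
  have he : 2 * (2 * (m * l) + m + l) + 1 = (2 * m + 1) * (2 * l + 1) := by ring
  rw [he] at h3 h4
  have h5 : (2 : ℂ) ≠ 0 := by norm_num
  have h6 : (u : ℂ) * Fh (δ : ℂ) u v (2 * (m * l) + m + l) =
      (u * Fh (δ : ℂ) u v m) * Fh (δ : ℂ) (u * Fh (δ : ℂ) u v m) (v * Gh (δ : ℂ) u v m) l := by
    apply mul_left_cancel₀ h5
    linear_combination h1 + h2 - h3 - h4
  have e1 : ∀ x y : ℤ, ∀ k : ℕ, ((Fh δ x y k : ℤ) : ℂ) = Fh (δ : ℂ) x y k := fun x y k =>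
    (map_FGh (Int.castRingHom ℂ) δ x y k).1
  have e2 : ∀ x y : ℤ, ∀ k : ℕ, ((Gh δ x y k : ℤ) : ℂ) = Gh (δ : ℂ) x y k := fun x y k =>
    (map_FGh (Int.castRingHom ℂ) δ x y k).2
  have h7 : ((u * Fh δ u v (2 * (m * l) + m + l) : ℤ) : ℂ) =
      (((u * Fh δ u v m) * Fh δ (u * Fh δ u v m) (v * Gh δ u v m) l : ℤ) : ℂ) := by
    push_cast
    rw [e1, e1, e1]
    push_cast
    rw [e1, e2, h6]
  exact_mod_cast h7

/-- no common roots for different degrees -/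
lemma no_common2 {K : Type*} [Field K] [IsAlgClosed K] (h2 : (2 : K) ≠ 0) (δ z : K) (m l : ℕ)
    (hco : Nat.Coprime (2 * m + 1) (2 * l + 1))
    (hf : Fh δ 1 z m = 0) : Fh δ 1 z l ≠ 0 := by
  intro hg
  obtain ⟨ω, hω⟩ := IsAlgClosed.exists_pow_nat_eq δ (n := 2) (by norm_num)
  have h3 := pow_FG hω 1 z m
  have h4 := pow_FG' hω 1 z m
  have h5 := pow_FG hω 1 z l
  have h6 := pow_FG' hω 1 z l
  rw [hf, mul_zero, zero_add] at h3
  rw [hf, mul_zero, zero_sub] at h4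
  rw [hg, mul_zero, zero_add] at h5
  rw [hg, mul_zero, zero_sub] at h6
  have h7 : (1 + ω * z) ^ (2 * m + 1) = -(1 - ω * z) ^ (2 * m + 1) := by rw [h3, h4, neg_neg]
  have h8 : (1 + ω * z) ^ (2 * l + 1) = -(1 - ω * z) ^ (2 * l + 1) := by rw [h5, h6, neg_neg]
  set α := 1 + ω * z with hα
  set β := 1 - ω * z with hβ
  have hsum : α + β = 2 := by rw [hα, hβ]; ring
  by_cases hβ0 : β = 0
  · rw [hβ0, zero_pow (by omega), neg_zero] at h7
    have := pow_eq_zero_iff (by omega) |>.mp h7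
    rw [this, hβ0, add_zero] at hsum
    exact h2 hsum.symm
  · have h9 : (-(α / β)) ^ (2 * m + 1) = 1 := by
      rw [Odd.neg_pow ⟨m, rfl⟩, div_pow, h7, neg_div, div_self (pow_ne_zero _ hβ0), neg_neg]
    have h10 : (-(α / β)) ^ (2 * l + 1) = 1 := by
      rw [Odd.neg_pow ⟨l, rfl⟩, div_pow, h8, neg_div, div_self (pow_ne_zero _ hβ0), neg_neg]
    have h11 : orderOf (-(α / β)) ∣ Nat.gcd (2 * m + 1) (2 * l + 1) :=
      Nat.dvd_gcd (orderOf_dvd_of_pow_eq_one h9) (orderOf_dvd_of_pow_eq_one h10)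
    rw [hco] at h11
    have h12 : -(α / β) = 1 := by
      rw [← orderOf_eq_one_iff]
      exact Nat.dvd_one.mp h11
    have h13 : α = -β := by
      have : α / β = -1 := by rw [← h12, neg_neg]
      rw [div_eq_iff hβ0] at this
      rw [this]
      ring
    rw [h13, neg_add_cancel] at hsum
    exact h2 hsum.symm

lemma fp_coeff_zero (δ : ℤ) (m : ℕ) : (fp δ m).coeff 0 = 1 := by
  have h3 := aeval_fp (0 : ℤ) δ m
  rw [Int.cast_id, (FG_v0 δ 1 m).1, one_pow] at h3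
  rw [coeff_zero_eq_aeval_zero]
  exact h3

lemma isPrimitive_of_coeff_zero {P : ℤ[X]} (h : P.coeff 0 = 1) : P.IsPrimitive := by
  intro r hr
  have h3 := (C_dvd_iff_dvd_coeff _ _).mp hr 0
  rw [h] at h3
  exact isUnit_of_dvd_one h3

lemma not_C_dvd_of_coeff_zero {P : ℤ[X]} (h : P.coeff 0 = 1) (q : ℕ) (hq : q.Prime) :
    ¬ C (q : ℤ) ∣ P := by
  intro hd
  have h3 := (C_dvd_iff_dvd_coeff _ _).mp hd 0
  rw [h] at h3
  have h4 : (q : ℤ) ∣ ((1 : ℕ) : ℤ) := by simpa using h3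
  have h5 := Int.natCast_dvd_natCast.mp h4
  have := hq.one_lt
  have := Nat.le_of_dvd one_pos h5
  omega

lemma ne_zero_of_coeff_zero {P : ℤ[X]} (h : P.coeff 0 = 1) : P ≠ 0 := by
  rintro rfl
  simp at h

/-- top coefficients -/
lemma FG_top (δ : ℤ) (P Q : ℤ[X]) (D : ℕ) (hP : P.natDegree ≤ D) (hQ : Q.natDegree ≤ D) (l : ℕ) :
    (Fh (C δ : ℤ[X]) P Q l).natDegree ≤ l * (D + D) ∧
    (Gh (C δ : ℤ[X]) P Q l).natDegree ≤ l * (D + D) ∧
    (Fh (C δ : ℤ[X]) P Q l).coeff (l * (D + D)) = Fh δ (P.coeff D) (Q.coeff D) l ∧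
    (Gh (C δ : ℤ[X]) P Q l).coeff (l * (D + D)) = Gh δ (P.coeff D) (Q.coeff D) l := by
  have hP2 : (P ^ 2).natDegree ≤ D + D := by
    rw [pow_two]; exact natDegree_mul_le_of_le hP hP
  have hQ2 : (Q ^ 2).natDegree ≤ D + D := by
    rw [pow_two]; exact natDegree_mul_le_of_le hQ hQ
  have hP2c : (P ^ 2).coeff (D + D) = P.coeff D ^ 2 := by
    rw [pow_two, coeff_mul_add_eq_of_natDegree_le hP hP, pow_two]
  have hQ2c : (Q ^ 2).coeff (D + D) = Q.coeff D ^ 2 := by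
    rw [pow_two, coeff_mul_add_eq_of_natDegree_le hQ hQ, pow_two]
  have hdQ : (C δ * Q ^ 2 : ℤ[X]).natDegree ≤ D + D := (natDegree_C_mul_le _ _).trans hQ2
  have hS : (P ^ 2 + C δ * Q ^ 2 : ℤ[X]).natDegree ≤ D + D :=
    (natDegree_add_le_of_degree_le hP2 hdQ)
  have hSc : (P ^ 2 + C δ * Q ^ 2 : ℤ[X]).coeff (D + D) = P.coeff D ^ 2 + δ * Q.coeff D ^ 2 := by
    rw [coeff_add, coeff_C_mul, hP2c, hQ2c]
  have h2C : (2 : ℤ[X]) = C 2 := rfl
  have hT : (2 * (C δ * Q ^ 2) : ℤ[X]).natDegree ≤ D + D := by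
    rw [h2C]; exact (natDegree_C_mul_le _ _).trans hdQ
  have hTc : (2 * (C δ * Q ^ 2) : ℤ[X]).coeff (D + D) = 2 * (δ * Q.coeff D ^ 2) := by
    rw [h2C, coeff_C_mul, coeff_C_mul, hQ2c]
  have hU : (2 * P ^ 2 : ℤ[X]).natDegree ≤ D + D := by
    rw [h2C]; exact (natDegree_C_mul_le _ _).trans hP2
  have hUc : (2 * P ^ 2 : ℤ[X]).coeff (D + D) = 2 * P.coeff D ^ 2 := by
    rw [h2C, coeff_C_mul, hP2c]
  induction l with
  | zero => simp
  | succ l ih =>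
    obtain ⟨i1, i2, i3, i4⟩ := ih
    have he : (l + 1) * (D + D) = l * (D + D) + (D + D) := by ring
    have he' : (l + 1) * (D + D) = (D + D) + l * (D + D) := by ring
    refine ⟨?_, ?_, ?_, ?_⟩
    · rw [Fh_succ]
      apply natDegree_add_le_of_degree_le
      · rw [he]; exact natDegree_mul_le_of_le i1 hS
      · rw [he']; exact natDegree_mul_le_of_le hT i2
    · rw [Gh_succ]
      apply natDegree_add_le_of_degree_le
      · rw [he]; exact natDegree_mul_le_of_le i2 hS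
      · rw [he']; exact natDegree_mul_le_of_le hU i1
    · rw [Fh_succ, Fh_succ, coeff_add]
      congr 1
      · rw [he, coeff_mul_add_eq_of_natDegree_le i1 hS, i3, hSc]
      · rw [he', coeff_mul_add_eq_of_natDegree_le hT i2, i4, hTc]
    · rw [Gh_succ, Gh_succ, coeff_add]
      congr 1
      · rw [he, coeff_mul_add_eq_of_natDegree_le i2 hS, i4, hSc]
      · rw [he', coeff_mul_add_eq_of_natDegree_le hU i1, i3, hUc]

lemma pA_top (δ : ℤ) (m l : ℕ) : (pA δ m l).natDegree ≤ l * ((2 * m + 1) + (2 * m + 1)) ∧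
    (pA δ m l).coeff (l * ((2 * m + 1) + (2 * m + 1))) =
      (2 * l + 1) * (δ * (δ ^ m) ^ 2) ^ l := by
  obtain ⟨d1, d2, d3, d4⟩ := fgp_deg δ m
  have h1 : (fp δ m).natDegree ≤ 2 * m + 1 := by omega
  have h2 : (X * gp δ m).natDegree ≤ 2 * m + 1 := by
    rw [add_comm]
    exact natDegree_mul_le_of_le natDegree_X_le d2
  obtain ⟨t1, -, t3, -⟩ := FG_top δ (fp δ m) (X * gp δ m) (2 * m + 1) h1 h2 l
  refine ⟨t1, ?_⟩
  have e1 : (fp δ m).coeff (2 * m + 1) = 0 := coeff_eq_zero_of_natDegree_lt (by omega)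
  have e2 : (X * gp δ m).coeff (2 * m + 1) = δ ^ m := by rw [coeff_X_mul, d4]
  rw [e1, e2, (FG_u0 δ (δ ^ m) l).1] at t3
  exact t3

lemma pA_coeff_zero (δ : ℤ) (m l : ℕ) : (pA δ m l).coeff 0 = 1 := by
  have h3 := aeval_pA (0 : ℤ) δ m l
  rw [Int.cast_id, (FG_v0 δ 1 m).1, one_pow, zero_mul, (FG_v0 δ 1 l).1, one_pow] at h3
  rw [coeff_zero_eq_aeval_zero]
  exact h3

/-- the properties of the last factor -/
structure IsPsi (δ : ℤ) (m l : ℕ) (ψ : ℤ[X]) : Prop where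
  hA : pA δ m l = fp δ l * ψ
  hB : pA δ l m = fp δ m * ψ
  deg : ψ.natDegree ≤ 4 * (m * l)
  top : ψ.coeff (4 * (m * l)) = δ ^ (2 * (m * l))
  zero : ψ.coeff 0 = 1

lemma poly_ext_C {P Q : ℤ[X]} (h : ∀ z : ℂ, aeval z P = aeval z Q) : P = Q := by
  apply Polynomial.map_injective (Int.castRingHom ℂ) (RingHom.injective_int _)
  apply Polynomial.funext
  intro z
  rw [eval_map, eval_map]
  exact h z

theorem exists_psi (δ : ℤ) (hδ : δ ≠ 0) (m l : ℕ)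
    (hco : Nat.Coprime (2 * m + 1) (2 * l + 1)) : ∃ ψ, IsPsi δ m l ψ := by
  have hcomm : fp δ m * pA δ m l = fp δ l * pA δ l m := by
    apply poly_ext_C
    intro z
    rw [map_mul, map_mul, aeval_pA, aeval_pA, aeval_fp, aeval_fp]
    have := comp_comm (δ : ℂ) 1 z m l
    rw [one_mul, one_mul] at this
    exact this
  have hcop : IsCoprime ((fp δ l).map (Int.castRingHom ℚ)) ((fp δ m).map (Int.castRingHom ℚ)) := by
    refine (Polynomial.isCoprime_iff_aeval_ne_zero_of_isAlgClosed (k := ℚ) ℂ _ _).mpr ?_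
    intro z
    have e : ∀ P : ℤ[X], aeval z (P.map (Int.castRingHom ℚ)) = aeval z P := by
      intro P
      rw [aeval_def, eval₂_map, aeval_def]
      congr 1
    rw [e, e, aeval_fp, aeval_fp]
    by_cases h : Fh (δ : ℂ) 1 z l = 0
    · right
      exact no_common2 (by norm_num) _ _ l m hco.symm h
    · left; exact h
  have hdvd : fp δ l ∣ pA δ m l := by
    rw [IsPrimitive.Int.dvd_iff_map_cast_dvd_map_cast _ _
      (isPrimitive_of_coeff_zero (fp_coeff_zero δ l))]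
    apply hcop.dvd_of_dvd_mul_left
    refine ⟨(pA δ l m).map (Int.castRingHom ℚ), ?_⟩
    rw [← Polynomial.map_mul, ← Polynomial.map_mul, hcomm]
  obtain ⟨ψ, hψ⟩ := hdvd
  have hl0 := ne_zero_of_coeff_zero (fp_coeff_zero δ l)
  have hB : pA δ l m = fp δ m * ψ := by
    apply mul_left_cancel₀ hl0
    rw [← hcomm, hψ]
    ring
  have hz : ψ.coeff 0 = 1 := by
    have h1 := pA_coeff_zero δ m l
    rw [hψ, mul_coeff_zero, fp_coeff_zero, one_mul] at h1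
    exact h1
  have hψ0 := ne_zero_of_coeff_zero hz
  obtain ⟨t1, t2⟩ := pA_top δ m l
  obtain ⟨d1, d2, d3, d4⟩ := fgp_deg δ l
  have hlead : (2 * (l : ℤ) + 1) * δ ^ l ≠ 0 := by
    apply mul_ne_zero
    · omega
    · exact pow_ne_zero _ hδ
  have hdl : (fp δ l).natDegree = 2 * l := by
    apply le_antisymm d1
    apply le_natDegree_of_ne_zero
    rw [d3]
    exact hlead
  have hdeg : ψ.natDegree ≤ 4 * (m * l) := by
    have h1 : (pA δ m l).natDegree = (fp δ l).natDegree + ψ.natDegree := by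
      rw [hψ, natDegree_mul hl0 hψ0]
    have h2 : l * ((2 * m + 1) + (2 * m + 1)) = 4 * (m * l) + 2 * l := by ring
    omega
  refine ⟨ψ, hψ, hB, hdeg, ?_, hz⟩
  have h2 : l * ((2 * m + 1) + (2 * m + 1)) = 2 * l + 4 * (m * l) := by ring
  rw [h2, hψ, coeff_mul_add_eq_of_natDegree_le d1 hdeg, d3] at t2
  apply mul_left_cancel₀ hlead
  rw [t2]
  ring

/-- homogenisation -/
def hmg (P : ℤ[X]) (D : ℕ) {R : Type*} [CommRing R] (u v : R) : R :=
  ∑ i ∈ Finset.range (D + 1), ((P.coeff i : ℤ) : R) * u ^ (D - i) * v ^ i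

lemma hmg_map (P : ℤ[X]) (D : ℕ) {R S : Type*} [CommRing R] [CommRing S] (f : R →+* S) (u v : R) :
    f (hmg P D u v) = hmg P D (f u) (f v) := by
  unfold hmg
  rw [map_sum]
  simp

lemma hmg_zero (P : ℤ[X]) (D : ℕ) {R : Type*} [CommRing R] (v : R) :
    hmg P D 0 v = ((P.coeff D : ℤ) : R) * v ^ D := by
  unfold hmg
  rw [Finset.sum_range_succ, Finset.sum_eq_zero]
  · simp
  · intro i hi
    rw [Finset.mem_range] at hi
    rw [zero_pow (by omega), mul_zero, zero_mul]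

lemma hmg_field (P : ℤ[X]) (D : ℕ) {K : Type*} [Field K] (u v : K) (hu : u ≠ 0)
    (hD : P.natDegree ≤ D) : hmg P D u v = u ^ D * aeval (v / u) P := by
  unfold hmg
  rw [aeval_eq_sum_range' (show P.natDegree < D + 1 by omega), Finset.mul_sum]
  apply Finset.sum_congr rfl
  intro i hi
  rw [Finset.mem_range] at hi
  rw [zsmul_eq_mul, div_pow]
  have h1 : u ^ D = u ^ (D - i) * u ^ i := by
    rw [← pow_add]
    congr 1
    omega
  rw [h1]
  field_simp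

lemma psi_hom_field (δ : ℤ) (m l : ℕ) (ψ : ℤ[X]) (h : IsPsi δ m l ψ) {K : Type*} [Field K]
    (u v : K) :
    Fh (δ : K) (u * Fh (δ : K) u v m) (v * Gh (δ : K) u v m) l =
      Fh (δ : K) u v l * hmg ψ (4 * (m * l)) u v := by
  by_cases hu : u = 0
  · rw [hu, zero_mul, hmg_zero, h.top, (FG_u0 (δ : K) v m).2, (FG_u0 (δ : K) v l).1,
      (FG_u0 (δ : K) _ l).1]
    push_cast
    ring
  · obtain ⟨t, ht⟩ : ∃ t, t = v / u := ⟨_, rfl⟩
    have hVt : v = u * t := by rw [ht]; field_simp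
    rw [hmg_field ψ _ u v hu h.deg, ← ht, hVt]
    have e1 := (hom_FG (δ : K) 1 t u m).1
    have e2 := (hom_FG (δ : K) 1 t u m).2
    have e3 := (hom_FG (δ : K) 1 t u l).1
    rw [mul_one] at e1 e2 e3
    rw [e1, e2, e3]
    have e4 : u * (u ^ (2 * m) * Fh (δ : K) 1 t m) = u ^ (2 * m + 1) * Fh (δ : K) 1 t m := by ring
    have e5 : u * t * (u ^ (2 * m) * Gh (δ : K) 1 t m) =
        u ^ (2 * m + 1) * (t * Gh (δ : K) 1 t m) := by ring
    rw [e4, e5, (hom_FG (δ : K) _ _ _ l).1, ← aeval_pA, h.hA, map_mul, aeval_fp]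
    ring

lemma psi_hom (δ : ℤ) (m l : ℕ) (ψ : ℤ[X]) (h : IsPsi δ m l ψ) (u v : ℤ) :
    Fh δ (u * Fh δ u v m) (v * Gh δ u v m) l = Fh δ u v l * hmg ψ (4 * (m * l)) u v := by
  have h1 := psi_hom_field δ m l ψ h (K := ℚ) (u : ℚ) (v : ℚ)
  have e1 : ∀ x y : ℤ, ∀ k : ℕ, ((Fh δ x y k : ℤ) : ℚ) = Fh (δ : ℚ) x y k := fun x y k =>
    (map_FGh (Int.castRingHom ℚ) δ x y k).1
  have e2 : ∀ x y : ℤ, ∀ k : ℕ, ((Gh δ x y k : ℤ) : ℚ) = Gh (δ : ℚ) x y k := fun x y k =>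
    (map_FGh (Int.castRingHom ℚ) δ x y k).2
  have e3 : ((hmg ψ (4 * (m * l)) u v : ℤ) : ℚ) = hmg ψ (4 * (m * l)) (u : ℚ) (v : ℚ) :=
    hmg_map ψ _ (Int.castRingHom ℚ) u v
  have h2 : ((Fh δ (u * Fh δ u v m) (v * Gh δ u v m) l : ℤ) : ℚ) =
      ((Fh δ u v l * hmg ψ (4 * (m * l)) u v : ℤ) : ℚ) := by
    push_cast
    rw [e1, e1, e3, ← h1]
    push_cast
    rw [e1, e2]
  exact_mod_cast h2

lemma IsPsi.symm {δ : ℤ} {m l : ℕ} {ψ : ℤ[X]} (h : IsPsi δ m l ψ) : IsPsi δ l m ψ :=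
  ⟨h.hB, h.hA, by rw [mul_comm l m]; exact h.deg, by rw [mul_comm l m]; exact h.top, h.zero⟩

/-- the full factorisation -/
lemma psi_prod (δ : ℤ) (m l : ℕ) (ψ : ℤ[X]) (h : IsPsi δ m l ψ) (u v : ℤ) :
    u * Fh δ u v (2 * (m * l) + m + l) =
      u * Fh δ u v m * (Fh δ u v l * hmg ψ (4 * (m * l)) u v) := by
  rw [comp_pr (R := ℤ) δ u v m l, psi_hom δ m l ψ h]

end Pool.Agent.H573.AHB
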