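import Pool.Agent.H573.AHB.Core2
import Pool.Agent.H573.AHB.Uni

/-!
The equations `c² x^{2s} ± d² y^{2s} = z^p` in all cases (also `p ∣ x y`), for `c, d ≥ 2`.
-/

namespace Pool.Agent.H573.AHB

open Polynomial Filter

/-- no torsion from a size condition -/
lemma ph_HT_size (δ : ℤ) (m a b1 b2 e h : ℕ) (ha : 1 ≤ a) (hb2 : 1 ≤ b2)
    (H2 : b2 ^ (4 * m) * (e ^ 2 * (b2 ^ 2 * a ^ 2) + δ.natAbs * b1 ^ 2 * h ^ 2) <
      (b2 ^ 2 * a ^ 2 + δ.natAbs * b1 ^ 2) ^ (2 * m + 1)) (z : ℂ) :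
    ∃ i, ∀ N : ℕ, 1 ≤ N → (aeval z (ph δ m a b2 i)) ^ N ≠ ((cc b1 e h i : ℤ) : ℂ) ^ N := by
  obtain ⟨i, hi⟩ := ph_H2 δ m a b1 b2 e h ha hb2 H2 z
  refine ⟨i, ?_⟩
  intro N hN heq
  apply hi
  have h1 : ‖aeval z (ph δ m a b2 i)‖ ^ N = ‖((cc b1 e h i : ℤ) : ℂ)‖ ^ N := by
    rw [← norm_pow, ← norm_pow, heq]
  have h2 := (pow_left_inj₀ (norm_nonneg _) (norm_nonneg _) (by omega)).mp h1
  rw [h2, Complex.norm_intCast]

lemma ph_HT_a (m : ℕ) (hm : 1 ≤ m) (p : ℕ) (hp : p.Prime) (δ : ℤ) (a b1 b2 e h : ℕ)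
    (ha : ¬ p ∣ a) (hb2 : ¬ p ∣ b2) (hb1 : p ∣ b1) (hb10 : b1 ≠ 0) (he : p ∣ e) (z : ℂ) :
    ∃ i, ∀ N : ℕ, 1 ≤ N → (aeval z (ph δ m a b2 i)) ^ N ≠ ((cc b1 e h i : ℤ) : ℂ) ^ N := by
  by_contra hcon
  push Not at hcon
  obtain ⟨N, hN, h0⟩ := hcon 0
  obtain ⟨N', hN', h1⟩ := hcon 1
  rw [ph_zero] at h0
  rw [ph_one] at h1
  simp only [cc, Matrix.cons_val_zero, Matrix.cons_val_one, Int.cast_natCast] at h0 h1
  exact tors_a m hm p hp δ a b1 b2 e ha hb2 hb1 hb10 he z N N' hN hN' h0 h1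

lemma ph_HT_b (m : ℕ) (hm : 1 ≤ m) (p : ℕ) (hp : p.Prime) (δ : ℤ) (hδ : ¬ (p : ℤ) ∣ δ)
    (a b1 b2 e h : ℕ) (hb1 : ¬ p ∣ b1) (hb2 : p ∣ b2) (z : ℂ) :
    ∃ i, ∀ N : ℕ, 1 ≤ N → (aeval z (ph δ m a b2 i)) ^ N ≠ ((cc b1 e h i : ℤ) : ℂ) ^ N := by
  by_contra hcon
  push Not at hcon
  obtain ⟨N, hN, h0⟩ := hcon 0
  obtain ⟨N', hN', h1⟩ := hcon 2
  rw [ph_zero] at h0
  rw [ph_two] at h1
  simp only [cc, Matrix.cons_val_zero, Matrix.cons_val_two, Matrix.tail_cons,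
    Matrix.head_cons, Int.cast_natCast] at h0 h1
  exact tors_b m hm p hp δ hδ a b1 b2 h hb1 hb2 z N N' hN hN' h0 h1

/-- from global data to a bad prime -/
lemma badG_of (δ : ℤ) (m a1 a2 b1 b2 e h q s n : ℕ) (hq : q.Prime) (hsn : s * n = q - 1)
    (ha2 : (a2 : ZMod q) ≠ 0)
    (hb2 : (b2 : ZMod q) ≠ 0) (u v w1 w2 w3 w4 : ℤ) (huv : IsCoprime u v)
    (h1 : a2 * u = a1 * w1 ^ s) (h2 : b2 * v = b1 * w2 ^ s) (h3 : Fh δ u v m = e * w3 ^ s)
    (h4 : Gh δ u v m = h * w4 ^ s) : BadG δ m a1 a2 b1 b2 e h q n := by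
  have hF : Fact q.Prime := ⟨hq⟩
  have hmap := map_FGh (Int.castRingHom (ZMod q)) δ u v m
  simp only [eq_intCast] at hmap
  refine ⟨(u : ZMod q), (v : ZMod q), ?_, ?_, ?_, ?_, ?_⟩
  · by_contra hcon
    push Not at hcon
    obtain ⟨g1, g2⟩ := hcon
    rw [ZMod.intCast_zmod_eq_zero_iff_dvd] at g1 g2
    have := huv.isUnit_of_dvd' g1 g2
    rw [Int.isUnit_iff_natAbs_eq, Int.natAbs_natCast] at this
    have := hq.two_le
    omega
  · exact pow_mod q s n hq hsn a1 w1 (u : ZMod q) a2 ha2 (by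
      have := congrArg (Int.cast : ℤ → ZMod q) h1
      push_cast at this
      exact this)
  · exact pow_mod q s n hq hsn b1 w2 (v : ZMod q) b2 hb2 (by
      have := congrArg (Int.cast : ℤ → ZMod q) h2
      push_cast at this
      exact this)
  · have := pow_mod q s n hq hsn e w3 ((Fh δ u v m : ℤ) : ZMod q) 1 one_ne_zero (by
      rw [h3]
      push_cast
      ring)
    rw [one_mul, hmap.1] at this
    exact this
  · have := pow_mod q s n hq hsn h w4 ((Gh δ u v m : ℤ) : ZMod q) 1 one_ne_zero (by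
      rw [h4]
      push_cast
      ring)
    rw [one_mul, hmap.2] at this
    exact this

/-- splitting a coefficient, with coprime parts -/
lemma split_pow' (c : ℕ) (hc : 1 ≤ c) (s : ℕ) (hs : Odd s) (x u F : ℤ) (hx : x ≠ 0)
    (huF : IsCoprime u F) (h : u * F = c * x ^ s) :
    ∃ c' c'' : ℕ, 1 ≤ c' ∧ 1 ≤ c'' ∧ c' * c'' = c ∧ Nat.Coprime c' c'' ∧
      ∃ w w' : ℤ, u = c' * w ^ s ∧ F = c'' * w' ^ s := by
  obtain ⟨c', c'', hcc, w, w', h1, h2⟩ := split_pow c hc s hs x u F hx huF h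
  refine ⟨c', c'', ?_, ?_, hcc, ?_, w, w', h1, h2⟩
  · rcases Nat.eq_zero_or_pos c' with h | h
    · rw [h, zero_mul] at hcc; omega
    · exact h
  · rcases Nat.eq_zero_or_pos c'' with h | h
    · rw [h, mul_zero] at hcc; omega
    · exact h
  · rw [h1, h2] at huF
    have h3 : IsCoprime (c' : ℤ) (c'' : ℤ) := huF.of_mul_left_left.of_mul_right_left
    exact Nat.isCoprime_iff_coprime.mp h3

/-- the second case for `u` -/
lemma second_F (m : ℕ) (δ u v : ℤ) (huv : IsCoprime u v)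
    (hud : IsCoprime u δ) (hu : ((2 * m + 1 : ℕ) : ℤ) ∣ u) :
    ∃ F1 : ℤ, Fh δ u v m = ((2 * m + 1 : ℕ) : ℤ) * F1 ∧
      IsCoprime (((2 * m + 1 : ℕ) : ℤ) * u) F1 := by
  obtain ⟨k, hk⟩ := (FG_mod_u2 δ u v m).1
  obtain ⟨r, hr⟩ := hu
  have hp0 : ((2 * m + 1 : ℕ) : ℤ) ≠ 0 := by
    have : (2 * m + 1 : ℕ) ≠ 0 := by omega
    exact_mod_cast this
  refine ⟨(δ * v ^ 2) ^ m + u * (r * k), ?_, ?_⟩
  · have h1 : Fh δ u v m = (2 * m + 1) * (δ * v ^ 2) ^ m + u ^ 2 * k := by linarith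
    have h2 : u ^ 2 = ((2 * m + 1 : ℕ) : ℤ) * (u * r) := by
      rw [pow_two]
      nth_rewrite 2 [hr]
      ring
    rw [h1, h2]
    push_cast
    ring
  · have h1 : IsCoprime u ((δ * v ^ 2) ^ m + u * (r * k)) := by
      refine IsCoprime.add_mul_left_right ?_ _
      exact IsCoprime.pow_right (hud.mul_right huv.pow_right)
    refine IsCoprime.mul_left ?_ h1
    exact h1.of_isCoprime_of_dvd_left ⟨r, hr⟩

/-- the second case for `v` -/
lemma second_G (m : ℕ) (δ u v : ℤ) (huv : IsCoprime u v)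
    (hv : ((2 * m + 1 : ℕ) : ℤ) ∣ v) :
    ∃ G1 : ℤ, Gh δ u v m = ((2 * m + 1 : ℕ) : ℤ) * G1 ∧
      IsCoprime (((2 * m + 1 : ℕ) : ℤ) * v) G1 := by
  obtain ⟨k, hk⟩ := (FG_mod_v2 δ u v m).1
  obtain ⟨r, hr⟩ := hv
  refine ⟨u ^ (2 * m) + v * (r * k), ?_, ?_⟩
  · have h1 : Gh δ u v m = (2 * m + 1) * u ^ (2 * m) + v ^ 2 * k := by linarith
    have h2 : v ^ 2 = ((2 * m + 1 : ℕ) : ℤ) * (v * r) := by
      rw [pow_two]
      nth_rewrite 2 [hr]
      ring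
    rw [h1, h2]
    push_cast
    ring
  · have h1 : IsCoprime v (u ^ (2 * m) + v * (r * k)) := by
      refine IsCoprime.add_mul_left_right ?_ _
      exact huv.symm.pow_right
    refine IsCoprime.mul_left ?_ h1
    exact h1.of_isCoprime_of_dvd_left ⟨r, hr⟩

/-- `p^{2m+1} c'' = c'^{2m}` is impossible for coprime `c'`, `c''` -/
lemma no_val (m : ℕ) (hm : 1 ≤ m) (hp : (2 * m + 1).Prime) (c' c'' : ℕ)
    (hco : Nat.Coprime c' c'') : (2 * m + 1) ^ (2 * m) * ((2 * m + 1) * c'') ≠ c' ^ (2 * m) := by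
  intro h
  have h1 : c'' ∣ c' ^ (2 * m) := ⟨(2 * m + 1) ^ (2 * m) * (2 * m + 1), by rw [← h]; ring⟩
  have h2 : c'' = 1 := by
    have h3 : Nat.Coprime (c' ^ (2 * m)) c'' := hco.pow_left _
    exact Nat.eq_one_of_dvd_coprimes h3 h1 dvd_rfl
  rw [h2, mul_one, ← pow_succ] at h
  have h4 : (2 * m + 1) ∣ c' := by
    apply hp.dvd_of_dvd_pow (n := 2 * m)
    rw [← h]
    exact dvd_pow_self _ (by omega)
  obtain ⟨k, hk⟩ := h4
  rw [hk, mul_pow, pow_succ] at h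
  have h5 := Nat.eq_of_mul_eq_mul_left (pow_pos (by omega) _) h
  have h6 : (2 * m + 1) ∣ k := by
    apply hp.dvd_of_dvd_pow (n := 2 * m)
    rw [← h5]
  obtain ⟨l, hl⟩ := h6
  rw [hl] at h5
  have hl0 : l ≠ 0 := by
    rintro rfl
    rw [mul_zero, zero_pow (by omega)] at h5
    omega
  have h7 : (2 * m + 1) ^ 2 ≤ ((2 * m + 1) * l) ^ (2 * m) := by
    calc (2 * m + 1) ^ 2 ≤ (2 * m + 1) ^ (2 * m) := Nat.pow_le_pow_right (by omega) (by omega)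
      _ ≤ ((2 * m + 1) * l) ^ (2 * m) :=
        Nat.pow_le_pow_left (Nat.le_mul_of_pos_right _ (by omega)) _
  rw [← h5] at h7
  nlinarith

/-- the configurations -/
def BdAll (δ : ℤ) (m c d : ℕ) (q n : ℕ) : Prop :=
  ∃ i ∈ c.divisors ×ˢ d.divisors,
    ((¬ (2 * m + 1) ∣ c ∧ ¬ (2 * m + 1) ∣ d) ∧ BadG δ m i.1 1 i.2 1 (c / i.1) (d / i.2) q n) ∨
    ((2 ≤ d ∧ Nat.Coprime i.1 (c / i.1)) ∧
      BadG δ m i.1 (2 * m + 1) i.2 1 ((2 * m + 1) * (c / i.1)) (d / i.2) q n) ∨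
    ((2 ≤ c ∧ Nat.Coprime i.2 (d / i.2)) ∧
      BadG δ m i.1 1 i.2 (2 * m + 1) (c / i.1) ((2 * m + 1) * (d / i.2)) q n)

lemma e_aux1 (P m c' c'' d' d'' : ℕ) : 1 ^ (4 * m) * ((P ^ (2 * m) * (P * c'')) ^ 2 *
    (1 ^ 2 * c' ^ 2) + 1 * (d' * P) ^ 2 * (P ^ (2 * m) * d'') ^ 2) =
    (P ^ 2) ^ (2 * m + 1) * ((c' * c'') ^ 2 + (d' * d'') ^ 2) := by ring

lemma e_aux2 (P m c' c'' d' d'' : ℕ) : P ^ (4 * m) * (c'' ^ 2 * (P ^ 2 * c' ^ 2) +
    1 * d' ^ 2 * (P * d'') ^ 2) =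
    (P ^ 2) ^ (2 * m + 1) * ((c' * c'') ^ 2 + (d' * d'') ^ 2) := by ring

lemma Sparse.and_left {P : Prop} {A : ℕ → ℕ → Prop} (h : P → Sparse A) :
    Sparse (fun q n => P ∧ A q n) := by
  by_cases hP : P
  · exact (h hP).mono (fun q n h => h.2)
  · exact Sparse.false.mono (fun q n h => hP h.1)

/-- the admissible parameters -/
def OK2 (m c d : ℕ) : Prop :=
  1 ≤ m ∧ (2 * m + 1).Prime ∧ 1 ≤ c ∧ 1 ≤ d ∧ Nat.Coprime c d ∧
    c ^ 2 + d ^ 2 < 2 ^ (2 * m + 1)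

theorem all_sparse (δ : ℤ) (hδ : δ.natAbs = 1) (m c d : ℕ) (h : OK2 m c d) :
    Sparse (BdAll δ m c d) := by
  classical
  obtain ⟨hm, hp, hc, hd, hcd, hsz⟩ := h
  have hδ0 : δ ≠ 0 := by
    rintro rfl
    simp at hδ
  have hpδ : ∀ k : ℕ, k.Prime → ¬ (k : ℤ) ∣ δ := by
    intro k hk h
    have h3 := Int.natAbs_dvd_natAbs.mpr h
    rw [Int.natAbs_natCast, hδ] at h3
    have := Nat.le_of_dvd one_pos h3
    have := hk.two_le
    omega
  apply Sparse.exists_mem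
  rintro ⟨c', d'⟩ hi
  rw [Finset.mem_product] at hi
  obtain ⟨h1, h2⟩ := hi
  simp only at h1 h2
  have hc1 := Nat.dvd_of_mem_divisors h1
  have hd1 := Nat.dvd_of_mem_divisors h2
  have hc' : 1 ≤ c' := Nat.pos_of_dvd_of_pos hc1 hc
  have hd' : 1 ≤ d' := Nat.pos_of_dvd_of_pos hd1 hd
  simp only
  obtain ⟨c'', ec⟩ := hc1
  obtain ⟨d'', ed⟩ := hd1
  have ec' : c / c' = c'' := by rw [ec, Nat.mul_div_cancel_left _ hc']
  have ed' : d / d' = d'' := by rw [ed, Nat.mul_div_cancel_left _ hd']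
  rw [ec', ed']
  have hc'' : 1 ≤ c'' := by
    rcases Nat.eq_zero_or_pos c'' with h | h
    · rw [h] at ec; omega
    · exact h
  have hd'' : 1 ≤ d'' := by
    rcases Nat.eq_zero_or_pos d'' with h | h
    · rw [h] at ed; omega
    · exact h
  have hccd : Nat.Coprime c'' d'' := by
    apply Nat.Coprime.coprime_dvd_left (Dvd.intro_left c' ec.symm)
    exact Nat.Coprime.coprime_dvd_right (Dvd.intro_left d' ed.symm) hcd
  have hpow : ∀ r t : ℕ, 1 ≤ r → 1 ≤ t → c ^ 2 + d ^ 2 < (r ^ 2 + t ^ 2) ^ (2 * m + 1) := by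
    intro r t hr ht
    refine lt_of_lt_of_le hsz (Nat.pow_le_pow_left ?_ _)
    have : 1 ≤ r ^ 2 := Nat.one_le_pow _ _ hr
    have : 1 ≤ t ^ 2 := Nat.one_le_pow _ _ ht
    omega
  have hP1 : 1 ≤ 2 * m + 1 := by omega
  have pp2 : ∀ P : ℕ, P ^ (2 * (2 * m + 1)) = (P ^ 2) ^ (2 * m + 1) := fun P => pow_mul _ _ _
  refine Sparse.or ?_ (Sparse.or ?_ ?_)
  · -- first case
    refine Sparse.and_left ?_
    rintro ⟨hpc, hpd⟩
    refine sparse_badG δ m c' 1 d' 1 c'' d'' hδ0 hm hc' le_rfl hd' le_rfl hc'' hd'' hp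
      (hpδ _ hp) ?_ ?_ ?_
    · rw [mul_one, one_pow, one_mul, one_mul]
      refine ph_HT_size δ m c' d' 1 c'' d'' hc' le_rfl ?_
      have e1 : 1 ^ (4 * m) * (c'' ^ 2 * (1 ^ 2 * c' ^ 2) + δ.natAbs * d' ^ 2 * d'' ^ 2) =
          c ^ 2 + d ^ 2 := by
        rw [hδ, ec, ed]
        ring
      rw [e1, hδ, one_pow, one_mul, one_mul]
      exact hpow _ _ hc' hd'
    · left
      rw [one_pow, one_mul, hδ, one_pow, mul_one]
      intro h
      apply hpc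
      rw [ec, h]
      exact Dvd.dvd.mul_left (dvd_mul_right _ _) _
    · right
      rw [one_pow, one_mul]
      intro h
      apply hpd
      rw [ed, h]
      exact Dvd.dvd.mul_left (dvd_mul_right _ _) _
  · -- `p ∣ u`
    refine Sparse.and_left ?_
    rintro ⟨hd2, hco⟩
    refine sparse_badG δ m c' (2 * m + 1) d' 1 ((2 * m + 1) * c'') d'' hδ0 hm hc' hP1 hd' le_rfl
      (Nat.mul_pos hP1 hc'') hd'' hp (hpδ _ hp) ?_ ?_ ?_
    · by_cases hpc' : (2 * m + 1) ∣ c'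
      · obtain ⟨r, hr⟩ := hpc'
        have hr1 : 1 ≤ r := by
          rcases Nat.eq_zero_or_pos r with h | h
          · rw [h] at hr; omega
          · exact h
        refine ph_HT_size δ m c' _ 1 _ _ hc' le_rfl ?_
        have e1 : 1 ^ (4 * m) * (((2 * m + 1) ^ (2 * m) * ((2 * m + 1) * c'')) ^ 2 *
            (1 ^ 2 * c' ^ 2) + δ.natAbs * (d' * (2 * m + 1)) ^ 2 *
            ((2 * m + 1) ^ (2 * m) * d'') ^ 2) =
            ((2 * m + 1) ^ 2) ^ (2 * m + 1) * (c ^ 2 + d ^ 2) := by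
          rw [hδ, ec, ed]
          exact e_aux1 _ m c' c'' d' d''
        rw [e1, hδ]
        have e2 : 1 ^ 2 * c' ^ 2 + 1 * (d' * (2 * m + 1)) ^ 2 =
            (2 * m + 1) ^ 2 * (r ^ 2 + d' ^ 2) := by
          rw [hr]
          ring
        rw [e2, mul_pow]
        exact Nat.mul_lt_mul_of_pos_left (hpow _ _ hr1 hd') (by positivity)
      · refine ph_HT_a m hm (2 * m + 1) hp δ c' _ 1 _ _ hpc' ?_ (dvd_mul_left _ _) ?_ ?_
        · intro h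
          have := Nat.le_of_dvd one_pos h
          omega
        · exact Nat.mul_ne_zero (by omega) (by omega)
        · exact Dvd.dvd.mul_left (dvd_mul_right _ _) _
    · rw [one_pow, one_mul, one_mul, hδ, one_pow, mul_one, one_mul]
      by_contra hcon
      push Not at hcon
      obtain ⟨g1, g2⟩ := hcon
      have g3 : c'' = d' ^ (2 * m) := Nat.eq_of_mul_eq_mul_left (by omega) g1
      rw [g3, ← g2] at hccd
      have g4 : d'' = 1 := (Nat.coprime_self _).mp hccd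
      rw [g4] at g2
      have g5 : d' = 1 := by
        by_contra h
        have : 2 ≤ d' := by omega
        have : 1 < d' ^ (2 * m) := Nat.one_lt_pow (by omega) (by omega)
        omega
      rw [ed, g4, g5] at hd2
      omega
    · left
      exact no_val m hm hp c' c'' hco
  · -- `p ∣ v`
    refine Sparse.and_left ?_
    rintro ⟨hc2, hco⟩
    refine sparse_badG δ m c' 1 d' (2 * m + 1) c'' ((2 * m + 1) * d'') hδ0 hm hc' le_rfl hd' hP1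
      hc'' (Nat.mul_pos hP1 hd'') hp (hpδ _ hp) ?_ ?_ ?_
    · rw [mul_one, one_pow, one_mul, one_mul]
      by_cases hpd' : (2 * m + 1) ∣ d'
      · obtain ⟨r, hr⟩ := hpd'
        have hr1 : 1 ≤ r := by
          rcases Nat.eq_zero_or_pos r with h | h
          · rw [h] at hr; omega
          · exact h
        refine ph_HT_size δ m c' _ _ _ _ hc' hP1 ?_
        have e1 : (2 * m + 1) ^ (4 * m) * (c'' ^ 2 * ((2 * m + 1) ^ 2 * c' ^ 2) +
            δ.natAbs * d' ^ 2 * ((2 * m + 1) * d'') ^ 2) =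
            ((2 * m + 1) ^ 2) ^ (2 * m + 1) * (c ^ 2 + d ^ 2) := by
          rw [hδ, ec, ed]
          exact e_aux2 _ m c' c'' d' d''
        rw [e1, hδ]
        have e2 : (2 * m + 1) ^ 2 * c' ^ 2 + 1 * d' ^ 2 =
            (2 * m + 1) ^ 2 * (c' ^ 2 + r ^ 2) := by
          rw [hr]
          ring
        rw [e2, mul_pow]
        exact Nat.mul_lt_mul_of_pos_left (hpow _ _ hc' hr1) (by positivity)
      · exact ph_HT_b m hm (2 * m + 1) hp δ (hpδ _ hp) c' _ _ _ _ hpd' dvd_rfl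
    · right
      rw [hδ, one_pow, one_mul]
      exact no_val m hm hp d' d'' hco
    · rw [one_pow, one_mul, one_mul]
      by_contra hcon
      push Not at hcon
      obtain ⟨g1, g2⟩ := hcon
      have g3 : d'' = c' ^ (2 * m) := Nat.eq_of_mul_eq_mul_left (by omega) g2
      rw [g3, ← g1] at hccd
      have g4 : c'' = 1 := (Nat.coprime_self _).mp hccd
      rw [g4] at g1
      have g5 : c' = 1 := by
        by_contra h
        have : 2 ≤ c' := by omega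
        have : 1 < c' ^ (2 * m) := Nat.one_lt_pow (by omega) (by omega)
        omega
      rw [ec, g4, g5] at hc2
      omega

/-- the local theorem -/
theorem all_local (δ : ℤ) (hδ : δ.natAbs = 1) (m c d : ℕ) (hOK : OK2 m c d) (s q : ℕ)
    (hsp : s.Prime) (hs2 : 2 < s) (hq : q.Prime) (hqm : 2 * m + 1 < q) (hsq : s ∣ q - 1)
    (hnb : ¬ BdAll δ m c d q ((q - 1) / s)) (x y u v : ℤ)
    (hx0 : x ≠ 0) (hy0 : y ≠ 0)
    (hx : 2 ≤ d ∨ ¬ ((2 * m + 1 : ℕ) : ℤ) ∣ (c : ℤ) * x)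
    (hy : 2 ≤ c ∨ ¬ ((2 * m + 1 : ℕ) : ℤ) ∣ (d : ℤ) * y)
    (hco2 : IsCoprime ((c : ℤ) * x ^ s) ((d : ℤ) * y ^ s))
    (hu : (c : ℤ) * x ^ s = u * Fh δ u v m) (hv : (d : ℤ) * y ^ s = v * Gh δ u v m) : False := by
  obtain ⟨hm, hp, hc, hd, hcd, hsz⟩ := hOK
  have hδu : IsUnit δ := Int.isUnit_iff_natAbs_eq.mpr hδ
  have hδ0 : ¬ ((2 * m + 1 : ℕ) : ℤ) ∣ δ := by
    intro h
    have h3 := Int.natAbs_dvd_natAbs.mpr h
    rw [Int.natAbs_natCast, hδ] at h3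
    have := Nat.le_of_dvd one_pos h3
    omega
  apply hnb
  have hF1 : Fact q.Prime := ⟨hq⟩
  have hsodd : Odd s := hsp.odd_of_ne_two (by omega)
  have hpp : Prime ((2 * m + 1 : ℕ) : ℤ) := Nat.prime_iff_prime_int.mp hp
  have huv : IsCoprime u v := by
    rw [hu, hv] at hco2
    exact hco2.of_mul_left_left.of_mul_right_left
  have hud : IsCoprime u δ := ⟨0, δ, by rw [Int.isUnit_mul_self hδu]; ring⟩
  have h1q : ((1 : ℕ) : ZMod q) ≠ 0 := by rw [Nat.cast_one]; exact one_ne_zero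
  have hpq : ((2 * m + 1 : ℕ) : ZMod q) ≠ 0 := natCast_ne_zero_of_lt (by omega) hqm (ZMod q)
  have hsn : s * ((q - 1) / s) = q - 1 := Nat.mul_div_cancel' hsq
  have hfin : ∀ c' c'' d' d'' : ℕ, 1 ≤ c' → 1 ≤ d' → c' * c'' = c → d' * d'' = d →
      (c', d') ∈ c.divisors ×ˢ d.divisors ∧ c / c' = c'' ∧ d / d' = d'' := by
    intro c' c'' d' d'' hc'0 hd'0 hcc hdd
    refine ⟨?_, ?_, ?_⟩
    · rw [Finset.mem_product, Nat.mem_divisors, Nat.mem_divisors]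
      exact ⟨⟨⟨c'', hcc.symm⟩, by omega⟩, ⟨⟨d'', hdd.symm⟩, by omega⟩⟩
    · rw [← hcc, Nat.mul_div_cancel_left _ hc'0]
    · rw [← hdd, Nat.mul_div_cancel_left _ hd'0]
  by_cases hpu : ((2 * m + 1 : ℕ) : ℤ) ∣ u
  · -- case 2
    have hpv : ¬ ((2 * m + 1 : ℕ) : ℤ) ∣ v := by
      intro h
      exact hpp.not_isUnit (huv.isUnit_of_dvd' hpu h)
    have hG := cop_G m hp δ u v huv hpv
    obtain ⟨F1, hF, hcoF⟩ := second_F m δ u v huv hud hpu
    obtain ⟨c', c'', hc'0, hc''0, hcc, hcop, w1, w3, e1, e3⟩ := split_pow' c hc s hsodd x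
      (((2 * m + 1 : ℕ) : ℤ) * u) F1 hx0 hcoF (by rw [hu, hF]; ring)
    obtain ⟨d', d'', hd'0, hd''0, hdd, _, w2, w4, e2, e4⟩ := split_pow' d hd s hsodd y v _ hy0 hG
      hv.symm
    obtain ⟨g1, g2, g3⟩ := hfin c' c'' d' d'' hc'0 hd'0 hcc hdd
    refine ⟨(c', d'), g1, Or.inr (Or.inl ⟨⟨?_, ?_⟩, ?_⟩)⟩
    · rcases hx with h | h
      · exact h
      · exfalso
        apply h
        have h5 : ((2 * m + 1 : ℕ) : ℤ) ∣ (c : ℤ) * x ^ s := by rw [hu]; exact hpu.mul_right _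
        rcases hpp.dvd_or_dvd h5 with h6 | h6
        · exact h6.mul_right _
        · exact (hpp.dvd_of_dvd_pow h6).mul_left _
    · simp only
      rw [g2]
      exact hcop
    · simp only
      rw [g2, g3]
      refine badG_of δ m c' (2 * m + 1) d' 1 ((2 * m + 1) * c'') d'' q s ((q - 1) / s) hq hsn
        hpq h1q u v w1 w2 w3 w4 huv e1 (by rw [Nat.cast_one, one_mul]; exact e2) ?_ e4
      rw [hF, e3]
      push_cast
      ring
  by_cases hpv : ((2 * m + 1 : ℕ) : ℤ) ∣ v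
  · have hF := cop_F m hp δ u v huv hud hpu
    obtain ⟨G1, hG, hcoG⟩ := second_G m δ u v huv hpv
    obtain ⟨c', c'', hc'0, hc''0, hcc, _, w1, w3, e1, e3⟩ := split_pow' c hc s hsodd x
      u _ hx0 hF hu.symm
    obtain ⟨d', d'', hd'0, hd''0, hdd, hcop, w2, w4, e2, e4⟩ := split_pow' d hd s hsodd y
      (((2 * m + 1 : ℕ) : ℤ) * v) G1 hy0 hcoG (by rw [hv, hG]; ring)
    obtain ⟨g1, g2, g3⟩ := hfin c' c'' d' d'' hc'0 hd'0 hcc hdd
    refine ⟨(c', d'), g1, Or.inr (Or.inr ⟨⟨?_, ?_⟩, ?_⟩)⟩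
    · rcases hy with h | h
      · exact h
      · exfalso
        apply h
        have h5 : ((2 * m + 1 : ℕ) : ℤ) ∣ (d : ℤ) * y ^ s := by rw [hv]; exact hpv.mul_right _
        rcases hpp.dvd_or_dvd h5 with h6 | h6
        · exact h6.mul_right _
        · exact (hpp.dvd_of_dvd_pow h6).mul_left _
    · simp only
      rw [g3]
      exact hcop
    · simp only
      rw [g2, g3]
      refine badG_of δ m c' 1 d' (2 * m + 1) c'' ((2 * m + 1) * d'') q s ((q - 1) / s) hq hsn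
        h1q hpq u v w1 w2 w3 w4 huv (by rw [Nat.cast_one, one_mul]; exact e1) e2 e3 ?_
      rw [hG, e4]
      push_cast
      ring
  · have hF := cop_F m hp δ u v huv hud hpu
    have hG := cop_G m hp δ u v huv hpv
    obtain ⟨c', c'', hc'0, hc''0, hcc, _, w1, w3, e1, e3⟩ := split_pow' c hc s hsodd x
      u _ hx0 hF hu.symm
    obtain ⟨d', d'', hd'0, hd''0, hdd, _, w2, w4, e2, e4⟩ := split_pow' d hd s hsodd y v _ hy0 hG
      hv.symm
    obtain ⟨g1, g2, g3⟩ := hfin c' c'' d' d'' hc'0 hd'0 hcc hdd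
    refine ⟨(c', d'), g1, Or.inl ⟨⟨?_, ?_⟩, ?_⟩⟩
    · intro h
      have h5 : ((2 * m + 1 : ℕ) : ℤ) ∣ u * Fh δ u v m := by
        rw [← hu]
        exact (Int.natCast_dvd_natCast.mpr h).mul_right _
      rcases hpp.dvd_or_dvd h5 with h6 | h6
      · exact hpu h6
      · exact hpu ((FG_dvd_p m hm hp δ u v hδ0).1 h6)
    · intro h
      have h5 : ((2 * m + 1 : ℕ) : ℤ) ∣ v * Gh δ u v m := by
        rw [← hv]
        exact (Int.natCast_dvd_natCast.mpr h).mul_right _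
      rcases hpp.dvd_or_dvd h5 with h6 | h6
      · exact hpv h6
      · exact hpv ((FG_dvd_p m hm hp δ u v hδ0).2 h6)
    · simp only
      rw [g2, g3]
      exact badG_of δ m c' 1 d' 1 c'' d'' q s ((q - 1) / s) hq hsn
        h1q h1q u v w1 w2 w3 w4 huv (by rw [Nat.cast_one, one_mul]; exact e1)
        (by rw [Nat.cast_one, one_mul]; exact e2) e3 e4

/-- no solution of `c² x^{2s} + d² y^{2s} = z^p` -/
theorem sum_local2 (m c d : ℕ) (hOK : OK2 m c d) (s q : ℕ)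
    (hsp : s.Prime) (hs2 : 2 < s) (hq : q.Prime) (hqm : 2 * m + 1 < q) (hsq : s ∣ q - 1)
    (hnb : ¬ BdAll (-1) m c d q ((q - 1) / s)) (x y z : ℤ)
    (hx0 : x ≠ 0) (hy0 : y ≠ 0)
    (hx : 2 ≤ d ∨ ¬ ((2 * m + 1 : ℕ) : ℤ) ∣ (c : ℤ) * x)
    (hy : 2 ≤ c ∨ ¬ ((2 * m + 1 : ℕ) : ℤ) ∣ (d : ℤ) * y)
    (hco : IsCoprime ((c : ℤ) * x) ((d : ℤ) * y)) :
    (c : ℤ) ^ 2 * x ^ (2 * s) + (d : ℤ) ^ 2 * y ^ (2 * s) ≠ z ^ (2 * m + 1) := by
  intro heq
  have hco2 := cop_pow s hco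
  obtain ⟨u, v, hu, hv⟩ := gauss ((c : ℤ) * x ^ s) ((d : ℤ) * y ^ s) z m hOK.1 hco2 (by
    rw [← heq]
    ring)
  exact all_local (-1) rfl m c d hOK s q hsp hs2 hq hqm hsq hnb x y u v hx0 hy0 hx hy hco2 hu hv

/-- no solution of `c² x^{2s} - d² y^{2s} = z^p` with `z` odd -/
theorem diff_local2 (m c d : ℕ) (hOK : OK2 m c d) (s q : ℕ)
    (hsp : s.Prime) (hs2 : 2 < s) (hq : q.Prime) (hqm : 2 * m + 1 < q) (hsq : s ∣ q - 1)
    (hnb : ¬ BdAll 1 m c d q ((q - 1) / s)) (x y z : ℤ) (hz : Odd z)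
    (hx0 : x ≠ 0) (hy0 : y ≠ 0)
    (hx : 2 ≤ d ∨ ¬ ((2 * m + 1 : ℕ) : ℤ) ∣ (c : ℤ) * x)
    (hy : 2 ≤ c ∨ ¬ ((2 * m + 1 : ℕ) : ℤ) ∣ (d : ℤ) * y)
    (hco : IsCoprime ((c : ℤ) * x) ((d : ℤ) * y)) :
    (c : ℤ) ^ 2 * x ^ (2 * s) - (d : ℤ) ^ 2 * y ^ (2 * s) ≠ z ^ (2 * m + 1) := by
  intro heq
  have hco2 := cop_pow s hco
  obtain ⟨u, v, hu, hv⟩ := split_desc ((c : ℤ) * x ^ s) ((d : ℤ) * y ^ s) z m hco2 hz (by
    rw [← heq]
    ring)
  exact all_local 1 rfl m c d hOK s q hsp hs2 hq hqm hsq hnb x y u v hx0 hy0 hx hy hco2 hu hv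

end Pool.Agent.H573.AHB
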