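import Pool.Agent.H573.AHB.PsiB
import Pool.Agent.H573.AHB.Second

/-!
Counting the primes `q` modulo which there are `(U, V) ≠ (0, 0)` such that each of
`U, F_p(U,V), F_r(U,V), Ψ(U,V)` is zero or in a fixed multiple of `μ_n`.
-/

namespace Pool.Agent.H573.AHB

open Polynomial

/-- the three polynomials -/
noncomputable def phP (δ : ℤ) (m l : ℕ) (ψ : ℤ[X]) (h2 : ℕ) : Fin 3 → ℤ[X] :=
  ![fp δ m, C (h2 : ℤ) * fp δ l, ψ]

/-- the bad pairs -/
def BadP (δ : ℤ) (m l : ℕ) (ψ : ℤ[X]) (a e h1 h2 g q n : ℕ) : Prop :=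
  ∃ U V : ZMod q, (U ≠ 0 ∨ V ≠ 0) ∧ (U = 0 ∨ ((a : ZMod q) * U) ^ n = 1) ∧
    (Fh (δ : ZMod q) U V m = 0 ∨ Fh (δ : ZMod q) U V m ^ n = (e : ZMod q) ^ n) ∧
    (Fh (δ : ZMod q) U V l = 0 ∨ ((h2 : ZMod q) * Fh (δ : ZMod q) U V l) ^ n =
      (h1 : ZMod q) ^ n) ∧
    (hmg ψ (4 * (m * l)) U V = 0 ∨ (hmg ψ (4 * (m * l)) U V) ^ n = (g : ZMod q) ^ n)

lemma root_exists {K : Type*} [Field K] [IsAlgClosed K] (P : ℤ[X]) (D : ℕ) (hD : 1 ≤ D)
    (hc : ((P.coeff D : ℤ) : K) ≠ 0) : ∃ z : K, aeval z P = 0 := by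
  have h1 : (P.map (algebraMap ℤ K)).degree ≠ 0 := by
    intro h0
    have h3 : (P.map (algebraMap ℤ K)).natDegree = 0 := natDegree_eq_of_degree_eq_some h0
    have h4 : (P.map (algebraMap ℤ K)).coeff D = 0 :=
      coeff_eq_zero_of_natDegree_lt (by omega)
    rw [coeff_map] at h4
    apply hc
    rw [← h4]
    exact (eq_intCast (algebraMap ℤ K) _).symm
  obtain ⟨z, hz⟩ := IsAlgClosed.exists_root _ h1
  refine ⟨z, ?_⟩
  rw [IsRoot.def, eval_map_algebraMap] at hz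
  exact hz

/-- no common root of `f_m` and `ψ` -/
lemma no_common_psi {K : Type*} [Field K] [IsAlgClosed K] (h2 : (2 : K) ≠ 0) (δ : ℤ)
    (hδ : (δ : K) ≠ 0) (m l : ℕ) (ψ : ℤ[X]) (h : IsPsi δ m l ψ)
    (hl : (2 * (l : K) + 1) ≠ 0) (z : K)
    (hf : Fh (δ : K) 1 z m = 0) : aeval z ψ ≠ 0 := by
  intro hψ
  have h1 := aeval_pA z δ m l
  rw [h.hA, map_mul, hψ, mul_zero, hf, (FG_u0 _ _ l).1] at h1
  have h3 := (mul_eq_zero.mp h1.symm).resolve_left hl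
  have h4 := pow_eq_zero_iff (n := l) (by
    rintro rfl
    simp at h3) |>.mp h3
  have h5 := (mul_eq_zero.mp h4).resolve_left hδ
  have h6 := pow_eq_zero_iff (two_ne_zero) |>.mp h5
  rcases mul_eq_zero.mp h6 with h7 | h7
  · rw [h7, (FG_v0 _ _ m).1, one_pow] at hf
    exact one_ne_zero hf
  · exact no_common h2 _ _ _ hf h7

lemma unit_ne_zero {K : Type*} [Field K] (δ : ℤ) (hδ1 : δ.natAbs = 1) : (δ : K) ≠ 0 := by
  rcases Int.natAbs_eq δ with h | h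
  · rw [h, hδ1]; simp
  · rw [h, hδ1]; simp

lemma odd_ne_zero (K : Type*) [Field K] (q : ℕ) [CharP K q] (m : ℕ) (hqm : 2 * m + 1 < q) :
    (2 * (m : K) + 1) ≠ 0 := by
  have := natCast_ne_zero_of_lt (k := 2 * m + 1) (by omega) hqm K
  push_cast at this
  exact this

lemma two_ne_zero' (K : Type*) [Field K] (q : ℕ) [CharP K q] (hq : 2 < q) :
    (2 : K) ≠ 0 := by
  have := natCast_ne_zero_of_lt (k := 2) (by omega) hq K
  push_cast at this
  exact this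

lemma aeval_map_zero {A K : Type*} [CommRing A] [CommRing K] (f : A →+* K) (t : A) (P : ℤ[X])
    (h : aeval t P = 0) : aeval (f t) P = 0 := by
  have h1 := hom_eval₂ P (algebraMap ℤ A) f t
  rw [← aeval_def, h, map_zero] at h1
  rw [aeval_def, h1]
  congr 1
  exact RingHom.ext_int _ _

lemma zmod_nc (K : Type) [Field K] [IsAlgClosed K] (δ : ℤ) (hδ1 : δ.natAbs = 1) (m l : ℕ)
    (hco : Nat.Coprime (2 * m + 1) (2 * l + 1)) (ψ : ℤ[X]) (hψ : IsPsi δ m l ψ) (q : ℕ)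
    [CharP K q] (hq2 : 2 < q) (hqm : 2 * m + 1 < q) (hql : 2 * l + 1 < q)
    (f : ZMod q →+* K) (t : ZMod q) :
    (aeval t (fp δ m) = 0 → aeval t (fp δ l) ≠ 0) ∧ (aeval t (fp δ m) = 0 → aeval t ψ ≠ 0) ∧
    (aeval t (fp δ l) = 0 → aeval t ψ ≠ 0) := by
  have kk2 := two_ne_zero' K q hq2
  have kkδ := unit_ne_zero (K := K) δ hδ1
  have kkm := odd_ne_zero K q m hqm
  have kkl := odd_ne_zero K q l hql
  refine ⟨?_, ?_, ?_⟩
  · intro g1 g2
    have g3 := aeval_map_zero f t _ g1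
    have g4 := aeval_map_zero f t _ g2
    rw [aeval_fp] at g3 g4
    exact no_common2 kk2 _ _ _ _ hco g3 g4
  · intro g1 g2
    have g3 := aeval_map_zero f t _ g1
    have g4 := aeval_map_zero f t _ g2
    rw [aeval_fp] at g3
    exact no_common_psi kk2 δ kkδ m l ψ hψ kkl _ g3 g4
  · intro g1 g2
    have g3 := aeval_map_zero f t _ g1
    have g4 := aeval_map_zero f t _ g2
    rw [aeval_fp] at g3
    exact no_common_psi kk2 δ kkδ l m ψ hψ.symm kkm _ g3 g4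

lemma phP_Hq (K : Type) [Field K] [IsAlgClosed K] (δ : ℤ) (hδ1 : δ.natAbs = 1) (m l : ℕ)
    (hm : 1 ≤ m) (hl : 1 ≤ l)
    (hco : Nat.Coprime (2 * m + 1) (2 * l + 1)) (ψ : ℤ[X]) (hψ : IsPsi δ m l ψ) (h2 : ℕ)
    (hh2 : 1 ≤ h2) (q : ℕ)
    [CharP K q] (hqm : 2 * m + 1 < q) (hql : 2 * l + 1 < q) (hqh : h2 < q) (i : Fin 3) :
    ∃ z : K, aeval z (phP δ m l ψ h2 i) = 0 ∧ ∀ j, j ≠ i → aeval z (phP δ m l ψ h2 j) ≠ 0 := by
  have k2 := two_ne_zero' K q (by omega)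
  have kδ := unit_ne_zero (K := K) δ hδ1
  have km := odd_ne_zero K q m hqm
  have kl := odd_ne_zero K q l hql
  have kh2 : (h2 : K) ≠ 0 := natCast_ne_zero_of_lt (q := q) hh2 hqh K
  have n12 : ∀ z : K, Fh (δ : K) 1 z m = 0 → Fh (δ : K) 1 z l ≠ 0 := fun z hz =>
    no_common2 k2 _ _ _ _ hco hz
  have n13 : ∀ z : K, Fh (δ : K) 1 z m = 0 → aeval z ψ ≠ 0 := fun z hz =>
    no_common_psi k2 δ kδ m l ψ hψ kl z hz
  have n23 : ∀ z : K, Fh (δ : K) 1 z l = 0 → aeval z ψ ≠ 0 := fun z hz =>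
    no_common_psi k2 δ kδ l m ψ hψ.symm km z hz
  have v1 : ∀ z : K, aeval z (phP δ m l ψ h2 0) = Fh (δ : K) 1 z m := by
    intro z
    simp only [phP, Matrix.cons_val_zero]
    exact aeval_fp z δ m
  have v2 : ∀ z : K, aeval z (phP δ m l ψ h2 1) = h2 * Fh (δ : K) 1 z l := by
    intro z
    simp only [phP, Matrix.cons_val_zero, Matrix.cons_val_one]
    rw [map_mul, aeval_fp, aeval_C]
    simp
  have v3 : ∀ z : K, aeval z (phP δ m l ψ h2 2) = aeval z ψ := by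
    intro z
    simp only [phP, Matrix.cons_val_two, Matrix.tail_cons, Matrix.head_cons]
  have hj3 : ∀ j : Fin 3, j = 0 ∨ j = 1 ∨ j = 2 := by
    intro j
    fin_cases j <;> simp
  rcases hj3 i with rfl | rfl | rfl
  · obtain ⟨z, hz⟩ := root_exists (K := K) (fp δ m) (2 * m)
      (by omega) (by
        rw [(fgp_deg δ m).2.2.1]
        push_cast
        exact mul_ne_zero km (pow_ne_zero _ kδ))
    rw [aeval_fp] at hz
    refine ⟨z, by rw [v1, hz], ?_⟩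
    intro j hj
    rcases hj3 j with rfl | rfl | rfl
    · exact absurd rfl hj
    · rw [v2]; exact mul_ne_zero kh2 (n12 z hz)
    · rw [v3]; exact n13 z hz
  · obtain ⟨z, hz⟩ := root_exists (K := K) (fp δ l) (2 * l)
      (by omega) (by
        rw [(fgp_deg δ l).2.2.1]
        push_cast
        exact mul_ne_zero kl (pow_ne_zero _ kδ))
    rw [aeval_fp] at hz
    refine ⟨z, by rw [v2, hz, mul_zero], ?_⟩
    intro j hj
    rcases hj3 j with rfl | rfl | rfl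
    · rw [v1]; intro h; exact n12 z h hz
    · exact absurd rfl hj
    · rw [v3]; exact n23 z hz
  · obtain ⟨z, hz⟩ := root_exists (K := K) ψ (4 * (m * l))
      (by
        have := Nat.mul_pos (show 0 < m by omega) (show 0 < l by omega)
        omega) (by
        rw [hψ.top]
        push_cast
        exact pow_ne_zero _ kδ)
    refine ⟨z, by rw [v3, hz], ?_⟩
    intro j hj
    rcases hj3 j with rfl | rfl | rfl
    · rw [v1]; intro h; exact n13 z h hz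
    · rw [v2]; refine mul_ne_zero kh2 ?_; intro h; exact n23 z h hz
    · exact absurd rfl hj

/-- **Core theorem for the degree `p r`.** -/
theorem sparse_badP (δ : ℤ) (hδ1 : δ.natAbs = 1) (m l : ℕ) (hm : 1 ≤ m) (hl : 1 ≤ l)
    (hco : Nat.Coprime (2 * m + 1) (2 * l + 1)) (ψ : ℤ[X]) (hψ : IsPsi δ m l ψ)
    (a e h1 h2 g : ℕ) (ha : 1 ≤ a) (he : 1 ≤ e) (hh1 : 1 ≤ h1) (hh2 : 1 ≤ h2) (hg : 1 ≤ g)
    (Z1 : (∀ n : ℕ, 1 ≤ n → ∀ z : ℂ, aeval z (fp δ m) = 0 →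
        (aeval z (C (h2 : ℤ) * fp δ l)) ^ n ≠ ((a ^ (2 * l) * h1 : ℕ) : ℂ) ^ n) ∨
      (∀ n : ℕ, 1 ≤ n → ∀ z : ℂ, aeval z (fp δ m) = 0 →
        (aeval z ψ) ^ n ≠ ((a ^ (4 * (m * l)) * g : ℕ) : ℂ) ^ n))
    (Z2 : ∀ n : ℕ, 1 ≤ n → ∀ z : ℂ, aeval z (fp δ l) = 0 →
        (aeval z (fp δ m)) ^ n ≠ ((a ^ (2 * m) * e : ℕ) : ℂ) ^ n)
    (Z3 : (∀ n : ℕ, 1 ≤ n → ∀ z : ℂ, aeval z ψ = 0 →
        (aeval z (fp δ m)) ^ n ≠ ((a ^ (2 * m) * e : ℕ) : ℂ) ^ n) ∨
      (∀ n : ℕ, 1 ≤ n → ∀ z : ℂ, aeval z ψ = 0 →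
        (aeval z (C (h2 : ℤ) * fp δ l)) ^ n ≠ ((a ^ (2 * l) * h1 : ℕ) : ℂ) ^ n))
    (HT : ∀ z : ℂ, ∃ i, ∀ N : ℕ, 1 ≤ N → (aeval z (phP δ m l ψ h2 i)) ^ N ≠
      ((cc (a ^ (2 * m) * e) (a ^ (2 * l) * h1) (a ^ (4 * (m * l)) * g) i : ℤ) : ℂ) ^ N)
    (N1 : (2 * m + 1) ^ (2 * l) * g ≠ e ^ (2 * l) ∨
      (h2 * (2 * l + 1)) ^ (2 * m) * g ≠ h1 ^ (2 * m)) :
    Sparse (BadP δ m l ψ a e h1 h2 g) := by
  classical
  have hδ0 : δ ≠ 0 := by
    rintro rfl
    simp at hδ1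
  have hc0 : 1 ≤ a ^ (2 * m) * e := Nat.mul_pos (by positivity) he
  have hc1 : 1 ≤ a ^ (2 * l) * h1 := Nat.mul_pos (by positivity) hh1
  have hc2 : 1 ≤ a ^ (4 * (m * l)) * g := Nat.mul_pos (by positivity) hg
  have hfm := fp_coeff_zero δ m
  have hfl := fp_coeff_zero δ l
  have s1 := sparse_num ((2 * m + 1) ^ (2 * l) * g) (e ^ (2 * l))
    ((h2 * (2 * l + 1)) ^ (2 * m) * g) (h1 ^ (2 * m))
    (Nat.mul_pos (by positivity) hg) (Nat.one_le_pow _ _ he)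
    (Nat.mul_pos (by positivity) hg) (Nat.one_le_pow _ _ hh1) N1
  -- zeros of the first function
  have s2 : Sparse (fun q n => ∃ t : ZMod q, aeval t (fp δ m) = 0 ∧
      (aeval t (C (h2 : ℤ) * fp δ l)) ^ n = ((a ^ (2 * l) * h1 : ℕ) : ZMod q) ^ n ∧
      (aeval t ψ) ^ n = ((a ^ (4 * (m * l)) * g : ℕ) : ZMod q) ^ n) := by
    rcases Z1 with Z | Z
    · exact (sparse_rootG (fp δ m) (ne_zero_of_coeff_zero hfm) (not_C_dvd_of_coeff_zero hfm) _ _
        hc1 Z).mono (fun q n ⟨t, h1, h2, h3⟩ => ⟨t, h1, h2⟩)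
    · exact (sparse_rootG (fp δ m) (ne_zero_of_coeff_zero hfm) (not_C_dvd_of_coeff_zero hfm) _ _
        hc2 Z).mono (fun q n ⟨t, h1, h2, h3⟩ => ⟨t, h1, h3⟩)
  have s3 := sparse_rootG (fp δ l) (ne_zero_of_coeff_zero hfl) (not_C_dvd_of_coeff_zero hfl) _ _
        hc0 Z2
  have s4 : Sparse (fun q n => ∃ t : ZMod q, aeval t ψ = 0 ∧
      (aeval t (fp δ m)) ^ n = ((a ^ (2 * m) * e : ℕ) : ZMod q) ^ n ∧
      (aeval t (C (h2 : ℤ) * fp δ l)) ^ n = ((a ^ (2 * l) * h1 : ℕ) : ZMod q) ^ n) := by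
    rcases Z3 with Z | Z
    · exact (sparse_rootG ψ (ne_zero_of_coeff_zero hψ.zero) (not_C_dvd_of_coeff_zero hψ.zero) _ _
        hc0 Z).mono (fun q n ⟨t, h1, h2, h3⟩ => ⟨t, h1, h2⟩)
    · exact (sparse_rootG ψ (ne_zero_of_coeff_zero hψ.zero) (not_C_dvd_of_coeff_zero hψ.zero) _ _
        hc1 Z).mono (fun q n ⟨t, h1, h2, h3⟩ => ⟨t, h1, h3⟩)
  set q0 : ℕ := 2 * m + 1 + (2 * l + 1) + a + e + h1 + h2 + g with hq0
  have hcst : ∀ q : ℕ, q.Prime → q0 < q → (((a ^ (2 * m) * e : ℕ) : ZMod q) ≠ 0) ∧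
      (((a ^ (2 * l) * h1 : ℕ) : ZMod q) ≠ 0) ∧ (((a ^ (4 * (m * l)) * g : ℕ) : ZMod q) ≠ 0) := by
    intro q hq hlt
    have hF : Fact q.Prime := ⟨hq⟩
    have g1 : (a : ZMod q) ≠ 0 := natCast_ne_zero_of_lt ha (by omega) (ZMod q)
    have g2 : (e : ZMod q) ≠ 0 := natCast_ne_zero_of_lt he (by omega) (ZMod q)
    have g3 : (h1 : ZMod q) ≠ 0 := natCast_ne_zero_of_lt hh1 (by omega) (ZMod q)
    have g4 : (g : ZMod q) ≠ 0 := natCast_ne_zero_of_lt hg (by omega) (ZMod q)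
    refine ⟨?_, ?_, ?_⟩
    · push_cast; exact mul_ne_zero (pow_ne_zero _ g1) g2
    · push_cast; exact mul_ne_zero (pow_ne_zero _ g1) g3
    · push_cast; exact mul_ne_zero (pow_ne_zero _ g1) g4
  obtain ⟨C5, hC5, h5⟩ := count_primes' (r := 3) (by norm_num) (phP δ m l ψ h2)
    (cc (a ^ (2 * m) * e) (a ^ (2 * l) * h1) (a ^ (4 * (m * l)) * g)) (by
      intro i
      have h3cases : i = 0 ∨ i = 1 ∨ i = 2 := by
        fin_cases i <;> simp
      rcases h3cases with rfl | rfl | rfl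
      · simp only [cc, Matrix.cons_val_zero]
        exact_mod_cast (by omega : a ^ (2 * m) * e ≠ 0)
      · simp only [cc, Matrix.cons_val_zero, Matrix.cons_val_one]
        exact_mod_cast (by omega : a ^ (2 * l) * h1 ≠ 0)
      · simp only [cc, Matrix.cons_val_two, Matrix.tail_cons, Matrix.head_cons]
        exact_mod_cast (by omega : a ^ (4 * (m * l)) * g ≠ 0)) q0 (by
      intro q hq hlt i
      obtain ⟨g1, g2, g3⟩ := hcst q hq hlt
      have h3cases : i = 0 ∨ i = 1 ∨ i = 2 := by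
        fin_cases i <;> simp
      rcases h3cases with rfl | rfl | rfl
      · simp only [cc, Matrix.cons_val_zero, Int.cast_natCast]
        exact g1
      · simp only [cc, Matrix.cons_val_zero, Matrix.cons_val_one, Int.cast_natCast]
        exact g2
      · simp only [cc, Matrix.cons_val_two, Matrix.tail_cons, Matrix.head_cons, Int.cast_natCast]
        exact g3) (by
      intro q hq hlt i
      have hchar : CharP (AlgebraicClosure (ZMod q)) q :=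
        charP_of_injective_algebraMap (algebraMap (ZMod q) _).injective q
      obtain ⟨z, hz1, hz2⟩ := phP_Hq (AlgebraicClosure (ZMod q)) δ hδ1 m l hm hl hco ψ hψ h2 hh2 q
        (by omega) (by omega) (by omega) i
      exact ⟨AlgebraicClosure (ZMod q), inferInstance, hchar, z, hz1, hz2⟩) HT
  have s5 : Sparse (fun q n => ∃ t : ZMod q, ∀ i, (aeval t (phP δ m l ψ h2 i)) ^ n =
      ((cc (a ^ (2 * m) * e) (a ^ (2 * l) * h1) (a ^ (4 * (m * l)) * g) i : ℤ) : ZMod q) ^ n) := by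
    refine ⟨C5, hC5, q0, ?_⟩
    intro K R hR hRK hKR Q hQ
    exact h5 K R hR hRK hKR Q (by
      intro q hq
      obtain ⟨g1, g2, n, g3, g4, _, t, ht⟩ := hQ q hq
      exact ⟨g1, g2, t, n, g3, g4, ht⟩)
  have hall := s1.or (s2.or (s3.or (s4.or s5)))
  obtain ⟨C', hC', q', h'⟩ := hall
  refine ⟨C', hC', max q0 q', ?_⟩
  intro K R hR hRK hKR Q hQ
  apply h' K R hR hRK hKR Q
  intro q hq
  obtain ⟨g1, g2, n, g3, g4, g5, g6⟩ := hQ q hq
  have hlt : q0 < q := lt_of_le_of_lt (le_max_left _ _) g2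
  refine ⟨g1, lt_of_le_of_lt (le_max_right _ _) g2, n, g3, g4, g5, ?_⟩
  -- the cases
  have hF : Fact q.Prime := ⟨g1⟩
  obtain ⟨U, V, hUV, hU, hFm, hFl, hΨ⟩ := g6
  have ka : (a : ZMod q) ≠ 0 := natCast_ne_zero_of_lt ha (by omega) (ZMod q)
  have kh2 : (h2 : ZMod q) ≠ 0 := natCast_ne_zero_of_lt hh2 (by omega) (ZMod q)
  have km : (2 * (m : ZMod q) + 1) ≠ 0 := by
    have := natCast_ne_zero_of_lt (k := 2 * m + 1) (by omega) (by omega : 2 * m + 1 < q) (ZMod q)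
    push_cast at this
    exact this
  have kl : (2 * (l : ZMod q) + 1) ≠ 0 := by
    have := natCast_ne_zero_of_lt (k := 2 * l + 1) (by omega) (by omega : 2 * l + 1 < q) (ZMod q)
    push_cast at this
    exact this
  have kδ : (δ : ZMod q) ≠ 0 := by
    rcases Int.natAbs_eq δ with h | h
    · rw [h, hδ1]; simp
    · rw [h, hδ1]; simp
  have hδn : (δ : ZMod q) ^ n = 1 := by
    rcases Int.natAbs_eq δ with h | h
    · rw [h, hδ1]; simp
    · rw [h, hδ1]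
      push_cast
      rw [g5.neg_pow, one_pow]
  by_cases hU0 : U = 0
  · left
    have hV0 : V ≠ 0 := by
      rcases hUV with h1 | h1
      · exact absurd hU0 h1
      · exact h1
    rw [hU0] at hFm hFl hΨ
    rw [(FG_u0 (δ : ZMod q) V m).1] at hFm
    rw [(FG_u0 (δ : ZMod q) V l).1] at hFl
    rw [hmg_zero, hψ.top] at hΨ
    have e1 := hFm.resolve_left (mul_ne_zero km (pow_ne_zero _ (mul_ne_zero kδ
      (pow_ne_zero _ hV0))))
    have kk : (2 * (l : ZMod q) + 1) * ((δ : ZMod q) * V ^ 2) ^ l ≠ 0 :=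
      mul_ne_zero kl (pow_ne_zero _ (mul_ne_zero kδ (pow_ne_zero _ hV0)))
    have e2 := hFl.resolve_left kk
    have e3 := hΨ.resolve_left (mul_ne_zero (by
      push_cast
      exact pow_ne_zero _ kδ) (pow_ne_zero _ hV0))
    obtain ⟨P, hP⟩ : ∃ P : ZMod q, P = 2 * (m : ZMod q) + 1 := ⟨_, rfl⟩
    obtain ⟨R', hR'⟩ : ∃ R' : ZMod q, R' = 2 * (l : ZMod q) + 1 := ⟨_, rfl⟩
    rw [← hP] at e1
    rw [← hR'] at e2
    have e1' : (P * V ^ (2 * m)) ^ n = (e : ZMod q) ^ n := by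
      rw [← e1]
      calc (P * V ^ (2 * m)) ^ n = P ^ n * 1 ^ m * (V ^ (2 * m)) ^ n := by ring
        _ = P ^ n * ((δ : ZMod q) ^ n) ^ m * (V ^ (2 * m)) ^ n := by rw [hδn]
        _ = _ := by ring
    have e2' : ((h2 : ZMod q) * R' * V ^ (2 * l)) ^ n = (h1 : ZMod q) ^ n := by
      rw [← e2]
      calc ((h2 : ZMod q) * R' * V ^ (2 * l)) ^ n =
            ((h2 : ZMod q) * R') ^ n * 1 ^ l * (V ^ (2 * l)) ^ n := by ring
        _ = ((h2 : ZMod q) * R') ^ n * ((δ : ZMod q) ^ n) ^ l * (V ^ (2 * l)) ^ n := by rw [hδn]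
        _ = _ := by ring
    have e3' : (V ^ (4 * (m * l))) ^ n = (g : ZMod q) ^ n := by
      rw [← e3]
      push_cast
      calc (V ^ (4 * (m * l))) ^ n = 1 ^ (2 * (m * l)) * (V ^ (4 * (m * l))) ^ n := by ring
        _ = ((δ : ZMod q) ^ n) ^ (2 * (m * l)) * (V ^ (4 * (m * l))) ^ n := by rw [hδn]
        _ = _ := by ring
    constructor
    · push_cast
      rw [← hP]
      calc (P ^ (2 * l) * (g : ZMod q)) ^ n = (P ^ (2 * l)) ^ n * (g : ZMod q) ^ n := by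
            rw [mul_pow]
        _ = (P ^ (2 * l)) ^ n * (V ^ (4 * (m * l))) ^ n := by rw [e3']
        _ = ((P * V ^ (2 * m)) ^ n) ^ (2 * l) := by ring
        _ = ((e : ZMod q) ^ n) ^ (2 * l) := by rw [e1']
        _ = _ := by ring
    · push_cast
      rw [← hR']
      calc (((h2 : ZMod q) * R') ^ (2 * m) * (g : ZMod q)) ^ n =
            (((h2 : ZMod q) * R') ^ (2 * m)) ^ n * (g : ZMod q) ^ n := by
            rw [mul_pow]
        _ = (((h2 : ZMod q) * R') ^ (2 * m)) ^ n * (V ^ (4 * (m * l))) ^ n := by rw [e3']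
        _ = (((h2 : ZMod q) * R' * V ^ (2 * l)) ^ n) ^ (2 * m) := by ring
        _ = ((h1 : ZMod q) ^ n) ^ (2 * m) := by rw [e2']
        _ = _ := by ring
  right
  have hU' := hU.resolve_left hU0
  obtain ⟨t, ht⟩ : ∃ t, t = V / U := ⟨_, rfl⟩
  have hVt : V = U * t := by rw [ht]; field_simp
  have hFmt : Fh (δ : ZMod q) U V m = U ^ (2 * m) * Fh (δ : ZMod q) 1 t m := by
    have := (hom_FG (δ : ZMod q) 1 t U m).1
    rw [mul_one, ← hVt] at this
    exact this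
  have hFlt : Fh (δ : ZMod q) U V l = U ^ (2 * l) * Fh (δ : ZMod q) 1 t l := by
    have := (hom_FG (δ : ZMod q) 1 t U l).1
    rw [mul_one, ← hVt] at this
    exact this
  have hΨt : hmg ψ (4 * (m * l)) U V = U ^ (4 * (m * l)) * aeval t ψ := by
    rw [hmg_field ψ _ U V hU0 hψ.deg, ht]
  rw [hFmt] at hFm
  rw [hFlt] at hFl
  rw [hΨt] at hΨ
  have hchar : CharP (AlgebraicClosure (ZMod q)) q :=
    charP_of_injective_algebraMap (algebraMap (ZMod q) _).injective q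
  obtain ⟨n12, n13, n23⟩ := zmod_nc (AlgebraicClosure (ZMod q)) δ hδ1 m l hco ψ hψ q
    (by omega) (by omega) (by omega) (algebraMap (ZMod q) (AlgebraicClosure (ZMod q))) t
  have f1 : aeval t (fp δ m) ≠ 0 → (aeval t (fp δ m)) ^ n = ((a ^ (2 * m) * e : ℕ) : ZMod q) ^ n := by
    intro hne
    rw [aeval_fp] at hne ⊢
    have g1 := hFm.resolve_left (mul_ne_zero (pow_ne_zero _ hU0) hne)
    push_cast
    calc Fh (δ : ZMod q) 1 t m ^ n = 1 ^ (2 * m) * Fh (δ : ZMod q) 1 t m ^ n := by ring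
      _ = (((a : ZMod q) * U) ^ n) ^ (2 * m) * Fh (δ : ZMod q) 1 t m ^ n := by rw [hU']
      _ = ((a : ZMod q) ^ (2 * m)) ^ n * (U ^ (2 * m) * Fh (δ : ZMod q) 1 t m) ^ n := by ring
      _ = _ := by rw [g1, mul_pow]
  have f2 : aeval t (fp δ l) ≠ 0 → (aeval t (C (h2 : ℤ) * fp δ l)) ^ n =
      ((a ^ (2 * l) * h1 : ℕ) : ZMod q) ^ n := by
    intro hne
    have e0 : aeval t (C (h2 : ℤ) * fp δ l) = (h2 : ZMod q) * Fh (δ : ZMod q) 1 t l := by
      rw [map_mul, aeval_fp, aeval_C]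
      simp
    rw [e0]
    rw [aeval_fp] at hne
    have g1 := hFl.resolve_left (mul_ne_zero (pow_ne_zero _ hU0) hne)
    push_cast
    calc ((h2 : ZMod q) * Fh (δ : ZMod q) 1 t l) ^ n =
          1 ^ (2 * l) * ((h2 : ZMod q) * Fh (δ : ZMod q) 1 t l) ^ n := by ring
      _ = (((a : ZMod q) * U) ^ n) ^ (2 * l) * ((h2 : ZMod q) * Fh (δ : ZMod q) 1 t l) ^ n := by
          rw [hU']
      _ = ((a : ZMod q) ^ (2 * l)) ^ n *
          ((h2 : ZMod q) * (U ^ (2 * l) * Fh (δ : ZMod q) 1 t l)) ^ n := by ring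
      _ = _ := by rw [g1, mul_pow]
  have f3 : aeval t ψ ≠ 0 → (aeval t ψ) ^ n = ((a ^ (4 * (m * l)) * g : ℕ) : ZMod q) ^ n := by
    intro hne
    have g1 := hΨ.resolve_left (mul_ne_zero (pow_ne_zero _ hU0) hne)
    push_cast
    calc (aeval t ψ) ^ n = 1 ^ (4 * (m * l)) * (aeval t ψ) ^ n := by ring
      _ = (((a : ZMod q) * U) ^ n) ^ (4 * (m * l)) * (aeval t ψ) ^ n := by rw [hU']
      _ = ((a : ZMod q) ^ (4 * (m * l))) ^ n * (U ^ (4 * (m * l)) * aeval t ψ) ^ n := by ring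
      _ = _ := by rw [g1, mul_pow]
  by_cases hz1 : aeval t (fp δ m) = 0
  · left
    exact ⟨t, hz1, f2 (n12 hz1), f3 (n13 hz1)⟩
  right
  by_cases hz2 : aeval t (fp δ l) = 0
  · left
    exact ⟨t, hz2, f1 hz1⟩
  right
  by_cases hz3 : aeval t ψ = 0
  · left
    exact ⟨t, hz3, f1 hz1, f2 hz2⟩
  right
  refine ⟨t, ?_⟩
  intro i
  have h3cases : i = 0 ∨ i = 1 ∨ i = 2 := by
    fin_cases i <;> simp
  rcases h3cases with rfl | rfl | rfl
  · simp only [cc, phP, Matrix.cons_val_zero, Int.cast_natCast]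
    exact f1 hz1
  · simp only [cc, phP, Matrix.cons_val_zero, Matrix.cons_val_one, Int.cast_natCast]
    exact f2 hz2
  · simp only [cc, phP, Matrix.cons_val_two, Matrix.tail_cons, Matrix.head_cons,
      Int.cast_natCast]
    exact f3 hz3

section
variable {B : ValuationSubring ℂ}

lemma val_fp_big {r : ℕ} (hr : r.Prime) (hB : B.valuation (r : ℂ) < 1) (δ : ℤ)
    (hδ1 : δ.natAbs = 1) (l : ℕ)
    (hrl : ¬ r ∣ 2 * l + 1) {z : ℂ} (hz : 1 < B.valuation z) :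
    B.valuation (aeval z (fp δ l)) = B.valuation z ^ (2 * l) := by
  apply val_big _ _ (fgp_deg δ l).1 _ hz
  rw [(fgp_deg δ l).2.2.1]
  apply val_int_eq hr hB
  intro h
  have h1 := Int.natAbs_dvd_natAbs.mpr h
  rw [Int.natAbs_natCast, Int.natAbs_mul, Int.natAbs_pow, hδ1, one_pow, mul_one] at h1
  apply hrl
  have : (2 * (l : ℤ) + 1).natAbs = 2 * l + 1 := by omega
  rwa [this] at h1

lemma val_psi_big {r : ℕ} (hr : r.Prime) (hB : B.valuation (r : ℂ) < 1) (δ : ℤ)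
    (hδ1 : δ.natAbs = 1) (m l : ℕ) (ψ : ℤ[X]) (hψ : IsPsi δ m l ψ)
    {z : ℂ} (hz : 1 < B.valuation z) :
    B.valuation (aeval z ψ) = B.valuation z ^ (4 * (m * l)) := by
  apply val_big _ _ hψ.deg _ hz
  rw [hψ.top]
  apply val_int_eq hr hB
  intro h
  have h1 := Int.natAbs_dvd_natAbs.mpr h
  rw [Int.natAbs_natCast, Int.natAbs_pow, hδ1, one_pow] at h1
  have := Nat.le_of_dvd one_pos h1
  have := hr.two_le
  omega

end

/-- type (i): `p` divides the constant of `F_p` and `u` -/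
theorem sparse_one (δ : ℤ) (hδ1 : δ.natAbs = 1) (m l : ℕ) (hm : 1 ≤ m) (hl : 1 ≤ l)
    (hp : (2 * m + 1).Prime) (hr : (2 * l + 1).Prime) (hne : m ≠ l)
    (ψ : ℤ[X]) (hψ : IsPsi δ m l ψ)
    (a e h1 h2 g : ℕ) (ha : 1 ≤ a) (he : 1 ≤ e) (hh1 : 1 ≤ h1) (hh2 : 1 ≤ h2) (hg : 1 ≤ g)
    (hpe : (2 * m + 1) ∣ e) (hph : ¬ (2 * m + 1) ∣ h2)
    (N1 : (2 * m + 1) ^ (2 * l) * g ≠ e ^ (2 * l) ∨
      (h2 * (2 * l + 1)) ^ (2 * m) * g ≠ h1 ^ (2 * m)) :
    Sparse (BadP δ m l ψ a e h1 h2 g) := by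
  have hco : Nat.Coprime (2 * m + 1) (2 * l + 1) :=
    (Nat.coprime_primes hp hr).mpr (by omega)
  obtain ⟨B, hB⟩ := exists_val (2 * m + 1) hp
  have hprl : ¬ (2 * m + 1) ∣ 2 * l + 1 := by
    intro h
    have := (Nat.prime_dvd_prime_iff_eq hp hr).mp h
    omega
  have hml : 4 * (m * l) ≠ 0 := by
    have := Nat.mul_pos (show 0 < m by omega) (show 0 < l by omega)
    omega
  -- if `f_m(z)^N = (a^{2m} e)^N` then `z` is not integral
  have key1 : ∀ z : ℂ, ∀ N : ℕ, 1 ≤ N →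
      (aeval z (fp δ m)) ^ N = ((a ^ (2 * m) * e : ℕ) : ℂ) ^ N → 1 < B.valuation z := by
    intro z N hN h
    by_contra hcon
    push Not at hcon
    have h3 := val_pow_inj (B := B) hN h
    rw [aeval_fp, val_F m hm hp hB δ hcon] at h3
    have h4 := val_lt_of_dvd hB (k := a ^ (2 * m) * e) (hpe.mul_left _)
    rw [← h3] at h4
    exact lt_irrefl _ h4
  have key0 : ∀ z : ℂ, aeval z (fp δ m) = 0 → 1 < B.valuation z := by
    intro z h
    by_contra hcon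
    push Not at hcon
    have h3 := val_F m hm hp hB δ hcon
    rw [← aeval_fp, h, map_zero] at h3
    exact zero_ne_one h3
  have key2 : ∀ z : ℂ, ∀ N : ℕ, 1 ≤ N → 1 < B.valuation z →
      (aeval z (C (h2 : ℤ) * fp δ l)) ^ N ≠ ((a ^ (2 * l) * h1 : ℕ) : ℂ) ^ N := by
    intro z N hN hz h
    have h3 := val_pow_inj (B := B) hN h
    have h4 : B.valuation (aeval z (C (h2 : ℤ) * fp δ l)) = B.valuation z ^ (2 * l) := by
      rw [map_mul, aeval_C, map_mul, val_fp_big hp hB δ hδ1 l hprl hz]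
      have : (algebraMap ℤ ℂ) ((h2 : ℕ) : ℤ) = ((h2 : ℕ) : ℂ) := by simp
      rw [this, val_nat_eq hp hB hph, one_mul]
    rw [h4] at h3
    have h5 := val_nat_le (B := B) (a ^ (2 * l) * h1)
    rw [← h3] at h5
    exact absurd h5 (not_le.mpr (one_lt_pow₀ hz (by omega)))
  refine sparse_badP δ hδ1 m l hm hl hco ψ hψ a e h1 h2 g ha he hh1 hh2 hg ?_ ?_ ?_ ?_ N1
  · left
    intro n hn z hz
    exact key2 z n hn (key0 z hz)
  · intro n hn z hz h
    have h3 := key1 z n hn h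
    have h4 := val_fp_big hp hB δ hδ1 l hprl h3
    rw [hz, map_zero] at h4
    exact (pow_ne_zero _ (ne_of_gt (lt_trans zero_lt_one h3))) h4.symm
  · left
    intro n hn z hz h
    have h3 := key1 z n hn h
    have h4 := val_psi_big hp hB δ hδ1 m l ψ hψ h3
    rw [hz, map_zero] at h4
    exact (pow_ne_zero _ (ne_of_gt (lt_trans zero_lt_one h3))) h4.symm
  · intro z
    by_contra hcon
    push Not at hcon
    obtain ⟨N, hN, h0⟩ := hcon 0
    obtain ⟨N', hN', h1'⟩ := hcon 1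
    simp only [cc, phP, Matrix.cons_val_zero, Matrix.cons_val_one, Int.cast_natCast] at h0 h1'
    exact key2 z N' hN' (key1 z N hN h0) h1'

/-- type (ii): `p` divides the constants of `F_r` (in the denominator) and of `Ψ` -/
theorem sparse_two (δ : ℤ) (hδ1 : δ.natAbs = 1) (m l : ℕ) (hm : 1 ≤ m) (hl : 1 ≤ l)
    (hp : (2 * m + 1).Prime) (hr : (2 * l + 1).Prime) (hne : m ≠ l)
    (ψ : ℤ[X]) (hψ : IsPsi δ m l ψ)
    (a e h1 h2 g : ℕ) (ha : 1 ≤ a) (he : 1 ≤ e) (hh1 : 1 ≤ h1) (hh2 : 1 ≤ h2) (hg : 1 ≤ g)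
    (hph2 : (2 * m + 1) ∣ h2) (hph1 : ¬ (2 * m + 1) ∣ h1) (hpa : ¬ (2 * m + 1) ∣ a)
    (N1 : (2 * m + 1) ^ (2 * l) * g ≠ e ^ (2 * l) ∨
      (h2 * (2 * l + 1)) ^ (2 * m) * g ≠ h1 ^ (2 * m)) :
    Sparse (BadP δ m l ψ a e h1 h2 g) := by
  have hco : Nat.Coprime (2 * m + 1) (2 * l + 1) :=
    (Nat.coprime_primes hp hr).mpr (by omega)
  obtain ⟨B, hB⟩ := exists_val (2 * m + 1) hp
  obtain ⟨B', hB'⟩ := exists_val (2 * l + 1) hr
  have hprl : ¬ (2 * m + 1) ∣ 2 * l + 1 := by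
    intro h
    have := (Nat.prime_dvd_prime_iff_eq hp hr).mp h
    omega
  have hprm : ¬ (2 * l + 1) ∣ 2 * m + 1 := by
    intro h
    have := (Nat.prime_dvd_prime_iff_eq hr hp).mp h
    omega
  have hml : 4 * (m * l) ≠ 0 := by
    have := Nat.mul_pos (show 0 < m by omega) (show 0 < l by omega)
    omega
  have key0 : ∀ z : ℂ, aeval z (fp δ m) = 0 → 1 < B.valuation z := by
    intro z h
    by_contra hcon
    push Not at hcon
    have h3 := val_F m hm hp hB δ hcon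
    rw [← aeval_fp, h, map_zero] at h3
    exact zero_ne_one h3
  have hcu : B.valuation ((a ^ (2 * l) * h1 : ℕ) : ℂ) = 1 := by
    apply val_nat_eq hp hB
    intro h
    rcases (Nat.Prime.dvd_mul hp).mp h with h | h
    · exact hpa (hp.dvd_of_dvd_pow h)
    · exact hph1 h
  have key1 : ∀ z : ℂ, ∀ N : ℕ, 1 ≤ N →
      (aeval z (C (h2 : ℤ) * fp δ l)) ^ N = ((a ^ (2 * l) * h1 : ℕ) : ℂ) ^ N →
      1 < B.valuation z := by
    intro z N hN h
    by_contra hcon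
    push Not at hcon
    have h3 := val_pow_inj (B := B) hN h
    rw [hcu, map_mul, aeval_C, map_mul] at h3
    have h4 : (algebraMap ℤ ℂ) ((h2 : ℕ) : ℤ) = ((h2 : ℕ) : ℂ) := by simp
    rw [h4] at h3
    have h5 := vmul_lt (val_lt_of_dvd hB hph2) (val_small (B := B) (fp δ l) hcon)
    rw [h3] at h5
    exact lt_irrefl _ h5
  have key2 : ∀ z : ℂ, ∀ N : ℕ, 1 ≤ N → 1 < B.valuation z →
      (aeval z ψ) ^ N ≠ ((a ^ (4 * (m * l)) * g : ℕ) : ℂ) ^ N := by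
    intro z N hN hz h
    have h3 := val_pow_inj (B := B) hN h
    rw [val_psi_big hp hB δ hδ1 m l ψ hψ hz] at h3
    have h5 := val_nat_le (B := B) (a ^ (4 * (m * l)) * g)
    rw [← h3] at h5
    exact absurd h5 (not_le.mpr (one_lt_pow₀ hz hml))
  refine sparse_badP δ hδ1 m l hm hl hco ψ hψ a e h1 h2 g ha he hh1 hh2 hg ?_ ?_ ?_ ?_ N1
  · right
    intro n hn z hz
    exact key2 z n hn (key0 z hz)
  · intro n hn z hz h
    have hz1 : 1 < B'.valuation z := by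
      by_contra hcon
      push Not at hcon
      have h3 := val_F l hl hr hB' δ hcon
      rw [← aeval_fp, hz, map_zero] at h3
      exact zero_ne_one h3
    have h3 := val_pow_inj (B := B') hn h
    rw [val_fp_big hr hB' δ hδ1 m hprm hz1] at h3
    have h5 := val_nat_le (B := B') (a ^ (2 * m) * e)
    rw [← h3] at h5
    exact absurd h5 (not_le.mpr (one_lt_pow₀ hz1 (by omega)))
  · right
    intro n hn z hz h
    have h3 := key1 z n hn h
    have h4 := val_psi_big hp hB δ hδ1 m l ψ hψ h3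
    rw [hz, map_zero] at h4
    exact (pow_ne_zero _ (ne_of_gt (lt_trans zero_lt_one h3))) h4.symm
  · intro z
    by_contra hcon
    push Not at hcon
    obtain ⟨N, hN, h0⟩ := hcon 1
    obtain ⟨N', hN', h1'⟩ := hcon 2
    simp only [cc, phP, Matrix.cons_val_zero, Matrix.cons_val_one, Matrix.cons_val_two,
      Matrix.tail_cons, Matrix.head_cons, Int.cast_natCast] at h0 h1'
    exact key2 z N' hN' (key1 z N hN h0) h1'

end Pool.Agent.H573.AHB
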