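import Pool.Agent.H573.AHB.Uni

/-!
The signatures `(2s, 2, 2p)` and `(s, 2p, 2p)`.
-/

namespace Pool.Agent.H573.AHB

open Filter

/-- from global data to a bad prime, without coprimality -/
lemma bad_of' (δ : ℤ) (m a b1 b2 e h q s n : ℕ) (hq : q.Prime) (hsn : s * n = q - 1)
    (hb2 : (b2 : ZMod q) ≠ 0) (u v w1 w2 w3 w4 : ℤ) (huv : ¬ ((q : ℤ) ∣ u ∧ (q : ℤ) ∣ v))
    (h1 : u = a * w1 ^ s) (h2 : b2 * v = b1 * w2 ^ s) (h3 : Fh δ u v m = e * w3 ^ s)
    (h4 : Gh δ u v m = h * w4 ^ s) : BadUV δ m a b1 b2 e h q n := by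
  have hF : Fact q.Prime := ⟨hq⟩
  have hmap := map_FGh (Int.castRingHom (ZMod q)) δ u v m
  simp only [eq_intCast] at hmap
  refine ⟨(u : ZMod q), (v : ZMod q), ?_, ?_, ?_, ?_, ?_⟩
  · by_contra hcon
    push Not at hcon
    obtain ⟨g1, g2⟩ := hcon
    rw [ZMod.intCast_zmod_eq_zero_iff_dvd] at g1 g2
    exact huv ⟨g1, g2⟩
  · have := pow_mod q s n hq hsn a w1 (u : ZMod q) 1 one_ne_zero (by
      rw [h1]
      push_cast
      ring)
    rw [one_mul] at this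
    exact this
  · exact pow_mod q s n hq hsn b1 w2 (v : ZMod q) b2 hb2 (by
      have := congrArg (Int.cast : ℤ → ZMod q) h2
      push_cast at this
      exact this)
  · have := pow_mod q s n hq hsn e w3 ((Fh δ u v m : ℤ) : ZMod q) 1 one_ne_zero (by
      rw [h3]
      push_cast
      ring)
    rw [one_mul, hmap.1] at this
    exact this
  · have := pow_mod q s n hq hsn h w4 ((Gh δ u v m : ℤ) : ZMod q) 1 one_ne_zero (by
      rw [h4]
      push_cast
      ring)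
    rw [one_mul, hmap.2] at this
    exact this

/-! ### `x^{2s} + y² = z^{2p}` -/

lemma sparse_mid (m : ℕ) (hm : 1 ≤ m) (hp : (2 * m + 1).Prime) :
    Sparse (fun q n => BadUV (-1) m 1 1 2 1 1 q n) := by
  have e0 : (-1 : ℤ).natAbs = 1 := rfl
  refine core_count (-1) m 1 1 2 1 1 (by norm_num) hm le_rfl le_rfl (by norm_num) le_rfl le_rfl hp
    ?_ ?_ ?_ ?_
  · rw [dvd_neg]
    intro h
    have h3 : ((2 * m + 1 : ℕ) : ℤ) ∣ ((1 : ℕ) : ℤ) := by simpa using h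
    have h4 := Int.natCast_dvd_natCast.mp h3
    have := Nat.le_of_dvd one_pos h4
    omega
  · rw [e0]
    have e1 : 2 ^ (4 * m) = 16 ^ m := by rw [pow_mul]; norm_num
    have e2 : (2 ^ 2 * 1 ^ 2 + 1 * 1 ^ 2) ^ (2 * m + 1) = 25 ^ m * 5 := by
      norm_num
      rw [pow_succ, pow_mul]
      norm_num
    have e3 : (1 ^ 2 * (2 ^ 2 * 1 ^ 2) + 1 * 1 ^ 2 * 1 ^ 2) = 5 := by norm_num
    rw [e1, e2, e3]
    exact Nat.mul_lt_mul_of_pos_right (Nat.pow_lt_pow_left (by norm_num) (by omega)) (by norm_num)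
  · rw [e0, one_pow, one_pow, mul_one, mul_one, mul_one]
    intro h
    have h1 : 2 ∣ 2 ^ (2 * m) := dvd_pow_self 2 (by omega)
    rw [h] at h1
    omega
  · rw [one_pow, mul_one]
    omega

/-- parity in the Gaussian descent: if `Y` is even then so is `v` -/
lemma gauss_parity (X Y z u v : ℤ) (m : ℕ) (hm : 1 ≤ m) (hco : IsCoprime X Y)
    (h : X ^ 2 + Y ^ 2 = z ^ (2 * m + 1)) (hu : X = u * Fh (-1) u v m)
    (hv : Y = v * Gh (-1) u v m) (hY : Even Y) : Odd u ∧ Even v ∧ Odd (Gh (-1) u v m) := by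
  have hzo := z_odd X Y z m hm hco h
  have hXo : Odd X := by
    by_contra hcon
    rw [Int.not_odd_iff_even] at hcon
    have := hco.isUnit_of_dvd' hcon.two_dvd hY.two_dvd
    rw [Int.isUnit_iff] at this
    omega
  have huo : Odd u := by
    rw [hu, Int.odd_mul] at hXo
    exact hXo.1
  have hFo : Odd (Fh (-1) u v m) := by
    rw [hu, Int.odd_mul] at hXo
    exact hXo.2
  -- if v is odd then F is even
  have hve : Even v := by
    by_contra hcon
    rw [Int.not_even_iff_odd] at hcon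
    have h1 : Even (Fh (-1) u v m) := by
      obtain ⟨k, rfl⟩ : ∃ k, m = k + 1 := ⟨m - 1, by omega⟩
      rw [Fh_succ]
      have h2 : Even (u ^ 2 + (-1) * v ^ 2) := by
        have h3 : Odd (u ^ 2) := huo.pow
        have h4 : Odd ((-1) * v ^ 2) := by
          rw [neg_one_mul]
          exact (hcon.pow).neg
        exact h3.add_odd h4
      refine Even.add (h2.mul_left _) ?_
      exact ((even_two.mul_right _).mul_right _)
    exact (Int.not_even_iff_odd.mpr hFo) h1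
  refine ⟨huo, hve, ?_⟩
  obtain ⟨k, hk⟩ := FG_mod_v (-1) u v m
  have h1 : Gh (-1) u v m = (2 * m + 1) * u ^ (2 * m) + v * k := by linarith
  rw [h1]
  refine Odd.add_even ?_ (hve.mul_right k)
  exact Odd.mul ⟨m, rfl⟩ huo.pow

/-- the local contradiction -/
lemma mid_local (m : ℕ) (hm : 1 ≤ m) (hp : (2 * m + 1).Prime) (s q : ℕ) (hs : s.Prime)
    (hs2 : 2 < s) (hq : q.Prime) (hsq : s ∣ q - 1)
    (hnb : ¬ BadUV (-1) m 1 1 2 1 1 q ((q - 1) / s)) (x A B z : ℤ) (hco : IsCoprime A B)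
    (hx0 : x ≠ 0)
    (h : A ^ 2 + B ^ 2 = z ^ (2 * m + 1)) (hxs : x ^ s = 2 * (A * B)) (hB : Even B)
    (hpx : ¬ ((2 * m + 1 : ℕ) : ℤ) ∣ x) : False := by
  have hsodd : Odd s := hs.odd_of_ne_two (by omega)
  have hpp : Prime ((2 * m + 1 : ℕ) : ℤ) := Nat.prime_iff_prime_int.mp hp
  obtain ⟨u, v, hu, hv⟩ := gauss A B z m hm hco h
  obtain ⟨huo, hve, hGo⟩ := gauss_parity A B z u v m hm hco h hu hv hB
  have huv : IsCoprime u v := by
    rw [hu, hv] at hco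
    exact hco.of_mul_left_left.of_mul_right_left
  have hpu : ¬ ((2 * m + 1 : ℕ) : ℤ) ∣ u := by
    intro h1
    apply hpx
    apply hpp.dvd_of_dvd_pow (n := s)
    rw [hxs, hu]
    exact ((h1.mul_right _).mul_right _).mul_left _
  have hpv : ¬ ((2 * m + 1 : ℕ) : ℤ) ∣ v := by
    intro h1
    apply hpx
    apply hpp.dvd_of_dvd_pow (n := s)
    rw [hxs, hv]
    exact ((h1.mul_right _).mul_left _).mul_left _
  have hF := cop_F m hp (-1) u v huv (by exact (isCoprime_one_right (x := u)).neg_right) hpu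
  have hG := cop_G m hp (-1) u v huv hpv
  have hG2 : IsCoprime (2 * v) (Gh (-1) u v m) := by
    refine IsCoprime.mul_left ?_ hG
    obtain ⟨k, hk⟩ := hGo
    exact ⟨-k, 1, by rw [hk]; ring⟩
  have hA2 : IsCoprime A (2 * B) := by
    refine IsCoprime.mul_right ?_ hco
    have hAo : Odd A := by
      by_contra hcon
      rw [Int.not_odd_iff_even] at hcon
      have := hco.isUnit_of_dvd' hcon.two_dvd hB.two_dvd
      rw [Int.isUnit_iff] at this
      omega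
    obtain ⟨k, hk⟩ := hAo
    exact ⟨1, -k, by rw [hk]; ring⟩
  obtain ⟨⟨x1, hx1⟩, x2, hx2⟩ := Int.eq_pow_of_mul_eq_pow_odd hA2 hsodd
    (by rw [hxs]; ring : A * (2 * B) = x ^ s)
  have hxs0 : x ^ s ≠ 0 := pow_ne_zero _ hx0
  have hx10 : x1 ≠ 0 := by
    rintro rfl
    rw [zero_pow (by omega)] at hx1
    rw [hxs, hx1] at hxs0
    exact hxs0 (by ring)
  have hx20 : x2 ≠ 0 := by
    rintro rfl
    rw [zero_pow (by omega)] at hx2
    have : B = 0 := by omega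
    rw [hxs, this] at hxs0
    exact hxs0 (by ring)
  obtain ⟨c', c'', hcc, w1, w3, e1, e3⟩ := split_pow 1 le_rfl s hsodd x1 u _ hx10 hF (by
    rw [← hu, hx1]; push_cast; ring)
  obtain ⟨d', d'', hdd, w2, w4, e2, e4⟩ := split_pow 1 le_rfl s hsodd x2 (2 * v) _ hx20 hG2 (by
    rw [mul_assoc, ← hv, hx2]; push_cast; ring)
  obtain ⟨rfl, rfl⟩ := one_of_mul_eq_one hcc
  obtain ⟨rfl, rfl⟩ := one_of_mul_eq_one hdd
  apply hnb
  have hq2 : 2 < q := by
    have h1 := hq.two_le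
    have h2 := Nat.le_of_dvd (by omega) hsq
    omega
  have h20 : ((2 : ℕ) : ZMod q) ≠ 0 := by
    intro h1
    rw [ZMod.natCast_eq_zero_iff] at h1
    have := Nat.le_of_dvd (by norm_num) h1
    omega
  exact bad_of (-1) m 1 1 2 1 1 q s ((q - 1) / s) hq (Nat.mul_div_cancel' hsq) h20 u v w1 w2 w3 w4
    huv e1 (by push_cast at e2 ⊢; exact e2) e3 e4

lemma square_of_mul {a b x : ℤ} (ha : 0 ≤ a) (hb : 0 ≤ b) (hab : IsCoprime a b)
    (h : a * b = x ^ 2) : (∃ r : ℤ, a = r ^ 2) ∧ ∃ t : ℤ, b = t ^ 2 := pow_of_mul ha hb hab h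

/-- no solution of `x^{2s} + y² = z^{2p}` with `x` even -/
theorem mid_full (m : ℕ) (hm : 1 ≤ m) (hp : (2 * m + 1).Prime) (s q : ℕ) (hsp : s.Prime)
    (hs2 : 2 < s) (hq : q.Prime) (hsq : s ∣ q - 1)
    (hnb : ¬ BadUV (-1) m 1 1 2 1 1 q ((q - 1) / s)) (x y z : ℤ) (hx : Even x)
    (hpx : ¬ ((2 * m + 1 : ℕ) : ℤ) ∣ x) (hco : IsCoprime x y) :
    x ^ (2 * s) + y ^ 2 ≠ z ^ (2 * (2 * m + 1)) := by
  intro heq
  have hx0 : x ≠ 0 := by
    rintro rfl
    exact hpx (dvd_zero _)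
  have hyo : Odd y := by
    by_contra hcon
    rw [Int.not_odd_iff_even] at hcon
    have := hco.isUnit_of_dvd' hx.two_dvd hcon.two_dvd
    rw [Int.isUnit_iff] at this
    omega
  -- make z nonnegative
  obtain ⟨z', hz', hzz⟩ : ∃ z' : ℤ, 0 ≤ z' ∧ z' ^ (2 * (2 * m + 1)) = x ^ (2 * s) + y ^ 2 :=
    ⟨|z|, abs_nonneg z, by rw [pow_mul, sq_abs, ← pow_mul, heq]⟩
  obtain ⟨Z, hZ⟩ : ∃ Z : ℤ, Z = z' ^ (2 * m + 1) := ⟨_, rfl⟩
  have hZ0 : 0 ≤ Z := by rw [hZ]; positivity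
  have hZZ : Z ^ 2 = (x ^ s) ^ 2 + y ^ 2 := by
    have e1 : Z ^ 2 = z' ^ (2 * (2 * m + 1)) := by rw [hZ]; ring
    have e2 : (x ^ s) ^ 2 = x ^ (2 * s) := by ring
    rw [e1, e2, hzz]
  have hxe : Even (x ^ s) := hx.pow_of_ne_zero (by omega)
  obtain ⟨w, hw⟩ := hxe.two_dvd
  have hxs0 : x ^ s ≠ 0 := pow_ne_zero _ hx0
  have hw0 : w ≠ 0 := by
    rintro rfl
    exact hxs0 (by rw [hw]; ring)
  have hZo : Odd Z := by
    have h1 : Odd (Z ^ 2) := by
      rw [hZZ]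
      exact (hxe.pow_of_ne_zero (by norm_num)).add_odd hyo.pow
    by_contra hcon
    rw [Int.not_odd_iff_even] at hcon
    have : Even (Z ^ 2) := hcon.pow_of_ne_zero (by omega)
    exact (Int.not_even_iff_odd.mpr h1) this
  obtain ⟨P, hP⟩ := hZo.sub_odd hyo
  obtain ⟨Q, hQ⟩ := hZo.add_odd hyo
  have hZPQ : Z = P + Q := by linarith
  have hyPQ : y = Q - P := by linarith
  have hPQ : P * Q = w ^ 2 := by
    have h1 : (Z - y) * (Z + y) = (x ^ s) ^ 2 := by
      calc _ = Z ^ 2 - y ^ 2 := by ring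
        _ = _ := by rw [hZZ]; ring
    rw [hP, hQ, hw] at h1
    nlinarith
  have hPQpos : 0 < P * Q := by
    rw [hPQ]
    positivity
  have hP0 : 0 < P := by
    by_contra hcon
    push Not at hcon
    have hQ0 : 0 ≤ Q := by linarith
    nlinarith
  have hQ0 : 0 < Q := by
    by_contra hcon
    push Not at hcon
    nlinarith
  have hcoPQ : IsCoprime P Q := by
    rw [Int.isCoprime_iff_gcd_eq_one]
    by_contra hcon
    obtain ⟨l, hl, hld⟩ := Nat.exists_prime_and_dvd hcon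
    have hlP : (l : ℤ) ∣ P := (Int.natCast_dvd_natCast.mpr hld).trans (Int.gcd_dvd_left P Q)
    have hlQ : (l : ℤ) ∣ Q := (Int.natCast_dvd_natCast.mpr hld).trans (Int.gcd_dvd_right P Q)
    have hlp := Nat.prime_iff_prime_int.mp hl
    have h1 : (l : ℤ) ∣ y := by
      rw [hyPQ]
      exact dvd_sub hlQ hlP
    have h2 : (l : ℤ) ∣ w := by
      apply hlp.dvd_of_dvd_pow (n := 2)
      rw [← hPQ]
      exact hlP.mul_right Q
    have h3 : (l : ℤ) ∣ x := by
      apply hlp.dvd_of_dvd_pow (n := s)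
      rw [hw]
      exact h2.mul_left 2
    exact hlp.not_isUnit (hco.isUnit_of_dvd' h3 h1)
  obtain ⟨⟨A, hA⟩, B, hB⟩ := square_of_mul hP0.le hQ0.le hcoPQ hPQ
  have hABco : IsCoprime A B := by
    rw [hA, hB] at hcoPQ
    exact (IsCoprime.pow_iff (by norm_num) (by norm_num)).mp hcoPQ
  have hABz : A ^ 2 + B ^ 2 = z' ^ (2 * m + 1) := by rw [← hA, ← hB, ← hZPQ, hZ]
  have hwAB : w = A * B ∨ w = -(A * B) := by
    have h1 : w ^ 2 = (A * B) ^ 2 := by rw [← hPQ, hA, hB]; ring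
    exact sq_eq_sq_iff_eq_or_eq_neg.mp h1
  -- choose signs
  obtain ⟨A', hA', hwA⟩ : ∃ A' : ℤ, A' ^ 2 = A ^ 2 ∧ w = A' * B := by
    rcases hwAB with h1 | h1
    · exact ⟨A, rfl, h1⟩
    · exact ⟨-A, by ring, by rw [h1]; ring⟩
  have hcoA : IsCoprime A' B := by
    have h1 : IsCoprime (A' ^ 2) (B ^ 2) := by
      rw [hA']
      exact (IsCoprime.pow_iff (by norm_num) (by norm_num)).mpr hABco
    exact (IsCoprime.pow_iff (by norm_num) (by norm_num)).mp h1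
  have hABz' : A' ^ 2 + B ^ 2 = z' ^ (2 * m + 1) := by rw [hA']; exact hABz
  have hxs : x ^ s = 2 * (A' * B) := by rw [hw, hwA]
  -- one of A', B is even
  have hz'o : Odd z' := z_odd A' B z' m hm hcoA hABz'
  rcases Int.even_or_odd B with hBe | hBo
  · exact mid_local m hm hp s q hsp hs2 hq hsq hnb x A' B z' hcoA hx0 hABz' hxs hBe hpx
  · have hAe : Even A' := by
      by_contra hcon
      rw [Int.not_even_iff_odd] at hcon
      have h1 : Even (z' ^ (2 * m + 1)) := by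
        rw [← hABz']
        exact (hcon.pow).add_odd hBo.pow
      exact (Int.not_even_iff_odd.mpr hz'o.pow) h1
    exact mid_local m hm hp s q hsp hs2 hq hsq hnb x B A' z' hcoA.symm hx0
      (by rw [add_comm]; exact hABz') (by rw [hxs]; ring) hAe hpx

/-! ### `x^s + y^{2p} = z^{2p}` -/

lemma sparse_four (m : ℕ) (hm : 1 ≤ m) (hp : (2 * m + 1).Prime) :
    Sparse (fun q n => BadUV 1 m 2 1 2 (4 ^ m) (4 ^ m) q n) := by
  have e0 : (1 : ℤ).natAbs = 1 := rfl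
  refine core_count 1 m 2 1 2 (4 ^ m) (4 ^ m) (by norm_num) hm (by norm_num) le_rfl (by norm_num)
    (Nat.one_le_pow _ _ (by norm_num)) (Nat.one_le_pow _ _ (by norm_num)) hp ?_ ?_ ?_ ?_
  · intro h
    have h3 : ((2 * m + 1 : ℕ) : ℤ) ∣ ((1 : ℕ) : ℤ) := by simpa using h
    have h4 := Int.natCast_dvd_natCast.mp h3
    have := Nat.le_of_dvd one_pos h4
    omega
  · rw [e0]
    have e1 : 2 ^ (4 * m) = 16 ^ m := by rw [pow_mul]; norm_num
    have e2 : (2 ^ 2 * 2 ^ 2 + 1 * 1 ^ 2) ^ (2 * m + 1) = 289 ^ m * 17 := by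
      norm_num
      rw [pow_succ, pow_mul]
      norm_num
    have e3 : (4 ^ m) ^ 2 = 16 ^ m := by rw [← pow_mul, mul_comm, pow_mul]; norm_num
    have e4 : 2 ^ (4 * m) * ((4 ^ m) ^ 2 * (2 ^ 2 * 2 ^ 2) + 1 * 1 ^ 2 * (4 ^ m) ^ 2) =
        256 ^ m * 17 := by
      rw [e1, e3]
      have : 256 ^ m = 16 ^ m * 16 ^ m := by rw [← mul_pow]; norm_num
      rw [this]
      ring
    rw [e4, e2]
    exact Nat.mul_lt_mul_of_pos_right (Nat.pow_lt_pow_left (by norm_num) (by omega)) (by norm_num)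
  · rw [e0, one_pow, one_pow, mul_one, mul_one]
    intro h
    have h1 : 2 ∣ 2 ^ (2 * m) * 4 ^ m := (dvd_pow_self 2 (by omega)).mul_right _
    rw [h] at h1
    omega
  · intro h
    have h2 : 2 ^ (2 * m) = 4 ^ m := by rw [pow_mul]; norm_num
    rw [h2] at h
    have h3 : 0 < 4 ^ m := by positivity
    have h4 : 1 * 4 ^ m = (2 * m + 1) * 4 ^ m := by rw [one_mul]; exact h
    have := Nat.eq_of_mul_eq_mul_right h3 h4
    omega

/-- the quotient `(z^p - y^p)/(z - y)` in terms of `F_m` -/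
lemma four_pow_mul (m : ℕ) (y z : ℤ) :
    2 ^ (2 * m) * (z ^ (2 * m + 1) - y ^ (2 * m + 1)) = (z - y) * Fh 1 (z - y) (z + y) m ∧
    2 ^ (2 * m) * (z ^ (2 * m + 1) + y ^ (2 * m + 1)) = (z + y) * Gh 1 (z - y) (z + y) m := by
  have e1 := pow_FG (δ := (1 : ℤ)) (ω := 1) (by norm_num) (z - y) (z + y) m
  have e2 := pow_FG' (δ := (1 : ℤ)) (ω := 1) (by norm_num) (z - y) (z + y) m
  have e3 : (z - y + 1 * (z + y)) ^ (2 * m + 1) = 2 * (2 ^ (2 * m) * z ^ (2 * m + 1)) := by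
    have : z - y + 1 * (z + y) = 2 * z := by ring
    rw [this, mul_pow, pow_succ]
    ring
  have e4 : (z - y - 1 * (z + y)) ^ (2 * m + 1) = -(2 * (2 ^ (2 * m) * y ^ (2 * m + 1))) := by
    have : z - y - 1 * (z + y) = -(2 * y) := by ring
    rw [this, Odd.neg_pow ⟨m, rfl⟩, mul_pow, pow_succ]
    ring
  rw [e3] at e1
  rw [e4] at e2
  constructor <;> linarith

lemma odd_sum (m : ℕ) (f : ℕ → ℤ) (hf : ∀ i, Odd (f i)) :
    Odd (∑ i ∈ Finset.range (2 * m + 1), f i) := by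
  induction m with
  | zero => simpa using hf 0
  | succ m ih =>
    have e : 2 * (m + 1) + 1 = (2 * m + 1) + 1 + 1 := by ring
    rw [e, Finset.sum_range_succ, Finset.sum_range_succ, add_assoc]
    exact ih.add_even ((hf _).add_odd (hf _))

/-- the quotient `(z^p - y^p)/(z-y)` is an odd integer congruent to `p y^{p-1}` modulo `z - y` -/
lemma quot_odd (m : ℕ) (y z : ℤ) (hy : Odd y) (hz : Odd z) :
    ∃ F' : ℤ, z ^ (2 * m + 1) - y ^ (2 * m + 1) = (z - y) * F' ∧ Odd F' ∧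
      (z - y) ∣ F' - (2 * m + 1) * y ^ (2 * m) := by
  refine ⟨∑ i ∈ Finset.range (2 * m + 1), z ^ i * y ^ (2 * m + 1 - 1 - i), ?_, ?_, ?_⟩
  · rw [mul_comm (z - y)]
    exact (Commute.geom_sum₂_mul (Commute.all z y) (2 * m + 1)).symm
  · exact odd_sum m _ (fun i => hz.pow.mul hy.pow)
  · have h1 : ((2 * (m : ℤ) + 1)) * y ^ (2 * m) =
        ∑ i ∈ Finset.range (2 * m + 1), y ^ (2 * m) := by
      rw [Finset.sum_const, Finset.card_range, nsmul_eq_mul]
      push_cast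
      ring
    rw [h1, ← Finset.sum_sub_distrib]
    apply Finset.dvd_sum
    intro i hi
    have hi' := Finset.mem_range.mp hi
    have h2 : y ^ (2 * m) = y ^ i * y ^ (2 * m + 1 - 1 - i) := by
      rw [← pow_add]
      congr 1
      omega
    rw [h2, ← sub_mul]
    exact (sub_dvd_pow_sub_pow z y i).mul_right _

/-- four coprime factors of an odd power -/
lemma four_factors {a b c d x : ℤ} {s : ℕ} (hs : Odd s) (hab : IsCoprime a b)
    (hac : IsCoprime a c) (had : IsCoprime a d) (hbc : IsCoprime b c) (hbd : IsCoprime b d)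
    (hcd : IsCoprime c d) (h : a * b * (c * d) = x ^ s) :
    ∃ w1 w2 w3 w4 : ℤ, a = w1 ^ s ∧ b = w2 ^ s ∧ c = w3 ^ s ∧ d = w4 ^ s := by
  have h1 : IsCoprime (a * b) (c * d) := (hac.mul_right had).mul_left (hbc.mul_right hbd)
  obtain ⟨⟨x1, hx1⟩, x2, hx2⟩ := Int.eq_pow_of_mul_eq_pow_odd h1 hs h
  obtain ⟨⟨w1, hw1⟩, w2, hw2⟩ := Int.eq_pow_of_mul_eq_pow_odd hab hs hx1
  obtain ⟨⟨w3, hw3⟩, w4, hw4⟩ := Int.eq_pow_of_mul_eq_pow_odd hcd hs hx2
  exact ⟨w1, w2, w3, w4, hw1, hw2, hw3, hw4⟩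

/-- the local contradiction, `z - y ≡ 2 (mod 4)` -/
lemma four_local (m : ℕ) (hp : (2 * m + 1).Prime) (s q : ℕ) (hs : s.Prime)
    (hs2 : 2 < s) (hq : q.Prime) (hsq : s ∣ q - 1)
    (hnb : ¬ BadUV 1 m 2 1 2 (4 ^ m) (4 ^ m) q ((q - 1) / s)) (x y z U1 : ℤ)
    (hco : IsCoprime z y) (hy : Odd y) (hz : Odd z) (hU1 : z - y = 2 * U1) (hU1o : Odd U1)
    (h : x ^ s = z ^ (2 * (2 * m + 1)) - y ^ (2 * (2 * m + 1)))
    (hpx : ¬ ((2 * m + 1 : ℕ) : ℤ) ∣ x) : False := by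
  have hsodd : Odd s := hs.odd_of_ne_two (by omega)
  have hpp : Prime ((2 * m + 1 : ℕ) : ℤ) := Nat.prime_iff_prime_int.mp hp
  obtain ⟨F', hF', hFo, hFd⟩ := quot_odd m y z hy hz
  obtain ⟨G', hG', hGo, hGd⟩ := quot_odd m (-y) z hy.neg hz
  rw [Odd.neg_pow ⟨m, rfl⟩, sub_neg_eq_add, sub_neg_eq_add] at hG'
  rw [sub_neg_eq_add, Even.neg_pow ⟨m, by ring⟩] at hGd
  have hprod : x ^ s = (z - y) * F' * ((z + y) * G') := by
    rw [h, ← hF', ← hG']
    ring
  obtain ⟨V1, hV1⟩ := hz.add_odd hy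
  have hV : z + y = 2 * V1 := by linarith
  have h4 : U1 * F' * ((2 * (z + y)) * G') = x ^ s := by
    rw [hprod, hU1]
    ring
  -- p does not divide z - y, z + y
  have hpU : ¬ ((2 * m + 1 : ℕ) : ℤ) ∣ z - y := by
    intro h1
    apply hpx
    apply hpp.dvd_of_dvd_pow (n := s)
    rw [hprod]
    exact (h1.mul_right _).mul_right _
  have hpV : ¬ ((2 * m + 1 : ℕ) : ℤ) ∣ z + y := by
    intro h1
    apply hpx
    apply hpp.dvd_of_dvd_pow (n := s)
    rw [hprod]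
    exact (h1.mul_right _).mul_left _
  have hsplit : ((2 * m + 1 : ℕ) : ℤ) = 2 * (m : ℤ) + 1 := by push_cast; ring
  -- coprimality of z - y and F'
  have hcoUy : IsCoprime (z - y) y := by
    obtain ⟨a, b, hab⟩ := hco
    exact ⟨a, a + b, by rw [← hab]; ring⟩
  have hcoVy : IsCoprime (z + y) y := by
    obtain ⟨a, b, hab⟩ := hco
    exact ⟨a, b - a, by rw [← hab]; ring⟩
  have hcUF : IsCoprime (z - y) F' := by
    obtain ⟨k, hk⟩ := hFd
    have h1 : F' = (2 * m + 1) * y ^ (2 * m) + (z - y) * k := by linarith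
    rw [h1]
    refine IsCoprime.add_mul_left_right ?_ _
    have h2 : IsCoprime (z - y) ((2 * m + 1 : ℕ) : ℤ) := ((hpp.coprime_iff_not_dvd).mpr hpU).symm
    rw [hsplit] at h2
    exact h2.mul_right hcoUy.pow_right
  have hcVG : IsCoprime (z + y) G' := by
    obtain ⟨k, hk⟩ := hGd
    have h1 : G' = (2 * m + 1) * y ^ (2 * m) + (z + y) * k := by linarith
    rw [h1]
    refine IsCoprime.add_mul_left_right ?_ _
    have h2 : IsCoprime (z + y) ((2 * m + 1 : ℕ) : ℤ) := ((hpp.coprime_iff_not_dvd).mpr hpV).symm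
    rw [hsplit] at h2
    exact h2.mul_right hcoVy.pow_right
  -- common divisors of z^p - y^p and z^p + y^p
  have hodd : ∀ w : ℤ, Odd w → ∀ w' : ℤ, w ∣ z ^ (2 * m + 1) - y ^ (2 * m + 1) →
      w' ∣ z ^ (2 * m + 1) + y ^ (2 * m + 1) → IsCoprime w w' := by
    intro w hw w' h1 h2
    rw [Int.isCoprime_iff_gcd_eq_one]
    by_contra hcon
    obtain ⟨l, hl, hld⟩ := Nat.exists_prime_and_dvd hcon
    have hl1 : (l : ℤ) ∣ w := (Int.natCast_dvd_natCast.mpr hld).trans (Int.gcd_dvd_left w w')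
    have hl2 : (l : ℤ) ∣ w' := (Int.natCast_dvd_natCast.mpr hld).trans (Int.gcd_dvd_right w w')
    have hlp := Nat.prime_iff_prime_int.mp hl
    have hln2 : ¬ (l : ℤ) ∣ 2 := by
      intro h3
      have h4 := Int.le_of_dvd (by norm_num) h3
      have h5 := hl.two_le
      have h6 : (l : ℤ) = 2 := by omega
      rw [h6] at hl1
      exact (Int.not_even_iff_odd.mpr hw) (even_iff_two_dvd.mpr hl1)
    have h3 := hl1.trans h1
    have h4 := hl2.trans h2
    have h5 : (l : ℤ) ∣ 2 * z ^ (2 * m + 1) := by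
      have := dvd_add h3 h4
      have e : z ^ (2 * m + 1) - y ^ (2 * m + 1) + (z ^ (2 * m + 1) + y ^ (2 * m + 1)) =
        2 * z ^ (2 * m + 1) := by ring
      rwa [e] at this
    have h6 : (l : ℤ) ∣ 2 * y ^ (2 * m + 1) := by
      have := dvd_sub h4 h3
      have e : z ^ (2 * m + 1) + y ^ (2 * m + 1) - (z ^ (2 * m + 1) - y ^ (2 * m + 1)) =
        2 * y ^ (2 * m + 1) := by ring
      rwa [e] at this
    have h7 := hlp.dvd_of_dvd_pow ((hlp.dvd_or_dvd h5).resolve_left hln2)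
    have h8 := hlp.dvd_of_dvd_pow ((hlp.dvd_or_dvd h6).resolve_left hln2)
    exact hlp.not_isUnit (hco.isUnit_of_dvd' h7 h8)
  have hU1d : U1 ∣ z ^ (2 * m + 1) - y ^ (2 * m + 1) := by
    rw [hF', hU1]
    exact (dvd_mul_left U1 2).mul_right _
  have hF'd : F' ∣ z ^ (2 * m + 1) - y ^ (2 * m + 1) := by
    rw [hF']
    exact dvd_mul_left _ _
  have hVd : z + y ∣ z ^ (2 * m + 1) + y ^ (2 * m + 1) := by
    rw [hG']
    exact dvd_mul_right _ _
  have hG'd : G' ∣ z ^ (2 * m + 1) + y ^ (2 * m + 1) := by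
    rw [hG']
    exact dvd_mul_left _ _
  have c2 : ∀ w : ℤ, Odd w → IsCoprime w 2 := by
    intro w hw
    obtain ⟨k, hk⟩ := hw
    exact ⟨1, -k, by rw [hk]; ring⟩
  obtain ⟨w1, w3, w2, w4, e1, e3, e2, e4⟩ := four_factors hsodd
    (a := U1) (b := F') (c := 2 * (z + y)) (d := G') (x := x)
    (by rw [hU1] at hcUF; exact hcUF.of_mul_left_right)
    ((c2 _ hU1o).mul_right (hodd _ hU1o _ hU1d hVd))
    (hodd _ hU1o _ hU1d hG'd)
    ((c2 _ hFo).mul_right (hodd _ hFo _ hF'd hVd))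
    (hodd _ hFo _ hF'd hG'd)
    ((c2 _ hGo).symm.mul_left hcVG) h4
  apply hnb
  have hq2 : 2 < q := by
    have h1 := hq.two_le
    have h2 := Nat.le_of_dvd (by omega) hsq
    omega
  have h20 : ((2 : ℕ) : ZMod q) ≠ 0 := by
    intro h1
    rw [ZMod.natCast_eq_zero_iff] at h1
    have := Nat.le_of_dvd (by norm_num) h1
    omega
  obtain ⟨f1, f2⟩ := four_pow_mul m y z
  have hUne : z - y ≠ 0 := by
    intro h1
    apply hpU
    rw [h1]
    exact dvd_zero _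
  have hVne : z + y ≠ 0 := by
    intro h1
    apply hpV
    rw [h1]
    exact dvd_zero _
  have g0 : (2 : ℤ) ^ (2 * m) = ((4 ^ m : ℕ) : ℤ) := by
    push_cast
    rw [pow_mul]
    norm_num
  have g1 : Fh 1 (z - y) (z + y) m = ((4 ^ m : ℕ) : ℤ) * w3 ^ s := by
    apply mul_left_cancel₀ hUne
    rw [← f1, hF', e3, g0]
    ring
  have g2 : Gh 1 (z - y) (z + y) m = ((4 ^ m : ℕ) : ℤ) * w4 ^ s := by
    apply mul_left_cancel₀ hVne
    rw [← f2, hG', e4, g0]
    ring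
  refine bad_of' 1 m 2 1 2 (4 ^ m) (4 ^ m) q s ((q - 1) / s) hq (Nat.mul_div_cancel' hsq) h20
    (z - y) (z + y) w1 w2 w3 w4 ?_ (by rw [hU1, e1]; push_cast; ring) (by rw [← e2]; push_cast; ring)
    g1 g2
  rintro ⟨g3, g4⟩
  have hqp := Nat.prime_iff_prime_int.mp hq
  have hqn2 : ¬ (q : ℤ) ∣ 2 := by
    intro h3
    have h4 := Int.le_of_dvd (by norm_num) h3
    omega
  have h5 : (q : ℤ) ∣ 2 * z := by
    have := dvd_add g3 g4
    have e : z - y + (z + y) = 2 * z := by ring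
    rwa [e] at this
  have h6 : (q : ℤ) ∣ 2 * y := by
    have := dvd_sub g4 g3
    have e : z + y - (z - y) = 2 * y := by ring
    rwa [e] at this
  exact hqp.not_isUnit (hco.isUnit_of_dvd' ((hqp.dvd_or_dvd h5).resolve_left hqn2)
    ((hqp.dvd_or_dvd h6).resolve_left hqn2))

/-- no solution of `x^s + y^{2p} = z^{2p}` with `x` even -/
theorem four_full (m : ℕ) (hp : (2 * m + 1).Prime) (s q : ℕ) (hsp : s.Prime)
    (hs2 : 2 < s) (hq : q.Prime) (hsq : s ∣ q - 1)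
    (hnb : ¬ BadUV 1 m 2 1 2 (4 ^ m) (4 ^ m) q ((q - 1) / s)) (x y z : ℤ) (hx : Even x)
    (hpx : ¬ ((2 * m + 1 : ℕ) : ℤ) ∣ x) (hco : IsCoprime x y) :
    x ^ s + y ^ (2 * (2 * m + 1)) ≠ z ^ (2 * (2 * m + 1)) := by
  intro heq
  have hyo : Odd y := by
    by_contra hcon
    rw [Int.not_odd_iff_even] at hcon
    have := hco.isUnit_of_dvd' hx.two_dvd hcon.two_dvd
    rw [Int.isUnit_iff] at this
    omega
  have hzo : Odd z := by
    by_contra hcon
    rw [Int.not_odd_iff_even] at hcon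
    have h1 : Even (z ^ (2 * (2 * m + 1))) := hcon.pow_of_ne_zero (by omega)
    rw [← heq] at h1
    have h2 : Odd (x ^ s + y ^ (2 * (2 * m + 1))) :=
      (hx.pow_of_ne_zero (by omega)).add_odd hyo.pow
    exact (Int.not_even_iff_odd.mpr h2) h1
  have hcozy : IsCoprime z y := by
    rw [Int.isCoprime_iff_gcd_eq_one]
    by_contra hcon
    obtain ⟨l, hl, hld⟩ := Nat.exists_prime_and_dvd hcon
    have hl1 : (l : ℤ) ∣ z := (Int.natCast_dvd_natCast.mpr hld).trans (Int.gcd_dvd_left z y)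
    have hl2 : (l : ℤ) ∣ y := (Int.natCast_dvd_natCast.mpr hld).trans (Int.gcd_dvd_right z y)
    have hlp := Nat.prime_iff_prime_int.mp hl
    have h1 : (l : ℤ) ∣ x := by
      apply hlp.dvd_of_dvd_pow (n := s)
      have e : x ^ s = z ^ (2 * (2 * m + 1)) - y ^ (2 * (2 * m + 1)) := by linarith
      rw [e]
      exact dvd_sub (dvd_pow hl1 (by omega)) (dvd_pow hl2 (by omega))
    exact hlp.not_isUnit (hco.isUnit_of_dvd' h1 hl2)
  obtain ⟨U1, hU1⟩ := hzo.sub_odd hyo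
  obtain ⟨V1, hV1⟩ := hzo.add_odd hyo
  have heq' : x ^ s = z ^ (2 * (2 * m + 1)) - y ^ (2 * (2 * m + 1)) := by linarith
  rcases Int.even_or_odd U1 with hUe | hUo
  · have hVo : Odd V1 := by
      obtain ⟨k, hk⟩ := hUe
      obtain ⟨j, hj⟩ := hyo
      refine ⟨k + j, ?_⟩
      omega
    refine four_local m hp s q hsp hs2 hq hsq hnb x (-y) z V1 hcozy.neg_right hyo.neg hzo
      (by linarith) hVo ?_ hpx
    rw [heq', Even.neg_pow ⟨2 * m + 1, by ring⟩]
  · exact four_local m hp s q hsp hs2 hq hsq hnb x y z U1 hcozy hyo hzo (by linarith) hUo heq' hpx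

end Pool.Agent.H573.AHB
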