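import Pool.Agent.H573.AHB.PsiC
import Pool.Agent.H573.AHB.Two

/-!
Descent for the degree `p r`: the local theorem.
-/

namespace Pool.Agent.H573.AHB

open Polynomial Filter

lemma comp_pr' (δ : ℤ) (hδ : δ ≠ 0) (u v : ℤ) (m l : ℕ) :
    v * Gh δ u v (2 * (m * l) + m + l) =
      (v * Gh δ u v m) * Gh δ (u * Fh δ u v m) (v * Gh δ u v m) l := by
  obtain ⟨ω, hω⟩ := IsAlgClosed.exists_pow_nat_eq (δ : ℂ) (n := 2) (by norm_num)
  have hω0 : ω ≠ 0 := by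
    rintro rfl
    rw [zero_pow two_ne_zero] at hω
    exact hδ (by exact_mod_cast hω.symm)
  obtain ⟨h1, h2⟩ := comp_FG hω (u : ℂ) (v : ℂ) m l
  have h3 := pow_FG hω (u : ℂ) (v : ℂ) (2 * (m * l) + m + l)
  have h4 := pow_FG' hω (u : ℂ) (v : ℂ) (2 * (m * l) + m + l)
  have he : 2 * (2 * (m * l) + m + l) + 1 = (2 * m + 1) * (2 * l + 1) := by ring
  rw [he] at h3 h4
  have h5 : (2 : ℂ) ≠ 0 := by norm_num
  have h6 : (v : ℂ) * Gh (δ : ℂ) u v (2 * (m * l) + m + l) =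
      (v * Gh (δ : ℂ) u v m) * Gh (δ : ℂ) (u * Fh (δ : ℂ) u v m) (v * Gh (δ : ℂ) u v m) l := by
    apply mul_left_cancel₀ (mul_ne_zero h5 hω0)
    linear_combination h1 - h2 - h3 + h4
  have e1 : ∀ x y : ℤ, ∀ k : ℕ, ((Fh δ x y k : ℤ) : ℂ) = Fh (δ : ℂ) x y k := fun x y k =>
    (map_FGh (Int.castRingHom ℂ) δ x y k).1
  have e2 : ∀ x y : ℤ, ∀ k : ℕ, ((Gh δ x y k : ℤ) : ℂ) = Gh (δ : ℂ) x y k := fun x y k =>
    (map_FGh (Int.castRingHom ℂ) δ x y k).2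
  have h7 : ((v * Gh δ u v (2 * (m * l) + m + l) : ℤ) : ℂ) =
      (((v * Gh δ u v m) * Gh δ (u * Fh δ u v m) (v * Gh δ u v m) l : ℤ) : ℂ) := by
    push_cast
    rw [e2, e2, e2]
    push_cast
    rw [e1, e2, h6]
  exact_mod_cast h7

/-- coprimality of the four factors -/
lemma psi_split (δ : ℤ) (hδ1 : δ.natAbs = 1) (m l : ℕ) (hm : 1 ≤ m)
    (hp : (2 * m + 1).Prime) (hr : (2 * l + 1).Prime)
    (ψ : ℤ[X]) (hψ : IsPsi δ m l ψ) (u v : ℤ)
    (hco : IsCoprime (u * Fh δ u v (2 * (m * l) + m + l)) (v * Gh δ u v (2 * (m * l) + m + l)))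
    (hpX : ((2 * m + 1 : ℕ) : ℤ) ∣ u * Fh δ u v (2 * (m * l) + m + l))
    (hrX : ¬ ((2 * l + 1 : ℕ) : ℤ) ∣ u * Fh δ u v (2 * (m * l) + m + l)) :
    (∃ P2 : ℤ, Fh δ u v m = ((2 * m + 1 : ℕ) : ℤ) * P2 ∧
      IsCoprime (((2 * m + 1 : ℕ) : ℤ) * u) P2 ∧
      IsCoprime (((2 * m + 1 : ℕ) : ℤ) * u) (Fh δ u v l) ∧
      IsCoprime (((2 * m + 1 : ℕ) : ℤ) * u) (hmg ψ (4 * (m * l)) u v) ∧
      IsCoprime P2 (Fh δ u v l) ∧ IsCoprime P2 (hmg ψ (4 * (m * l)) u v) ∧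
      IsCoprime (Fh δ u v l) (hmg ψ (4 * (m * l)) u v)) ∨
    (∃ P4 : ℤ, hmg ψ (4 * (m * l)) u v = ((2 * m + 1 : ℕ) : ℤ) * P4 ∧
      IsCoprime u (Fh δ u v m) ∧
      IsCoprime u (((2 * m + 1 : ℕ) : ℤ) * Fh δ u v l) ∧ IsCoprime u P4 ∧
      IsCoprime (Fh δ u v m) (((2 * m + 1 : ℕ) : ℤ) * Fh δ u v l) ∧
      IsCoprime (Fh δ u v m) P4 ∧ IsCoprime (((2 * m + 1 : ℕ) : ℤ) * Fh δ u v l) P4) := by
  have hδu : IsUnit δ := Int.isUnit_iff_natAbs_eq.mpr hδ1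
  have hδ0 : δ ≠ 0 := by
    rintro rfl
    simp at hδ1
  have hpδ : ∀ k : ℕ, k.Prime → ¬ (k : ℤ) ∣ δ := by
    intro k hk h
    have h3 := Int.natAbs_dvd_natAbs.mpr h
    rw [Int.natAbs_natCast, hδ1] at h3
    have := Nat.le_of_dvd one_pos h3
    have := hk.two_le
    omega
  have hcδ : ∀ w : ℤ, IsCoprime w δ := fun w => ⟨0, δ, by rw [Int.isUnit_mul_self hδu]; ring⟩
  have hpp : Prime ((2 * m + 1 : ℕ) : ℤ) := Nat.prime_iff_prime_int.mp hp
  have hrr : Prime ((2 * l + 1 : ℕ) : ℤ) := Nat.prime_iff_prime_int.mp hr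
  set Xp := u * Fh δ u v m with hXp
  set Yp := v * Gh δ u v m with hYp
  set Xr := u * Fh δ u v l with hXr
  set Yr := v * Gh δ u v l with hYr
  set Ψ := hmg ψ (4 * (m * l)) u v with hΨ
  have c1 := comp_pr (R := ℤ) δ u v m l
  have c2 := comp_pr' δ hδ0 u v m l
  have hsw : 2 * (m * l) + m + l = 2 * (l * m) + l + m := by ring
  have c3 := comp_pr (R := ℤ) δ u v l m
  have c4 := comp_pr' δ hδ0 u v l m
  rw [← hsw] at c3 c4
  rw [← hXp, ← hYp] at c1 c2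
  rw [← hXr, ← hYr] at c3 c4
  have p1 : Fh δ Xp Yp l = Fh δ u v l * Ψ := psi_hom δ m l ψ hψ u v
  have p2 : Fh δ Xr Yr m = Fh δ u v m * Ψ := by
    have := psi_hom δ l m ψ hψ.symm u v
    rw [mul_comm l m] at this
    exact this
  have k1 : IsCoprime Xp Yp := by
    rw [c1, c2] at hco
    exact hco.of_mul_left_left.of_mul_right_left
  have k2 : IsCoprime Xr Yr := by
    rw [c3, c4] at hco
    exact hco.of_mul_left_left.of_mul_right_left
  have huv : IsCoprime u v := by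
    rw [hXp, hYp] at k1
    exact k1.of_mul_left_left.of_mul_right_left
  have hrXp : ¬ ((2 * l + 1 : ℕ) : ℤ) ∣ Xp := by
    intro h
    apply hrX
    rw [c1]
    exact h.mul_right _
  have q1 : IsCoprime Xp (Fh δ u v l * Ψ) := by
    rw [← p1]
    exact cop_F l hr δ Xp Yp k1 (hcδ _) hrXp
  have hpXr : ((2 * m + 1 : ℕ) : ℤ) ∣ Xr := by
    rw [c3] at hpX
    rcases hpp.dvd_or_dvd hpX with h | h
    · exact h
    · exact (FG_dvd_p m hm hp δ Xr Yr (hpδ _ hp)).1 h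
  obtain ⟨F1, hF1, hF1c⟩ := second_F m δ Xr Yr k2 (hcδ _) hpXr
  rw [p2] at hF1
  by_cases hpu : ((2 * m + 1 : ℕ) : ℤ) ∣ u
  · left
    obtain ⟨P2, hP2, hP2c⟩ := second_F m δ u v huv (hcδ _) hpu
    have hF1' : F1 = P2 * Ψ := by
      apply mul_left_cancel₀ hpp.ne_zero
      rw [← hF1, hP2]
      ring
    rw [hF1'] at hF1c
    have e1 : IsCoprime (((2 * m + 1 : ℕ) : ℤ) * u * Fh δ u v l) (P2 * Ψ) := by
      have : ((2 * m + 1 : ℕ) : ℤ) * u * Fh δ u v l = ((2 * m + 1 : ℕ) : ℤ) * Xr := by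
        rw [hXr]; ring
      rw [this]
      exact hF1c
    rw [hXp, hP2] at q1
    have q2 : IsCoprime u (Fh δ u v l) := q1.of_mul_left_left.of_mul_right_left
    have q3 : IsCoprime ((2 * m + 1 : ℕ) : ℤ) (Fh δ u v l) :=
      q1.of_mul_left_right.of_mul_left_left.of_mul_right_left
    refine ⟨P2, hP2, hP2c, q3.mul_left q2, e1.of_mul_left_left.of_mul_right_right, ?_, ?_, ?_⟩
    · exact q1.of_mul_left_right.of_mul_left_right.of_mul_right_left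
    · exact q1.of_mul_left_right.of_mul_left_right.of_mul_right_right
    · exact e1.of_mul_left_right.of_mul_right_right
  · right
    have hpF : ((2 * m + 1 : ℕ) : ℤ) ∣ Fh δ u v l := by
      rcases hpp.dvd_or_dvd hpXr with h | h
      · exact absurd h hpu
      · exact h
    have hpXp : IsCoprime ((2 * m + 1 : ℕ) : ℤ) Xp := by
      obtain ⟨w, hw⟩ := hpF
      rw [hw] at q1
      exact q1.of_mul_right_left.of_mul_right_left.symm
    have hpFm : IsCoprime ((2 * m + 1 : ℕ) : ℤ) (Fh δ u v m) := by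
      rw [hXp] at hpXp
      exact hpXp.of_mul_right_right
    have hpu' : IsCoprime ((2 * m + 1 : ℕ) : ℤ) u := by
      rw [hXp] at hpXp
      exact hpXp.of_mul_right_left
    have hpΨ : ((2 * m + 1 : ℕ) : ℤ) ∣ Ψ := by
      apply hpFm.dvd_of_dvd_mul_left
      rw [hF1]
      exact dvd_mul_right _ _
    obtain ⟨P4, hP4⟩ := hpΨ
    have hF1' : F1 = Fh δ u v m * P4 := by
      apply mul_left_cancel₀ hpp.ne_zero
      rw [← hF1, hP4]
      ring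
    rw [hF1'] at hF1c
    have e1 : IsCoprime (((2 * m + 1 : ℕ) : ℤ) * Fh δ u v l * u) (Fh δ u v m * P4) := by
      have : ((2 * m + 1 : ℕ) : ℤ) * Fh δ u v l * u = ((2 * m + 1 : ℕ) : ℤ) * Xr := by
        rw [hXr]; ring
      rw [this]
      exact hF1c
    rw [hXp, hP4] at q1
    refine ⟨P4, hP4, e1.of_mul_left_right.of_mul_right_left, ?_,
      e1.of_mul_left_right.of_mul_right_right, ?_, ?_, e1.of_mul_left_left.of_mul_right_right⟩
    · exact hpu'.symm.mul_right q1.of_mul_left_left.of_mul_right_left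
    · exact hpFm.symm.mul_right q1.of_mul_left_right.of_mul_right_left
    · exact q1.of_mul_left_right.of_mul_right_right.of_mul_right_right

/-- from global data to a bad prime -/
lemma badP_of (δ : ℤ) (m l : ℕ) (ψ : ℤ[X]) (a e h1 h2 g q s n : ℕ) (hq : q.Prime)
    (hsn : s * n = q - 1)
    (ha : (a : ZMod q) ≠ 0) (hh2 : (h2 : ZMod q) ≠ 0) (u v w1 w2 w3 w4 : ℤ)
    (huv : IsCoprime u v)
    (e1 : a * u = w1 ^ s) (e2 : Fh δ u v m = e * w2 ^ s) (e3 : h2 * Fh δ u v l = h1 * w3 ^ s)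
    (e4 : hmg ψ (4 * (m * l)) u v = g * w4 ^ s) : BadP δ m l ψ a e h1 h2 g q n := by
  have hF : Fact q.Prime := ⟨hq⟩
  have hm1 : ((Fh δ u v m : ℤ) : ZMod q) = Fh (δ : ZMod q) u v m :=
    (map_FGh (Int.castRingHom (ZMod q)) δ u v m).1
  have hm2 : ((Fh δ u v l : ℤ) : ZMod q) = Fh (δ : ZMod q) u v l :=
    (map_FGh (Int.castRingHom (ZMod q)) δ u v l).1
  have hm3 : ((hmg ψ (4 * (m * l)) u v : ℤ) : ZMod q) = hmg ψ (4 * (m * l)) (u : ZMod q) v :=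
    hmg_map ψ _ (Int.castRingHom (ZMod q)) u v
  refine ⟨(u : ZMod q), (v : ZMod q), ?_, ?_, ?_, ?_, ?_⟩
  · by_contra hcon
    push Not at hcon
    obtain ⟨g1, g2⟩ := hcon
    rw [ZMod.intCast_zmod_eq_zero_iff_dvd] at g1 g2
    have := huv.isUnit_of_dvd' g1 g2
    rw [Int.isUnit_iff_natAbs_eq, Int.natAbs_natCast] at this
    have := hq.two_le
    omega
  · have := pow_mod q s n hq hsn 1 w1 (u : ZMod q) a ha (by
      have := congrArg (Int.cast : ℤ → ZMod q) e1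
      push_cast at this
      rw [this]
      simp)
    rw [Nat.cast_one, one_pow] at this
    exact this
  · have := pow_mod q s n hq hsn e w2 ((Fh δ u v m : ℤ) : ZMod q) 1 one_ne_zero (by
      rw [e2]
      push_cast
      ring)
    rw [one_mul, hm1] at this
    exact this
  · have := pow_mod q s n hq hsn h1 w3 ((Fh δ u v l : ℤ) : ZMod q) h2 hh2 (by
      have := congrArg (Int.cast : ℤ → ZMod q) e3
      push_cast at this
      exact this)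
    rw [hm2] at this
    exact this
  · have := pow_mod q s n hq hsn g w4 ((hmg ψ (4 * (m * l)) u v : ℤ) : ZMod q) 1 one_ne_zero (by
      rw [e4]
      push_cast
      ring)
    rw [one_mul, hm3] at this
    exact this

/-- the bad pairs for the two configurations -/
def BadPP (δ : ℤ) (m l : ℕ) (ψ : ℤ[X]) (q n : ℕ) : Prop :=
  BadP δ m l ψ (2 * m + 1) (2 * m + 1) 1 1 1 q n ∨ BadP δ m l ψ 1 1 1 (2 * m + 1) (2 * m + 1) q n

theorem sparse_badPP (δ : ℤ) (hδ1 : δ.natAbs = 1) (m l : ℕ) (hm : 1 ≤ m) (hl : 1 ≤ l)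
    (hp : (2 * m + 1).Prime) (hr : (2 * l + 1).Prime) (hne : m ≠ l)
    (ψ : ℤ[X]) (hψ : IsPsi δ m l ψ) : Sparse (BadPP δ m l ψ) := by
  have hp1 : ¬ (2 * m + 1) ∣ 1 := by
    intro h
    have := Nat.le_of_dvd one_pos h
    omega
  apply Sparse.or
  · refine sparse_one δ hδ1 m l hm hl hp hr hne ψ hψ _ _ _ _ _ (by omega) (by omega) le_rfl le_rfl
      le_rfl dvd_rfl hp1 ?_
    right
    rw [one_mul, mul_one, one_pow]
    have : 1 < (2 * l + 1) ^ (2 * m) := Nat.one_lt_pow (by omega) (by omega)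
    omega
  · refine sparse_two δ hδ1 m l hm hl hp hr hne ψ hψ _ _ _ _ _ le_rfl le_rfl le_rfl (by omega)
      (by omega) dvd_rfl hp1 hp1 ?_
    left
    rw [one_pow]
    have : 1 ≤ (2 * m + 1) ^ (2 * l) := Nat.one_le_pow _ _ (by omega)
    intro h
    have h2 : (2 * m + 1) ^ (2 * l) * (2 * m + 1) ≥ 1 * 3 := Nat.mul_le_mul this (by omega)
    omega

/-- **The local theorem for `X_{pr}(u,v) = x^s`.** -/
theorem psi_local (δ : ℤ) (hδ1 : δ.natAbs = 1) (m l : ℕ) (hm : 1 ≤ m)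
    (hp : (2 * m + 1).Prime) (hr : (2 * l + 1).Prime)
    (ψ : ℤ[X]) (hψ : IsPsi δ m l ψ) (s q : ℕ)
    (hsp : s.Prime) (hs2 : 2 < s) (hq : q.Prime) (hqm : 2 * m + 1 < q) (hsq : s ∣ q - 1)
    (hnb : ¬ BadPP δ m l ψ q ((q - 1) / s)) (x u v : ℤ)
    (hX : x ^ s = u * Fh δ u v (2 * (m * l) + m + l))
    (hco : IsCoprime (x ^ s) (v * Gh δ u v (2 * (m * l) + m + l)))
    (hpx : ((2 * m + 1 : ℕ) : ℤ) ∣ x) (hrx : ¬ ((2 * l + 1 : ℕ) : ℤ) ∣ x) : False := by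
  apply hnb
  have hF1 : Fact q.Prime := ⟨hq⟩
  have hsodd : Odd s := hsp.odd_of_ne_two (by omega)
  have hs0 : s ≠ 0 := by omega
  have hrr : Prime ((2 * l + 1 : ℕ) : ℤ) := Nat.prime_iff_prime_int.mp hr
  have hsn : s * ((q - 1) / s) = q - 1 := Nat.mul_div_cancel' hsq
  have h1q : ((1 : ℕ) : ZMod q) ≠ 0 := by rw [Nat.cast_one]; exact one_ne_zero
  have hpq : ((2 * m + 1 : ℕ) : ZMod q) ≠ 0 := natCast_ne_zero_of_lt (by omega) hqm (ZMod q)
  rw [hX] at hco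
  have hprod := psi_prod δ m l ψ hψ u v
  have huv : IsCoprime u v := hco.of_mul_left_left.of_mul_right_left
  rcases psi_split δ hδ1 m l hm hp hr ψ hψ u v hco
    (by rw [← hX]; exact dvd_pow hpx hs0)
    (by rw [← hX]; intro h; exact hrx (hrr.dvd_of_dvd_pow h)) with
    ⟨P2, a1, a2, a3, a4, a5, a6, a7⟩ | ⟨P4, a1, a2, a3, a4, a5, a6, a7⟩
  · left
    obtain ⟨w1, w2, w3, w4, b1, b2, b3, b4⟩ := four_factors (x := x) hsodd a2 a3 a4 a5 a6 a7 (by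
      rw [hX, hprod, a1]
      ring)
    refine badP_of δ m l ψ (2 * m + 1) (2 * m + 1) 1 1 1 q s ((q - 1) / s) hq hsn hpq h1q
      u v w1 w2 w3 w4 huv b1 (by rw [a1, b2]) (by rw [Nat.cast_one, one_mul, one_mul]; exact b3)
      (by rw [Nat.cast_one, one_mul]; exact b4)
  · right
    obtain ⟨w1, w2, w3, w4, b1, b2, b3, b4⟩ := four_factors (x := x) hsodd a2 a3 a4 a5 a6 a7 (by
      rw [hX, hprod, a1]
      ring)
    refine badP_of δ m l ψ 1 1 1 (2 * m + 1) (2 * m + 1) q s ((q - 1) / s) hq hsn h1q hpq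
      u v w1 w2 w3 w4 huv (by rw [Nat.cast_one, one_mul]; exact b1)
      (by rw [Nat.cast_one, one_mul]; exact b2)
      (by rw [Nat.cast_one, one_mul]; exact b3) (by rw [a1, b4])

/-- no solution of `x^{2s} + y² = z^{pr}` with `p ∣ x`, `r ∤ x` -/
theorem sum_pr (m l : ℕ) (hm : 1 ≤ m) (hl : 1 ≤ l)
    (hp : (2 * m + 1).Prime) (hr : (2 * l + 1).Prime)
    (ψ : ℤ[X]) (hψ : IsPsi (-1) m l ψ) (s q : ℕ)
    (hsp : s.Prime) (hs2 : 2 < s) (hq : q.Prime) (hqm : 2 * m + 1 < q) (hsq : s ∣ q - 1)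
    (hnb : ¬ BadPP (-1) m l ψ q ((q - 1) / s)) (x y z : ℤ) (hco : IsCoprime x y)
    (hpx : ((2 * m + 1 : ℕ) : ℤ) ∣ x) (hrx : ¬ ((2 * l + 1 : ℕ) : ℤ) ∣ x) :
    x ^ (2 * s) + y ^ 2 ≠ z ^ ((2 * m + 1) * (2 * l + 1)) := by
  intro heq
  have he : (2 * m + 1) * (2 * l + 1) = 2 * (2 * (m * l) + m + l) + 1 := by ring
  rw [he] at heq
  obtain ⟨u, v, hu, hv⟩ := gauss (x ^ s) y z (2 * (m * l) + m + l) (by omega) hco.pow_left (by
    rw [← heq]
    ring)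
  exact psi_local (-1) rfl m l hm hp hr ψ hψ s q hsp hs2 hq hqm hsq hnb x u v hu
    (by rw [← hv]; exact hco.pow_left) hpx hrx

/-- no solution of `y² + z^{pr} = x^{2s}` with `z` odd, `p ∣ x`, `r ∤ x` -/
theorem diff_pr (m l : ℕ) (hm : 1 ≤ m)
    (hp : (2 * m + 1).Prime) (hr : (2 * l + 1).Prime)
    (ψ : ℤ[X]) (hψ : IsPsi 1 m l ψ) (s q : ℕ)
    (hsp : s.Prime) (hs2 : 2 < s) (hq : q.Prime) (hqm : 2 * m + 1 < q) (hsq : s ∣ q - 1)
    (hnb : ¬ BadPP 1 m l ψ q ((q - 1) / s)) (x y z : ℤ) (hco : IsCoprime x y) (hz : Odd z)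
    (hpx : ((2 * m + 1 : ℕ) : ℤ) ∣ x) (hrx : ¬ ((2 * l + 1 : ℕ) : ℤ) ∣ x) :
    y ^ 2 + z ^ ((2 * m + 1) * (2 * l + 1)) ≠ x ^ (2 * s) := by
  intro heq
  have he : (2 * m + 1) * (2 * l + 1) = 2 * (2 * (m * l) + m + l) + 1 := by ring
  rw [he] at heq
  obtain ⟨u, v, hu, hv⟩ := split_desc (x ^ s) y z (2 * (m * l) + m + l) hco.pow_left hz (by
    have : (x ^ s) ^ 2 = x ^ (2 * s) := by ring
    rw [this, ← heq]
    ring)
  exact psi_local 1 rfl m l hm hp hr ψ hψ s q hsp hs2 hq hqm hsq hnb x u v hu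
    (by rw [← hv]; exact hco.pow_left) hpx hrx

end Pool.Agent.H573.AHB
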