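import Pool.Agent.H573.AHB.UnL

/-!
One set of primes `s` for a uniform family and for countably many further families.
-/

set_option autoImplicit false

namespace Pool.Agent.H573.AHB

open Finset Filter
open Pool.Agent.H262R4.FR.TBT (evA evB evC)

/-- one set of primes for a polynomially sparse family and countably many sparse families -/
theorem diagW (f : ℕ) (hf : 1 ≤ f) (Bd : ℕ → ℕ → ℕ → Prop) (hB : USparse Bd)
    (Bd' : ℕ → ℕ → ℕ → Prop) (hB' : ∀ i, Sparse (Bd' i)) (s0 : ℕ) :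
    ∃ δ : ℝ, 0 < δ ∧ δ ≤ 1 / 8 ∧ ∃ h : ℕ → ℕ, Tendsto h atTop atTop ∧ ∃ S : Set ℕ,
      (∀ s ∈ S, s.Prime ∧ s0 < s ∧ ∃ G : Finset ℕ, (s : ℝ) ^ δ ≤ (G.card : ℝ) ∧
        ∀ q ∈ G, q.Prime ∧ f ∣ q - 1 ∧ s ∣ q - 1 ∧
          (∀ m : ℕ, (m : ℝ) ≤ (s : ℝ) ^ δ → ¬ Bd m q ((q - 1) / s)) ∧
          ∀ i ≤ h s, ¬ Bd' i q ((q - 1) / s)) ∧
      ∃ c : ℝ, 0 < c ∧ ∃ X₀ : ℕ, ∀ X : ℕ, X₀ ≤ X → c ≤ invSum S X := by
  classical
  obtain ⟨A, hA⟩ := hB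
  obtain ⟨c, η, hc, hη0, hη1, hdens⟩ := densV f hf
  have hA0 : (0 : ℝ) ≤ A := Nat.cast_nonneg A
  obtain ⟨δ, hδ⟩ : ∃ δ : ℝ, δ = min (η / 2) (1 / (600 * (A + 1))) := ⟨_, rfl⟩
  have hδ0 : 0 < δ := by rw [hδ]; exact lt_min (by linarith) (by positivity)
  have hδη : δ ≤ η / 2 := by rw [hδ]; exact min_le_left _ _
  have hδA : δ ≤ 1 / (600 * (A + 1)) := by rw [hδ]; exact min_le_right _ _
  have hδA' : δ * (A + 1) ≤ 1 / 600 := by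
    calc δ * (A + 1) ≤ 1 / (600 * (A + 1)) * (A + 1) :=
          mul_le_mul_of_nonneg_right hδA (by linarith)
      _ = 1 / 600 := by field_simp
  -- the constants of the second family
  have hlev : ∀ P : ℕ, ∃ C : ℝ, 0 ≤ C ∧ ∃ q0 : ℕ,
      UCount (fun q n => ∃ i ∈ range (P + 1), Bd' i q n) C q0 := fun P =>
    Sparse.exists_mem (range (P + 1)) Bd' (fun i _ => hB' i)
  choose C hC0 q1 hC using hlev
  -- thresholds
  have hthr : ∀ P : ℕ, ∃ N : ℕ, ∀ X : ℕ, N ≤ X →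
      C P ≤ (X : ℝ) ^ (1 / 300 : ℝ) / 2 ∧ (q1 P : ℝ) ≤ (X : ℝ) ^ (1 / 300 : ℝ) := by
    intro P
    have e1 := evA (2 * C P) 0 (1 / 300) (by norm_num)
    have e2 := evA (q1 P : ℝ) 0 (1 / 300) (by norm_num)
    obtain ⟨N, hN⟩ := eventually_atTop.mp (e1.and e2)
    refine ⟨N, fun X hX => ?_⟩
    obtain ⟨h1, h2⟩ := hN X hX
    rw [Real.rpow_zero, mul_one] at h1 h2
    exact ⟨by linarith, h2⟩
  choose N hN using hthr
  obtain ⟨N', hN'⟩ : ∃ N' : ℕ → ℕ, N' = fun P => (Finset.range (P + 1)).sup N := ⟨_, rfl⟩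
  have hNN : ∀ P, N P ≤ N' P := by
    intro P
    rw [hN']
    exact Finset.le_sup (f := N) (Finset.mem_range.mpr (Nat.lt_succ_self P))
  obtain ⟨h, hh⟩ : ∃ h : ℕ → ℕ, h = fun x => Nat.findGreatest (fun P => N' P ≤ x) x := ⟨_, rfl⟩
  have hmono : ∀ s X, s ≤ X → h s ≤ h X := by
    intro s X hsX
    rw [hh]
    exact Nat.findGreatest_mono (fun P hP => le_trans hP hsX) hsX
  have hbig : Tendsto h atTop atTop := by
    rw [tendsto_atTop]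
    intro P
    filter_upwards [eventually_ge_atTop (max P (N' P))] with s hs
    rw [hh]
    exact Nat.le_findGreatest (le_of_max_le_left hs) (le_of_max_le_right hs)
  have hspec : ∀ X, N' 0 ≤ X → N' (h X) ≤ X := by
    intro X hX
    rw [hh]
    exact Nat.findGreatest_spec (P := fun P => N' P ≤ X) (Nat.zero_le X) hX
  refine ⟨δ, hδ0, by linarith, h, hbig,
    {s | s.Prime ∧ s0 < s ∧ ∃ G : Finset ℕ, (s : ℝ) ^ δ ≤ (G.card : ℝ) ∧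
        ∀ q ∈ G, q.Prime ∧ f ∣ q - 1 ∧ s ∣ q - 1 ∧
          (∀ m : ℕ, (m : ℝ) ≤ (s : ℝ) ^ δ → ¬ Bd m q ((q - 1) / s)) ∧
          ∀ i ≤ h s, ¬ Bd' i q ((q - 1) / s)}, fun s hs => hs, c, hc, ?_⟩
  have e1 := evA ((4 : ℝ) ^ (A + 2)) (1 / 600) (1 / 300) (by norm_num)
  have e2 := evA (2 : ℝ) (1 / 300) (99 / 100) (by norm_num)
  obtain ⟨X0, hX0⟩ := eventually_atTop.mp ((hdens s0).and (e1.and (e2.and
    (eventually_ge_atTop (max 1 (N' 0))))))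
  refine ⟨X0, ?_⟩
  intro X hX
  obtain ⟨hd, h1, h2, hX1'⟩ := hX0 X hX
  have hX1 : 1 ≤ X := le_of_max_le_left hX1'
  have hXr : (1 : ℝ) ≤ X := by exact_mod_cast hX1
  have hXp : (0 : ℝ) < X := by linarith
  obtain ⟨hN1, hN2⟩ := hN (h X) X ((hNN _).trans (hspec X (le_of_max_le_right hX1')))
  obtain ⟨M, hM⟩ : ∃ M, M = ⌊(X : ℝ) ^ δ⌋₊ := ⟨_, rfl⟩
  have hXd : 1 ≤ (X : ℝ) ^ δ := Real.one_le_rpow hXr hδ0.le
  have hMX : (M : ℝ) ≤ (X : ℝ) ^ δ := by rw [hM]; exact Nat.floor_le (by linarith)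
  have hM3 : (M : ℝ) + 2 ≤ 4 * (X : ℝ) ^ δ := by linarith
  have hM0 : (0 : ℝ) ≤ M := Nat.cast_nonneg M
  have hpw : ((M : ℝ) + 2) ^ (A + 1) ≤ (4 : ℝ) ^ (A + 1) * (X : ℝ) ^ (1 / 600 : ℝ) := by
    calc ((M : ℝ) + 2) ^ (A + 1) ≤ (4 * (X : ℝ) ^ δ) ^ (A + 1) :=
          pow_le_pow_left₀ (by linarith) hM3 _
      _ = 4 ^ (A + 1) * (X : ℝ) ^ (δ * (A + 1)) := by
          rw [mul_pow, ← Real.rpow_natCast ((X : ℝ) ^ δ), ← Real.rpow_mul hXp.le]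
          push_cast
          ring
      _ ≤ 4 ^ (A + 1) * (X : ℝ) ^ (1 / 600 : ℝ) := by
          apply mul_le_mul_of_nonneg_left _ (by positivity)
          exact Real.rpow_le_rpow_of_exponent_le hXr hδA'
  have hpw2 : (4 : ℝ) ^ (A + 1) * (X : ℝ) ^ (1 / 600 : ℝ) ≤ (X : ℝ) ^ (1 / 300 : ℝ) / 4 := by
    have h3 : (4 : ℝ) ^ (A + 2) * (X : ℝ) ^ (1 / 600 : ℝ) =
      4 * ((4 : ℝ) ^ (A + 1) * (X : ℝ) ^ (1 / 600 : ℝ)) := by ring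
    linarith
  have hCC : ((M : ℝ) + 1) * ((M : ℝ) + 2) ^ A ≤ (X : ℝ) ^ (1 / 300 : ℝ) / 4 := by
    refine le_trans ?_ (hpw.trans hpw2)
    rw [pow_succ, mul_comm (((M : ℝ) + 2) ^ A)]
    exact mul_le_mul_of_nonneg_right (by linarith) (by positivity)
  have hX3 : 1 ≤ (X : ℝ) ^ (1 / 300 : ℝ) := Real.one_le_rpow hXr (by norm_num)
  have hq0 : ((max ((M + 2) ^ A) (q1 (h X)) : ℕ) : ℝ) ≤ (X : ℝ) ^ (1 / 300 : ℝ) := by
    have h3 : (((M + 2) ^ A : ℕ) : ℝ) ≤ (X : ℝ) ^ (1 / 300 : ℝ) := by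
      push_cast
      refine le_trans ?_ (le_trans (hpw.trans hpw2) (by linarith))
      exact pow_le_pow_right₀ (by linarith) (by omega)
    rw [Nat.cast_max]
    exact max_le h3 hN2
  obtain ⟨T, hT1, hT2⟩ := hd
    (fun q n => (∃ m ≤ M, Bd m q n) ∨ ∃ i ∈ range (h X + 1), Bd' i q n)
    (((M : ℝ) + 1) * ((M : ℝ) + 2) ^ A + C (h X)) (max ((M + 2) ^ A) (q1 (h X)))
    (((UCount.union Bd A hA M).weak le_rfl (le_max_left _ _)).or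
      ((hC (h X)).weak le_rfl (le_max_right _ _)))
    (add_nonneg (by positivity) (hC0 _)) (by
      calc (((M : ℝ) + 1) * ((M : ℝ) + 2) ^ A + C (h X)) * (X : ℝ) ^ (74 / 75 : ℝ)
          ≤ (X : ℝ) ^ (1 / 300 : ℝ) * (X : ℝ) ^ (74 / 75 : ℝ) :=
            mul_le_mul_of_nonneg_right (by linarith) (Real.rpow_nonneg hXp.le _)
        _ = (X : ℝ) ^ (99 / 100 : ℝ) := by
            rw [← Real.rpow_add hXp]
            norm_num) (by linarith)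
  refine hT1.trans (invSum_ge _ X T ?_)
  intro s hs
  obtain ⟨g1, g2, g3, g4, G, g5, g6⟩ := hT2 s hs
  have hs0 : (0 : ℝ) ≤ s := Nat.cast_nonneg s
  have hsX : (s : ℝ) ≤ X := by exact_mod_cast g4
  have hsd : (s : ℝ) ^ δ ≤ (X : ℝ) ^ δ := Real.rpow_le_rpow hs0 hsX hδ0.le
  refine ⟨⟨g1, g2, G, ?_, ?_⟩, ?_, g4⟩
  · refine hsd.trans (le_trans ?_ g5)
    exact Real.rpow_le_rpow_of_exponent_le hXr hδη
  · intro q hq
    obtain ⟨k1, k2, k3, k4, k5⟩ := g6 q hq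
    refine ⟨k1, k3, k4, ?_, ?_⟩
    · intro m hm hb
      apply k5
      left
      refine ⟨m, ?_, hb⟩
      rw [hM]
      exact Nat.le_floor (hm.trans hsd)
    · intro i hi hb
      apply k5
      right
      exact ⟨i, mem_range.mpr (Nat.lt_succ_of_le (hi.trans (hmono s X g4))), hb⟩
  · refine le_trans ?_ g3.le
    exact Real.rpow_le_rpow_of_exponent_le hXr (by norm_num)

lemma usparse_false : USparse (fun _ _ _ => False) :=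
  ⟨0, fun m => (ucount_false _).weak (by positivity) le_rfl⟩

/-- one set of primes for countably many sparse families -/
theorem diagS (f : ℕ) (hf : 1 ≤ f) (Bd : ℕ → ℕ → ℕ → Prop) (hB : ∀ i, Sparse (Bd i)) (s0 : ℕ) :
    ∃ δ : ℝ, 0 < δ ∧ ∃ S : Set ℕ,
      (∀ s ∈ S, s.Prime ∧ s0 < s) ∧
      (∃ c : ℝ, 0 < c ∧ ∃ X₀ : ℕ, ∀ X : ℕ, X₀ ≤ X → c ≤ invSum S X) ∧
      ∃ G : ℕ → Finset ℕ, (∀ s ∈ S, (s : ℝ) ^ δ ≤ ((G s).card : ℝ) ∧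
        ∀ q ∈ G s, q.Prime ∧ f ∣ q - 1 ∧ s ∣ q - 1) ∧
      ∀ i, ∀ᶠ s in atTop, s ∈ S → ∀ q ∈ G s, ¬ Bd i q ((q - 1) / s) := by
  classical
  obtain ⟨δ, hδ0, -, h, hh, S, hS, hdens⟩ := diagW f hf _ usparse_false Bd hB s0
  have hG : ∀ s, ∃ G : Finset ℕ, s ∈ S → ((s : ℝ) ^ δ ≤ (G.card : ℝ) ∧
        ∀ q ∈ G, q.Prime ∧ f ∣ q - 1 ∧ s ∣ q - 1 ∧ ∀ i ≤ h s, ¬ Bd i q ((q - 1) / s)) := by
    intro s
    by_cases hs : s ∈ S
    · obtain ⟨-, -, G, h1, h2⟩ := hS s hs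
      refine ⟨G, fun _ => ⟨h1, fun q hq => ?_⟩⟩
      obtain ⟨k1, k2, k3, -, k5⟩ := h2 q hq
      exact ⟨k1, k2, k3, k5⟩
    · exact ⟨∅, fun h => absurd h hs⟩
  choose G hG using hG
  refine ⟨δ, hδ0, S, fun s hs => ⟨(hS s hs).1, (hS s hs).2.1⟩, hdens, G, ?_, ?_⟩
  · intro s hs
    refine ⟨(hG s hs).1, fun q hq => ?_⟩
    obtain ⟨k1, k2, k3, -⟩ := (hG s hs).2 q hq
    exact ⟨k1, k2, k3⟩
  · intro i
    filter_upwards [(tendsto_atTop.mp hh) i] with s hs hsS q hq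
    exact ((hG s hsS).2 q hq).2.2.2 i hs

/-- the logarithmic form of `diag` -/
theorem diagL (Bd : ℕ → ℕ → ℕ → Prop) (hB : ∀ i, Sparse (Bd i)) (s0 : ℕ) :
    ∃ S : Set ℕ, (∀ s ∈ S, s.Prime ∧ s0 < s) ∧
      (∃ c : ℝ, 0 < c ∧ ∃ X₀ : ℕ, ∀ X : ℕ, X₀ ≤ X → c ≤ invSum S X) ∧
      ∀ i, ∀ᶠ s in atTop, s ∈ S → ∃ q, q.Prime ∧ s ∣ q - 1 ∧ ¬ Bd i q ((q - 1) / s) := by
  obtain ⟨δ, hδ0, S, h1, h2, G, h3, h4⟩ := diagS 1 le_rfl Bd hB s0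
  refine ⟨S, h1, h2, fun i => ?_⟩
  filter_upwards [h4 i] with s hs hsS
  obtain ⟨g1, g2⟩ := h3 s hsS
  have hs1 : 0 < s := (h1 s hsS).1.pos
  have hGne : (G s).Nonempty := by
    rw [← Finset.card_pos]
    have e1 : (0 : ℝ) < (s : ℝ) ^ δ := by
      have : (0 : ℝ) < s := by exact_mod_cast hs1
      positivity
    have e2 : (0 : ℝ) < ((G s).card : ℝ) := lt_of_lt_of_le e1 g1
    exact_mod_cast e2
  obtain ⟨q, hq⟩ := hGne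
  obtain ⟨k1, -, k3⟩ := g2 q hq
  exact ⟨q, k1, k3, hs hsS q hq⟩

end Pool.Agent.H573.AHB
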