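import Pool.Agent.H573.AHB.PsiE
import Pool.Agent.H573.AHB.UnM

/-!
Explicit constants for the counts in degree `p r`: roots, sizes of the last factor.
-/

set_option autoImplicit false

namespace Pool.Agent.H573.AHB

open Polynomial

lemma cntGE (f : ℤ[X]) (hf : f ≠ 0) (hf1 : ∀ q : ℕ, q.Prime → ¬ C (q : ℤ) ∣ f) (g : ℤ[X]) (β : ℕ)
    (hβ : 1 ≤ β)
    (hN : ∀ n : ℕ, 1 ≤ n → ∀ z : ℂ, aeval z f = 0 → (aeval z g) ^ n ≠ (β : ℂ) ^ n) :
    ∀ K : ℕ, ∀ Q : Finset ℕ, (∀ q ∈ Q, q.Prime ∧ ∃ n, 1 ≤ n ∧ n ≤ K ∧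
      ∃ t : ZMod q, aeval t f = 0 ∧ (aeval t g) ^ n = (β : ZMod q) ^ n) →
    (Q.card : ℝ) ≤ (Real.log (2 * (L1 g + β)) + ((g.natDegree : ℝ) + 1)) * sz f / Real.log 2 *
      K ^ 2 := by
  classical
  have hl2 : 0 < Real.log 2 := Real.log_pos (by norm_num)
  have hg0 := L1_nonneg g
  obtain ⟨α, hα⟩ : ∃ α : ℝ, α = L1 g := ⟨_, rfl⟩
  rw [← hα] at hg0
  have hα0 : 0 ≤ α := hg0
  obtain ⟨dg, hdg⟩ : ∃ dg : ℕ, dg = g.natDegree + 1 := ⟨_, rfl⟩
  have hβr : (1 : ℝ) ≤ β := by exact_mod_cast hβ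
  set W : ℝ := Real.log (2 * (α + β)) + dg with hW
  have hlW : 0 ≤ Real.log (2 * ((α : ℝ) + β)) := Real.log_nonneg (by linarith)
  have hdg1 : (1 : ℝ) ≤ dg := by
    rw [hdg]
    push_cast
    linarith [Nat.cast_nonneg (α := ℝ) g.natDegree]
  have hW1 : 0 ≤ W := by linarith
  set Fs := (UniqueFactorizationMonoid.factors f).toFinset with hFs
  have hszs : 0 ≤ sz f := sz_nonneg hf
  have hWe : Real.log (2 * (L1 g + β)) + ((g.natDegree : ℝ) + 1) = W := by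
    rw [hW, hdg, hα]
    push_cast
    rfl
  rw [hWe]
  intro K Q hQ
  set P : ℕ → ℤ[X] := fun n => g ^ n - C (β : ℤ) ^ n with hP
  have hPt : ∀ n q : ℕ, ∀ t : ZMod q, aeval t (P n) = (aeval t g) ^ n - (β : ZMod q) ^ n := by
    intro n q t
    simp [hP]
  set QN : ℕ → ℤ[X] → Finset ℕ := fun n D => Q.filter fun q =>
    D.natDegree ≠ 0 ∧ ∃ t : ZMod q, aeval t D = 0 ∧ aeval t (P n) = 0 with hQN
  have hcov : Q ⊆ (Finset.Icc 1 K).biUnion fun n => Fs.biUnion fun D => QN n D := by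
    intro q hq
    obtain ⟨hqp, n, h1, h2, t, h3, h4⟩ := hQ q hq
    have hF : Fact q.Prime := ⟨hqp⟩
    rw [Finset.mem_biUnion]
    refine ⟨n, Finset.mem_Icc.mpr ⟨h1, h2⟩, ?_⟩
    obtain ⟨w, hw⟩ := UniqueFactorizationMonoid.factors_prod hf
    have h5 : aeval t (UniqueFactorizationMonoid.factors f).prod = 0 := by
      have h6 := congrArg (aeval t) hw
      rw [map_mul, h3, mul_eq_zero] at h6
      rcases h6 with h6 | h6
      · exact h6
      · exfalso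
        have h7 : IsUnit (aeval t (w : ℤ[X])) := w.isUnit.map (aeval t)
        rw [h6] at h7
        exact not_isUnit_zero h7
    rw [map_multiset_prod, Multiset.prod_eq_zero_iff, Multiset.mem_map] at h5
    obtain ⟨D, hD, hDt⟩ := h5
    rw [Finset.mem_biUnion]
    refine ⟨D, Multiset.mem_toFinset.mpr hD, Finset.mem_filter.mpr ⟨hq, ?_, t, hDt, ?_⟩⟩
    · intro hdeg
      rw [natDegree_eq_zero] at hdeg
      obtain ⟨b, hc⟩ := hdeg
      rw [← hc, aeval_C] at hDt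
      have hqc : (q : ℤ) ∣ b := by
        rw [← ZMod.intCast_zmod_eq_zero_iff_dvd]
        simpa using hDt
      apply hf1 q hqp
      have hdvd := UniqueFactorizationMonoid.dvd_of_mem_factors hD
      refine dvd_trans ?_ hdvd
      rw [← hc]
      exact map_dvd (C : ℤ →+* ℤ[X]) hqc
    · rw [hPt, h4, sub_self]
  have hone : ∀ n ∈ Finset.Icc 1 K, ∀ D ∈ Fs,
      ((QN n D).card : ℝ) ≤ W * K / Real.log 2 * sz D := by
    intro n hn D hD
    rw [Finset.mem_Icc] at hn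
    rw [hFs, Multiset.mem_toFinset] at hD
    have hirr := UniqueFactorizationMonoid.irreducible_of_factor D hD
    have hsz := sz_nonneg hirr.ne_zero
    rcases (QN n D).eq_empty_or_nonempty with he | ⟨q1, hq1⟩
    · rw [he]
      simp only [Finset.card_empty, Nat.cast_zero]
      positivity
    obtain ⟨-, hDdeg, -⟩ := Finset.mem_filter.mp hq1
    have hnd : ¬ D ∣ P n := by
      rintro ⟨E, hE⟩
      obtain ⟨z, hz⟩ := exists_complex_root hDdeg
      have h1 : aeval z f = 0 := by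
        obtain ⟨E', hE'⟩ := UniqueFactorizationMonoid.dvd_of_mem_factors hD
        rw [hE', map_mul, hz, zero_mul]
      have h2 : aeval z (P n) = 0 := by rw [hE, map_mul, hz, zero_mul]
      apply hN n hn.1 z h1
      have h3 : aeval z (P n) = (aeval z g) ^ n - (β : ℂ) ^ n := by simp [hP]
      rw [h3, sub_eq_zero] at h2
      exact h2
    have hdegP : (P n).natDegree ≤ n * dg := by
      refine (natDegree_sub_le _ _).trans (max_le ?_ ?_)
      · refine natDegree_pow_le.trans ?_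
        rw [hdg]
        exact Nat.mul_le_mul_left _ (by omega)
      · rw [← C_pow, natDegree_C]
        exact Nat.zero_le _
    obtain ⟨r, hr0, hrle, hrd⟩ := res_bound hirr hDdeg hnd hdegP (L1_G g β n)
    have h1 := card_primes_dvd (QN n D) (fun q hq => (hQ q (Finset.mem_filter.mp hq).1).1) hr0 (by
      intro q hq
      obtain ⟨-, -, t, ht1, ht2⟩ := Finset.mem_filter.mp hq
      exact hrd q t ht1 ht2)
    have hMm := one_le_Mm hirr.ne_zero
    have hlogM := Real.log_nonneg hMm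
    rw [← hα] at hrle
    have h2 : Real.log |(r : ℝ)| ≤ Real.log ((2 * ((α : ℝ) + β) ^ n) ^ D.natDegree * Mm D ^ (n * dg)) := by
      apply Real.log_le_log _ hrle
      rw [abs_pos]
      exact_mod_cast hr0
    rw [Real.log_mul (by positivity) (by positivity), Real.log_pow, Real.log_pow] at h2
    have h3 := log_two_mul_pow_le (show (1 : ℝ) ≤ (α : ℝ) + β by linarith) hn.1
    have hnK : (n : ℝ) ≤ K := by exact_mod_cast hn.2
    have hn0 : (0 : ℝ) ≤ n := Nat.cast_nonneg n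
    have hdd : (0 : ℝ) ≤ (D.natDegree : ℝ) := Nat.cast_nonneg _
    have h4 : (D.natDegree : ℝ) * Real.log (2 * ((α : ℝ) + β) ^ n) ≤
        D.natDegree * (n * Real.log (2 * ((α : ℝ) + β))) := mul_le_mul_of_nonneg_left h3 hdd
    have h5 : (D.natDegree : ℝ) * (n * Real.log (2 * ((α : ℝ) + β))) + (n * dg : ℕ) *
        Real.log (Mm D) ≤ n * (W * sz D) := by
      unfold sz
      rw [hW]
      push_cast
      nlinarith [mul_nonneg hn0 (mul_nonneg hlW hlogM), mul_nonneg hn0 (mul_nonneg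
        (by linarith : (0 : ℝ) ≤ dg) hdd)]
    have h6 : (n : ℝ) * (W * sz D) ≤ K * (W * sz D) :=
      mul_le_mul_of_nonneg_right hnK (by positivity)
    rw [div_mul_eq_mul_div, le_div_iff₀ hl2]
    linarith
  have h1 : (Q.card : ℝ) ≤ ∑ n ∈ Finset.Icc 1 K, ∑ D ∈ Fs, ((QN n D).card : ℝ) := by
    have h2 := (Finset.card_le_card hcov).trans Finset.card_biUnion_le
    have h3 : ∑ n ∈ Finset.Icc 1 K, (Fs.biUnion fun D => QN n D).card ≤
        ∑ n ∈ Finset.Icc 1 K, ∑ D ∈ Fs, (QN n D).card :=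
      Finset.sum_le_sum fun n _ => Finset.card_biUnion_le
    have h4 := h2.trans h3
    exact_mod_cast h4
  have h2 : ∀ n ∈ Finset.Icc 1 K, ∑ D ∈ Fs, ((QN n D).card : ℝ) ≤ W * K / Real.log 2 * sz f := by
    intro n hn
    refine (Finset.sum_le_sum (hone n hn)).trans ?_
    rw [← Finset.mul_sum]
    exact mul_le_mul_of_nonneg_left (sum_sz_factors_le hf) (by positivity)
  refine h1.trans ((Finset.sum_le_sum h2).trans ?_)
  rw [Finset.sum_const, Nat.card_Icc, Nat.add_sub_cancel, nsmul_eq_mul]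
  apply le_of_eq
  ring



lemma ucount_rootG (f : ℤ[X]) (hf : f ≠ 0) (hf1 : ∀ q : ℕ, q.Prime → ¬ C (q : ℤ) ∣ f) (g : ℤ[X])
    (β : ℕ) (hβ : 1 ≤ β)
    (hN : ∀ n : ℕ, 1 ≤ n → ∀ z : ℂ, aeval z f = 0 → (aeval z g) ^ n ≠ (β : ℂ) ^ n) (q0 : ℕ) :
    UCount (fun q n => ∃ t : ZMod q, aeval t f = 0 ∧ (aeval t g) ^ n = (β : ZMod q) ^ n)
      ((Real.log (2 * (L1 g + β)) + ((g.natDegree : ℝ) + 1)) * sz f / Real.log 2) q0 := by
  have hl2 : 0 < Real.log 2 := Real.log_pos (by norm_num)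
  have hAr := L1_nonneg g
  have hBr : (1 : ℝ) ≤ β := by exact_mod_cast hβ
  have hl : 0 ≤ Real.log (2 * (L1 g + β)) := Real.log_nonneg (by linarith)
  have hs := sz_nonneg hf
  intro K R hR _ _ Q hQ
  refine (cntGE f hf hf1 g β hβ hN K Q ?_).trans (ucount_sq (by positivity) hR)
  intro q hq
  obtain ⟨g1, _, n, g2, g3, _, g4⟩ := hQ q hq
  exact ⟨g1, n, g2, g3, g4⟩

lemma L1_le_Mm (f : ℤ[X]) : L1 f ≤ 2 ^ f.natDegree * Mm f := by
  rw [L1_eq_range f (Nat.lt_succ_self _)]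
  have h1 : ∀ i ∈ Finset.range (f.natDegree + 1), |(f.coeff i : ℝ)| ≤
      (f.natDegree.choose i : ℝ) * Mm f := by
    intro i _
    have h2 := norm_coeff_le_choose_mul_mahlerMeasure i (f.map (Int.castRingHom ℂ))
    rw [coeff_map, natDegree_map_eq_of_injective (RingHom.injective_int _)] at h2
    have h3 : ‖(Int.castRingHom ℂ) (f.coeff i)‖ = |(f.coeff i : ℝ)| := by
      rw [eq_intCast, Complex.norm_intCast]
    rw [h3] at h2
    exact h2
  refine (Finset.sum_le_sum h1).trans ?_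
  rw [← Finset.sum_mul]
  have h2 : (∑ i ∈ Finset.range (f.natDegree + 1), (f.natDegree.choose i : ℝ)) =
      2 ^ f.natDegree := by
    have := Nat.sum_range_choose f.natDegree
    exact_mod_cast this
  rw [h2]

lemma L1_FG (δ : ℤ) (hδ : δ.natAbs = 1) (P Q : ℤ[X]) (M : ℝ) (hM : 1 ≤ M) (hP : L1 P ≤ M)
    (hQ : L1 Q ≤ M) (l : ℕ) :
    L1 (Fh (C δ) P Q l) ≤ (4 * M ^ 2) ^ l ∧ L1 (Gh (C δ) P Q l) ≤ (4 * M ^ 2) ^ l := by
  have hd : |(δ : ℝ)| = 1 := by
    have : ((δ.natAbs : ℕ) : ℝ) = |(δ : ℝ)| := by rw [Nat.cast_natAbs]; push_cast; rfl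
    rw [← this, hδ, Nat.cast_one]
  have hC : ∀ (c : ℤ) (P : ℤ[X]), L1 (C c * P) ≤ |(c : ℝ)| * L1 P := by
    intro c P
    rw [← monomial_zero_left]
    exact L1_monomial_mul 0 c P
  have hP0 := L1_nonneg P
  have hQ0 := L1_nonneg Q
  have hP2 : L1 (P ^ 2) ≤ M ^ 2 := (L1_pow P 2).trans (pow_le_pow_left₀ hP0 hP 2)
  have hQ2 : L1 (C δ * Q ^ 2) ≤ M ^ 2 := by
    have h1 := hC δ (Q ^ 2)
    rw [hd, one_mul] at h1
    exact h1.trans ((L1_pow Q 2).trans (pow_le_pow_left₀ hQ0 hQ 2))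
  have hS : L1 (P ^ 2 + C δ * Q ^ 2) ≤ 2 * M ^ 2 := by
    have := L1_add (P ^ 2) (C δ * Q ^ 2)
    linarith
  have h2C : (2 : ℤ[X]) = C 2 := rfl
  have h22 : |((2 : ℤ) : ℝ)| = 2 := by norm_num
  have hT : L1 (2 * (C δ * Q ^ 2)) ≤ 2 * M ^ 2 := by
    rw [h2C]
    have := hC 2 (C δ * Q ^ 2)
    rw [h22] at this
    linarith
  have hU : L1 (2 * P ^ 2) ≤ 2 * M ^ 2 := by
    rw [h2C]
    have := hC 2 (P ^ 2)
    rw [h22] at this
    linarith
  induction l with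
  | zero => simp [L1_one]
  | succ l ih =>
    obtain ⟨i1, i2⟩ := ih
    have hM2 : 0 ≤ M ^ 2 := by positivity
    have hpl : (0 : ℝ) ≤ (4 * M ^ 2) ^ l := by positivity
    have n1 := L1_nonneg (Fh (C δ) P Q l)
    have n2 := L1_nonneg (Gh (C δ) P Q l)
    constructor
    · rw [Fh_succ, pow_succ]
      have a1 := L1_add (Fh (C δ) P Q l * (P ^ 2 + C δ * Q ^ 2))
        (2 * (C δ * Q ^ 2) * Gh (C δ) P Q l)
      have a2 := L1_mul (Fh (C δ) P Q l) (P ^ 2 + C δ * Q ^ 2)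
      have a3 := L1_mul (2 * (C δ * Q ^ 2)) (Gh (C δ) P Q l)
      have a4 : L1 (Fh (C δ) P Q l) * L1 (P ^ 2 + C δ * Q ^ 2) ≤ (4 * M ^ 2) ^ l * (2 * M ^ 2) :=
        mul_le_mul i1 hS (L1_nonneg _) hpl
      have a5 : L1 (2 * (C δ * Q ^ 2)) * L1 (Gh (C δ) P Q l) ≤ (2 * M ^ 2) * (4 * M ^ 2) ^ l :=
        mul_le_mul hT i2 (L1_nonneg _) (by positivity)
      refine a1.trans ((add_le_add (a2.trans a4) (a3.trans a5)).trans (le_of_eq ?_))
      ring
    · rw [Gh_succ, pow_succ]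
      have a1 := L1_add (Gh (C δ) P Q l * (P ^ 2 + C δ * Q ^ 2))
        (2 * P ^ 2 * Fh (C δ) P Q l)
      have a2 := L1_mul (Gh (C δ) P Q l) (P ^ 2 + C δ * Q ^ 2)
      have a3 := L1_mul (2 * P ^ 2) (Fh (C δ) P Q l)
      have a4 : L1 (Gh (C δ) P Q l) * L1 (P ^ 2 + C δ * Q ^ 2) ≤ (4 * M ^ 2) ^ l * (2 * M ^ 2) :=
        mul_le_mul i2 hS (L1_nonneg _) hpl
      have a5 : L1 (2 * P ^ 2) * L1 (Fh (C δ) P Q l) ≤ (2 * M ^ 2) * (4 * M ^ 2) ^ l :=
        mul_le_mul hU i1 (L1_nonneg _) (by positivity)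
      refine a1.trans ((add_le_add (a2.trans a4) (a3.trans a5)).trans (le_of_eq ?_))
      ring

lemma L1_pA (δ : ℤ) (hδ : δ.natAbs = 1) (m l : ℕ) : L1 (pA δ m l) ≤ 4 ^ (l * (2 * m + 1)) := by
  have hX : L1 (X * gp δ m) ≤ 4 ^ m := by
    have h1 : (X * gp δ m : ℤ[X]) = monomial 1 1 * gp δ m := by
      rw [← X, ]
    rw [h1]
    have h2 := L1_monomial_mul 1 1 (gp δ m)
    have h3 := (L1_fgp δ hδ m).2
    have h4 : |((1 : ℤ) : ℝ)| = 1 := by norm_num
    rw [h4, one_mul] at h2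
    exact h2.trans h3
  have h1 := (L1_FG δ hδ (fp δ m) (X * gp δ m) (4 ^ m) (one_le_pow₀ (by norm_num))
    (L1_fgp δ hδ m).1 hX l).1
  unfold pA
  refine h1.trans (le_of_eq ?_)
  rw [← pow_mul, mul_comm l (2 * m + 1), pow_mul 4 (2 * m + 1) l]
  congr 1
  ring

lemma psi_sizes (δ : ℤ) (hδ : δ.natAbs = 1) (m l : ℕ) (ψ : ℤ[X]) (hψ : IsPsi δ m l ψ) :
    L1 ψ ≤ 4 ^ (2 * (m * l) + l * (2 * m + 1)) ∧
      sz ψ ≤ (2 * l * (2 * m + 1) : ℝ) + (l * (2 * m + 1)) * Real.log 4 := by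
  have hA0 : pA δ m l ≠ 0 := by
    intro h
    have := pA_coeff_zero δ m l
    rw [h] at this
    simp at this
  have hψ0 : ψ ≠ 0 := by
    intro h
    have := hψ.zero
    rw [h] at this
    simp at this
  have hf0 : fp δ l ≠ 0 := ne_zero_of_coeff_zero (fp_coeff_zero δ l)
  have hMA : Mm (pA δ m l) ≤ 4 ^ (l * (2 * m + 1)) := (Mm_le_L1 _).trans (L1_pA δ hδ m l)
  have hM : Mm ψ ≤ 4 ^ (l * (2 * m + 1)) := by
    have h1 : Mm (pA δ m l) = Mm (fp δ l) * Mm ψ := by rw [hψ.hA, Mm_mul]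
    have h2 := one_le_Mm hf0
    have h3 := one_le_Mm hψ0
    nlinarith
  constructor
  · refine (L1_le_Mm ψ).trans ?_
    have h1 : (2 : ℝ) ^ ψ.natDegree ≤ 4 ^ (2 * (m * l)) := by
      calc (2 : ℝ) ^ ψ.natDegree ≤ 2 ^ (4 * (m * l)) := pow_le_pow_right₀ (by norm_num) hψ.deg
        _ = 4 ^ (2 * (m * l)) := by
          rw [show (4 : ℝ) = 2 ^ 2 by norm_num, ← pow_mul]
          congr 1
          ring
    rw [pow_add]
    have h3 := one_le_Mm hψ0
    exact mul_le_mul h1 hM (by linarith) (by positivity)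
  · have h1 : sz ψ ≤ sz (pA δ m l) := sz_dvd_le hA0 ⟨fp δ l, by rw [hψ.hA]; ring⟩
    refine h1.trans ?_
    unfold sz
    have h2 : ((pA δ m l).natDegree : ℝ) ≤ (2 * l * (2 * m + 1) : ℝ) := by
      have := (pA_top δ m l).1
      have h3 : l * ((2 * m + 1) + (2 * m + 1)) = 2 * l * (2 * m + 1) := by ring
      rw [h3] at this
      exact_mod_cast this
    have h3 : Real.log (Mm (pA δ m l)) ≤ (l * (2 * m + 1)) * Real.log 4 := by
      have h4 := one_le_Mm hA0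
      have h5 := Real.log_le_log (by linarith) hMA
      rw [Real.log_pow] at h5
      push_cast at h5
      exact h5
    linarith

end Pool.Agent.H573.AHB
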