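import Pool.Agent.H573.AHB.PuA

/-!
The count of the primes `q` modulo which there are `(U, V) ≠ (0, 0)` such that each of
`U, F_p(U,V), F_r(U,V), Ψ(U,V)` is zero or in a fixed multiple of `μ_n`, with explicit constants and
with some excluded parameters.
-/

set_option autoImplicit false

namespace Pool.Agent.H573.AHB

open Polynomial

/-- the three polynomials -/
noncomputable def phG (δ : ℤ) (m l : ℕ) (ψ : ℤ[X]) (e2 h2 : ℕ) : Fin 3 → ℤ[X] :=
  ![C (e2 : ℤ) * fp δ m, C (h2 : ℤ) * fp δ l, ψ]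

/-- the bad pairs -/
def BadPG (δ : ℤ) (m l : ℕ) (ψ : ℤ[X]) (a e1 e2 h1 h2 g : ℕ) (zU : Prop) (E : ℤ[X]) (q n : ℕ) :
    Prop :=
  ∃ U V : ZMod q, (U ≠ 0 ∨ V ≠ 0) ∧ (zU → U ≠ 0) ∧ (∀ t : ZMod q, V = U * t → aeval t E ≠ 0) ∧
    (U = 0 ∨ ((a : ZMod q) * U) ^ n = 1) ∧
    (Fh (δ : ZMod q) U V m = 0 ∨ ((e2 : ZMod q) * Fh (δ : ZMod q) U V m) ^ n =
      (e1 : ZMod q) ^ n) ∧
    (Fh (δ : ZMod q) U V l = 0 ∨ ((h2 : ZMod q) * Fh (δ : ZMod q) U V l) ^ n =
      (h1 : ZMod q) ^ n) ∧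
    (hmg ψ (4 * (m * l)) U V = 0 ∨ (hmg ψ (4 * (m * l)) U V) ^ n = (g : ZMod q) ^ n)

lemma phG_Hq (K : Type) [Field K] [IsAlgClosed K] (δ : ℤ) (hδ1 : δ.natAbs = 1) (m l : ℕ)
    (hm : 1 ≤ m) (hl : 1 ≤ l)
    (hco : Nat.Coprime (2 * m + 1) (2 * l + 1)) (ψ : ℤ[X]) (hψ : IsPsi δ m l ψ) (e2 h2 : ℕ)
    (q : ℕ)
    [CharP K q] (hqm : 2 * m + 1 < q) (hql : 2 * l + 1 < q) (ke2 : (e2 : K) ≠ 0)
    (kh2 : (h2 : K) ≠ 0) (i : Fin 3) :
    ∃ z : K, aeval z (phG δ m l ψ e2 h2 i) = 0 ∧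
      ∀ j, j ≠ i → aeval z (phG δ m l ψ e2 h2 j) ≠ 0 := by
  have k2 := two_ne_zero' K q (by omega)
  have kδ := unit_ne_zero (K := K) δ hδ1
  have km := odd_ne_zero K q m hqm
  have kl := odd_ne_zero K q l hql
  have n12 : ∀ z : K, Fh (δ : K) 1 z m = 0 → Fh (δ : K) 1 z l ≠ 0 := fun z hz =>
    no_common2 k2 _ _ _ _ hco hz
  have n13 : ∀ z : K, Fh (δ : K) 1 z m = 0 → aeval z ψ ≠ 0 := fun z hz =>
    no_common_psi k2 δ kδ m l ψ hψ kl z hz
  have n23 : ∀ z : K, Fh (δ : K) 1 z l = 0 → aeval z ψ ≠ 0 := fun z hz =>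
    no_common_psi k2 δ kδ l m ψ hψ.symm km z hz
  have v1 : ∀ z : K, aeval z (phG δ m l ψ e2 h2 0) = e2 * Fh (δ : K) 1 z m := by
    intro z
    simp only [phG, Matrix.cons_val_zero]
    rw [map_mul, aeval_fp, aeval_C]
    simp
  have v2 : ∀ z : K, aeval z (phG δ m l ψ e2 h2 1) = h2 * Fh (δ : K) 1 z l := by
    intro z
    simp only [phG, Matrix.cons_val_zero, Matrix.cons_val_one]
    rw [map_mul, aeval_fp, aeval_C]
    simp
  have v3 : ∀ z : K, aeval z (phG δ m l ψ e2 h2 2) = aeval z ψ := by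
    intro z
    simp only [phG, Matrix.cons_val_two, Matrix.tail_cons, Matrix.head_cons]
  have hj3 : ∀ j : Fin 3, j = 0 ∨ j = 1 ∨ j = 2 := by
    intro j
    fin_cases j <;> simp
  rcases hj3 i with rfl | rfl | rfl
  · obtain ⟨z, hz⟩ := root_exists (K := K) (fp δ m) (2 * m)
      (by omega) (by
        rw [(fgp_deg δ m).2.2.1]
        push_cast
        exact mul_ne_zero km (pow_ne_zero _ kδ))
    rw [aeval_fp] at hz
    refine ⟨z, by rw [v1, hz, mul_zero], ?_⟩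
    intro j hj
    rcases hj3 j with rfl | rfl | rfl
    · exact absurd rfl hj
    · rw [v2]; exact mul_ne_zero kh2 (n12 z hz)
    · rw [v3]; exact n13 z hz
  · obtain ⟨z, hz⟩ := root_exists (K := K) (fp δ l) (2 * l)
      (by omega) (by
        rw [(fgp_deg δ l).2.2.1]
        push_cast
        exact mul_ne_zero kl (pow_ne_zero _ kδ))
    rw [aeval_fp] at hz
    refine ⟨z, by rw [v2, hz, mul_zero], ?_⟩
    intro j hj
    rcases hj3 j with rfl | rfl | rfl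
    · rw [v1]; refine mul_ne_zero ke2 ?_; intro h; exact n12 z h hz
    · exact absurd rfl hj
    · rw [v3]; exact n23 z hz
  · obtain ⟨z, hz⟩ := root_exists (K := K) ψ (4 * (m * l))
      (by
        have := Nat.mul_pos (show 0 < m by omega) (show 0 < l by omega)
        omega) (by
        rw [hψ.top]
        push_cast
        exact pow_ne_zero _ kδ)
    refine ⟨z, by rw [v3, hz], ?_⟩
    intro j hj
    rcases hj3 j with rfl | rfl | rfl
    · rw [v1]; refine mul_ne_zero ke2 ?_; intro h; exact n13 z h hz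
    · rw [v2]; refine mul_ne_zero kh2 ?_; intro h; exact n23 z h hz
    · exact absurd rfl hj

lemma log_four_le : Real.log 4 ≤ 7 / 5 := by
  have h1 : Real.log 4 = 2 * Real.log 2 := by
    rw [show (4 : ℝ) = 2 ^ 2 by norm_num, Real.log_pow]
    norm_num
  have := Real.log_two_lt_d9
  rw [h1]
  linarith

lemma log_max_one {x w : ℝ} (hw : 0 ≤ w) (h : x ≤ Real.exp w) : Real.log (max 1 x) ≤ w := by
  have h1 : max 1 x ≤ Real.exp w := max_le (Real.one_le_exp hw) h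
  have h2 : 0 < max 1 x := lt_of_lt_of_le one_pos (le_max_left _ _)
  exact (Real.log_le_iff_le_exp h2).mpr h1

/-- a bound for the constant of the counting theorem for three functions -/
lemma Ac_le3 (φ : Fin 3 → ℤ[X]) (c : Fin 3 → ℤ) (w v : ℝ) (hw : 0 ≤ w) (hv : 0 ≤ v) (D : ℕ)
    (h1 : ∀ i, L1 (φ i) ≤ Real.exp w) (h2 : ∀ i, |((c i : ℤ) : ℝ)| ≤ Real.exp v)
    (h3 : ∀ i, (φ i).natDegree ≤ D) : Ac φ c ≤ 1 + 3 * w + 3 * v + 3 * D := by
  unfold Ac Bc
  have hpos : ∀ i : Fin 3, 0 < max 1 (L1 (φ i)) * max 1 (L1 (C (c i))) := by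
    intro i
    have g1 : (0 : ℝ) < max 1 (L1 (φ i)) := lt_of_lt_of_le one_pos (le_max_left _ _)
    have g2 : (0 : ℝ) < max 1 (L1 (C (c i))) := lt_of_lt_of_le one_pos (le_max_left _ _)
    exact mul_pos g1 g2
  have hone : ∀ i : Fin 3, Real.log (max 1 (L1 (φ i)) * max 1 (L1 (C (c i)))) ≤ w + v := by
    intro i
    have g1 : (0 : ℝ) < max 1 (L1 (φ i)) := lt_of_lt_of_le one_pos (le_max_left _ _)
    have g2 : (0 : ℝ) < max 1 (L1 (C (c i))) := lt_of_lt_of_le one_pos (le_max_left _ _)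
    rw [Real.log_mul g1.ne' g2.ne']
    refine add_le_add (log_max_one hw (h1 i)) (log_max_one hv ?_)
    rw [← monomial_zero_left, L1_monomial]
    exact h2 i
  rw [Real.log_mul (by norm_num) (Finset.prod_pos (fun i _ => hpos i)).ne',
    Real.log_prod (fun i _ => (hpos i).ne')]
  have h4 : ∑ i : Fin 3, Real.log (max 1 (L1 (φ i)) * max 1 (L1 (C (c i)))) ≤ 3 * (w + v) := by
    refine (Finset.sum_le_sum (fun i _ => hone i)).trans (le_of_eq ?_)
    rw [Finset.sum_const, Finset.card_univ, Fintype.card_fin, nsmul_eq_mul]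
    norm_num
  have h5 : ((∑ i : Fin 3, (φ i).natDegree : ℕ) : ℝ) ≤ 3 * D := by
    have : ∑ i : Fin 3, (φ i).natDegree ≤ ∑ _i : Fin 3, D := Finset.sum_le_sum (fun i _ => h3 i)
    rw [Finset.sum_const, Finset.card_univ, Fintype.card_fin, smul_eq_mul] at this
    exact_mod_cast this
  have h6 := Real.log_two_lt_d9
  linarith

end Pool.Agent.H573.AHB
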