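import Pool.Agent.H573.AHB.PuB

/-!
The count for the configurations of degree `p r`, with explicit constants.
-/

set_option autoImplicit false

namespace Pool.Agent.H573.AHB

open Polynomial

lemma log_add_le {x y W : ℝ} (hx : 1 ≤ x) (hy : 1 ≤ y) (h1 : Real.log x ≤ W)
    (h2 : Real.log y ≤ W) : Real.log (x + y) ≤ W + 1 := by
  have hx0 : (0 : ℝ) < x := by linarith
  have hy0 : (0 : ℝ) < y := by linarith
  have e1 : x ≤ Real.exp W := (Real.log_le_iff_le_exp hx0).mp h1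
  have e2 : y ≤ Real.exp W := (Real.log_le_iff_le_exp hy0).mp h2
  have e3 : x + y ≤ Real.exp (W + 1) := by
    rw [Real.exp_add]
    have h3 : (2 : ℝ) ≤ Real.exp 1 := by
      have := Real.add_one_le_exp (1 : ℝ)
      linarith
    have h4 := Real.exp_pos W
    nlinarith
  exact (Real.log_le_iff_le_exp (by linarith)).mpr e3

lemma four_pow_le_exp (n : ℕ) : (4 : ℝ) ^ n ≤ Real.exp (7 / 5 * n) := by
  have h1 : (4 : ℝ) ^ n = Real.exp (Real.log 4 * n) := by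
    rw [mul_comm, ← Real.rpow_natCast, Real.rpow_def_of_pos (by norm_num), mul_comm]
  rw [h1, Real.exp_le_exp]
  exact mul_le_mul_of_nonneg_right log_four_le (Nat.cast_nonneg n)

lemma nat_le_exp {x : ℕ} {L : ℝ} (hx : 1 ≤ x) (h : Real.log x ≤ L) : (x : ℝ) ≤ Real.exp L :=
  (Real.log_le_iff_le_exp (by exact_mod_cast hx)).mp h

theorem ucount_PG (δ : ℤ) (hδ1 : δ.natAbs = 1) (m l : ℕ) (hm : 1 ≤ m) (hl : 1 ≤ l)
    (hco : Nat.Coprime (2 * m + 1) (2 * l + 1)) (ψ : ℤ[X]) (hψ : IsPsi δ m l ψ)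
    (a e1 e2 h1 h2 g : ℕ) (zU : Prop) (E : ℤ[X])
    (ha : 1 ≤ a) (he1 : 1 ≤ e1) (he2 : 1 ≤ e2) (hh1 : 1 ≤ h1) (hh2 : 1 ≤ h2) (hg : 1 ≤ g)
    (L : ℝ) (La : Real.log a ≤ L) (Le1 : Real.log e1 ≤ L) (Le2 : Real.log e2 ≤ L)
    (Lh1 : Real.log h1 ≤ L) (Lh2 : Real.log h2 ≤ L) (Lg : Real.log g ≤ L)
    (q0 : ℕ) (q0m : 2 * m + 1 ≤ q0) (q0l : 2 * l + 1 ≤ q0)
    (hnz : ∀ q : ℕ, q.Prime → q0 < q → (a : ZMod q) ≠ 0 ∧ (e1 : ZMod q) ≠ 0 ∧ (e2 : ZMod q) ≠ 0 ∧
      (h1 : ZMod q) ≠ 0 ∧ (h2 : ZMod q) ≠ 0 ∧ (g : ZMod q) ≠ 0)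
    (Z1 : (∀ n : ℕ, 1 ≤ n → ∀ z : ℂ, aeval z (fp δ m) = 0 →
        (aeval z (C (h2 : ℤ) * fp δ l)) ^ n ≠ ((a ^ (2 * l) * h1 : ℕ) : ℂ) ^ n) ∨
      (∀ n : ℕ, 1 ≤ n → ∀ z : ℂ, aeval z (fp δ m) = 0 →
        (aeval z ψ) ^ n ≠ ((a ^ (4 * (m * l)) * g : ℕ) : ℂ) ^ n))
    (Z2 : (∀ n : ℕ, 1 ≤ n → ∀ z : ℂ, aeval z (fp δ l) = 0 →
        (aeval z (C (e2 : ℤ) * fp δ m)) ^ n ≠ ((a ^ (2 * m) * e1 : ℕ) : ℂ) ^ n) ∨
      (∀ n : ℕ, 1 ≤ n → ∀ z : ℂ, aeval z (fp δ l) = 0 →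
        (aeval z ψ) ^ n ≠ ((a ^ (4 * (m * l)) * g : ℕ) : ℂ) ^ n))
    (Z3 : (∀ n : ℕ, 1 ≤ n → ∀ z : ℂ, aeval z ψ = 0 →
        (aeval z (C (e2 : ℤ) * fp δ m)) ^ n ≠ ((a ^ (2 * m) * e1 : ℕ) : ℂ) ^ n) ∨
      (∀ n : ℕ, 1 ≤ n → ∀ z : ℂ, aeval z ψ = 0 →
        (aeval z (C (h2 : ℤ) * fp δ l)) ^ n ≠ ((a ^ (2 * l) * h1 : ℕ) : ℂ) ^ n))
    (HT : ∀ z : ℂ, aeval z E ≠ 0 → ∃ i, ∀ N : ℕ, 1 ≤ N → (aeval z (phG δ m l ψ e2 h2 i)) ^ N ≠
      ((cc (a ^ (2 * m) * e1) (a ^ (2 * l) * h1) (a ^ (4 * (m * l)) * g) i : ℤ) : ℂ) ^ N)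
    (N1 : zU ∨ ((e2 * (2 * m + 1)) ^ (2 * l) * g ≠ e1 ^ (2 * l) ∨
      (h2 * (2 * l + 1)) ^ (2 * m) * g ≠ h1 ^ (2 * m))) :
    UCount (BadPG δ m l ψ a e1 e2 h1 h2 g zU E)
      (3000000 * ((((2 * m + 1) * (2 * l + 1) : ℕ) : ℝ) * (L + 1)) ^ 2) q0 := by
  classical
  obtain ⟨k, hk⟩ : ∃ k : ℕ, k = (2 * m + 1) * (2 * l + 1) := ⟨_, rfl⟩
  have hkr : (((2 * m + 1) * (2 * l + 1) : ℕ) : ℝ) = k := by rw [hk]
  rw [hkr]
  have hkm : 2 * m + 1 ≤ k := by rw [hk]; exact Nat.le_mul_of_pos_right _ (by omega)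
  have hkl : 2 * l + 1 ≤ k := by rw [hk]; exact Nat.le_mul_of_pos_left _ (by omega)
  have hk' : k = 4 * (m * l) + 2 * m + 2 * l + 1 := by rw [hk]; ring
  have hml := Nat.mul_pos (show 0 < m by omega) (show 0 < l by omega)
  have hk9 : 9 ≤ k := by
    rw [hk]
    calc 9 = 3 * 3 := rfl
      _ ≤ _ := Nat.mul_le_mul (by omega) (by omega)
  have hk9r : (9 : ℝ) ≤ k := by exact_mod_cast hk9
  have hL0 : 0 ≤ L := (Real.log_nonneg (by exact_mod_cast ha)).trans La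
  obtain ⟨W, hW⟩ : ∃ W : ℝ, W = k * (L + 1) := ⟨_, rfl⟩
  have hkL : 0 ≤ (k : ℝ) * L := by positivity
  have hW9 : 9 ≤ W := by rw [hW]; nlinarith
  have hkW : (k : ℝ) ≤ W := by rw [hW]; nlinarith
  have hLW : 9 * L ≤ (k : ℝ) * L := by nlinarith
  have hWe : W = k * L + k := by rw [hW]; ring
  rw [← hW]
  have hδ0 : δ ≠ 0 := by
    rintro rfl
    simp at hδ1
  have hl2 := log_two_half
  have hc0 : 1 ≤ a ^ (2 * m) * e1 := Nat.mul_pos (by positivity) he1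
  have hc1 : 1 ≤ a ^ (2 * l) * h1 := Nat.mul_pos (by positivity) hh1
  have hc2 : 1 ≤ a ^ (4 * (m * l)) * g := Nat.mul_pos (by positivity) hg
  have hfm := fp_coeff_zero δ m
  have hfl := fp_coeff_zero δ l
  -- sizes of constants
  have lpow : ∀ x y j : ℕ, 1 ≤ x → 1 ≤ y → Real.log x ≤ L → Real.log y ≤ L → j + 1 ≤ k →
      Real.log ((x ^ j * y : ℕ) : ℝ) ≤ k * L := by
    intro x y j hx hy lx ly hj
    have hx0 : (0 : ℝ) < x := by exact_mod_cast hx
    have hy0 : (0 : ℝ) < y := by exact_mod_cast hy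
    push_cast
    rw [Real.log_mul (by positivity) (by positivity), Real.log_pow]
    have hj' : (j : ℝ) + 1 ≤ k := by exact_mod_cast hj
    have h1 : (j : ℝ) * Real.log x ≤ j * L := mul_le_mul_of_nonneg_left lx (Nat.cast_nonneg j)
    have h2 : ((j : ℝ) + 1) * L ≤ k * L := mul_le_mul_of_nonneg_right hj' hL0
    linarith
  have l0 : Real.log ((a ^ (2 * m) * e1 : ℕ) : ℝ) ≤ k * L := lpow a e1 _ ha he1 La Le1 (by omega)
  have l1 : Real.log ((a ^ (2 * l) * h1 : ℕ) : ℝ) ≤ k * L := lpow a h1 _ ha hh1 La Lh1 (by omega)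
  have l2 : Real.log ((a ^ (4 * (m * l)) * g : ℕ) : ℝ) ≤ k * L := lpow a g _ ha hg La Lg (by omega)
  -- sizes of polynomials
  have pol : ∀ (x j : ℕ), 1 ≤ x → Real.log x ≤ L → 2 * j + 1 ≤ k →
      L1 (C (x : ℤ) * fp δ j) ≤ Real.exp (L + 2 * k) := by
    intro x j hx lx hj
    refine (L1_C_mul _ _).trans ?_
    have h1 : |(((x : ℕ) : ℤ) : ℝ)| ≤ Real.exp L := by
      push_cast
      rw [abs_of_nonneg (Nat.cast_nonneg x)]
      exact nat_le_exp hx lx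
    have h2 : L1 (fp δ j) ≤ Real.exp (2 * k) := by
      refine ((L1_fgp δ hδ1 j).1.trans (four_pow_le_exp j)).trans ?_
      rw [Real.exp_le_exp]
      have : (2 : ℝ) * j + 1 ≤ k := by exact_mod_cast hj
      linarith
    rw [Real.exp_add]
    exact mul_le_mul h1 h2 (L1_nonneg _) (Real.exp_pos _).le
  have polψ : L1 ψ ≤ Real.exp (L + 2 * k) := by
    refine ((psi_sizes δ hδ1 m l ψ hψ).1.trans (four_pow_le_exp _)).trans ?_
    rw [Real.exp_le_exp]
    have h1 : 2 * (m * l) + l * (2 * m + 1) ≤ k := by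
      rw [hk']
      have : l * (2 * m + 1) = 2 * (m * l) + l := by ring
      omega
    have h2 : ((2 * (m * l) + l * (2 * m + 1) : ℕ) : ℝ) ≤ k := by exact_mod_cast h1
    linarith
  have degf : ∀ (x j : ℕ), 2 * j + 1 ≤ k → (C (x : ℤ) * fp δ j).natDegree ≤ k := by
    intro x j hj
    exact (natDegree_C_mul_le _ _).trans ((fgp_deg δ j).1.trans (by omega))
  have degψ : ψ.natDegree ≤ k := hψ.deg.trans (by omega)
  -- `sz`
  have szf : ∀ j : ℕ, 2 * j + 1 ≤ k → sz (fp δ j) ≤ 2 * k := by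
    intro j hj
    unfold sz
    have h1 : ((fp δ j).natDegree : ℝ) ≤ 2 * j := by exact_mod_cast (fgp_deg δ j).1
    have h2 : Mm (fp δ j) ≤ Real.exp (7 / 5 * j) :=
      ((Mm_le_L1 _).trans (L1_fgp δ hδ1 j).1).trans (four_pow_le_exp j)
    have h3 := one_le_Mm (ne_zero_of_coeff_zero (fp_coeff_zero δ j))
    have h4 : Real.log (Mm (fp δ j)) ≤ 7 / 5 * j := (Real.log_le_iff_le_exp (by linarith)).mpr h2
    have h5 : (2 : ℝ) * j + 1 ≤ k := by exact_mod_cast hj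
    have h6 : (0 : ℝ) ≤ j := Nat.cast_nonneg j
    linarith
  have szψ : sz ψ ≤ 2 * k := by
    refine (psi_sizes δ hδ1 m l ψ hψ).2.trans ?_
    have h1 : 2 * (l * (2 * m + 1)) + (2 * m + 1) = k := by rw [hk]; ring
    have h2 : 2 * ((l : ℝ) * (2 * m + 1)) + (2 * m + 1) = k := by exact_mod_cast h1
    have h3 : (l : ℝ) * (2 * m + 1) * Real.log 4 ≤ (l : ℝ) * (2 * m + 1) * (7 / 5) :=
      mul_le_mul_of_nonneg_left log_four_le (by positivity)
    have h4 : (0 : ℝ) ≤ m := Nat.cast_nonneg m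
    have h5 : (0 : ℝ) ≤ (l : ℝ) * (2 * m + 1) := by positivity
    nlinarith
  -- a count for roots
  have rootc : ∀ (f G : ℤ[X]) (β : ℕ), f.coeff 0 = 1 → sz f ≤ 2 * k → L1 G ≤ Real.exp (L + 2 * k) →
      G.natDegree ≤ k → 1 ≤ β → Real.log (β : ℝ) ≤ k * L →
      (∀ n : ℕ, 1 ≤ n → ∀ z : ℂ, aeval z f = 0 → (aeval z G) ^ n ≠ (β : ℂ) ^ n) →
      UCount (fun q n => ∃ t : ZMod q, aeval t f = 0 ∧ (aeval t G) ^ n = (β : ZMod q) ^ n)
        (20 * W ^ 2) q0 := by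
    intro f G β hf1 hf2 hG1 hG2 hβ lβ hN
    have hf0 := ne_zero_of_coeff_zero hf1
    refine (ucount_rootG f hf0 (not_C_dvd_of_coeff_zero hf1) G β hβ hN q0).weak ?_ le_rfl
    have hs0 := sz_nonneg hf0
    have hG0 := L1_nonneg G
    have hβr : (1 : ℝ) ≤ β := by exact_mod_cast hβ
    have h1 : Real.log (2 * (L1 G + β)) ≤ 2 + (L + 2 * k) + k * L := by
      refine (Real.log_le_iff_le_exp (by linarith)).mpr ?_
      have e1 : (β : ℝ) ≤ Real.exp (k * L) := nat_le_exp hβ lβ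
      have e2 : (1 : ℝ) ≤ Real.exp (L + 2 * k) := Real.one_le_exp (by positivity)
      have e3 : (1 : ℝ) ≤ Real.exp (k * L) := Real.one_le_exp hkL
      have e4 : (4 : ℝ) ≤ Real.exp 2 := by
        have h5 := Real.add_one_le_exp (1 : ℝ)
        have h6 : Real.exp 2 = Real.exp 1 * Real.exp 1 := by
          rw [← Real.exp_add]; norm_num
        rw [h6]
        nlinarith
      have e5 : Real.exp (2 + (L + 2 * k) + k * L) =
          Real.exp 2 * (Real.exp (L + 2 * k) * Real.exp (k * L)) := by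
        rw [← Real.exp_add, ← Real.exp_add]
        congr 1
        ring
      rw [e5]
      have e6 : L1 G + β ≤ 2 * (Real.exp (L + 2 * k) * Real.exp (k * L)) := by nlinarith
      have e7 : 0 ≤ Real.exp (L + 2 * k) * Real.exp (k * L) := by positivity
      nlinarith
    have h2 : (G.natDegree : ℝ) ≤ k := by exact_mod_cast hG2
    have h3 : Real.log (2 * (L1 G + β)) + ((G.natDegree : ℝ) + 1) ≤ 4 * W := by
      rw [hWe]
      linarith
    have h0 : 0 ≤ Real.log (2 * (L1 G + β)) := Real.log_nonneg (by linarith)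
    have h3' : 0 ≤ Real.log (2 * (L1 G + β)) + ((G.natDegree : ℝ) + 1) := by positivity
    rw [div_le_iff₀ (by linarith)]
    have h4 : (Real.log (2 * (L1 G + β)) + ((G.natDegree : ℝ) + 1)) * sz f ≤ 4 * W * (2 * W) :=
      mul_le_mul h3 (by linarith) hs0 (by linarith)
    nlinarith
  -- the two values at `U = 0`
  have pairlog : ∀ x y u j : ℕ, 1 ≤ x → 1 ≤ y → 1 ≤ u → Real.log x ≤ L → Real.log y ≤ L →
      2 * j * u ≤ k → 2 * j + 1 ≤ k → Real.log (((x * u) ^ (2 * j) * y : ℕ) : ℝ) ≤ W := by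
    intro x y u j hx hy hu lx ly hju hj
    have hx0 : (0 : ℝ) < x := by exact_mod_cast hx
    have hy0 : (0 : ℝ) < y := by exact_mod_cast hy
    have hu0 : (0 : ℝ) < u := by exact_mod_cast hu
    push_cast
    rw [Real.log_mul (by positivity) (by positivity), Real.log_pow,
      Real.log_mul (by positivity) (by positivity)]
    have h1 := log_nat_le u
    have h2 : (2 * (j : ℝ)) * u ≤ k := by exact_mod_cast hju
    have h3 : (2 * (j : ℝ)) + 1 ≤ k := by exact_mod_cast hj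
    have h4 : (0 : ℝ) ≤ 2 * (j : ℝ) := by positivity
    have h5 : 2 * (j : ℝ) * (Real.log x + Real.log u) ≤ 2 * (j : ℝ) * (L + u) :=
      mul_le_mul_of_nonneg_left (add_le_add lx h1) h4
    have h6 : (2 * (j : ℝ) + 1) * L ≤ k * L := mul_le_mul_of_nonneg_right h3 hL0
    rw [hWe]
    push_cast at h5 ⊢
    nlinarith
  have powlog : ∀ x j : ℕ, 1 ≤ x → Real.log x ≤ L → 2 * j + 1 ≤ k →
      Real.log ((x ^ (2 * j) : ℕ) : ℝ) ≤ W := by
    intro x j hx lx hj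
    have h := lpow x 1 (2 * j) hx le_rfl lx (by rw [Nat.cast_one, Real.log_one]; exact hL0) hj
    rw [mul_one] at h
    rw [hWe]
    linarith
  have s1 := ucount_pair zU ((e2 * (2 * m + 1)) ^ (2 * l) * g) (e1 ^ (2 * l))
    ((h2 * (2 * l + 1)) ^ (2 * m) * g) (h1 ^ (2 * m))
    (Nat.mul_pos (by positivity) hg) (Nat.one_le_pow _ _ he1)
    (Nat.mul_pos (by positivity) hg) (Nat.one_le_pow _ _ hh1) N1 q0 (W + 1) (by linarith)
    (log_add_le (by exact_mod_cast (Nat.mul_pos (by positivity) hg :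
        0 < (e2 * (2 * m + 1)) ^ (2 * l) * g)) (by exact_mod_cast Nat.one_le_pow _ _ he1)
      (pairlog e2 g (2 * m + 1) l he2 hg (by omega) Le2 Lg (by
        rw [hk', show 2 * l * (2 * m + 1) = 4 * (m * l) + 2 * l by ring]
        omega) hkl) (powlog e1 l he1 Le1 hkl))
    (log_add_le (by exact_mod_cast (Nat.mul_pos (by positivity) hg :
        0 < (h2 * (2 * l + 1)) ^ (2 * m) * g)) (by exact_mod_cast Nat.one_le_pow _ _ hh1)
      (pairlog h2 g (2 * l + 1) m hh2 hg (by omega) Lh2 Lg (by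
        rw [hk', show 2 * m * (2 * l + 1) = 4 * (m * l) + 2 * m by ring]
        omega) hkm) (powlog h1 m hh1 Lh1 hkm))
  -- zeros
  have s2 : UCount (fun q n => ∃ t : ZMod q, aeval t (fp δ m) = 0 ∧
      (aeval t (C (h2 : ℤ) * fp δ l)) ^ n = ((a ^ (2 * l) * h1 : ℕ) : ZMod q) ^ n ∧
      (aeval t ψ) ^ n = ((a ^ (4 * (m * l)) * g : ℕ) : ZMod q) ^ n) (20 * W ^ 2) q0 := by
    rcases Z1 with Z | Z
    · exact (rootc (fp δ m) _ _ hfm (szf m hkm) (pol h2 l hh2 Lh2 hkl) (degf _ _ hkl) hc1 l1 Z).mono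
        (fun q n _ _ _ ⟨t, h1, h2, h3⟩ => ⟨t, h1, h2⟩)
    · exact (rootc (fp δ m) _ _ hfm (szf m hkm) polψ degψ hc2 l2 Z).mono
        (fun q n _ _ _ ⟨t, h1, h2, h3⟩ => ⟨t, h1, h3⟩)
  have s3 : UCount (fun q n => ∃ t : ZMod q, aeval t (fp δ l) = 0 ∧
      (aeval t (C (e2 : ℤ) * fp δ m)) ^ n = ((a ^ (2 * m) * e1 : ℕ) : ZMod q) ^ n ∧
      (aeval t ψ) ^ n = ((a ^ (4 * (m * l)) * g : ℕ) : ZMod q) ^ n) (20 * W ^ 2) q0 := by
    rcases Z2 with Z | Z
    · exact (rootc (fp δ l) _ _ hfl (szf l hkl) (pol e2 m he2 Le2 hkm) (degf _ _ hkm) hc0 l0 Z).mono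
        (fun q n _ _ _ ⟨t, h1, h2, h3⟩ => ⟨t, h1, h2⟩)
    · exact (rootc (fp δ l) _ _ hfl (szf l hkl) polψ degψ hc2 l2 Z).mono
        (fun q n _ _ _ ⟨t, h1, h2, h3⟩ => ⟨t, h1, h3⟩)
  have s4 : UCount (fun q n => ∃ t : ZMod q, aeval t ψ = 0 ∧
      (aeval t (C (e2 : ℤ) * fp δ m)) ^ n = ((a ^ (2 * m) * e1 : ℕ) : ZMod q) ^ n ∧
      (aeval t (C (h2 : ℤ) * fp δ l)) ^ n = ((a ^ (2 * l) * h1 : ℕ) : ZMod q) ^ n)
        (20 * W ^ 2) q0 := by
    rcases Z3 with Z | Z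
    · exact (rootc ψ _ _ hψ.zero szψ (pol e2 m he2 Le2 hkm) (degf _ _ hkm) hc0 l0 Z).mono
        (fun q n _ _ _ ⟨t, h1, h2, h3⟩ => ⟨t, h1, h2⟩)
    · exact (rootc ψ _ _ hψ.zero szψ (pol h2 l hh2 Lh2 hkl) (degf _ _ hkl) hc1 l1 Z).mono
        (fun q n _ _ _ ⟨t, h1, h2, h3⟩ => ⟨t, h1, h3⟩)
  -- the values
  have h3c : ∀ i : Fin 3, i = 0 ∨ i = 1 ∨ i = 2 := by
    intro i
    fin_cases i <;> simp
  have hcst : ∀ q : ℕ, q.Prime → q0 < q → (((a ^ (2 * m) * e1 : ℕ) : ZMod q) ≠ 0) ∧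
      (((a ^ (2 * l) * h1 : ℕ) : ZMod q) ≠ 0) ∧ (((a ^ (4 * (m * l)) * g : ℕ) : ZMod q) ≠ 0) := by
    intro q hq hlt
    have hF : Fact q.Prime := ⟨hq⟩
    obtain ⟨g1, g2, -, g3, -, g4⟩ := hnz q hq hlt
    refine ⟨?_, ?_, ?_⟩
    · push_cast; exact mul_ne_zero (pow_ne_zero _ g1) g2
    · push_cast; exact mul_ne_zero (pow_ne_zero _ g1) g3
    · push_cast; exact mul_ne_zero (pow_ne_zero _ g1) g4
  have h5 := count_primesE (r := 3) (by norm_num) (phG δ m l ψ e2 h2)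
    (cc (a ^ (2 * m) * e1) (a ^ (2 * l) * h1) (a ^ (4 * (m * l)) * g)) (by
      intro i
      rcases h3c i with rfl | rfl | rfl
      · simp only [cc, Matrix.cons_val_zero]
        exact_mod_cast (by omega : a ^ (2 * m) * e1 ≠ 0)
      · simp only [cc, Matrix.cons_val_zero, Matrix.cons_val_one]
        exact_mod_cast (by omega : a ^ (2 * l) * h1 ≠ 0)
      · simp only [cc, Matrix.cons_val_two, Matrix.tail_cons, Matrix.head_cons]
        exact_mod_cast (by omega : a ^ (4 * (m * l)) * g ≠ 0)) E q0 (by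
      intro q hq hlt i
      obtain ⟨g1, g2, g3⟩ := hcst q hq hlt
      rcases h3c i with rfl | rfl | rfl
      · simp only [cc, Matrix.cons_val_zero, Int.cast_natCast]
        exact g1
      · simp only [cc, Matrix.cons_val_zero, Matrix.cons_val_one, Int.cast_natCast]
        exact g2
      · simp only [cc, Matrix.cons_val_two, Matrix.tail_cons, Matrix.head_cons, Int.cast_natCast]
        exact g3) (by
      intro q hq hlt i
      have hchar : CharP (AlgebraicClosure (ZMod q)) q :=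
        charP_of_injective_algebraMap (algebraMap (ZMod q) _).injective q
      obtain ⟨-, -, g3, -, g5, -⟩ := hnz q hq.out hlt
      have cast_ne : ∀ x : ℕ, (x : ZMod q) ≠ 0 → (x : AlgebraicClosure (ZMod q)) ≠ 0 := by
        intro x hx h
        apply hx
        apply (algebraMap (ZMod q) (AlgebraicClosure (ZMod q))).injective
        rw [map_natCast, map_zero]
        exact h
      obtain ⟨z, hz1, hz2⟩ := phG_Hq (AlgebraicClosure (ZMod q)) δ hδ1 m l hm hl hco ψ hψ e2 h2 q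
        (by omega) (by omega) (cast_ne _ g3) (cast_ne _ g5) i
      exact ⟨AlgebraicClosure (ZMod q), inferInstance, hchar, z, hz1, hz2⟩) HT
  have hAc : Ac (phG δ m l ψ e2 h2)
      (cc (a ^ (2 * m) * e1) (a ^ (2 * l) * h1) (a ^ (4 * (m * l)) * g)) ≤ 13 * W := by
    have h6 := Ac_le3 (phG δ m l ψ e2 h2)
      (cc (a ^ (2 * m) * e1) (a ^ (2 * l) * h1) (a ^ (4 * (m * l)) * g)) (L + 2 * k) (k * L)
      (by positivity) hkL k (by
        intro i
        rcases h3c i with rfl | rfl | rfl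
        · simp only [phG, Matrix.cons_val_zero]
          exact pol e2 m he2 Le2 hkm
        · simp only [phG, Matrix.cons_val_zero, Matrix.cons_val_one]
          exact pol h2 l hh2 Lh2 hkl
        · simp only [phG, Matrix.cons_val_two, Matrix.tail_cons, Matrix.head_cons]
          exact polψ) (by
        intro i
        have habs : ∀ x : ℕ, 1 ≤ x → Real.log (x : ℝ) ≤ k * L →
            |(((x : ℕ) : ℤ) : ℝ)| ≤ Real.exp (k * L) := by
          intro x hx lx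
          push_cast
          rw [abs_of_nonneg (Nat.cast_nonneg x)]
          exact nat_le_exp hx lx
        rcases h3c i with rfl | rfl | rfl
        · simp only [cc, Matrix.cons_val_zero]
          exact habs _ hc0 l0
        · simp only [cc, Matrix.cons_val_zero, Matrix.cons_val_one]
          exact habs _ hc1 l1
        · simp only [cc, Matrix.cons_val_two, Matrix.tail_cons, Matrix.head_cons]
          exact habs _ hc2 l2) (by
        intro i
        rcases h3c i with rfl | rfl | rfl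
        · simp only [phG, Matrix.cons_val_zero]
          exact degf e2 m hkm
        · simp only [phG, Matrix.cons_val_zero, Matrix.cons_val_one]
          exact degf h2 l hkl
        · simp only [phG, Matrix.cons_val_two, Matrix.tail_cons, Matrix.head_cons]
          exact degψ)
    refine h6.trans ?_
    rw [hWe]
    nlinarith
  have s5 : UCount (fun q n => ∃ t : ZMod q, aeval t E ≠ 0 ∧
      ∀ i, (aeval t (phG δ m l ψ e2 h2 i)) ^ n =
      ((cc (a ^ (2 * m) * e1) (a ^ (2 * l) * h1) (a ^ (4 * (m * l)) * g) i : ℤ) : ZMod q) ^ n)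
      (2000000 * W ^ 2) q0 := by
    intro K R hR hRK hKR Q hQ
    refine (h5 K R hR hRK hKR Q ?_).trans ?_
    · intro q hq
      obtain ⟨g1, g2, n, g3, g4, _, t, ht1, ht2⟩ := hQ q hq
      exact ⟨g1, g2, t, n, g3, g4, ht1, ht2⟩
    · have hA0 := Ac_nonneg (phG δ m l ψ e2 h2)
        (cc (a ^ (2 * m) * e1) (a ^ (2 * l) * h1) (a ^ (4 * (m * l)) * g))
      obtain ⟨A, hA⟩ : ∃ A, A = Ac (phG δ m l ψ e2 h2)
        (cc (a ^ (2 * m) * e1) (a ^ (2 * l) * h1) (a ^ (4 * (m * l)) * g)) := ⟨_, rfl⟩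
      rw [← hA] at hAc hA0 ⊢
      have hA2 : A * A ≤ 13 * W * (13 * W) := mul_le_mul hAc hAc hA0 (by linarith)
      have hl3 : (0.693 : ℝ) ≤ Real.log 2 := by
        have := Real.log_two_gt_d9
        linarith
      have e1 : 2 ^ (3 + 1) * A * ((3 : ℕ) : ℝ) ^ (3 - 1) / Real.log 2 * A *
          (2 * ((3 : ℕ) : ℝ) * 3 ^ (3 - 1)) ≤ 2000000 * W ^ 2 := by
        have e2 : 2 ^ (3 + 1) * A * ((3 : ℕ) : ℝ) ^ (3 - 1) / Real.log 2 * A *
          (2 * ((3 : ℕ) : ℝ) * 3 ^ (3 - 1)) = 7776 * (A * A) / Real.log 2 := by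
          push_cast
          ring
        rw [e2, div_le_iff₀ (by linarith)]
        have e3 : 0 ≤ W ^ 2 := by positivity
        nlinarith
      have hK : (0 : ℝ) ≤ (K : ℝ) ^ 2 := by positivity
      have hR : (0 : ℝ) ≤ (R : ℝ) ^ 2 := by positivity
      exact mul_le_mul_of_nonneg_right (mul_le_mul_of_nonneg_right e1 hK) hR
  have hall := s1.or (s2.or (s3.or (s4.or s5)))
  refine (UCount.mono (Bd' := BadPG δ m l ψ a e1 e2 h1 h2 g zU E) hall ?_).weak ?_ le_rfl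
  swap
  · have : (81 : ℝ) ≤ W ^ 2 := by nlinarith
    nlinarith
  -- the cases
  intro q n hq hlt g5 g6
  have hF : Fact q.Prime := ⟨hq⟩
  obtain ⟨U, V, hUV, hzU, hE, hU, hFm, hFl, hΨ⟩ := g6
  obtain ⟨ka, ke1, ke2, kh1, kh2, kg⟩ := hnz q hq hlt
  have km : (2 * (m : ZMod q) + 1) ≠ 0 := by
    have := natCast_ne_zero_of_lt (k := 2 * m + 1) (by omega) (by omega : 2 * m + 1 < q) (ZMod q)
    push_cast at this
    exact this
  have kl : (2 * (l : ZMod q) + 1) ≠ 0 := by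
    have := natCast_ne_zero_of_lt (k := 2 * l + 1) (by omega) (by omega : 2 * l + 1 < q) (ZMod q)
    push_cast at this
    exact this
  have kδ : (δ : ZMod q) ≠ 0 := by
    rcases Int.natAbs_eq δ with h | h
    · rw [h, hδ1]; simp
    · rw [h, hδ1]; simp
  have hδn : (δ : ZMod q) ^ n = 1 := by
    rcases Int.natAbs_eq δ with h | h
    · rw [h, hδ1]; simp
    · rw [h, hδ1]
      push_cast
      rw [g5.neg_pow, one_pow]
  by_cases hU0 : U = 0
  · left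
    have hnzU : ¬ zU := fun h => hzU h hU0
    refine ⟨hnzU, ?_⟩
    have hV0 : V ≠ 0 := by
      rcases hUV with h1 | h1
      · exact absurd hU0 h1
      · exact h1
    rw [hU0] at hFm hFl hΨ
    rw [(FG_u0 (δ : ZMod q) V m).1] at hFm
    rw [(FG_u0 (δ : ZMod q) V l).1] at hFl
    rw [hmg_zero, hψ.top] at hΨ
    have e1' := hFm.resolve_left (mul_ne_zero km (pow_ne_zero _ (mul_ne_zero kδ
      (pow_ne_zero _ hV0))))
    have kk : (2 * (l : ZMod q) + 1) * ((δ : ZMod q) * V ^ 2) ^ l ≠ 0 :=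
      mul_ne_zero kl (pow_ne_zero _ (mul_ne_zero kδ (pow_ne_zero _ hV0)))
    have e2' := hFl.resolve_left kk
    have e3' := hΨ.resolve_left (mul_ne_zero (by
      push_cast
      exact pow_ne_zero _ kδ) (pow_ne_zero _ hV0))
    obtain ⟨P, hP⟩ : ∃ P : ZMod q, P = 2 * (m : ZMod q) + 1 := ⟨_, rfl⟩
    obtain ⟨R', hR'⟩ : ∃ R' : ZMod q, R' = 2 * (l : ZMod q) + 1 := ⟨_, rfl⟩
    rw [← hP] at e1'
    rw [← hR'] at e2'
    have e1'' : ((e2 : ZMod q) * P * V ^ (2 * m)) ^ n = (e1 : ZMod q) ^ n := by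
      rw [← e1']
      calc ((e2 : ZMod q) * P * V ^ (2 * m)) ^ n =
            ((e2 : ZMod q) * P) ^ n * 1 ^ m * (V ^ (2 * m)) ^ n := by ring
        _ = ((e2 : ZMod q) * P) ^ n * ((δ : ZMod q) ^ n) ^ m * (V ^ (2 * m)) ^ n := by rw [hδn]
        _ = _ := by ring
    have e2'' : ((h2 : ZMod q) * R' * V ^ (2 * l)) ^ n = (h1 : ZMod q) ^ n := by
      rw [← e2']
      calc ((h2 : ZMod q) * R' * V ^ (2 * l)) ^ n =
            ((h2 : ZMod q) * R') ^ n * 1 ^ l * (V ^ (2 * l)) ^ n := by ring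
        _ = ((h2 : ZMod q) * R') ^ n * ((δ : ZMod q) ^ n) ^ l * (V ^ (2 * l)) ^ n := by rw [hδn]
        _ = _ := by ring
    have e3'' : (V ^ (4 * (m * l))) ^ n = (g : ZMod q) ^ n := by
      rw [← e3']
      push_cast
      calc (V ^ (4 * (m * l))) ^ n = 1 ^ (2 * (m * l)) * (V ^ (4 * (m * l))) ^ n := by ring
        _ = ((δ : ZMod q) ^ n) ^ (2 * (m * l)) * (V ^ (4 * (m * l))) ^ n := by rw [hδn]
        _ = _ := by ring
    constructor
    · push_cast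
      rw [← hP]
      calc (((e2 : ZMod q) * P) ^ (2 * l) * (g : ZMod q)) ^ n =
            (((e2 : ZMod q) * P) ^ (2 * l)) ^ n * (g : ZMod q) ^ n := by
            rw [mul_pow]
        _ = (((e2 : ZMod q) * P) ^ (2 * l)) ^ n * (V ^ (4 * (m * l))) ^ n := by rw [e3'']
        _ = (((e2 : ZMod q) * P * V ^ (2 * m)) ^ n) ^ (2 * l) := by ring
        _ = ((e1 : ZMod q) ^ n) ^ (2 * l) := by rw [e1'']
        _ = _ := by ring
    · push_cast
      rw [← hR']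
      calc (((h2 : ZMod q) * R') ^ (2 * m) * (g : ZMod q)) ^ n =
            (((h2 : ZMod q) * R') ^ (2 * m)) ^ n * (g : ZMod q) ^ n := by
            rw [mul_pow]
        _ = (((h2 : ZMod q) * R') ^ (2 * m)) ^ n * (V ^ (4 * (m * l))) ^ n := by rw [e3'']
        _ = (((h2 : ZMod q) * R' * V ^ (2 * l)) ^ n) ^ (2 * m) := by ring
        _ = ((h1 : ZMod q) ^ n) ^ (2 * m) := by rw [e2'']
        _ = _ := by ring
  right
  have hU' := hU.resolve_left hU0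
  obtain ⟨t, ht⟩ : ∃ t, t = V / U := ⟨_, rfl⟩
  have hVt : V = U * t := by rw [ht]; field_simp
  have hEt := hE t hVt
  have hFmt : Fh (δ : ZMod q) U V m = U ^ (2 * m) * Fh (δ : ZMod q) 1 t m := by
    have := (hom_FG (δ : ZMod q) 1 t U m).1
    rw [mul_one, ← hVt] at this
    exact this
  have hFlt : Fh (δ : ZMod q) U V l = U ^ (2 * l) * Fh (δ : ZMod q) 1 t l := by
    have := (hom_FG (δ : ZMod q) 1 t U l).1
    rw [mul_one, ← hVt] at this
    exact this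
  have hΨt : hmg ψ (4 * (m * l)) U V = U ^ (4 * (m * l)) * aeval t ψ := by
    rw [hmg_field ψ _ U V hU0 hψ.deg, ht]
  rw [hFmt] at hFm
  rw [hFlt] at hFl
  rw [hΨt] at hΨ
  have hchar : CharP (AlgebraicClosure (ZMod q)) q :=
    charP_of_injective_algebraMap (algebraMap (ZMod q) _).injective q
  obtain ⟨n12, n13, n23⟩ := zmod_nc (AlgebraicClosure (ZMod q)) δ hδ1 m l hco ψ hψ q
    (by omega) (by omega) (by omega) (algebraMap (ZMod q) (AlgebraicClosure (ZMod q))) t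
  have gen : ∀ (x c : ℕ) (j : ℕ), aeval t (fp δ j) ≠ 0 →
      (U ^ (2 * j) * Fh (δ : ZMod q) 1 t j = 0 ∨
        ((x : ZMod q) * (U ^ (2 * j) * Fh (δ : ZMod q) 1 t j)) ^ n = (c : ZMod q) ^ n) →
      (aeval t (C (x : ℤ) * fp δ j)) ^ n = ((a ^ (2 * j) * c : ℕ) : ZMod q) ^ n := by
    intro x c j hne hF'
    have e0 : aeval t (C (x : ℤ) * fp δ j) = (x : ZMod q) * Fh (δ : ZMod q) 1 t j := by
      rw [map_mul, aeval_fp, aeval_C]
      simp
    rw [e0]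
    rw [aeval_fp] at hne
    have g1 := hF'.resolve_left (mul_ne_zero (pow_ne_zero _ hU0) hne)
    push_cast
    calc ((x : ZMod q) * Fh (δ : ZMod q) 1 t j) ^ n =
          1 ^ (2 * j) * ((x : ZMod q) * Fh (δ : ZMod q) 1 t j) ^ n := by ring
      _ = (((a : ZMod q) * U) ^ n) ^ (2 * j) * ((x : ZMod q) * Fh (δ : ZMod q) 1 t j) ^ n := by
          rw [hU']
      _ = ((a : ZMod q) ^ (2 * j)) ^ n *
          ((x : ZMod q) * (U ^ (2 * j) * Fh (δ : ZMod q) 1 t j)) ^ n := by ring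
      _ = _ := by rw [g1, mul_pow]
  have f1 : aeval t (fp δ m) ≠ 0 → (aeval t (C (e2 : ℤ) * fp δ m)) ^ n =
      ((a ^ (2 * m) * e1 : ℕ) : ZMod q) ^ n := fun hne => gen e2 e1 m hne hFm
  have f2 : aeval t (fp δ l) ≠ 0 → (aeval t (C (h2 : ℤ) * fp δ l)) ^ n =
      ((a ^ (2 * l) * h1 : ℕ) : ZMod q) ^ n := fun hne => gen h2 h1 l hne hFl
  have f3 : aeval t ψ ≠ 0 → (aeval t ψ) ^ n = ((a ^ (4 * (m * l)) * g : ℕ) : ZMod q) ^ n := by
    intro hne
    have g1 := hΨ.resolve_left (mul_ne_zero (pow_ne_zero _ hU0) hne)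
    push_cast
    calc (aeval t ψ) ^ n = 1 ^ (4 * (m * l)) * (aeval t ψ) ^ n := by ring
      _ = (((a : ZMod q) * U) ^ n) ^ (4 * (m * l)) * (aeval t ψ) ^ n := by rw [hU']
      _ = ((a : ZMod q) ^ (4 * (m * l))) ^ n * (U ^ (4 * (m * l)) * aeval t ψ) ^ n := by ring
      _ = _ := by rw [g1, mul_pow]
  by_cases hz1 : aeval t (fp δ m) = 0
  · left
    exact ⟨t, hz1, f2 (n12 hz1), f3 (n13 hz1)⟩
  right
  by_cases hz2 : aeval t (fp δ l) = 0
  · left
    exact ⟨t, hz2, f1 hz1, f3 (n23 hz2)⟩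
  right
  by_cases hz3 : aeval t ψ = 0
  · left
    exact ⟨t, hz3, f1 hz1, f2 hz2⟩
  right
  refine ⟨t, hEt, ?_⟩
  intro i
  rcases h3c i with rfl | rfl | rfl
  · simp only [cc, phG, Matrix.cons_val_zero, Int.cast_natCast]
    exact f1 hz1
  · simp only [cc, phG, Matrix.cons_val_zero, Matrix.cons_val_one, Int.cast_natCast]
    exact f2 hz2
  · simp only [cc, phG, Matrix.cons_val_two, Matrix.tail_cons, Matrix.head_cons,
      Int.cast_natCast]
    exact f3 hz3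

end Pool.Agent.H573.AHB
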