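import Pool.Agent.H573.AHB.PuC

/-!
The configurations without torsion points, by `p`-adic valuations.
-/

set_option autoImplicit false

namespace Pool.Agent.H573.AHB

open Polynomial

/-- type one: `p` divides the constant of `F_p` -/
theorem ucount_one (δ : ℤ) (hδ1 : δ.natAbs = 1) (m l : ℕ) (hm : 1 ≤ m) (hl : 1 ≤ l)
    (hp : (2 * m + 1).Prime) (hr : (2 * l + 1).Prime) (hne : m ≠ l)
    (ψ : ℤ[X]) (hψ : IsPsi δ m l ψ)
    (a e1 e2 h1 h2 g : ℕ) (zU : Prop)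
    (ha : 1 ≤ a) (he1 : 1 ≤ e1) (he2 : 1 ≤ e2) (hh1 : 1 ≤ h1) (hh2 : 1 ≤ h2) (hg : 1 ≤ g)
    (L : ℝ) (La : Real.log a ≤ L) (Le1 : Real.log e1 ≤ L) (Le2 : Real.log e2 ≤ L)
    (Lh1 : Real.log h1 ≤ L) (Lh2 : Real.log h2 ≤ L) (Lg : Real.log g ≤ L)
    (q0 : ℕ) (q0m : 2 * m + 1 ≤ q0) (q0l : 2 * l + 1 ≤ q0)
    (hnz : ∀ q : ℕ, q.Prime → q0 < q → (a : ZMod q) ≠ 0 ∧ (e1 : ZMod q) ≠ 0 ∧ (e2 : ZMod q) ≠ 0 ∧
      (h1 : ZMod q) ≠ 0 ∧ (h2 : ZMod q) ≠ 0 ∧ (g : ZMod q) ≠ 0)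
    (hpe : (2 * m + 1) ∣ e1) (hpe2 : ¬ (2 * m + 1) ∣ e2) (hph : ¬ (2 * m + 1) ∣ h2)
    (N1 : zU ∨ ((e2 * (2 * m + 1)) ^ (2 * l) * g ≠ e1 ^ (2 * l) ∨
      (h2 * (2 * l + 1)) ^ (2 * m) * g ≠ h1 ^ (2 * m))) :
    UCount (BadPG δ m l ψ a e1 e2 h1 h2 g zU 1)
      (3000000 * ((((2 * m + 1) * (2 * l + 1) : ℕ) : ℝ) * (L + 1)) ^ 2) q0 := by
  have hco : Nat.Coprime (2 * m + 1) (2 * l + 1) :=
    (Nat.coprime_primes hp hr).mpr (by omega)
  obtain ⟨B, hB⟩ := exists_val (2 * m + 1) hp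
  have hprl : ¬ (2 * m + 1) ∣ 2 * l + 1 := by
    intro h
    have := (Nat.prime_dvd_prime_iff_eq hp hr).mp h
    omega
  have hml : 4 * (m * l) ≠ 0 := by
    have := Nat.mul_pos (show 0 < m by omega) (show 0 < l by omega)
    omega
  have algc : ∀ x : ℕ, (algebraMap ℤ ℂ) ((x : ℕ) : ℤ) = ((x : ℕ) : ℂ) := by intro x; simp
  -- if `(e₂ f_m(z))^N = (a^{2m} e₁)^N` then `z` is not integral
  have key1 : ∀ z : ℂ, ∀ N : ℕ, 1 ≤ N →
      (aeval z (C (e2 : ℤ) * fp δ m)) ^ N = ((a ^ (2 * m) * e1 : ℕ) : ℂ) ^ N →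
      1 < B.valuation z := by
    intro z N hN h
    by_contra hcon
    push Not at hcon
    have h3 := val_pow_inj (B := B) hN h
    rw [map_mul, aeval_C, algc, map_mul, val_nat_eq hp hB hpe2, one_mul, aeval_fp,
      val_F m hm hp hB δ hcon] at h3
    have h4 := val_lt_of_dvd hB (k := a ^ (2 * m) * e1) (hpe.mul_left _)
    rw [← h3] at h4
    exact lt_irrefl _ h4
  have key0 : ∀ z : ℂ, aeval z (fp δ m) = 0 → 1 < B.valuation z := by
    intro z h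
    by_contra hcon
    push Not at hcon
    have h3 := val_F m hm hp hB δ hcon
    rw [← aeval_fp, h, map_zero] at h3
    exact zero_ne_one h3
  have key2 : ∀ z : ℂ, ∀ N : ℕ, 1 ≤ N → 1 < B.valuation z →
      (aeval z (C (h2 : ℤ) * fp δ l)) ^ N ≠ ((a ^ (2 * l) * h1 : ℕ) : ℂ) ^ N := by
    intro z N hN hz h
    have h3 := val_pow_inj (B := B) hN h
    have h4 : B.valuation (aeval z (C (h2 : ℤ) * fp δ l)) = B.valuation z ^ (2 * l) := by
      rw [map_mul, aeval_C, map_mul, val_fp_big hp hB δ hδ1 l hprl hz, algc,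
        val_nat_eq hp hB hph, one_mul]
    rw [h4] at h3
    have h5 := val_nat_le (B := B) (a ^ (2 * l) * h1)
    rw [← h3] at h5
    exact absurd h5 (not_le.mpr (one_lt_pow₀ hz (by omega)))
  refine ucount_PG δ hδ1 m l hm hl hco ψ hψ a e1 e2 h1 h2 g zU 1 ha he1 he2 hh1 hh2 hg
    L La Le1 Le2 Lh1 Lh2 Lg q0 q0m q0l hnz ?_ ?_ ?_ ?_ N1
  · left
    intro n hn z hz
    exact key2 z n hn (key0 z hz)
  · left
    intro n hn z hz h
    have h3 := key1 z n hn h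
    have h4 := val_fp_big hp hB δ hδ1 l hprl h3
    rw [hz, map_zero] at h4
    exact (pow_ne_zero _ (ne_of_gt (lt_trans zero_lt_one h3))) h4.symm
  · left
    intro n hn z hz h
    have h3 := key1 z n hn h
    have h4 := val_psi_big hp hB δ hδ1 m l ψ hψ h3
    rw [hz, map_zero] at h4
    exact (pow_ne_zero _ (ne_of_gt (lt_trans zero_lt_one h3))) h4.symm
  · intro z _
    by_contra hcon
    push Not at hcon
    obtain ⟨N, hN, h0⟩ := hcon 0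
    obtain ⟨N', hN', h1'⟩ := hcon 1
    simp only [cc, phG, Matrix.cons_val_zero, Matrix.cons_val_one, Int.cast_natCast] at h0 h1'
    exact key2 z N' hN' (key1 z N hN h0) h1'

/-- type two: `p` divides the constants of `F_r` (in the denominator) and of `Ψ` -/
theorem ucount_two (δ : ℤ) (hδ1 : δ.natAbs = 1) (m l : ℕ) (hm : 1 ≤ m) (hl : 1 ≤ l)
    (hp : (2 * m + 1).Prime) (hr : (2 * l + 1).Prime) (hne : m ≠ l)
    (ψ : ℤ[X]) (hψ : IsPsi δ m l ψ)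
    (a e1 e2 h1 h2 g : ℕ) (zU : Prop)
    (ha : 1 ≤ a) (he1 : 1 ≤ e1) (he2 : 1 ≤ e2) (hh1 : 1 ≤ h1) (hh2 : 1 ≤ h2) (hg : 1 ≤ g)
    (L : ℝ) (La : Real.log a ≤ L) (Le1 : Real.log e1 ≤ L) (Le2 : Real.log e2 ≤ L)
    (Lh1 : Real.log h1 ≤ L) (Lh2 : Real.log h2 ≤ L) (Lg : Real.log g ≤ L)
    (q0 : ℕ) (q0m : 2 * m + 1 ≤ q0) (q0l : 2 * l + 1 ≤ q0)
    (hnz : ∀ q : ℕ, q.Prime → q0 < q → (a : ZMod q) ≠ 0 ∧ (e1 : ZMod q) ≠ 0 ∧ (e2 : ZMod q) ≠ 0 ∧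
      (h1 : ZMod q) ≠ 0 ∧ (h2 : ZMod q) ≠ 0 ∧ (g : ZMod q) ≠ 0)
    (hph2 : (2 * m + 1) ∣ h2) (hph1 : ¬ (2 * m + 1) ∣ h1) (hpa : ¬ (2 * m + 1) ∣ a)
    (N1 : zU ∨ ((e2 * (2 * m + 1)) ^ (2 * l) * g ≠ e1 ^ (2 * l) ∨
      (h2 * (2 * l + 1)) ^ (2 * m) * g ≠ h1 ^ (2 * m))) :
    UCount (BadPG δ m l ψ a e1 e2 h1 h2 g zU 1)
      (3000000 * ((((2 * m + 1) * (2 * l + 1) : ℕ) : ℝ) * (L + 1)) ^ 2) q0 := by
  have hco : Nat.Coprime (2 * m + 1) (2 * l + 1) :=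
    (Nat.coprime_primes hp hr).mpr (by omega)
  obtain ⟨B, hB⟩ := exists_val (2 * m + 1) hp
  obtain ⟨B', hB'⟩ := exists_val (2 * l + 1) hr
  have hml : 4 * (m * l) ≠ 0 := by
    have := Nat.mul_pos (show 0 < m by omega) (show 0 < l by omega)
    omega
  have key0 : ∀ z : ℂ, aeval z (fp δ m) = 0 → 1 < B.valuation z := by
    intro z h
    by_contra hcon
    push Not at hcon
    have h3 := val_F m hm hp hB δ hcon
    rw [← aeval_fp, h, map_zero] at h3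
    exact zero_ne_one h3
  have hcu : B.valuation ((a ^ (2 * l) * h1 : ℕ) : ℂ) = 1 := by
    apply val_nat_eq hp hB
    intro h
    rcases (Nat.Prime.dvd_mul hp).mp h with h | h
    · exact hpa (hp.dvd_of_dvd_pow h)
    · exact hph1 h
  have key1 : ∀ z : ℂ, ∀ N : ℕ, 1 ≤ N →
      (aeval z (C (h2 : ℤ) * fp δ l)) ^ N = ((a ^ (2 * l) * h1 : ℕ) : ℂ) ^ N →
      1 < B.valuation z := by
    intro z N hN h
    by_contra hcon
    push Not at hcon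
    have h3 := val_pow_inj (B := B) hN h
    rw [hcu, map_mul, aeval_C, map_mul] at h3
    have h4 : (algebraMap ℤ ℂ) ((h2 : ℕ) : ℤ) = ((h2 : ℕ) : ℂ) := by simp
    rw [h4] at h3
    have h5 := vmul_lt (val_lt_of_dvd hB hph2) (val_small (B := B) (fp δ l) hcon)
    rw [h3] at h5
    exact lt_irrefl _ h5
  have key2 : ∀ (B : ValuationSubring ℂ) (r : ℕ), r.Prime → B.valuation (r : ℂ) < 1 → ∀ z : ℂ,
      ∀ N : ℕ, 1 ≤ N → 1 < B.valuation z →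
      (aeval z ψ) ^ N ≠ ((a ^ (4 * (m * l)) * g : ℕ) : ℂ) ^ N := by
    intro B r hr hB z N hN hz h
    have h3 := val_pow_inj (B := B) hN h
    rw [val_psi_big hr hB δ hδ1 m l ψ hψ hz] at h3
    have h5 := val_nat_le (B := B) (a ^ (4 * (m * l)) * g)
    rw [← h3] at h5
    exact absurd h5 (not_le.mpr (one_lt_pow₀ hz hml))
  refine ucount_PG δ hδ1 m l hm hl hco ψ hψ a e1 e2 h1 h2 g zU 1 ha he1 he2 hh1 hh2 hg
    L La Le1 Le2 Lh1 Lh2 Lg q0 q0m q0l hnz ?_ ?_ ?_ ?_ N1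
  · right
    intro n hn z hz
    exact key2 B _ hp hB z n hn (key0 z hz)
  · right
    intro n hn z hz
    have hz1 : 1 < B'.valuation z := by
      by_contra hcon
      push Not at hcon
      have h3 := val_F l hl hr hB' δ hcon
      rw [← aeval_fp, hz, map_zero] at h3
      exact zero_ne_one h3
    exact key2 B' _ hr hB' z n hn hz1
  · right
    intro n hn z hz h
    have h3 := key1 z n hn h
    have h4 := val_psi_big hp hB δ hδ1 m l ψ hψ h3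
    rw [hz, map_zero] at h4
    exact (pow_ne_zero _ (ne_of_gt (lt_trans zero_lt_one h3))) h4.symm
  · intro z _
    by_contra hcon
    push Not at hcon
    obtain ⟨N, hN, h0⟩ := hcon 1
    obtain ⟨N', hN', h1'⟩ := hcon 2
    simp only [cc, phG, Matrix.cons_val_zero, Matrix.cons_val_one, Matrix.cons_val_two,
      Matrix.tail_cons, Matrix.head_cons, Int.cast_natCast] at h0 h1'
    exact key2 B _ hp hB z N' hN' (key1 z N hN h0) h1'

end Pool.Agent.H573.AHB
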