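import Pool.Agent.H573.AHB.PuD

/-!
The torsion points for the first case: no complex `z ≠ 0` such that `f_p(z), f_r(z), ψ(z)` are roots
of unity.
-/

set_option autoImplicit false

namespace Pool.Agent.H573.AHB

open Polynomial

/-- an algebraic integer with small conjugates is zero -/
lemma int_small (w : ℂ) (hw : IsIntegral ℤ w)
    (h : ∀ w' : ℂ, aeval w' (minpoly ℤ w) = 0 → ‖w'‖ < 1) : w = 0 := by
  obtain ⟨D, hD⟩ : ∃ D, D = minpoly ℤ w := ⟨_, rfl⟩
  have hmon : D.Monic := by rw [hD]; exact minpoly.monic hw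
  have hw0 : aeval w D = 0 := by rw [hD]; exact minpoly.aeval ℤ w
  rw [← hD] at h
  have hirr : Irreducible D := by rw [hD]; exact minpoly.irreducible hw
  obtain ⟨Dc, hDc⟩ : ∃ Dc : ℂ[X], Dc = D.map (Int.castRingHom ℂ) := ⟨_, rfl⟩
  have hmonc : Dc.Monic := by rw [hDc]; exact hmon.map _
  have hspl : Dc.Splits := IsAlgClosed.splits Dc
  have hroot : ∀ x ∈ Dc.roots, ‖x‖ < 1 := by
    intro x hx
    apply h
    have h1 := (mem_roots hmonc.ne_zero).mp hx
    rw [IsRoot.def, hDc, eval_map] at h1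
    exact h1
  have hw1 : w ∈ Dc.roots := by
    rw [mem_roots hmonc.ne_zero, IsRoot.def, hDc, eval_map]
    exact hw0
  have hprod : ∀ s : Multiset ℂ, (∀ x ∈ s, ‖x‖ < 1) → s ≠ 0 → ‖s.prod‖ < 1 := by
    intro s
    induction s using Multiset.induction_on with
    | empty => intro _ h0; exact absurd rfl h0
    | cons a s ih =>
      intro hs _
      rw [Multiset.prod_cons, norm_mul]
      have ha := hs a (Multiset.mem_cons_self a s)
      rcases eq_or_ne s 0 with h0 | h0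
      · rw [h0, Multiset.prod_zero, norm_one, mul_one]
        exact ha
      · have h1 := ih (fun x hx => hs x (Multiset.mem_cons_of_mem hx)) h0
        have h2 := norm_nonneg a
        have h3 := norm_nonneg s.prod
        nlinarith
  have hc := hspl.coeff_zero_eq_prod_roots_of_monic hmonc
  have hne : Dc.roots ≠ 0 := by
    intro h0
    rw [h0] at hw1
    exact absurd hw1 (Multiset.notMem_zero w)
  have hlt : ‖Dc.coeff 0‖ < 1 := by
    rw [hc, norm_mul, norm_pow, norm_neg, norm_one, one_pow, one_mul]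
    exact hprod _ hroot hne
  have hz : D.coeff 0 = 0 := by
    rw [hDc, coeff_map, eq_intCast, Complex.norm_intCast] at hlt
    have h1 : |D.coeff 0| < 1 := by exact_mod_cast hlt
    exact Int.abs_lt_one_iff.mp h1
  obtain ⟨E, hE⟩ := X_dvd_iff.mpr hz
  rcases hirr.isUnit_or_isUnit hE with hu | hu
  · exact absurd hu not_isUnit_X
  · rw [hE, map_mul, aeval_X] at hw0
    rcases mul_eq_zero.mp hw0 with h1 | h1
    · exact h1
    · have := hu.map (aeval w : ℤ[X] →ₐ[ℤ] ℂ)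
      rw [h1] at this
      exact absurd this not_isUnit_zero

lemma norm_one_of_pow {x : ℂ} {N : ℕ} (hN : 1 ≤ N) (h : x ^ N = 1) : ‖x‖ = 1 := by
  have h1 : ‖x‖ ^ N = 1 := by rw [← norm_pow, h, norm_one]
  exact (pow_eq_one_iff_of_nonneg (norm_nonneg x) (by omega)).mp h1

/-- a root of unity congruent to one modulo `p ≥ 3` is one -/
lemma unity_one (p N : ℕ) (hp : 3 ≤ p) (hN : 1 ≤ N) (w : ℂ) (hw : IsIntegral ℤ w)
    (h : (1 + (p : ℂ) * w) ^ N = 1) : w = 0 := by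
  apply int_small w hw
  intro w' hw'
  have hdvd : minpoly ℤ w ∣ (1 + C (p : ℤ) * X) ^ N - 1 := by
    apply minpoly.isIntegrallyClosed_dvd hw
    simp only [map_sub, map_pow, map_add, map_one, map_mul, aeval_C, aeval_X]
    simp [h]
  obtain ⟨E, hE⟩ := hdvd
  have h1 : aeval w' ((1 + C (p : ℤ) * X) ^ N - 1 : ℤ[X]) = 0 := by
    rw [hE, map_mul, hw', zero_mul]
  have h2 : (1 + (p : ℂ) * w') ^ N = 1 := by
    simp only [map_sub, map_pow, map_add, map_one, map_mul, aeval_C, aeval_X] at h1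
    simp only [algebraMap_int_eq, eq_intCast, Int.cast_natCast] at h1
    exact sub_eq_zero.mp h1
  have h3 := norm_one_of_pow hN h2
  have h4 : ‖(p : ℂ) * w'‖ ≤ 2 := by
    calc ‖(p : ℂ) * w'‖ = ‖(1 + (p : ℂ) * w') - 1‖ := by ring_nf
      _ ≤ ‖1 + (p : ℂ) * w'‖ + ‖(1 : ℂ)‖ := norm_sub_le _ _
      _ = 2 := by rw [h3, norm_one]; norm_num
  rw [norm_mul, Complex.norm_natCast] at h4
  have h5 : (3 : ℝ) ≤ p := by exact_mod_cast hp
  nlinarith [norm_nonneg w']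

/-- `f_m ≡ 1` modulo `p = 2m+1` -/
lemma fp_mod_p (δ : ℤ) (m : ℕ) (hm : 1 ≤ m) (hp : (2 * m + 1).Prime) :
    ∃ Q : ℤ[X], fp δ m = 1 + C ((2 * m + 1 : ℕ) : ℤ) * Q := by
  have hF : Fact (2 * m + 1).Prime := ⟨hp⟩
  have hchar : CharP (AlgebraicClosure (ZMod (2 * m + 1))) (2 * m + 1) :=
    charP_of_injective_algebraMap (algebraMap (ZMod (2 * m + 1)) _).injective (2 * m + 1)
  obtain ⟨K, hK⟩ : ∃ K, K = AlgebraicClosure (ZMod (2 * m + 1)) := ⟨_, rfl⟩
  have h2 : (2 : AlgebraicClosure (ZMod (2 * m + 1))) ≠ 0 := by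
    apply two_ne_zero' _ (2 * m + 1)
    omega
  obtain ⟨ω, hω⟩ := IsAlgClosed.exists_pow_nat_eq
    ((δ : ℤ) : AlgebraicClosure (ZMod (2 * m + 1))) (n := 2) (by norm_num)
  have hω' : (C ω : (AlgebraicClosure (ZMod (2 * m + 1)))[X]) ^ 2 =
      C ((δ : ℤ) : AlgebraicClosure (ZMod (2 * m + 1))) := by
    rw [← C_pow, hω]
  have h3 := pow_FG hω' 1 X m
  have h4 := pow_FG' hω' 1 X m
  have hcharP : CharP (AlgebraicClosure (ZMod (2 * m + 1)))[X] (2 * m + 1) := inferInstance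
  have hExp : ExpChar (AlgebraicClosure (ZMod (2 * m + 1)))[X] (2 * m + 1) := ExpChar.prime hp
  rw [add_pow_char] at h3
  rw [sub_pow_char] at h4
  rw [one_pow, one_mul] at h3 h4
  have h5 : (2 : (AlgebraicClosure (ZMod (2 * m + 1)))[X]) *
      (Fh (C ((δ : ℤ) : AlgebraicClosure (ZMod (2 * m + 1)))) 1 X m - 1) = 0 := by
    linear_combination - h3 - h4
  have h2' : (2 : (AlgebraicClosure (ZMod (2 * m + 1)))[X]) ≠ 0 := by
    intro h
    apply h2
    have := congrArg (fun P : (AlgebraicClosure (ZMod (2 * m + 1)))[X] => P.coeff 0) h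
    simpa using this
  have h6 := (mul_eq_zero.mp h5).resolve_left h2'
  have h7 : (fp δ m).map (Int.castRingHom (AlgebraicClosure (ZMod (2 * m + 1)))) = 1 := by
    have h8 := (map_FGh (mapRingHom (Int.castRingHom (AlgebraicClosure (ZMod (2 * m + 1)))))
      (C δ : ℤ[X]) (1 : ℤ[X]) (X : ℤ[X]) m).1
    rw [coe_mapRingHom, map_C, Polynomial.map_one, map_X] at h8
    unfold fp
    rw [h8]
    exact sub_eq_zero.mp h6
  have h8 : C ((2 * m + 1 : ℕ) : ℤ) ∣ fp δ m - 1 := by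
    rw [C_dvd_iff_dvd_coeff]
    intro i
    have h9 := congrArg (fun P => P.coeff i) h7
    simp only [coeff_map] at h9
    have h10 : (((fp δ m - 1).coeff i : ℤ) : AlgebraicClosure (ZMod (2 * m + 1))) = 0 := by
      rw [coeff_sub, Int.cast_sub]
      rw [eq_intCast] at h9
      rw [h9, coeff_one, coeff_one]
      split_ifs <;> simp
    exact (CharP.intCast_eq_zero_iff _ (2 * m + 1) _).mp h10
  obtain ⟨Q, hQ⟩ := h8
  exact ⟨Q, by rw [← hQ]; ring⟩

lemma int_aeval {z : ℂ} (hz : IsIntegral ℤ z) (Q : ℤ[X]) : IsIntegral ℤ (aeval z Q) := by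
  have h := (aeval (⟨z, hz⟩ : integralClosure ℤ ℂ) Q).2
  rw [← Subalgebra.aeval_coe] at h
  exact h

/-- if `f_m(z)` is a root of unity and `z` is integral then `f_m(z) = 1` -/
lemma f_eq_one (δ : ℤ) (m N : ℕ) (hm : 1 ≤ m) (hp : (2 * m + 1).Prime) (hN : 1 ≤ N) (z : ℂ)
    (hz : IsIntegral ℤ z) (h : (Fh (δ : ℂ) 1 z m) ^ N = 1) : Fh (δ : ℂ) 1 z m = 1 := by
  obtain ⟨Q, hQ⟩ := fp_mod_p δ m hm hp
  have h1 : Fh (δ : ℂ) 1 z m = 1 + ((2 * m + 1 : ℕ) : ℂ) * aeval z Q := by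
    rw [← aeval_fp, hQ, map_add, map_one, map_mul, aeval_C]
    congr 2
  have hQi : IsIntegral ℤ (aeval z Q) := int_aeval hz Q
  rw [h1] at h ⊢
  have := unity_one (2 * m + 1) N (by omega) hN (aeval z Q) hQi h
  rw [this, mul_zero, add_zero]

lemma odd_coeff (δ : ℤ) (m : ℕ) : ∀ i : ℕ, (fp δ m).coeff (2 * i + 1) = 0 ∧
    (gp δ m).coeff (2 * i + 1) = 0 := by
  induction m with
  | zero =>
    intro i
    have e1 : fp δ 0 = 1 := rfl
    have e2 : gp δ 0 = 1 := rfl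
    rw [e1, e2, coeff_one, if_neg (by omega)]
    exact ⟨rfl, rfl⟩
  | succ m ih =>
    intro i
    have e1 : fp δ (m + 1) = fp δ m + C δ * (fp δ m * X ^ 2) + C (2 * δ) * (gp δ m * X ^ 2) := by
      unfold fp gp
      rw [Fh_succ, C_mul]
      have : (C (2 : ℤ) : ℤ[X]) = 2 := rfl
      rw [this]
      ring
    have e2 : gp δ (m + 1) = gp δ m + C δ * (gp δ m * X ^ 2) + C 2 * fp δ m := by
      unfold fp gp
      rw [Gh_succ]
      have : (C (2 : ℤ) : ℤ[X]) = 2 := rfl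
      rw [this]
      ring
    have key : ∀ P : ℤ[X], (∀ i : ℕ, P.coeff (2 * i + 1) = 0) → (P * X ^ 2).coeff (2 * i + 1) = 0 := by
      intro P hP
      rw [coeff_mul_X_pow']
      split_ifs with h
      · obtain ⟨j, rfl⟩ : ∃ j, i = j + 1 := ⟨i - 1, by omega⟩
        have : 2 * (j + 1) + 1 - 2 = 2 * j + 1 := by omega
        rw [this]
        exact hP j
      · rfl
    have k1 := key _ (fun j => (ih j).1)
    have k2 := key _ (fun j => (ih j).2)
    rw [e1, e2]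
    simp only [coeff_add, coeff_C_mul, k1, k2, (ih i).1, (ih i).2, mul_zero, add_zero, and_self]

/-- a bound for the solutions of `f_m(z) = 1` -/
lemma fp_one_bound (δ : ℤ) (hδ1 : δ.natAbs = 1) (m : ℕ) (hm : 1 ≤ m) (z : ℂ)
    (h : Fh (δ : ℂ) 1 z m = 1) : ‖z‖ ^ 2 ≤ 4 ^ m := by
  by_contra hcon
  push Not at hcon
  have h4 : (1 : ℝ) ≤ 4 ^ m := one_le_pow₀ (by norm_num)
  have hz1 : 1 ≤ ‖z‖ := by
    by_contra hlt
    push Not at hlt
    nlinarith [norm_nonneg z]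
  obtain ⟨ρ, hρ⟩ : ∃ ρ, ρ = ‖z‖ := ⟨_, rfl⟩
  rw [← hρ] at hcon hz1
  have hdeg := (fgp_deg δ m).1
  have htop := (fgp_deg δ m).2.2.1
  have hsum : aeval z (fp δ m) = ∑ i ∈ Finset.range (2 * m + 1), ((fp δ m).coeff i : ℂ) * z ^ i := by
    rw [aeval_eq_sum_range' (show (fp δ m).natDegree < 2 * m + 1 by omega)]
    apply Finset.sum_congr rfl
    intro i _
    rw [zsmul_eq_mul]
  rw [aeval_fp, h, Finset.sum_range_succ, htop] at hsum
  have hd : |(δ : ℝ)| = 1 := by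
    have : ((δ.natAbs : ℕ) : ℝ) = |(δ : ℝ)| := by rw [Nat.cast_natAbs]; push_cast; rfl
    rw [← this, hδ1, Nat.cast_one]
  have hlead : ‖(((2 * (m : ℤ) + 1) * δ ^ m : ℤ) : ℂ) * z ^ (2 * m)‖ = (2 * m + 1) * ρ ^ (2 * m) := by
    rw [norm_mul, norm_pow, ← hρ, Complex.norm_intCast]
    congr 1
    push_cast
    rw [abs_mul, abs_pow, hd, one_pow, mul_one]
    exact abs_of_nonneg (by positivity)
  have hL1 : ∑ i ∈ Finset.range (2 * m), |((fp δ m).coeff i : ℝ)| + (2 * m + 1) ≤ 4 ^ m := by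
    have h5 := (L1_fgp δ hδ1 m).1
    rw [L1_eq_range (fp δ m) (show (fp δ m).natDegree < 2 * m + 1 by omega),
      Finset.sum_range_succ, htop] at h5
    have h6 : |(((2 * (m : ℤ) + 1) * δ ^ m : ℤ) : ℝ)| = 2 * m + 1 := by
      push_cast
      rw [abs_mul, abs_pow, hd, one_pow, mul_one]
      exact abs_of_nonneg (by positivity)
    rw [h6] at h5
    exact h5
  have hbd : ‖∑ i ∈ Finset.range (2 * m), ((fp δ m).coeff i : ℂ) * z ^ i‖ ≤
      (∑ i ∈ Finset.range (2 * m), |((fp δ m).coeff i : ℝ)|) * ρ ^ (2 * m - 2) := by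
    refine (norm_sum_le _ _).trans ?_
    rw [Finset.sum_mul]
    apply Finset.sum_le_sum
    intro i hi
    rw [Finset.mem_range] at hi
    rw [norm_mul, norm_pow, ← hρ, Complex.norm_intCast]
    rcases Nat.even_or_odd' i with ⟨j, hj | hj⟩
    · exact mul_le_mul_of_nonneg_left (pow_le_pow_right₀ hz1 (by omega)) (abs_nonneg _)
    · rw [hj, (odd_coeff δ m j).1]
      simp
  have hmain : (2 * m + 1) * ρ ^ (2 * m) ≤
      1 + (∑ i ∈ Finset.range (2 * m), |((fp δ m).coeff i : ℝ)|) * ρ ^ (2 * m - 2) := by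
    rw [← hlead]
    have h7 : (((2 * (m : ℤ) + 1) * δ ^ m : ℤ) : ℂ) * z ^ (2 * m) =
        1 - ∑ i ∈ Finset.range (2 * m), ((fp δ m).coeff i : ℂ) * z ^ i := by
      rw [hsum]
      ring
    rw [h7]
    refine (norm_sub_le _ _).trans ?_
    rw [norm_one]
    linarith
  have hone : 1 ≤ ρ ^ (2 * m - 2) := one_le_pow₀ hz1
  have hpow : ρ ^ (2 * m) = ρ ^ (2 * m - 2) * ρ ^ 2 := by
    rw [← pow_add]
    congr 1
    omega
  obtain ⟨T, hT⟩ : ∃ T, T = ρ ^ (2 * m - 2) := ⟨_, rfl⟩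
  obtain ⟨Sg, hSg⟩ : ∃ Sg, Sg = ∑ i ∈ Finset.range (2 * m), |((fp δ m).coeff i : ℝ)| := ⟨_, rfl⟩
  rw [hpow, ← hT, ← hSg] at hmain
  rw [← hT] at hone
  rw [← hSg] at hL1
  have hm0 : (0 : ℝ) ≤ m := Nat.cast_nonneg m
  have h8 : Sg * T ≤ (4 ^ m - (2 * m + 1)) * T :=
    mul_le_mul_of_nonneg_right (by linarith) (by linarith)
  have h9 : (4 : ℝ) ^ m * T < T * ρ ^ 2 := by nlinarith
  nlinarith [mul_nonneg hm0 (by linarith : (0 : ℝ) ≤ T * ρ ^ 2 - 4 ^ m * T)]

end Pool.Agent.H573.AHB
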