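import Pool.Agent.H573.AHB.PuE

/-!
No torsion points in the first case, and the count.
-/

set_option autoImplicit false

namespace Pool.Agent.H573.AHB

open Polynomial

lemma conj_bound (δ : ℤ) (hδ1 : δ.natAbs = 1) (m l N : ℕ) (hm : 1 ≤ m) (hl : 1 ≤ l)
    (hp : (2 * m + 1).Prime) (hr : (2 * l + 1).Prime) (hlt : m < l)
    (ψ : ℤ[X]) (hψ : IsPsi δ m l ψ) (hN : 1 ≤ N) (z : ℂ) (hz : IsIntegral ℤ z)
    (h1 : (aeval z (fp δ m)) ^ N = 1) (h2 : (aeval z (fp δ l)) ^ N = 1)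
    (h3 : (aeval z ψ) ^ N = 1) : ‖z‖ < 1 := by
  rw [aeval_fp] at h1 h2
  have g1 := f_eq_one δ m N hm hp hN z hz h1
  have g2 := f_eq_one δ l N hl hr hN z hz h2
  obtain ⟨z2, hz2⟩ : ∃ z2, z2 = z * Gh (δ : ℂ) 1 z l := ⟨_, rfl⟩
  have hz2i : IsIntegral ℤ z2 := by
    rw [hz2, ← aeval_gp]
    exact hz.mul (int_aeval hz _)
  have e1 : Fh (δ : ℂ) 1 z2 m = aeval z ψ := by
    have h4 := aeval_pA z δ l m
    rw [hψ.hB, map_mul, aeval_fp, g1, one_mul, g2, ← hz2] at h4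
    exact h4.symm
  have g3 := f_eq_one δ m N hm hp hN z2 hz2i (by rw [e1]; exact h3)
  have hb := fp_one_bound δ hδ1 m hm z2 g3
  obtain ⟨ω, hω⟩ := IsAlgClosed.exists_pow_nat_eq (δ : ℂ) (n := 2) (by norm_num)
  have hωn : ‖ω‖ = 1 := by
    have h5 : ‖ω‖ ^ 2 = 1 := by
      rw [← norm_pow, hω, Complex.norm_intCast]
      have : ((δ.natAbs : ℕ) : ℝ) = |(δ : ℝ)| := by rw [Nat.cast_natAbs]; push_cast; rfl
      rw [← this, hδ1, Nat.cast_one]
    nlinarith [norm_nonneg ω]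
  have h6 := pow_FG hω 1 z l
  have h7 := pow_FG' hω 1 z l
  rw [g2, one_mul] at h6 h7
  have e6 : (1 + ω * z) ^ (2 * l + 1) = 1 + ω * z2 := by rw [h6, hz2]; ring
  have e7 : (1 - ω * z) ^ (2 * l + 1) = 1 - ω * z2 := by rw [h7, hz2]; ring
  obtain ⟨b, hb'⟩ : ∃ b, b = ‖z2‖ := ⟨_, rfl⟩
  rw [← hb'] at hb
  have hb0 : 0 ≤ b := by rw [hb']; exact norm_nonneg _
  have n6 : ‖1 + ω * z‖ ^ (2 * l + 1) ≤ 1 + b := by
    rw [← norm_pow, e6]
    refine (norm_add_le _ _).trans ?_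
    rw [norm_one, norm_mul, hωn, one_mul, hb']
  have n7 : ‖1 - ω * z‖ ^ (2 * l + 1) ≤ 1 + b := by
    rw [← norm_pow, e7]
    refine (norm_sub_le _ _).trans ?_
    rw [norm_one, norm_mul, hωn, one_mul, hb']
  have hsq : (1 + b) ^ 2 < 2 ^ (2 * l + 1) := by
    have h8 : (1 + b) ^ 2 ≤ 2 * (1 + b ^ 2) := by nlinarith [sq_nonneg (1 - b)]
    have h9 : (2 : ℝ) ^ (2 * l + 1) = 2 * 4 ^ l := by
      rw [pow_succ, pow_mul]
      norm_num
      ring
    have h10 : (4 : ℝ) ^ (m + 1) ≤ 4 ^ l := pow_le_pow_right₀ (by norm_num) hlt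
    have h11 : (1 : ℝ) ≤ 4 ^ m := one_le_pow₀ (by norm_num)
    rw [pow_succ] at h10
    rw [h9]
    nlinarith
  have small : ∀ x : ℝ, 0 ≤ x → x ^ (2 * l + 1) ≤ 1 + b → x ^ 2 < 2 := by
    intro x hx h
    by_contra hcon
    push Not at hcon
    have h8 : (2 : ℝ) ^ (2 * l + 1) ≤ (x ^ 2) ^ (2 * l + 1) := pow_le_pow_left₀ (by norm_num) hcon _
    have h9 : (x ^ 2) ^ (2 * l + 1) = (x ^ (2 * l + 1)) ^ 2 := by ring
    have h10 : (x ^ (2 * l + 1)) ^ 2 ≤ (1 + b) ^ 2 := pow_le_pow_left₀ (by positivity) h 2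
    rw [h9] at h8
    linarith
  have s6 := small _ (norm_nonneg _) n6
  have s7 := small _ (norm_nonneg _) n7
  have hpar : ‖1 + ω * z‖ ^ 2 + ‖1 - ω * z‖ ^ 2 = 2 * (1 + ‖z‖ ^ 2) := by
    have h8 := parallelogram_law_with_norm ℝ (1 : ℂ) (ω * z)
    rw [norm_one, norm_mul, hωn, one_mul] at h8
    nlinarith
  nlinarith [norm_nonneg z]

lemma no_torsion_lt (δ : ℤ) (hδ1 : δ.natAbs = 1) (m l N : ℕ) (hm : 1 ≤ m) (hl : 1 ≤ l)
    (hp : (2 * m + 1).Prime) (hr : (2 * l + 1).Prime) (hlt : m < l)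
    (ψ : ℤ[X]) (hψ : IsPsi δ m l ψ) (hN : 1 ≤ N) (z : ℂ)
    (h1 : (aeval z (fp δ m)) ^ N = 1) (h2 : (aeval z (fp δ l)) ^ N = 1)
    (h3 : (aeval z ψ) ^ N = 1) : z = 0 := by
  have hδu : IsUnit δ := Int.isUnit_iff_natAbs_eq.mpr hδ1
  have hδ0 : δ ≠ 0 := by
    rintro rfl
    simp at hδ1
  -- leading coefficients
  have lead : ∀ j : ℕ, 1 ≤ j → (aeval z (fp δ j)) ^ N = 1 →
      IsIntegral ℤ (((2 * (j : ℤ) + 1) ^ N : ℤ) • z) := by
    intro j hj hj1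
    have htop := (fgp_deg δ j).2.2.1
    have hc0 : (2 * (j : ℤ) + 1) * δ ^ j ≠ 0 := mul_ne_zero (by omega) (pow_ne_zero _ hδ0)
    have hdj : (fp δ j).natDegree = 2 * j := by
      apply le_antisymm (fgp_deg δ j).1
      apply le_natDegree_of_ne_zero
      rw [htop]
      exact hc0
    have hlc : (fp δ j).leadingCoeff = (2 * (j : ℤ) + 1) * δ ^ j := by
      rw [leadingCoeff, hdj, htop]
    have hlN : ((fp δ j) ^ N).leadingCoeff = ((2 * (j : ℤ) + 1) * δ ^ j) ^ N := by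
      rw [leadingCoeff_pow, hlc]
    have hdN : ((fp δ j) ^ N).natDegree = N * (2 * j) := by rw [natDegree_pow, hdj]
    have hpos : 0 < N * (2 * j) := Nat.mul_pos (by omega) (by omega)
    have hlP : ((fp δ j) ^ N - 1).leadingCoeff = ((2 * (j : ℤ) + 1) * δ ^ j) ^ N := by
      rw [← hlN]
      apply leadingCoeff_sub_of_degree_lt
      rw [degree_one]
      have h4 : (fp δ j) ^ N ≠ 0 := pow_ne_zero _ (ne_zero_of_coeff_zero (fp_coeff_zero δ j))
      rw [degree_eq_natDegree h4, hdN]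
      exact_mod_cast hpos
    have h4 : aeval z ((fp δ j) ^ N - 1) = 0 := by
      rw [map_sub, map_pow, map_one, hj1, sub_self]
    have h5 := isIntegral_leadingCoeff_smul _ _ h4
    rw [hlP] at h5
    have h6 : ((2 * (j : ℤ) + 1) ^ N : ℤ) • z =
        ((δ ^ j) ^ N : ℤ) • ((((2 * (j : ℤ) + 1) * δ ^ j) ^ N : ℤ) • z) := by
      rw [smul_smul]
      congr 1
      rw [← mul_pow]
      have h7 : δ ^ j * ((2 * (j : ℤ) + 1) * δ ^ j) = (2 * (j : ℤ) + 1) * (δ * δ) ^ j := by ring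
      rw [h7, Int.isUnit_mul_self hδu, one_pow, mul_one]
    rw [h6]
    exact h5.smul _
  have i1 := lead m hm h1
  have i2 := lead l hl h2
  have hcop : IsCoprime ((2 * (m : ℤ) + 1) ^ N) ((2 * (l : ℤ) + 1) ^ N) := by
    apply IsCoprime.pow
    have h4 : Nat.Coprime (2 * m + 1) (2 * l + 1) := (Nat.coprime_primes hp hr).mpr (by omega)
    have h5 := Nat.isCoprime_iff_coprime.mpr h4
    push_cast at h5
    exact h5
  have hz : IsIntegral ℤ z := by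
    obtain ⟨a, b, hab⟩ := hcop
    have h4 : z = a • (((2 * (m : ℤ) + 1) ^ N : ℤ) • z) + b • (((2 * (l : ℤ) + 1) ^ N : ℤ) • z) := by
      rw [smul_smul, smul_smul, ← add_smul, hab, one_smul]
    rw [h4]
    exact (i1.smul a).add (i2.smul b)
  apply int_small z hz
  intro z' hz'
  have hz'i : IsIntegral ℤ z' := ⟨minpoly ℤ z, minpoly.monic hz, hz'⟩
  have conj : ∀ P : ℤ[X], (aeval z P) ^ N = 1 → (aeval z' P) ^ N = 1 := by
    intro P hP
    have hdvd : minpoly ℤ z ∣ P ^ N - 1 := by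
      apply minpoly.isIntegrallyClosed_dvd hz
      rw [map_sub, map_pow, map_one, hP, sub_self]
    obtain ⟨E, hE⟩ := hdvd
    have h4 : aeval z' (P ^ N - 1) = 0 := by rw [hE, map_mul, hz', zero_mul]
    rw [map_sub, map_pow, map_one, sub_eq_zero] at h4
    exact h4
  exact conj_bound δ hδ1 m l N hm hl hp hr hlt ψ hψ hN z' hz'i (conj _ h1) (conj _ h2) (conj _ h3)

/-- no torsion points -/
lemma no_torsion (δ : ℤ) (hδ1 : δ.natAbs = 1) (m l N : ℕ) (hm : 1 ≤ m) (hl : 1 ≤ l)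
    (hp : (2 * m + 1).Prime) (hr : (2 * l + 1).Prime) (hne : m ≠ l)
    (ψ : ℤ[X]) (hψ : IsPsi δ m l ψ) (hN : 1 ≤ N) (z : ℂ)
    (h1 : (aeval z (fp δ m)) ^ N = 1) (h2 : (aeval z (fp δ l)) ^ N = 1)
    (h3 : (aeval z ψ) ^ N = 1) : z = 0 := by
  rcases lt_or_gt_of_ne hne with h | h
  · exact no_torsion_lt δ hδ1 m l N hm hl hp hr h ψ hψ hN z h1 h2 h3
  · exact no_torsion_lt δ hδ1 l m N hl hm hr hp h ψ hψ.symm hN z h2 h1 h3

/-- `ψ ≡ f_r^{p-1}` modulo `p` -/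
lemma psi_mod_p (δ : ℤ) (m l : ℕ) (hm : 1 ≤ m) (hp : (2 * m + 1).Prime)
    (ψ : ℤ[X]) (hψ : IsPsi δ m l ψ) :
    ∃ Q : ℤ[X], ψ = (fp δ l) ^ (2 * m) + C ((2 * m + 1 : ℕ) : ℤ) * Q := by
  have hF : Fact (2 * m + 1).Prime := ⟨hp⟩
  have hchar : CharP (AlgebraicClosure (ZMod (2 * m + 1))) (2 * m + 1) :=
    charP_of_injective_algebraMap (algebraMap (ZMod (2 * m + 1)) _).injective (2 * m + 1)
  obtain ⟨ω, hω⟩ := IsAlgClosed.exists_pow_nat_eq
    ((δ : ℤ) : AlgebraicClosure (ZMod (2 * m + 1))) (n := 2) (by norm_num)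
  have hω' : (C ω : (AlgebraicClosure (ZMod (2 * m + 1)))[X]) ^ 2 =
      C ((δ : ℤ) : AlgebraicClosure (ZMod (2 * m + 1))) := by
    rw [← C_pow, hω]
  have hcharP : CharP (AlgebraicClosure (ZMod (2 * m + 1)))[X] (2 * m + 1) := inferInstance
  have hExp : ExpChar (AlgebraicClosure (ZMod (2 * m + 1)))[X] (2 * m + 1) := ExpChar.prime hp
  obtain ⟨φ, hφ⟩ : ∃ φ : ℤ[X] →+* (AlgebraicClosure (ZMod (2 * m + 1)))[X],
    φ = mapRingHom (Int.castRingHom (AlgebraicClosure (ZMod (2 * m + 1)))) := ⟨_, rfl⟩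
  have φC : ∀ c : ℤ, φ (C c) = C ((c : ℤ) : AlgebraicClosure (ZMod (2 * m + 1))) := by
    intro c
    rw [hφ, coe_mapRingHom, map_C]
    rfl
  have φX : φ X = X := by rw [hφ, coe_mapRingHom, map_X]
  have f1 : φ (fp δ m) = 1 := by
    obtain ⟨Q, hQ⟩ := fp_mod_p δ m hm hp
    rw [hQ, map_add, map_one, map_mul, φC, Int.cast_natCast, CharP.cast_eq_zero, C_0, zero_mul,
      add_zero]
  have f2 : (C ω * (X * φ (gp δ m))) = (C ω * X) ^ (2 * m + 1) := by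
    have h3 := pow_FG hω' 1 X m
    rw [add_pow_char, one_pow, one_mul] at h3
    have h8 := map_FGh φ (C δ : ℤ[X]) (1 : ℤ[X]) (X : ℤ[X]) m
    rw [φC, map_one, φX] at h8
    have h9 : φ (fp δ m) = Fh (C ((δ : ℤ) : AlgebraicClosure (ZMod (2 * m + 1)))) 1 X m := h8.1
    have h10 : φ (gp δ m) = Gh (C ((δ : ℤ) : AlgebraicClosure (ZMod (2 * m + 1)))) 1 X m := h8.2
    rw [← h9, f1, ← h10] at h3
    linear_combination -h3
  have f3 : φ (pA δ m l) = (φ (fp δ l)) ^ (2 * m + 1) := by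
    have h8 := (map_FGh φ (C δ : ℤ[X]) (fp δ m) (X * gp δ m) l).1
    rw [φC, f1, map_mul, φX] at h8
    have h9 := (map_FGh φ (C δ : ℤ[X]) (1 : ℤ[X]) (X : ℤ[X]) l).1
    rw [φC, map_one, φX] at h9
    have h10 := (map_FGh (frobenius (AlgebraicClosure (ZMod (2 * m + 1)))[X] (2 * m + 1))
      (C ((δ : ℤ) : AlgebraicClosure (ZMod (2 * m + 1)))) 1 X l).1
    rw [map_one, frobenius_def, frobenius_def, frobenius_def] at h10
    unfold pA
    rw [h8]
    unfold fp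
    rw [h9, h10]
    refine (FG_congr _ _ 1 _ _ ?_ l).1
    rw [← hω']
    calc (C ω ^ 2 * (X * φ (gp δ m)) ^ 2 : (AlgebraicClosure (ZMod (2 * m + 1)))[X]) =
        (C ω * (X * φ (gp δ m))) ^ 2 := by ring
      _ = ((C ω * X) ^ (2 * m + 1)) ^ 2 := by rw [f2]
      _ = _ := by ring
  have f4 : φ (fp δ l) ≠ 0 := by
    intro h
    have h1 : (φ (fp δ l)).coeff 0 = 1 := by
      rw [hφ, coe_mapRingHom, coeff_map, fp_coeff_zero]
      simp
    rw [h, coeff_zero] at h1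
    exact zero_ne_one h1
  have f5 : φ ψ = (φ (fp δ l)) ^ (2 * m) := by
    apply mul_left_cancel₀ f4
    rw [← map_mul, ← hψ.hA, f3]
    ring
  have h8 : C ((2 * m + 1 : ℕ) : ℤ) ∣ ψ - (fp δ l) ^ (2 * m) := by
    rw [C_dvd_iff_dvd_coeff]
    intro i
    have h9 : φ (ψ - (fp δ l) ^ (2 * m)) = 0 := by rw [map_sub, map_pow, f5, sub_self]
    have h10 := congrArg (fun P => P.coeff i) h9
    rw [hφ] at h10
    simp only [coe_mapRingHom, coeff_map, coeff_zero, eq_intCast] at h10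
    exact (CharP.intCast_eq_zero_iff _ (2 * m + 1) _).mp h10
  obtain ⟨Q, hQ⟩ := h8
  exact ⟨Q, by rw [← hQ]; ring⟩

/-- the configuration of the first case, `V = 0` excluded -/
theorem ucount_first (δ : ℤ) (hδ1 : δ.natAbs = 1) (m l : ℕ) (hm : 1 ≤ m) (hl : 1 ≤ l)
    (hp : (2 * m + 1).Prime) (hr : (2 * l + 1).Prime) (hne : m ≠ l)
    (ψ : ℤ[X]) (hψ : IsPsi δ m l ψ)
    (q0 : ℕ) (q0m : 2 * m + 1 ≤ q0) (q0l : 2 * l + 1 ≤ q0) :
    UCount (BadPG δ m l ψ 1 1 1 1 1 1 False X)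
      (3000000 * ((((2 * m + 1) * (2 * l + 1) : ℕ) : ℝ) * (0 + 1)) ^ 2) q0 := by
  have hco : Nat.Coprime (2 * m + 1) (2 * l + 1) :=
    (Nat.coprime_primes hp hr).mpr (by omega)
  obtain ⟨B, hB⟩ := exists_val (2 * m + 1) hp
  obtain ⟨B', hB'⟩ := exists_val (2 * l + 1) hr
  have hprl : ¬ (2 * m + 1) ∣ 2 * l + 1 := by
    intro h
    have := (Nat.prime_dvd_prime_iff_eq hp hr).mp h
    omega
  have hprm : ¬ (2 * l + 1) ∣ 2 * m + 1 := by
    intro h
    have := (Nat.prime_dvd_prime_iff_eq hr hp).mp h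
    omega
  have l1 : Real.log ((1 : ℕ) : ℝ) ≤ 0 := by rw [Nat.cast_one, Real.log_one]
  have c1 : ∀ k : ℕ, ((1 ^ k * 1 : ℕ) : ℂ) = 1 := by intro k; simp
  have cm : ∀ P : ℤ[X], C ((1 : ℕ) : ℤ) * P = P := by intro P; simp
  have not1 : ∀ (z w : ℂ) (n : ℕ), 1 ≤ n → (B.valuation w ≠ 1 ∨ B'.valuation w ≠ 1) →
      w ^ n ≠ 1 := by
    intro z w n hn hv h
    rcases hv with hv | hv
    · apply hv
      have := val_pow_inj (B := B) (y := 1) hn (by rw [h, one_pow])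
      rw [this, map_one]
    · apply hv
      have := val_pow_inj (B := B') (y := 1) hn (by rw [h, one_pow])
      rw [this, map_one]
  have big : ∀ (z : ℂ), 1 < B.valuation z → B.valuation (aeval z (fp δ l)) ≠ 1 := by
    intro z hz
    rw [val_fp_big hp hB δ hδ1 l hprl hz]
    exact (one_lt_pow₀ hz (by omega)).ne'
  refine ucount_PG δ hδ1 m l hm hl hco ψ hψ 1 1 1 1 1 1 False X le_rfl le_rfl le_rfl le_rfl le_rfl
    le_rfl 0 l1 l1 l1 l1 l1 l1 q0 q0m q0l ?_ ?_ ?_ ?_ ?_ ?_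
  · intro q hq _
    have hF : Fact q.Prime := ⟨hq⟩
    rw [Nat.cast_one]
    exact ⟨one_ne_zero, one_ne_zero, one_ne_zero, one_ne_zero, one_ne_zero, one_ne_zero⟩
  · left
    intro n hn z hz
    rw [c1, cm, one_pow]
    refine not1 z _ n hn (Or.inl (big z ?_))
    by_contra hcon
    push Not at hcon
    have h3 := val_F m hm hp hB δ hcon
    rw [← aeval_fp, hz, map_zero] at h3
    exact zero_ne_one h3
  · left
    intro n hn z hz
    rw [c1, cm, one_pow]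
    refine not1 z _ n hn (Or.inr ?_)
    have h4 : 1 < B'.valuation z := by
      by_contra hcon
      push Not at hcon
      have h3 := val_F l hl hr hB' δ hcon
      rw [← aeval_fp, hz, map_zero] at h3
      exact zero_ne_one h3
    rw [val_fp_big hr hB' δ hδ1 m hprm h4]
    exact (one_lt_pow₀ h4 (by omega)).ne'
  · right
    intro n hn z hz
    rw [c1, cm, one_pow]
    refine not1 z _ n hn (Or.inl ?_)
    rcases lt_or_ge 1 (B.valuation z) with h4 | h4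
    · exact big z h4
    · obtain ⟨Q, hQ⟩ := psi_mod_p δ m l hm hp ψ hψ
      rw [hQ, map_add, map_pow, map_mul, aeval_C] at hz
      have h5 : (aeval z (fp δ l)) ^ (2 * m) = -(((2 * m + 1 : ℕ) : ℂ) * aeval z Q) := by
        have h6 : (algebraMap ℤ ℂ) (((2 * m + 1 : ℕ) : ℤ)) = ((2 * m + 1 : ℕ) : ℂ) := by simp
        rw [h6] at hz
        linear_combination hz
      have h6 : B.valuation ((aeval z (fp δ l)) ^ (2 * m)) < 1 := by
        rw [h5, Valuation.map_neg, map_mul]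
        exact vmul_lt hB (val_small (B := B) Q h4)
      intro h7
      rw [map_pow, h7, one_pow] at h6
      exact lt_irrefl _ h6
  · intro z hz
    by_contra hcon
    push Not at hcon
    obtain ⟨N0, hN0, h0⟩ := hcon 0
    obtain ⟨N1, hN1, h1⟩ := hcon 1
    obtain ⟨N2, hN2, h2⟩ := hcon 2
    simp only [cc, phG, Matrix.cons_val_zero, Matrix.cons_val_one, Matrix.cons_val_two,
      Matrix.tail_cons, Matrix.head_cons, Int.cast_natCast] at h0 h1 h2
    rw [c1, cm, one_pow] at h0 h1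
    rw [c1, one_pow] at h2
    rw [aeval_X] at hz
    apply hz
    refine no_torsion δ hδ1 m l (N0 * N1 * N2) hm hl hp hr hne ψ hψ
      (Nat.mul_pos (Nat.mul_pos hN0 hN1) hN2) z ?_ ?_ ?_
    · rw [mul_assoc, pow_mul, h0, one_pow]
    · rw [mul_comm N0 N1, mul_assoc, pow_mul, h1, one_pow]
    · rw [mul_comm, pow_mul, h2, one_pow]
  · right
    left
    rw [one_mul, mul_one, one_pow]
    have : 1 < (2 * m + 1) ^ (2 * l) := Nat.one_lt_pow (by omega) (by omega)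
    omega

end Pool.Agent.H573.AHB
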