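import Pool.Agent.H573.AHB.PuF
import Pool.Agent.H573.AHB.TuC
import Pool.Agent.H573.AHB.UnJ
import Pool.Agent.H573.AHB.Fin2

/-!
All configurations of degree `p r`: the counts, uniformly in `p` and `r`.
-/

set_option autoImplicit false

namespace Pool.Agent.H573.AHB

open Polynomial

lemma BadPG.swap {δ : ℤ} {m l : ℕ} {ψ : ℤ[X]} {a e1 e2 h1 h2 g : ℕ} {zU : Prop} {E : ℤ[X]}
    {q n : ℕ} (h : BadPG δ m l ψ a e1 e2 h1 h2 g zU E q n) :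
    BadPG δ l m ψ a h1 h2 e1 e2 g zU E q n := by
  obtain ⟨U, V, h0, hz, hE, g1, g2, g3, g4⟩ := h
  rw [mul_comm m l] at g4
  exact ⟨U, V, h0, hz, hE, g1, g3, g2, g4⟩

lemma par_ok (N x : ℕ) (hN : 1 ≤ N) (hx : x ∣ N) : 1 ≤ x ∧ Real.log x ≤ Real.log N ∧
    ∀ q : ℕ, q.Prime → N < q → (x : ZMod q) ≠ 0 := by
  have hx1 : 1 ≤ x := Nat.pos_of_dvd_of_pos hx hN
  have hxN : x ≤ N := Nat.le_of_dvd hN hx
  refine ⟨hx1, ?_, ?_⟩
  · exact Real.log_le_log (by exact_mod_cast hx1) (by exact_mod_cast hxN)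
  · intro q hq hlt
    apply natCast_zmod_ne (N := x) (fun h => ?_) dvd_rfl
    have := Nat.le_of_dvd hx1 h
    omega

/-- the bound of the counts -/
noncomputable def Kp (N : ℕ) : ℝ := 3000000 * ((N : ℝ) * (Real.log N + 1)) ^ 2

theorem uc_one (δ : ℤ) (hδ1 : δ.natAbs = 1) (m l : ℕ) (hm : 1 ≤ m) (hl : 1 ≤ l)
    (hp : (2 * m + 1).Prime) (hr : (2 * l + 1).Prime) (hne : m ≠ l)
    (ψ : ℤ[X]) (hψ : IsPsi δ m l ψ)
    (a e1 e2 h1 h2 g : ℕ) (zU : Prop) (N : ℕ) (hN : N = (2 * m + 1) * (2 * l + 1))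
    (da : a ∣ N) (de1 : e1 ∣ N) (de2 : e2 ∣ N) (dh1 : h1 ∣ N) (dh2 : h2 ∣ N) (dg : g ∣ N)
    (hpe : (2 * m + 1) ∣ e1) (hpe2 : ¬ (2 * m + 1) ∣ e2) (hph : ¬ (2 * m + 1) ∣ h2)
    (N1 : zU ∨ ((e2 * (2 * m + 1)) ^ (2 * l) * g ≠ e1 ^ (2 * l) ∨
      (h2 * (2 * l + 1)) ^ (2 * m) * g ≠ h1 ^ (2 * m))) :
    UCount (BadPG δ m l ψ a e1 e2 h1 h2 g zU 1) (Kp N) N := by
  have hN1 : 1 ≤ N := by
    rw [hN]
    exact Nat.mul_pos (by omega) (by omega)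
  obtain ⟨a1, a2, a3⟩ := par_ok N a hN1 da
  obtain ⟨b1, b2, b3⟩ := par_ok N e1 hN1 de1
  obtain ⟨c1, c2, c3⟩ := par_ok N e2 hN1 de2
  obtain ⟨d1, d2, d3⟩ := par_ok N h1 hN1 dh1
  obtain ⟨f1, f2, f3⟩ := par_ok N h2 hN1 dh2
  obtain ⟨g1, g2, g3⟩ := par_ok N g hN1 dg
  have hm' : 2 * m + 1 ≤ N := Nat.le_of_dvd hN1 (by rw [hN]; exact dvd_mul_right _ _)
  have hl' : 2 * l + 1 ≤ N := Nat.le_of_dvd hN1 (by rw [hN]; exact dvd_mul_left _ _)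
  have h := ucount_one δ hδ1 m l hm hl hp hr hne ψ hψ a e1 e2 h1 h2 g zU a1 b1 c1 d1 f1 g1
    (Real.log N) a2 b2 c2 d2 f2 g2 N hm' hl'
    (fun q hq hlt => ⟨a3 q hq hlt, b3 q hq hlt, c3 q hq hlt, d3 q hq hlt, f3 q hq hlt,
      g3 q hq hlt⟩) hpe hpe2 hph N1
  rw [← hN] at h
  exact h

theorem uc_two (δ : ℤ) (hδ1 : δ.natAbs = 1) (m l : ℕ) (hm : 1 ≤ m) (hl : 1 ≤ l)
    (hp : (2 * m + 1).Prime) (hr : (2 * l + 1).Prime) (hne : m ≠ l)
    (ψ : ℤ[X]) (hψ : IsPsi δ m l ψ)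
    (a e1 e2 h1 h2 g : ℕ) (zU : Prop) (N : ℕ) (hN : N = (2 * m + 1) * (2 * l + 1))
    (da : a ∣ N) (de1 : e1 ∣ N) (de2 : e2 ∣ N) (dh1 : h1 ∣ N) (dh2 : h2 ∣ N) (dg : g ∣ N)
    (hph2 : (2 * m + 1) ∣ h2) (hph1 : ¬ (2 * m + 1) ∣ h1) (hpa : ¬ (2 * m + 1) ∣ a)
    (N1 : zU ∨ ((e2 * (2 * m + 1)) ^ (2 * l) * g ≠ e1 ^ (2 * l) ∨
      (h2 * (2 * l + 1)) ^ (2 * m) * g ≠ h1 ^ (2 * m))) :
    UCount (BadPG δ m l ψ a e1 e2 h1 h2 g zU 1) (Kp N) N := by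
  have hN1 : 1 ≤ N := by
    rw [hN]
    exact Nat.mul_pos (by omega) (by omega)
  obtain ⟨a1, a2, a3⟩ := par_ok N a hN1 da
  obtain ⟨b1, b2, b3⟩ := par_ok N e1 hN1 de1
  obtain ⟨c1, c2, c3⟩ := par_ok N e2 hN1 de2
  obtain ⟨d1, d2, d3⟩ := par_ok N h1 hN1 dh1
  obtain ⟨f1, f2, f3⟩ := par_ok N h2 hN1 dh2
  obtain ⟨g1, g2, g3⟩ := par_ok N g hN1 dg
  have hm' : 2 * m + 1 ≤ N := Nat.le_of_dvd hN1 (by rw [hN]; exact dvd_mul_right _ _)
  have hl' : 2 * l + 1 ≤ N := Nat.le_of_dvd hN1 (by rw [hN]; exact dvd_mul_left _ _)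
  have h := ucount_two δ hδ1 m l hm hl hp hr hne ψ hψ a e1 e2 h1 h2 g zU a1 b1 c1 d1 f1 g1
    (Real.log N) a2 b2 c2 d2 f2 g2 N hm' hl'
    (fun q hq hlt => ⟨a3 q hq hlt, b3 q hq hlt, c3 q hq hlt, d3 q hq hlt, f3 q hq hlt,
      g3 q hq hlt⟩) hph2 hph1 hpa N1
  rw [← hN] at h
  exact h

/-- a configuration -/
def Cfg (δ : ℤ) (m l : ℕ) (ψ : ℤ[X]) (ap hp ar hr : ℕ) (zU : Prop) (E : ℤ[X]) (q n : ℕ) : Prop :=
  BadPG δ m l ψ (ap * ar) ap hr ar hp (hp * hr) zU E q n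

/-- all configurations -/
def BadAll (δ : ℤ) (m l : ℕ) (ψ : ℤ[X]) (q n : ℕ) : Prop :=
  (Cfg δ m l ψ (2 * m + 1) 1 (2 * l + 1) 1 True 1 q n ∨
    Cfg δ m l ψ (2 * m + 1) 1 1 (2 * l + 1) False 1 q n ∨
    Cfg δ m l ψ (2 * m + 1) 1 1 1 False 1 q n) ∨
  (Cfg δ m l ψ 1 (2 * m + 1) (2 * l + 1) 1 False 1 q n ∨
    Cfg δ m l ψ 1 (2 * m + 1) 1 (2 * l + 1) False 1 q n ∨
    Cfg δ m l ψ 1 (2 * m + 1) 1 1 False 1 q n) ∨
  (Cfg δ m l ψ 1 1 (2 * l + 1) 1 False 1 q n ∨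
    Cfg δ m l ψ 1 1 1 (2 * l + 1) False 1 q n ∨
    Cfg δ m l ψ 1 1 1 1 False X q n)

lemma Cfg.swap {δ : ℤ} {m l : ℕ} {ψ : ℤ[X]} {ap hp ar hr : ℕ} {zU : Prop} {E : ℤ[X]}
    {q n : ℕ} (h : Cfg δ m l ψ ap hp ar hr zU E q n) : Cfg δ l m ψ ar hr ap hp zU E q n := by
  have h' := BadPG.swap h
  unfold Cfg
  rw [mul_comm ar ap, mul_comm hr hp]
  exact h'

theorem ucount_all (δ : ℤ) (hδ1 : δ.natAbs = 1) (m l : ℕ) (h : PR m l)
    (ψ : ℤ[X]) (hψ : IsPsi δ m l ψ) (N : ℕ) (hN : N = (2 * m + 1) * (2 * l + 1)) :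
    UCount (BadAll δ m l ψ) (9 * Kp N) N := by
  obtain ⟨hm, hl, hp, hr, hne⟩ := h
  have dP : (2 * m + 1) ∣ N := by rw [hN]; exact dvd_mul_right _ _
  have dR : (2 * l + 1) ∣ N := by rw [hN]; exact dvd_mul_left _ _
  have d1 : 1 ∣ N := one_dvd _
  have np1 : ¬ (2 * m + 1) ∣ 1 := fun h => by
    have := Nat.le_of_dvd one_pos h
    omega
  have nr1 : ¬ (2 * l + 1) ∣ 1 := fun h => by
    have := Nat.le_of_dvd one_pos h
    omega
  have npr : ¬ (2 * m + 1) ∣ 2 * l + 1 := by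
    intro h
    have := (Nat.prime_dvd_prime_iff_eq hp hr).mp h
    omega
  have nrp : ¬ (2 * l + 1) ∣ 2 * m + 1 := by
    intro h
    have := (Nat.prime_dvd_prime_iff_eq hr hp).mp h
    omega
  have pw : ∀ a k : ℕ, 1 ≤ a → 1 ≤ a ^ k := fun a k ha => Nat.one_le_pow _ _ ha
  have pw2 : ∀ a k : ℕ, 2 ≤ a → 1 ≤ k → 2 ≤ a ^ (2 * k) := fun a k ha hk =>
    (Nat.one_lt_pow (by omega) (by omega))
  -- type one
  have A1 : UCount (Cfg δ m l ψ (2 * m + 1) 1 (2 * l + 1) 1 True 1) (Kp N) N := by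
    refine uc_one δ hδ1 m l hm hl hp hr hne ψ hψ _ _ _ _ _ _ True N hN (by rw [hN]) dP d1 dR d1
      (by rw [one_mul]; exact d1) dvd_rfl np1 np1 (Or.inl trivial)
  have A2 : UCount (Cfg δ m l ψ (2 * m + 1) 1 1 (2 * l + 1) False 1) (Kp N) N := by
    refine uc_one δ hδ1 m l hm hl hp hr hne ψ hψ _ _ _ _ _ _ False N hN (by rw [mul_one]; exact dP)
      dP dR d1 d1 (by rw [one_mul]; exact dR) dvd_rfl npr np1 (Or.inr (Or.inr ?_))
    rw [one_mul, one_pow]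
    have h1 := pw2 (2 * l + 1) m (by omega) hm
    intro h2
    have h3 : 2 * 1 ≤ (2 * l + 1) ^ (2 * m) * (2 * l + 1) := Nat.mul_le_mul h1 (by omega)
    omega
  have A3 : UCount (Cfg δ m l ψ (2 * m + 1) 1 1 1 False 1) (Kp N) N := by
    refine uc_one δ hδ1 m l hm hl hp hr hne ψ hψ _ _ _ _ _ _ False N hN (by rw [mul_one]; exact dP)
      dP d1 d1 d1 (by rw [one_mul]; exact d1) dvd_rfl np1 np1 (Or.inr (Or.inr ?_))
    rw [one_mul, one_mul, one_pow, mul_one]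
    have h1 := pw2 (2 * l + 1) m (by omega) hm
    omega
  have A4 : UCount (Cfg δ m l ψ 1 (2 * m + 1) (2 * l + 1) 1 False 1) (Kp N) N := by
    refine uc_two δ hδ1 m l hm hl hp hr hne ψ hψ _ _ _ _ _ _ False N hN (by rw [one_mul]; exact dR)
      d1 d1 dR dP (by rw [mul_one]; exact dP) dvd_rfl npr (by rw [one_mul]; exact npr)
      (Or.inr (Or.inl ?_))
    rw [one_mul, one_pow, mul_one]
    have h1 := pw2 (2 * m + 1) l (by omega) hl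
    intro h2
    have h3 : 2 * 1 ≤ (2 * m + 1) ^ (2 * l) * (2 * m + 1) := Nat.mul_le_mul h1 (by omega)
    omega
  have A5 : UCount (Cfg δ m l ψ 1 (2 * m + 1) 1 (2 * l + 1) False 1) (Kp N) N := by
    refine uc_two δ hδ1 m l hm hl hp hr hne ψ hψ _ _ _ _ _ _ False N hN (by rw [one_mul]; exact d1)
      d1 dR d1 dP (by rw [hN]) dvd_rfl np1 (by rw [one_mul]; exact np1)
      (Or.inr (Or.inl ?_))
    rw [one_pow]
    have h1 := pw2 ((2 * l + 1) * (2 * m + 1)) l (by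
      have := Nat.mul_le_mul (show 1 ≤ 2 * l + 1 by omega) (show 2 ≤ 2 * m + 1 by omega)
      omega) hl
    intro h2
    have h3 : 2 * 1 ≤ ((2 * l + 1) * (2 * m + 1)) ^ (2 * l) * ((2 * m + 1) * (2 * l + 1)) :=
      Nat.mul_le_mul h1 (Nat.mul_pos (by omega) (by omega))
    omega
  have A6 : UCount (Cfg δ m l ψ 1 (2 * m + 1) 1 1 False 1) (Kp N) N := by
    refine uc_two δ hδ1 m l hm hl hp hr hne ψ hψ _ _ _ _ _ _ False N hN (by rw [one_mul]; exact d1)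
      d1 d1 d1 dP (by rw [mul_one]; exact dP) dvd_rfl np1 (by rw [one_mul]; exact np1)
      (Or.inr (Or.inl ?_))
    rw [one_pow, one_mul, mul_one]
    have h1 := pw2 (2 * m + 1) l (by omega) hl
    intro h2
    have h3 : 2 * 1 ≤ (2 * m + 1) ^ (2 * l) * (2 * m + 1) := Nat.mul_le_mul h1 (by omega)
    omega
  -- the swapped ones
  have hN' : N = (2 * l + 1) * (2 * m + 1) := by rw [hN, mul_comm]
  have B3 : UCount (Cfg δ l m ψ (2 * l + 1) 1 1 1 False 1) (Kp N) N := by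
    refine uc_one δ hδ1 l m hl hm hr hp hne.symm ψ hψ.symm _ _ _ _ _ _ False N hN'
      (by rw [mul_one]; exact dR)
      dR d1 d1 d1 (by rw [one_mul]; exact d1) dvd_rfl nr1 nr1 (Or.inr (Or.inr ?_))
    rw [one_mul, one_mul, one_pow, mul_one]
    have h1 := pw2 (2 * m + 1) l (by omega) hl
    omega
  have B6 : UCount (Cfg δ l m ψ 1 (2 * l + 1) 1 1 False 1) (Kp N) N := by
    refine uc_two δ hδ1 l m hl hm hr hp hne.symm ψ hψ.symm _ _ _ _ _ _ False N hN'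
      (by rw [one_mul]; exact d1)
      d1 d1 d1 dR (by rw [mul_one]; exact dR) dvd_rfl nr1 (by rw [one_mul]; exact nr1)
      (Or.inr (Or.inl ?_))
    rw [one_pow, one_mul, mul_one]
    have h1 := pw2 (2 * l + 1) m (by omega) hm
    intro h2
    have h3 : 2 * 1 ≤ (2 * l + 1) ^ (2 * m) * (2 * l + 1) := Nat.mul_le_mul h1 (by omega)
    omega
  have A7 : UCount (Cfg δ m l ψ 1 1 (2 * l + 1) 1 False 1) (Kp N) N :=
    B3.mono (fun q n _ _ _ hb => hb.swap)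
  have A8 : UCount (Cfg δ m l ψ 1 1 1 (2 * l + 1) False 1) (Kp N) N :=
    B6.mono (fun q n _ _ _ hb => hb.swap)
  have hN1 : 1 ≤ N := by
    rw [hN]
    exact Nat.mul_pos (by omega) (by omega)
  have hlog : 0 ≤ Real.log N := Real.log_nonneg (by exact_mod_cast hN1)
  have A9 : UCount (Cfg δ m l ψ 1 1 1 1 False X) (Kp N) N := by
    have h1 := ucount_first δ hδ1 m l hm hl hp hr hne ψ hψ N (Nat.le_of_dvd hN1 dP)
      (Nat.le_of_dvd hN1 dR)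
    refine (h1.weak ?_ le_rfl).mono ?_
    · rw [← hN]
      unfold Kp
      apply mul_le_mul_of_nonneg_left _ (by norm_num)
      apply pow_le_pow_left₀ (by positivity)
      apply mul_le_mul_of_nonneg_left _ (by positivity)
      linarith
    · intro q n _ _ _ hb
      unfold Cfg at hb
      rw [one_mul] at hb
      exact hb
  have h := (A1.or (A2.or A3)).or ((A4.or (A5.or A6)).or (A7.or (A8.or A9)))
  refine h.weak ?_ le_rfl
  apply le_of_eq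
  ring

/-- the family of the bad pairs -/
def WP (δ : ℤ) (M q n : ℕ) : Prop :=
  ∃ i ∈ Finset.range (M + 1) ×ˢ Finset.range (M + 1),
    PR i.1 i.2 ∧ BadAll δ i.1 i.2 (psiOf δ i.1 i.2) q n

theorem usparse_WP (δ : ℤ) (hδ1 : δ.natAbs = 1) : USparse (WP δ) := by
  have hδ0 : δ ≠ 0 := by
    rintro rfl
    simp at hδ1
  refine ⟨45, fun M => ?_⟩
  have hM0 : (0 : ℝ) ≤ M := Nat.cast_nonneg M
  have hx : (2 : ℝ) ≤ (M : ℝ) + 2 := by linarith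
  have key : UCount (WP δ M)
      (((Finset.range (M + 1) ×ˢ Finset.range (M + 1)).card : ℕ) * (((M : ℝ) + 2) ^ 43))
      ((M + 2) ^ 45) := by
    apply UCount.exists_mem
    rintro ⟨m, l⟩ hi
    rw [Finset.mem_product, Finset.mem_range, Finset.mem_range] at hi
    simp only at hi
    apply UCount.and_left (by positivity)
    intro hPR
    simp only at hPR
    have h := ucount_all δ hδ1 m l hPR (psiOf δ m l) (psiOf_spec δ hδ0 m l hPR) _ rfl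
    have hn : (2 * m + 1) * (2 * l + 1) ≤ (M + 2) ^ 4 := by
      have h1 : 2 * m + 1 ≤ (M + 2) ^ 2 := by nlinarith
      have h2 : 2 * l + 1 ≤ (M + 2) ^ 2 := by nlinarith
      calc (2 * m + 1) * (2 * l + 1) ≤ (M + 2) ^ 2 * (M + 2) ^ 2 := Nat.mul_le_mul h1 h2
        _ = _ := by ring
    have hn1 : 1 ≤ (2 * m + 1) * (2 * l + 1) := Nat.mul_pos (by omega) (by omega)
    obtain ⟨N, hN⟩ : ∃ N, N = (2 * m + 1) * (2 * l + 1) := ⟨_, rfl⟩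
    rw [← hN] at h hn hn1
    refine h.weak ?_ ?_
    · have hNr : (N : ℝ) ≤ ((M : ℝ) + 2) ^ 4 := by exact_mod_cast hn
      have hN1r : (1 : ℝ) ≤ N := by exact_mod_cast hn1
      have hlog : Real.log N + 1 ≤ N := by
        have := Real.log_le_sub_one_of_pos (show (0 : ℝ) < N by linarith)
        linarith
      have hlog0 : 0 ≤ Real.log N := Real.log_nonneg hN1r
      have h1 : (N : ℝ) * (Real.log N + 1) ≤ ((M : ℝ) + 2) ^ 8 := by
        calc (N : ℝ) * (Real.log N + 1) ≤ N * N := by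
              apply mul_le_mul_of_nonneg_left hlog (by linarith)
          _ ≤ ((M : ℝ) + 2) ^ 4 * ((M : ℝ) + 2) ^ 4 := by
              apply mul_le_mul hNr hNr (by linarith) (by positivity)
          _ = _ := by ring
      have h2 : ((N : ℝ) * (Real.log N + 1)) ^ 2 ≤ (((M : ℝ) + 2) ^ 8) ^ 2 :=
        pow_le_pow_left₀ (by positivity) h1 2
      have h3 : (2 : ℝ) ^ 25 ≤ ((M : ℝ) + 2) ^ 25 := pow_le_pow_left₀ (by norm_num) hx 25
      have h4 : (1 : ℝ) ≤ ((M : ℝ) + 2) ^ 2 := one_le_pow₀ (by linarith)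
      unfold Kp
      calc 9 * (3000000 * ((N : ℝ) * (Real.log N + 1)) ^ 2)
          ≤ 2 ^ 25 * (((M : ℝ) + 2) ^ 8) ^ 2 := by
            have h5 : (0 : ℝ) ≤ ((N : ℝ) * (Real.log N + 1)) ^ 2 := by positivity
            nlinarith
        _ ≤ ((M : ℝ) + 2) ^ 25 * (((M : ℝ) + 2) ^ 8) ^ 2 :=
            mul_le_mul_of_nonneg_right h3 (by positivity)
        _ = ((M : ℝ) + 2) ^ 41 * 1 := by ring
        _ ≤ ((M : ℝ) + 2) ^ 41 * ((M : ℝ) + 2) ^ 2 := mul_le_mul_of_nonneg_left h4 (by positivity)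
        _ = _ := by ring
    · exact hn.trans (Nat.pow_le_pow_right (by omega) (by norm_num))
  refine key.weak ?_ le_rfl
  rw [Finset.card_product, Finset.card_range]
  push_cast
  have h1 : ((M : ℝ) + 1) * (M + 1) ≤ (M + 2) ^ 2 := by nlinarith
  calc ((M : ℝ) + 1) * (M + 1) * (M + 2) ^ 43 ≤ (M + 2) ^ 2 * (M + 2) ^ 43 :=
        mul_le_mul_of_nonneg_right h1 (by positivity)
    _ = _ := by ring

end Pool.Agent.H573.AHB
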