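import Pool.Agent.H573.AHB.PuG
import Pool.Agent.H573.AHB.PsiD

/-!
Descent for the degree `p r`, all cases: the local theorem.
-/

set_option autoImplicit false

namespace Pool.Agent.H573.AHB

open Polynomial

/-- both cases for `u` and `F` -/
lemma cop_unif (m : ℕ) (hp : (2 * m + 1).Prime) (δ u v : ℤ) (huv : IsCoprime u v)
    (hud : IsCoprime u δ) :
    ∃ a : ℕ, ((a = 2 * m + 1 ∧ ((2 * m + 1 : ℕ) : ℤ) ∣ u) ∨
        (a = 1 ∧ ¬ ((2 * m + 1 : ℕ) : ℤ) ∣ u)) ∧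
      ∃ B : ℤ, Fh δ u v m = a * B ∧ IsCoprime ((a : ℤ) * u) B := by
  by_cases h : ((2 * m + 1 : ℕ) : ℤ) ∣ u
  · obtain ⟨B, h1, h2⟩ := second_F m δ u v huv hud h
    exact ⟨2 * m + 1, Or.inl ⟨rfl, h⟩, B, h1, h2⟩
  · refine ⟨1, Or.inr ⟨rfl, h⟩, Fh δ u v m, by rw [Nat.cast_one, one_mul], ?_⟩
    rw [Nat.cast_one, one_mul]
    exact cop_F m hp δ u v huv hud h

/-- the factors of the two constants -/
lemma cof (p : ℤ) (pn a c : ℕ) (hpn : (pn : ℤ) = p) (hp : Prime p) (u F X : ℤ)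
    (ha : (a = pn ∧ p ∣ u) ∨ (a = 1 ∧ ¬ p ∣ u))
    (hc : (c = pn ∧ p ∣ u * F) ∨ (c = 1 ∧ ¬ p ∣ u * F)) (hX : p ∣ u * F ↔ p ∣ X) :
    ∃ h : ℕ, c = a * h ∧ (h : ℤ) ∣ F ∧ (h : ℤ) ∣ p ∧ h ≠ 0 ∧ a ≠ 0 ∧
      ((a = pn ∧ h = 1 ∧ p ∣ X) ∨ (a = 1 ∧ h = pn ∧ p ∣ X) ∨ (a = 1 ∧ h = 1 ∧ ¬ p ∣ X)) := by
  have hpn0 : pn ≠ 0 := by
    rintro rfl
    exact hp.ne_zero (by rw [← hpn, Nat.cast_zero])
  rcases ha with ⟨ha, hu⟩ | ⟨ha, hu⟩
  · rcases hc with ⟨hc, hF⟩ | ⟨hc, hF⟩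
    · refine ⟨1, by rw [hc, ha, mul_one], ?_, ?_, one_ne_zero, by rw [ha]; exact hpn0,
        Or.inl ⟨ha, rfl, hX.mp hF⟩⟩
      · rw [Nat.cast_one]; exact one_dvd _
      · rw [Nat.cast_one]; exact one_dvd _
    · exact absurd (hu.mul_right F) hF
  · rcases hc with ⟨hc, hF⟩ | ⟨hc, hF⟩
    · refine ⟨pn, by rw [hc, ha, one_mul], ?_, ?_, hpn0, by rw [ha]; exact one_ne_zero,
        Or.inr (Or.inl ⟨ha, rfl, hX.mp hF⟩)⟩
      · rw [hpn]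
        rcases hp.dvd_or_dvd hF with h | h
        · exact absurd h hu
        · exact h
      · rw [hpn]
    · refine ⟨1, by rw [hc, ha, mul_one], ?_, ?_, one_ne_zero, by rw [ha]; exact one_ne_zero,
        Or.inr (Or.inr ⟨ha, rfl, fun h => hF (hX.mpr h)⟩)⟩
      · rw [Nat.cast_one]; exact one_dvd _
      · rw [Nat.cast_one]; exact one_dvd _

/-- coprimality of the four factors, all cases -/
lemma psi_split_all (δ : ℤ) (hδ1 : δ.natAbs = 1) (m l : ℕ) (h : PR m l)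
    (ψ : ℤ[X]) (hψ : IsPsi δ m l ψ) (u v : ℤ)
    (hco : IsCoprime (u * Fh δ u v (2 * (m * l) + m + l)) (v * Gh δ u v (2 * (m * l) + m + l))) :
    ∃ ap hp ar hr : ℕ,
      ((ap = 2 * m + 1 ∧ hp = 1 ∧
          ((2 * m + 1 : ℕ) : ℤ) ∣ u * Fh δ u v (2 * (m * l) + m + l)) ∨
        (ap = 1 ∧ hp = 2 * m + 1 ∧
          ((2 * m + 1 : ℕ) : ℤ) ∣ u * Fh δ u v (2 * (m * l) + m + l)) ∨
        (ap = 1 ∧ hp = 1 ∧
          ¬ ((2 * m + 1 : ℕ) : ℤ) ∣ u * Fh δ u v (2 * (m * l) + m + l))) ∧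
      ((ar = 2 * l + 1 ∧ hr = 1 ∧
          ((2 * l + 1 : ℕ) : ℤ) ∣ u * Fh δ u v (2 * (m * l) + m + l)) ∨
        (ar = 1 ∧ hr = 2 * l + 1 ∧
          ((2 * l + 1 : ℕ) : ℤ) ∣ u * Fh δ u v (2 * (m * l) + m + l)) ∨
        (ar = 1 ∧ hr = 1 ∧
          ¬ ((2 * l + 1 : ℕ) : ℤ) ∣ u * Fh δ u v (2 * (m * l) + m + l))) ∧
      ∃ B2 B3 B4 : ℤ, Fh δ u v m = ap * B2 ∧ Fh δ u v l = ar * B3 ∧
        hmg ψ (4 * (m * l)) u v = (hp : ℤ) * hr * B4 ∧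
        IsCoprime (((ap : ℤ) * ar * u) * (hr * B2)) ((hp * B3) * B4) ∧
        IsCoprime (((ap : ℤ) * ar * u) * (hp * B3)) ((hr * B2) * B4) := by
  obtain ⟨hm, hl, hp, hr, hne⟩ := h
  have hδu : IsUnit δ := Int.isUnit_iff_natAbs_eq.mpr hδ1
  have hδ0 : δ ≠ 0 := by
    rintro rfl
    simp at hδ1
  have hpδ : ∀ k : ℕ, k.Prime → ¬ (k : ℤ) ∣ δ := by
    intro k hk h
    have h3 := Int.natAbs_dvd_natAbs.mpr h
    rw [Int.natAbs_natCast, hδ1] at h3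
    have := Nat.le_of_dvd one_pos h3
    have := hk.two_le
    omega
  have hcδ : ∀ w : ℤ, IsCoprime w δ := fun w => ⟨0, δ, by rw [Int.isUnit_mul_self hδu]; ring⟩
  have hpp : Prime ((2 * m + 1 : ℕ) : ℤ) := Nat.prime_iff_prime_int.mp hp
  have hrr : Prime ((2 * l + 1 : ℕ) : ℤ) := Nat.prime_iff_prime_int.mp hr
  have hpr : IsCoprime ((2 * m + 1 : ℕ) : ℤ) ((2 * l + 1 : ℕ) : ℤ) :=
    Nat.isCoprime_iff_coprime.mpr ((Nat.coprime_primes hp hr).mpr (by omega))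
  set Xp := u * Fh δ u v m with hXp
  set Yp := v * Gh δ u v m with hYp
  set Xr := u * Fh δ u v l with hXr
  set Yr := v * Gh δ u v l with hYr
  set Ψ := hmg ψ (4 * (m * l)) u v with hΨ
  have c1 := comp_pr (R := ℤ) δ u v m l
  have c2 := comp_pr' δ hδ0 u v m l
  have hsw : 2 * (m * l) + m + l = 2 * (l * m) + l + m := by ring
  have c3 := comp_pr (R := ℤ) δ u v l m
  have c4 := comp_pr' δ hδ0 u v l m
  rw [← hsw] at c3 c4
  rw [← hXp, ← hYp] at c1 c2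
  rw [← hXr, ← hYr] at c3 c4
  have p1 : Fh δ Xp Yp l = Fh δ u v l * Ψ := psi_hom δ m l ψ hψ u v
  have p2 : Fh δ Xr Yr m = Fh δ u v m * Ψ := by
    have := psi_hom δ l m ψ hψ.symm u v
    rw [mul_comm l m] at this
    exact this
  have k1 : IsCoprime Xp Yp := by
    rw [c1, c2] at hco
    exact hco.of_mul_left_left.of_mul_right_left
  have k2 : IsCoprime Xr Yr := by
    rw [c3, c4] at hco
    exact hco.of_mul_left_left.of_mul_right_left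
  have huv : IsCoprime u v := by
    rw [hXp, hYp] at k1
    exact k1.of_mul_left_left.of_mul_right_left
  obtain ⟨ap, hap, B2, e2, f2⟩ := cop_unif m hp δ u v huv (hcδ _)
  obtain ⟨ar, har, B3, e3, f3⟩ := cop_unif l hr δ u v huv (hcδ _)
  obtain ⟨cr, hcr, D3, e5, f5⟩ := cop_unif l hr δ Xp Yp k1 (hcδ _)
  obtain ⟨cp, hcp, D4, e6, f6⟩ := cop_unif m hp δ Xr Yr k2 (hcδ _)
  rw [p1] at e5
  rw [p2] at e6
  obtain ⟨hp', g1, g2, g3, g4, g5, g6⟩ := cof ((2 * m + 1 : ℕ) : ℤ) (2 * m + 1) ap cp rfl hpp u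
    (Fh δ u v l) (u * Fh δ u v (2 * (m * l) + m + l)) hap hcp (by
      rw [← hXr, c3]
      refine ⟨fun h => h.mul_right _, fun h => ?_⟩
      rcases hpp.dvd_or_dvd h with h | h
      · exact h
      · exact (FG_dvd_p m hm hp δ Xr Yr (hpδ _ hp)).1 h)
  obtain ⟨hr', j1, j2, j3, j4, j5, j6⟩ := cof ((2 * l + 1 : ℕ) : ℤ) (2 * l + 1) ar cr rfl hrr u
    (Fh δ u v m) (u * Fh δ u v (2 * (m * l) + m + l)) har hcr (by
      rw [← hXp, c1]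
      refine ⟨fun h => h.mul_right _, fun h => ?_⟩
      rcases hrr.dvd_or_dvd h with h | h
      · exact h
      · exact (FG_dvd_p l hl hr δ Xp Yp (hpδ _ hr)).1 h)
  have hcpd : (cp : ℤ) ∣ ((2 * m + 1 : ℕ) : ℤ) := by
    rcases hcp with ⟨h, -⟩ | ⟨h, -⟩
    · rw [h]
    · rw [h, Nat.cast_one]; exact one_dvd _
  have hcrd : (cr : ℤ) ∣ ((2 * l + 1 : ℕ) : ℤ) := by
    rcases hcr with ⟨h, -⟩ | ⟨h, -⟩
    · rw [h]
    · rw [h, Nat.cast_one]; exact one_dvd _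
  -- `F_p` and `F_r` are coprime
  have hFF : IsCoprime (Fh δ u v m) (Fh δ u v l) := by
    rw [Int.isCoprime_iff_gcd_eq_one]
    have d1 : ((Int.gcd (Fh δ u v m) (Fh δ u v l) : ℕ) : ℤ) ∣ Fh δ u v m := Int.gcd_dvd_left _ _
    have d2 : ((Int.gcd (Fh δ u v m) (Fh δ u v l) : ℕ) : ℤ) ∣ Fh δ u v l := Int.gcd_dvd_right _ _
    have d3 : IsCoprime ((Int.gcd (Fh δ u v m) (Fh δ u v l) : ℕ) : ℤ) D3 :=
      (f5.of_mul_left_right.of_mul_left_right).of_isCoprime_of_dvd_left d1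
    have d4 : IsCoprime ((Int.gcd (Fh δ u v m) (Fh δ u v l) : ℕ) : ℤ) D4 :=
      (f6.of_mul_left_right.of_mul_left_right).of_isCoprime_of_dvd_left d2
    have d5 : ((Int.gcd (Fh δ u v m) (Fh δ u v l) : ℕ) : ℤ) ∣ cr :=
      d3.dvd_of_dvd_mul_right (by rw [← e5]; exact d2.mul_right _)
    have d6 : ((Int.gcd (Fh δ u v m) (Fh δ u v l) : ℕ) : ℤ) ∣ cp :=
      d4.dvd_of_dvd_mul_right (by rw [← e6]; exact d1.mul_right _)
    have d7 := hpr.isUnit_of_dvd' (d6.trans hcpd) (d5.trans hcrd)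
    rw [Int.isUnit_iff_natAbs_eq, Int.natAbs_natCast] at d7
    exact d7
  have zap : (ap : ℤ) ≠ 0 := by exact_mod_cast g5
  have zar : (ar : ℤ) ≠ 0 := by exact_mod_cast j5
  have zhp : (hp' : ℤ) ≠ 0 := by exact_mod_cast g4
  have zhr : (hr' : ℤ) ≠ 0 := by exact_mod_cast j4
  have i1 : B3 * Ψ = hr' * D3 := by
    apply mul_left_cancel₀ zar
    have : (cr : ℤ) = ar * hr' := by exact_mod_cast j1
    rw [this, e3] at e5
    linear_combination e5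
  have i2 : B2 * Ψ = hp' * D4 := by
    apply mul_left_cancel₀ zap
    have : (cp : ℤ) = ap * hp' := by exact_mod_cast g1
    rw [this, e2] at e6
    linear_combination e6
  have i3 : IsCoprime (hr' : ℤ) B3 := by
    have := hFF.of_isCoprime_of_dvd_left j2
    rw [e3] at this
    exact this.of_mul_right_right
  have i4 : IsCoprime (hp' : ℤ) B2 := by
    have := hFF.symm.of_isCoprime_of_dvd_left g2
    rw [e2] at this
    exact this.of_mul_right_right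
  have i5 : (hr' : ℤ) ∣ Ψ := i3.dvd_of_dvd_mul_left (by rw [i1]; exact dvd_mul_right _ _)
  have i6 : (hp' : ℤ) ∣ Ψ := i4.dvd_of_dvd_mul_left (by rw [i2]; exact dvd_mul_right _ _)
  have i7 : IsCoprime (hp' : ℤ) (hr' : ℤ) :=
    (hpr.of_isCoprime_of_dvd_left g3).of_isCoprime_of_dvd_right j3
  obtain ⟨B4, hB4⟩ := i7.mul_dvd i6 i5
  have i8 : D3 = (hp' * B3) * B4 := by
    apply mul_left_cancel₀ zhr
    rw [← i1, hB4]
    ring
  have i9 : D4 = (hr' * B2) * B4 := by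
    apply mul_left_cancel₀ zhp
    rw [← i2, hB4]
    ring
  refine ⟨ap, hp', ar, hr', g6, j6, B2, B3, B4, e2, e3, hB4, ?_, ?_⟩
  · rw [← i8]
    have : ((ap : ℤ) * ar * u) * (hr' * B2) = (cr : ℤ) * Xp := by
      have h1 : (cr : ℤ) = ar * hr' := by exact_mod_cast j1
      rw [h1, hXp, e2]
      ring
    rw [this]
    exact f5
  · rw [← i9]
    have : ((ap : ℤ) * ar * u) * (hp' * B3) = (cp : ℤ) * Xr := by
      have h1 : (cp : ℤ) = ap * hp' := by exact_mod_cast g1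
      rw [h1, hXr, e3]
      ring
    rw [this]
    exact f6

/-- from global data to a configuration -/
lemma cfg_of (δ : ℤ) (m l : ℕ) (ψ : ℤ[X]) (ap hp ar hr : ℕ) (zU : Prop) (E : ℤ[X])
    (q s n : ℕ) (hq : q.Prime) (hsn : s * n = q - 1)
    (hap : (ap : ZMod q) ≠ 0) (har : (ar : ZMod q) ≠ 0) (hhp : (hp : ZMod q) ≠ 0)
    (hhr : (hr : ZMod q) ≠ 0) (u v w1 w2 w3 w4 : ℤ)
    (huv : IsCoprime u v) (hz : zU → ¬ (q : ℤ) ∣ u)
    (hE : ∀ t : ZMod q, (v : ZMod q) = u * t → aeval t E ≠ 0)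
    (e1 : (ap : ℤ) * ar * u = w1 ^ s) (e2 : (hr : ℤ) * Fh δ u v m = ap * w2 ^ s)
    (e3 : (hp : ℤ) * Fh δ u v l = ar * w3 ^ s)
    (e4 : hmg ψ (4 * (m * l)) u v = (hp : ℤ) * hr * w4 ^ s) :
    Cfg δ m l ψ ap hp ar hr zU E q n := by
  have hF : Fact q.Prime := ⟨hq⟩
  have hm1 : ((Fh δ u v m : ℤ) : ZMod q) = Fh (δ : ZMod q) u v m :=
    (map_FGh (Int.castRingHom (ZMod q)) δ u v m).1
  have hm2 : ((Fh δ u v l : ℤ) : ZMod q) = Fh (δ : ZMod q) u v l :=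
    (map_FGh (Int.castRingHom (ZMod q)) δ u v l).1
  have hm3 : ((hmg ψ (4 * (m * l)) u v : ℤ) : ZMod q) = hmg ψ (4 * (m * l)) (u : ZMod q) v :=
    hmg_map ψ _ (Int.castRingHom (ZMod q)) u v
  refine ⟨(u : ZMod q), (v : ZMod q), ?_, ?_, hE, ?_, ?_, ?_, ?_⟩
  · by_contra hcon
    push Not at hcon
    obtain ⟨g1, g2⟩ := hcon
    rw [ZMod.intCast_zmod_eq_zero_iff_dvd] at g1 g2
    have := huv.isUnit_of_dvd' g1 g2
    rw [Int.isUnit_iff_natAbs_eq, Int.natAbs_natCast] at this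
    have := hq.two_le
    omega
  · intro h1 h2
    rw [ZMod.intCast_zmod_eq_zero_iff_dvd] at h2
    exact hz h1 h2
  · have := pow_mod q s n hq hsn 1 w1 (u : ZMod q) ((ap * ar : ℕ) : ZMod q)
      (by rw [Nat.cast_mul]; exact mul_ne_zero hap har) (by
      have := congrArg (Int.cast : ℤ → ZMod q) e1
      push_cast at this ⊢
      rw [this]
      simp)
    rw [Nat.cast_one, one_pow] at this
    exact this
  · have := pow_mod q s n hq hsn ap w2 ((Fh δ u v m : ℤ) : ZMod q) hr hhr (by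
      have := congrArg (Int.cast : ℤ → ZMod q) e2
      push_cast at this
      exact this)
    rw [hm1] at this
    exact this
  · have := pow_mod q s n hq hsn ar w3 ((Fh δ u v l : ℤ) : ZMod q) hp hhp (by
      have := congrArg (Int.cast : ℤ → ZMod q) e3
      push_cast at this
      exact this)
    rw [hm2] at this
    exact this
  · have := pow_mod q s n hq hsn (hp * hr) w4 ((hmg ψ (4 * (m * l)) u v : ℤ) : ZMod q) 1
      one_ne_zero (by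
      rw [e4]
      push_cast
      ring)
    rw [one_mul, hm3] at this
    exact this

/-- **The local theorem for `X_{pr}(u,v) = x^s`, all cases.** -/
theorem psi_local_all (δ : ℤ) (hδ1 : δ.natAbs = 1) (m l : ℕ) (h : PR m l)
    (ψ : ℤ[X]) (hψ : IsPsi δ m l ψ) (s q : ℕ)
    (hsp : s.Prime) (hs2 : 2 < s) (hq : q.Prime) (hqm : 2 * m + 1 < q) (hql : 2 * l + 1 < q)
    (hsq : s ∣ q - 1)
    (hnb : ¬ BadAll δ m l ψ q ((q - 1) / s)) (x u v : ℤ)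
    (hX : x ^ s = u * Fh δ u v (2 * (m * l) + m + l))
    (hco : IsCoprime (x ^ s) (v * Gh δ u v (2 * (m * l) + m + l))) :
    (((2 * m + 1 : ℕ) : ℤ) ∣ x ∧ ((2 * l + 1 : ℕ) : ℤ) ∣ x ∧ (q : ℤ) ∣ u) ∨
    (¬ ((2 * m + 1 : ℕ) : ℤ) ∣ x ∧ ¬ ((2 * l + 1 : ℕ) : ℤ) ∣ x ∧ (q : ℤ) ∣ v) := by
  have hF1 : Fact q.Prime := ⟨hq⟩
  have hsodd : Odd s := hsp.odd_of_ne_two (by omega)
  have hs0 : s ≠ 0 := by omega
  have hpp : Prime ((2 * m + 1 : ℕ) : ℤ) := Nat.prime_iff_prime_int.mp h.2.2.1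
  have hrr : Prime ((2 * l + 1 : ℕ) : ℤ) := Nat.prime_iff_prime_int.mp h.2.2.2.1
  have hsn : s * ((q - 1) / s) = q - 1 := Nat.mul_div_cancel' hsq
  have h1q : ((1 : ℕ) : ZMod q) ≠ 0 := by rw [Nat.cast_one]; exact one_ne_zero
  have hpq : ((2 * m + 1 : ℕ) : ZMod q) ≠ 0 := natCast_ne_zero_of_lt (by omega) hqm (ZMod q)
  have hrq : ((2 * l + 1 : ℕ) : ZMod q) ≠ 0 := natCast_ne_zero_of_lt (by omega) hql (ZMod q)
  have hprod := psi_prod δ m l ψ hψ u v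
  rw [hX] at hco
  have huv : IsCoprime u v := hco.of_mul_left_left.of_mul_right_left
  obtain ⟨ap, hp', ar, hr', g1, g2, B2, B3, B4, e2, e3, e4, f1, f2⟩ :=
    psi_split_all δ hδ1 m l h ψ hψ u v hco
  rw [← hX] at g1 g2
  have hdx : ∀ p : ℤ, Prime p → (p ∣ x ^ s ↔ p ∣ x) := fun p hp =>
    ⟨fun h => hp.dvd_of_dvd_pow h, fun h => dvd_pow h hs0⟩
  rw [hdx _ hpp] at g1
  rw [hdx _ hrr] at g2
  obtain ⟨w1, w2, w3, w4, b1, b2, b3, b4⟩ := four_factors (x := x) hsodd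
    (a := (ap : ℤ) * ar * u) (b := hr' * B2) (c := hp' * B3) (d := B4)
    (f2.of_mul_left_left.of_mul_right_left) (f1.of_mul_left_left.of_mul_right_left)
    (f1.of_mul_left_left.of_mul_right_right) (f1.of_mul_left_right.of_mul_right_left)
    (f1.of_mul_left_right.of_mul_right_right) (f2.of_mul_left_right.of_mul_right_right) (by
      rw [hX, hprod, e2, e3, e4]
      ring)
  have main : ∀ (zU : Prop) (E : ℤ[X]), (zU → ¬ (q : ℤ) ∣ u) →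
      (∀ t : ZMod q, (v : ZMod q) = u * t → aeval t E ≠ 0) →
      Cfg δ m l ψ ap hp' ar hr' zU E q ((q - 1) / s) := by
    intro zU E hz hE
    refine cfg_of δ m l ψ ap hp' ar hr' zU E q s _ hq hsn ?_ ?_ ?_ ?_ u v w1 w2 w3 w4 huv hz hE
      b1 ?_ ?_ ?_
    · rcases g1 with ⟨r1, r2, -⟩ | ⟨r1, r2, -⟩ | ⟨r1, r2, -⟩ <;> rw [r1] <;> assumption
    · rcases g2 with ⟨r1, r2, -⟩ | ⟨r1, r2, -⟩ | ⟨r1, r2, -⟩ <;> rw [r1] <;> assumption
    · rcases g1 with ⟨r1, r2, -⟩ | ⟨r1, r2, -⟩ | ⟨r1, r2, -⟩ <;> rw [r2] <;> assumption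
    · rcases g2 with ⟨r1, r2, -⟩ | ⟨r1, r2, -⟩ | ⟨r1, r2, -⟩ <;> rw [r2] <;> assumption
    · rw [e2, ← b2]
      ring
    · rw [e3, ← b3]
      ring
    · rw [e4, ← b4]
  have E1 : ∀ t : ZMod q, (v : ZMod q) = u * t → aeval t (1 : ℤ[X]) ≠ 0 := by
    intro t _
    rw [map_one]
    exact one_ne_zero
  have hFalse : False → ¬ (q : ℤ) ∣ u := fun h => h.elim
  rcases g1 with ⟨r1, r2, r3⟩ | ⟨r1, r2, r3⟩ | ⟨r1, r2, r3⟩ <;>
    rcases g2 with ⟨t1, t2, t3⟩ | ⟨t1, t2, t3⟩ | ⟨t1, t2, t3⟩ <;>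
    rw [r1, r2, t1, t2] at main
  · left
    refine ⟨r3, t3, ?_⟩
    by_contra hqu
    exact hnb (Or.inl (Or.inl (main True 1 (fun _ => hqu) E1)))
  · exact absurd (Or.inl (Or.inr (Or.inl (main False 1 hFalse E1)))) hnb
  · exact absurd (Or.inl (Or.inr (Or.inr (main False 1 hFalse E1)))) hnb
  · exact absurd (Or.inr (Or.inl (Or.inl (main False 1 hFalse E1)))) hnb
  · exact absurd (Or.inr (Or.inl (Or.inr (Or.inl (main False 1 hFalse E1))))) hnb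
  · exact absurd (Or.inr (Or.inl (Or.inr (Or.inr (main False 1 hFalse E1))))) hnb
  · exact absurd (Or.inr (Or.inr (Or.inl (main False 1 hFalse E1)))) hnb
  · exact absurd (Or.inr (Or.inr (Or.inr (Or.inl (main False 1 hFalse E1))))) hnb
  · right
    refine ⟨r3, t3, ?_⟩
    by_contra hqv
    refine hnb (Or.inr (Or.inr (Or.inr (Or.inr (main False X hFalse ?_)))))
    intro t ht
    rw [aeval_X]
    rintro rfl
    rw [mul_zero, ZMod.intCast_zmod_eq_zero_iff_dvd] at ht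
    exact hqv ht

/-- `x^{2s} + y² = z^{pr}` -/
theorem sum_pr_all (m l : ℕ) (h : PR m l) (ψ : ℤ[X]) (hψ : IsPsi (-1) m l ψ) (s q : ℕ)
    (hsp : s.Prime) (hs2 : 2 < s) (hq : q.Prime) (hqm : 2 * m + 1 < q) (hql : 2 * l + 1 < q)
    (hsq : s ∣ q - 1)
    (hnb : ¬ BadAll (-1) m l ψ q ((q - 1) / s)) (x y z : ℤ) (hco : IsCoprime x y)
    (heq : x ^ (2 * s) + y ^ 2 = z ^ ((2 * m + 1) * (2 * l + 1))) :
    (((2 * m + 1 : ℕ) : ℤ) ∣ x ∧ ((2 * l + 1 : ℕ) : ℤ) ∣ x ∧ (q : ℤ) ∣ x) ∨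
    (¬ ((2 * m + 1 : ℕ) : ℤ) ∣ x ∧ ¬ ((2 * l + 1 : ℕ) : ℤ) ∣ x ∧ (q : ℤ) ∣ y) := by
  have he : (2 * m + 1) * (2 * l + 1) = 2 * (2 * (m * l) + m + l) + 1 := by ring
  have hm1 := h.1
  rw [he] at heq
  obtain ⟨u, v, hu, hv⟩ := gauss (x ^ s) y z (2 * (m * l) + m + l) (by omega) hco.pow_left (by
    rw [← heq]
    ring)
  rcases psi_local_all (-1) rfl m l h ψ hψ s q hsp hs2 hq hqm hql hsq hnb x u v hu
    (by rw [← hv]; exact hco.pow_left) with ⟨g1, g2, g3⟩ | ⟨g1, g2, g3⟩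
  · exact Or.inl ⟨g1, g2, q_dvd_of_pow hq g3 hu⟩
  · right
    refine ⟨g1, g2, ?_⟩
    rw [hv]
    exact g3.mul_right _

/-- `y² + z^{pr} = x^{2s}` with `z` odd -/
theorem diff_pr_all (m l : ℕ) (h : PR m l) (ψ : ℤ[X]) (hψ : IsPsi 1 m l ψ) (s q : ℕ)
    (hsp : s.Prime) (hs2 : 2 < s) (hq : q.Prime) (hqm : 2 * m + 1 < q) (hql : 2 * l + 1 < q)
    (hsq : s ∣ q - 1)
    (hnb : ¬ BadAll 1 m l ψ q ((q - 1) / s)) (x y z : ℤ) (hco : IsCoprime x y) (hz : Odd z)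
    (heq : y ^ 2 + z ^ ((2 * m + 1) * (2 * l + 1)) = x ^ (2 * s)) :
    (((2 * m + 1 : ℕ) : ℤ) ∣ x ∧ ((2 * l + 1 : ℕ) : ℤ) ∣ x ∧ (q : ℤ) ∣ x) ∨
    (¬ ((2 * m + 1 : ℕ) : ℤ) ∣ x ∧ ¬ ((2 * l + 1 : ℕ) : ℤ) ∣ x ∧ (q : ℤ) ∣ y) := by
  have he : (2 * m + 1) * (2 * l + 1) = 2 * (2 * (m * l) + m + l) + 1 := by ring
  rw [he] at heq
  obtain ⟨u, v, hu, hv⟩ := split_desc (x ^ s) y z (2 * (m * l) + m + l) hco.pow_left hz (by
    have : (x ^ s) ^ 2 = x ^ (2 * s) := by ring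
    rw [this, ← heq]
    ring)
  rcases psi_local_all 1 rfl m l h ψ hψ s q hsp hs2 hq hqm hql hsq hnb x u v hu
    (by rw [← hv]; exact hco.pow_left) with ⟨g1, g2, g3⟩ | ⟨g1, g2, g3⟩
  · exact Or.inl ⟨g1, g2, q_dvd_of_pow hq g3 hu⟩
  · right
    refine ⟨g1, g2, ?_⟩
    rw [hv]
    exact g3.mul_right _

end Pool.Agent.H573.AHB
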