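import Pool.Agent.H573.AHB.PuH
import Pool.Agent.H573.AHB.DnB

/-!
The engine for pairs of primes.
-/

set_option autoImplicit false

namespace Pool.Agent.H573.AHB

open Polynomial Filter

/-- one set `S` and one set `G` for all pairs `(p, r)` -/
theorem engine_pairs (δ : ℤ) (hδ1 : δ.natAbs = 1) :
    ∃ κ : ℝ, 0 < κ ∧ ∃ S : Set ℕ,
      (∀ s ∈ S, s.Prime ∧ 2 < s ∧ ∃ G : Finset ℕ, (s : ℝ) ^ κ ≤ (G.card : ℝ) ∧
        ∀ q ∈ G, q.Prime ∧ 2 * s < q ∧ s ∣ q - 1 ∧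
          ∀ m l : ℕ, PR m l → ((2 * m + 1 : ℕ) : ℝ) ≤ (s : ℝ) ^ κ →
            ((2 * l + 1 : ℕ) : ℝ) ≤ (s : ℝ) ^ κ →
            2 * m + 1 < q ∧ 2 * l + 1 < q ∧ ¬ BadAll δ m l (psiOf δ m l) q ((q - 1) / s)) ∧
      ∃ c : ℝ, 0 < c ∧ ∃ X₀ : ℕ, ∀ X : ℕ, X₀ ≤ X → c ≤ invSum S X := by
  obtain ⟨κ, hκ0, S, hS, hdens⟩ := engine 1 le_rfl (WP δ) (usparse_WP δ hδ1)
  refine ⟨κ, hκ0, S, ?_, hdens⟩
  intro s hs
  obtain ⟨hsp, hs2, G, hG1, hG2⟩ := hS s hs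
  refine ⟨hsp, hs2, G, hG1, ?_⟩
  intro q hq
  obtain ⟨k1, k2, -, k4, k5⟩ := hG2 q hq
  refine ⟨k1, k2, k4, ?_⟩
  intro m l hPR hm hl
  have hM : ((2 * max m l + 1 : ℕ) : ℝ) ≤ (s : ℝ) ^ κ := by
    rcases le_total m l with h | h
    · rw [max_eq_right h]; exact hl
    · rw [max_eq_left h]; exact hm
  obtain ⟨k6, k7⟩ := k5 (max m l) hM
  have h1 := le_max_left m l
  have h2 := le_max_right m l
  refine ⟨by omega, by omega, fun hb => k7 ?_⟩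
  refine ⟨(m, l), ?_, hPR, hb⟩
  rw [Finset.mem_product, Finset.mem_range, Finset.mem_range]
  simp only
  omega

/-- all the small primes and all the auxiliary primes are on the same side -/
lemma side2 (a b : ℕ) (P G : ℕ → Prop)
    (hP0 : ∃ p r, P p ∧ P r ∧ p ≠ r) (hG0 : ∃ q, G q)
    (h : ∀ p r, P p → P r → p ≠ r → ∀ q, G q →
      (p ∣ a ∧ r ∣ a ∧ q ∣ a) ∨ (¬ p ∣ a ∧ ¬ r ∣ a ∧ q ∣ b)) :
    ((∀ q, G q → q ∣ a) ∧ ∀ p, P p → p ∣ a) ∨ ((∀ q, G q → q ∣ b) ∧ ∀ p, P p → ¬ p ∣ a) := by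
  obtain ⟨p0, r0, hp0, hr0, hne⟩ := hP0
  obtain ⟨q0, hq0⟩ := hG0
  by_cases ha : p0 ∣ a
  · left
    constructor
    · intro q hq
      rcases h p0 r0 hp0 hr0 hne q hq with h1 | h1
      · exact h1.2.2
      · exact absurd ha h1.1
    · intro p hp
      by_cases hpp : p0 = p
      · rw [← hpp]; exact ha
      · rcases h p0 p hp0 hp hpp q0 hq0 with h1 | h1
        · exact h1.2.1
        · exact absurd ha h1.1
  · right
    constructor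
    · intro q hq
      rcases h p0 r0 hp0 hr0 hne q hq with h1 | h1
      · exact absurd h1.1 ha
      · exact h1.2.2
    · intro p hp
      by_cases hpp : p0 = p
      · rw [← hpp]; exact ha
      · rcases h p0 p hp0 hp hpp q0 hq0 with h1 | h1
        · exact absurd h1.1 ha
        · exact h1.2.1

end Pool.Agent.H573.AHB
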