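import Pool.Agent.H573.AHB.PuI
import Pool.Agent.H573.AHB.PsiE

/-!
The splitting with powers of two removed, all cases.
-/

set_option autoImplicit false

namespace Pool.Agent.H573.AHB

open Polynomial

/-- coprimality of the four factors, with powers of two removed, all cases -/
lemma psi_splitK_all (δ : ℤ) (hδ1 : δ.natAbs = 1) (m l : ℕ) (h : PR m l)
    (ψ : ℤ[X]) (hψ : IsPsi δ m l ψ) (u v k1 k2 F' F'' G' G'' Ψ' : ℤ)
    (hk1p : IsCoprime ((2 * m + 1 : ℕ) : ℤ) k1) (hk2r : IsCoprime ((2 * l + 1 : ℕ) : ℤ) k2)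
    (hk12 : k1 ^ (2 * l) = k2 ^ (2 * m)) (hk10 : k1 ≠ 0) (hk20 : k2 ≠ 0)
    (f1 : Fh δ u v m = k1 * F') (f2 : Fh δ u v l = k2 * F'') (g1 : Gh δ u v m = k1 * G')
    (g2 : Gh δ u v l = k2 * G'') (hΨ : hmg ψ (4 * (m * l)) u v = k1 ^ (2 * l) * Ψ')
    (c1 : IsCoprime (u * F') (v * G')) (c2 : IsCoprime (u * F'') (v * G'')) :
    ∃ ap hp ar hr : ℕ,
      ((ap = 2 * m + 1 ∧ hp = 1 ∧
          ((2 * m + 1 : ℕ) : ℤ) ∣ u * F' * (F'' * Ψ')) ∨
        (ap = 1 ∧ hp = 2 * m + 1 ∧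
          ((2 * m + 1 : ℕ) : ℤ) ∣ u * F' * (F'' * Ψ')) ∨
        (ap = 1 ∧ hp = 1 ∧
          ¬ ((2 * m + 1 : ℕ) : ℤ) ∣ u * F' * (F'' * Ψ'))) ∧
      ((ar = 2 * l + 1 ∧ hr = 1 ∧
          ((2 * l + 1 : ℕ) : ℤ) ∣ u * F' * (F'' * Ψ')) ∨
        (ar = 1 ∧ hr = 2 * l + 1 ∧
          ((2 * l + 1 : ℕ) : ℤ) ∣ u * F' * (F'' * Ψ')) ∨
        (ar = 1 ∧ hr = 1 ∧
          ¬ ((2 * l + 1 : ℕ) : ℤ) ∣ u * F' * (F'' * Ψ'))) ∧
      ∃ B2 B3 B4 : ℤ, F' = ap * B2 ∧ F'' = ar * B3 ∧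
        Ψ' = (hp : ℤ) * hr * B4 ∧
        IsCoprime (((ap : ℤ) * ar * u) * (hr * B2)) ((hp * B3) * B4) ∧
        IsCoprime (((ap : ℤ) * ar * u) * (hp * B3)) ((hr * B2) * B4) := by
  obtain ⟨hm, hl, hp, hr, hne⟩ := h
  have hδu : IsUnit δ := Int.isUnit_iff_natAbs_eq.mpr hδ1
  have hpδ : ∀ k : ℕ, k.Prime → ¬ (k : ℤ) ∣ δ := by
    intro k hk h
    have h3 := Int.natAbs_dvd_natAbs.mpr h
    rw [Int.natAbs_natCast, hδ1] at h3
    have := Nat.le_of_dvd one_pos h3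
    have := hk.two_le
    omega
  have hcδ : ∀ w : ℤ, IsCoprime w δ := fun w => ⟨0, δ, by rw [Int.isUnit_mul_self hδu]; ring⟩
  have hpp : Prime ((2 * m + 1 : ℕ) : ℤ) := Nat.prime_iff_prime_int.mp hp
  have hrr : Prime ((2 * l + 1 : ℕ) : ℤ) := Nat.prime_iff_prime_int.mp hr
  have hpr : IsCoprime ((2 * m + 1 : ℕ) : ℤ) ((2 * l + 1 : ℕ) : ℤ) :=
    Nat.isCoprime_iff_coprime.mpr ((Nat.coprime_primes hp hr).mpr (by omega))
  have p1 : Fh δ (u * F') (v * G') l = k2 * F'' * Ψ' := by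
    have h1 := psi_hom δ m l ψ hψ u v
    rw [f1, g1, f2, hΨ] at h1
    have e1 : u * (k1 * F') = k1 * (u * F') := by ring
    have e2 : v * (k1 * G') = k1 * (v * G') := by ring
    rw [e1, e2, (hom_FG δ _ _ k1 l).1] at h1
    apply mul_left_cancel₀ (pow_ne_zero (2 * l) hk10)
    rw [h1]
    ring
  have p2 : Fh δ (u * F'') (v * G'') m = k1 * F' * Ψ' := by
    have h1 := psi_hom δ l m ψ hψ.symm u v
    rw [mul_comm l m, f2, g2, f1, hΨ] at h1
    have e1 : u * (k2 * F'') = k2 * (u * F'') := by ring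
    have e2 : v * (k2 * G'') = k2 * (v * G'') := by ring
    rw [e1, e2, (hom_FG δ _ _ k2 m).1, hk12] at h1
    apply mul_left_cancel₀ (pow_ne_zero (2 * m) hk20)
    rw [h1]
    ring
  have huv : IsCoprime u v := c1.of_mul_left_left.of_mul_right_left
  obtain ⟨ap, hap, B, e2, f2'⟩ := cop_unif m hp δ u v huv (hcδ _)
  obtain ⟨ar, har, B', e3, f3'⟩ := cop_unif l hr δ u v huv (hcδ _)
  obtain ⟨cr, hcr, D, e5, f5'⟩ := cop_unif l hr δ (u * F') (v * G') c1 (hcδ _)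
  obtain ⟨cp, hcp, D', e6, f6'⟩ := cop_unif m hp δ (u * F'') (v * G'') c2 (hcδ _)
  rw [f1] at e2
  rw [f2] at e3
  rw [p1] at e5
  rw [p2] at e6
  have dap : (ap : ℤ) ∣ ((2 * m + 1 : ℕ) : ℤ) := by
    rcases hap with ⟨h, -⟩ | ⟨h, -⟩
    · rw [h]
    · rw [h, Nat.cast_one]; exact one_dvd _
  have dar : (ar : ℤ) ∣ ((2 * l + 1 : ℕ) : ℤ) := by
    rcases har with ⟨h, -⟩ | ⟨h, -⟩
    · rw [h]
    · rw [h, Nat.cast_one]; exact one_dvd _
  have hcpd : (cp : ℤ) ∣ ((2 * m + 1 : ℕ) : ℤ) := by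
    rcases hcp with ⟨h, -⟩ | ⟨h, -⟩
    · rw [h]
    · rw [h, Nat.cast_one]; exact one_dvd _
  have hcrd : (cr : ℤ) ∣ ((2 * l + 1 : ℕ) : ℤ) := by
    rcases hcr with ⟨h, -⟩ | ⟨h, -⟩
    · rw [h]
    · rw [h, Nat.cast_one]; exact one_dvd _
  have napz : (ap : ℤ) ≠ 0 := by
    rintro h
    rw [h] at dap
    exact hpp.ne_zero (zero_dvd_iff.mp dap)
  have narz : (ar : ℤ) ≠ 0 := by
    rintro h
    rw [h] at dar
    exact hrr.ne_zero (zero_dvd_iff.mp dar)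
  have ncrz : (cr : ℤ) ≠ 0 := by
    rintro h
    rw [h] at hcrd
    exact hrr.ne_zero (zero_dvd_iff.mp hcrd)
  have ncpz : (cp : ℤ) ≠ 0 := by
    rintro h
    rw [h] at hcpd
    exact hpp.ne_zero (zero_dvd_iff.mp hcpd)
  -- remove the powers of two
  obtain ⟨B2, hB2⟩ : (ap : ℤ) ∣ F' := (hk1p.of_isCoprime_of_dvd_left dap).dvd_of_dvd_mul_left
    (by rw [e2]; exact dvd_mul_right _ _)
  obtain ⟨B3, hB3⟩ : (ar : ℤ) ∣ F'' := (hk2r.of_isCoprime_of_dvd_left dar).dvd_of_dvd_mul_left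
    (by rw [e3]; exact dvd_mul_right _ _)
  obtain ⟨D3, hD3⟩ : (cr : ℤ) ∣ F'' * Ψ' :=
    (hk2r.of_isCoprime_of_dvd_left hcrd).dvd_of_dvd_mul_left
      (by rw [← mul_assoc, e5]; exact dvd_mul_right _ _)
  obtain ⟨D4, hD4⟩ : (cp : ℤ) ∣ F' * Ψ' :=
    (hk1p.of_isCoprime_of_dvd_left hcpd).dvd_of_dvd_mul_left
      (by rw [← mul_assoc, e6]; exact dvd_mul_right _ _)
  have f2 : IsCoprime ((ap : ℤ) * u) B2 := by
    have : B = k1 * B2 := by
      apply mul_left_cancel₀ napz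
      rw [← e2, hB2]
      ring
    rw [this] at f2'
    exact f2'.of_mul_right_right
  have f3 : IsCoprime ((ar : ℤ) * u) B3 := by
    have : B' = k2 * B3 := by
      apply mul_left_cancel₀ narz
      rw [← e3, hB3]
      ring
    rw [this] at f3'
    exact f3'.of_mul_right_right
  have f5 : IsCoprime ((cr : ℤ) * (u * F')) D3 := by
    have : D = k2 * D3 := by
      apply mul_left_cancel₀ ncrz
      rw [← e5, mul_assoc, hD3]
      ring
    rw [this] at f5'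
    exact f5'.of_mul_right_right
  have f6 : IsCoprime ((cp : ℤ) * (u * F'')) D4 := by
    have : D' = k1 * D4 := by
      apply mul_left_cancel₀ ncpz
      rw [← e6, mul_assoc, hD4]
      ring
    rw [this] at f6'
    exact f6'.of_mul_right_right
  obtain ⟨hp', g1, g2, g3, g4, g5, g6⟩ := cof ((2 * m + 1 : ℕ) : ℤ) (2 * m + 1) ap cp rfl hpp u
    F'' (u * F' * (F'' * Ψ')) hap hcp (by
      refine ⟨fun h => ?_, fun h => ?_⟩
      · have : u * F' * (F'' * Ψ') = (u * F'') * (F' * Ψ') := by ring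
        rw [this]
        exact h.mul_right _
      · have : u * F' * (F'' * Ψ') = (u * F'') * (F' * Ψ') := by ring
        rw [this] at h
        rcases hpp.dvd_or_dvd h with h | h
        · exact h
        · apply (FG_dvd_p m hm hp δ (u * F'') (v * G'') (hpδ _ hp)).1
          rw [p2, mul_assoc]
          exact h.mul_left _)
  obtain ⟨hr', j1, j2, j3, j4, j5, j6⟩ := cof ((2 * l + 1 : ℕ) : ℤ) (2 * l + 1) ar cr rfl hrr u
    F' (u * F' * (F'' * Ψ')) har hcr (by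
      refine ⟨fun h => h.mul_right _, fun h => ?_⟩
      rcases hrr.dvd_or_dvd h with h | h
      · exact h
      · apply (FG_dvd_p l hl hr δ (u * F') (v * G') (hpδ _ hr)).1
        rw [p1, mul_assoc]
        exact h.mul_left _)
  -- `F_p` and `F_r` are coprime
  have hFF : IsCoprime F' F'' := by
    rw [Int.isCoprime_iff_gcd_eq_one]
    have d1 : ((Int.gcd F' F'' : ℕ) : ℤ) ∣ F' := Int.gcd_dvd_left _ _
    have d2 : ((Int.gcd F' F'' : ℕ) : ℤ) ∣ F'' := Int.gcd_dvd_right _ _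
    have d3 : IsCoprime ((Int.gcd F' F'' : ℕ) : ℤ) D3 :=
      (f5.of_mul_left_right.of_mul_left_right).of_isCoprime_of_dvd_left d1
    have d4 : IsCoprime ((Int.gcd F' F'' : ℕ) : ℤ) D4 :=
      (f6.of_mul_left_right.of_mul_left_right).of_isCoprime_of_dvd_left d2
    have d5 : ((Int.gcd F' F'' : ℕ) : ℤ) ∣ cr :=
      d3.dvd_of_dvd_mul_right (by rw [← hD3]; exact d2.mul_right _)
    have d6 : ((Int.gcd F' F'' : ℕ) : ℤ) ∣ cp :=
      d4.dvd_of_dvd_mul_right (by rw [← hD4]; exact d1.mul_right _)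
    have d7 := hpr.isUnit_of_dvd' (d6.trans hcpd) (d5.trans hcrd)
    rw [Int.isUnit_iff_natAbs_eq, Int.natAbs_natCast] at d7
    exact d7
  have zhp : (hp' : ℤ) ≠ 0 := by exact_mod_cast g4
  have zhr : (hr' : ℤ) ≠ 0 := by exact_mod_cast j4
  have i1 : B3 * Ψ' = hr' * D3 := by
    apply mul_left_cancel₀ narz
    have : (cr : ℤ) = ar * hr' := by exact_mod_cast j1
    rw [this, hB3] at hD3
    linear_combination hD3
  have i2 : B2 * Ψ' = hp' * D4 := by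
    apply mul_left_cancel₀ napz
    have : (cp : ℤ) = ap * hp' := by exact_mod_cast g1
    rw [this, hB2] at hD4
    linear_combination hD4
  have i3 : IsCoprime (hr' : ℤ) B3 := by
    have := hFF.of_isCoprime_of_dvd_left j2
    rw [hB3] at this
    exact this.of_mul_right_right
  have i4 : IsCoprime (hp' : ℤ) B2 := by
    have := hFF.symm.of_isCoprime_of_dvd_left g2
    rw [hB2] at this
    exact this.of_mul_right_right
  have i5 : (hr' : ℤ) ∣ Ψ' := i3.dvd_of_dvd_mul_left (by rw [i1]; exact dvd_mul_right _ _)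
  have i6 : (hp' : ℤ) ∣ Ψ' := i4.dvd_of_dvd_mul_left (by rw [i2]; exact dvd_mul_right _ _)
  have i7 : IsCoprime (hp' : ℤ) (hr' : ℤ) :=
    (hpr.of_isCoprime_of_dvd_left g3).of_isCoprime_of_dvd_right j3
  obtain ⟨B4, hB4⟩ := i7.mul_dvd i6 i5
  have i8 : D3 = (hp' * B3) * B4 := by
    apply mul_left_cancel₀ zhr
    rw [← i1, hB4]
    ring
  have i9 : D4 = (hr' * B2) * B4 := by
    apply mul_left_cancel₀ zhp
    rw [← i2, hB4]
    ring
  refine ⟨ap, hp', ar, hr', g6, j6, B2, B3, B4, hB2, hB3, hB4, ?_, ?_⟩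
  · rw [← i8]
    have : ((ap : ℤ) * ar * u) * (hr' * B2) = (cr : ℤ) * (u * F') := by
      have h1 : (cr : ℤ) = ar * hr' := by exact_mod_cast j1
      rw [h1, hB2]
      ring
    rw [this]
    exact f5
  · rw [← i9]
    have : ((ap : ℤ) * ar * u) * (hp' * B3) = (cp : ℤ) * (u * F'') := by
      have h1 : (cp : ℤ) = ap * hp' := by exact_mod_cast g1
      rw [h1, hB3]
      ring
    rw [this]
    exact f6

end Pool.Agent.H573.AHB
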