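import Pool.Agent.H573.AHB.PvA

/-!
The equation `a^s = c^{pr} - b^{pr}`: the four factors.
-/

set_option autoImplicit false

namespace Pool.Agent.H573.AHB

open Polynomial

lemma hmg_scale (P : ℤ[X]) (D : ℕ) {R : Type*} [CommRing R] (w u v : R) :
    hmg P D (w * u) (w * v) = w ^ D * hmg P D u v := by
  unfold hmg
  rw [Finset.mul_sum]
  apply Finset.sum_congr rfl
  intro i hi
  rw [Finset.mem_range] at hi
  have h1 : w ^ D = w ^ (D - i) * w ^ i := by
    rw [← pow_add]
    congr 1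
    omega
  rw [h1, mul_pow, mul_pow]
  ring

/-- the four factors of `c^{pr} - b^{pr}` -/
theorem diff_factors (m l : ℕ) (h : PR m l) (ψ : ℤ[X]) (hψ : IsPsi 1 m l ψ) (s : ℕ)
    (hsodd : Odd s) (hs0 : s ≠ 0) (a b c : ℤ) (hco : IsCoprime c b)
    (hU0 : c - b ≠ 0) (hV0 : c + b ≠ 0)
    (heq : a ^ s + b ^ ((2 * m + 1) * (2 * l + 1)) = c ^ ((2 * m + 1) * (2 * l + 1))) :
    ∃ ap hp ar hr : ℕ,
      ((ap = 2 * m + 1 ∧ hp = 1 ∧ ((2 * m + 1 : ℕ) : ℤ) ∣ a) ∨
        (ap = 1 ∧ hp = 2 * m + 1 ∧ ((2 * m + 1 : ℕ) : ℤ) ∣ a) ∨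
        (ap = 1 ∧ hp = 1 ∧ ¬ ((2 * m + 1 : ℕ) : ℤ) ∣ a)) ∧
      ((ar = 2 * l + 1 ∧ hr = 1 ∧ ((2 * l + 1 : ℕ) : ℤ) ∣ a) ∨
        (ar = 1 ∧ hr = 2 * l + 1 ∧ ((2 * l + 1 : ℕ) : ℤ) ∣ a) ∨
        (ar = 1 ∧ hr = 1 ∧ ¬ ((2 * l + 1 : ℕ) : ℤ) ∣ a)) ∧
      ∃ w1 w2 w3 w4 : ℤ, (ap : ℤ) * ar * (c - b) = w1 ^ s ∧
        (hr : ℤ) * Fh 1 (c - b) (c + b) m = 4 ^ m * ap * w2 ^ s ∧
        (hp : ℤ) * Fh 1 (c - b) (c + b) l = 4 ^ l * ar * w3 ^ s ∧
        hmg ψ (4 * (m * l)) (c - b) (c + b) = 4 ^ (2 * (m * l)) * (hp * hr) * w4 ^ s := by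
  have hPR := h
  obtain ⟨hm, hl, hp, hr, hne⟩ := h
  have hrr : Prime ((2 * l + 1 : ℕ) : ℤ) := Nat.prime_iff_prime_int.mp hr
  have hpp : Prime ((2 * m + 1 : ℕ) : ℤ) := Nat.prime_iff_prime_int.mp hp
  have hdx : ∀ p : ℤ, Prime p → (p ∣ a ^ s ↔ p ∣ a) := fun p hp =>
    ⟨fun h => hp.dvd_of_dvd_pow h, fun h => dvd_pow h hs0⟩
  have he : (2 * m + 1) * (2 * l + 1) = 2 * (2 * (m * l) + m + l) + 1 := by ring
  set K := 2 * (m * l) + m + l with hK
  have has : a ^ s = c ^ (2 * K + 1) - b ^ (2 * K + 1) := by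
    rw [← he]
    linarith
  rcases Int.even_or_odd a with hae | hao
  · -- `a` even: `b, c` odd
    have hbc : Even (c ^ (2 * K + 1) - b ^ (2 * K + 1)) := by
      rw [← has]
      exact hae.pow_of_ne_zero hs0
    have hbo : Odd b := by
      by_contra hcon
      rw [Int.not_odd_iff_even] at hcon
      have h1 : Even (b ^ (2 * K + 1)) := hcon.pow_of_ne_zero (by omega)
      have h2 : Even (c ^ (2 * K + 1)) := by
        have := hbc.add h1
        rwa [sub_add_cancel] at this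
      have h3 : Even c := by
        by_contra hc
        rw [Int.not_even_iff_odd] at hc
        exact (Int.not_even_iff_odd.mpr hc.pow) h2
      have := hco.isUnit_of_dvd' h3.two_dvd hcon.two_dvd
      rw [Int.isUnit_iff] at this
      omega
    have hcoo : Odd c := by
      by_contra hcon
      rw [Int.not_odd_iff_even] at hcon
      have h1 : Even (c ^ (2 * K + 1)) := hcon.pow_of_ne_zero (by omega)
      have h2 : Odd (c ^ (2 * K + 1) - b ^ (2 * K + 1)) := h1.sub_odd hbo.pow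
      exact (Int.not_even_iff_odd.mpr h2) hbc
    obtain ⟨u, hu⟩ := hcoo.sub_odd hbo
    obtain ⟨v, hv⟩ := hcoo.add_odd hbo
    have hc : c = u + v := by linarith
    have hb : b = v - u := by linarith
    have e1 := pow_FG (δ := (1 : ℤ)) (ω := 1) (by norm_num) u v K
    have e2 := pow_FG' (δ := (1 : ℤ)) (ω := 1) (by norm_num) u v K
    have e3 : (u - 1 * v) ^ (2 * K + 1) = - b ^ (2 * K + 1) := by
      have : u - 1 * v = -b := by rw [hb]; ring
      rw [this, Odd.neg_pow ⟨K, rfl⟩]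
    rw [e3] at e2
    have e4 : u + 1 * v = c := by rw [hc]; ring
    rw [e4] at e1
    have hX : a ^ s = 2 * (u * Fh 1 u v K) := by rw [has]; linarith
    have hcoP : IsCoprime (c ^ (2 * K + 1)) (b ^ (2 * K + 1)) := IsCoprime.pow hco
    have hXY : IsCoprime (u * Fh 1 u v K) (v * Gh 1 u v K) := by
      obtain ⟨A, B, hAB⟩ := hcoP
      refine ⟨A - B, A + B, ?_⟩
      have f1 : c ^ (2 * K + 1) = u * Fh 1 u v K + v * Gh 1 u v K := by linarith
      have f2 : b ^ (2 * K + 1) = v * Gh 1 u v K - u * Fh 1 u v K := by linarith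
      rw [f1, f2] at hAB
      linarith
    have hp2 : ∀ k : ℕ, (2 * k + 1).Prime → 1 ≤ k → (((2 * k + 1 : ℕ) : ℤ) ∣ u * Fh 1 u v K ↔
        ((2 * k + 1 : ℕ) : ℤ) ∣ a) := by
      intro k hk hk1
      have hkk : Prime ((2 * k + 1 : ℕ) : ℤ) := Nat.prime_iff_prime_int.mp hk
      rw [← hdx _ hkk, hX]
      constructor
      · intro h
        exact h.mul_left 2
      · intro h
        rcases hkk.dvd_or_dvd h with h | h
        · exfalso
          have h3 : ((2 * k + 1 : ℕ) : ℤ) ∣ ((2 : ℕ) : ℤ) := h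
          have := Nat.le_of_dvd two_pos (Int.natCast_dvd_natCast.mp h3)
          omega
        · exact h
    have hpar : Odd (u ^ 2 + 1 * v ^ 2) := by
      have h1 : u ^ 2 + 1 * v ^ 2 = (u + v) ^ 2 - 2 * (u * v) := by ring
      rw [h1, ← hc]
      exact hcoo.pow.sub_even (even_two_mul _)
    have o1 := (FG_odd 1 u v hpar m).1
    have o2 := (FG_odd 1 u v hpar l).1
    have o3 : Odd (hmg ψ (4 * (m * l)) u v) := by
      have h1 := psi_hom 1 m l ψ hψ u v
      have h2 : Odd ((u * Fh 1 u v m) ^ 2 + 1 * (v * Gh 1 u v m) ^ 2) := by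
        have g1 := (FG_odd 1 u v hpar m).2
        have g2 : Odd (u + v) := by rw [← hc]; exact hcoo
        rcases Int.even_or_odd u with h | h
        · have hv' : Odd v := by
            by_contra hcon
            rw [Int.not_odd_iff_even] at hcon
            exact (Int.not_even_iff_odd.mpr g2) (h.add hcon)
          apply Even.add_odd
          · exact (h.mul_right _).pow_of_ne_zero two_ne_zero
          · rw [one_mul]; exact (hv'.mul g1).pow
        · have hv' : Even v := by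
            by_contra hcon
            rw [Int.not_even_iff_odd] at hcon
            exact (Int.not_even_iff_odd.mpr g2) (h.add_odd hcon)
          apply Odd.add_even
          · exact (h.mul o1).pow
          · rw [one_mul]; exact (hv'.mul_right _).pow_of_ne_zero two_ne_zero
      have h3 := (FG_odd 1 _ _ h2 l).1
      rw [h1] at h3
      exact (Int.odd_mul.mp h3).2
    have hodd2 : ∀ w : ℤ, Odd w → IsCoprime (2 : ℤ) w := by
      rintro w ⟨k, hk⟩
      exact ⟨-k, 1, by rw [hk]; ring⟩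
    have hprod := psi_prod 1 m l ψ hψ u v
    rw [← hK] at hprod
    obtain ⟨ap, hp', ar, hr', g1, g2, B2, B3, B4, e2, e3, e4, f1, f2⟩ :=
      psi_split_all 1 rfl m l hPR ψ hψ u v hXY
    rw [← hK, hp2 m hp hm] at g1
    rw [← hK, hp2 l hr hl] at g2
    have ohp : Odd (hp' : ℤ) := by
      rcases g1 with ⟨-, r2, -⟩ | ⟨-, r2, -⟩ | ⟨-, r2, -⟩ <;> rw [r2]
      · exact odd_one
      · exact_mod_cast (⟨m, rfl⟩ : Odd (2 * m + 1))
      · exact odd_one
    have ohr : Odd (hr' : ℤ) := by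
      rcases g2 with ⟨-, r2, -⟩ | ⟨-, r2, -⟩ | ⟨-, r2, -⟩ <;> rw [r2]
      · exact odd_one
      · exact_mod_cast (⟨l, rfl⟩ : Odd (2 * l + 1))
      · exact odd_one
    have oB2 : Odd B2 := by
      rw [e2, Int.odd_mul] at o1
      exact o1.2
    have oB3 : Odd B3 := by
      rw [e3, Int.odd_mul] at o2
      exact o2.2
    have oB4 : Odd B4 := by
      rw [e4, Int.odd_mul] at o3
      exact o3.2
    obtain ⟨w1, w2, w3, w4, b1, b2, b3, b4⟩ := four_factors (x := a) hsodd
      (a := 2 * ((ap : ℤ) * ar * u)) (b := hr' * B2) (c := hp' * B3) (d := B4)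
      ((hodd2 _ (ohr.mul oB2)).mul_left (f2.of_mul_left_left.of_mul_right_left))
      ((hodd2 _ (ohp.mul oB3)).mul_left (f1.of_mul_left_left.of_mul_right_left))
      ((hodd2 _ oB4).mul_left (f1.of_mul_left_left.of_mul_right_right))
      (f1.of_mul_left_right.of_mul_right_left)
      (f1.of_mul_left_right.of_mul_right_right) (f2.of_mul_left_right.of_mul_right_right) (by
        rw [hX, hprod, e2, e3, e4]
        ring)
    have t1 : (2 : ℤ) ^ (2 * m) = 4 ^ m := by rw [pow_mul]; norm_num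
    have t2 : (2 : ℤ) ^ (2 * l) = 4 ^ l := by rw [pow_mul]; norm_num
    have t3 : (2 : ℤ) ^ (4 * (m * l)) = 4 ^ (2 * (m * l)) := by
      rw [show 4 * (m * l) = 2 * (2 * (m * l)) by ring, pow_mul]
      norm_num
    refine ⟨ap, hp', ar, hr', g1, g2, w1, w2, w3, w4, ?_, ?_, ?_, ?_⟩
    · rw [hu, ← b1]
      ring
    · rw [hu, hv, ← two_mul, ← two_mul, (hom_FG 1 u v 2 m).1, t1, e2, ← b2]
      ring
    · rw [hu, hv, ← two_mul, ← two_mul, (hom_FG 1 u v 2 l).1, t2, e3, ← b3]
      ring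
    · rw [hu, hv, ← two_mul, ← two_mul, hmg_scale, t3, e4, ← b4]
      ring
  · -- `a` odd
    have haso : Odd (c ^ (2 * K + 1) - b ^ (2 * K + 1)) := by
      rw [← has]
      exact hao.pow
    have hUo : Odd (c - b) := by
      obtain ⟨D, hD⟩ := sub_dvd_pow_sub_pow c b (2 * K + 1)
      rw [hD, Int.odd_mul] at haso
      exact haso.1
    obtain ⟨F', G', d1, d2, d3, d4⟩ := half_FG c b hU0 hV0 m
    obtain ⟨F'', G'', d5, d6, d7, d8⟩ := half_FG c b hU0 hV0 l
    obtain ⟨DK, EK, d9, d10, d11, d12⟩ := half_FG c b hU0 hV0 K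
    have hpo : ∀ k : ℕ, Odd (c ^ (2 * k + 1) - b ^ (2 * k + 1)) := by
      intro k
      rcases Int.even_or_odd c with h | h
      · have hb : Odd b := by
          by_contra hcon
          rw [Int.not_odd_iff_even] at hcon
          exact (Int.not_even_iff_odd.mpr hUo) (h.sub hcon)
        exact (h.pow_of_ne_zero (by omega)).sub_odd hb.pow
      · have hb : Even b := by
          by_contra hcon
          rw [Int.not_even_iff_odd] at hcon
          exact (Int.not_even_iff_odd.mpr hUo) (h.sub_odd hcon)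
        exact h.pow.sub_even (hb.pow_of_ne_zero (by omega))
    have oF' : Odd F' := by
      have := hpo m
      rw [d1, Int.odd_mul] at this
      exact this.2
    have oF'' : Odd F'' := by
      have := hpo l
      rw [d5, Int.odd_mul] at this
      exact this.2
    have hprod := psi_prod 1 m l ψ hψ (c - b) (c + b)
    rw [← hK, d11, d3, d7] at hprod
    have h40 : (4 : ℤ) ^ (m + l) ≠ 0 := pow_ne_zero _ (by norm_num)
    have hprod2 : (4 : ℤ) ^ (2 * (m * l)) * DK = F' * F'' * hmg ψ (4 * (m * l)) (c - b) (c + b) := by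
      apply mul_left_cancel₀ h40
      apply mul_left_cancel₀ hU0
      have e1 : (4 : ℤ) ^ K = 4 ^ (m + l) * 4 ^ (2 * (m * l)) := by
        rw [← pow_add]
        congr 1
        rw [hK]
        ring
      rw [e1] at hprod
      rw [pow_add] at hprod ⊢
      linear_combination hprod
    have h4c : ∀ w : ℤ, Odd w → IsCoprime ((4 : ℤ) ^ (2 * (m * l))) w := by
      rintro w ⟨k, hk⟩
      apply IsCoprime.pow_left
      have h2 : IsCoprime (2 : ℤ) w := ⟨-k, 1, by rw [hk]; ring⟩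
      have : (4 : ℤ) = 2 * 2 := by norm_num
      rw [this]
      exact h2.mul_left h2
    have hdv : (4 : ℤ) ^ (2 * (m * l)) ∣ hmg ψ (4 * (m * l)) (c - b) (c + b) := by
      apply (h4c (F' * F'') (oF'.mul oF'')).dvd_of_dvd_mul_left
      rw [← hprod2]
      exact dvd_mul_right _ _
    obtain ⟨Ψ', hΨ'⟩ := hdv
    have hDK : DK = F' * F'' * Ψ' := by
      apply mul_left_cancel₀ (pow_ne_zero (2 * (m * l)) (by norm_num : (4 : ℤ) ≠ 0))
      rw [hprod2, hΨ']
      ring
    have hall : a ^ s = (c - b) * F' * (F'' * Ψ') := by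
      rw [has, d9, hDK]
      ring
    have e44 : ((4 : ℤ) ^ m) ^ (2 * l) = 4 ^ (2 * (m * l)) := by
      rw [← pow_mul]
      congr 1
      ring
    have e44' : ((4 : ℤ) ^ l) ^ (2 * m) = 4 ^ (2 * (m * l)) := by
      rw [← pow_mul]
      congr 1
      ring
    have hpk : ∀ k j : ℕ, IsCoprime ((2 * k + 1 : ℕ) : ℤ) ((4 : ℤ) ^ j) := by
      intro k j
      apply IsCoprime.pow_right
      have h2 : IsCoprime ((2 * k + 1 : ℕ) : ℤ) 2 := ⟨1, -k, by push_cast; ring⟩
      have : (4 : ℤ) = 2 * 2 := by norm_num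
      rw [this]
      exact h2.mul_right h2
    have hcc : ∀ k : ℕ, IsCoprime (c ^ (2 * k + 1) - b ^ (2 * k + 1))
        (c ^ (2 * k + 1) + b ^ (2 * k + 1)) := fun k =>
      cop_diff_sum (IsCoprime.pow hco) (hpo k)
    have c1 : IsCoprime ((c - b) * F') ((c + b) * G') := by
      rw [← d1, ← d2]
      exact hcc m
    have c2 : IsCoprime ((c - b) * F'') ((c + b) * G'') := by
      rw [← d5, ← d6]
      exact hcc l
    obtain ⟨ap, hp', ar, hr', g1, g2, B2, B3, B4, e2, e3, e4, f1, f2⟩ :=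
      psi_splitK_all 1 rfl m l hPR ψ hψ (c - b) (c + b) (4 ^ m) (4 ^ l) F' F'' G' G'' Ψ'
        (hpk m m) (hpk l l) (by rw [e44, e44']) (pow_ne_zero _ (by norm_num))
        (pow_ne_zero _ (by norm_num)) d3 d7 d4 d8 (by rw [e44]; exact hΨ') c1 c2
    rw [← hall, hdx _ hpp] at g1
    rw [← hall, hdx _ hrr] at g2
    obtain ⟨w1, w2, w3, w4, b1, b2, b3, b4⟩ := four_factors (x := a) hsodd
      (a := (ap : ℤ) * ar * (c - b)) (b := hr' * B2) (c := hp' * B3) (d := B4)
      (f2.of_mul_left_left.of_mul_right_left) (f1.of_mul_left_left.of_mul_right_left)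
      (f1.of_mul_left_left.of_mul_right_right) (f1.of_mul_left_right.of_mul_right_left)
      (f1.of_mul_left_right.of_mul_right_right) (f2.of_mul_left_right.of_mul_right_right) (by
        rw [hall, e2, e3, e4]
        ring)
    refine ⟨ap, hp', ar, hr', g1, g2, w1, w2, w3, w4, b1, ?_, ?_, ?_⟩
    · rw [d3, e2, ← b2]
      ring
    · rw [d7, e3, ← b3]
      ring
    · rw [hΨ', e4, ← b4]
      ring

end Pool.Agent.H573.AHB
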