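import Pool.Agent.H573.AHB.PvB

/-!
The equation `a^s = c^{pr} - b^{pr}`: the counts, and the local theorem.
-/

set_option autoImplicit false

namespace Pool.Agent.H573.AHB

open Polynomial

/-- a configuration -/
def Cfg4 (m l : ℕ) (ψ : ℤ[X]) (ap hp ar hr : ℕ) (zU : Prop) (q n : ℕ) : Prop :=
  BadPG 1 m l ψ (ap * ar) (4 ^ m * ap) hr (4 ^ l * ar) hp (4 ^ (2 * (m * l)) * (hp * hr)) zU 1 q n

/-- all configurations with `p ∣ a` or `r ∣ a` -/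
def BadAll4 (m l : ℕ) (ψ : ℤ[X]) (q n : ℕ) : Prop :=
  (Cfg4 m l ψ (2 * m + 1) 1 (2 * l + 1) 1 True q n ∨
    Cfg4 m l ψ (2 * m + 1) 1 1 (2 * l + 1) False q n ∨
    Cfg4 m l ψ (2 * m + 1) 1 1 1 False q n) ∨
  (Cfg4 m l ψ 1 (2 * m + 1) (2 * l + 1) 1 False q n ∨
    Cfg4 m l ψ 1 (2 * m + 1) 1 (2 * l + 1) False q n ∨
    Cfg4 m l ψ 1 (2 * m + 1) 1 1 False q n) ∨
  (Cfg4 m l ψ 1 1 (2 * l + 1) 1 False q n ∨
    Cfg4 m l ψ 1 1 1 (2 * l + 1) False q n)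

lemma Cfg4.swap {m l : ℕ} {ψ : ℤ[X]} {ap hp ar hr : ℕ} {zU : Prop}
    {q n : ℕ} (h : Cfg4 m l ψ ap hp ar hr zU q n) : Cfg4 l m ψ ar hr ap hp zU q n := by
  have h' := BadPG.swap h
  unfold Cfg4
  rw [mul_comm ar ap, mul_comm hr hp, mul_comm l m]
  exact h'

lemma par_ok4 (N k x : ℕ) (hN : 2 ≤ N) (hx : x ∣ 4 ^ k * N) : 1 ≤ x ∧
    Real.log x ≤ Real.log ((4 ^ k * N : ℕ) : ℝ) ∧
    ∀ q : ℕ, q.Prime → N < q → (x : ZMod q) ≠ 0 := by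
  have hT : 1 ≤ 4 ^ k * N := Nat.mul_pos (by positivity) (by omega)
  have hx1 : 1 ≤ x := Nat.pos_of_dvd_of_pos hx hT
  have hxN : x ≤ 4 ^ k * N := Nat.le_of_dvd hT hx
  refine ⟨hx1, ?_, ?_⟩
  · exact Real.log_le_log (by exact_mod_cast hx1) (by exact_mod_cast hxN)
  · intro q hq hlt
    apply natCast_zmod_ne (N := 4 ^ k * N) (fun h => ?_) hx
    rcases (hq.dvd_mul).mp h with h | h
    · have h1 : q ∣ 2 ^ 2 := by
        have := hq.dvd_of_dvd_pow h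
        norm_num
        exact this
      have := Nat.le_of_dvd (by norm_num) (hq.dvd_of_dvd_pow h1)
      omega
    · have := Nat.le_of_dvd (by omega) h
      omega

/-- the bound of the counts -/
noncomputable def Kp4 (N k : ℕ) : ℝ :=
  3000000 * ((N : ℝ) * (Real.log ((4 ^ k * N : ℕ) : ℝ) + 1)) ^ 2

theorem uc4_one (m l : ℕ) (hm : 1 ≤ m) (hl : 1 ≤ l)
    (hp : (2 * m + 1).Prime) (hr : (2 * l + 1).Prime) (hne : m ≠ l)
    (ψ : ℤ[X]) (hψ : IsPsi 1 m l ψ)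
    (a e1 e2 h1 h2 g : ℕ) (zU : Prop) (N k : ℕ) (hN : N = (2 * m + 1) * (2 * l + 1))
    (da : a ∣ 4 ^ k * N) (de1 : e1 ∣ 4 ^ k * N) (de2 : e2 ∣ 4 ^ k * N) (dh1 : h1 ∣ 4 ^ k * N)
    (dh2 : h2 ∣ 4 ^ k * N) (dg : g ∣ 4 ^ k * N)
    (hpe : (2 * m + 1) ∣ e1) (hpe2 : ¬ (2 * m + 1) ∣ e2) (hph : ¬ (2 * m + 1) ∣ h2)
    (N1 : zU ∨ ((e2 * (2 * m + 1)) ^ (2 * l) * g ≠ e1 ^ (2 * l) ∨
      (h2 * (2 * l + 1)) ^ (2 * m) * g ≠ h1 ^ (2 * m))) :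
    UCount (BadPG 1 m l ψ a e1 e2 h1 h2 g zU 1) (Kp4 N k) N := by
  have hN1 : 2 ≤ N := by
    rw [hN]
    have : 3 * 3 ≤ (2 * m + 1) * (2 * l + 1) := Nat.mul_le_mul (by omega) (by omega)
    omega
  obtain ⟨a1, a2, a3⟩ := par_ok4 N k a hN1 da
  obtain ⟨b1, b2, b3⟩ := par_ok4 N k e1 hN1 de1
  obtain ⟨c1, c2, c3⟩ := par_ok4 N k e2 hN1 de2
  obtain ⟨d1, d2, d3⟩ := par_ok4 N k h1 hN1 dh1
  obtain ⟨f1, f2, f3⟩ := par_ok4 N k h2 hN1 dh2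
  obtain ⟨g1, g2, g3⟩ := par_ok4 N k g hN1 dg
  have hm' : 2 * m + 1 ≤ N := Nat.le_of_dvd (by omega) (by rw [hN]; exact dvd_mul_right _ _)
  have hl' : 2 * l + 1 ≤ N := Nat.le_of_dvd (by omega) (by rw [hN]; exact dvd_mul_left _ _)
  have h := ucount_one 1 rfl m l hm hl hp hr hne ψ hψ a e1 e2 h1 h2 g zU a1 b1 c1 d1 f1 g1
    _ a2 b2 c2 d2 f2 g2 N hm' hl'
    (fun q hq hlt => ⟨a3 q hq hlt, b3 q hq hlt, c3 q hq hlt, d3 q hq hlt, f3 q hq hlt,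
      g3 q hq hlt⟩) hpe hpe2 hph N1
  rw [← hN] at h
  exact h

theorem uc4_two (m l : ℕ) (hm : 1 ≤ m) (hl : 1 ≤ l)
    (hp : (2 * m + 1).Prime) (hr : (2 * l + 1).Prime) (hne : m ≠ l)
    (ψ : ℤ[X]) (hψ : IsPsi 1 m l ψ)
    (a e1 e2 h1 h2 g : ℕ) (zU : Prop) (N k : ℕ) (hN : N = (2 * m + 1) * (2 * l + 1))
    (da : a ∣ 4 ^ k * N) (de1 : e1 ∣ 4 ^ k * N) (de2 : e2 ∣ 4 ^ k * N) (dh1 : h1 ∣ 4 ^ k * N)
    (dh2 : h2 ∣ 4 ^ k * N) (dg : g ∣ 4 ^ k * N)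
    (hph2 : (2 * m + 1) ∣ h2) (hph1 : ¬ (2 * m + 1) ∣ h1) (hpa : ¬ (2 * m + 1) ∣ a)
    (N1 : zU ∨ ((e2 * (2 * m + 1)) ^ (2 * l) * g ≠ e1 ^ (2 * l) ∨
      (h2 * (2 * l + 1)) ^ (2 * m) * g ≠ h1 ^ (2 * m))) :
    UCount (BadPG 1 m l ψ a e1 e2 h1 h2 g zU 1) (Kp4 N k) N := by
  have hN1 : 2 ≤ N := by
    rw [hN]
    have : 3 * 3 ≤ (2 * m + 1) * (2 * l + 1) := Nat.mul_le_mul (by omega) (by omega)
    omega
  obtain ⟨a1, a2, a3⟩ := par_ok4 N k a hN1 da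
  obtain ⟨b1, b2, b3⟩ := par_ok4 N k e1 hN1 de1
  obtain ⟨c1, c2, c3⟩ := par_ok4 N k e2 hN1 de2
  obtain ⟨d1, d2, d3⟩ := par_ok4 N k h1 hN1 dh1
  obtain ⟨f1, f2, f3⟩ := par_ok4 N k h2 hN1 dh2
  obtain ⟨g1, g2, g3⟩ := par_ok4 N k g hN1 dg
  have hm' : 2 * m + 1 ≤ N := Nat.le_of_dvd (by omega) (by rw [hN]; exact dvd_mul_right _ _)
  have hl' : 2 * l + 1 ≤ N := Nat.le_of_dvd (by omega) (by rw [hN]; exact dvd_mul_left _ _)
  have h := ucount_two 1 rfl m l hm hl hp hr hne ψ hψ a e1 e2 h1 h2 g zU a1 b1 c1 d1 f1 g1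
    _ a2 b2 c2 d2 f2 g2 N hm' hl'
    (fun q hq hlt => ⟨a3 q hq hlt, b3 q hq hlt, c3 q hq hlt, d3 q hq hlt, f3 q hq hlt,
      g3 q hq hlt⟩) hph2 hph1 hpa N1
  rw [← hN] at h
  exact h

lemma four_dvd (k j N x : ℕ) (hj : j ≤ k) (hx : x ∣ N) : 4 ^ j * x ∣ 4 ^ k * N :=
  Nat.mul_dvd_mul (pow_dvd_pow 4 hj) hx

lemma ne_of_two (A B g C : ℕ) (hA : 2 ≤ A) (hg : 1 ≤ g) (hC : 1 ≤ C) (hB : B = C) :
    A * (C * g) ≠ B := by
  rw [hB]
  intro h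
  have h1 : 2 * (C * 1) ≤ A * (C * g) := Nat.mul_le_mul hA (Nat.mul_le_mul_left _ hg)
  omega

/-- the configurations with `a_p = p` -/
lemma uc4_A (m l : ℕ) (hm : 1 ≤ m) (hl : 1 ≤ l)
    (hp : (2 * m + 1).Prime) (hr : (2 * l + 1).Prime) (hne : m ≠ l)
    (ψ : ℤ[X]) (hψ : IsPsi 1 m l ψ) (N k : ℕ) (hN : N = (2 * m + 1) * (2 * l + 1))
    (hkm : m ≤ k) (hkl : l ≤ k) (hkk : 2 * (m * l) ≤ k) (ar hr' : ℕ) (zU : Prop)
    (h : (ar = 2 * l + 1 ∧ hr' = 1 ∧ zU) ∨ (ar = 1 ∧ (hr' = 1 ∨ hr' = 2 * l + 1))) :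
    UCount (Cfg4 m l ψ (2 * m + 1) 1 ar hr' zU) (Kp4 N k) N := by
  have dP : (2 * m + 1) ∣ N := by rw [hN]; exact dvd_mul_right _ _
  have dR : (2 * l + 1) ∣ N := by rw [hN]; exact dvd_mul_left _ _
  have np1 : ¬ (2 * m + 1) ∣ 1 := fun h => by
    have := Nat.le_of_dvd one_pos h
    omega
  have npr : ¬ (2 * m + 1) ∣ 2 * l + 1 := by
    intro h
    have := (Nat.prime_dvd_prime_iff_eq hp hr).mp h
    omega
  have e44 : (4 ^ l) ^ (2 * m) = 4 ^ (2 * (m * l)) := by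
    rw [← pow_mul]
    congr 1
    ring
  have z : ∀ x, x ∣ N → x ∣ 4 ^ k * N := fun x hx => hx.mul_left _
  have hdar : (2 * m + 1) * ar ∣ N ∧ ar ∣ N := by
    rcases h with ⟨h1, -, -⟩ | ⟨h1, -⟩
    · rw [h1, hN]; exact ⟨dvd_rfl, dvd_mul_left _ _⟩
    · rw [h1, mul_one]; exact ⟨dP, one_dvd _⟩
  have hdhr : hr' ∣ N ∧ ¬ (2 * m + 1) ∣ hr' ∧ 1 ≤ hr' := by
    rcases h with ⟨-, h1, -⟩ | ⟨-, h1 | h1⟩
    · rw [h1]; exact ⟨one_dvd _, np1, le_rfl⟩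
    · rw [h1]; exact ⟨one_dvd _, np1, le_rfl⟩
    · rw [h1]; exact ⟨dR, npr, by omega⟩
  refine uc4_one m l hm hl hp hr hne ψ hψ _ _ _ _ _ _ zU N k hN (z _ hdar.1)
    (four_dvd k m N _ hkm dP) (z _ hdhr.1) (four_dvd k l N _ hkl hdar.2) (z _ (one_dvd _))
    (four_dvd k _ N _ hkk (by rw [one_mul]; exact hdhr.1)) (dvd_mul_left _ _) hdhr.2.1 np1 ?_
  rcases h with ⟨-, -, h1⟩ | ⟨h1, -⟩
  · exact Or.inl h1
  · right; right
    rw [h1, one_mul, mul_one, e44]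
    refine ne_of_two _ _ _ _ ?_ (by rw [one_mul]; exact hdhr.2.2) (Nat.one_le_pow _ _ (by norm_num))
      rfl
    exact Nat.one_lt_pow (by omega) (by omega)

/-- the configurations with `h_p = p` -/
lemma uc4_B (m l : ℕ) (hm : 1 ≤ m) (hl : 1 ≤ l)
    (hp : (2 * m + 1).Prime) (hr : (2 * l + 1).Prime) (hne : m ≠ l)
    (ψ : ℤ[X]) (hψ : IsPsi 1 m l ψ) (N k : ℕ) (hN : N = (2 * m + 1) * (2 * l + 1))
    (hkm : m ≤ k) (hkl : l ≤ k) (hkk : 2 * (m * l) ≤ k) (ar hr' : ℕ)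
    (h : (ar = 2 * l + 1 ∧ hr' = 1) ∨ (ar = 1 ∧ (hr' = 1 ∨ hr' = 2 * l + 1))) :
    UCount (Cfg4 m l ψ 1 (2 * m + 1) ar hr' False) (Kp4 N k) N := by
  have dP : (2 * m + 1) ∣ N := by rw [hN]; exact dvd_mul_right _ _
  have dR : (2 * l + 1) ∣ N := by rw [hN]; exact dvd_mul_left _ _
  have np1 : ¬ (2 * m + 1) ∣ 1 := fun h => by
    have := Nat.le_of_dvd one_pos h
    omega
  have npr : ¬ (2 * m + 1) ∣ 2 * l + 1 := by
    intro h
    have := (Nat.prime_dvd_prime_iff_eq hp hr).mp h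
    omega
  have e44 : (4 ^ m) ^ (2 * l) = 4 ^ (2 * (m * l)) := by
    rw [← pow_mul]
    congr 1
    ring
  have z : ∀ x, x ∣ N → x ∣ 4 ^ k * N := fun x hx => hx.mul_left _
  have hdar : ar ∣ N ∧ ¬ (2 * m + 1) ∣ ar := by
    rcases h with ⟨h1, -⟩ | ⟨h1, -⟩
    · rw [h1, hN]; exact ⟨dvd_mul_left _ _, npr⟩
    · rw [h1]; exact ⟨one_dvd _, np1⟩
  have hdhr : (2 * m + 1) * hr' ∣ N ∧ hr' ∣ N ∧ 1 ≤ hr' := by
    rcases h with ⟨-, h1⟩ | ⟨-, h1 | h1⟩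
    · rw [h1, mul_one]; exact ⟨dP, one_dvd _, le_rfl⟩
    · rw [h1, mul_one]; exact ⟨dP, one_dvd _, le_rfl⟩
    · rw [h1, ← hN]; exact ⟨dvd_rfl, dR, by omega⟩
  refine uc4_two m l hm hl hp hr hne ψ hψ _ _ _ _ _ _ False N k hN
    (z _ (by rw [one_mul]; exact hdar.1))
    (four_dvd k m N _ hkm (one_dvd _)) (z _ hdhr.2.1) (four_dvd k l N _ hkl hdar.1) (z _ dP)
    (four_dvd k _ N _ hkk hdhr.1) dvd_rfl ?_ (by rw [one_mul]; exact hdar.2) ?_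
  · intro h
    rcases (Nat.Prime.dvd_mul hp).mp h with h | h
    · exact not_dvd_four_pow m l hm hp h
    · exact hdar.2 h
  · right; left
    rw [mul_one, e44]
    refine ne_of_two _ _ _ _ ?_ (Nat.mul_pos (by omega) hdhr.2.2)
      (Nat.one_le_pow _ _ (by norm_num)) rfl
    refine Nat.one_lt_pow (by omega) ?_
    have := Nat.mul_le_mul hdhr.2.2 (show 2 ≤ 2 * m + 1 by omega)
    omega

theorem ucount_all4 (m l : ℕ) (h : PR m l)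
    (ψ : ℤ[X]) (hψ : IsPsi 1 m l ψ) (N k : ℕ) (hN : N = (2 * m + 1) * (2 * l + 1))
    (hkm : m ≤ k) (hkl : l ≤ k) (hkk : 2 * (m * l) ≤ k) :
    UCount (BadAll4 m l ψ) (8 * Kp4 N k) N := by
  obtain ⟨hm, hl, hp, hr, hne⟩ := h
  have hN' : N = (2 * l + 1) * (2 * m + 1) := by rw [hN, mul_comm]
  have hkk' : 2 * (l * m) ≤ k := by rw [mul_comm l m]; exact hkk
  have A1 := uc4_A m l hm hl hp hr hne ψ hψ N k hN hkm hkl hkk (2 * l + 1) 1 True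
    (Or.inl ⟨rfl, rfl, trivial⟩)
  have A2 := uc4_A m l hm hl hp hr hne ψ hψ N k hN hkm hkl hkk 1 (2 * l + 1) False
    (Or.inr ⟨rfl, Or.inr rfl⟩)
  have A3 := uc4_A m l hm hl hp hr hne ψ hψ N k hN hkm hkl hkk 1 1 False
    (Or.inr ⟨rfl, Or.inl rfl⟩)
  have A4 := uc4_B m l hm hl hp hr hne ψ hψ N k hN hkm hkl hkk (2 * l + 1) 1 (Or.inl ⟨rfl, rfl⟩)
  have A5 := uc4_B m l hm hl hp hr hne ψ hψ N k hN hkm hkl hkk 1 (2 * l + 1)
    (Or.inr ⟨rfl, Or.inr rfl⟩)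
  have A6 := uc4_B m l hm hl hp hr hne ψ hψ N k hN hkm hkl hkk 1 1 (Or.inr ⟨rfl, Or.inl rfl⟩)
  have B3 := uc4_A l m hl hm hr hp hne.symm ψ hψ.symm N k hN' hkl hkm hkk' 1 1 False
    (Or.inr ⟨rfl, Or.inl rfl⟩)
  have B6 := uc4_B l m hl hm hr hp hne.symm ψ hψ.symm N k hN' hkl hkm hkk' 1 1
    (Or.inr ⟨rfl, Or.inl rfl⟩)
  have A7 : UCount (Cfg4 m l ψ 1 1 (2 * l + 1) 1 False) (Kp4 N k) N :=
    B3.mono (fun q n _ _ _ hb => hb.swap)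
  have A8 : UCount (Cfg4 m l ψ 1 1 1 (2 * l + 1) False) (Kp4 N k) N :=
    B6.mono (fun q n _ _ _ hb => hb.swap)
  have h := (A1.or (A2.or A3)).or ((A4.or (A5.or A6)).or (A7.or A8))
  refine h.weak ?_ le_rfl
  apply le_of_eq
  ring

/-- the family of the bad pairs -/
def WP4 (M q n : ℕ) : Prop :=
  ∃ i ∈ Finset.range (M + 1) ×ˢ Finset.range (M + 1),
    PR i.1 i.2 ∧ BadAll4 i.1 i.2 (psiOf 1 i.1 i.2) q n

theorem usparse_WP4 : USparse WP4 := by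
  refine ⟨45, fun M => ?_⟩
  have hM0 : (0 : ℝ) ≤ M := Nat.cast_nonneg M
  have hx : (2 : ℝ) ≤ (M : ℝ) + 2 := by linarith
  have key : UCount (WP4 M)
      (((Finset.range (M + 1) ×ˢ Finset.range (M + 1)).card : ℕ) * (((M : ℝ) + 2) ^ 43))
      ((M + 2) ^ 45) := by
    apply UCount.exists_mem
    rintro ⟨m, l⟩ hi
    rw [Finset.mem_product, Finset.mem_range, Finset.mem_range] at hi
    simp only at hi
    apply UCount.and_left (by positivity)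
    intro hPR
    simp only at hPR
    have hn : (2 * m + 1) * (2 * l + 1) ≤ (M + 2) ^ 4 := by
      have h1 : 2 * m + 1 ≤ (M + 2) ^ 2 := by nlinarith
      have h2 : 2 * l + 1 ≤ (M + 2) ^ 2 := by nlinarith
      calc (2 * m + 1) * (2 * l + 1) ≤ (M + 2) ^ 2 * (M + 2) ^ 2 := Nat.mul_le_mul h1 h2
        _ = _ := by ring
    have hn1 : 1 ≤ (2 * m + 1) * (2 * l + 1) := Nat.mul_pos (by omega) (by omega)
    obtain ⟨N, hN⟩ : ∃ N, N = (2 * m + 1) * (2 * l + 1) := ⟨_, rfl⟩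
    obtain ⟨k, hk⟩ : ∃ k, k = 2 * (m * l) + m + l := ⟨_, rfl⟩
    have hNk : N = 2 * k + 1 := by rw [hN, hk]; ring
    have h := ucount_all4 m l hPR (psiOf 1 m l) (psiOf_spec 1 one_ne_zero m l hPR) N k hN
      (by omega) (by omega) (by omega)
    rw [← hN] at hn hn1
    refine h.weak ?_ ?_
    · have hNr : (N : ℝ) ≤ ((M : ℝ) + 2) ^ 4 := by exact_mod_cast hn
      have hN1r : (1 : ℝ) ≤ N := by exact_mod_cast hn1
      have hlog : Real.log ((4 ^ k * N : ℕ) : ℝ) + 1 ≤ 2 * N := by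
        push_cast
        rw [Real.log_mul (by positivity) (by positivity), Real.log_pow]
        have h1 := Real.log_le_sub_one_of_pos (show (0 : ℝ) < N by linarith)
        have h2 := log_four_le
        have h3 : (k : ℝ) * Real.log 4 ≤ k * 2 := by
          apply mul_le_mul_of_nonneg_left _ (Nat.cast_nonneg k)
          linarith
        have h4 : (N : ℝ) = 2 * k + 1 := by exact_mod_cast hNk
        linarith
      have hlog0 : 0 ≤ Real.log ((4 ^ k * N : ℕ) : ℝ) := by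
        apply Real.log_nonneg
        have : 1 ≤ 4 ^ k * N := Nat.mul_pos (by positivity) hn1
        exact_mod_cast this
      have h1 : (N : ℝ) * (Real.log ((4 ^ k * N : ℕ) : ℝ) + 1) ≤ 2 * ((M : ℝ) + 2) ^ 8 := by
        calc (N : ℝ) * (Real.log ((4 ^ k * N : ℕ) : ℝ) + 1) ≤ N * (2 * N) := by
              apply mul_le_mul_of_nonneg_left hlog (by linarith)
          _ ≤ ((M : ℝ) + 2) ^ 4 * (2 * ((M : ℝ) + 2) ^ 4) := by
              apply mul_le_mul hNr _ (by linarith) (by positivity)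
              linarith
          _ = _ := by ring
      have h2 : ((N : ℝ) * (Real.log ((4 ^ k * N : ℕ) : ℝ) + 1)) ^ 2 ≤
          (2 * ((M : ℝ) + 2) ^ 8) ^ 2 := pow_le_pow_left₀ (by positivity) h1 2
      have h3 : (2 : ℝ) ^ 27 ≤ ((M : ℝ) + 2) ^ 27 := pow_le_pow_left₀ (by norm_num) hx 27
      unfold Kp4
      calc 8 * (3000000 * ((N : ℝ) * (Real.log ((4 ^ k * N : ℕ) : ℝ) + 1)) ^ 2)
          ≤ 8 * (3000000 * (2 * ((M : ℝ) + 2) ^ 8) ^ 2) := by linarith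
        _ = 96000000 * ((M : ℝ) + 2) ^ 16 := by ring
        _ ≤ 2 ^ 27 * ((M : ℝ) + 2) ^ 16 := by
            apply mul_le_mul_of_nonneg_right _ (by positivity)
            norm_num
        _ ≤ ((M : ℝ) + 2) ^ 27 * ((M : ℝ) + 2) ^ 16 :=
            mul_le_mul_of_nonneg_right h3 (by positivity)
        _ = _ := by ring
    · exact hn.trans (Nat.pow_le_pow_right (by omega) (by norm_num))
  refine key.weak ?_ le_rfl
  rw [Finset.card_product, Finset.card_range]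
  push_cast
  have h1 : ((M : ℝ) + 1) * (M + 1) ≤ (M + 2) ^ 2 := by nlinarith
  calc ((M : ℝ) + 1) * (M + 1) * (M + 2) ^ 43 ≤ (M + 2) ^ 2 * (M + 2) ^ 43 :=
        mul_le_mul_of_nonneg_right h1 (by positivity)
    _ = _ := by ring

/-- **The local theorem for `a^s + b^{pr} = c^{pr}`.** -/
theorem diffpow_loc (m l : ℕ) (h : PR m l)
    (ψ : ℤ[X]) (hψ : IsPsi 1 m l ψ) (s q : ℕ)
    (hsp : s.Prime) (hs2 : 2 < s) (hq : q.Prime) (hqm : 2 * m + 1 < q) (hql : 2 * l + 1 < q)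
    (hsq : s ∣ q - 1)
    (hnb : ¬ BadAll4 m l ψ q ((q - 1) / s)) (a b c : ℤ) (hco : IsCoprime c b)
    (hU0 : c - b ≠ 0) (hV0 : c + b ≠ 0)
    (heq : a ^ s + b ^ ((2 * m + 1) * (2 * l + 1)) = c ^ ((2 * m + 1) * (2 * l + 1))) :
    (((2 * m + 1 : ℕ) : ℤ) ∣ a ∧ ((2 * l + 1 : ℕ) : ℤ) ∣ a ∧ (q : ℤ) ∣ a) ∨
    (¬ ((2 * m + 1 : ℕ) : ℤ) ∣ a ∧ ¬ ((2 * l + 1 : ℕ) : ℤ) ∣ a) := by
  have hF1 : Fact q.Prime := ⟨hq⟩
  have hsodd : Odd s := hsp.odd_of_ne_two (by omega)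
  have hs0 : s ≠ 0 := by omega
  have hsn : s * ((q - 1) / s) = q - 1 := Nat.mul_div_cancel' hsq
  have h1q : ((1 : ℕ) : ZMod q) ≠ 0 := by rw [Nat.cast_one]; exact one_ne_zero
  have hpq : ((2 * m + 1 : ℕ) : ZMod q) ≠ 0 := natCast_ne_zero_of_lt (by omega) hqm (ZMod q)
  have hrq : ((2 * l + 1 : ℕ) : ZMod q) ≠ 0 := natCast_ne_zero_of_lt (by omega) hql (ZMod q)
  have hqp : Prime (q : ℤ) := Nat.prime_iff_prime_int.mp hq
  have hm := h.1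
  obtain ⟨ap, hp', ar, hr', g1, g2, w1, w2, w3, w4, e1, e2, e3, e4⟩ :=
    diff_factors m l h ψ hψ s hsodd hs0 a b c hco hU0 hV0 heq
  have huv : ¬ ((q : ℤ) ∣ c - b ∧ (q : ℤ) ∣ c + b) := by
    rintro ⟨d1, d2⟩
    have d3 : (q : ℤ) ∣ 2 * c := by
      have := dvd_add d1 d2
      rwa [show c - b + (c + b) = 2 * c by ring] at this
    have d4 : (q : ℤ) ∣ 2 * b := by
      have := dvd_sub d2 d1
      rwa [show c + b - (c - b) = 2 * b by ring] at this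
    have d5 : ¬ (q : ℤ) ∣ 2 := by
      intro h
      have := Nat.le_of_dvd two_pos (Int.natCast_dvd_natCast.mp (show (q : ℤ) ∣ ((2 : ℕ) : ℤ) from h))
      omega
    have d6 := hco.isUnit_of_dvd' ((hqp.dvd_or_dvd d3).resolve_left d5)
      ((hqp.dvd_or_dvd d4).resolve_left d5)
    exact hqp.not_isUnit d6
  have main : ∀ (zU : Prop), (zU → ¬ (q : ℤ) ∣ c - b) →
      Cfg4 m l ψ ap hp' ar hr' zU q ((q - 1) / s) := by
    intro zU hz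
    have hap : (ap : ZMod q) ≠ 0 := by
      rcases g1 with ⟨r1, r2, -⟩ | ⟨r1, r2, -⟩ | ⟨r1, r2, -⟩ <;> rw [r1] <;> assumption
    have har : (ar : ZMod q) ≠ 0 := by
      rcases g2 with ⟨r1, r2, -⟩ | ⟨r1, r2, -⟩ | ⟨r1, r2, -⟩ <;> rw [r1] <;> assumption
    have hhp : (hp' : ZMod q) ≠ 0 := by
      rcases g1 with ⟨r1, r2, -⟩ | ⟨r1, r2, -⟩ | ⟨r1, r2, -⟩ <;> rw [r2] <;> assumption
    have hhr : (hr' : ZMod q) ≠ 0 := by
      rcases g2 with ⟨r1, r2, -⟩ | ⟨r1, r2, -⟩ | ⟨r1, r2, -⟩ <;> rw [r2] <;> assumption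
    have hm1 : ((Fh 1 (c - b) (c + b) m : ℤ) : ZMod q) =
        Fh ((1 : ℤ) : ZMod q) ((c - b : ℤ) : ZMod q) ((c + b : ℤ) : ZMod q) m :=
      (map_FGh (Int.castRingHom (ZMod q)) 1 (c - b) (c + b) m).1
    have hm2 : ((Fh 1 (c - b) (c + b) l : ℤ) : ZMod q) =
        Fh ((1 : ℤ) : ZMod q) ((c - b : ℤ) : ZMod q) ((c + b : ℤ) : ZMod q) l :=
      (map_FGh (Int.castRingHom (ZMod q)) 1 (c - b) (c + b) l).1
    have hm3 : ((hmg ψ (4 * (m * l)) (c - b) (c + b) : ℤ) : ZMod q) =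
        hmg ψ (4 * (m * l)) ((c - b : ℤ) : ZMod q) ((c + b : ℤ) : ZMod q) :=
      hmg_map ψ _ (Int.castRingHom (ZMod q)) (c - b) (c + b)
    refine ⟨((c - b : ℤ) : ZMod q), ((c + b : ℤ) : ZMod q), ?_, ?_, ?_, ?_, ?_, ?_, ?_⟩
    · by_contra hcon
      push Not at hcon
      obtain ⟨t1, t2⟩ := hcon
      rw [ZMod.intCast_zmod_eq_zero_iff_dvd] at t1 t2
      exact huv ⟨t1, t2⟩
    · intro t1 t2
      rw [ZMod.intCast_zmod_eq_zero_iff_dvd] at t2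
      exact hz t1 t2
    · intro t _
      rw [map_one]
      exact one_ne_zero
    · have := pow_mod q s _ hq hsn 1 w1 ((c - b : ℤ) : ZMod q) ((ap * ar : ℕ) : ZMod q)
        (by rw [Nat.cast_mul]; exact mul_ne_zero hap har) (by
        have := congrArg (Int.cast : ℤ → ZMod q) e1
        push_cast at this ⊢
        rw [this]
        simp)
      rw [Nat.cast_one, one_pow] at this
      exact this
    · have := pow_mod q s _ hq hsn (4 ^ m * ap) w2 ((Fh 1 (c - b) (c + b) m : ℤ) : ZMod q) hr' hhr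
        (by
        have := congrArg (Int.cast : ℤ → ZMod q) e2
        push_cast at this ⊢
        exact this)
      rw [hm1] at this
      exact this
    · have := pow_mod q s _ hq hsn (4 ^ l * ar) w3 ((Fh 1 (c - b) (c + b) l : ℤ) : ZMod q) hp' hhp
        (by
        have := congrArg (Int.cast : ℤ → ZMod q) e3
        push_cast at this ⊢
        exact this)
      rw [hm2] at this
      exact this
    · have := pow_mod q s _ hq hsn (4 ^ (2 * (m * l)) * (hp' * hr')) w4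
        ((hmg ψ (4 * (m * l)) (c - b) (c + b) : ℤ) : ZMod q) 1
        one_ne_zero (by
        rw [e4]
        push_cast
        ring)
      rw [one_mul, hm3] at this
      exact this
  have hFalse : False → ¬ (q : ℤ) ∣ c - b := fun h => h.elim
  rcases g1 with ⟨r1, r2, r3⟩ | ⟨r1, r2, r3⟩ | ⟨r1, r2, r3⟩ <;>
    rcases g2 with ⟨t1, t2, t3⟩ | ⟨t1, t2, t3⟩ | ⟨t1, t2, t3⟩ <;>
    rw [r1, r2, t1, t2] at main
  · left
    refine ⟨r3, t3, ?_⟩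
    by_contra hqa
    refine hnb (Or.inl (Or.inl (main True (fun _ hqu => hqa ?_))))
    obtain ⟨D, hD⟩ := sub_dvd_pow_sub_pow c b ((2 * m + 1) * (2 * l + 1))
    refine q_dvd_of_pow (s := s) (F := D) hq hqu ?_
    rw [← hD]
    linarith
  · exact absurd (Or.inl (Or.inr (Or.inl (main False hFalse)))) hnb
  · exact absurd (Or.inl (Or.inr (Or.inr (main False hFalse)))) hnb
  · exact absurd (Or.inr (Or.inl (Or.inl (main False hFalse)))) hnb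
  · exact absurd (Or.inr (Or.inl (Or.inr (Or.inl (main False hFalse))))) hnb
  · exact absurd (Or.inr (Or.inl (Or.inr (Or.inr (main False hFalse))))) hnb
  · exact absurd (Or.inr (Or.inr (Or.inl (main False hFalse)))) hnb
  · exact absurd (Or.inr (Or.inr (Or.inr (main False hFalse)))) hnb
  · right
    exact ⟨r3, t3⟩

end Pool.Agent.H573.AHB
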