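import Pool.Agent.H573.AHB.PvC

/-!
The equation `a^s = c^{2p} - b^{2p}`: the counts.
-/

set_option autoImplicit false

namespace Pool.Agent.H573.AHB

open Polynomial

/-- a configuration -/
def Cf2 (m a1 a2 b1 b2 up vp : ℕ) (zU zV : Prop) (E : ℤ[X]) (q n : ℕ) : Prop :=
  BadF 1 m a1 (a2 * up) b1 (b2 * vp) (up * 4 ^ m) (vp * 4 ^ m) zU zV E q n

/-- all configurations -/
def W9 (m q n : ℕ) : Prop :=
  OKm m ∧ ((Cf2 m 1 1 1 1 1 1 False False (X ^ 2 - 1) q n ∨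
      Cf2 m 1 1 1 1 (2 * m + 1) 1 False False 1 q n ∨
      Cf2 m 1 1 1 1 1 (2 * m + 1) False False 1 q n) ∨
    (Cf2 m 1 2 2 1 1 1 False False 1 q n ∨
      Cf2 m 1 2 2 1 (2 * m + 1) 1 True False 1 q n ∨
      Cf2 m 1 2 2 1 1 (2 * m + 1) False True 1 q n) ∨
    (Cf2 m 2 1 1 2 1 1 False False 1 q n ∨
      Cf2 m 2 1 1 2 (2 * m + 1) 1 True False 1 q n ∨
      Cf2 m 2 1 1 2 1 (2 * m + 1) False True 1 q n))

/-- equality in the power inequality -/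
lemma power_sum_eq (m : ℕ) (hm : 1 ≤ m) (z : ℂ) (hz : ‖z‖ = 1)
    (hF : ‖Fh (1 : ℂ) 1 z m‖ = 4 ^ m) (hG : ‖Gh (1 : ℂ) 1 z m‖ = 4 ^ m) : z ^ 2 - 1 = 0 := by
  have h3 := pow_FG (δ := (1 : ℂ)) (ω := 1) (by norm_num) 1 z m
  have h4 := pow_FG' (δ := (1 : ℂ)) (ω := 1) (by norm_num) 1 z m
  rw [one_mul] at h3 h4
  have par : ∀ a b : ℂ, ‖a + b‖ ^ 2 + ‖a - b‖ ^ 2 = 2 * (‖a‖ ^ 2 + ‖b‖ ^ 2) := by
    intro a b
    have := parallelogram_law_with_norm ℝ a b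
    nlinarith
  have hAB := par 1 (1 * z)
  have hFG := par (Fh (1 : ℂ) 1 z m) (1 * z * Gh (1 : ℂ) 1 z m)
  rw [one_mul] at hAB hFG h3 h4
  rw [← h3, ← h4, norm_pow, norm_pow, norm_mul, hF, hG, hz, one_mul] at hFG
  rw [hz, norm_one] at hAB
  obtain ⟨A, hA⟩ : ∃ A : ℝ, A = ‖1 + z‖ ^ 2 := ⟨_, rfl⟩
  obtain ⟨B, hB⟩ : ∃ B : ℝ, B = ‖1 - z‖ ^ 2 := ⟨_, rfl⟩
  have hA0 : 0 ≤ A := by rw [hA]; positivity
  have hB0 : 0 ≤ B := by rw [hB]; positivity
  have hsum : A + B = 4 := by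
    rw [hA, hB, hAB]
    norm_num
  have hpw : A ^ (2 * m + 1) + B ^ (2 * m + 1) = 4 ^ (2 * m + 1) := by
    rw [hA, hB, ← pow_mul, ← pow_mul, mul_comm 2 (2 * m + 1), pow_mul, pow_mul, hFG]
    have : ((4 : ℝ) ^ m) ^ 2 = 4 ^ (2 * m) := by rw [← pow_mul, mul_comm]
    rw [this, pow_succ]
    ring
  have hAB' : A = 0 ∨ B = 0 := by
    by_contra hcon
    push Not at hcon
    obtain ⟨n1, n2⟩ := hcon
    have pA : 0 < A := lt_of_le_of_ne hA0 (Ne.symm n1)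
    have pB : 0 < B := lt_of_le_of_ne hB0 (Ne.symm n2)
    have hA4 : A ^ (2 * m) < 4 ^ (2 * m) := pow_lt_pow_left₀ (by linarith) hA0 (by omega)
    have hB4 : B ^ (2 * m) < 4 ^ (2 * m) := pow_lt_pow_left₀ (by linarith) hB0 (by omega)
    have e1 : A ^ (2 * m + 1) < 4 ^ (2 * m) * A := by
      rw [pow_succ]
      exact mul_lt_mul_of_pos_right hA4 pA
    have e2 : B ^ (2 * m + 1) < 4 ^ (2 * m) * B := by
      rw [pow_succ]
      exact mul_lt_mul_of_pos_right hB4 pB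
    have e3 : (4 : ℝ) ^ (2 * m + 1) = 4 ^ (2 * m) * A + 4 ^ (2 * m) * B := by
      rw [← mul_add, hsum, pow_succ]
    linarith
  rcases hAB' with h | h
  · rw [hA] at h
    have h5 : (1 : ℂ) + z = 0 := norm_eq_zero.mp (pow_eq_zero_iff two_ne_zero |>.mp h)
    have h6 : z = -1 := by linear_combination h5
    rw [h6]
    ring
  · rw [hB] at h
    have h5 : (1 : ℂ) - z = 0 := norm_eq_zero.mp (pow_eq_zero_iff two_ne_zero |>.mp h)
    have h6 : z = 1 := by linear_combination -h5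
    rw [h6]
    ring

/-- the bound of the counts -/
noncomputable def K9 (m : ℕ) : ℝ := 2000000 * (((m : ℝ) + 1) * ((4 * m + 6) + 2)) ^ 2

theorem ucF (m : ℕ) (hm : OKm m) (a1 a2 b1 b2 e h : ℕ) (zU zV : Prop) (E : ℤ[X])
    (ha1 : 1 ≤ a1) (ha2 : 1 ≤ a2) (hb1 : 1 ≤ b1) (hb2 : 1 ≤ b2)
    (la1 : a1 ≤ 4 * (2 * m + 1)) (la2 : a2 ≤ 4 * (2 * m + 1)) (lb1 : b1 ≤ 4 * (2 * m + 1))
    (lb2 : b2 ≤ 4 * (2 * m + 1)) (de : e ∣ (2 * m + 1) * 4 ^ m) (dh : h ∣ (2 * m + 1) * 4 ^ m)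
    (HT : ∀ z : ℂ, aeval z E ≠ 0 → ∃ i, ∀ N : ℕ, 1 ≤ N → (aeval z (ph 1 m a1 b2 i)) ^ N ≠
      ((cc (b1 * a2) (a2 ^ (2 * m) * e) (a2 ^ (2 * m) * h) i : ℤ) : ℂ) ^ N)
    (N1 : zU ∨ (b2 ^ (2 * m) * e ≠ (2 * m + 1) * b1 ^ (2 * m) ∨
      b2 ^ (2 * m) * h ≠ b1 ^ (2 * m)))
    (N2 : zV ∨ (a2 ^ (2 * m) * e ≠ a1 ^ (2 * m) ∨ a2 ^ (2 * m) * h ≠ (2 * m + 1) * a1 ^ (2 * m))) :
    UCount (BadF 1 m a1 a2 b1 b2 e h zU zV E) (K9 m) (4 * (2 * m + 1)) := by
  have h4 : 1 ≤ 4 ^ m := Nat.one_le_pow _ _ (by norm_num)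
  have hP : 1 ≤ (2 * m + 1) * 4 ^ m := Nat.mul_pos (by omega) h4
  have he : 1 ≤ e := Nat.pos_of_dvd_of_pos de hP
  have hh : 1 ≤ h := Nat.pos_of_dvd_of_pos dh hP
  have le : e ≤ (2 * m + 1) * 4 ^ m := Nat.le_of_dvd hP de
  have lh : h ≤ (2 * m + 1) * 4 ^ m := Nat.le_of_dvd hP dh
  have hbig : ∀ x : ℕ, x ≤ 4 * (2 * m + 1) → x ≤ 4 * ((2 * m + 1) * 4 ^ m) := by
    intro x hx
    refine hx.trans (Nat.mul_le_mul_left _ (Nat.le_mul_of_pos_right _ h4))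
  have hbig2 : ∀ x : ℕ, x ≤ (2 * m + 1) * 4 ^ m → x ≤ 4 * ((2 * m + 1) * 4 ^ m) := fun x hx =>
    hx.trans (Nat.le_mul_of_pos_left _ (by norm_num))
  have hlog : Real.log ((4 * ((2 * m + 1) * 4 ^ m) : ℕ) : ℝ) ≤ 4 * m + 6 := by
    push_cast
    rw [Real.log_mul (by norm_num) (by positivity), Real.log_mul (by positivity) (by positivity),
      Real.log_pow]
    have h1 := log_four_le
    have h2 := log_nat_le (2 * m + 1)
    push_cast at h2
    have h3 : (m : ℝ) * Real.log 4 ≤ m * 2 := by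
      apply mul_le_mul_of_nonneg_left _ (Nat.cast_nonneg m)
      linarith
    linarith
  have hδ1 : (1 : ℤ).natAbs = 1 := rfl
  refine ucount_badF 1 rfl m a1 a2 b1 b2 e h (4 * ((2 * m + 1) * 4 ^ m)) (4 * m + 6) zU zV E
    hm.1 ha1 ha2 hb1 hb2 he hh (hbig _ la1) (hbig _ la2) (hbig _ lb1) (hbig _ lb2) (hbig2 _ le)
    (hbig2 _ lh) hlog hm.2 (4 * (2 * m + 1)) la1 la2 lb1 lb2 (by omega) ?_ HT ?_ N2
  · intro q hq hlt
    have hF : Fact q.Prime := ⟨hq⟩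
    have h2 : ((4 : ℕ) : ZMod q) ≠ 0 := natCast_ne_zero_of_lt (by norm_num) (by omega) (ZMod q)
    have h3 : ((2 * m + 1 : ℕ) : ZMod q) ≠ 0 := natCast_ne_zero_of_lt (by omega) (by omega) (ZMod q)
    have h5 : (((2 * m + 1) * 4 ^ m : ℕ) : ZMod q) ≠ 0 := by
      rw [Nat.cast_mul, Nat.cast_pow]
      exact mul_ne_zero h3 (pow_ne_zero _ h2)
    have key : ∀ x : ℕ, x ∣ (2 * m + 1) * 4 ^ m → (x : ZMod q) ≠ 0 := by
      rintro x ⟨y, hy⟩ h0
      apply h5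
      rw [hy, Nat.cast_mul, h0, zero_mul]
    exact ⟨key e de, key h dh⟩
  · rw [hδ1, one_pow, mul_one, one_mul]
    exact N1

lemma pow_big (p m : ℕ) (hp : 3 ≤ p) (hm : 1 ≤ m) : 9 ≤ p ^ (2 * m) := by
  calc 9 = 3 ^ 2 := by norm_num
    _ ≤ p ^ 2 := Nat.pow_le_pow_left hp 2
    _ ≤ p ^ (2 * m) := Nat.pow_le_pow_right (by omega) (by omega)

theorem ucount_W9 (m : ℕ) : UCount (W9 m) (9 * K9 m) (4 * (2 * m + 1)) := by
  have hK : 0 ≤ K9 m := by unfold K9; positivity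
  apply UCount.and_left (by linarith)
  intro hm
  have hm1 := hm.1
  have hp := hm.2
  obtain ⟨p, hpp⟩ : ∃ p, p = 2 * m + 1 := ⟨_, rfl⟩
  have hp3 : 3 ≤ p := by omega
  have np : ∀ k, 1 ≤ k → k ≤ 2 → ¬ (2 * m + 1) ∣ k := fun k h1 h2 h => by
    have := Nat.le_of_dvd h1 h
    omega
  have np4 : ¬ (2 * m + 1) ∣ 4 := by
    intro h
    have := not_dvd_four_pow m 1 hm1 hp
    rw [pow_one] at this
    exact this h
  have h4 : 4 ≤ 4 ^ m := by
    calc 4 = 4 ^ 1 := (pow_one 4).symm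
      _ ≤ 4 ^ m := Nat.pow_le_pow_right (by norm_num) hm1
  have dE : ∀ x, x ∣ 2 * m + 1 → x * 4 ^ m ∣ (2 * m + 1) * 4 ^ m := fun x hx =>
    Nat.mul_dvd_mul_right hx _
  have hpw : 9 ≤ (2 * m + 1) ^ (2 * m) := pow_big _ _ (by omega) hm1
  have e16 : 2 ^ (2 * m) = 4 ^ m := by rw [pow_mul]; norm_num
  have e256 : 2 ^ (4 * m) = 16 ^ m := by rw [pow_mul]; norm_num
  -- size
  have hsize : 17 * 256 ^ m < 17 ^ (2 * m + 1) := by
    have e1 : 17 ^ (2 * m + 1) = 17 * 289 ^ m := by rw [pow_succ, pow_mul]; norm_num; ring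
    rw [e1]
    exact Nat.mul_lt_mul_of_pos_left (Nat.pow_lt_pow_left (by norm_num) (by omega)) (by norm_num)
  have e3 : (4 ^ m) ^ 2 * 16 ^ m = 256 ^ m := by
    rw [← pow_mul, mul_comm m 2, pow_mul, ← mul_pow]
    norm_num
  have e4 : (4 ^ m * 4 ^ m) ^ 2 = 256 ^ m := by
    rw [← mul_pow, ← pow_mul, mul_comm m 2, pow_mul]
    norm_num
  have hδp : ¬ ((2 * m + 1 : ℕ) : ℤ) ∣ (1 : ℤ) := by
    intro h
    have h3 := Int.natAbs_dvd_natAbs.mpr h
    rw [Int.natAbs_natCast] at h3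
    have := Nat.le_of_dvd one_pos h3
    omega
  have A1 : UCount (Cf2 m 1 1 1 1 1 1 False False (X ^ 2 - 1)) (K9 m) (4 * (2 * m + 1)) := by
    refine ucF m hm _ _ _ _ _ _ False False _ le_rfl le_rfl le_rfl le_rfl (by omega) (by omega)
      (by omega) (by omega) (dE 1 (one_dvd _)) (dE 1 (one_dvd _)) ?_ (Or.inr (Or.inr ?_))
      (Or.inr (Or.inl ?_))
    · intro z hz
      by_contra hcon
      push Not at hcon
      apply hz
      rw [map_sub, map_pow, aeval_X, map_one]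
      obtain ⟨N0, hN0, h0⟩ := hcon 0
      obtain ⟨N1, hN1, h1⟩ := hcon 1
      obtain ⟨N2, hN2, h2⟩ := hcon 2
      have k0 := norm_of_pow hN0 h0
      have k1 := norm_of_pow hN1 h1
      have k2 := norm_of_pow hN2 h2
      rw [ph_zero] at k0
      rw [ph_one] at k1
      rw [ph_two] at k2
      simp only [cc, Matrix.cons_val_zero, Matrix.cons_val_one, Matrix.cons_val_two, Matrix.tail_cons,
        Matrix.head_cons, Nat.cast_one, one_mul, mul_one, one_pow, Int.cast_pow,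
        Nat.cast_pow, Nat.cast_ofNat, Int.cast_one, abs_one, Int.cast_ofNat] at k0 k1 k2
      rw [abs_of_pos (by positivity)] at k1 k2
      exact power_sum_eq m hm.1 z k0 k1 k2
    · rw [one_mul, one_pow, one_mul, one_mul]
      omega
    · rw [one_mul, one_pow, one_mul, one_mul]
      omega
  have A2 : UCount (Cf2 m 1 1 1 1 (2 * m + 1) 1 False False 1) (K9 m) (4 * (2 * m + 1)) := by
    refine ucF m hm _ _ _ _ _ _ False False _ le_rfl (by omega) le_rfl le_rfl (by omega) (by omega)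
      (by omega) (by omega) (dE _ dvd_rfl) (dE 1 (one_dvd _)) ?_ (Or.inr (Or.inr ?_))
      (Or.inr (Or.inl ?_))
    · intro z _
      refine ph_HT_a m hm1 (2 * m + 1) hp 1 _ _ _ _ _ (np 1 le_rfl (by norm_num))
        (by rw [one_mul]; exact np 1 le_rfl (by norm_num)) ?_ (by omega) ?_ z
      · rw [one_mul, one_mul]
      · exact (dvd_mul_right _ _).mul_left _
    · rw [one_mul, one_pow, one_mul, one_mul]
      omega
    · rw [one_pow, one_mul]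
      have h5 : 9 * (1 * 4) ≤ (2 * m + 1) ^ (2 * m) * ((2 * m + 1) * 4 ^ m) :=
        Nat.mul_le_mul hpw (Nat.mul_le_mul (by omega) h4)
      omega
  have A3 : UCount (Cf2 m 1 1 1 1 1 (2 * m + 1) False False 1) (K9 m) (4 * (2 * m + 1)) := by
    refine ucF m hm _ _ _ _ _ _ False False _ le_rfl le_rfl le_rfl (by omega) (by omega) (by omega)
      (by omega) (by omega) (dE 1 (one_dvd _)) (dE _ dvd_rfl) ?_ (Or.inr (Or.inr ?_))
      (Or.inr (Or.inl ?_))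
    · intro z _
      refine ph_HT_b m hm1 (2 * m + 1) hp 1 hδp _ _ _ _ _ ?_ ?_ z
      · rw [one_mul, one_mul]; exact np 1 le_rfl (by norm_num)
      · rw [one_mul]
    · rw [one_pow, one_mul]
      have h5 : 9 * (1 * 4) ≤ (2 * m + 1) ^ (2 * m) * ((2 * m + 1) * 4 ^ m) :=
        Nat.mul_le_mul hpw (Nat.mul_le_mul (by omega) h4)
      omega
    · rw [one_mul, one_pow, one_mul, one_mul]
      omega
  have A4 : UCount (Cf2 m 1 2 2 1 1 1 False False 1) (K9 m) (4 * (2 * m + 1)) := by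
    refine ucF m hm _ _ _ _ _ _ False False _ le_rfl (by norm_num) (by norm_num) le_rfl (by omega)
      (by omega) (by omega) (by omega) (dE 1 (one_dvd _)) (dE 1 (one_dvd _)) ?_ (Or.inr (Or.inl ?_))
      (Or.inr (Or.inl ?_))
    · intro z _
      refine ph_HT_size 1 m _ _ _ _ _ le_rfl (by norm_num) ?_ z
      rw [mul_one, mul_one, one_mul, e16, one_pow, one_mul, e4]
      norm_num
      have : 256 ^ m + 16 * 256 ^ m = 17 * 256 ^ m := by ring
      rw [this]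
      exact hsize
    · rw [one_mul, one_pow, one_mul, one_mul, e16]
      intro h
      have h5 : 3 * 4 ^ m ≤ (2 * m + 1) * 4 ^ m := Nat.mul_le_mul_right _ (by omega)
      omega
    · rw [mul_one, one_mul, one_pow, e16]
      have h5 : 4 * 4 ≤ 4 ^ m * 4 ^ m := Nat.mul_le_mul h4 h4
      omega
  have A5 : UCount (Cf2 m 1 2 2 1 (2 * m + 1) 1 True False 1) (K9 m) (4 * (2 * m + 1)) := by
    refine ucF m hm _ _ _ _ _ _ True False _ le_rfl (by omega) (by norm_num) le_rfl (by omega)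
      (by omega) (by omega) (by omega) (dE _ dvd_rfl) (dE 1 (one_dvd _)) ?_ (Or.inl trivial)
      (Or.inr (Or.inl ?_))
    · intro z _
      refine ph_HT_a m hm1 (2 * m + 1) hp 1 _ _ _ _ _ (np 1 le_rfl (by norm_num))
        (by rw [one_mul]; exact np 1 le_rfl (by norm_num)) ?_ (by omega) ?_ z
      · exact (dvd_mul_left _ _).mul_left _
      · exact (dvd_mul_right _ _).mul_left _
    · rw [one_pow]
      have h6 : 1 ≤ (2 * (2 * m + 1)) ^ (2 * m) := Nat.one_le_pow _ _ (by omega)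
      have h5 : 1 * (1 * 4) ≤ (2 * (2 * m + 1)) ^ (2 * m) * ((2 * m + 1) * 4 ^ m) :=
        Nat.mul_le_mul h6 (Nat.mul_le_mul (by omega) h4)
      omega
  have A6 : UCount (Cf2 m 1 2 2 1 1 (2 * m + 1) False True 1) (K9 m) (4 * (2 * m + 1)) := by
    refine ucF m hm _ _ _ _ _ _ False True _ le_rfl (by norm_num) (by norm_num) (by omega) (by omega)
      (by omega) (by omega) (by omega) (dE 1 (one_dvd _)) (dE _ dvd_rfl) ?_ (Or.inr (Or.inr ?_))
      (Or.inl trivial)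
    · intro z _
      refine ph_HT_b m hm1 (2 * m + 1) hp 1 hδp _ _ _ _ _ ?_ ?_ z
      · rw [mul_one]; exact np4
      · rw [one_mul]
    · rw [one_mul, e16]
      intro h
      have h5 : 9 * (1 * 4 ^ m) ≤ (2 * m + 1) ^ (2 * m) * ((2 * m + 1) * 4 ^ m) :=
        Nat.mul_le_mul hpw (Nat.mul_le_mul (by omega) le_rfl)
      omega
  have A7 : UCount (Cf2 m 2 1 1 2 1 1 False False 1) (K9 m) (4 * (2 * m + 1)) := by
    refine ucF m hm _ _ _ _ _ _ False False _ (by norm_num) le_rfl le_rfl (by norm_num) (by omega)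
      (by omega) (by omega) (by omega) (dE 1 (one_dvd _)) (dE 1 (one_dvd _)) ?_ (Or.inr (Or.inr ?_))
      (Or.inr (Or.inr ?_))
    · intro z _
      refine ph_HT_size 1 m _ _ _ _ _ (by norm_num) (by norm_num) ?_ z
      rw [mul_one, mul_one, one_mul, mul_one, one_pow, one_mul, e256]
      have e5 : 16 ^ m * ((4 ^ m) ^ 2 * (2 ^ 2 * 2 ^ 2) + Int.natAbs 1 * 1 ^ 2 * (4 ^ m) ^ 2) =
          17 * ((4 ^ m) ^ 2 * 16 ^ m) := by
        norm_num
        ring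
      have e6 : (2 ^ 2 * 2 ^ 2 + Int.natAbs 1 * 1 ^ 2) = 17 := by norm_num
      rw [e5, e6, e3]
      exact hsize
    · rw [mul_one, one_pow, one_mul, e16]
      have h5 : 4 * 4 ≤ 4 ^ m * 4 ^ m := Nat.mul_le_mul h4 h4
      omega
    · rw [mul_one, one_pow, one_mul, one_mul, e16]
      intro h
      have h5 : 3 * 4 ^ m ≤ (2 * m + 1) * 4 ^ m := Nat.mul_le_mul_right _ (by omega)
      omega
  have A8 : UCount (Cf2 m 2 1 1 2 (2 * m + 1) 1 True False 1) (K9 m) (4 * (2 * m + 1)) := by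
    refine ucF m hm _ _ _ _ _ _ True False _ (by norm_num) (by omega) le_rfl (by norm_num) (by omega)
      (by omega) (by omega) (by omega) (dE _ dvd_rfl) (dE 1 (one_dvd _)) ?_ (Or.inl trivial)
      (Or.inr (Or.inl ?_))
    · intro z _
      refine ph_HT_a m hm1 (2 * m + 1) hp 1 _ _ _ _ _ (np 2 (by norm_num) le_rfl)
        (by rw [mul_one]; exact np 2 (by norm_num) le_rfl) ?_ (by omega) ?_ z
      · exact (dvd_mul_left _ _).mul_left _
      · exact (dvd_mul_right _ _).mul_left _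
    · rw [one_mul, e16]
      intro h
      have h5 : 9 * (1 * 4 ^ m) ≤ (2 * m + 1) ^ (2 * m) * ((2 * m + 1) * 4 ^ m) :=
        Nat.mul_le_mul hpw (Nat.mul_le_mul (by omega) le_rfl)
      omega
  have A9 : UCount (Cf2 m 2 1 1 2 1 (2 * m + 1) False True 1) (K9 m) (4 * (2 * m + 1)) := by
    refine ucF m hm _ _ _ _ _ _ False True _ (by norm_num) le_rfl le_rfl (by omega) (by omega)
      (by omega) (by omega) (by omega) (dE 1 (one_dvd _)) (dE _ dvd_rfl) ?_ (Or.inr (Or.inr ?_))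
      (Or.inl trivial)
    · intro z _
      refine ph_HT_b m hm1 (2 * m + 1) hp 1 hδp _ _ _ _ _ ?_ ?_ z
      · rw [mul_one, mul_one]; exact np 1 le_rfl (by norm_num)
      · exact dvd_mul_left _ _
    · rw [one_pow]
      have h6 : 1 ≤ (2 * (2 * m + 1)) ^ (2 * m) := Nat.one_le_pow _ _ (by omega)
      have h5 : 1 * (1 * 4) ≤ (2 * (2 * m + 1)) ^ (2 * m) * ((2 * m + 1) * 4 ^ m) :=
        Nat.mul_le_mul h6 (Nat.mul_le_mul (by omega) h4)
      omega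
  have h := (A1.or (A2.or A3)).or ((A4.or (A5.or A6)).or (A7.or (A8.or A9)))
  refine h.weak ?_ le_rfl
  apply le_of_eq
  ring

theorem usparse_W9 : USparse W9 := by
  refine ⟨33, fun m => (ucount_W9 m).weak ?_ ?_⟩
  · have h0 : (0 : ℝ) ≤ m := Nat.cast_nonneg m
    have h1 : ((m : ℝ) + 1) * ((4 * m + 6) + 2) ≤ 4 * ((m : ℝ) + 2) ^ 2 := by nlinarith
    have h2 : (((m : ℝ) + 1) * ((4 * m + 6) + 2)) ^ 2 ≤ (4 * ((m : ℝ) + 2) ^ 2) ^ 2 :=
      pow_le_pow_left₀ (by positivity) h1 2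
    have h3 : (2 : ℝ) ^ 29 ≤ ((m : ℝ) + 2) ^ 29 := pow_le_pow_left₀ (by norm_num) (by linarith) 29
    have h4 : (0 : ℝ) ≤ ((m : ℝ) + 2) ^ 4 := by positivity
    unfold K9
    calc 9 * (2000000 * (((m : ℝ) + 1) * ((4 * m + 6) + 2)) ^ 2)
        ≤ 9 * (2000000 * (4 * ((m : ℝ) + 2) ^ 2) ^ 2) := by linarith
      _ = 288000000 * ((m : ℝ) + 2) ^ 4 := by ring
      _ ≤ 2 ^ 29 * ((m : ℝ) + 2) ^ 4 := by
          apply mul_le_mul_of_nonneg_right _ h4
          norm_num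
      _ ≤ ((m : ℝ) + 2) ^ 29 * ((m : ℝ) + 2) ^ 4 := mul_le_mul_of_nonneg_right h3 h4
      _ = _ := by ring
  · calc 4 * (2 * m + 1) ≤ 8 * (m + 2) := by omega
      _ ≤ (m + 2) ^ 3 * (m + 2) := by
          apply Nat.mul_le_mul_right
          calc 8 = 2 ^ 3 := by norm_num
            _ ≤ (m + 2) ^ 3 := Nat.pow_le_pow_left (by omega) 3
      _ = (m + 2) ^ 4 := by ring
      _ ≤ (m + 2) ^ 33 := Nat.pow_le_pow_right (by omega) (by norm_num)

end Pool.Agent.H573.AHB
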