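import Pool.Agent.H573.AHB.PvD

/-!
The equation `a^s = c^{2p} - b^{2p}`: the local theorem.
-/

set_option autoImplicit false

namespace Pool.Agent.H573.AHB

open Polynomial

/-- both cases for `v` and `G` -/
lemma cop_unifG (m : ℕ) (hp : (2 * m + 1).Prime) (δ u v : ℤ) (huv : IsCoprime u v) :
    ∃ a : ℕ, ((a = 2 * m + 1 ∧ ((2 * m + 1 : ℕ) : ℤ) ∣ v) ∨
        (a = 1 ∧ ¬ ((2 * m + 1 : ℕ) : ℤ) ∣ v)) ∧
      ∃ B : ℤ, Gh δ u v m = a * B ∧ IsCoprime ((a : ℤ) * v) B := by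
  by_cases h : ((2 * m + 1 : ℕ) : ℤ) ∣ v
  · obtain ⟨B, h1, h2⟩ := second_G m δ u v huv h
    exact ⟨2 * m + 1, Or.inl ⟨rfl, h⟩, B, h1, h2⟩
  · refine ⟨1, Or.inr ⟨rfl, h⟩, Gh δ u v m, by rw [Nat.cast_one, one_mul], ?_⟩
    rw [Nat.cast_one, one_mul]
    exact cop_G m hp δ u v huv h

/-- from global data to a bad pair -/
lemma cf2_of (m a1 a2 b1 b2 up vp : ℕ) (zU zV : Prop) (E : ℤ[X]) (q s n : ℕ)
    (hq : q.Prime) (hsn : s * n = q - 1)
    (ha2 : ((a2 * up : ℕ) : ZMod q) ≠ 0)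
    (hb2 : ((b2 * vp : ℕ) : ZMod q) ≠ 0) (u v w1 w2 w3 w4 : ℤ)
    (huv : ¬ ((q : ℤ) ∣ u ∧ (q : ℤ) ∣ v))
    (h1 : ((a2 * up : ℕ) : ℤ) * u = a1 * w1 ^ s) (h2 : ((b2 * vp : ℕ) : ℤ) * v = b1 * w2 ^ s)
    (h3 : Fh 1 u v m = ((up * 4 ^ m : ℕ) : ℤ) * w3 ^ s)
    (h4 : Gh 1 u v m = ((vp * 4 ^ m : ℕ) : ℤ) * w4 ^ s) (gU : zU → ¬ (q : ℤ) ∣ u)
    (gV : zV → ¬ (q : ℤ) ∣ v)
    (gE : ∀ t : ZMod q, (v : ZMod q) = u * t → aeval t E ≠ 0) :
    Cf2 m a1 a2 b1 b2 up vp zU zV E q n := by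
  have hF : Fact q.Prime := ⟨hq⟩
  have hmap := map_FGh (Int.castRingHom (ZMod q)) 1 u v m
  simp only [eq_intCast] at hmap
  refine ⟨(u : ZMod q), (v : ZMod q), ?_, ?_, ?_, gE, ?_, ?_, ?_, ?_⟩
  · by_contra hcon
    push Not at hcon
    obtain ⟨g1, g2⟩ := hcon
    rw [ZMod.intCast_zmod_eq_zero_iff_dvd] at g1 g2
    exact huv ⟨g1, g2⟩
  · intro hz h0
    rw [ZMod.intCast_zmod_eq_zero_iff_dvd] at h0
    exact gU hz h0
  · intro hz h0
    rw [ZMod.intCast_zmod_eq_zero_iff_dvd] at h0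
    exact gV hz h0
  · exact pow_mod q s n hq hsn a1 w1 (u : ZMod q) _ ha2 (by
      have := congrArg (Int.cast : ℤ → ZMod q) h1
      push_cast at this ⊢
      exact this)
  · exact pow_mod q s n hq hsn b1 w2 (v : ZMod q) _ hb2 (by
      have := congrArg (Int.cast : ℤ → ZMod q) h2
      push_cast at this ⊢
      exact this)
  · have := pow_mod q s n hq hsn (up * 4 ^ m) w3 ((Fh 1 u v m : ℤ) : ZMod q) 1 one_ne_zero (by
      rw [h3]
      push_cast
      ring)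
    rw [one_mul, hmap.1] at this
    exact this
  · have := pow_mod q s n hq hsn (vp * 4 ^ m) w4 ((Gh 1 u v m : ℤ) : ZMod q) 1 one_ne_zero (by
      rw [h4]
      push_cast
      ring)
    rw [one_mul, hmap.2] at this
    exact this

/-- the four factors of `c^{2p} - b^{2p}` -/
theorem diff2_factors (m : ℕ) (hm : OKm m) (s : ℕ)
    (hsodd : Odd s) (hs0 : s ≠ 0) (a b c : ℤ) (hco : IsCoprime c b)
    (hU0 : c - b ≠ 0) (hV0 : c + b ≠ 0)
    (heq : a ^ s + b ^ (2 * (2 * m + 1)) = c ^ (2 * (2 * m + 1))) :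
    ∃ a1 a2 b1 b2 up vp : ℕ,
      ((a1 = 1 ∧ a2 = 1 ∧ b1 = 1 ∧ b2 = 1 ∧ ¬ (2 : ℤ) ∣ a) ∨
        (a1 = 1 ∧ a2 = 2 ∧ b1 = 2 ∧ b2 = 1 ∧ (2 : ℤ) ∣ a) ∨
        (a1 = 2 ∧ a2 = 1 ∧ b1 = 1 ∧ b2 = 2 ∧ (2 : ℤ) ∣ a)) ∧
      ((up = 1 ∧ vp = 1 ∧ ¬ ((2 * m + 1 : ℕ) : ℤ) ∣ a) ∨
        (up = 2 * m + 1 ∧ vp = 1 ∧ ((2 * m + 1 : ℕ) : ℤ) ∣ a) ∨
        (up = 1 ∧ vp = 2 * m + 1 ∧ ((2 * m + 1 : ℕ) : ℤ) ∣ a)) ∧
      ∃ w1 w2 w3 w4 : ℤ, ((a2 * up : ℕ) : ℤ) * (c - b) = a1 * w1 ^ s ∧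
        ((b2 * vp : ℕ) : ℤ) * (c + b) = b1 * w2 ^ s ∧
        Fh 1 (c - b) (c + b) m = ((up * 4 ^ m : ℕ) : ℤ) * w3 ^ s ∧
        Gh 1 (c - b) (c + b) m = ((vp * 4 ^ m : ℕ) : ℤ) * w4 ^ s := by
  obtain ⟨hm1, hp⟩ := hm
  have hpp : Prime ((2 * m + 1 : ℕ) : ℤ) := Nat.prime_iff_prime_int.mp hp
  have hdx : ∀ p : ℤ, Prime p → (p ∣ a ^ s ↔ p ∣ a) := fun p hp =>
    ⟨fun h => hp.dvd_of_dvd_pow h, fun h => dvd_pow h hs0⟩
  have hp2 : ¬ ((2 * m + 1 : ℕ) : ℤ) ∣ (2 : ℤ) := by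
    intro h
    have h3 : ((2 * m + 1 : ℕ) : ℤ) ∣ ((2 : ℕ) : ℤ) := h
    have := Nat.le_of_dvd two_pos (Int.natCast_dvd_natCast.mp h3)
    omega
  have hp4 : ∀ k : ℕ, IsCoprime ((2 * m + 1 : ℕ) : ℤ) ((4 : ℤ) ^ k) := by
    intro k
    apply IsCoprime.pow_right
    have h2 : IsCoprime ((2 * m + 1 : ℕ) : ℤ) 2 := ⟨1, -m, by push_cast; ring⟩
    have : (4 : ℤ) = 2 * 2 := by norm_num
    rw [this]
    exact h2.mul_right h2
  have has : a ^ s = (c ^ (2 * m + 1) - b ^ (2 * m + 1)) * (c ^ (2 * m + 1) + b ^ (2 * m + 1)) := by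
    have e1 : c ^ (2 * (2 * m + 1)) = (c ^ (2 * m + 1)) ^ 2 := by rw [← pow_mul, mul_comm]
    have e2 : b ^ (2 * (2 * m + 1)) = (b ^ (2 * m + 1)) ^ 2 := by rw [← pow_mul, mul_comm]
    rw [e1, e2] at heq
    linear_combination heq
  have hδp : ¬ ((2 * m + 1 : ℕ) : ℤ) ∣ (1 : ℤ) := fun h => hpp.not_isUnit (isUnit_of_dvd_one h)
  have hcop : ∀ up : ℕ, ∀ W : ℤ, ((up = 2 * m + 1 ∧ ((2 * m + 1 : ℕ) : ℤ) ∣ W) ∨
      (up = 1 ∧ ¬ ((2 * m + 1 : ℕ) : ℤ) ∣ W)) → (up : ℤ) ∣ ((2 * m + 1 : ℕ) : ℤ) ∧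
      (up : ℤ) ≠ 0 ∧ Odd (up : ℤ) := by
    rintro up W (⟨h, -⟩ | ⟨h, -⟩)
    · rw [h]
      exact ⟨dvd_rfl, hpp.ne_zero, by exact_mod_cast (⟨m, rfl⟩ : Odd (2 * m + 1))⟩
    · rw [h, Nat.cast_one]
      exact ⟨one_dvd _, one_ne_zero, odd_one⟩
  -- the cases for `p`
  have hcase : ∀ up vp : ℕ, ∀ U V : ℤ, IsCoprime U V →
      ((up = 2 * m + 1 ∧ ((2 * m + 1 : ℕ) : ℤ) ∣ U) ∨
        (up = 1 ∧ ¬ ((2 * m + 1 : ℕ) : ℤ) ∣ U)) →
      ((vp = 2 * m + 1 ∧ ((2 * m + 1 : ℕ) : ℤ) ∣ V) ∨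
        (vp = 1 ∧ ¬ ((2 * m + 1 : ℕ) : ℤ) ∣ V)) →
      (((2 * m + 1 : ℕ) : ℤ) ∣ a ↔ (((2 * m + 1 : ℕ) : ℤ) ∣ U ∨ ((2 * m + 1 : ℕ) : ℤ) ∣ V)) →
      ((up = 1 ∧ vp = 1 ∧ ¬ ((2 * m + 1 : ℕ) : ℤ) ∣ a) ∨
        (up = 2 * m + 1 ∧ vp = 1 ∧ ((2 * m + 1 : ℕ) : ℤ) ∣ a) ∨
        (up = 1 ∧ vp = 2 * m + 1 ∧ ((2 * m + 1 : ℕ) : ℤ) ∣ a)) := by
    rintro up vp U V hUV (⟨h1, h2⟩ | ⟨h1, h2⟩) (⟨h3, h4⟩ | ⟨h3, h4⟩) hiff
    · exact absurd (hUV.isUnit_of_dvd' h2 h4) hpp.not_isUnit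
    · exact Or.inr (Or.inl ⟨h1, h3, hiff.mpr (Or.inl h2)⟩)
    · exact Or.inr (Or.inr ⟨h1, h3, hiff.mpr (Or.inr h4)⟩)
    · exact Or.inl ⟨h1, h3, fun h => (hiff.mp h).elim h2 h4⟩
  rcases Int.even_or_odd a with hae | hao
  · -- `a` even
    have hcoP : IsCoprime (c ^ (2 * m + 1)) (b ^ (2 * m + 1)) := IsCoprime.pow hco
    have hbc : Even (c - b) := by
      by_contra hcon
      rw [Int.not_even_iff_odd] at hcon
      have hpo : ∀ k : ℕ, Odd (c ^ (2 * k + 1) - b ^ (2 * k + 1)) := by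
        intro k
        rcases Int.even_or_odd c with h | h
        · have hb : Odd b := by
            by_contra hcon2
            rw [Int.not_odd_iff_even] at hcon2
            exact (Int.not_even_iff_odd.mpr hcon) (h.sub hcon2)
          exact (h.pow_of_ne_zero (by omega)).sub_odd hb.pow
        · have hb : Even b := by
            by_contra hcon2
            rw [Int.not_even_iff_odd] at hcon2
            exact (Int.not_even_iff_odd.mpr hcon) (h.sub_odd hcon2)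
          exact h.pow.sub_even (hb.pow_of_ne_zero (by omega))
      have h1 := hpo m
      have h2 : Odd (c ^ (2 * m + 1) + b ^ (2 * m + 1)) := by
        have : c ^ (2 * m + 1) + b ^ (2 * m + 1) =
            (c ^ (2 * m + 1) - b ^ (2 * m + 1)) + 2 * b ^ (2 * m + 1) := by ring
        rw [this]
        exact h1.add_even (even_two_mul _)
      have h3 : Odd (a ^ s) := by rw [has]; exact h1.mul h2
      exact (Int.not_even_iff_odd.mpr h3) (hae.pow_of_ne_zero hs0)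
    have hbo : Odd b := by
      by_contra hcon
      rw [Int.not_odd_iff_even] at hcon
      have hce : Even c := by
        have := hbc.add hcon
        rwa [sub_add_cancel] at this
      have := hco.isUnit_of_dvd' hce.two_dvd hcon.two_dvd
      rw [Int.isUnit_iff] at this
      omega
    have hcoo : Odd c := by
      have : c = (c - b) + b := by ring
      rw [this]
      exact hbc.add_odd hbo
    obtain ⟨u, hu⟩ := hcoo.sub_odd hbo
    obtain ⟨v, hv⟩ := hcoo.add_odd hbo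
    have hc : c = u + v := by linarith
    have hb : b = v - u := by linarith
    have e1 := pow_FG (δ := (1 : ℤ)) (ω := 1) (by norm_num) u v m
    have e2 := pow_FG' (δ := (1 : ℤ)) (ω := 1) (by norm_num) u v m
    have e3 : (u - 1 * v) ^ (2 * m + 1) = - b ^ (2 * m + 1) := by
      have : u - 1 * v = -b := by rw [hb]; ring
      rw [this, Odd.neg_pow ⟨m, rfl⟩]
    rw [e3] at e2
    have e4 : u + 1 * v = c := by rw [hc]; ring
    rw [e4] at e1
    have hX : a ^ s = 4 * ((u * Fh 1 u v m) * (v * Gh 1 u v m)) := by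
      have f1 : c ^ (2 * m + 1) = u * Fh 1 u v m + v * Gh 1 u v m := by linarith
      have f2 : b ^ (2 * m + 1) = v * Gh 1 u v m - u * Fh 1 u v m := by linarith
      rw [has, f1, f2]
      ring
    have hXY : IsCoprime (u * Fh 1 u v m) (v * Gh 1 u v m) := by
      obtain ⟨A, B, hAB⟩ := hcoP
      refine ⟨A - B, A + B, ?_⟩
      have f1 : c ^ (2 * m + 1) = u * Fh 1 u v m + v * Gh 1 u v m := by linarith
      have f2 : b ^ (2 * m + 1) = v * Gh 1 u v m - u * Fh 1 u v m := by linarith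
      rw [f1, f2] at hAB
      linarith
    have huv : IsCoprime u v := hXY.of_mul_left_left.of_mul_right_left
    have hpar : Odd (u ^ 2 + 1 * v ^ 2) := by
      have h1 : u ^ 2 + 1 * v ^ 2 = (u + v) ^ 2 - 2 * (u * v) := by ring
      rw [h1, ← hc]
      exact hcoo.pow.sub_even (even_two_mul _)
    obtain ⟨o1, o2⟩ := FG_odd 1 u v hpar m
    obtain ⟨up, hup, F', f1, f2⟩ := cop_unif m hp 1 u v huv isCoprime_one_right
    obtain ⟨vp, hvp, G', g1, g2⟩ := cop_unifG m hp 1 u v huv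
    obtain ⟨-, -, oup⟩ := hcop up u hup
    obtain ⟨-, -, ovp⟩ := hcop vp v hvp
    have oF' : Odd F' := by
      rw [f1, Int.odd_mul] at o1
      exact o1.2
    have oG' : Odd G' := by
      rw [g1, Int.odd_mul] at o2
      exact o2.2
    have hprod : IsCoprime (((up : ℤ) * u) * F') (((vp : ℤ) * v) * G') := by
      rw [f1, g1] at hXY
      have e5 : ((up : ℤ) * u) * F' = u * (up * F') := by ring
      have e6 : ((vp : ℤ) * v) * G' = v * (vp * G') := by ring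
      rw [e5, e6]
      exact hXY
    have hiff : (((2 * m + 1 : ℕ) : ℤ) ∣ a ↔ (((2 * m + 1 : ℕ) : ℤ) ∣ u ∨
        ((2 * m + 1 : ℕ) : ℤ) ∣ v)) := by
      rw [← hdx _ hpp, hX]
      constructor
      · intro h
        have h4 : ¬ ((2 * m + 1 : ℕ) : ℤ) ∣ 4 := by
          intro h
          have : (4 : ℤ) = 2 * 2 := by norm_num
          rw [this] at h
          exact (hpp.dvd_or_dvd h).elim hp2 hp2
        rcases hpp.dvd_or_dvd ((hpp.dvd_or_dvd h).resolve_left h4) with h | h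
        · left
          rcases hpp.dvd_or_dvd h with h | h
          · exact h
          · exact (FG_dvd_p m hm1 hp 1 u v hδp).1 h
        · right
          rcases hpp.dvd_or_dvd h with h | h
          · exact h
          · exact (FG_dvd_p m hm1 hp 1 u v hδp).2 h
      · rintro (h | h)
        · exact ((h.mul_right _).mul_right _).mul_left _
        · exact ((h.mul_right _).mul_left _).mul_left _
    have hodd4 : ∀ w : ℤ, Odd w → IsCoprime (4 : ℤ) w := by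
      rintro w ⟨k, hk⟩
      have h2 : IsCoprime (2 : ℤ) w := ⟨-k, 1, by rw [hk]; ring⟩
      have : (4 : ℤ) = 2 * 2 := by norm_num
      rw [this]
      exact h2.mul_left h2
    have t1 : (2 : ℤ) ^ (2 * m) = 4 ^ m := by rw [pow_mul]; norm_num
    have hF : Fh 1 (c - b) (c + b) m = 4 ^ m * (up * F') := by
      rw [hu, hv, ← two_mul, ← two_mul, (hom_FG 1 u v 2 m).1, t1, f1]
    have hG : Gh 1 (c - b) (c + b) m = 4 ^ m * (vp * G') := by
      rw [hu, hv, ← two_mul, ← two_mul, (hom_FG 1 u v 2 m).2, t1, g1]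
    rcases Int.even_or_odd u with hue | huo
    · have hvo : Odd v := by
        by_contra hcon
        rw [Int.not_odd_iff_even] at hcon
        have : Even c := by rw [hc]; exact hue.add hcon
        exact (Int.not_even_iff_odd.mpr hcoo) this
      obtain ⟨w1, w3, w2, w4, b1, b3, b2, b4⟩ := four_factors (x := a) hsodd
        (a := 4 * ((up : ℤ) * u)) (b := F') (c := (vp : ℤ) * v) (d := G')
        ((hodd4 _ oF').mul_left f2)
        ((hodd4 _ (ovp.mul hvo)).mul_left hprod.of_mul_left_left.of_mul_right_left)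
        ((hodd4 _ oG').mul_left hprod.of_mul_left_left.of_mul_right_right)
        hprod.of_mul_left_right.of_mul_right_left hprod.of_mul_left_right.of_mul_right_right g2 (by
          rw [hX, f1, g1]
          ring)
      refine ⟨1, 2, 2, 1, up, vp, Or.inr (Or.inl ⟨rfl, rfl, rfl, rfl, hae.two_dvd⟩),
        hcase up vp u v huv hup hvp hiff, w1, w2, w3, w4, ?_, ?_, ?_, ?_⟩
      · rw [hu, ← b1]
        push_cast
        ring
      · rw [hv, ← b2]
        push_cast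
        ring
      · rw [hF, ← b3]
        push_cast
        ring
      · rw [hG, ← b4]
        push_cast
        ring
    · have hve : Even v := by
        by_contra hcon
        rw [Int.not_even_iff_odd] at hcon
        have : Even c := by rw [hc]; exact huo.add_odd hcon
        exact (Int.not_even_iff_odd.mpr hcoo) this
      obtain ⟨w1, w3, w2, w4, b1, b3, b2, b4⟩ := four_factors (x := a) hsodd
        (a := (up : ℤ) * u) (b := F') (c := 4 * ((vp : ℤ) * v)) (d := G')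
        f2 ((hodd4 _ (oup.mul huo)).symm.mul_right hprod.of_mul_left_left.of_mul_right_left)
        hprod.of_mul_left_left.of_mul_right_right
        ((hodd4 _ oF').symm.mul_right hprod.of_mul_left_right.of_mul_right_left)
        hprod.of_mul_left_right.of_mul_right_right ((hodd4 _ oG').mul_left g2) (by
          rw [hX, f1, g1]
          ring)
      refine ⟨2, 1, 1, 2, up, vp, Or.inr (Or.inr ⟨rfl, rfl, rfl, rfl, hae.two_dvd⟩),
        hcase up vp u v huv hup hvp hiff, w1, w2, w3, w4, ?_, ?_, ?_, ?_⟩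
      · rw [hu, ← b1]
        push_cast
        ring
      · rw [hv, ← b2]
        push_cast
        ring
      · rw [hF, ← b3]
        push_cast
        ring
      · rw [hG, ← b4]
        push_cast
        ring
  · -- `a` odd
    have haso : Odd ((c ^ (2 * m + 1) - b ^ (2 * m + 1)) * (c ^ (2 * m + 1) + b ^ (2 * m + 1))) := by
      rw [← has]
      exact hao.pow
    rw [Int.odd_mul] at haso
    have hUo : Odd (c - b) := by
      obtain ⟨D, hD⟩ := sub_dvd_pow_sub_pow c b (2 * m + 1)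
      have := haso.1
      rw [hD, Int.odd_mul] at this
      exact this.1
    obtain ⟨D, E, d1, d2, d3, d4⟩ := half_FG c b hU0 hV0 m
    have c1 : IsCoprime ((c - b) * D) ((c + b) * E) := by
      rw [← d1, ← d2]
      exact cop_diff_sum (IsCoprime.pow hco) haso.1
    have huv : IsCoprime (c - b) (c + b) := c1.of_mul_left_left.of_mul_right_left
    obtain ⟨up, hup, B, f1, f2⟩ := cop_unif m hp 1 (c - b) (c + b) huv isCoprime_one_right
    obtain ⟨vp, hvp, B', g1, g2⟩ := cop_unifG m hp 1 (c - b) (c + b) huv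
    obtain ⟨dup, nup, -⟩ := hcop up _ hup
    obtain ⟨dvp, nvp, -⟩ := hcop vp _ hvp
    obtain ⟨F', hF'⟩ : (up : ℤ) ∣ D := ((hp4 m).of_isCoprime_of_dvd_left dup).dvd_of_dvd_mul_left
      (by rw [← d3, f1]; exact dvd_mul_right _ _)
    obtain ⟨G', hG'⟩ : (vp : ℤ) ∣ E := ((hp4 m).of_isCoprime_of_dvd_left dvp).dvd_of_dvd_mul_left
      (by rw [← d4, g1]; exact dvd_mul_right _ _)
    have f3 : IsCoprime ((up : ℤ) * (c - b)) F' := by
      have : B = 4 ^ m * F' := by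
        apply mul_left_cancel₀ nup
        rw [← f1, d3, hF']
        ring
      rw [this] at f2
      exact f2.of_mul_right_right
    have g3 : IsCoprime ((vp : ℤ) * (c + b)) G' := by
      have : B' = 4 ^ m * G' := by
        apply mul_left_cancel₀ nvp
        rw [← g1, d4, hG']
        ring
      rw [this] at g2
      exact g2.of_mul_right_right
    have hprod : IsCoprime (((up : ℤ) * (c - b)) * F') (((vp : ℤ) * (c + b)) * G') := by
      rw [hF', hG'] at c1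
      have e5 : ((up : ℤ) * (c - b)) * F' = (c - b) * (up * F') := by ring
      have e6 : ((vp : ℤ) * (c + b)) * G' = (c + b) * (vp * G') := by ring
      rw [e5, e6]
      exact c1
    have hall : a ^ s = ((up : ℤ) * (c - b)) * F' * (((vp : ℤ) * (c + b)) * G') := by
      rw [has, d1, d2, hF', hG']
      ring
    have hiff : (((2 * m + 1 : ℕ) : ℤ) ∣ a ↔ (((2 * m + 1 : ℕ) : ℤ) ∣ c - b ∨
        ((2 * m + 1 : ℕ) : ℤ) ∣ c + b)) := by
      rw [← hdx _ hpp, has, d1, d2]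
      constructor
      · intro h
        rcases hpp.dvd_or_dvd h with h | h
        · left
          rcases hpp.dvd_or_dvd h with h | h
          · exact h
          · apply (FG_dvd_p m hm1 hp 1 (c - b) (c + b) hδp).1
            rw [d3]
            exact h.mul_left _
        · right
          rcases hpp.dvd_or_dvd h with h | h
          · exact h
          · apply (FG_dvd_p m hm1 hp 1 (c - b) (c + b) hδp).2
            rw [d4]
            exact h.mul_left _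
      · rintro (h | h)
        · exact (h.mul_right _).mul_right _
        · exact (h.mul_right _).mul_left _
    obtain ⟨w1, w3, w2, w4, b1, b3, b2, b4⟩ := four_factors (x := a) hsodd
      (a := (up : ℤ) * (c - b)) (b := F') (c := (vp : ℤ) * (c + b)) (d := G')
      f3 hprod.of_mul_left_left.of_mul_right_left hprod.of_mul_left_left.of_mul_right_right
      hprod.of_mul_left_right.of_mul_right_left hprod.of_mul_left_right.of_mul_right_right g3
      hall.symm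
    refine ⟨1, 1, 1, 1, up, vp, Or.inl ⟨rfl, rfl, rfl, rfl, ?_⟩,
      hcase up vp _ _ huv hup hvp hiff, w1, w2, w3, w4, ?_, ?_, ?_, ?_⟩
    · intro h
      exact (Int.not_even_iff_odd.mpr hao) (even_iff_two_dvd.mpr h)
    · rw [one_mul, Nat.cast_one, one_mul, b1]
    · rw [one_mul, Nat.cast_one, one_mul, b2]
    · rw [d3, hF', ← b3]
      push_cast
      ring
    · rw [d4, hG', ← b4]
      push_cast
      ring

/-- **The local theorem for `a^s + b^{2p} = c^{2p}`.** -/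
theorem diff2_loc (m : ℕ) (hm : OKm m) (s q : ℕ)
    (hsp : s.Prime) (hs2 : 2 < s) (hq : q.Prime) (hqm : 2 * (2 * m + 1) < q)
    (hsq : s ∣ q - 1) (hnb : ¬ W9 m q ((q - 1) / s)) (a b c : ℤ) (hco : IsCoprime c b)
    (hU0 : c - b ≠ 0) (hV0 : c + b ≠ 0)
    (heq : a ^ s + b ^ (2 * (2 * m + 1)) = c ^ (2 * (2 * m + 1))) :
    ((2 : ℤ) ∣ a ∧ ((2 * m + 1 : ℕ) : ℤ) ∣ a ∧ (q : ℤ) ∣ a) ∨
    (¬ (2 : ℤ) ∣ a ∧ ¬ ((2 * m + 1 : ℕ) : ℤ) ∣ a ∧ (q : ℤ) ∣ b * c) := by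
  have hF1 : Fact q.Prime := ⟨hq⟩
  have hsodd : Odd s := hsp.odd_of_ne_two (by omega)
  have hs0 : s ≠ 0 := by omega
  have hsn : s * ((q - 1) / s) = q - 1 := Nat.mul_div_cancel' hsq
  have h1q : ((1 : ℕ) : ZMod q) ≠ 0 := by rw [Nat.cast_one]; exact one_ne_zero
  have hpq : ((2 * m + 1 : ℕ) : ZMod q) ≠ 0 := natCast_ne_zero_of_lt (by omega) (by omega) (ZMod q)
  have h2q : ((2 : ℕ) : ZMod q) ≠ 0 := natCast_ne_zero_of_lt (by omega) (by omega) (ZMod q)
  have hqp : Prime (q : ℤ) := Nat.prime_iff_prime_int.mp hq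
  have hq2 : ¬ (q : ℤ) ∣ 2 := by
    intro h
    have := Nat.le_of_dvd two_pos (Int.natCast_dvd_natCast.mp (show (q : ℤ) ∣ ((2 : ℕ) : ℤ) from h))
    omega
  obtain ⟨a1, a2, b1, b2, up, vp, g2, g1, w1, w2, w3, w4, e1, e2, e3, e4⟩ :=
    diff2_factors m hm s hsodd hs0 a b c hco hU0 hV0 heq
  have huv : ¬ ((q : ℤ) ∣ c - b ∧ (q : ℤ) ∣ c + b) := by
    rintro ⟨d1, d2⟩
    have d3 : (q : ℤ) ∣ 2 * c := by
      have := dvd_add d1 d2
      rwa [show c - b + (c + b) = 2 * c by ring] at this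
    have d4 : (q : ℤ) ∣ 2 * b := by
      have := dvd_sub d2 d1
      rwa [show c + b - (c - b) = 2 * b by ring] at this
    have d6 := hco.isUnit_of_dvd' ((hqp.dvd_or_dvd d3).resolve_left hq2)
      ((hqp.dvd_or_dvd d4).resolve_left hq2)
    exact hqp.not_isUnit d6
  have ha2 : ((a2 * up : ℕ) : ZMod q) ≠ 0 := by
    rw [Nat.cast_mul]
    apply mul_ne_zero
    · rcases g2 with ⟨-, r, -⟩ | ⟨-, r, -⟩ | ⟨-, r, -⟩ <;> rw [r] <;> assumption
    · rcases g1 with ⟨r, -⟩ | ⟨r, -⟩ | ⟨r, -⟩ <;> rw [r] <;> assumption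
  have hb2 : ((b2 * vp : ℕ) : ZMod q) ≠ 0 := by
    rw [Nat.cast_mul]
    apply mul_ne_zero
    · rcases g2 with ⟨-, -, -, r, -⟩ | ⟨-, -, -, r, -⟩ | ⟨-, -, -, r, -⟩ <;> rw [r] <;> assumption
    · rcases g1 with ⟨-, r, -⟩ | ⟨-, r, -⟩ | ⟨-, r, -⟩ <;> rw [r] <;> assumption
  have main : ∀ (zU zV : Prop) (E : ℤ[X]), (zU → ¬ (q : ℤ) ∣ c - b) → (zV → ¬ (q : ℤ) ∣ c + b) →
      (∀ t : ZMod q, ((c + b : ℤ) : ZMod q) = ((c - b : ℤ) : ZMod q) * t → aeval t E ≠ 0) →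
      Cf2 m a1 a2 b1 b2 up vp zU zV E q ((q - 1) / s) := fun zU zV E hz hz' hE =>
    cf2_of m a1 a2 b1 b2 up vp zU zV E q s _ hq hsn ha2 hb2 (c - b) (c + b) w1 w2 w3 w4 huv
      e1 e2 e3 e4 hz hz' hE
  have hFalse : False → ¬ (q : ℤ) ∣ c - b := fun h => h.elim
  have hFalse' : False → ¬ (q : ℤ) ∣ c + b := fun h => h.elim
  have E1 : ∀ t : ZMod q, ((c + b : ℤ) : ZMod q) = ((c - b : ℤ) : ZMod q) * t →
      aeval t (1 : ℤ[X]) ≠ 0 := by
    intro t _
    rw [map_one]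
    exact one_ne_zero
  have hqa : (q : ℤ) ∣ c - b ∨ (q : ℤ) ∣ c + b → (q : ℤ) ∣ a := by
    intro h
    apply hqp.dvd_of_dvd_pow (n := s)
    have h2 : a ^ s = (c ^ 2) ^ (2 * m + 1) - (b ^ 2) ^ (2 * m + 1) := by
      rw [← pow_mul, ← pow_mul]
      linarith
    have h3 : c ^ 2 - b ^ 2 ∣ a ^ s := by
      rw [h2]
      exact sub_dvd_pow_sub_pow _ _ _
    refine dvd_trans ?_ h3
    have h4 : c ^ 2 - b ^ 2 = (c - b) * (c + b) := by ring
    rw [h4]
    rcases h with h | h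
    · exact h.mul_right _
    · exact h.mul_left _
  rcases g2 with ⟨r1, r2, r3, r4, r5⟩ | ⟨r1, r2, r3, r4, r5⟩ | ⟨r1, r2, r3, r4, r5⟩ <;>
    rcases g1 with ⟨t1, t2, t3⟩ | ⟨t1, t2, t3⟩ | ⟨t1, t2, t3⟩ <;>
    rw [r1, r2, r3, r4, t1, t2] at main
  · right
    refine ⟨r5, t3, ?_⟩
    by_contra hqbc
    refine hnb ⟨hm, Or.inl (Or.inl (main False False (X ^ 2 - 1) hFalse hFalse' ?_))⟩
    intro t ht h0
    rw [map_sub, map_pow, aeval_X, map_one] at h0
    apply hqbc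
    have h1 : (((c + b : ℤ) : ZMod q)) ^ 2 = (((c - b : ℤ) : ZMod q)) ^ 2 := by
      rw [ht]
      linear_combination (((c - b : ℤ) : ZMod q)) ^ 2 * h0
    have h2 : (((c + b) ^ 2 - (c - b) ^ 2 : ℤ) : ZMod q) = 0 := by
      push_cast at h1 ⊢
      rw [h1, sub_self]
    rw [ZMod.intCast_zmod_eq_zero_iff_dvd] at h2
    have h3 : (c + b) ^ 2 - (c - b) ^ 2 = 2 * (2 * (b * c)) := by ring
    rw [h3] at h2
    exact (hqp.dvd_or_dvd ((hqp.dvd_or_dvd h2).resolve_left hq2)).resolve_left hq2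
  · exact absurd ⟨hm, Or.inl (Or.inr (Or.inl (main False False 1 hFalse hFalse' E1)))⟩ hnb
  · exact absurd ⟨hm, Or.inl (Or.inr (Or.inr (main False False 1 hFalse hFalse' E1)))⟩ hnb
  · exact absurd ⟨hm, Or.inr (Or.inl (Or.inl (main False False 1 hFalse hFalse' E1)))⟩ hnb
  · left
    refine ⟨r5, t3, hqa (Or.inl ?_)⟩
    by_contra h
    exact hnb ⟨hm, Or.inr (Or.inl (Or.inr (Or.inl
      (main True False 1 (fun _ => h) hFalse' E1))))⟩
  · left
    refine ⟨r5, t3, hqa (Or.inr ?_)⟩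
    by_contra h
    exact hnb ⟨hm, Or.inr (Or.inl (Or.inr (Or.inr
      (main False True 1 hFalse (fun _ => h) E1))))⟩
  · exact absurd ⟨hm, Or.inr (Or.inr (Or.inl (main False False 1 hFalse hFalse' E1)))⟩ hnb
  · left
    refine ⟨r5, t3, hqa (Or.inl ?_)⟩
    by_contra h
    exact hnb ⟨hm, Or.inr (Or.inr (Or.inr (Or.inl
      (main True False 1 (fun _ => h) hFalse' E1))))⟩
  · left
    refine ⟨r5, t3, hqa (Or.inr ?_)⟩
    by_contra h
    exact hnb ⟨hm, Or.inr (Or.inr (Or.inr (Or.inr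
      (main False True 1 hFalse (fun _ => h) E1))))⟩

end Pool.Agent.H573.AHB
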