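import Pool.Agent.H573.AHB.PvF

/-!
Torsion points for `c^{pr} - b^{pr} = a^s`: `α + β = 1` with `α^p + β^p`, `α^r + β^r` and
`α^{pr} + β^{pr}` roots of unity.
-/

set_option autoImplicit false

namespace Pool.Agent.H573.AHB

open Polynomial

lemma prod_lt_one (s : Multiset ℂ) : (∀ x ∈ s, ‖x‖ < 1) → s ≠ 0 → ‖s.prod‖ < 1 := by
  induction s using Multiset.induction_on with
  | empty => intro _ h0; exact absurd rfl h0
  | cons a s ih =>
    intro hs _
    rw [Multiset.prod_cons, norm_mul]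
    have ha := hs a (Multiset.mem_cons_self a s)
    rcases eq_or_ne s 0 with h0 | h0
    · rw [h0, Multiset.prod_zero, norm_one, mul_one]
      exact ha
    · have h1 := ih (fun x hx => hs x (Multiset.mem_cons_of_mem hx)) h0
      have h2 := norm_nonneg a
      have h3 := norm_nonneg s.prod
      nlinarith

/-- an integral polynomial value with small conjugates is zero -/
lemma int_small_poly (w : ℂ) (hw : IsIntegral ℤ w) (P : ℤ[X])
    (h : ∀ w' : ℂ, aeval w' (minpoly ℤ w) = 0 → ‖aeval w' P‖ < 1) : aeval w P = 0 := by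
  obtain ⟨D, hD⟩ : ∃ D, D = minpoly ℤ w := ⟨_, rfl⟩
  have hmon : D.Monic := by rw [hD]; exact minpoly.monic hw
  have hw0 : aeval w D = 0 := by rw [hD]; exact minpoly.aeval ℤ w
  rw [← hD] at h
  have hirr : Irreducible D := by rw [hD]; exact minpoly.irreducible hw
  have hdeg0 : D.natDegree ≠ 0 := by
    rw [hD]
    exact (minpoly.natDegree_pos hw).ne'
  by_contra hne
  have hnd : ¬ D ∣ P := by
    rintro ⟨Q, hQ⟩
    apply hne
    rw [hQ, map_mul, hw0, zero_mul]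
  obtain ⟨Dc, hDc⟩ : ∃ Dc : ℂ[X], Dc = D.map (Int.castRingHom ℂ) := ⟨_, rfl⟩
  obtain ⟨Pc, hPc⟩ : ∃ Pc : ℂ[X], Pc = P.map (Int.castRingHom ℂ) := ⟨_, rfl⟩
  have hmonc : Dc.Monic := by rw [hDc]; exact hmon.map _
  have hdeg : D.natDegree = Dc.natDegree := by
    rw [hDc]
    exact (natDegree_map_eq_of_injective (RingHom.injective_int _) D).symm
  have hevP : ∀ z : ℂ, Pc.eval z = aeval z P := by
    intro z
    rw [hPc, eval_map]
    rfl
  have h1 : (((resultant D P D.natDegree P.natDegree : ℤ)) : ℂ) =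
      (Dc.roots.map (fun z => Pc.eval z)).prod := by
    have h2 : (((resultant D P D.natDegree P.natDegree : ℤ)) : ℂ) =
        resultant Dc Pc D.natDegree P.natDegree := by
      rw [hDc, hPc, resultant_map_map]
      simp
    rw [h2, hdeg, resultant_eq_prod_eval _ _ P.natDegree (by rw [hPc]; exact natDegree_map_le)
      (IsAlgClosed.splits _), hmonc.leadingCoeff, one_pow, one_mul]
  have hroot : ∀ z ∈ Dc.roots, aeval z D = 0 := by
    intro z hz
    have hz' := (mem_roots'.mp hz).2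
    rw [IsRoot.def, hDc, eval_map] at hz'
    exact hz'
  have hne0 : Dc.roots.map (fun z => Pc.eval z) ≠ 0 := by
    intro h0
    rw [Multiset.map_eq_zero] at h0
    have : w ∈ Dc.roots := by
      rw [mem_roots hmonc.ne_zero, IsRoot.def, hDc, eval_map]
      exact hw0
    rw [h0] at this
    exact absurd this (Multiset.notMem_zero w)
  have hlt : ‖(Dc.roots.map (fun z => Pc.eval z)).prod‖ < 1 := by
    apply prod_lt_one _ _ hne0
    intro x hx
    obtain ⟨z, hz, rfl⟩ := Multiset.mem_map.mp hx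
    rw [hevP]
    exact h z (hroot z hz)
  rw [← h1, Complex.norm_intCast] at hlt
  have hR : resultant D P D.natDegree P.natDegree = 0 := by
    have h3 : |resultant D P D.natDegree P.natDegree| < 1 := by exact_mod_cast hlt
    exact Int.abs_lt_one_iff.mp h3
  rw [hR, Int.cast_zero] at h1
  have h4 := h1.symm
  rw [Multiset.prod_eq_zero_iff, Multiset.mem_map] at h4
  obtain ⟨z, hz, hPz⟩ := h4
  rw [hevP] at hPz
  exact hnd (dvd_of_common_root hirr hdeg0 (hroot z hz) hPz)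

/-- `X^n + (1-X)^n` -/
noncomputable def SP (n : ℕ) : ℤ[X] := X ^ n + (1 - X) ^ n

lemma aeval_SP (n : ℕ) (w : ℂ) : aeval w (SP n) = w ^ n + (1 - w) ^ n := by
  unfold SP
  rw [map_add, map_pow, map_pow, map_sub, map_one, aeval_X]

lemma SP_coeff (j k : ℕ) : (SP (2 * j + 1)).coeff k =
    (if k = 2 * j + 1 then 1 else 0) - (-1) ^ (2 * j + 1 - k) * ((2 * j + 1).choose k : ℤ) := by
  have e : (1 - X : ℤ[X]) ^ (2 * j + 1) = - (X + C (-1)) ^ (2 * j + 1) := by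
    have h1 : (1 - X : ℤ[X]) = - (X + C (-1)) := by
      rw [map_neg, map_one]
      ring
    rw [h1, Odd.neg_pow ⟨j, rfl⟩]
  unfold SP
  rw [e, coeff_add, coeff_neg, coeff_X_add_C_pow, coeff_X_pow]
  ring

lemma SP_top (j : ℕ) : (SP (2 * j + 1)).natDegree ≤ 2 * j ∧
    (SP (2 * j + 1)).coeff (2 * j) = 2 * (j : ℤ) + 1 := by
  constructor
  · rw [natDegree_le_iff_coeff_eq_zero]
    intro k hk
    rw [SP_coeff]
    rcases Nat.lt_or_ge (2 * j + 1) k with h | h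
    · rw [if_neg (by omega), Nat.choose_eq_zero_of_lt h]
      simp
    · have hk' : k = 2 * j + 1 := by omega
      rw [hk', if_pos rfl, Nat.sub_self, Nat.choose_self]
      simp
  · rw [SP_coeff, if_neg (by omega)]
    have h1 : 2 * j + 1 - 2 * j = 1 := by omega
    have h2 : (2 * j + 1).choose (2 * j) = 2 * j + 1 := Nat.choose_succ_self_right (2 * j)
    rw [h1, h2]
    push_cast
    ring

lemma SP_int (j N : ℕ) (hj : 1 ≤ j) (hN : 1 ≤ N) (w : ℂ) (h : (aeval w (SP (2 * j + 1))) ^ N = 1) :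
    IsIntegral ℤ (((2 * (j : ℤ) + 1) ^ N : ℤ) • w) := by
  obtain ⟨hd, htop⟩ := SP_top j
  have hc0 : 2 * (j : ℤ) + 1 ≠ 0 := by omega
  have hdj : (SP (2 * j + 1)).natDegree = 2 * j := by
    apply le_antisymm hd
    apply le_natDegree_of_ne_zero
    rw [htop]
    exact hc0
  have hlc : (SP (2 * j + 1)).leadingCoeff = 2 * (j : ℤ) + 1 := by
    rw [leadingCoeff, hdj, htop]
  have hlN : ((SP (2 * j + 1)) ^ N).leadingCoeff = (2 * (j : ℤ) + 1) ^ N := by
    rw [leadingCoeff_pow, hlc]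
  have hdN : ((SP (2 * j + 1)) ^ N).natDegree = N * (2 * j) := by rw [natDegree_pow, hdj]
  have hpos : 0 < N * (2 * j) := Nat.mul_pos (by omega) (by omega)
  have hne : (SP (2 * j + 1)) ^ N ≠ 0 := by
    intro h0
    rw [h0, natDegree_zero] at hdN
    omega
  have hlP : ((SP (2 * j + 1)) ^ N - 1).leadingCoeff = (2 * (j : ℤ) + 1) ^ N := by
    rw [← hlN]
    apply leadingCoeff_sub_of_degree_lt
    rw [degree_one, degree_eq_natDegree hne, hdN]
    exact_mod_cast hpos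
  have h4 : aeval w ((SP (2 * j + 1)) ^ N - 1) = 0 := by
    rw [map_sub, map_pow, map_one, h, sub_self]
  have h5 := isIntegral_leadingCoeff_smul _ _ h4
  rw [hlP] at h5
  exact h5

lemma SP_one (p N : ℕ) (hp : p.Prime) (hp3 : 3 ≤ p) (hN : 1 ≤ N) (w : ℂ) (hw : IsIntegral ℤ w)
    (h : (aeval w (SP p)) ^ N = 1) : aeval w (SP p) = 1 := by
  obtain ⟨r, hr⟩ := exists_add_pow_prime_eq hp (X : ℤ[X]) (1 - X)
  have h1 : SP p = 1 + C (p : ℤ) * (-(X * (1 - X) * r)) := by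
    unfold SP
    have h2 : (X + (1 - X) : ℤ[X]) = 1 := by ring
    rw [h2, one_pow] at hr
    have h3 : (C (p : ℤ) : ℤ[X]) = (p : ℤ[X]) := by simp
    rw [h3]
    linear_combination -hr
  have h2 : aeval w (SP p) = 1 + (p : ℂ) * aeval w (-(X * (1 - X) * r)) := by
    rw [h1, map_add, map_one, map_mul, aeval_C]
    simp
  rw [h2] at h
  have h3 := unity_one p N hp3 hN _ (int_aeval hw _) h
  rw [h2, h3, mul_zero, add_zero]

/-- the size of a solution of `u^p + (1-u)^p = 1` -/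
lemma SP_bound (p : ℕ) (hp : Odd p) (hp3 : 3 ≤ p) (u : ℂ) (h : u ^ p + (1 - u) ^ p = 1) :
    ‖u‖ < p := by
  by_contra hcon
  push Not at hcon
  have hpr : (3 : ℝ) ≤ p := by exact_mod_cast hp3
  have hu0 : u ≠ 0 := by
    rintro rfl
    rw [norm_zero] at hcon
    linarith
  obtain ⟨x, hx⟩ : ∃ x : ℂ, x = u⁻¹ := ⟨_, rfl⟩
  have hux : u * x = 1 := by rw [hx, mul_inv_cancel₀ hu0]
  have hx0 : x ≠ 0 := by
    rintro rfl
    rw [mul_zero] at hux
    exact zero_ne_one hux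
  obtain ⟨ρ, hρ⟩ : ∃ ρ : ℝ, ρ = ‖x‖ := ⟨_, rfl⟩
  have hρ0 : 0 < ρ := by rw [hρ]; exact norm_pos_iff.mpr hx0
  have hρ1 : ρ * p ≤ 1 := by
    have h1 : ‖u‖ * ρ = 1 := by rw [hρ, ← norm_mul, hux, norm_one]
    nlinarith
  have h1 : 1 - (1 - x) ^ p = x ^ p := by
    have h2 : (u * (1 - x)) ^ p = -(1 - u) ^ p := by
      have : u * (1 - x) = -(1 - u) := by rw [mul_sub, hux]; ring
      rw [this, hp.neg_pow]
    have h3 : u ^ p * (1 - (1 - x) ^ p) = u ^ p * x ^ p := by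
      rw [mul_sub, mul_one, ← mul_pow, ← mul_pow, h2, hux, one_pow]
      linear_combination h
    exact mul_left_cancel₀ (pow_ne_zero p hu0) h3
  have key : ∀ n : ℕ, ‖(1 - x) ^ n - 1 + n * x‖ ≤ (1 + ρ) ^ n - 1 - n * ρ := by
    intro n
    induction n with
    | zero => simp
    | succ n ih =>
      have e1 : (1 - x) ^ (n + 1) - 1 + ((n + 1 : ℕ) : ℂ) * x =
          (1 - x) * ((1 - x) ^ n - 1 + n * x) + n * x ^ 2 := by
        push_cast
        ring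
      rw [e1]
      have e2 : ‖(1 - x)‖ ≤ 1 + ρ := by
        rw [hρ]
        refine (norm_sub_le _ _).trans ?_
        rw [norm_one]
      have e3 : ‖(n : ℂ) * x ^ 2‖ = n * ρ ^ 2 := by
        rw [norm_mul, norm_pow, Complex.norm_natCast, hρ]
      refine (norm_add_le _ _).trans ?_
      rw [norm_mul, e3]
      have e4 : ‖1 - x‖ * ‖(1 - x) ^ n - 1 + n * x‖ ≤ (1 + ρ) * ((1 + ρ) ^ n - 1 - n * ρ) :=
        mul_le_mul e2 ih (norm_nonneg _) (by linarith)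
      refine (add_le_add_left e4 _).trans (le_of_eq ?_)
      push_cast
      ring
  have k1 := key p
  have k2 : (p : ℝ) * ρ - ‖x ^ p‖ ≤ ‖(1 - x) ^ p - 1 + p * x‖ := by
    have e1 : (p : ℂ) * x = ((1 - x) ^ p - 1 + p * x) + (1 - (1 - x) ^ p) := by ring
    have e2 := norm_add_le ((1 - x) ^ p - 1 + p * x) (1 - (1 - x) ^ p)
    rw [← e1, norm_mul, Complex.norm_natCast, ← hρ, h1] at e2
    linarith
  have k3 : (1 + ρ) ^ p ≤ Real.exp (p * ρ) := by
    have h2 := Real.add_one_le_exp ρ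
    calc (1 + ρ) ^ p ≤ (Real.exp ρ) ^ p := pow_le_pow_left₀ (by linarith) (by linarith) p
      _ = Real.exp (p * ρ) := by rw [← Real.exp_nat_mul]
  have k4 : Real.exp (p * ρ) ≤ 1 + 1.7183 * (p * ρ) := by
    have hc := convexOn_exp.2 (Set.mem_univ (1 : ℝ)) (Set.mem_univ (0 : ℝ))
      (show (0 : ℝ) ≤ p * ρ by positivity) (show (0 : ℝ) ≤ 1 - p * ρ by linarith) (by ring)
    simp only [smul_eq_mul, mul_one, mul_zero, add_zero, Real.exp_zero] at hc
    have he := Real.exp_one_lt_d9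
    have hpos : (0 : ℝ) < p * ρ := by positivity
    nlinarith
  have k5 : ‖x ^ p‖ ≤ ρ / 9 := by
    rw [norm_pow, ← hρ]
    obtain ⟨k, rfl⟩ : ∃ k, p = k + 3 := ⟨p - 3, by omega⟩
    have hρ3 : ρ ≤ 1 / 3 := by
      push_cast at hρ1 hpr
      nlinarith
    have e1 : ρ ^ k ≤ 1 := pow_le_one₀ hρ0.le (by linarith)
    have e2 : ρ ^ (k + 3) = ρ ^ k * (ρ * ρ ^ 2) := by ring
    have e3 : ρ ^ 2 ≤ 1 / 9 := by nlinarith
    rw [e2]
    have e4 : 0 < ρ ^ k := pow_pos hρ0 k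
    have e5 : ρ * ρ ^ 2 ≤ ρ / 9 := by nlinarith
    nlinarith [mul_nonneg hρ0.le (sq_nonneg ρ)]
  nlinarith

lemma pow_big_num (p r : ℕ) (hp : 7 ≤ p) (hr : p + 2 ≤ r) : (p : ℝ) ^ 2 ≤ (8 / 5 : ℝ) ^ r := by
  have h1 : ∀ k : ℕ, ((k + 7 : ℕ) : ℝ) ^ 2 ≤ (8 / 5 : ℝ) ^ (k + 9) := by
    intro k
    induction k with
    | zero => norm_num
    | succ k ih =>
      have e1 : (8 / 5 : ℝ) ^ (k + 1 + 9) = 8 / 5 * (8 / 5 : ℝ) ^ (k + 9) := by ring
      rw [e1]
      have hk : (0 : ℝ) ≤ k := Nat.cast_nonneg k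
      push_cast at ih ⊢
      nlinarith
  obtain ⟨k, rfl⟩ : ∃ k, p = k + 7 := ⟨p - 7, by omega⟩
  refine (h1 k).trans (pow_le_pow_right₀ (by norm_num) (by omega))

lemma plane_ineq (x y : ℝ) (hx0 : 0 ≤ x) (hy0 : 0 ≤ y) (hx : x ≤ 8 / 5) (hy : y ≤ 8 / 5) :
    x * y * (1 - x - y + x ^ 2 - x * y + y ^ 2) < 1 := by
  obtain ⟨s, hs⟩ : ∃ s, s = x + y := ⟨_, rfl⟩
  obtain ⟨A, hA⟩ : ∃ A, A = x * y := ⟨_, rfl⟩
  have e1 : x * y * (1 - x - y + x ^ 2 - x * y + y ^ 2) = A * (1 - s + s ^ 2 - 3 * A) := by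
    rw [hs, hA]
    ring
  rw [e1]
  have hs0 : 0 ≤ s := by rw [hs]; linarith
  have hA0 : 0 ≤ A := by rw [hA]; positivity
  rcases le_total s 2 with h | h
  · have h1 : 1 - s + s ^ 2 ≤ 3 := by nlinarith
    have h2 : 0 ≤ 1 - s + s ^ 2 := by nlinarith [sq_nonneg (s - 1 / 2)]
    nlinarith [sq_nonneg (1 - s + s ^ 2 - 6 * A)]
  · have hs3 : s ≤ 16 / 5 := by rw [hs]; linarith
    have hA1 : 8 / 5 * s - 64 / 25 ≤ A := by
      rw [hs, hA]
      nlinarith [mul_nonneg (sub_nonneg.mpr hx) (sub_nonneg.mpr hy)]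
    obtain ⟨B, hB⟩ : ∃ B, B = 8 / 5 * s - 64 / 25 := ⟨_, rfl⟩
    rw [← hB] at hA1
    have h3 : 1 - s + s ^ 2 ≤ 6 * B := by rw [hB]; nlinarith
    have h4 : A * (1 - s + s ^ 2 - 3 * A) ≤ B * (1 - s + s ^ 2 - 3 * B) := by
      nlinarith [mul_nonneg (sub_nonneg.mpr hA1) (show 0 ≤ 3 * (A + B) - (1 - s + s ^ 2) by linarith)]
    refine lt_of_le_of_lt h4 ?_
    rw [hB]
    have h5 : (0 : ℝ) ≤ (s - 2) := by linarith
    have h6 : (0 : ℝ) ≤ (16 / 5 - s) := by linarith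
    nlinarith [mul_nonneg h5 h6, mul_nonneg (mul_nonneg h5 h6) h6, mul_nonneg (mul_nonneg h5 h5) h6,
      sq_nonneg (s - 2.6)]

lemma lens_small (w : ℂ) (h1 : ‖w‖ ^ 2 ≤ 8 / 5) (h2 : ‖1 - w‖ ^ 2 ≤ 8 / 5) :
    ‖w * (1 - w) * (1 - w * (1 - w))‖ < 1 := by
  have h3 : ‖w * (1 - w) * (1 - w * (1 - w))‖ ^ 2 < 1 := by
    rw [norm_mul, norm_mul, mul_pow, mul_pow]
    have h4 : ‖1 - w * (1 - w)‖ ^ 2 = 1 - ‖w‖ ^ 2 - ‖1 - w‖ ^ 2 + (‖w‖ ^ 2) ^ 2 -
        ‖w‖ ^ 2 * ‖1 - w‖ ^ 2 + (‖1 - w‖ ^ 2) ^ 2 := by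
      rw [← Complex.normSq_eq_norm_sq, ← Complex.normSq_eq_norm_sq, ← Complex.normSq_eq_norm_sq,
        Complex.normSq_apply, Complex.normSq_apply, Complex.normSq_apply]
      simp only [Complex.sub_re, Complex.sub_im, Complex.one_re, Complex.one_im, Complex.mul_re,
        Complex.mul_im]
      ring
    rw [h4]
    exact plane_ineq _ _ (by positivity) (by positivity) h1 h2
  by_contra hcon
  push Not at hcon
  have := one_le_pow₀ hcon (n := 2)
  linarith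

lemma gamma_zero (m l : ℕ) (hm : 1 ≤ m) (hp : (2 * m + 1).Prime) (hlt : m < l) (w : ℂ)
    (hw : IsIntegral ℤ w) (h1 : aeval w (SP (2 * m + 1)) = 1)
    (h2 : aeval w (SP (2 * l + 1)) = 1) (h3 : aeval (w ^ (2 * l + 1)) (SP (2 * m + 1)) = 1) :
    w * (1 - w) * (1 - w * (1 - w)) = 0 := by
  rcases Nat.lt_or_ge m 3 with hm3 | hm3
  · have hm' : m = 1 ∨ m = 2 := by omega
    rw [aeval_SP] at h1
    rcases hm' with rfl | rfl
    · have h4 : w * (1 - w) = 0 := by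
        have : (3 : ℂ) * (w * (1 - w)) = 0 := by
          norm_num at h1
          linear_combination -h1
        rcases mul_eq_zero.mp this with h | h
        · norm_num at h
        · exact h
      rw [h4, zero_mul]
    · have : (5 : ℂ) * (w * (1 - w) * (1 - w * (1 - w))) = 0 := by
        norm_num at h1
        linear_combination -h1
      rcases mul_eq_zero.mp this with h | h
      · norm_num at h
      · exact h
  · have hP : w * (1 - w) * (1 - w * (1 - w)) =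
        aeval w ((X : ℤ[X]) * (1 - X) * (1 - X * (1 - X))) := by simp
    rw [hP]
    apply int_small_poly w hw
    intro w' hw'
    have conj : ∀ P : ℤ[X], aeval w P = 1 → aeval w' P = 1 := by
      intro P hP
      have hdvd : minpoly ℤ w ∣ P - 1 := by
        apply minpoly.isIntegrallyClosed_dvd hw
        rw [map_sub, map_one, hP, sub_self]
      obtain ⟨E, hE⟩ := hdvd
      have h4 : aeval w' (P - 1) = 0 := by rw [hE, map_mul, hw', zero_mul]
      rw [map_sub, map_one, sub_eq_zero] at h4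
      exact h4
    have c2 := conj _ h2
    have c3 : aeval (w' ^ (2 * l + 1)) (SP (2 * m + 1)) = 1 := by
      have h4 : ∀ v : ℂ, aeval v ((SP (2 * m + 1)).comp (X ^ (2 * l + 1))) =
          aeval (v ^ (2 * l + 1)) (SP (2 * m + 1)) := by
        intro v
        rw [aeval_comp, map_pow, aeval_X]
      have h5 := conj ((SP (2 * m + 1)).comp (X ^ (2 * l + 1))) (by rw [h4, h3])
      rw [h4] at h5
      exact h5
    rw [aeval_SP] at c2 c3
    have hodd : Odd (2 * m + 1) := ⟨m, rfl⟩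
    have b1 := SP_bound (2 * m + 1) hodd (by omega) _ c3
    have c4 : 1 - w' ^ (2 * l + 1) = (1 - w') ^ (2 * l + 1) := by linear_combination -c2
    have b2 : ‖(1 - w') ^ (2 * l + 1)‖ < (2 * m + 1 : ℕ) := by
      apply SP_bound (2 * m + 1) hodd (by omega)
      have : 1 - (1 - w') ^ (2 * l + 1) = w' ^ (2 * l + 1) := by rw [← c4]; ring
      rw [this, ← c4]
      linear_combination c3
    have key : ∀ v : ℂ, ‖v ^ (2 * l + 1)‖ < (2 * m + 1 : ℕ) → ‖v‖ ^ 2 ≤ 8 / 5 := by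
      intro v hv
      by_contra hcon
      push Not at hcon
      have n1 := pow_big_num (2 * m + 1) (2 * l + 1) (by omega) (by omega)
      have n2 : (8 / 5 : ℝ) ^ (2 * l + 1) ≤ (‖v‖ ^ 2) ^ (2 * l + 1) :=
        pow_le_pow_left₀ (by norm_num) hcon.le _
      have n3 : (‖v‖ ^ 2) ^ (2 * l + 1) = (‖v ^ (2 * l + 1)‖) ^ 2 := by
        rw [norm_pow]
        ring
      have n4 : (‖v ^ (2 * l + 1)‖) ^ 2 < ((2 * m + 1 : ℕ) : ℝ) ^ 2 :=
        pow_lt_pow_left₀ hv (norm_nonneg _) two_ne_zero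
      linarith
    have := lens_small w' (key w' b1) (key (1 - w') b2)
    simpa using this

/-- torsion points for the constants `4^m, 4^l, 4^{2ml}` -/
lemma no_torsion4_lt (m l N : ℕ) (hm : 1 ≤ m) (hl : 1 ≤ l)
    (hp : (2 * m + 1).Prime) (hr : (2 * l + 1).Prime) (hlt : m < l)
    (ψ : ℤ[X]) (hψ : IsPsi 1 m l ψ) (hN : 1 ≤ N) (z : ℂ)
    (h1 : (aeval z (fp 1 m)) ^ N = (4 ^ m) ^ N) (h2 : (aeval z (fp 1 l)) ^ N = (4 ^ l) ^ N)
    (h3 : (aeval z ψ) ^ N = (4 ^ (2 * (m * l))) ^ N) :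
    (z ^ 2 - 1) * (z ^ 2 + 3) = 0 ∧ (m = 1 → z ^ 2 - 1 = 0) := by
  obtain ⟨w, hw⟩ : ∃ w : ℂ, w = (1 + z) / 2 := ⟨_, rfl⟩
  have hw' : 1 - w = (1 - z) / 2 := by rw [hw]; ring
  have hc1 : ((1 : ℤ) : ℂ) = 1 := Int.cast_one
  -- the relation with `S_k`
  have hS : ∀ (j : ℕ) (t : ℂ), ((1 + t) / 2) ^ (2 * j + 1) + ((1 - t) / 2) ^ (2 * j + 1) =
      Fh (1 : ℂ) 1 t j / 4 ^ j := by
    intro j t
    have e1 := pow_FG (δ := (1 : ℂ)) (ω := 1) (by norm_num) 1 t j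
    have e2 := pow_FG' (δ := (1 : ℂ)) (ω := 1) (by norm_num) 1 t j
    rw [one_mul] at e1 e2
    have e3 : (2 : ℂ) ^ (2 * j + 1) = 2 * 4 ^ j := by
      rw [pow_succ, pow_mul]
      norm_num
      ring
    rw [div_pow, div_pow, e1, e2, e3]
    have h4 : (4 : ℂ) ^ j ≠ 0 := pow_ne_zero _ (by norm_num)
    field_simp
    ring
  have hD : ∀ (j : ℕ) (t : ℂ), ((1 + t) / 2) ^ (2 * j + 1) - ((1 - t) / 2) ^ (2 * j + 1) =
      t * Gh (1 : ℂ) 1 t j / 4 ^ j := by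
    intro j t
    have e1 := pow_FG (δ := (1 : ℂ)) (ω := 1) (by norm_num) 1 t j
    have e2 := pow_FG' (δ := (1 : ℂ)) (ω := 1) (by norm_num) 1 t j
    rw [one_mul] at e1 e2
    have e3 : (2 : ℂ) ^ (2 * j + 1) = 2 * 4 ^ j := by
      rw [pow_succ, pow_mul]
      norm_num
      ring
    rw [div_pow, div_pow, e1, e2, e3]
    have h4 : (4 : ℂ) ^ j ≠ 0 := pow_ne_zero _ (by norm_num)
    field_simp
    ring
  have h40 : ∀ j : ℕ, ((4 : ℂ) ^ j) ^ N ≠ 0 := fun j => pow_ne_zero _ (pow_ne_zero _ (by norm_num))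
  have g : ∀ (j : ℕ) (t : ℂ), (Fh (1 : ℂ) 1 t j) ^ N = (4 ^ j) ^ N →
      (aeval ((1 + t) / 2) (SP (2 * j + 1))) ^ N = 1 := by
    intro j t h
    have e1 : 1 - (1 + t) / 2 = (1 - t) / 2 := by ring
    rw [aeval_SP, e1, hS, div_pow, h, div_self (h40 j)]
  rw [aeval_fp, hc1] at h1 h2
  have s1 := g m z h1
  have s2 := g l z h2
  rw [← hw] at s1 s2
  -- `w` is integral
  have i1 := SP_int m N hm hN w s1
  have i2 := SP_int l N hl hN w s2
  have hcop : IsCoprime ((2 * (m : ℤ) + 1) ^ N) ((2 * (l : ℤ) + 1) ^ N) := by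
    apply IsCoprime.pow
    have h4 : Nat.Coprime (2 * m + 1) (2 * l + 1) := (Nat.coprime_primes hp hr).mpr (by omega)
    have h5 := Nat.isCoprime_iff_coprime.mpr h4
    push_cast at h5
    exact h5
  have hwi : IsIntegral ℤ w := by
    obtain ⟨a, b, hab⟩ := hcop
    have h4 : w = a • (((2 * (m : ℤ) + 1) ^ N : ℤ) • w) + b • (((2 * (l : ℤ) + 1) ^ N : ℤ) • w) := by
      rw [smul_smul, smul_smul, ← add_smul, hab, one_smul]
    rw [h4]
    exact (i1.smul a).add (i2.smul b)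
  have t1 := SP_one (2 * m + 1) N hp (by omega) hN w hwi s1
  have t2 := SP_one (2 * l + 1) N hr (by omega) hN w hwi s2
  -- the values of `f_p, f_r`
  have hne4 : ∀ j : ℕ, (4 : ℂ) ^ j ≠ 0 := fun j => pow_ne_zero _ (by norm_num)
  have v1 : Fh (1 : ℂ) 1 z m = 4 ^ m := by
    have h4 := hS m z
    rw [aeval_SP, hw', hw, h4] at t1
    rwa [div_eq_one_iff_eq (hne4 m)] at t1
  have v2 : Fh (1 : ℂ) 1 z l = 4 ^ l := by
    have h4 := hS l z
    rw [aeval_SP, hw', hw, h4] at t2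
    rwa [div_eq_one_iff_eq (hne4 l)] at t2
  -- the second level
  obtain ⟨z2, hz2⟩ : ∃ z2 : ℂ, z2 = z * Gh (1 : ℂ) 1 z l / 4 ^ l := ⟨_, rfl⟩
  have hA : (1 + z2) / 2 = w ^ (2 * l + 1) := by
    have e1 := hS l z
    have e2 := hD l z
    rw [v2, div_self (hne4 l)] at e1
    rw [← hz2] at e2
    rw [← hw] at e1 e2
    linear_combination -(1 / 2 : ℂ) * e1 - (1 / 2 : ℂ) * e2
  have v3 : (Fh (1 : ℂ) 1 z2 m) ^ N = (4 ^ m) ^ N := by
    have h4 := aeval_pA z 1 l m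
    rw [hψ.hB, map_mul, aeval_fp, hc1, v1, v2] at h4
    have e1 : z * Gh (1 : ℂ) 1 z l = 4 ^ l * z2 := by
      rw [hz2]
      field_simp
    have e2 : (4 : ℂ) ^ l = 4 ^ l * 1 := (mul_one _).symm
    rw [e1] at h4
    have e3 : Fh (1 : ℂ) (4 ^ l) (4 ^ l * z2) m = (4 ^ l) ^ (2 * m) * Fh (1 : ℂ) 1 z2 m := by
      conv_lhs => rw [e2]
      have := (hom_FG (1 : ℂ) 1 z2 (4 ^ l) m).1
      rw [← this, mul_one]
    rw [e3] at h4
    have e5 : ((4 : ℂ) ^ l) ^ (2 * m) = 4 ^ (2 * (m * l)) := by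
      rw [← pow_mul]
      congr 1
      ring
    rw [e5] at h4
    have h5 : ((4 : ℂ) ^ (2 * (m * l))) ^ N * (Fh (1 : ℂ) 1 z2 m) ^ N =
        ((4 : ℂ) ^ (2 * (m * l))) ^ N * (4 ^ m) ^ N := by
      rw [← mul_pow, ← h4, mul_pow, h3]
      ring
    exact mul_left_cancel₀ (h40 _) h5
  have s3 := g m z2 v3
  rw [hA] at s3
  have t3 := SP_one (2 * m + 1) N hp (by omega) hN _ (hwi.pow _) s3
  have hz := gamma_zero m l hm hp hlt w hwi t1 t2 t3
  rw [hw'] at hz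
  rw [hw] at hz
  refine ⟨by linear_combination 16 * (-hz), ?_⟩
  intro hm1
  rw [aeval_SP, hw', hw, hm1] at t1
  norm_num at t1
  linear_combination (4 / 3 : ℂ) * t1

/-- torsion points for the constants `4^m, 4^l, 4^{2ml}` -/
lemma no_torsion4 (m l N : ℕ) (hm : 1 ≤ m) (hl : 1 ≤ l)
    (hp : (2 * m + 1).Prime) (hr : (2 * l + 1).Prime) (hne : m ≠ l)
    (ψ : ℤ[X]) (hψ : IsPsi 1 m l ψ) (hN : 1 ≤ N) (z : ℂ)
    (h1 : (aeval z (fp 1 m)) ^ N = (4 ^ m) ^ N) (h2 : (aeval z (fp 1 l)) ^ N = (4 ^ l) ^ N)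
    (h3 : (aeval z ψ) ^ N = (4 ^ (2 * (m * l))) ^ N) :
    (z ^ 2 - 1) * (z ^ 2 + 3) = 0 ∧ (m = 1 ∨ l = 1 → z ^ 2 - 1 = 0) := by
  rcases lt_or_gt_of_ne hne with h | h
  · obtain ⟨g1, g2⟩ := no_torsion4_lt m l N hm hl hp hr h ψ hψ hN z h1 h2 h3
    exact ⟨g1, fun h' => g2 (by omega)⟩
  · obtain ⟨g1, g2⟩ := no_torsion4_lt l m N hl hm hr hp h ψ hψ.symm hN z h2 h1
      (by rw [mul_comm l m]; exact h3)
    exact ⟨g1, fun h' => g2 (by omega)⟩

end Pool.Agent.H573.AHB
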