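import Pool.Agent.H573.AHB.PvG

/-!
The equation `a^s = c^{pr} - b^{pr}` with `a` prime to `pr`.
-/

set_option autoImplicit false

namespace Pool.Agent.H573.AHB

open Polynomial

/-- the excluded parameters -/
noncomputable def E5 (m l : ℕ) : ℤ[X] :=
  if m = 1 ∨ l = 1 then X ^ 2 - 1 else (X ^ 2 - 1) * (X ^ 2 + 3)

/-- the configuration of the first case -/
def Cfg5 (m l : ℕ) (ψ : ℤ[X]) (q n : ℕ) : Prop :=
  BadPG 1 m l ψ 1 (4 ^ m) 1 (4 ^ l) 1 (4 ^ (2 * (m * l))) False (E5 m l) q n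

theorem ucount_first4 (m l : ℕ) (h : PR m l)
    (ψ : ℤ[X]) (hψ : IsPsi 1 m l ψ) (N k : ℕ) (hN : N = (2 * m + 1) * (2 * l + 1))
    (hkm : m ≤ k) (hkl : l ≤ k) (hkk : 2 * (m * l) ≤ k) :
    UCount (Cfg5 m l ψ) (Kp4 N k) N := by
  obtain ⟨hm, hl, hp, hr, hne⟩ := h
  have hco : Nat.Coprime (2 * m + 1) (2 * l + 1) :=
    (Nat.coprime_primes hp hr).mpr (by omega)
  obtain ⟨B, hB⟩ := exists_val (2 * m + 1) hp
  obtain ⟨B', hB'⟩ := exists_val (2 * l + 1) hr
  have hprl : ¬ (2 * m + 1) ∣ 2 * l + 1 := by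
    intro h
    have := (Nat.prime_dvd_prime_iff_eq hp hr).mp h
    omega
  have hprm : ¬ (2 * l + 1) ∣ 2 * m + 1 := by
    intro h
    have := (Nat.prime_dvd_prime_iff_eq hr hp).mp h
    omega
  have hN1 : 2 ≤ N := by
    rw [hN]
    have : 3 * 3 ≤ (2 * m + 1) * (2 * l + 1) := Nat.mul_le_mul (by omega) (by omega)
    omega
  have hm' : 2 * m + 1 ≤ N := Nat.le_of_dvd (by omega) (by rw [hN]; exact dvd_mul_right _ _)
  have hl' : 2 * l + 1 ≤ N := Nat.le_of_dvd (by omega) (by rw [hN]; exact dvd_mul_left _ _)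
  have d4 : ∀ j, j ≤ k → 4 ^ j ∣ 4 ^ k * N := fun j hj => (pow_dvd_pow 4 hj).mul_right _
  obtain ⟨a1, a2, a3⟩ := par_ok4 N k 1 hN1 (one_dvd _)
  obtain ⟨b1, b2, b3⟩ := par_ok4 N k (4 ^ m) hN1 (d4 m hkm)
  obtain ⟨d1, d2, d3⟩ := par_ok4 N k (4 ^ l) hN1 (d4 l hkl)
  obtain ⟨g1, g2, g3⟩ := par_ok4 N k (4 ^ (2 * (m * l))) hN1 (d4 _ hkk)
  have c1 : ∀ k x : ℕ, ((1 ^ k * x : ℕ) : ℂ) = x := by intro k x; rw [one_pow, one_mul]
  have cm : ∀ P : ℤ[X], C ((1 : ℕ) : ℤ) * P = P := by intro P; simp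
  have v4 : ∀ j : ℕ, B.valuation ((4 ^ j : ℕ) : ℂ) = 1 := fun j =>
    val_nat_eq hp hB (not_dvd_four_pow m j hm hp)
  have v4' : ∀ j : ℕ, B'.valuation ((4 ^ j : ℕ) : ℂ) = 1 := fun j =>
    val_nat_eq hr hB' (not_dvd_four_pow l j hl hr)
  have not1 : ∀ (w : ℂ) (n j : ℕ), 1 ≤ n → (B.valuation w ≠ 1 ∨ B'.valuation w ≠ 1) →
      w ^ n ≠ ((4 ^ j : ℕ) : ℂ) ^ n := by
    intro w n j hn hv h
    rcases hv with hv | hv
    · apply hv
      rw [val_pow_inj (B := B) hn h, v4]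
    · apply hv
      rw [val_pow_inj (B := B') hn h, v4']
  have big : ∀ (z : ℂ), 1 < B.valuation z → B.valuation (aeval z (fp 1 l)) ≠ 1 := by
    intro z hz
    rw [val_fp_big hp hB 1 rfl l hprl hz]
    exact (one_lt_pow₀ hz (by omega)).ne'
  have h := ucount_PG 1 rfl m l hm hl hco ψ hψ 1 (4 ^ m) 1 (4 ^ l) 1 (4 ^ (2 * (m * l))) False
    (E5 m l) le_rfl b1 le_rfl d1 le_rfl g1 _ a2 b2 a2 d2 a2 g2 N hm' hl'
    (fun q hq hlt => ⟨a3 q hq hlt, b3 q hq hlt, a3 q hq hlt, d3 q hq hlt, a3 q hq hlt,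
      g3 q hq hlt⟩) ?_ ?_ ?_ ?_ ?_
  · rw [← hN] at h
    exact h
  · left
    intro n hn z hz
    rw [c1, cm]
    refine not1 _ n l hn (Or.inl (big z ?_))
    by_contra hcon
    push Not at hcon
    have h3 := val_F m hm hp hB 1 hcon
    rw [← aeval_fp, hz, map_zero] at h3
    exact zero_ne_one h3
  · left
    intro n hn z hz
    rw [c1, cm]
    refine not1 _ n m hn (Or.inr ?_)
    have h4 : 1 < B'.valuation z := by
      by_contra hcon
      push Not at hcon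
      have h3 := val_F l hl hr hB' 1 hcon
      rw [← aeval_fp, hz, map_zero] at h3
      exact zero_ne_one h3
    rw [val_fp_big hr hB' 1 rfl m hprm h4]
    exact (one_lt_pow₀ h4 (by omega)).ne'
  · right
    intro n hn z hz
    rw [c1, cm]
    refine not1 _ n l hn (Or.inl ?_)
    rcases lt_or_ge 1 (B.valuation z) with h4 | h4
    · exact big z h4
    · obtain ⟨Q, hQ⟩ := psi_mod_p 1 m l hm hp ψ hψ
      rw [hQ, map_add, map_pow, map_mul, aeval_C] at hz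
      have h5 : (aeval z (fp 1 l)) ^ (2 * m) = -(((2 * m + 1 : ℕ) : ℂ) * aeval z Q) := by
        have h6 : (algebraMap ℤ ℂ) (((2 * m + 1 : ℕ) : ℤ)) = ((2 * m + 1 : ℕ) : ℂ) := by simp
        rw [h6] at hz
        linear_combination hz
      have h6 : B.valuation ((aeval z (fp 1 l)) ^ (2 * m)) < 1 := by
        rw [h5, Valuation.map_neg, map_mul]
        exact vmul_lt hB (val_small (B := B) Q h4)
      intro h7
      rw [map_pow, h7, one_pow] at h6
      exact lt_irrefl _ h6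
  · intro z hz
    by_contra hcon
    push Not at hcon
    obtain ⟨N0, hN0, h0⟩ := hcon 0
    obtain ⟨N1, hN1, h1⟩ := hcon 1
    obtain ⟨N2, hN2, h2⟩ := hcon 2
    simp only [cc, phG, Matrix.cons_val_zero, Matrix.cons_val_one, Matrix.cons_val_two,
      Matrix.tail_cons, Matrix.head_cons, Int.cast_natCast] at h0 h1 h2
    rw [c1, cm] at h0 h1
    rw [c1] at h2
    push_cast at h0 h1 h2
    obtain ⟨k1, k2⟩ := no_torsion4 m l (N0 * N1 * N2) hm hl hp hr hne ψ hψ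
      (Nat.mul_pos (Nat.mul_pos hN0 hN1) hN2) z
      (by rw [mul_assoc, pow_mul, h0, ← pow_mul])
      (by rw [mul_comm N0 N1, mul_assoc, pow_mul, h1, ← pow_mul])
      (by rw [mul_comm (N0 * N1) N2, pow_mul, h2, ← pow_mul])
    apply hz
    unfold E5
    split_ifs with hc
    · have := k2 hc
      simpa using this
    · have e3 : aeval z (3 : ℤ[X]) = (3 : ℂ) := by
        have : (3 : ℤ[X]) = C 3 := rfl
        rw [this, aeval_C]
        simp
      rw [map_mul, map_sub, map_add, map_pow, aeval_X, map_one, e3]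
      exact k1
  · right
    left
    have e44 : (4 ^ m) ^ (2 * l) = 4 ^ (2 * (m * l)) := by
      rw [← pow_mul]
      congr 1
      ring
    rw [one_mul, e44]
    have h1 : 1 < (2 * m + 1) ^ (2 * l) := Nat.one_lt_pow (by omega) (by omega)
    have h2 : 1 ≤ 4 ^ (2 * (m * l)) := Nat.one_le_pow _ _ (by norm_num)
    intro h3
    have h4 : 2 * 4 ^ (2 * (m * l)) ≤ (2 * m + 1) ^ (2 * l) * 4 ^ (2 * (m * l)) :=
      Nat.mul_le_mul_right _ h1
    omega

/-- the family of the bad pairs -/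
def WP5 (M q n : ℕ) : Prop :=
  ∃ i ∈ Finset.range (M + 1) ×ˢ Finset.range (M + 1),
    PR i.1 i.2 ∧ Cfg5 i.1 i.2 (psiOf 1 i.1 i.2) q n

theorem usparse_WP5 : USparse WP5 := by
  refine ⟨45, fun M => ?_⟩
  have hM0 : (0 : ℝ) ≤ M := Nat.cast_nonneg M
  have hx : (2 : ℝ) ≤ (M : ℝ) + 2 := by linarith
  have key : UCount (WP5 M)
      (((Finset.range (M + 1) ×ˢ Finset.range (M + 1)).card : ℕ) * (((M : ℝ) + 2) ^ 43))
      ((M + 2) ^ 45) := by
    apply UCount.exists_mem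
    rintro ⟨m, l⟩ hi
    rw [Finset.mem_product, Finset.mem_range, Finset.mem_range] at hi
    simp only at hi
    apply UCount.and_left (by positivity)
    intro hPR
    simp only at hPR
    have hn : (2 * m + 1) * (2 * l + 1) ≤ (M + 2) ^ 4 := by
      have h1 : 2 * m + 1 ≤ (M + 2) ^ 2 := by nlinarith
      have h2 : 2 * l + 1 ≤ (M + 2) ^ 2 := by nlinarith
      calc (2 * m + 1) * (2 * l + 1) ≤ (M + 2) ^ 2 * (M + 2) ^ 2 := Nat.mul_le_mul h1 h2
        _ = _ := by ring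
    have hn1 : 1 ≤ (2 * m + 1) * (2 * l + 1) := Nat.mul_pos (by omega) (by omega)
    obtain ⟨N, hN⟩ : ∃ N, N = (2 * m + 1) * (2 * l + 1) := ⟨_, rfl⟩
    obtain ⟨k, hk⟩ : ∃ k, k = 2 * (m * l) + m + l := ⟨_, rfl⟩
    have hNk : N = 2 * k + 1 := by rw [hN, hk]; ring
    have h := ucount_first4 m l hPR (psiOf 1 m l) (psiOf_spec 1 one_ne_zero m l hPR) N k hN
      (by omega) (by omega) (by omega)
    rw [← hN] at hn hn1
    refine h.weak ?_ ?_
    · have hNr : (N : ℝ) ≤ ((M : ℝ) + 2) ^ 4 := by exact_mod_cast hn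
      have hN1r : (1 : ℝ) ≤ N := by exact_mod_cast hn1
      have hlog : Real.log ((4 ^ k * N : ℕ) : ℝ) + 1 ≤ 2 * N := by
        push_cast
        rw [Real.log_mul (by positivity) (by positivity), Real.log_pow]
        have h1 := Real.log_le_sub_one_of_pos (show (0 : ℝ) < N by linarith)
        have h2 := log_four_le
        have h3 : (k : ℝ) * Real.log 4 ≤ k * 2 := by
          apply mul_le_mul_of_nonneg_left _ (Nat.cast_nonneg k)
          linarith
        have h4 : (N : ℝ) = 2 * k + 1 := by exact_mod_cast hNk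
        linarith
      have hlog0 : 0 ≤ Real.log ((4 ^ k * N : ℕ) : ℝ) := by
        apply Real.log_nonneg
        have : 1 ≤ 4 ^ k * N := Nat.mul_pos (by positivity) hn1
        exact_mod_cast this
      have h1 : (N : ℝ) * (Real.log ((4 ^ k * N : ℕ) : ℝ) + 1) ≤ 2 * ((M : ℝ) + 2) ^ 8 := by
        calc (N : ℝ) * (Real.log ((4 ^ k * N : ℕ) : ℝ) + 1) ≤ N * (2 * N) := by
              apply mul_le_mul_of_nonneg_left hlog (by linarith)
          _ ≤ ((M : ℝ) + 2) ^ 4 * (2 * ((M : ℝ) + 2) ^ 4) := by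
              apply mul_le_mul hNr _ (by linarith) (by positivity)
              linarith
          _ = _ := by ring
      have h2 : ((N : ℝ) * (Real.log ((4 ^ k * N : ℕ) : ℝ) + 1)) ^ 2 ≤
          (2 * ((M : ℝ) + 2) ^ 8) ^ 2 := pow_le_pow_left₀ (by positivity) h1 2
      have h3 : (2 : ℝ) ^ 27 ≤ ((M : ℝ) + 2) ^ 27 := pow_le_pow_left₀ (by norm_num) hx 27
      unfold Kp4
      calc 3000000 * ((N : ℝ) * (Real.log ((4 ^ k * N : ℕ) : ℝ) + 1)) ^ 2
          ≤ 3000000 * (2 * ((M : ℝ) + 2) ^ 8) ^ 2 := by linarith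
        _ = 12000000 * ((M : ℝ) + 2) ^ 16 := by ring
        _ ≤ 2 ^ 27 * ((M : ℝ) + 2) ^ 16 := by
            apply mul_le_mul_of_nonneg_right _ (by positivity)
            norm_num
        _ ≤ ((M : ℝ) + 2) ^ 27 * ((M : ℝ) + 2) ^ 16 :=
            mul_le_mul_of_nonneg_right h3 (by positivity)
        _ = _ := by ring
    · exact hn.trans (Nat.pow_le_pow_right (by omega) (by norm_num))
  refine key.weak ?_ le_rfl
  rw [Finset.card_product, Finset.card_range]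
  push_cast
  have h1 : ((M : ℝ) + 1) * (M + 1) ≤ (M + 2) ^ 2 := by nlinarith
  calc ((M : ℝ) + 1) * (M + 1) * (M + 2) ^ 43 ≤ (M + 2) ^ 2 * (M + 2) ^ 43 :=
        mul_le_mul_of_nonneg_right h1 (by positivity)
    _ = _ := by ring

/-- **The local theorem for `a^s + b^{pr} = c^{pr}`, `a` prime to `pr`.** -/
theorem diffpow_first (m l : ℕ) (h : PR m l)
    (ψ : ℤ[X]) (hψ : IsPsi 1 m l ψ) (s q : ℕ)
    (hsp : s.Prime) (hs2 : 2 < s) (hq : q.Prime) (hqm : 2 * m + 1 < q)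
    (hsq : s ∣ q - 1)
    (hnb : ¬ Cfg5 m l ψ q ((q - 1) / s)) (a b c : ℤ) (hco : IsCoprime c b)
    (hU0 : c - b ≠ 0) (hV0 : c + b ≠ 0)
    (heq : a ^ s + b ^ ((2 * m + 1) * (2 * l + 1)) = c ^ ((2 * m + 1) * (2 * l + 1)))
    (hpa : ¬ ((2 * m + 1 : ℕ) : ℤ) ∣ a) (hra : ¬ ((2 * l + 1 : ℕ) : ℤ) ∣ a) :
    (q : ℤ) ∣ b * c ∨ (m ≠ 1 ∧ l ≠ 1 ∧ (q : ℤ) ∣ c ^ 2 - c * b + b ^ 2) := by
  have hF1 : Fact q.Prime := ⟨hq⟩
  have hsodd : Odd s := hsp.odd_of_ne_two (by omega)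
  have hs0 : s ≠ 0 := by omega
  have hm := h.1
  have hsn : s * ((q - 1) / s) = q - 1 := Nat.mul_div_cancel' hsq
  have hqp : Prime (q : ℤ) := Nat.prime_iff_prime_int.mp hq
  have hq2 : ¬ (q : ℤ) ∣ 2 := by
    intro h
    have := Nat.le_of_dvd two_pos (Int.natCast_dvd_natCast.mp (show (q : ℤ) ∣ ((2 : ℕ) : ℤ) from h))
    omega
  obtain ⟨ap, hp', ar, hr', g1, g2, w1, w2, w3, w4, e1, e2, e3, e4⟩ :=
    diff_factors m l h ψ hψ s hsodd hs0 a b c hco hU0 hV0 heq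
  obtain ⟨r1, r2⟩ : ap = 1 ∧ hp' = 1 := by
    rcases g1 with ⟨-, -, r⟩ | ⟨-, -, r⟩ | ⟨r, r', -⟩
    · exact absurd r hpa
    · exact absurd r hpa
    · exact ⟨r, r'⟩
  obtain ⟨r3, r4⟩ : ar = 1 ∧ hr' = 1 := by
    rcases g2 with ⟨-, -, r⟩ | ⟨-, -, r⟩ | ⟨r, r', -⟩
    · exact absurd r hra
    · exact absurd r hra
    · exact ⟨r, r'⟩
  subst r1 r2 r3 r4
  rw [Nat.cast_one, one_mul, one_mul] at e1
  rw [Nat.cast_one, one_mul, mul_one] at e2 e3
  rw [Nat.cast_one, mul_one, mul_one] at e4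
  have huv : ¬ ((q : ℤ) ∣ c - b ∧ (q : ℤ) ∣ c + b) := by
    rintro ⟨d1, d2⟩
    have d3 : (q : ℤ) ∣ 2 * c := by
      have := dvd_add d1 d2
      rwa [show c - b + (c + b) = 2 * c by ring] at this
    have d4 : (q : ℤ) ∣ 2 * b := by
      have := dvd_sub d2 d1
      rwa [show c + b - (c - b) = 2 * b by ring] at this
    have d6 := hco.isUnit_of_dvd' ((hqp.dvd_or_dvd d3).resolve_left hq2)
      ((hqp.dvd_or_dvd d4).resolve_left hq2)
    exact hqp.not_isUnit d6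
  have hm1 : ((Fh 1 (c - b) (c + b) m : ℤ) : ZMod q) =
      Fh ((1 : ℤ) : ZMod q) ((c - b : ℤ) : ZMod q) ((c + b : ℤ) : ZMod q) m :=
    (map_FGh (Int.castRingHom (ZMod q)) 1 (c - b) (c + b) m).1
  have hm2 : ((Fh 1 (c - b) (c + b) l : ℤ) : ZMod q) =
      Fh ((1 : ℤ) : ZMod q) ((c - b : ℤ) : ZMod q) ((c + b : ℤ) : ZMod q) l :=
    (map_FGh (Int.castRingHom (ZMod q)) 1 (c - b) (c + b) l).1
  have hm3 : ((hmg ψ (4 * (m * l)) (c - b) (c + b) : ℤ) : ZMod q) =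
      hmg ψ (4 * (m * l)) ((c - b : ℤ) : ZMod q) ((c + b : ℤ) : ZMod q) :=
    hmg_map ψ _ (Int.castRingHom (ZMod q)) (c - b) (c + b)
  by_contra hcon
  push Not at hcon
  obtain ⟨n1, n2⟩ := hcon
  apply hnb
  refine ⟨((c - b : ℤ) : ZMod q), ((c + b : ℤ) : ZMod q), ?_, ?_, ?_, ?_, ?_, ?_, ?_⟩
  · by_contra hcon
    push Not at hcon
    obtain ⟨t1, t2⟩ := hcon
    rw [ZMod.intCast_zmod_eq_zero_iff_dvd] at t1 t2
    exact huv ⟨t1, t2⟩
  · intro t1
    exact t1.elim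
  · intro t ht h0
    have two_case : t ^ 2 - 1 = 0 → False := by
      intro h0
      apply n1
      have h1 : (((c + b : ℤ) : ZMod q)) ^ 2 = (((c - b : ℤ) : ZMod q)) ^ 2 := by
        rw [ht]
        linear_combination (((c - b : ℤ) : ZMod q)) ^ 2 * h0
      have h2 : (((c + b) ^ 2 - (c - b) ^ 2 : ℤ) : ZMod q) = 0 := by
        push_cast at h1 ⊢
        rw [h1, sub_self]
      rw [ZMod.intCast_zmod_eq_zero_iff_dvd] at h2
      have h3 : (c + b) ^ 2 - (c - b) ^ 2 = 2 * (2 * (b * c)) := by ring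
      rw [h3] at h2
      exact (hqp.dvd_or_dvd ((hqp.dvd_or_dvd h2).resolve_left hq2)).resolve_left hq2
    unfold E5 at h0
    split_ifs at h0 with hc
    · rw [map_sub, map_pow, aeval_X, map_one] at h0
      exact two_case h0
    · rw [map_mul, map_sub, map_add, map_pow, aeval_X, map_one] at h0
      have e3' : aeval t (3 : ℤ[X]) = (3 : ZMod q) := by
        have : (3 : ℤ[X]) = C 3 := rfl
        rw [this, aeval_C]
        simp
      rw [e3'] at h0
      rcases mul_eq_zero.mp h0 with h0 | h0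
      · exact two_case h0
      · push Not at hc
        apply n2 hc.1 hc.2
        have h2 : (((c + b) ^ 2 + 3 * (c - b) ^ 2 : ℤ) : ZMod q) = 0 := by
          push_cast at ht ⊢
          rw [ht]
          linear_combination ((c : ZMod q) - b) ^ 2 * h0
        rw [ZMod.intCast_zmod_eq_zero_iff_dvd] at h2
        have h3 : (c + b) ^ 2 + 3 * (c - b) ^ 2 = 2 * (2 * (c ^ 2 - c * b + b ^ 2)) := by ring
        rw [h3] at h2
        exact (hqp.dvd_or_dvd ((hqp.dvd_or_dvd h2).resolve_left hq2)).resolve_left hq2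
  · have := pow_mod q s _ hq hsn 1 w1 ((c - b : ℤ) : ZMod q) ((1 : ℕ) : ZMod q)
      (by rw [Nat.cast_one]; exact one_ne_zero) (by
      have := congrArg (Int.cast : ℤ → ZMod q) e1
      push_cast at this ⊢
      rw [this])
    rw [Nat.cast_one, one_pow] at this
    rw [Nat.cast_one]
    exact this
  · have := pow_mod q s _ hq hsn (4 ^ m) w2 ((Fh 1 (c - b) (c + b) m : ℤ) : ZMod q)
      ((1 : ℕ) : ZMod q) (by rw [Nat.cast_one]; exact one_ne_zero)
      (by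
      have := congrArg (Int.cast : ℤ → ZMod q) e2
      push_cast at this ⊢
      rw [one_mul]
      exact this)
    rw [hm1] at this
    exact this
  · have := pow_mod q s _ hq hsn (4 ^ l) w3 ((Fh 1 (c - b) (c + b) l : ℤ) : ZMod q)
      ((1 : ℕ) : ZMod q) (by rw [Nat.cast_one]; exact one_ne_zero)
      (by
      have := congrArg (Int.cast : ℤ → ZMod q) e3
      push_cast at this ⊢
      rw [one_mul]
      exact this)
    rw [hm2] at this
    exact this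
  · have := pow_mod q s _ hq hsn (4 ^ (2 * (m * l))) w4
      ((hmg ψ (4 * (m * l)) (c - b) (c + b) : ℤ) : ZMod q) 1
      one_ne_zero (by
      rw [e4]
      push_cast
      ring)
    rw [one_mul, hm3] at this
    exact this

/-- a primitive sixth root of unity raised to a power prime to `6` -/
lemma sixth_root {R : Type*} [CommRing R] (X Y : R) (h : X ^ 2 - X * Y + Y ^ 2 = 0) (K : ℕ)
    (hK : K % 6 = 1 ∨ K % 6 = 5) : X ^ (2 * K) - X ^ K * Y ^ K + Y ^ (2 * K) = 0 := by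
  have h3 : X ^ 3 = - Y ^ 3 := by linear_combination (X + Y) * h
  have h6 : X ^ 6 = Y ^ 6 := by linear_combination (X ^ 3 - Y ^ 3) * h3
  obtain ⟨j, hj⟩ : ∃ j, K = 6 * j + 1 ∨ K = 6 * j + 5 := ⟨K / 6, by omega⟩
  have e6 : X ^ (6 * j) = Y ^ (6 * j) := by rw [pow_mul, pow_mul, h6]
  rcases hj with rfl | rfl
  · have f1 : X ^ (6 * j + 1) = Y ^ (6 * j) * X := by rw [pow_succ, e6]
    have f2 : X ^ (2 * (6 * j + 1)) = (Y ^ (6 * j) * X) ^ 2 := by rw [← f1, ← pow_mul]; ring_nf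
    have f3 : Y ^ (2 * (6 * j + 1)) = (Y ^ (6 * j) * Y) ^ 2 := by ring
    rw [f1, f2, f3, pow_succ Y (6 * j)]
    linear_combination (Y ^ (6 * j)) ^ 2 * h
  · have f1 : X ^ (6 * j + 5) = Y ^ (6 * j) * X ^ 5 := by rw [pow_add, e6]
    have f2 : X ^ (2 * (6 * j + 5)) = (Y ^ (6 * j) * X ^ 5) ^ 2 := by rw [← f1, ← pow_mul]; ring_nf
    have f3 : Y ^ (2 * (6 * j + 5)) = (Y ^ (6 * j) * Y ^ 5) ^ 2 := by ring
    have f5 : X ^ 5 = - (X ^ 2 * Y ^ 3) := by linear_combination X ^ 2 * h3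
    have f10 : (X ^ 5) ^ 2 = - (X * Y ^ 9) := by
      rw [f5]
      linear_combination X * Y ^ 6 * h3
    have f4 : Y ^ (6 * j + 5) = Y ^ (6 * j) * Y ^ 5 := by rw [pow_add]
    rw [f2, f1, f3, f4, mul_pow, f10, f5]
    linear_combination (Y ^ (6 * j)) ^ 2 * Y ^ 8 * h

end Pool.Agent.H573.AHB
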