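import Pool.Agent.H573.AHB.PvF
import Pool.Agent.H573.AHB.PvH

/-!
The engine for the equation `a^l + b^m = c^n` with two small common prime factors of `m` and `n`,
with the solutions with `a` prime to these factors.
-/

set_option autoImplicit false

namespace Pool.Agent.H573.AHB

open Polynomial Filter

/-- one set `S` and one set `G` for all pairs -/
theorem engine_diff5 :
    ∃ κ : ℝ, 0 < κ ∧ ∃ S : Set ℕ,
      (∀ s ∈ S, s.Prime ∧ 2 < s ∧ ∃ G : Finset ℕ, (s : ℝ) ^ κ ≤ (G.card : ℝ) ∧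
        ∀ q ∈ G, q.Prime ∧ 2 * s < q ∧ s ∣ q - 1 ∧
          (∀ m l : ℕ, PR m l → ((2 * m + 1 : ℕ) : ℝ) ≤ (s : ℝ) ^ κ →
            ((2 * l + 1 : ℕ) : ℝ) ≤ (s : ℝ) ^ κ →
            2 * m + 1 < q ∧ 2 * l + 1 < q ∧ ¬ BadAll4 m l (psiOf 1 m l) q ((q - 1) / s) ∧
              ¬ Cfg5 m l (psiOf 1 m l) q ((q - 1) / s)) ∧
          (∀ m : ℕ, ((2 * m + 1 : ℕ) : ℝ) ≤ (s : ℝ) ^ κ →
            2 * (2 * m + 1) < q ∧ ¬ W9 m q ((q - 1) / s))) ∧
      ∃ c : ℝ, 0 < c ∧ ∃ X₀ : ℕ, ∀ X : ℕ, X₀ ≤ X → c ≤ invSum S X := by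
  obtain ⟨κ, hκ0, S, hS, hdens⟩ :=
    engine 1 le_rfl _ ((usparse_WP4.or usparse_W9).or usparse_WP5)
  refine ⟨κ, hκ0, S, ?_, hdens⟩
  intro s hs
  obtain ⟨hsp, hs2, G, hG1, hG2⟩ := hS s hs
  refine ⟨hsp, hs2, G, hG1, ?_⟩
  intro q hq
  obtain ⟨k1, k2, -, k4, k5⟩ := hG2 q hq
  refine ⟨k1, k2, k4, ?_, ?_⟩
  · intro m l hPR hm hl
    have hM : ((2 * max m l + 1 : ℕ) : ℝ) ≤ (s : ℝ) ^ κ := by
      rcases le_total m l with h | h
      · rw [max_eq_right h]; exact hl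
      · rw [max_eq_left h]; exact hm
    obtain ⟨k6, k7⟩ := k5 (max m l) hM
    have h1 := le_max_left m l
    have h2 := le_max_right m l
    refine ⟨by omega, by omega, fun hb => k7 (Or.inl (Or.inl ?_)), fun hb => k7 (Or.inr ?_)⟩
    · refine ⟨(m, l), ?_, hPR, hb⟩
      rw [Finset.mem_product, Finset.mem_range, Finset.mem_range]
      simp only
      omega
    · refine ⟨(m, l), ?_, hPR, hb⟩
      rw [Finset.mem_product, Finset.mem_range, Finset.mem_range]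
      simp only
      omega
  · intro m hm
    obtain ⟨k6, k7⟩ := k5 m hm
    exact ⟨k6, fun hb => k7 (Or.inl (Or.inr hb))⟩

/-- all the small primes and all the auxiliary primes are on the same side -/
lemma side5 (a : ℕ) (P G T B : ℕ → Prop)
    (hP0 : ∃ p r, P p ∧ P r ∧ p ≠ r) (hG0 : ∃ q, G q)
    (h : ∀ p r, P p → P r → p ≠ r → ∀ q, G q →
      (p ∣ a ∧ r ∣ a ∧ q ∣ a) ∨ (¬ p ∣ a ∧ ¬ r ∣ a ∧ T q ∧ (p = 2 ∨ p = 3 → B q))) :
    ((∀ q, G q → q ∣ a) ∧ ∀ p, P p → p ∣ a) ∨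
      ((∀ p, P p → ¬ p ∣ a) ∧ (∀ q, G q → T q) ∧ (P 2 ∨ P 3 → ∀ q, G q → B q)) := by
  obtain ⟨p0, r0, hp0, hr0, hne⟩ := hP0
  obtain ⟨q0, hq0⟩ := hG0
  by_cases ha : p0 ∣ a
  · left
    constructor
    · intro q hq
      rcases h p0 r0 hp0 hr0 hne q hq with h1 | h1
      · exact h1.2.2
      · exact absurd ha h1.1
    · intro p hp
      by_cases hpp : p0 = p
      · rw [← hpp]; exact ha
      · rcases h p0 p hp0 hp hpp q0 hq0 with h1 | h1
        · exact h1.2.1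
        · exact absurd ha h1.1
  · right
    have hall : ∀ p, P p → ¬ p ∣ a := by
      intro p hp
      by_cases hpp : p0 = p
      · rw [← hpp]; exact ha
      · rcases h p0 p hp0 hp hpp q0 hq0 with h1 | h1
        · exact absurd h1.1 ha
        · exact h1.2.1
    refine ⟨hall, ?_, ?_⟩
    · intro q hq
      rcases h p0 r0 hp0 hr0 hne q hq with h1 | h1
      · exact absurd h1.1 ha
      · exact h1.2.2.1
    · have key : ∀ p, P p → (p = 2 ∨ p = 3) → ∀ q, G q → B q := by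
        intro p hp h23 q hq
        have hex : ∃ r, P r ∧ p ≠ r := by
          by_cases h3 : p = p0
          · exact ⟨r0, hr0, by rw [h3]; exact hne⟩
          · exact ⟨p0, hp0, h3⟩
        obtain ⟨r, hr, hpr⟩ := hex
        rcases h p r hp hr hpr q hq with h1 | h1
        · exact absurd h1.1 (hall p hp)
        · exact h1.2.2.2 h23
      rintro (h2 | h2)
      · exact key 2 h2 (Or.inl rfl)
      · exact key 3 h2 (Or.inr rfl)

lemma prime_mod_six (p : ℕ) (hp : p.Prime) (h2 : p ≠ 2) (h3 : p ≠ 3) :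
    p % 6 = 1 ∨ p % 6 = 5 := by
  have a1 : ¬ 2 ∣ p := fun h => h2 ((Nat.prime_dvd_prime_iff_eq Nat.prime_two hp).mp h).symm
  have a2 : ¬ 3 ∣ p := fun h => h3 ((Nat.prime_dvd_prime_iff_eq Nat.prime_three hp).mp h).symm
  omega

lemma prod_mod_six (p r : ℕ) (h1 : p % 6 = 1 ∨ p % 6 = 5) (h2 : r % 6 = 1 ∨ r % 6 = 5) :
    (p * r) % 6 = 1 ∨ (p * r) % 6 = 5 := by
  rw [Nat.mul_mod]
  rcases h1 with h1 | h1 <;> rcases h2 with h2 | h2 <;> rw [h1, h2] <;> norm_num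

/-- a solution whose ratio is a sixth root of unity modulo `q` -/
lemma sixth_dvd (q K a b c l m n m' n' : ℕ) (hK : K % 6 = 1 ∨ K % 6 = 5)
    (hm : m = K * m') (hn : n = K * n') (heq : a ^ l + b ^ m = c ^ n)
    (h : (q : ℤ) ∣ ((c : ℤ) ^ n') ^ 2 - (c : ℤ) ^ n' * (b : ℤ) ^ m' + ((b : ℤ) ^ m') ^ 2) :
    q ∣ b * c * (a ^ (2 * l) + a ^ l * b ^ m + b ^ (2 * m)) := by
  have h0 : (((c : ZMod q) ^ n') ^ 2 - (c : ZMod q) ^ n' * (b : ZMod q) ^ m' +
      ((b : ZMod q) ^ m') ^ 2) = 0 := by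
    have := (ZMod.intCast_zmod_eq_zero_iff_dvd _ q).mpr h
    push_cast at this
    exact this
  have h1 := sixth_root _ _ h0 K hK
  have e1 : ((c : ZMod q) ^ n') ^ K = (a : ZMod q) ^ l + (b : ZMod q) ^ m := by
    have := congrArg (Nat.cast : ℕ → ZMod q) heq
    push_cast at this
    rw [this, ← pow_mul, mul_comm n', hn]
  have e2 : ((b : ZMod q) ^ m') ^ K = (b : ZMod q) ^ m := by
    rw [← pow_mul, mul_comm m', hm]
  rw [mul_comm 2 K, pow_mul, pow_mul, e1, e2] at h1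
  rw [← ZMod.natCast_eq_zero_iff]
  push_cast
  have e3 : (a : ZMod q) ^ (2 * l) = ((a : ZMod q) ^ l) ^ 2 := by rw [← pow_mul, mul_comm]
  have e4 : (b : ZMod q) ^ (2 * m) = ((b : ZMod q) ^ m) ^ 2 := by rw [← pow_mul, mul_comm]
  rw [e3, e4]
  linear_combination (b : ZMod q) * c * h1

end Pool.Agent.H573.AHB
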