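import Pool.Agent.H573.AHB.PvI

/-!
The local theorem for two odd common prime factors, for both signs of `b`.
-/

set_option autoImplicit false

namespace Pool.Agent.H573.AHB

open Polynomial

/-- the local theorem for the odd primes `p`, `r` -/
lemma odd_pair (s q p r : ℕ) (hsp : s.Prime) (hs2 : 2 < s) (hq : q.Prime) (hsq : s ∣ q - 1)
    (hp : p.Prime) (hr : r.Prime) (hp2 : p ≠ 2) (hr2 : r ≠ 2) (hne : p ≠ r)
    (hG : ∀ m l : ℕ, PR m l → p = 2 * m + 1 → r = 2 * l + 1 →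
      2 * m + 1 < q ∧ 2 * l + 1 < q ∧ ¬ BadAll4 m l (psiOf 1 m l) q ((q - 1) / s) ∧
        ¬ Cfg5 m l (psiOf 1 m l) q ((q - 1) / s))
    (a l' : ℕ) (hl' : l' ≠ 0) (B C : ℤ) (hco : IsCoprime C B) (h1 : C - B ≠ 0) (h2 : C + B ≠ 0)
    (heq : ((a : ℤ) ^ l') ^ s + B ^ (p * r) = C ^ (p * r)) :
    (p ∣ a ∧ r ∣ a ∧ q ∣ a) ∨ (¬ p ∣ a ∧ ¬ r ∣ a ∧
      ((q : ℤ) ∣ B * C ∨ (p ≠ 3 ∧ r ≠ 3 ∧ (q : ℤ) ∣ C ^ 2 - C * B + B ^ 2))) := by
  obtain ⟨i, rfl⟩ : ∃ i, p = 2 * i + 1 := hp.odd_of_ne_two hp2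
  obtain ⟨j, rfl⟩ : ∃ j, r = 2 * j + 1 := hr.odd_of_ne_two hr2
  have hi := hp.two_le
  have hj := hr.two_le
  have hPR : PR i j := ⟨by omega, by omega, hp, hr, by omega⟩
  obtain ⟨k5, k6, k7, k8⟩ := hG i j hPR rfl rfl
  have hd : ∀ r : ℕ, r.Prime → (r : ℤ) ∣ (a : ℤ) ^ l' → r ∣ a := by
    intro r hr h
    rw [← Nat.cast_pow] at h
    exact hr.dvd_of_dvd_pow (Int.natCast_dvd_natCast.mp h)
  have hd' : ∀ r : ℕ, r ∣ a → (r : ℤ) ∣ (a : ℤ) ^ l' := by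
    intro r h
    rw [← Nat.cast_pow]
    exact Int.natCast_dvd_natCast.mpr (dvd_pow h hl')
  rcases diffpow_loc i j hPR _ (psiOf_spec 1 one_ne_zero i j hPR) s q hsp hs2 hq k5 k6 hsq
    k7 ((a : ℤ) ^ l') B C hco h1 h2 heq with ⟨t1, t2, t3⟩ | ⟨t1, t2⟩
  · exact Or.inl ⟨hd _ hp t1, hd _ hr t2, hd _ hq t3⟩
  · refine Or.inr ⟨fun h => t1 (hd' _ h), fun h => t2 (hd' _ h), ?_⟩
    rcases diffpow_first i j hPR _ (psiOf_spec 1 one_ne_zero i j hPR) s q hsp hs2 hq k5 hsq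
      k8 ((a : ℤ) ^ l') B C hco h1 h2 heq t1 t2 with t3 | ⟨t4, t5, t6⟩
    · left
      exact t3
    · right
      exact ⟨by omega, by omega, t6⟩

/-- a solution of the sum equation whose ratio is a cube root of unity modulo `q` -/
lemma third_dvd (q K b c m n m' n' : ℕ) (hK : K % 6 = 1 ∨ K % 6 = 5)
    (hm : m = K * m') (hn : n = K * n')
    (h : (q : ℤ) ∣ ((c : ℤ) ^ n') ^ 2 - (c : ℤ) ^ n' * (-(b : ℤ) ^ m') + (-(b : ℤ) ^ m') ^ 2) :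
    q ∣ b * c * (b ^ (2 * m) + b ^ m * c ^ n + c ^ (2 * n)) := by
  have h0 : (((c : ZMod q) ^ n') ^ 2 - (c : ZMod q) ^ n' * (-(b : ZMod q) ^ m') +
      (-(b : ZMod q) ^ m') ^ 2) = 0 := by
    have := (ZMod.intCast_zmod_eq_zero_iff_dvd _ q).mpr h
    push_cast at this
    exact this
  have h1 := sixth_root _ _ h0 K hK
  have hodd : Odd K := by
    rw [Nat.odd_iff]
    omega
  have e1 : ((c : ZMod q) ^ n') ^ K = (c : ZMod q) ^ n := by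
    rw [← pow_mul, mul_comm n', hn]
  have e2 : (-(b : ZMod q) ^ m') ^ K = -(b : ZMod q) ^ m := by
    rw [hodd.neg_pow, ← pow_mul, mul_comm m', hm]
  rw [mul_comm 2 K, pow_mul, pow_mul, e1, e2] at h1
  rw [← ZMod.natCast_eq_zero_iff]
  push_cast
  have e3 : (c : ZMod q) ^ (2 * n) = ((c : ZMod q) ^ n) ^ 2 := by rw [← pow_mul, mul_comm]
  have e4 : (b : ZMod q) ^ (2 * m) = ((b : ZMod q) ^ m) ^ 2 := by rw [← pow_mul, mul_comm]
  rw [e3, e4]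
  linear_combination (b : ZMod q) * c * h1

end Pool.Agent.H573.AHB
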