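import Pool.Agent.H573.AHB.PvJ

/-!
The equation `b^{2p} + c^{2p} = a^s` with `a` prime to `p`: descent over the Gaussian integers.
-/

set_option autoImplicit false

namespace Pool.Agent.H573.AHB

open Polynomial Filter

/-- one set `S` and one set `G` for all pairs, with `q ≡ 1 (mod 4)` -/
theorem engine_diff6 :
    ∃ κ : ℝ, 0 < κ ∧ ∃ S : Set ℕ,
      (∀ s ∈ S, s.Prime ∧ 2 < s ∧ ∃ G : Finset ℕ, (s : ℝ) ^ κ ≤ (G.card : ℝ) ∧
        ∀ q ∈ G, q.Prime ∧ 2 * s < q ∧ s ∣ q - 1 ∧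
          (∀ m l : ℕ, PR m l → ((2 * m + 1 : ℕ) : ℝ) ≤ (s : ℝ) ^ κ →
            ((2 * l + 1 : ℕ) : ℝ) ≤ (s : ℝ) ^ κ →
            2 * m + 1 < q ∧ 2 * l + 1 < q ∧ ¬ BadAll4 m l (psiOf 1 m l) q ((q - 1) / s) ∧
              ¬ Cfg5 m l (psiOf 1 m l) q ((q - 1) / s)) ∧
          (∀ m : ℕ, ((2 * m + 1 : ℕ) : ℝ) ≤ (s : ℝ) ^ κ →
            2 * (2 * m + 1) < q ∧ ¬ W9 m q ((q - 1) / s)) ∧ 4 ∣ q - 1) ∧
      ∃ c : ℝ, 0 < c ∧ ∃ X₀ : ℕ, ∀ X : ℕ, X₀ ≤ X → c ≤ invSum S X := by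
  obtain ⟨κ, hκ0, S, hS, hdens⟩ :=
    engine 4 (by norm_num) _ ((usparse_WP4.or usparse_W9).or usparse_WP5)
  refine ⟨κ, hκ0, S, ?_, hdens⟩
  intro s hs
  obtain ⟨hsp, hs2, G, hG1, hG2⟩ := hS s hs
  refine ⟨hsp, hs2, G, hG1, ?_⟩
  intro q hq
  obtain ⟨k1, k2, k3, k4, k5⟩ := hG2 q hq
  refine ⟨k1, k2, k4, ?_, ?_, k3⟩
  · intro m l hPR hm hl
    have hM : ((2 * max m l + 1 : ℕ) : ℝ) ≤ (s : ℝ) ^ κ := by
      rcases le_total m l with h | h
      · rw [max_eq_right h]; exact hl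
      · rw [max_eq_left h]; exact hm
    obtain ⟨k6, k7⟩ := k5 (max m l) hM
    have h1 := le_max_left m l
    have h2 := le_max_right m l
    refine ⟨by omega, by omega, fun hb => k7 (Or.inl (Or.inl ?_)), fun hb => k7 (Or.inr ?_)⟩
    · refine ⟨(m, l), ?_, hPR, hb⟩
      rw [Finset.mem_product, Finset.mem_range, Finset.mem_range]
      simp only
      omega
    · refine ⟨(m, l), ?_, hPR, hb⟩
      rw [Finset.mem_product, Finset.mem_range, Finset.mem_range]
      simp only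
      omega
  · intro m hm
    obtain ⟨k6, k7⟩ := k5 m hm
    exact ⟨k6, fun hb => k7 (Or.inl (Or.inr hb))⟩

/-- coprime factors of an `s`-th power in the Gaussian integers, `s` odd, are `s`-th powers -/
lemma gi_pow (x y z : GaussianInt) (s : ℕ) (hs : Odd s) (hco : IsCoprime x y)
    (h : x * y = z ^ s) : ∃ d, x = d ^ s := by
  obtain ⟨d, hd⟩ := exists_associated_pow_of_mul_eq_pow' hco h
  obtain ⟨ε, hε⟩ := hd
  have hε4 := gi_unit (ε : GaussianInt) ε.isUnit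
  obtain ⟨k, rfl⟩ := hs
  refine ⟨d * (ε : GaussianInt) ^ (2 * k + 1), ?_⟩
  have hεp : ((ε : GaussianInt) ^ (2 * k + 1)) ^ (2 * k + 1) = ε := by
    rw [← pow_mul]
    have : (2 * k + 1) * (2 * k + 1) = 4 * (k * k + k) + 1 := by ring
    rw [this, pow_succ, pow_mul, hε4, one_pow, one_mul]
  rw [mul_pow, hεp, hε]

/-- the geometric sum is coprime to `x - y` -/
lemma geom_cop {R : Type*} [CommRing R] (p : ℕ) (x y : R) (hxy : IsCoprime x y)
    (hp : IsCoprime (x - y) (p : R)) :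
    IsCoprime (x - y) (∑ i ∈ Finset.range p, x ^ i * y ^ (p - 1 - i)) := by
  have h1 : (x - y) ∣ (∑ i ∈ Finset.range p, x ^ i * y ^ (p - 1 - i)) - (p : R) * y ^ (p - 1) := by
    have h2 : (∑ i ∈ Finset.range p, x ^ i * y ^ (p - 1 - i)) - (p : R) * y ^ (p - 1) =
        ∑ i ∈ Finset.range p, (x ^ i - y ^ i) * y ^ (p - 1 - i) := by
      have h3 : (p : R) * y ^ (p - 1) = ∑ i ∈ Finset.range p, y ^ i * y ^ (p - 1 - i) := by
        rw [Finset.sum_congr rfl (g := fun _ => y ^ (p - 1))]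
        · rw [Finset.sum_const, Finset.card_range, nsmul_eq_mul]
        · intro i hi
          rw [Finset.mem_range] at hi
          rw [← pow_add]
          congr 1
          omega
      rw [h3, ← Finset.sum_sub_distrib]
      apply Finset.sum_congr rfl
      intro i _
      ring
    rw [h2]
    apply Finset.dvd_sum
    intro i _
    exact (sub_dvd_pow_sub_pow x y i).mul_right _
  obtain ⟨K, hK⟩ := h1
  have h4 : (∑ i ∈ Finset.range p, x ^ i * y ^ (p - 1 - i)) =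
      (p : R) * y ^ (p - 1) + (x - y) * K := by
    rw [← hK]
    ring
  rw [h4]
  have h5 : IsCoprime (x - y) y := by
    have := hxy.add_mul_left_left (-1)
    rwa [mul_neg_one, ← sub_eq_add_neg] at this
  have h6 : IsCoprime (x - y) ((p : R) * y ^ (p - 1)) := hp.mul_right h5.pow_right
  exact h6.add_mul_left_right K

/-- the factors in the Gaussian integers -/
lemma gi_factors (m : ℕ) (hm : OKm m) (s : ℕ) (hsodd : Odd s) (hs3 : 3 ≤ s) (a b c : ℤ)
    (hco : IsCoprime c b)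
    (heq : b ^ (2 * (2 * m + 1)) + c ^ (2 * (2 * m + 1)) = a ^ s)
    (hpa : ¬ ((2 * m + 1 : ℕ) : ℤ) ∣ a) :
    ∃ j : GaussianInt, j ^ 2 = -1 ∧ ∃ d1 d2 d3 d4 : GaussianInt,
      (c : GaussianInt) - j * (b : GaussianInt) = d1 ^ s ∧
      (c : GaussianInt) + j * (b : GaussianInt) = d2 ^ s ∧
      Fh 1 ((c : GaussianInt) - j * (b : GaussianInt)) ((c : GaussianInt) + j * (b : GaussianInt)) m
        = 4 ^ m * d3 ^ s ∧
      Gh 1 ((c : GaussianInt) - j * (b : GaussianInt)) ((c : GaussianInt) + j * (b : GaussianInt)) m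
        = 4 ^ m * d4 ^ s := by
  obtain ⟨hm1, hp⟩ := hm
  have hpodd : Odd (2 * m + 1) := ⟨m, rfl⟩
  -- `a` is odd
  have hao : Odd a := by
    obtain ⟨k, hk⟩ := hsodd
    have h1 : (c ^ (2 * m + 1)) ^ 2 + (b ^ (2 * m + 1)) ^ 2 = a ^ (2 * k + 1) := by
      rw [← hk, ← heq, ← pow_mul, ← pow_mul, mul_comm (2 * m + 1) 2]
      ring
    exact z_odd _ _ a k (by omega) hco.pow h1
  obtain ⟨j, hj⟩ : ∃ j : GaussianInt, j = ⟨0, 1⟩ := ⟨_, rfl⟩
  have hj2 : j ^ 2 = -1 := by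
    rw [hj]
    apply Zsqrtd.ext
    · simp [pow_two]
    · simp [pow_two]
  obtain ⟨C, hC⟩ : ∃ C : GaussianInt, C = (c : GaussianInt) := ⟨_, rfl⟩
  obtain ⟨B, hB⟩ : ∃ B : GaussianInt, B = j * (b : GaussianInt) := ⟨_, rfl⟩
  refine ⟨j, hj2, ?_⟩
  rw [← hC, ← hB]
  have hju : IsUnit j := IsUnit.of_mul_eq_one (-j) (by linear_combination -hj2)
  have hcb : IsCoprime (c : GaussianInt) (b : GaussianInt) := hco.map (Int.castRingHom GaussianInt)
  have hCB : IsCoprime C B := by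
    rw [hC, hB]
    exact (isCoprime_mul_unit_left_right hju _ _).mpr hcb
  have hBp : B ^ (2 * (2 * m + 1)) = -(b : GaussianInt) ^ (2 * (2 * m + 1)) := by
    rw [hB, mul_pow, pow_mul j, hj2, hpodd.neg_one_pow]
    ring
  have hprod : (C ^ (2 * m + 1) - B ^ (2 * m + 1)) * (C ^ (2 * m + 1) + B ^ (2 * m + 1)) =
      (a : GaussianInt) ^ s := by
    have h1 : (C ^ (2 * m + 1) - B ^ (2 * m + 1)) * (C ^ (2 * m + 1) + B ^ (2 * m + 1)) =
        C ^ (2 * (2 * m + 1)) - B ^ (2 * (2 * m + 1)) := by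
      rw [mul_comm 2 (2 * m + 1), pow_mul, pow_mul]
      ring
    rw [h1, hBp, hC]
    have h2 := congrArg (Int.cast : ℤ → GaussianInt) heq
    push_cast at h2
    rw [← h2]
    ring
  have hU0 : C - B ≠ 0 := by
    intro h
    have h1 : (C - B) * ((C ^ (2 * m + 1) + B ^ (2 * m + 1)) * 0) = 0 := by ring
    have h2 : (a : GaussianInt) ^ s = 0 := by
      rw [← hprod]
      have h3 : C = B := sub_eq_zero.mp h
      rw [h3, sub_self, zero_mul]
    have h4 : (a : GaussianInt) = 0 := by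
      by_contra h5
      exact pow_ne_zero s h5 h2
    have h6 : a = 0 := by exact_mod_cast h4
    rw [h6] at hpa
    exact hpa (dvd_zero _)
  have hV0 : C + B ≠ 0 := by
    intro h
    have h2 : (a : GaussianInt) ^ s = 0 := by
      rw [← hprod]
      have h3 : C = -B := eq_neg_of_add_eq_zero_left h
      rw [h3, hpodd.neg_pow]
      ring
    have h4 : (a : GaussianInt) = 0 := by
      by_contra h5
      exact pow_ne_zero s h5 h2
    have h6 : a = 0 := by exact_mod_cast h4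
    rw [h6] at hpa
    exact hpa (dvd_zero _)
  obtain ⟨P, hP⟩ : ∃ P, P = ∑ i ∈ Finset.range (2 * m + 1), C ^ i * B ^ (2 * m + 1 - 1 - i) :=
    ⟨_, rfl⟩
  obtain ⟨Q, hQ⟩ : ∃ Q, Q = ∑ i ∈ Finset.range (2 * m + 1), C ^ i * (-B) ^ (2 * m + 1 - 1 - i) :=
    ⟨_, rfl⟩
  have hUP : (C - B) * P = C ^ (2 * m + 1) - B ^ (2 * m + 1) := by
    rw [hP, mul_comm]
    exact (Commute.all C B).geom_sum₂_mul (2 * m + 1)
  have hVQ : (C + B) * Q = C ^ (2 * m + 1) + B ^ (2 * m + 1) := by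
    have := (Commute.all C (-B)).geom_sum₂_mul (2 * m + 1)
    rw [hpodd.neg_pow, sub_neg_eq_add, sub_neg_eq_add, ← hQ] at this
    rw [mul_comm]
    exact this
  -- the prime `p` and `2`
  have hpa' : IsCoprime ((a : GaussianInt) ^ s) ((2 * m + 1 : ℕ) : GaussianInt) := by
    apply IsCoprime.pow_left
    have h1 : IsCoprime a ((2 * m + 1 : ℕ) : ℤ) := by
      have hpp : Prime ((2 * m + 1 : ℕ) : ℤ) := Nat.prime_iff_prime_int.mp hp
      exact ((Prime.coprime_iff_not_dvd hpp).mpr hpa).symm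
    have h2 := h1.map (Int.castRingHom GaussianInt)
    simpa using h2
  have h2a : IsCoprime (2 : GaussianInt) ((a : GaussianInt) ^ s) := by
    apply IsCoprime.pow_right
    have h1 : IsCoprime (2 : ℤ) a := by
      obtain ⟨k, hk⟩ := hao
      exact ⟨-k, 1, by rw [hk]; ring⟩
    have h2 := h1.map (Int.castRingHom GaussianInt)
    simpa using h2
  have hcop : IsCoprime ((C - B) * P) ((C + B) * Q) := by
    rw [hUP, hVQ]
    obtain ⟨x, y, hxy⟩ := (hCB.pow (m := 2 * m + 1) (n := 2 * m + 1))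
    obtain ⟨u, v, huv⟩ := h2a
    refine ⟨u * (x - y) + v * (C ^ (2 * m + 1) + B ^ (2 * m + 1)), u * (x + y), ?_⟩
    rw [← hprod] at huv
    linear_combination huv + 2 * u * hxy
  have hc1 : IsCoprime (C - B) P := by
    rw [hP]
    apply geom_cop _ _ _ hCB
    refine hpa'.of_isCoprime_of_dvd_left ?_
    rw [← hprod, ← hUP]
    exact ⟨P * (C ^ (2 * m + 1) + B ^ (2 * m + 1)), by ring⟩
  have hc2 : IsCoprime (C + B) Q := by
    have h1 : IsCoprime (C - -B) Q := by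
      rw [hQ]
      apply geom_cop _ _ _ hCB.neg_right
      refine hpa'.of_isCoprime_of_dvd_left ?_
      rw [← hprod, ← hVQ, sub_neg_eq_add]
      exact ⟨Q * (C ^ (2 * m + 1) - B ^ (2 * m + 1)), by ring⟩
    rwa [sub_neg_eq_add] at h1
  have hall : ((C - B) * P) * ((C + B) * Q) = (a : GaussianInt) ^ s := by
    rw [hUP, hVQ, hprod]
  have hcUV := hcop.of_mul_left_left
  have hcPV := hcop.of_mul_left_right
  obtain ⟨d1, h1⟩ := gi_pow (C - B) (P * ((C + B) * Q)) a s hsodd (hc1.mul_right hcUV)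
    (by rw [← hall]; ring)
  obtain ⟨d2, h2⟩ := gi_pow (C + B) (Q * ((C - B) * P)) a s hsodd
    (hc2.mul_right hcop.symm.of_mul_left_left) (by rw [← hall]; ring)
  obtain ⟨d3, h3⟩ := gi_pow P ((C - B) * ((C + B) * Q)) a s hsodd (hc1.symm.mul_right hcPV)
    (by rw [← hall]; ring)
  obtain ⟨d4, h4⟩ := gi_pow Q ((C + B) * ((C - B) * P)) a s hsodd
    (hc2.symm.mul_right hcop.symm.of_mul_left_right) (by rw [← hall]; ring)
  have h22 : (2 : GaussianInt) ^ (2 * m + 1) = 2 * 4 ^ m := by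
    rw [pow_succ, pow_mul, mul_comm]
    norm_num
  refine ⟨d1, d2, d3, d4, h1, h2, ?_, ?_⟩
  · rw [← h3]
    apply mul_left_cancel₀ hU0
    have e1 := pow_FG (δ := (1 : GaussianInt)) (ω := 1) (by norm_num) (C - B) (C + B) m
    have e2 := pow_FG' (δ := (1 : GaussianInt)) (ω := 1) (by norm_num) (C - B) (C + B) m
    have e3 : (C - B) + 1 * (C + B) = 2 * C := by ring
    have e4 : (C - B) - 1 * (C + B) = -(2 * B) := by ring
    rw [e3] at e1
    rw [e4, hpodd.neg_pow] at e2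
    have e5 : (2 * C) ^ (2 * m + 1) = 2 * 4 ^ m * C ^ (2 * m + 1) := by
      rw [mul_pow, h22]
    have e6 : (2 * B) ^ (2 * m + 1) = 2 * 4 ^ m * B ^ (2 * m + 1) := by
      rw [mul_pow, h22]
    rw [e5] at e1
    rw [e6] at e2
    have e7 : (2 : GaussianInt) * ((C - B) * Fh 1 (C - B) (C + B) m) =
        2 * ((C - B) * (4 ^ m * P)) := by
      have e8 : (C - B) * (4 ^ m * P) = 4 ^ m * (C ^ (2 * m + 1) - B ^ (2 * m + 1)) := by
        rw [← hUP]
        ring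
      rw [e8]
      linear_combination -e1 - e2
    exact mul_left_cancel₀ (by norm_num) e7
  · rw [← h4]
    apply mul_left_cancel₀ hV0
    have e1 := pow_FG (δ := (1 : GaussianInt)) (ω := 1) (by norm_num) (C - B) (C + B) m
    have e2 := pow_FG' (δ := (1 : GaussianInt)) (ω := 1) (by norm_num) (C - B) (C + B) m
    have e3 : (C - B) + 1 * (C + B) = 2 * C := by ring
    have e4 : (C - B) - 1 * (C + B) = -(2 * B) := by ring
    rw [e3] at e1
    rw [e4, hpodd.neg_pow] at e2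
    have e5 : (2 * C) ^ (2 * m + 1) = 2 * 4 ^ m * C ^ (2 * m + 1) := by
      rw [mul_pow, h22]
    have e6 : (2 * B) ^ (2 * m + 1) = 2 * 4 ^ m * B ^ (2 * m + 1) := by
      rw [mul_pow, h22]
    rw [e5] at e1
    rw [e6] at e2
    have e7 : (2 : GaussianInt) * ((C + B) * Gh 1 (C - B) (C + B) m) =
        2 * ((C + B) * (4 ^ m * Q)) := by
      have e8 : (C + B) * (4 ^ m * Q) = 4 ^ m * (C ^ (2 * m + 1) + B ^ (2 * m + 1)) := by
        rw [← hVQ]
        ring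
      rw [e8]
      linear_combination -e1 + e2
    exact mul_left_cancel₀ (by norm_num) e7

/-- a constant times an `s`-th power -/
lemma pow_modZ (q s n : ℕ) (hq : q.Prime) (hsn : s * n = q - 1) (c w x : ZMod q)
    (hx : x = c * w ^ s) : x = 0 ∨ x ^ n = c ^ n := by
  have hF : Fact q.Prime := ⟨hq⟩
  by_cases hw : w = 0
  · left
    rw [hw] at hx
    by_cases hs : s = 0
    · rw [hs, zero_mul] at hsn
      have := hq.two_le
      omega
    · rw [zero_pow hs, mul_zero] at hx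
      exact hx
  · right
    rw [hx, mul_pow, ← pow_mul, hsn, ZMod.pow_card_sub_one_eq_one hw, mul_one]

/-- **The local theorem for `b^{2p} + c^{2p} = a^s`, `a` prime to `p`.** -/
theorem sum2_loc (m : ℕ) (hm : OKm m) (s q : ℕ)
    (hsp : s.Prime) (hs2 : 2 < s) (hq : q.Prime) (hqm : 2 * (2 * m + 1) < q) (hq4 : 4 ∣ q - 1)
    (hsq : s ∣ q - 1) (hnb : ¬ W9 m q ((q - 1) / s)) (a b c : ℤ) (hco : IsCoprime c b)
    (heq : b ^ (2 * (2 * m + 1)) + c ^ (2 * (2 * m + 1)) = a ^ s)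
    (hpa : ¬ ((2 * m + 1 : ℕ) : ℤ) ∣ a) : (q : ℤ) ∣ b * c := by
  have hF1 : Fact q.Prime := ⟨hq⟩
  have hsn : s * ((q - 1) / s) = q - 1 := Nat.mul_div_cancel' hsq
  have hqp : Prime (q : ℤ) := Nat.prime_iff_prime_int.mp hq
  have h2q : (2 : ZMod q) ≠ 0 := by
    have := natCast_ne_zero_of_lt (by omega : 0 < 2) (by omega : 2 < q) (ZMod q)
    exact_mod_cast this
  obtain ⟨j, hj2, d1, d2, d3, d4, h1, h2, h3, h4⟩ :=
    gi_factors m hm s (hsp.odd_of_ne_two (by omega)) (by omega) a b c hco heq hpa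
  -- the reduction modulo a prime above `q`
  obtain ⟨ι, hι⟩ : ∃ ι : ZMod q, ι * ι = ((-1 : ℤ) : ZMod q) := by
    have h5 : IsSquare (-1 : ZMod q) := by
      rw [ZMod.exists_sq_eq_neg_one_iff]
      have := hq.two_le
      omega
    obtain ⟨ι, hι⟩ := h5
    exact ⟨ι, by rw [← hι]; simp⟩
  obtain ⟨φ, -⟩ : ∃ φ : GaussianInt →+* ZMod q, True := ⟨Zsqrtd.lift ⟨ι, hι⟩, trivial⟩
  have hφc : ∀ x : ℤ, φ (x : GaussianInt) = (x : ZMod q) := fun x => map_intCast φ x
  obtain ⟨J, hJ⟩ : ∃ J, J = φ j := ⟨_, rfl⟩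
  have hJ2 : J ^ 2 = -1 := by
    rw [hJ, ← map_pow, hj2, map_neg, map_one]
  have hJ0 : J ≠ 0 := by
    rintro h
    rw [h, zero_pow two_ne_zero] at hJ2
    exact one_ne_zero (neg_eq_zero.mp hJ2.symm)
  have g1 := congrArg φ h1
  have g2 := congrArg φ h2
  have g3 := congrArg φ h3
  have g4 := congrArg φ h4
  have hmap := map_FGh φ 1 ((c : GaussianInt) - j * (b : GaussianInt))
    ((c : GaussianInt) + j * (b : GaussianInt)) m
  rw [hmap.1] at g3
  rw [hmap.2] at g4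
  rw [map_sub, map_mul, map_pow, hφc, hφc, ← hJ] at g1
  rw [map_add, map_mul, map_pow, hφc, hφc, ← hJ] at g2
  rw [map_one, map_sub, map_add, map_mul, map_mul, map_pow, map_pow, hφc, hφc, ← hJ,
    map_ofNat] at g3 g4
  by_contra hqbc
  have hc0b0 : (b : ZMod q) ≠ 0 ∧ (c : ZMod q) ≠ 0 := by
    constructor
    · intro h
      rw [ZMod.intCast_zmod_eq_zero_iff_dvd] at h
      exact hqbc (h.mul_right _)
    · intro h
      rw [ZMod.intCast_zmod_eq_zero_iff_dvd] at h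
      exact hqbc (h.mul_left _)
  apply hnb
  refine ⟨hm, Or.inl (Or.inl ⟨(c : ZMod q) - J * b, (c : ZMod q) + J * b, ?_, fun h => h.elim,
    fun h => h.elim, ?_, ?_, ?_, ?_, ?_⟩)⟩
  · by_contra hcon
    push Not at hcon
    obtain ⟨t1, t2⟩ := hcon
    have t3 : 2 * (c : ZMod q) = 0 := by linear_combination t1 + t2
    rcases mul_eq_zero.mp t3 with h | h
    · exact h2q h
    · exact hc0b0.2 h
  · intro t ht h0
    rw [map_sub, map_pow, aeval_X, map_one] at h0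
    have t1 : ((c : ZMod q) + J * b) ^ 2 = ((c : ZMod q) - J * b) ^ 2 := by
      rw [ht]
      linear_combination (((c : ZMod q) - J * b)) ^ 2 * h0
    have t2 : 2 * (2 * (J * ((b : ZMod q) * c))) = 0 := by linear_combination t1
    rcases mul_eq_zero.mp t2 with h | h
    · exact h2q h
    rcases mul_eq_zero.mp h with h | h
    · exact h2q h
    rcases mul_eq_zero.mp h with h | h
    · exact hJ0 h
    rcases mul_eq_zero.mp h with h | h
    · exact hc0b0.1 h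
    · exact hc0b0.2 h
  · have := pow_modZ q s _ hq hsn 1 (φ d1) ((c : ZMod q) - J * b) (by rw [one_mul]; exact g1)
    simpa using this
  · have := pow_modZ q s _ hq hsn 1 (φ d2) ((c : ZMod q) + J * b) (by rw [one_mul]; exact g2)
    simpa using this
  · have := pow_modZ q s _ hq hsn (4 ^ m) (φ d3) _ g3
    simpa using this
  · have := pow_modZ q s _ hq hsn (4 ^ m) (φ d4) _ g4
    simpa using this

/-- a prime `p ≡ 3 (mod 4)` divides no sum of two coprime squares -/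
lemma three_mod_four (p : ℕ) (hp : p.Prime) (h3 : p % 4 = 3) (x y : ℕ) (hco : Nat.Coprime x y) :
    ¬ p ∣ x ^ 2 + y ^ 2 := by
  have hF : Fact p.Prime := ⟨hp⟩
  intro h
  have h1 : (x : ZMod p) ^ 2 = -(y : ZMod p) ^ 2 := by
    have := (ZMod.natCast_eq_zero_iff (x ^ 2 + y ^ 2) p).mpr h
    push_cast at this
    linear_combination this
  by_cases hy : (y : ZMod p) = 0
  · rw [ZMod.natCast_eq_zero_iff] at hy
    have h2 : p ∣ x ^ 2 := (Nat.dvd_add_left (dvd_pow hy two_ne_zero)).mp h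
    have h4 : p ∣ x := hp.dvd_of_dvd_pow h2
    exact hp.one_lt.ne' (Nat.dvd_one.mp (by rw [← hco]; exact Nat.dvd_gcd h4 hy))
  · exact ZMod.mod_four_ne_three_of_sq_eq_neg_sq' hy h1 h3

/-- the case of even exponents -/
lemma sum_even (s q p : ℕ) (hsp : s.Prime) (hs2 : 2 < s) (hq : q.Prime) (hsq : s ∣ q - 1)
    (hq4 : 4 ∣ q - 1) (hp : p.Prime) (hp2 : p ≠ 2)
    (hG : ∀ m : ℕ, p = 2 * m + 1 → 2 * (2 * m + 1) < q ∧ ¬ W9 m q ((q - 1) / s))
    (a b c l' m n : ℕ) (hl' : l' ≠ 0) (hco : Nat.Coprime b c)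
    (hm : Even m) (hn : Even n) (hpm : p ∣ m) (hpn : p ∣ n)
    (heq : b ^ m + c ^ n = a ^ (s * l')) (ha : p % 4 = 3 ∨ ¬ p ∣ a) : q ∣ b * c := by
  have hpa : ¬ p ∣ a := by
    rcases ha with h3 | h
    · intro h
      obtain ⟨x, hx⟩ := hm
      obtain ⟨y, hy⟩ := hn
      have h1 : b ^ m + c ^ n = (b ^ x) ^ 2 + (c ^ y) ^ 2 := by
        rw [hx, hy, pow_add, pow_add]
        ring
      apply three_mod_four p hp h3 (b ^ x) (c ^ y) (Nat.Coprime.pow _ _ hco)
      rw [← h1, heq]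
      exact dvd_pow h (Nat.mul_ne_zero (by omega) hl')
    · exact h
  have h2p : Nat.Coprime 2 p := (Nat.coprime_primes Nat.prime_two hp).mpr (Ne.symm hp2)
  obtain ⟨m', hm'⟩ := h2p.mul_dvd_of_dvd_of_dvd hm.two_dvd hpm
  obtain ⟨n', hn'⟩ := h2p.mul_dvd_of_dvd_of_dvd hn.two_dvd hpn
  obtain ⟨i, rfl⟩ : ∃ i, p = 2 * i + 1 := hp.odd_of_ne_two hp2
  have hi := hp.two_le
  obtain ⟨k5, k6⟩ := hG i rfl
  have hd : ∀ r : ℕ, r.Prime → ∀ x k : ℕ, (r : ℤ) ∣ (x : ℤ) ^ k → r ∣ x := by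
    intro r hr x k h
    rw [← Nat.cast_pow] at h
    exact hr.dvd_of_dvd_pow (Int.natCast_dvd_natCast.mp h)
  have h1 := sum2_loc i ⟨by omega, hp⟩ s q hsp hs2 hq k5 hq4 hsq k6 ((a : ℤ) ^ l')
    ((b : ℤ) ^ m') ((c : ℤ) ^ n') ((Nat.isCoprime_iff_coprime.mpr hco.symm).pow) (by
      rw [← pow_mul, ← pow_mul, ← pow_mul, mul_comm m', mul_comm n', mul_comm l', ← hm', ← hn']
      exact_mod_cast heq) (fun h => hpa (hd _ hp a l' h))
  rcases (Nat.prime_iff_prime_int.mp hq).dvd_or_dvd h1 with h | h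
  · exact (hd _ hq b m' h).mul_right c
  · exact (hd _ hq c n' h).mul_left b

end Pool.Agent.H573.AHB
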