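import Pool.Agent.H573.AHB.PvK
import Pool.Agent.H573.AHB.PuI

/-!
The equation `b^{2p} + c^{2p} = 2 a^s` with `a` prime to `p`, and `x^2 + w^{2p} = t^{2s}` with `w` odd.
-/

set_option autoImplicit false

namespace Pool.Agent.H573.AHB

open Polynomial Filter

/-- the configuration -/
def W10 (m q n : ℕ) : Prop :=
  OKm m ∧ BadF 1 m 1 1 1 1 (2 ^ m) (2 ^ m) False False (X ^ 2 + 1) q n

/-- the case of equality in the power mean inequality -/
lemma power_mean_eq1 (m : ℕ) (hm : 1 ≤ m) (z : ℂ) (hz : ‖z‖ = 1)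
    (hF : ‖Fh (1 : ℂ) 1 z m‖ = 2 ^ m) (hG : ‖Gh (1 : ℂ) 1 z m‖ = 2 ^ m) : z ^ 2 + 1 = 0 := by
  have h3 := pow_FG (δ := (1 : ℂ)) (ω := 1) (by norm_num) 1 z m
  have h4 := pow_FG' (δ := (1 : ℂ)) (ω := 1) (by norm_num) 1 z m
  rw [one_mul] at h3 h4
  have par : ∀ a b : ℂ, ‖a + b‖ ^ 2 + ‖a - b‖ ^ 2 = 2 * (‖a‖ ^ 2 + ‖b‖ ^ 2) := by
    intro a b
    have := parallelogram_law_with_norm ℝ a b
    nlinarith
  have hAB := par 1 (1 * z)
  have hFG := par (Fh (1 : ℂ) 1 z m) (1 * z * Gh (1 : ℂ) 1 z m)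
  rw [one_mul] at hAB hFG h3 h4
  rw [← h3, ← h4, norm_pow, norm_pow, norm_mul, hF, hG, hz, one_mul] at hFG
  rw [hz, norm_one] at hAB
  obtain ⟨A, hA⟩ : ∃ A : ℝ, A = ‖1 + z‖ ^ 2 := ⟨_, rfl⟩
  obtain ⟨B, hB⟩ : ∃ B : ℝ, B = ‖1 - z‖ ^ 2 := ⟨_, rfl⟩
  have hA0 : 0 ≤ A := by rw [hA]; positivity
  have hB0 : 0 ≤ B := by rw [hB]; positivity
  have hsum : A + B = 4 := by
    rw [hA, hB, hAB]
    norm_num
  have hpw : A ^ (2 * m + 1) + B ^ (2 * m + 1) = 2 * 2 ^ (2 * m + 1) := by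
    rw [hA, hB, ← pow_mul, ← pow_mul, mul_comm 2 (2 * m + 1), pow_mul, pow_mul, hFG]
    have : ((2 : ℝ) ^ m) ^ 2 = 2 ^ (2 * m) := by rw [← pow_mul, mul_comm]
    rw [this, pow_succ]
    ring
  have hA2 : A = 2 := by
    by_contra hne
    -- Bernoulli-type: the function `t ↦ (2+t)^p + (2-t)^p` is larger than `2 * 2^p` for `t ≠ 0`
    obtain ⟨t, ht⟩ : ∃ t, t = A - 2 := ⟨_, rfl⟩
    have ht0 : t ≠ 0 := by
      rw [ht]
      exact sub_ne_zero.mpr hne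
    have hAt : A = 2 + t := by rw [ht]; ring
    have hBt : B = 2 - t := by rw [ht]; linarith
    have key : ∀ k : ℕ, 2 ^ (2 * k + 1) ≤ ((2 + t) ^ (2 * k + 1) + (2 - t) ^ (2 * k + 1)) / 2 ∧
        0 ≤ t * ((2 + t) ^ (2 * k + 1) - (2 - t) ^ (2 * k + 1)) ∧
        (1 ≤ k → 2 ^ (2 * k + 1) < ((2 + t) ^ (2 * k + 1) + (2 - t) ^ (2 * k + 1)) / 2) := by
      intro k
      have hp1 : 0 ≤ 2 + t := by rw [← hAt]; exact hA0
      have hp2 : 0 ≤ 2 - t := by rw [← hBt]; exact hB0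
      induction k with
      | zero =>
        refine ⟨by norm_num, ?_, fun h => absurd h (by norm_num)⟩
        have e0 : t * ((2 + t) ^ (2 * 0 + 1) - (2 - t) ^ (2 * 0 + 1)) = 2 * t ^ 2 := by ring
        rw [e0]
        positivity
      | succ k ih =>
        obtain ⟨i1, i2, -⟩ := ih
        obtain ⟨S, hS⟩ : ∃ S, S = (2 + t) ^ (2 * k + 1) + (2 - t) ^ (2 * k + 1) := ⟨_, rfl⟩
        obtain ⟨D, hD⟩ : ∃ D, D = (2 + t) ^ (2 * k + 1) - (2 - t) ^ (2 * k + 1) := ⟨_, rfl⟩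
        rw [← hS] at i1
        rw [← hD] at i2
        have hS0 : 0 < S := by
          have : (0 : ℝ) < 2 ^ (2 * k + 1) := by positivity
          linarith
        have eS : (2 + t) ^ (2 * (k + 1) + 1) + (2 - t) ^ (2 * (k + 1) + 1) =
            (4 + t ^ 2) * S + 4 * (t * D) := by
          rw [hS, hD]
          ring
        have eD : (2 + t) ^ (2 * (k + 1) + 1) - (2 - t) ^ (2 * (k + 1) + 1) =
            (4 + t ^ 2) * D + 4 * t * S := by
          rw [hS, hD]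
          ring
        have e2 : (2 : ℝ) ^ (2 * (k + 1) + 1) = 4 * 2 ^ (2 * k + 1) := by ring
        have ht2 : 0 < t ^ 2 := by positivity
        rw [eS, eD, e2]
        refine ⟨by nlinarith, ?_, fun _ => by nlinarith⟩
        have e3 : t * ((4 + t ^ 2) * D + 4 * t * S) = (4 + t ^ 2) * (t * D) + 4 * (t ^ 2 * S) := by
          ring
        rw [e3]
        positivity
    have h5 := (key m).2.2 hm
    rw [← hAt, ← hBt, hpw] at h5
    linarith
  have hB2 : B = 2 := by linarith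
  -- `|1 + z| = |1 - z|` and `|z| = 1` give `z = ± i`
  rw [hA] at hA2
  rw [hB] at hB2
  have hre : z.re = 0 := by
    have e1 : ‖1 + z‖ ^ 2 = 1 + 2 * z.re + ‖z‖ ^ 2 := by
      rw [← Complex.normSq_eq_norm_sq, ← Complex.normSq_eq_norm_sq, Complex.normSq_apply,
        Complex.normSq_apply]
      simp
      ring
    rw [e1, hz] at hA2
    linarith
  have him : z.im ^ 2 = 1 := by
    have e1 : ‖z‖ ^ 2 = z.re ^ 2 + z.im ^ 2 := by
      rw [← Complex.normSq_eq_norm_sq, Complex.normSq_apply]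
      ring
    rw [hz, hre] at e1
    linarith
  apply Complex.ext
  · simp only [pow_two, Complex.add_re, Complex.mul_re, Complex.one_re, Complex.zero_re, hre]
    linarith
  · simp only [pow_two, Complex.add_im, Complex.mul_im, Complex.one_im, Complex.zero_im, hre]
    ring

theorem ucount_W10 (m : ℕ) : UCount (W10 m) (K9 m) (4 * (2 * m + 1)) := by
  have hK : 0 ≤ K9 m := by unfold K9; positivity
  apply UCount.and_left hK
  intro hm
  have hm1 := hm.1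
  have h2 : 2 ≤ 2 ^ m := by
    calc 2 = 2 ^ 1 := (pow_one 2).symm
      _ ≤ 2 ^ m := Nat.pow_le_pow_right (by norm_num) hm1
  have hd : 2 ^ m ∣ (2 * m + 1) * 4 ^ m := by
    have : 4 ^ m = 2 ^ m * 2 ^ m := by
      rw [← mul_pow]
      norm_num
    rw [this]
    exact (dvd_mul_right _ _).mul_left _
  refine ucF m hm _ _ _ _ _ _ False False _ le_rfl le_rfl le_rfl le_rfl (by omega) (by omega)
    (by omega) (by omega) hd hd ?_ (Or.inr (Or.inr ?_)) (Or.inr (Or.inl ?_))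
  · intro z hz
    by_contra hcon
    push Not at hcon
    apply hz
    rw [map_add, map_pow, aeval_X, map_one]
    obtain ⟨N0, hN0, h0⟩ := hcon 0
    obtain ⟨N1, hN1, h1⟩ := hcon 1
    obtain ⟨N2, hN2, h2⟩ := hcon 2
    have k0 := norm_of_pow hN0 h0
    have k1 := norm_of_pow hN1 h1
    have k2 := norm_of_pow hN2 h2
    rw [ph_zero] at k0
    rw [ph_one] at k1
    rw [ph_two] at k2
    simp only [cc, Matrix.cons_val_zero, Matrix.cons_val_one, Matrix.cons_val_two, Matrix.tail_cons,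
      Matrix.head_cons, Nat.cast_one, one_mul, mul_one, one_pow, Int.cast_pow,
      Nat.cast_pow, Nat.cast_ofNat, Int.cast_one, abs_one, Int.cast_ofNat] at k0 k1 k2
    rw [abs_of_pos (by positivity)] at k1 k2
    exact power_mean_eq1 m hm.1 z k0 k1 k2
  · rw [one_pow, one_mul]
    omega
  · rw [one_pow, one_mul]
    omega

theorem usparse_W10 : USparse W10 := by
  refine ⟨33, fun m => (ucount_W10 m).weak ?_ ?_⟩
  · have h0 : (0 : ℝ) ≤ m := Nat.cast_nonneg m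
    have h1 : ((m : ℝ) + 1) * ((4 * m + 6) + 2) ≤ 4 * ((m : ℝ) + 2) ^ 2 := by nlinarith
    have h2 : (((m : ℝ) + 1) * ((4 * m + 6) + 2)) ^ 2 ≤ (4 * ((m : ℝ) + 2) ^ 2) ^ 2 :=
      pow_le_pow_left₀ (by positivity) h1 2
    have h3 : (2 : ℝ) ^ 29 ≤ ((m : ℝ) + 2) ^ 29 := pow_le_pow_left₀ (by norm_num) (by linarith) 29
    have h4 : (0 : ℝ) ≤ ((m : ℝ) + 2) ^ 4 := by positivity
    unfold K9
    calc 2000000 * (((m : ℝ) + 1) * ((4 * m + 6) + 2)) ^ 2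
        ≤ 2000000 * (4 * ((m : ℝ) + 2) ^ 2) ^ 2 := by linarith
      _ = 32000000 * ((m : ℝ) + 2) ^ 4 := by ring
      _ ≤ 2 ^ 29 * ((m : ℝ) + 2) ^ 4 := by
          apply mul_le_mul_of_nonneg_right _ h4
          norm_num
      _ ≤ ((m : ℝ) + 2) ^ 29 * ((m : ℝ) + 2) ^ 4 := mul_le_mul_of_nonneg_right h3 h4
      _ = _ := by ring
  · calc 4 * (2 * m + 1) ≤ 8 * (m + 2) := by omega
      _ ≤ (m + 2) ^ 3 * (m + 2) := by
          apply Nat.mul_le_mul_right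
          calc 8 = 2 ^ 3 := by norm_num
            _ ≤ (m + 2) ^ 3 := Nat.pow_le_pow_left (by omega) 3
      _ = (m + 2) ^ 4 := by ring
      _ ≤ (m + 2) ^ 33 := Nat.pow_le_pow_right (by omega) (by norm_num)

/-- one set `S` and one set `G` for all pairs `(p, r)` and `(p, 2)` -/
theorem engine_pairs4 :
    ∃ κ : ℝ, 0 < κ ∧ ∃ S : Set ℕ,
      (∀ s ∈ S, s.Prime ∧ 2 < s ∧ ∃ G : Finset ℕ, (s : ℝ) ^ κ ≤ (G.card : ℝ) ∧
        ∀ q ∈ G, q.Prime ∧ 2 * s < q ∧ s ∣ q - 1 ∧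
          (∀ m l : ℕ, PR m l → ((2 * m + 1 : ℕ) : ℝ) ≤ (s : ℝ) ^ κ →
            ((2 * l + 1 : ℕ) : ℝ) ≤ (s : ℝ) ^ κ →
            2 * m + 1 < q ∧ 2 * l + 1 < q ∧ ¬ BadAll 1 m l (psiOf 1 m l) q ((q - 1) / s)) ∧
          (∀ m : ℕ, ((2 * m + 1 : ℕ) : ℝ) ≤ (s : ℝ) ^ κ →
            2 * (2 * m + 1) < q ∧ ¬ W10 m q ((q - 1) / s)) ∧ 4 ∣ q - 1) ∧
      ∃ c : ℝ, 0 < c ∧ ∃ X₀ : ℕ, ∀ X : ℕ, X₀ ≤ X → c ≤ invSum S X := by
  obtain ⟨κ, hκ0, S, hS, hdens⟩ :=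
    engine 4 (by norm_num) _ ((usparse_WP 1 rfl).or usparse_W10)
  refine ⟨κ, hκ0, S, ?_, hdens⟩
  intro s hs
  obtain ⟨hsp, hs2, G, hG1, hG2⟩ := hS s hs
  refine ⟨hsp, hs2, G, hG1, ?_⟩
  intro q hq
  obtain ⟨k1, k2, k3, k4, k5⟩ := hG2 q hq
  refine ⟨k1, k2, k4, ?_, ?_, k3⟩
  · intro m l hPR hm hl
    have hM : ((2 * max m l + 1 : ℕ) : ℝ) ≤ (s : ℝ) ^ κ := by
      rcases le_total m l with h | h
      · rw [max_eq_right h]; exact hl
      · rw [max_eq_left h]; exact hm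
    obtain ⟨k6, k7⟩ := k5 (max m l) hM
    have h1 := le_max_left m l
    have h2 := le_max_right m l
    refine ⟨by omega, by omega, fun hb => k7 (Or.inl ?_)⟩
    refine ⟨(m, l), ?_, hPR, hb⟩
    rw [Finset.mem_product, Finset.mem_range, Finset.mem_range]
    simp only
    omega
  · intro m hm
    obtain ⟨k6, k7⟩ := k5 m hm
    exact ⟨k6, fun hb => k7 (Or.inr hb)⟩

end Pool.Agent.H573.AHB
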