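import Pool.Agent.H573.AHB.PvL

/-!
The equations `b^{2p} + c^{2p} = 2 a^s` and `x^2 + w^{2p} = t^{2s}`, `w` odd: descent over `ℤ[i]`.
-/

set_option autoImplicit false

namespace Pool.Agent.H573.AHB

open Polynomial

/-- the factors in the Gaussian integers of `b^{2p} + c^{2p} = 2 a^s` -/
lemma gi_factors2 (m : ℕ) (hm : OKm m) (s : ℕ) (hsodd : Odd s) (a b c : ℤ)
    (hco : IsCoprime c b) (hbo : Odd b) (hco' : Odd c)
    (heq : b ^ (2 * (2 * m + 1)) + c ^ (2 * (2 * m + 1)) = 2 * a ^ s)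
    (hpa : ¬ ((2 * m + 1 : ℕ) : ℤ) ∣ a) :
    ∃ j : GaussianInt, j ^ 2 = -1 ∧ ∃ d1 d2 d3 d4 : GaussianInt,
      (c : GaussianInt) - j * (b : GaussianInt) = (1 + j) * d1 ^ s ∧
      (c : GaussianInt) + j * (b : GaussianInt) = (1 + j) * d2 ^ s ∧
      Fh 1 ((c : GaussianInt) - j * (b : GaussianInt)) ((c : GaussianInt) + j * (b : GaussianInt)) m
        = 4 ^ m * d3 ^ s ∧
      Gh 1 ((c : GaussianInt) - j * (b : GaussianInt)) ((c : GaussianInt) + j * (b : GaussianInt)) m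
        = 4 ^ m * d4 ^ s := by
  obtain ⟨hm1, hp⟩ := hm
  have hpodd : Odd (2 * m + 1) := ⟨m, rfl⟩
  have hs0 : s ≠ 0 := by
    obtain ⟨k, hk⟩ := hsodd
    omega
  -- `a` is odd
  have hao : Odd a := by
    by_contra hcon
    rw [Int.not_odd_iff_even] at hcon
    have h1 : Even (a ^ s) := hcon.pow_of_ne_zero hs0
    obtain ⟨w, hw⟩ := h1
    have h2 := Int.sq_mod_four_eq_one_of_odd (hbo.pow (n := 2 * m + 1))
    have h3 := Int.sq_mod_four_eq_one_of_odd (hco'.pow (n := 2 * m + 1))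
    have h4 : (b ^ (2 * m + 1)) ^ 2 + (c ^ (2 * m + 1)) ^ 2 = 2 * (w + w) := by
      rw [← hw, ← heq, ← pow_mul, ← pow_mul, mul_comm (2 * m + 1) 2]
    omega
  obtain ⟨j, hj⟩ : ∃ j : GaussianInt, j = ⟨0, 1⟩ := ⟨_, rfl⟩
  have hj2 : j ^ 2 = -1 := by
    rw [hj]
    apply Zsqrtd.ext
    · simp [pow_two]
    · simp [pow_two]
  have hj4 : (-j) ^ 4 = 1 := by
    have : (-j) ^ 4 = (j ^ 2) ^ 2 := by ring
    rw [this, hj2]
    ring
  obtain ⟨C, hC⟩ : ∃ C : GaussianInt, C = (c : GaussianInt) := ⟨_, rfl⟩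
  obtain ⟨B, hB⟩ : ∃ B : GaussianInt, B = j * (b : GaussianInt) := ⟨_, rfl⟩
  refine ⟨j, hj2, ?_⟩
  rw [← hC, ← hB]
  have hju : IsUnit j := IsUnit.of_mul_eq_one (-j) (by linear_combination -hj2)
  have hcb : IsCoprime (c : GaussianInt) (b : GaussianInt) := hco.map (Int.castRingHom GaussianInt)
  have hCB : IsCoprime C B := by
    rw [hC, hB]
    exact (isCoprime_mul_unit_left_right hju _ _).mpr hcb
  have hBp : B ^ (2 * (2 * m + 1)) = -(b : GaussianInt) ^ (2 * (2 * m + 1)) := by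
    rw [hB, mul_pow, pow_mul j, hj2, hpodd.neg_one_pow]
    ring
  have hprod : (C ^ (2 * m + 1) - B ^ (2 * m + 1)) * (C ^ (2 * m + 1) + B ^ (2 * m + 1)) =
      2 * (a : GaussianInt) ^ s := by
    have h1 : (C ^ (2 * m + 1) - B ^ (2 * m + 1)) * (C ^ (2 * m + 1) + B ^ (2 * m + 1)) =
        C ^ (2 * (2 * m + 1)) - B ^ (2 * (2 * m + 1)) := by
      rw [mul_comm 2 (2 * m + 1), pow_mul, pow_mul]
      ring
    rw [h1, hBp, hC]
    have h2 := congrArg (Int.cast : ℤ → GaussianInt) heq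
    push_cast at h2
    rw [← h2]
    ring
  have ha0 : (a : GaussianInt) ≠ 0 := by
    intro h4
    have h6 : a = 0 := by exact_mod_cast h4
    rw [h6] at hpa
    exact hpa (dvd_zero _)
  have h2as : (2 : GaussianInt) * (a : GaussianInt) ^ s ≠ 0 :=
    mul_ne_zero (by norm_num) (pow_ne_zero s ha0)
  have hU0 : C - B ≠ 0 := by
    intro h
    apply h2as
    rw [← hprod]
    have h3 : C = B := sub_eq_zero.mp h
    rw [h3, sub_self, zero_mul]
  have hV0 : C + B ≠ 0 := by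
    intro h
    apply h2as
    rw [← hprod]
    have h3 : C = -B := eq_neg_of_add_eq_zero_left h
    rw [h3, hpodd.neg_pow]
    ring
  obtain ⟨P, hP⟩ : ∃ P, P = ∑ i ∈ Finset.range (2 * m + 1), C ^ i * B ^ (2 * m + 1 - 1 - i) :=
    ⟨_, rfl⟩
  obtain ⟨Q, hQ⟩ : ∃ Q, Q = ∑ i ∈ Finset.range (2 * m + 1), C ^ i * (-B) ^ (2 * m + 1 - 1 - i) :=
    ⟨_, rfl⟩
  have hUP : (C - B) * P = C ^ (2 * m + 1) - B ^ (2 * m + 1) := by
    rw [hP, mul_comm]
    exact (Commute.all C B).geom_sum₂_mul (2 * m + 1)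
  have hVQ : (C + B) * Q = C ^ (2 * m + 1) + B ^ (2 * m + 1) := by
    have := (Commute.all C (-B)).geom_sum₂_mul (2 * m + 1)
    rw [hpodd.neg_pow, sub_neg_eq_add, sub_neg_eq_add, ← hQ] at this
    rw [mul_comm]
    exact this
  -- the factor `1 + j`
  obtain ⟨e, he⟩ : ∃ e : ℤ, c - b = 2 * e := by
    obtain ⟨k, hk⟩ := hco'
    obtain ⟨k', hk'⟩ := hbo
    exact ⟨k - k', by rw [hk, hk']; ring⟩
  have hcast : (c : GaussianInt) = 2 * (e : GaussianInt) + (b : GaussianInt) := by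
    have h1 : c = 2 * e + b := by linarith
    rw [h1]
    push_cast
    ring
  obtain ⟨U, hU⟩ : ∃ U : GaussianInt, U = (1 - j) * e + -j * b := ⟨_, rfl⟩
  obtain ⟨V, hV⟩ : ∃ V : GaussianInt, V = (1 - j) * e + b := ⟨_, rfl⟩
  have hUe : C - B = (1 + j) * U := by
    rw [hC, hB, hU, hcast]
    linear_combination ((e : GaussianInt) + b) * hj2
  have hVe : C + B = (1 + j) * V := by
    rw [hC, hB, hV, hcast]
    linear_combination (e : GaussianInt) * hj2
  have hall : (U * P) * (V * Q) = -j * (a : GaussianInt) ^ s := by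
    have h1 : (2 : GaussianInt) * j * ((U * P) * (V * Q)) = 2 * (a : GaussianInt) ^ s := by
      rw [← hprod, ← hUP, ← hVQ, hUe, hVe]
      linear_combination -(U * P * (V * Q)) * hj2
    have h2 : (2 : GaussianInt) * ((U * P) * (V * Q)) = 2 * (-j * (a : GaussianInt) ^ s) := by
      linear_combination -j * h1 + 2 * (U * P * (V * Q)) * hj2
    exact mul_left_cancel₀ (by norm_num) h2
  obtain ⟨z, hz⟩ : ∃ z : GaussianInt, z = (-j) ^ s * a := ⟨_, rfl⟩
  have hzs : z ^ s = -j * (a : GaussianInt) ^ s := by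
    rw [hz, mul_pow, ← pow_mul]
    obtain ⟨k, rfl⟩ := hsodd
    have : (2 * k + 1) * (2 * k + 1) = 4 * (k * k + k) + 1 := by ring
    rw [this, pow_succ, pow_mul, hj4, one_pow, one_mul]
  rw [← hzs] at hall
  -- the prime `p` and `2`
  have hpa' : IsCoprime (2 * (a : GaussianInt) ^ s) ((2 * m + 1 : ℕ) : GaussianInt) := by
    have h1 : IsCoprime a ((2 * m + 1 : ℕ) : ℤ) := by
      have hpp : Prime ((2 * m + 1 : ℕ) : ℤ) := Nat.prime_iff_prime_int.mp hp
      exact ((Prime.coprime_iff_not_dvd hpp).mpr hpa).symm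
    have h3 : IsCoprime (2 : ℤ) ((2 * m + 1 : ℕ) : ℤ) := ⟨-m, 1, by push_cast; ring⟩
    have h2 := ((h3.mul_left (h1.pow_left (m := s)))).map (Int.castRingHom GaussianInt)
    simpa using h2
  have h2a : IsCoprime (2 : GaussianInt) ((a : GaussianInt) ^ s) := by
    apply IsCoprime.pow_right
    have h1 : IsCoprime (2 : ℤ) a := by
      obtain ⟨k, hk⟩ := hao
      exact ⟨-k, 1, by rw [hk]; ring⟩
    have h2 := h1.map (Int.castRingHom GaussianInt)
    simpa using h2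
  have hcop : IsCoprime (U * P) (V * Q) := by
    obtain ⟨x, y, hxy⟩ := (hCB.pow (m := 2 * m + 1) (n := 2 * m + 1))
    obtain ⟨u, v, huv⟩ := h2a
    refine ⟨u * (1 + j) * (x - y) + v * j * (V * Q), u * (1 + j) * (x + y), ?_⟩
    have g1 : (1 + j) * (U * P) = C ^ (2 * m + 1) - B ^ (2 * m + 1) := by
      rw [← hUP, hUe]
      ring
    have g2 : (1 + j) * (V * Q) = C ^ (2 * m + 1) + B ^ (2 * m + 1) := by
      rw [← hVQ, hVe]
      ring
    have g3 : (a : GaussianInt) ^ s = j * ((U * P) * (V * Q)) := by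
      rw [hall, hzs]
      linear_combination (a : GaussianInt) ^ s * (-1 : GaussianInt) * (-hj2)
    rw [g3] at huv
    linear_combination huv + 2 * u * hxy + u * (x - y) * g1 + u * (x + y) * g2
  have hc1 : IsCoprime U P := by
    have h1 : IsCoprime (C - B) P := by
      rw [hP]
      apply geom_cop _ _ _ hCB
      refine hpa'.of_isCoprime_of_dvd_left ?_
      rw [← hprod, ← hUP]
      exact ⟨P * (C ^ (2 * m + 1) + B ^ (2 * m + 1)), by ring⟩
    rw [hUe] at h1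
    exact h1.of_mul_left_right
  have hc2 : IsCoprime V Q := by
    have h1 : IsCoprime (C - -B) Q := by
      rw [hQ]
      apply geom_cop _ _ _ hCB.neg_right
      refine hpa'.of_isCoprime_of_dvd_left ?_
      rw [← hprod, ← hVQ, sub_neg_eq_add]
      exact ⟨Q * (C ^ (2 * m + 1) - B ^ (2 * m + 1)), by ring⟩
    rw [sub_neg_eq_add, hVe] at h1
    exact h1.of_mul_left_right
  have hcUV := hcop.of_mul_left_left
  have hcPV := hcop.of_mul_left_right
  obtain ⟨d1, h1⟩ := gi_pow U (P * (V * Q)) z s hsodd (hc1.mul_right hcUV)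
    (by rw [← hall]; ring)
  obtain ⟨d2, h2⟩ := gi_pow V (Q * (U * P)) z s hsodd
    (hc2.mul_right hcop.symm.of_mul_left_left) (by rw [← hall]; ring)
  obtain ⟨d3, h3⟩ := gi_pow P (U * (V * Q)) z s hsodd (hc1.symm.mul_right hcPV)
    (by rw [← hall]; ring)
  obtain ⟨d4, h4⟩ := gi_pow Q (V * (U * P)) z s hsodd
    (hc2.symm.mul_right hcop.symm.of_mul_left_right) (by rw [← hall]; ring)
  have h22 : (2 : GaussianInt) ^ (2 * m + 1) = 2 * 4 ^ m := by
    rw [pow_succ, pow_mul, mul_comm]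
    norm_num
  have e1 := pow_FG (δ := (1 : GaussianInt)) (ω := 1) (by norm_num) (C - B) (C + B) m
  have e2 := pow_FG' (δ := (1 : GaussianInt)) (ω := 1) (by norm_num) (C - B) (C + B) m
  have e3 : (C - B) + 1 * (C + B) = 2 * C := by ring
  have e4 : (C - B) - 1 * (C + B) = -(2 * B) := by ring
  rw [e3] at e1
  rw [e4, hpodd.neg_pow] at e2
  have e5 : (2 * C) ^ (2 * m + 1) = 2 * 4 ^ m * C ^ (2 * m + 1) := by
    rw [mul_pow, h22]
  have e6 : (2 * B) ^ (2 * m + 1) = 2 * 4 ^ m * B ^ (2 * m + 1) := by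
    rw [mul_pow, h22]
  rw [e5] at e1
  rw [e6] at e2
  refine ⟨d1, d2, d3, d4, by rw [← h1]; exact hUe, by rw [← h2]; exact hVe, ?_, ?_⟩
  · rw [← h3]
    apply mul_left_cancel₀ hU0
    have e7 : (2 : GaussianInt) * ((C - B) * Fh 1 (C - B) (C + B) m) =
        2 * ((C - B) * (4 ^ m * P)) := by
      have e8 : (C - B) * (4 ^ m * P) = 4 ^ m * (C ^ (2 * m + 1) - B ^ (2 * m + 1)) := by
        rw [← hUP]
        ring
      rw [e8]
      linear_combination -e1 - e2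
    exact mul_left_cancel₀ (by norm_num) e7
  · rw [← h4]
    apply mul_left_cancel₀ hV0
    have e7 : (2 : GaussianInt) * ((C + B) * Gh 1 (C - B) (C + B) m) =
        2 * ((C + B) * (4 ^ m * Q)) := by
      have e8 : (C + B) * (4 ^ m * Q) = 4 ^ m * (C ^ (2 * m + 1) + B ^ (2 * m + 1)) := by
        rw [← hVQ]
        ring
      rw [e8]
      linear_combination -e1 + e2
    exact mul_left_cancel₀ (by norm_num) e7

/-- **The local theorem for `b^{2p} + c^{2p} = 2 a^s`, `a` prime to `p`.** -/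
theorem sum2b_loc (m : ℕ) (hm : OKm m) (s q : ℕ)
    (hsp : s.Prime) (hs2 : 2 < s) (hq : q.Prime) (hqm : 2 * (2 * m + 1) < q) (hq4 : 4 ∣ q - 1)
    (hsq : s ∣ q - 1) (hnb : ¬ W10 m q ((q - 1) / s)) (a b c : ℤ) (hco : IsCoprime c b)
    (hbo : Odd b) (hco' : Odd c)
    (heq : b ^ (2 * (2 * m + 1)) + c ^ (2 * (2 * m + 1)) = 2 * a ^ s)
    (hpa : ¬ ((2 * m + 1 : ℕ) : ℤ) ∣ a) : (q : ℤ) ∣ c ^ 2 - b ^ 2 := by
  have hF1 : Fact q.Prime := ⟨hq⟩
  have hsodd : Odd s := hsp.odd_of_ne_two (by omega)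
  have hsn : s * ((q - 1) / s) = q - 1 := Nat.mul_div_cancel' hsq
  have hqp : Prime (q : ℤ) := Nat.prime_iff_prime_int.mp hq
  have h2q : (2 : ZMod q) ≠ 0 := by
    have := natCast_ne_zero_of_lt (by omega : 0 < 2) (by omega : 2 < q) (ZMod q)
    exact_mod_cast this
  obtain ⟨n, hn⟩ : ∃ n, n = (q - 1) / s := ⟨_, rfl⟩
  rw [← hn] at hsn hnb
  have hn4 : 4 ∣ n := by
    have h1 : Nat.Coprime 4 s := by
      have h2 : Nat.Coprime 2 s := (Nat.coprime_primes Nat.prime_two hsp).mpr (by omega)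
      exact Nat.Coprime.pow_left 2 h2
    rw [← hsn] at hq4
    exact h1.dvd_of_dvd_mul_left hq4
  obtain ⟨j, hj2, d1, d2, d3, d4, h1, h2, h3, h4⟩ :=
    gi_factors2 m hm s hsodd a b c hco hbo hco' heq hpa
  obtain ⟨ι, hι⟩ : ∃ ι : ZMod q, ι * ι = ((-1 : ℤ) : ZMod q) := by
    have h5 : IsSquare (-1 : ZMod q) := by
      rw [ZMod.exists_sq_eq_neg_one_iff]
      have := hq.two_le
      omega
    obtain ⟨ι, hι⟩ := h5
    exact ⟨ι, by rw [← hι]; simp⟩
  obtain ⟨φ, -⟩ : ∃ φ : GaussianInt →+* ZMod q, True := ⟨Zsqrtd.lift ⟨ι, hι⟩, trivial⟩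
  have hφc : ∀ x : ℤ, φ (x : GaussianInt) = (x : ZMod q) := fun x => map_intCast φ x
  obtain ⟨J, hJ⟩ : ∃ J, J = φ j := ⟨_, rfl⟩
  have hJ2 : J ^ 2 = -1 := by
    rw [hJ, ← map_pow, hj2, map_neg, map_one]
  have hJ1 : (1 + J) ≠ 0 := by
    intro h
    have : (1 + J) * (1 - J) = 2 := by linear_combination -hJ2
    rw [h, zero_mul] at this
    exact h2q this.symm
  have hJ0 : J ≠ 0 := by
    rintro h
    rw [h, zero_pow two_ne_zero] at hJ2
    exact one_ne_zero (neg_eq_zero.mp hJ2.symm)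
  have hJn : (-J) ^ n = 1 := by
    obtain ⟨k, hk⟩ := hn4
    rw [hk, pow_mul]
    have : (-J) ^ 4 = (J ^ 2) ^ 2 := by ring
    rw [this, hJ2]
    simp
  have g1 := congrArg φ h1
  have g2 := congrArg φ h2
  have g3 := congrArg φ h3
  have g4 := congrArg φ h4
  have hmap := map_FGh φ 1 ((c : GaussianInt) - j * (b : GaussianInt))
    ((c : GaussianInt) + j * (b : GaussianInt)) m
  rw [hmap.1] at g3
  rw [hmap.2] at g4
  rw [map_sub, map_mul, map_mul, map_pow, hφc, hφc, map_add, map_one, ← hJ] at g1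
  rw [map_add, map_mul, map_mul, map_pow, hφc, hφc, map_add, map_one, ← hJ] at g2
  rw [map_one, map_sub, map_add, map_mul, map_mul, map_pow, map_pow, hφc, hφc, ← hJ,
    map_ofNat] at g3 g4
  obtain ⟨u, hu⟩ : ∃ u, u = φ d1 ^ s := ⟨_, rfl⟩
  obtain ⟨v, hv⟩ : ∃ v, v = φ d2 ^ s := ⟨_, rfl⟩
  rw [← hu] at g1
  rw [← hv] at g2
  rw [g1, g2, (hom_FG 1 u v (1 + J) m).1] at g3
  rw [g1, g2, (hom_FG 1 u v (1 + J) m).2] at g4
  have hJ2m : (1 + J) ^ (2 * m) ≠ 0 := pow_ne_zero _ hJ1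
  have h4m : (1 + J) ^ (2 * m) * ((-J) ^ m * 2 ^ m) = 4 ^ m := by
    rw [pow_mul, ← mul_pow, ← mul_pow]
    congr 1
    linear_combination (-2 * J - 4) * hJ2
  have g3' : Fh 1 u v m = ((-J) ^ m * 2 ^ m) * φ d3 ^ s := by
    apply mul_left_cancel₀ hJ2m
    rw [g3, ← h4m]
    ring
  have g4' : Gh 1 u v m = ((-J) ^ m * 2 ^ m) * φ d4 ^ s := by
    apply mul_left_cancel₀ hJ2m
    rw [g4, ← h4m]
    ring
  have hcn : ((-J) ^ m * 2 ^ m) ^ n = (((2 ^ m : ℕ)) : ZMod q) ^ n := by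
    rw [mul_pow, ← pow_mul, mul_comm m n, pow_mul, hJn, one_pow, one_mul]
    push_cast
    rfl
  by_contra hqbc
  apply hnb
  refine ⟨hm, u, v, ?_, fun h => h.elim, fun h => h.elim, ?_, ?_, ?_, ?_, ?_⟩
  · by_contra hcon
    push Not at hcon
    obtain ⟨t1, t2⟩ := hcon
    rw [t1, mul_zero] at g1
    rw [t2, mul_zero] at g2
    have t3 : 2 * (c : ZMod q) = 0 := by linear_combination g1 + g2
    have t4 : 2 * (J * (b : ZMod q)) = 0 := by linear_combination g2 - g1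
    have t5 : (c : ZMod q) = 0 := (mul_eq_zero.mp t3).resolve_left h2q
    have t6 : (b : ZMod q) = 0 :=
      (mul_eq_zero.mp ((mul_eq_zero.mp t4).resolve_left h2q)).resolve_left hJ0
    rw [ZMod.intCast_zmod_eq_zero_iff_dvd] at t5 t6
    exact hqp.not_isUnit (hco.isUnit_of_dvd' t5 t6)
  · intro t ht h0
    rw [map_add, map_pow, aeval_X, map_one] at h0
    have t1 : u ^ 2 + v ^ 2 = 0 := by
      rw [ht]
      linear_combination u ^ 2 * h0
    have t2 : 2 * ((c : ZMod q) ^ 2 - (b : ZMod q) ^ 2) = 0 := by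
      have t3 : ((c : ZMod q) - J * b) ^ 2 + ((c : ZMod q) + J * b) ^ 2 =
          (1 + J) ^ 2 * (u ^ 2 + v ^ 2) := by
        rw [g1, g2]
        ring
      rw [t1, mul_zero] at t3
      linear_combination t3 - 2 * (b : ZMod q) ^ 2 * hJ2
    have t3 := (mul_eq_zero.mp t2).resolve_left h2q
    apply hqbc
    rw [← ZMod.intCast_zmod_eq_zero_iff_dvd]
    push_cast
    exact t3
  · have := pow_modZ q s n hq hsn 1 (φ d1) u (by rw [one_mul]; exact hu)
    simpa using this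
  · have := pow_modZ q s n hq hsn 1 (φ d2) v (by rw [one_mul]; exact hv)
    simpa using this
  · have := pow_modZ q s n hq hsn _ (φ d3) _ g3'
    rw [hcn] at this
    simpa using this
  · have := pow_modZ q s n hq hsn _ (φ d4) _ g4'
    rw [hcn] at this
    simpa using this

end Pool.Agent.H573.AHB
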