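import Pool.Agent.H573.AHB.PvM

/-!
The equation `x^2 + w^{2p} = t^{2s}` with `w` odd.
-/

set_option autoImplicit false

namespace Pool.Agent.H573.AHB

open Polynomial

/-- **The local theorem for `x^2 + w^{2p} = t^{2s}`, `w` odd, `t` prime to `p`.** -/
theorem hyp_loc (m : ℕ) (hm : OKm m) (s q : ℕ)
    (hsp : s.Prime) (hs2 : 2 < s) (hq : q.Prime) (hqm : 2 * (2 * m + 1) < q) (hq4 : 4 ∣ q - 1)
    (hsq : s ∣ q - 1) (hnb : ¬ W10 m q ((q - 1) / s)) (x w t : ℕ) (hco : Nat.Coprime t x)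
    (hw : Odd w) (heq : x ^ 2 + w ^ (2 * (2 * m + 1)) = t ^ (2 * s))
    (hpt : (2 * m + 1) % 4 = 3 ∨ ¬ (2 * m + 1) ∣ t) : q ∣ x := by
  have hs0 : s ≠ 0 := by omega
  have hw0 : 0 < w := hw.pos
  have hwp : 0 < w ^ (2 * (2 * m + 1)) := by positivity
  have hlt : x < t ^ s := by
    have h1 : x ^ 2 < (t ^ s) ^ 2 := by
      rw [← pow_mul, mul_comm s 2, ← heq]
      omega
    exact lt_of_pow_lt_pow_left₀ 2 (Nat.zero_le _) h1
  have hpt' : ¬ (2 * m + 1) ∣ t := by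
    rcases hpt with h | h
    · intro hd
      have h1 : Nat.Coprime x (w ^ (2 * m + 1)) := by
        have h2 : Nat.Coprime (t ^ (2 * s)) x := Nat.Coprime.pow_left _ hco
        rw [← heq] at h2
        have h3 : Nat.Coprime (w ^ (2 * (2 * m + 1))) x := by
          rw [pow_two] at h2
          exact (Nat.coprime_mul_left_add_left _ _ _).mp h2
        have h4 : Nat.Coprime (w ^ (2 * m + 1)) x := by
          rw [mul_comm 2, pow_mul] at h3
          exact Nat.Coprime.coprime_dvd_left (dvd_pow_self _ two_ne_zero) h3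
        exact h4.symm
      apply three_mod_four (2 * m + 1) hm.2 h x (w ^ (2 * m + 1)) h1
      have h2 : x ^ 2 + (w ^ (2 * m + 1)) ^ 2 = t ^ (2 * s) := by
        rw [← heq, ← pow_mul, mul_comm (2 * m + 1) 2]
      rw [h2]
      exact dvd_pow hd (by omega)
    · exact h
  obtain ⟨M, hM⟩ : ∃ M, t ^ s = x + M := ⟨t ^ s - x, by omega⟩
  obtain ⟨P, hP⟩ : ∃ P, P = t ^ s + x := ⟨_, rfl⟩
  have hPM : P * M = w ^ (2 * (2 * m + 1)) := by
    have h1 : (t ^ s) ^ 2 = x ^ 2 + w ^ (2 * (2 * m + 1)) := by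
      rw [heq, ← pow_mul, mul_comm s 2]
    rw [hM] at h1
    rw [hP, hM]
    have h2 : (x + M + x) * M + x ^ 2 = (x + M) ^ 2 := by ring
    rw [h1] at h2
    omega
  have hodd : Odd (P * M) := by
    rw [hPM]
    exact hw.pow
  rw [Nat.odd_mul] at hodd
  obtain ⟨hPo, hMo⟩ := hodd
  have hcoPM : Nat.Coprime P M := by
    apply Nat.Coprime.symm
    apply Nat.coprime_of_dvd
    intro r hr hrM hrP
    have hr2 : ¬ r ∣ 2 := by
      intro h
      have h1 : r = 2 := (Nat.prime_dvd_prime_iff_eq hr Nat.prime_two).mp h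
      rw [h1] at hrM
      exact (Nat.not_even_iff_odd.mpr hMo) ((even_iff_two_dvd).mpr hrM)
    have h1 : r ∣ 2 * t ^ s := by
      have : 2 * t ^ s = P + M := by rw [hP, hM]; ring
      rw [this]
      exact dvd_add hrP hrM
    have h2 : r ∣ 2 * x := by
      have h3 : P = 2 * x + M := by rw [hP, hM]; ring
      rw [h3] at hrP
      exact (Nat.dvd_add_left hrM).mp hrP
    have h3 : r ∣ t := hr.dvd_of_dvd_pow ((hr.dvd_mul.mp h1).resolve_left hr2)
    have h4 : r ∣ x := (hr.dvd_mul.mp h2).resolve_left hr2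
    exact hr.one_lt.ne' (Nat.dvd_one.mp (by rw [← hco]; exact Nat.dvd_gcd h3 h4))
  obtain ⟨A, hA⟩ := exists_eq_pow_of_mul_eq_pow (Nat.isUnit_iff.mpr hcoPM) hPM
  obtain ⟨B, hB⟩ := exists_eq_pow_of_mul_eq_pow (Nat.isUnit_iff.mpr hcoPM.symm)
    (by rw [mul_comm]; exact hPM)
  have hAB : B ^ (2 * (2 * m + 1)) + A ^ (2 * (2 * m + 1)) = 2 * t ^ s := by
    rw [← hA, ← hB, hP, hM]
    ring
  have hcAB : Nat.Coprime A B := by
    rw [hA, hB] at hcoPM
    have h1 : 2 * (2 * m + 1) ≠ 0 := by omega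
    exact Nat.Coprime.coprime_dvd_left (dvd_pow_self A h1)
      (Nat.Coprime.coprime_dvd_right (dvd_pow_self B h1) hcoPM)
  have hAo : Odd A := by
    rw [hA] at hPo
    exact (Nat.odd_pow_iff (by omega)).mp hPo
  have hBo : Odd B := by
    rw [hB] at hMo
    exact (Nat.odd_pow_iff (by omega)).mp hMo
  have h5 := sum2b_loc m hm s q hsp hs2 hq hqm hq4 hsq hnb (t : ℤ) (B : ℤ) (A : ℤ)
    (Nat.isCoprime_iff_coprime.mpr hcAB) ((Int.odd_coe_nat B).mpr hBo) ((Int.odd_coe_nat A).mpr hAo)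
    (by exact_mod_cast hAB) (fun h => hpt' (Int.natCast_dvd_natCast.mp h))
  have h6 : (q : ℤ) ∣ 2 * (x : ℤ) := by
    have h7 : (2 : ℤ) * (x : ℤ) = ((A : ℤ) ^ 2) ^ (2 * m + 1) - ((B : ℤ) ^ 2) ^ (2 * m + 1) := by
      rw [← pow_mul, ← pow_mul]
      have h8 : (P : ℤ) = (A : ℤ) ^ (2 * (2 * m + 1)) := by exact_mod_cast hA
      have h9 : (M : ℤ) = (B : ℤ) ^ (2 * (2 * m + 1)) := by exact_mod_cast hB
      rw [← h8, ← h9, hP]
      push_cast
      have h10 : ((t : ℤ) ^ s) = x + M := by exact_mod_cast hM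
      rw [h10]
      ring
    rw [h7]
    exact h5.trans (sub_dvd_pow_sub_pow _ _ _)
  have hqp : Prime (q : ℤ) := Nat.prime_iff_prime_int.mp hq
  rcases hqp.dvd_or_dvd h6 with h | h
  · exfalso
    have := Nat.le_of_dvd two_pos (Int.natCast_dvd_natCast.mp (show (q : ℤ) ∣ ((2 : ℕ) : ℤ) from h))
    omega
  · exact Int.natCast_dvd_natCast.mp h

end Pool.Agent.H573.AHB
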