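import Pool.Agent.H573.AHB.UnK

/-!
The local theorem for `x^{2s} + y² = z^{2p}`, `x` odd.
-/

set_option autoImplicit false

namespace Pool.Agent.H573.AHB

open Polynomial

/-- the local theorem for `x^{2s} + y² = z^{2p}`, `x` odd -/
theorem mid_loc_odd (m : ℕ) (hm : OKm m) (s q : ℕ) (hsp : s.Prime)
    (hs2 : 2 < s) (hq : q.Prime) (hqm : 2 * (2 * m + 1) < q) (hsq : s ∣ q - 1)
    (hnb : ¬ W3 m q ((q - 1) / s)) (x y z : ℤ) (hx : Odd x)
    (hco : IsCoprime x y) (heq : x ^ (2 * s) + y ^ 2 = z ^ (2 * (2 * m + 1))) :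
    ¬ ((2 * m + 1 : ℕ) : ℤ) ∣ x ∧ (q : ℤ) ∣ y := by
  have hm1 := hm.1
  have hp := hm.2
  have hs0 : s ≠ 0 := by omega
  have hsodd : Odd s := hsp.odd_of_ne_two (by omega)
  have hpp : Prime ((2 * m + 1 : ℕ) : ℤ) := Nat.prime_iff_prime_int.mp hp
  have hqp : Prime ((q : ℕ) : ℤ) := Nat.prime_iff_prime_int.mp hq
  have hF1 : Fact q.Prime := ⟨hq⟩
  have hx0 : x ≠ 0 := by
    rintro rfl
    exact (by decide : ¬ Odd (0 : ℤ)) hx
  obtain ⟨z', hz', hzz⟩ : ∃ z' : ℤ, 0 ≤ z' ∧ z' ^ (2 * (2 * m + 1)) = x ^ (2 * s) + y ^ 2 :=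
    ⟨|z|, abs_nonneg z, by rw [pow_mul, sq_abs, ← pow_mul, heq]⟩
  obtain ⟨Z, hZ⟩ : ∃ Z : ℤ, Z = z' ^ (2 * m + 1) := ⟨_, rfl⟩
  have hZ0 : 0 ≤ Z := by rw [hZ]; positivity
  have hZZ : Z ^ 2 = (x ^ s) ^ 2 + y ^ 2 := by
    have e1 : Z ^ 2 = z' ^ (2 * (2 * m + 1)) := by rw [hZ]; ring
    have e2 : (x ^ s) ^ 2 = x ^ (2 * s) := by ring
    rw [e1, e2, hzz]
  -- `y` is even
  have hye : Even y := by
    by_contra hcon
    rw [Int.not_even_iff_odd] at hcon
    obtain ⟨a, ha⟩ := hx.pow (n := s)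
    obtain ⟨b, hb⟩ := hcon
    have h1 : Z ^ 2 = 4 * (a ^ 2 + a + b ^ 2 + b) + 2 := by rw [hZZ, ha, hb]; ring
    rcases Int.even_or_odd Z with ⟨c, hc⟩ | ⟨c, hc⟩
    · have h2 : Z ^ 2 = 4 * c ^ 2 := by rw [hc]; ring
      omega
    · have h2 : Z ^ 2 = 4 * (c ^ 2 + c) + 1 := by rw [hc]; ring
      omega
  have hZo : Odd Z := by
    have h1 : Odd (Z ^ 2) := by
      rw [hZZ]
      exact (hx.pow.pow).add_even (hye.pow_of_ne_zero two_ne_zero)
    by_contra hcon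
    rw [Int.not_odd_iff_even] at hcon
    exact (Int.not_even_iff_odd.mpr h1) (hcon.pow_of_ne_zero (by omega))
  have hprod : (Z - y) * (Z + y) = x ^ (2 * s) := by
    have : (x ^ s) ^ 2 = x ^ (2 * s) := by ring
    rw [← this]
    linear_combination hZZ
  have hpos : 0 < x ^ (2 * s) := by
    rw [pow_mul]
    positivity
  have hA0 : 0 < Z - y := by
    by_contra hcon
    push Not at hcon
    have : 0 ≤ Z + y := by linarith
    nlinarith
  have hB0 : 0 < Z + y := by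
    by_contra hcon
    push Not at hcon
    nlinarith
  have hZy : IsCoprime Z y := by
    have h1 : IsCoprime (Z ^ 2) y := by
      rw [hZZ]
      have : (x ^ s) ^ 2 + y ^ 2 = (x ^ s) ^ 2 + y * y := by ring
      rw [this]
      exact (IsCoprime.pow_left hco.pow_left).add_mul_left_left y
    exact (IsCoprime.pow_left_iff two_pos).mp h1
  have hcc := cop_diff_sum hZy (hZo.sub_even hye)
  obtain ⟨⟨r, hr⟩, t, ht⟩ := pow_of_mul hA0.le hB0.le hcc hprod
  have hA : Z - y = (r ^ s) ^ 2 := by rw [hr]; ring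
  have hB : Z + y = (t ^ s) ^ 2 := by rw [ht]; ring
  have hro : Odd (r ^ s) := by
    have h1 : Odd (Z - y) := hZo.sub_even hye
    rw [hA] at h1
    by_contra hcon
    rw [Int.not_odd_iff_even] at hcon
    exact (Int.not_even_iff_odd.mpr h1) (hcon.pow_of_ne_zero (by omega))
  have hto : Odd (t ^ s) := by
    have h1 : Odd (Z + y) := hZo.add_even hye
    rw [hB] at h1
    by_contra hcon
    rw [Int.not_odd_iff_even] at hcon
    exact (Int.not_even_iff_odd.mpr h1) (hcon.pow_of_ne_zero (by omega))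
  obtain ⟨C, hC⟩ := hro.add_odd hto
  obtain ⟨D, hD⟩ := hto.sub_odd hro
  have hCA : r ^ s = C - D := by linarith
  have hCB : t ^ s = C + D := by linarith
  have hCDz : C ^ 2 + D ^ 2 = z' ^ (2 * m + 1) := by
    have h1 : (r ^ s) ^ 2 + (t ^ s) ^ 2 = 2 * Z := by linarith
    rw [hCA, hCB] at h1
    rw [← hZ]
    linarith
  have hyCD : y = 2 * (C * D) := by
    have h1 : (t ^ s) ^ 2 - (r ^ s) ^ 2 = 2 * y := by linarith
    rw [hCA, hCB] at h1
    linarith
  have hrt : IsCoprime (r ^ s) (t ^ s) := by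
    rw [hA, hB] at hcc
    exact (IsCoprime.pow_iff (by norm_num) (by norm_num)).mp hcc
  have hCD : IsCoprime C D := by
    rw [hCA, hCB] at hrt
    obtain ⟨a, b, hab⟩ := hrt
    exact ⟨a + b, b - a, by linarith⟩
  obtain ⟨u, v, hu, hv⟩ := gauss C D z' m hm1 hCD hCDz
  have hpar : Odd (u - v) := by
    by_contra hcon
    rw [Int.not_odd_iff_even] at hcon
    have h1 : Even (u ^ 2 + (-1) * v ^ 2) := by
      have : u ^ 2 + (-1) * v ^ 2 = (u - v) * (u + v) := by ring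
      rw [this]
      exact hcon.mul_right _
    have h2 : Even ((u ^ 2 + (-1) * v ^ 2) ^ m) := h1.pow_of_ne_zero (by omega)
    obtain ⟨h3, h4⟩ := FG_par (-1) u v m
    have h5 : Even (Fh (-1) u v m) := by
      have := h3.add h2
      rwa [sub_add_cancel] at this
    have h6 : Even (Gh (-1) u v m) := by
      have := h4.add h2
      rwa [sub_add_cancel] at this
    have h7 : Even C := by rw [hu]; exact h5.mul_left _
    have h8 : Even D := by rw [hv]; exact h6.mul_left _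
    have h9 : Even (t ^ s) := by rw [hCB]; exact h7.add h8
    exact (Int.not_even_iff_odd.mpr hto) h9
  have hpar2 : Odd (u + v) := by
    have : u + v = (u - v) + 2 * v := by ring
    rw [this]
    exact hpar.add_even (even_two_mul _)
  have huv0 : IsCoprime u v := by
    rw [hu, hv] at hCD
    exact hCD.of_mul_left_left.of_mul_right_left
  have huv : IsCoprime (u - v) (u + v) := cop_diff_sum huv0 hpar
  have hodd2 : ∀ w : ℤ, Odd w → IsCoprime ((2 : ℤ) ^ m) w := by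
    rintro w ⟨k, hk⟩
    apply IsCoprime.pow_left
    exact ⟨-k, 1, by rw [hk]; ring⟩
  have h2m : ((2 : ℤ) ^ m) ≠ 0 := pow_ne_zero _ two_ne_zero
  have hqn2 : ¬ (q : ℤ) ∣ 2 := by
    intro h3
    have h4 := Int.le_of_dvd (by norm_num) h3
    omega
  have h1n : ¬ (2 * m + 1) ∣ 1 := odd_not_dvd_le_two m 1 hm le_rfl (by norm_num)
  -- finish from `U F = ±2^m α^s`, `V G = ±2^m β^s`
  have fin : ∀ α β : ℤ, (u - v) * Fh (-1) (u - v) (u + v) m = 2 ^ m * α ^ s →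
      (u + v) * Gh (-1) (u - v) (u + v) m = 2 ^ m * β ^ s →
      (¬ ((2 * m + 1 : ℕ) : ℤ) ∣ α ∧ ¬ ((2 * m + 1 : ℕ) : ℤ) ∣ β) ∧ (q : ℤ) ∣ y := by
    intro α β h1 h2
    obtain ⟨F', hF'⟩ : (2 : ℤ) ^ m ∣ Fh (-1) (u - v) (u + v) m := by
      apply (hodd2 _ hpar).dvd_of_dvd_mul_left
      rw [h1]
      exact dvd_mul_right _ _
    obtain ⟨G', hG'⟩ : (2 : ℤ) ^ m ∣ Gh (-1) (u - v) (u + v) m := by
      apply (hodd2 _ hpar2).dvd_of_dvd_mul_left
      rw [h2]
      exact dvd_mul_right _ _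
    have f1 : (u - v) * F' = α ^ s := by
      apply mul_left_cancel₀ h2m
      rw [← h1, hF']
      ring
    have f2 : (u + v) * G' = β ^ s := by
      apply mul_left_cancel₀ h2m
      rw [← h2, hG']
      ring
    obtain ⟨c1, c2, c3⟩ := cfg (-1) rfl m 1 1 (2 ^ m) hm h1n h1n (odd_not_dvd_two_pow m m hm)
      (by norm_num) s q hsp hs2 hq hqm hsq (u - v) (u + v) F' G' α β huv
      (by push_cast; exact hF') (by push_cast; exact hG') (by rw [Nat.cast_one, one_mul, f1])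
      (by rw [Nat.cast_one, one_mul, f2])
      (by rw [Nat.cast_one]; exact isCoprime_one_left) (by rw [Nat.cast_one]; exact isCoprime_one_left)
    have hα : ¬ ((2 * m + 1 : ℕ) : ℤ) ∣ α := fun h =>
      hnb ⟨hm, Or.inr (Or.inl (c2 h False (fun h => h.elim)))⟩
    have hβ : ¬ ((2 * m + 1 : ℕ) : ℤ) ∣ β := fun h =>
      hnb ⟨hm, Or.inr (Or.inr (c3 h False (fun h => h.elim)))⟩
    refine ⟨⟨hα, hβ⟩, ?_⟩
    by_contra hqy
    apply hnb
    refine ⟨hm, Or.inl (c1 hα hβ (X ^ 2 - 1) ?_)⟩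
    intro t ht h0
    apply hqy
    rw [map_sub, map_pow, aeval_X, map_one, sub_eq_zero] at h0
    have h3 : (((u + v : ℤ) : ZMod q)) ^ 2 = (((u - v : ℤ) : ZMod q)) ^ 2 := by
      rw [ht, mul_pow, h0, mul_one]
    have h4 : ((4 * (u * v) : ℤ) : ZMod q) = 0 := by
      have e : (4 * (u * v) : ℤ) = (u + v) ^ 2 - (u - v) ^ 2 := by ring
      rw [e]
      push_cast at h3 ⊢
      rw [h3, sub_self]
    rw [ZMod.intCast_zmod_eq_zero_iff_dvd] at h4
    have h5 : (q : ℤ) ∣ u * v := by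
      have e : (4 * (u * v) : ℤ) = 2 * (2 * (u * v)) := by ring
      rw [e] at h4
      exact (hqp.dvd_or_dvd ((hqp.dvd_or_dvd h4).resolve_left hqn2)).resolve_left hqn2
    rw [hyCD, hu, hv]
    rcases hqp.dvd_or_dvd h5 with h6 | h6
    · exact ((h6.mul_right _).mul_right _).mul_left _
    · exact ((h6.mul_right _).mul_left _).mul_left _
  have hneg : ∀ w : ℤ, -(2 ^ m * w ^ s) = 2 ^ m * (-w) ^ s := by
    intro w
    rw [hsodd.neg_pow]
    ring
  have hfin2 : (¬ ((2 * m + 1 : ℕ) : ℤ) ∣ r ∧ ¬ ((2 * m + 1 : ℕ) : ℤ) ∣ t) ∧ (q : ℤ) ∣ y := by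
    rcases twist u v (r ^ s) (t ^ s) m (by rw [← hu, ← hv]; exact hCA.symm)
      (by rw [← hu, ← hv]; exact hCB.symm) with ⟨g1, g2⟩ | ⟨g1, g2⟩ | ⟨g1, g2⟩ | ⟨g1, g2⟩
    · exact fin r t g1 g2
    · rw [hneg] at g1 g2
      have := fin (-r) (-t) g1 g2
      rwa [dvd_neg, dvd_neg] at this
    · rw [hneg] at g1
      have := fin (-t) r g1 g2
      rw [dvd_neg] at this
      exact ⟨this.1.symm, this.2⟩
    · rw [hneg] at g2
      have := fin t (-r) g1 g2
      rw [dvd_neg] at this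
      exact ⟨this.1.symm, this.2⟩
  refine ⟨?_, hfin2.2⟩
  intro hpx
  have h1 : ((2 * m + 1 : ℕ) : ℤ) ∣ r ^ (2 * s) * t ^ (2 * s) := by
    rw [← hr, ← ht, hprod]
    exact dvd_pow hpx (by omega)
  rcases hpp.dvd_or_dvd h1 with h | h
  · exact hfin2.1.1 (hpp.dvd_of_dvd_pow h)
  · exact hfin2.1.2 (hpp.dvd_of_dvd_pow h)

end Pool.Agent.H573.AHB
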