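import Pool.Agent.H573.AHB.PuI
import Pool.Agent.H573.AHB.UnL

/-!
The engine for `a^{2s} + b^2 = c^n`, where `n` has two distinct small prime factors.
-/

set_option autoImplicit false

namespace Pool.Agent.H573.AHB

open Polynomial Filter

/-- one set `S` and one set `G` for all pairs of primes -/
theorem engine_sq :
    ∃ κ : ℝ, 0 < κ ∧ ∃ S : Set ℕ,
      (∀ s ∈ S, s.Prime ∧ 2 < s ∧ ∃ G : Finset ℕ, (s : ℝ) ^ κ ≤ (G.card : ℝ) ∧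
        ∀ q ∈ G, q.Prime ∧ 2 * s < q ∧ s ∣ q - 1 ∧
          (∀ m l : ℕ, PR m l → ((2 * m + 1 : ℕ) : ℝ) ≤ (s : ℝ) ^ κ →
            ((2 * l + 1 : ℕ) : ℝ) ≤ (s : ℝ) ^ κ →
            2 * m + 1 < q ∧ 2 * l + 1 < q ∧
              ¬ BadAll (-1) m l (psiOf (-1) m l) q ((q - 1) / s)) ∧
          (∀ m : ℕ, ((2 * m + 1 : ℕ) : ℝ) ≤ (s : ℝ) ^ κ →
            2 * (2 * m + 1) < q ∧ ¬ W2 (-1) m q ((q - 1) / s) ∧ ¬ W3 m q ((q - 1) / s))) ∧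
      ∃ c : ℝ, 0 < c ∧ ∃ X₀ : ℕ, ∀ X : ℕ, X₀ ≤ X → c ≤ invSum S X := by
  obtain ⟨κ, hκ0, S, hS, hdens⟩ :=
    engine 1 le_rfl _ ((usparse_WP (-1) rfl).or ((usparse_W2 (-1) rfl).or usparse_W3))
  refine ⟨κ, hκ0, S, ?_, hdens⟩
  intro s hs
  obtain ⟨hsp, hs2, G, hG1, hG2⟩ := hS s hs
  refine ⟨hsp, hs2, G, hG1, ?_⟩
  intro q hq
  obtain ⟨k1, k2, -, k4, k5⟩ := hG2 q hq
  refine ⟨k1, k2, k4, ?_, ?_⟩
  · intro m l hPR hm hl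
    have hM : ((2 * max m l + 1 : ℕ) : ℝ) ≤ (s : ℝ) ^ κ := by
      rcases le_total m l with h | h
      · rw [max_eq_right h]; exact hl
      · rw [max_eq_left h]; exact hm
    obtain ⟨k6, k7⟩ := k5 (max m l) hM
    have h1 := le_max_left m l
    have h2 := le_max_right m l
    refine ⟨by omega, by omega, fun hb => k7 (Or.inl ?_)⟩
    refine ⟨(m, l), ?_, hPR, hb⟩
    rw [Finset.mem_product, Finset.mem_range, Finset.mem_range]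
    simp only
    omega
  · intro m hm
    obtain ⟨k6, k7⟩ := k5 m hm
    exact ⟨k6, fun hb => k7 (Or.inr (Or.inl hb)), fun hb => k7 (Or.inr (Or.inr hb))⟩

/-- the pair `(2, p)` -/
lemma mid_pair (m : ℕ) (hm : OKm m) (s q : ℕ) (hsp : s.Prime) (hs2 : 2 < s) (hq : q.Prime)
    (hqm : 2 * (2 * m + 1) < q) (hsq : s ∣ q - 1) (h1 : ¬ W2 (-1) m q ((q - 1) / s))
    (h2 : ¬ W3 m q ((q - 1) / s)) (a l' : ℕ) (y z : ℤ) (hl' : l' ≠ 0) (ha : a ≠ 0)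
    (hco : IsCoprime ((a : ℤ) ^ l') y)
    (heq : ((a : ℤ) ^ l') ^ (2 * s) + y ^ 2 = z ^ (2 * (2 * m + 1))) :
    (2 ∣ a ∧ (2 * m + 1) ∣ a ∧ q ∣ a) ∨ (¬ 2 ∣ a ∧ ¬ (2 * m + 1) ∣ a ∧ (q : ℤ) ∣ y) := by
  have hd : ∀ r : ℕ, r.Prime → (r : ℤ) ∣ (a : ℤ) ^ l' → r ∣ a := by
    intro r hr h
    rw [← Nat.cast_pow] at h
    exact hr.dvd_of_dvd_pow (Int.natCast_dvd_natCast.mp h)
  have hd' : ∀ r : ℕ, r ∣ a → (r : ℤ) ∣ (a : ℤ) ^ l' := by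
    intro r h
    rw [← Nat.cast_pow]
    exact Int.natCast_dvd_natCast.mpr (dvd_pow h hl')
  rcases Nat.even_or_odd a with hae | hao
  · left
    obtain ⟨g1, g2⟩ := mid_loc_even m hm s q hsp hs2 hq hqm hsq h1 ((a : ℤ) ^ l') y z
      (((Int.even_coe_nat a).mpr hae).pow_of_ne_zero hl')
      (pow_ne_zero _ (by exact_mod_cast ha)) hco heq
    exact ⟨hae.two_dvd, hd _ hm.2 g1, hd _ hq g2⟩
  · right
    obtain ⟨g1, g2⟩ := mid_loc_odd m hm s q hsp hs2 hq hqm hsq h2 ((a : ℤ) ^ l') y z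
      (((Int.odd_coe_nat a).mpr hao).pow) hco heq
    refine ⟨?_, fun h => g1 (hd' _ h), g2⟩
    intro h
    exact (Nat.not_even_iff_odd.mpr hao) (even_iff_two_dvd.mpr h)

end Pool.Agent.H573.AHB
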