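import Mathlib

/-!
Elementary facts on imaginary quadratic fields: coordinates, norm, integral elements, units.
-/

namespace Pool.Agent.H573.AHB

open Module

section
variable {K : Type} [Field K] [NumberField K] (hK : finrank ℚ K = 2) (w : K) (D : ℕ)
  (hD : 1 ≤ D) (hw : w ^ 2 = -(D : K))

include hD hw in
lemma quad_indep (r t : ℚ) (h : (r : K) + t * w = 0) : r = 0 ∧ t = 0 := by
  have ht : t = 0 := by
    by_contra ht
    have htK : (t : K) ≠ 0 := by exact_mod_cast ht
    have h1 : w = ((-(r / t) : ℚ) : K) := by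
      push_cast
      field_simp
      linear_combination h
    rw [h1] at hw
    have h2 : (-(r / t)) ^ 2 = -(D : ℚ) := by exact_mod_cast hw
    have h3 : (0 : ℚ) ≤ (-(r / t)) ^ 2 := sq_nonneg _
    have h4 : (1 : ℚ) ≤ D := by exact_mod_cast hD
    linarith
  refine ⟨?_, ht⟩
  rw [ht] at h
  have : (r : K) = 0 := by simpa using h
  exact_mod_cast this

include hD hw in
lemma quad_inj (r t r' t' : ℚ) (h : (r : K) + t * w = r' + t' * w) : r = r' ∧ t = t' := by
  have := quad_indep w D hD hw (r - r') (t - t') (by push_cast; linear_combination h)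
  exact ⟨by linarith [this.1], by linarith [this.2]⟩

include hD hw in
lemma quad_li : LinearIndependent ℚ ![(1 : K), w] := by
  rw [LinearIndependent.pair_iff]
  intro s t h
  rw [Algebra.smul_def, Algebra.smul_def, mul_one] at h
  exact quad_indep w D hD hw s t h

/-- the basis `1, w` -/
noncomputable def quadBasis : Basis (Fin 2) ℚ K :=
  basisOfLinearIndependentOfCardEqFinrank (quad_li w D hD hw) (by rw [hK]; rfl)

lemma quadBasis_apply (i : Fin 2) : quadBasis hK w D hD hw i = ![(1 : K), w] i := by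
  unfold quadBasis
  rw [coe_basisOfLinearIndependentOfCardEqFinrank]

include hK hD hw in
lemma quad_span (x : K) : ∃ r t : ℚ, x = r + t * w := by
  have h := (quadBasis hK w D hD hw).sum_repr x
  rw [Fin.sum_univ_two, quadBasis_apply, quadBasis_apply] at h
  obtain ⟨r, hr⟩ : ∃ r, r = (quadBasis hK w D hD hw).repr x 0 := ⟨_, rfl⟩
  obtain ⟨t, ht⟩ : ∃ t, t = (quadBasis hK w D hD hw).repr x 1 := ⟨_, rfl⟩
  rw [← hr, ← ht] at h
  refine ⟨r, t, ?_⟩
  rw [← h]
  simp [Algebra.smul_def]

lemma quad_repr (r t : ℚ) :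
    (quadBasis hK w D hD hw).repr ((r : K) + t * w) = Finsupp.equivFunOnFinite.symm ![r, t] := by
  apply (quadBasis hK w D hD hw).repr.symm.injective
  rw [LinearEquiv.symm_apply_apply, Basis.repr_symm_apply, Finsupp.linearCombination_apply,
    Finsupp.sum_fintype]
  · rw [Fin.sum_univ_two, quadBasis_apply, quadBasis_apply]
    simp [Algebra.smul_def]
  · intro i
    simp

lemma quad_mat (r t : ℚ) :
    Algebra.leftMulMatrix (quadBasis hK w D hD hw) ((r : K) + t * w) = !![r, -(D * t); t, r] := by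
  have h0 : ((r : K) + t * w) * (quadBasis hK w D hD hw 0) = (r : K) + t * w := by
    rw [quadBasis_apply]; simp
  have h1 : ((r : K) + t * w) * (quadBasis hK w D hD hw 1) =
      ((-(D * t) : ℚ) : K) + (r : ℚ) * w := by
    rw [quadBasis_apply]
    simp only [Matrix.cons_val_one, Matrix.cons_val_fin_one]
    push_cast
    linear_combination (t : K) * hw
  ext i j
  rw [Algebra.leftMulMatrix_eq_repr_mul]
  fin_cases j
  · simp only [Fin.zero_eta, Fin.isValue]
    rw [h0, quad_repr]
    fin_cases i <;> simp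
  · simp only [Fin.mk_one, Fin.isValue]
    rw [h1, quad_repr]
    fin_cases i <;> simp

include hK hD hw in
lemma quad_norm (r t : ℚ) : Algebra.norm ℚ ((r : K) + t * w) = r ^ 2 + D * t ^ 2 := by
  rw [Algebra.norm_eq_matrix_det (quadBasis hK w D hD hw), quad_mat, Matrix.det_fin_two]
  simp
  ring

include hK hD hw in
lemma quad_trace (r t : ℚ) : Algebra.trace ℚ K ((r : K) + t * w) = 2 * r := by
  rw [Algebra.trace_eq_matrix_trace (quadBasis hK w D hD hw), quad_mat, Matrix.trace_fin_two]
  simp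
  ring

end

lemma rat_of_sqfree (D : ℕ) (hD : Squarefree D) (x : ℚ) (n : ℤ) (h : D * x ^ 2 = n) :
    ∃ k : ℤ, x = k := by
  have hx : x = x.num / x.den := (Rat.num_div_den x).symm
  have hd0 : (x.den : ℚ) ≠ 0 := by exact_mod_cast x.den_ne_zero
  have h1 : (D : ℤ) * x.num ^ 2 = n * (x.den : ℤ) ^ 2 := by
    have h2 : (D : ℚ) * x.num ^ 2 = n * x.den ^ 2 := by
      rw [← h, ← Rat.mul_den_eq_num x]
      ring
    exact_mod_cast h2
  have h3 : (x.den : ℤ) ^ 2 ∣ (D : ℤ) := by
    have h4 : IsCoprime ((x.den : ℤ) ^ 2) (x.num ^ 2) := by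
      apply IsCoprime.pow
      rw [Int.isCoprime_iff_gcd_eq_one, Int.gcd_comm]
      exact x.reduced
    exact h4.dvd_of_dvd_mul_right ⟨n, by rw [h1]; ring⟩
  have h5 : x.den * x.den ∣ D := by
    rw [← pow_two]
    exact_mod_cast h3
  have h6 := hD _ h5
  rw [Nat.isUnit_iff] at h6
  refine ⟨x.num, ?_⟩
  rw [hx, h6]
  simp

section
variable {K : Type} [Field K] [NumberField K] (hK : finrank ℚ K = 2) (w : K) (D : ℕ)
  (hD : 1 ≤ D) (hw : w ^ 2 = -(D : K)) (hsq : Squarefree D)

include hK hD hw hsq in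
/-- integral elements -/
lemma quad_int (x : K) (hx : IsIntegral ℤ x) :
    ∃ a b n : ℤ, 2 * x = a + b * w ∧ a ^ 2 + D * b ^ 2 = 4 * n ∧ Algebra.norm ℚ x = n := by
  obtain ⟨r, t, rfl⟩ := quad_span hK w D hD hw x
  have h1 := Algebra.isIntegral_trace (R := ℤ) (L := ℚ) hx
  have h2 := Algebra.isIntegral_norm (R := ℤ) ℚ hx
  rw [IsIntegrallyClosed.isIntegral_iff] at h1 h2
  rw [quad_trace hK w D hD hw] at h1
  rw [quad_norm hK w D hD hw] at h2
  obtain ⟨a, ha⟩ := h1
  obtain ⟨n, hn⟩ := h2
  simp only [algebraMap_int_eq, eq_intCast] at ha hn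
  obtain ⟨b, hb⟩ := rat_of_sqfree D hsq (2 * t) (4 * n - a ^ 2) (by
    push_cast
    rw [ha, hn]
    ring)
  refine ⟨a, b, n, ?_, ?_, ?_⟩
  · have ea : (a : K) = 2 * (r : K) := by
      have := congrArg (Rat.cast : ℚ → K) ha
      push_cast at this
      exact this
    have eb : (b : K) = 2 * (t : K) := by
      have := congrArg (Rat.cast : ℚ → K) hb
      push_cast at this
      exact this.symm
    rw [ea, eb]
    ring
  · have : ((a ^ 2 + D * b ^ 2 : ℤ) : ℚ) = ((4 * n : ℤ) : ℚ) := by
      push_cast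
      rw [ha, ← hb, hn]
      ring
    exact_mod_cast this
  · rw [quad_norm hK w D hD hw, ← hn]

include hK hD hw in
lemma quad_norm_nonneg (x : K) : 0 ≤ Algebra.norm ℚ x := by
  obtain ⟨r, t, rfl⟩ := quad_span hK w D hD hw x
  rw [quad_norm hK w D hD hw]
  positivity

include hK hD hw hsq in
/-- units -/
lemma quad_unit (x y : K) (hx : IsIntegral ℤ x) (hy : IsIntegral ℤ y) (hxy : x * y = 1) :
    x ^ 12 = 1 := by
  obtain ⟨a, b, n, h1, h2, h3⟩ := quad_int hK w D hD hw hsq x hx
  obtain ⟨a', b', n', h1', h2', h3'⟩ := quad_int hK w D hD hw hsq y hy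
  have h4 : n * n' = 1 := by
    have : ((n * n' : ℤ) : ℚ) = ((1 : ℤ) : ℚ) := by
      push_cast
      rw [← h3, ← h3', ← map_mul, hxy, map_one]
    exact_mod_cast this
  have h5 : 0 ≤ n := by
    have := quad_norm_nonneg hK w D hD hw x
    rw [h3] at this
    exact_mod_cast this
  have hn : n = 1 := by
    rcases Int.isUnit_iff.mp (IsUnit.of_mul_eq_one _ h4) with h | h
    · exact h
    · omega
  rw [hn] at h2
  -- the quadratic equation
  have hquad : x ^ 2 = a * x - 1 := by
    have h6 : (2 * x - a) ^ 2 = -(D : K) * b ^ 2 := by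
      rw [h1]
      linear_combination (b : K) ^ 2 * hw
    have h7 : ((a : K) ^ 2 + D * b ^ 2) = 4 := by
      have := congrArg (Int.cast : ℤ → K) h2
      push_cast at this
      linear_combination this
    have h8 : (4 : K) * (x ^ 2 - (a * x - 1)) = 0 := by linear_combination h6 - h7
    have h9 := (mul_eq_zero.mp h8).resolve_left (by norm_num)
    linear_combination h9
  have hDn : (1 : ℤ) ≤ D := by exact_mod_cast hD
  have ha2 : a ^ 2 ≤ 4 := by
    have : 0 ≤ (D : ℤ) * b ^ 2 := by positivity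
    linarith
  have ha3 : -2 ≤ a ∧ a ≤ 2 := by constructor <;> nlinarith
  obtain ⟨ha4, ha5⟩ := ha3
  interval_cases a
  · -- a = -2
    have hb : b = 0 := by
      have : (D : ℤ) * b ^ 2 = 0 := by linarith
      rcases mul_eq_zero.mp this with h | h
      · omega
      · exact pow_eq_zero_iff (by norm_num) |>.mp h
    rw [hb] at h1
    have hx1 : x = -1 := by
      have : (2 : K) * x = 2 * (-1) := by rw [h1]; push_cast; ring
      exact mul_left_cancel₀ (by norm_num) this
    rw [hx1]; norm_num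
  · -- a = -1
    push_cast at hquad
    have h3 : x ^ 3 = 1 := by linear_combination (x - 1) * hquad
    calc x ^ 12 = (x ^ 3) ^ 4 := by ring
      _ = 1 := by rw [h3, one_pow]
  · -- a = 0
    push_cast at hquad
    have h3 : x ^ 2 = -1 := by linear_combination hquad
    calc x ^ 12 = (x ^ 2) ^ 6 := by ring
      _ = 1 := by rw [h3]; norm_num
  · -- a = 1
    push_cast at hquad
    have h3 : x ^ 3 = -1 := by linear_combination (x + 1) * hquad
    calc x ^ 12 = (x ^ 3) ^ 4 := by ring
      _ = 1 := by rw [h3]; norm_num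
  · -- a = 2
    have hb : b = 0 := by
      have : (D : ℤ) * b ^ 2 = 0 := by linarith
      rcases mul_eq_zero.mp this with h | h
      · omega
      · exact pow_eq_zero_iff (by norm_num) |>.mp h
    rw [hb] at h1
    have hx1 : x = 1 := by
      have : (2 : K) * x = 2 * 1 := by rw [h1]; push_cast; ring
      exact mul_left_cancel₀ (by norm_num) this
    rw [hx1]; norm_num

end

end Pool.Agent.H573.AHB
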