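import Pool.Agent.H573.AHB.Quad
import Pool.Agent.H573.AHB.GenA

/-!
The descent for `A X² + B Y² = z^p` in imaginary quadratic fields.
-/

namespace Pool.Agent.H573.AHB

open Module NumberField

/-- coprime factors of a `p`-th power are `p`-th powers up to units, if `p` is prime to the class
number -/
lemma class_pow {K : Type} [Field K] [NumberField K] (p : ℕ) (hp : p.Prime)
    (hcl : ¬ p ∣ classNumber K) (β β' z : 𝓞 K) (hβ : β ≠ 0) (hco : IsCoprime β β')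
    (h : β * β' = z ^ p) : ∃ γ : 𝓞 K, Associated (γ ^ p) β := by
  classical
  let _ : GCDMonoid (Ideal (𝓞 K)) := UniqueFactorizationMonoid.toGCDMonoid _
  have h1 : Ideal.span {β} * Ideal.span {β'} = (Ideal.span {z}) ^ p := by
    rw [Ideal.span_singleton_mul_span_singleton, h, Ideal.span_singleton_pow]
  have h2 : IsCoprime (Ideal.span {β}) (Ideal.span {β'}) := by
    rw [Ideal.isCoprime_span_singleton_iff]
    exact hco
  obtain ⟨I, hI⟩ := _root_.exists_eq_pow_of_mul_eq_pow_of_coprime h2 h1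
  have hI0 : I ≠ 0 := by
    rintro rfl
    rw [zero_pow hp.ne_zero] at hI
    exact hβ (Ideal.span_singleton_eq_bot.mp hI)
  have hp1 : (ClassGroup.mk0 ⟨I, mem_nonZeroDivisors_of_ne_zero hI0⟩) ^ p = 1 := by
    rw [← map_pow, ClassGroup.mk0_eq_one_iff]
    simp only [SubmonoidClass.mk_pow]
    rw [← hI]
    exact ⟨⟨β, rfl⟩⟩
  have hc1 : (ClassGroup.mk0 ⟨I, mem_nonZeroDivisors_of_ne_zero hI0⟩) ^ (classNumber K) = 1 :=
    pow_card_eq_one
  have hcop : Nat.Coprime p (classNumber K) := (Nat.Prime.coprime_iff_not_dvd hp).mpr hcl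
  have h3 : ClassGroup.mk0 ⟨I, mem_nonZeroDivisors_of_ne_zero hI0⟩ = 1 := by
    have := pow_gcd_eq_one.mpr ⟨hp1, hc1⟩
    rw [hcop, pow_one] at this
    exact this
  rw [ClassGroup.mk0_eq_one_iff] at h3
  obtain ⟨γ, hγ⟩ := h3.principal
  refine ⟨γ, ?_⟩
  rw [← Ideal.span_singleton_eq_span_singleton, ← Ideal.span_singleton_pow, hI]
  congr 1
  exact hγ.symm

/-- a number prime to `6` has square `1` modulo `12` -/
lemma sq_mod_twelve (p : ℕ) (hp : p.Prime) (hp5 : 5 ≤ p) : ∃ k, p * p = 12 * k + 1 := by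
  have h2 : ¬ 2 ∣ p := by
    intro h
    have := (Nat.prime_dvd_prime_iff_eq Nat.prime_two hp).mp h
    omega
  have h3 : ¬ 3 ∣ p := by
    intro h
    have := (Nat.prime_dvd_prime_iff_eq Nat.prime_three hp).mp h
    omega
  have h4 : p % 12 = 1 ∨ p % 12 = 5 ∨ p % 12 = 7 ∨ p % 12 = 11 := by omega
  have h5 : (p * p) % 12 = 1 := by
    rcases h4 with h | h | h | h <;> rw [Nat.mul_mod, h]
  exact ⟨p * p / 12, by omega⟩

section
variable {K : Type} [Field K] [NumberField K] (hK : finrank ℚ K = 2) (w : K) (A B : ℕ)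
  (hA : 1 ≤ A) (hB : 1 ≤ B) (hsq : Squarefree (A * B))
  (hw : w ^ 2 = -((A * B : ℕ) : K))

include hK hA hB hsq hw in
/-- the first part of the descent: `κ ^ p = A ^ m (A X + Y w)` -/
lemma quad_kappa (m : ℕ) (hp : (2 * m + 1).Prime) (hp5 : 5 ≤ 2 * m + 1)
    (hcl : ¬ (2 * m + 1) ∣ classNumber K) (X Y z : ℤ) (hco : IsCoprime ((A : ℤ) * X) (B * Y))
    (hz : Odd z) (h : A * X ^ 2 + B * Y ^ 2 = z ^ (2 * m + 1)) :
    ∃ κ : K, IsIntegral ℤ κ ∧ κ ^ (2 * m + 1) = A ^ m * (A * X + Y * w) ∧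
      (Algebra.norm ℚ κ) ^ 2 = ((A * z : ℤ) : ℚ) ^ 2 := by
  have hAB : 1 ≤ A * B := Nat.mul_pos hA hB
  have hwint : IsIntegral ℤ w := by
    apply IsIntegral.of_pow (n := 2) (by norm_num)
    rw [hw]
    exact (isIntegral_natCast (A * B)).neg
  obtain ⟨W, hWw⟩ : ∃ W : 𝓞 K, algebraMap (𝓞 K) K W = w := ⟨⟨w, hwint⟩, rfl⟩
  have hW : W ^ 2 = -((A * B : ℕ) : 𝓞 K) := by
    apply RingOfIntegers.ext
    change algebraMap (𝓞 K) K _ = algebraMap (𝓞 K) K _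
    rw [map_pow, hWw, hw, map_neg, map_natCast]
  obtain ⟨P, hP⟩ : ∃ P : ℤ, P = A * X ^ 2 := ⟨_, rfl⟩
  obtain ⟨Q, hQ⟩ : ∃ Q : ℤ, Q = B * Y ^ 2 := ⟨_, rfl⟩
  have hPQ : IsCoprime P Q := by
    have h1 : IsCoprime ((A : ℤ) * X * X) (B * Y * Y) :=
      (hco.mul_left hco.of_mul_left_right).mul_right
        ((hco.mul_left hco.of_mul_left_right).of_mul_right_right)
    have e1 : P = A * X * X := by rw [hP]; ring
    have e2 : Q = B * Y * Y := by rw [hQ]; ring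
    rw [e1, e2]
    exact h1
  rw [← hP, ← hQ] at h
  have hodd : Odd (P + Q) := by rw [h]; exact hz.pow
  have hcop : IsCoprime (2 * (P - Q)) (P + Q) := by
    have hodd2 : Odd (P - Q) := by
      have : P - Q = P + Q - 2 * Q := by ring
      rw [this]
      exact hodd.sub_even (even_two_mul _)
    have c1 : IsCoprime (2 : ℤ) (P + Q) := by
      obtain ⟨k, hk⟩ := hodd
      exact ⟨-k, 1, by rw [hk]; ring⟩
    have c2 : IsCoprime (P - Q) 2 := by
      obtain ⟨k, hk⟩ := hodd2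
      exact ⟨1, -k, by rw [hk]; ring⟩
    have c3 : IsCoprime (P - Q) Q := by
      obtain ⟨r, t, hrt⟩ := hPQ
      exact ⟨r, r + t, by linear_combination hrt⟩
    have c4 : IsCoprime (P - Q) (P + Q) := by
      obtain ⟨r, t, hrt⟩ := c2.mul_right c3
      exact ⟨r - t, t, by linear_combination hrt⟩
    exact c1.mul_left c4
  obtain ⟨β, hβ⟩ : ∃ β : 𝓞 K, β = ((P - Q : ℤ) : 𝓞 K) + ((2 * X * Y : ℤ) : 𝓞 K) * W := ⟨_, rfl⟩
  obtain ⟨β', hβ'⟩ : ∃ β' : 𝓞 K, β' = ((P - Q : ℤ) : 𝓞 K) - ((2 * X * Y : ℤ) : 𝓞 K) * W :=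
    ⟨_, rfl⟩
  have hcastPQ : (P : 𝓞 K) = A * X ^ 2 ∧ (Q : 𝓞 K) = B * Y ^ 2 := by
    constructor
    · rw [hP]; push_cast; ring
    · rw [hQ]; push_cast; ring
  have hmul0 : β * β' = ((P + Q : ℤ) : 𝓞 K) ^ 2 := by
    rw [hβ, hβ']
    have hW' : W ^ 2 = -((A : 𝓞 K) * B) := by rw [hW]; push_cast; ring
    push_cast
    rw [hcastPQ.1, hcastPQ.2]
    linear_combination (-4 * (X : 𝓞 K) ^ 2 * Y ^ 2) * hW'
  have hmul : β * β' = ((z : 𝓞 K) ^ 2) ^ (2 * m + 1) := by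
    rw [hmul0, h]
    push_cast
    ring
  have hβco : IsCoprime β β' := by
    obtain ⟨r, t, hrt⟩ := hcop.pow_right (n := 2)
    refine ⟨(r : 𝓞 K) + t * β', (r : 𝓞 K), ?_⟩
    have h1 : ((r * (2 * (P - Q)) + t * (P + Q) ^ 2 : ℤ) : 𝓞 K) = 1 := by rw [hrt]; simp
    have h2 : ((r : 𝓞 K) + t * β') * β + r * β' = r * (β + β') + t * (β * β') := by ring
    rw [h2, hmul0, ← h1, hβ, hβ']
    push_cast
    ring
  have hz0 : z ≠ 0 := by
    rintro rfl
    exact (by decide : ¬ Odd (0 : ℤ)) hz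
  have hβ0 : β ≠ 0 := by
    intro h0
    rw [h0, zero_mul] at hmul
    have h1 := (pow_eq_zero_iff (by omega)).mp hmul.symm
    have h2 := (pow_eq_zero_iff (by norm_num)).mp h1
    exact hz0 (by exact_mod_cast h2)
  obtain ⟨γ, ε, hε⟩ := class_pow (2 * m + 1) hp hcl β β' _ hβ0 hβco hmul
  have hε12 : (algebraMap (𝓞 K) K (ε : 𝓞 K)) ^ 12 = 1 := by
    apply quad_unit hK w (A * B) hAB hw hsq _ (algebraMap (𝓞 K) K ((ε⁻¹ : (𝓞 K)ˣ) : 𝓞 K))
      (RingOfIntegers.isIntegral_coe _) (RingOfIntegers.isIntegral_coe _)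
    rw [← map_mul, Units.mul_inv, map_one]
  have hε12' : (ε : 𝓞 K) ^ 12 = 1 := by
    apply RingOfIntegers.ext
    change algebraMap (𝓞 K) K _ = algebraMap (𝓞 K) K _
    rw [map_pow, hε12, map_one]
  obtain ⟨k, hk⟩ := sq_mod_twelve (2 * m + 1) hp hp5
  have hεp : (((ε : 𝓞 K) ^ (2 * m + 1)) ^ (2 * m + 1)) = ε := by
    rw [← pow_mul, hk, pow_succ, pow_mul, hε12', one_pow, one_mul]
  have hγβ : (γ * (ε : 𝓞 K) ^ (2 * m + 1)) ^ (2 * m + 1) = β := by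
    rw [mul_pow, hεp, hε]
  obtain ⟨g', hg'⟩ : ∃ g' : 𝓞 K, g' = γ * (ε : 𝓞 K) ^ (2 * m + 1) := ⟨_, rfl⟩
  rw [← hg'] at hγβ
  obtain ⟨g, hg⟩ : ∃ g : K, g = algebraMap (𝓞 K) K g' := ⟨_, rfl⟩
  obtain ⟨βK, hβKd⟩ : ∃ βK : K, βK = algebraMap (𝓞 K) K β := ⟨_, rfl⟩
  have hgβ : g ^ (2 * m + 1) = βK := by
    rw [hg, hβKd, ← map_pow, hγβ]
  have hβK : βK = ((P - Q : ℚ) : K) + ((2 * X * Y : ℚ) : K) * w := by
    rw [hβKd, hβ, map_add, map_mul, hWw, map_intCast, map_intCast]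
    push_cast
    ring
  have hg0 : g ≠ 0 := by
    rintro h0
    rw [h0, zero_pow (by omega), hβKd] at hgβ
    exact hβ0 ((map_eq_zero_iff _ (RingOfIntegers.coe_injective)).mp hgβ.symm)
  obtain ⟨α, hα⟩ : ∃ α : K, α = A * X + Y * w := ⟨_, rfl⟩
  have hw' : w ^ 2 = -((A : K) * B) := by rw [hw]; push_cast; ring
  have hα2 : α ^ 2 = A * βK := by
    have e1 : ((P : ℚ) : K) = A * X ^ 2 := by rw [hP]; push_cast; ring
    have e2 : ((Q : ℚ) : K) = B * Y ^ 2 := by rw [hQ]; push_cast; ring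
    rw [hα, hβK]
    push_cast
    push_cast at e1 e2
    rw [e1, e2]
    linear_combination ((Y : K) ^ 2) * hw'
  have hκ2 : (α / g ^ m) ^ 2 = A * g := by
    have h1 : (g ^ m) ^ 2 ≠ 0 := pow_ne_zero _ (pow_ne_zero _ hg0)
    rw [div_pow, hα2, ← hgβ, div_eq_iff h1]
    ring
  refine ⟨α / g ^ m, ?_, ?_, ?_⟩
  · apply IsIntegral.of_pow (n := 2) (by norm_num)
    rw [hκ2, hg]
    exact (isIntegral_natCast A).mul (RingOfIntegers.isIntegral_coe g')
  · have h1 : g ^ m ≠ 0 := pow_ne_zero _ hg0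
    calc (α / g ^ m) ^ (2 * m + 1) = ((α / g ^ m) ^ 2) ^ m * (α / g ^ m) := by
          rw [pow_succ, pow_mul]
      _ = A ^ m * α := by
          rw [hκ2, mul_pow]
          field_simp
      _ = _ := by rw [hα]
  · -- norms
    have n1 : (Algebra.norm ℚ βK) = ((z : ℚ) ^ 2) ^ (2 * m + 1) := by
      rw [hβK, quad_norm hK w (A * B) hAB hw]
      have e3 : ((P : ℚ) + Q) = (z : ℚ) ^ (2 * m + 1) := by exact_mod_cast h
      have e4 : (P : ℚ) = A * X ^ 2 := by rw [hP]; push_cast; ring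
      have e5 : (Q : ℚ) = B * Y ^ 2 := by rw [hQ]; push_cast; ring
      calc _ = ((P : ℚ) + Q) ^ 2 := by rw [e4, e5]; push_cast; ring
        _ = _ := by rw [e3]; ring
    have n2 : Algebra.norm ℚ g = (z : ℚ) ^ 2 := by
      have n3 : (Algebra.norm ℚ g) ^ (2 * m + 1) = ((z : ℚ) ^ 2) ^ (2 * m + 1) := by
        rw [← map_pow, hgβ, n1]
      exact (Odd.strictMono_pow ⟨m, rfl⟩).injective n3
    have n4 : Algebra.norm ℚ (A : K) = (A : ℚ) ^ 2 := by
      have := Algebra.norm_algebraMap (S := K) (A : ℚ)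
      rw [hK, map_natCast] at this
      exact this
    rw [← map_pow, hκ2, map_mul, n2, n4]
    push_cast
    ring

end

end Pool.Agent.H573.AHB
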