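import Pool.Agent.H573.AHB.QuadD

/-!
The descent for `A X² + B Y² = z^p` in imaginary quadratic fields, second part.
-/

namespace Pool.Agent.H573.AHB

open Module NumberField

lemma odd_sq_mod8 (a : ℤ) (ha : Odd a) : ∃ k, a ^ 2 = 8 * k + 1 := by
  obtain ⟨t, rfl⟩ := ha
  rcases Int.even_or_odd' t with ⟨r, rfl | rfl⟩
  · exact ⟨r * (2 * r + 1), by ring⟩
  · exact ⟨(r + 1) * (2 * r + 1), by ring⟩

section
variable {K : Type} [Field K] [NumberField K] (w : K) (D : ℕ)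
  (hD : 1 ≤ D) (hw : w ^ 2 = -(D : K))

/-- the order `ℤ[w]` -/
def InR (w x : K) : Prop := ∃ e f : ℤ, x = e + f * w

include hw in
lemma InR.mul {x y : K} (hx : InR w x) (hy : InR w y) : InR w (x * y) := by
  obtain ⟨e, f, rfl⟩ := hx
  obtain ⟨e', f', rfl⟩ := hy
  refine ⟨e * e' - D * f * f', e * f' + f * e', ?_⟩
  push_cast
  linear_combination (f : K) * f' * hw

include hw in
lemma InR.pow {x : K} (hx : InR w x) (n : ℕ) : InR w (x ^ n) := by
  induction n with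
  | zero => exact ⟨1, 0, by simp⟩
  | succ n ih =>
    rw [pow_succ]
    exact ih.mul w D hw hx

include hD hw in
lemma quad_inj' (r t r' t' : ℤ) (h : (r : K) + t * w = r' + t' * w) : r = r' ∧ t = t' := by
  have := quad_inj w D hD hw r t r' t' (by push_cast; exact h)
  exact ⟨by exact_mod_cast this.1, by exact_mod_cast this.2⟩

include hw in
lemma cube_inR (x : K) (a b : ℤ) (ha : Odd a) (hb : Odd b) (hD8 : D % 8 = 3)
    (h : 2 * x = a + b * w) : InR w (x ^ 3) := by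
  obtain ⟨i, hi⟩ := odd_sq_mod8 a ha
  obtain ⟨j, hj⟩ := odd_sq_mod8 b hb
  obtain ⟨t, ht⟩ : ∃ t : ℤ, (D : ℤ) = 8 * t + 3 := ⟨D / 8, by omega⟩
  -- 8 x^3 = (a + b w)^3
  have h8 : (8 : K) * x ^ 3 = ((a * (a ^ 2 - 3 * D * b ^ 2) : ℤ) : K) +
      ((b * (3 * a ^ 2 - D * b ^ 2) : ℤ) : K) * w := by
    have : (8 : K) * x ^ 3 = (2 * x) ^ 3 := by ring
    rw [this, h]
    push_cast
    linear_combination (3 * (a : K) * b ^ 2 + b ^ 3 * w) * hw
  have e1 : a * (a ^ 2 - 3 * D * b ^ 2) = 8 * (a * (i - 1 - 3 * (8 * t * j + t + 3 * j))) := by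
    rw [ht, hi, hj]
    ring
  have e2 : b * (3 * a ^ 2 - D * b ^ 2) = 8 * (b * (3 * i - (8 * t * j + t + 3 * j))) := by
    rw [ht, hi, hj]
    ring
  rw [e1, e2] at h8
  refine ⟨a * (i - 1 - 3 * (8 * t * j + t + 3 * j)), b * (3 * i - (8 * t * j + t + 3 * j)), ?_⟩
  have h9 : (8 : K) * x ^ 3 = 8 * (((a * (i - 1 - 3 * (8 * t * j + t + 3 * j)) : ℤ) : K) +
      ((b * (3 * i - (8 * t * j + t + 3 * j)) : ℤ) : K) * w) := by
    rw [h8]
    push_cast
    ring
  exact mul_left_cancel₀ (by norm_num) h9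

include hD hw in
/-- no half-integral elements -/
lemma no_half (x : K) (a b n : ℤ) (p : ℕ) (hp : p.Prime) (hp5 : 5 ≤ p) (ha : Odd a) (hb : Odd b)
    (hn : Odd n) (hDn : a ^ 2 + D * b ^ 2 = 4 * n)
    (h : 2 * x = a + b * w) (hR : InR w (x ^ p)) : False := by
  obtain ⟨i, hi⟩ := odd_sq_mod8 a ha
  obtain ⟨j, hj⟩ := odd_sq_mod8 b hb
  have hD8 : D % 8 = 3 := by
    obtain ⟨l, hl⟩ := hn
    rw [hi, hj, hl] at hDn
    have h1 : (D : ℤ) * (8 * j + 1) = 8 * (D * j) + D := by ring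
    rw [h1] at hDn
    omega
  obtain ⟨y, hy⟩ : ∃ y : K, 2 * y = a + ((-b : ℤ) : K) * w :=
    ⟨(a + ((-b : ℤ) : K) * w) / 2, by ring⟩
  have hxy : x * y = n := by
    have h1 : (4 : K) * (x * y) = 4 * n := by
      calc (4 : K) * (x * y) = (2 * x) * (2 * y) := by ring
        _ = (a : K) ^ 2 - (b : K) ^ 2 * w ^ 2 := by rw [h, hy]; push_cast; ring
        _ = ((a ^ 2 + D * b ^ 2 : ℤ) : K) := by rw [hw]; push_cast; ring
        _ = _ := by rw [hDn]; push_cast; ring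
    exact mul_left_cancel₀ (by norm_num) h1
  have hy3 : InR w (y ^ 3) := cube_inR w D hw y a (-b) ha hb.neg hD8 hy
  have h3 : ¬ 3 ∣ p := by
    intro h
    have := (Nat.prime_dvd_prime_iff_eq Nat.prime_three hp).mp h
    omega
  obtain ⟨k, r, hk, hr⟩ : ∃ k r, p = 3 * k + r ∧ (r = 1 ∨ r = 2) :=
    ⟨p / 3, p % 3, by omega, by omega⟩
  have h4 : InR w (x ^ r * (n : K) ^ (3 * k)) := by
    have h5 := hR.mul w D hw (hy3.pow w D hw k)
    have e1 : x ^ p * (y ^ 3) ^ k = x ^ r * (n : K) ^ (3 * k) := by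
      rw [← hxy, hk, pow_add, ← pow_mul, mul_pow]
      ring
    rwa [e1] at h5
  obtain ⟨e, f, hef⟩ := h4
  have hN : Odd (n ^ (3 * k)) := hn.pow
  rcases hr with rfl | rfl
  · have h5 : ((a * n ^ (3 * k) : ℤ) : K) + ((b * n ^ (3 * k) : ℤ) : K) * w =
        ((2 * e : ℤ) : K) + ((2 * f : ℤ) : K) * w := by
      calc _ = (2 * x) * (n : K) ^ (3 * k) := by rw [h]; push_cast; ring
        _ = 2 * (x ^ 1 * (n : K) ^ (3 * k)) := by ring
        _ = _ := by rw [hef]; push_cast; ring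
    have h6 := (quad_inj' w D hD hw _ _ _ _ h5).1
    have h7 : Odd (2 * e) := by rw [← h6]; exact ha.mul hN
    exact (Int.not_even_iff_odd.mpr h7) (even_two_mul e)
  · have h5 : (((a ^ 2 - D * b ^ 2) * n ^ (3 * k) : ℤ) : K) +
        ((2 * (a * b * n ^ (3 * k)) : ℤ) : K) * w =
        ((4 * e : ℤ) : K) + ((4 * f : ℤ) : K) * w := by
      have e1 : (((a ^ 2 - D * b ^ 2) * n ^ (3 * k) : ℤ) : K) +
          ((2 * (a * b * n ^ (3 * k)) : ℤ) : K) * w = (2 * x) ^ 2 * (n : K) ^ (3 * k) := by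
        rw [h]
        push_cast
        linear_combination (-(b : K) ^ 2 * (n : K) ^ (3 * k)) * hw
      rw [e1]
      calc _ = 4 * (x ^ 2 * (n : K) ^ (3 * k)) := by ring
        _ = _ := by rw [hef]; push_cast; ring
    have h6 := (quad_inj' w D hD hw _ _ _ _ h5).2
    have h7 : a * b * n ^ (3 * k) = 2 * f := by linarith
    have h8 : Odd (2 * f) := by rw [← h7]; exact (ha.mul hb).mul hN
    exact (Int.not_even_iff_odd.mpr h8) (even_two_mul f)

end

section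
variable {K : Type} [Field K] [NumberField K] (hK : finrank ℚ K = 2) (w : K) (A B : ℕ)
  (hA : 1 ≤ A) (hB : 1 ≤ B) (hsq : Squarefree (A * B))
  (hw : w ^ 2 = -((A * B : ℕ) : K))

include hK hA hB hsq hw in
/-- **Descent in imaginary quadratic fields.** -/
theorem quad_desc (m : ℕ) (hp : (2 * m + 1).Prime) (hp5 : 5 ≤ 2 * m + 1)
    (hcl : ¬ (2 * m + 1) ∣ classNumber K) (X Y z : ℤ) (hco : IsCoprime ((A : ℤ) * X) (B * Y))
    (hz : Odd z) (h : A * X ^ 2 + B * Y ^ 2 = z ^ (2 * m + 1)) :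
    ∃ u v : ℤ, X = u * PF (A * u ^ 2) (-(B : ℤ) * v ^ 2) m ∧
      Y = v * PG (A * u ^ 2) (-(B : ℤ) * v ^ 2) m := by
  have hAB : 1 ≤ A * B := Nat.mul_pos hA hB
  obtain ⟨κ, hκint, hκp, hκn⟩ := quad_kappa hK w A B hA hB hsq hw m hp hp5 hcl X Y z hco hz h
  obtain ⟨a, b, n, h1, h2, h3⟩ := quad_int hK w (A * B) hAB hw hsq κ hκint
  have hn2 : n ^ 2 = (A * z) ^ 2 := by
    rw [h3] at hκn
    exact_mod_cast hκn
  have hn : n = A * z ∨ n = -(A * z) := sq_eq_sq_iff_eq_or_eq_neg.mp hn2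
  -- `a` and `b` are even
  have hab : ∃ a' v : ℤ, a = 2 * a' ∧ b = 2 * v := by
    rcases Int.even_or_odd' a with ⟨a', ha | ha⟩
    · rcases Int.even_or_odd' b with ⟨v, hb | hb⟩
      · exact ⟨a', v, ha, hb⟩
      · exfalso
        have h4 : (4 : ℤ) ∣ ((A * B : ℕ) : ℤ) := by
          obtain ⟨j, hj⟩ := odd_sq_mod8 b ⟨v, hb⟩
          rw [hj, ha] at h2
          refine ⟨n - a' ^ 2 - ((A * B : ℕ) : ℤ) * (2 * j), ?_⟩
          linear_combination h2
        have h5 : 2 * 2 ∣ A * B := by exact_mod_cast h4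
        have h6 := hsq _ h5
        rw [Nat.isUnit_iff] at h6
        omega
    · exfalso
      have hao : Odd a := ⟨a', ha⟩
      have hDb : Odd (((A * B : ℕ) : ℤ) * b ^ 2) := by
        have h4 : ((A * B : ℕ) : ℤ) * b ^ 2 = 2 * (2 * n) - a ^ 2 := by linarith
        rw [h4]
        exact (even_two_mul _).sub_odd hao.pow
      rw [Int.odd_mul] at hDb
      have hbo : Odd b := by
        by_contra hcon
        rw [Int.not_odd_iff_even] at hcon
        exact (Int.not_even_iff_odd.mpr hDb.2) (hcon.pow_of_ne_zero (by norm_num))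
      have hAo : Odd (A : ℤ) := by
        have := hDb.1
        push_cast at this
        exact (Int.odd_mul.mp this).1
      have hno : Odd n := by
        rcases hn with h4 | h4
        · rw [h4]; exact hAo.mul hz
        · rw [h4]; exact (hAo.mul hz).neg
      refine no_half w (A * B) hAB hw κ a b n (2 * m + 1) hp hp5 hao hbo hno h2 h1 ?_
      refine ⟨A ^ m * (A * X), A ^ m * Y, ?_⟩
      rw [hκp]
      push_cast
      ring
  obtain ⟨a', v, ha, hb⟩ := hab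
  have hκ : κ = a' + v * w := by
    have h4 : (2 : K) * κ = 2 * (a' + v * w) := by
      rw [h1, ha, hb]
      push_cast
      ring
    exact mul_left_cancel₀ (by norm_num) h4
  have h5 : a' ^ 2 + ((A * B : ℕ) : ℤ) * v ^ 2 = n := by
    rw [ha, hb] at h2
    linarith
  have hAsq : Squarefree (A : ℤ) := by
    rw [Int.squarefree_natCast]
    exact hsq.of_mul_left
  have h6 : (A : ℤ) ∣ a' ^ 2 := by
    have h7 : a' ^ 2 = n - A * (B * v ^ 2) := by
      push_cast at h5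
      linarith
    rw [h7]
    apply dvd_sub _ (dvd_mul_right _ _)
    rcases hn with h8 | h8
    · rw [h8]; exact dvd_mul_right _ _
    · rw [h8]; exact (dvd_mul_right _ _).neg_right
  have h7 : (A : ℤ) ∣ a' := (hAsq.dvd_pow_iff_dvd (by norm_num)).mp h6
  obtain ⟨u, hu⟩ := h7
  refine ⟨u, v, ?_⟩
  have h8 := pow_FG (δ := ((A : ℤ) * (-(B : ℤ)) : ℤ) • (1 : K)) (ω := w) (by
    rw [hw, zsmul_eq_mul]
    push_cast
    ring) (((A : ℤ) * u : ℤ) : K) ((v : ℤ) : K) m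
  have h9 := map_FGh (Int.castRingHom K) ((A : ℤ) * (-(B : ℤ))) ((A : ℤ) * u) v m
  simp only [eq_intCast] at h9
  rw [zsmul_eq_mul, mul_one, ← h9.1, ← h9.2] at h8
  obtain ⟨s1, s2⟩ := Fh_scale (A : ℤ) (-(B : ℤ)) u v m
  rw [s1, s2] at h8
  have h10 : (((A : ℤ) ^ m * (A * X) : ℤ) : K) + (((A : ℤ) ^ m * Y : ℤ) : K) * w =
      (((A : ℤ) ^ m * (A * (u * PF (A * u ^ 2) (-(B : ℤ) * v ^ 2) m)) : ℤ) : K) +
      (((A : ℤ) ^ m * (v * PG (A * u ^ 2) (-(B : ℤ) * v ^ 2) m) : ℤ) : K) * w := by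
    calc _ = κ ^ (2 * m + 1) := by rw [hκp]; push_cast; ring
      _ = ((((A : ℤ) * u : ℤ) : K) + w * ((v : ℤ) : K)) ^ (2 * m + 1) := by
          rw [hκ, hu, mul_comm w]
      _ = _ := by
          rw [h8]
          push_cast
          ring
  obtain ⟨g1, g2⟩ := quad_inj' w (A * B) hAB hw _ _ _ _ h10
  have hA0 : (A : ℤ) ≠ 0 := by exact_mod_cast (by omega : A ≠ 0)
  exact ⟨mul_left_cancel₀ hA0 (mul_left_cancel₀ (pow_ne_zero m hA0) g1),
    mul_left_cancel₀ (pow_ne_zero m hA0) g2⟩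

end

end Pool.Agent.H573.AHB
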