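import Pool.Agent.H573.AHB.Grp2
import Pool.Agent.H573.AHB.Core

/-!
Reduction of algebraic integers modulo a prime over `p`, and the exclusion of torsion points.
-/

namespace Pool.Agent.H573.AHB

open Polynomial

/-- a ring homomorphism from the algebraic integers to a field in which `p = 0` -/
lemma exists_red (p : ℕ) (hp : p.Prime) : ∃ (K : Type) (_ : Field K)
    (ψ : integralClosure ℤ ℂ →+* K), (p : K) = 0 := by
  have hnu : ¬ IsUnit ((p : integralClosure ℤ ℂ)) := by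
    intro h
    obtain ⟨u, hu⟩ := h.exists_right_inv
    have h1 : (p : ℂ) * (u : ℂ) = 1 := by
      have := congrArg (Subtype.val : integralClosure ℤ ℂ → ℂ) hu
      simpa using this
    have hp0 : (p : ℂ) ≠ 0 := by exact_mod_cast hp.ne_zero
    have h2 : (u : ℂ) = algebraMap ℚ ℂ ((p : ℚ)⁻¹) := by
      rw [map_inv₀]
      simp only [map_natCast]
      exact (eq_inv_of_mul_eq_one_right h1)
    have h3 : IsIntegral ℤ (algebraMap ℚ ℂ ((p : ℚ)⁻¹)) := by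
      rw [← h2]
      exact u.2
    have h4 : IsIntegral ℤ ((p : ℚ)⁻¹) :=
      (isIntegral_algebraMap_iff (algebraMap ℚ ℂ).injective).mp h3
    obtain ⟨n, hn⟩ := IsIntegrallyClosed.isIntegral_iff.mp h4
    have h5 : (n : ℚ) * p = 1 := by
      have hp0' : (p : ℚ) ≠ 0 := by exact_mod_cast hp.ne_zero
      have h6 : (n : ℚ) = (p : ℚ)⁻¹ := by
        rw [← hn]
        simp
      rw [h6, inv_mul_cancel₀ hp0']
    have h7 : n * (p : ℤ) = 1 := by exact_mod_cast h5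
    have h8 : (p : ℤ) ∣ 1 := ⟨n, by rw [mul_comm]; exact h7.symm⟩
    have h9 := Int.natCast_dvd_natCast.mp (by simpa using h8 : ((p : ℕ) : ℤ) ∣ ((1 : ℕ) : ℤ))
    have := Nat.le_of_dvd one_pos h9
    have := hp.two_le
    omega
  obtain ⟨M, hM, hpM⟩ := exists_max_ideal_of_mem_nonunits hnu
  refine ⟨integralClosure ℤ ℂ ⧸ M, Ideal.Quotient.field M, Ideal.Quotient.mk M, ?_⟩
  have := Ideal.Quotient.eq_zero_iff_mem.mpr hpM
  simpa using this

lemma intCast_ne_zero_of_not_dvd {p : ℕ} (hp : p.Prime) {K : Type} [Field K] (hK : (p : K) = 0)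
    {k : ℤ} (hk : ¬ (p : ℤ) ∣ k) : (k : K) ≠ 0 := by
  intro h
  have hpp : Prime (p : ℤ) := Nat.prime_iff_prime_int.mp hp
  obtain ⟨a, b, hab⟩ := (hpp.coprime_iff_not_dvd).mpr hk
  have := congrArg (Int.cast : ℤ → K) hab
  push_cast at this
  rw [hK, h] at this
  simp at this

/-- a number with `w^N = β^N`, `β ≠ 0`, is `β` times an integral unit -/
lemma torsion_unit {w : ℂ} {β : ℂ} {N : ℕ} (hN : 1 ≤ N) (hβ : β ≠ 0) (h : w ^ N = β ^ N) :
    ∃ ζ : integralClosure ℤ ℂ, w = β * (ζ : ℂ) ∧ ζ ^ N = 1 := by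
  have h1 : (w / β) ^ N = 1 := by
    rw [div_pow, h, div_self (pow_ne_zero _ hβ)]
  have h2 : IsIntegral ℤ (w / β) := by
    refine ⟨X ^ N - 1, monic_X_pow_sub_C (1 : ℤ) (by omega), ?_⟩
    simp [h1]
  refine ⟨⟨w / β, h2⟩, ?_, ?_⟩
  · rw [mul_div_cancel₀ _ hβ]
  · apply Subtype.ext
    simpa using h1

/-- No torsion points: the pattern in which `p` divides `a2` and `e`. -/
lemma tors_a (m : ℕ) (hm : 1 ≤ m) (p : ℕ) (hp : p.Prime) (δ : ℤ) (a b1 b2 e : ℕ)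
    (ha : ¬ p ∣ a) (hb2 : ¬ p ∣ b2) (hb1 : p ∣ b1) (hb10 : b1 ≠ 0) (he : p ∣ e)
    (z : ℂ) (N N' : ℕ) (hN : 1 ≤ N) (hN' : 1 ≤ N')
    (h0 : (((b2 : ℂ) * a) * z) ^ N = (b1 : ℂ) ^ N)
    (h1 : ((a : ℂ) ^ (2 * m) * Fh (δ : ℂ) 1 z m) ^ N' = (e : ℂ) ^ N') : False := by
  obtain ⟨K, hK, ψ, hKp⟩ := exists_red p hp
  have hβ : (b1 : ℂ) ≠ 0 := by exact_mod_cast hb10
  obtain ⟨ζ, hζ, hζN⟩ := torsion_unit hN hβ h0
  -- the value b2^{2m} a^{2m} f(z)
  have h2 : Fh (δ : ℂ) ((b2 : ℂ) * a) ((b1 : ℂ) * (ζ : ℂ)) m =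
      (b2 : ℂ) ^ (2 * m) * ((a : ℂ) ^ (2 * m) * Fh (δ : ℂ) 1 z m) := by
    have h3 := (hom_FG (δ : ℂ) 1 z ((b2 : ℂ) * a) m).1
    rw [mul_one, hζ] at h3
    rw [h3, mul_pow]
    ring
  have hmap := (map_FGh (algebraMap (integralClosure ℤ ℂ) ℂ) (δ : integralClosure ℤ ℂ)
    ((b2 : integralClosure ℤ ℂ) * a) ((b1 : integralClosure ℤ ℂ) * ζ) m).1
  simp only [map_intCast, map_mul, map_natCast] at hmap
  have hζ' : (algebraMap (integralClosure ℤ ℂ) ℂ) ζ = (ζ : ℂ) := rfl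
  rw [hζ', h2] at hmap
  have h4 : (Fh (δ : integralClosure ℤ ℂ) ((b2 : integralClosure ℤ ℂ) * a)
      ((b1 : integralClosure ℤ ℂ) * ζ) m) ^ N' = ((b2 : integralClosure ℤ ℂ) ^ (2 * m) * e) ^ N' := by
    apply Subtype.ext
    have h5 : (algebraMap (integralClosure ℤ ℂ) ℂ) ((Fh (δ : integralClosure ℤ ℂ)
      ((b2 : integralClosure ℤ ℂ) * a) ((b1 : integralClosure ℤ ℂ) * ζ) m) ^ N') =
      (algebraMap (integralClosure ℤ ℂ) ℂ) (((b2 : integralClosure ℤ ℂ) ^ (2 * m) * e) ^ N') := by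
      rw [map_pow, hmap, map_pow, map_mul, map_pow, map_natCast, map_natCast, mul_pow, h1, mul_pow]
    exact h5
  have h6 := congrArg ψ h4
  rw [map_pow, map_pow, map_mul, map_pow, map_natCast, map_natCast,
    (map_FGh ψ _ _ _ m).1] at h6
  simp only [map_intCast, map_mul, map_natCast] at h6
  have hz : ∀ k : ℕ, p ∣ k → (k : K) = 0 := by
    rintro k ⟨l, rfl⟩
    push_cast
    rw [hKp, zero_mul]
  rw [hz b1 hb1, hz e he, zero_mul, mul_zero, zero_pow (by omega), (FG_v0 _ _ m).1] at h6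
  have h7 := pow_eq_zero_iff (by omega) |>.mp h6
  have h8 := pow_eq_zero_iff (by omega) |>.mp h7
  have e1 : (b2 : K) ≠ 0 := by
    have := intCast_ne_zero_of_not_dvd hp hKp (k := (b2 : ℤ))
      (fun h => hb2 (Int.natCast_dvd_natCast.mp h))
    exact_mod_cast this
  have e2 : (a : K) ≠ 0 := by
    have := intCast_ne_zero_of_not_dvd hp hKp (k := (a : ℤ))
      (fun h => ha (Int.natCast_dvd_natCast.mp h))
    exact_mod_cast this
  exact mul_ne_zero e1 e2 h8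

/-- No torsion points: the pattern in which `p` divides `b2` and `h`. -/
lemma tors_b (m : ℕ) (hm : 1 ≤ m) (p : ℕ) (hp : p.Prime) (δ : ℤ) (hδ : ¬ (p : ℤ) ∣ δ)
    (a b1 b2 h : ℕ)
    (hb1 : ¬ p ∣ b1) (hb2 : p ∣ b2)
    (z : ℂ) (N N' : ℕ) (hN : 1 ≤ N) (hN' : 1 ≤ N')
    (h0 : (((b2 : ℂ) * a) * z) ^ N = (b1 : ℂ) ^ N)
    (h1 : ((a : ℂ) ^ (2 * m) * Gh (δ : ℂ) 1 z m) ^ N' = (h : ℂ) ^ N') : False := by
  obtain ⟨K, hK, ψ, hKp⟩ := exists_red p hp
  have hb10 : b1 ≠ 0 := by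
    rintro rfl
    exact hb1 (dvd_zero _)
  have hβ : (b1 : ℂ) ≠ 0 := by exact_mod_cast hb10
  obtain ⟨ζ, hζ, hζN⟩ := torsion_unit hN hβ h0
  have h2 : Gh (δ : ℂ) ((b2 : ℂ) * a) ((b1 : ℂ) * (ζ : ℂ)) m =
      (b2 : ℂ) ^ (2 * m) * ((a : ℂ) ^ (2 * m) * Gh (δ : ℂ) 1 z m) := by
    have h3 := (hom_FG (δ : ℂ) 1 z ((b2 : ℂ) * a) m).2
    rw [mul_one, hζ] at h3
    rw [h3, mul_pow]
    ring
  have hmap := (map_FGh (algebraMap (integralClosure ℤ ℂ) ℂ) (δ : integralClosure ℤ ℂ)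
    ((b2 : integralClosure ℤ ℂ) * a) ((b1 : integralClosure ℤ ℂ) * ζ) m).2
  simp only [map_intCast, map_mul, map_natCast] at hmap
  have hζ' : (algebraMap (integralClosure ℤ ℂ) ℂ) ζ = (ζ : ℂ) := rfl
  rw [hζ', h2] at hmap
  have h4 : (Gh (δ : integralClosure ℤ ℂ) ((b2 : integralClosure ℤ ℂ) * a)
      ((b1 : integralClosure ℤ ℂ) * ζ) m) ^ N' = ((b2 : integralClosure ℤ ℂ) ^ (2 * m) * h) ^ N' := by
    apply Subtype.ext
    have h5 : (algebraMap (integralClosure ℤ ℂ) ℂ) ((Gh (δ : integralClosure ℤ ℂ)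
      ((b2 : integralClosure ℤ ℂ) * a) ((b1 : integralClosure ℤ ℂ) * ζ) m) ^ N') =
      (algebraMap (integralClosure ℤ ℂ) ℂ) (((b2 : integralClosure ℤ ℂ) ^ (2 * m) * h) ^ N') := by
      rw [map_pow, hmap, map_pow, map_mul, map_pow, map_natCast, map_natCast, mul_pow, h1, mul_pow]
    exact h5
  have h6 := congrArg ψ h4
  rw [map_pow, map_pow, map_mul, map_pow, map_natCast, map_natCast,
    (map_FGh ψ _ _ _ m).2] at h6
  simp only [map_intCast, map_mul, map_natCast] at h6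
  have hz : (b2 : K) = 0 := by
    obtain ⟨l, rfl⟩ := hb2
    push_cast
    rw [hKp, zero_mul]
  rw [hz, zero_mul, zero_pow (by omega), zero_mul, zero_pow (by omega), (FG_u0 _ _ m).2] at h6
  have h7 := pow_eq_zero_iff (by omega) |>.mp h6
  have h8 := pow_eq_zero_iff (by omega) |>.mp h7
  have e1 : (δ : K) ≠ 0 := intCast_ne_zero_of_not_dvd hp hKp hδ
  have e2 : (b1 : K) ≠ 0 := by
    have := intCast_ne_zero_of_not_dvd hp hKp (k := (b1 : ℤ))
      (fun h => hb1 (Int.natCast_dvd_natCast.mp h))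
    exact_mod_cast this
  have e3 : ψ ζ ≠ 0 := by
    intro h9
    have := congrArg ψ hζN
    rw [map_pow, h9, zero_pow (by omega), map_one] at this
    exact zero_ne_one this
  exact mul_ne_zero e1 (pow_ne_zero _ (mul_ne_zero e2 e3)) h8

end Pool.Agent.H573.AHB
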