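import Pool.Agent.H573.AHB.Pol

/-!
The easy counts: primes `q ∣ A^n - B^n` and primes modulo which a fixed polynomial has a root `t`
with `(α t)^n = β^n`, `n ≤ K`.
-/

namespace Pool.Agent.H573.AHB

open Polynomial

lemma exists_complex_root {D : ℤ[X]} (hd : D.natDegree ≠ 0) : ∃ z : ℂ, aeval z D = 0 := by
  have h1 : (D.map (Int.castRingHom ℂ)).degree ≠ 0 := by
    rw [degree_map_eq_of_injective (RingHom.injective_int _)]
    intro h0
    exact hd (natDegree_eq_of_degree_eq_some h0)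
  obtain ⟨z, hz⟩ := IsAlgClosed.exists_root _ h1
  refine ⟨z, ?_⟩
  rw [IsRoot.def, eval_map] at hz
  exact hz

lemma cntA (A B : ℕ) (hA : 1 ≤ A) (hB : 1 ≤ B) (hne : A ≠ B) : ∃ C : ℝ, 0 ≤ C ∧ ∀ K : ℕ,
    ∀ Q : Finset ℕ, (∀ q ∈ Q, q.Prime ∧ ∃ n, 1 ≤ n ∧ n ≤ K ∧ (A : ZMod q) ^ n = (B : ZMod q) ^ n) →
    (Q.card : ℝ) ≤ C * K ^ 2 := by
  classical
  have hl2 : 0 < Real.log 2 := Real.log_pos (by norm_num)
  have hAr : (1 : ℝ) ≤ A := by exact_mod_cast hA
  have hBr : (1 : ℝ) ≤ B := by exact_mod_cast hB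
  have hl : 0 ≤ Real.log (A + B) := Real.log_nonneg (by linarith)
  refine ⟨Real.log (A + B) / Real.log 2, by positivity, ?_⟩
  intro K Q hQ
  set QN : ℕ → Finset ℕ := fun n => Q.filter fun q => (A : ZMod q) ^ n = (B : ZMod q) ^ n with hQN
  have hcov : Q ⊆ (Finset.Icc 1 K).biUnion QN := by
    intro q hq
    obtain ⟨_, n, h1, h2, h3⟩ := hQ q hq
    rw [Finset.mem_biUnion]
    exact ⟨n, Finset.mem_Icc.mpr ⟨h1, h2⟩, Finset.mem_filter.mpr ⟨hq, h3⟩⟩
  have hone : ∀ n ∈ Finset.Icc 1 K, ((QN n).card : ℝ) ≤ Real.log (A + B) / Real.log 2 * K := by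
    intro n hn
    rw [Finset.mem_Icc] at hn
    have hr : ((A : ℤ) ^ n - (B : ℤ) ^ n) ≠ 0 := by
      intro h0
      apply hne
      have h1 : (A : ℤ) ^ n = (B : ℤ) ^ n := by linarith
      have h2 : A ^ n = B ^ n := by exact_mod_cast h1
      exact Nat.pow_left_injective (by omega) h2
    have h1 := card_primes_dvd (QN n) (fun q hq => (hQ q (Finset.mem_filter.mp hq).1).1) hr (by
      intro q hq
      have h2 := (Finset.mem_filter.mp hq).2
      rw [← ZMod.intCast_zmod_eq_zero_iff_dvd]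
      push_cast
      rw [h2, sub_self])
    have h2 : |(((A : ℤ) ^ n - (B : ℤ) ^ n : ℤ) : ℝ)| ≤ ((A : ℝ) + B) ^ n := by
      push_cast
      have e1 : (0 : ℝ) ≤ (A : ℝ) ^ n := by positivity
      have e2 : (0 : ℝ) ≤ (B : ℝ) ^ n := by positivity
      have e3 : (A : ℝ) ^ n ≤ ((A : ℝ) + B) ^ n := pow_le_pow_left₀ (by linarith) (by linarith) n
      have e4 : (B : ℝ) ^ n ≤ ((A : ℝ) + B) ^ n := pow_le_pow_left₀ (by linarith) (by linarith) n
      rw [abs_le]
      constructor <;> linarith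
    have h3 : Real.log |(((A : ℤ) ^ n - (B : ℤ) ^ n : ℤ) : ℝ)| ≤ n * Real.log (A + B) := by
      rw [← Real.log_pow]
      apply Real.log_le_log _ h2
      rw [abs_pos]
      exact_mod_cast hr
    have h4 : (n : ℝ) * Real.log (A + B) ≤ K * Real.log (A + B) :=
      mul_le_mul_of_nonneg_right (by exact_mod_cast hn.2) hl
    rw [div_mul_eq_mul_div, le_div_iff₀ hl2]
    linarith
  have h1 : (Q.card : ℝ) ≤ ∑ n ∈ Finset.Icc 1 K, ((QN n).card : ℝ) := by
    have := (Finset.card_le_card hcov).trans Finset.card_biUnion_le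
    exact_mod_cast this
  refine h1.trans ((Finset.sum_le_sum hone).trans ?_)
  rw [Finset.sum_const, Nat.card_Icc, Nat.add_sub_cancel, nsmul_eq_mul]
  apply le_of_eq
  ring

lemma L1_X_C (α β : ℕ) (n : ℕ) :
    L1 ((C (α : ℤ) * X) ^ n - C (β : ℤ) ^ n) ≤ 2 * ((α : ℝ) + β) ^ n := by
  refine (L1_sub _ _).trans ?_
  have e0 : L1 (C (α : ℤ) * X) = α := by
    rw [C_mul_X_eq_monomial, L1_monomial]
    simp
  have e1 : L1 ((C (α : ℤ) * X) ^ n) ≤ (α : ℝ) ^ n := by
    have := L1_pow (C (α : ℤ) * X) n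
    rwa [e0] at this
  have e2 : L1 (C (β : ℤ) ^ n) ≤ (β : ℝ) ^ n := by
    have h := L1_pow (C (β : ℤ)) n
    have e3 : L1 (C (β : ℤ)) = β := by
      rw [← monomial_zero_left, L1_monomial]
      simp
    rwa [e3] at h
  have e3 : (α : ℝ) ^ n ≤ ((α : ℝ) + β) ^ n :=
    pow_le_pow_left₀ (Nat.cast_nonneg _) (by linarith [Nat.cast_nonneg (α := ℝ) β]) n
  have e4 : (β : ℝ) ^ n ≤ ((α : ℝ) + β) ^ n :=
    pow_le_pow_left₀ (Nat.cast_nonneg _) (by linarith [Nat.cast_nonneg (α := ℝ) α]) n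
  linarith

lemma cntB (f : ℤ[X]) (hf : f ≠ 0) (hf1 : ∀ q : ℕ, q.Prime → ¬ C (q : ℤ) ∣ f) (α β : ℕ)
    (hα : 1 ≤ α) (hβ : 1 ≤ β)
    (hN : ∀ n : ℕ, 1 ≤ n → ∀ z : ℂ, aeval z f = 0 → ((α : ℂ) * z) ^ n ≠ (β : ℂ) ^ n) :
    ∃ C' : ℝ, 0 ≤ C' ∧ ∀ K : ℕ, ∀ Q : Finset ℕ, (∀ q ∈ Q, q.Prime ∧ ∃ n, 1 ≤ n ∧ n ≤ K ∧
      ∃ t : ZMod q, aeval t f = 0 ∧ ((α : ZMod q) * t) ^ n = (β : ZMod q) ^ n) →
    (Q.card : ℝ) ≤ C' * K ^ 2 := by
  classical
  have hl2 : 0 < Real.log 2 := Real.log_pos (by norm_num)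
  have hαr : (1 : ℝ) ≤ α := by exact_mod_cast hα
  have hβr : (1 : ℝ) ≤ β := by exact_mod_cast hβ
  set W : ℝ := Real.log (2 * (α + β)) + 1 with hW
  have hlW : 0 ≤ Real.log (2 * ((α : ℝ) + β)) := Real.log_nonneg (by linarith)
  have hW1 : 0 ≤ W := by linarith
  set Fs := (UniqueFactorizationMonoid.factors f).toFinset with hFs
  have hszs : 0 ≤ sz f := sz_nonneg hf
  refine ⟨W * sz f / Real.log 2, by positivity, ?_⟩
  intro K Q hQ
  set P : ℕ → ℤ[X] := fun n => (C (α : ℤ) * X) ^ n - C (β : ℤ) ^ n with hP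
  have hPt : ∀ n q : ℕ, ∀ t : ZMod q, aeval t (P n) = ((α : ZMod q) * t) ^ n - (β : ZMod q) ^ n := by
    intro n q t
    simp [hP]
  set QN : ℕ → ℤ[X] → Finset ℕ := fun n D => Q.filter fun q =>
    D.natDegree ≠ 0 ∧ ∃ t : ZMod q, aeval t D = 0 ∧ aeval t (P n) = 0 with hQN
  have hcov : Q ⊆ (Finset.Icc 1 K).biUnion fun n => Fs.biUnion fun D => QN n D := by
    intro q hq
    obtain ⟨hqp, n, h1, h2, t, h3, h4⟩ := hQ q hq
    have hF : Fact q.Prime := ⟨hqp⟩
    rw [Finset.mem_biUnion]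
    refine ⟨n, Finset.mem_Icc.mpr ⟨h1, h2⟩, ?_⟩
    obtain ⟨w, hw⟩ := UniqueFactorizationMonoid.factors_prod hf
    have h5 : aeval t (UniqueFactorizationMonoid.factors f).prod = 0 := by
      have h6 := congrArg (aeval t) hw
      rw [map_mul, h3, mul_eq_zero] at h6
      rcases h6 with h6 | h6
      · exact h6
      · exfalso
        have h7 : IsUnit (aeval t (w : ℤ[X])) := w.isUnit.map (aeval t)
        rw [h6] at h7
        exact not_isUnit_zero h7
    rw [map_multiset_prod, Multiset.prod_eq_zero_iff, Multiset.mem_map] at h5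
    obtain ⟨D, hD, hDt⟩ := h5
    rw [Finset.mem_biUnion]
    refine ⟨D, Multiset.mem_toFinset.mpr hD, Finset.mem_filter.mpr ⟨hq, ?_, t, hDt, ?_⟩⟩
    · intro hdeg
      rw [natDegree_eq_zero] at hdeg
      obtain ⟨b, hc⟩ := hdeg
      rw [← hc, aeval_C] at hDt
      have hqc : (q : ℤ) ∣ b := by
        rw [← ZMod.intCast_zmod_eq_zero_iff_dvd]
        simpa using hDt
      apply hf1 q hqp
      have hdvd := UniqueFactorizationMonoid.dvd_of_mem_factors hD
      refine dvd_trans ?_ hdvd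
      rw [← hc]
      exact map_dvd (C : ℤ →+* ℤ[X]) hqc
    · rw [hPt, h4, sub_self]
  have hone : ∀ n ∈ Finset.Icc 1 K, ∀ D ∈ Fs,
      ((QN n D).card : ℝ) ≤ W * K / Real.log 2 * sz D := by
    intro n hn D hD
    rw [Finset.mem_Icc] at hn
    rw [hFs, Multiset.mem_toFinset] at hD
    have hirr := UniqueFactorizationMonoid.irreducible_of_factor D hD
    have hsz := sz_nonneg hirr.ne_zero
    rcases (QN n D).eq_empty_or_nonempty with he | ⟨q1, hq1⟩
    · rw [he]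
      simp only [Finset.card_empty, Nat.cast_zero]
      positivity
    obtain ⟨-, hDdeg, -⟩ := Finset.mem_filter.mp hq1
    have hnd : ¬ D ∣ P n := by
      rintro ⟨E, hE⟩
      obtain ⟨z, hz⟩ := exists_complex_root hDdeg
      have h1 : aeval z f = 0 := by
        obtain ⟨E', hE'⟩ := UniqueFactorizationMonoid.dvd_of_mem_factors hD
        rw [hE', map_mul, hz, zero_mul]
      have h2 : aeval z (P n) = 0 := by rw [hE, map_mul, hz, zero_mul]
      apply hN n hn.1 z h1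
      have h3 : aeval z (P n) = ((α : ℂ) * z) ^ n - (β : ℂ) ^ n := by simp [hP]
      rw [h3, sub_eq_zero] at h2
      exact h2
    have hdegP : (P n).natDegree ≤ n := by
      refine (natDegree_sub_le _ _).trans (max_le ?_ ?_)
      · refine natDegree_pow_le.trans ?_
        have : (C (α : ℤ) * X).natDegree ≤ 1 := (natDegree_C_mul_le _ _).trans natDegree_X_le
        calc n * (C (α : ℤ) * X).natDegree ≤ n * 1 := Nat.mul_le_mul_left _ this
          _ = n := mul_one n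
      · rw [← C_pow, natDegree_C]
        exact Nat.zero_le _
    obtain ⟨r, hr0, hrle, hrd⟩ := res_bound hirr hDdeg hnd hdegP (L1_X_C α β n)
    have h1 := card_primes_dvd (QN n D) (fun q hq => (hQ q (Finset.mem_filter.mp hq).1).1) hr0 (by
      intro q hq
      obtain ⟨-, -, t, ht1, ht2⟩ := Finset.mem_filter.mp hq
      exact hrd q t ht1 ht2)
    have hMm := one_le_Mm hirr.ne_zero
    have hlogM := Real.log_nonneg hMm
    have h2 : Real.log |(r : ℝ)| ≤ Real.log ((2 * ((α : ℝ) + β) ^ n) ^ D.natDegree * Mm D ^ n) := by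
      apply Real.log_le_log _ hrle
      rw [abs_pos]
      exact_mod_cast hr0
    rw [Real.log_mul (by positivity) (by positivity), Real.log_pow, Real.log_pow] at h2
    have h3 := log_two_mul_pow_le (show (1 : ℝ) ≤ (α : ℝ) + β by linarith) hn.1
    have hnK : (n : ℝ) ≤ K := by exact_mod_cast hn.2
    have hn0 : (0 : ℝ) ≤ n := Nat.cast_nonneg n
    have hdd : (0 : ℝ) ≤ (D.natDegree : ℝ) := Nat.cast_nonneg _
    have h4 : (D.natDegree : ℝ) * Real.log (2 * ((α : ℝ) + β) ^ n) ≤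
        D.natDegree * (n * Real.log (2 * ((α : ℝ) + β))) := mul_le_mul_of_nonneg_left h3 hdd
    have h5 : (D.natDegree : ℝ) * (n * Real.log (2 * ((α : ℝ) + β))) + n * Real.log (Mm D) ≤
        n * (W * sz D) := by
      unfold sz
      rw [hW]
      nlinarith [mul_nonneg hn0 (mul_nonneg hlW hlogM), mul_nonneg hn0 hdd]
    have h6 : (n : ℝ) * (W * sz D) ≤ K * (W * sz D) :=
      mul_le_mul_of_nonneg_right hnK (by positivity)
    rw [div_mul_eq_mul_div, le_div_iff₀ hl2]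
    linarith
  have h1 : (Q.card : ℝ) ≤ ∑ n ∈ Finset.Icc 1 K, ∑ D ∈ Fs, ((QN n D).card : ℝ) := by
    have h2 := (Finset.card_le_card hcov).trans Finset.card_biUnion_le
    have h3 : ∑ n ∈ Finset.Icc 1 K, (Fs.biUnion fun D => QN n D).card ≤
        ∑ n ∈ Finset.Icc 1 K, ∑ D ∈ Fs, (QN n D).card :=
      Finset.sum_le_sum fun n _ => Finset.card_biUnion_le
    have h4 := h2.trans h3
    exact_mod_cast h4
  have h2 : ∀ n ∈ Finset.Icc 1 K, ∑ D ∈ Fs, ((QN n D).card : ℝ) ≤ W * K / Real.log 2 * sz f := by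
    intro n hn
    refine (Finset.sum_le_sum (hone n hn)).trans ?_
    rw [← Finset.mul_sum]
    exact mul_le_mul_of_nonneg_left (sum_sz_factors_le hf) (by positivity)
  refine h1.trans ((Finset.sum_le_sum h2).trans ?_)
  rw [Finset.sum_const, Nat.card_Icc, Nat.add_sub_cancel, nsmul_eq_mul]
  apply le_of_eq
  ring

end Pool.Agent.H573.AHB
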