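import Mathlib

/-!
Size functions on integer polynomials: length `L1`, Mahler measure `Mm`, and `sz = deg + log Mm`;
a bound for resultants; the number of primes dividing an integer.
-/

namespace Pool.Agent.H573.AHB

open Polynomial

/-- The length (sum of absolute values of the coefficients). -/
noncomputable def L1 (f : ℤ[X]) : ℝ := f.sum fun _ a => |(a : ℝ)|

/-- The Mahler measure of an integer polynomial. -/
noncomputable def Mm (f : ℤ[X]) : ℝ := (f.map (Int.castRingHom ℂ)).mahlerMeasure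

/-- degree plus logarithmic Mahler measure -/
noncomputable def sz (f : ℤ[X]) : ℝ := (f.natDegree : ℝ) + Real.log (Mm f)

lemma L1_eq_range (f : ℤ[X]) {N : ℕ} (h : f.natDegree < N) :
    L1 f = ∑ i ∈ Finset.range N, |(f.coeff i : ℝ)| := by
  unfold L1
  exact Polynomial.sum_over_range' f (by simp) N h

lemma L1_nonneg (f : ℤ[X]) : 0 ≤ L1 f := by
  rw [L1_eq_range f (Nat.lt_succ_self _)]
  exact Finset.sum_nonneg fun i _ => abs_nonneg _

lemma L1_add (f g : ℤ[X]) : L1 (f + g) ≤ L1 f + L1 g := by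
  set N := max f.natDegree g.natDegree + 1 with hN
  have h1 : f.natDegree < N := by omega
  have h2 : g.natDegree < N := by omega
  have h3 : (f + g).natDegree < N := by
    have := natDegree_add_le f g
    omega
  rw [L1_eq_range f h1, L1_eq_range g h2, L1_eq_range _ h3, ← Finset.sum_add_distrib]
  apply Finset.sum_le_sum
  intro i _
  rw [coeff_add]
  push_cast
  exact abs_add_le _ _

lemma L1_neg (f : ℤ[X]) : L1 (-f) = L1 f := by
  have h1 : f.natDegree < f.natDegree + 1 := by omega
  have h3 : (-f).natDegree < f.natDegree + 1 := by rw [natDegree_neg]; omega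
  rw [L1_eq_range f h1, L1_eq_range _ h3]
  apply Finset.sum_congr rfl
  intro i _
  rw [coeff_neg]
  push_cast
  exact abs_neg _

lemma L1_sub (f g : ℤ[X]) : L1 (f - g) ≤ L1 f + L1 g := by
  rw [sub_eq_add_neg, ← L1_neg g]
  exact L1_add _ _

lemma L1_zero : L1 0 = 0 := by simp [L1]

lemma L1_one : L1 1 = 1 := by
  have h3 : (1 : ℤ[X]).natDegree < 1 := by simp
  rw [L1_eq_range _ h3]
  simp

lemma L1_monomial (n : ℕ) (a : ℤ) : L1 (monomial n a) = |(a : ℝ)| := by
  unfold L1
  exact Polynomial.sum_monomial_index a _ (by simp)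

lemma L1_monomial_mul (n : ℕ) (a : ℤ) (g : ℤ[X]) : L1 (monomial n a * g) ≤ |(a : ℝ)| * L1 g := by
  have h1 : g.natDegree < g.natDegree + 1 := by omega
  have h2 : (monomial n a * g).natDegree < n + (g.natDegree + 1) := by
    have h3 := natDegree_mul_le (p := monomial n a) (q := g)
    have h4 := natDegree_monomial_le a (m := n)
    omega
  rw [L1_eq_range _ h2, L1_eq_range _ h1, Finset.sum_range_add, Finset.mul_sum]
  have h5 : ∑ x ∈ Finset.range n, |(((monomial n a * g).coeff x : ℤ) : ℝ)| = 0 := by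
    apply Finset.sum_eq_zero
    intro i hi
    rw [Finset.mem_range] at hi
    rw [← C_mul_X_pow_eq_monomial, mul_assoc, coeff_C_mul, coeff_X_pow_mul', if_neg (by omega)]
    simp
  rw [h5, zero_add]
  apply Finset.sum_le_sum
  intro i _
  rw [add_comm n i, coeff_monomial_mul]
  push_cast
  rw [abs_mul]

lemma L1_sum {ι : Type*} (s : Finset ι) (F : ι → ℤ[X]) : L1 (∑ i ∈ s, F i) ≤ ∑ i ∈ s, L1 (F i) := by
  classical
  induction s using Finset.induction_on with
  | empty => simp [L1_zero]
  | insert a s ha ih =>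
    rw [Finset.sum_insert ha, Finset.sum_insert ha]
    exact (L1_add _ _).trans (by linarith)

lemma L1_mul (f g : ℤ[X]) : L1 (f * g) ≤ L1 f * L1 g := by
  have h : f * g = ∑ i ∈ Finset.range (f.natDegree + 1), monomial i (f.coeff i) * g := by
    rw [← Finset.sum_mul, ← as_sum_range]
  rw [h]
  refine (L1_sum _ _).trans ?_
  rw [L1_eq_range f (Nat.lt_succ_self _), Finset.sum_mul]
  exact Finset.sum_le_sum fun i _ => L1_monomial_mul _ _ _

lemma L1_pow (f : ℤ[X]) (n : ℕ) : L1 (f ^ n) ≤ L1 f ^ n := by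
  induction n with
  | zero => simp [L1_one]
  | succ n ih =>
    rw [pow_succ, pow_succ]
    exact (L1_mul _ _).trans (mul_le_mul_of_nonneg_right ih (L1_nonneg f))

lemma L1_prod {ι : Type*} (s : Finset ι) (F : ι → ℤ[X]) : L1 (∏ i ∈ s, F i) ≤ ∏ i ∈ s, L1 (F i) := by
  classical
  induction s using Finset.induction_on with
  | empty => simp [L1_one]
  | insert a s ha ih =>
    rw [Finset.prod_insert ha, Finset.prod_insert ha]
    exact (L1_mul _ _).trans (mul_le_mul_of_nonneg_left ih (L1_nonneg _))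

lemma norm_aeval_le (f : ℤ[X]) (z : ℂ) {N : ℕ} (h : f.natDegree ≤ N) :
    ‖aeval z f‖ ≤ L1 f * (max 1 ‖z‖) ^ N := by
  rw [aeval_eq_sum_range, L1_eq_range f (Nat.lt_succ_self _), Finset.sum_mul]
  refine (norm_sum_le _ _).trans ?_
  apply Finset.sum_le_sum
  intro i hi
  rw [Finset.mem_range] at hi
  have h1 : (1 : ℝ) ≤ max 1 ‖z‖ := le_max_left _ _
  rw [zsmul_eq_mul, norm_mul, norm_pow]
  have h2 : ‖((f.coeff i : ℤ) : ℂ)‖ = |(f.coeff i : ℝ)| := by
    rw [Complex.norm_intCast]
  rw [h2]
  apply mul_le_mul_of_nonneg_left _ (abs_nonneg _)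
  calc ‖z‖ ^ i ≤ (max 1 ‖z‖) ^ i := pow_le_pow_left₀ (norm_nonneg _) (le_max_right _ _) _
    _ ≤ (max 1 ‖z‖) ^ N := pow_le_pow_right₀ h1 (by omega)

lemma Mm_le_L1 (f : ℤ[X]) : Mm f ≤ L1 f := by
  unfold Mm
  refine (mahlerMeasure_le_sum_norm_coeff _).trans ?_
  rw [Polynomial.sum_over_range' _ (by simp) (f.natDegree + 1)
    (by have := natDegree_map_le (f := Int.castRingHom ℂ) (p := f); omega),
    L1_eq_range f (Nat.lt_succ_self _)]
  apply le_of_eq
  apply Finset.sum_congr rfl
  intro i _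
  rw [coeff_map, eq_intCast, Complex.norm_intCast]

lemma one_le_Mm {f : ℤ[X]} (hf : f ≠ 0) : 1 ≤ Mm f := by
  unfold Mm
  apply one_le_mahlerMeasure_of_one_le_norm_leadingCoeff
  rw [leadingCoeff_map_of_injective (RingHom.injective_int _), eq_intCast, Complex.norm_intCast]
  have h1 : f.leadingCoeff ≠ 0 := leadingCoeff_ne_zero.mpr hf
  have h2 : (1 : ℤ) ≤ |f.leadingCoeff| := Int.one_le_abs h1
  exact_mod_cast h2

lemma Mm_mul (f g : ℤ[X]) : Mm (f * g) = Mm f * Mm g := by
  unfold Mm
  rw [Polynomial.map_mul, mahlerMeasure_mul]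

lemma sz_nonneg {f : ℤ[X]} (hf : f ≠ 0) : 0 ≤ sz f := by
  unfold sz
  have := Real.log_nonneg (one_le_Mm hf)
  positivity

lemma sz_mul {f g : ℤ[X]} (hf : f ≠ 0) (hg : g ≠ 0) : sz (f * g) = sz f + sz g := by
  unfold sz
  have h1 := one_le_Mm hf
  have h2 := one_le_Mm hg
  rw [Mm_mul, natDegree_mul hf hg, Real.log_mul (by linarith) (by linarith)]
  push_cast
  ring

lemma sz_multiset_prod (s : Multiset ℤ[X]) (hs : ∀ f ∈ s, f ≠ 0) :
    sz s.prod = (s.map sz).sum := by
  induction s using Multiset.induction_on with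
  | empty =>
    have : Mm 1 = 1 := by unfold Mm; simp
    simp [sz, this]
  | cons a s ih =>
    rw [Multiset.prod_cons, Multiset.map_cons, Multiset.sum_cons, sz_mul (hs a (by simp)), ih]
    · intro f hf
      exact hs f (by simp [hf])
    · intro h0
      rw [Multiset.prod_eq_zero_iff] at h0
      exact hs 0 (by simp [h0]) rfl

lemma sz_dvd_le {f g : ℤ[X]} (hg : g ≠ 0) (h : f ∣ g) : sz f ≤ sz g := by
  obtain ⟨k, rfl⟩ := h
  have hf : f ≠ 0 := left_ne_zero_of_mul hg
  have hk : k ≠ 0 := right_ne_zero_of_mul hg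
  rw [sz_mul hf hk]
  have := sz_nonneg hk
  linarith

/-- Over the irreducible factors of a nonzero integer polynomial the sizes add up. -/
lemma sum_sz_factors_le {P : ℤ[X]} (hP : P ≠ 0) :
    ∑ D ∈ (UniqueFactorizationMonoid.factors P).toFinset, sz D ≤ sz P := by
  classical
  have hne : ∀ f ∈ UniqueFactorizationMonoid.factors P, f ≠ 0 := fun f hf =>
    (UniqueFactorizationMonoid.irreducible_of_factor f hf).ne_zero
  have h1 : sz (UniqueFactorizationMonoid.factors P).prod
      = ((UniqueFactorizationMonoid.factors P).map sz).sum := sz_multiset_prod _ hne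
  have h2 : sz (UniqueFactorizationMonoid.factors P).prod ≤ sz P :=
    sz_dvd_le hP (UniqueFactorizationMonoid.factors_prod hP).dvd
  refine le_trans ?_ (h1 ▸ h2)
  have h3 : ((UniqueFactorizationMonoid.factors P).map sz).sum
      = ∑ D ∈ (UniqueFactorizationMonoid.factors P).toFinset,
        ((UniqueFactorizationMonoid.factors P).count D : ℝ) * sz D := by
    rw [Finset.sum_multiset_map_count]
    simp [nsmul_eq_mul]
  rw [h3]
  apply Finset.sum_le_sum
  intro D hD
  rw [Multiset.mem_toFinset] at hD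
  have h4 : 1 ≤ (UniqueFactorizationMonoid.factors P).count D := Multiset.one_le_count_iff_mem.mpr hD
  have h5 : (1 : ℝ) ≤ ((UniqueFactorizationMonoid.factors P).count D : ℝ) := by exact_mod_cast h4
  have h6 := sz_nonneg (hne D hD)
  nlinarith

/-- An irreducible nonconstant integer polynomial divides every integer polynomial with which it
shares a complex root. -/
lemma dvd_of_common_root {D P : ℤ[X]} (hD : Irreducible D) (hd : D.natDegree ≠ 0) {z : ℂ}
    (h1 : aeval z D = 0) (h2 : aeval z P = 0) : D ∣ P := by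
  have hp : D.IsPrimitive := hD.isPrimitive hd
  rw [IsPrimitive.Int.dvd_iff_map_cast_dvd_map_cast D P hp]
  have hirr : Irreducible (D.map (Int.castRingHom ℚ)) :=
    (IsPrimitive.Int.irreducible_iff_irreducible_map_cast hp).mp hD
  by_contra hnd
  have hco : IsCoprime (D.map (Int.castRingHom ℚ)) (P.map (Int.castRingHom ℚ)) :=
    (hirr.coprime_iff_not_dvd).mpr hnd
  obtain ⟨a, b, hab⟩ := hco
  have h3 := congrArg (aeval z) hab
  rw [map_add, map_mul, map_mul, map_one] at h3
  have e1 : aeval z (D.map (Int.castRingHom ℚ)) = 0 := by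
    rw [← algebraMap_int_eq, aeval_map_algebraMap]
    exact h1
  have e2 : aeval z (P.map (Int.castRingHom ℚ)) = 0 := by
    rw [← algebraMap_int_eq, aeval_map_algebraMap]
    exact h2
  rw [e1, e2, mul_zero, mul_zero, add_zero] at h3
  exact zero_ne_one h3

lemma norm_prod_le (s : Multiset ℂ) (F : ℂ → ℂ) {B : ℝ} (hB : 0 ≤ B) (N : ℕ)
    (hF : ∀ z, ‖F z‖ ≤ B * (max 1 ‖z‖) ^ N) :
    ‖(s.map F).prod‖ ≤ B ^ (Multiset.card s) * (s.map (fun a ↦ max 1 ‖a‖)).prod ^ N := by
  induction s using Multiset.induction_on with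
  | empty => simp
  | cons a s ih =>
    rw [Multiset.map_cons, Multiset.prod_cons, norm_mul, Multiset.card_cons, Multiset.map_cons,
      Multiset.prod_cons]
    calc ‖F a‖ * ‖(s.map F).prod‖
        ≤ (B * (max 1 ‖a‖) ^ N) * (B ^ (Multiset.card s) * (s.map (fun a ↦ max 1 ‖a‖)).prod ^ N) :=
          mul_le_mul (hF a) ih (norm_nonneg _) (by positivity)
      _ = _ := by ring

/-- The resultant of an irreducible `D` with `P` not divisible by `D`: nonzero, bounded, and
divisible by all primes modulo which `D` and `P` share a root. -/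
lemma res_bound {D P : ℤ[X]} (hD : Irreducible D) (hd : D.natDegree ≠ 0) (hnd : ¬ D ∣ P)
    {N : ℕ} (hN : P.natDegree ≤ N) {B : ℝ} (hB : L1 P ≤ B) :
    ∃ r : ℤ, r ≠ 0 ∧ |(r : ℝ)| ≤ B ^ D.natDegree * Mm D ^ N ∧
      ∀ q : ℕ, ∀ t : ZMod q, aeval t D = 0 → aeval t P = 0 → (q : ℤ) ∣ r := by
  refine ⟨resultant D P D.natDegree N, ?_, ?_, ?_⟩
  · intro h0
    have h1 : resultant (D.map (Int.castRingHom ℂ)) (P.map (Int.castRingHom ℂ))
        D.natDegree N = 0 := by
      rw [resultant_map_map, h0, map_zero]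
    have hdeg : D.natDegree = (D.map (Int.castRingHom ℂ)).natDegree :=
      (natDegree_map_eq_of_injective (RingHom.injective_int _) D).symm
    rw [hdeg, resultant_eq_prod_eval _ _ N (natDegree_map_le.trans hN)
      (IsAlgClosed.splits _)] at h1
    have hlc : (D.map (Int.castRingHom ℂ)).leadingCoeff ≠ 0 := by
      rw [leadingCoeff_ne_zero]
      exact (Polynomial.map_ne_zero_iff (RingHom.injective_int _)).mpr hD.ne_zero
    rw [mul_eq_zero] at h1
    rcases h1 with h1 | h1
    · exact pow_ne_zero N hlc h1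
    · rw [Multiset.prod_eq_zero_iff, Multiset.mem_map] at h1
      obtain ⟨z, hz, hPz⟩ := h1
      have hz' := (mem_roots'.mp hz).2
      apply hnd
      apply dvd_of_common_root hD hd (z := z)
      · rw [IsRoot.def, eval_map] at hz'
        exact hz'
      · rw [eval_map] at hPz
        exact hPz
  · have hdeg : D.natDegree = (D.map (Int.castRingHom ℂ)).natDegree :=
      (natDegree_map_eq_of_injective (RingHom.injective_int _) D).symm
    have h1 : (((resultant D P D.natDegree N : ℤ)) : ℂ) =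
        resultant (D.map (Int.castRingHom ℂ)) (P.map (Int.castRingHom ℂ)) D.natDegree N := by
      rw [resultant_map_map]
      simp
    have h2 : |((resultant D P D.natDegree N : ℤ) : ℝ)| =
        ‖resultant (D.map (Int.castRingHom ℂ)) (P.map (Int.castRingHom ℂ)) D.natDegree N‖ := by
      rw [← h1, Complex.norm_intCast]
    rw [h2]
    conv_lhs => rw [hdeg]
    rw [resultant_eq_prod_eval _ _ N (natDegree_map_le.trans hN) (IsAlgClosed.splits _)]
    rw [norm_mul, norm_pow]
    have hB0 : 0 ≤ B := (L1_nonneg P).trans hB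
    set Dc := D.map (Int.castRingHom ℂ) with hDc
    have h3 := norm_prod_le Dc.roots (fun z => (P.map (Int.castRingHom ℂ)).eval z) hB0 N (by
      intro z
      have h4 := norm_aeval_le P z hN
      have h5 : (P.map (Int.castRingHom ℂ)).eval z = aeval z P := by
        rw [eval_map]; rfl
      rw [h5]
      exact h4.trans (mul_le_mul_of_nonneg_right hB (by positivity)))
    have h6 : Multiset.card Dc.roots = D.natDegree := by
      rw [hdeg]
      exact (splits_iff_card_roots.mp (IsAlgClosed.splits Dc))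
    rw [h6] at h3
    have h7 : Mm D = ‖Dc.leadingCoeff‖ * (Dc.roots.map (fun a ↦ max 1 ‖a‖)).prod := by
      unfold Mm
      exact mahlerMeasure_eq_leadingCoeff_mul_prod_roots _
    rw [h7, mul_pow]
    calc ‖Dc.leadingCoeff‖ ^ N * ‖(Dc.roots.map (fun z => (P.map (Int.castRingHom ℂ)).eval z)).prod‖
        ≤ ‖Dc.leadingCoeff‖ ^ N * (B ^ D.natDegree * (Dc.roots.map (fun a ↦ max 1 ‖a‖)).prod ^ N) :=
          mul_le_mul_of_nonneg_left h3 (by positivity)
      _ = _ := by ring
  · intro q t hDt hPt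
    obtain ⟨a, b, -, -, hab⟩ := exists_mul_add_mul_eq_C_resultant D P (m := D.natDegree) (n := N)
      le_rfl hN (Or.inl hd)
    have h3 := congrArg (aeval t) hab
    rw [map_add, map_mul, map_mul, hDt, hPt, zero_mul, zero_mul, add_zero, aeval_C] at h3
    rw [← ZMod.intCast_zmod_eq_zero_iff_dvd] 
    simpa using h3.symm

/-- The number of primes dividing a nonzero integer. -/
lemma card_primes_dvd (Q : Finset ℕ) (hQ : ∀ q ∈ Q, q.Prime) {r : ℤ} (hr : r ≠ 0)
    (h : ∀ q ∈ Q, (q : ℤ) ∣ r) : (Q.card : ℝ) * Real.log 2 ≤ Real.log |(r : ℝ)| := by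
  have h1 : (∏ q ∈ Q, q) ∣ r.natAbs := by
    apply Finset.prod_primes_dvd
    · intro q hq
      exact (hQ q hq).prime
    · intro q hq
      exact Int.natCast_dvd.mp (h q hq)
  have h2 : 2 ^ Q.card ≤ ∏ q ∈ Q, q := by
    rw [← Finset.prod_const]
    exact Finset.prod_le_prod (fun _ _ => by norm_num) (fun q hq => (hQ q hq).two_le)
  have h3 : 2 ^ Q.card ≤ r.natAbs := h2.trans (Nat.le_of_dvd (Int.natAbs_pos.mpr hr) h1)
  have h4 : (2 : ℝ) ^ Q.card ≤ |(r : ℝ)| := by
    have : ((2 ^ Q.card : ℕ) : ℝ) ≤ (r.natAbs : ℝ) := by exact_mod_cast h3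
    rw [Nat.cast_natAbs] at this
    push_cast at this
    exact this
  have h5 := Real.log_le_log (by positivity) h4
  rwa [Real.log_pow] at h5

end Pool.Agent.H573.AHB
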