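import Pool.Agent.H573.AHB.PsiA

/-!
The tower of cubings `(U, V) ↦ (U (U² + 3δV²), V (3U² + δV²))`.
-/

namespace Pool.Agent.H573.AHB

open Polynomial

/-- the tower of cubings -/
def TS {R : Type*} [CommRing R] (δ u v : R) : ℕ → R × R
  | 0 => (u, v)
  | i + 1 => ((TS δ u v i).1 * ((TS δ u v i).1 ^ 2 + 3 * δ * (TS δ u v i).2 ^ 2),
      (TS δ u v i).2 * (3 * (TS δ u v i).1 ^ 2 + δ * (TS δ u v i).2 ^ 2))

section
variable {R S : Type*} [CommRing R] [CommRing S]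

def TU (δ u v : R) (i : ℕ) : R := (TS δ u v i).1
def TV (δ u v : R) (i : ℕ) : R := (TS δ u v i).2
/-- the factors -/
def TF (δ u v : R) (i : ℕ) : R := TU δ u v i ^ 2 + 3 * δ * TV δ u v i ^ 2
def TG (δ u v : R) (i : ℕ) : R := 3 * TU δ u v i ^ 2 + δ * TV δ u v i ^ 2

@[simp] lemma TU_zero (δ u v : R) : TU δ u v 0 = u := rfl
@[simp] lemma TV_zero (δ u v : R) : TV δ u v 0 = v := rfl
lemma TU_succ (δ u v : R) (i : ℕ) : TU δ u v (i + 1) = TU δ u v i * TF δ u v i := rfl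
lemma TV_succ (δ u v : R) (i : ℕ) : TV δ u v (i + 1) = TV δ u v i * TG δ u v i := rfl

lemma map_T (ψ : R →+* S) (δ u v : R) (i : ℕ) :
    ψ (TU δ u v i) = TU (ψ δ) (ψ u) (ψ v) i ∧ ψ (TV δ u v i) = TV (ψ δ) (ψ u) (ψ v) i := by
  induction i with
  | zero => simp
  | succ i ih =>
    rw [TU_succ, TV_succ, TU_succ, TV_succ, TF, TG, TF, TG]
    simp only [map_add, map_mul, map_pow, ih.1, ih.2, map_ofNat, and_self]

lemma map_TF (ψ : R →+* S) (δ u v : R) (i : ℕ) :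
    ψ (TF δ u v i) = TF (ψ δ) (ψ u) (ψ v) i ∧ ψ (TG δ u v i) = TG (ψ δ) (ψ u) (ψ v) i := by
  rw [TF, TG, TF, TG]
  simp only [map_add, map_mul, map_pow, (map_T ψ δ u v i).1, (map_T ψ δ u v i).2, map_ofNat,
    and_self]

lemma hom_T (δ w u v : R) (i : ℕ) :
    TU δ (w * u) (w * v) i = w ^ (3 ^ i) * TU δ u v i ∧
    TV δ (w * u) (w * v) i = w ^ (3 ^ i) * TV δ u v i := by
  induction i with
  | zero => simp
  | succ i ih =>
    rw [TU_succ, TV_succ, TU_succ, TV_succ, TF, TG, TF, TG, ih.1, ih.2, pow_succ 3 i, pow_mul]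
    constructor <;> ring

lemma hom_TF (δ w u v : R) (i : ℕ) :
    TF δ (w * u) (w * v) i = w ^ (2 * 3 ^ i) * TF δ u v i ∧
    TG δ (w * u) (w * v) i = w ^ (2 * 3 ^ i) * TG δ u v i := by
  rw [TF, TG, TF, TG, (hom_T δ w u v i).1, (hom_T δ w u v i).2]
  constructor <;> ring

lemma norm_T (δ u v : R) (i : ℕ) :
    TU δ u v i ^ 2 - δ * TV δ u v i ^ 2 = (u ^ 2 - δ * v ^ 2) ^ (3 ^ i) := by
  induction i with
  | zero => simp
  | succ i ih =>
    rw [TU_succ, TV_succ, TF, TG, pow_succ 3 i, pow_mul, ← ih]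
    ring

lemma T_v0 (δ u : R) (i : ℕ) : TU δ u 0 i = u ^ (3 ^ i) ∧ TV δ u 0 i = 0 := by
  induction i with
  | zero => simp
  | succ i ih =>
    rw [TU_succ, TV_succ, TF, TG, ih.1, ih.2, pow_succ 3 i, pow_mul]
    constructor <;> ring

lemma T_u0 (δ : R) (hδ : δ ^ 2 = 1) (i : ℕ) : TU δ 0 1 i = 0 ∧ TV δ 0 1 i ^ 2 = 1 := by
  induction i with
  | zero => simp
  | succ i ih =>
    rw [TU_succ, TV_succ, TF, TG, ih.1]
    refine ⟨by ring, ?_⟩
    calc (TV δ 0 1 i * (3 * 0 ^ 2 + δ * TV δ 0 1 i ^ 2)) ^ 2 =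
        δ ^ 2 * (TV δ 0 1 i ^ 2) ^ 3 := by ring
      _ = 1 := by rw [hδ, ih.2]; ring

/-- consecutive terms of the tower -/
lemma TV_dvd (δ u v : R) (i j : ℕ) (h : i ≤ j) : TV δ u v i ∣ TV δ u v j := by
  induction j with
  | zero =>
    have : i = 0 := by omega
    rw [this]
  | succ j ih =>
    rcases Nat.lt_or_ge i (j + 1) with h1 | h1
    · exact (ih (by omega)).trans ⟨_, TV_succ δ u v j⟩
    · have : i = j + 1 := by omega
      rw [this]

lemma TU_dvd (δ u v : R) (i j : ℕ) (h : i ≤ j) : TU δ u v i ∣ TU δ u v j := by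
  induction j with
  | zero =>
    have : i = 0 := by omega
    rw [this]
  | succ j ih =>
    rcases Nat.lt_or_ge i (j + 1) with h1 | h1
    · exact (ih (by omega)).trans ⟨_, TU_succ δ u v j⟩
    · have : i = j + 1 := by omega
      rw [this]

end

lemma bot_lt_nat (n : ℕ) : (⊥ : WithBot ℕ) < (n : WithBot ℕ) := WithBot.bot_lt_coe n

lemma deg_C_mul (c : ℤ) (f : ℤ[X]) : ((C c : ℤ[X]) * f).degree ≤ f.degree := by
  refine (degree_mul_le _ _).trans ?_
  calc (C c : ℤ[X]).degree + f.degree ≤ 0 + f.degree := by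
        gcongr
        exact degree_C_le
    _ = f.degree := zero_add _

/-- degrees in the polynomial ring -/
lemma T_deg (δ : ℤ) (i : ℕ) : (TU (C δ : ℤ[X]) X 1 i).Monic ∧
    (TU (C δ : ℤ[X]) X 1 i).natDegree = 3 ^ i ∧ (TV (C δ : ℤ[X]) X 1 i).degree < (3 ^ i : ℕ) := by
  induction i with
  | zero =>
    refine ⟨monic_X, by simp, ?_⟩
    rw [TV_zero, degree_one]
    norm_num
  | succ i ih =>
    obtain ⟨h1, h2, h3⟩ := ih
    have hU : (TU (C δ : ℤ[X]) X 1 i).degree = (3 ^ i : ℕ) := by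
      rw [degree_eq_natDegree h1.ne_zero, h2]
    have hV2 : (TV (C δ : ℤ[X]) X 1 i ^ 2).degree < ((3 ^ i + 3 ^ i : ℕ) : WithBot ℕ) := by
      rw [pow_two, Polynomial.degree_mul]
      push_cast
      rcases eq_or_ne (TV (C δ : ℤ[X]) X 1 i) 0 with h | h
      · rw [h, degree_zero, WithBot.bot_add]
        exact_mod_cast bot_lt_nat (3 ^ i + 3 ^ i)
      · rw [degree_eq_natDegree h] at h3 ⊢
        norm_cast at h3 ⊢
        omega
    have hcoef : ∀ c : ℤ, ((C c : ℤ[X]) * TV (C δ : ℤ[X]) X 1 i ^ 2).degree <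
        ((3 ^ i + 3 ^ i : ℕ) : WithBot ℕ) := by
      intro c
      exact lt_of_le_of_lt (deg_C_mul c _) hV2
    have hU2m : (TU (C δ : ℤ[X]) X 1 i ^ 2).Monic := h1.pow 2
    have hU2d : (TU (C δ : ℤ[X]) X 1 i ^ 2).natDegree = 3 ^ i + 3 ^ i := by
      rw [h1.natDegree_pow, h2]
      ring
    have hU2dd : (TU (C δ : ℤ[X]) X 1 i ^ 2).degree = ((3 ^ i + 3 ^ i : ℕ) : WithBot ℕ) := by
      rw [degree_eq_natDegree hU2m.ne_zero, hU2d]
    have hF : TF (C δ : ℤ[X]) X 1 i = TU (C δ : ℤ[X]) X 1 i ^ 2 +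
        C (3 * δ) * TV (C δ : ℤ[X]) X 1 i ^ 2 := by
      rw [TF, C_mul]
      norm_num
    have hFlt : ((C (3 * δ) : ℤ[X]) * TV (C δ : ℤ[X]) X 1 i ^ 2).degree <
        (TU (C δ : ℤ[X]) X 1 i ^ 2).degree := by
      rw [hU2dd]
      exact hcoef _
    have hFm : (TF (C δ : ℤ[X]) X 1 i).Monic := by
      rw [hF]
      exact hU2m.add_of_left hFlt
    have hFd : (TF (C δ : ℤ[X]) X 1 i).natDegree = 3 ^ i + 3 ^ i := by
      rw [hF, natDegree_add_eq_left_of_degree_lt hFlt, hU2d]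
    refine ⟨?_, ?_, ?_⟩
    · rw [TU_succ]
      exact h1.mul hFm
    · rw [TU_succ, h1.natDegree_mul hFm, h2, hFd]
      ring
    · rw [TV_succ, Polynomial.degree_mul]
      have hG : (TG (C δ : ℤ[X]) X 1 i).degree ≤ ((3 ^ i + 3 ^ i : ℕ) : WithBot ℕ) := by
        rw [TG]
        refine (degree_add_le _ _).trans (max_le ?_ ?_)
        · have e1 : (3 : ℤ[X]) * TU (C δ : ℤ[X]) X 1 i ^ 2 =
              C 3 * TU (C δ : ℤ[X]) X 1 i ^ 2 := by norm_num
          rw [e1]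
          exact (deg_C_mul _ _).trans (le_of_eq hU2dd)
        · exact (hcoef δ).le
      have e2 : ((3 ^ (i + 1) : ℕ) : WithBot ℕ) =
          ((3 ^ i : ℕ) : WithBot ℕ) + ((3 ^ i + 3 ^ i : ℕ) : WithBot ℕ) := by
        norm_cast
        ring
      rw [e2]
      rcases eq_or_ne (TG (C δ : ℤ[X]) X 1 i) 0 with h | h
      · rw [h, degree_zero, WithBot.add_bot]
        exact_mod_cast bot_lt_nat (3 ^ i + (3 ^ i + 3 ^ i))
      · rcases eq_or_ne (TV (C δ : ℤ[X]) X 1 i) 0 with h' | h'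
        · rw [h', degree_zero, WithBot.bot_add]
          exact_mod_cast bot_lt_nat (3 ^ i + (3 ^ i + 3 ^ i))
        · rw [degree_eq_natDegree h] at hG ⊢
          rw [degree_eq_natDegree h'] at h3 ⊢
          norm_cast at h3 hG ⊢
          omega

lemma TF_monic (δ : ℤ) (i : ℕ) : (TF (C δ : ℤ[X]) X 1 i).Monic ∧
    (TF (C δ : ℤ[X]) X 1 i).natDegree = 2 * 3 ^ i := by
  have h1 := T_deg δ (i + 1)
  have h2 := T_deg δ i
  have h3 : (TF (C δ : ℤ[X]) X 1 i).Monic := by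
    have h4 := h1.1
    rw [TU_succ] at h4
    exact h2.1.of_mul_monic_left h4
  refine ⟨h3, ?_⟩
  have h5 := h1.2.1
  rw [TU_succ, h2.1.natDegree_mul h3, h2.2.1, pow_succ] at h5
  omega

end Pool.Agent.H573.AHB
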