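import Pool.Agent.H573.AHB.TowA

/-!
The tower of cubings: no torsion points, and the counting theorem.
-/

namespace Pool.Agent.H573.AHB

open Polynomial

lemma nine_pow (n : ℕ) (hn : 1 ≤ n) : (n + 1) ^ 3 < 9 ^ n := by
  induction n, hn using Nat.le_induction with
  | base => norm_num
  | succ n hn ih =>
    have h1 : (n + 1 + 1) ^ 3 ≤ 9 * (n + 1) ^ 3 := by nlinarith [Nat.zero_le n, sq_nonneg n]
    calc (n + 1 + 1) ^ 3 ≤ 9 * (n + 1) ^ 3 := h1
      _ < 9 * 9 ^ n := by omega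
      _ = 9 ^ (n + 1) := by ring

/-- a root of unity `η` with `(η - 1)³` divisible by `9` is `1` -/
lemma ru_cube (η : ℂ) (M : ℕ) (hM : 1 ≤ M) (h : η ^ M = 1) (ω : ℂ) (hω : IsIntegral ℤ ω)
    (h3 : (η - 1) ^ 3 = 9 * ω) : η = 1 := by
  have hfin : IsOfFinOrder η := isOfFinOrder_iff_pow_eq_one.mpr ⟨M, by omega, h⟩
  have hprim : IsPrimitiveRoot η (orderOf η) := IsPrimitiveRoot.orderOf η
  have hηint : IsIntegral ℤ η := by
    refine ⟨X ^ M - 1, monic_X_pow_sub_C (1 : ℤ) (by omega), ?_⟩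
    simp [h]
  have hpos : 0 < orderOf η := hfin.orderOf_pos
  obtain ⟨n, hn⟩ : ∃ n, orderOf η = n + 1 := ⟨orderOf η - 1, by omega⟩
  rcases Nat.eq_zero_or_pos n with h0 | h0
  · rw [h0] at hn
    exact orderOf_eq_one_iff.mp hn
  exfalso
  rw [hn] at hprim
  have hprod := hprim.prod_one_sub_pow_eq_order
  have hk : ∀ k : ℕ, ∃ ω' : ℂ, IsIntegral ℤ ω' ∧ (1 - η ^ (k + 1)) ^ 3 = 9 * ω' := by
    intro k
    obtain ⟨g, hg⟩ : ∃ g, g = ∑ i ∈ Finset.range (k + 1), η ^ i := ⟨_, rfl⟩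
    have hgint : IsIntegral ℤ g := by
      rw [hg]
      exact IsIntegral.sum _ (fun i _ => hηint.pow i)
    refine ⟨-(ω * g ^ 3), (hω.mul (hgint.pow 3)).neg, ?_⟩
    have h4 : η ^ (k + 1) - 1 = (η - 1) * g := by
      rw [hg, mul_comm, geom_sum_mul]
    calc (1 - η ^ (k + 1)) ^ 3 = -((η ^ (k + 1) - 1) ^ 3) := by ring
      _ = -((η - 1) ^ 3 * g ^ 3) := by rw [h4]; ring
      _ = _ := by rw [h3]; ring
  choose f hf1 hf2 using hk
  have h5 : ((n : ℂ) + 1) ^ 3 = 9 ^ n * ∏ k ∈ Finset.range n, f k := by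
    rw [← hprod, ← Finset.prod_pow]
    calc ∏ k ∈ Finset.range n, (1 - η ^ (k + 1)) ^ 3 = ∏ k ∈ Finset.range n, (9 * f k) :=
          Finset.prod_congr rfl (fun k _ => hf2 k)
      _ = _ := by rw [Finset.prod_mul_distrib, Finset.prod_const, Finset.card_range]
  have hΩ : IsIntegral ℤ (∏ k ∈ Finset.range n, f k) := IsIntegral.prod _ (fun k _ => hf1 k)
  have h6 : (∏ k ∈ Finset.range n, f k) = algebraMap ℚ ℂ ((((n : ℚ) + 1) ^ 3) / 9 ^ n) := by
    rw [map_div₀, map_pow, map_pow, map_add, map_natCast, map_one]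
    have e9 : (algebraMap ℚ ℂ) 9 = 9 := map_ofNat _ 9
    rw [e9, h5]
    field_simp
  rw [h6] at hΩ
  have h7 : IsIntegral ℤ ((((n : ℚ) + 1) ^ 3) / 9 ^ n) :=
    (isIntegral_algebraMap_iff (algebraMap ℚ ℂ).injective).mp hΩ
  obtain ⟨t, ht⟩ := IsIntegrallyClosed.isIntegral_iff.mp h7
  simp only [algebraMap_int_eq, eq_intCast] at ht
  have h8 : (t : ℚ) * 9 ^ n = ((n : ℚ) + 1) ^ 3 := by
    rw [ht]
    field_simp
  have h9 : t * 9 ^ n = ((n : ℤ) + 1) ^ 3 := by exact_mod_cast h8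
  have h10 : ((n : ℤ) + 1) ^ 3 < 9 ^ n := by exact_mod_cast nine_pow n h0
  have h11 : 0 < ((n : ℤ) + 1) ^ 3 := by positivity
  have h12 : 0 < t := by
    by_contra hcon
    have : t * 9 ^ n ≤ 0 := mul_nonpos_of_nonpos_of_nonneg (not_lt.mp hcon) (by positivity)
    omega
  nlinarith [pow_pos (show (0 : ℤ) < 9 by norm_num) n]

/-- the only torsion point on the first two levels of the `V`-side is `t = 0` -/
lemma tower_tors (δ : ℂ) (hδ : δ ^ 2 = 1) (hδi : IsIntegral ℤ δ) (z : ℂ) (N N' : ℕ) (hN : 1 ≤ N)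
    (hN' : 1 ≤ N') (h1 : (TG δ z 1 0) ^ N = 1) (h2 : (TG δ z 1 1) ^ N' = 1) : z = 0 := by
  have e1 : TG δ z 1 0 = 3 * z ^ 2 + δ := by rw [TG, TU_zero, TV_zero]; ring
  have e2 : TG δ z 1 1 = 3 * (z * (z ^ 2 + 3 * δ)) ^ 2 + δ * (3 * z ^ 2 + δ) ^ 2 := by
    rw [TG, TU_succ, TV_succ, TF, TG, TU_zero, TV_zero]; ring
  obtain ⟨ζ2, hζ2⟩ : ∃ ζ2, ζ2 = TG δ z 1 1 := ⟨_, rfl⟩
  obtain ⟨η, hη⟩ : ∃ η, η = δ * TG δ z 1 0 := ⟨_, rfl⟩
  have hηM : η ^ (2 * N) = 1 := by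
    rw [hη, mul_pow, pow_mul δ, hδ, one_pow, one_mul, mul_comm 2 N, pow_mul, h1, one_pow]
  have hηi : IsIntegral ℤ η := by
    refine ⟨X ^ (2 * N) - 1, monic_X_pow_sub_C (1 : ℤ) (by omega), ?_⟩
    simp [hηM]
  have hζi : IsIntegral ℤ ζ2 := by
    refine ⟨X ^ N' - 1, monic_X_pow_sub_C (1 : ℤ) (by omega), ?_⟩
    simp [hζ2, h2]
  have hint : IsIntegral ℤ (δ * ζ2 - 2 * (η - 1) ^ 2 - 9 * (η - 1) - η ^ 2) := by
    have h1i : IsIntegral ℤ (1 : ℂ) := isIntegral_one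
    have h2i : IsIntegral ℤ (2 : ℂ) := by
      exact_mod_cast (isIntegral_natCast 2 : IsIntegral ℤ ((2 : ℕ) : ℂ))
    have h9i : IsIntegral ℤ (9 : ℂ) := by
      exact_mod_cast (isIntegral_natCast 9 : IsIntegral ℤ ((9 : ℕ) : ℂ))
    exact (((hδi.mul hζi).sub (h2i.mul ((hηi.sub h1i).pow 2))).sub (h9i.mul (hηi.sub h1i))).sub
      (hηi.pow 2)
  have hcube : (η - 1) ^ 3 = 9 * (δ * ζ2 - 2 * (η - 1) ^ 2 - 9 * (η - 1) - η ^ 2) := by
    have hη' : η = 3 * δ * z ^ 2 + 1 := by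
      rw [hη, e1]
      linear_combination hδ
    rw [hη', hζ2, e2]
    have hδ3 : δ ^ 3 = δ := by
      calc δ ^ 3 = δ ^ 2 * δ := by ring
        _ = δ := by rw [hδ, one_mul]
    have hδ4 : δ ^ 4 = 1 := by
      calc δ ^ 4 = (δ ^ 2) ^ 2 := by ring
        _ = 1 := by rw [hδ]; norm_num
    ring_nf
    rw [hδ3, hδ4]
    ring
  have hη1 := ru_cube η (2 * N) (by omega) hηM _ hint hcube
  have h3 : 3 * δ * z ^ 2 = 0 := by
    have hη' : η = 3 * δ * z ^ 2 + 1 := by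
      rw [hη, e1]
      linear_combination hδ
    rw [hη'] at hη1
    linear_combination hη1
  have hδ0 : δ ≠ 0 := by
    rintro rfl
    norm_num at hδ
  have h4 := (mul_eq_zero.mp h3).resolve_left (mul_ne_zero (by norm_num) hδ0)
  exact pow_eq_zero_iff (by norm_num) |>.mp h4

/-- at a zero of the second factor the first one is not a root of unity -/
lemma phi2_root (δ : ℤ) (hδ : δ ^ 2 = 1) (z : ℂ) (hz : TG (δ : ℂ) z 1 1 = 0) (n : ℕ) (hn : 1 ≤ n) :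
    (TG (δ : ℂ) z 1 0) ^ n ≠ 1 := by
  intro h
  have hδC : (δ : ℂ) ^ 2 = 1 := by exact_mod_cast hδ
  have e1 : TG (δ : ℂ) z 1 0 = 3 * z ^ 2 + δ := by rw [TG, TU_zero, TV_zero]; ring
  have e2 : TG (δ : ℂ) z 1 1 = 3 * (z * (z ^ 2 + 3 * δ)) ^ 2 + δ * (3 * z ^ 2 + δ) ^ 2 := by
    rw [TG, TU_succ, TV_succ, TF, TG, TU_zero, TV_zero]; ring
  obtain ⟨K, hK, ψ, hK2⟩ := exists_red 2 Nat.prime_two
  have h1 : (TG (δ : ℂ) z 1 0) ^ n = (1 : ℂ) ^ n := by rw [h, one_pow]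
  obtain ⟨ζ, hζ, hζn⟩ := torsion_unit hn one_ne_zero h1
  rw [one_mul] at hζ
  -- the cubic equation for `Y = δ φ1`
  have hδ3 : (δ : ℂ) ^ 3 = (δ : ℂ) := by
    calc (δ : ℂ) ^ 3 = (δ : ℂ) ^ 2 * (δ : ℂ) := by ring
      _ = (δ : ℂ) := by rw [hδC, one_mul]
  have h2 : (ζ : ℂ) ^ 3 + 24 * δ * (ζ : ℂ) ^ 2 + 48 * (ζ : ℂ) - 64 * δ = 0 := by
    rw [← hζ, e1]
    have h3 : (3 * z ^ 2 + (δ : ℂ)) ^ 3 + 24 * δ * (3 * z ^ 2 + (δ : ℂ)) ^ 2 +
        48 * (3 * z ^ 2 + (δ : ℂ)) - 64 * δ = 9 * TG (δ : ℂ) z 1 1 := by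
      rw [e2]
      ring_nf
      rw [hδ3, hδC]
      ring
    rw [h3, hz, mul_zero]
  have h4 : ζ ^ 3 + 24 * (δ : integralClosure ℤ ℂ) * ζ ^ 2 + 48 * ζ - 64 * (δ : integralClosure ℤ ℂ)
      = 0 := by
    apply Subtype.ext
    have e24 : ((24 : integralClosure ℤ ℂ) : ℂ) = 24 :=
      map_ofNat (algebraMap (integralClosure ℤ ℂ) ℂ) 24
    have e48 : ((48 : integralClosure ℤ ℂ) : ℂ) = 48 :=
      map_ofNat (algebraMap (integralClosure ℤ ℂ) ℂ) 48
    have e64 : ((64 : integralClosure ℤ ℂ) : ℂ) = 64 :=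
      map_ofNat (algebraMap (integralClosure ℤ ℂ) ℂ) 64
    push_cast
    rw [e24, e48, e64]
    simpa using h2
  have h5 := congrArg ψ h4
  rw [map_sub, map_add, map_add, map_mul, map_mul, map_mul, map_mul, map_pow, map_pow, map_zero,
    map_ofNat, map_ofNat, map_ofNat, map_intCast] at h5
  have k2 : (2 : K) = 0 := by exact_mod_cast hK2
  have k24 : (24 : K) = 0 := by
    calc (24 : K) = 2 * 12 := by norm_num
      _ = 0 := by rw [k2, zero_mul]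
  have k48 : (48 : K) = 0 := by
    calc (48 : K) = 2 * 24 := by norm_num
      _ = 0 := by rw [k2, zero_mul]
  have k64 : (64 : K) = 0 := by
    calc (64 : K) = 2 * 32 := by norm_num
      _ = 0 := by rw [k2, zero_mul]
  rw [k24, k48, k64] at h5
  have h6 : (ψ ζ) ^ 3 = 0 := by linear_combination h5
  have h7 := pow_eq_zero_iff (by norm_num) |>.mp h6
  have h8 := congrArg ψ hζn
  rw [map_pow, h7, zero_pow (by omega), map_one] at h8
  exact zero_ne_one h8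

/-- a root of `f` and two multiplicative conditions -/
lemma sparse_root2 (f : ℤ[X]) (hf : f ≠ 0) (hf1 : ∀ q : ℕ, q.Prime → ¬ C (q : ℤ) ∣ f)
    (g1 g2 : ℤ[X])
    (hN : ∀ z : ℂ, aeval z f = 0 → ∀ n m : ℕ, 1 ≤ n → 1 ≤ m → (aeval z g1) ^ n = 1 →
      (aeval z g2) ^ m = 1 → False) :
    Sparse (fun q n => ∃ t : ZMod q, aeval t f = 0 ∧
      (aeval t g1) ^ n = 1 ∧ (aeval t g2) ^ n = 1) := by
  classical
  -- choose the exponent
  obtain ⟨a, ha⟩ : ∃ a : ℕ, ∀ z ∈ f.rootSet ℂ, ∀ n : ℕ, 1 ≤ n →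
      ((aeval z g1) ^ a * aeval z g2) ^ n ≠ 1 := by
    have hfin : (⋃ z ∈ f.rootSet ℂ, {a : ℕ | ∃ n : ℕ, 1 ≤ n ∧
        ((aeval z g1) ^ a * aeval z g2) ^ n = 1}).Finite := by
      refine Set.Finite.biUnion (f.rootSet_finite ℂ) ?_
      intro z hz
      apply Set.Subsingleton.finite
      have key : ∀ a b : ℕ, a < b → (∃ n : ℕ, 1 ≤ n ∧ ((aeval z g1) ^ a * aeval z g2) ^ n = 1) →
          (∃ n : ℕ, 1 ≤ n ∧ ((aeval z g1) ^ b * aeval z g2) ^ n = 1) → False := by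
        rintro a b hab ⟨n, hn, h1⟩ ⟨m, hm, h2⟩
        obtain ⟨x, hx⟩ : ∃ x, x = aeval z g1 := ⟨_, rfl⟩
        obtain ⟨y, hy⟩ : ∃ y, y = aeval z g2 := ⟨_, rfl⟩
        rw [← hx, ← hy] at h1 h2
        have h3 : (x ^ a * y) ^ (n * m) = 1 := by rw [pow_mul, h1, one_pow]
        have h4 : (x ^ b * y) ^ (n * m) = 1 := by rw [mul_comm n, pow_mul, h2, one_pow]
        have h5 : x ^ ((b - a) * (n * m)) = 1 := by
          have h6 : (x ^ b * y) ^ (n * m) = x ^ ((b - a) * (n * m)) * (x ^ a * y) ^ (n * m) := by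
            have : x ^ b = x ^ (b - a) * x ^ a := by rw [← pow_add]; congr 1; omega
            rw [this, mul_assoc, mul_pow, ← pow_mul]
          rw [h4, h3, mul_one] at h6
          exact h6.symm
        have hpos : 1 ≤ (b - a) * (n * m) :=
          Nat.mul_pos (by omega) (Nat.mul_pos hn hm)
        have h7 : y ^ ((n * m) * ((b - a) * (n * m))) = 1 := by
          have h8 : (x ^ a * y) ^ ((n * m) * ((b - a) * (n * m))) = 1 := by
            rw [pow_mul, h3, one_pow]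
          rw [mul_pow] at h8
          have h9 : (x ^ a) ^ ((n * m) * ((b - a) * (n * m))) = 1 := by
            calc (x ^ a) ^ ((n * m) * ((b - a) * (n * m))) =
                (x ^ ((b - a) * (n * m))) ^ (a * (n * m)) := by ring
              _ = 1 := by rw [h5, one_pow]
          rw [h9, one_mul] at h8
          exact h8
        have hz0 : aeval z f = 0 := (mem_rootSet.mp hz).2
        exact hN z hz0 _ _ hpos (Nat.mul_pos (Nat.mul_pos hn hm) hpos) (by rw [← hx]; exact h5)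
          (by rw [← hy]; exact h7)
      intro a ha b hb
      rcases lt_trichotomy a b with h | h | h
      · exact (key a b h ha hb).elim
      · exact h
      · exact (key b a h hb ha).elim
    obtain ⟨a, ha⟩ := hfin.infinite_compl.nonempty
    refine ⟨a, ?_⟩
    intro z hz n hn h
    apply ha
    rw [Set.mem_iUnion₂]
    exact ⟨z, hz, n, hn, h⟩
  refine (sparse_rootG f hf hf1 (g1 ^ a * g2) 1 le_rfl ?_).mono ?_
  · intro n hn z hz
    rw [map_mul, map_pow, Nat.cast_one, one_pow]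
    exact ha z (mem_rootSet.mpr ⟨hf, hz⟩) n hn
  · rintro q n ⟨t, ht, h1, h2⟩
    refine ⟨t, ht, ?_⟩
    rw [map_mul, map_pow, mul_pow, ← pow_mul, mul_comm a n, pow_mul, h1, h2, Nat.cast_one, one_pow,
      one_pow, one_mul]

end Pool.Agent.H573.AHB
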