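import Pool.Agent.H573.AHB.TowB
import Pool.Agent.H573.AHB.Core2

/-!
The tower of cubings: the counting theorem.
-/

namespace Pool.Agent.H573.AHB

open Polynomial

lemma aeval_TF {A : Type*} [CommRing A] (t : A) (δ : ℤ) (i : ℕ) :
    aeval t (TF (C δ : ℤ[X]) X 1 i) = TF (δ : A) t 1 i ∧
    aeval t (TG (C δ : ℤ[X]) X 1 i) = TG (δ : A) t 1 i := by
  have h := map_TF (aeval t : ℤ[X] →ₐ[ℤ] A).toRingHom (C δ) X 1 i
  simp only [AlgHom.toRingHom_eq_coe, RingHom.coe_coe, aeval_X, aeval_C, map_one] at h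
  exact h

/-- bad primes for the tower -/
def BadT (δ : ℤ) (i q n : ℕ) : Prop :=
  ∃ U V : ZMod q, (U ≠ 0 ∨ V ≠ 0) ∧ (V = 0 ∨ V ^ n = 1) ∧
    (TG (δ : ZMod q) U V 0 = 0 ∨ TG (δ : ZMod q) U V 0 ^ n = 1) ∧
    (TG (δ : ZMod q) U V 1 = 0 ∨ TG (δ : ZMod q) U V 1 ^ n = 1) ∧
    (TF (δ : ZMod q) U V i = 0 ∨ TF (δ : ZMod q) U V i ^ n = 1)

section field
variable {F : Type*} [Field F]

lemma norm_zero {δ z : F} {j : ℕ} (hU : TU δ z 1 j = 0) (hV : TV δ z 1 j = 0) : z ^ 2 = δ := by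
  have h := norm_T δ z 1 j
  rw [hU, hV] at h
  have h1 : (z ^ 2 - δ * 1 ^ 2) ^ (3 ^ j) = 0 := by rw [← h]; ring
  have h2 := pow_eq_zero_iff (by positivity) |>.mp h1
  linear_combination h2

lemma TG0_eq (δ z : F) : TG δ z 1 0 = 3 * z ^ 2 + δ := by rw [TG, TU_zero, TV_zero]; ring
lemma TF0_eq (δ z : F) : TF δ z 1 0 = z ^ 2 + 3 * δ := by rw [TF, TU_zero, TV_zero]; ring
lemma TG1_eq (δ z : F) : TG δ z 1 1 = 3 * (z * (z ^ 2 + 3 * δ)) ^ 2 + δ * (3 * z ^ 2 + δ) ^ 2 := by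
  rw [TG, TU_succ, TV_succ, TF, TG, TU_zero, TV_zero]; ring

/-- the three polynomials have no common zeros in pairs -/
lemma T_common {δ z : F} (hδ : δ ^ 2 = 1) (h2 : (2 : F) ≠ 0) (h3 : (3 : F) ≠ 0) (i : ℕ) :
    (TG δ z 1 0 = 0 → TG δ z 1 1 ≠ 0 ∧ TF δ z 1 i ≠ 0) ∧
    (TG δ z 1 1 = 0 → TG δ z 1 0 ≠ 0 ∧ TF δ z 1 i ≠ 0) ∧
    (TF δ z 1 i = 0 → TG δ z 1 0 ≠ 0 ∧ TG δ z 1 1 ≠ 0) := by
  have hδ0 : δ ≠ 0 := by
    rintro rfl
    rw [zero_pow (by norm_num)] at hδ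
    exact zero_ne_one hδ
  have h4 : (4 : F) ≠ 0 := by
    have : (4 : F) = 2 * 2 := by norm_num
    rw [this]
    exact mul_ne_zero h2 h2
  have h64 : (64 : F) ≠ 0 := by
    have : (64 : F) = 4 * 4 * 4 := by norm_num
    rw [this]
    exact mul_ne_zero (mul_ne_zero h4 h4) h4
  -- `z² = δ` excludes everything
  have k0 : z ^ 2 = δ → TG δ z 1 0 ≠ 0 := by
    intro h
    rw [TG0_eq, h]
    have : 3 * δ + δ = 4 * δ := by ring
    rw [this]
    exact mul_ne_zero h4 hδ0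
  have kF : z ^ 2 = δ → TF δ z 1 0 ≠ 0 := by
    intro h
    rw [TF0_eq, h]
    have : δ + 3 * δ = 4 * δ := by ring
    rw [this]
    exact mul_ne_zero h4 hδ0
  have k1 : z ^ 2 = δ → TG δ z 1 1 ≠ 0 := by
    intro h
    have : TG δ z 1 1 = 64 * δ := by
      rw [TG1_eq]
      calc 3 * (z * (z ^ 2 + 3 * δ)) ^ 2 + δ * (3 * z ^ 2 + δ) ^ 2 =
          3 * (z ^ 2) * (z ^ 2 + 3 * δ) ^ 2 + δ * (3 * z ^ 2 + δ) ^ 2 := by ring
        _ = 64 * δ * δ ^ 2 := by rw [h]; ring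
        _ = 64 * δ := by rw [hδ, mul_one]
    rw [this]
    exact mul_ne_zero h64 hδ0
  have v1 : TG δ z 1 0 = 0 → TV δ z 1 1 = 0 := by
    intro h
    rw [TV_succ, h, mul_zero]
  have v2 : TG δ z 1 1 = 0 → TV δ z 1 2 = 0 := by
    intro h
    rw [TV_succ, h, mul_zero]
  have hdvd : ∀ a b : ℕ, a ≤ b → TV δ z 1 a = 0 → TV δ z 1 b = 0 := by
    intro a b hab h
    obtain ⟨k, hk⟩ := TV_dvd δ z 1 a b hab
    rw [hk, h, zero_mul]
  -- pairwise statements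
  have p01 : TG δ z 1 0 = 0 → TG δ z 1 1 = 0 → False := by
    intro h h'
    have hV := v1 h
    have hU : TU δ z 1 1 = 0 := by
      rw [TG, hV] at h'
      have h5 : 3 * TU δ z 1 1 ^ 2 = 0 := by linear_combination h'
      exact pow_eq_zero_iff (by norm_num) |>.mp ((mul_eq_zero.mp h5).resolve_left h3)
    exact k0 (norm_zero hU hV) h
  have p0F : TG δ z 1 0 = 0 → TF δ z 1 i = 0 → False := by
    intro h h'
    have hU : TU δ z 1 (i + 1) = 0 := by rw [TU_succ, h', mul_zero]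
    exact k0 (norm_zero hU (hdvd 1 (i + 1) (by omega) (v1 h))) h
  have p1F : TG δ z 1 1 = 0 → TF δ z 1 i = 0 → False := by
    intro h h'
    rcases Nat.eq_zero_or_pos i with hi | hi
    · subst hi
      have hU : TU δ z 1 1 = 0 := by rw [TU_succ, h', mul_zero]
      have hV : TV δ z 1 1 = 0 := by
        rw [TG, hU] at h
        have h5 : δ * TV δ z 1 1 ^ 2 = 0 := by linear_combination h
        exact pow_eq_zero_iff (by norm_num) |>.mp ((mul_eq_zero.mp h5).resolve_left hδ0)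
      exact kF (norm_zero hU hV) h'
    · have hU : TU δ z 1 (i + 1) = 0 := by rw [TU_succ, h', mul_zero]
      exact k1 (norm_zero hU (hdvd 2 (i + 1) (by omega) (v2 h))) h
  exact ⟨fun h => ⟨fun h' => p01 h h', fun h' => p0F h h'⟩,
    fun h => ⟨fun h' => p01 h' h, fun h' => p1F h h'⟩,
    fun h => ⟨fun h' => p0F h' h, fun h' => p1F h' h⟩⟩

end field

lemma root_of_ne {F : Type*} [Field F] [IsAlgClosed F] (P : F[X]) (h : P.eval 0 ≠ P.eval 1) :
    ∃ z, P.eval z = 0 := by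
  by_contra hcon
  push Not at hcon
  have hdeg : P.degree = 0 := by
    by_contra hd
    obtain ⟨z, hz⟩ := IsAlgClosed.exists_root P hd
    exact hcon z hz
  rw [eq_C_of_degree_eq_zero hdeg] at h
  simp at h

/-- the three polynomials -/
noncomputable def pT (δ : ℤ) (i : ℕ) : Fin 3 → ℤ[X] :=
  ![TG (C δ : ℤ[X]) X 1 0, TG (C δ : ℤ[X]) X 1 1, TF (C δ : ℤ[X]) X 1 i]

lemma fin3 (i : Fin 3) : i = 0 ∨ i = 1 ∨ i = 2 := by
  fin_cases i <;> simp

lemma pT_Hq (F : Type) [Field F] [IsAlgClosed F] (q : ℕ) [CharP F q] (hq : q.Prime) (hq7 : 7 < q)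
    (δ : ℤ) (hδ : δ = 1 ∨ δ = -1) (i : ℕ) (k : Fin 3) :
    ∃ z : F, aeval z (pT δ i k) = 0 ∧ ∀ j, j ≠ k → aeval z (pT δ i j) ≠ 0 := by
  have hnz : ∀ a : ℕ, 0 < a → a < q → (a : F) ≠ 0 := by
    intro a ha haq h
    rw [CharP.cast_eq_zero_iff F q] at h
    have := Nat.le_of_dvd ha h
    omega
  have h2 : (2 : F) ≠ 0 := by exact_mod_cast hnz 2 (by norm_num) (by omega)
  have h3 : (3 : F) ≠ 0 := by exact_mod_cast hnz 3 (by norm_num) (by omega)
  have h7 : (7 : F) ≠ 0 := by exact_mod_cast hnz 7 (by norm_num) (by omega)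
  have hδF : (δ : F) ^ 2 = 1 := by
    rcases hδ with rfl | rfl <;> norm_num
  have hT := fun z : F => T_common (z := z) hδF h2 h3 i
  have e0 : ∀ z : F, aeval z (pT δ i 0) = TG (δ : F) z 1 0 := fun z => (aeval_TF z δ 0).2
  have e1 : ∀ z : F, aeval z (pT δ i 1) = TG (δ : F) z 1 1 := fun z => (aeval_TF z δ 1).2
  have e2 : ∀ z : F, aeval z (pT δ i 2) = TF (δ : F) z 1 i := fun z => (aeval_TF z δ i).1
  rcases fin3 k with rfl | rfl | rfl
  · obtain ⟨z, hz⟩ := IsAlgClosed.exists_pow_nat_eq (-(δ : F) / 3) (n := 2) (by norm_num)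
    have hz0 : TG (δ : F) z 1 0 = 0 := by
      rw [TG0_eq, hz]
      field_simp
      ring
    refine ⟨z, by rw [e0, hz0], ?_⟩
    intro j hj
    rcases fin3 j with rfl | rfl | rfl
    · exact absurd rfl hj
    · rw [e1]; exact ((hT z).1 hz0).1
    · rw [e2]; exact ((hT z).1 hz0).2
  · obtain ⟨z, hz⟩ := root_of_ne
      (3 * (X * (X ^ 2 + 3 * C (δ : F))) ^ 2 + C (δ : F) * (3 * X ^ 2 + C (δ : F)) ^ 2 : F[X]) (by
      simp only [eval_add, eval_mul, eval_pow, eval_X, eval_C, eval_ofNat]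
      intro h
      rcases hδ with rfl | rfl
      · have h63 : (7 : F) * (3 * 3) = 0 := by
          push_cast at h
          linear_combination -h
        exact mul_ne_zero h7 (mul_ne_zero h3 h3) h63
      · have h9 : (3 : F) * 3 = 0 := by
          push_cast at h
          linear_combination -h
        exact mul_ne_zero h3 h3 h9)
    simp only [eval_add, eval_mul, eval_pow, eval_X, eval_C, eval_ofNat] at hz
    have hz0 : TG (δ : F) z 1 1 = 0 := by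
      rw [TG1_eq]
      exact hz
    refine ⟨z, by rw [e1, hz0], ?_⟩
    intro j hj
    rcases fin3 j with rfl | rfl | rfl
    · rw [e0]; exact ((hT z).2.1 hz0).1
    · exact absurd rfl hj
    · rw [e2]; exact ((hT z).2.1 hz0).2
  · obtain ⟨hm, hd⟩ := TF_monic δ i
    have hm' : ((TF (C δ : ℤ[X]) X 1 i).map (algebraMap ℤ F)).Monic := hm.map _
    have hd' : ((TF (C δ : ℤ[X]) X 1 i).map (algebraMap ℤ F)).degree ≠ 0 := by
      rw [degree_eq_natDegree hm'.ne_zero, hm.natDegree_map, hd]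
      have : 0 < 2 * 3 ^ i := by positivity
      intro h
      have h' : (2 * 3 ^ i : ℕ) = 0 := by exact_mod_cast h
      omega
    obtain ⟨z, hz⟩ := IsAlgClosed.exists_root _ hd'
    have hz0 : TF (δ : F) z 1 i = 0 := by
      rw [← (aeval_TF z δ i).1, aeval_def, ← eval_map]
      exact hz
    refine ⟨z, by rw [e2, hz0], ?_⟩
    intro j hj
    rcases fin3 j with rfl | rfl | rfl
    · rw [e0]; exact ((hT z).2.2 hz0).1
    · rw [e1]; exact ((hT z).2.2 hz0).2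
    · exact absurd rfl hj

lemma pT_H2 (δ : ℤ) (hδ : δ = 1 ∨ δ = -1) (i : ℕ) (z : ℂ) :
    ∃ k, ∀ N : ℕ, 1 ≤ N → (aeval z (pT δ i k)) ^ N ≠ (((1 : ℤ)) : ℂ) ^ N := by
  by_contra hcon
  push Not at hcon
  have e0 : aeval z (pT δ i 0) = TG (δ : ℂ) z 1 0 := (aeval_TF z δ 0).2
  have e1 : aeval z (pT δ i 1) = TG (δ : ℂ) z 1 1 := (aeval_TF z δ 1).2
  have e2 : aeval z (pT δ i 2) = TF (δ : ℂ) z 1 i := (aeval_TF z δ i).1
  obtain ⟨N0, hN0, h0⟩ := hcon 0
  obtain ⟨N1, hN1, h1⟩ := hcon 1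
  obtain ⟨N2, hN2, h2⟩ := hcon 2
  rw [Int.cast_one, one_pow] at h0 h1 h2
  rw [e0] at h0
  rw [e1] at h1
  rw [e2] at h2
  have hδC : (δ : ℂ) ^ 2 = 1 := by rcases hδ with rfl | rfl <;> norm_num
  have hδi : IsIntegral ℤ (δ : ℂ) := by
    exact_mod_cast (isIntegral_algebraMap (R := ℤ) (A := ℂ) (x := δ))
  have hz := tower_tors (δ : ℂ) hδC hδi z N0 N1 hN0 hN1 h0 h1
  rw [hz, TF, (T_u0 _ hδC i).1, (T_u0 _ hδC i).2] at h2
  have h3 : ‖(0 : ℂ) ^ 2 + 3 * (δ : ℂ) * 1‖ = 3 := by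
    rcases hδ with rfl | rfl <;> norm_num
  have h4 := congrArg norm h2
  rw [norm_pow, h3, norm_one] at h4
  have h5 : (1 : ℝ) < 3 ^ N2 := one_lt_pow₀ (by norm_num) (by omega)
  linarith

/-- the cases for a bad prime -/
lemma badT_cases (δ : ℤ) (hδ : δ = 1 ∨ δ = -1) (i q n : ℕ) (hq : q.Prime) (hq7 : 7 < q)
    (hn : Even n) (h : BadT δ i q n) :
    (((27 : ℕ) : ZMod q) ^ n = ((3 : ℕ) : ZMod q) ^ n ∧
      ((27 : ℕ) : ZMod q) ^ n = ((3 : ℕ) : ZMod q) ^ n) ∨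
    (((64 : ℕ) : ZMod q) ^ n = ((9 : ℕ) : ZMod q) ^ n ∧
      ((64 : ℕ) : ZMod q) ^ n = ((9 : ℕ) : ZMod q) ^ n) ∨
    (∃ t : ZMod q, aeval t (pT δ i 1) = 0 ∧ (aeval t (pT δ i 0)) ^ n = ((1 : ℕ) : ZMod q) ^ n) ∨
    (∃ t : ZMod q, aeval t (pT δ i 2) = 0 ∧ (aeval t (pT δ i 0)) ^ n = 1 ∧
      (aeval t (pT δ i 1)) ^ n = 1) ∨
    (∃ t : ZMod q, ∀ k, (aeval t (pT δ i k)) ^ n = (((1 : ℤ)) : ZMod q) ^ n) := by
  have hF : Fact q.Prime := ⟨hq⟩
  obtain ⟨U, V, hUV, hV, hG0, hG1, hFi⟩ := h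
  have hδF : (δ : ZMod q) ^ 2 = 1 := by rcases hδ with rfl | rfl <;> norm_num
  have h3 : (3 : ZMod q) ≠ 0 := by
    have := natCast_ne_zero_of_lt (k := 3) (by norm_num) (by omega) (ZMod q)
    exact_mod_cast this
  have h2 : (2 : ZMod q) ≠ 0 := by
    have := natCast_ne_zero_of_lt (k := 2) (by norm_num) (by omega) (ZMod q)
    exact_mod_cast this
  by_cases hV0 : V = 0
  · left
    have hU0 : U ≠ 0 := by
      rcases hUV with h | h
      · exact h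
      · exact absurd hV0 h
    rw [hV0, TG, TU_zero, TV_zero] at hG0
    rw [hV0, TG, (T_v0 _ U 1).1, (T_v0 _ U 1).2] at hG1
    have e0 : 3 * U ^ 2 + (δ : ZMod q) * 0 ^ 2 = 3 * U ^ 2 := by ring
    have e1 : 3 * (U ^ 3 ^ 1) ^ 2 + (δ : ZMod q) * 0 ^ 2 = 3 * U ^ 6 := by ring
    rw [e0] at hG0
    rw [e1] at hG1
    have g0 := hG0.resolve_left (mul_ne_zero h3 (pow_ne_zero _ hU0))
    have g1 := hG1.resolve_left (mul_ne_zero h3 (pow_ne_zero _ hU0))
    have key : ((27 : ℕ) : ZMod q) ^ n = ((3 : ℕ) : ZMod q) ^ n := by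
      have hU6 : (U ^ 6) ^ n ≠ 0 := pow_ne_zero _ (pow_ne_zero _ hU0)
      apply mul_right_cancel₀ hU6
      calc ((27 : ℕ) : ZMod q) ^ n * (U ^ 6) ^ n = ((3 * U ^ 2) ^ n) ^ 3 := by
            rw [← mul_pow, ← pow_mul, mul_comm n 3, pow_mul]
            push_cast
            congr 1
            ring
        _ = (3 * U ^ 6) ^ n := by rw [g0, g1, one_pow]
        _ = _ := by rw [mul_pow]; push_cast; rfl
    exact ⟨key, key⟩
  right
  have hV' := hV.resolve_left hV0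
  obtain ⟨t, ht⟩ : ∃ t, t = U / V := ⟨_, rfl⟩
  have hU : U = V * t := by rw [ht]; field_simp
  have hVV : V = V * 1 := by ring
  have c0 : TG (δ : ZMod q) U V 0 = V ^ (2 * 3 ^ 0) * TG (δ : ZMod q) t 1 0 := by
    conv_lhs => rw [hU, hVV]
    rw [mul_one V, ← (hom_TF (δ : ZMod q) V t 1 0).2, mul_one]
  have c1 : TG (δ : ZMod q) U V 1 = V ^ (2 * 3 ^ 1) * TG (δ : ZMod q) t 1 1 := by
    rw [← (hom_TF (δ : ZMod q) V t 1 1).2, mul_one, ← hU]
  have c2 : TF (δ : ZMod q) U V i = V ^ (2 * 3 ^ i) * TF (δ : ZMod q) t 1 i := by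
    rw [← (hom_TF (δ : ZMod q) V t 1 i).1, mul_one, ← hU]
  have hVn : ∀ k : ℕ, (V ^ k) ^ n = 1 := by
    intro k
    rw [← pow_mul, mul_comm, pow_mul, hV', one_pow]
  have red : ∀ (k : ℕ) (y x : ZMod q), y = V ^ k * x → (y = 0 ∨ y ^ n = 1) → (x = 0 ∨ x ^ n = 1) := by
    intro k y x hy h
    rcases h with h | h
    · left
      rw [hy] at h
      exact (mul_eq_zero.mp h).resolve_left (pow_ne_zero _ hV0)
    · right
      rw [hy, mul_pow, hVn, one_mul] at h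
      exact h
  have g0 := red _ _ _ c0 hG0
  have g1 := red _ _ _ c1 hG1
  have g2 := red _ _ _ c2 hFi
  have e0 : aeval t (pT δ i 0) = TG (δ : ZMod q) t 1 0 := (aeval_TF t δ 0).2
  have e1 : aeval t (pT δ i 1) = TG (δ : ZMod q) t 1 1 := (aeval_TF t δ 1).2
  have e2 : aeval t (pT δ i 2) = TF (δ : ZMod q) t 1 i := (aeval_TF t δ i).1
  have hT := T_common (z := t) hδF h2 h3 i
  by_cases z0 : TG (δ : ZMod q) t 1 0 = 0
  · left
    have g1' := g1.resolve_left (hT.1 z0).1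
    have h9 : 9 * TG (δ : ZMod q) t 1 1 = -(64 * (δ : ZMod q)) := by
      have hx : 3 * t ^ 2 = -(δ : ZMod q) := by
        rw [TG0_eq] at z0
        linear_combination z0
      rw [TG1_eq]
      calc 9 * (3 * (t * (t ^ 2 + 3 * (δ : ZMod q))) ^ 2 +
          (δ : ZMod q) * (3 * t ^ 2 + (δ : ZMod q)) ^ 2) =
          (3 * t ^ 2) * (3 * t ^ 2 + 9 * (δ : ZMod q)) ^ 2 +
          9 * (δ : ZMod q) * (3 * t ^ 2 + (δ : ZMod q)) ^ 2 := by ring
        _ = -(64 * (δ : ZMod q)) * (δ : ZMod q) ^ 2 := by rw [hx]; ring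
        _ = _ := by rw [hδF, mul_one]
    have key : ((64 : ℕ) : ZMod q) ^ n = ((9 : ℕ) : ZMod q) ^ n := by
      have h10 : (9 * TG (δ : ZMod q) t 1 1) ^ n = (9 : ZMod q) ^ n := by
        rw [mul_pow, g1', mul_one]
      have h11 : (-(64 * (δ : ZMod q))) ^ n = (64 : ZMod q) ^ n := by
        rw [hn.neg_pow, mul_pow]
        obtain ⟨r, hr⟩ := hn
        have : (δ : ZMod q) ^ n = 1 := by
          rw [hr, ← two_mul, pow_mul, hδF, one_pow]
        rw [this, mul_one]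
      rw [h9, h11] at h10
      push_cast
      exact h10
    exact ⟨key, key⟩
  have g0' := g0.resolve_left z0
  right
  by_cases z1 : TG (δ : ZMod q) t 1 1 = 0
  · left
    refine ⟨t, by rw [e1, z1], ?_⟩
    rw [e0, g0', Nat.cast_one, one_pow]
  have g1' := g1.resolve_left z1
  right
  by_cases z2 : TF (δ : ZMod q) t 1 i = 0
  · left
    exact ⟨t, by rw [e2, z2], by rw [e0, g0'], by rw [e1, g1']⟩
  have g2' := g2.resolve_left z2
  right
  refine ⟨t, ?_⟩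
  intro k
  rw [Int.cast_one, one_pow]
  rcases fin3 k with rfl | rfl | rfl
  · rw [e0, g0']
  · rw [e1, g1']
  · rw [e2, g2']

theorem sparse_badT (δ : ℤ) (hδ : δ = 1 ∨ δ = -1) (i : ℕ) : Sparse (BadT δ i) := by
  classical
  have s1 := sparse_num 27 3 27 3 (by norm_num) (by norm_num) (by norm_num) (by norm_num)
    (Or.inl (by norm_num))
  have s2 := sparse_num 64 9 64 9 (by norm_num) (by norm_num) (by norm_num) (by norm_num)
    (Or.inl (by norm_num))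
  have hδ2 : δ ^ 2 = 1 := by rcases hδ with rfl | rfl <;> norm_num
  have hδC : (δ : ℂ) ^ 2 = 1 := by exact_mod_cast hδ2
  have hδi : IsIntegral ℤ (δ : ℂ) := by
    exact_mod_cast (isIntegral_algebraMap (R := ℤ) (A := ℂ) (x := δ))
  have c1 : (pT δ i 1).coeff 0 = δ := by
    have h1 := (aeval_TF (0 : ℤ) δ 1).2
    rw [Int.cast_id] at h1
    rw [coeff_zero_eq_aeval_zero]
    change aeval 0 (TG (C δ : ℤ[X]) X 1 1) = δ
    rw [h1, TG, TU_succ, TV_succ, TF, TG, TU_zero, TV_zero]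
    calc _ = δ ^ 2 * δ := by ring
      _ = δ := by rw [hδ2, one_mul]
  have hne1 : pT δ i 1 ≠ 0 := by
    intro h
    rw [h, coeff_zero] at c1
    rcases hδ with rfl | rfl <;> norm_num at c1
  have hq1 : ∀ q : ℕ, q.Prime → ¬ C (q : ℤ) ∣ pT δ i 1 := by
    intro q hq hd
    have h1 := (C_dvd_iff_dvd_coeff _ _).mp hd 0
    rw [c1] at h1
    have h2 : (q : ℤ) ∣ 1 := by
      rw [← hδ2]
      exact h1.trans (dvd_pow_self _ (by norm_num))
    have h3 : (q : ℤ) ∣ ((1 : ℕ) : ℤ) := by simpa using h2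
    have := Nat.le_of_dvd one_pos (Int.natCast_dvd_natCast.mp h3)
    have := hq.two_le
    omega
  have s3 := sparse_rootG (pT δ i 1) hne1 hq1 (pT δ i 0) 1 le_rfl (by
    intro n hn z hz
    rw [Nat.cast_one, one_pow]
    have e0 : aeval z (pT δ i 0) = TG (δ : ℂ) z 1 0 := (aeval_TF z δ 0).2
    have e1 : aeval z (pT δ i 1) = TG (δ : ℂ) z 1 1 := (aeval_TF z δ 1).2
    rw [e1] at hz
    rw [e0]
    exact phi2_root δ hδ2 z hz n hn)
  have hm2 : (pT δ i 2).Monic := (TF_monic δ i).1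
  have hq2 : ∀ q : ℕ, q.Prime → ¬ C (q : ℤ) ∣ pT δ i 2 := by
    intro q hq hd
    have h1 := (C_dvd_iff_dvd_coeff _ _).mp hd (pT δ i 2).natDegree
    rw [hm2.coeff_natDegree] at h1
    have h3 : (q : ℤ) ∣ ((1 : ℕ) : ℤ) := by simpa using h1
    have := Nat.le_of_dvd one_pos (Int.natCast_dvd_natCast.mp h3)
    have := hq.two_le
    omega
  have s4 := sparse_root2 (pT δ i 2) hm2.ne_zero hq2 (pT δ i 0) (pT δ i 1) (by
    intro z hz n m hn hm h0 h1
    have e0 : aeval z (pT δ i 0) = TG (δ : ℂ) z 1 0 := (aeval_TF z δ 0).2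
    have e1 : aeval z (pT δ i 1) = TG (δ : ℂ) z 1 1 := (aeval_TF z δ 1).2
    have e2 : aeval z (pT δ i 2) = TF (δ : ℂ) z 1 i := (aeval_TF z δ i).1
    rw [e0] at h0
    rw [e1] at h1
    rw [e2] at hz
    have hz0 := tower_tors (δ : ℂ) hδC hδi z n m hn hm h0 h1
    rw [hz0, TF, (T_u0 _ hδC i).1, (T_u0 _ hδC i).2] at hz
    rcases hδ with rfl | rfl <;> norm_num at hz)
  obtain ⟨C5, hC5, h5⟩ := count_primes' (r := 3) (by norm_num) (pT δ i) (fun _ => 1)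
    (fun _ => one_ne_zero) 7 (by
      intro q hq hlt k
      have hF : Fact q.Prime := ⟨hq⟩
      rw [Int.cast_one]
      exact one_ne_zero) (by
      intro q hq hlt k
      have hchar : CharP (AlgebraicClosure (ZMod q)) q :=
        charP_of_injective_algebraMap (algebraMap (ZMod q) _).injective q
      obtain ⟨z, hz1, hz2⟩ := pT_Hq (AlgebraicClosure (ZMod q)) q hq.out hlt δ hδ i k
      exact ⟨AlgebraicClosure (ZMod q), inferInstance, hchar, z, hz1, hz2⟩) (pT_H2 δ hδ i)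
  have s5 : Sparse (fun q n => ∃ t : ZMod q, ∀ k, (aeval t (pT δ i k)) ^ n =
      (((1 : ℤ)) : ZMod q) ^ n) := by
    refine ⟨C5, hC5, 7, ?_⟩
    intro K R hR hRK hKR Q hQ
    exact h5 K R hR hRK hKR Q (by
      intro q hq
      obtain ⟨g1, g2, n, g3, g4, _, t, ht⟩ := hQ q hq
      exact ⟨g1, g2, t, n, g3, g4, ht⟩)
  have hall := s1.or (s2.or (s3.or (s4.or s5)))
  obtain ⟨C', hC', q', h'⟩ := hall
  refine ⟨C', hC', max 7 q', ?_⟩
  intro K R hR hRK hKR Q hQ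
  apply h' K R hR hRK hKR Q
  intro q hq
  obtain ⟨g1, g2, n, g3, g4, g5, g6⟩ := hQ q hq
  have g2' : 7 < q := lt_of_le_of_lt (le_max_left _ _) g2
  refine ⟨g1, lt_of_le_of_lt (le_max_right _ _) g2, n, g3, g4, g5, ?_⟩
  exact badT_cases δ hδ i q n g1 g2' g5 g6

end Pool.Agent.H573.AHB
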