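import Pool.Agent.H573.AHB.TowC
import Pool.Agent.H573.AHB.Diff
import Pool.Agent.H573.AHB.Fin2

/-!
The tower of cubings: descent and the local theorem.
-/

namespace Pool.Agent.H573.AHB

open Filter

/-- a product of successive coprime factors -/
lemma seq_cop (P Q : ℕ → ℤ) (j : ℕ) (hP : ∀ i, P (i + 1) = P i * Q i)
    (hc : ∀ i < j, IsCoprime (P i) (Q i)) :
    (∀ i < j, ∃ M, P j = Q i * M ∧ IsCoprime (Q i) M) ∧ ∃ M, P j = P 0 * M ∧ IsCoprime (P 0) M := by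
  induction j with
  | zero => exact ⟨fun i hi => absurd hi (by omega), 1, by ring, isCoprime_one_right⟩
  | succ j ih =>
    obtain ⟨h1, M0, h2, h3⟩ := ih (fun i hi => hc i (by omega))
    have hj := hc j (by omega)
    refine ⟨?_, M0 * Q j, by rw [hP, h2]; ring, ?_⟩
    · intro i hi
      rcases Nat.lt_or_ge i j with h | h
      · obtain ⟨M, hM, hcM⟩ := h1 i h
        refine ⟨M * Q j, by rw [hP, hM]; ring, hcM.mul_right ?_⟩
        rw [hM] at hj
        exact hj.of_mul_left_left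
      · have hij : i = j := by omega
        subst hij
        exact ⟨P i, by rw [hP]; ring, hj.symm⟩
    · refine h3.mul_right ?_
      rw [h2] at hj
      exact hj.of_mul_left_left

lemma seq_pair (P Q : ℕ → ℤ) (j : ℕ) (hP : ∀ i, P (i + 1) = P i * Q i)
    (hc : ∀ i < j, IsCoprime (P i) (Q i)) (a b : ℕ) (hab : a < b) (hb : b < j) :
    IsCoprime (Q a) (Q b) := by
  obtain ⟨h1, -⟩ := seq_cop P Q b hP (fun i hi => hc i (by omega))
  obtain ⟨M, hM, -⟩ := h1 a hab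
  have h2 := hc b hb
  rw [hM] at h2
  exact h2.of_mul_left_left

/-- factors of `c x^s` prime to `c` are `s`-th powers -/
lemma factor_pow (c : ℤ) (s : ℕ) (hs : Odd s) (x f M : ℤ) (h : f * M = c * x ^ s)
    (hc0 : c ≠ 0) (hfM : IsCoprime f M) (hfc : IsCoprime f c) : ∃ w, f = w ^ s := by
  have h1 : c ∣ M := by
    have h2 : c ∣ f * M := ⟨x ^ s, h⟩
    exact hfc.symm.dvd_of_dvd_mul_left h2
  obtain ⟨M', hM'⟩ := h1
  have h3 : f * M' = x ^ s := by
    apply mul_left_cancel₀ hc0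
    rw [← h, hM']
    ring
  have h4 : IsCoprime f M' := by
    rw [hM'] at hfM
    exact hfM.of_mul_right_right
  obtain ⟨⟨w, hw⟩, -⟩ := Int.eq_pow_of_mul_eq_pow_odd h4 hs h3
  exact ⟨w, hw⟩

/-- among more factors than primes, one is prime to `c` -/
lemma factor_free (c : ℕ) (hc : 1 ≤ c) (Q : ℕ → ℤ) (j : ℕ) (hj : c.primeFactors.card < j)
    (hQ : ∀ a b, a < b → b < j → IsCoprime (Q a) (Q b)) : ∃ i < j, IsCoprime (Q i) (c : ℤ) := by
  by_contra hcon
  push Not at hcon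
  have h1 : ∀ i : Fin j, ∃ ℓ ∈ c.primeFactors, (ℓ : ℤ) ∣ Q i := by
    intro i
    have h2 := hcon i i.2
    rw [Int.isCoprime_iff_gcd_eq_one] at h2
    obtain ⟨ℓ, hℓ, h3, h4⟩ := Nat.Prime.not_coprime_iff_dvd.mp h2
    rw [Int.natAbs_natCast] at h4
    exact ⟨ℓ, Nat.mem_primeFactors.mpr ⟨hℓ, h4, by omega⟩, Int.natCast_dvd.mpr h3⟩
  choose f hf1 hf2 using h1
  have hinj : Function.Injective f := by
    have key : ∀ a b : Fin j, a < b → f a ≠ f b := by
      intro a b hab h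
      have h5 := hQ a b hab b.2
      have h6 := h5.isUnit_of_dvd' (hf2 a) (by rw [h]; exact hf2 b)
      have h7 := (Nat.mem_primeFactors.mp (hf1 a)).1
      rw [Int.isUnit_iff_natAbs_eq, Int.natAbs_natCast] at h6
      exact h7.one_lt.ne' h6
    intro a b h
    rcases lt_trichotomy a b with h1 | h1 | h1
    · exact absurd h (key a b h1)
    · exact h1
    · exact absurd h.symm (key b a h1)
  have h8 : (Finset.univ : Finset (Fin j)).card ≤ c.primeFactors.card :=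
    Finset.card_le_card_of_injOn f (fun i _ => hf1 i) (hinj.injOn)
  rw [Finset.card_univ, Fintype.card_fin] at h8
  omega

/-- descent through the tower -/
lemma tower_desc (δ : ℤ) (hδ : δ = 1 ∨ δ = -1) (j : ℕ) :
    ∀ X Y z : ℤ, IsCoprime X Y → (δ = 1 → Odd z) → X ^ 2 - δ * Y ^ 2 = z ^ (3 ^ j) →
    ∃ u v : ℤ, X = TU δ u v j ∧ Y = TV δ u v j := by
  induction j with
  | zero =>
    intro X Y z _ _ _
    exact ⟨X, Y, rfl, rfl⟩
  | succ j ih =>
    intro X Y z hco hz h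
    have h1 : X ^ 2 - δ * Y ^ 2 = (z ^ (3 ^ j)) ^ (2 * 1 + 1) := by
      rw [h, ← pow_mul, pow_succ]
    have hstep : ∃ a b : ℤ, X = a * Fh δ a b 1 ∧ Y = b * Gh δ a b 1 := by
      rcases hδ with rfl | rfl
      · exact split_desc X Y (z ^ (3 ^ j)) 1 hco (hz rfl).pow (by rw [← h1]; ring)
      · exact gauss X Y (z ^ (3 ^ j)) 1 le_rfl hco (by rw [← h1]; ring)
    obtain ⟨a, b, ha, hb⟩ := hstep
    have hF : Fh δ a b 1 = a ^ 2 + 3 * δ * b ^ 2 := by
      rw [show (1 : ℕ) = 0 + 1 from rfl, Fh_succ, Fh_zero, Gh_zero]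
      ring
    have hG : Gh δ a b 1 = 3 * a ^ 2 + δ * b ^ 2 := by
      rw [show (1 : ℕ) = 0 + 1 from rfl, Gh_succ, Fh_zero, Gh_zero]
      ring
    rw [hF] at ha
    rw [hG] at hb
    have hcube : (a ^ 2 - δ * b ^ 2) ^ 3 = (z ^ (3 ^ j)) ^ 3 := by
      have : X ^ 2 - δ * Y ^ 2 = (a ^ 2 - δ * b ^ 2) ^ 3 := by
        rw [ha, hb]
        ring
      rw [← this, h1]
    have hn : a ^ 2 - δ * b ^ 2 = z ^ (3 ^ j) := by
      have hodd : Odd 3 := by decide
      exact hodd.strictMono_pow.injective hcube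
    have hab : IsCoprime a b := by
      rw [ha, hb] at hco
      exact hco.of_mul_left_left.of_mul_right_left
    obtain ⟨u, v, hu, hv⟩ := ih a b z hab hz hn
    refine ⟨u, v, ?_, ?_⟩
    · rw [TU_succ, TF, ← hu, ← hv, ha]
    · rw [TV_succ, TG, ← hu, ← hv, hb]

/-- bad primes for the whole tower -/
def BadJ (δ : ℤ) (j q n : ℕ) : Prop := ∃ i ∈ Finset.range j, BadT δ i q n

theorem sparse_badJ (δ : ℤ) (hδ : δ = 1 ∨ δ = -1) (j : ℕ) : Sparse (BadJ δ j) :=
  Sparse.exists_mem _ _ (fun i _ => sparse_badT δ hδ i)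

/-- the local theorem for the tower -/
theorem tower_local (δ : ℤ) (hδ : δ = 1 ∨ δ = -1) (j s q : ℕ) (hj : 2 ≤ j) (hs : Odd s)
    (hq : q.Prime) (hsq : s ∣ q - 1) (hnb : ¬ BadJ δ j q ((q - 1) / s))
    (c : ℕ) (hc : 1 ≤ c) (hcj : c.primeFactors.card < j) (x y z : ℤ)
    (hco : IsCoprime ((c : ℤ) * x) y) (hz : δ = 1 → Odd z)
    (h3X : ¬ (3 : ℤ) ∣ (c : ℤ) * x) (h3Y : ¬ (3 : ℤ) ∣ y)
    (heq : (c : ℤ) ^ 2 * x ^ (2 * s) - δ * y ^ (2 * s) = z ^ (3 ^ j)) : False := by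
  have hF' : Fact q.Prime := ⟨hq⟩
  have hp3 : Prime (3 : ℤ) := Int.prime_three
  have hc0 : (c : ℤ) ≠ 0 := by exact_mod_cast (by omega : c ≠ 0)
  have hcoXY : IsCoprime ((c : ℤ) * x ^ s) (y ^ s) := by
    have e1 := hco.of_mul_left_left
    have e2 := hco.of_mul_left_right
    exact (e1.mul_left e2.pow_left).pow_right
  obtain ⟨u, v, hu, hv⟩ := tower_desc δ hδ j ((c : ℤ) * x ^ s) (y ^ s) z hcoXY hz (by
    rw [← heq]
    ring)
  -- divisibility
  have hUd : ∀ i ≤ j, TU δ u v i ∣ (c : ℤ) * x ^ s := fun i hi => by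
    rw [hu]; exact TU_dvd δ u v i j hi
  have hVd : ∀ i ≤ j, TV δ u v i ∣ y ^ s := fun i hi => by
    rw [hv]; exact TV_dvd δ u v i j hi
  have hcop : ∀ i ≤ j, IsCoprime (TU δ u v i) (TV δ u v i) := by
    intro i hi
    exact (hcoXY.of_isCoprime_of_dvd_left (hUd i hi)).of_isCoprime_of_dvd_right (hVd i hi)
  have h3U : ∀ i ≤ j, ¬ (3 : ℤ) ∣ TU δ u v i := by
    intro i hi h
    have h1 := h.trans (hUd i hi)
    rcases hp3.dvd_or_dvd h1 with h2 | h2
    · exact h3X (h2.mul_right x)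
    · exact h3X ((hp3.dvd_of_dvd_pow h2).mul_left _)
  have h3V : ∀ i ≤ j, ¬ (3 : ℤ) ∣ TV δ u v i := by
    intro i hi h
    exact h3Y (hp3.dvd_of_dvd_pow (h.trans (hVd i hi)))
  have c3U : ∀ i ≤ j, IsCoprime (TU δ u v i) 3 := fun i hi =>
    ((hp3.coprime_iff_not_dvd).mpr (h3U i hi)).symm
  have c3V : ∀ i ≤ j, IsCoprime (TV δ u v i) 3 := fun i hi =>
    ((hp3.coprime_iff_not_dvd).mpr (h3V i hi)).symm
  have hUF : ∀ i < j, IsCoprime (TU δ u v i) (TF δ u v i) := by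
    intro i hi
    have e : TF δ u v i = 3 * δ * TV δ u v i ^ 2 + TU δ u v i * TU δ u v i := by
      rw [TF]; ring
    rw [e]
    refine IsCoprime.add_mul_left_right ?_ _
    have h1 : IsCoprime (TU δ u v i) δ := by
      rcases hδ with h | h
      · rw [h]; exact isCoprime_one_right
      · rw [h]; exact isCoprime_one_right.neg_right
    exact ((c3U i hi.le).mul_right h1).mul_right (hcop i hi.le).pow_right
  have hVG : ∀ i < j, IsCoprime (TV δ u v i) (TG δ u v i) := by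
    intro i hi
    have e : TG δ u v i = 3 * TU δ u v i ^ 2 + TV δ u v i * (δ * TV δ u v i) := by
      rw [TG]; ring
    rw [e]
    refine IsCoprime.add_mul_left_right ?_ _
    exact (c3V i hi.le).mul_right (hcop i hi.le).symm.pow_right
  obtain ⟨hA1, -⟩ := seq_cop (TU δ u v) (TF δ u v) j (TU_succ δ u v) hUF
  obtain ⟨hB1, M0, hB2, hB3⟩ := seq_cop (TV δ u v) (TG δ u v) j (TV_succ δ u v) hVG
  obtain ⟨i0, hi0, hci0⟩ := factor_free c hc (TF δ u v) j hcj
    (seq_pair (TU δ u v) (TF δ u v) j (TU_succ δ u v) hUF)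
  obtain ⟨M1, hM1, hM1c⟩ := hA1 i0 hi0
  obtain ⟨w3, hw3⟩ := factor_pow c s hs x (TF δ u v i0) M1 (by rw [← hM1, ← hu]) hc0 hM1c hci0
  obtain ⟨N0, hN0, hN0c⟩ := hB1 0 (by omega)
  obtain ⟨N1, hN1, hN1c⟩ := hB1 1 (by omega)
  obtain ⟨w1, hw1⟩ := factor_pow 1 s hs y (TG δ u v 0) N0 (by rw [← hN0, ← hv, one_mul])
    one_ne_zero hN0c isCoprime_one_right
  obtain ⟨w2, hw2⟩ := factor_pow 1 s hs y (TG δ u v 1) N1 (by rw [← hN1, ← hv, one_mul])
    one_ne_zero hN1c isCoprime_one_right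
  obtain ⟨w0, hw0⟩ := factor_pow 1 s hs y (TV δ u v 0) M0 (by rw [← hB2, ← hv, one_mul])
    one_ne_zero hB3 isCoprime_one_right
  apply hnb
  have hsn : s * ((q - 1) / s) = q - 1 := Nat.mul_div_cancel' hsq
  have hpm : ∀ f w : ℤ, f = w ^ s → ((f : ZMod q) = 0 ∨ (f : ZMod q) ^ ((q - 1) / s) = 1) := by
    intro f w hf
    have := pow_mod q s _ hq hsn 1 w (f : ZMod q) 1 one_ne_zero (by
      rw [hf]
      push_cast
      ring)
    rw [one_mul, Nat.cast_one, one_pow] at this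
    exact this
  have mF := fun i => map_TF (Int.castRingHom (ZMod q)) δ u v i
  simp only [eq_intCast] at mF
  refine ⟨i0, Finset.mem_range.mpr hi0, (u : ZMod q), (v : ZMod q), ?_, ?_, ?_, ?_, ?_⟩
  · by_contra hcon
    push Not at hcon
    obtain ⟨g1, g2⟩ := hcon
    rw [ZMod.intCast_zmod_eq_zero_iff_dvd] at g1 g2
    have h0 := hcop 0 (by omega)
    rw [TU_zero, TV_zero] at h0
    have := h0.isUnit_of_dvd' g1 g2
    rw [Int.isUnit_iff_natAbs_eq, Int.natAbs_natCast] at this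
    have := hq.two_le
    omega
  · exact hpm v w0 hw0
  · rw [← (mF 0).2]
    exact hpm _ w1 hw1
  · rw [← (mF 1).2]
    exact hpm _ w2 hw2
  · rw [← (mF i0).1]
    exact hpm _ w3 hw3

end Pool.Agent.H573.AHB
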