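import Pool.Agent.H573.AHB.UnN

/-!
The count of bad primes with explicit constants, for general `δ` and for parameters which are only
assumed to be prime to the primes `q`.
-/

set_option autoImplicit false

namespace Pool.Agent.H573.AHB

open Polynomial

section
variable {A : Type*} [CommRing A]

lemma ph_Hq' (K : Type) [Field K] [IsAlgClosed K] (δ : ℤ) (m a b2 : ℕ) (hm : 1 ≤ m) (h2 : (2 : K) ≠ 0)
    (ha0 : (a : K) ≠ 0) (hb0 : (b2 : K) ≠ 0) (hp0 : (2 * (m : K) + 1) ≠ 0) (hδ0 : (δ : K) ≠ 0)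
    (i : Fin 3) : ∃ z : K, aeval z (ph δ m a b2 i) = 0 ∧
      ∀ j, j ≠ i → aeval z (ph δ m a b2 j) ≠ 0 := by
  have hf0 : Fh (δ : K) 1 0 m = 1 := by rw [(FG_v0 (δ : K) 1 m).1, one_pow]
  have hg0 : Gh (δ : K) 1 0 m = 2 * m + 1 := by rw [(FG_v0 (δ : K) 1 m).2, one_pow, mul_one]
  have hapow : (a : K) ^ (2 * m) ≠ 0 := pow_ne_zero _ ha0
  -- a root of a polynomial with nonzero coefficient in degree 2m
  have hroot : ∀ P : ℤ[X], P.natDegree ≤ 2 * m → ((P.coeff (2 * m) : ℤ) : K) ≠ 0 →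
      ∃ z : K, aeval z P = 0 := by
    intro P _ hc
    have h1 : (P.map (algebraMap ℤ K)).degree ≠ 0 := by
      intro h0
      have h3 : (P.map (algebraMap ℤ K)).natDegree = 0 := natDegree_eq_of_degree_eq_some h0
      have h4 : (P.map (algebraMap ℤ K)).coeff (2 * m) = 0 :=
        coeff_eq_zero_of_natDegree_lt (by omega)
      rw [coeff_map] at h4
      apply hc
      rw [← h4]
      exact (eq_intCast (algebraMap ℤ K) _).symm
    obtain ⟨z, hz⟩ := IsAlgClosed.exists_root _ h1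
    refine ⟨z, ?_⟩
    rw [IsRoot.def, eval_map_algebraMap] at hz
    exact hz
  obtain ⟨d1, d2, d3, d4⟩ := fgp_deg δ m
  have h3cases : i = 0 ∨ i = 1 ∨ i = 2 := by
    fin_cases i <;> simp
  rcases h3cases with rfl | rfl | rfl
  · refine ⟨0, by rw [ph_zero, mul_zero], ?_⟩
    intro j hj
    have hj' : j = 1 ∨ j = 2 := by
      fin_cases j
      · exact absurd rfl hj
      · left; rfl
      · right; rfl
    rcases hj' with rfl | rfl
    · rw [ph_one, hf0, mul_one]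
      exact hapow
    · rw [ph_two, hg0]
      exact mul_ne_zero hapow hp0
  · obtain ⟨z, hz⟩ := hroot (fp δ m) d1 (by
      rw [d3]
      push_cast
      exact mul_ne_zero hp0 (pow_ne_zero _ hδ0))
    rw [aeval_fp] at hz
    refine ⟨z, by rw [ph_one, hz, mul_zero], ?_⟩
    have hz0 : z ≠ 0 := by
      intro h0
      rw [h0, hf0] at hz
      exact one_ne_zero hz
    intro j hj
    have hj' : j = 0 ∨ j = 2 := by
      fin_cases j
      · left; rfl
      · exact absurd rfl hj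
      · right; rfl
    rcases hj' with rfl | rfl
    · rw [ph_zero]
      exact mul_ne_zero (mul_ne_zero hb0 ha0) hz0
    · rw [ph_two]
      exact mul_ne_zero hapow (no_common h2 _ _ _ hz)
  · obtain ⟨z, hz⟩ := hroot (gp δ m) d2 (by
      rw [d4]
      push_cast
      exact pow_ne_zero _ hδ0)
    rw [aeval_gp] at hz
    refine ⟨z, by rw [ph_two, hz, mul_zero], ?_⟩
    have hz0 : z ≠ 0 := by
      intro h0
      rw [h0, hg0] at hz
      exact hp0 hz
    intro j hj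
    have hj' : j = 0 ∨ j = 1 := by
      fin_cases j
      · left; rfl
      · right; rfl
      · exact absurd rfl hj
    rcases hj' with rfl | rfl
    · rw [ph_zero]
      exact mul_ne_zero (mul_ne_zero hb0 ha0) hz0
    · rw [ph_one]
      refine mul_ne_zero hapow ?_
      intro h0
      exact no_common h2 _ _ _ h0 hz


end

/-- the possibilities for a bad prime -/
lemma badF_cases' (δ : ℤ) (m a1 a2 b1 b2 e h : ℕ) (zU zV : Prop) (E : ℤ[X]) (q n : ℕ)
    (hqp : q.Prime) (hp0 : (2 * (m : ZMod q) + 1) ≠ 0) (hδ0 : (δ : ZMod q) ≠ 0)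
    (hn : Even n)
    (hbad : BadF δ m a1 a2 b1 b2 e h zU zV E q n) :
    (¬ zU ∧ ((((b2 ^ (2 * m) * e : ℕ) : ZMod q) ^ n = (((2 * m + 1) * δ.natAbs ^ m * b1 ^ (2 * m) : ℕ) :
      ZMod q) ^ n) ∧ (((b2 ^ (2 * m) * h : ℕ) : ZMod q) ^ n = ((δ.natAbs ^ m * b1 ^ (2 * m) : ℕ) :
      ZMod q) ^ n))) ∨
    (¬ zV ∧ ((((a2 ^ (2 * m) * e : ℕ) : ZMod q) ^ n = ((a1 ^ (2 * m) : ℕ) : ZMod q) ^ n) ∧
      (((a2 ^ (2 * m) * h : ℕ) : ZMod q) ^ n = (((2 * m + 1) * a1 ^ (2 * m) : ℕ) :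
      ZMod q) ^ n))) ∨
    (∃ t : ZMod q, aeval t (fp δ m) = 0 ∧
      (((b2 * a1 : ℕ) : ZMod q) * t) ^ n = ((b1 * a2 : ℕ) : ZMod q) ^ n) ∨
    (∃ t : ZMod q, aeval t (gp δ m) = 0 ∧
      (((b2 * a1 : ℕ) : ZMod q) * t) ^ n = ((b1 * a2 : ℕ) : ZMod q) ^ n) ∨
    (∃ t : ZMod q, aeval t E ≠ 0 ∧ ∀ i, (aeval t (ph δ m a1 b2 i)) ^ n =
      ((cc (b1 * a2) (a2 ^ (2 * m) * e) (a2 ^ (2 * m) * h) i : ℤ) : ZMod q) ^ n) := by
  have hF : Fact q.Prime := ⟨hqp⟩
  obtain ⟨U, V, hUV, hzU, hzV, hE, hU, hV, hFF, hGG⟩ := hbad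
  have hδn : (δ : ZMod q) ^ n = ((δ.natAbs : ℕ) : ZMod q) ^ n := by
    rcases Int.natAbs_eq δ with h1 | h1
    · conv_lhs => rw [h1]
      rw [Int.cast_natCast]
    · conv_lhs => rw [h1]
      rw [Int.cast_neg, Int.cast_natCast, hn.neg_pow]
  obtain ⟨P, hP⟩ : ∃ P : ZMod q, P = 2 * (m : ZMod q) + 1 := ⟨_, rfl⟩
  by_cases hU0 : U = 0
  · left
    have hV0 : V ≠ 0 := by
      rcases hUV with h1 | h1
      · exact absurd hU0 h1
      · exact h1
    have hV' := hV.resolve_left hV0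
    rw [hU0] at hFF hGG
    rw [(FG_u0 (δ : ZMod q) V m).1] at hFF
    rw [(FG_u0 (δ : ZMod q) V m).2] at hGG
    have hne0 : ((δ : ZMod q) * V ^ 2) ^ m ≠ 0 :=
      pow_ne_zero _ (mul_ne_zero hδ0 (pow_ne_zero _ hV0))
    have hne : (2 * (m : ZMod q) + 1) * ((δ : ZMod q) * V ^ 2) ^ m ≠ 0 :=
      mul_ne_zero hp0 hne0
    have hF' := hFF.resolve_left hne
    have hG' := hGG.resolve_left hne0
    rw [← hP] at hF'
    refine ⟨fun hz => hzU hz hU0, ?_⟩
    constructor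
    · push_cast
      rw [← hP]
      calc ((b2 : ZMod q) ^ (2 * m) * (e : ZMod q)) ^ n
          = ((b2 : ZMod q) ^ (2 * m)) ^ n * (e : ZMod q) ^ n := by rw [mul_pow]
        _ = ((b2 : ZMod q) ^ (2 * m)) ^ n * (P * ((δ : ZMod q) * V ^ 2) ^ m) ^ n := by
            rw [hF']
        _ = P ^ n * ((δ : ZMod q) ^ n) ^ m * (((b2 : ZMod q) * V) ^ n) ^ (2 * m) := by
            ring
        _ = P ^ n * (((δ.natAbs : ℕ) : ZMod q) ^ n) ^ m *
            ((b1 : ZMod q) ^ n) ^ (2 * m) := by rw [hδn, hV']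
        _ = _ := by ring
    · push_cast
      calc ((b2 : ZMod q) ^ (2 * m) * (h : ZMod q)) ^ n
          = ((b2 : ZMod q) ^ (2 * m)) ^ n * (h : ZMod q) ^ n := by rw [mul_pow]
        _ = ((b2 : ZMod q) ^ (2 * m)) ^ n * (((δ : ZMod q) * V ^ 2) ^ m) ^ n := by
            rw [hG']
        _ = ((δ : ZMod q) ^ n) ^ m * (((b2 : ZMod q) * V) ^ n) ^ (2 * m) := by
            ring
        _ = (((δ.natAbs : ℕ) : ZMod q) ^ n) ^ m *
            ((b1 : ZMod q) ^ n) ^ (2 * m) := by rw [hδn, hV']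
        _ = _ := by ring
  have hU' := hU.resolve_left hU0
  by_cases hV0 : V = 0
  · right; left
    rw [hV0] at hFF hGG
    rw [(FG_v0 (δ : ZMod q) U m).1] at hFF
    rw [(FG_v0 (δ : ZMod q) U m).2] at hGG
    have hne0 : U ^ (2 * m) ≠ 0 := pow_ne_zero _ hU0
    have hne : (2 * (m : ZMod q) + 1) * U ^ (2 * m) ≠ 0 := mul_ne_zero hp0 hne0
    have hG' := hGG.resolve_left hne
    have hF' := hFF.resolve_left hne0
    rw [← hP] at hG'
    refine ⟨fun hz => hzV hz hV0, ?_⟩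
    constructor
    · push_cast
      calc ((a2 : ZMod q) ^ (2 * m) * (e : ZMod q)) ^ n
          = ((a2 : ZMod q) ^ (2 * m)) ^ n * (e : ZMod q) ^ n := by rw [mul_pow]
        _ = ((a2 : ZMod q) ^ (2 * m)) ^ n * (U ^ (2 * m)) ^ n := by rw [hF']
        _ = (((a2 : ZMod q) * U) ^ n) ^ (2 * m) := by ring
        _ = _ := by rw [hU']; ring
    · push_cast
      rw [← hP]
      calc ((a2 : ZMod q) ^ (2 * m) * (h : ZMod q)) ^ n
          = ((a2 : ZMod q) ^ (2 * m)) ^ n * (h : ZMod q) ^ n := by rw [mul_pow]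
        _ = ((a2 : ZMod q) ^ (2 * m)) ^ n * (P * U ^ (2 * m)) ^ n := by rw [hG']
        _ = P ^ n * (((a2 : ZMod q) * U) ^ n) ^ (2 * m) := by ring
        _ = _ := by rw [hU']; ring
  right; right
  have hV' := hV.resolve_left hV0
  obtain ⟨t, ht⟩ : ∃ t, t = V / U := ⟨_, rfl⟩
  have hVt : V = U * t := by rw [ht]; field_simp
  have hFt : Fh (δ : ZMod q) U V m = U ^ (2 * m) * Fh (δ : ZMod q) 1 t m := by
    have := (hom_FG (δ : ZMod q) 1 t U m).1
    rw [mul_one, ← hVt] at this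
    exact this
  have hGt : Gh (δ : ZMod q) U V m = U ^ (2 * m) * Gh (δ : ZMod q) 1 t m := by
    have := (hom_FG (δ : ZMod q) 1 t U m).2
    rw [mul_one, ← hVt] at this
    exact this
  have hUp : U ^ (2 * m) ≠ 0 := pow_ne_zero _ hU0
  have htn : (((b2 * a1 : ℕ) : ZMod q) * t) ^ n = ((b1 * a2 : ℕ) : ZMod q) ^ n := by
    push_cast
    calc ((b2 : ZMod q) * a1 * t) ^ n = (a1 : ZMod q) ^ n * ((b2 : ZMod q) * t) ^ n := by ring
      _ = ((a2 : ZMod q) * U) ^ n * ((b2 : ZMod q) * t) ^ n := by rw [hU']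
      _ = (a2 : ZMod q) ^ n * ((b2 : ZMod q) * (U * t)) ^ n := by ring
      _ = ((b1 : ZMod q) * a2) ^ n := by rw [← hVt, hV']; ring
  by_cases hf0 : Fh (δ : ZMod q) U V m = 0
  · left
    refine ⟨t, ?_, htn⟩
    rw [aeval_fp]
    rw [hFt] at hf0
    exact (mul_eq_zero.mp hf0).resolve_left hUp
  right
  by_cases hg0 : Gh (δ : ZMod q) U V m = 0
  · left
    refine ⟨t, ?_, htn⟩
    rw [aeval_gp]
    rw [hGt] at hg0
    exact (mul_eq_zero.mp hg0).resolve_left hUp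
  right
  have hF' := hFF.resolve_left hf0
  have hG' := hGG.resolve_left hg0
  refine ⟨t, hE t hVt, ?_⟩
  intro i
  have h3cases : i = 0 ∨ i = 1 ∨ i = 2 := by
    fin_cases i <;> simp
  rcases h3cases with rfl | rfl | rfl
  · rw [ph_zero]
    simp only [cc, Matrix.cons_val_zero, Int.cast_natCast]
    rw [← htn]
    push_cast
    rfl
  · rw [ph_one]
    simp only [cc, Matrix.cons_val_zero, Matrix.cons_val_one, Int.cast_natCast]
    push_cast
    calc ((a1 : ZMod q) ^ (2 * m) * Fh (δ : ZMod q) 1 t m) ^ n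
        = ((a1 : ZMod q) ^ n) ^ (2 * m) * Fh (δ : ZMod q) 1 t m ^ n := by ring
      _ = (((a2 : ZMod q) * U) ^ n) ^ (2 * m) * Fh (δ : ZMod q) 1 t m ^ n := by rw [hU']
      _ = ((a2 : ZMod q) ^ (2 * m)) ^ n * (U ^ (2 * m) * Fh (δ : ZMod q) 1 t m) ^ n := by ring
      _ = _ := by rw [← hFt, hF']; ring
  · rw [ph_two]
    simp only [cc, Matrix.cons_val_two, Matrix.tail_cons, Matrix.head_cons, Int.cast_natCast]
    push_cast
    calc ((a1 : ZMod q) ^ (2 * m) * Gh (δ : ZMod q) 1 t m) ^ n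
        = ((a1 : ZMod q) ^ n) ^ (2 * m) * Gh (δ : ZMod q) 1 t m ^ n := by ring
      _ = (((a2 : ZMod q) * U) ^ n) ^ (2 * m) * Gh (δ : ZMod q) 1 t m ^ n := by rw [hU']
      _ = ((a2 : ZMod q) ^ (2 * m)) ^ n * (U ^ (2 * m) * Gh (δ : ZMod q) 1 t m) ^ n := by ring
      _ = _ := by rw [← hGt, hG']; ring



/-- the forms have small coefficients -/
lemma L1_fgp' (δ : ℤ) (D : ℕ) (hδ : δ.natAbs ≤ D) (hD : 1 ≤ D) (m : ℕ) :
    L1 (fp δ m) ≤ (4 * D) ^ m ∧ L1 (gp δ m) ≤ (4 * D) ^ m := by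
  have hDr : (1 : ℝ) ≤ D := by exact_mod_cast hD
  have hd : |(δ : ℝ)| ≤ D := by
    have : ((δ.natAbs : ℕ) : ℝ) = |(δ : ℝ)| := by rw [Nat.cast_natAbs]; push_cast; rfl
    rw [← this]
    exact_mod_cast hδ
  have hX : ∀ (c : ℤ) (P : ℤ[X]), L1 (C c * (P * X ^ 2)) ≤ |(c : ℝ)| * L1 P := by
    intro c P
    have e : C c * (P * X ^ 2) = monomial 2 c * P := by
      rw [← C_mul_X_pow_eq_monomial]
      ring
    rw [e]
    exact L1_monomial_mul 2 c P
  have hC : ∀ (c : ℤ) (P : ℤ[X]), L1 (C c * P) ≤ |(c : ℝ)| * L1 P := by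
    intro c P
    rw [← monomial_zero_left]
    exact L1_monomial_mul 0 c P
  induction m with
  | zero =>
    constructor
    · have : fp δ 0 = 1 := rfl
      rw [this, L1_one, pow_zero]
    · have : gp δ 0 = 1 := rfl
      rw [this, L1_one, pow_zero]
  | succ m ih =>
    obtain ⟨h1, h2⟩ := ih
    have e1 : fp δ (m + 1) = fp δ m + C δ * (fp δ m * X ^ 2) + C (2 * δ) * (gp δ m * X ^ 2) := by
      unfold fp gp
      rw [Fh_succ, C_mul]
      have : (C (2 : ℤ) : ℤ[X]) = 2 := rfl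
      rw [this]
      ring
    have e2 : gp δ (m + 1) = gp δ m + C δ * (gp δ m * X ^ 2) + C 2 * fp δ m := by
      unfold fp gp
      rw [Gh_succ]
      have : (C (2 : ℤ) : ℤ[X]) = 2 := rfl
      rw [this]
      ring
    have h2d : |((2 * δ : ℤ) : ℝ)| ≤ 2 * D := by
      push_cast
      rw [abs_mul]
      have : |(2 : ℝ)| = 2 := by norm_num
      rw [this]
      linarith
    have n1 := L1_nonneg (fp δ m)
    have n2 := L1_nonneg (gp δ m)
    have hP : (0 : ℝ) ≤ (4 * D) ^ m := by positivity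
    have hDP : (4 * (D : ℝ)) ^ m ≤ (4 * D) ^ m * D := le_mul_of_one_le_right hP hDr
    have k5 : ∀ x y z : ℝ, 0 ≤ y → x ≤ z → y ≤ (4 * (D : ℝ)) ^ m → 0 ≤ z → x * y ≤ z * (4 * D) ^ m := by
      intro x y z hy hx hy2 hz
      exact (mul_le_mul_of_nonneg_right hx hy).trans (mul_le_mul_of_nonneg_left hy2 hz)
    constructor
    · rw [e1, show (4 * (D : ℝ)) ^ (m + 1) = (4 * D) ^ m * (4 * D) from pow_succ _ _]
      have k1 := L1_add (fp δ m + C δ * (fp δ m * X ^ 2)) (C (2 * δ) * (gp δ m * X ^ 2))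
      have k2 := L1_add (fp δ m) (C δ * (fp δ m * X ^ 2))
      have k3 := (hX δ (fp δ m)).trans (k5 _ _ D n1 hd h1 (by linarith))
      have k4 := (hX (2 * δ) (gp δ m)).trans (k5 _ _ (2 * D) n2 h2d h2 (by linarith))
      nlinarith
    · rw [e2, show (4 * (D : ℝ)) ^ (m + 1) = (4 * D) ^ m * (4 * D) from pow_succ _ _]
      have k1 := L1_add (gp δ m + C δ * (gp δ m * X ^ 2)) (C 2 * fp δ m)
      have k2 := L1_add (gp δ m) (C δ * (gp δ m * X ^ 2))
      have k3 := (hX δ (gp δ m)).trans (k5 _ _ D n2 hd h2 (by linarith))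
      have k4 := hC 2 (fp δ m)
      have h2' : |((2 : ℤ) : ℝ)| = 2 := by norm_num
      rw [h2'] at k4
      nlinarith

/-- the size of a polynomial -/
lemma sz_fgp' (δ : ℤ) (D : ℕ) (hδ : δ.natAbs ≤ D) (hD : 1 ≤ D) (L : ℝ) (hL : Real.log D ≤ L)
    (m : ℕ) (hf : fp δ m ≠ 0) (hg : gp δ m ≠ 0) :
    sz (fp δ m) ≤ m * (4 + L) ∧ sz (gp δ m) ≤ m * (4 + L) := by
  have hDr : (1 : ℝ) ≤ D := by exact_mod_cast hD
  obtain ⟨h1, h2⟩ := L1_fgp' δ D hδ hD m
  obtain ⟨d1, d2, -, -⟩ := fgp_deg δ m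
  have key : ∀ P : ℤ[X], P ≠ 0 → P.natDegree ≤ 2 * m → L1 P ≤ (4 * D) ^ m →
      sz P ≤ m * (4 + L) := by
    intro P hP hd hL'
    unfold sz
    have h3 := one_le_Mm hP
    have h4 := (Mm_le_L1 P).trans hL'
    have h5 := Real.log_le_log (by linarith) h4
    rw [Real.log_pow, Real.log_mul (by norm_num) (by linarith)] at h5
    have h6 : (m : ℝ) * (Real.log 4 + Real.log D) ≤ m * (2 + L) :=
      mul_le_mul_of_nonneg_left (by have := log_four_two; linarith) (Nat.cast_nonneg m)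
    have h7 : (P.natDegree : ℝ) ≤ 2 * m := by exact_mod_cast hd
    linarith
  exact ⟨key _ hf d1 h1, key _ hg d2 h2⟩

/-- the complexity of the three polynomials and constants -/
lemma Ac_ph' (δ : ℤ) (m a1 b2 c0 c1 c2 T : ℕ) (L : ℝ) (hT : 1 ≤ T) (hδ : δ.natAbs ≤ T)
    (hL : Real.log T ≤ L)
    (ha1 : a1 ≤ T) (hb2 : b2 ≤ T) (h0 : c0 ≤ T ^ 2) (h1 : c1 ≤ T ^ (2 * m + 1))
    (h2 : c2 ≤ T ^ (2 * m + 1)) :
    Ac (ph δ m a1 b2) (cc c0 c1 c2) ≤ 12 * (m + 1) * (L + 2) := by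
  have hTr : (1 : ℝ) ≤ T := by exact_mod_cast hT
  have hL0 : 0 ≤ L := (Real.log_nonneg hTr).trans hL
  obtain ⟨l1, l2⟩ := L1_fgp' δ T hδ hT m
  obtain ⟨d1, d2, -, -⟩ := fgp_deg δ m
  have h4 : (1 : ℝ) ≤ (4 * T) ^ m := one_le_pow₀ (by linarith)
  -- bounds for the factors
  have hT2 : (1 : ℝ) ≤ (T : ℝ) ^ 2 := one_le_pow₀ hTr
  have hT2m : (1 : ℝ) ≤ (T : ℝ) ^ (2 * m) := one_le_pow₀ hTr
  have hT2m1 : (1 : ℝ) ≤ (T : ℝ) ^ (2 * m + 1) := one_le_pow₀ hTr
  have e0 : max 1 (L1 (ph δ m a1 b2 0)) ≤ (T : ℝ) ^ 2 := by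
    apply max_le hT2
    have : ph δ m a1 b2 0 = monomial 1 ((b2 * a1 : ℕ) : ℤ) := by
      simp only [ph, Matrix.cons_val_zero]
      rw [C_mul_X_eq_monomial]
    rw [this, L1_monomial, Int.cast_natCast, Nat.abs_cast, pow_two]
    push_cast
    exact mul_le_mul (by exact_mod_cast hb2) (by exact_mod_cast ha1) (Nat.cast_nonneg _) (by positivity)
  have ha1m : |(((a1 ^ (2 * m) : ℕ) : ℤ) : ℝ)| ≤ (T : ℝ) ^ (2 * m) := by
    rw [Int.cast_natCast, Nat.abs_cast]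
    exact_mod_cast Nat.pow_le_pow_left ha1 _
  have e1 : max 1 (L1 (ph δ m a1 b2 1)) ≤ (T : ℝ) ^ (2 * m) * (4 * T) ^ m := by
    apply max_le
    · exact one_le_mul_of_one_le_of_one_le hT2m h4
    · simp only [ph, Matrix.cons_val_one, Matrix.cons_val_zero]
      exact (L1_C_mul _ _).trans (mul_le_mul ha1m l1 (L1_nonneg _) (by positivity))
  have e2 : max 1 (L1 (ph δ m a1 b2 2)) ≤ (T : ℝ) ^ (2 * m) * (4 * T) ^ m := by
    apply max_le
    · exact one_le_mul_of_one_le_of_one_le hT2m h4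
    · simp only [ph, Matrix.cons_val_two, Matrix.tail_cons, Matrix.head_cons]
      exact (L1_C_mul _ _).trans (mul_le_mul ha1m l2 (L1_nonneg _) (by positivity))
  have f0 : max 1 (L1 (C (cc c0 c1 c2 0))) ≤ (T : ℝ) ^ 2 := by
    apply max_le hT2
    simp only [cc, Matrix.cons_val_zero]
    rw [L1_C, Int.cast_natCast, Nat.abs_cast]
    exact_mod_cast h0
  have f1 : max 1 (L1 (C (cc c0 c1 c2 1))) ≤ (T : ℝ) ^ (2 * m + 1) := by
    apply max_le hT2m1
    simp only [cc, Matrix.cons_val_one, Matrix.cons_val_zero]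
    rw [L1_C, Int.cast_natCast, Nat.abs_cast]
    exact_mod_cast h1
  have f2 : max 1 (L1 (C (cc c0 c1 c2 2))) ≤ (T : ℝ) ^ (2 * m + 1) := by
    apply max_le hT2m1
    simp only [cc, Matrix.cons_val_two, Matrix.tail_cons, Matrix.head_cons]
    rw [L1_C, Int.cast_natCast, Nat.abs_cast]
    exact_mod_cast h2
  have hpos : ∀ x : ℝ, 0 < max 1 x := fun x => lt_of_lt_of_le one_pos (le_max_left _ _)
  have hBc : Bc (ph δ m a1 b2) (cc c0 c1 c2) ≤
      ((T : ℝ) ^ 2 * (T : ℝ) ^ 2) * (((T : ℝ) ^ (2 * m) * (4 * T) ^ m) * (T : ℝ) ^ (2 * m + 1)) *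
      (((T : ℝ) ^ (2 * m) * (4 * T) ^ m) * (T : ℝ) ^ (2 * m + 1)) := by
    unfold Bc
    rw [Fin.prod_univ_three]
    have g0 := mul_le_mul e0 f0 (hpos _).le (by positivity)
    have g1 := mul_le_mul e1 f1 (hpos _).le (by positivity)
    have g2 := mul_le_mul e2 f2 (hpos _).le (by positivity)
    have p0 := mul_pos (hpos (L1 (ph δ m a1 b2 0))) (hpos (L1 (C (cc c0 c1 c2 0))))
    have p1 := mul_pos (hpos (L1 (ph δ m a1 b2 1))) (hpos (L1 (C (cc c0 c1 c2 1))))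
    have p2 := mul_pos (hpos (L1 (ph δ m a1 b2 2))) (hpos (L1 (C (cc c0 c1 c2 2))))
    exact mul_le_mul (mul_le_mul g0 g1 p1.le (by positivity)) g2 p2.le (by positivity)
  have hlog : Real.log (2 * Bc (ph δ m a1 b2) (cc c0 c1 c2)) ≤ 1 + (10 * m + 6) * L + 4 * m := by
    have hB1 := one_le_Bc (ph δ m a1 b2) (cc c0 c1 c2)
    rw [Real.log_mul (by norm_num) (by linarith)]
    have h3 := Real.log_le_log (by linarith) hBc
    have h5 : ((T : ℝ) ^ 2 * (T : ℝ) ^ 2) * (((T : ℝ) ^ (2 * m) * (4 * T) ^ m) * (T : ℝ) ^ (2 * m + 1)) *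
      (((T : ℝ) ^ (2 * m) * (4 * T) ^ m) * (T : ℝ) ^ (2 * m + 1)) =
        (T : ℝ) ^ (10 * m + 6) * 4 ^ (2 * m) := by
      ring
    rw [h5, Real.log_mul (by positivity) (by positivity), Real.log_pow, Real.log_pow] at h3
    have h6 : ((10 * m + 6 : ℕ) : ℝ) * Real.log T ≤ ((10 * m + 6 : ℕ) : ℝ) * L :=
      mul_le_mul_of_nonneg_left hL (Nat.cast_nonneg _)
    have h7 : ((2 * m : ℕ) : ℝ) * Real.log 4 ≤ ((2 * m : ℕ) : ℝ) * 2 :=
      mul_le_mul_of_nonneg_left log_four_two (Nat.cast_nonneg _)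
    push_cast at h3 h6 h7
    have := log_two_one
    linarith
  have hdeg : ((∑ i, (ph δ m a1 b2 i).natDegree : ℕ) : ℝ) ≤ 4 * m + 1 := by
    rw [Fin.sum_univ_three]
    have g0 : (ph δ m a1 b2 0).natDegree ≤ 1 := by
      simp only [ph, Matrix.cons_val_zero]
      exact (natDegree_C_mul_le _ _).trans natDegree_X_le
    have g1 : (ph δ m a1 b2 1).natDegree ≤ 2 * m := by
      simp only [ph, Matrix.cons_val_one, Matrix.cons_val_zero]
      exact (natDegree_C_mul_le _ _).trans d1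
    have g2 : (ph δ m a1 b2 2).natDegree ≤ 2 * m := by
      simp only [ph, Matrix.cons_val_two, Matrix.tail_cons, Matrix.head_cons]
      exact (natDegree_C_mul_le _ _).trans d2
    have : (ph δ m a1 b2 0).natDegree + (ph δ m a1 b2 1).natDegree + (ph δ m a1 b2 2).natDegree ≤
        4 * m + 1 := by omega
    exact_mod_cast this
  unfold Ac
  have hm0 : (0 : ℝ) ≤ m := Nat.cast_nonneg m
  nlinarith [mul_nonneg hm0 hL0]

end Pool.Agent.H573.AHB
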