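import Pool.Agent.H573.AHB.TuA

/-!
The count of bad primes with explicit constants, for general `δ`.
-/

set_option autoImplicit false

namespace Pool.Agent.H573.AHB

open Polynomial

/-- **Core theorem, explicit**, general `δ`. -/
theorem ucount_badF' (δ : ℤ) (hδ0 : δ ≠ 0) (m a1 a2 b1 b2 e h T : ℕ) (L : ℝ) (zU zV : Prop)
    (E : ℤ[X]) (hm : 1 ≤ m) (ha1 : 1 ≤ a1) (ha2 : 1 ≤ a2) (hb1 : 1 ≤ b1) (hb2 : 1 ≤ b2)
    (he : 1 ≤ e) (hh : 1 ≤ h) (ta1 : a1 ≤ T) (ta2 : a2 ≤ T) (tb1 : b1 ≤ T) (tb2 : b2 ≤ T)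
    (te : e ≤ T) (th : h ≤ T) (tδ : δ.natAbs ≤ T) (hL : Real.log T ≤ L)
    (hp : (2 * m + 1).Prime) (hpδ : ¬ ((2 * m + 1 : ℕ) : ℤ) ∣ δ) (q0 : ℕ) (qm : 2 * m + 1 ≤ q0)
    (hnz : ∀ q : ℕ, q.Prime → q0 < q → ((a1 : ℕ) : ZMod q) ≠ 0 ∧ ((a2 : ℕ) : ZMod q) ≠ 0 ∧
      ((b1 : ℕ) : ZMod q) ≠ 0 ∧ ((b2 : ℕ) : ZMod q) ≠ 0 ∧ ((e : ℕ) : ZMod q) ≠ 0 ∧
      ((h : ℕ) : ZMod q) ≠ 0 ∧ (δ : ZMod q) ≠ 0)
    (HT : ∀ z : ℂ, aeval z E ≠ 0 → ∃ i, ∀ N : ℕ, 1 ≤ N → (aeval z (ph δ m a1 b2 i)) ^ N ≠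
      ((cc (b1 * a2) (a2 ^ (2 * m) * e) (a2 ^ (2 * m) * h) i : ℤ) : ℂ) ^ N)
    (N1 : zU ∨ (b2 ^ (2 * m) * e ≠ (2 * m + 1) * δ.natAbs ^ m * b1 ^ (2 * m) ∨
      b2 ^ (2 * m) * h ≠ δ.natAbs ^ m * b1 ^ (2 * m)))
    (N2 : zV ∨ (a2 ^ (2 * m) * e ≠ a1 ^ (2 * m) ∨ a2 ^ (2 * m) * h ≠ (2 * m + 1) * a1 ^ (2 * m))) :
    UCount (BadF δ m a1 a2 b1 b2 e h zU zV E) (3000000 * ((m + 1) * (L + 2)) ^ 2) q0 := by
  classical
  have hT : 1 ≤ T := ha1.trans ta1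
  have hTr : (1 : ℝ) ≤ T := by exact_mod_cast hT
  have hL0 : 0 ≤ L := (Real.log_nonneg hTr).trans hL
  have hm1 : (0 : ℝ) ≤ m := Nat.cast_nonneg m
  have hδn : 1 ≤ δ.natAbs := by omega
  obtain ⟨Y, hY⟩ : ∃ Y : ℝ, Y = (m + 1) * (L + 2) := ⟨_, rfl⟩
  have hY2 : 2 ≤ Y := by
    rw [hY]
    nlinarith [mul_nonneg hm1 hL0]
  -- the sizes
  have hpow : ∀ x y k : ℕ, x ≤ T → y ≤ T → x ^ (2 * m) * y ≤ T ^ (2 * m + 1) := by
    intro x y _ hx hy
    rw [pow_succ]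
    exact Nat.mul_le_mul (Nat.pow_le_pow_left hx _) hy
  have hpow1 : ∀ x : ℕ, x ≤ T → x ^ (2 * m) ≤ T ^ (2 * m + 1) := by
    intro x hx
    exact (Nat.pow_le_pow_left hx _).trans (Nat.pow_le_pow_right hT (by omega))
  have hle1 : ∀ x : ℕ, x ≤ T ^ (2 * m + 1) → x ≤ (2 * m + 1) * T ^ (2 * m + 1) := fun x hx =>
    hx.trans (Nat.le_mul_of_pos_left _ (by omega))
  have hle2 : ∀ x : ℕ, x ≤ (2 * m + 1) * T ^ (2 * m + 1) → x ≤ (2 * m + 1) * T ^ (3 * m + 1) :=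
    fun x hx => hx.trans (Nat.mul_le_mul_left _ (Nat.pow_le_pow_right hT (by omega)))
  have hδb : ∀ x : ℕ, x ≤ T → δ.natAbs ^ m * x ^ (2 * m) ≤ T ^ (3 * m + 1) := by
    intro x hx
    calc δ.natAbs ^ m * x ^ (2 * m) ≤ T ^ m * T ^ (2 * m) :=
          Nat.mul_le_mul (Nat.pow_le_pow_left tδ _) (Nat.pow_le_pow_left hx _)
      _ = T ^ (3 * m) := by rw [← pow_add]; congr 1; ring
      _ ≤ T ^ (3 * m + 1) := Nat.pow_le_pow_right hT (by omega)
  have hsum : ∀ A B : ℕ, 1 ≤ A → A ≤ (2 * m + 1) * T ^ (3 * m + 1) →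
      B ≤ (2 * m + 1) * T ^ (3 * m + 1) → Real.log (A + B) ≤ 4 * Y := by
    intro A B hA0 hA hB
    have h1 : ((A + B : ℕ) : ℝ) ≤ 2 * ((2 * m + 1 : ℕ) : ℝ) * (T : ℝ) ^ (3 * m + 1) := by
      have : A + B ≤ 2 * (2 * m + 1) * T ^ (3 * m + 1) := by
        rw [mul_assoc]
        omega
      exact_mod_cast this
    have h2 : (0 : ℝ) < ((A + B : ℕ) : ℝ) := by exact_mod_cast (by omega : 0 < A + B)
    have h3 := Real.log_le_log h2 h1
    have hT0 : (0 : ℝ) < (T : ℝ) ^ (3 * m + 1) := by positivity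
    have hm0 : (0 : ℝ) < ((2 * m + 1 : ℕ) : ℝ) := by exact_mod_cast (by omega : 0 < 2 * m + 1)
    rw [Real.log_mul (by positivity) (by positivity), Real.log_mul (by norm_num) (by positivity),
      Real.log_pow] at h3
    have h4 := log_nat_le (2 * m + 1)
    have h5 : ((3 * m + 1 : ℕ) : ℝ) * Real.log T ≤ ((3 * m + 1 : ℕ) : ℝ) * L :=
      mul_le_mul_of_nonneg_left hL (Nat.cast_nonneg _)
    have h6 := log_two_one
    rw [hY]
    push_cast at h3 h4 h5 ⊢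
    nlinarith [mul_nonneg hm1 hL0]
  have s1 := ucount_pair zU (b2 ^ (2 * m) * e) ((2 * m + 1) * δ.natAbs ^ m * b1 ^ (2 * m))
    (b2 ^ (2 * m) * h) (δ.natAbs ^ m * b1 ^ (2 * m))
    (Nat.mul_pos (by positivity) (by omega))
    (Nat.mul_pos (Nat.mul_pos (by omega) (pow_pos hδn _)) (by positivity))
    (Nat.mul_pos (by positivity) (by omega))
    (Nat.mul_pos (pow_pos hδn _) (by positivity)) N1 q0 (4 * Y) (by linarith)
    (hsum _ _ (Nat.mul_pos (by positivity) (by omega)) (hle2 _ (hle1 _ (hpow _ _ 0 tb2 te))) (by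
      rw [mul_assoc]
      exact Nat.mul_le_mul_left _ (hδb _ tb1)))
    (hsum _ _ (Nat.mul_pos (by positivity) (by omega)) (hle2 _ (hle1 _ (hpow _ _ 0 tb2 th)))
      ((hδb _ tb1).trans (Nat.le_mul_of_pos_left _ (by omega))))
  have s2 := ucount_pair zV (a2 ^ (2 * m) * e) (a1 ^ (2 * m)) (a2 ^ (2 * m) * h)
    ((2 * m + 1) * a1 ^ (2 * m)) (Nat.mul_pos (by positivity) (by omega)) (by
      exact Nat.one_le_pow _ _ ha1)
    (Nat.mul_pos (by positivity) (by omega))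
    (Nat.mul_pos (by omega) (by positivity)) N2 q0 (4 * Y) (by linarith)
    (hsum _ _ (Nat.mul_pos (by positivity) (by omega)) (hle2 _ (hle1 _ (hpow _ _ 0 ta2 te)))
      (hle2 _ (hle1 _ (hpow1 _ ta1))))
    (hsum _ _ (Nat.mul_pos (by positivity) (by omega)) (hle2 _ (hle1 _ (hpow _ _ 0 ta2 th)))
      (hle2 _ (Nat.mul_le_mul_left _ (hpow1 _ ta1))))
  have hf1 : (fp δ m).coeff 0 = 1 := by
    have h3 := aeval_fp (0 : ℤ) δ m
    rw [Int.cast_id, (FG_v0 δ 1 m).1, one_pow] at h3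
    rw [coeff_zero_eq_aeval_zero]
    exact h3
  have hfne : fp δ m ≠ 0 := by
    intro h0
    rw [h0] at hf1
    simp at hf1
  have hfq : ∀ q : ℕ, q.Prime → ¬ C (q : ℤ) ∣ fp δ m := by
    intro q hq hd
    have h3 := (C_dvd_iff_dvd_coeff _ _).mp hd 0
    rw [hf1] at h3
    have h4 : (q : ℤ) ∣ ((1 : ℕ) : ℤ) := by simpa using h3
    have h5 := Int.natCast_dvd_natCast.mp h4
    have := hq.one_lt
    have := Nat.le_of_dvd one_pos h5
    omega
  have hgm : (gp δ m).coeff (2 * m) = δ ^ m := (fgp_deg δ m).2.2.2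
  have hg0 : (gp δ m).coeff 0 = 2 * m + 1 := by
    have h3 := aeval_gp (0 : ℤ) δ m
    rw [Int.cast_id, (FG_v0 δ 1 m).2, one_pow, mul_one] at h3
    rw [coeff_zero_eq_aeval_zero]
    exact h3
  have hgne : gp δ m ≠ 0 := by
    intro h0
    rw [h0] at hg0
    simp at hg0
    omega
  have hgq : ∀ q : ℕ, q.Prime → ¬ C (q : ℤ) ∣ gp δ m := by
    intro q hq hd
    have h3 := (C_dvd_iff_dvd_coeff _ _).mp hd 0
    have h4 := (C_dvd_iff_dvd_coeff _ _).mp hd (2 * m)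
    rw [hg0] at h3
    rw [hgm] at h4
    have h5 : ((q : ℕ) : ℤ) ∣ ((2 * m + 1 : ℕ) : ℤ) := by
      push_cast
      exact h3
    have h6 := Int.natCast_dvd_natCast.mp h5
    have h7 := (Nat.prime_dvd_prime_iff_eq hq hp).mp h6
    have h8 := (Nat.prime_iff_prime_int.mp hq).dvd_of_dvd_pow h4
    rw [h7] at h8
    exact hpδ h8
  obtain ⟨z1, z2⟩ := sz_fgp' δ T tδ hT L hL m hfne hgne
  have hab : ∀ x y : ℕ, x ≤ T → y ≤ T → ((x * y : ℕ) : ℝ) ≤ (T : ℝ) ^ 2 := by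
    intro x y hx hy
    rw [pow_two]
    exact_mod_cast Nat.mul_le_mul hx hy
  have hrt : ∀ P : ℤ[X], P ≠ 0 → sz P ≤ m * (4 + L) →
      (Real.log (2 * (((b2 * a1 : ℕ) : ℝ) + ((b1 * a2 : ℕ) : ℝ))) + 1) * sz P / Real.log 2 ≤
        8 * Y ^ 2 := by
    intro P hP hs
    have hs0 := sz_nonneg hP
    have g1 := hab b2 a1 tb2 ta1
    have g2 := hab b1 a2 tb1 ta2
    have g0 : (1 : ℝ) ≤ ((b2 * a1 : ℕ) : ℝ) := by exact_mod_cast Nat.mul_pos hb2 ha1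
    have g0' : (1 : ℝ) ≤ ((b1 * a2 : ℕ) : ℝ) := by exact_mod_cast Nat.mul_pos hb1 ha2
    have g3 : Real.log (2 * (((b2 * a1 : ℕ) : ℝ) + ((b1 * a2 : ℕ) : ℝ))) ≤ 2 + 2 * L := by
      have g4 := Real.log_le_log (by linarith)
        (show 2 * (((b2 * a1 : ℕ) : ℝ) + ((b1 * a2 : ℕ) : ℝ)) ≤ 4 * (T : ℝ) ^ 2 by linarith)
      have g4' : Real.log (4 * (T : ℝ) ^ 2) = Real.log 4 + 2 * Real.log T := by
        rw [Real.log_mul (by norm_num) (by positivity), Real.log_pow]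
        norm_num
      rw [g4'] at g4
      have := log_four_two
      linarith
    have hl2 := log_two_half
    have g5 : 0 ≤ Real.log (2 * (((b2 * a1 : ℕ) : ℝ) + ((b1 * a2 : ℕ) : ℝ))) :=
      Real.log_nonneg (by linarith)
    rw [div_le_iff₀ (by linarith)]
    have g6 : (Real.log (2 * (((b2 * a1 : ℕ) : ℝ) + ((b1 * a2 : ℕ) : ℝ))) + 1) * sz P ≤
        (2 * L + 3) * (m * (4 + L)) := by
      apply mul_le_mul _ hs hs0 (by linarith)
      linarith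
    have g7 : (2 * L + 3) * (m * (4 + L)) ≤ 4 * Y ^ 2 := by
      rw [hY]
      have e1 : (2 * L + 3) * (m * (4 + L)) ≤ 4 * (m * (L + 2) ^ 2) := by
        nlinarith [mul_nonneg hm1 hL0, mul_nonneg hm1 (mul_nonneg hL0 hL0)]
      have e2 : (m : ℝ) * (L + 2) ^ 2 ≤ ((m + 1) * (L + 2)) ^ 2 := by
        rw [mul_pow]
        apply mul_le_mul_of_nonneg_right _ (by positivity)
        nlinarith
      linarith
    have hY0 : 0 ≤ Y ^ 2 := sq_nonneg Y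
    nlinarith
  have s3 := (ucount_root (fp δ m) hfne hfq (b2 * a1) (b1 * a2) (Nat.mul_pos hb2 ha1)
    (Nat.mul_pos hb1 ha2) (by
    intro n hn z hz
    rw [aeval_fp] at hz
    exact no_root m hm hp δ hpδ (b2 * a1) (b1 * a2) (Nat.mul_pos hb2 ha1) (Nat.mul_pos hb1 ha2)
      n hn z (Or.inl hz)) q0).weak (hrt _ hfne z1) le_rfl
  have s4 := (ucount_root (gp δ m) hgne hgq (b2 * a1) (b1 * a2) (Nat.mul_pos hb2 ha1)
    (Nat.mul_pos hb1 ha2) (by
    intro n hn z hz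
    rw [aeval_gp] at hz
    exact no_root m hm hp δ hpδ (b2 * a1) (b1 * a2) (Nat.mul_pos hb2 ha1) (Nat.mul_pos hb1 ha2)
      n hn z (Or.inr hz)) q0).weak (hrt _ hgne z2) le_rfl
  have hnz' : ∀ q : ℕ, q.Prime → q0 < q → (((b1 * a2 : ℕ) : ZMod q) ≠ 0) ∧
      (((a2 ^ (2 * m) * e : ℕ) : ZMod q) ≠ 0) ∧ (((a2 ^ (2 * m) * h : ℕ) : ZMod q) ≠ 0) := by
    intro q hq hlt
    have hF : Fact q.Prime := ⟨hq⟩
    obtain ⟨-, g1, g2, -, g3, g4, -⟩ := hnz q hq hlt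
    refine ⟨?_, ?_, ?_⟩
    · push_cast
      exact mul_ne_zero g2 g1
    · push_cast
      exact mul_ne_zero (pow_ne_zero _ g1) g3
    · push_cast
      exact mul_ne_zero (pow_ne_zero _ g1) g4
  have h5 := count_primesE (r := 3) (by norm_num) (ph δ m a1 b2)
    (cc (b1 * a2) (a2 ^ (2 * m) * e) (a2 ^ (2 * m) * h)) (by
      intro i
      have e1 : 1 ≤ b1 * a2 := Nat.mul_pos hb1 ha2
      have e2 : 1 ≤ a2 ^ (2 * m) * e := Nat.mul_pos (by positivity) he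
      have e3 : 1 ≤ a2 ^ (2 * m) * h := Nat.mul_pos (by positivity) hh
      have h3cases : i = 0 ∨ i = 1 ∨ i = 2 := by
        fin_cases i <;> simp
      rcases h3cases with rfl | rfl | rfl
      · simp only [cc, Matrix.cons_val_zero]
        exact_mod_cast (by omega : b1 * a2 ≠ 0)
      · simp only [cc, Matrix.cons_val_zero, Matrix.cons_val_one]
        exact_mod_cast (by omega : a2 ^ (2 * m) * e ≠ 0)
      · simp only [cc, Matrix.cons_val_two, Matrix.tail_cons, Matrix.head_cons]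
        exact_mod_cast (by omega : a2 ^ (2 * m) * h ≠ 0)) E q0 (by
      intro q hq hlt i
      obtain ⟨g1, g2, g3⟩ := hnz' q hq hlt
      have h3cases : i = 0 ∨ i = 1 ∨ i = 2 := by
        fin_cases i <;> simp
      rcases h3cases with rfl | rfl | rfl
      · simp only [cc, Matrix.cons_val_zero, Int.cast_natCast]
        exact g1
      · simp only [cc, Matrix.cons_val_zero, Matrix.cons_val_one, Int.cast_natCast]
        exact g2
      · simp only [cc, Matrix.cons_val_two, Matrix.tail_cons, Matrix.head_cons, Int.cast_natCast]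
        exact g3) (by
      intro q hq hlt i
      have hchar : CharP (AlgebraicClosure (ZMod q)) q :=
        charP_of_injective_algebraMap (algebraMap (ZMod q) _).injective q
      obtain ⟨n1, n2, n3, n4, n5, n6, n7⟩ := hnz q hq.out hlt
      have inj : ∀ x : ZMod q, x ≠ 0 → algebraMap (ZMod q) (AlgebraicClosure (ZMod q)) x ≠ 0 :=
        fun x hx h => hx ((map_eq_zero _).mp h)
      obtain ⟨z, hz1, hz2⟩ := ph_Hq' (AlgebraicClosure (ZMod q)) δ m a1 b2 hm (by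
          have := natCast_ne_zero_of_lt (q := q) (k := 2) (by omega) (by omega)
            (AlgebraicClosure (ZMod q))
          exact_mod_cast this) (by have := inj _ n1; rwa [map_natCast] at this)
        (by have := inj _ n4; rwa [map_natCast] at this) (by
          have := natCast_ne_zero_of_lt (q := q) (k := 2 * m + 1) (by omega) (by omega)
            (AlgebraicClosure (ZMod q))
          exact_mod_cast this) (by have := inj _ n7; rwa [map_intCast] at this) i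
      exact ⟨AlgebraicClosure (ZMod q), inferInstance, hchar, z, hz1, hz2⟩) HT
  have s5 : UCount (fun q n => ∃ t : ZMod q, aeval t E ≠ 0 ∧ ∀ i, (aeval t (ph δ m a1 b2 i)) ^ n =
      ((cc (b1 * a2) (a2 ^ (2 * m) * e) (a2 ^ (2 * m) * h) i : ℤ) : ZMod q) ^ n)
      (2239488 * Y ^ 2) q0 := by
    intro K R hR hRK hKR Q hQ
    have h6 := h5 K R hR hRK hKR Q (by
      intro q hq
      obtain ⟨g1, g2, n, g3, g4, _, t, ht1, ht2⟩ := hQ q hq
      exact ⟨g1, g2, t, n, g3, g4, ht1, ht2⟩)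
    refine h6.trans ?_
    apply mul_le_mul_of_nonneg_right _ (by positivity)
    apply mul_le_mul_of_nonneg_right _ (by positivity)
    have hAc := Ac_ph' δ m a1 b2 (b1 * a2) (a2 ^ (2 * m) * e) (a2 ^ (2 * m) * h) T L hT tδ hL ta1 tb2
      (by rw [pow_two]; exact Nat.mul_le_mul tb1 ta2) (hpow _ _ 0 ta2 te) (hpow _ _ 0 ta2 th)
    have hAc' : Ac (ph δ m a1 b2) (cc (b1 * a2) (a2 ^ (2 * m) * e) (a2 ^ (2 * m) * h)) ≤ 12 * Y := by
      rw [hY, ← mul_assoc]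
      exact hAc
    have hAc0 := Ac_nonneg (ph δ m a1 b2) (cc (b1 * a2) (a2 ^ (2 * m) * e) (a2 ^ (2 * m) * h))
    obtain ⟨a, ha⟩ : ∃ a, a = Ac (ph δ m a1 b2) (cc (b1 * a2) (a2 ^ (2 * m) * e)
      (a2 ^ (2 * m) * h)) := ⟨_, rfl⟩
    rw [← ha] at hAc' hAc0 ⊢
    have hl2 := log_two_half
    have hsq : a ^ 2 ≤ (12 * Y) ^ 2 := pow_le_pow_left₀ hAc0 hAc' 2
    have e1 : 2 ^ (3 + 1) * a * (((3 : ℕ) : ℝ) ^ (3 - 1)) / Real.log 2 * a *
        (2 * ((3 : ℕ) : ℝ) * 3 ^ (3 - 1)) = 7776 * a ^ 2 / Real.log 2 := by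
      norm_num
      ring
    rw [e1, div_le_iff₀ (by linarith)]
    nlinarith [sq_nonneg Y]
  have hall := s1.or (s2.or (s3.or (s4.or s5)))
  refine (hall.mono ?_).weak ?_ le_rfl
  · intro q n hqp hlt hne hbad
    have hF : Fact q.Prime := ⟨hqp⟩
    obtain ⟨n1, n2, n3, n4, n5, n6, n7⟩ := hnz q hqp hlt
    exact badF_cases' δ m a1 a2 b1 b2 e h zU zV E q n hqp (by
      have := natCast_ne_zero_of_lt (k := 2 * m + 1) (by omega) (by omega) (ZMod q)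
      exact_mod_cast this) n7 hne hbad
  · rw [← hY]
    nlinarith

end Pool.Agent.H573.AHB
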