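import Pool.Agent.H573.AHB.TuC

/-!
The family of all coefficients which are products of a small integer and a `T`-unit.
-/

set_option autoImplicit false

namespace Pool.Agent.H573.AHB

open Finset

/-- the positive integers up to `N` with all prime factors in `T` -/
def TUn (T : Finset ℕ) (N : ℕ) : Finset ℕ := (Icc 1 N).filter (fun n => n.primeFactors ⊆ T)

lemma mem_TUn (T : Finset ℕ) (N n : ℕ) :
    n ∈ TUn T N ↔ (1 ≤ n ∧ n ≤ N) ∧ n.primeFactors ⊆ T := by
  rw [TUn, mem_filter, mem_Icc]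

lemma card_TUn (T : Finset ℕ) (N : ℕ) : (TUn T N).card ≤ (Nat.log 2 N + 1) ^ T.card := by
  classical
  have h1 : (Fintype.piFinset (fun _ : T => range (Nat.log 2 N + 1))).card =
      (Nat.log 2 N + 1) ^ T.card := by
    rw [Fintype.card_piFinset]
    simp
  rw [← h1]
  apply Finset.card_le_card_of_injOn (fun n (p : T) => n.factorization p)
  · intro n hn
    have hn' := (mem_TUn T N n).mp (Finset.mem_coe.mp hn)
    obtain ⟨⟨hn1, hnN⟩, hT⟩ := hn'
    rw [Finset.mem_coe, Fintype.mem_piFinset]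
    intro p
    rw [mem_range, Nat.lt_succ_iff]
    by_cases hp : (p : ℕ).Prime
    · apply Nat.le_log_of_pow_le one_lt_two
      calc 2 ^ (n.factorization p) ≤ (p : ℕ) ^ (n.factorization p) :=
            Nat.pow_le_pow_left hp.two_le _
        _ ≤ n := Nat.le_of_dvd hn1 (Nat.ordProj_dvd n p)
        _ ≤ N := hnN
    · have : n.factorization (p : ℕ) = 0 := Nat.factorization_eq_zero_of_not_prime n hp
      simp only [this]
      exact Nat.zero_le _
  · intro n hn n' hn' h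
    have g := (mem_TUn T N n).mp (Finset.mem_coe.mp hn)
    have g' := (mem_TUn T N n').mp (Finset.mem_coe.mp hn')
    apply Nat.eq_of_factorization_eq (by omega) (by omega)
    intro p
    by_cases hp : p ∈ T
    · exact congrFun h ⟨p, hp⟩
    · have e1 : p ∉ n.primeFactors := fun h' => hp (g.2 h')
      have e2 : p ∉ n'.primeFactors := fun h' => hp (g'.2 h')
      rw [← Nat.support_factorization, Finsupp.notMem_support_iff] at e1 e2
      rw [e1, e2]

/-- the products of an integer up to `M` and a `T`-unit up to `N` -/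
def MT (T : Finset ℕ) (M N : ℕ) : Finset ℕ :=
  ((Icc 1 M) ×ˢ TUn T N).image (fun x => x.1 * x.2)

lemma mem_MT (T : Finset ℕ) (M N n : ℕ) :
    n ∈ MT T M N ↔ ∃ a t, (1 ≤ a ∧ a ≤ M) ∧ t ∈ TUn T N ∧ a * t = n := by
  rw [MT, mem_image]
  constructor
  · rintro ⟨⟨a, t⟩, h, rfl⟩
    rw [mem_product, mem_Icc] at h
    exact ⟨a, t, h.1, h.2, rfl⟩
  · rintro ⟨a, t, h1, h2, rfl⟩
    exact ⟨(a, t), by rw [mem_product, mem_Icc]; exact ⟨h1, h2⟩, rfl⟩

lemma dvd_TUn {T : Finset ℕ} {N t k : ℕ} (h : t ∈ TUn T N) (hk : k ∣ t) : k ∈ TUn T N := by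
  rw [mem_TUn] at h ⊢
  obtain ⟨⟨h1, h2⟩, h3⟩ := h
  have hk1 : 1 ≤ k := Nat.pos_of_dvd_of_pos hk h1
  exact ⟨⟨hk1, (Nat.le_of_dvd h1 hk).trans h2⟩,
    (Nat.primeFactors_mono hk (by omega)).trans h3⟩

lemma dvd_MT {T : Finset ℕ} {M N n k : ℕ} (h : n ∈ MT T M N) (hk : k ∣ n) : k ∈ MT T M N := by
  rw [mem_MT] at h ⊢
  obtain ⟨a, t, ⟨h1, h2⟩, h3, rfl⟩ := h
  obtain ⟨k1, k2, e1, e2, rfl⟩ := (Nat.dvd_mul).mp hk
  exact ⟨k1, k2, ⟨Nat.pos_of_dvd_of_pos e1 h1, (Nat.le_of_dvd h1 e1).trans h2⟩,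
    dvd_TUn h3 e2, rfl⟩

lemma card_MT (T : Finset ℕ) (M N : ℕ) : (MT T M N).card ≤ M * (Nat.log 2 N + 1) ^ T.card := by
  refine card_image_le.trans ?_
  rw [card_product, Nat.card_Icc, Nat.add_sub_cancel]
  exact Nat.mul_le_mul_left _ (card_TUn T N)

lemma prime_dvd_MT {T : Finset ℕ} {M N n q : ℕ} (h : n ∈ MT T M N) (hq : q.Prime) (hqn : q ∣ n) :
    q ≤ M ∨ q ∈ T := by
  rw [mem_MT] at h
  obtain ⟨a, t, ⟨h1, h2⟩, h3, rfl⟩ := h
  rw [mem_TUn] at h3
  rcases (hq.dvd_mul).mp hqn with g | g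
  · exact Or.inl ((Nat.le_of_dvd h1 g).trans h2)
  · right
    apply h3.2
    rw [Nat.mem_primeFactors]
    exact ⟨hq, g, by omega⟩

/-- the family of bad configurations for the coefficients in `MT`, with a sign -/
def FamS (σ : ℤ) (T : Finset ℕ) (M q n : ℕ) : Prop :=
  ∃ m ∈ range (M + 1), ∃ A ∈ MT T M (2 ^ (2 * M + 1)), ∃ B ∈ MT T M (2 ^ (2 * M + 1)),
    ∃ c ∈ MT T M (2 ^ (2 * M + 1)), ∃ d ∈ MT T M (2 ^ (2 * M + 1)),
    (OKG A B m c d ∧ A * c ^ 2 + B * d ^ 2 < 2 ^ (2 * m + 1)) ∧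
      BdGF ((A : ℤ) * (σ * (B : ℤ))) A B m c d q n

/-- the family of bad configurations for the coefficients in `MT` -/
def FamT (T : Finset ℕ) (M q n : ℕ) : Prop :=
  ∃ m ∈ range (M + 1), ∃ A ∈ MT T M (2 ^ (2 * M + 1)), ∃ B ∈ MT T M (2 ^ (2 * M + 1)),
    ∃ c ∈ MT T M (2 ^ (2 * M + 1)), ∃ d ∈ MT T M (2 ^ (2 * M + 1)),
    (OKG A B m c d ∧ A * c ^ 2 + B * d ^ 2 < 2 ^ (2 * m + 1)) ∧
      BdGF ((A : ℤ) * (-(B : ℤ))) A B m c d q n

lemma nat_le_pow (M k : ℕ) : k ≤ (M + 2) ^ k :=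
  (Nat.lt_two_pow_self).le.trans (Nat.pow_le_pow_left (by omega) _)

theorem usparse_FamS (σ : ℤ) (hσ : σ.natAbs = 1) (T : Finset ℕ) : USparse (FamS σ T) := by
  classical
  refine ⟨12 * T.card + 47 + T.sup id, fun M => ?_⟩
  obtain ⟨N, hN⟩ : ∃ N, N = 2 ^ (2 * M + 1) := ⟨_, rfl⟩
  have hN1 : 1 ≤ N := by rw [hN]; exact Nat.one_le_two_pow
  have hlog : Nat.log 2 N = 2 * M + 1 := by rw [hN]; exact Nat.log_pow one_lt_two _
  have hM2 : (1 : ℝ) ≤ (M : ℝ) + 2 := by
    have : (0 : ℝ) ≤ M := Nat.cast_nonneg M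
    linarith
  have hM0 : (0 : ℝ) ≤ M := Nat.cast_nonneg M
  obtain ⟨C, hC⟩ : ∃ C, C = (MT T M N).card := ⟨_, rfl⟩
  have hCle : (C : ℝ) ≤ ((M : ℝ) + 2) ^ (2 * T.card + 2) := by
    have h1 : C ≤ M * (2 * M + 1 + 1) ^ T.card := by
      rw [hC, ← hlog]
      exact card_MT T M N
    have h2 : C ≤ (M + 2) ^ (2 * T.card + 2) := by
      calc C ≤ M * (2 * M + 1 + 1) ^ T.card := h1
        _ ≤ (M + 2) ^ 2 * ((M + 2) ^ 2) ^ T.card := by
            apply Nat.mul_le_mul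
            · nlinarith
            · apply Nat.pow_le_pow_left
              nlinarith
        _ = (M + 2) ^ (2 * T.card + 2) := by
            rw [← pow_mul, ← pow_add]
            congr 1
            ring
    exact_mod_cast h2
  have hC0 : (0 : ℝ) ≤ C := Nat.cast_nonneg C
  obtain ⟨L, hL⟩ : ∃ L : ℝ, L = (M + 5) * (2 * M + 1) := ⟨_, rfl⟩
  have hL0 : 0 ≤ L := by rw [hL]; positivity
  obtain ⟨C1, hC1⟩ : ∃ C1 : ℝ, C1 = (C : ℝ) ^ 2 * (3 * (3000000 * ((M + 1) * (L + 2)) ^ 2)) :=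
    ⟨_, rfl⟩
  have hC10 : 0 ≤ C1 := by rw [hC1]; positivity
  obtain ⟨q0, hq0⟩ : ∃ q0, q0 = max (2 * M + 1) (T.sup id) := ⟨_, rfl⟩
  have hq0' : q0 ≤ (M + 2) ^ (12 * T.card + 47 + T.sup id) := by
    have e1 : 2 * M + 1 ≤ (M + 2) ^ 2 := by nlinarith
    have e2 : T.sup id ≤ (M + 2) ^ (T.sup id) := nat_le_pow M _
    rw [hq0]
    apply max_le
    · exact e1.trans (Nat.pow_le_pow_right (by omega) (by omega))
    · exact e2.trans (Nat.pow_le_pow_right (by omega) (by omega))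
  have key : UCount (FamS σ T M) (((range (M + 1)).card : ℕ) *
      (((MT T M N).card : ℕ) * (((MT T M N).card : ℕ) * (((MT T M N).card : ℕ) *
        (((MT T M N).card : ℕ) * C1))))) q0 := by
    unfold FamS
    rw [← hN]
    refine UCount.exists_mem _ _ _ _ (fun m hm => UCount.exists_mem _ _ _ _ (fun A hA =>
      UCount.exists_mem _ _ _ _ (fun B hB => UCount.exists_mem _ _ _ _ (fun c hc =>
      UCount.exists_mem _ _ _ _ (fun d hd => UCount.and_left hC10 ?_)))))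
    rintro ⟨hOK, hsz⟩
    have hmM : m ≤ M := Nat.lt_succ_iff.mp (mem_range.mp hm)
    have hszN : A * c ^ 2 + B * d ^ 2 < N := by
      rw [hN]
      exact lt_of_lt_of_le hsz (Nat.pow_le_pow_right (by norm_num) (by omega))
    obtain ⟨g1, g2, gA, gB, gc, gd, g7, g8, g9⟩ := hOK
    have bA : A ≤ N := by
      have : A * 1 ≤ A * c ^ 2 := Nat.mul_le_mul_left _ (Nat.one_le_pow _ _ gc)
      omega
    have bB : B ≤ N := by
      have : B * 1 ≤ B * d ^ 2 := Nat.mul_le_mul_left _ (Nat.one_le_pow _ _ gd)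
      omega
    have bc : c ≤ N := by
      have : 1 * c ≤ A * c ^ 2 := Nat.mul_le_mul gA (Nat.le_self_pow (by norm_num) c)
      omega
    have bd : d ≤ N := by
      have : 1 * d ≤ B * d ^ 2 := Nat.mul_le_mul gB (Nat.le_self_pow (by norm_num) d)
      omega
    have bm : 2 * m + 1 ≤ N := by
      rw [hN]
      have : 2 * M + 1 < 2 ^ (2 * M + 1) := Nat.lt_two_pow_self
      omega
    have hW : A ^ (m + 1) * ((2 * m + 1) * (c * (d * B))) ≤ N ^ (M + 5) := by
      calc A ^ (m + 1) * ((2 * m + 1) * (c * (d * B))) ≤ N ^ (M + 1) * (N * (N * (N * N))) := by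
            apply Nat.mul_le_mul
            · exact (Nat.pow_le_pow_left bA _).trans (Nat.pow_le_pow_right hN1 (by omega))
            · exact Nat.mul_le_mul bm (Nat.mul_le_mul bc (Nat.mul_le_mul bd bB))
        _ = N ^ (M + 5) := by ring
    have hLl : Real.log ((N ^ (M + 5) : ℕ) : ℝ) ≤ L := by
      rw [Nat.cast_pow, Real.log_pow, hN, Nat.cast_pow, Real.log_pow, hL]
      have h2 : Real.log ((2 : ℕ) : ℝ) ≤ 1 := by
        have := log_two_one
        push_cast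
        linarith
      push_cast at h2 ⊢
      apply mul_le_mul_of_nonneg_left _ (by positivity)
      calc (2 * (M : ℝ) + 1) * Real.log 2 ≤ (2 * M + 1) * 1 :=
            mul_le_mul_of_nonneg_left h2 (by positivity)
        _ = 2 * M + 1 := mul_one _
    have h1 := ucount_gen ((A : ℤ) * (σ * (B : ℤ))) A B m c d (N ^ (M + 5)) L (by
        rw [Int.natAbs_mul, Int.natAbs_mul, hσ, Int.natAbs_natCast, Int.natAbs_natCast, one_mul])
      ⟨g1, g2, gA, gB, gc, gd, g7, g8, g9⟩ hW hLl q0 (by rw [hq0]; omega) (by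
        intro q hq hlt hdvd
        have hx : ∀ x ∈ MT T M N, ¬ q ∣ x := by
          intro x hx hqx
          rcases prime_dvd_MT hx hq hqx with h | h
          · rw [hq0] at hlt
            omega
          · have : q ≤ T.sup id := Finset.le_sup (f := id) h
            rw [hq0] at hlt
            omega
        rcases (hq.dvd_mul).mp hdvd with h | h
        · rcases (hq.dvd_mul).mp h with h | h
          · exact hx A hA h
          · exact hx B hB h
        · rcases (hq.dvd_mul).mp h with h | h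
          · exact hx c hc h
          · exact hx d hd h)
    refine h1.weak ?_ le_rfl
    rw [hC1]
    have hdc : c.divisors ⊆ MT T M N := fun k hk => dvd_MT hc (Nat.dvd_of_mem_divisors hk)
    have hdd : d.divisors ⊆ MT T M N := fun k hk => dvd_MT hd (Nat.dvd_of_mem_divisors hk)
    have hcard : ((c.divisors ×ˢ d.divisors).card : ℝ) ≤ (C : ℝ) ^ 2 := by
      have : (c.divisors ×ˢ d.divisors).card ≤ C ^ 2 := by
        rw [card_product, pow_two, hC]
        exact Nat.mul_le_mul (card_le_card hdc) (card_le_card hdd)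
      exact_mod_cast this
    have hmr : (m : ℝ) ≤ M := by exact_mod_cast hmM
    have hm0 : (0 : ℝ) ≤ m := Nat.cast_nonneg m
    apply mul_le_mul hcard _ (by positivity) (by positivity)
    apply mul_le_mul_of_nonneg_left _ (by norm_num)
    apply mul_le_mul_of_nonneg_left _ (by norm_num)
    apply pow_le_pow_left₀ (by positivity)
    exact mul_le_mul_of_nonneg_right (by linarith) (by linarith)
  refine key.weak ?_ hq0'
  rw [card_range, ← hC, hC1]
  have f1 : ((M + 1 : ℕ) : ℝ) ≤ (M : ℝ) + 2 := by push_cast; linarith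
  have f2 : (C : ℝ) ^ 6 ≤ ((M : ℝ) + 2) ^ (12 * T.card + 12) := by
    calc (C : ℝ) ^ 6 ≤ (((M : ℝ) + 2) ^ (2 * T.card + 2)) ^ 6 := pow_le_pow_left₀ hC0 hCle 6
      _ = _ := by rw [← pow_mul]; congr 1; ring
  have f3 : (9000000 : ℝ) ≤ ((M : ℝ) + 2) ^ 24 := by
    calc (9000000 : ℝ) ≤ 2 ^ 24 := by norm_num
      _ ≤ ((M : ℝ) + 2) ^ 24 := pow_le_pow_left₀ (by norm_num) (by linarith) 24
  have f4 : ((M : ℝ) + 1) * (L + 2) ≤ ((M : ℝ) + 2) ^ 4 := by
    rw [hL]
    have e1 : ((M : ℝ) + 5) * (2 * M + 1) + 2 ≤ (M + 2) ^ 3 := by nlinarith [mul_nonneg hM0 hM0, mul_nonneg hM0 (mul_nonneg hM0 hM0)]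
    calc ((M : ℝ) + 1) * ((M + 5) * (2 * M + 1) + 2) ≤ (M + 2) * (M + 2) ^ 3 := by
          apply mul_le_mul (by linarith) e1 (by positivity) (by positivity)
      _ = _ := by ring
  have f5 : (((M : ℝ) + 1) * (L + 2)) ^ 2 ≤ ((M : ℝ) + 2) ^ 8 := by
    calc (((M : ℝ) + 1) * (L + 2)) ^ 2 ≤ (((M : ℝ) + 2) ^ 4) ^ 2 :=
          pow_le_pow_left₀ (by positivity) f4 2
      _ = _ := by ring
  calc ((M + 1 : ℕ) : ℝ) * (C * (C * (C * (C * ((C : ℝ) ^ 2 *
        (3 * (3000000 * ((M + 1) * (L + 2)) ^ 2)))))))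
      = ((M + 1 : ℕ) : ℝ) * ((C : ℝ) ^ 6 * (9000000 * ((M + 1) * (L + 2)) ^ 2)) := by ring
    _ ≤ ((M : ℝ) + 2) * (((M : ℝ) + 2) ^ (12 * T.card + 12) *
        (((M : ℝ) + 2) ^ 24 * ((M : ℝ) + 2) ^ 8)) := by
        apply mul_le_mul f1 _ (by positivity) (by positivity)
        apply mul_le_mul f2 _ (by positivity) (by positivity)
        exact mul_le_mul f3 f5 (by positivity) (by positivity)
    _ = ((M : ℝ) + 2) ^ (12 * T.card + 45) := by ring
    _ ≤ ((M : ℝ) + 2) ^ (12 * T.card + 47 + T.sup id) :=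
        pow_le_pow_right₀ hM2 (by omega)

theorem usparse_FamT (T : Finset ℕ) : USparse (FamT T) := by
  refine (usparse_FamS (-1) rfl T).mono ?_
  rintro M q n ⟨m, hm, A, hA, B, hB, c, hc, d, hd, h, hb⟩
  refine ⟨m, hm, A, hA, B, hB, c, hc, d, hd, h, ?_⟩
  rw [neg_one_mul]
  exact hb

end Pool.Agent.H573.AHB
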