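import Pool.Agent.H573.AHB.UnM
import Pool.Agent.H573.AHB.TuC

/-!
One set of primes `s` for countably many polynomially sparse families.
-/

set_option autoImplicit false

namespace Pool.Agent.H573.AHB

open Finset Filter
open Pool.Agent.H262R4.FR.TBT (evA evB evC)

lemma UCount.exists_sum {ι : Type*} (F : Finset ι) (Bd : ι → ℕ → ℕ → Prop) (C : ι → ℝ) (q0 : ℕ)
    (h : ∀ i ∈ F, UCount (Bd i) (C i) q0) :
    UCount (fun q n => ∃ i ∈ F, Bd i q n) (∑ i ∈ F, C i) q0 := by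
  classical
  induction F using Finset.induction_on with
  | empty =>
    refine (UCount.zero (fun q n => ?_) q0).weak ?_ le_rfl
    · rintro ⟨i, hi, _⟩
      exact absurd hi (Finset.notMem_empty i)
    · simp
  | insert a F ha ih =>
    have h1 := h a (Finset.mem_insert_self a F)
    have h2 := ih (fun i hi => h i (Finset.mem_insert_of_mem hi))
    refine ((h1.or h2).mono ?_).weak ?_ le_rfl
    · rintro q n _ _ _ ⟨i, hi, hb⟩
      rcases Finset.mem_insert.mp hi with rfl | hi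
      · exact Or.inl hb
      · exact Or.inr ⟨i, hi, hb⟩
    · rw [Finset.sum_insert ha]

/-- one set of primes for countably many polynomially sparse families -/
theorem diagWW (f : ℕ) (hf : 1 ≤ f) (Bd : ℕ → ℕ → ℕ → ℕ → Prop) (hB : ∀ j, USparse (Bd j))
    (s0 : ℕ) :
    ∃ δ : ℝ, 0 < δ ∧ ∃ S : Set ℕ,
      (∀ s ∈ S, s.Prime ∧ s0 < s) ∧
      (∃ c : ℝ, 0 < c ∧ ∃ X₀ : ℕ, ∀ X : ℕ, X₀ ≤ X → c ≤ invSum S X) ∧
      ∃ G : ℕ → Finset ℕ, (∀ s ∈ S, (s : ℝ) ^ δ ≤ ((G s).card : ℝ) ∧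
        ∀ q ∈ G s, q.Prime ∧ f ∣ q - 1 ∧ s ∣ q - 1) ∧
      ∀ j, ∃ ε : ℝ, 0 < ε ∧ ∀ᶠ s in atTop, s ∈ S → ∀ q ∈ G s, ∀ m : ℕ, (m : ℝ) ≤ (s : ℝ) ^ ε →
        ¬ Bd j m q ((q - 1) / s) := by
  classical
  choose A hA using hB
  obtain ⟨c, η, hc, hη0, hη1, hdens⟩ := densV f hf
  obtain ⟨ε, hε⟩ : ∃ ε : ℕ → ℝ, ε = fun j => 1 / (600 * ((A j : ℝ) + 1)) := ⟨_, rfl⟩
  have hε0 : ∀ j, 0 < ε j := by
    intro j
    rw [hε]
    positivity
  have hεA : ∀ j, ε j * (A j + 1) ≤ 1 / 600 := by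
    intro j
    rw [hε]
    apply le_of_eq
    simp only
    have : (0 : ℝ) < (A j : ℝ) + 1 := by positivity
    field_simp
  -- the constants
  obtain ⟨D, hD⟩ : ∃ D : ℕ → ℝ, D = fun P => ∑ j ∈ range (P + 1), (4 : ℝ) ^ (A j + 1) := ⟨_, rfl⟩
  have hthr : ∀ P : ℕ, ∃ N : ℕ, ∀ X : ℕ, N ≤ X →
      D P * (X : ℝ) ^ (1 / 600 : ℝ) ≤ (X : ℝ) ^ (1 / 300 : ℝ) := by
    intro P
    exact eventually_atTop.mp (evA (D P) (1 / 600) (1 / 300) (by norm_num))
  choose N hN using hthr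
  obtain ⟨N', hN'⟩ : ∃ N' : ℕ → ℕ, N' = fun P => (Finset.range (P + 1)).sup N := ⟨_, rfl⟩
  have hNN : ∀ P, N P ≤ N' P := by
    intro P
    rw [hN']
    exact Finset.le_sup (f := N) (Finset.mem_range.mpr (Nat.lt_succ_self P))
  obtain ⟨h, hh⟩ : ∃ h : ℕ → ℕ, h = fun x => Nat.findGreatest (fun P => N' P ≤ x) x := ⟨_, rfl⟩
  have hmono : ∀ s X, s ≤ X → h s ≤ h X := by
    intro s X hsX
    rw [hh]
    exact Nat.findGreatest_mono (fun P hP => le_trans hP hsX) hsX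
  have hbig : Tendsto h atTop atTop := by
    rw [tendsto_atTop]
    intro P
    filter_upwards [eventually_ge_atTop (max P (N' P))] with s hs
    rw [hh]
    exact Nat.le_findGreatest (le_of_max_le_left hs) (le_of_max_le_right hs)
  have hspec : ∀ X, N' 0 ≤ X → N' (h X) ≤ X := by
    intro X hX
    rw [hh]
    exact Nat.findGreatest_spec (P := fun P => N' P ≤ X) (Nat.zero_le X) hX
  obtain ⟨S, hS⟩ : ∃ S : Set ℕ, S = {s | s.Prime ∧ s0 < s ∧ ∃ G : Finset ℕ,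
      (s : ℝ) ^ (η / 2) ≤ (G.card : ℝ) ∧ ∀ q ∈ G, q.Prime ∧ f ∣ q - 1 ∧ s ∣ q - 1 ∧
        ∀ j ≤ h s, ∀ m : ℕ, (m : ℝ) ≤ (s : ℝ) ^ (ε j) → ¬ Bd j m q ((q - 1) / s)} := ⟨_, rfl⟩
  have hG : ∀ s, ∃ G : Finset ℕ, s ∈ S → ((s : ℝ) ^ (η / 2) ≤ (G.card : ℝ) ∧
        ∀ q ∈ G, q.Prime ∧ f ∣ q - 1 ∧ s ∣ q - 1 ∧
        ∀ j ≤ h s, ∀ m : ℕ, (m : ℝ) ≤ (s : ℝ) ^ (ε j) → ¬ Bd j m q ((q - 1) / s)) := by
    intro s
    by_cases hs : s ∈ S
    · have hs' := hs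
      rw [hS] at hs'
      obtain ⟨-, -, G, h1, h2⟩ := hs'
      exact ⟨G, fun _ => ⟨h1, h2⟩⟩
    · exact ⟨∅, fun h => absurd h hs⟩
  choose G hG using hG
  refine ⟨η / 2, by linarith, S, ?_, ?_, G, ?_, ?_⟩
  · intro s hs
    rw [hS] at hs
    exact ⟨hs.1, hs.2.1⟩
  · refine ⟨c, hc, ?_⟩
    have e2 := evA (2 : ℝ) (1 / 300) (99 / 100) (by norm_num)
    obtain ⟨X0, hX0⟩ := eventually_atTop.mp ((hdens s0).and (e2.and
      (eventually_ge_atTop (max 1 (N' 0)))))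
    refine ⟨X0, ?_⟩
    intro X hX
    obtain ⟨hd, h2, hX1'⟩ := hX0 X hX
    have hX1 : 1 ≤ X := le_of_max_le_left hX1'
    have hXr : (1 : ℝ) ≤ X := by exact_mod_cast hX1
    have hXp : (0 : ℝ) < X := by linarith
    have hN1 := hN (h X) X ((hNN _).trans (hspec X (le_of_max_le_right hX1')))
    -- the parts
    obtain ⟨M, hM⟩ : ∃ M : ℕ → ℕ, M = fun j => ⌊(X : ℝ) ^ (ε j)⌋₊ := ⟨_, rfl⟩
    have hpart : ∀ j, ((M j : ℝ) + 1) * ((M j : ℝ) + 2) ^ (A j) ≤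
        (4 : ℝ) ^ (A j + 1) * (X : ℝ) ^ (1 / 600 : ℝ) ∧
        (((M j + 2) ^ (A j) : ℕ) : ℝ) ≤ (4 : ℝ) ^ (A j + 1) * (X : ℝ) ^ (1 / 600 : ℝ) := by
      intro j
      have hXd : 1 ≤ (X : ℝ) ^ (ε j) := Real.one_le_rpow hXr (hε0 j).le
      have hMX : (M j : ℝ) ≤ (X : ℝ) ^ (ε j) := by
        rw [hM]
        exact Nat.floor_le (by linarith)
      have hM3 : (M j : ℝ) + 2 ≤ 4 * (X : ℝ) ^ (ε j) := by linarith
      have hM0 : (0 : ℝ) ≤ M j := Nat.cast_nonneg _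
      have hpw : ((M j : ℝ) + 2) ^ (A j + 1) ≤ (4 : ℝ) ^ (A j + 1) * (X : ℝ) ^ (1 / 600 : ℝ) := by
        calc ((M j : ℝ) + 2) ^ (A j + 1) ≤ (4 * (X : ℝ) ^ (ε j)) ^ (A j + 1) :=
              pow_le_pow_left₀ (by linarith) hM3 _
          _ = 4 ^ (A j + 1) * (X : ℝ) ^ (ε j * (A j + 1)) := by
              rw [mul_pow, ← Real.rpow_natCast ((X : ℝ) ^ (ε j)), ← Real.rpow_mul hXp.le]
              push_cast
              ring
          _ ≤ 4 ^ (A j + 1) * (X : ℝ) ^ (1 / 600 : ℝ) := by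
              apply mul_le_mul_of_nonneg_left _ (by positivity)
              exact Real.rpow_le_rpow_of_exponent_le hXr (hεA j)
      constructor
      · refine le_trans ?_ hpw
        rw [pow_succ, mul_comm (((M j : ℝ) + 2) ^ (A j))]
        exact mul_le_mul_of_nonneg_right (by linarith) (by positivity)
      · push_cast
        exact le_trans (pow_le_pow_right₀ (by linarith) (by omega)) hpw
    have hX600 : (0 : ℝ) ≤ (X : ℝ) ^ (1 / 600 : ℝ) := Real.rpow_nonneg hXp.le _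
    obtain ⟨q1, hq1⟩ : ∃ q1, q1 = (range (h X + 1)).sup (fun j => (M j + 2) ^ (A j)) := ⟨_, rfl⟩
    have hq1X : (q1 : ℝ) ≤ (X : ℝ) ^ (1 / 300 : ℝ) := by
      refine le_trans ?_ hN1
      have hne : (range (h X + 1)).Nonempty := ⟨0, mem_range.mpr (Nat.succ_pos _)⟩
      obtain ⟨j, hj, hj2⟩ := Finset.exists_mem_eq_sup (range (h X + 1)) hne
        (fun j => (M j + 2) ^ (A j))
      rw [hq1, hj2]
      refine ((hpart j).2).trans ?_
      apply mul_le_mul_of_nonneg_right _ hX600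
      rw [hD]
      exact Finset.single_le_sum (f := fun j => (4 : ℝ) ^ (A j + 1)) (fun i _ => by positivity) hj
    have hcnt : UCount (fun q n => ∃ j ∈ range (h X + 1), ∃ m ≤ M j, Bd j m q n)
        (∑ j ∈ range (h X + 1), ((M j : ℝ) + 1) * ((M j : ℝ) + 2) ^ (A j)) q1 := by
      apply UCount.exists_sum
      intro j hj
      refine (UCount.union (Bd j) (A j) (hA j) (M j)).weak le_rfl ?_
      rw [hq1]
      exact Finset.le_sup (f := fun j => (M j + 2) ^ (A j)) hj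
    have hsum : ∑ j ∈ range (h X + 1), ((M j : ℝ) + 1) * ((M j : ℝ) + 2) ^ (A j) ≤
        (X : ℝ) ^ (1 / 300 : ℝ) := by
      refine le_trans ?_ hN1
      rw [hD, Finset.sum_mul]
      exact Finset.sum_le_sum (fun j _ => (hpart j).1)
    obtain ⟨T, hT1, hT2⟩ := hd _ _ q1 hcnt (Finset.sum_nonneg (fun j _ => by positivity)) (by
        calc (∑ j ∈ range (h X + 1), ((M j : ℝ) + 1) * ((M j : ℝ) + 2) ^ (A j)) *
              (X : ℝ) ^ (74 / 75 : ℝ)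
            ≤ (X : ℝ) ^ (1 / 300 : ℝ) * (X : ℝ) ^ (74 / 75 : ℝ) :=
              mul_le_mul_of_nonneg_right hsum (Real.rpow_nonneg hXp.le _)
          _ = (X : ℝ) ^ (99 / 100 : ℝ) := by
              rw [← Real.rpow_add hXp]
              norm_num) (by
        have hX3 : 1 ≤ (X : ℝ) ^ (1 / 300 : ℝ) := Real.one_le_rpow hXr (by norm_num)
        linarith)
    refine hT1.trans (invSum_ge _ X T ?_)
    intro s hs
    obtain ⟨g1, g2, g3, g4, G', g5, g6⟩ := hT2 s hs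
    have hs0 : (0 : ℝ) ≤ s := Nat.cast_nonneg s
    have hsX : (s : ℝ) ≤ X := by exact_mod_cast g4
    refine ⟨?_, ?_, g4⟩
    · rw [hS]
      refine ⟨g1, g2, G', ?_, ?_⟩
      · exact (Real.rpow_le_rpow hs0 hsX (by linarith)).trans g5
      · intro q hq
        obtain ⟨k1, k2, k3, k4, k5⟩ := g6 q hq
        refine ⟨k1, k3, k4, ?_⟩
        intro j hj m hm hb
        apply k5
        refine ⟨j, mem_range.mpr (Nat.lt_succ_of_le (hj.trans (hmono s X g4))), m, ?_, hb⟩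
        rw [hM]
        exact Nat.le_floor (hm.trans (Real.rpow_le_rpow hs0 hsX (hε0 j).le))
    · refine le_trans ?_ g3.le
      exact Real.rpow_le_rpow_of_exponent_le hXr (by norm_num)
  · intro s hs
    refine ⟨(hG s hs).1, fun q hq => ?_⟩
    obtain ⟨k1, k2, k3, -⟩ := (hG s hs).2 q hq
    exact ⟨k1, k2, k3⟩
  · intro j
    refine ⟨ε j, hε0 j, ?_⟩
    filter_upwards [(tendsto_atTop.mp hbig) j] with s hs hsS q hq m hm
    exact ((hG s hsS).2 q hq).2.2.2 j hs m hm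

end Pool.Agent.H573.AHB
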