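import Pool.Agent.H573.AHB.GenC
import Pool.Agent.H573.AHB.TuD
import Pool.Agent.H573.AHB.TuE

/-!
The local theorem for the equation `A₀ c² x^{2s} + B₀ d² y^{2s} = z^p`, all cases.
-/

set_option autoImplicit false

namespace Pool.Agent.H573.AHB

open Polynomial Filter

/-- the local theorem, all cases -/
theorem gen_localF (A B m c d : ℕ) (b : ℤ) (hb : b.natAbs = B) (hOK : OKG A B m c d) (s q : ℕ)
    (hsp : s.Prime) (hs2 : 2 < s) (hq : q.Prime) (hqm : 2 * m + 1 < q) (hsq : s ∣ q - 1)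
    (hnb : ¬ BdGF ((A : ℤ) * b) A B m c d q ((q - 1) / s)) (x y u v : ℤ)
    (hx0 : x ≠ 0) (hy0 : y ≠ 0)
    (hco2 : IsCoprime ((A : ℤ) * (c * x ^ s)) (b * (d * y ^ s)))
    (hu : (c : ℤ) * x ^ s = u * PF (A * u ^ 2) (b * v ^ 2) m)
    (hv : (d : ℤ) * y ^ s = v * PG (A * u ^ 2) (b * v ^ 2) m) :
    (B * d = 1 ∧ ((2 * m + 1 : ℕ) : ℤ) ∣ u ∧ (q : ℤ) ∣ A * u) ∨
    (A * c = 1 ∧ ((2 * m + 1 : ℕ) : ℤ) ∣ v ∧ (q : ℤ) ∣ v) := by
  obtain ⟨hm, hp, hA, hB, hc, hd, hcd, hpAB, hsz⟩ := hOK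
  by_contra hcontra
  push Not at hcontra
  obtain ⟨hcU, hcV⟩ := hcontra
  apply hnb
  have hF1 : Fact q.Prime := ⟨hq⟩
  have hsodd : Odd s := hsp.odd_of_ne_two (by omega)
  have hpp : Prime ((2 * m + 1 : ℕ) : ℤ) := Nat.prime_iff_prime_int.mp hp
  have hpA : ¬ ((2 * m + 1 : ℕ) : ℤ) ∣ (A : ℤ) := by
    intro h
    exact hpAB ((Int.natCast_dvd_natCast.mp h).mul_right _)
  have hpb : ¬ ((2 * m + 1 : ℕ) : ℤ) ∣ b := by
    intro h
    have h3 := Int.natAbs_dvd_natAbs.mpr h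
    rw [Int.natAbs_natCast, hb] at h3
    exact hpAB (h3.mul_left _)
  have huv : IsCoprime ((A : ℤ) * u) (b * v) := by
    rw [hu, hv, ← mul_assoc, ← mul_assoc] at hco2
    exact hco2.of_mul_left_left.of_mul_right_left
  have hAub : IsCoprime (A : ℤ) b := huv.of_mul_left_left.of_mul_right_left
  have hAv : IsCoprime (A : ℤ) v := huv.of_mul_left_left.of_mul_right_right
  have hub : IsCoprime u b := huv.of_mul_left_right.of_mul_right_left
  have huv' : IsCoprime u v := huv.of_mul_left_right.of_mul_right_right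
  have hAuv : IsCoprime ((A : ℤ) * u) v := hAv.mul_left huv'
  have huY : IsCoprime u (b * v ^ 2) := hub.mul_right huv'.pow_right
  have hvX : IsCoprime v ((A : ℤ) * u ^ 2) := hAv.symm.mul_right huv'.symm.pow_right
  have h1q : ((1 : ℕ) : ZMod q) ≠ 0 := by rw [Nat.cast_one]; exact one_ne_zero
  have hpq : ((2 * m + 1 : ℕ) : ZMod q) ≠ 0 := natCast_ne_zero_of_lt (by omega) hqm (ZMod q)
  have hsn : s * ((q - 1) / s) = q - 1 := Nat.mul_div_cancel' hsq
  obtain ⟨eF, eG⟩ := Fh_scale (A : ℤ) b u v m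
  have hE1 : ∀ (X : ℤ) (t : ZMod q), (v : ZMod q) = X * t → aeval t (1 : ℤ[X]) ≠ 0 :=
    fun _ _ _ => by rw [map_one]; exact one_ne_zero
  have hfin : ∀ c' c'' d' d'' : ℕ, 1 ≤ c' → 1 ≤ d' → c' * c'' = c → d' * d'' = d →
      (c', d') ∈ c.divisors ×ˢ d.divisors ∧ c / c' = c'' ∧ d / d' = d'' := by
    intro c' c'' d' d'' hc'0 hd'0 hcc hdd
    refine ⟨?_, ?_, ?_⟩
    · rw [Finset.mem_product, Nat.mem_divisors, Nat.mem_divisors]
      exact ⟨⟨⟨c'', hcc.symm⟩, by omega⟩, ⟨⟨d'', hdd.symm⟩, by omega⟩⟩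
    · rw [← hcc, Nat.mul_div_cancel_left _ hc'0]
    · rw [← hdd, Nat.mul_div_cancel_left _ hd'0]
  by_cases hpu : ((2 * m + 1 : ℕ) : ℤ) ∣ u
  · -- case 2
    have hpv : ¬ ((2 * m + 1 : ℕ) : ℤ) ∣ v := by
      intro h
      exact hpp.not_isUnit (huv'.isUnit_of_dvd' hpu h)
    have hG := cop_PG m hp v b _ hvX hpv
    obtain ⟨F1, hF, hcoF⟩ := second_PF m u A _ huY hpu
    obtain ⟨c', c'', hc'0, hc''0, hcc, hcop, w1, w3, e1, e3⟩ := split_pow' c hc s hsodd x
      (((2 * m + 1 : ℕ) : ℤ) * u) F1 hx0 hcoF (by rw [hu, hF]; ring)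
    obtain ⟨d', d'', hd'0, hd''0, hdd, _, w2, w4, e2, e4⟩ := split_pow' d hd s hsodd y v _ hy0 hG
      hv.symm
    obtain ⟨g1, g2, g3⟩ := hfin c' c'' d' d'' hc'0 hd'0 hcc hdd
    refine ⟨(c', d'), g1, Or.inr (Or.inl ⟨?_, ?_⟩)⟩
    · simp only
      rw [g2]
      exact hcop
    · simp only
      rw [g2, g3]
      refine badF_of ((A : ℤ) * b) m (A * c') (2 * m + 1) d' 1 (A ^ m * ((2 * m + 1) * c''))
        (A ^ m * d'') (B * d = 1) False 1 q s ((q - 1) / s) hq hsn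
        hpq h1q (A * u) v w1 w2 w3 w4 hAuv ?_ (by rw [Nat.cast_one, one_mul]; exact e2) ?_ ?_
        (fun h => hcU h hpu) (fun h => h.elim) (hE1 _)
      · calc ((2 * m + 1 : ℕ) : ℤ) * ((A : ℤ) * u) = A * (((2 * m + 1 : ℕ) : ℤ) * u) := by ring
          _ = _ := by rw [e1]; push_cast; ring
      · rw [eF, hF, e3]
        push_cast
        ring
      · rw [eG, e4]
        push_cast
        ring
  by_cases hpv : ((2 * m + 1 : ℕ) : ℤ) ∣ v
  · have hF := cop_PF m hp u A _ huY hpu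
    obtain ⟨G1, hG, hcoG⟩ := second_PG m v b _ hvX hpv
    obtain ⟨c', c'', hc'0, hc''0, hcc, _, w1, w3, e1, e3⟩ := split_pow' c hc s hsodd x
      u _ hx0 hF hu.symm
    obtain ⟨d', d'', hd'0, hd''0, hdd, hcop, w2, w4, e2, e4⟩ := split_pow' d hd s hsodd y
      (((2 * m + 1 : ℕ) : ℤ) * v) G1 hy0 hcoG (by rw [hv, hG]; ring)
    obtain ⟨g1, g2, g3⟩ := hfin c' c'' d' d'' hc'0 hd'0 hcc hdd
    refine ⟨(c', d'), g1, Or.inr (Or.inr ⟨?_, ?_⟩)⟩
    · simp only
      rw [g3]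
      exact hcop
    · simp only
      rw [g2, g3]
      refine badF_of ((A : ℤ) * b) m (A * c') 1 d' (2 * m + 1) (A ^ m * c'')
        (A ^ m * ((2 * m + 1) * d'')) False (A * c = 1) 1 q s ((q - 1) / s) hq hsn
        h1q hpq (A * u) v w1 w2 w3 w4 hAuv ?_ e2 ?_ ?_
        (fun h => h.elim) (fun h => hcV h hpv) (hE1 _)
      · rw [Nat.cast_one, one_mul, e1]
        push_cast
        ring
      · rw [eF, e3]
        push_cast
        ring
      · rw [eG, hG, e4]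
        push_cast
        ring
  · have hF := cop_PF m hp u A _ huY hpu
    have hG := cop_PG m hp v b _ hvX hpv
    obtain ⟨c', c'', hc'0, hc''0, hcc, _, w1, w3, e1, e3⟩ := split_pow' c hc s hsodd x
      u _ hx0 hF hu.symm
    obtain ⟨d', d'', hd'0, hd''0, hdd, _, w2, w4, e2, e4⟩ := split_pow' d hd s hsodd y v _ hy0 hG
      hv.symm
    obtain ⟨g1, g2, g3⟩ := hfin c' c'' d' d'' hc'0 hd'0 hcc hdd
    refine ⟨(c', d'), g1, Or.inl ⟨⟨?_, ?_⟩, ?_⟩⟩
    · intro h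
      have h5 : ((2 * m + 1 : ℕ) : ℤ) ∣ u * PF ((A : ℤ) * u ^ 2) (b * v ^ 2) m := by
        rw [← hu]
        exact (Int.natCast_dvd_natCast.mpr h).mul_right _
      rcases hpp.dvd_or_dvd h5 with h6 | h6
      · exact hpu h6
      · rcases hpp.dvd_or_dvd ((PF_dvd_p m hm hp _ _).1 h6) with h7 | h7
        · exact hpA h7
        · exact hpu (hpp.dvd_of_dvd_pow h7)
    · intro h
      have h5 : ((2 * m + 1 : ℕ) : ℤ) ∣ v * PG ((A : ℤ) * u ^ 2) (b * v ^ 2) m := by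
        rw [← hv]
        exact (Int.natCast_dvd_natCast.mpr h).mul_right _
      rcases hpp.dvd_or_dvd h5 with h6 | h6
      · exact hpv h6
      · rcases hpp.dvd_or_dvd ((PF_dvd_p m hm hp _ _).2 h6) with h7 | h7
        · exact hpb h7
        · exact hpv (hpp.dvd_of_dvd_pow h7)
    · simp only
      rw [g2, g3]
      refine badF_of ((A : ℤ) * b) m (A * c') 1 d' 1 (A ^ m * c'') (A ^ m * d'') False False 1 q s
        ((q - 1) / s) hq hsn
        h1q h1q (A * u) v w1 w2 w3 w4 hAuv ?_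
        (by rw [Nat.cast_one, one_mul]; exact e2) ?_ ?_ (fun h => h.elim) (fun h => h.elim) (hE1 _)
      · rw [Nat.cast_one, one_mul, e1]
        push_cast
        ring
      · rw [eF, e3]
        push_cast
        ring
      · rw [eG, e4]
        push_cast
        ring

/-- the imaginary quadratic fields -/
lemma exists_quad_field (D : ℕ) (hD : 1 ≤ D) : ∃ (K : Type) (_ : Field K) (_ : NumberField K),
    Module.finrank ℚ K = 2 ∧ ∃ w : K, w ^ 2 = -((D : ℕ) : K) := by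
  obtain ⟨f, hf⟩ : ∃ f : ℚ[X], f = X ^ 2 + C (D : ℚ) := ⟨_, rfl⟩
  have hdeg : f.natDegree = 2 := by
    rw [hf]
    exact natDegree_X_pow_add_C
  have hD' : (1 : ℚ) ≤ D := by exact_mod_cast hD
  have hirr : Irreducible f := by
    apply (irreducible_iff_roots_eq_zero_of_degree_le_three (by rw [hdeg]) (by rw [hdeg]; norm_num)).mpr
    rw [Multiset.eq_zero_iff_forall_notMem]
    intro x hx
    have h1 := isRoot_of_mem_roots hx
    rw [hf, IsRoot.def, eval_add, eval_pow, eval_X, eval_C] at h1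
    nlinarith [sq_nonneg x]
  have hfact : Fact (Irreducible f) := ⟨hirr⟩
  have hfin : FiniteDimensional ℚ (AdjoinRoot f) :=
    (AdjoinRoot.powerBasis hirr.ne_zero).finite
  refine ⟨AdjoinRoot f, inferInstance, ?_, ?_, AdjoinRoot.root f, ?_⟩
  · exact { to_charZero := charZero_of_injective_algebraMap
              (algebraMap ℚ (AdjoinRoot f)).injective
            to_finiteDimensional := hfin }
  · rw [(AdjoinRoot.powerBasis hirr.ne_zero).finrank, AdjoinRoot.powerBasis_dim, hdeg]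
  · have h1 := AdjoinRoot.eval₂_root f
    have h2 : ∀ g : ℚ[X], g = X ^ 2 + C (D : ℚ) → eval₂ (AdjoinRoot.of f) (AdjoinRoot.root f) g =
        AdjoinRoot.root f ^ 2 + (D : AdjoinRoot f) := by
      intro g hg
      rw [hg, eval₂_add, eval₂_pow, eval₂_X, eval₂_C, map_natCast]
    rw [h2 f hf] at h1
    exact eq_neg_of_add_eq_zero_left h1

end Pool.Agent.H573.AHB
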