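import Pool.Agent.H573.AHB.QuadE
import Pool.Agent.H573.AHB.TuF
import Pool.Agent.H573.AHB.UnJ

/-!
The equation `A x^{2s} + B y^{2s} = z^p`: descent and local theorem, all cases.
-/

set_option autoImplicit false

namespace Pool.Agent.H573.AHB

open Polynomial Filter NumberField

/-- `z` is odd -/
lemma z_odd_of' (A B : ℕ) (X Y z : ℤ) (p : ℕ) (hp : 3 ≤ p) (hco : IsCoprime ((A : ℤ) * X) (B * Y))
    (hAB : A * B % 8 ≠ 7 ∨ Odd z) (h : A * X ^ 2 + B * Y ^ 2 = z ^ p) : Odd z := by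
  rcases hAB with hAB | hz
  swap
  · exact hz
  by_contra hcon
  rw [Int.not_odd_iff_even] at hcon
  obtain ⟨t, ht⟩ := hcon
  have h8 : (8 : ℤ) ∣ z ^ p := by
    obtain ⟨k, rfl⟩ : ∃ k, p = 3 + k := ⟨p - 3, by omega⟩
    rw [pow_add, ht]
    exact Dvd.dvd.mul_right ⟨t ^ 3, by ring⟩ _
  rw [← h] at h8
  obtain ⟨k, hk⟩ := h8
  have hodd : Odd ((A : ℤ) * X) ∧ Odd ((B : ℤ) * Y) := by
    rw [← Int.not_even_iff_odd, ← Int.not_even_iff_odd]
    constructor
    · intro hev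
      have h1 : Even ((B : ℤ) * Y ^ 2) := by
        have h2 : (B : ℤ) * Y ^ 2 = 2 * (4 * k) - (A * X) * X := by linear_combination hk
        rw [h2]
        exact (even_two_mul _).sub (hev.mul_right _)
      have h3 : Even ((B : ℤ) * Y) := by
        rw [Int.even_mul] at h1 ⊢
        rcases h1 with h1 | h1
        · exact Or.inl h1
        · exact Or.inr ((Int.even_pow.mp h1).1)
      have := hco.isUnit_of_dvd' (even_iff_two_dvd.mp hev) (even_iff_two_dvd.mp h3)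
      rw [Int.isUnit_iff] at this
      omega
    · intro hev
      have h1 : Even ((A : ℤ) * X ^ 2) := by
        have h2 : (A : ℤ) * X ^ 2 = 2 * (4 * k) - (B * Y) * Y := by linear_combination hk
        rw [h2]
        exact (even_two_mul _).sub (hev.mul_right _)
      have h3 : Even ((A : ℤ) * X) := by
        rw [Int.even_mul] at h1 ⊢
        rcases h1 with h1 | h1
        · exact Or.inl h1
        · exact Or.inr ((Int.even_pow.mp h1).1)
      have := hco.isUnit_of_dvd' (even_iff_two_dvd.mp h3) (even_iff_two_dvd.mp hev)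
      rw [Int.isUnit_iff] at this
      omega
  obtain ⟨hA, hX⟩ := Int.odd_mul.mp hodd.1
  obtain ⟨hB, hY⟩ := Int.odd_mul.mp hodd.2
  obtain ⟨i, hi⟩ := odd_sq_mod8 X hX
  obtain ⟨j, hj⟩ := odd_sq_mod8 Y hY
  obtain ⟨r, hr⟩ := odd_sq_mod8 A hA
  apply hAB
  have h1 : (B : ℤ) = 8 * (k - A * i - B * j) - A := by
    rw [hi, hj] at hk
    linear_combination hk
  have h2 : ((A * B : ℕ) : ℤ) = 8 * (A * (k - A * i - B * j) - r - 1) + 7 := by
    push_cast
    calc (A : ℤ) * B = A * (8 * (k - A * i - B * j) - A) := by rw [← h1]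
      _ = _ := by linear_combination -hr
  omega

/-- descent and local theorem -/
theorem gen_coreF (A B i s M : ℕ) (T : Finset ℕ) (hA : 0 < A) (hB : 0 < B)
    (hp : (2 * i + 1).Prime) (hp5 : 5 ≤ 2 * i + 1) (hpAB : ¬ (2 * i + 1) ∣ A * B)
    (hsz : A + B < 2 ^ (2 * i + 1)) (hAM : A ∈ MT T M (2 ^ (2 * M + 1)))
    (hBM : B ∈ MT T M (2 ^ (2 * M + 1))) (hiM : i ≤ M)
    (hcl : ∃ (K : Type) (_ : Field K) (_ : NumberField K), Module.finrank ℚ K = 2 ∧
      (∃ w : K, w ^ 2 = -((A * B : ℕ) : K)) ∧ ¬ (2 * i + 1) ∣ classNumber K)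
    (hsp : s.Prime) (hs2 : 2 < s) (hMs : M ≤ s) (hTs : ∀ r ∈ T, r ≤ s)
    (x y z : ℤ) (m' n' k' : ℕ) (hx0 : x ≠ 0) (hy0 : y ≠ 0)
    (hco : IsCoprime ((A : ℤ) * x) (B * y)) (hz : A * B % 8 ≠ 7 ∨ Odd z)
    (heq : (A : ℤ) * x ^ (2 * s * m') + B * y ^ (2 * s * n') = z ^ ((2 * i + 1) * k'))
    (q : ℕ) (hq : q.Prime) (hqs : s < q) (hqm : 2 * i + 1 < q) (hsq : s ∣ q - 1)
    (hnb : ¬ FamT T M q ((q - 1) / s)) :
    (A = 1 ∧ ((2 * i + 1 : ℕ) : ℤ) ∣ y ∧ (q : ℤ) ∣ y) ∨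
    (B = 1 ∧ ((2 * i + 1 : ℕ) : ℤ) ∣ x ∧ (q : ℤ) ∣ x) := by
  classical
  obtain ⟨K, _, _, hK, ⟨w, hw⟩, hcl⟩ := hcl
  have hcop : Nat.Coprime A B := by
    rw [← Nat.isCoprime_iff_coprime]
    exact hco.of_mul_left_left.of_mul_right_left
  obtain ⟨A0, c, hAc, hA0⟩ := Nat.sq_mul_squarefree A
  obtain ⟨B0, d, hBd, hB0⟩ := Nat.sq_mul_squarefree B
  have hA01 : 1 ≤ A0 := by
    rcases Nat.eq_zero_or_pos A0 with h | h
    · rw [h, mul_zero] at hAc; omega
    · exact h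
  have hB01 : 1 ≤ B0 := by
    rcases Nat.eq_zero_or_pos B0 with h | h
    · rw [h, mul_zero] at hBd; omega
    · exact h
  have hc1 : 1 ≤ c := by
    rcases Nat.eq_zero_or_pos c with h | h
    · rw [h, zero_pow (by norm_num), zero_mul] at hAc; omega
    · exact h
  have hd1 : 1 ≤ d := by
    rcases Nat.eq_zero_or_pos d with h | h
    · rw [h, zero_pow (by norm_num), zero_mul] at hBd; omega
    · exact h
  have hAdvd : A0 * c ∣ A := ⟨c, by rw [← hAc]; ring⟩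
  have hBdvd : B0 * d ∣ B := ⟨d, by rw [← hBd]; ring⟩
  have hcop1 : Nat.Coprime (A0 * c) (B0 * d) :=
    Nat.Coprime.coprime_dvd_right hBdvd (Nat.Coprime.coprime_dvd_left hAdvd hcop)
  have hcop0 : Nat.Coprime A0 B0 :=
    Nat.Coprime.coprime_mul_right (Nat.Coprime.coprime_mul_right_right hcop1)
  have hsq' : Squarefree (A0 * B0) := (Nat.squarefree_mul_iff.mpr ⟨hcop0, hA0, hB0⟩)
  have hpAB0 : ¬ (2 * i + 1) ∣ A0 * B0 := by
    intro h
    apply hpAB
    exact h.trans (mul_dvd_mul ((dvd_mul_right _ _).trans hAdvd) ((dvd_mul_right _ _).trans hBdvd))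
  have hABsum : A0 * c ^ 2 + B0 * d ^ 2 = A + B := by rw [← hAc, ← hBd]; ring
  have hOK : OKG A0 B0 i c d := by
    refine ⟨by omega, hp, hA01, hB01, hc1, hd1, hcop1, hpAB0, ?_⟩
    calc A0 * c ^ 2 + B0 * d ^ 2 = A + B := hABsum
      _ < 2 ^ (2 * i + 1) := hsz
      _ ≤ (A0 + B0) ^ (2 * i + 1) := Nat.pow_le_pow_left (by omega) _
  -- the field element
  have hcK : (c : K) ≠ 0 := by exact_mod_cast (by omega : c ≠ 0)
  have hdK : (d : K) ≠ 0 := by exact_mod_cast (by omega : d ≠ 0)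
  have hw0 : (w / (c * d)) ^ 2 = -((A0 * B0 : ℕ) : K) := by
    rw [div_pow, hw, ← hAc, ← hBd, div_eq_iff (pow_ne_zero _ (mul_ne_zero hcK hdK))]
    push_cast
    ring
  have hpp : Prime ((2 * i + 1 : ℕ) : ℤ) := Nat.prime_iff_prime_int.mp hp
  have hqp : Prime (q : ℤ) := Nat.prime_iff_prime_int.mp hq
  have hpA : ¬ ((2 * i + 1 : ℕ) : ℤ) ∣ (A : ℤ) := by
    intro h
    exact hpAB ((Int.natCast_dvd_natCast.mp h).mul_right _)
  have hpB : ¬ ((2 * i + 1 : ℕ) : ℤ) ∣ (B : ℤ) := by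
    intro h
    exact hpAB ((Int.natCast_dvd_natCast.mp h).mul_left _)
  have hcA : (c : ℤ) ∣ A := by exact_mod_cast (dvd_mul_left c A0).trans hAdvd
  have hdB : (d : ℤ) ∣ B := by exact_mod_cast (dvd_mul_left d B0).trans hBdvd
  have hqMT : ∀ x ∈ MT T M (2 ^ (2 * M + 1)), ¬ (q : ℤ) ∣ (x : ℤ) := by
    intro x hx hqx
    rcases prime_dvd_MT hx hq (Int.natCast_dvd_natCast.mp hqx) with h | h
    · omega
    · have := hTs q h
      omega
  have hqA : ¬ (q : ℤ) ∣ (A : ℤ) := hqMT A hAM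
  have hqB : ¬ (q : ℤ) ∣ (B : ℤ) := hqMT B hBM
  -- coprimality of powers
  have hcoxy : IsCoprime ((A : ℤ) * x ^ (m' * s)) (B * y ^ (n' * s)) := by
    have g1 := hco.of_mul_left_left.of_mul_right_left
    have g2 := hco.of_mul_left_left.of_mul_right_right
    have g3 := hco.of_mul_left_right.of_mul_right_left
    have g4 := hco.of_mul_left_right.of_mul_right_right
    exact (g1.mul_left g3.pow_left).mul_right ((g2.pow_right).mul_left g4.pow)
  have hA0A : ((A0 : ℤ) * (c * x ^ (m' * s))) ∣ (A : ℤ) * x ^ (m' * s) := by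
    have : (A : ℤ) = A0 * c * c := by rw [← hAc]; push_cast; ring
    rw [this]
    exact ⟨c, by ring⟩
  have hB0B : ((B0 : ℤ) * (d * y ^ (n' * s))) ∣ (B : ℤ) * y ^ (n' * s) := by
    have : (B : ℤ) = B0 * d * d := by rw [← hBd]; push_cast; ring
    rw [this]
    exact ⟨d, by ring⟩
  have hco3 : IsCoprime ((A0 : ℤ) * (c * x ^ (m' * s))) (B0 * (d * y ^ (n' * s))) :=
    (hcoxy.of_isCoprime_of_dvd_left hA0A).of_isCoprime_of_dvd_right hB0B
  have heq2 : (A0 : ℤ) * (c * x ^ (m' * s)) ^ 2 + B0 * (d * y ^ (n' * s)) ^ 2 =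
      (z ^ k') ^ (2 * i + 1) := by
    have eA : (A : ℤ) = A0 * c ^ 2 := by rw [← hAc]; push_cast; ring
    have eB : (B : ℤ) = B0 * d ^ 2 := by rw [← hBd]; push_cast; ring
    rw [← pow_mul z, mul_comm k', ← heq, eA, eB]
    ring
  have hzo : Odd (z ^ k') := by
    rcases hz with hz | hz
    · refine z_odd_of' A B (x ^ (m' * s)) (y ^ (n' * s)) (z ^ k') (2 * i + 1) (by omega) hcoxy
        (Or.inl hz) ?_
      rw [← pow_mul z, mul_comm k', ← heq]
      ring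
    · exact hz.pow
  obtain ⟨u, v, hu, hv⟩ := quad_desc hK (w / (c * d)) A0 B0 hA01 hB01 hsq' hw0 i hp hp5 hcl
    (c * x ^ (m' * s)) (d * y ^ (n' * s)) (z ^ k') hco3 hzo heq2
  have hOKB : (-(B0 : ℤ)).natAbs = B0 := by rw [Int.natAbs_neg, Int.natAbs_natCast]
  have hloc := gen_localF A0 B0 i c d (-(B0 : ℤ)) hOKB hOK s q hsp hs2 hq hqm hsq (by
      intro hbad
      apply hnb
      have m1 := dvd_MT hAM ((dvd_mul_right A0 c).trans hAdvd)
      have m2 := dvd_MT hBM ((dvd_mul_right B0 d).trans hBdvd)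
      have m3 := dvd_MT hAM ((dvd_mul_left c A0).trans hAdvd)
      have m4 := dvd_MT hBM ((dvd_mul_left d B0).trans hBdvd)
      exact ⟨i, Finset.mem_range.mpr (by omega), A0, m1, B0, m2, c, m3, d, m4,
        ⟨hOK, by rw [hABsum]; exact hsz⟩, hbad⟩)
    (x ^ m') (y ^ n') u v (pow_ne_zero _ hx0) (pow_ne_zero _ hy0) (by
      rw [← pow_mul, ← pow_mul, neg_mul]
      exact hco3.neg_right) (by rw [← pow_mul]; exact hu) (by rw [← pow_mul]; exact hv)
  rcases hloc with ⟨h1, h2, h3⟩ | ⟨h1, h2, h3⟩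
  · right
    obtain ⟨e1, e2⟩ := mul_eq_one.mp h1
    have hB1 : B = 1 := by rw [← hBd, e1, e2]; norm_num
    have hqu : (q : ℤ) ∣ u := by
      rcases hqp.dvd_or_dvd h3 with h | h
      · exfalso
        apply hqA
        refine h.trans ?_
        exact_mod_cast (dvd_mul_right A0 c).trans hAdvd
      · exact h
    refine ⟨hB1, ?_, ?_⟩
    · have h4 : ((2 * i + 1 : ℕ) : ℤ) ∣ (c : ℤ) * x ^ (m' * s) := by rw [hu]; exact h2.mul_right _
      rcases hpp.dvd_or_dvd h4 with h5 | h5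
      · exact absurd (h5.trans hcA) hpA
      · exact hpp.dvd_of_dvd_pow h5
    · have h4 : (q : ℤ) ∣ (c : ℤ) * x ^ (m' * s) := by rw [hu]; exact hqu.mul_right _
      rcases hqp.dvd_or_dvd h4 with h5 | h5
      · exact absurd (h5.trans hcA) hqA
      · exact hqp.dvd_of_dvd_pow h5
  · left
    obtain ⟨e1, e2⟩ := mul_eq_one.mp h1
    have hA1 : A = 1 := by rw [← hAc, e1, e2]; norm_num
    refine ⟨hA1, ?_, ?_⟩
    · have h4 : ((2 * i + 1 : ℕ) : ℤ) ∣ (d : ℤ) * y ^ (n' * s) := by rw [hv]; exact h2.mul_right _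
      rcases hpp.dvd_or_dvd h4 with h5 | h5
      · exact absurd (h5.trans hdB) hpB
      · exact hpp.dvd_of_dvd_pow h5
    · have h4 : (q : ℤ) ∣ (d : ℤ) * y ^ (n' * s) := by rw [hv]; exact h3.mul_right _
      rcases hqp.dvd_or_dvd h4 with h5 | h5
      · exact absurd (h5.trans hdB) hqB
      · exact hqp.dvd_of_dvd_pow h5

/-- the class number condition holds for all large `p`, for all `T`-units -/
lemma class_bound (T : Finset ℕ) : ∃ P₀ : ℕ, ∀ p N : ℕ, P₀ ≤ p → 0 < N →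
    (∀ r : ℕ, r.Prime → r ∣ N → r ∈ T) → p.Prime →
    ¬ p ∣ N ∧ ∃ (K : Type) (_ : Field K) (_ : NumberField K), Module.finrank ℚ K = 2 ∧
      (∃ w : K, w ^ 2 = -((N : ℕ) : K)) ∧ ¬ p ∣ classNumber K := by
  classical
  have h1 : ∀ D : ℕ, ∃ h : ℕ, 1 ≤ D → 1 ≤ h ∧ ∃ (K : Type) (_ : Field K) (_ : NumberField K),
      Module.finrank ℚ K = 2 ∧ (∃ w : K, w ^ 2 = -((D : ℕ) : K)) ∧ classNumber K = h := by
    intro D
    by_cases hD : 1 ≤ D
    · obtain ⟨K, i1, i2, hK, hw⟩ := exists_quad_field D hD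
      refine ⟨classNumber K, fun _ => ⟨?_, K, i1, i2, hK, hw, rfl⟩⟩
      exact Fintype.card_pos
    · exact ⟨0, fun h => absurd h hD⟩
  choose h hh using h1
  obtain ⟨R, hR⟩ : ∃ R, R = ∏ r ∈ T.filter Nat.Prime, r := ⟨_, rfl⟩
  refine ⟨(Finset.range (R + 1)).sup h + T.sup id + 1, ?_⟩
  intro p N hpP hN hT hp
  constructor
  · intro hpN
    have h2 := hT p hp hpN
    have h3 : p ≤ T.sup id := Finset.le_sup (f := id) h2
    omega
  · obtain ⟨D, e, hDe, hD⟩ := Nat.sq_mul_squarefree N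
    have hD1 : 1 ≤ D := by
      rcases Nat.eq_zero_or_pos D with h | h
      · rw [h, mul_zero] at hDe; omega
      · exact h
    have he1 : 1 ≤ e := by
      rcases Nat.eq_zero_or_pos e with h | h
      · rw [h, zero_pow (by norm_num), zero_mul] at hDe; omega
      · exact h
    have hDR : D ≤ R := by
      rw [hR, ← Nat.prod_primeFactors_of_squarefree hD]
      apply Finset.prod_le_prod_of_subset_of_one_le'
      · intro r hr
        rw [Nat.mem_primeFactors] at hr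
        rw [Finset.mem_filter]
        exact ⟨hT r hr.1 (hr.2.1.trans ⟨e ^ 2, by rw [← hDe]; ring⟩), hr.1⟩
      · intro r hr _
        exact (Finset.mem_filter.mp hr).2.one_lt.le
    obtain ⟨g1, K, i1, i2, hK, ⟨w, hw⟩, hcl⟩ := hh D hD1
    refine ⟨K, i1, i2, hK, ⟨e * w, ?_⟩, ?_⟩
    · rw [mul_pow, hw, ← hDe]
      push_cast
      ring
    · rw [hcl]
      intro hdvd
      have h4 := Nat.le_of_dvd g1 hdvd
      have h5 : h D ≤ (Finset.range (R + 1)).sup h :=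
        Finset.le_sup (f := h) (Finset.mem_range.mpr (by omega))
      omega

end Pool.Agent.H573.AHB
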