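import Pool.Agent.H573.AHB.Second
import Pool.Agent.H573.AHB.TuF
import Pool.Agent.H573.AHB.UnJ

/-!
The equation `c² x^{2s} ± d² y^{2s} = z^p`: descent and local theorem, all cases.
-/

set_option autoImplicit false

namespace Pool.Agent.H573.AHB

open Polynomial Filter

/-- descent and local theorem -/
theorem sq_coreF (σ : ℤ) (hσ : σ = 1 ∨ σ = -1) (c d i s M : ℕ) (T : Finset ℕ) (hc : 0 < c)
    (hd : 0 < d) (hi : 1 ≤ i) (hp : (2 * i + 1).Prime) (hsz : c ^ 2 + d ^ 2 < 2 ^ (2 * i + 1))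
    (hcM : c ∈ MT T M (2 ^ (2 * M + 1))) (hdM : d ∈ MT T M (2 ^ (2 * M + 1))) (hiM : i ≤ M)
    (hsp : s.Prime) (hs2 : 2 < s) (hMs : M ≤ s) (hTs : ∀ r ∈ T, r ≤ s)
    (x y z : ℤ) (m' n' k' : ℕ) (hx0 : x ≠ 0) (hy0 : y ≠ 0)
    (hco : IsCoprime ((c : ℤ) * x) (d * y)) (hz : σ = 1 ∨ Odd z)
    (heq : (c : ℤ) ^ 2 * x ^ (2 * s * m') + σ * d ^ 2 * y ^ (2 * s * n') =
      z ^ ((2 * i + 1) * k'))
    (q : ℕ) (hq : q.Prime) (hqs : s < q) (hqm : 2 * i + 1 < q) (hsq : s ∣ q - 1)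
    (hnb : ¬ FamS (-σ) T M q ((q - 1) / s)) :
    (c = 1 ∧ ((2 * i + 1 : ℕ) : ℤ) ∣ d * y ∧ (q : ℤ) ∣ y) ∨
    (d = 1 ∧ ((2 * i + 1 : ℕ) : ℤ) ∣ c * x ∧ (q : ℤ) ∣ x) := by
  classical
  have hσa : (-σ).natAbs = 1 := by
    rcases hσ with h | h <;> rw [h] <;> rfl
  have hcop : Nat.Coprime c d := by
    rw [← Nat.isCoprime_iff_coprime]
    exact hco.of_mul_left_left.of_mul_right_left
  have hOK : OKG 1 1 i c d := by
    refine ⟨hi, hp, le_rfl, le_rfl, hc, hd, by rwa [one_mul, one_mul], ?_, ?_⟩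
    · intro h
      have := Nat.le_of_dvd one_pos h
      omega
    · rw [one_mul, one_mul]
      exact hsz
  have hpp : Prime ((2 * i + 1 : ℕ) : ℤ) := Nat.prime_iff_prime_int.mp hp
  have hqp : Prime (q : ℤ) := Nat.prime_iff_prime_int.mp hq
  have hqMT : ∀ x ∈ MT T M (2 ^ (2 * M + 1)), ¬ (q : ℤ) ∣ (x : ℤ) := by
    intro x hx hqx
    rcases prime_dvd_MT hx hq (Int.natCast_dvd_natCast.mp hqx) with h | h
    · omega
    · have := hTs q h
      omega
  have h1M : 1 ∈ MT T M (2 ^ (2 * M + 1)) := dvd_MT hcM (one_dvd c)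
  -- coprimality of powers
  have hcoxy : IsCoprime ((c : ℤ) * x ^ (m' * s)) (d * y ^ (n' * s)) := by
    have g1 := hco.of_mul_left_left.of_mul_right_left
    have g2 := hco.of_mul_left_left.of_mul_right_right
    have g3 := hco.of_mul_left_right.of_mul_right_left
    have g4 := hco.of_mul_left_right.of_mul_right_right
    exact (g1.mul_left g3.pow_left).mul_right ((g2.pow_right).mul_left g4.pow)
  have heq2 : ((c : ℤ) * x ^ (m' * s)) ^ 2 + σ * (d * y ^ (n' * s)) ^ 2 =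
      (z ^ k') ^ (2 * i + 1) := by
    rw [← pow_mul z, mul_comm k', ← heq]
    ring
  obtain ⟨u, v, hu, hv⟩ : ∃ u v : ℤ, (c : ℤ) * x ^ (m' * s) = u * Fh (-σ) u v i ∧
      (d : ℤ) * y ^ (n' * s) = v * Gh (-σ) u v i := by
    rcases hσ with rfl | rfl
    · exact gauss _ _ (z ^ k') i hi hcoxy (by rw [← heq2]; ring)
    · have hzo : Odd z := by
        rcases hz with h | h
        · norm_num at h
        · exact h
      rw [neg_neg]
      exact split_desc _ _ (z ^ k') i hcoxy hzo.pow (by rw [← heq2]; ring)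
  rw [(Fh_eq_PF _ _ _ _).1] at hu
  rw [(Fh_eq_PF _ _ _ _).2] at hv
  have hloc := gen_localF 1 1 i c d (-σ) hσa hOK s q hsp hs2 hq hqm hsq (by
      intro hbad
      apply hnb
      refine ⟨i, Finset.mem_range.mpr (by omega), 1, h1M, 1, h1M, c, hcM, d, hdM,
        ⟨hOK, by rw [one_mul, one_mul]; exact hsz⟩, ?_⟩
      rw [Nat.cast_one, mul_one]
      rw [Nat.cast_one] at hbad
      exact hbad)
    (x ^ m') (y ^ n') u v (pow_ne_zero _ hx0) (pow_ne_zero _ hy0) (by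
      rw [← pow_mul, ← pow_mul, Nat.cast_one, one_mul]
      have hu' : IsUnit (-σ) := Int.isUnit_iff_natAbs_eq.mpr hσa
      rw [isCoprime_mul_unit_left_right hu']
      exact hcoxy) (by rw [← pow_mul, Nat.cast_one, one_mul]; exact hu)
      (by rw [← pow_mul, Nat.cast_one, one_mul]; exact hv)
  rcases hloc with ⟨h1, h2, h3⟩ | ⟨h1, h2, h3⟩
  · right
    rw [one_mul] at h1
    rw [Nat.cast_one, one_mul] at h3
    refine ⟨h1, ?_, ?_⟩
    · have h4 : ((2 * i + 1 : ℕ) : ℤ) ∣ (c : ℤ) * x ^ (m' * s) := by rw [hu]; exact h2.mul_right _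
      rcases hpp.dvd_or_dvd h4 with h5 | h5
      · exact h5.mul_right _
      · exact (hpp.dvd_of_dvd_pow h5).mul_left _
    · have h4 : (q : ℤ) ∣ (c : ℤ) * x ^ (m' * s) := by rw [hu]; exact h3.mul_right _
      rcases hqp.dvd_or_dvd h4 with h5 | h5
      · exact absurd h5 (hqMT c hcM)
      · exact hqp.dvd_of_dvd_pow h5
  · left
    rw [one_mul] at h1
    refine ⟨h1, ?_, ?_⟩
    · have h4 : ((2 * i + 1 : ℕ) : ℤ) ∣ (d : ℤ) * y ^ (n' * s) := by rw [hv]; exact h2.mul_right _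
      rcases hpp.dvd_or_dvd h4 with h5 | h5
      · exact h5.mul_right _
      · exact (hpp.dvd_of_dvd_pow h5).mul_left _
    · have h4 : (q : ℤ) ∣ (d : ℤ) * y ^ (n' * s) := by rw [hv]; exact h3.mul_right _
      rcases hqp.dvd_or_dvd h4 with h5 | h5
      · exact absurd h5 (hqMT d hdM)
      · exact hqp.dvd_of_dvd_pow h5

end Pool.Agent.H573.AHB
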