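import Pool.Agent.H573.AHB.Core2

/-!
# The counting theorem with explicit constants, and with some excluded parameters
-/

namespace Pool.Agent.H573.AHB

open Polynomial

variable {r : ℕ}

/-- `q` is a prime modulo which some `t` with `D(t)=0`, `E(t) ≠ 0` has all `φ_i(t)` in `c_i μ_n`,
`n ≤ K`. -/
def GoodE (φ : Fin r → ℤ[X]) (c : Fin r → ℤ) (E : ℤ[X]) (K q : ℕ) (D : ℤ[X]) : Prop :=
  (∀ i, ((c i : ℤ) : ZMod q) ≠ 0) ∧
  ∃ (t : ZMod q) (n : ℕ), 1 ≤ n ∧ n ≤ K ∧ (∀ i, (aeval t (φ i)) ^ n = ((c i : ℤ) : ZMod q) ^ n) ∧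
    aeval t D = 0 ∧ aeval t E ≠ 0

lemma group_boundE (hr : 2 ≤ r) (φ : Fin r → ℤ[X]) (c : Fin r → ℤ) (hc0 : ∀ i, c i ≠ 0)
    (E : ℤ[X]) (H2 : ∀ z : ℂ, aeval z E ≠ 0 → ∃ i, ∀ N : ℕ, 1 ≤ N → (aeval z (φ i)) ^ N ≠ ((c i : ℤ) : ℂ) ^ N)
    {D : ℤ[X]} (hD : Irreducible D) (hd : D.natDegree ≠ 0) {K R lam : ℕ}
    (hR1 : 1 ≤ R) (hRK : R ^ r ≤ K) (hlam1 : 1 ≤ lam) (hlamR : lam ≤ R)
    (hlam : ∀ u : Fin r → ℤ, u ≠ 0 → D ∣ PV φ c u → lam ≤ nv u)
    (Q : Finset ℕ) (hQ : ∀ q ∈ Q, q.Prime ∧ GoodE φ c E K q D) :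
    (Q.card : ℝ) * Real.log 2 ≤
      2 ^ (r + 1) * Ac φ c * ((r : ℝ) ^ (r - 1)) * K ^ 2 / lam ^ (r - 1) * sz D := by
  classical
  have hsz := sz_nonneg hD.ne_zero
  have hAc := Ac_nonneg φ c
  rcases Q.eq_empty_or_nonempty with hQe | ⟨q0, hq0⟩
  · rw [hQe]
    simp only [Finset.card_empty, Nat.cast_zero, zero_mul]
    positivity
  -- D does not divide any φ_i
  have hndi : ∀ i, ¬ D ∣ φ i := by
    intro i hi
    obtain ⟨hqp, hcq, t, n, hn1, hnK, hall, hDt, hEt⟩ := hQ q0 hq0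
    have : Fact q0.Prime := ⟨hqp⟩
    obtain ⟨E', hE⟩ := hi
    have h1 := hall i
    rw [hE, map_mul, hDt, zero_mul, zero_pow (by omega)] at h1
    exact pow_ne_zero n (hcq i) h1.symm
  -- a complex root
  obtain ⟨z, hz⟩ : ∃ z : ℂ, aeval z D = 0 := by
    have h1 : (D.map (Int.castRingHom ℂ)).degree ≠ 0 := by
      rw [degree_map_eq_of_injective (RingHom.injective_int _)]
      intro h0
      exact hd (natDegree_eq_of_degree_eq_some h0)
    obtain ⟨z, hz⟩ := IsAlgClosed.exists_root _ h1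
    refine ⟨z, ?_⟩
    rw [IsRoot.def, eval_map] at hz
    exact hz
  have hφz : ∀ i, aeval z (φ i) ≠ 0 := fun i h0 => hndi i (dvd_of_common_root hD hd hz h0)
  have hEz : aeval z E ≠ 0 := by
    intro h0
    obtain ⟨_, _, t, _, _, _, _, hDt, hEt⟩ := hQ q0 hq0
    obtain ⟨E', hE⟩ := dvd_of_common_root hD hd hz h0
    apply hEt
    rw [hE, map_mul, hDt, zero_mul]
  have hcz : ∀ j, ((c j : ℤ) : ℂ) ≠ 0 := fun j => Int.cast_ne_zero.mpr (hc0 j)
  obtain ⟨i, hi⟩ := normal_vec' (fun j => aeval z (φ j) / ((c j : ℤ) : ℂ))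
    (fun j => div_ne_zero (hφz j) (hcz j)) (by
      obtain ⟨i, hi⟩ := H2 z hEz
      refine ⟨i, fun N hN h => ?_⟩
      rw [div_pow, div_eq_one_iff_eq (pow_ne_zero _ (hcz i))] at h
      exact hi N hN h)
  -- the box
  set m : ℕ := (lam - 1) / (r - 1) + 1 with hm
  set M : ℕ := K / m ^ (r - 1) with hM
  have hm1 : 1 ≤ m := Nat.le_add_left 1 _
  have hmm : (r - 1) * (m - 1) ≤ lam - 1 := by
    have : m - 1 = (lam - 1) / (r - 1) := by omega
    rw [this]
    exact Nat.mul_div_le _ _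
  have hmlam : lam ≤ (r - 1) * m := by
    have h1 : lam - 1 < (r - 1) * ((lam - 1) / (r - 1) + 1) :=
      Nat.lt_mul_div_succ _ (by omega)
    rw [← hm] at h1
    omega
  have hmR : m ≤ R := by
    have : (lam - 1) / (r - 1) ≤ lam - 1 := Nat.div_le_self _ _
    omega
  have hmpow : 0 < m ^ (r - 1) := by positivity
  have hMR : R ≤ M := by
    rw [hM, Nat.le_div_iff_mul_le hmpow]
    calc R * m ^ (r - 1) ≤ R * R ^ (r - 1) := Nat.mul_le_mul_left _ (Nat.pow_le_pow_left hmR _)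
      _ = R ^ r := by rw [← pow_succ']; congr 1; omega
      _ ≤ K := hRK
  have hMK : M * m ^ (r - 1) ≤ K := Nat.div_mul_le_self _ _
  have hKM : K < (M + 1) * m ^ (r - 1) := by
    have := Nat.lt_mul_div_succ K hmpow
    rw [← hM] at this
    rw [mul_comm]
    exact this
  set w : Fin r → ℕ := fun j => if j = i then M + 1 else m with hw
  have hprod : ∏ j, w j = (M + 1) * m ^ (r - 1) := by
    rw [← Finset.mul_prod_erase Finset.univ w (Finset.mem_univ i)]
    have h1 : w i = M + 1 := by simp [hw]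
    rw [h1]
    congr 1
    rw [Finset.prod_congr rfl (fun j hj => (by simp [hw, Finset.ne_of_mem_erase hj] : w j = m)),
      Finset.prod_const, Finset.card_erase_of_mem (Finset.mem_univ i), Finset.card_univ,
      Fintype.card_fin]
  set Box : Finset (Fin r → ℤ) :=
    Fintype.piFinset fun j => Finset.Icc (-((w j : ℤ) - 1)) ((w j : ℤ) - 1) with hBox
  have hBoxcard : (Box.card : ℝ) ≤ 2 ^ (r + 1) * K := by
    have h1 : Box.card ≤ ∏ j, (2 * w j) := by
      rw [hBox, Fintype.card_piFinset]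
      apply Finset.prod_le_prod (fun _ _ => Nat.zero_le _)
      intro j _
      rw [Int.card_Icc]
      omega
    rw [Finset.prod_mul_distrib, Finset.prod_const, Finset.card_univ, Fintype.card_fin, hprod] at h1
    have h2 : (M + 1) * m ^ (r - 1) ≤ 2 * K := by
      have : m ^ (r - 1) ≤ M * m ^ (r - 1) := Nat.le_mul_of_pos_left _ (by omega)
      rw [add_mul, one_mul]
      omega
    have h3 : Box.card ≤ 2 ^ (r + 1) * K := by
      refine h1.trans ?_
      calc 2 ^ r * ((M + 1) * m ^ (r - 1)) ≤ 2 ^ r * (2 * K) := Nat.mul_le_mul_left _ h2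
        _ = 2 ^ (r + 1) * K := by rw [pow_succ]; ring
    exact_mod_cast h3
  -- for each q a vector
  have key : ∀ q ∈ Q, ∃ u ∈ Box, u ≠ 0 ∧ nv u ≤ M ∧ ¬ D ∣ PV φ c u ∧
      ∃ t : ZMod q, aeval t D = 0 ∧ aeval t (PV φ c u) = 0 := by
    intro q hq
    obtain ⟨hqp, hcq, t, n, hn1, hnK, hall, hDt, _⟩ := hQ q hq
    have : Fact q.Prime := ⟨hqp⟩
    obtain ⟨u, hu0, hub, hup⟩ := box_pigeon (fun j => aeval t (φ j) / ((c j : ℤ) : ZMod q))
      hn1 hnK (fun j => by rw [div_pow, hall j]; exact div_self (pow_ne_zero n (hcq j))) w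
      (by rw [hprod]; exact hKM)
    have hne : ∀ j, aeval t (φ j) ≠ 0 := by
      intro j h0
      have := hall j
      rw [h0, zero_pow (by omega)] at this
      exact pow_ne_zero n (hcq j) this.symm
    have hnvM : nv u ≤ M := by
      apply nv_le
      intro j
      have h1 := hub j
      by_cases hj : j = i
      · simp only [hw, if_pos hj] at h1
        omega
      · simp only [hw, if_neg hj] at h1
        omega
    refine ⟨u, ?_, hu0, hnvM, ?_, t, hDt, ?_⟩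
    · rw [hBox, Fintype.mem_piFinset]
      intro j
      have h1 := hub j
      rw [Finset.mem_Icc]
      constructor <;> omega
    · intro hdvd
      have h1 := hlam u hu0 hdvd
      obtain ⟨E, hE⟩ := hdvd
      have h2 : aeval z (PV φ c u) = 0 := by rw [hE, map_mul, hz, zero_mul]
      have h3 := (PV_eval φ c u z hφz hcz).mp h2
      have h4 := hi u h3 (m - 1) (by
        intro j hj
        have h5 := hub j
        simp only [hw, if_neg hj] at h5
        omega)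
      have h6 : nv u ≤ lam - 1 := by
        apply nv_le
        intro j
        by_cases hj : j = i
        · rw [hj]; omega
        · have h5 := hub j
          simp only [hw, if_neg hj] at h5
          have h7 : m - 1 ≤ (r - 1) * (m - 1) := Nat.le_mul_of_pos_left _ (by omega)
          omega
      omega
    · exact (PV_eval φ c u t hne hcq).mpr hup
  -- union bound
  set QU : (Fin r → ℤ) → Finset ℕ := fun u => Q.filter fun q =>
    u ≠ 0 ∧ nv u ≤ M ∧ ¬ D ∣ PV φ c u ∧ ∃ t : ZMod q, aeval t D = 0 ∧ aeval t (PV φ c u) = 0 with hQU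
  have hcover : Q ⊆ Box.biUnion QU := by
    intro q hq
    obtain ⟨u, huB, hu⟩ := key q hq
    rw [Finset.mem_biUnion]
    exact ⟨u, huB, Finset.mem_filter.mpr ⟨hq, hu⟩⟩
  have hlog2 : 0 < Real.log 2 := Real.log_pos (by norm_num)
  have heach : ∀ u ∈ Box, ((QU u).card : ℝ) * Real.log 2 ≤ M * Ac φ c * sz D := by
    intro u _
    rcases (QU u).eq_empty_or_nonempty with he | ⟨q1, hq1⟩
    · rw [he]
      simp only [Finset.card_empty, Nat.cast_zero, zero_mul]
      positivity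
    · obtain ⟨-, hu0, hnu, hnd, -⟩ := Finset.mem_filter.mp hq1
      apply card_res hD hd hu0 hnd hnu (QU u)
      · intro q hq
        exact (hQ q (Finset.mem_filter.mp hq).1).1
      · intro q hq
        exact (Finset.mem_filter.mp hq).2.2.2.2
  have hsum : (Q.card : ℝ) * Real.log 2 ≤ Box.card * (M * Ac φ c * sz D) := by
    have h1 : (Q.card : ℝ) ≤ ∑ u ∈ Box, ((QU u).card : ℝ) := by
      have h2 := (Finset.card_le_card hcover).trans Finset.card_biUnion_le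
      exact_mod_cast h2
    calc (Q.card : ℝ) * Real.log 2 ≤ (∑ u ∈ Box, ((QU u).card : ℝ)) * Real.log 2 :=
          mul_le_mul_of_nonneg_right h1 hlog2.le
      _ = ∑ u ∈ Box, ((QU u).card : ℝ) * Real.log 2 := by rw [Finset.sum_mul]
      _ ≤ ∑ u ∈ Box, (M * Ac φ c * sz D) := Finset.sum_le_sum heach
      _ = _ := by rw [Finset.sum_const, nsmul_eq_mul]
  -- final comparison
  have hlamR' : (0 : ℝ) < (lam : ℝ) ^ (r - 1) := by
    have : (1 : ℝ) ≤ lam := by exact_mod_cast hlam1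
    positivity
  have hMle : (M : ℝ) ≤ K * (r : ℝ) ^ (r - 1) / lam ^ (r - 1) := by
    rw [le_div_iff₀ hlamR']
    have h1 : lam ^ (r - 1) ≤ r ^ (r - 1) * m ^ (r - 1) := by
      rw [← mul_pow]
      apply Nat.pow_le_pow_left
      exact hmlam.trans (Nat.mul_le_mul_right _ (by omega))
    have h2 : M * lam ^ (r - 1) ≤ K * r ^ (r - 1) := by
      calc M * lam ^ (r - 1) ≤ M * (r ^ (r - 1) * m ^ (r - 1)) := Nat.mul_le_mul_left _ h1
        _ = (M * m ^ (r - 1)) * r ^ (r - 1) := by ring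
        _ ≤ K * r ^ (r - 1) := Nat.mul_le_mul_right _ hMK
    exact_mod_cast h2
  calc (Q.card : ℝ) * Real.log 2 ≤ Box.card * (M * Ac φ c * sz D) := hsum
    _ ≤ (2 ^ (r + 1) * K) * (M * Ac φ c * sz D) :=
        mul_le_mul_of_nonneg_right hBoxcard (by positivity)
    _ ≤ (2 ^ (r + 1) * K) * ((K * (r : ℝ) ^ (r - 1) / lam ^ (r - 1)) * Ac φ c * sz D) := by
        apply mul_le_mul_of_nonneg_left _ (by positivity)
        apply mul_le_mul_of_nonneg_right _ hsz
        exact mul_le_mul_of_nonneg_right hMle hAc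
    _ = _ := by ring

lemma pickE (φ : Fin r → ℤ[X]) (c : Fin r → ℤ) (E : ℤ[X]) {q K R : ℕ} [Fact q.Prime]
    (hcq : ∀ i, ((c i : ℤ) : ZMod q) ≠ 0)
    (Hq : ∀ i, ∃ (F : Type) (_ : Field F) (_ : CharP F q) (z : F), aeval z (φ i) = 0 ∧
      ∀ j, j ≠ i → aeval z (φ j) ≠ 0) (hKR : K < (R + 1) ^ r)
    {t : ZMod q} {n : ℕ} (hn : 1 ≤ n) (hnK : n ≤ K) (hall : ∀ i, (aeval t (φ i)) ^ n = ((c i : ℤ) : ZMod q) ^ n)
    (hEt : aeval t E ≠ 0) :
    ∃ v : Fin r → ℤ, v ≠ 0 ∧ nv v ≤ R ∧ PV φ c v ≠ 0 ∧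
      ∃ D ∈ (UniqueFactorizationMonoid.factors (PV φ c v)).toFinset, D.natDegree ≠ 0 ∧
        (∀ u : Fin r → ℤ, u ≠ 0 → D ∣ PV φ c u → nv v ≤ nv u) ∧ GoodE φ c E K q D := by
  classical
  obtain ⟨v1, hv10, hv1R, hv1⟩ := box_pigeon (fun j => aeval t (φ j) / ((c j : ℤ) : ZMod q))
    hn hnK (fun j => by rw [div_pow, hall j]; exact div_self (pow_ne_zero n (hcq j)))
    (fun _ => R + 1) (by simpa using hKR)
  have hne : ∀ j, aeval t (φ j) ≠ 0 := by
    intro j h0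
    have := hall j
    rw [h0, zero_pow (by omega)] at this
    exact pow_ne_zero n (hcq j) this.symm
  have hPt := (PV_eval φ c v1 t hne hcq).mpr hv1
  obtain ⟨-, D, hDirr, hDdeg, hDdvd, hDt⟩ := exists_factor φ c hcq Hq hv10 hPt
  -- minimal vector
  have hex : ∃ N, ∃ v : Fin r → ℤ, v ≠ 0 ∧ D ∣ PV φ c v ∧ nv v = N := ⟨_, v1, hv10, hDdvd, rfl⟩
  obtain ⟨v, hv0, hDv, hvN⟩ := Nat.find_spec hex
  have hmin : ∀ u : Fin r → ℤ, u ≠ 0 → D ∣ PV φ c u → nv v ≤ nv u := by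
    intro u hu hDu
    rw [hvN]
    exact Nat.find_min' hex ⟨u, hu, hDu, rfl⟩
  obtain ⟨F, iF, iC, z, hz⟩ := PV_ne_closure φ c hcq Hq hv0
  have h0 : PV φ c v ≠ 0 := by
    intro h
    rw [h, map_zero] at hz
    exact hz rfl
  obtain ⟨D', hD', hass⟩ := UniqueFactorizationMonoid.exists_mem_factors_of_dvd h0 hDirr hDv
  refine ⟨v, hv0, (hmin v1 hv10 hDdvd).trans (nv_le fun i => ?_), h0, D',
    Multiset.mem_toFinset.mpr hD', ?_, ?_, ?_⟩
  · have := hv1R i
    omega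
  · have hdeg := natDegree_eq_of_degree_eq (degree_eq_degree_of_associated hass)
    rw [← hdeg]
    exact hDdeg
  · intro u hu hD'u
    exact hmin u hu (hass.dvd.trans hD'u)
  · refine ⟨hcq, t, n, hn, hnK, hall, ?_, hEt⟩
    obtain ⟨E', hE⟩ := hass.dvd
    rw [hE, map_mul, hDt, zero_mul]

/-- **Counting theorem**, with roots of unity in place of numbers of absolute value one. Suppose that the integer polynomials `φ_0,…,φ_{r-1}` (`r ≥ 2`)
(i) for every prime `q > q0` and every `i` have a root `z` of `φ_i` in a field of characteristic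
`q` which is not a root of the other `φ_j`, and (ii) have no complex number `z` with
all `φ_i(z) / c_i` roots of unity. Then there are at most `C K² R²` primes `q > q0`, where
`R = ⌊K^{1/r}⌋`, for which there are `t` mod `q` and `1 ≤ n ≤ K` with
`φ_i(t)^n = c_i^n` mod `q` for all `i`. -/
theorem count_primesE (hr : 2 ≤ r) (φ : Fin r → ℤ[X]) (c : Fin r → ℤ) (hc0 : ∀ i, c i ≠ 0)
    (E : ℤ[X]) (q0 : ℕ)
    (hcq : ∀ q : ℕ, q.Prime → q0 < q → ∀ i, ((c i : ℤ) : ZMod q) ≠ 0)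
    (Hq : ∀ q : ℕ, ∀ _ : Fact q.Prime, q0 < q → ∀ i, ∃ (F : Type) (_ : Field F) (_ : CharP F q)
      (z : F), aeval z (φ i) = 0 ∧ ∀ j, j ≠ i → aeval z (φ j) ≠ 0)
    (H2 : ∀ z : ℂ, aeval z E ≠ 0 → ∃ i, ∀ N : ℕ, 1 ≤ N →
      (aeval z (φ i)) ^ N ≠ ((c i : ℤ) : ℂ) ^ N) :
    ∀ K R : ℕ, 1 ≤ R → R ^ r ≤ K → K < (R + 1) ^ r → ∀ Q : Finset ℕ,
      (∀ q ∈ Q, q.Prime ∧ q0 < q ∧ ∃ (t : ZMod q) (n : ℕ), 1 ≤ n ∧ n ≤ K ∧ aeval t E ≠ 0 ∧
        ∀ i, (aeval t (φ i)) ^ n = ((c i : ℤ) : ZMod q) ^ n) →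
      (Q.card : ℝ) ≤ (2 ^ (r + 1) * Ac φ c * ((r : ℝ) ^ (r - 1)) / Real.log 2) * Ac φ c *
        (2 * r * 3 ^ (r - 1)) * K ^ 2 * R ^ 2 := by
  classical
  have hlog2 : 0 < Real.log 2 := Real.log_pos (by norm_num)
  have hAc := Ac_nonneg φ c
  set C1 : ℝ := 2 ^ (r + 1) * Ac φ c * ((r : ℝ) ^ (r - 1)) / Real.log 2 with hC1
  have hC1n : 0 ≤ C1 := by positivity
  intro K R hR1 hRK hKR Q hQ
  -- the cover
  set Box : Finset (Fin r → ℤ) :=
    (Fintype.piFinset fun _ => Finset.Icc (-(R : ℤ)) (R : ℤ)).filter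
      (fun v => v ≠ 0 ∧ PV φ c v ≠ 0 ∧ nv v ≤ R) with hBox
  set QV : (Fin r → ℤ) → ℤ[X] → Finset ℕ := fun v D => Q.filter fun q =>
    D.natDegree ≠ 0 ∧ (∀ u : Fin r → ℤ, u ≠ 0 → D ∣ PV φ c u → nv v ≤ nv u) ∧ GoodE φ c E K q D with hQV
  have hcover : Q ⊆ Box.biUnion fun v =>
      (UniqueFactorizationMonoid.factors (PV φ c v)).toFinset.biUnion fun D => QV v D := by
    intro q hq
    obtain ⟨hqp, hq0, t, n, hn, hnK, hEt, hall⟩ := hQ q hq
    have hF : Fact q.Prime := ⟨hqp⟩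
    obtain ⟨v, hv0, hvR, hP0, D, hDmem, hDdeg, hmin, hgood⟩ :=
      pickE φ c E (hcq q hqp hq0) (Hq q hF hq0) hKR hn hnK hall hEt
    rw [Finset.mem_biUnion]
    refine ⟨v, ?_, ?_⟩
    · rw [hBox, Finset.mem_filter, Fintype.mem_piFinset]
      refine ⟨fun i => ?_, hv0, hP0, hvR⟩
      have := le_nv v i
      rw [Finset.mem_Icc]
      omega
    · rw [Finset.mem_biUnion]
      exact ⟨D, hDmem, Finset.mem_filter.mpr ⟨hq, hDdeg, hmin, hgood⟩⟩
  have hgrp : ∀ v ∈ Box, ∀ D ∈ (UniqueFactorizationMonoid.factors (PV φ c v)).toFinset,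
      ((QV v D).card : ℝ) ≤ C1 * K ^ 2 / (nv v) ^ (r - 1) * sz D := by
    intro v hv D hD
    rw [hBox, Finset.mem_filter] at hv
    obtain ⟨-, hv0, hP0, hvR⟩ := hv
    rw [Multiset.mem_toFinset] at hD
    have hirr := UniqueFactorizationMonoid.irreducible_of_factor D hD
    have hsz := sz_nonneg hirr.ne_zero
    rcases (QV v D).eq_empty_or_nonempty with he | ⟨q1, hq1⟩
    · rw [he]
      simp only [Finset.card_empty, Nat.cast_zero]
      positivity
    · obtain ⟨-, hDdeg, hmin, -⟩ := Finset.mem_filter.mp hq1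
      have h1 := group_boundE hr φ c hc0 E H2 hirr hDdeg hR1 hRK (nv_pos hv0) hvR hmin (QV v D) (by
        intro q hq
        obtain ⟨hqQ, -, -, hg⟩ := Finset.mem_filter.mp hq
        exact ⟨(hQ q hqQ).1, hg⟩)
      rw [← le_div_iff₀ hlog2] at h1
      refine h1.trans (le_of_eq ?_)
      rw [hC1]
      ring
  have hv' : ∀ v ∈ Box, ((((UniqueFactorizationMonoid.factors (PV φ c v)).toFinset.biUnion
      fun D => QV v D).card : ℕ) : ℝ) ≤ C1 * Ac φ c * K ^ 2 * (nv v / (nv v) ^ (r - 1)) := by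
    intro v hv
    have h0 := hgrp v hv
    rw [hBox, Finset.mem_filter] at hv
    obtain ⟨-, hv0, hP0, hvR⟩ := hv
    have h1 : ((((UniqueFactorizationMonoid.factors (PV φ c v)).toFinset.biUnion
      fun D => QV v D).card : ℕ) : ℝ) ≤
        ∑ D ∈ (UniqueFactorizationMonoid.factors (PV φ c v)).toFinset, ((QV v D).card : ℝ) := by
      exact_mod_cast Finset.card_biUnion_le
    refine h1.trans ((Finset.sum_le_sum h0).trans ?_)
    rw [← Finset.mul_sum]
    have h2 := (sum_sz_factors_le hP0).trans (sz_PV hv0 hP0)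
    have h3 : (0 : ℝ) ≤ C1 * K ^ 2 / (nv v) ^ (r - 1) := by positivity
    refine (mul_le_mul_of_nonneg_left h2 h3).trans (le_of_eq ?_)
    ring
  have hmain : (Q.card : ℝ) ≤ C1 * Ac φ c * K ^ 2 * ∑ v ∈ Box, ((nv v : ℝ) / (nv v) ^ (r - 1)) := by
    rw [Finset.mul_sum]
    have h1 : (Q.card : ℝ) ≤ ∑ v ∈ Box, ((((UniqueFactorizationMonoid.factors
        (PV φ c v)).toFinset.biUnion fun D => QV v D).card : ℕ) : ℝ) := by
      have := (Finset.card_le_card hcover).trans Finset.card_biUnion_le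
      exact_mod_cast this
    exact h1.trans (Finset.sum_le_sum hv')
  have hsum : ∑ v ∈ Box, ((nv v : ℝ) / (nv v) ^ (r - 1)) ≤ (2 * r * 3 ^ (r - 1)) * R ^ 2 := by
    have h1 : ∀ v ∈ Box, nv v ∈ Finset.Icc 1 R := by
      intro v hv
      rw [hBox, Finset.mem_filter] at hv
      rw [Finset.mem_Icc]
      exact ⟨nv_pos hv.2.1, hv.2.2.2⟩
    rw [← Finset.sum_fiberwise_of_maps_to h1]
    have h2 : ∀ l ∈ Finset.Icc 1 R, ∑ v ∈ Box with nv v = l, ((nv v : ℝ) / (nv v) ^ (r - 1))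
        ≤ (2 * r * 3 ^ (r - 1)) * R := by
      intro l hl
      rw [Finset.mem_Icc] at hl
      have hl0 : (0 : ℝ) < (l : ℝ) := by exact_mod_cast hl.1
      have h3 : ∑ v ∈ Box with nv v = l, ((nv v : ℝ) / (nv v) ^ (r - 1))
          = ((Box.filter fun v => nv v = l).card : ℝ) * ((l : ℝ) / l ^ (r - 1)) := by
        rw [Finset.sum_congr rfl (g := fun _ => (l : ℝ) / l ^ (r - 1)) (by
          intro v hv
          rw [Finset.mem_filter] at hv
          rw [hv.2])]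
        rw [Finset.sum_const, nsmul_eq_mul]
      rw [h3]
      have h4 := card_nv_eq l hl.1 (Box.filter fun v => nv v = l) (by
        intro v hv
        exact (Finset.mem_filter.mp hv).2)
      have h5 : ((Box.filter fun v => nv v = l).card : ℝ) ≤ 2 * r * 3 ^ (r - 1) * l ^ (r - 1) := by
        exact_mod_cast h4
      calc ((Box.filter fun v => nv v = l).card : ℝ) * ((l : ℝ) / l ^ (r - 1))
          ≤ (2 * r * 3 ^ (r - 1) * l ^ (r - 1)) * ((l : ℝ) / l ^ (r - 1)) :=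
            mul_le_mul_of_nonneg_right h5 (by positivity)
        _ = (2 * r * 3 ^ (r - 1)) * l := by field_simp
        _ ≤ (2 * r * 3 ^ (r - 1)) * R := by
            apply mul_le_mul_of_nonneg_left _ (by positivity)
            exact_mod_cast hl.2
    refine (Finset.sum_le_sum h2).trans ?_
    rw [Finset.sum_const, Nat.card_Icc, nsmul_eq_mul, Nat.add_sub_cancel]
    apply le_of_eq
    ring
  calc (Q.card : ℝ) ≤ C1 * Ac φ c * K ^ 2 * ∑ v ∈ Box, ((nv v : ℝ) / (nv v) ^ (r - 1)) := hmain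
    _ ≤ C1 * Ac φ c * K ^ 2 * ((2 * r * 3 ^ (r - 1)) * R ^ 2) :=
        mul_le_mul_of_nonneg_left hsum (by positivity)
    _ = _ := by ring

end Pool.Agent.H573.AHB
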