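import Pool.Agent.H573.AHB.UnA

/-!
Explicit forms of the easy counts, and the notion of a count with explicit constants.
-/

namespace Pool.Agent.H573.AHB

open Polynomial

lemma cntAE (A B : ℕ) (hA : 1 ≤ A) (hB : 1 ≤ B) (hne : A ≠ B) : ∀ K : ℕ,
    ∀ Q : Finset ℕ, (∀ q ∈ Q, q.Prime ∧ ∃ n, 1 ≤ n ∧ n ≤ K ∧ (A : ZMod q) ^ n = (B : ZMod q) ^ n) →
    (Q.card : ℝ) ≤ Real.log (A + B) / Real.log 2 * K ^ 2 := by
  classical
  have hl2 : 0 < Real.log 2 := Real.log_pos (by norm_num)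
  have hAr : (1 : ℝ) ≤ A := by exact_mod_cast hA
  have hBr : (1 : ℝ) ≤ B := by exact_mod_cast hB
  have hl : 0 ≤ Real.log (A + B) := Real.log_nonneg (by linarith)
  intro K Q hQ
  set QN : ℕ → Finset ℕ := fun n => Q.filter fun q => (A : ZMod q) ^ n = (B : ZMod q) ^ n with hQN
  have hcov : Q ⊆ (Finset.Icc 1 K).biUnion QN := by
    intro q hq
    obtain ⟨_, n, h1, h2, h3⟩ := hQ q hq
    rw [Finset.mem_biUnion]
    exact ⟨n, Finset.mem_Icc.mpr ⟨h1, h2⟩, Finset.mem_filter.mpr ⟨hq, h3⟩⟩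
  have hone : ∀ n ∈ Finset.Icc 1 K, ((QN n).card : ℝ) ≤ Real.log (A + B) / Real.log 2 * K := by
    intro n hn
    rw [Finset.mem_Icc] at hn
    have hr : ((A : ℤ) ^ n - (B : ℤ) ^ n) ≠ 0 := by
      intro h0
      apply hne
      have h1 : (A : ℤ) ^ n = (B : ℤ) ^ n := by linarith
      have h2 : A ^ n = B ^ n := by exact_mod_cast h1
      exact Nat.pow_left_injective (by omega) h2
    have h1 := card_primes_dvd (QN n) (fun q hq => (hQ q (Finset.mem_filter.mp hq).1).1) hr (by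
      intro q hq
      have h2 := (Finset.mem_filter.mp hq).2
      rw [← ZMod.intCast_zmod_eq_zero_iff_dvd]
      push_cast
      rw [h2, sub_self])
    have h2 : |(((A : ℤ) ^ n - (B : ℤ) ^ n : ℤ) : ℝ)| ≤ ((A : ℝ) + B) ^ n := by
      push_cast
      have e1 : (0 : ℝ) ≤ (A : ℝ) ^ n := by positivity
      have e2 : (0 : ℝ) ≤ (B : ℝ) ^ n := by positivity
      have e3 : (A : ℝ) ^ n ≤ ((A : ℝ) + B) ^ n := pow_le_pow_left₀ (by linarith) (by linarith) n
      have e4 : (B : ℝ) ^ n ≤ ((A : ℝ) + B) ^ n := pow_le_pow_left₀ (by linarith) (by linarith) n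
      rw [abs_le]
      constructor <;> linarith
    have h3 : Real.log |(((A : ℤ) ^ n - (B : ℤ) ^ n : ℤ) : ℝ)| ≤ n * Real.log (A + B) := by
      rw [← Real.log_pow]
      apply Real.log_le_log _ h2
      rw [abs_pos]
      exact_mod_cast hr
    have h4 : (n : ℝ) * Real.log (A + B) ≤ K * Real.log (A + B) :=
      mul_le_mul_of_nonneg_right (by exact_mod_cast hn.2) hl
    rw [div_mul_eq_mul_div, le_div_iff₀ hl2]
    linarith
  have h1 : (Q.card : ℝ) ≤ ∑ n ∈ Finset.Icc 1 K, ((QN n).card : ℝ) := by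
    have := (Finset.card_le_card hcov).trans Finset.card_biUnion_le
    exact_mod_cast this
  refine h1.trans ((Finset.sum_le_sum hone).trans ?_)
  rw [Finset.sum_const, Nat.card_Icc, Nat.add_sub_cancel, nsmul_eq_mul]
  apply le_of_eq
  ring

lemma cntBE (f : ℤ[X]) (hf : f ≠ 0) (hf1 : ∀ q : ℕ, q.Prime → ¬ C (q : ℤ) ∣ f) (α β : ℕ)
    (hα : 1 ≤ α) (hβ : 1 ≤ β)
    (hN : ∀ n : ℕ, 1 ≤ n → ∀ z : ℂ, aeval z f = 0 → ((α : ℂ) * z) ^ n ≠ (β : ℂ) ^ n) :
    ∀ K : ℕ, ∀ Q : Finset ℕ, (∀ q ∈ Q, q.Prime ∧ ∃ n, 1 ≤ n ∧ n ≤ K ∧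
      ∃ t : ZMod q, aeval t f = 0 ∧ ((α : ZMod q) * t) ^ n = (β : ZMod q) ^ n) →
    (Q.card : ℝ) ≤ (Real.log (2 * (α + β)) + 1) * sz f / Real.log 2 * K ^ 2 := by
  classical
  have hl2 : 0 < Real.log 2 := Real.log_pos (by norm_num)
  have hαr : (1 : ℝ) ≤ α := by exact_mod_cast hα
  have hβr : (1 : ℝ) ≤ β := by exact_mod_cast hβ
  set W : ℝ := Real.log (2 * (α + β)) + 1 with hW
  have hlW : 0 ≤ Real.log (2 * ((α : ℝ) + β)) := Real.log_nonneg (by linarith)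
  have hW1 : 0 ≤ W := by linarith
  set Fs := (UniqueFactorizationMonoid.factors f).toFinset with hFs
  have hszs : 0 ≤ sz f := sz_nonneg hf
  intro K Q hQ
  set P : ℕ → ℤ[X] := fun n => (C (α : ℤ) * X) ^ n - C (β : ℤ) ^ n with hP
  have hPt : ∀ n q : ℕ, ∀ t : ZMod q, aeval t (P n) = ((α : ZMod q) * t) ^ n - (β : ZMod q) ^ n := by
    intro n q t
    simp [hP]
  set QN : ℕ → ℤ[X] → Finset ℕ := fun n D => Q.filter fun q =>
    D.natDegree ≠ 0 ∧ ∃ t : ZMod q, aeval t D = 0 ∧ aeval t (P n) = 0 with hQN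
  have hcov : Q ⊆ (Finset.Icc 1 K).biUnion fun n => Fs.biUnion fun D => QN n D := by
    intro q hq
    obtain ⟨hqp, n, h1, h2, t, h3, h4⟩ := hQ q hq
    have hF : Fact q.Prime := ⟨hqp⟩
    rw [Finset.mem_biUnion]
    refine ⟨n, Finset.mem_Icc.mpr ⟨h1, h2⟩, ?_⟩
    obtain ⟨w, hw⟩ := UniqueFactorizationMonoid.factors_prod hf
    have h5 : aeval t (UniqueFactorizationMonoid.factors f).prod = 0 := by
      have h6 := congrArg (aeval t) hw
      rw [map_mul, h3, mul_eq_zero] at h6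
      rcases h6 with h6 | h6
      · exact h6
      · exfalso
        have h7 : IsUnit (aeval t (w : ℤ[X])) := w.isUnit.map (aeval t)
        rw [h6] at h7
        exact not_isUnit_zero h7
    rw [map_multiset_prod, Multiset.prod_eq_zero_iff, Multiset.mem_map] at h5
    obtain ⟨D, hD, hDt⟩ := h5
    rw [Finset.mem_biUnion]
    refine ⟨D, Multiset.mem_toFinset.mpr hD, Finset.mem_filter.mpr ⟨hq, ?_, t, hDt, ?_⟩⟩
    · intro hdeg
      rw [natDegree_eq_zero] at hdeg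
      obtain ⟨b, hc⟩ := hdeg
      rw [← hc, aeval_C] at hDt
      have hqc : (q : ℤ) ∣ b := by
        rw [← ZMod.intCast_zmod_eq_zero_iff_dvd]
        simpa using hDt
      apply hf1 q hqp
      have hdvd := UniqueFactorizationMonoid.dvd_of_mem_factors hD
      refine dvd_trans ?_ hdvd
      rw [← hc]
      exact map_dvd (C : ℤ →+* ℤ[X]) hqc
    · rw [hPt, h4, sub_self]
  have hone : ∀ n ∈ Finset.Icc 1 K, ∀ D ∈ Fs,
      ((QN n D).card : ℝ) ≤ W * K / Real.log 2 * sz D := by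
    intro n hn D hD
    rw [Finset.mem_Icc] at hn
    rw [hFs, Multiset.mem_toFinset] at hD
    have hirr := UniqueFactorizationMonoid.irreducible_of_factor D hD
    have hsz := sz_nonneg hirr.ne_zero
    rcases (QN n D).eq_empty_or_nonempty with he | ⟨q1, hq1⟩
    · rw [he]
      simp only [Finset.card_empty, Nat.cast_zero]
      positivity
    obtain ⟨-, hDdeg, -⟩ := Finset.mem_filter.mp hq1
    have hnd : ¬ D ∣ P n := by
      rintro ⟨E, hE⟩
      obtain ⟨z, hz⟩ := exists_complex_root hDdeg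
      have h1 : aeval z f = 0 := by
        obtain ⟨E', hE'⟩ := UniqueFactorizationMonoid.dvd_of_mem_factors hD
        rw [hE', map_mul, hz, zero_mul]
      have h2 : aeval z (P n) = 0 := by rw [hE, map_mul, hz, zero_mul]
      apply hN n hn.1 z h1
      have h3 : aeval z (P n) = ((α : ℂ) * z) ^ n - (β : ℂ) ^ n := by simp [hP]
      rw [h3, sub_eq_zero] at h2
      exact h2
    have hdegP : (P n).natDegree ≤ n := by
      refine (natDegree_sub_le _ _).trans (max_le ?_ ?_)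
      · refine natDegree_pow_le.trans ?_
        have : (C (α : ℤ) * X).natDegree ≤ 1 := (natDegree_C_mul_le _ _).trans natDegree_X_le
        calc n * (C (α : ℤ) * X).natDegree ≤ n * 1 := Nat.mul_le_mul_left _ this
          _ = n := mul_one n
      · rw [← C_pow, natDegree_C]
        exact Nat.zero_le _
    obtain ⟨r, hr0, hrle, hrd⟩ := res_bound hirr hDdeg hnd hdegP (L1_X_C α β n)
    have h1 := card_primes_dvd (QN n D) (fun q hq => (hQ q (Finset.mem_filter.mp hq).1).1) hr0 (by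
      intro q hq
      obtain ⟨-, -, t, ht1, ht2⟩ := Finset.mem_filter.mp hq
      exact hrd q t ht1 ht2)
    have hMm := one_le_Mm hirr.ne_zero
    have hlogM := Real.log_nonneg hMm
    have h2 : Real.log |(r : ℝ)| ≤ Real.log ((2 * ((α : ℝ) + β) ^ n) ^ D.natDegree * Mm D ^ n) := by
      apply Real.log_le_log _ hrle
      rw [abs_pos]
      exact_mod_cast hr0
    rw [Real.log_mul (by positivity) (by positivity), Real.log_pow, Real.log_pow] at h2
    have h3 := log_two_mul_pow_le (show (1 : ℝ) ≤ (α : ℝ) + β by linarith) hn.1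
    have hnK : (n : ℝ) ≤ K := by exact_mod_cast hn.2
    have hn0 : (0 : ℝ) ≤ n := Nat.cast_nonneg n
    have hdd : (0 : ℝ) ≤ (D.natDegree : ℝ) := Nat.cast_nonneg _
    have h4 : (D.natDegree : ℝ) * Real.log (2 * ((α : ℝ) + β) ^ n) ≤
        D.natDegree * (n * Real.log (2 * ((α : ℝ) + β))) := mul_le_mul_of_nonneg_left h3 hdd
    have h5 : (D.natDegree : ℝ) * (n * Real.log (2 * ((α : ℝ) + β))) + n * Real.log (Mm D) ≤
        n * (W * sz D) := by
      unfold sz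
      rw [hW]
      nlinarith [mul_nonneg hn0 (mul_nonneg hlW hlogM), mul_nonneg hn0 hdd]
    have h6 : (n : ℝ) * (W * sz D) ≤ K * (W * sz D) :=
      mul_le_mul_of_nonneg_right hnK (by positivity)
    rw [div_mul_eq_mul_div, le_div_iff₀ hl2]
    linarith
  have h1 : (Q.card : ℝ) ≤ ∑ n ∈ Finset.Icc 1 K, ∑ D ∈ Fs, ((QN n D).card : ℝ) := by
    have h2 := (Finset.card_le_card hcov).trans Finset.card_biUnion_le
    have h3 : ∑ n ∈ Finset.Icc 1 K, (Fs.biUnion fun D => QN n D).card ≤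
        ∑ n ∈ Finset.Icc 1 K, ∑ D ∈ Fs, (QN n D).card :=
      Finset.sum_le_sum fun n _ => Finset.card_biUnion_le
    have h4 := h2.trans h3
    exact_mod_cast h4
  have h2 : ∀ n ∈ Finset.Icc 1 K, ∑ D ∈ Fs, ((QN n D).card : ℝ) ≤ W * K / Real.log 2 * sz f := by
    intro n hn
    refine (Finset.sum_le_sum (hone n hn)).trans ?_
    rw [← Finset.mul_sum]
    exact mul_le_mul_of_nonneg_left (sum_sz_factors_le hf) (by positivity)
  refine h1.trans ((Finset.sum_le_sum h2).trans ?_)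
  rw [Finset.sum_const, Nat.card_Icc, Nat.add_sub_cancel, nsmul_eq_mul]
  apply le_of_eq
  ring


/-- the number of bad primes is bounded, with explicit constants -/
def UCount (Bd : ℕ → ℕ → Prop) (C : ℝ) (q0 : ℕ) : Prop :=
  ∀ K R : ℕ, 1 ≤ R → R ^ 3 ≤ K → K < (R + 1) ^ 3 → ∀ Q : Finset ℕ,
    (∀ q ∈ Q, q.Prime ∧ q0 < q ∧ ∃ n, 1 ≤ n ∧ n ≤ K ∧ Even n ∧ Bd q n) →
      (Q.card : ℝ) ≤ C * K ^ 2 * R ^ 2

lemma UCount.mono {Bd Bd' : ℕ → ℕ → Prop} {C : ℝ} {q0 : ℕ} (h : UCount Bd C q0)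
    (hi : ∀ q n, q.Prime → q0 < q → Even n → Bd' q n → Bd q n) : UCount Bd' C q0 := by
  intro K R h1 h2 h3 Q hQ
  apply h K R h1 h2 h3 Q
  intro q hq
  obtain ⟨g1, g2, n, g3, g4, g5, g6⟩ := hQ q hq
  exact ⟨g1, g2, n, g3, g4, g5, hi q n g1 g2 g5 g6⟩

lemma UCount.weak {Bd : ℕ → ℕ → Prop} {C C' : ℝ} {q0 q0' : ℕ} (h : UCount Bd C q0) (hC : C ≤ C')
    (hq : q0 ≤ q0') : UCount Bd C' q0' := by
  intro K R h1 h2 h3 Q hQ
  refine (h K R h1 h2 h3 Q ?_).trans ?_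
  · intro q hq'
    obtain ⟨g1, g2, g3⟩ := hQ q hq'
    exact ⟨g1, by omega, g3⟩
  · apply mul_le_mul_of_nonneg_right _ (by positivity)
    exact mul_le_mul_of_nonneg_right hC (by positivity)

lemma UCount.or {A B : ℕ → ℕ → Prop} {C D : ℝ} {q0 : ℕ} (h1 : UCount A C q0) (h2 : UCount B D q0) :
    UCount (fun q n => A q n ∨ B q n) (C + D) q0 := by
  classical
  intro K R hR hRK hKR Q hQ
  obtain ⟨Q1, hQ1⟩ : ∃ Q1, Q1 = Q.filter (fun q => ∃ n, 1 ≤ n ∧ n ≤ K ∧ Even n ∧ A q n) := ⟨_, rfl⟩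
  obtain ⟨Q2, hQ2⟩ : ∃ Q2, Q2 = Q.filter (fun q => ∃ n, 1 ≤ n ∧ n ≤ K ∧ Even n ∧ B q n) := ⟨_, rfl⟩
  have hsub : Q ⊆ Q1 ∪ Q2 := by
    intro q hq
    obtain ⟨g1, g2, n, g3, g4, g5, g6⟩ := hQ q hq
    rw [Finset.mem_union, hQ1, hQ2, Finset.mem_filter, Finset.mem_filter]
    rcases g6 with g | g
    · exact Or.inl ⟨hq, n, g3, g4, g5, g⟩
    · exact Or.inr ⟨hq, n, g3, g4, g5, g⟩
  have hc : (Q.card : ℝ) ≤ Q1.card + Q2.card := by
    exact_mod_cast (Finset.card_le_card hsub).trans (Finset.card_union_le _ _)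
  have e1 := h1 K R hR hRK hKR Q1 (by
    intro q hq
    rw [hQ1, Finset.mem_filter] at hq
    exact ⟨(hQ q hq.1).1, (hQ q hq.1).2.1, hq.2⟩)
  have e2 := h2 K R hR hRK hKR Q2 (by
    intro q hq
    rw [hQ2, Finset.mem_filter] at hq
    exact ⟨(hQ q hq.1).1, (hQ q hq.1).2.1, hq.2⟩)
  have : (C + D) * (K : ℝ) ^ 2 * (R : ℝ) ^ 2 = C * (K : ℝ) ^ 2 * (R : ℝ) ^ 2 +
      D * (K : ℝ) ^ 2 * (R : ℝ) ^ 2 := by ring
  linarith

lemma ucount_false (q0 : ℕ) : UCount (fun _ _ => False) 0 q0 := by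
  intro K R _ _ _ Q hQ
  rcases Q.eq_empty_or_nonempty with he | ⟨q, hq⟩
  · rw [he]; simp
  · obtain ⟨_, _, _, _, _, _, h⟩ := hQ q hq
    exact absurd h (by simp)

lemma ucount_sq {C : ℝ} (hC : 0 ≤ C) {K R : ℕ} (hR : 1 ≤ R) :
    C * (K : ℝ) ^ 2 ≤ C * (K : ℝ) ^ 2 * (R : ℝ) ^ 2 := by
  have hR1 : (1 : ℝ) ≤ (R : ℝ) ^ 2 := by
    have : (1 : ℝ) ≤ R := by exact_mod_cast hR
    nlinarith
  exact le_mul_of_one_le_right (by positivity) hR1

lemma ucount_num (A B : ℕ) (hA : 1 ≤ A) (hB : 1 ≤ B) (hne : A ≠ B) (q0 : ℕ) :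
    UCount (fun q n => ((A : ZMod q) ^ n = (B : ZMod q) ^ n)) (Real.log (A + B) / Real.log 2) q0 := by
  have hl2 : 0 < Real.log 2 := Real.log_pos (by norm_num)
  have hAr : (1 : ℝ) ≤ A := by exact_mod_cast hA
  have hBr : (1 : ℝ) ≤ B := by exact_mod_cast hB
  have hl : 0 ≤ Real.log (A + B) := Real.log_nonneg (by linarith)
  intro K R hR _ _ Q hQ
  refine (cntAE A B hA hB hne K Q ?_).trans (ucount_sq (by positivity) hR)
  intro q hq
  obtain ⟨g1, _, n, g2, g3, _, g4⟩ := hQ q hq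
  exact ⟨g1, n, g2, g3, g4⟩

lemma ucount_root (f : ℤ[X]) (hf : f ≠ 0) (hf1 : ∀ q : ℕ, q.Prime → ¬ C (q : ℤ) ∣ f) (α β : ℕ)
    (hα : 1 ≤ α) (hβ : 1 ≤ β)
    (hN : ∀ n : ℕ, 1 ≤ n → ∀ z : ℂ, aeval z f = 0 → ((α : ℂ) * z) ^ n ≠ (β : ℂ) ^ n) (q0 : ℕ) :
    UCount (fun q n => ∃ t : ZMod q, aeval t f = 0 ∧
      ((α : ZMod q) * t) ^ n = (β : ZMod q) ^ n)
      ((Real.log (2 * (α + β)) + 1) * sz f / Real.log 2) q0 := by
  have hl2 : 0 < Real.log 2 := Real.log_pos (by norm_num)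
  have hAr : (1 : ℝ) ≤ α := by exact_mod_cast hα
  have hBr : (1 : ℝ) ≤ β := by exact_mod_cast hβ
  have hl : 0 ≤ Real.log (2 * ((α : ℝ) + β)) := Real.log_nonneg (by linarith)
  have hs := sz_nonneg hf
  intro K R hR _ _ Q hQ
  refine (cntBE f hf hf1 α β hα hβ hN K Q ?_).trans (ucount_sq (by positivity) hR)
  intro q hq
  obtain ⟨g1, _, n, g2, g3, _, g4⟩ := hQ q hq
  exact ⟨g1, n, g2, g3, g4⟩

/-- the forms have small coefficients -/
lemma L1_fgp (δ : ℤ) (hδ : δ.natAbs = 1) (m : ℕ) : L1 (fp δ m) ≤ 4 ^ m ∧ L1 (gp δ m) ≤ 4 ^ m := by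
  have hd : |(δ : ℝ)| = 1 := by
    have : ((δ.natAbs : ℕ) : ℝ) = |(δ : ℝ)| := by rw [Nat.cast_natAbs]; push_cast; rfl
    rw [← this, hδ, Nat.cast_one]
  have hX : ∀ (c : ℤ) (P : ℤ[X]), L1 (C c * (P * X ^ 2)) ≤ |(c : ℝ)| * L1 P := by
    intro c P
    have e : C c * (P * X ^ 2) = monomial 2 c * P := by
      rw [← C_mul_X_pow_eq_monomial]
      ring
    rw [e]
    exact L1_monomial_mul 2 c P
  have hC : ∀ (c : ℤ) (P : ℤ[X]), L1 (C c * P) ≤ |(c : ℝ)| * L1 P := by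
    intro c P
    rw [← monomial_zero_left]
    exact L1_monomial_mul 0 c P
  induction m with
  | zero =>
    constructor
    · have : fp δ 0 = 1 := rfl
      rw [this, L1_one, pow_zero]
    · have : gp δ 0 = 1 := rfl
      rw [this, L1_one, pow_zero]
  | succ m ih =>
    obtain ⟨h1, h2⟩ := ih
    have e1 : fp δ (m + 1) = fp δ m + C δ * (fp δ m * X ^ 2) + C (2 * δ) * (gp δ m * X ^ 2) := by
      unfold fp gp
      rw [Fh_succ, C_mul]
      have : (C (2 : ℤ) : ℤ[X]) = 2 := rfl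
      rw [this]
      ring
    have e2 : gp δ (m + 1) = gp δ m + C δ * (gp δ m * X ^ 2) + C 2 * fp δ m := by
      unfold fp gp
      rw [Gh_succ]
      have : (C (2 : ℤ) : ℤ[X]) = 2 := rfl
      rw [this]
      ring
    have h2d : |((2 * δ : ℤ) : ℝ)| = 2 := by
      push_cast
      rw [abs_mul, hd]
      norm_num
    constructor
    · rw [e1, show (4 : ℝ) ^ (m + 1) = 4 ^ m * 4 from pow_succ _ _]
      have k1 := L1_add (fp δ m + C δ * (fp δ m * X ^ 2)) (C (2 * δ) * (gp δ m * X ^ 2))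
      have k2 := L1_add (fp δ m) (C δ * (fp δ m * X ^ 2))
      have k3 := hX δ (fp δ m)
      have k4 := hX (2 * δ) (gp δ m)
      rw [hd] at k3
      rw [h2d] at k4
      linarith
    · rw [e2, show (4 : ℝ) ^ (m + 1) = 4 ^ m * 4 from pow_succ _ _]
      have k1 := L1_add (gp δ m + C δ * (gp δ m * X ^ 2)) (C 2 * fp δ m)
      have k2 := L1_add (gp δ m) (C δ * (gp δ m * X ^ 2))
      have k3 := hX δ (gp δ m)
      have k4 := hC 2 (fp δ m)
      rw [hd] at k3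
      have h2' : |((2 : ℤ) : ℝ)| = 2 := by norm_num
      rw [h2'] at k4
      linarith

end Pool.Agent.H573.AHB
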