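import Pool.Agent.H573.AHB.UnB

/-!
The bad primes for the forms `U, V, F_m, G_m`, with explicit constants; the zeros of `U` or of `V`
or some values of `V / U` can be allowed.
-/

namespace Pool.Agent.H573.AHB

open Polynomial

/-- `q` is bad at `(U, V)` for the exponent `n`: if `zU` holds then `U = 0` is not considered as
bad, similarly for `zV` and `V`, and the zeros `V / U` of `E` are not considered as bad. -/
def BadF (δ : ℤ) (m a1 a2 b1 b2 e h : ℕ) (zU zV : Prop) (E : ℤ[X]) (q n : ℕ) : Prop :=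
  ∃ U V : ZMod q, (U ≠ 0 ∨ V ≠ 0) ∧ (zU → U ≠ 0) ∧ (zV → V ≠ 0) ∧
    (∀ t : ZMod q, V = U * t → aeval t E ≠ 0) ∧
    (U = 0 ∨ ((a2 : ZMod q) * U) ^ n = (a1 : ZMod q) ^ n) ∧
    (V = 0 ∨ ((b2 : ZMod q) * V) ^ n = (b1 : ZMod q) ^ n) ∧
    (Fh (δ : ZMod q) U V m = 0 ∨ Fh (δ : ZMod q) U V m ^ n = (e : ZMod q) ^ n) ∧
    (Gh (δ : ZMod q) U V m = 0 ∨ Gh (δ : ZMod q) U V m ^ n = (h : ZMod q) ^ n)

/-- the possibilities for a bad prime -/
lemma badF_cases (δ : ℤ) (m a1 a2 b1 b2 e h : ℕ) (zU zV : Prop) (E : ℤ[X]) (q n : ℕ) (ha1 : 1 ≤ a1)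
    (ha2 : 1 ≤ a2) (hb2 : 1 ≤ b2)
    (hδ : δ ≠ 0) (hqp : q.Prime) (hqa : a1 < q) (hqa2 : a2 < q) (hqb : b2 < q)
    (hqm : 2 * m + 1 < q)
    (hqδ : δ.natAbs < q) (hn : Even n)
    (hbad : BadF δ m a1 a2 b1 b2 e h zU zV E q n) :
    (¬ zU ∧ ((((b2 ^ (2 * m) * e : ℕ) : ZMod q) ^ n = (((2 * m + 1) * δ.natAbs ^ m * b1 ^ (2 * m) : ℕ) :
      ZMod q) ^ n) ∧ (((b2 ^ (2 * m) * h : ℕ) : ZMod q) ^ n = ((δ.natAbs ^ m * b1 ^ (2 * m) : ℕ) :
      ZMod q) ^ n))) ∨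
    (¬ zV ∧ ((((a2 ^ (2 * m) * e : ℕ) : ZMod q) ^ n = ((a1 ^ (2 * m) : ℕ) : ZMod q) ^ n) ∧
      (((a2 ^ (2 * m) * h : ℕ) : ZMod q) ^ n = (((2 * m + 1) * a1 ^ (2 * m) : ℕ) :
      ZMod q) ^ n))) ∨
    (∃ t : ZMod q, aeval t (fp δ m) = 0 ∧
      (((b2 * a1 : ℕ) : ZMod q) * t) ^ n = ((b1 * a2 : ℕ) : ZMod q) ^ n) ∨
    (∃ t : ZMod q, aeval t (gp δ m) = 0 ∧
      (((b2 * a1 : ℕ) : ZMod q) * t) ^ n = ((b1 * a2 : ℕ) : ZMod q) ^ n) ∨
    (∃ t : ZMod q, aeval t E ≠ 0 ∧ ∀ i, (aeval t (ph δ m a1 b2 i)) ^ n =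
      ((cc (b1 * a2) (a2 ^ (2 * m) * e) (a2 ^ (2 * m) * h) i : ℤ) : ZMod q) ^ n) := by
  have hF : Fact q.Prime := ⟨hqp⟩
  obtain ⟨U, V, hUV, hzU, hzV, hE, hU, hV, hFF, hGG⟩ := hbad
  have ha0 : (a1 : ZMod q) ≠ 0 := natCast_ne_zero_of_lt ha1 hqa (ZMod q)
  have ha20 : (a2 : ZMod q) ≠ 0 := natCast_ne_zero_of_lt ha2 hqa2 (ZMod q)
  have hb0 : (b2 : ZMod q) ≠ 0 := natCast_ne_zero_of_lt hb2 hqb (ZMod q)
  have hp0 : (2 * (m : ZMod q) + 1) ≠ 0 := by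
    have := natCast_ne_zero_of_lt (k := 2 * m + 1) (by omega) hqm (ZMod q)
    push_cast at this
    exact this
  have hδ0 : (δ : ZMod q) ≠ 0 := by
    intro h0
    rw [ZMod.intCast_zmod_eq_zero_iff_dvd] at h0
    have h1 := Int.natAbs_dvd_natAbs.mpr h0
    rw [Int.natAbs_natCast] at h1
    have := Nat.le_of_dvd (Int.natAbs_pos.mpr hδ) h1
    omega
  have hδn : (δ : ZMod q) ^ n = ((δ.natAbs : ℕ) : ZMod q) ^ n := by
    rcases Int.natAbs_eq δ with h1 | h1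
    · conv_lhs => rw [h1]
      rw [Int.cast_natCast]
    · conv_lhs => rw [h1]
      rw [Int.cast_neg, Int.cast_natCast, hn.neg_pow]
  obtain ⟨P, hP⟩ : ∃ P : ZMod q, P = 2 * (m : ZMod q) + 1 := ⟨_, rfl⟩
  by_cases hU0 : U = 0
  · left
    have hV0 : V ≠ 0 := by
      rcases hUV with h1 | h1
      · exact absurd hU0 h1
      · exact h1
    have hV' := hV.resolve_left hV0
    rw [hU0] at hFF hGG
    rw [(FG_u0 (δ : ZMod q) V m).1] at hFF
    rw [(FG_u0 (δ : ZMod q) V m).2] at hGG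
    have hne0 : ((δ : ZMod q) * V ^ 2) ^ m ≠ 0 :=
      pow_ne_zero _ (mul_ne_zero hδ0 (pow_ne_zero _ hV0))
    have hne : (2 * (m : ZMod q) + 1) * ((δ : ZMod q) * V ^ 2) ^ m ≠ 0 :=
      mul_ne_zero hp0 hne0
    have hF' := hFF.resolve_left hne
    have hG' := hGG.resolve_left hne0
    rw [← hP] at hF'
    refine ⟨fun hz => hzU hz hU0, ?_⟩
    constructor
    · push_cast
      rw [← hP]
      calc ((b2 : ZMod q) ^ (2 * m) * (e : ZMod q)) ^ n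
          = ((b2 : ZMod q) ^ (2 * m)) ^ n * (e : ZMod q) ^ n := by rw [mul_pow]
        _ = ((b2 : ZMod q) ^ (2 * m)) ^ n * (P * ((δ : ZMod q) * V ^ 2) ^ m) ^ n := by
            rw [hF']
        _ = P ^ n * ((δ : ZMod q) ^ n) ^ m * (((b2 : ZMod q) * V) ^ n) ^ (2 * m) := by
            ring
        _ = P ^ n * (((δ.natAbs : ℕ) : ZMod q) ^ n) ^ m *
            ((b1 : ZMod q) ^ n) ^ (2 * m) := by rw [hδn, hV']
        _ = _ := by ring
    · push_cast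
      calc ((b2 : ZMod q) ^ (2 * m) * (h : ZMod q)) ^ n
          = ((b2 : ZMod q) ^ (2 * m)) ^ n * (h : ZMod q) ^ n := by rw [mul_pow]
        _ = ((b2 : ZMod q) ^ (2 * m)) ^ n * (((δ : ZMod q) * V ^ 2) ^ m) ^ n := by
            rw [hG']
        _ = ((δ : ZMod q) ^ n) ^ m * (((b2 : ZMod q) * V) ^ n) ^ (2 * m) := by
            ring
        _ = (((δ.natAbs : ℕ) : ZMod q) ^ n) ^ m *
            ((b1 : ZMod q) ^ n) ^ (2 * m) := by rw [hδn, hV']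
        _ = _ := by ring
  have hU' := hU.resolve_left hU0
  by_cases hV0 : V = 0
  · right; left
    rw [hV0] at hFF hGG
    rw [(FG_v0 (δ : ZMod q) U m).1] at hFF
    rw [(FG_v0 (δ : ZMod q) U m).2] at hGG
    have hne0 : U ^ (2 * m) ≠ 0 := pow_ne_zero _ hU0
    have hne : (2 * (m : ZMod q) + 1) * U ^ (2 * m) ≠ 0 := mul_ne_zero hp0 hne0
    have hG' := hGG.resolve_left hne
    have hF' := hFF.resolve_left hne0
    rw [← hP] at hG'
    refine ⟨fun hz => hzV hz hV0, ?_⟩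
    constructor
    · push_cast
      calc ((a2 : ZMod q) ^ (2 * m) * (e : ZMod q)) ^ n
          = ((a2 : ZMod q) ^ (2 * m)) ^ n * (e : ZMod q) ^ n := by rw [mul_pow]
        _ = ((a2 : ZMod q) ^ (2 * m)) ^ n * (U ^ (2 * m)) ^ n := by rw [hF']
        _ = (((a2 : ZMod q) * U) ^ n) ^ (2 * m) := by ring
        _ = _ := by rw [hU']; ring
    · push_cast
      rw [← hP]
      calc ((a2 : ZMod q) ^ (2 * m) * (h : ZMod q)) ^ n
          = ((a2 : ZMod q) ^ (2 * m)) ^ n * (h : ZMod q) ^ n := by rw [mul_pow]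
        _ = ((a2 : ZMod q) ^ (2 * m)) ^ n * (P * U ^ (2 * m)) ^ n := by rw [hG']
        _ = P ^ n * (((a2 : ZMod q) * U) ^ n) ^ (2 * m) := by ring
        _ = _ := by rw [hU']; ring
  right; right
  have hV' := hV.resolve_left hV0
  obtain ⟨t, ht⟩ : ∃ t, t = V / U := ⟨_, rfl⟩
  have hVt : V = U * t := by rw [ht]; field_simp
  have hFt : Fh (δ : ZMod q) U V m = U ^ (2 * m) * Fh (δ : ZMod q) 1 t m := by
    have := (hom_FG (δ : ZMod q) 1 t U m).1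
    rw [mul_one, ← hVt] at this
    exact this
  have hGt : Gh (δ : ZMod q) U V m = U ^ (2 * m) * Gh (δ : ZMod q) 1 t m := by
    have := (hom_FG (δ : ZMod q) 1 t U m).2
    rw [mul_one, ← hVt] at this
    exact this
  have hUp : U ^ (2 * m) ≠ 0 := pow_ne_zero _ hU0
  have htn : (((b2 * a1 : ℕ) : ZMod q) * t) ^ n = ((b1 * a2 : ℕ) : ZMod q) ^ n := by
    push_cast
    calc ((b2 : ZMod q) * a1 * t) ^ n = (a1 : ZMod q) ^ n * ((b2 : ZMod q) * t) ^ n := by ring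
      _ = ((a2 : ZMod q) * U) ^ n * ((b2 : ZMod q) * t) ^ n := by rw [hU']
      _ = (a2 : ZMod q) ^ n * ((b2 : ZMod q) * (U * t)) ^ n := by ring
      _ = ((b1 : ZMod q) * a2) ^ n := by rw [← hVt, hV']; ring
  by_cases hf0 : Fh (δ : ZMod q) U V m = 0
  · left
    refine ⟨t, ?_, htn⟩
    rw [aeval_fp]
    rw [hFt] at hf0
    exact (mul_eq_zero.mp hf0).resolve_left hUp
  right
  by_cases hg0 : Gh (δ : ZMod q) U V m = 0
  · left
    refine ⟨t, ?_, htn⟩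
    rw [aeval_gp]
    rw [hGt] at hg0
    exact (mul_eq_zero.mp hg0).resolve_left hUp
  right
  have hF' := hFF.resolve_left hf0
  have hG' := hGG.resolve_left hg0
  refine ⟨t, hE t hVt, ?_⟩
  intro i
  have h3cases : i = 0 ∨ i = 1 ∨ i = 2 := by
    fin_cases i <;> simp
  rcases h3cases with rfl | rfl | rfl
  · rw [ph_zero]
    simp only [cc, Matrix.cons_val_zero, Int.cast_natCast]
    rw [← htn]
    push_cast
    rfl
  · rw [ph_one]
    simp only [cc, Matrix.cons_val_zero, Matrix.cons_val_one, Int.cast_natCast]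
    push_cast
    calc ((a1 : ZMod q) ^ (2 * m) * Fh (δ : ZMod q) 1 t m) ^ n
        = ((a1 : ZMod q) ^ n) ^ (2 * m) * Fh (δ : ZMod q) 1 t m ^ n := by ring
      _ = (((a2 : ZMod q) * U) ^ n) ^ (2 * m) * Fh (δ : ZMod q) 1 t m ^ n := by rw [hU']
      _ = ((a2 : ZMod q) ^ (2 * m)) ^ n * (U ^ (2 * m) * Fh (δ : ZMod q) 1 t m) ^ n := by ring
      _ = _ := by rw [← hFt, hF']; ring
  · rw [ph_two]
    simp only [cc, Matrix.cons_val_two, Matrix.tail_cons, Matrix.head_cons, Int.cast_natCast]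
    push_cast
    calc ((a1 : ZMod q) ^ (2 * m) * Gh (δ : ZMod q) 1 t m) ^ n
        = ((a1 : ZMod q) ^ n) ^ (2 * m) * Gh (δ : ZMod q) 1 t m ^ n := by ring
      _ = (((a2 : ZMod q) * U) ^ n) ^ (2 * m) * Gh (δ : ZMod q) 1 t m ^ n := by rw [hU']
      _ = ((a2 : ZMod q) ^ (2 * m)) ^ n * (U ^ (2 * m) * Gh (δ : ZMod q) 1 t m) ^ n := by ring
      _ = _ := by rw [← hGt, hG']; ring


lemma log_pow_le {T : ℝ} (k : ℕ) {L : ℝ} (hT : 1 ≤ T) (hL : Real.log T ≤ L) {x : ℝ} (hx0 : 0 < x)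
    (hx : x ≤ T ^ k) : Real.log x ≤ k * L := by
  have h1 := Real.log_le_log hx0 hx
  rw [Real.log_pow] at h1
  have h2 : (k : ℝ) * Real.log T ≤ k * L := mul_le_mul_of_nonneg_left hL (Nat.cast_nonneg k)
  linarith

lemma log_two_half : (1 / 2 : ℝ) ≤ Real.log 2 := by
  have := Real.log_two_gt_d9
  linarith

lemma log_two_one : Real.log 2 ≤ 1 := by
  have := Real.log_two_lt_d9
  linarith

lemma log_four_two : Real.log 4 ≤ 2 := by
  have h : Real.log 4 = 2 * Real.log 2 := by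
    rw [show (4 : ℝ) = 2 ^ 2 by norm_num, Real.log_pow]
    norm_num
  rw [h]
  have := log_two_one
  linarith

lemma log_nat_le (k : ℕ) : Real.log k ≤ k := by
  rcases Nat.eq_zero_or_pos k with h | h
  · rw [h]; simp
  · have := Real.log_le_sub_one_of_pos (show (0 : ℝ) < k by exact_mod_cast h)
    linarith

/-- the size of a polynomial -/
lemma sz_fgp (δ : ℤ) (hδ : δ.natAbs = 1) (m : ℕ) (hf : fp δ m ≠ 0) (hg : gp δ m ≠ 0) :
    sz (fp δ m) ≤ 4 * m ∧ sz (gp δ m) ≤ 4 * m := by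
  obtain ⟨h1, h2⟩ := L1_fgp δ hδ m
  obtain ⟨d1, d2, -, -⟩ := fgp_deg δ m
  have key : ∀ P : ℤ[X], P ≠ 0 → P.natDegree ≤ 2 * m → L1 P ≤ 4 ^ m → sz P ≤ 4 * m := by
    intro P hP hd hL
    unfold sz
    have h3 := one_le_Mm hP
    have h4 := (Mm_le_L1 P).trans hL
    have h5 := Real.log_le_log (by linarith) h4
    rw [Real.log_pow] at h5
    have h6 : (m : ℝ) * Real.log 4 ≤ m * 2 := mul_le_mul_of_nonneg_left log_four_two (Nat.cast_nonneg m)
    have h7 : (P.natDegree : ℝ) ≤ 2 * m := by exact_mod_cast hd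
    linarith
  exact ⟨key _ hf d1 h1, key _ hg d2 h2⟩

lemma L1_C (c : ℤ) : L1 (C c) = |(c : ℝ)| := by
  rw [← monomial_zero_left, L1_monomial]

lemma L1_C_mul (c : ℤ) (P : ℤ[X]) : L1 (C c * P) ≤ |(c : ℝ)| * L1 P := by
  rw [← monomial_zero_left]
  exact L1_monomial_mul 0 c P

/-- the complexity of the three polynomials and constants -/
lemma Ac_ph (δ : ℤ) (hδ : δ.natAbs = 1) (m a1 b2 c0 c1 c2 T : ℕ) (L : ℝ) (hT : 1 ≤ T)
    (hL : Real.log T ≤ L)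
    (ha1 : a1 ≤ T) (hb2 : b2 ≤ T) (h0 : c0 ≤ T ^ 2) (h1 : c1 ≤ T ^ (2 * m + 1))
    (h2 : c2 ≤ T ^ (2 * m + 1)) :
    Ac (ph δ m a1 b2) (cc c0 c1 c2) ≤ 10 * (m + 1) * (L + 2) := by
  have hTr : (1 : ℝ) ≤ T := by exact_mod_cast hT
  have hL0 : 0 ≤ L := (Real.log_nonneg hTr).trans hL
  obtain ⟨l1, l2⟩ := L1_fgp δ hδ m
  obtain ⟨d1, d2, -, -⟩ := fgp_deg δ m
  have h4 : (1 : ℝ) ≤ 4 ^ m := one_le_pow₀ (by norm_num)
  -- bounds for the factors
  have hT2 : (1 : ℝ) ≤ (T : ℝ) ^ 2 := one_le_pow₀ hTr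
  have hT2m : (1 : ℝ) ≤ (T : ℝ) ^ (2 * m) := one_le_pow₀ hTr
  have hT2m1 : (1 : ℝ) ≤ (T : ℝ) ^ (2 * m + 1) := one_le_pow₀ hTr
  have e0 : max 1 (L1 (ph δ m a1 b2 0)) ≤ (T : ℝ) ^ 2 := by
    apply max_le hT2
    have : ph δ m a1 b2 0 = monomial 1 ((b2 * a1 : ℕ) : ℤ) := by
      simp only [ph, Matrix.cons_val_zero]
      rw [C_mul_X_eq_monomial]
    rw [this, L1_monomial, Int.cast_natCast, Nat.abs_cast, pow_two]
    push_cast
    exact mul_le_mul (by exact_mod_cast hb2) (by exact_mod_cast ha1) (Nat.cast_nonneg _) (by positivity)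
  have ha1m : |(((a1 ^ (2 * m) : ℕ) : ℤ) : ℝ)| ≤ (T : ℝ) ^ (2 * m) := by
    rw [Int.cast_natCast, Nat.abs_cast]
    exact_mod_cast Nat.pow_le_pow_left ha1 _
  have e1 : max 1 (L1 (ph δ m a1 b2 1)) ≤ (T : ℝ) ^ (2 * m) * 4 ^ m := by
    apply max_le
    · exact one_le_mul_of_one_le_of_one_le hT2m h4
    · simp only [ph, Matrix.cons_val_one, Matrix.cons_val_zero]
      exact (L1_C_mul _ _).trans (mul_le_mul ha1m l1 (L1_nonneg _) (by positivity))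
  have e2 : max 1 (L1 (ph δ m a1 b2 2)) ≤ (T : ℝ) ^ (2 * m) * 4 ^ m := by
    apply max_le
    · exact one_le_mul_of_one_le_of_one_le hT2m h4
    · simp only [ph, Matrix.cons_val_two, Matrix.tail_cons, Matrix.head_cons]
      exact (L1_C_mul _ _).trans (mul_le_mul ha1m l2 (L1_nonneg _) (by positivity))
  have f0 : max 1 (L1 (C (cc c0 c1 c2 0))) ≤ (T : ℝ) ^ 2 := by
    apply max_le hT2
    simp only [cc, Matrix.cons_val_zero]
    rw [L1_C, Int.cast_natCast, Nat.abs_cast]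
    exact_mod_cast h0
  have f1 : max 1 (L1 (C (cc c0 c1 c2 1))) ≤ (T : ℝ) ^ (2 * m + 1) := by
    apply max_le hT2m1
    simp only [cc, Matrix.cons_val_one, Matrix.cons_val_zero]
    rw [L1_C, Int.cast_natCast, Nat.abs_cast]
    exact_mod_cast h1
  have f2 : max 1 (L1 (C (cc c0 c1 c2 2))) ≤ (T : ℝ) ^ (2 * m + 1) := by
    apply max_le hT2m1
    simp only [cc, Matrix.cons_val_two, Matrix.tail_cons, Matrix.head_cons]
    rw [L1_C, Int.cast_natCast, Nat.abs_cast]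
    exact_mod_cast h2
  have hpos : ∀ x : ℝ, 0 < max 1 x := fun x => lt_of_lt_of_le one_pos (le_max_left _ _)
  have hBc : Bc (ph δ m a1 b2) (cc c0 c1 c2) ≤
      ((T : ℝ) ^ 2 * (T : ℝ) ^ 2) * (((T : ℝ) ^ (2 * m) * 4 ^ m) * (T : ℝ) ^ (2 * m + 1)) *
      (((T : ℝ) ^ (2 * m) * 4 ^ m) * (T : ℝ) ^ (2 * m + 1)) := by
    unfold Bc
    rw [Fin.prod_univ_three]
    have g0 := mul_le_mul e0 f0 (hpos _).le (by positivity)
    have g1 := mul_le_mul e1 f1 (hpos _).le (by positivity)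
    have g2 := mul_le_mul e2 f2 (hpos _).le (by positivity)
    have p0 := mul_pos (hpos (L1 (ph δ m a1 b2 0))) (hpos (L1 (C (cc c0 c1 c2 0))))
    have p1 := mul_pos (hpos (L1 (ph δ m a1 b2 1))) (hpos (L1 (C (cc c0 c1 c2 1))))
    have p2 := mul_pos (hpos (L1 (ph δ m a1 b2 2))) (hpos (L1 (C (cc c0 c1 c2 2))))
    exact mul_le_mul (mul_le_mul g0 g1 p1.le (by positivity)) g2 p2.le (by positivity)
  have hlog : Real.log (2 * Bc (ph δ m a1 b2) (cc c0 c1 c2)) ≤ 1 + (8 * m + 6) * L + 4 * m := by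
    have hB1 := one_le_Bc (ph δ m a1 b2) (cc c0 c1 c2)
    rw [Real.log_mul (by norm_num) (by linarith)]
    have h3 := Real.log_le_log (by linarith) hBc
    have h5 : ((T : ℝ) ^ 2 * (T : ℝ) ^ 2) * (((T : ℝ) ^ (2 * m) * 4 ^ m) * (T : ℝ) ^ (2 * m + 1)) *
      (((T : ℝ) ^ (2 * m) * 4 ^ m) * (T : ℝ) ^ (2 * m + 1)) = (T : ℝ) ^ (8 * m + 6) * 4 ^ (2 * m) := by
      ring
    rw [h5, Real.log_mul (by positivity) (by positivity), Real.log_pow, Real.log_pow] at h3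
    have h6 : ((8 * m + 6 : ℕ) : ℝ) * Real.log T ≤ ((8 * m + 6 : ℕ) : ℝ) * L :=
      mul_le_mul_of_nonneg_left hL (Nat.cast_nonneg _)
    have h7 : ((2 * m : ℕ) : ℝ) * Real.log 4 ≤ ((2 * m : ℕ) : ℝ) * 2 :=
      mul_le_mul_of_nonneg_left log_four_two (Nat.cast_nonneg _)
    push_cast at h3 h6 h7
    have := log_two_one
    linarith
  have hdeg : ((∑ i, (ph δ m a1 b2 i).natDegree : ℕ) : ℝ) ≤ 4 * m + 1 := by
    rw [Fin.sum_univ_three]
    have g0 : (ph δ m a1 b2 0).natDegree ≤ 1 := by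
      simp only [ph, Matrix.cons_val_zero]
      exact (natDegree_C_mul_le _ _).trans natDegree_X_le
    have g1 : (ph δ m a1 b2 1).natDegree ≤ 2 * m := by
      simp only [ph, Matrix.cons_val_one, Matrix.cons_val_zero]
      exact (natDegree_C_mul_le _ _).trans d1
    have g2 : (ph δ m a1 b2 2).natDegree ≤ 2 * m := by
      simp only [ph, Matrix.cons_val_two, Matrix.tail_cons, Matrix.head_cons]
      exact (natDegree_C_mul_le _ _).trans d2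
    have : (ph δ m a1 b2 0).natDegree + (ph δ m a1 b2 1).natDegree + (ph δ m a1 b2 2).natDegree ≤
        4 * m + 1 := by omega
    exact_mod_cast this
  unfold Ac
  have hm0 : (0 : ℝ) ≤ m := Nat.cast_nonneg m
  nlinarith [mul_nonneg hm0 hL0]

end Pool.Agent.H573.AHB
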