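import Pool.Agent.H573.AHB.UnC

/-!
The count of bad primes for the forms `U, V, F_m, G_m`, with explicit constants.
-/

namespace Pool.Agent.H573.AHB

open Polynomial

lemma ucount_pair (P : Prop) (A B A' B' : ℕ) (hA : 1 ≤ A) (hB : 1 ≤ B) (hA' : 1 ≤ A')
    (hB' : 1 ≤ B') (hne : P ∨ (A ≠ B ∨ A' ≠ B')) (q0 : ℕ) (W : ℝ) (hW0 : 0 ≤ W)
    (hW : Real.log (A + B) ≤ W) (hW' : Real.log (A' + B') ≤ W) :
    UCount (fun q n => ¬ P ∧ (((A : ZMod q) ^ n = (B : ZMod q) ^ n) ∧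
      ((A' : ZMod q) ^ n = (B' : ZMod q) ^ n))) (2 * W) q0 := by
  have hl2 := log_two_half
  have key : ∀ x : ℝ, x ≤ W → x / Real.log 2 ≤ 2 * W := by
    intro x hx
    rw [div_le_iff₀ (by linarith)]
    nlinarith
  rcases hne with h | h | h
  · refine ((ucount_false q0).mono ?_).weak (by linarith) le_rfl
    intro q n _ _ _ hh
    exact hh.1 h
  · refine ((ucount_num A B hA hB h q0).mono ?_).weak (key _ hW) le_rfl
    intro q n _ _ _ hh
    exact hh.2.1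
  · refine ((ucount_num A' B' hA' hB' h q0).mono ?_).weak (key _ hW') le_rfl
    intro q n _ _ _ hh
    exact hh.2.2

lemma log_sum_le (m T A B : ℕ) (L : ℝ) (hT : 1 ≤ T) (hL : Real.log T ≤ L) (hA0 : 1 ≤ A)
    (hA : A ≤ (2 * m + 1) * T ^ (2 * m + 1)) (hB : B ≤ (2 * m + 1) * T ^ (2 * m + 1)) :
    Real.log (A + B) ≤ 2 * (m + 1) * (L + 2) := by
  have hTr : (1 : ℝ) ≤ T := by exact_mod_cast hT
  have hL0 : 0 ≤ L := (Real.log_nonneg hTr).trans hL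
  have h1 : ((A + B : ℕ) : ℝ) ≤ 2 * ((2 * m + 1 : ℕ) : ℝ) * (T : ℝ) ^ (2 * m + 1) := by
    have : A + B ≤ 2 * (2 * m + 1) * T ^ (2 * m + 1) := by
      rw [mul_assoc]
      omega
    exact_mod_cast this
  have h2 : (0 : ℝ) < ((A + B : ℕ) : ℝ) := by exact_mod_cast (by omega : 0 < A + B)
  have h3 := Real.log_le_log h2 h1
  have hT0 : (0 : ℝ) < (T : ℝ) ^ (2 * m + 1) := by positivity
  have hm0 : (0 : ℝ) < ((2 * m + 1 : ℕ) : ℝ) := by exact_mod_cast (by omega : 0 < 2 * m + 1)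
  rw [Real.log_mul (by positivity) (by positivity), Real.log_mul (by norm_num) (by positivity),
    Real.log_pow] at h3
  have h4 := log_nat_le (2 * m + 1)
  have h5 : ((2 * m + 1 : ℕ) : ℝ) * Real.log T ≤ ((2 * m + 1 : ℕ) : ℝ) * L :=
    mul_le_mul_of_nonneg_left hL (Nat.cast_nonneg _)
  have h6 := log_two_one
  push_cast at h3 h4 h5 ⊢
  have hm1 : (0 : ℝ) ≤ m := Nat.cast_nonneg m
  nlinarith [mul_nonneg hm1 hL0]

/-- **Core theorem, explicit.** -/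
theorem ucount_badF (δ : ℤ) (hδ1 : δ.natAbs = 1) (m a1 a2 b1 b2 e h T : ℕ) (L : ℝ) (zU zV : Prop)
    (E : ℤ[X]) (hm : 1 ≤ m) (ha1 : 1 ≤ a1) (ha2 : 1 ≤ a2) (hb1 : 1 ≤ b1) (hb2 : 1 ≤ b2)
    (he : 1 ≤ e) (hh : 1 ≤ h) (ta1 : a1 ≤ T) (ta2 : a2 ≤ T) (tb1 : b1 ≤ T) (tb2 : b2 ≤ T)
    (te : e ≤ T) (th : h ≤ T) (hL : Real.log T ≤ L)
    (hp : (2 * m + 1).Prime) (q0 : ℕ) (qa1 : a1 ≤ q0) (qa2 : a2 ≤ q0) (qb1 : b1 ≤ q0)
    (qb2 : b2 ≤ q0) (qm : 2 * m + 1 ≤ q0)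
    (hnz : ∀ q : ℕ, q.Prime → q0 < q → ((e : ℕ) : ZMod q) ≠ 0 ∧ ((h : ℕ) : ZMod q) ≠ 0)
    (HT : ∀ z : ℂ, aeval z E ≠ 0 → ∃ i, ∀ N : ℕ, 1 ≤ N → (aeval z (ph δ m a1 b2 i)) ^ N ≠
      ((cc (b1 * a2) (a2 ^ (2 * m) * e) (a2 ^ (2 * m) * h) i : ℤ) : ℂ) ^ N)
    (N1 : zU ∨ (b2 ^ (2 * m) * e ≠ (2 * m + 1) * δ.natAbs ^ m * b1 ^ (2 * m) ∨
      b2 ^ (2 * m) * h ≠ δ.natAbs ^ m * b1 ^ (2 * m)))
    (N2 : zV ∨ (a2 ^ (2 * m) * e ≠ a1 ^ (2 * m) ∨ a2 ^ (2 * m) * h ≠ (2 * m + 1) * a1 ^ (2 * m))) :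
    UCount (BadF δ m a1 a2 b1 b2 e h zU zV E) (2000000 * ((m + 1) * (L + 2)) ^ 2) q0 := by
  classical
  have hδ0 : δ ≠ 0 := by
    rintro rfl
    simp at hδ1
  have hT : 1 ≤ T := ha1.trans ta1
  have hTr : (1 : ℝ) ≤ T := by exact_mod_cast hT
  have hL0 : 0 ≤ L := (Real.log_nonneg hTr).trans hL
  have hm1 : (0 : ℝ) ≤ m := Nat.cast_nonneg m
  have hpδ : ¬ ((2 * m + 1 : ℕ) : ℤ) ∣ δ := by
    intro h
    have h3 := Int.natAbs_dvd_natAbs.mpr h
    rw [Int.natAbs_natCast, hδ1] at h3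
    have := Nat.le_of_dvd one_pos h3
    omega
  have hδn : 1 ≤ δ.natAbs := by omega
  obtain ⟨Y, hY⟩ : ∃ Y : ℝ, Y = (m + 1) * (L + 2) := ⟨_, rfl⟩
  have hY2 : 2 ≤ Y := by
    rw [hY]
    nlinarith [mul_nonneg hm1 hL0]
  -- the sizes
  have hpow : ∀ x y k : ℕ, x ≤ T → y ≤ T → x ^ (2 * m) * y ≤ T ^ (2 * m + 1) := by
    intro x y _ hx hy
    rw [pow_succ]
    exact Nat.mul_le_mul (Nat.pow_le_pow_left hx _) hy
  have hpow1 : ∀ x : ℕ, x ≤ T → x ^ (2 * m) ≤ T ^ (2 * m + 1) := by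
    intro x hx
    exact (Nat.pow_le_pow_left hx _).trans (Nat.pow_le_pow_right hT (by omega))
  have hle1 : ∀ x : ℕ, x ≤ T ^ (2 * m + 1) → x ≤ (2 * m + 1) * T ^ (2 * m + 1) := fun x hx =>
    hx.trans (Nat.le_mul_of_pos_left _ (by omega))
  have s1 := ucount_pair zU (b2 ^ (2 * m) * e) ((2 * m + 1) * δ.natAbs ^ m * b1 ^ (2 * m))
    (b2 ^ (2 * m) * h) (δ.natAbs ^ m * b1 ^ (2 * m))
    (Nat.mul_pos (by positivity) (by omega))
    (Nat.mul_pos (Nat.mul_pos (by omega) (pow_pos hδn _)) (by positivity))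
    (Nat.mul_pos (by positivity) (by omega))
    (Nat.mul_pos (pow_pos hδn _) (by positivity)) N1 q0 (2 * Y) (by linarith)
    (by
      rw [hY, ← mul_assoc]
      refine log_sum_le m T _ _ L hT hL (Nat.mul_pos (by positivity) (by omega))
        (hle1 _ (hpow _ _ 0 tb2 te)) ?_
      rw [hδ1, one_pow, mul_one]
      exact Nat.mul_le_mul_left _ (hpow1 _ tb1))
    (by
      rw [hY, ← mul_assoc]
      refine log_sum_le m T _ _ L hT hL (Nat.mul_pos (by positivity) (by omega))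
        (hle1 _ (hpow _ _ 0 tb2 th)) ?_
      rw [hδ1, one_pow, one_mul]
      exact hle1 _ (hpow1 _ tb1))
  have s2 := ucount_pair zV (a2 ^ (2 * m) * e) (a1 ^ (2 * m)) (a2 ^ (2 * m) * h)
    ((2 * m + 1) * a1 ^ (2 * m)) (Nat.mul_pos (by positivity) (by omega)) (by
      exact Nat.one_le_pow _ _ ha1)
    (Nat.mul_pos (by positivity) (by omega))
    (Nat.mul_pos (by omega) (by positivity)) N2 q0 (2 * Y) (by linarith)
    (by
      rw [hY, ← mul_assoc]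
      exact log_sum_le m T _ _ L hT hL (Nat.mul_pos (by positivity) (by omega))
        (hle1 _ (hpow _ _ 0 ta2 te)) (hle1 _ (hpow1 _ ta1)))
    (by
      rw [hY, ← mul_assoc]
      exact log_sum_le m T _ _ L hT hL (Nat.mul_pos (by positivity) (by omega))
        (hle1 _ (hpow _ _ 0 ta2 th)) (Nat.mul_le_mul_left _ (hpow1 _ ta1)))
  have hf1 : (fp δ m).coeff 0 = 1 := by
    have h3 := aeval_fp (0 : ℤ) δ m
    rw [Int.cast_id, (FG_v0 δ 1 m).1, one_pow] at h3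
    rw [coeff_zero_eq_aeval_zero]
    exact h3
  have hfne : fp δ m ≠ 0 := by
    intro h0
    rw [h0] at hf1
    simp at hf1
  have hfq : ∀ q : ℕ, q.Prime → ¬ C (q : ℤ) ∣ fp δ m := by
    intro q hq hd
    have h3 := (C_dvd_iff_dvd_coeff _ _).mp hd 0
    rw [hf1] at h3
    have h4 : (q : ℤ) ∣ ((1 : ℕ) : ℤ) := by simpa using h3
    have h5 := Int.natCast_dvd_natCast.mp h4
    have := hq.one_lt
    have := Nat.le_of_dvd one_pos h5
    omega
  have hgm : (gp δ m).coeff (2 * m) = δ ^ m := (fgp_deg δ m).2.2.2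
  have hg0 : (gp δ m).coeff 0 = 2 * m + 1 := by
    have h3 := aeval_gp (0 : ℤ) δ m
    rw [Int.cast_id, (FG_v0 δ 1 m).2, one_pow, mul_one] at h3
    rw [coeff_zero_eq_aeval_zero]
    exact h3
  have hgne : gp δ m ≠ 0 := by
    intro h0
    rw [h0] at hg0
    simp at hg0
    omega
  have hgq : ∀ q : ℕ, q.Prime → ¬ C (q : ℤ) ∣ gp δ m := by
    intro q hq hd
    have h3 := (C_dvd_iff_dvd_coeff _ _).mp hd 0
    have h4 := (C_dvd_iff_dvd_coeff _ _).mp hd (2 * m)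
    rw [hg0] at h3
    rw [hgm] at h4
    have h5 : ((q : ℕ) : ℤ) ∣ ((2 * m + 1 : ℕ) : ℤ) := by
      push_cast
      exact h3
    have h6 := Int.natCast_dvd_natCast.mp h5
    have h7 := (Nat.prime_dvd_prime_iff_eq hq hp).mp h6
    have h8 := (Nat.prime_iff_prime_int.mp hq).dvd_of_dvd_pow h4
    rw [h7] at h8
    exact hpδ h8
  obtain ⟨z1, z2⟩ := sz_fgp δ hδ1 m hfne hgne
  have hab : ∀ x y : ℕ, x ≤ T → y ≤ T → ((x * y : ℕ) : ℝ) ≤ (T : ℝ) ^ 2 := by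
    intro x y hx hy
    rw [pow_two]
    exact_mod_cast Nat.mul_le_mul hx hy
  have hrt : ∀ P : ℤ[X], P ≠ 0 → sz P ≤ 4 * m →
      (Real.log (2 * (((b2 * a1 : ℕ) : ℝ) + ((b1 * a2 : ℕ) : ℝ))) + 1) * sz P / Real.log 2 ≤
        24 * Y := by
    intro P hP hs
    have hs0 := sz_nonneg hP
    have g1 := hab b2 a1 tb2 ta1
    have g2 := hab b1 a2 tb1 ta2
    have g0 : (1 : ℝ) ≤ ((b2 * a1 : ℕ) : ℝ) := by exact_mod_cast Nat.mul_pos hb2 ha1
    have g0' : (1 : ℝ) ≤ ((b1 * a2 : ℕ) : ℝ) := by exact_mod_cast Nat.mul_pos hb1 ha2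
    have g3 : Real.log (2 * (((b2 * a1 : ℕ) : ℝ) + ((b1 * a2 : ℕ) : ℝ))) ≤ 2 + 2 * L := by
      have g4 := Real.log_le_log (by linarith)
        (show 2 * (((b2 * a1 : ℕ) : ℝ) + ((b1 * a2 : ℕ) : ℝ)) ≤ 4 * (T : ℝ) ^ 2 by linarith)
      have g4' : Real.log (4 * (T : ℝ) ^ 2) = Real.log 4 + 2 * Real.log T := by
        rw [Real.log_mul (by norm_num) (by positivity), Real.log_pow]
        norm_num
      rw [g4'] at g4
      have := log_four_two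
      linarith
    have hl2 := log_two_half
    have g5 : 0 ≤ Real.log (2 * (((b2 * a1 : ℕ) : ℝ) + ((b1 * a2 : ℕ) : ℝ))) :=
      Real.log_nonneg (by linarith)
    rw [div_le_iff₀ (by linarith)]
    have g6 : (Real.log (2 * (((b2 * a1 : ℕ) : ℝ) + ((b1 * a2 : ℕ) : ℝ))) + 1) * sz P ≤
        (2 * L + 3) * (4 * m) := by
      apply mul_le_mul _ hs hs0 (by linarith)
      linarith
    have g7 : (2 * L + 3) * (4 * m) ≤ 12 * Y := by
      rw [hY]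
      nlinarith [mul_nonneg hm1 hL0]
    nlinarith
  have s3 := (ucount_root (fp δ m) hfne hfq (b2 * a1) (b1 * a2) (Nat.mul_pos hb2 ha1)
    (Nat.mul_pos hb1 ha2) (by
    intro n hn z hz
    rw [aeval_fp] at hz
    exact no_root m hm hp δ hpδ (b2 * a1) (b1 * a2) (Nat.mul_pos hb2 ha1) (Nat.mul_pos hb1 ha2)
      n hn z (Or.inl hz)) q0).weak (hrt _ hfne z1) le_rfl
  have s4 := (ucount_root (gp δ m) hgne hgq (b2 * a1) (b1 * a2) (Nat.mul_pos hb2 ha1)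
    (Nat.mul_pos hb1 ha2) (by
    intro n hn z hz
    rw [aeval_gp] at hz
    exact no_root m hm hp δ hpδ (b2 * a1) (b1 * a2) (Nat.mul_pos hb2 ha1) (Nat.mul_pos hb1 ha2)
      n hn z (Or.inr hz)) q0).weak (hrt _ hgne z2) le_rfl
  have hnz' : ∀ q : ℕ, q.Prime → q0 < q → (((b1 * a2 : ℕ) : ZMod q) ≠ 0) ∧
      (((a2 ^ (2 * m) * e : ℕ) : ZMod q) ≠ 0) ∧ (((a2 ^ (2 * m) * h : ℕ) : ZMod q) ≠ 0) := by
    intro q hq hlt
    have hF : Fact q.Prime := ⟨hq⟩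
    have g1 : (a2 : ZMod q) ≠ 0 := natCast_ne_zero_of_lt ha2 (by omega) (ZMod q)
    have g2 : (b1 : ZMod q) ≠ 0 := natCast_ne_zero_of_lt hb1 (by omega) (ZMod q)
    obtain ⟨g3, g4⟩ := hnz q hq hlt
    refine ⟨?_, ?_, ?_⟩
    · push_cast
      exact mul_ne_zero g2 g1
    · push_cast
      exact mul_ne_zero (pow_ne_zero _ g1) g3
    · push_cast
      exact mul_ne_zero (pow_ne_zero _ g1) g4
  have h5 := count_primesE (r := 3) (by norm_num) (ph δ m a1 b2)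
    (cc (b1 * a2) (a2 ^ (2 * m) * e) (a2 ^ (2 * m) * h)) (by
      intro i
      have e1 : 1 ≤ b1 * a2 := Nat.mul_pos hb1 ha2
      have e2 : 1 ≤ a2 ^ (2 * m) * e := Nat.mul_pos (by positivity) he
      have e3 : 1 ≤ a2 ^ (2 * m) * h := Nat.mul_pos (by positivity) hh
      have h3cases : i = 0 ∨ i = 1 ∨ i = 2 := by
        fin_cases i <;> simp
      rcases h3cases with rfl | rfl | rfl
      · simp only [cc, Matrix.cons_val_zero]
        exact_mod_cast (by omega : b1 * a2 ≠ 0)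
      · simp only [cc, Matrix.cons_val_zero, Matrix.cons_val_one]
        exact_mod_cast (by omega : a2 ^ (2 * m) * e ≠ 0)
      · simp only [cc, Matrix.cons_val_two, Matrix.tail_cons, Matrix.head_cons]
        exact_mod_cast (by omega : a2 ^ (2 * m) * h ≠ 0)) E q0 (by
      intro q hq hlt i
      obtain ⟨g1, g2, g3⟩ := hnz' q hq hlt
      have h3cases : i = 0 ∨ i = 1 ∨ i = 2 := by
        fin_cases i <;> simp
      rcases h3cases with rfl | rfl | rfl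
      · simp only [cc, Matrix.cons_val_zero, Int.cast_natCast]
        exact g1
      · simp only [cc, Matrix.cons_val_zero, Matrix.cons_val_one, Int.cast_natCast]
        exact g2
      · simp only [cc, Matrix.cons_val_two, Matrix.tail_cons, Matrix.head_cons, Int.cast_natCast]
        exact g3) (by
      intro q hq hlt i
      have hchar : CharP (AlgebraicClosure (ZMod q)) q :=
        charP_of_injective_algebraMap (algebraMap (ZMod q) _).injective q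
      obtain ⟨z, hz1, hz2⟩ := ph_Hq (AlgebraicClosure (ZMod q)) δ m a1 b2 hm ha1 hb2 hδ0 q
        (by omega) (by omega) (by omega) (by omega) i
      exact ⟨AlgebraicClosure (ZMod q), inferInstance, hchar, z, hz1, hz2⟩) HT
  have s5 : UCount (fun q n => ∃ t : ZMod q, aeval t E ≠ 0 ∧ ∀ i, (aeval t (ph δ m a1 b2 i)) ^ n =
      ((cc (b1 * a2) (a2 ^ (2 * m) * e) (a2 ^ (2 * m) * h) i : ℤ) : ZMod q) ^ n)
      (1555200 * Y ^ 2) q0 := by
    intro K R hR hRK hKR Q hQ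
    have h6 := h5 K R hR hRK hKR Q (by
      intro q hq
      obtain ⟨g1, g2, n, g3, g4, _, t, ht1, ht2⟩ := hQ q hq
      exact ⟨g1, g2, t, n, g3, g4, ht1, ht2⟩)
    refine h6.trans ?_
    apply mul_le_mul_of_nonneg_right _ (by positivity)
    apply mul_le_mul_of_nonneg_right _ (by positivity)
    have hAc := Ac_ph δ hδ1 m a1 b2 (b1 * a2) (a2 ^ (2 * m) * e) (a2 ^ (2 * m) * h) T L hT hL ta1 tb2
      (by rw [pow_two]; exact Nat.mul_le_mul tb1 ta2) (hpow _ _ 0 ta2 te) (hpow _ _ 0 ta2 th)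
    have hAc' : Ac (ph δ m a1 b2) (cc (b1 * a2) (a2 ^ (2 * m) * e) (a2 ^ (2 * m) * h)) ≤ 10 * Y := by
      rw [hY, ← mul_assoc]
      exact hAc
    have hAc0 := Ac_nonneg (ph δ m a1 b2) (cc (b1 * a2) (a2 ^ (2 * m) * e) (a2 ^ (2 * m) * h))
    obtain ⟨a, ha⟩ : ∃ a, a = Ac (ph δ m a1 b2) (cc (b1 * a2) (a2 ^ (2 * m) * e)
      (a2 ^ (2 * m) * h)) := ⟨_, rfl⟩
    rw [← ha] at hAc' hAc0 ⊢
    have hl2 := log_two_half
    have hsq : a ^ 2 ≤ (10 * Y) ^ 2 := pow_le_pow_left₀ hAc0 hAc' 2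
    have e1 : 2 ^ (3 + 1) * a * (((3 : ℕ) : ℝ) ^ (3 - 1)) / Real.log 2 * a *
        (2 * ((3 : ℕ) : ℝ) * 3 ^ (3 - 1)) = 7776 * a ^ 2 / Real.log 2 := by
      norm_num
      ring
    rw [e1, div_le_iff₀ (by linarith)]
    nlinarith [sq_nonneg Y]
  have hall := s1.or (s2.or (s3.or (s4.or s5)))
  refine (hall.mono ?_).weak ?_ le_rfl
  · intro q n hqp hlt hne hbad
    exact badF_cases δ m a1 a2 b1 b2 e h zU zV E q n ha1 ha2 hb2 hδ0 hqp (by omega) (by omega)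
      (by omega) (by omega) (by omega) hne hbad
  · rw [← hY]
    nlinarith

end Pool.Agent.H573.AHB
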