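import Pool.Agent.H573.AHB.GfG
import Pool.Agent.H573.AHB.UnD

/-!
The density theorem with explicit counts, and many auxiliary primes.
-/

set_option autoImplicit false

namespace Pool.Agent.H573.AHB

open Finset Filter
open Pool.Agent.H262R4.FR (Pr piq)
open Pool.Agent.H262R4.FR.TBT (evA evB evC)
open Gold

/-- **The density theorem**: many good primes `q` for a positive proportion of the primes `s`. -/
theorem densV (f : ℕ) (hf : 1 ≤ f) : ∃ c η : ℝ, 0 < c ∧ 0 < η ∧ η ≤ 1 / 4 ∧ ∀ s0 : ℕ,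
    ∀ᶠ X : ℕ in atTop, ∀ (Bd : ℕ → ℕ → Prop) (C : ℝ) (q0 : ℕ), UCount Bd C q0 → 0 ≤ C →
      C * (X : ℝ) ^ (74 / 75 : ℝ) ≤ (X : ℝ) ^ (99 / 100 : ℝ) →
      (q0 : ℝ) + 1 ≤ (X : ℝ) ^ (99 / 100 : ℝ) →
      ∃ T : Finset ℕ, c ≤ ∑ s ∈ T, (1 : ℝ) / s ∧
      ∀ s ∈ T, s.Prime ∧ s0 < s ∧ (X : ℝ) ^ (63 / 100 : ℝ) < s ∧ s ≤ X ∧
        ∃ G : Finset ℕ, (X : ℝ) ^ (η / 2) ≤ (G.card : ℝ) ∧ ∀ q ∈ G, q.Prime ∧ q ≤ X ∧
          f ∣ q - 1 ∧ s ∣ q - 1 ∧ ¬ Bd q ((q - 1) / s) := by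
  classical
  obtain ⟨κ, hκ⟩ : ∃ κ : ℝ, κ = 1 / (Nat.totient f : ℝ) := ⟨_, rfl⟩
  have hφf : (0 : ℝ) < Nat.totient f := by exact_mod_cast Nat.totient_pos.mpr hf
  have hκ0 : 0 < κ := by rw [hκ]; positivity
  obtain ⟨η, hη0, hη1, hlarge⟩ := largef f hf (κ / 400) (by positivity)
  refine ⟨η / 12000, η, by positivity, hη0, hη1, ?_⟩
  intro s0
  have hgold := goldf f hf
  have hsing := single f hf η hη0 hη1
  filter_upwards [hgold, hsing, hlarge, evB (8000 / κ) (99 / 100) (by positivity) (by norm_num),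
    evB (8000 / κ) (1 - η / 2) (by positivity) (by linarith),
    evA ((s0 : ℝ) + 3) 0 (63 / 100) (by norm_num),
    evA 4 (1 - η) 1 (by linarith), evA 1 (63 / 100) (1 - η) (by linarith),
    eventually_ge_atTop 3] with X hg hsi hla hb1 hbη hb4 hb5 hb6 hX3
  intro Bd C q0 hcount hC hb3 hb2
  have hX0 : (0 : ℝ) < X := by
    have : 0 < X := by omega
    exact_mod_cast this
  have hX1r : (1 : ℝ) ≤ X := by
    have : 1 ≤ X := by omega
    exact_mod_cast this
  have hlX : 0 < Real.log X := Real.log_pos (by exact_mod_cast (by omega : 1 < X))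
  rw [Real.rpow_zero, mul_one] at hb4
  rw [Real.rpow_one] at hb5
  rw [one_mul] at hb6
  rw [← hκ] at hg hsi
  obtain ⟨Z, hZ⟩ : ∃ Z, Z = ⌊(X : ℝ) ^ (63 / 100 : ℝ)⌋₊ := ⟨_, rfl⟩
  obtain ⟨Z1, hZ1⟩ : ∃ Z1, Z1 = ⌊(X : ℝ) ^ (1 - η)⌋₊ := ⟨_, rfl⟩
  obtain ⟨K, hK⟩ : ∃ K, K = ⌊(X : ℝ) ^ (37 / 100 : ℝ)⌋₊ := ⟨_, rfl⟩
  rw [← hZ] at hg
  rw [← hZ, ← hZ1] at hsi
  rw [← hZ1] at hla
  have hK1 : 1 ≤ K := by
    rw [hK]
    apply Nat.le_floor
    rw [Nat.cast_one]
    exact Real.one_le_rpow hX1r (by norm_num)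
  have hKX : (K : ℝ) ≤ (X : ℝ) ^ (37 / 100 : ℝ) := by
    rw [hK]
    exact Nat.floor_le (Real.rpow_nonneg hX0.le _)
  have hK0 : (0 : ℝ) < K := by exact_mod_cast hK1
  obtain ⟨R, hR1, hRK, hKR⟩ := cube_root K hK1
  have hZZ1 : Z ≤ Z1 := by
    rw [hZ, hZ1]
    exact Nat.floor_mono hb6
  have hZ1X : Z1 ≤ X := by
    rw [hZ1]
    apply Nat.floor_le_of_le
    calc (X : ℝ) ^ (1 - η) ≤ (X : ℝ) ^ (1 : ℝ) :=
          Real.rpow_le_rpow_of_exponent_le hX1r (by linarith)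
      _ = X := Real.rpow_one _
  -- the good primes
  obtain ⟨GQ, hGQ⟩ : ∃ GQ : ℕ → Finset ℕ, GQ = fun s => (PX X).filter
    (fun q => f ∣ q - 1 ∧ s ∣ q - 1 ∧ ¬ Bd q ((q - 1) / s)) := ⟨_, rfl⟩
  obtain ⟨T, hT⟩ : ∃ T : Finset ℕ, T = (Pr Z Z1).filter
    (fun s => (X : ℝ) ^ (η / 2) ≤ ((GQ s).card : ℝ)) := ⟨_, rfl⟩
  have hPrmem : ∀ s ∈ Pr Z Z1, s.Prime ∧ (X : ℝ) ^ (63 / 100 : ℝ) < s ∧ s ≤ Z1 ∧ s0 < s ∧ 2 < s := by
    intro s hs
    unfold Pool.Agent.H262R4.FR.Pr at hs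
    rw [mem_filter, mem_Ioc] at hs
    have h1 : (X : ℝ) ^ (63 / 100 : ℝ) < s := by
      rw [hZ] at hs
      exact (Nat.floor_lt (Real.rpow_nonneg hX0.le _)).mp hs.1.1
    have h2 : (s0 : ℝ) + 3 < s := lt_of_le_of_lt hb4 h1
    have h3 : s0 + 3 < s := by exact_mod_cast h2
    exact ⟨hs.2, h1, hs.1.2, by omega, by omega⟩
  -- the bad ones contribute little
  obtain ⟨BQ, hBQ⟩ : ∃ BQ : Finset ℕ, BQ = (PX X).filter
    (fun q => ∃ n, 1 ≤ n ∧ n ≤ K ∧ Even n ∧ Bd q n) := ⟨_, rfl⟩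
  have hcBQ : (BQ.card : ℝ) ≤ 2 * (X : ℝ) ^ (99 / 100 : ℝ) := by
    have hsub : BQ ⊆ range (q0 + 1) ∪ BQ.filter (fun q => q0 < q) := by
      intro q hq
      rw [mem_union, mem_range, mem_filter]
      by_cases h : q0 < q
      · exact Or.inr ⟨hq, h⟩
      · exact Or.inl (by omega)
    have h1 : BQ.card ≤ (q0 + 1) + (BQ.filter (fun q => q0 < q)).card := by
      have := (card_le_card hsub).trans (card_union_le _ _)
      rwa [card_range] at this
    have g := hcount K R hR1 hRK hKR (BQ.filter (fun q => q0 < q)) (by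
      intro q hq
      obtain ⟨hq1, hq2⟩ := mem_filter.mp hq
      rw [hBQ, mem_filter, mem_PX] at hq1
      exact ⟨hq1.1.2, hq2, hq1.2⟩)
    have hR0 : (0 : ℝ) ≤ R := Nat.cast_nonneg _
    have hR3 : (R : ℝ) ≤ (X : ℝ) ^ (37 / 300 : ℝ) := by
      have h1 : ((R : ℝ) ^ 3) ≤ (X : ℝ) ^ (37 / 100 : ℝ) := by
        refine le_trans ?_ hKX
        exact_mod_cast hRK
      have h2 : (X : ℝ) ^ (37 / 100 : ℝ) = ((X : ℝ) ^ (37 / 300 : ℝ)) ^ 3 := by
        rw [← Real.rpow_natCast, ← Real.rpow_mul hX0.le]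
        norm_num
      rw [h2] at h1
      exact (pow_le_pow_iff_left₀ hR0 (Real.rpow_nonneg hX0.le _) (by norm_num)).mp h1
    have h2 : (K : ℝ) ^ 2 ≤ ((X : ℝ) ^ (37 / 100 : ℝ)) ^ 2 := pow_le_pow_left₀ hK0.le hKX 2
    have h3 : (R : ℝ) ^ 2 ≤ ((X : ℝ) ^ (37 / 300 : ℝ)) ^ 2 := pow_le_pow_left₀ hR0 hR3 2
    have h4 : ((X : ℝ) ^ (37 / 100 : ℝ)) ^ 2 * ((X : ℝ) ^ (37 / 300 : ℝ)) ^ 2 =
        (X : ℝ) ^ (74 / 75 : ℝ) := by
      rw [← Real.rpow_natCast, ← Real.rpow_mul hX0.le, ← Real.rpow_natCast, ← Real.rpow_mul hX0.le,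
        ← Real.rpow_add hX0]
      norm_num
    have h5 : C * (K : ℝ) ^ 2 * (R : ℝ) ^ 2 ≤ C * (X : ℝ) ^ (74 / 75 : ℝ) := by
      rw [mul_assoc, ← h4]
      exact mul_le_mul_of_nonneg_left (mul_le_mul h2 h3 (by positivity) (by positivity)) hC
    have h6 : (BQ.card : ℝ) ≤ ((q0 : ℝ) + 1) + ((BQ.filter (fun q => q0 < q)).card : ℝ) := by
      exact_mod_cast h1
    linarith
  have hbad : ∑ s ∈ (Pr Z Z1).filter (fun s => ¬ (X : ℝ) ^ (η / 2) ≤ ((GQ s).card : ℝ)),
      Real.log s * Thf f X s ≤ Real.log X ^ 2 * (X : ℝ) ^ (1 - η / 2) +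
        Real.log X ^ 2 * (BQ.card : ℝ) := by
    obtain ⟨V, hV⟩ : ∃ V : Finset ℕ, V = (Pr Z Z1).filter (fun s => ¬ (X : ℝ) ^ (η / 2) ≤
      ((GQ s).card : ℝ)) := ⟨_, rfl⟩
    rw [← hV]
    have h1 : ∀ s ∈ V, Real.log s * Thf f X s ≤ Real.log X ^ 2 * (X : ℝ) ^ (η / 2) +
        Real.log X ^ 2 * ((BQ.filter (fun q => s ∣ q - 1)).card : ℝ) := by
      intro s hs
      rw [hV, mem_filter] at hs
      obtain ⟨hs1, hs2⟩ := hs
      obtain ⟨g1, g2, g3, g4, g5⟩ := hPrmem s hs1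
      push Not at hs2
      have hs0 : 0 < s := g1.pos
      have h2 : Nf f X s ≤ (GQ s).card + (BQ.filter (fun q => s ∣ q - 1)).card := by
        unfold Nf
        refine (card_le_card ?_).trans (card_union_le _ _)
        intro q hq
        rw [mem_filter, mem_PX] at hq
        obtain ⟨⟨hq1, hq2⟩, hq3, hq4⟩ := hq
        rw [mem_union]
        by_cases hb : Bd q ((q - 1) / s)
        · right
          rw [mem_filter, hBQ, mem_filter, mem_PX]
          refine ⟨⟨⟨hq1, hq2⟩, (q - 1) / s, ?_, ?_, ?_, hb⟩, hq4⟩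
          · have := hq2.two_le
            exact Nat.div_pos (Nat.le_of_dvd (by omega) hq4) hs0
          · rw [hK]
            apply Nat.le_floor
            have h3 : ((q - 1) / s) * s ≤ X := by
              have := Nat.div_mul_le_self (q - 1) s
              omega
            have h4 : (((q - 1) / s : ℕ) : ℝ) * s ≤ X := by exact_mod_cast h3
            have h5 : (X : ℝ) = (X : ℝ) ^ (37 / 100 : ℝ) * (X : ℝ) ^ (63 / 100 : ℝ) := by
              rw [← Real.rpow_add hX0]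
              norm_num
            by_contra hcon
            push Not at hcon
            have h6 : (X : ℝ) ^ (37 / 100 : ℝ) * (X : ℝ) ^ (63 / 100 : ℝ) <
                (((q - 1) / s : ℕ) : ℝ) * s :=
              mul_lt_mul'' hcon g2 (Real.rpow_nonneg hX0.le _) (Real.rpow_nonneg hX0.le _)
            rw [← h5] at h6
            linarith
          · have hq5 : Even (q - 1) := by
              have h3 : s ≤ q - 1 := Nat.le_of_dvd (by have := hq2.two_le; omega) hq4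
              have : q ≠ 2 := by omega
              have := hq2.eq_two_or_odd'.resolve_left this
              exact Nat.Odd.sub_odd this odd_one
            rw [← Nat.mul_div_cancel' hq4, Nat.even_mul] at hq5
            rcases hq5 with h | h
            · have := (Nat.Prime.even_iff g1).mp h
              omega
            · exact h
        · left
          rw [hGQ]
          exact mem_filter.mpr ⟨mem_PX.mpr ⟨hq1, hq2⟩, hq3, hq4, hb⟩
      have h3 : Real.log s ≤ Real.log X := by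
        apply Real.log_le_log
        · exact_mod_cast hs0
        · exact_mod_cast (by omega : s ≤ X)
      have h4 : (Nf f X s : ℝ) ≤ ((GQ s).card : ℝ) +
          ((BQ.filter (fun q => s ∣ q - 1)).card : ℝ) := by exact_mod_cast h2
      have h5 : (Nf f X s : ℝ) ≤ (X : ℝ) ^ (η / 2) +
          ((BQ.filter (fun q => s ∣ q - 1)).card : ℝ) := by linarith
      calc Real.log s * Thf f X s ≤ Real.log X * (Real.log X * (Nf f X s : ℝ)) :=
            mul_le_mul h3 (Thf_le_Nf f X s) (Thf_nonneg _ _ _) hlX.le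
        _ ≤ Real.log X * (Real.log X * ((X : ℝ) ^ (η / 2) +
            ((BQ.filter (fun q => s ∣ q - 1)).card : ℝ))) := by
            apply mul_le_mul_of_nonneg_left _ hlX.le
            exact mul_le_mul_of_nonneg_left h5 hlX.le
        _ = _ := by ring
    refine (sum_le_sum h1).trans ?_
    rw [sum_add_distrib]
    have hpow : (X : ℝ) ^ (1 - η) * (X : ℝ) ^ (η / 2) = (X : ℝ) ^ (1 - η / 2) := by
      rw [← Real.rpow_add hX0]
      congr 1
      ring
    have hVc : (V.card : ℝ) ≤ (X : ℝ) ^ (1 - η) := by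
      have h6 : V.card ≤ Z1 := by
        rw [hV]
        refine (card_filter_le _ _).trans ?_
        unfold Pool.Agent.H262R4.FR.Pr
        refine (card_filter_le _ _).trans ?_
        rw [Nat.card_Ioc]
        omega
      have h7 : (Z1 : ℝ) ≤ (X : ℝ) ^ (1 - η) := by
        rw [hZ1]
        exact Nat.floor_le (Real.rpow_nonneg hX0.le _)
      exact le_trans (by exact_mod_cast h6) h7
    apply add_le_add
    · rw [sum_const, nsmul_eq_mul, ← hpow]
      calc (V.card : ℝ) * (Real.log X ^ 2 * (X : ℝ) ^ (η / 2)) ≤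
            (X : ℝ) ^ (1 - η) * (Real.log X ^ 2 * (X : ℝ) ^ (η / 2)) :=
            mul_le_mul_of_nonneg_right hVc (by positivity)
        _ = _ := by ring
    rw [← mul_sum]
    apply mul_le_mul_of_nonneg_left _ (by positivity)
    have h2 : ∑ s ∈ V, (BQ.filter (fun q => s ∣ q - 1)).card ≤ BQ.card := by
      have h3 : ∑ s ∈ V, (BQ.filter (fun q => s ∣ q - 1)).card =
          ∑ q ∈ BQ, (V.filter (fun s => s ∣ q - 1)).card := by
        simp only [card_filter]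
        rw [sum_comm]
      rw [h3]
      have h4 : ∀ q ∈ BQ, (V.filter (fun s => s ∣ q - 1)).card ≤ 1 := by
        intro q hq
        rw [hBQ, mem_filter, mem_PX] at hq
        rw [card_le_one]
        intro s hs s' hs'
        rw [mem_filter, hV, mem_filter] at hs hs'
        obtain ⟨g1, g2, -⟩ := hPrmem s hs.1.1
        obtain ⟨g1', g2', -⟩ := hPrmem s' hs'.1.1
        by_contra hne
        have hco : Nat.Coprime s s' := (Nat.coprime_primes g1 g1').mpr hne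
        have hd := Nat.Coprime.mul_dvd_of_dvd_of_dvd hco hs.2 hs'.2
        have hq2 := hq.1.2.two_le
        have hle : s * s' ≤ X := (Nat.le_of_dvd (by omega) hd).trans (by omega)
        have hle' : (s : ℝ) * s' ≤ X := by exact_mod_cast hle
        have h5 : (X : ℝ) ^ (63 / 100 : ℝ) * (X : ℝ) ^ (63 / 100 : ℝ) < (s : ℝ) * s' :=
          mul_lt_mul'' g2 g2' (Real.rpow_nonneg hX0.le _) (Real.rpow_nonneg hX0.le _)
        rw [← Real.rpow_add hX0] at h5
        have h6 : (X : ℝ) ≤ (X : ℝ) ^ (63 / 100 + 63 / 100 : ℝ) := by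
          calc (X : ℝ) = (X : ℝ) ^ (1 : ℝ) := (Real.rpow_one _).symm
            _ ≤ _ := Real.rpow_le_rpow_of_exponent_le hX1r (by norm_num)
        linarith
      calc ∑ q ∈ BQ, (V.filter (fun s => s ∣ q - 1)).card ≤ ∑ q ∈ BQ, 1 := sum_le_sum h4
        _ = BQ.card := by simp
    exact_mod_cast h2
  -- the good ones have much mass
  have hsplit : ∑ ℓ ∈ Pr Z X, Real.log ℓ * Thf f X ℓ = ∑ ℓ ∈ Pr Z Z1, Real.log ℓ * Thf f X ℓ +
      ∑ ℓ ∈ Pr Z1 X, Real.log ℓ * Thf f X ℓ := by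
    unfold Pool.Agent.H262R4.FR.Pr
    rw [sum_filter, sum_filter, sum_filter]
    exact (sum_Ioc_consecutive _ hZZ1 hZ1X).symm
  have hsplit2 : ∑ ℓ ∈ Pr Z Z1, Real.log ℓ * Thf f X ℓ = ∑ ℓ ∈ T, Real.log ℓ * Thf f X ℓ +
      ∑ s ∈ (Pr Z Z1).filter (fun s => ¬ (X : ℝ) ^ (η / 2) ≤ ((GQ s).card : ℝ)),
        Real.log s * Thf f X s := by
    rw [hT]
    exact (sum_filter_add_sum_filter_not _ _ _).symm
  have hlogbad : Real.log X ^ 2 * (BQ.card : ℝ) ≤ (κ / 4000) * (X * Real.log X) := by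
    have h2 : (X : ℝ) ^ (99 / 100 : ℝ) ≤ κ / 8000 * (X / Real.log X) := by
      have h3 : (X : ℝ) ^ (99 / 100 : ℝ) = κ / 8000 * (8000 / κ * (X : ℝ) ^ (99 / 100 : ℝ)) := by
        field_simp
      rw [h3]
      exact mul_le_mul_of_nonneg_left hb1 (by positivity)
    calc Real.log X ^ 2 * (BQ.card : ℝ) ≤ Real.log X ^ 2 * (2 * (κ / 8000 * (X / Real.log X))) := by
          apply mul_le_mul_of_nonneg_left _ (by positivity)
          linarith
      _ = (κ / 4000) * (X * Real.log X) := by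
          field_simp
          ring
  have hlogeta : Real.log X ^ 2 * (X : ℝ) ^ (1 - η / 2) ≤ (κ / 8000) * (X * Real.log X) := by
    have h2 : (X : ℝ) ^ (1 - η / 2) ≤ κ / 8000 * (X / Real.log X) := by
      have h3 : (X : ℝ) ^ (1 - η / 2) = κ / 8000 * (8000 / κ * (X : ℝ) ^ (1 - η / 2)) := by
        field_simp
      rw [h3]
      exact mul_le_mul_of_nonneg_left hbη (by positivity)
    calc Real.log X ^ 2 * (X : ℝ) ^ (1 - η / 2) ≤ Real.log X ^ 2 * (κ / 8000 * (X / Real.log X)) :=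
          mul_le_mul_of_nonneg_left h2 (by positivity)
      _ = (κ / 8000) * (X * Real.log X) := by
          field_simp
  have hgood : (κ / 500) * (X * Real.log X) ≤ ∑ ℓ ∈ T, Real.log ℓ * Thf f X ℓ := by
    have h1 : 1 / 200 * κ * (X * Real.log X) = (κ / 200) * (X * Real.log X) := by ring
    rw [h1] at hg
    have h2 : 0 ≤ κ * (X * Real.log X) := by positivity
    nlinarith
  have hgood2 : ∑ ℓ ∈ T, Real.log ℓ * Thf f X ℓ ≤
      (24 / η) * κ * X * ∑ s ∈ T, Real.log s / s := by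
    rw [mul_sum]
    apply sum_le_sum
    intro s hs
    rw [hT, mem_filter] at hs
    exact hsi s hs.1
  have hmass : (η / 12000) * Real.log X ≤ ∑ s ∈ T, Real.log s / s := by
    have h1 := hgood.trans hgood2
    have h2 : (κ / 500) * (X * Real.log X) = (24 / η) * κ * X * ((η / 12000) * Real.log X) := by
      field_simp
      ring
    rw [h2] at h1
    exact le_of_mul_le_mul_left h1 (by positivity)
  refine ⟨T, ?_, ?_⟩
  · have h1 : ∑ s ∈ T, Real.log s / s ≤ Real.log X * ∑ s ∈ T, (1 : ℝ) / s := by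
      rw [mul_sum]
      apply sum_le_sum
      intro s hs
      rw [hT, mem_filter] at hs
      obtain ⟨g1, g2, g3, g4, g5⟩ := hPrmem s hs.1
      have hs0 : (0 : ℝ) < s := by exact_mod_cast g1.pos
      have h3 : Real.log s ≤ Real.log X := by
        apply Real.log_le_log hs0
        exact_mod_cast (by omega : s ≤ X)
      rw [div_eq_mul_one_div]
      exact mul_le_mul_of_nonneg_right h3 (by positivity)
    have h2 := hmass.trans h1
    rw [mul_comm (η / 12000)] at h2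
    exact le_of_mul_le_mul_left h2 hlX
  · intro s hs
    rw [hT, mem_filter] at hs
    obtain ⟨hs1, hs2⟩ := hs
    obtain ⟨g1, g2, g3, g4, g5⟩ := hPrmem s hs1
    refine ⟨g1, g4, g2, by omega, GQ s, hs2, ?_⟩
    intro q hq
    rw [hGQ] at hq
    obtain ⟨h1, h2, h3, h4⟩ := mem_filter.mp hq
    rw [mem_PX] at h1
    exact ⟨h1.2, h1.1, h2, h3, h4⟩

end Pool.Agent.H573.AHB
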