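import Pool.Agent.H573.AHB.UnE

/-!
One set of primes `s` for a family of bad pairs with polynomial growth.
-/

set_option autoImplicit false

namespace Pool.Agent.H573.AHB

open Finset Filter
open Pool.Agent.H262R4.FR.TBT (evA evB evC)

/-- polynomially bounded counts -/
def USparse (Bd : ℕ → ℕ → ℕ → Prop) : Prop :=
  ∃ A : ℕ, ∀ m : ℕ, UCount (Bd m) (((m : ℝ) + 2) ^ A) ((m + 2) ^ A)

lemma USparse.or {Bd Bd' : ℕ → ℕ → ℕ → Prop} (h : USparse Bd) (h' : USparse Bd') :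
    USparse (fun m q n => Bd m q n ∨ Bd' m q n) := by
  obtain ⟨A, hA⟩ := h
  obtain ⟨B, hB⟩ := h'
  refine ⟨max A B + 1, fun m => ?_⟩
  have e1 : (1 : ℝ) ≤ (m : ℝ) + 2 := by
    have : (0 : ℝ) ≤ m := Nat.cast_nonneg m
    linarith
  have k1 : (m + 2) ^ A ≤ (m + 2) ^ (max A B) := Nat.pow_le_pow_right (by omega) (le_max_left _ _)
  have k2 : (m + 2) ^ B ≤ (m + 2) ^ (max A B) := Nat.pow_le_pow_right (by omega) (le_max_right _ _)
  have k3 : (m + 2) ^ (max A B) ≤ (m + 2) ^ (max A B + 1) := Nat.pow_le_pow_right (by omega) (by omega)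
  have r1 : ((m : ℝ) + 2) ^ A ≤ ((m : ℝ) + 2) ^ (max A B) := pow_le_pow_right₀ e1 (le_max_left _ _)
  have r2 : ((m : ℝ) + 2) ^ B ≤ ((m : ℝ) + 2) ^ (max A B) := pow_le_pow_right₀ e1 (le_max_right _ _)
  have h1 := (hA m).weak r1 k1
  have h2 := (hB m).weak r2 k2
  refine (h1.or h2).weak ?_ k3
  rw [pow_succ]
  have : (0 : ℝ) ≤ ((m : ℝ) + 2) ^ (max A B) := by positivity
  have hm : (0 : ℝ) ≤ m := Nat.cast_nonneg m
  nlinarith [mul_nonneg this hm]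

lemma USparse.mono {Bd Bd' : ℕ → ℕ → ℕ → Prop} (h : USparse Bd)
    (hi : ∀ m q n, Bd' m q n → Bd m q n) : USparse Bd' := by
  obtain ⟨A, hA⟩ := h
  exact ⟨A, fun m => (hA m).mono (fun q n _ _ _ hh => hi m q n hh)⟩

lemma UCount.union (Bd : ℕ → ℕ → ℕ → Prop) (A : ℕ)
    (h : ∀ m : ℕ, UCount (Bd m) (((m : ℝ) + 2) ^ A) ((m + 2) ^ A)) (M : ℕ) :
    UCount (fun q n => ∃ m ≤ M, Bd m q n) (((M : ℝ) + 1) * ((M : ℝ) + 2) ^ A) ((M + 2) ^ A) := by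
  have key : ∀ k : ℕ, k ≤ M → UCount (fun q n => ∃ m ≤ k, Bd m q n)
      (((k : ℝ) + 1) * ((M : ℝ) + 2) ^ A) ((M + 2) ^ A) := by
    intro k
    induction k with
    | zero =>
      intro _
      refine ((h 0).mono (Bd' := fun q n => ∃ m ≤ 0, Bd m q n) ?_).weak ?_ ?_
      · rintro q n _ _ _ ⟨m, hm, hb⟩
        obtain rfl : m = 0 := by omega
        exact hb
      · push_cast
        rw [zero_add, zero_add, one_mul]
        have : (0 : ℝ) ≤ M := Nat.cast_nonneg M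
        exact pow_le_pow_left₀ (by norm_num) (by linarith) A
      · exact Nat.pow_le_pow_left (by omega) A
    | succ k ih =>
      intro hk
      have h1 := ih (by omega)
      have hkM : ((k + 1 : ℕ) : ℝ) ≤ M := by exact_mod_cast hk
      have h2 := (h (k + 1)).weak (C' := ((M : ℝ) + 2) ^ A) (q0' := (M + 2) ^ A)
        (pow_le_pow_left₀ (by positivity) (by linarith) A)
        (Nat.pow_le_pow_left (by omega) A)
      refine ((h1.or h2).mono ?_).weak ?_ le_rfl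
      · rintro q n _ _ _ ⟨m, hm, hb⟩
        rcases Nat.lt_or_ge m (k + 1) with h3 | h3
        · exact Or.inl ⟨m, by omega, hb⟩
        · obtain rfl : m = k + 1 := by omega
          exact Or.inr hb
      · push_cast
        apply le_of_eq
        ring
  exact key M le_rfl

/-- the sum of `1/s` over the elements `s` of `S` with `X^{5/8} ≤ s ≤ X` -/
noncomputable def invSum (S : Set ℕ) (X : ℕ) : ℝ :=
  ∑ᶠ s ∈ {s : ℕ | s ∈ S ∧ (X : ℝ) ^ (5 / 8 : ℝ) ≤ s ∧ s ≤ X}, (1 : ℝ) / s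

lemma invSum_ge (S : Set ℕ) (X : ℕ) (T : Finset ℕ)
    (hT : ∀ s ∈ T, s ∈ S ∧ (X : ℝ) ^ (5 / 8 : ℝ) ≤ s ∧ s ≤ X) :
    ∑ s ∈ T, (1 : ℝ) / s ≤ invSum S X := by
  classical
  unfold invSum
  have hfin : {s : ℕ | s ∈ S ∧ (X : ℝ) ^ (5 / 8 : ℝ) ≤ s ∧ s ≤ X}.Finite :=
    (Set.finite_Iic X).subset (fun s hs => hs.2.2)
  rw [finsum_mem_eq_finite_toFinset_sum _ hfin]
  apply sum_le_sum_of_subset_of_nonneg
  · intro s hs
    rw [Set.Finite.mem_toFinset]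
    exact hT s hs
  · intro s _ _
    positivity

/-- one set of primes for a polynomially sparse family -/
theorem diagV (f : ℕ) (hf : 1 ≤ f) (Bd : ℕ → ℕ → ℕ → Prop) (hB : USparse Bd) (s0 : ℕ) :
    ∃ δ : ℝ, 0 < δ ∧ δ ≤ 1 / 8 ∧ ∃ S : Set ℕ,
      (∀ s ∈ S, s.Prime ∧ s0 < s ∧ ∃ G : Finset ℕ, (s : ℝ) ^ δ ≤ (G.card : ℝ) ∧
        ∀ q ∈ G, q.Prime ∧ f ∣ q - 1 ∧ s ∣ q - 1 ∧
          ∀ m : ℕ, (m : ℝ) ≤ (s : ℝ) ^ δ → ¬ Bd m q ((q - 1) / s)) ∧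
      ∃ c : ℝ, 0 < c ∧ ∃ X₀ : ℕ, ∀ X : ℕ, X₀ ≤ X → c ≤ invSum S X := by
  obtain ⟨A, hA⟩ := hB
  obtain ⟨c, η, hc, hη0, hη1, hdens⟩ := densV f hf
  have hA0 : (0 : ℝ) ≤ A := Nat.cast_nonneg A
  obtain ⟨δ, hδ⟩ : ∃ δ : ℝ, δ = min (η / 2) (1 / (600 * (A + 1))) := ⟨_, rfl⟩
  have hδ0 : 0 < δ := by rw [hδ]; exact lt_min (by linarith) (by positivity)
  have hδη : δ ≤ η / 2 := by rw [hδ]; exact min_le_left _ _
  have hδA : δ ≤ 1 / (600 * (A + 1)) := by rw [hδ]; exact min_le_right _ _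
  have hδA' : δ * (A + 1) ≤ 1 / 600 := by
    calc δ * (A + 1) ≤ 1 / (600 * (A + 1)) * (A + 1) :=
          mul_le_mul_of_nonneg_right hδA (by linarith)
      _ = 1 / 600 := by field_simp
  refine ⟨δ, hδ0, by linarith, {s | s.Prime ∧ s0 < s ∧ ∃ G : Finset ℕ, (s : ℝ) ^ δ ≤ (G.card : ℝ) ∧
        ∀ q ∈ G, q.Prime ∧ f ∣ q - 1 ∧ s ∣ q - 1 ∧
          ∀ m : ℕ, (m : ℝ) ≤ (s : ℝ) ^ δ → ¬ Bd m q ((q - 1) / s)}, fun s hs => hs, c, hc, ?_⟩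
  have e1 := evA ((4 : ℝ) ^ (A + 2)) (1 / 600) (1 / 300) (by norm_num)
  have e2 := evA (2 : ℝ) (1 / 300) (99 / 100) (by norm_num)
  obtain ⟨X0, hX0⟩ := eventually_atTop.mp ((hdens s0).and (e1.and (e2.and (eventually_ge_atTop 1))))
  refine ⟨X0, ?_⟩
  intro X hX
  obtain ⟨hd, h1, h2, hX1⟩ := hX0 X hX
  have hXr : (1 : ℝ) ≤ X := by exact_mod_cast hX1
  have hXp : (0 : ℝ) < X := by linarith
  obtain ⟨M, hM⟩ : ∃ M, M = ⌊(X : ℝ) ^ δ⌋₊ := ⟨_, rfl⟩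
  have hXd : 1 ≤ (X : ℝ) ^ δ := Real.one_le_rpow hXr hδ0.le
  have hMX : (M : ℝ) ≤ (X : ℝ) ^ δ := by rw [hM]; exact Nat.floor_le (by linarith)
  have hM3 : (M : ℝ) + 2 ≤ 4 * (X : ℝ) ^ δ := by linarith
  have hM0 : (0 : ℝ) ≤ M := Nat.cast_nonneg M
  have hpw : ((M : ℝ) + 2) ^ (A + 1) ≤ (4 : ℝ) ^ (A + 1) * (X : ℝ) ^ (1 / 600 : ℝ) := by
    calc ((M : ℝ) + 2) ^ (A + 1) ≤ (4 * (X : ℝ) ^ δ) ^ (A + 1) :=
          pow_le_pow_left₀ (by linarith) hM3 _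
      _ = 4 ^ (A + 1) * (X : ℝ) ^ (δ * (A + 1)) := by
          rw [mul_pow, ← Real.rpow_natCast ((X : ℝ) ^ δ), ← Real.rpow_mul hXp.le]
          push_cast
          ring
      _ ≤ 4 ^ (A + 1) * (X : ℝ) ^ (1 / 600 : ℝ) := by
          apply mul_le_mul_of_nonneg_left _ (by positivity)
          exact Real.rpow_le_rpow_of_exponent_le hXr hδA'
  have hpw2 : (4 : ℝ) ^ (A + 1) * (X : ℝ) ^ (1 / 600 : ℝ) ≤ (X : ℝ) ^ (1 / 300 : ℝ) := by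
    refine le_trans ?_ h1
    apply mul_le_mul_of_nonneg_right _ (Real.rpow_nonneg hXp.le _)
    exact pow_le_pow_right₀ (by norm_num) (by omega)
  have hC : ((M : ℝ) + 1) * ((M : ℝ) + 2) ^ A ≤ (X : ℝ) ^ (1 / 300 : ℝ) := by
    refine le_trans ?_ (hpw.trans hpw2)
    rw [pow_succ, mul_comm (((M : ℝ) + 2) ^ A)]
    exact mul_le_mul_of_nonneg_right (by linarith) (by positivity)
  obtain ⟨T, hT1, hT2⟩ := hd (fun q n => ∃ m ≤ M, Bd m q n) _ _ (UCount.union Bd A hA M)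
    (by positivity) (by
      calc ((M : ℝ) + 1) * ((M : ℝ) + 2) ^ A * (X : ℝ) ^ (74 / 75 : ℝ)
          ≤ (X : ℝ) ^ (1 / 300 : ℝ) * (X : ℝ) ^ (74 / 75 : ℝ) :=
            mul_le_mul_of_nonneg_right hC (Real.rpow_nonneg hXp.le _)
        _ = (X : ℝ) ^ (99 / 100 : ℝ) := by
            rw [← Real.rpow_add hXp]
            norm_num) (by
      have h3 : (((M + 2) ^ A : ℕ) : ℝ) ≤ (X : ℝ) ^ (1 / 300 : ℝ) := by
        push_cast
        refine le_trans ?_ (hpw.trans hpw2)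
        exact pow_le_pow_right₀ (by linarith) (by omega)
      have h4 : 1 ≤ (X : ℝ) ^ (1 / 300 : ℝ) := Real.one_le_rpow hXr (by norm_num)
      linarith)
  refine hT1.trans (invSum_ge _ X T ?_)
  intro s hs
  obtain ⟨g1, g2, g3, g4, G, g5, g6⟩ := hT2 s hs
  have hs0 : (0 : ℝ) ≤ s := Nat.cast_nonneg s
  have hsX : (s : ℝ) ≤ X := by exact_mod_cast g4
  have hsd : (s : ℝ) ^ δ ≤ (X : ℝ) ^ δ := Real.rpow_le_rpow hs0 hsX hδ0.le
  refine ⟨⟨g1, g2, G, ?_, ?_⟩, ?_, g4⟩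
  · refine hsd.trans (le_trans ?_ g5)
    exact Real.rpow_le_rpow_of_exponent_le hXr hδη
  · intro q hq
    obtain ⟨k1, k2, k3, k4, k5⟩ := g6 q hq
    refine ⟨k1, k3, k4, ?_⟩
    intro m hm hb
    apply k5
    refine ⟨m, ?_, hb⟩
    rw [hM]
    exact Nat.le_floor (hm.trans hsd)
  · refine le_trans ?_ g3.le
    exact Real.rpow_le_rpow_of_exponent_le hXr (by norm_num)

end Pool.Agent.H573.AHB
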