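import Pool.Agent.H573.AHB.UnF
import Pool.Agent.H573.AHB.Odd2

/-!
The three bad configurations: `p ∤ xy`, `p ∣ x`, `p ∣ y`.
-/

set_option autoImplicit false

namespace Pool.Agent.H573.AHB

open Polynomial

/-- first case: `U ∈ a μ`, `bV ∈ μ`, `F, G ∈ κ μ` -/
def BadZ (δ : ℤ) (m a b κ : ℕ) (E : ℤ[X]) (q n : ℕ) : Prop :=
  BadF δ m a 1 1 b κ κ False False E q n

/-- `p ∣ x`: `pU ∈ a μ`, `bV ∈ μ`, `F ∈ pκ μ`, `G ∈ κ μ` -/
def BadX (δ : ℤ) (m a b κ : ℕ) (zU : Prop) (q n : ℕ) : Prop :=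
  BadF δ m a (2 * m + 1) 1 b ((2 * m + 1) * κ) κ zU False 1 q n

/-- `p ∣ y`: `U ∈ a μ`, `pbV ∈ μ`, `F ∈ κ μ`, `G ∈ pκ μ` -/
def BadY (δ : ℤ) (m a b κ : ℕ) (zV : Prop) (q n : ℕ) : Prop :=
  BadF δ m a 1 1 ((2 * m + 1) * b) κ ((2 * m + 1) * κ) False zV 1 q n

/-- admissible `m` -/
def OKm (m : ℕ) : Prop := 1 ≤ m ∧ (2 * m + 1).Prime

lemma logT (m : ℕ) : Real.log ((2 * (2 * m + 1) * 4 ^ m : ℕ) : ℝ) ≤ 4 * m + 4 := by
  push_cast
  rw [Real.log_mul (by positivity) (by positivity), Real.log_mul (by norm_num) (by positivity),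
    Real.log_pow]
  have h1 := log_two_one
  have h2 := log_nat_le (2 * m + 1)
  push_cast at h2
  have h3 : (m : ℝ) * Real.log 4 ≤ m * 2 := mul_le_mul_of_nonneg_left log_four_two (Nat.cast_nonneg m)
  linarith

lemma odd_not_dvd_two_pow (m j : ℕ) (h : OKm m) : ¬ (2 * m + 1) ∣ 2 ^ j := by
  intro h1
  have h2 := (Nat.prime_dvd_prime_iff_eq h.2 Nat.prime_two).mp (h.2.dvd_of_dvd_pow h1)
  omega

lemma odd_not_dvd_le_two (m a : ℕ) (h : OKm m) (ha1 : 1 ≤ a) (ha2 : a ≤ 2) : ¬ (2 * m + 1) ∣ a := by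
  intro h1
  have := Nat.le_of_dvd (by omega) h1
  have := h.1
  omega

lemma two_pow_ne (m j q : ℕ) (hq : q.Prime) (hlt : 2 * (2 * m + 1) < q) :
    (((2 * m + 1) * 2 ^ j : ℕ) : ZMod q) ≠ 0 ∧ ((2 ^ j : ℕ) : ZMod q) ≠ 0 := by
  have hF : Fact q.Prime := ⟨hq⟩
  have h2 : ((2 : ℕ) : ZMod q) ≠ 0 := natCast_ne_zero_of_lt (by norm_num) (by omega) (ZMod q)
  have h3 : ((2 * m + 1 : ℕ) : ZMod q) ≠ 0 := natCast_ne_zero_of_lt (by omega) (by omega) (ZMod q)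
  constructor
  · rw [Nat.cast_mul, Nat.cast_pow]
    exact mul_ne_zero h3 (pow_ne_zero _ h2)
  · rw [Nat.cast_pow]
    exact pow_ne_zero _ h2

lemma two_pow_le (m j : ℕ) (hj : j ≤ 2 * m) : 2 ^ j ≤ 4 ^ m := by
  calc 2 ^ j ≤ 2 ^ (2 * m) := Nat.pow_le_pow_right (by norm_num) hj
    _ = 4 ^ m := by rw [pow_mul]; norm_num

theorem us_X (δ : ℤ) (hδ1 : δ.natAbs = 1) (m a b j : ℕ) (hm : OKm m) (ha1 : 1 ≤ a) (ha2 : a ≤ 2)
    (hb1 : 1 ≤ b) (hb2 : b ≤ 2) (hj : j ≤ 2 * m) (zU : Prop) (h : zU ∨ b ^ (2 * m) * 2 ^ j ≠ 1) :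
    UCount (BadX δ m a b (2 ^ j) zU) (2000000 * ((m + 1) * ((4 * m + 4) + 2)) ^ 2)
      (2 * (2 * m + 1)) := by
  have hκ := two_pow_le m j hj
  have hκ0 : 1 ≤ 2 ^ j := Nat.one_le_two_pow
  have h4 : 1 ≤ 4 ^ m := Nat.one_le_pow _ _ (by norm_num)
  have hP1 : 1 ≤ 2 * m + 1 := by omega
  have hbig : ∀ x : ℕ, x ≤ 2 * (2 * m + 1) → x ≤ 2 * (2 * m + 1) * 4 ^ m := fun x hx =>
    hx.trans (Nat.le_mul_of_pos_right _ h4)
  have hm1 := hm.1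
  refine ucount_badF δ hδ1 m a (2 * m + 1) 1 b ((2 * m + 1) * 2 ^ j) (2 ^ j)
    (2 * (2 * m + 1) * 4 ^ m) (4 * m + 4) zU False 1 hm.1 ha1 hP1 le_rfl hb1
    (Nat.mul_pos hP1 hκ0) hκ0 (hbig _ (by omega)) (hbig _ (by omega)) (hbig _ (by omega))
    (hbig _ (by omega)) ?_ ?_ (logT m) hm.2 (2 * (2 * m + 1)) (by omega) (by omega) (by omega)
    (by omega) (by omega) (fun q hq hlt => two_pow_ne m j q hq hlt) ?_ ?_ ?_
  · exact Nat.mul_le_mul (by omega) hκ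
  · exact hκ.trans (Nat.le_mul_of_pos_left _ (by omega))
  · intro z _
    refine ph_HT_a m hm.1 (2 * m + 1) hm.2 δ a _ b _ _ (odd_not_dvd_le_two m a hm ha1 ha2)
      (odd_not_dvd_le_two m b hm hb1 hb2) (dvd_mul_left _ _) (by omega) ?_ z
    exact Dvd.dvd.mul_left (dvd_mul_right _ _) _
  · rcases h with h | h
    · exact Or.inl h
    · right; right
      rw [hδ1, one_pow, one_pow, mul_one]
      exact h
  · right; left
    apply ne_of_gt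
    calc a ^ (2 * m) ≤ 2 ^ (2 * m) := Nat.pow_le_pow_left ha2 _
      _ < (2 * m + 1) ^ (2 * m) := Nat.pow_lt_pow_left (by omega) (by omega)
      _ ≤ (2 * m + 1) ^ (2 * m) * ((2 * m + 1) * 2 ^ j) :=
          Nat.le_mul_of_pos_right _ (Nat.mul_pos hP1 hκ0)

theorem us_Y (δ : ℤ) (hδ1 : δ.natAbs = 1) (m a b j : ℕ) (hm : OKm m) (ha1 : 1 ≤ a) (ha2 : a ≤ 2)
    (hb1 : 1 ≤ b) (hb2 : b ≤ 2) (hj : j ≤ 2 * m) (zV : Prop) (h : zV ∨ 2 ^ j ≠ a ^ (2 * m)) :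
    UCount (BadY δ m a b (2 ^ j) zV) (2000000 * ((m + 1) * ((4 * m + 4) + 2)) ^ 2)
      (2 * (2 * m + 1)) := by
  have hκ := two_pow_le m j hj
  have hκ0 : 1 ≤ 2 ^ j := Nat.one_le_two_pow
  have h4 : 1 ≤ 4 ^ m := Nat.one_le_pow _ _ (by norm_num)
  have hP1 : 1 ≤ 2 * m + 1 := by omega
  have hbig : ∀ x : ℕ, x ≤ 2 * (2 * m + 1) → x ≤ 2 * (2 * m + 1) * 4 ^ m := fun x hx =>
    hx.trans (Nat.le_mul_of_pos_right _ h4)
  have hpb : (2 * m + 1) * b ≤ 2 * (2 * m + 1) := by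
    rw [mul_comm 2 (2 * m + 1)]
    exact Nat.mul_le_mul_left _ hb2
  have hpb0 : 1 ≤ (2 * m + 1) * b := Nat.mul_pos hP1 hb1
  have hm1 := hm.1
  have hpδ : ¬ ((2 * m + 1 : ℕ) : ℤ) ∣ δ := by
    intro h
    have h3 := Int.natAbs_dvd_natAbs.mpr h
    rw [Int.natAbs_natCast, hδ1] at h3
    have := Nat.le_of_dvd one_pos h3
    omega
  refine ucount_badF δ hδ1 m a 1 1 ((2 * m + 1) * b) (2 ^ j) ((2 * m + 1) * 2 ^ j)
    (2 * (2 * m + 1) * 4 ^ m) (4 * m + 4) False zV 1 hm.1 ha1 le_rfl le_rfl hpb0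
    hκ0 (Nat.mul_pos hP1 hκ0) (hbig _ (by omega)) (hbig _ (by omega)) (hbig _ (by omega))
    (hbig _ hpb) ?_ ?_ (logT m) hm.2 (2 * (2 * m + 1)) (by omega) (by omega) (by omega)
    hpb (by omega) (fun q hq hlt => (two_pow_ne m j q hq hlt).symm) ?_ ?_ ?_
  · exact hκ.trans (Nat.le_mul_of_pos_left _ (by omega))
  · exact Nat.mul_le_mul (by omega) hκ
  · intro z _
    refine ph_HT_b m hm.1 (2 * m + 1) hm.2 δ hpδ a _ _ _ _ ?_ (dvd_mul_right _ _) z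
    rw [one_mul]
    intro h
    have := Nat.le_of_dvd one_pos h
    omega
  · right; left
    rw [hδ1, one_pow, one_pow, mul_one, mul_one]
    apply ne_of_gt
    calc 2 * m + 1 = (2 * m + 1) ^ 1 := (pow_one _).symm
      _ < (2 * m + 1) ^ (2 * m) := Nat.pow_lt_pow_right (by omega) (by omega)
      _ ≤ ((2 * m + 1) * b) ^ (2 * m) := Nat.pow_le_pow_left (Nat.le_mul_of_pos_right _ hb1) _
      _ ≤ ((2 * m + 1) * b) ^ (2 * m) * 2 ^ j := Nat.le_mul_of_pos_right _ hκ0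
  · rcases h with h | h
    · exact Or.inl h
    · right; left
      rw [one_pow, one_mul]
      exact h

theorem us_Z (δ : ℤ) (hδ1 : δ.natAbs = 1) (m a b j : ℕ) (hm : OKm m) (ha1 : 1 ≤ a) (ha2 : a ≤ 2)
    (hb1 : 1 ≤ b) (hb2 : b ≤ 2) (hj : j ≤ 2 * m) (E : ℤ[X])
    (HT : ∀ z : ℂ, aeval z E ≠ 0 → ∃ i, ∀ N : ℕ, 1 ≤ N → (aeval z (ph δ m a b i)) ^ N ≠
      ((cc 1 (2 ^ j) (2 ^ j) i : ℤ) : ℂ) ^ N) :
    UCount (BadZ δ m a b (2 ^ j) E) (2000000 * ((m + 1) * ((4 * m + 4) + 2)) ^ 2)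
      (2 * (2 * m + 1)) := by
  have hκ := two_pow_le m j hj
  have hκ0 : 1 ≤ 2 ^ j := Nat.one_le_two_pow
  have h4 : 1 ≤ 4 ^ m := Nat.one_le_pow _ _ (by norm_num)
  have hP1 : 1 ≤ 2 * m + 1 := by omega
  have hbig : ∀ x : ℕ, x ≤ 2 * (2 * m + 1) → x ≤ 2 * (2 * m + 1) * 4 ^ m := fun x hx =>
    hx.trans (Nat.le_mul_of_pos_right _ h4)
  have hm1 := hm.1
  have hk : 2 ^ j ≤ 2 * (2 * m + 1) * 4 ^ m := hκ.trans (Nat.le_mul_of_pos_left _ (by omega))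
  refine ucount_badF δ hδ1 m a 1 1 b (2 ^ j) (2 ^ j)
    (2 * (2 * m + 1) * 4 ^ m) (4 * m + 4) False False E hm.1 ha1 le_rfl le_rfl hb1
    hκ0 hκ0 (hbig _ (by omega)) (hbig _ (by omega)) (hbig _ (by omega))
    (hbig _ (by omega)) hk hk (logT m) hm.2 (2 * (2 * m + 1)) (by omega) (by omega) (by omega)
    (by omega) (by omega) (fun q hq hlt => ⟨(two_pow_ne m j q hq hlt).2, (two_pow_ne m j q hq hlt).2⟩)
    ?_ ?_ ?_
  · intro z hz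
    have e1 : (1 : ℕ) * 1 = 1 := rfl
    rw [one_pow, one_mul, one_mul]
    exact HT z hz
  · right
    by_contra hcon
    push Not at hcon
    obtain ⟨h1, h2⟩ := hcon
    rw [hδ1, one_pow, one_pow, mul_one, mul_one] at h1
    rw [hδ1, one_pow, one_pow, mul_one] at h2
    rw [h2] at h1
    omega
  · right
    by_contra hcon
    push Not at hcon
    obtain ⟨h1, h2⟩ := hcon
    rw [one_pow, one_mul] at h1 h2
    have h3 : 0 < a ^ (2 * m) := by positivity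
    rw [h1] at h2
    nlinarith

/-- the size condition in the first case -/
lemma HT_size (δ : ℤ) (hδ1 : δ.natAbs = 1) (m a b κ : ℕ) (ha : 1 ≤ a) (hb : 1 ≤ b)
    (H : b ^ (4 * m) * (κ ^ 2 * (b ^ 2 * a ^ 2) + κ ^ 2) < (b ^ 2 * a ^ 2 + 1) ^ (2 * m + 1))
    (E : ℤ[X]) (z : ℂ) (_ : aeval z E ≠ 0) :
    ∃ i, ∀ N : ℕ, 1 ≤ N → (aeval z (ph δ m a b i)) ^ N ≠ ((cc 1 κ κ i : ℤ) : ℂ) ^ N := by
  obtain ⟨i, hi⟩ := ph_H2 δ m a 1 b κ κ ha hb (by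
    rw [hδ1, one_pow, one_mul, one_mul]
    exact H) z
  refine ⟨i, ?_⟩
  intro N hN h
  apply hi
  have h2 := congrArg (fun w : ℂ => ‖w‖) h
  simp only [norm_pow, Complex.norm_intCast] at h2
  exact (pow_left_inj₀ (norm_nonneg _) (abs_nonneg _) (by omega)).mp h2

/-- polynomial growth -/
lemma usparse_of (P : ℕ → Prop) (Bd : ℕ → ℕ → ℕ → Prop)
    (h : ∀ m, P m → UCount (Bd m) (2000000 * (((m : ℝ) + 1) * ((4 * m + 4) + 2)) ^ 2)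
      (2 * (2 * m + 1))) : USparse (fun m q n => P m ∧ Bd m q n) := by
  refine ⟨29, fun m => ?_⟩
  by_cases hm : P m
  · refine ((h m hm).mono (fun q n _ _ _ hh => hh.2)).weak ?_ ?_
    · have h0 : (0 : ℝ) ≤ m := Nat.cast_nonneg m
      have h1 : ((m : ℝ) + 1) * ((4 * m + 4) + 2) ≤ 4 * ((m : ℝ) + 2) ^ 2 := by nlinarith
      have h2 : (((m : ℝ) + 1) * ((4 * m + 4) + 2)) ^ 2 ≤ (4 * ((m : ℝ) + 2) ^ 2) ^ 2 :=
        pow_le_pow_left₀ (by positivity) h1 2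
      have h3 : (2 : ℝ) ^ 25 ≤ ((m : ℝ) + 2) ^ 25 := pow_le_pow_left₀ (by norm_num) (by linarith) 25
      have h4 : (0 : ℝ) ≤ ((m : ℝ) + 2) ^ 4 := by positivity
      calc 2000000 * (((m : ℝ) + 1) * ((4 * m + 4) + 2)) ^ 2
          ≤ 2000000 * (4 * ((m : ℝ) + 2) ^ 2) ^ 2 := by linarith
        _ = 32000000 * ((m : ℝ) + 2) ^ 4 := by ring
        _ ≤ 2 ^ 25 * ((m : ℝ) + 2) ^ 4 := by
            apply mul_le_mul_of_nonneg_right _ h4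
            norm_num
        _ ≤ ((m : ℝ) + 2) ^ 25 * ((m : ℝ) + 2) ^ 4 := mul_le_mul_of_nonneg_right h3 h4
        _ = _ := by ring
    · calc 2 * (2 * m + 1) ≤ 4 * (m + 2) := by omega
        _ ≤ (m + 2) ^ 2 * (m + 2) := by
            apply Nat.mul_le_mul_right
            calc 4 = 2 ^ 2 := by norm_num
              _ ≤ (m + 2) ^ 2 := Nat.pow_le_pow_left (by omega) 2
        _ = (m + 2) ^ 3 := by ring
        _ ≤ (m + 2) ^ 29 := Nat.pow_le_pow_right (by omega) (by norm_num)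
  · refine ((ucount_false ((m + 2) ^ 29)).mono (fun q n _ _ _ hh => hm hh.1)).weak (by positivity)
      le_rfl

end Pool.Agent.H573.AHB
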