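import Pool.Agent.H573.AHB.UnG

/-!
From integers to the bad configurations.
-/

set_option autoImplicit false

namespace Pool.Agent.H573.AHB

open Polynomial

lemma badF_of (δ : ℤ) (m a1 a2 b1 b2 e h : ℕ) (zU zV : Prop) (E : ℤ[X]) (q s n : ℕ)
    (hq : q.Prime) (hsn : s * n = q - 1)
    (ha2 : (a2 : ZMod q) ≠ 0)
    (hb2 : (b2 : ZMod q) ≠ 0) (u v w1 w2 w3 w4 : ℤ) (huv : IsCoprime u v)
    (h1 : a2 * u = a1 * w1 ^ s) (h2 : b2 * v = b1 * w2 ^ s) (h3 : Fh δ u v m = e * w3 ^ s)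
    (h4 : Gh δ u v m = h * w4 ^ s) (gU : zU → ¬ (q : ℤ) ∣ u) (gV : zV → ¬ (q : ℤ) ∣ v)
    (gE : ∀ t : ZMod q, (v : ZMod q) = u * t → aeval t E ≠ 0) :
    BadF δ m a1 a2 b1 b2 e h zU zV E q n := by
  have hF : Fact q.Prime := ⟨hq⟩
  have hmap := map_FGh (Int.castRingHom (ZMod q)) δ u v m
  simp only [eq_intCast] at hmap
  refine ⟨(u : ZMod q), (v : ZMod q), ?_, ?_, ?_, gE, ?_, ?_, ?_, ?_⟩
  · by_contra hcon
    push Not at hcon
    obtain ⟨g1, g2⟩ := hcon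
    rw [ZMod.intCast_zmod_eq_zero_iff_dvd] at g1 g2
    have := huv.isUnit_of_dvd' g1 g2
    rw [Int.isUnit_iff_natAbs_eq, Int.natAbs_natCast] at this
    have := hq.two_le
    omega
  · intro hz h0
    rw [ZMod.intCast_zmod_eq_zero_iff_dvd] at h0
    exact gU hz h0
  · intro hz h0
    rw [ZMod.intCast_zmod_eq_zero_iff_dvd] at h0
    exact gV hz h0
  · exact pow_mod q s n hq hsn a1 w1 (u : ZMod q) a2 ha2 (by
      have := congrArg (Int.cast : ℤ → ZMod q) h1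
      push_cast at this
      exact this)
  · exact pow_mod q s n hq hsn b1 w2 (v : ZMod q) b2 hb2 (by
      have := congrArg (Int.cast : ℤ → ZMod q) h2
      push_cast at this
      exact this)
  · have := pow_mod q s n hq hsn e w3 ((Fh δ u v m : ℤ) : ZMod q) 1 one_ne_zero (by
      rw [h3]
      push_cast
      ring)
    rw [one_mul, hmap.1] at this
    exact this
  · have := pow_mod q s n hq hsn h w4 ((Gh δ u v m : ℤ) : ZMod q) 1 one_ne_zero (by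
      rw [h4]
      push_cast
      ring)
    rw [one_mul, hmap.2] at this
    exact this

lemma fac_pow (a : ℕ) (ha : a ≠ 0) (s : ℕ) (hs : Odd s) (U F x : ℤ) (h1 : IsCoprime U F)
    (h2 : IsCoprime (a : ℤ) F) (h : U * F = a * x ^ s) :
    ∃ w w' : ℤ, U = a * w ^ s ∧ F = w' ^ s := by
  have haz : (a : ℤ) ≠ 0 := by exact_mod_cast ha
  obtain ⟨U2, hU2⟩ : (a : ℤ) ∣ U := h2.dvd_of_dvd_mul_right (Dvd.intro _ h.symm)
  have h3 : U2 * F = x ^ s := by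
    apply mul_left_cancel₀ haz
    rw [← h, hU2]
    ring
  rw [hU2] at h1
  obtain ⟨⟨w, hw⟩, w', hw'⟩ := Int.eq_pow_of_mul_eq_pow_odd h1.of_mul_left_right hs h3
  exact ⟨w, w', by rw [hU2, hw], hw'⟩

/-- **The local configuration.** -/
theorem cfg (δ : ℤ) (hδ1 : δ.natAbs = 1) (m a b κ : ℕ) (hm : OKm m) (ha : ¬ (2 * m + 1) ∣ a)
    (hb : ¬ (2 * m + 1) ∣ b) (hκ : ¬ (2 * m + 1) ∣ κ) (hbq : b ≤ 2)
    (s q : ℕ) (hsp : s.Prime) (hs2 : 2 < s) (hq : q.Prime) (hqm : 2 * (2 * m + 1) < q)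
    (hsq : s ∣ q - 1) (U V F' G' x y : ℤ) (huv : IsCoprime U V) (hF : Fh δ U V m = κ * F')
    (hG : Gh δ U V m = κ * G') (hx : U * F' = a * x ^ s) (hy : b * V * G' = y ^ s)
    (haF : IsCoprime (a : ℤ) F') (hbG : IsCoprime (b : ℤ) G') :
    (¬ ((2 * m + 1 : ℕ) : ℤ) ∣ x → ¬ ((2 * m + 1 : ℕ) : ℤ) ∣ y → ∀ E : ℤ[X],
      (∀ t : ZMod q, (V : ZMod q) = U * t → aeval t E ≠ 0) → BadZ δ m a b κ E q ((q - 1) / s)) ∧
    (((2 * m + 1 : ℕ) : ℤ) ∣ x → ∀ zU : Prop, (zU → ¬ (q : ℤ) ∣ U) →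
      BadX δ m a b κ zU q ((q - 1) / s)) ∧
    (((2 * m + 1 : ℕ) : ℤ) ∣ y → ∀ zV : Prop, (zV → ¬ (q : ℤ) ∣ V) →
      BadY δ m a b κ zV q ((q - 1) / s)) := by
  have hF1 : Fact q.Prime := ⟨hq⟩
  have hsodd : Odd s := hsp.odd_of_ne_two (by omega)
  have hs0 : s ≠ 0 := by omega
  have hp := hm.2
  have hm1 := hm.1
  have hpp : Prime ((2 * m + 1 : ℕ) : ℤ) := Nat.prime_iff_prime_int.mp hp
  have hsn : s * ((q - 1) / s) = q - 1 := Nat.mul_div_cancel' hsq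
  have h1q : ((1 : ℕ) : ZMod q) ≠ 0 := by rw [Nat.cast_one]; exact one_ne_zero
  have hpq : ((2 * m + 1 : ℕ) : ZMod q) ≠ 0 := natCast_ne_zero_of_lt (by omega) (by omega) (ZMod q)
  have ha0 : a ≠ 0 := by rintro rfl; exact ha (dvd_zero _)
  have hb0 : b ≠ 0 := by rintro rfl; exact hb (dvd_zero _)
  have hκ0 : κ ≠ 0 := by rintro rfl; exact hκ (dvd_zero _)
  have hbq0 : ((b : ℕ) : ZMod q) ≠ 0 := natCast_ne_zero_of_lt (by omega) (by omega) (ZMod q)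
  have hδu : IsUnit δ := Int.isUnit_iff_natAbs_eq.mpr hδ1
  have hpδ : ¬ ((2 * m + 1 : ℕ) : ℤ) ∣ δ := by
    intro h
    have h3 := Int.natAbs_dvd_natAbs.mpr h
    rw [Int.natAbs_natCast, hδ1] at h3
    have := Nat.le_of_dvd one_pos h3
    omega
  have hud : IsCoprime U δ := ⟨0, δ, by rw [Int.isUnit_mul_self hδu]; ring⟩
  have hpk : IsCoprime ((2 * m + 1 : ℕ) : ℤ) (κ : ℤ) :=
    (hpp.coprime_iff_not_dvd).mpr (fun h => hκ (Int.natCast_dvd_natCast.mp h))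
  have hκz : (κ : ℤ) ≠ 0 := by exact_mod_cast hκ0
  have haz : ¬ ((2 * m + 1 : ℕ) : ℤ) ∣ (a : ℤ) := fun h => ha (Int.natCast_dvd_natCast.mp h)
  have hbz : ¬ ((2 * m + 1 : ℕ) : ℤ) ∣ (b : ℤ) := fun h => hb (Int.natCast_dvd_natCast.mp h)
  -- the parts without `p`
  have partU : ¬ ((2 * m + 1 : ℕ) : ℤ) ∣ U → ∃ w1 w3 : ℤ, U = a * w1 ^ s ∧ F' = w3 ^ s := by
    intro hpU
    have hFc := cop_F m hp δ U V huv hud hpU
    rw [hF] at hFc
    exact fac_pow a ha0 s hsodd U F' x hFc.of_mul_right_right haF hx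
  have partV : ¬ ((2 * m + 1 : ℕ) : ℤ) ∣ V → ∃ w2 w4 : ℤ, (b : ℤ) * V = w2 ^ s ∧ G' = w4 ^ s := by
    intro hpV
    have hGc := cop_G m hp δ U V huv hpV
    rw [hG] at hGc
    have h1 : IsCoprime ((b : ℤ) * V) G' := hbG.mul_left hGc.of_mul_right_right
    obtain ⟨⟨w2, e2⟩, w4, e4⟩ := Int.eq_pow_of_mul_eq_pow_odd h1 hsodd hy
    exact ⟨w2, w4, e2, e4⟩
  have hUx : ((2 * m + 1 : ℕ) : ℤ) ∣ U → ((2 * m + 1 : ℕ) : ℤ) ∣ x := by
    intro h
    have h1 : ((2 * m + 1 : ℕ) : ℤ) ∣ (a : ℤ) * x ^ s := by rw [← hx]; exact h.mul_right _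
    rcases hpp.dvd_or_dvd h1 with h2 | h2
    · exact absurd h2 haz
    · exact hpp.dvd_of_dvd_pow h2
  have hVy : ((2 * m + 1 : ℕ) : ℤ) ∣ V → ((2 * m + 1 : ℕ) : ℤ) ∣ y := by
    intro h
    have h1 : ((2 * m + 1 : ℕ) : ℤ) ∣ y ^ s := by
      rw [← hy]
      exact (h.mul_left _).mul_right _
    exact hpp.dvd_of_dvd_pow h1
  refine ⟨?_, ?_, ?_⟩
  · intro hpx hpy E hE
    obtain ⟨w1, w3, e1, e3⟩ := partU (fun h => hpx (hUx h))
    obtain ⟨w2, w4, e2, e4⟩ := partV (fun h => hpy (hVy h))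
    refine badF_of δ m a 1 1 b κ κ False False E q s _ hq hsn h1q hbq0 U V w1 w2 w3 w4 huv
      ?_ ?_ ?_ ?_ (fun h => h.elim) (fun h => h.elim) hE
    · rw [Nat.cast_one, one_mul]; exact e1
    · rw [Nat.cast_one, one_mul]; exact e2
    · rw [hF, e3]
    · rw [hG, e4]
  · intro h zU hzU
    have hpU : ((2 * m + 1 : ℕ) : ℤ) ∣ U := by
      have h1 : ((2 * m + 1 : ℕ) : ℤ) ∣ U * F' := by
        rw [hx]
        exact (dvd_pow h hs0).mul_left _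
      rcases hpp.dvd_or_dvd h1 with h2 | h2
      · exact h2
      · apply (FG_dvd_p m hm1 hp δ U V hpδ).1
        rw [hF]
        exact h2.mul_left _
    have hpV : ¬ ((2 * m + 1 : ℕ) : ℤ) ∣ V := fun h2 =>
      hpp.not_isUnit (huv.isUnit_of_dvd' hpU h2)
    obtain ⟨w2, w4, e2, e4⟩ := partV hpV
    obtain ⟨F1, h1, h2⟩ := second_F m δ U V huv hud hpU
    rw [hF] at h1
    have hpF' : ((2 * m + 1 : ℕ) : ℤ) ∣ F' := by
      apply hpk.dvd_of_dvd_mul_left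
      rw [h1]
      exact dvd_mul_right _ _
    obtain ⟨P, hP⟩ := hpF'
    have hF1' : F1 = κ * P := by
      apply mul_left_cancel₀ hpp.ne_zero
      rw [← h1, hP]
      ring
    rw [hF1'] at h2
    rw [hP] at haF
    obtain ⟨w1, w3, e1, e3⟩ := fac_pow a ha0 s hsodd (((2 * m + 1 : ℕ) : ℤ) * U) P x
      h2.of_mul_right_right haF.of_mul_right_right (by rw [← hx, hP]; ring)
    refine badF_of δ m a (2 * m + 1) 1 b ((2 * m + 1) * κ) κ zU False 1 q s _ hq hsn hpq hbq0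
      U V w1 w2 w3 w4 huv e1 ?_ ?_ ?_ hzU (fun h => h.elim) (fun t _ => by simp)
    · rw [Nat.cast_one, one_mul]; exact e2
    · rw [hF, hP, e3]
      push_cast
      ring
    · rw [hG, e4]
  · intro h zV hzV
    have hpV : ((2 * m + 1 : ℕ) : ℤ) ∣ V := by
      have h1 : ((2 * m + 1 : ℕ) : ℤ) ∣ b * V * G' := by rw [hy]; exact dvd_pow h hs0
      rcases hpp.dvd_or_dvd h1 with h2 | h2
      · rcases hpp.dvd_or_dvd h2 with h3 | h3
        · exact absurd h3 hbz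
        · exact h3
      · apply (FG_dvd_p m hm1 hp δ U V hpδ).2
        rw [hG]
        exact h2.mul_left _
    have hpU : ¬ ((2 * m + 1 : ℕ) : ℤ) ∣ U := fun h2 =>
      hpp.not_isUnit (huv.isUnit_of_dvd' h2 hpV)
    obtain ⟨w1, w3, e1, e3⟩ := partU hpU
    obtain ⟨G1, h1, h2⟩ := second_G m δ U V huv hpV
    rw [hG] at h1
    have hpG' : ((2 * m + 1 : ℕ) : ℤ) ∣ G' := by
      apply hpk.dvd_of_dvd_mul_left
      rw [h1]
      exact dvd_mul_right _ _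
    obtain ⟨P, hP⟩ := hpG'
    have hG1' : G1 = κ * P := by
      apply mul_left_cancel₀ hpp.ne_zero
      rw [← h1, hP]
      ring
    rw [hG1'] at h2
    rw [hP] at hbG
    have h3 : IsCoprime ((b : ℤ) * (((2 * m + 1 : ℕ) : ℤ) * V)) P :=
      hbG.of_mul_right_right.mul_left h2.of_mul_right_right
    obtain ⟨⟨w2, e2⟩, w4, e4⟩ := Int.eq_pow_of_mul_eq_pow_odd h3 hsodd (by
      rw [← hy, hP]
      ring : (b : ℤ) * (((2 * m + 1 : ℕ) : ℤ) * V) * P = y ^ s)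
    have hpbq : ((((2 * m + 1) * b : ℕ) : ℕ) : ZMod q) ≠ 0 := by
      rw [Nat.cast_mul]
      exact mul_ne_zero hpq hbq0
    refine badF_of δ m a 1 1 ((2 * m + 1) * b) κ ((2 * m + 1) * κ) False zV 1 q s _ hq hsn h1q hpbq
      U V w1 w2 w3 w4 huv ?_ ?_ ?_ ?_ (fun h => h.elim) hzV (fun t _ => by simp)
    · rw [Nat.cast_one, one_mul]; exact e1
    · rw [Nat.cast_one, one_mul, ← e2]
      push_cast
      ring
    · rw [hF, e3]
    · rw [hG, hP, e4]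
      push_cast
      ring

end Pool.Agent.H573.AHB
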