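import Pool.Agent.H573.AHB.UnH

/-!
The families of bad pairs and the local theorems.
-/

set_option autoImplicit false

namespace Pool.Agent.H573.AHB

open Polynomial

/-- `x^s = u F`, `y^s = v G` -/
def W1 (δ : ℤ) (m q n : ℕ) : Prop :=
  OKm m ∧ (BadZ δ m 1 1 (2 ^ 0) 1 q n ∨ BadX δ m 1 1 (2 ^ 0) True q n ∨
    BadY δ m 1 1 (2 ^ 0) True q n)

/-- `x^s = u F`, `y^s = 2 v G` -/
def W2 (δ : ℤ) (m q n : ℕ) : Prop :=
  OKm m ∧ (BadZ δ m 1 2 (2 ^ 0) 1 q n ∨ BadX δ m 1 2 (2 ^ 0) False q n ∨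
    BadY δ m 1 2 (2 ^ 0) True q n)

/-- the twisted case -/
def W3 (m q n : ℕ) : Prop :=
  OKm m ∧ (BadZ (-1) m 1 1 (2 ^ m) (X ^ 2 - 1) q n ∨ BadX (-1) m 1 1 (2 ^ m) False q n ∨
    BadY (-1) m 1 1 (2 ^ m) False q n)

/-- the parameters of a bad configuration with three alternatives -/
lemma usparse_three (B1 B2 B3 : ℕ → ℕ → ℕ → Prop)
    (h1 : ∀ m, OKm m → UCount (B1 m) (2000000 * (((m : ℝ) + 1) * ((4 * m + 4) + 2)) ^ 2)
      (2 * (2 * m + 1)))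
    (h2 : ∀ m, OKm m → UCount (B2 m) (2000000 * (((m : ℝ) + 1) * ((4 * m + 4) + 2)) ^ 2)
      (2 * (2 * m + 1)))
    (h3 : ∀ m, OKm m → UCount (B3 m) (2000000 * (((m : ℝ) + 1) * ((4 * m + 4) + 2)) ^ 2)
      (2 * (2 * m + 1))) :
    USparse (fun m q n => OKm m ∧ (B1 m q n ∨ B2 m q n ∨ B3 m q n)) := by
  refine ((usparse_of OKm B1 h1).or ((usparse_of OKm B2 h2).or (usparse_of OKm B3 h3))).mono ?_
  rintro m q n ⟨h, h' | h' | h'⟩
  · exact Or.inl ⟨h, h'⟩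
  · exact Or.inr (Or.inl ⟨h, h'⟩)
  · exact Or.inr (Or.inr ⟨h, h'⟩)

theorem usparse_W1 (δ : ℤ) (hδ1 : δ.natAbs = 1) : USparse (W1 δ) := by
  apply usparse_three
  · intro m hm
    have hm1 := hm.1
    refine us_Z δ hδ1 m 1 1 0 hm le_rfl (by norm_num) le_rfl (by norm_num) (by omega) 1 ?_
    refine HT_size δ hδ1 m 1 1 (2 ^ 0) le_rfl le_rfl ?_ 1
    simp only [pow_zero, one_pow, one_mul, mul_one]
    have : 2 ^ 2 ≤ (1 + 1) ^ (2 * m + 1) := Nat.pow_le_pow_right (by norm_num) (by omega)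
    omega
  · intro m hm
    exact us_X δ hδ1 m 1 1 0 hm le_rfl (by norm_num) le_rfl (by norm_num) (by omega) True
      (Or.inl trivial)
  · intro m hm
    exact us_Y δ hδ1 m 1 1 0 hm le_rfl (by norm_num) le_rfl (by norm_num) (by omega) True
      (Or.inl trivial)

theorem usparse_W2 (δ : ℤ) (hδ1 : δ.natAbs = 1) : USparse (W2 δ) := by
  apply usparse_three
  · intro m hm
    have hm1 := hm.1
    refine us_Z δ hδ1 m 1 2 0 hm le_rfl (by norm_num) (by norm_num) (by norm_num) (by omega) 1 ?_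
    refine HT_size δ hδ1 m 1 2 (2 ^ 0) le_rfl (by norm_num) ?_ 1
    simp only [pow_zero, one_pow, one_mul, mul_one]
    have e1 : 2 ^ (4 * m) = 16 ^ m := by rw [pow_mul]; norm_num
    have e2 : (2 ^ 2 + 1) ^ (2 * m + 1) = 25 ^ m * 5 := by rw [pow_succ, pow_mul]; norm_num
    rw [e1, e2]
    have : 16 ^ m < 25 ^ m := Nat.pow_lt_pow_left (by norm_num) (by omega)
    omega
  · intro m hm
    have hm1 := hm.1
    refine us_X δ hδ1 m 1 2 0 hm le_rfl (by norm_num) (by norm_num) (by norm_num) (by omega) False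
      (Or.inr ?_)
    rw [pow_zero, mul_one]
    have : 2 ^ 1 ≤ 2 ^ (2 * m) := Nat.pow_le_pow_right (by norm_num) (by omega)
    omega
  · intro m hm
    exact us_Y δ hδ1 m 1 2 0 hm le_rfl (by norm_num) (by norm_num) (by norm_num) (by omega) True
      (Or.inl trivial)

/-- equality in the power mean inequality -/
lemma power_mean_eq (m : ℕ) (hm : 1 ≤ m) (z : ℂ) (hz : ‖z‖ = 1)
    (hF : ‖Fh (-1 : ℂ) 1 z m‖ = 2 ^ m) (hG : ‖Gh (-1 : ℂ) 1 z m‖ = 2 ^ m) : z ^ 2 - 1 = 0 := by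
  have hI : Complex.I ^ 2 = (-1 : ℂ) := Complex.I_sq
  have h3 := pow_FG hI 1 z m
  have h4 := pow_FG' hI 1 z m
  rw [one_mul] at h3 h4
  have par : ∀ a b : ℂ, ‖a + b‖ ^ 2 + ‖a - b‖ ^ 2 = 2 * (‖a‖ ^ 2 + ‖b‖ ^ 2) := by
    intro a b
    have := parallelogram_law_with_norm ℝ a b
    nlinarith
  have hAB := par 1 (Complex.I * z)
  have hFG := par (Fh (-1 : ℂ) 1 z m) (Complex.I * z * Gh (-1 : ℂ) 1 z m)
  rw [← h3, ← h4, norm_pow, norm_pow, norm_mul, norm_mul, hF, hG, hz, Complex.norm_I] at hFG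
  rw [norm_mul, hz, Complex.norm_I, norm_one] at hAB
  obtain ⟨A, hA⟩ : ∃ A : ℝ, A = ‖1 + Complex.I * z‖ ^ 2 := ⟨_, rfl⟩
  obtain ⟨B, hB⟩ : ∃ B : ℝ, B = ‖1 - Complex.I * z‖ ^ 2 := ⟨_, rfl⟩
  have hA0 : 0 ≤ A := by rw [hA]; positivity
  have hB0 : 0 ≤ B := by rw [hB]; positivity
  have hsum : A + B = 4 := by
    rw [hA, hB, hAB]
    norm_num
  have hpw : A ^ (2 * m + 1) + B ^ (2 * m + 1) = 2 * 2 ^ (2 * m + 1) := by
    rw [hA, hB, ← pow_mul, ← pow_mul, mul_comm 2 (2 * m + 1), pow_mul, pow_mul, hFG]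
    have : ((2 : ℝ) ^ m) ^ 2 = 2 ^ (2 * m) := by rw [← pow_mul, mul_comm]
    rw [one_mul, one_mul, this, pow_succ]
    ring
  have hAB' : A = B := by
    by_contra hne
    have hsc := (strictConvexOn_pow (n := 2 * m + 1) (by omega)).2 (Set.mem_Ici.mpr hA0)
      (Set.mem_Ici.mpr hB0) hne (show (0 : ℝ) < 1 / 2 by norm_num) (show (0 : ℝ) < 1 / 2 by norm_num)
      (by norm_num)
    simp only [smul_eq_mul] at hsc
    have e1 : 1 / 2 * A + 1 / 2 * B = 2 := by linarith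
    rw [e1] at hsc
    linarith
  -- now `z` is real
  rw [hA, hB, ← Complex.normSq_eq_norm_sq, ← Complex.normSq_eq_norm_sq, Complex.normSq_apply,
    Complex.normSq_apply] at hAB'
  simp only [Complex.add_re, Complex.one_re, Complex.mul_re, Complex.I_re, Complex.I_im,
    Complex.add_im, Complex.one_im, Complex.mul_im, Complex.sub_re, Complex.sub_im] at hAB'
  have him : z.im = 0 := by linarith
  have hre : z.re ^ 2 = 1 := by
    have h5 : ‖z‖ ^ 2 = z.re * z.re + z.im * z.im := by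
      rw [← Complex.normSq_eq_norm_sq, Complex.normSq_apply]
    rw [hz, him] at h5
    linarith
  apply Complex.ext
  · simp only [pow_two, Complex.sub_re, Complex.mul_re, Complex.one_re, Complex.zero_re, him]
    linarith [hre, pow_two z.re]
  · simp only [pow_two, Complex.sub_im, Complex.mul_im, Complex.one_im, Complex.zero_im, him]
    ring

lemma norm_of_pow {w : ℂ} {k : ℤ} {N : ℕ} (hN : 1 ≤ N) (h : w ^ N = (k : ℂ) ^ N) :
    ‖w‖ = |(k : ℝ)| := by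
  have h2 := congrArg (fun w : ℂ => ‖w‖) h
  simp only [norm_pow, Complex.norm_intCast] at h2
  exact (pow_left_inj₀ (norm_nonneg _) (abs_nonneg _) (by omega)).mp h2

theorem usparse_W3 : USparse W3 := by
  apply usparse_three
  · intro m hm
    refine us_Z (-1) rfl m 1 1 m hm le_rfl (by norm_num) le_rfl (by norm_num) (by omega) _ ?_
    intro z hz
    by_contra hcon
    push Not at hcon
    apply hz
    rw [map_sub, map_pow, aeval_X, map_one]
    obtain ⟨N0, hN0, h0⟩ := hcon 0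
    obtain ⟨N1, hN1, h1⟩ := hcon 1
    obtain ⟨N2, hN2, h2⟩ := hcon 2
    have k0 := norm_of_pow hN0 h0
    have k1 := norm_of_pow hN1 h1
    have k2 := norm_of_pow hN2 h2
    rw [ph_zero] at k0
    rw [ph_one] at k1
    rw [ph_two] at k2
    simp only [cc, Matrix.cons_val_zero, Matrix.cons_val_one, Matrix.cons_val_two, Matrix.tail_cons,
      Matrix.head_cons, Nat.cast_one, one_mul, mul_one, one_pow, Int.cast_natCast, Int.cast_pow,
      Nat.cast_pow, Nat.cast_ofNat, Int.cast_one, abs_one, Int.cast_ofNat, Int.reduceNeg,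
      Int.cast_neg] at k0 k1 k2
    rw [abs_of_pos (by positivity)] at k1 k2
    exact power_mean_eq m hm.1 z k0 k1 k2
  · intro m hm
    have hm1 := hm.1
    refine us_X (-1) rfl m 1 1 m hm le_rfl (by norm_num) le_rfl (by norm_num) (by omega) False
      (Or.inr ?_)
    rw [one_pow, one_mul]
    have : 2 ^ 1 ≤ 2 ^ m := Nat.pow_le_pow_right (by norm_num) hm1
    omega
  · intro m hm
    have hm1 := hm.1
    refine us_Y (-1) rfl m 1 1 m hm le_rfl (by norm_num) le_rfl (by norm_num) (by omega) False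
      (Or.inr ?_)
    rw [one_pow]
    have : 2 ^ 1 ≤ 2 ^ m := Nat.pow_le_pow_right (by norm_num) hm1
    omega

lemma q_dvd_of_pow {q s : ℕ} (hq : q.Prime) {u F x : ℤ} (h : (q : ℤ) ∣ u) (hx : x ^ s = u * F) :
    (q : ℤ) ∣ x := by
  apply (Nat.prime_iff_prime_int.mp hq).dvd_of_dvd_pow (n := s)
  rw [hx]
  exact h.mul_right _

/-- the local theorem for `x^s = u F`, `y^s = v G` -/
theorem loc1 (δ : ℤ) (hδ1 : δ.natAbs = 1) (m : ℕ) (hm : OKm m)
    (s q : ℕ) (hsp : s.Prime) (hs2 : 2 < s) (hq : q.Prime) (hqm : 2 * (2 * m + 1) < q)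
    (hsq : s ∣ q - 1) (hnb : ¬ W1 δ m q ((q - 1) / s)) (x y u v : ℤ)
    (hco : IsCoprime (x ^ s) (y ^ s)) (hu : x ^ s = u * Fh δ u v m) (hv : y ^ s = v * Gh δ u v m) :
    (((2 * m + 1 : ℕ) : ℤ) ∣ x ∧ (q : ℤ) ∣ x) ∨ (((2 * m + 1 : ℕ) : ℤ) ∣ y ∧ (q : ℤ) ∣ y) := by
  have hm1 := hm.1
  have huv : IsCoprime u v := by
    rw [hu, hv] at hco
    exact hco.of_mul_left_left.of_mul_right_left
  have h1n : ¬ (2 * m + 1) ∣ 1 := odd_not_dvd_le_two m 1 hm le_rfl (by norm_num)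
  obtain ⟨c1, c2, c3⟩ := cfg δ hδ1 m 1 1 (2 ^ 0) hm h1n h1n (by rw [pow_zero]; exact h1n)
    (by norm_num) s q hsp hs2 hq hqm hsq u v (Fh δ u v m) (Gh δ u v m) x y huv
    (by simp) (by simp) (by rw [Nat.cast_one, one_mul, hu]) (by rw [Nat.cast_one, one_mul, hv])
    (by rw [Nat.cast_one]; exact isCoprime_one_left) (by rw [Nat.cast_one]; exact isCoprime_one_left)
  by_cases hx : ((2 * m + 1 : ℕ) : ℤ) ∣ x
  · left
    refine ⟨hx, ?_⟩
    by_contra hqx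
    exact hnb ⟨hm, Or.inr (Or.inl (c2 hx True (fun _ h => hqx (q_dvd_of_pow hq h hu))))⟩
  · by_cases hy : ((2 * m + 1 : ℕ) : ℤ) ∣ y
    · right
      refine ⟨hy, ?_⟩
      by_contra hqy
      exact hnb ⟨hm, Or.inr (Or.inr (c3 hy True (fun _ h => hqy (q_dvd_of_pow hq h hv))))⟩
    · exact absurd ⟨hm, Or.inl (c1 hx hy 1 (fun t _ => by
        have hF1 : Fact q.Prime := ⟨hq⟩
        rw [map_one]
        exact one_ne_zero))⟩ hnb

/-- the local theorem for `x^{2s} + y^{2s} = z^p` -/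
theorem sum_loc (m : ℕ) (hm : OKm m)
    (s q : ℕ) (hsp : s.Prime) (hs2 : 2 < s) (hq : q.Prime) (hqm : 2 * (2 * m + 1) < q)
    (hsq : s ∣ q - 1) (hnb : ¬ W1 (-1) m q ((q - 1) / s)) (x y z : ℤ)
    (hco : IsCoprime x y) (heq : x ^ (2 * s) + y ^ (2 * s) = z ^ (2 * m + 1)) :
    (((2 * m + 1 : ℕ) : ℤ) ∣ x ∧ (q : ℤ) ∣ x) ∨ (((2 * m + 1 : ℕ) : ℤ) ∣ y ∧ (q : ℤ) ∣ y) := by
  have hco2 : IsCoprime (x ^ s) (y ^ s) := hco.pow
  obtain ⟨u, v, hu, hv⟩ := gauss (x ^ s) (y ^ s) z m hm.1 hco2 (by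
    rw [← heq]
    ring)
  exact loc1 (-1) rfl m hm s q hsp hs2 hq hqm hsq hnb x y u v hco2 hu hv

/-- the local theorem for `x^{2s} - y^{2s} = z^p`, `z` odd -/
theorem diff_loc (m : ℕ) (hm : OKm m)
    (s q : ℕ) (hsp : s.Prime) (hs2 : 2 < s) (hq : q.Prime) (hqm : 2 * (2 * m + 1) < q)
    (hsq : s ∣ q - 1) (hnb : ¬ W1 1 m q ((q - 1) / s)) (x y z : ℤ) (hz : Odd z)
    (hco : IsCoprime x y) (heq : x ^ (2 * s) - y ^ (2 * s) = z ^ (2 * m + 1)) :
    (((2 * m + 1 : ℕ) : ℤ) ∣ x ∧ (q : ℤ) ∣ x) ∨ (((2 * m + 1 : ℕ) : ℤ) ∣ y ∧ (q : ℤ) ∣ y) := by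
  have hco2 : IsCoprime (x ^ s) (y ^ s) := hco.pow
  obtain ⟨u, v, hu, hv⟩ := split_desc (x ^ s) (y ^ s) z m hco2 hz (by
    rw [← heq]
    ring)
  exact loc1 1 rfl m hm s q hsp hs2 hq hqm hsq hnb x y u v hco2 hu hv

end Pool.Agent.H573.AHB
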