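import Pool.Agent.H573.AHB.UnJ

/-!
The local theorems for primitive Pythagorean triples with two prescribed power sides.
-/

set_option autoImplicit false

namespace Pool.Agent.H573.AHB

/-- the local theorem for `t^s = u F`, `r^s = 2 v G` -/
theorem loc2 (δ : ℤ) (hδ1 : δ.natAbs = 1) (m : ℕ) (hm : OKm m)
    (s q : ℕ) (hsp : s.Prime) (hs2 : 2 < s) (hq : q.Prime) (hqm : 2 * (2 * m + 1) < q)
    (hsq : s ∣ q - 1) (hnb : ¬ W2 δ m q ((q - 1) / s)) (t r u v : ℤ)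
    (huv : IsCoprime u v) (hG2 : IsCoprime 2 (Gh δ u v m)) (hu : t ^ s = u * Fh δ u v m)
    (hv : r ^ s = 2 * v * Gh δ u v m) :
    ((2 * m + 1 : ℕ) : ℤ) ∣ r ∧ (q : ℤ) ∣ r := by
  have h1n : ¬ (2 * m + 1) ∣ 1 := odd_not_dvd_le_two m 1 hm le_rfl (by norm_num)
  have h2n : ¬ (2 * m + 1) ∣ 2 := odd_not_dvd_le_two m 2 hm (by norm_num) le_rfl
  obtain ⟨c1, c2, c3⟩ := cfg δ hδ1 m 1 2 (2 ^ 0) hm h1n h2n (by rw [pow_zero]; exact h1n)
    le_rfl s q hsp hs2 hq hqm hsq u v (Fh δ u v m) (Gh δ u v m) t r huv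
    (by simp) (by simp) (by rw [Nat.cast_one, one_mul, hu]) (by rw [hv]; push_cast; ring)
    (by rw [Nat.cast_one]; exact isCoprime_one_left) (by exact_mod_cast hG2)
  by_cases hx : ((2 * m + 1 : ℕ) : ℤ) ∣ t
  · exact absurd ⟨hm, Or.inr (Or.inl (c2 hx False (fun h => h.elim)))⟩ hnb
  · by_cases hy : ((2 * m + 1 : ℕ) : ℤ) ∣ r
    · refine ⟨hy, ?_⟩
      by_contra hqy
      exact hnb ⟨hm, Or.inr (Or.inr (c3 hy True (fun _ h => hqy
        (q_dvd_of_pow hq h (F := 2 * Gh δ u v m) (by rw [hv]; ring)))))⟩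
    · exact absurd ⟨hm, Or.inl (c1 hx hy 1 (fun t _ => by
        have hF1 : Fact q.Prime := ⟨hq⟩
        rw [map_one]
        exact one_ne_zero))⟩ hnb

/-- parity in the descent over `ℤ` -/
lemma split_parity (X Y w u v : ℤ) (m : ℕ) (hco : IsCoprime X Y) (hYe : Even Y)
    (hu : X = u * Fh 1 u v m) (hv : Y = v * Gh 1 u v m) :
    IsCoprime 2 (Gh 1 u v m) := by
  have hXo : Odd X := by
    by_contra hcon
    rw [Int.not_odd_iff_even] at hcon
    have := hco.isUnit_of_dvd' hcon.two_dvd hYe.two_dvd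
    rw [Int.isUnit_iff] at this
    omega
  have huo : Odd u := by
    rw [hu, Int.odd_mul] at hXo
    exact hXo.1
  have huvo : Odd (u + v) := by
    have e1 := pow_FG (δ := (1 : ℤ)) (ω := 1) (by norm_num) u v m
    rw [one_mul, ← hu, ← hv] at e1
    have h2 : Odd ((u + v) ^ (2 * m + 1)) := by
      rw [e1]
      exact hXo.add_even hYe
    by_contra hcon
    rw [Int.not_odd_iff_even] at hcon
    have : Even ((u + v) ^ (2 * m + 1)) := hcon.pow_of_ne_zero (by omega)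
    exact (Int.not_even_iff_odd.mpr h2) this
  have hve : Even v := by
    by_contra hcon
    rw [Int.not_even_iff_odd] at hcon
    exact (Int.not_even_iff_odd.mpr huvo) (huo.add_odd hcon)
  have hGo : Odd (Gh 1 u v m) := by
    obtain ⟨k, hk⟩ := FG_mod_v 1 u v m
    have h1 : Gh 1 u v m = (2 * m + 1) * u ^ (2 * m) + v * k := by linarith
    rw [h1]
    refine Odd.add_even ?_ (hve.mul_right k)
    exact Odd.mul ⟨m, rfl⟩ huo.pow
  obtain ⟨k, hk⟩ := hGo
  exact ⟨-k, 1, by rw [hk]; ring⟩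

/-- the local theorem for `x^{2s} + y^{2p} = z²`, `x` even -/
theorem leg_loc (m : ℕ) (hm : OKm m) (s q : ℕ) (hsp : s.Prime)
    (hs2 : 2 < s) (hq : q.Prime) (hqm : 2 * (2 * m + 1) < q) (hsq : s ∣ q - 1)
    (hnb : ¬ W2 1 m q ((q - 1) / s)) (x y z : ℤ) (hx : Even x) (hx0 : x ≠ 0)
    (hco : IsCoprime x y) (heq : x ^ (2 * s) + y ^ (2 * (2 * m + 1)) = z ^ 2) :
    ((2 * m + 1 : ℕ) : ℤ) ∣ x ∧ (q : ℤ) ∣ x := by
  have hyo : Odd y := by
    by_contra hcon
    rw [Int.not_odd_iff_even] at hcon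
    have := hco.isUnit_of_dvd' hx.two_dvd hcon.two_dvd
    rw [Int.isUnit_iff] at this
    omega
  obtain ⟨z', hz', hzz⟩ : ∃ z' : ℤ, 0 ≤ z' ∧ z' ^ 2 = x ^ (2 * s) + y ^ (2 * (2 * m + 1)) :=
    ⟨|z|, abs_nonneg z, by rw [sq_abs, heq]⟩
  have hxe : Even (x ^ (2 * s)) := hx.pow_of_ne_zero (by omega)
  have hzo : Odd z' := by
    have h1 : Odd (z' ^ 2) := by
      rw [hzz]
      exact hxe.add_odd hyo.pow
    by_contra hcon
    rw [Int.not_odd_iff_even] at hcon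
    have : Even (z' ^ 2) := hcon.pow_of_ne_zero (by omega)
    exact (Int.not_even_iff_odd.mpr h1) this
  have hyp : Odd (y ^ (2 * m + 1)) := hyo.pow
  obtain ⟨P, hP⟩ := hzo.sub_odd hyp
  obtain ⟨Q, hQ⟩ := hzo.add_odd hyp
  have hzPQ : z' = P + Q := by linarith
  have hyPQ : y ^ (2 * m + 1) = Q - P := by linarith
  have hPQ : 4 * (P * Q) = x ^ (2 * s) := by
    have h1 : (z' - y ^ (2 * m + 1)) * (z' + y ^ (2 * m + 1)) = x ^ (2 * s) := by
      have h2 : (y ^ (2 * m + 1)) ^ 2 = y ^ (2 * (2 * m + 1)) := by ring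
      calc _ = z' ^ 2 - (y ^ (2 * m + 1)) ^ 2 := by ring
        _ = _ := by rw [h2, hzz]; ring
    rw [hP, hQ] at h1
    rw [← h1]
    ring
  have hxpos : 0 < x ^ (2 * s) := by
    rw [pow_mul]
    exact pow_pos (by positivity) _
  have hPQpos : 0 < P * Q := by linarith
  have hP0 : 0 < P := by
    by_contra hcon
    push Not at hcon
    have hQ0 : 0 ≤ Q := by linarith
    nlinarith
  have hQ0 : 0 < Q := by
    by_contra hcon
    push Not at hcon
    nlinarith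
  have hcoPQ : IsCoprime P Q := by
    rw [Int.isCoprime_iff_gcd_eq_one]
    by_contra hcon
    obtain ⟨l, hl, hld⟩ := Nat.exists_prime_and_dvd hcon
    have hlP : (l : ℤ) ∣ P := (Int.natCast_dvd_natCast.mpr hld).trans (Int.gcd_dvd_left P Q)
    have hlQ : (l : ℤ) ∣ Q := (Int.natCast_dvd_natCast.mpr hld).trans (Int.gcd_dvd_right P Q)
    have hlp := Nat.prime_iff_prime_int.mp hl
    have h1 : (l : ℤ) ∣ y := by
      apply hlp.dvd_of_dvd_pow (n := 2 * m + 1)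
      rw [hyPQ]
      exact dvd_sub hlQ hlP
    have h2 : (l : ℤ) ∣ x := by
      apply hlp.dvd_of_dvd_pow (n := 2 * s)
      rw [← hPQ]
      exact (hlP.mul_right Q).mul_left 4
    exact hlp.not_isUnit (hco.isUnit_of_dvd' h2 h1)
  -- the symmetric final step
  have fin : ∀ A B w : ℤ, 0 < A → 0 < B → Even A → Odd w → IsCoprime A B →
      4 * (A * B) = x ^ (2 * s) → B - A = w ^ (2 * m + 1) →
      ((2 * m + 1 : ℕ) : ℤ) ∣ x ∧ (q : ℤ) ∣ x := by
    intro A B w hA hB hAe hw hAB hprod hdiff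
    have hBo : Odd B := by
      by_contra hcon
      rw [Int.not_odd_iff_even] at hcon
      have := hAB.isUnit_of_dvd' hAe.two_dvd hcon.two_dvd
      rw [Int.isUnit_iff] at this
      omega
    have h4 : IsCoprime (4 * A) B := by
      refine IsCoprime.mul_left ?_ hAB
      have h2 : IsCoprime (2 : ℤ) B := by
        obtain ⟨k, hk⟩ := hBo
        exact ⟨-k, 1, by rw [hk]; ring⟩
      have h5 : (4 : ℤ) = 2 * 2 := by norm_num
      rw [h5]
      exact h2.mul_left h2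
    obtain ⟨⟨r, hr⟩, t, ht⟩ := pow_of_mul (by linarith : 0 ≤ 4 * A) hB.le h4 (by
      rw [mul_assoc]; exact hprod)
    have hre : Even r := by
      by_contra hcon
      rw [Int.not_even_iff_odd] at hcon
      have h5 : Odd (r ^ (2 * s)) := hcon.pow
      rw [← hr] at h5
      obtain ⟨k, hk⟩ := h5
      omega
    obtain ⟨Y, hY⟩ := (hre.pow_of_ne_zero (by omega : s ≠ 0)).two_dvd
    have hYA : Y ^ 2 = A := by
      have h5 : (r ^ s) ^ 2 = r ^ (2 * s) := by ring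
      rw [hY, ← hr] at h5
      nlinarith
    have hXB : (t ^ s) ^ 2 = B := by
      rw [ht]
      ring
    have hcoXY : IsCoprime (t ^ s) Y := by
      rw [← hYA, ← hXB] at hAB
      exact ((IsCoprime.pow_iff (by norm_num) (by norm_num)).mp hAB).symm
    have hYe : Even Y := by
      have h5 : (4 : ℤ) ∣ r ^ s := by
        have h1 : (4 : ℤ) ∣ r ^ 2 := by
          obtain ⟨k, hk⟩ := hre
          exact ⟨k ^ 2, by rw [hk]; ring⟩
        exact h1.trans (pow_dvd_pow r (by omega))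
      rw [hY] at h5
      obtain ⟨k, hk⟩ := h5
      exact ⟨k, by omega⟩
    obtain ⟨u, v, hu, hv⟩ := split_desc (t ^ s) Y w m hcoXY hw (by rw [hYA, hXB]; exact hdiff)
    have huv : IsCoprime u v := by
      have := hcoXY
      rw [hu, hv] at this
      exact this.of_mul_left_left.of_mul_right_left
    obtain ⟨g1, g2⟩ := loc2 1 rfl m hm s q hsp hs2 hq hqm hsq hnb t r u v huv
      (split_parity (t ^ s) Y w u v m hcoXY hYe hu hv) hu (by rw [hY, mul_assoc, ← hv])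
    have hrx : r ^ (2 * s) ∣ x ^ (2 * s) := by
      rw [← hprod, ← hr]
      exact ⟨B, by ring⟩
    have hd : ∀ l : ℕ, l.Prime → (l : ℤ) ∣ r → (l : ℤ) ∣ x := by
      intro l hl h
      apply (Nat.prime_iff_prime_int.mp hl).dvd_of_dvd_pow (n := 2 * s)
      exact (dvd_pow h (by omega)).trans hrx
    exact ⟨hd _ hm.2 g1, hd _ hq g2⟩
  rcases Int.even_or_odd P with hPe | hPo
  · exact fin P Q y hP0 hQ0 hPe hyo hcoPQ hPQ hyPQ.symm
  · have hQe : Even Q := by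
      by_contra hcon
      rw [Int.not_even_iff_odd] at hcon
      have h5 : Even z' := by
        rw [hzPQ]
        exact hPo.add_odd hcon
      exact (Int.not_even_iff_odd.mpr hzo) h5
    refine fin Q P (-y) hQ0 hP0 hQe hyo.neg hcoPQ.symm (by rw [mul_comm Q P]; exact hPQ) ?_
    rw [Odd.neg_pow ⟨m, rfl⟩, hyPQ]
    ring

lemma mid_loc' (m : ℕ) (hm : OKm m) (s q : ℕ) (hs : s.Prime)
    (hs2 : 2 < s) (hq : q.Prime) (hqm : 2 * (2 * m + 1) < q) (hsq : s ∣ q - 1)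
    (hnb : ¬ W2 (-1) m q ((q - 1) / s)) (x A B z : ℤ) (hco : IsCoprime A B)
    (h : A ^ 2 + B ^ 2 = z ^ (2 * m + 1)) (hxs : x ^ s = 2 * (A * B)) (hB : Even B) :
    ((2 * m + 1 : ℕ) : ℤ) ∣ x ∧ (q : ℤ) ∣ x := by
  have hsodd : Odd s := hs.odd_of_ne_two (by omega)
  obtain ⟨u, v, hu, hv⟩ := gauss A B z m hm.1 hco h
  obtain ⟨huo, hve, hGo⟩ := gauss_parity A B z u v m hm.1 hco h hu hv hB
  have huv : IsCoprime u v := by
    rw [hu, hv] at hco
    exact hco.of_mul_left_left.of_mul_right_left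
  have hA2 : IsCoprime A (2 * B) := by
    refine IsCoprime.mul_right ?_ hco
    have hAo : Odd A := by
      by_contra hcon
      rw [Int.not_odd_iff_even] at hcon
      have := hco.isUnit_of_dvd' hcon.two_dvd hB.two_dvd
      rw [Int.isUnit_iff] at this
      omega
    obtain ⟨k, hk⟩ := hAo
    exact ⟨1, -k, by rw [hk]; ring⟩
  obtain ⟨⟨x1, hx1⟩, x2, hx2⟩ := Int.eq_pow_of_mul_eq_pow_odd hA2 hsodd
    (by rw [hxs]; ring : A * (2 * B) = x ^ s)
  have hG2 : IsCoprime 2 (Gh (-1) u v m) := by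
    obtain ⟨k, hk⟩ := hGo
    exact ⟨-k, 1, by rw [hk]; ring⟩
  obtain ⟨g1, g2⟩ := loc2 (-1) rfl m hm s q hs hs2 hq hqm hsq hnb x1 x2 u v huv hG2
    (by rw [← hx1]; exact hu) (by rw [← hx2, mul_assoc, ← hv])
  have hd : ∀ l : ℕ, l.Prime → (l : ℤ) ∣ x2 → (l : ℤ) ∣ x := by
    intro l hl h
    apply (Nat.prime_iff_prime_int.mp hl).dvd_of_dvd_pow (n := s)
    have h1 : x ^ s = x1 ^ s * x2 ^ s := by rw [hxs, ← hx1, ← hx2]; ring
    rw [h1]
    exact (dvd_pow h (by omega)).mul_left _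
  exact ⟨hd _ hm.2 g1, hd _ hq g2⟩

/-- the local theorem for `x^{2s} + y² = z^{2p}`, `x` even -/
theorem mid_loc_even (m : ℕ) (hm : OKm m) (s q : ℕ) (hsp : s.Prime)
    (hs2 : 2 < s) (hq : q.Prime) (hqm : 2 * (2 * m + 1) < q) (hsq : s ∣ q - 1)
    (hnb : ¬ W2 (-1) m q ((q - 1) / s)) (x y z : ℤ) (hx : Even x) (hx0 : x ≠ 0)
    (hco : IsCoprime x y) (heq : x ^ (2 * s) + y ^ 2 = z ^ (2 * (2 * m + 1))) :
    ((2 * m + 1 : ℕ) : ℤ) ∣ x ∧ (q : ℤ) ∣ x := by
  have hyo : Odd y := by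
    by_contra hcon
    rw [Int.not_odd_iff_even] at hcon
    have := hco.isUnit_of_dvd' hx.two_dvd hcon.two_dvd
    rw [Int.isUnit_iff] at this
    omega
  -- make z nonnegative
  obtain ⟨z', hz', hzz⟩ : ∃ z' : ℤ, 0 ≤ z' ∧ z' ^ (2 * (2 * m + 1)) = x ^ (2 * s) + y ^ 2 :=
    ⟨|z|, abs_nonneg z, by rw [pow_mul, sq_abs, ← pow_mul, heq]⟩
  obtain ⟨Z, hZ⟩ : ∃ Z : ℤ, Z = z' ^ (2 * m + 1) := ⟨_, rfl⟩
  have hZ0 : 0 ≤ Z := by rw [hZ]; positivity
  have hZZ : Z ^ 2 = (x ^ s) ^ 2 + y ^ 2 := by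
    have e1 : Z ^ 2 = z' ^ (2 * (2 * m + 1)) := by rw [hZ]; ring
    have e2 : (x ^ s) ^ 2 = x ^ (2 * s) := by ring
    rw [e1, e2, hzz]
  have hxe : Even (x ^ s) := hx.pow_of_ne_zero (by omega)
  obtain ⟨w, hw⟩ := hxe.two_dvd
  have hxs0 : x ^ s ≠ 0 := pow_ne_zero _ hx0
  have hw0 : w ≠ 0 := by
    rintro rfl
    exact hxs0 (by rw [hw]; ring)
  have hZo : Odd Z := by
    have h1 : Odd (Z ^ 2) := by
      rw [hZZ]
      exact (hxe.pow_of_ne_zero (by norm_num)).add_odd hyo.pow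
    by_contra hcon
    rw [Int.not_odd_iff_even] at hcon
    have : Even (Z ^ 2) := hcon.pow_of_ne_zero (by omega)
    exact (Int.not_even_iff_odd.mpr h1) this
  obtain ⟨P, hP⟩ := hZo.sub_odd hyo
  obtain ⟨Q, hQ⟩ := hZo.add_odd hyo
  have hZPQ : Z = P + Q := by linarith
  have hyPQ : y = Q - P := by linarith
  have hPQ : P * Q = w ^ 2 := by
    have h1 : (Z - y) * (Z + y) = (x ^ s) ^ 2 := by
      calc _ = Z ^ 2 - y ^ 2 := by ring
        _ = _ := by rw [hZZ]; ring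
    rw [hP, hQ, hw] at h1
    nlinarith
  have hPQpos : 0 < P * Q := by
    rw [hPQ]
    positivity
  have hP0 : 0 < P := by
    by_contra hcon
    push Not at hcon
    have hQ0 : 0 ≤ Q := by linarith
    nlinarith
  have hQ0 : 0 < Q := by
    by_contra hcon
    push Not at hcon
    nlinarith
  have hcoPQ : IsCoprime P Q := by
    rw [Int.isCoprime_iff_gcd_eq_one]
    by_contra hcon
    obtain ⟨l, hl, hld⟩ := Nat.exists_prime_and_dvd hcon
    have hlP : (l : ℤ) ∣ P := (Int.natCast_dvd_natCast.mpr hld).trans (Int.gcd_dvd_left P Q)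
    have hlQ : (l : ℤ) ∣ Q := (Int.natCast_dvd_natCast.mpr hld).trans (Int.gcd_dvd_right P Q)
    have hlp := Nat.prime_iff_prime_int.mp hl
    have h1 : (l : ℤ) ∣ y := by
      rw [hyPQ]
      exact dvd_sub hlQ hlP
    have h2 : (l : ℤ) ∣ w := by
      apply hlp.dvd_of_dvd_pow (n := 2)
      rw [← hPQ]
      exact hlP.mul_right Q
    have h3 : (l : ℤ) ∣ x := by
      apply hlp.dvd_of_dvd_pow (n := s)
      rw [hw]
      exact h2.mul_left 2
    exact hlp.not_isUnit (hco.isUnit_of_dvd' h3 h1)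
  obtain ⟨⟨A, hA⟩, B, hB⟩ := square_of_mul hP0.le hQ0.le hcoPQ hPQ
  have hABco : IsCoprime A B := by
    rw [hA, hB] at hcoPQ
    exact (IsCoprime.pow_iff (by norm_num) (by norm_num)).mp hcoPQ
  have hABz : A ^ 2 + B ^ 2 = z' ^ (2 * m + 1) := by rw [← hA, ← hB, ← hZPQ, hZ]
  have hwAB : w = A * B ∨ w = -(A * B) := by
    have h1 : w ^ 2 = (A * B) ^ 2 := by rw [← hPQ, hA, hB]; ring
    exact sq_eq_sq_iff_eq_or_eq_neg.mp h1
  -- choose signs
  obtain ⟨A', hA', hwA⟩ : ∃ A' : ℤ, A' ^ 2 = A ^ 2 ∧ w = A' * B := by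
    rcases hwAB with h1 | h1
    · exact ⟨A, rfl, h1⟩
    · exact ⟨-A, by ring, by rw [h1]; ring⟩
  have hcoA : IsCoprime A' B := by
    have h1 : IsCoprime (A' ^ 2) (B ^ 2) := by
      rw [hA']
      exact (IsCoprime.pow_iff (by norm_num) (by norm_num)).mpr hABco
    exact (IsCoprime.pow_iff (by norm_num) (by norm_num)).mp h1
  have hABz' : A' ^ 2 + B ^ 2 = z' ^ (2 * m + 1) := by rw [hA']; exact hABz
  have hxs : x ^ s = 2 * (A' * B) := by rw [hw, hwA]
  -- one of A', B is even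
  have hz'o : Odd z' := z_odd A' B z' m hm.1 hcoA hABz'
  rcases Int.even_or_odd B with hBe | hBo
  · exact mid_loc' m hm s q hsp hs2 hq hqm hsq hnb x A' B z' hcoA hABz' hxs hBe
  · have hAe : Even A' := by
      by_contra hcon
      rw [Int.not_even_iff_odd] at hcon
      have h1 : Even (z' ^ (2 * m + 1)) := by
        rw [← hABz']
        exact (hcon.pow).add_odd hBo.pow
      exact (Int.not_even_iff_odd.mpr hz'o.pow) h1
    exact mid_loc' m hm s q hsp hs2 hq hqm hsq hnb x B A' z' hcoA.symm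
      (by rw [add_comm]; exact hABz') (by rw [hxs]; ring) hAe

end Pool.Agent.H573.AHB
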