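import Pool.Agent.H573.AHB.UnM
import Pool.Agent.H573.AHB.Fin2

/-!
The logarithmic form of `pairs_family`.
-/

set_option autoImplicit false

namespace Pool.Agent.H573.AHB

open Filter

/-- one set of primes for a family indexed by pairs, with many auxiliary primes -/
theorem pairs_familyG (V : ℕ → ℕ → Prop) (W : ℕ → ℕ → ℕ → ℕ → Prop)
    (hW : ∀ m l, V m l → Sparse (W m l)) :
    ∃ δ : ℝ, 0 < δ ∧ ∃ S : Set ℕ, (∀ s ∈ S, s.Prime ∧ 2 < s) ∧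
      (∃ c : ℝ, 0 < c ∧ ∃ X₀ : ℕ, ∀ X : ℕ, X₀ ≤ X → c ≤ invSum S X) ∧
      ∃ G : ℕ → Finset ℕ, (∀ s ∈ S, (s : ℝ) ^ δ ≤ ((G s).card : ℝ) ∧
        ∀ q ∈ G s, q.Prime ∧ s ∣ q - 1 ∧ s < q) ∧
      ∀ m l, V m l → ∀ᶠ s in atTop, s ∈ S → ∀ q ∈ G s, 2 * m + 1 < q ∧
        ¬ W m l q ((q - 1) / s) := by
  classical
  obtain ⟨δ, hδ0, S, hS1, hS2, G, hS3, hS4⟩ := diagS 1 le_rfl
    (fun i q n => V i.unpair.1 i.unpair.2 ∧ W i.unpair.1 i.unpair.2 q n) (by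
    intro i
    by_cases h : V i.unpair.1 i.unpair.2
    · exact (hW _ _ h).mono (fun q n hqn => hqn.2)
    · exact Sparse.false.mono (fun q n hqn => h hqn.1)) 2
  have hlt : ∀ s ∈ S, ∀ q ∈ G s, s < q := by
    intro s hs q hq
    obtain ⟨k1, -, k3⟩ := (hS3 s hs).2 q hq
    have := k1.two_le
    have := Nat.le_of_dvd (by omega) k3
    omega
  refine ⟨δ, hδ0, S, hS1, hS2, G, fun s hs => ⟨(hS3 s hs).1, fun q hq => ?_⟩, ?_⟩
  · obtain ⟨k1, -, k3⟩ := (hS3 s hs).2 q hq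
    exact ⟨k1, k3, hlt s hs q hq⟩
  · intro m l hV
    have h1 := hS4 (Nat.pair m l)
    filter_upwards [h1, eventually_gt_atTop (2 * m + 1)] with s hs hsm hsS q hq
    have hnb := hs hsS q hq
    simp only [Nat.unpair_pair] at hnb
    have := hlt s hsS q hq
    exact ⟨by omega, fun h => hnb ⟨hV, h⟩⟩

/-- one set of primes for a family indexed by pairs, logarithmic form -/
theorem pairs_familyL (V : ℕ → ℕ → Prop) (W : ℕ → ℕ → ℕ → ℕ → Prop)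
    (hW : ∀ m l, V m l → Sparse (W m l)) :
    ∃ S : Set ℕ, (∀ s ∈ S, s.Prime ∧ 2 < s) ∧
      (∃ c : ℝ, 0 < c ∧ ∃ X₀ : ℕ, ∀ X : ℕ, X₀ ≤ X → c ≤ invSum S X) ∧
      ∀ m l, V m l → ∀ᶠ s in atTop, s ∈ S → ∃ q, q.Prime ∧ 2 * m + 1 < q ∧ s ∣ q - 1 ∧
        ¬ W m l q ((q - 1) / s) := by
  classical
  obtain ⟨S, hS1, hS2, hS3⟩ := diagL
    (fun i q n => V i.unpair.1 i.unpair.2 ∧ W i.unpair.1 i.unpair.2 q n) (by
    intro i
    by_cases h : V i.unpair.1 i.unpair.2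
    · exact (hW _ _ h).mono (fun q n hqn => hqn.2)
    · exact Sparse.false.mono (fun q n hqn => h hqn.1)) 2
  refine ⟨S, hS1, hS2, ?_⟩
  intro m l hV
  have h1 := hS3 (Nat.pair m l)
  filter_upwards [h1, eventually_gt_atTop (2 * m + 1)] with s hs hsm hsS
  obtain ⟨q, hq, hsq, hnb⟩ := hs hsS
  simp only [Nat.unpair_pair] at hnb
  refine ⟨q, hq, ?_, hsq, fun h => hnb ⟨hV, h⟩⟩
  have := hq.two_le
  have := Nat.le_of_dvd (by omega) hsq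
  omega

end Pool.Agent.H573.AHB
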