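import Pool.Agent.H573.AHB.Sum

/-!
Passing from finite sets to counting functions.
-/

namespace Pool.Agent.H573.AHB

open Filter

lemma wrap {P Q : ℕ → Prop}
    (h : ∀ᶠ X : ℕ in atTop, ∃ T : Finset ℕ, (X : ℝ) ^ (31 / 50 : ℝ) ≤ (T.card : ℝ) ∧
      ∀ s ∈ T, s.Prime ∧ s ≤ X ∧ P s) (hPQ : ∀ s, s.Prime → P s → Q s) :
    ∃ X₀ : ℕ, ∀ X : ℕ, X₀ ≤ X →
      (X : ℝ) ^ (31 / 50 : ℝ) ≤ ({s : ℕ | s.Prime ∧ s ≤ X ∧ Q s}.ncard : ℝ) := by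
  obtain ⟨X₀, hX₀⟩ := eventually_atTop.mp h
  refine ⟨X₀, fun X hX => ?_⟩
  obtain ⟨T, hT1, hT2⟩ := hX₀ X hX
  refine hT1.trans ?_
  have hfin : {s : ℕ | s.Prime ∧ s ≤ X ∧ Q s}.Finite :=
    (Set.finite_Iic X).subset (fun s hs => hs.2.1)
  have hsub : (T : Set ℕ) ⊆ {s : ℕ | s.Prime ∧ s ≤ X ∧ Q s} := by
    intro s hs
    obtain ⟨h1, h2, h3⟩ := hT2 s hs
    exact ⟨h1, h2, hPQ s h1 h3⟩
  have h4 := Set.ncard_le_ncard hsub hfin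
  rw [Set.ncard_coe_finset] at h4
  exact_mod_cast h4

end Pool.Agent.H573.AHB
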